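import Mathlib
import Pool.Agent.Helper50.Canon.Cert

set_option autoImplicit false

namespace Pool.Agent.Helper50.Canon.CD

/-- relations between point indices -/
def A : List (ℕ × ℕ × ℕ) := [(40, 27, 25), (40, 11, 41), (40, 24, 4), (40, 45, 45), (20, 37, 29), (20, 52, 19), (20, 10, 13), (20, 24, 51), (20, 16, 8), (20, 45, 7), (20, 21, 11), (3, 27, 17), (3, 11, 12), (3, 24, 48), (3, 39, 30), (3, 33, 36), (3, 16, 22), (3, 45, 21), (3, 7, 24), (2, 52, 44), (2, 52, 6), (2, 27, 35), (2, 11, 25), (2, 45, 49), (2, 8, 43), (2, 7, 45), (2, 4, 1), (31, 52, 9), (31, 16, 14), (31, 7, 16), (15, 24, 14), (15, 33, 41), (15, 45, 4), (15, 21, 26), (15, 8, 50), (15, 7, 33), (15, 49, 27), (37, 16, 25), (37, 21, 35), (37, 7, 39), (37, 23, 38), (29, 27, 42), (29, 38, 11), (29, 24, 21), (29, 22, 17), (29, 21, 8), (29, 4, 10), (29, 32, 24), (29, 0, 29), (34, 27, 19), (34, 38, 10), (34, 10, 30), (34, 33, 48), (34, 7, 7), (34, 49, 24), (34, 48, 34), (46, 38, 19), (46, 24, 36), (46, 8, 17), (46, 7, 8), (46, 49, 10), (46, 23, 24), (46, 18, 46), (5, 38, 42), (5, 45, 51),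 (5, 21, 36), (5, 7, 21), (5, 4, 19), (5, 49, 11), (5, 51, 5), (52, 16, 13), (52, 21, 30), (52, 7, 22), (52, 32, 19), (52, 49, 42), (52, 23, 11), (52, 28, 52), (9, 11, 43), (9, 10, 50), (9, 24, 33), (9, 16, 4), (9, 32, 16), (9, 48, 6), (9, 18, 38), (44, 24, 39), (44, 45, 32), (44, 4, 43), (44, 18, 27), (1, 24, 26), (1, 24, 43), (1, 16, 41), (1, 21, 25), (1, 23, 16), (1, 51, 6), (1, 28, 38), (6, 11, 35), (6, 24, 39), (6, 7, 49), (6, 4, 26), (6, 49, 33), (27, 24, 50), (27, 7, 14), (27, 32, 35), (27, 23, 39), (38, 49, 50), (19, 39, 17), (19, 16, 22), (19, 45, 21), (19, 7, 18), (19, 18, 10), (42, 16, 36), (42, 45, 8), (42, 8, 12), (42, 32, 22), (42, 28, 24), (11, 16, 30), (11, 16, 17), (11, 45, 36), (11, 7, 0), (11, 28, 10), (10, 33, 30), (10, 45, 22), (10, 23, 8), (24, 49, 17), (35, 21, 14), (35, 8, 25), (35, 7, 32), (35, 49, 4), (26, 7, 4), (26, 23, 32), (50, 8, 41), (50, 7, 49), (50, 18, 39), (39, 7, 47), (39, 7, 14), (39, 49, 41), (33, 7, 41), (33, 23, 47), (43, 21, 41), (43, 7, 4), (43, 28, 16), (16, 7, 25), (30, 32, 51), (30, 49, 18), (30, 51,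 22), (36, 4, 13), (36, 49, 48), (36, 23, 18), (36, 28, 21), (22, 49, 0), (22, 23, 51), (21, 49, 12), (21, 49, 13), (21, 23, 0), (17, 4, 0), (17, 49, 18), (8, 32, 12), (8, 23, 48), (41, 18, 14), (41, 51, 25), (41, 28, 32), (47, 28, 4), (25, 28, 49), (4, 28, 14)]

theorem a0 : Valid A [3536, 3254, 3280] := ap_valid 40 27 25 _ (by decide +kernel)
theorem a1 : Valid A [3537, 3255] := ap_valid 40 27 25 _ (by decide +kernel)
theorem a2 : Valid A [3537, 3281] := ap_valid 40 27 25 _ (by decide +kernel)
theorem a3 : Valid A [1488, 1490, 5202] := ap_valid 40 11 41 _ (by decide +kernel)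
theorem a4 : Valid A [1489, 1491] := ap_valid 40 11 41 _ (by decide +kernel)
theorem a5 : Valid A [1489, 5203] := ap_valid 40 11 41 _ (by decide +kernel)
theorem a6 : Valid A [1491, 5203] := ap_valid 40 11 41 _ (by decide +kernel)
theorem a7 : Valid A [3152, 560, 592] := ap_valid 40 24 4 _ (by decide +kernel)
theorem a8 : Valid A [3153, 561] := ap_valid 40 24 4 _ (by decide +kernel)
theorem a9 : Valid A [3153, 593] := ap_valid 40 24 4 _ (by decide +kernel)
theorem a10 : Valid A [5211] := ap_valid 40 45 45 _ (by decide +kernel)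
theorem a11 : Valid A [2634, 3786, 2618] := ap_valid 20 37 29 _ (by decide +kernel)
theorem a12 : Valid A [2635, 3787] := ap_valid 20 37 29 _ (by decide +kernel)
theorem a13 : Valid A [2635, 2619] := ap_valid 20 37 29 _ (by decide +kernel)
theorem a14 : Valid A [2664, 2536, 2472] := ap_valid 20 52 19 _ (by decide +kernel)
theorem a15 : Valid A [2665, 2537] := ap_valid 20 52 19 _ (by decide +kernel)
theorem a16 : Valid A [2665, 2473] := ap_valid 20 52 19 _ (by decide +kernel)
theorem a17 : Valid A [2537, 2473] := ap_valid 20 52 19 _ (by decide +kernel)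
theorem a18 : Valid A [1320, 1306, 1704] := ap_valid 20 10 13 _ (by decide +kernel)
theorem a19 : Valid A [1321, 1307] := ap_valid 20 10 13 _ (by decide +kernel)
theorem a20 : Valid A [1321, 1705] := ap_valid 20 10 13 _ (by decide +kernel)
theorem a21 : Valid A [1307, 1705] := ap_valid 20 10 13 _ (by decide +kernel)
theorem a22 : Valid A [2608, 3174, 2662] := ap_valid 20 24 51 _ (by decide +kernel)
theorem a23 : Valid A [2609, 3175] := ap_valid 20 24 51 _ (by decide +kernel)
theorem a24 : Valid A [2609, 2663] := ap_valid 20 24 51 _ (by decide +kernel)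
theorem a25 : Valid A [2088, 1056, 1064] := ap_valid 20 16 8 _ (by decide +kernel)
theorem a26 : Valid A [2089, 1057] := ap_valid 20 16 8 _ (by decide +kernel)
theorem a27 : Valid A [2089, 1065] := ap_valid 20 16 8 _ (by decide +kernel)
theorem a28 : Valid A [1057, 1065] := ap_valid 20 16 8 _ (by decide +kernel)
theorem a29 : Valid A [2650, 986, 936] := ap_valid 20 45 7 _ (by decide +kernel)
theorem a30 : Valid A [2651, 987] := ap_valid 20 45 7 _ (by decide +kernel)
theorem a31 : Valid A [2651, 937] := ap_valid 20 45 7 _ (by decide +kernel)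
theorem a32 : Valid A [987, 937] := ap_valid 20 45 7 _ (by decide +kernel)
theorem a33 : Valid A [2602, 1450, 1448] := ap_valid 20 21 11 _ (by decide +kernel)
theorem a34 : Valid A [2603, 1451] := ap_valid 20 21 11 _ (by decide +kernel)
theorem a35 : Valid A [1451, 1449] := ap_valid 20 21 11 _ (by decide +kernel)
theorem a36 : Valid A [438, 2230, 418] := ap_valid 3 27 17 _ (by decide +kernel)
theorem a37 : Valid A [439, 2231] := ap_valid 3 27 17 _ (by decide +kernel)
theorem a38 : Valid A [439, 419] := ap_valid 3 27 17 _ (by decide +kernel)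
theorem a39 : Valid A [2231, 419] := ap_valid 3 27 17 _ (by decide +kernel)
theorem a40 : Valid A [406, 1432, 408] := ap_valid 3 11 12 _ (by decide +kernel)
theorem a41 : Valid A [407, 1433] := ap_valid 3 11 12 _ (by decide +kernel)
theorem a42 : Valid A [407, 409] := ap_valid 3 11 12 _ (by decide +kernel)
theorem a43 : Valid A [1433, 409] := ap_valid 3 11 12 _ (by decide +kernel)
theorem a44 : Valid A [432, 3168, 480] := ap_valid 3 24 48 _ (by decide +kernel)
theorem a45 : Valid A [433, 3169] := ap_valid 3 24 48 _ (by decide +kernel)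
theorem a46 : Valid A [433, 481] := ap_valid 3 24 48 _ (by decide +kernel)
theorem a47 : Valid A [3169, 481] := ap_valid 3 24 48 _ (by decide +kernel)
theorem a48 : Valid A [462, 3918, 444] := ap_valid 3 39 30 _ (by decide +kernel)
theorem a49 : Valid A [463, 3919] := ap_valid 3 39 30 _ (by decide +kernel)
theorem a50 : Valid A [463, 445] := ap_valid 3 39 30 _ (by decide +kernel)
theorem a51 : Valid A [3919, 445] := ap_valid 3 39 30 _ (by decide +kernel)
theorem a52 : Valid A [450, 4296, 456] := ap_valid 3 33 36 _ (by decide +kernel)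
theorem a53 : Valid A [451, 4297] := ap_valid 3 33 36 _ (by decide +kernel)
theorem a54 : Valid A [451, 457] := ap_valid 3 33 36 _ (by decide +kernel)
theorem a55 : Valid A [4297, 457] := ap_valid 3 33 36 _ (by decide +kernel)
theorem a56 : Valid A [416, 2092, 428] := ap_valid 3 16 22 _ (by decide +kernel)
theorem a57 : Valid A [417, 2093] := ap_valid 3 16 22 _ (by decide +kernel)
theorem a58 : Valid A [417, 429] := ap_valid 3 16 22 _ (by decide +kernel)
theorem a59 : Valid A [2093, 429] := ap_valid 3 16 22 _ (by decide +kernel)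
theorem a60 : Valid A [474, 2778, 426] := ap_valid 3 45 21 _ (by decide +kernel)
theorem a61 : Valid A [475, 2779] := ap_valid 3 45 21 _ (by decide +kernel)
theorem a62 : Valid A [475, 427] := ap_valid 3 45 21 _ (by decide +kernel)
theorem a63 : Valid A [2779, 427] := ap_valid 3 45 21 _ (by decide +kernel)
theorem a64 : Valid A [398, 944, 432] := ap_valid 3 7 24 _ (by decide +kernel)
theorem a65 : Valid A [399, 945] := ap_valid 3 7 24 _ (by decide +kernel)
theorem a66 : Valid A [399, 433] := ap_valid 3 7 24 _ (by decide +kernel)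
theorem a67 : Valid A [945, 433] := ap_valid 3 7 24 _ (by decide +kernel)
theorem a68 : Valid A [360, 5736, 344] := ap_valid 2 52 44 _ (by decide +kernel)
theorem a69 : Valid A [361, 5737] := ap_valid 2 52 44 _ (by decide +kernel)
theorem a70 : Valid A [361, 345] := ap_valid 2 52 44 _ (by decide +kernel)
theorem a71 : Valid A [360, 872, 268] := ap_valid 2 52 6 _ (by decide +kernel)
theorem a72 : Valid A [361, 873] := ap_valid 2 52 6 _ (by decide +kernel)
theorem a73 : Valid A [361, 269] := ap_valid 2 52 6 _ (by decide +kernel)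
theorem a74 : Valid A [873, 269] := ap_valid 2 52 6 _ (by decide +kernel)
theorem a75 : Valid A [310, 3526, 326] := ap_valid 2 27 35 _ (by decide +kernel)
theorem a76 : Valid A [311, 3527] := ap_valid 2 27 35 _ (by decide +kernel)
theorem a77 : Valid A [278, 1458, 306] := ap_valid 2 11 25 _ (by decide +kernel)
theorem a78 : Valid A [279, 1459] := ap_valid 2 11 25 _ (by decide +kernel)
theorem a79 : Valid A [346, 5858, 354] := ap_valid 2 45 49 _ (by decide +kernel)
theorem a80 : Valid A [347, 5859] := ap_valid 2 45 49 _ (by decide +kernel)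
theorem a81 : Valid A [347, 355] := ap_valid 2 45 49 _ (by decide +kernel)
theorem a82 : Valid A [272, 1110, 342] := ap_valid 2 8 43 _ (by decide +kernel)
theorem a83 : Valid A [273, 1111] := ap_valid 2 8 43 _ (by decide +kernel)
theorem a84 : Valid A [273, 343] := ap_valid 2 8 43 _ (by decide +kernel)
theorem a85 : Valid A [270, 986, 346] := ap_valid 2 7 45 _ (by decide +kernel)
theorem a86 : Valid A [271, 987] := ap_valid 2 7 45 _ (by decide +kernel)
theorem a87 : Valid A [271, 347] := ap_valid 2 7 45 _ (by decide +kernel)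
theorem a88 : Valid A [987, 347] := ap_valid 2 7 45 _ (by decide +kernel)
theorem a89 : Valid A [264, 136, 132] := ap_valid 2 4 1 _ (by decide +kernel)
theorem a90 : Valid A [265, 137] := ap_valid 2 4 1 _ (by decide +kernel)
theorem a91 : Valid A [265, 133] := ap_valid 2 4 1 _ (by decide +kernel)
theorem a92 : Valid A [1968, 1840, 1822] := ap_valid 15 24 14 _ (by decide +kernel)
theorem a93 : Valid A [1969, 1841] := ap_valid 15 24 14 _ (by decide +kernel)
theorem a94 : Valid A [1969, 1823] := ap_valid 15 24 14 _ (by decide +kernel)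
theorem a95 : Valid A [1986, 4306, 2002] := ap_valid 15 33 41 _ (by decide +kernel)
theorem a96 : Valid A [1987, 4307] := ap_valid 15 33 41 _ (by decide +kernel)
theorem a97 : Valid A [1987, 2003] := ap_valid 15 33 41 _ (by decide +kernel)
theorem a98 : Valid A [4307, 2003] := ap_valid 15 33 41 _ (by decide +kernel)
theorem a99 : Valid A [2010, 602, 542] := ap_valid 15 45 4 _ (by decide +kernel)
theorem a100 : Valid A [2011, 603] := ap_valid 15 45 4 _ (by decide +kernel)
theorem a101 : Valid A [2011, 543] := ap_valid 15 45 4 _ (by decide +kernel)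
theorem a102 : Valid A [1962, 2740, 1972] := ap_valid 15 21 26 _ (by decide +kernel)
theorem a103 : Valid A [1963, 2741] := ap_valid 15 21 26 _ (by decide +kernel)
theorem a104 : Valid A [1963, 1973] := ap_valid 15 21 26 _ (by decide +kernel)
theorem a105 : Valid A [1054, 1124, 2020] := ap_valid 15 8 50 _ (by decide +kernel)
theorem a106 : Valid A [1055, 1125] := ap_valid 15 8 50 _ (by decide +kernel)
theorem a107 : Valid A [1055, 2021] := ap_valid 15 8 50 _ (by decide +kernel)
theorem a108 : Valid A [1125, 2021] := ap_valid 15 8 50 _ (by decide +kernel)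
theorem a109 : Valid A [926, 962, 1986] := ap_valid 15 7 33 _ (by decide +kernel)
theorem a110 : Valid A [927, 963] := ap_valid 15 7 33 _ (by decide +kernel)
theorem a111 : Valid A [927, 1987] := ap_valid 15 7 33 _ (by decide +kernel)
theorem a112 : Valid A [963, 1987] := ap_valid 15 7 33 _ (by decide +kernel)
theorem a113 : Valid A [2018, 3554, 1974] := ap_valid 15 49 27 _ (by decide +kernel)
theorem a114 : Valid A [2019, 3555] := ap_valid 15 49 27 _ (by decide +kernel)
theorem a115 : Valid A [2019, 1975] := ap_valid 15 49 27 _ (by decide +kernel)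
theorem a116 : Valid A [3555, 1975] := ap_valid 15 49 27 _ (by decide +kernel)
theorem a117 : Valid A [2122, 2098, 3274] := ap_valid 37 16 25 _ (by decide +kernel)
theorem a118 : Valid A [2099, 3275] := ap_valid 37 16 25 _ (by decide +kernel)
theorem a119 : Valid A [2762, 2758, 4554] := ap_valid 37 21 35 _ (by decide +kernel)
theorem a120 : Valid A [2763, 2759] := ap_valid 37 21 35 _ (by decide +kernel)
theorem a121 : Valid A [970, 974, 4814] := ap_valid 37 7 39 _ (by decide +kernel)
theorem a122 : Valid A [971, 975] := ap_valid 37 7 39 _ (by decide +kernel)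
theorem a123 : Valid A [3018, 3020, 4812] := ap_valid 37 23 38 _ (by decide +kernel)
theorem a124 : Valid A [3019, 3021] := ap_valid 37 23 38 _ (by decide +kernel)
theorem a125 : Valid A [3021, 4813] := ap_valid 37 23 38 _ (by decide +kernel)
theorem a126 : Valid A [3514, 3540, 3796] := ap_valid 29 27 42 _ (by decide +kernel)
theorem a127 : Valid A [3515, 3541] := ap_valid 29 27 42 _ (by decide +kernel)
theorem a128 : Valid A [3515, 3797] := ap_valid 29 27 42 _ (by decide +kernel)
theorem a129 : Valid A [3541, 3797] := ap_valid 29 27 42 _ (by decide +kernel)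
theorem a130 : Valid A [3788, 1484, 1466] := ap_valid 29 38 11 _ (by decide +kernel)
theorem a131 : Valid A [3789, 1485] := ap_valid 29 38 11 _ (by decide +kernel)
theorem a132 : Valid A [3789, 1467] := ap_valid 29 38 11 _ (by decide +kernel)
theorem a133 : Valid A [1485, 1467] := ap_valid 29 38 11 _ (by decide +kernel)
theorem a134 : Valid A [3130, 2736, 2746] := ap_valid 29 24 21 _ (by decide +kernel)
theorem a135 : Valid A [3131, 2737] := ap_valid 29 24 21 _ (by decide +kernel)
theorem a136 : Valid A [3131, 2747] := ap_valid 29 24 21 _ (by decide +kernel)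
theorem a137 : Valid A [2737, 2747] := ap_valid 29 24 21 _ (by decide +kernel)
theorem a138 : Valid A [2874, 2220, 2234] := ap_valid 29 22 17 _ (by decide +kernel)
theorem a139 : Valid A [2875, 2221] := ap_valid 29 22 17 _ (by decide +kernel)
theorem a140 : Valid A [2875, 2235] := ap_valid 29 22 17 _ (by decide +kernel)
theorem a141 : Valid A [2221, 2235] := ap_valid 29 22 17 _ (by decide +kernel)
theorem a142 : Valid A [2746, 1066, 1082] := ap_valid 29 21 8 _ (by decide +kernel)
theorem a143 : Valid A [2747, 1067] := ap_valid 29 21 8 _ (by decide +kernel)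
theorem a144 : Valid A [2747, 1083] := ap_valid 29 21 8 _ (by decide +kernel)
theorem a145 : Valid A [1067, 1083] := ap_valid 29 21 8 _ (by decide +kernel)
theorem a146 : Valid A [570, 532, 1338] := ap_valid 29 4 10 _ (by decide +kernel)
theorem a147 : Valid A [571, 1339] := ap_valid 29 4 10 _ (by decide +kernel)
theorem a148 : Valid A [533, 1339] := ap_valid 29 4 10 _ (by decide +kernel)
theorem a149 : Valid A [3776, 3136, 3130] := ap_valid 29 32 24 _ (by decide +kernel)
theorem a150 : Valid A [3777, 3137] := ap_valid 29 32 24 _ (by decide +kernel)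
theorem a151 : Valid A [3777, 3131] := ap_valid 29 32 24 _ (by decide +kernel)
theorem a152 : Valid A [3137, 3131] := ap_valid 29 32 24 _ (by decide +kernel)
theorem a153 : Valid A [59] := ap_valid 29 0 29 _ (by decide +kernel)
theorem a154 : Valid A [3524, 2486, 2500] := ap_valid 34 27 19 _ (by decide +kernel)
theorem a155 : Valid A [3525, 2487] := ap_valid 34 27 19 _ (by decide +kernel)
theorem a156 : Valid A [3525, 2501] := ap_valid 34 27 19 _ (by decide +kernel)
theorem a157 : Valid A [2487, 2501] := ap_valid 34 27 19 _ (by decide +kernel)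
theorem a158 : Valid A [4428, 1356, 1348] := ap_valid 34 38 10 _ (by decide +kernel)
theorem a159 : Valid A [4429, 1357] := ap_valid 34 38 10 _ (by decide +kernel)
theorem a160 : Valid A [4429, 1349] := ap_valid 34 38 10 _ (by decide +kernel)
theorem a161 : Valid A [1357, 1349] := ap_valid 34 38 10 _ (by decide +kernel)
theorem a162 : Valid A [1348, 1340, 3908] := ap_valid 34 10 30 _ (by decide +kernel)
theorem a163 : Valid A [1349, 1341] := ap_valid 34 10 30 _ (by decide +kernel)
theorem a164 : Valid A [1349, 3909] := ap_valid 34 10 30 _ (by decide +kernel)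
theorem a165 : Valid A [1341, 3909] := ap_valid 34 10 30 _ (by decide +kernel)
theorem a166 : Valid A [4292, 4320, 4448] := ap_valid 34 33 48 _ (by decide +kernel)
theorem a167 : Valid A [965] := ap_valid 34 7 7 _ (by decide +kernel)
theorem a168 : Valid A [4450, 3170, 3140] := ap_valid 34 49 24 _ (by decide +kernel)
theorem a169 : Valid A [4451, 3171] := ap_valid 34 49 24 _ (by decide +kernel)
theorem a170 : Valid A [4451, 3141] := ap_valid 34 49 24 _ (by decide +kernel)
theorem a171 : Valid A [3171, 3141] := ap_valid 34 49 24 _ (by decide +kernel)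
theorem a172 : Valid A [4449] := ap_valid 34 48 34 _ (by decide +kernel)
theorem a173 : Valid A [4956, 2508, 2524] := ap_valid 46 38 19 _ (by decide +kernel)
theorem a174 : Valid A [4957, 2509] := ap_valid 46 38 19 _ (by decide +kernel)
theorem a175 : Valid A [4957, 2525] := ap_valid 46 38 19 _ (by decide +kernel)
theorem a176 : Valid A [2509, 2525] := ap_valid 46 38 19 _ (by decide +kernel)
theorem a177 : Valid A [3164, 3144, 4700] := ap_valid 46 24 36 _ (by decide +kernel)
theorem a178 : Valid A [3165, 3145] := ap_valid 46 24 36 _ (by decide +kernel)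
theorem a179 : Valid A [3165, 4701] := ap_valid 46 24 36 _ (by decide +kernel)
theorem a180 : Valid A [3145, 4701] := ap_valid 46 24 36 _ (by decide +kernel)
theorem a181 : Valid A [1116, 1058, 2268] := ap_valid 46 8 17 _ (by decide +kernel)
theorem a182 : Valid A [1117, 1059] := ap_valid 46 8 17 _ (by decide +kernel)
theorem a183 : Valid A [1117, 2269] := ap_valid 46 8 17 _ (by decide +kernel)
theorem a184 : Valid A [1059, 2269] := ap_valid 46 8 17 _ (by decide +kernel)
theorem a185 : Valid A [988, 912, 1116] := ap_valid 46 7 8 _ (by decide +kernel)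
theorem a186 : Valid A [989, 913] := ap_valid 46 7 8 _ (by decide +kernel)
theorem a187 : Valid A [989, 1117] := ap_valid 46 7 8 _ (by decide +kernel)
theorem a188 : Valid A [913, 1117] := ap_valid 46 7 8 _ (by decide +kernel)
theorem a189 : Valid A [5986, 1378, 1372] := ap_valid 46 49 10 _ (by decide +kernel)
theorem a190 : Valid A [5987, 1379] := ap_valid 46 49 10 _ (by decide +kernel)
theorem a191 : Valid A [5987, 1373] := ap_valid 46 49 10 _ (by decide +kernel)
theorem a192 : Valid A [1379, 1373] := ap_valid 46 49 10 _ (by decide +kernel)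
theorem a193 : Valid A [3036, 2992, 3164] := ap_valid 46 23 24 _ (by decide +kernel)
theorem a194 : Valid A [3037, 2993] := ap_valid 46 23 24 _ (by decide +kernel)
theorem a195 : Valid A [3037, 3165] := ap_valid 46 23 24 _ (by decide +kernel)
theorem a196 : Valid A [2993, 3165] := ap_valid 46 23 24 _ (by decide +kernel)
theorem a197 : Valid A [2397] := ap_valid 46 18 46 _ (by decide +kernel)
theorem a198 : Valid A [716, 4948, 724] := ap_valid 5 38 42 _ (by decide +kernel)
theorem a199 : Valid A [717, 4949] := ap_valid 5 38 42 _ (by decide +kernel)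
theorem a200 : Valid A [717, 725] := ap_valid 5 38 42 _ (by decide +kernel)
theorem a201 : Valid A [730, 5862, 742] := ap_valid 5 45 51 _ (by decide +kernel)
theorem a202 : Valid A [731, 5863] := ap_valid 5 45 51 _ (by decide +kernel)
theorem a203 : Valid A [682, 2760, 712] := ap_valid 5 21 36 _ (by decide +kernel)
theorem a204 : Valid A [683, 2761] := ap_valid 5 21 36 _ (by decide +kernel)
theorem a205 : Valid A [683, 713] := ap_valid 5 21 36 _ (by decide +kernel)
theorem a206 : Valid A [2761, 713] := ap_valid 5 21 36 _ (by decide +kernel)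
theorem a207 : Valid A [654, 938, 682] := ap_valid 5 7 21 _ (by decide +kernel)
theorem a208 : Valid A [655, 939] := ap_valid 5 7 21 _ (by decide +kernel)
theorem a209 : Valid A [655, 683] := ap_valid 5 7 21 _ (by decide +kernel)
theorem a210 : Valid A [939, 683] := ap_valid 5 7 21 _ (by decide +kernel)
theorem a211 : Valid A [522, 550, 678] := ap_valid 5 4 19 _ (by decide +kernel)
theorem a212 : Valid A [523, 551] := ap_valid 5 4 19 _ (by decide +kernel)
theorem a213 : Valid A [523, 679] := ap_valid 5 4 19 _ (by decide +kernel)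
theorem a214 : Valid A [551, 679] := ap_valid 5 4 19 _ (by decide +kernel)
theorem a215 : Valid A [738, 1506, 662] := ap_valid 5 49 11 _ (by decide +kernel)
theorem a216 : Valid A [739, 1507] := ap_valid 5 49 11 _ (by decide +kernel)
theorem a217 : Valid A [739, 663] := ap_valid 5 49 11 _ (by decide +kernel)
theorem a218 : Valid A [1507, 663] := ap_valid 5 49 11 _ (by decide +kernel)
theorem a219 : Valid A [743] := ap_valid 5 51 5 _ (by decide +kernel)
theorem a220 : Valid A [2152, 1696, 1768] := ap_valid 52 16 13 _ (by decide +kernel)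
theorem a221 : Valid A [2153, 1697] := ap_valid 52 16 13 _ (by decide +kernel)
theorem a222 : Valid A [2792, 2748, 3944] := ap_valid 52 21 30 _ (by decide +kernel)
theorem a223 : Valid A [2793, 2749] := ap_valid 52 21 30 _ (by decide +kernel)
theorem a224 : Valid A [2793, 3945] := ap_valid 52 21 30 _ (by decide +kernel)
theorem a225 : Valid A [2749, 3945] := ap_valid 52 21 30 _ (by decide +kernel)
theorem a226 : Valid A [1000, 940, 2920] := ap_valid 52 7 22 _ (by decide +kernel)
theorem a227 : Valid A [1001, 941] := ap_valid 52 7 22 _ (by decide +kernel)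
theorem a228 : Valid A [1001, 2921] := ap_valid 52 7 22 _ (by decide +kernel)
theorem a229 : Valid A [941, 2921] := ap_valid 52 7 22 _ (by decide +kernel)
theorem a230 : Valid A [4200, 2496, 2536] := ap_valid 52 32 19 _ (by decide +kernel)
theorem a231 : Valid A [4201, 2497] := ap_valid 52 32 19 _ (by decide +kernel)
theorem a232 : Valid A [4201, 2537] := ap_valid 52 32 19 _ (by decide +kernel)
theorem a233 : Valid A [2497, 2537] := ap_valid 52 32 19 _ (by decide +kernel)
theorem a234 : Valid A [6376, 5474, 5480] := ap_valid 52 49 42 _ (by decide +kernel)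
theorem a235 : Valid A [6377, 5475] := ap_valid 52 49 42 _ (by decide +kernel)
theorem a236 : Valid A [6377, 5481] := ap_valid 52 49 42 _ (by decide +kernel)
theorem a237 : Valid A [5475, 5481] := ap_valid 52 49 42 _ (by decide +kernel)
theorem a238 : Valid A [3048, 1454, 1512] := ap_valid 52 23 11 _ (by decide +kernel)
theorem a239 : Valid A [3049, 1455] := ap_valid 52 23 11 _ (by decide +kernel)
theorem a240 : Valid A [3049, 1513] := ap_valid 52 23 11 _ (by decide +kernel)
theorem a241 : Valid A [1455, 1513] := ap_valid 52 23 11 _ (by decide +kernel)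
theorem a242 : Valid A [3689] := ap_valid 52 28 52 _ (by decide +kernel)
theorem a243 : Valid A [1174, 1494, 1238] := ap_valid 9 11 43 _ (by decide +kernel)
theorem a244 : Valid A [1175, 1495] := ap_valid 9 11 43 _ (by decide +kernel)
theorem a245 : Valid A [1175, 1239] := ap_valid 9 11 43 _ (by decide +kernel)
theorem a246 : Valid A [1172, 1380, 1252] := ap_valid 9 10 50 _ (by decide +kernel)
theorem a247 : Valid A [1173, 1381] := ap_valid 9 10 50 _ (by decide +kernel)
theorem a248 : Valid A [1173, 1253] := ap_valid 9 10 50 _ (by decide +kernel)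
theorem a249 : Valid A [1381, 1253] := ap_valid 9 10 50 _ (by decide +kernel)
theorem a250 : Valid A [1200, 3138, 1218] := ap_valid 9 24 33 _ (by decide +kernel)
theorem a251 : Valid A [1201, 3139] := ap_valid 9 24 33 _ (by decide +kernel)
theorem a252 : Valid A [3139, 1219] := ap_valid 9 24 33 _ (by decide +kernel)
theorem a253 : Valid A [1184, 544, 530] := ap_valid 9 16 4 _ (by decide +kernel)
theorem a254 : Valid A [1185, 545] := ap_valid 9 16 4 _ (by decide +kernel)
theorem a255 : Valid A [1185, 531] := ap_valid 9 16 4 _ (by decide +kernel)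
theorem a256 : Valid A [545, 531] := ap_valid 9 16 4 _ (by decide +kernel)
theorem a257 : Valid A [1216, 2112, 1184] := ap_valid 9 32 16 _ (by decide +kernel)
theorem a258 : Valid A [1217, 2113] := ap_valid 9 32 16 _ (by decide +kernel)
theorem a259 : Valid A [1217, 1185] := ap_valid 9 32 16 _ (by decide +kernel)
theorem a260 : Valid A [2113, 1185] := ap_valid 9 32 16 _ (by decide +kernel)
theorem a261 : Valid A [1248, 864, 786] := ap_valid 9 48 6 _ (by decide +kernel)
theorem a262 : Valid A [1249, 865] := ap_valid 9 48 6 _ (by decide +kernel)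
theorem a263 : Valid A [1249, 787] := ap_valid 9 48 6 _ (by decide +kernel)
theorem a264 : Valid A [865, 787] := ap_valid 9 48 6 _ (by decide +kernel)
theorem a265 : Valid A [1188, 2380, 1228] := ap_valid 9 18 38 _ (by decide +kernel)
theorem a266 : Valid A [1189, 2381] := ap_valid 9 18 38 _ (by decide +kernel)
theorem a267 : Valid A [1189, 1229] := ap_valid 9 18 38 _ (by decide +kernel)
theorem a268 : Valid A [2381, 1229] := ap_valid 9 18 38 _ (by decide +kernel)
theorem a269 : Valid A [3160, 3150, 5080] := ap_valid 44 24 39 _ (by decide +kernel)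
theorem a270 : Valid A [3161, 3151] := ap_valid 44 24 39 _ (by decide +kernel)
theorem a271 : Valid A [5722, 4186, 4184] := ap_valid 44 45 32 _ (by decide +kernel)
theorem a272 : Valid A [5723, 4187] := ap_valid 44 45 32 _ (by decide +kernel)
theorem a273 : Valid A [5723, 4185] := ap_valid 44 45 32 _ (by decide +kernel)
theorem a274 : Valid A [600, 598, 5592] := ap_valid 44 4 43 _ (by decide +kernel)
theorem a275 : Valid A [599, 5593] := ap_valid 44 4 43 _ (by decide +kernel)
theorem a276 : Valid A [2392, 2358, 3544] := ap_valid 44 18 27 _ (by decide +kernel)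
theorem a277 : Valid A [2393, 2359] := ap_valid 44 18 27 _ (by decide +kernel)
theorem a278 : Valid A [2359, 3545] := ap_valid 44 18 27 _ (by decide +kernel)
theorem a279 : Valid A [176, 3124, 180] := ap_valid 1 24 26 _ (by decide +kernel)
theorem a280 : Valid A [177, 3125] := ap_valid 1 24 26 _ (by decide +kernel)
theorem a281 : Valid A [176, 3158, 214] := ap_valid 1 24 43 _ (by decide +kernel)
theorem a282 : Valid A [177, 3159] := ap_valid 1 24 43 _ (by decide +kernel)
theorem a283 : Valid A [3159, 215] := ap_valid 1 24 43 _ (by decide +kernel)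
theorem a284 : Valid A [160, 2130, 210] := ap_valid 1 16 41 _ (by decide +kernel)
theorem a285 : Valid A [161, 211] := ap_valid 1 16 41 _ (by decide +kernel)
theorem a286 : Valid A [170, 2738, 178] := ap_valid 1 21 25 _ (by decide +kernel)
theorem a287 : Valid A [171, 2739] := ap_valid 1 21 25 _ (by decide +kernel)
theorem a288 : Valid A [174, 2094, 160] := ap_valid 1 23 16 _ (by decide +kernel)
theorem a289 : Valid A [175, 2095] := ap_valid 1 23 16 _ (by decide +kernel)
theorem a290 : Valid A [175, 161] := ap_valid 1 23 16 _ (by decide +kernel)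
theorem a291 : Valid A [2095, 161] := ap_valid 1 23 16 _ (by decide +kernel)
theorem a292 : Valid A [230, 870, 140] := ap_valid 1 51 6 _ (by decide +kernel)
theorem a293 : Valid A [231, 141] := ap_valid 1 51 6 _ (by decide +kernel)
theorem a294 : Valid A [871, 141] := ap_valid 1 51 6 _ (by decide +kernel)
theorem a295 : Valid A [184, 3660, 204] := ap_valid 1 28 38 _ (by decide +kernel)
theorem a296 : Valid A [185, 3661] := ap_valid 1 28 38 _ (by decide +kernel)
theorem a297 : Valid A [185, 205] := ap_valid 1 28 38 _ (by decide +kernel)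
theorem a298 : Valid A [790, 1478, 838] := ap_valid 6 11 35 _ (by decide +kernel)
theorem a299 : Valid A [791, 1479] := ap_valid 6 11 35 _ (by decide +kernel)
theorem a300 : Valid A [816, 3150, 846] := ap_valid 6 24 39 _ (by decide +kernel)
theorem a301 : Valid A [817, 3151] := ap_valid 6 24 39 _ (by decide +kernel)
theorem a302 : Valid A [817, 847] := ap_valid 6 24 39 _ (by decide +kernel)
theorem a303 : Valid A [3151, 847] := ap_valid 6 24 39 _ (by decide +kernel)
theorem a304 : Valid A [782, 994, 866] := ap_valid 6 7 49 _ (by decide +kernel)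
theorem a305 : Valid A [783, 995] := ap_valid 6 7 49 _ (by decide +kernel)
theorem a306 : Valid A [783, 867] := ap_valid 6 7 49 _ (by decide +kernel)
theorem a307 : Valid A [995, 867] := ap_valid 6 7 49 _ (by decide +kernel)
theorem a308 : Valid A [524, 564, 820] := ap_valid 6 4 26 _ (by decide +kernel)
theorem a309 : Valid A [525, 565] := ap_valid 6 4 26 _ (by decide +kernel)
theorem a310 : Valid A [866, 4322, 834] := ap_valid 6 49 33 _ (by decide +kernel)
theorem a311 : Valid A [867, 4323] := ap_valid 6 49 33 _ (by decide +kernel)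
theorem a312 : Valid A [4323, 835] := ap_valid 6 49 33 _ (by decide +kernel)
theorem a313 : Valid A [3126, 3172, 3556] := ap_valid 27 24 50 _ (by decide +kernel)
theorem a314 : Valid A [3127, 3173] := ap_valid 27 24 50 _ (by decide +kernel)
theorem a315 : Valid A [3127, 3557] := ap_valid 27 24 50 _ (by decide +kernel)
theorem a316 : Valid A [3173, 3557] := ap_valid 27 24 50 _ (by decide +kernel)
theorem a317 : Valid A [950, 924, 1846] := ap_valid 27 7 14 _ (by decide +kernel)
theorem a318 : Valid A [951, 925] := ap_valid 27 7 14 _ (by decide +kernel)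
theorem a319 : Valid A [951, 1847] := ap_valid 27 7 14 _ (by decide +kernel)
theorem a320 : Valid A [925, 1847] := ap_valid 27 7 14 _ (by decide +kernel)
theorem a321 : Valid A [3520, 4166, 3526] := ap_valid 27 32 35 _ (by decide +kernel)
theorem a322 : Valid A [3521, 4167] := ap_valid 27 32 35 _ (by decide +kernel)
theorem a323 : Valid A [3521, 3527] := ap_valid 27 32 35 _ (by decide +kernel)
theorem a324 : Valid A [4167, 3527] := ap_valid 27 32 35 _ (by decide +kernel)
theorem a325 : Valid A [2998, 3022, 3534] := ap_valid 27 23 39 _ (by decide +kernel)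
theorem a326 : Valid A [2999, 3023] := ap_valid 27 23 39 _ (by decide +kernel)
theorem a327 : Valid A [2999, 3535] := ap_valid 27 23 39 _ (by decide +kernel)
theorem a328 : Valid A [3023, 3535] := ap_valid 27 23 39 _ (by decide +kernel)
theorem a329 : Valid A [4962, 6372, 4964] := ap_valid 38 49 50 _ (by decide +kernel)
theorem a330 : Valid A [4963, 6373] := ap_valid 38 49 50 _ (by decide +kernel)
theorem a331 : Valid A [4963, 4965] := ap_valid 38 49 50 _ (by decide +kernel)
theorem a332 : Valid A [6373, 4965] := ap_valid 38 49 50 _ (by decide +kernel)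
theorem a333 : Valid A [2510, 2254, 2214] := ap_valid 19 39 17 _ (by decide +kernel)
theorem a334 : Valid A [2511, 2255] := ap_valid 19 39 17 _ (by decide +kernel)
theorem a335 : Valid A [2511, 2215] := ap_valid 19 39 17 _ (by decide +kernel)
theorem a336 : Valid A [2255, 2215] := ap_valid 19 39 17 _ (by decide +kernel)
theorem a337 : Valid A [2086, 2092, 2476] := ap_valid 19 16 22 _ (by decide +kernel)
theorem a338 : Valid A [2087, 2093] := ap_valid 19 16 22 _ (by decide +kernel)
theorem a339 : Valid A [2087, 2477] := ap_valid 19 16 22 _ (by decide +kernel)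
theorem a340 : Valid A [2093, 2477] := ap_valid 19 16 22 _ (by decide +kernel)
theorem a341 : Valid A [2522, 2778, 2474] := ap_valid 19 45 21 _ (by decide +kernel)
theorem a342 : Valid A [2523, 2779] := ap_valid 19 45 21 _ (by decide +kernel)
theorem a343 : Valid A [2523, 2475] := ap_valid 19 45 21 _ (by decide +kernel)
theorem a344 : Valid A [2779, 2475] := ap_valid 19 45 21 _ (by decide +kernel)
theorem a345 : Valid A [934, 932, 2342] := ap_valid 19 7 18 _ (by decide +kernel)
theorem a346 : Valid A [935, 933] := ap_valid 19 7 18 _ (by decide +kernel)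
theorem a347 : Valid A [935, 2343] := ap_valid 19 7 18 _ (by decide +kernel)
theorem a348 : Valid A [933, 2343] := ap_valid 19 7 18 _ (by decide +kernel)
theorem a349 : Valid A [2342, 1316, 1318] := ap_valid 19 18 10 _ (by decide +kernel)
theorem a350 : Valid A [2343, 1317] := ap_valid 19 18 10 _ (by decide +kernel)
theorem a351 : Valid A [2343, 1319] := ap_valid 19 18 10 _ (by decide +kernel)
theorem a352 : Valid A [1317, 1319] := ap_valid 19 18 10 _ (by decide +kernel)
theorem a353 : Valid A [2132, 2120, 4692] := ap_valid 42 16 36 _ (by decide +kernel)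
theorem a354 : Valid A [2133, 2121] := ap_valid 42 16 36 _ (by decide +kernel)
theorem a355 : Valid A [2133, 4693] := ap_valid 42 16 36 _ (by decide +kernel)
theorem a356 : Valid A [5466, 1114, 1108] := ap_valid 42 45 8 _ (by decide +kernel)
theorem a357 : Valid A [5467, 1115] := ap_valid 42 45 8 _ (by decide +kernel)
theorem a358 : Valid A [5467, 1109] := ap_valid 42 45 8 _ (by decide +kernel)
theorem a359 : Valid A [1115, 1109] := ap_valid 42 45 8 _ (by decide +kernel)
theorem a360 : Valid A [1108, 1048, 1620] := ap_valid 42 8 12 _ (by decide +kernel)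
theorem a361 : Valid A [1109, 1049] := ap_valid 42 8 12 _ (by decide +kernel)
theorem a362 : Valid A [1049, 1621] := ap_valid 42 8 12 _ (by decide +kernel)
theorem a363 : Valid A [4180, 2880, 2900] := ap_valid 42 32 22 _ (by decide +kernel)
theorem a364 : Valid A [4181, 2881] := ap_valid 42 32 22 _ (by decide +kernel)
theorem a365 : Valid A [4181, 2901] := ap_valid 42 32 22 _ (by decide +kernel)
theorem a366 : Valid A [2881, 2901] := ap_valid 42 32 22 _ (by decide +kernel)
theorem a367 : Valid A [3668, 3128, 3156] := ap_valid 42 28 24 _ (by decide +kernel)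
theorem a368 : Valid A [3669, 3129] := ap_valid 42 28 24 _ (by decide +kernel)
theorem a369 : Valid A [3669, 3157] := ap_valid 42 28 24 _ (by decide +kernel)
theorem a370 : Valid A [3129, 3157] := ap_valid 42 28 24 _ (by decide +kernel)
theorem a371 : Valid A [1440, 2108, 1468] := ap_valid 11 16 30 _ (by decide +kernel)
theorem a372 : Valid A [1441, 2109] := ap_valid 11 16 30 _ (by decide +kernel)
theorem a373 : Valid A [1441, 1469] := ap_valid 11 16 30 _ (by decide +kernel)
theorem a374 : Valid A [2109, 1469] := ap_valid 11 16 30 _ (by decide +kernel)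
theorem a375 : Valid A [1440, 2082, 1442] := ap_valid 11 16 17 _ (by decide +kernel)
theorem a376 : Valid A [1441, 2083] := ap_valid 11 16 17 _ (by decide +kernel)
theorem a377 : Valid A [1441, 1443] := ap_valid 11 16 17 _ (by decide +kernel)
theorem a378 : Valid A [2083, 1443] := ap_valid 11 16 17 _ (by decide +kernel)
theorem a379 : Valid A [1498, 4698, 1480] := ap_valid 11 45 36 _ (by decide +kernel)
theorem a380 : Valid A [1499, 4699] := ap_valid 11 45 36 _ (by decide +kernel)
theorem a381 : Valid A [1499, 1481] := ap_valid 11 45 36 _ (by decide +kernel)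
theorem a382 : Valid A [4699, 1481] := ap_valid 11 45 36 _ (by decide +kernel)
theorem a383 : Valid A [918, 14, 22] := ap_valid 11 7 0 _ (by decide +kernel)
theorem a384 : Valid A [919, 15] := ap_valid 11 7 0 _ (by decide +kernel)
theorem a385 : Valid A [919, 23] := ap_valid 11 7 0 _ (by decide +kernel)
theorem a386 : Valid A [15, 23] := ap_valid 11 7 0 _ (by decide +kernel)
theorem a387 : Valid A [1464, 1336, 1302] := ap_valid 11 28 10 _ (by decide +kernel)
theorem a388 : Valid A [1465, 1337] := ap_valid 11 28 10 _ (by decide +kernel)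
theorem a389 : Valid A [1465, 1303] := ap_valid 11 28 10 _ (by decide +kernel)
theorem a390 : Valid A [1337, 1303] := ap_valid 11 28 10 _ (by decide +kernel)
theorem a391 : Valid A [1346, 3906, 1340] := ap_valid 10 33 30 _ (by decide +kernel)
theorem a392 : Valid A [1347, 3907] := ap_valid 10 33 30 _ (by decide +kernel)
theorem a393 : Valid A [1347, 1341] := ap_valid 10 33 30 _ (by decide +kernel)
theorem a394 : Valid A [3907, 1341] := ap_valid 10 33 30 _ (by decide +kernel)
theorem a395 : Valid A [1370, 2906, 1324] := ap_valid 10 45 22 _ (by decide +kernel)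
theorem a396 : Valid A [1371, 2907] := ap_valid 10 45 22 _ (by decide +kernel)
theorem a397 : Valid A [1371, 1325] := ap_valid 10 45 22 _ (by decide +kernel)
theorem a398 : Valid A [2907, 1325] := ap_valid 10 45 22 _ (by decide +kernel)
theorem a399 : Valid A [1326, 1070, 1044] := ap_valid 10 23 8 _ (by decide +kernel)
theorem a400 : Valid A [1327, 1071] := ap_valid 10 23 8 _ (by decide +kernel)
theorem a401 : Valid A [1327, 1045] := ap_valid 10 23 8 _ (by decide +kernel)
theorem a402 : Valid A [1071, 1045] := ap_valid 10 23 8 _ (by decide +kernel)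
theorem a403 : Valid A [3170, 2274, 2224] := ap_valid 24 49 17 _ (by decide +kernel)
theorem a404 : Valid A [3171, 2275] := ap_valid 24 49 17 _ (by decide +kernel)
theorem a405 : Valid A [3171, 2225] := ap_valid 24 49 17 _ (by decide +kernel)
theorem a406 : Valid A [2275, 2225] := ap_valid 24 49 17 _ (by decide +kernel)
theorem a407 : Valid A [2758, 1834, 1862] := ap_valid 35 21 14 _ (by decide +kernel)
theorem a408 : Valid A [2759, 1835] := ap_valid 35 21 14 _ (by decide +kernel)
theorem a409 : Valid A [1094, 1074, 3270] := ap_valid 35 8 25 _ (by decide +kernel)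
theorem a410 : Valid A [1095, 1075] := ap_valid 35 8 25 _ (by decide +kernel)
theorem a411 : Valid A [1075, 3271] := ap_valid 35 8 25 _ (by decide +kernel)
theorem a412 : Valid A [966, 960, 4166] := ap_valid 35 7 32 _ (by decide +kernel)
theorem a413 : Valid A [967, 961] := ap_valid 35 7 32 _ (by decide +kernel)
theorem a414 : Valid A [967, 4167] := ap_valid 35 7 32 _ (by decide +kernel)
theorem a415 : Valid A [961, 4167] := ap_valid 35 7 32 _ (by decide +kernel)
theorem a416 : Valid A [4578, 610, 582] := ap_valid 35 49 4 _ (by decide +kernel)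
theorem a417 : Valid A [4579, 611] := ap_valid 35 49 4 _ (by decide +kernel)
theorem a418 : Valid A [4579, 583] := ap_valid 35 49 4 _ (by decide +kernel)
theorem a419 : Valid A [948, 526, 564] := ap_valid 26 7 4 _ (by decide +kernel)
theorem a420 : Valid A [949, 527] := ap_valid 26 7 4 _ (by decide +kernel)
theorem a421 : Valid A [949, 565] := ap_valid 26 7 4 _ (by decide +kernel)
theorem a422 : Valid A [527, 565] := ap_valid 26 7 4 _ (by decide +kernel)
theorem a423 : Valid A [2996, 3008, 3392] := ap_valid 26 23 32 _ (by decide +kernel)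
theorem a424 : Valid A [2997, 3009] := ap_valid 26 23 32 _ (by decide +kernel)
theorem a425 : Valid A [2997, 3393] := ap_valid 26 23 32 _ (by decide +kernel)
theorem a426 : Valid A [1124, 1106, 5348] := ap_valid 50 8 41 _ (by decide +kernel)
theorem a427 : Valid A [1125, 1107] := ap_valid 50 8 41 _ (by decide +kernel)
theorem a428 : Valid A [1125, 5349] := ap_valid 50 8 41 _ (by decide +kernel)
theorem a429 : Valid A [996, 994, 6372] := ap_valid 50 7 49 _ (by decide +kernel)
theorem a430 : Valid A [997, 995] := ap_valid 50 7 49 _ (by decide +kernel)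
theorem a431 : Valid A [997, 6373] := ap_valid 50 7 49 _ (by decide +kernel)
theorem a432 : Valid A [995, 6373] := ap_valid 50 7 49 _ (by decide +kernel)
theorem a433 : Valid A [2404, 2382, 5092] := ap_valid 50 18 39 _ (by decide +kernel)
theorem a434 : Valid A [2405, 2383] := ap_valid 50 18 39 _ (by decide +kernel)
theorem a435 : Valid A [2405, 5093] := ap_valid 50 18 39 _ (by decide +kernel)
theorem a436 : Valid A [2383, 5093] := ap_valid 50 18 39 _ (by decide +kernel)
theorem a437 : Valid A [974, 990, 5086] := ap_valid 39 7 47 _ (by decide +kernel)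
theorem a438 : Valid A [975, 991] := ap_valid 39 7 47 _ (by decide +kernel)
theorem a439 : Valid A [974, 924, 1870] := ap_valid 39 7 14 _ (by decide +kernel)
theorem a440 : Valid A [975, 925] := ap_valid 39 7 14 _ (by decide +kernel)
theorem a441 : Valid A [975, 1871] := ap_valid 39 7 14 _ (by decide +kernel)
theorem a442 : Valid A [5090, 5346, 5074] := ap_valid 39 49 41 _ (by decide +kernel)
theorem a443 : Valid A [5091, 5347] := ap_valid 39 49 41 _ (by decide +kernel)
theorem a444 : Valid A [5091, 5075] := ap_valid 39 49 41 _ (by decide +kernel)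
theorem a445 : Valid A [5347, 5075] := ap_valid 39 49 41 _ (by decide +kernel)
theorem a446 : Valid A [962, 978, 4306] := ap_valid 33 7 41 _ (by decide +kernel)
theorem a447 : Valid A [963, 979] := ap_valid 33 7 41 _ (by decide +kernel)
theorem a448 : Valid A [963, 4307] := ap_valid 33 7 41 _ (by decide +kernel)
theorem a449 : Valid A [3010, 3038, 4318] := ap_valid 33 23 47 _ (by decide +kernel)
theorem a450 : Valid A [3011, 3039] := ap_valid 33 23 47 _ (by decide +kernel)
theorem a451 : Valid A [2774, 2770, 5334] := ap_valid 43 21 41 _ (by decide +kernel)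
theorem a452 : Valid A [2775, 2771] := ap_valid 43 21 41 _ (by decide +kernel)
theorem a453 : Valid A [2771, 5335] := ap_valid 43 21 41 _ (by decide +kernel)
theorem a454 : Valid A [982, 526, 598] := ap_valid 43 7 4 _ (by decide +kernel)
theorem a455 : Valid A [983, 527] := ap_valid 43 7 4 _ (by decide +kernel)
theorem a456 : Valid A [3670, 2104, 2134] := ap_valid 43 28 16 _ (by decide +kernel)
theorem a457 : Valid A [3671, 2105] := ap_valid 43 28 16 _ (by decide +kernel)
theorem a458 : Valid A [3671, 2135] := ap_valid 43 28 16 _ (by decide +kernel)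
theorem a459 : Valid A [2105, 2135] := ap_valid 43 28 16 _ (by decide +kernel)
theorem a460 : Valid A [928, 946, 2098] := ap_valid 16 7 25 _ (by decide +kernel)
theorem a461 : Valid A [929, 947] := ap_valid 16 7 25 _ (by decide +kernel)
theorem a462 : Valid A [929, 2099] := ap_valid 16 7 25 _ (by decide +kernel)
theorem a463 : Valid A [947, 2099] := ap_valid 16 7 25 _ (by decide +kernel)
theorem a464 : Valid A [3904, 4198, 3942] := ap_valid 30 32 51 _ (by decide +kernel)
theorem a465 : Valid A [3905, 4199] := ap_valid 30 32 51 _ (by decide +kernel)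
theorem a466 : Valid A [3905, 3943] := ap_valid 30 32 51 _ (by decide +kernel)
theorem a467 : Valid A [4199, 3943] := ap_valid 30 32 51 _ (by decide +kernel)
theorem a468 : Valid A [3938, 2402, 2364] := ap_valid 30 49 18 _ (by decide +kernel)
theorem a469 : Valid A [3939, 2403] := ap_valid 30 49 18 _ (by decide +kernel)
theorem a470 : Valid A [3939, 2365] := ap_valid 30 49 18 _ (by decide +kernel)
theorem a471 : Valid A [2403, 2365] := ap_valid 30 49 18 _ (by decide +kernel)
theorem a472 : Valid A [3942, 2918, 2876] := ap_valid 30 51 22 _ (by decide +kernel)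
theorem a473 : Valid A [3943, 2919] := ap_valid 30 51 22 _ (by decide +kernel)
theorem a474 : Valid A [3943, 2877] := ap_valid 30 51 22 _ (by decide +kernel)
theorem a475 : Valid A [2919, 2877] := ap_valid 30 51 22 _ (by decide +kernel)
theorem a476 : Valid A [584, 538, 1736] := ap_valid 36 4 13 _ (by decide +kernel)
theorem a477 : Valid A [585, 539] := ap_valid 36 4 13 _ (by decide +kernel)
theorem a478 : Valid A [585, 1737] := ap_valid 36 4 13 _ (by decide +kernel)
theorem a479 : Valid A [4706, 6242, 4704] := ap_valid 36 49 48 _ (by decide +kernel)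
theorem a480 : Valid A [4707, 6243] := ap_valid 36 49 48 _ (by decide +kernel)
theorem a481 : Valid A [4707, 4705] := ap_valid 36 49 48 _ (by decide +kernel)
theorem a482 : Valid A [6243, 4705] := ap_valid 36 49 48 _ (by decide +kernel)
theorem a483 : Valid A [3016, 2350, 2376] := ap_valid 36 23 18 _ (by decide +kernel)
theorem a484 : Valid A [3017, 2351] := ap_valid 36 23 18 _ (by decide +kernel)
theorem a485 : Valid A [3017, 2377] := ap_valid 36 23 18 _ (by decide +kernel)
theorem a486 : Valid A [2351, 2377] := ap_valid 36 23 18 _ (by decide +kernel)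
theorem a487 : Valid A [3656, 2744, 2760] := ap_valid 36 28 21 _ (by decide +kernel)
theorem a488 : Valid A [3657, 2745] := ap_valid 36 28 21 _ (by decide +kernel)
theorem a489 : Valid A [3657, 2761] := ap_valid 36 28 21 _ (by decide +kernel)
theorem a490 : Valid A [2745, 2761] := ap_valid 36 28 21 _ (by decide +kernel)
theorem a491 : Valid A [2914, 98, 44] := ap_valid 22 49 0 _ (by decide +kernel)
theorem a492 : Valid A [2915, 99] := ap_valid 22 49 0 _ (by decide +kernel)
theorem a493 : Valid A [2915, 45] := ap_valid 22 49 0 _ (by decide +kernel)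
theorem a494 : Valid A [99, 45] := ap_valid 22 49 0 _ (by decide +kernel)
theorem a495 : Valid A [2862, 3046, 2918] := ap_valid 22 23 51 _ (by decide +kernel)
theorem a496 : Valid A [2863, 3047] := ap_valid 22 23 51 _ (by decide +kernel)
theorem a497 : Valid A [2863, 2919] := ap_valid 22 23 51 _ (by decide +kernel)
theorem a498 : Valid A [3047, 2919] := ap_valid 22 23 51 _ (by decide +kernel)
theorem a499 : Valid A [2786, 1634, 1578] := ap_valid 21 49 12 _ (by decide +kernel)
theorem a500 : Valid A [2787, 1635] := ap_valid 21 49 12 _ (by decide +kernel)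
theorem a501 : Valid A [2787, 1579] := ap_valid 21 49 12 _ (by decide +kernel)
theorem a502 : Valid A [2786, 1762, 1706] := ap_valid 21 49 13 _ (by decide +kernel)
theorem a503 : Valid A [2787, 1763] := ap_valid 21 49 13 _ (by decide +kernel)
theorem a504 : Valid A [2787, 1707] := ap_valid 21 49 13 _ (by decide +kernel)
theorem a505 : Valid A [2734, 46, 42] := ap_valid 21 23 0 _ (by decide +kernel)
theorem a506 : Valid A [2735, 47] := ap_valid 21 23 0 _ (by decide +kernel)
theorem a507 : Valid A [2735, 43] := ap_valid 21 23 0 _ (by decide +kernel)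
theorem a508 : Valid A [47, 43] := ap_valid 21 23 0 _ (by decide +kernel)
theorem a509 : Valid A [546, 8, 34] := ap_valid 17 4 0 _ (by decide +kernel)
theorem a510 : Valid A [547, 9] := ap_valid 17 4 0 _ (by decide +kernel)
theorem a511 : Valid A [547, 35] := ap_valid 17 4 0 _ (by decide +kernel)
theorem a512 : Valid A [9, 35] := ap_valid 17 4 0 _ (by decide +kernel)
theorem a513 : Valid A [2274, 2402, 2212] := ap_valid 17 49 18 _ (by decide +kernel)
theorem a514 : Valid A [2275, 2403] := ap_valid 17 49 18 _ (by decide +kernel)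
theorem a515 : Valid A [2275, 2213] := ap_valid 17 49 18 _ (by decide +kernel)
theorem a516 : Valid A [2403, 2213] := ap_valid 17 49 18 _ (by decide +kernel)
theorem a517 : Valid A [1088, 1600, 1048] := ap_valid 8 32 12 _ (by decide +kernel)
theorem a518 : Valid A [1089, 1601] := ap_valid 8 32 12 _ (by decide +kernel)
theorem a519 : Valid A [1089, 1049] := ap_valid 8 32 12 _ (by decide +kernel)
theorem a520 : Valid A [1070, 3040, 1120] := ap_valid 8 23 48 _ (by decide +kernel)
theorem a521 : Valid A [1071, 3041] := ap_valid 8 23 48 _ (by decide +kernel)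
theorem a522 : Valid A [1071, 1121] := ap_valid 8 23 48 _ (by decide +kernel)
theorem a523 : Valid A [2386, 1828, 1874] := ap_valid 41 18 14 _ (by decide +kernel)
theorem a524 : Valid A [2387, 1829] := ap_valid 41 18 14 _ (by decide +kernel)
theorem a525 : Valid A [2387, 1875] := ap_valid 41 18 14 _ (by decide +kernel)
theorem a526 : Valid A [1829, 1875] := ap_valid 41 18 14 _ (by decide +kernel)
theorem a527 : Valid A [5350, 3302, 3282] := ap_valid 41 51 25 _ (by decide +kernel)
theorem a528 : Valid A [5351, 3303] := ap_valid 41 51 25 _ (by decide +kernel)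
theorem a529 : Valid A [3666, 3648, 4178] := ap_valid 41 28 32 _ (by decide +kernel)
theorem a530 : Valid A [3667, 3649] := ap_valid 41 28 32 _ (by decide +kernel)
theorem a531 : Valid A [3667, 4179] := ap_valid 41 28 32 _ (by decide +kernel)
theorem a532 : Valid A [3649, 4179] := ap_valid 41 28 32 _ (by decide +kernel)
theorem a533 : Valid A [3678, 568, 606] := ap_valid 47 28 4 _ (by decide +kernel)
theorem a534 : Valid A [3679, 569] := ap_valid 47 28 4 _ (by decide +kernel)
theorem a535 : Valid A [569, 607] := ap_valid 47 28 4 _ (by decide +kernel)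
theorem a536 : Valid A [3256, 3682, 3298] := ap_valid 25 28 49 _ (by decide +kernel)
theorem a537 : Valid A [3257, 3683] := ap_valid 25 28 49 _ (by decide +kernel)
theorem a538 : Valid A [568, 1848, 540] := ap_valid 4 28 14 _ (by decide +kernel)
theorem a539 : Valid A [569, 1849] := ap_valid 4 28 14 _ (by decide +kernel)

end Pool.Agent.Helper50.Canon.CD
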