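import Mathlib
import Pool.Agent.Helper50.Canon.CD.C0

set_option autoImplicit false

namespace Pool.Agent.Helper50.Canon.CD

theorem s0 : Valid A [9, 571] := rup _
  (.cons a153 (.cons (t1 0 4 29) .nil)) (by decide +kernel)
theorem s1 : Valid A [11, 699] := rup _
  (.cons a153 (.cons (t1 0 5 29) .nil)) (by decide +kernel)
theorem s2 : Valid A [15, 955] := rup _
  (.cons a153 (.cons (t1 0 7 29) .nil)) (by decide +kernel)
theorem s3 : Valid A [17, 1083] := rup _
  (.cons a153 (.cons (t1 0 8 29) .nil)) (by decide +kernel)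
theorem s4 : Valid A [23, 1467] := rup _
  (.cons a153 (.cons (t1 0 11 29) .nil)) (by decide +kernel)
theorem s5 : Valid A [35, 2235] := rup _
  (.cons a153 (.cons (t1 0 17 29) .nil)) (by decide +kernel)
theorem s6 : Valid A [37, 2363] := rup _
  (.cons a153 (.cons (t1 0 18 29) .nil)) (by decide +kernel)
theorem s7 : Valid A [43, 2747] := rup _
  (.cons a153 (.cons (t1 0 21 29) .nil)) (by decide +kernel)
theorem s8 : Valid A [45, 2875] := rup _
  (.cons a153 (.cons (t1 0 22 29) .nil)) (by decide +kernel)
theorem s9 : Valid A [47, 3003] := rup _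
  (.cons a153 (.cons (t1 0 23 29) .nil)) (by decide +kernel)
theorem s10 : Valid A [49, 3131] := rup _
  (.cons a153 (.cons (t1 0 24 29) .nil)) (by decide +kernel)
theorem s11 : Valid A [3785, 73] := rup _
  (.cons a153 (.cons (t3 0 29 36) .nil)) (by decide +kernel)
theorem s12 : Valid A [3789, 77] := rup _
  (.cons a153 (.cons (t3 0 29 38) .nil)) (by decide +kernel)
theorem s13 : Valid A [3811, 99] := rup _
  (.cons a153 (.cons (t3 0 29 49) .nil)) (by decide +kernel)
theorem s14 : Valid A [185, 233] := rup _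
  (.cons a242 (.cons (t2 1 28 52) .nil)) (by decide +kernel)
theorem s15 : Valid A [313, 361] := rup _
  (.cons a242 (.cons (t2 2 28 52) .nil)) (by decide +kernel)
theorem s16 : Valid A [399, 453] := rup _
  (.cons a167 (.cons (t2 3 7 34) .nil)) (by decide +kernel)
theorem s17 : Valid A [441, 489] := rup _
  (.cons a242 (.cons (t2 3 28 52) .nil)) (by decide +kernel)
theorem s18 : Valid A [453, 481] := rup _
  (.cons a172 (.cons (t2 3 34 48) .nil)) (by decide +kernel)
theorem s19 : Valid A [465, 475] := rup _
  (.cons a10 (.cons (t2 3 40 45) .nil)) (by decide +kernel)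
theorem s20 : Valid A [569, 617] := rup _
  (.cons a242 (.cons (t2 4 28 52) .nil)) (by decide +kernel)
theorem s21 : Valid A [655, 709] := rup _
  (.cons a167 (.cons (t2 5 7 34) .nil)) (by decide +kernel)
theorem s22 : Valid A [655, 999] := rup _
  (.cons a219 (.cons (t1 5 7 51) .nil)) (by decide +kernel)
theorem s23 : Valid A [663, 1511] := rup _
  (.cons a219 (.cons (t1 5 11 51) .nil)) (by decide +kernel)
theorem s24 : Valid A [677, 2407] := rup _
  (.cons a219 (.cons (t1 5 18 51) .nil)) (by decide +kernel)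
theorem s25 : Valid A [679, 2535] := rup _
  (.cons a219 (.cons (t1 5 19 51) .nil)) (by decide +kernel)
theorem s26 : Valid A [683, 2791] := rup _
  (.cons a219 (.cons (t1 5 21 51) .nil)) (by decide +kernel)
theorem s27 : Valid A [685, 2919] := rup _
  (.cons a219 (.cons (t1 5 22 51) .nil)) (by decide +kernel)
theorem s28 : Valid A [687, 3047] := rup _
  (.cons a219 (.cons (t1 5 23 51) .nil)) (by decide +kernel)
theorem s29 : Valid A [689, 3175] := rup _
  (.cons a219 (.cons (t1 5 24 51) .nil)) (by decide +kernel)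
theorem s30 : Valid A [697, 745] := rup _
  (.cons a242 (.cons (t2 5 28 52) .nil)) (by decide +kernel)
theorem s31 : Valid A [701, 3943] := rup _
  (.cons a219 (.cons (t1 5 30 51) .nil)) (by decide +kernel)
theorem s32 : Valid A [713, 4711] := rup _
  (.cons a219 (.cons (t1 5 36 51) .nil)) (by decide +kernel)
theorem s33 : Valid A [739, 6375] := rup _
  (.cons a219 (.cons (t1 5 49 51) .nil)) (by decide +kernel)
theorem s34 : Valid A [6633, 745] := rup _
  (.cons a219 (.cons (t3 5 51 52) .nil)) (by decide +kernel)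
theorem s35 : Valid A [825, 873] := rup _
  (.cons a242 (.cons (t2 6 28 52) .nil)) (by decide +kernel)
theorem s36 : Valid A [837, 865] := rup _
  (.cons a172 (.cons (t2 6 34 48) .nil)) (by decide +kernel)
theorem s37 : Valid A [913, 1093] := rup _
  (.cons a167 (.cons (t1 7 8 34) .nil)) (by decide +kernel)
theorem s38 : Valid A [917, 1349] := rup _
  (.cons a167 (.cons (t1 7 10 34) .nil)) (by decide +kernel)
theorem s39 : Valid A [919, 1477] := rup _
  (.cons a167 (.cons (t1 7 11 34) .nil)) (by decide +kernel)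
theorem s40 : Valid A [931, 2245] := rup _
  (.cons a167 (.cons (t1 7 17 34) .nil)) (by decide +kernel)
theorem s41 : Valid A [933, 2373] := rup _
  (.cons a167 (.cons (t1 7 18 34) .nil)) (by decide +kernel)
theorem s42 : Valid A [933, 989] := rup _
  (.cons a197 (.cons (t2 7 18 46) .nil)) (by decide +kernel)
theorem s43 : Valid A [935, 2501] := rup _
  (.cons a167 (.cons (t1 7 19 34) .nil)) (by decide +kernel)
theorem s44 : Valid A [939, 2757] := rup _
  (.cons a167 (.cons (t1 7 21 34) .nil)) (by decide +kernel)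
theorem s45 : Valid A [941, 2885] := rup _
  (.cons a167 (.cons (t1 7 22 34) .nil)) (by decide +kernel)
theorem s46 : Valid A [943, 3013] := rup _
  (.cons a167 (.cons (t1 7 23 34) .nil)) (by decide +kernel)
theorem s47 : Valid A [945, 3141] := rup _
  (.cons a167 (.cons (t1 7 24 34) .nil)) (by decide +kernel)
theorem s48 : Valid A [951, 3525] := rup _
  (.cons a167 (.cons (t1 7 27 34) .nil)) (by decide +kernel)
theorem s49 : Valid A [953, 1001] := rup _
  (.cons a242 (.cons (t2 7 28 52) .nil)) (by decide +kernel)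
theorem s50 : Valid A [957, 3909] := rup _
  (.cons a167 (.cons (t1 7 30 34) .nil)) (by decide +kernel)
theorem s51 : Valid A [963, 4293] := rup _
  (.cons a167 (.cons (t1 7 33 34) .nil)) (by decide +kernel)
theorem s52 : Valid A [4425, 969] := rup _
  (.cons a167 (.cons (t3 7 34 36) .nil)) (by decide +kernel)
theorem s53 : Valid A [4429, 973] := rup _
  (.cons a167 (.cons (t3 7 34 38) .nil)) (by decide +kernel)
theorem s54 : Valid A [4431, 975] := rup _
  (.cons a167 (.cons (t3 7 34 39) .nil)) (by decide +kernel)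
theorem s55 : Valid A [4443, 987] := rup _
  (.cons a167 (.cons (t3 7 34 45) .nil)) (by decide +kernel)
theorem s56 : Valid A [4445, 989] := rup _
  (.cons a167 (.cons (t3 7 34 46) .nil)) (by decide +kernel)
theorem s57 : Valid A [4451, 995] := rup _
  (.cons a167 (.cons (t3 7 34 49) .nil)) (by decide +kernel)
theorem s58 : Valid A [4457, 1001] := rup _
  (.cons a167 (.cons (t3 7 34 52) .nil)) (by decide +kernel)
theorem s59 : Valid A [977, 987] := rup _
  (.cons a10 (.cons (t2 7 40 45) .nil)) (by decide +kernel)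
theorem s60 : Valid A [1061, 1117] := rup _
  (.cons a197 (.cons (t2 8 18 46) .nil)) (by decide +kernel)
theorem s61 : Valid A [1081, 1129] := rup _
  (.cons a242 (.cons (t2 8 28 52) .nil)) (by decide +kernel)
theorem s62 : Valid A [1093, 1121] := rup _
  (.cons a172 (.cons (t2 8 34 48) .nil)) (by decide +kernel)
theorem s63 : Valid A [1317, 1373] := rup _
  (.cons a197 (.cons (t2 10 18 46) .nil)) (by decide +kernel)
theorem s64 : Valid A [1337, 1385] := rup _
  (.cons a242 (.cons (t2 10 28 52) .nil)) (by decide +kernel)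
theorem s65 : Valid A [1349, 1377] := rup _
  (.cons a172 (.cons (t2 10 34 48) .nil)) (by decide +kernel)
theorem s66 : Valid A [1361, 1371] := rup _
  (.cons a10 (.cons (t2 10 40 45) .nil)) (by decide +kernel)
theorem s67 : Valid A [1465, 1513] := rup _
  (.cons a242 (.cons (t2 11 28 52) .nil)) (by decide +kernel)
theorem s68 : Valid A [1489, 1499] := rup _
  (.cons a10 (.cons (t2 11 40 45) .nil)) (by decide +kernel)
theorem s69 : Valid A [1849, 1897] := rup _
  (.cons a242 (.cons (t2 14 28 52) .nil)) (by decide +kernel)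
theorem s70 : Valid A [2105, 2153] := rup _
  (.cons a242 (.cons (t2 16 28 52) .nil)) (by decide +kernel)
theorem s71 : Valid A [2213, 2269] := rup _
  (.cons a197 (.cons (t2 17 18 46) .nil)) (by decide +kernel)
theorem s72 : Valid A [2343, 2525] := rup _
  (.cons a197 (.cons (t1 18 19 46) .nil)) (by decide +kernel)
theorem s73 : Valid A [2347, 2781] := rup _
  (.cons a197 (.cons (t1 18 21 46) .nil)) (by decide +kernel)
theorem s74 : Valid A [2351, 3037] := rup _
  (.cons a197 (.cons (t1 18 23 46) .nil)) (by decide +kernel)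
theorem s75 : Valid A [2353, 3165] := rup _
  (.cons a197 (.cons (t1 18 24 46) .nil)) (by decide +kernel)
theorem s76 : Valid A [2365, 3933] := rup _
  (.cons a197 (.cons (t1 18 30 46) .nil)) (by decide +kernel)
theorem s77 : Valid A [2373, 4445] := rup _
  (.cons a197 (.cons (t1 18 34 46) .nil)) (by decide +kernel)
theorem s78 : Valid A [2377, 4701] := rup _
  (.cons a197 (.cons (t1 18 36 46) .nil)) (by decide +kernel)
theorem s79 : Valid A [2381, 4957] := rup _
  (.cons a197 (.cons (t1 18 38 46) .nil)) (by decide +kernel)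
theorem s80 : Valid A [5987, 2403] := rup _
  (.cons a197 (.cons (t3 18 46 49) .nil)) (by decide +kernel)
theorem s81 : Valid A [2489, 2537] := rup _
  (.cons a242 (.cons (t2 19 28 52) .nil)) (by decide +kernel)
theorem s82 : Valid A [2501, 2529] := rup _
  (.cons a172 (.cons (t2 19 34 48) .nil)) (by decide +kernel)
theorem s83 : Valid A [2617, 2665] := rup _
  (.cons a242 (.cons (t2 20 28 52) .nil)) (by decide +kernel)
theorem s84 : Valid A [2745, 2793] := rup _
  (.cons a242 (.cons (t2 21 28 52) .nil)) (by decide +kernel)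
theorem s85 : Valid A [2769, 2779] := rup _
  (.cons a10 (.cons (t2 21 40 45) .nil)) (by decide +kernel)
theorem s86 : Valid A [2897, 2907] := rup _
  (.cons a10 (.cons (t2 22 40 45) .nil)) (by decide +kernel)
theorem s87 : Valid A [3001, 3049] := rup _
  (.cons a242 (.cons (t2 23 28 52) .nil)) (by decide +kernel)
theorem s88 : Valid A [3013, 3041] := rup _
  (.cons a172 (.cons (t2 23 34 48) .nil)) (by decide +kernel)
theorem s89 : Valid A [3129, 3177] := rup _
  (.cons a242 (.cons (t2 24 28 52) .nil)) (by decide +kernel)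
theorem s90 : Valid A [3141, 3169] := rup _
  (.cons a172 (.cons (t2 24 34 48) .nil)) (by decide +kernel)
theorem s91 : Valid A [3153, 3163] := rup _
  (.cons a10 (.cons (t2 24 40 45) .nil)) (by decide +kernel)
theorem s92 : Valid A [3257, 3305] := rup _
  (.cons a242 (.cons (t2 25 28 52) .nil)) (by decide +kernel)
theorem s93 : Valid A [3525, 3553] := rup _
  (.cons a172 (.cons (t2 27 34 48) .nil)) (by decide +kernel)
theorem s94 : Valid A [3645, 3945] := rup _
  (.cons a242 (.cons (t1 28 30 52) .nil)) (by decide +kernel)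
theorem s95 : Valid A [3649, 4201] := rup _
  (.cons a242 (.cons (t1 28 32 52) .nil)) (by decide +kernel)
theorem s96 : Valid A [3657, 4713] := rup _
  (.cons a242 (.cons (t1 28 36 52) .nil)) (by decide +kernel)
theorem s97 : Valid A [3669, 5481] := rup _
  (.cons a242 (.cons (t1 28 42 52) .nil)) (by decide +kernel)
theorem s98 : Valid A [3673, 5737] := rup _
  (.cons a242 (.cons (t1 28 44 52) .nil)) (by decide +kernel)
theorem s99 : Valid A [3675, 5865] := rup _
  (.cons a242 (.cons (t1 28 45 52) .nil)) (by decide +kernel)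
theorem s100 : Valid A [3683, 6377] := rup _
  (.cons a242 (.cons (t1 28 49 52) .nil)) (by decide +kernel)
theorem s101 : Valid A [3909, 3937] := rup _
  (.cons a172 (.cons (t2 30 34 48) .nil)) (by decide +kernel)
theorem s102 : Valid A [3921, 3931] := rup _
  (.cons a10 (.cons (t2 30 40 45) .nil)) (by decide +kernel)
theorem s103 : Valid A [4425, 4705] := rup _
  (.cons a172 (.cons (t1 34 36 48) .nil)) (by decide +kernel)
theorem s104 : Valid A [4429, 4961] := rup _
  (.cons a172 (.cons (t1 34 38 48) .nil)) (by decide +kernel)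
theorem s105 : Valid A [4445, 5985] := rup _
  (.cons a172 (.cons (t1 34 46 48) .nil)) (by decide +kernel)
theorem s106 : Valid A [6243, 4451] := rup _
  (.cons a172 (.cons (t3 34 48 49) .nil)) (by decide +kernel)
theorem s107 : Valid A [5863, 5223] := rup _
  (.cons a10 (.cons (t3 40 45 51) .nil)) (by decide +kernel)
theorem s108 : Valid A [1324, 1319, 2086, 2138, 1370] := rup _
  (.cons a395 (.cons (t1 10 19 22) (.cons (t1 16 22 45) (.cons a337 .nil)))) (by decide +kernel)
theorem s109 : Valid A [1325, 916, 1384, 1000] := rup _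
  (.cons (t3 7 10 22) (.cons (t1 10 22 52) (.cons a226 .nil))) (by decide +kernel)
theorem s110 : Valid A [2086, 2348, 1324, 916, 929, 2138, 1370] := rup _
  (.cons a395 (.cons (t1 16 22 45) (.cons (t2 7 16 19) (.cons s108 (.cons a337 (.cons (t1 18 19 22) (.cons a345 (.cons a349 (.cons (t3 7 10 18) .nil))))))))) (by decide +kernel)
theorem s111 : Valid A [569, 3670, 5592, 3672] := rup _
  (.cons (t2 4 28 43) (.cons (t2 4 28 44) (.cons a274 .nil))) (by decide +kernel)
theorem s112 : Valid A [953, 598, 568, 3670] := rup _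
  (.cons (t2 7 28 43) (.cons (t1 4 7 28) (.cons a454 .nil))) (by decide +kernel)
theorem s113 : Valid A [1465, 1208, 1238, 3670] := rup _
  (.cons (t1 9 11 28) (.cons (t2 11 28 43) (.cons a243 .nil))) (by decide +kernel)
theorem s114 : Valid A [2745, 3644, 3944] := rup _
  (.cons s84 (.cons (t2 21 28 30) (.cons a222 .nil))) (by decide +kernel)
theorem s115 : Valid A [2760, 696, 682, 2744] := rup _
  (.cons a203 (.cons a487 (.cons (t3 5 28 36) .nil))) (by decide +kernel)
theorem s116 : Valid A [2761, 3912, 3944, 4712] := rup _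
  (.cons (t2 21 30 36) (.cons (t2 21 36 52) (.cons a222 .nil))) (by decide +kernel)
theorem s117 : Valid A [682, 938, 2760, 2744, 952] := rup _
  (.cons a207 (.cons s115 (.cons (t2 5 7 28) .nil))) (by decide +kernel)
theorem s118 : Valid A [1319, 2778, 1322, 1370] := rup _
  (.cons (t1 10 19 45) (.cons (t1 10 19 21) (.cons a341 .nil))) (by decide +kernel)
theorem s119 : Valid A [1185, 1190, 2476, 2881] := rup _
  (.cons a260 (.cons (t1 9 16 19) (.cons (t1 16 22 32) (.cons a337 .nil)))) (by decide +kernel)
theorem s120 : Valid A [551, 1316, 532, 527] := rup _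
  (.cons (t2 4 7 19) (.cons (t3 4 10 19) (.cons a347 (.cons a349 .nil)))) (by decide +kernel)
theorem s121 : Valid A [1469, 3048, 2365, 3944, 3930, 4698] := rup _
  (.cons (t3 11 18 30) (.cons (t2 11 30 45) (.cons (t2 11 30 52) (.cons a379 (.cons a238 (.cons (t2 11 18 36) (.cons (t2 11 18 23) (.cons a486 .nil)))))))) (by decide +kernel)
theorem s122 : Valid A [2275, 2020, 926, 5987, 988, 6373] := rup _
  (.cons (t3 17 46 49) (.cons (t1 17 49 50) (.cons a183 (.cons a184 (.cons (t3 8 17 50) (.cons a185 (.cons a105 (.cons (t1 7 8 15) .nil)))))))) (by decide +kernel)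
theorem s123 : Valid A [2342, 932, 2347, 2778, 986] := rup _
  (.cons a345 (.cons (t3 18 19 21) (.cons (t1 7 19 45) (.cons a341 .nil)))) (by decide +kernel)
theorem s124 : Valid A [938, 526, 522, 654, 2347, 731] := rup _
  (.cons (t1 7 18 21) (.cons a207 (.cons (t2 5 21 45) (.cons a342 (.cons a344 (.cons (t2 5 19 45) (.cons (t2 18 19 21) (.cons a211 (.cons a345 (.cons (t3 4 7 19) .nil)))))))))) (by decide +kernel)
theorem s125 : Valid A [1348, 4428, 3916, 3908] := rup _
  (.cons a162 (.cons a158 (.cons (t2 10 30 38) .nil))) (by decide +kernel)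
theorem s126 : Valid A [2907, 3930, 3942, 5862] := rup _
  (.cons (t2 22 45 51) (.cons (t2 22 30 45) (.cons a472 .nil))) (by decide +kernel)
theorem s127 : Valid A [3145, 4424, 4706, 4450] := rup _
  (.cons (t2 24 36 49) (.cons (t2 24 34 36) (.cons a168 .nil))) (by decide +kernel)
theorem s128 : Valid A [935, 1348, 916, 4956, 988] := rup _
  (.cons s43 (.cons (t1 7 19 46) (.cons (t3 7 10 19) (.cons a173 (.cons (t3 10 19 38) (.cons (t3 19 34 38) (.cons a158 .nil))))))) (by decide +kernel)
theorem s129 : Valid A [1319, 934, 1348, 2365] := rup _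
  (.cons a351 (.cons a352 (.cons a345 (.cons (t3 10 18 30) (.cons s41 (.cons a162 (.cons (t1 18 30 34) .nil))))))) (by decide +kernel)
theorem s130 : Valid A [939, 2522, 934, 986] := rup _
  (.cons (t1 7 21 45) (.cons (t3 7 19 21) (.cons a341 .nil))) (by decide +kernel)
theorem s131 : Valid A [2907, 986, 5864, 1000] := rup _
  (.cons (t1 7 22 45) (.cons (t2 22 45 52) (.cons a226 .nil))) (by decide +kernel)
theorem s132 : Valid A [355, 986, 994] := rup _
  (.cons a81 (.cons (t2 2 7 49) (.cons a85 .nil))) (by decide +kernel)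
theorem s133 : Valid A [1303, 660, 1378, 738] := rup _
  (.cons (t1 10 11 49) (.cons (t3 5 10 11) (.cons a215 .nil))) (by decide +kernel)
theorem s134 : Valid A [1347, 1326, 1374, 3038] := rup _
  (.cons (t3 10 23 33) (.cons (t1 10 33 47) (.cons a449 .nil))) (by decide +kernel)
theorem s135 : Valid A [1347, 1348, 1376] := rup _
  (.cons a172 (.cons (t1 10 33 34) (.cons (t1 10 33 48) (.cons a166 .nil)))) (by decide +kernel)
theorem s136 : Valid A [445, 3132, 3168, 3936] := rup _
  (.cons (t2 3 24 30) (.cons (t2 3 30 48) (.cons a44 .nil))) (by decide +kernel)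
theorem s137 : Valid A [2382, 2365, 2404, 484, 444] := rup _
  (.cons a433 (.cons (t1 18 30 39) (.cons (t1 3 39 50) (.cons a48 .nil)))) (by decide +kernel)
theorem s138 : Valid A [2269, 2402, 5986] := rup _
  (.cons s71 (.cons (t2 17 46 49) (.cons a513 .nil))) (by decide +kernel)
theorem s139 : Valid A [2383, 420, 444, 2364] := rup _
  (.cons (t3 3 18 39) (.cons (t3 18 30 39) (.cons a48 .nil))) (by decide +kernel)
theorem s140 : Valid A [3171, 4700, 5986, 4706] := rup _
  (.cons (t2 24 36 49) (.cons (t2 24 46 49) (.cons a177 .nil))) (by decide +kernel)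
theorem s141 : Valid A [451, 3138, 962, 944] := rup _
  (.cons (t2 3 7 33) (.cons (t2 3 24 33) (.cons a64 .nil))) (by decide +kernel)
theorem s142 : Valid A [3016, 2376, 3145, 3164] := rup _
  (.cons (t1 23 24 36) (.cons a483 (.cons a193 (.cons s74 .nil)))) (by decide +kernel)
theorem s143 : Valid A [1071, 988, 942, 3036] := rup _
  (.cons (t2 8 23 46) (.cons (t1 7 8 23) (.cons a185 .nil))) (by decide +kernel)
theorem s144 : Valid A [988, 942, 3036, 3040, 5984, 992] := rup _
  (.cons s143 (.cons a520 (.cons (t1 7 8 48) (.cons (t2 8 46 48) (.cons a185 .nil))))) (by decide +kernel)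
theorem s145 : Valid A [432, 944, 3168, 992] := rup _
  (.cons a64 (.cons a44 (.cons (t2 3 7 48) .nil))) (by decide +kernel)
theorem s146 : Valid A [683, 445, 3944, 731, 744] := rup _
  (.cons (t2 5 21 45) (.cons (t1 5 21 52) (.cons a63 (.cons a222 (.cons (t3 3 21 30) .nil))))) (by decide +kernel)
theorem s147 : Valid A [939, 956, 3944, 1000] := rup _
  (.cons (t1 7 21 52) (.cons (t1 7 21 30) (.cons a222 .nil))) (by decide +kernel)
theorem s148 : Valid A [783, 4322, 962] := rup _
  (.cons a306 (.cons (t2 6 7 33) (.cons a310 .nil))) (by decide +kernel)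
theorem s149 : Valid A [2760, 3913, 968, 938, 3944, 744] := rup _
  (.cons (t1 21 30 36) (.cons a222 (.cons (t1 5 21 52) (.cons a203 (.cons a207 (.cons (t2 5 7 36) .nil)))))) (by decide +kernel)

end Pool.Agent.Helper50.Canon.CD
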