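import Mathlib
import Pool.Agent.Helper50.Canon.CD.C1

set_option autoImplicit false

namespace Pool.Agent.Helper50.Canon.CD

theorem s150 : Valid A [963, 992] := rup _
  (.cons a172 (.cons s51 (.cons (t1 7 33 48) (.cons a166 .nil)))) (by decide +kernel)
theorem s151 : Valid A [1379, 354, 2907, 1000, 6377] := rup _
  (.cons a396 (.cons (t1 10 49 52) (.cons (t3 10 45 49) (.cons (t3 10 45 52) (.cons a79 (.cons s131 (.cons a88 .nil))))))) (by decide +kernel)
theorem s152 : Valid A [3017, 2888, 2918, 4710] := rup _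
  (.cons (t2 23 36 51) (.cons (t1 22 23 36) (.cons a495 .nil))) (by decide +kernel)
theorem s153 : Valid A [939, 474, 398, 986] := rup _
  (.cons (t1 7 21 45) (.cons (t3 3 7 21) (.cons a60 .nil))) (by decide +kernel)
theorem s154 : Valid A [1070, 943, 3040, 988, 5984] := rup _
  (.cons a520 (.cons (t2 7 8 23) (.cons (t2 8 46 48) (.cons a185 .nil)))) (by decide +kernel)
theorem s155 : Valid A [3047, 2791, 685, 655, 2914, 6377, 6633] := rup _
  (.cons (t3 49 51 52) (.cons s34 (.cons (t1 5 49 52) (.cons (t3 23 49 51) (.cons (t1 23 51 52) (.cons (t3 21 23 51) (.cons a239 (.cons a506 (.cons (t3 11 23 49) (.cons (t3 0 23 49) (.cons a215 (.cons a491 (.cons (t2 5 7 11) (.cons (t2 5 11 22) (.cons (t3 0 11 22) (.cons a385 .nil)))))))))))))))) (by decide +kernel)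
theorem s156 : Valid A [399, 938, 2778, 986] := rup _
  (.cons (t2 3 7 45) (.cons (t2 3 7 21) (.cons a60 .nil))) (by decide +kernel)
theorem s157 : Valid A [433, 3162, 939, 986] := rup _
  (.cons a66 (.cons (t2 3 24 45) (.cons s153 .nil))) (by decide +kernel)
theorem s158 : Valid A [945, 4450, 994] := rup _
  (.cons s47 (.cons (t1 7 24 49) (.cons a168 .nil))) (by decide +kernel)
theorem s159 : Valid A [2403, 3044, 3042, 3144, 3172, 3170, 433, 867, 4706, 6373] := rup _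
  (.cons (t2 6 24 49) (.cons a514 (.cons (t2 18 36 49) (.cons (t1 18 49 50) (.cons (t2 18 23 49) (.cons (t3 6 18 49) (.cons a403 (.cons a434 (.cons a483 (.cons (t2 6 18 39) (.cons (t3 3 17 24) (.cons (t2 23 24 36) (.cons a300 (.cons a38 (.cons (t3 23 24 39) (.cons (t1 3 24 39) (.cons (t1 3 24 27) (.cons (t3 3 27 39) (.cons a313 (.cons a325 (.cons (t1 23 27 50) .nil))))))))))))))))))))) (by decide +kernel)
theorem s160 : Valid A [2269, 3170, 3164, 5986] := rup _
  (.cons (t2 17 24 46) (.cons (t2 17 46 49) (.cons a403 .nil))) (by decide +kernel)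
theorem s161 : Valid A [3040, 1072, 1120, 3164, 5985] := rup _
  (.cons (t1 23 46 48) (.cons a520 (.cons a193 (.cons (t1 8 23 24) .nil)))) (by decide +kernel)
theorem s162 : Valid A [913, 944, 1059, 3170, 994] := rup _
  (.cons (t1 7 8 49) (.cons (t1 7 8 24) (.cons (t1 8 17 49) (.cons (t1 8 17 24) (.cons a403 .nil))))) (by decide +kernel)
theorem s163 : Valid A [5093, 816, 868, 3172] := rup _
  (.cons (t1 24 39 50) (.cons (t1 6 39 50) (.cons a300 .nil))) (by decide +kernel)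
theorem s164 : Valid A [1348, 3148, 1356, 1379, 3170] := rup _
  (.cons (t3 10 34 49) (.cons a158 (.cons a168 (.cons (t1 24 34 38) .nil)))) (by decide +kernel)
theorem s165 : Valid A [1340, 1346, 2370, 1379, 2402] := rup _
  (.cons (t3 10 30 49) (.cons a391 (.cons a468 (.cons (t1 18 30 33) .nil)))) (by decide +kernel)
theorem s166 : Valid A [1249, 2380, 4960, 2400] := rup _
  (.cons (t2 9 18 48) (.cons (t2 9 38 48) (.cons a265 .nil))) (by decide +kernel)
theorem s167 : Valid A [864, 1248, 1250, 993, 994] := rup _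
  (.cons (t1 6 7 48) (.cons a261 (.cons a304 (.cons (t2 6 9 49) .nil)))) (by decide +kernel)
theorem s168 : Valid A [2383, 2371, 962, 5346, 2018, 2402, 943, 932, 2350] := rup _
  (.cons (t1 18 39 49) (.cons (t3 18 23 39) (.cons (t3 7 18 39) (.cons (t2 18 33 39) (.cons a442 (.cons (t1 18 39 41) (.cons (t1 33 39 41) (.cons a524 (.cons a96 (.cons (t3 14 18 39) (.cons a109 (.cons a439 (.cons a318 (.cons (t1 7 23 27) (.cons (t1 7 15 27) (.cons a325 (.cons a113 (.cons (t2 27 39 49) .nil)))))))))))))))))) (by decide +kernel)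
theorem s169 : Valid A [941, 956, 3942, 998] := rup _
  (.cons (t1 7 22 51) (.cons (t1 7 22 30) (.cons a472 .nil))) (by decide +kernel)
theorem s170 : Valid A [683, 2522, 730, 2481, 1082, 656] := rup _
  (.cons (t1 5 21 45) (.cons (t3 5 8 21) (.cons a341 (.cons a142 (.cons (t2 19 21 24) (.cons a137 .nil)))))) (by decide +kernel)
theorem s171 : Valid A [2778, 2522, 1115, 2481, 1082] := rup _
  (.cons (t2 8 21 45) (.cons a341 (.cons a142 (.cons (t2 19 21 24) (.cons a137 .nil))))) (by decide +kernel)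
theorem s172 : Valid A [2906, 3797, 1062, 1318, 1322, 1082, 1069, 1324, 1108] := rup _
  (.cons (t2 8 22 45) (.cons a395 (.cons a356 (.cons (t3 10 21 45) (.cons (t3 10 19 45) (.cons (t1 29 42 45) (.cons a341 (.cons (t1 21 29 45) (.cons (t3 8 19 21) (.cons a142 .nil)))))))))) (by decide +kernel)
theorem s173 : Valid A [2343, 1322, 3141, 2373, 2874, 1069, 2348, 2864, 2917, 1324, 2921, 940, 1108, 1060, 932, 3172, 994, 5476, 6377] := rup _
  (.cons (t3 18 24 34) (.cons (t2 8 22 29) (.cons (t3 22 29 50) (.cons a236 (.cons (t2 22 42 52) (.cons (t3 22 49 52) (.cons a351 (.cons (t2 18 19 34) (.cons (t3 8 18 19) (.cons (t1 18 19 22) (.cons (t2 18 19 24) (.cons a156 (.cons (t2 24 27 34) (.cons (t2 18 27 34) (.cons a313 (.cons (t2 27 42 50) (.cons (t3 22 27 50) (.cons (t2 27 29 50) (.cons a126 (.cons s172 (.cons (t3 7 22 45) (.cons (t2 22 45 49) (.cons (t2 22 45 52) (.cons (t1 8 22 45) (.cons (t3 22 24 45) (.cons (t3 22 29 45) (.cons (t3 19 22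 45) (.cons (t2 22 27 45) (.cons s132 (.cons a80 (.cons s171 (.cons (t3 2 49 52) (.cons a85 (.cons (t2 21 24 45) (.cons (t2 21 29 45) (.cons (t2 2 7 18) (.cons a134 (.cons a151 (.cons (t3 29 32 42) (.cons a363 (.cons (t2 22 32 45) (.cons a272 (.cons (t3 44 45 52) (.cons (t2 27 44 45) (.cons a68 (.cons a276 (.cons (t3 2 18 44) .nil))))))))))))))))))))))))))))))))))))))))))))))) (by decide +kernel)
theorem s174 : Valid A [962, 978, 1107, 1124, 996] := rup _
  (.cons a446 (.cons a96 (.cons a98 (.cons a109 (.cons (t2 8 15 41) (.cons (t1 7 15 50) (.cons a105 .nil))))))) (by decide +kernel)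
theorem s175 : Valid A [1060, 1840, 3155, 1059, 2274, 978, 1107, 5346, 932, 6373] := rup _
  (.cons (t3 14 24 41) (.cons (t1 8 17 18) (.cons (t3 8 18 41) (.cons a513 (.cons (t1 18 49 50) (.cons a434 (.cons (t3 18 39 49) (.cons a442 (.cons (t3 24 39 41) (.cons (t1 7 39 41) (.cons (t3 14 24 39) (.cons a439 (.cons a523 (.cons (t1 7 14 18) .nil)))))))))))))) (by decide +kernel)
theorem s176 : Valid A [4292, 4320] := rup _
  (.cons a172 (.cons a166 .nil)) (by decide +kernel)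
theorem s177 : Valid A [730, 5862] := rup _
  (.cons a219 (.cons a201 .nil)) (by decide +kernel)
theorem s178 : Valid A [1109, 656, 1127, 4954, 1100] := rup _
  (.cons a359 (.cons (t3 8 38 42) (.cons (t3 5 8 42) (.cons (t3 8 45 51) (.cons a198 (.cons s177 (.cons (t2 5 38 45) .nil))))))) (by decide +kernel)
theorem s179 : Valid A [996, 974, 952, 3683, 943, 3126, 994, 986, 2382, 3170, 912, 1088, 1122, 2402] := rup _
  (.cons s132 (.cons a429 (.cons (t3 24 49 50) (.cons (t3 8 49 50) (.cons (t3 18 49 50) (.cons (t3 2 49 50) (.cons (t1 28 49 50) (.cons a313 (.cons a433 (.cons (t3 28 39 50) (.cons (t3 27 28 50) (.cons (t3 27 49 50) (.cons (t1 2 27 50) (.cons (t3 39 49 50) (.cons a114 (.cons a443 (.cons (t3 15 49 50) (.cons (t3 41 49 50) (.cons (t2 28 41 49) (.cons a105 (.cons a426 (.cons (t3 7 8 15) (.cons (t3 7 8 41) (.cons s174 (.cons (t3 8 32 41) (.cons (t2 7 23 33) (.cons a529 (.cons a450 (.cons (t2 28 32 49) (.cons (t3 7 28 32) (.cons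 (t1 27 28 32) (.cons (t2 7 23 47) (.cons a322 (.cons a323 (.cons a437 (.cons a412 (.cons (t3 32 35 49) (.cons a75 (.cons (t1 28 39 47) (.cons (t3 7 15 35) (.cons (t1 7 35 45) (.cons a534 (.cons (t2 2 35 45) (.cons (t3 4 28 49) (.cons a79 (.cons (t1 4 45 49) (.cons a416 (.cons (t1 15 45 49) (.cons a99 (.cons (t2 4 15 35) .nil)))))))))))))))))))))))))))))))))))))))))))))))))) (by decide +kernel)
theorem s180 : Valid A [997, 950, 3126, 944] := rup _
  (.cons (t3 7 24 50) (.cons (t3 7 27 50) (.cons a313 .nil))) (by decide +kernel)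
theorem s181 : Valid A [975, 943, 3126, 994, 2382, 944, 2402] := rup _
  (.cons (t2 7 23 39) (.cons a326 (.cons (t2 7 23 27) (.cons s180 (.cons a429 (.cons (t1 7 39 50) (.cons (t3 18 49 50) (.cons a433 .nil)))))))) (by decide +kernel)
theorem s182 : Valid A [2225, 1072, 3164, 1116] := rup _
  (.cons (t2 17 24 46) (.cons (t1 8 17 24) (.cons a181 .nil))) (by decide +kernel)
theorem s183 : Valid A [963, 1340, 956, 916] := rup _
  (.cons (t3 7 10 33) (.cons (t3 7 30 33) (.cons a391 .nil))) (by decide +kernel)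
theorem s184 : Valid A [1107, 962, 1124, 912, 996] := rup _
  (.cons (t3 7 8 41) (.cons s174 .nil)) (by decide +kernel)
theorem s185 : Valid A [5349, 5090, 6372, 5092] := rup _
  (.cons (t1 39 41 50) (.cons (t2 41 49 50) (.cons a442 .nil))) (by decide +kernel)
theorem s186 : Valid A [962, 850, 978, 995] := rup _
  (.cons a307 (.cons (t3 7 33 49) (.cons a446 (.cons a310 (.cons (t1 6 33 41) .nil))))) (by decide +kernel)
theorem s187 : Valid A [3173, 974, 995, 5349] := rup _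
  (.cons a432 (.cons (t2 41 49 50) (.cons (t3 7 39 49) (.cons a442 (.cons s185 (.cons a430 (.cons (t1 7 41 50) (.cons a316 (.cons (t3 24 39 50) (.cons (t3 24 41 50) (.cons (t1 27 41 50) (.cons a301 (.cons (t3 6 24 41) (.cons s186 (.cons a110 (.cons a112 (.cons a448 (.cons (t3 7 15 49) (.cons a95 (.cons (t3 15 24 41) (.cons (t3 15 39 41) (.cons (t2 15 27 41) (.cons a94 (.cons (t3 14 15 39) (.cons a113 (.cons a439 (.cons (t3 7 27 49) (.cons a318 .nil)))))))))))))))))))))))))))) (by decide +kernel)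
theorem s188 : Valid A [951, 944, 3172, 996] := rup _
  (.cons (t1 7 27 50) (.cons (t3 7 24 27) (.cons a313 .nil))) (by decide +kernel)
theorem s189 : Valid A [485, 944, 3172, 996] := rup _
  (.cons (t2 3 7 50) (.cons (t2 3 24 50) (.cons a64 .nil))) (by decide +kernel)
theorem s190 : Valid A [956, 916, 3022, 963, 462, 484, 3141, 1102, 2382, 2404, 995] := rup _
  (.cons (t3 7 10 49) (.cons s150 (.cons s90 (.cons (t3 7 30 49) (.cons s183 (.cons (t3 7 30 48) (.cons a165 (.cons (t2 24 30 34) (.cons s136 (.cons s137 (.cons a48 (.cons a468 (.cons (t1 23 30 39) (.cons (t1 8 30 39) (.cons s80 (.cons (t2 10 23 30) (.cons (t1 8 10 30) (.cons a189 (.cons (t2 7 46 49) (.cons a399 (.cons (t3 8 10 46) (.cons a185 (.cons a522 (.cons (t2 7 8 48) .nil)))))))))))))))))))))))) (by decide +kernel)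
theorem s191 : Valid A [1071, 3036, 988, 993] := rup _
  (.cons a521 (.cons s143 (.cons (t2 7 23 48) .nil))) (by decide +kernel)
theorem s192 : Valid A [1318, 1316, 1349, 2358, 3524] := rup _
  (.cons (t3 10 19 34) (.cons a349 (.cons a154 (.cons (t1 18 19 27) .nil)))) (by decide +kernel)
theorem s193 : Valid A [1319, 932, 916] := rup _
  (.cons a351 (.cons (t3 7 10 19) (.cons a345 .nil))) (by decide +kernel)
theorem s194 : Valid A [916, 3022, 2358, 3524, 963, 462, 484, 950, 3141, 1102, 2382, 2404, 995] := rup _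
  (.cons s190 (.cons s50 (.cons (t2 7 30 49) (.cons (t3 7 10 30) (.cons a469 (.cons a162 (.cons (t2 7 18 49) (.cons s193 (.cons (t3 10 19 34) (.cons s192 (.cons a154 (.cons a350 (.cons (t1 7 19 27) (.cons a345 .nil)))))))))))))) (by decide +kernel)
theorem s195 : Valid A [1317, 3145, 988, 1352, 1379, 993, 3170] := rup _
  (.cons a190 (.cons a178 (.cons s160 (.cons a180 (.cons a192 (.cons (t2 10 18 49) (.cons (t1 10 18 36) (.cons a514 (.cons s142 (.cons a403 (.cons (t3 23 24 36) (.cons (t2 23 36 46) (.cons (t1 10 23 36) (.cons (t3 17 23 24) (.cons s191 (.cons (t1 8 17 23) (.cons a399 (.cons a181 (.cons (t2 8 10 46) .nil))))))))))))))))))) (by decide +kernel)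
theorem s196 : Valid A [1319, 1334, 1348, 3524] := rup _
  (.cons (t1 10 19 34) (.cons (t1 10 19 27) (.cons a154 .nil))) (by decide +kernel)
theorem s197 : Valid A [1045, 2510, 1318, 2268, 1372, 1102] := rup _
  (.cons (t2 8 10 46) (.cons (t2 8 10 19) (.cons a181 (.cons (t1 8 17 19) (.cons (t1 8 17 39) (.cons a333 .nil)))))) (by decide +kernel)
theorem s198 : Valid A [2761, 2778, 1322, 1370, 1071, 3016, 3913, 3145, 956, 917, 995] := rup _
  (.cons (t2 7 10 21) (.cons (t2 7 10 49) (.cons (t3 10 21 49) (.cons (t2 7 10 45) (.cons (t2 8 23 36) (.cons a204 (.cons (t3 21 24 36) (.cons (t2 21 23 36) (.cons (t1 8 21 36) (.cons (t3 21 30 36) (.cons a207 (.cons a137 (.cons (t1 21 30 45) (.cons s22 (.cons (t2 5 7 45) (.cons a142 (.cons s177 (.cons s3 (.cons (t3 30 45 51) (.cons (t3 0 8 23) (.cons s169 (.cons a505 (.cons (t1 7 10 22) (.cons (t3 7 22 49) (.cons (t2 0 21 45) (.cons (t2 0 21 49) (.cons a395 (.cons (t1 0 22 45) (.cons a491 .nil)))))))))))))))))))))))))))))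 (by decide +kernel)
theorem s199 : Valid A [731, 2778, 938, 986] := rup _
  (.cons (t2 5 7 45) (.cons (t2 5 21 45) (.cons a207 .nil))) (by decide +kernel)
theorem s200 : Valid A [2778, 1322, 1370, 1071, 3016, 3145, 457, 445, 956, 917, 995] := rup _
  (.cons (t2 7 10 21) (.cons (t2 7 10 45) (.cons (t2 7 10 49) (.cons a192 (.cons a178 (.cons (t1 23 24 36) (.cons a193 (.cons (t1 10 23 46) (.cons (t2 3 23 36) (.cons (t2 3 30 36) (.cons s198 (.cons (t2 3 21 36) (.cons a60 (.cons (t3 3 23 45) (.cons (t2 3 30 45) (.cons s199 (.cons s177 (.cons (t1 30 45 51) (.cons (t3 23 45 51) (.cons a473 (.cons a495 (.cons (t1 22 45 51) (.cons (t1 10 22 23) (.cons a395 .nil)))))))))))))))))))))))) (by decide +kernel)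
theorem s201 : Valid A [682, 2760, 938, 968] := rup _
  (.cons a207 (.cons a203 (.cons (t2 5 7 36) .nil))) (by decide +kernel)
theorem s202 : Valid A [2746, 1066, 2736, 1072] := rup _
  (.cons a142 (.cons a134 (.cons (t3 8 24 29) .nil))) (by decide +kernel)
theorem s203 : Valid A [2747, 2220, 2732, 2218] := rup _
  (.cons (t3 21 22 29) (.cons (t3 17 21 29) (.cons a138 .nil))) (by decide +kernel)
theorem s204 : Valid A [3942, 2496, 3904, 2770, 941, 2790, 2760, 2505, 956, 978] := rup _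
  (.cons a227 (.cons s169 (.cons (t3 7 41 51) (.cons (t1 7 51 52) (.cons a464 (.cons (t2 32 51 52) (.cons (t2 32 41 51) (.cons (t1 21 32 51) (.cons a230 (.cons s81 (.cons (t3 19 28 36) (.cons a487 (.cons (t1 21 28 41) (.cons (t1 21 28 32) (.cons a529 .nil))))))))))))))) (by decide +kernel)
theorem s205 : Valid A [2906, 2790, 2760, 2736, 2218, 2779, 1370, 1314, 1072, 1071, 1326, 2505, 2481, 3133, 956, 917, 978, 1106] := rup _
  (.cons a395 (.cons (t2 21 22 45) (.cons (t1 10 22 23) (.cons (t3 10 17 22) (.cons (t1 7 10 22) (.cons s203 (.cons a134 (.cons s202 (.cons a152 (.cons (t1 8 21 41) (.cons (t2 8 21 23) (.cons (t1 24 30 32) (.cons (t2 19 24 32) (.cons s204 (.cons (t1 21 23 51) (.cons a473 (.cons a495 .nil))))))))))))))))) (by decide +kernel)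
theorem s206 : Valid A [1322, 1370, 1314, 419, 1071, 2505, 2481, 3016, 457, 445, 3133, 956, 917, 968, 978, 995, 1106] := rup _
  (.cons (t2 7 10 49) (.cons (t3 10 45 49) (.cons (t2 7 10 45) (.cons (t3 3 24 30) (.cons (t2 3 24 36) (.cons (t1 23 24 36) (.cons (t2 8 23 24) (.cons a192 (.cons a178 (.cons a193 (.cons (t1 10 23 46) (.cons (t2 3 30 36) (.cons (t1 23 30 36) (.cons (t3 10 21 49) (.cons (t2 7 10 21) (.cons s200 (.cons a61 (.cons a63 (.cons (t1 3 30 45) (.cons (t1 3 17 21) (.cons (t3 3 21 30) (.cons (t3 3 21 24) (.cons (t3 3 21 36) (.cons s201 (.cons s26 (.cons (t1 5 21 45) (.cons (t2 5 21 49) (.cons (t1 21 45 51) (.cons s205 (.cons (t1 7 22 45) (.cons s126 (.cons (t2 22 45 49) (.cons (t3 21 22 45) (.cons (t3 5 22 45) (.cons (t2 22 45 51) (.cons (t3 23 30 51) (.cons a495 (.cons (t1 21 22 23) (.cons (t1 5 22 23) (.cons a506 (.cons (t1 0 22 23) (.cons a491 (.cons (t3 0 7 49) (.cons a384 (.cons (t3 7 11 49) (.cons a215 (.cons (t2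 5 11 23) (.cons a239 (.cons (t2 22 23 52) (.cons (t2 21 23 52) (.cons a226 (.cons a222 (.cons (t3 7 30 52) .nil))))))))))))))))))))))))))))))))))))))))))))))))))))) (by decide +kernel)
theorem s207 : Valid A [1370, 2249, 1314, 419, 1044, 2222, 2505, 1958, 2481, 3016, 1318, 457, 445, 3133, 956, 1328, 917, 1966, 968, 978, 995, 1106] := rup _
  (.cons (t3 3 24 30) (.cons (t2 3 24 36) (.cons (t1 23 24 36) (.cons (t2 7 10 49) (.cons a192 (.cons a178 (.cons a193 (.cons (t1 10 23 46) (.cons a399 (.cons (t2 8 23 24) (.cons (t1 7 10 36) (.cons s206 (.cons (t1 10 21 45) (.cons (t3 10 19 21) (.cons (t1 7 10 21) (.cons (t1 10 21 24) (.cons (t1 10 21 23) (.cons (t3 8 10 21) (.cons (t1 10 21 36) (.cons a341 (.cons a210 (.cons s202 (.cons (t3 15 19 45) (.cons (t2 19 36 45) (.cons a203 (.cons s7 (.cons (t1 5 36 45) (.cons (t3 5 17 36) (.cons (t3 5 19 36) (.cons a505 (.cons a213 (.cons (t2 0 17 23) (.cons (t2 0 15 23) (.cons (t3 4 5 45) (.cons (t3 4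 5 17) (.cons a99 (.cons a509 (.cons (t1 0 4 15) .nil)))))))))))))))))))))))))))))))))))))) (by decide +kernel)
theorem s208 : Valid A [2760, 2914, 474, 3034, 5859, 1114, 2906, 2249, 2213, 1072, 2350, 3145, 457] := rup _
  (.cons (t2 17 21 36) (.cons (t1 21 24 36) (.cons (t2 3 21 36) (.cons a60 (.cons (t1 21 45 49) (.cons (t2 21 22 45) (.cons (t1 8 21 45) (.cons (t2 21 23 45) (.cons s202 (.cons s7 (.cons s203 (.cons (t3 0 21 49) (.cons a505 (.cons (t2 17 18 22) (.cons a491 (.cons (t2 0 18 23) (.cons (t3 0 18 22) .nil))))))))))))))))) (by decide +kernel)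
theorem s209 : Valid A [2254, 1044, 2222, 2505, 1958, 2481, 2510, 2350, 3016, 2343, 1318, 457, 404, 445, 3133, 956, 1328, 917, 438, 1966, 3535, 4706, 978, 995, 1106] := rup _
  (.cons (t2 7 10 49) (.cons a192 (.cons (t3 3 24 30) (.cons (t2 3 24 36) (.cons a178 (.cons (t1 23 24 36) (.cons a193 (.cons (t1 10 23 46) (.cons a399 (.cons (t2 8 23 36) (.cons (t2 8 23 24) (.cons a190 (.cons (t2 7 46 49) (.cons (t1 7 23 46) (.cons (t2 3 30 36) (.cons (t2 7 36 49) (.cons (t1 7 10 36) (.cons (t1 17 27 39) (.cons a333 (.cons a36 (.cons (t3 17 18 19) (.cons (t1 10 17 19) (.cons (t1 17 19 36) (.cons s207 (.cons a396 (.cons a397 (.cons (t3 8 10 45) (.cons (t2 10 45 49) (.cons (t3 10 23 45) (.cons (t3 3 10 45) (.cons (t3 10 36 45) (.cons (t2 7 10 22) (.cons (t3 10 22 49) (.cons s208 (.cons a204 (.cons (t1 7 21 36) (.cons (t2 21 36 49) (.cons (t3 21 24 36) (.cons (t2 21 23 36) (.cons (t1 8 21 36) (.cons (t3 21 30 36) (.cons a207 (.cons a137 (.cons a142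 (.cons a223 (.cons (t1 5 7 49) (.cons s3 (.cons (t1 21 36 52) (.cons a216 (.cons (t3 0 8 23) (.cons (t1 11 45 49) (.cons a505 (.cons a379 (.cons (t2 0 21 49) (.cons (t2 0 21 52) (.cons (t2 11 36 52) (.cons (t2 11 23 36) (.cons a491 (.cons a238 (.cons (t1 0 22 52) (.cons (t3 7 23 52) (.cons a226 .nil)))))))))))))))))))))))))))))))))))))))))))))))))))))))))))))) (by decide +kernel)
theorem s210 : Valid A [963, 484, 950, 4434, 4430, 3170, 1102, 5090, 995, 5349, 1106] := rup _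
  (.cons a432 (.cons s185 (.cons (t1 3 39 50) (.cons (t3 7 27 49) (.cons (t2 7 24 49) (.cons s57 (.cons a168 (.cons a436 (.cons (t2 41 49 50) (.cons a442 (.cons (t3 18 39 41) (.cons a435 (.cons a430 (.cons (t1 7 41 50) (.cons a110 (.cons a112 (.cons a448 (.cons s150 (.cons (t2 7 33 49) (.cons (t3 7 15 49) (.cons a95 (.cons (t2 7 48 49) (.cons (t1 15 41 50) (.cons (t2 15 34 41) (.cons (t2 15 18 41) (.cons (t3 15 39 41) (.cons a480 (.cons (t2 7 36 49) (.cons (t2 33 36 49) (.cons a113 (.cons (t2 15 27 50) (.cons (t2 15 27 39) (.cons (t1 15 27 34) (.cons (t3 15 18 27) (.cons a327 (.cons a328 (.cons (t2 15 23 27) (.cons (t1 3 27 50) (.cons s194 (.cons s38 (.cons (t1 7 10 24) (.cons (t1 7 10 27) (.cons (t2 7 10 49) (.cons (t2 7 10 33) (.cons (t1 7 10 36) (.cons a190 (.cons a192 (.cons a392 (.cons a393 (.cons (t2 7 46 49) (.cons (t3 30 33 49) (.cons (t2 7 30 33) (.cons a162 (.cons (t3 24 30 34) (.cons (t2 30 34 39) (.cons a48 (.cons (t3 3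 24 30) (.cons (t2 3 10 30) (.cons (t2 3 30 33) (.cons a52 (.cons (t2 3 24 36) (.cons (t2 3 30 36) (.cons a178 (.cons s160 (.cons s195 (.cons (t3 10 18 49) (.cons a468 (.cons s196 (.cons (t3 18 24 30) (.cons (t1 18 30 36) (.cons a349 (.cons a485 (.cons a486 (.cons (t1 18 19 39) (.cons (t2 18 19 24) (.cons (t3 15 18 19) (.cons (t2 18 19 36) (.cons (t1 23 24 36) (.cons a193 (.cons (t1 17 23 46) (.cons s197 (.cons s209 (.cons (t2 17 18 39) (.cons (t2 17 39 49) (.cons a513 .nil))))))))))))))))))))))))))))))))))))))))))))))))))))))))))))))))))))))))))))))))))))) (by decide +kernel)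
theorem s211 : Valid A [457, 482, 6242, 480] := rup _
  (.cons (t1 3 36 49) (.cons (t1 3 36 48) (.cons a479 .nil))) (by decide +kernel)
theorem s212 : Valid A [2343, 913, 1102, 2382, 995] := rup _
  (.cons a186 (.cons (t3 7 46 49) (.cons a188 (.cons a347 (.cons a348 (.cons (t1 18 19 39) (.cons (t1 7 8 19) (.cons (t3 7 18 49) (.cons s138 (.cons a181 (.cons (t1 8 17 39) (.cons (t1 8 17 19) (.cons a333 .nil))))))))))))) (by decide +kernel)
theorem s213 : Valid A [1044, 1063, 2342, 5986, 1123] := rup _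
  (.cons (t3 8 10 49) (.cons (t3 8 10 19) (.cons a189 (.cons a349 (.cons s63 .nil))))) (by decide +kernel)
theorem s214 : Valid A [1045, 1042, 1252, 1124] := rup _
  (.cons (t1 8 10 50) (.cons (t3 8 9 10) (.cons a246 .nil))) (by decide +kernel)
theorem s215 : Valid A [2761, 3913, 973, 4684, 1173, 1352, 1245, 2269, 2248, 4691, 1096, 968, 1224, 3144, 1072, 995] := rup _
  (.cons a204 (.cons a490 (.cons (t1 7 21 36) (.cons (t2 21 24 36) (.cons (t1 17 21 36) (.cons (t1 8 21 36) (.cons (t1 10 21 36) (.cons (t3 21 30 36) (.cons (t1 21 36 41) (.cons (t1 9 21 36) (.cons (t2 21 36 38) (.cons a207 (.cons s202 (.cons a452 (.cons (t3 9 21 29) (.cons (t1 21 29 38) (.cons (t1 5 7 49) (.cons (t1 5 7 38) (.cons (t2 21 29 30) (.cons (t3 17 21 29) (.cons (t3 10 21 29) (.cons (t3 21 28 29) (.cons (t1 21 29 43) (.cons a217 (.cons (t3 5 11 38) (.cons a130 (.cons (t2 11 28 29) (.cons (t2 11 17 29) (.cons (t1 11 29 30) (.cons (t1 10 11 29) (.cons (t1 9 11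 29) (.cons (t2 11 29 43) (.cons a387 (.cons a373 (.cons a243 (.cons (t1 9 10 28) (.cons a375 (.cons (t2 9 43 46) (.cons (t2 9 28 43) (.cons (t1 16 17 46) (.cons (t3 16 43 46) (.cons a458 .nil)))))))))))))))))))))))))))))))))))))))))) (by decide +kernel)
theorem s216 : Valid A [2744, 1451, 1302, 2760, 1352] := rup _
  (.cons a487 (.cons (t2 11 21 28) (.cons (t1 10 28 36) (.cons a387 .nil)))) (by decide +kernel)
theorem s217 : Valid A [1066, 1322, 2736, 2748, 2760, 3021, 1101, 3004, 943, 1071, 1352, 1378, 968, 1072, 913, 1123] := rup _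
  (.cons (t3 8 21 49) (.cons (t2 7 8 21) (.cons (t3 8 21 23) (.cons s202 (.cons (t3 8 21 38) (.cons s201 (.cons s7 (.cons (t1 21 29 38) (.cons (t2 5 21 49) (.cons (t2 5 10 21) (.cons a505 (.cons s133 (.cons (t3 0 7 23) (.cons (t1 0 23 38) (.cons a384 (.cons a386 (.cons (t3 0 11 38) (.cons (t3 7 11 23) (.cons a130 (.cons (t3 11 21 29) (.cons s216 (.cons s84 (.cons a222 (.cons (t2 11 21 52) (.cons (t3 23 30 52) (.cons a238 .nil)))))))))))))))))))))))))) (by decide +kernel)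
theorem s218 : Valid A [2736, 2748, 2760, 3021, 1101, 3004, 943, 1071, 2504, 1352, 2481, 1329, 1378, 841, 968, 1072, 913, 1123, 1055] := rup _
  (.cons (t2 10 21 24) (.cons s217 (.cons a143 (.cons (t1 7 8 21) (.cons (t2 8 15 21) (.cons a134 (.cons a208 (.cons a210 (.cons a103 (.cons (t1 19 24 29) (.cons (t1 10 24 29) (.cons a203 (.cons (t2 7 21 26) (.cons a147 (.cons (t2 5 19 36) (.cons (t3 5 6 36) (.cons (t1 4 19 29) (.cons a211 (.cons (t2 4 5 7) (.cons (t1 4 5 6) (.cons a419 (.cons a309 .nil)))))))))))))))))))))) (by decide +kernel)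
theorem s219 : Valid A [3170, 974, 995, 1124, 1106] := rup _
  (.cons a426 (.cons s187 (.cons (t1 24 41 50) (.cons a432 (.cons (t3 7 39 49) (.cons s185 (.cons a436 (.cons (t2 41 49 50) (.cons a442 (.cons (t3 18 39 41) (.cons (t1 8 39 50) (.cons a430 (.cons (t1 7 41 50) (.cons s57 (.cons a307 (.cons a168 (.cons (t2 7 24 49) (.cons s90 (.cons (t1 24 34 50) (.cons (t1 34 39 50) (.cons (t1 34 41 50) (.cons s188 (.cons s189 (.cons (t1 3 41 50) (.cons s210 (.cons (t3 7 33 49) (.cons a446 (.cons s186 (.cons a310 (.cons a96 (.cons (t1 18 33 41) (.cons (t1 33 41 50) (.cons (t1 24 33 41) (.cons (t1 8 33 41) (.cons (t2 33 34 41) (.cons (t1 3 33 41) (.cons (t2 6 8 41) (.cons a109 (.cons (t3 15 33 50) (.cons s176 (.cons (t3 3 33 48) (.cons (t2 7 15 49) (.cons (t1 7 15 24) (.cons a105 (.cons (t1 33 48 49) (.cons (t2 33 48 50) (.cons (t1 6 33 48) (.cons a44 (.cons (t1 8 15 49) (.cons (t3 7 8 15) (.cons (t2 8 15 24) (.cons a262 (.cons (t2 3 24 49)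 (.cons a186 (.cons a188 (.cons (t3 9 48 50) (.cons (t1 9 33 48) (.cons (t3 7 46 49) (.cons a250 (.cons (t1 7 9 24) (.cons (t1 8 9 24) (.cons (t3 3 9 24) (.cons s211 (.cons (t1 3 24 36) (.cons a52 (.cons (t1 3 9 36) (.cons (t3 7 33 36) (.cons (t3 18 33 36) (.cons (t3 8 33 36) (.cons (t1 6 33 36) (.cons (t2 33 36 41) (.cons s212 (.cons s214 (.cons (t3 8 10 49) (.cons s213 (.cons a189 (.cons (t2 7 8 19) (.cons s63 (.cons a345 (.cons a349 (.cons (t2 7 18 49) (.cons (t2 7 8 18) (.cons (t3 7 9 18) (.cons (t2 10 19 46) (.cons a471 (.cons a514 (.cons (t2 8 18 30) (.cons a175 (.cons a403 (.cons (t2 8 17 49) (.cons s182 (.cons (t2 17 24 36) (.cons a181 (.cons a179 (.cons a195 (.cons (t2 24 34 46) (.cons (t2 24 38 46) (.cons (t3 10 24 46) (.cons (t3 19 24 46) (.cons (t1 9 24 46) (.cons (t2 10 36 46) (.cons (t2 19 36 46) (.cons (t2 10 23 46) (.cons (t3 10 34 46) (.cons (t2 9 24 38) (.cons (t2 10 24 33) (.cons (t3 9 10 24) (.cons a399 (.cons a163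 (.cons a265 (.cons s143 (.cons (t2 8 18 23) (.cons (t1 8 23 30) (.cons a391 (.cons (t1 8 18 38) (.cons (t3 18 36 38) (.cons (t1 7 18 38) (.cons (t2 18 23 38) (.cons (t1 30 33 36) (.cons s215 (.cons (t1 21 30 36) (.cons (t2 6 21 36) (.cons s218 (.cons a135 (.cons a137 (.cons (t1 7 21 24) (.cons (t1 8 21 24) (.cons (t1 15 21 24) (.cons (t3 19 21 24) (.cons (t3 10 21 24) (.cons (t2 10 24 29) (.cons s201 (.cons a142 (.cons (t3 5 10 21) (.cons (t3 5 19 21) (.cons (t1 7 8 29) (.cons (t3 6 8 29) (.cons a213 (.cons (t3 4 5 10) (.cons a146 (.cons (t3 4 7 29) (.cons (t2 4 6 29) (.cons a420 (.cons a422 (.cons (t1 7 15 26) (.cons a308 (.cons a102 (.cons (t3 6 21 26) .nil)))))))))))))))))))))))))))))))))))))))))))))))))))))))))))))))))))))))))))))))))))))))))))))))))))))))))))))))))))))))))))))))))))))))))))))))))))) (by decide +kernel)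
theorem s220 : Valid A [962, 1200, 1234, 945, 978] := rup _
  (.cons a446 (.cons (t1 7 24 33) (.cons (t1 9 33 41) (.cons a250 .nil)))) (by decide +kernel)
theorem s221 : Valid A [963, 786, 945, 782] := rup _
  (.cons s150 (.cons (t2 7 24 33) (.cons (t3 6 7 48) (.cons (t2 7 24 48) (.cons a251 (.cons a261 (.cons (t3 9 24 48) .nil))))))) (by decide +kernel)
theorem s222 : Valid A [962, 912, 978, 5349, 1124] := rup _
  (.cons a446 (.cons a96 (.cons (t1 33 41 50) (.cons a109 (.cons (t3 15 33 50) (.cons (t3 7 8 15) (.cons a105 .nil))))))) (by decide +kernel)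
theorem s223 : Valid A [2351, 1442, 546, 549, 527, 395, 920, 2347, 939, 2760, 2371, 933, 917, 462, 398, 974] := rup _
  (.cons a210 (.cons (t1 7 18 23) (.cons (t2 18 23 33) (.cons (t2 18 21 23) (.cons (t1 4 18 23) (.cons a450 (.cons a506 (.cons (t1 0 4 23) (.cons (t2 7 23 47) (.cons (t2 4 23 47) (.cons (t1 0 7 23) (.cons a509 (.cons a437 (.cons (t2 0 11 17) (.cons (t3 3 39 47) (.cons a383 (.cons (t3 3 7 11) (.cons (t2 7 10 11) (.cons (t2 7 11 21) (.cons (t1 7 11 12) (.cons (t1 4 7 11) (.cons a389 (.cons a40 (.cons (t2 4 11 28) (.cons (t1 11 21 28) (.cons (t2 3 5 12) (.cons (t1 3 12 47) (.cons a533 (.cons s115 (.cons (t2 5 12 28) (.cons (t1 12 28 47) .nil))))))))))))))))))))))))))))))) (by decide +kernel)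
theorem s224 : Valid A [973, 395, 733, 72, 443, 3785, 1338, 954, 2770, 2347, 2787, 939, 2760, 2371, 1317, 933, 3912, 956, 1314, 917, 462, 2268, 2376, 988, 5084, 1231, 1235, 398, 974, 995] := rup _
  (.cons a210 (.cons a203 (.cons (t3 5 29 36) (.cons s32 (.cons a500 (.cons (t2 7 12 49) (.cons a208 (.cons (t3 5 7 49) (.cons a346 (.cons (t1 7 38 46) (.cons (t3 7 19 38) (.cons (t2 7 21 38) (.cons (t3 7 29 38) (.cons a173 (.cons (t2 19 39 46) (.cons (t1 17 19 46) (.cons (t3 5 19 46) (.cons a333 (.cons a213 (.cons (t3 9 17 39) (.cons (t3 4 5 29) (.cons a146 (.cons (t3 4 7 10) (.cons (t1 4 10 18) (.cons (t2 4 10 17) (.cons a455 (.cons (t1 7 21 43) (.cons a451 (.cons (t1 9 41 43) (.cons a245 (.cons (t3 9 11 17) (.cons s223 (.cons a483 (.cons (t1 18 21 23) (.cons (t1 0 23 36) (.cons a505 (.cons (t3 0 7 21) (.cons (t1 0 21 49) (.cons (t1 0 21 38) (.cons a384 (.cons a386 (.cons a492 (.cons (t3 0 11 38) (.cons (t3 7 11 49) (.cons (t2 7 22 49) (.cons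 a130 (.cons a215 (.cons (t3 3 11 29) (.cons (t1 11 29 36) (.cons a381 (.cons (t2 3 11 45) (.cons (t2 5 11 45) (.cons s153 (.cons s177 (.cons (t3 7 22 45) (.cons (t3 7 30 45) (.cons (t3 22 45 51) (.cons (t3 30 45 51) (.cons a472 (.cons s152 (.cons (t2 22 30 36) .nil))))))))))))))))))))))))))))))))))))))))))))))))))))))))))))) (by decide +kernel)
theorem s225 : Valid A [2350, 395, 713, 72, 2347, 2787, 939, 3912, 956, 2376, 398, 995] := rup _
  (.cons s32 (.cons a208 (.cons (t3 5 7 49) (.cons a483 (.cons (t1 18 21 23) (.cons (t1 0 23 36) (.cons a505 (.cons (t3 0 7 21) (.cons (t1 0 21 49) (.cons a384 (.cons a492 (.cons (t3 7 11 49) (.cons (t2 7 22 49) (.cons a215 (.cons (t2 5 11 36) (.cons (t1 3 5 11) (.cons a381 (.cons (t2 3 11 45) (.cons (t2 5 11 45) (.cons s153 (.cons s177 (.cons (t3 7 22 45) (.cons (t3 7 30 45) (.cons (t3 22 45 51) (.cons (t3 30 45 51) (.cons a472 (.cons s152 (.cons (t2 22 30 36) .nil)))))))))))))))))))))))))))) (by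 decide +kernel)
theorem s226 : Valid A [918, 14, 10, 738, 995] := rup _
  (.cons (t3 7 11 49) (.cons a383 (.cons a215 (.cons (t3 0 5 11) .nil)))) (by decide +kernel)
theorem s227 : Valid A [2746, 2760, 2371, 1317, 2353, 933, 3912, 956, 1314, 917, 1044, 4701, 988, 5084, 457, 1231, 1235, 1072, 3171, 3154, 974, 995, 1124] := rup _
  (.cons (t3 7 24 49) (.cons (t2 7 8 24) (.cons a185 (.cons (t3 8 36 46) (.cons (t2 8 21 36) (.cons (t3 3 8 36) (.cons (t2 36 39 46) (.cons (t2 3 36 39) (.cons a183 (.cons s78 (.cons a65 (.cons a432 (.cons s202 (.cons a142 (.cons (t3 7 21 24) (.cons (t1 21 24 49) (.cons (t3 18 21 24) (.cons (t2 21 24 41) (.cons s3 (.cons (t1 8 29 50) (.cons (t3 7 8 29) (.cons (t3 8 10 29) (.cons (t2 8 29 36) (.cons (t1 3 8 29) (.cons a208 (.cons a210 (.cons (t3 0 8 36) (.cons (t3 5 7 49) (.cons a203 (.cons (t1 0 5 36) (.cons (t1 5 36 46) (.cons (t3 3 5 36) (.cons s224 (.cons (t3 7 38 49) (.cons a329 (.cons (t1 29 38 50) (.cons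 s225 (.cons (t1 7 18 23) (.cons (t2 18 21 23) (.cons a506 (.cons (t1 0 7 23) (.cons s226 (.cons (t1 7 11 29) (.cons (t1 7 11 38) (.cons a130 .nil))))))))))))))))))))))))))))))))))))))))))))) (by decide +kernel)
theorem s228 : Valid A [2735, 2736, 2780, 3164] := rup _
  (.cons (t1 21 23 46) (.cons (t1 21 23 24) (.cons a193 .nil))) (by decide +kernel)
theorem s229 : Valid A [2993, 47, 683, 2747, 2760, 1213, 3923, 3132, 1329, 1352, 3144, 3171, 995] := rup _
  (.cons a137 (.cons (t3 21 24 49) (.cons (t2 5 21 49) (.cons a136 (.cons (t3 7 24 49) (.cons (t1 23 24 49) (.cons (t3 7 23 24) (.cons (t3 10 23 24) (.cons (t2 23 24 30) (.cons (t3 0 7 23) (.cons (t3 0 10 23) (.cons a384 (.cons a386 (.cons (t1 0 10 11) (.cons (t3 7 11 23) (.cons (t3 7 11 49) (.cons a215 (.cons (t2 5 11 21) (.cons s216 (.cons a488 (.cons s84 (.cons (t3 21 24 28) (.cons (t2 21 28 29) (.cons (t1 11 21 28) (.cons (t2 11 21 52) (.cons a238 (.cons (t2 23 49 52) (.cons (t3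 23 30 52) (.cons a235 (.cons s114 (.cons (t2 24 42 49) (.cons (t1 28 30 41) (.cons (t1 11 28 30) (.cons (t3 9 28 30) (.cons a367 (.cons a530 (.cons a373 (.cons (t3 9 11 30) (.cons (t1 9 28 42) (.cons (t3 28 36 42) (.cons (t2 9 28 32) (.cons (t1 28 29 32) (.cons (t2 9 11 16) (.cons (t3 9 16 42) (.cons a149 (.cons a257 (.cons a353 (.cons (t1 24 32 36) (.cons (t2 16 32 36) .nil))))))))))))))))))))))))))))))))))))))))))))))))) (by decide +kernel)
theorem s230 : Valid A [3944, 3686, 3643, 2745, 919, 814, 2992, 3130, 1213, 829, 3923, 787, 945, 995] := rup _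
  (.cons s84 (.cons a305 (.cons (t3 6 7 9) (.cons (t3 7 9 11) (.cons (t2 7 11 24) (.cons (t3 6 7 11) (.cons s114 (.cons a222 (.cons (t1 28 30 41) (.cons (t3 6 28 30) (.cons (t1 28 30 51) (.cons (t3 9 28 30) (.cons (t1 21 30 41) (.cons (t3 9 21 30) (.cons a530 (.cons (t2 6 28 51) (.cons a452 (.cons (t1 28 30 32) (.cons (t2 9 28 32) (.cons (t1 28 29 32) (.cons (t2 9 21 43) (.cons a464 (.cons a149 (.cons a243 (.cons (t1 7 24 32) (.cons (t1 24 32 51) (.cons (t3 23 24 32) (.cons (t1 11 24 32) (.cons (t1 7 11 43) (.cons (t2 11 24 43) (.cons a413 (.cons a415 (.cons (t2 11 32 35) (.cons a455 (.cons a282 (.cons (t3 7 35 49) (.cons a298 (.cons (t3 4 7 49) (.cons (t3 1 24 51) (.cons a416 (.cons (t2 6 9 35) (.cons (t2 6 28 35) (.cons a292 (.cons (t3 4 9 35) (.cons (t3 4 28 35) (.cons (t1 1 6 28) (.cons (t2 1 6 23) (.cons a255 (.cons a256 (.cons (t3 4 16 28) (.cons (t2 1 16 28) (.cons a257 (.cons a288 (.cons (t2 16 23 32) .nil))))))))))))))))))))))))))))))))))))))))))))))))))))))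 (by decide +kernel)
theorem s231 : Valid A [3945, 1468, 1454, 3004] := rup _
  (.cons (t3 23 30 52) (.cons (t3 11 30 52) (.cons a238 .nil))) (by decide +kernel)
theorem s232 : Valid A [2745, 3944, 919, 814, 2992, 2790, 2747, 1213, 829, 3923, 787, 945, 995] := rup _
  (.cons a136 (.cons (t2 21 28 29) (.cons (t1 21 28 51) (.cons s230 .nil)))) (by decide +kernel)
theorem s233 : Valid A [2760, 2371, 1317, 2353, 933, 829, 3923, 3912, 3132, 956, 1314, 1329, 917, 1044, 1352, 3164, 1244, 457, 968, 3144, 1231, 1235, 787, 1072, 3171, 3154, 974, 995, 1124] := rup _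
  (.cons (t1 9 39 46) (.cons a177 (.cons (t2 36 39 46) (.cons (t2 3 36 39) (.cons (t2 3 30 36) (.cons a48 (.cons (t3 9 30 39) (.cons (t3 30 36 46) (.cons (t3 7 24 49) (.cons (t2 7 24 46) (.cons (t2 6 9 46) (.cons (t3 21 36 46) (.cons s227 (.cons a137 (.cons s7 (.cons (t2 7 21 24) (.cons (t3 21 24 49) (.cons s201 (.cons s26 (.cons (t2 5 21 49) (.cons (t1 0 5 21) (.cons s228 (.cons a505 (.cons s229 (.cons (t3 23 24 49) (.cons (t2 7 23 24) (.cons a193 (.cons (t2 0 23 49) (.cons (t2 0 7 23) (.cons (t2 23 30 46) (.cons (t1 6 23 46) (.cons (t3 23 36 46) (.cons s226 (.cons (t2 0 23 30) (.cons (t1 7 11 23) (.cons (t1 7 11 30) (.cons (t2 7 11 49) (.cons (t1 7 11 21) (.cons s231 (.cons s232 (.cons a487 (.cons s96 (.cons (t2 23 36 52) (.cons a238 (.cons (t1 7 11 52) (.cons (t3 11 21 52) (.cons (t2 11 49 52) (.cons a228 (.cons a222 (.cons (t1 22 49 52) (.cons (t1 21 30 51) (.cons a491 (.cons (t2 0 22 23) (.cons (t1 0 22 30) (.cons a497 (.cons a472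 .nil)))))))))))))))))))))))))))))))))))))))))))))))))))))))) (by decide +kernel)
theorem s234 : Valid A [2906, 4710, 5863, 1370, 3017, 1352] := rup _
  (.cons a395 (.cons (t3 22 45 51) (.cons (t1 10 22 36) (.cons s152 .nil)))) (by decide +kernel)
theorem s235 : Valid A [3037, 23, 1466, 1302, 2234, 662, 4698, 474, 2781, 444, 1352, 4701] := rup _
  (.cons (t3 23 36 46) (.cons (t3 21 23 46) (.cons a506 (.cons (t1 0 11 23) (.cons (t3 11 23 36) (.cons a379 (.cons (t3 5 11 45) (.cons (t3 10 11 45) (.cons (t3 11 29 45) (.cons s177 (.cons (t1 11 45 51) (.cons (t3 36 45 51) (.cons s234 (.cons (t1 3 22 45) (.cons (t1 22 45 51) (.cons (t2 22 29 45) (.cons (t3 11 22 45) (.cons a473 (.cons a138 (.cons (t2 11 30 51) (.cons (t3 11 17 22) (.cons a377 (.cons a371 (.cons (t3 11 16 22) (.cons (t1 3 16 30) (.cons a56 .nil)))))))))))))))))))))))))) (by decide +kernel)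
theorem s236 : Valid A [3912, 1372, 3164, 1244, 1072, 974, 995, 1124, 1106] := rup _
  (.cons s219 (.cons (t3 7 24 49) (.cons a426 (.cons a430 (.cons (t1 7 41 50) (.cons (t2 7 8 24) (.cons s222 (.cons (t2 7 24 33) (.cons (t2 7 33 49) (.cons (t3 24 46 49) (.cons a189 (.cons (t3 10 33 49) (.cons a392 (.cons (t2 24 30 33) (.cons (t2 7 30 33) (.cons (t3 30 33 49) (.cons a404 (.cons (t2 10 17 49) (.cons (t3 10 24 49) (.cons (t3 7 10 49) (.cons (t2 7 24 46) (.cons a185 (.cons (t2 8 10 46) (.cons s150 (.cons (t2 7 48 49) (.cons a482 (.cons (t2 7 24 48) (.cons (t2 24 36 48) (.cons a177 (.cons (t1 10 36 46) (.cons a65 (.cons (t3 3 7 33) (.cons a480 (.cons (t2 33 36 49) (.cons a52 (.cons a432 (.cons (t3 7 39 49) (.cons s185 (.cons s187 (.cons (t1 24 39 50) (.cons a307 (.cons (t1 6 24 49) (.cons a300 (.cons a305 (.cons s221 (.cons (t2 6 9 39) (.cons (t1 9 39 46) (.cons (t2 36 39 46) (.cons (t2 3 36 39) (.cons s163 (.cons (t2 6 9 50) (.cons (t3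 9 46 50) (.cons (t2 36 46 50) (.cons (t2 3 36 50) (.cons (t3 8 36 46) (.cons (t3 6 41 50) (.cons (t2 6 9 41) (.cons a248 (.cons (t3 9 10 41) (.cons (t2 7 36 49) (.cons a405 (.cons (t1 24 41 50) (.cons a436 (.cons a435 (.cons (t2 41 49 50) (.cons a442 (.cons (t2 3 30 36) (.cons s137 (.cons a48 (.cons a468 (.cons (t1 30 39 41) (.cons (t3 6 30 39) (.cons (t3 7 18 49) (.cons (t3 18 24 49) (.cons (t3 10 18 49) (.cons (t3 18 33 49) (.cons s233 (.cons a204 (.cons a490 (.cons (t1 7 21 36) (.cons (t2 21 36 49) (.cons (t2 21 24 36) (.cons (t1 21 36 46) (.cons (t3 8 21 36) (.cons (t3 3 21 36) (.cons a207 (.cons a143 (.cons a62 (.cons (t1 5 7 49) (.cons a134 (.cons (t1 3 36 45) (.cons a216 (.cons a217 (.cons a151 (.cons s10 (.cons (t2 24 29 49) (.cons (t3 17 24 29) (.cons (t1 10 24 29) (.cons (t2 7 11 49) (.cons (t2 10 11 49) (.cons (t1 11 29 49) (.cons (t3 29 32 49) (.cons (t2 10 29 32) (.cons (t1 0 7 24) (.cons a383 (.cons s235 (.cons a193 (.cons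 (t2 21 23 46) (.cons (t1 0 23 24) (.cons a505 (.cons (t3 0 3 21) (.cons (t3 0 8 21) (.cons (t2 0 21 28) (.cons (t2 0 11 21) (.cons (t2 0 3 11) (.cons (t2 0 8 11) (.cons (t1 0 11 28) (.cons a41 (.cons a387 (.cons (t3 11 12 21) (.cons (t2 8 11 12) (.cons (t1 10 28 41) (.cons (t1 10 28 32) (.cons a499 (.cons a529 (.cons (t2 12 32 49) (.cons (t1 8 32 41) (.cons a517 .nil)))))))))))))))))))))))))))))))))))))))))))))))))))))))))))))))))))))))))))))))))))))))))))))))))))))))))))))))))))))))))))))))) (by decide +kernel)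
theorem s237 : Valid A [2761, 23, 46, 1302, 1327, 3016, 3913] := rup _
  (.cons (t3 10 11 23) (.cons a490 (.cons (t3 21 30 36) (.cons (t2 21 23 36) (.cons a223 (.cons a505 (.cons (t2 0 21 52) (.cons (t2 0 21 28) (.cons (t1 0 11 52) (.cons (t1 0 11 28) (.cons a238 (.cons a387 (.cons (t1 10 23 52) (.cons s64 .nil)))))))))))))) (by decide +kernel)
theorem s238 : Valid A [2734, 1066, 46, 2993, 1072] := rup _
  (.cons (t3 21 23 24) (.cons a505 (.cons s202 (.cons s7 .nil)))) (by decide +kernel)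
theorem s239 : Valid A [46, 4698, 918, 1302, 1327, 943, 3016, 2993, 3913, 1097, 457, 1072] := rup _
  (.cons (t2 3 36 45) (.cons (t3 10 11 23) (.cons (t1 0 7 23) (.cons a383 (.cons s4 (.cons s237 (.cons (t2 8 21 36) (.cons (t2 3 21 36) (.cons a60 (.cons s238 (.cons (t1 21 23 24) (.cons (t1 11 21 23) (.cons a137 (.cons (t3 11 21 45) (.cons a142 (.cons a379 (.cons (t2 8 11 29) (.cons (t3 8 11 36) .nil)))))))))))))))))) (by decide +kernel)
theorem s240 : Valid A [4698, 918, 1302, 1327, 943, 3043, 3004, 3016, 2993, 3913, 1379, 1097, 457, 968, 1072] := rup _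
  (.cons (t3 3 8 36) (.cons (t2 3 36 45) (.cons (t2 30 36 45) (.cons s239 (.cons a506 (.cons s9 (.cons (t1 0 23 49) (.cons (t3 21 23 24) (.cons (t2 7 21 23) (.cons (t2 10 21 23) (.cons (t1 23 24 29) (.cons a492 (.cons a134 (.cons (t2 10 22 49) (.cons (t1 22 23 49) (.cons a143 (.cons (t3 8 21 36) (.cons (t2 3 8 21) (.cons s201 (.cons a60 (.cons s26 (.cons (t3 10 21 45) (.cons (t1 21 45 51) (.cons a395 (.cons s126 (.cons (t2 22 45 51) (.cons (t3 23 30 51) (.cons a495 .nil)))))))))))))))))))))))))))) (by decide +kernel)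
theorem s241 : Valid A [1302, 1327, 943, 3043, 3004, 3016, 2993, 3913, 917, 1352, 1379, 1097, 457, 968, 1072] := rup _
  (.cons (t2 7 10 11) (.cons (t3 10 11 23) (.cons s240 (.cons a382 (.cons (t1 3 36 45) (.cons (t1 30 36 45) (.cons (t1 11 30 36) (.cons a61 (.cons s231 (.cons (t1 21 36 45) (.cons (t1 21 30 45) (.cons a222 (.cons s84 (.cons a487 (.cons (t1 11 28 36) (.cons (t1 10 28 36) (.cons a387 .nil))))))))))))))))) (by decide +kernel)
theorem s242 : Valid A [2760, 1000, 46, 3000, 943, 2993, 3913, 956, 1097, 1072] := rup _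
  (.cons (t2 8 21 36) (.cons s238 (.cons (t3 7 21 23) (.cons (t2 21 23 28) (.cons s147 (.cons a487 (.cons (t2 30 36 52) (.cons s96 .nil)))))))) (by decide +kernel)
theorem s243 : Valid A [3036, 3913, 956, 1352, 1379, 4701, 3164, 457, 968, 1072, 3171, 995] := rup _
  (.cons (t1 30 36 46) (.cons (t3 10 24 49) (.cons (t3 7 10 49) (.cons (t3 7 24 49) (.cons (t2 7 8 24) (.cons (t2 7 24 46) (.cons a185 (.cons (t3 8 36 46) (.cons a193 (.cons (t1 23 36 46) (.cons (t1 23 30 46) (.cons (t1 23 24 49) (.cons (t3 7 23 24) (.cons (t3 10 23 24) (.cons s241 (.cons a389 (.cons (t1 7 10 11) (.cons (t2 10 11 49) (.cons (t2 10 11 23) (.cons (t1 11 23 28) (.cons a384 (.cons a216 (.cons a239 (.cons (t3 0 7 23) (.cons (t1 5 7 49) (.cons (t2 7 23 52) (.cons s242 (.cons a204 (.cons (t1 7 21 36) (.cons a207 .nil)))))))))))))))))))))))))))))) (by decide +kernel)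
theorem s244 : Valid A [2761, 3017, 3922, 3913, 1329, 1352, 1379, 1097, 457, 1362, 968, 3144, 945, 995] := rup _
  (.cons (t3 3 30 36) (.cons a204 (.cons (t1 7 21 36) (.cons (t2 21 24 36) (.cons (t3 21 30 36) (.cons (t3 8 21 36) (.cons (t3 3 21 36) (.cons (t3 21 23 36) (.cons a207 (.cons a223 (.cons a143 (.cons a62 (.cons a506 (.cons (t1 5 7 49) (.cons (t1 21 23 52) (.cons a134 (.cons (t1 3 30 45) (.cons (t1 3 36 45) (.cons (t3 0 23 36) (.cons a216 (.cons a217 (.cons a151 (.cons s10 (.cons (t1 10 24 29) (.cons (t2 7 11 49) (.cons (t2 10 11 49) (.cons (t2 10 29 32) (.cons (t1 0 7 24) (.cons a383 (.cons (t1 0 11 23) (.cons (t1 0 11 36) (.cons a238 (.cons a379 (.cons s67 (.cons (t3 11 49 52) (.cons (t2 11 45 52) (.cons (t3 5 11 45) (.cons (t3 10 11 45) (.cons a387 (.cons s177 (.cons (t2 10 28 49) (.cons (t2 10 24 28) (.cons (t1 10 28 41) (.cons (t1 10 28 32) (.cons (t3 36 45 51) (.cons (t3 30 45 51) (.cons a368 (.cons a529 (.cons s234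 (.cons (t3 28 42 49) (.cons (t1 30 32 41) (.cons (t1 22 45 51) (.cons (t1 22 45 52) (.cons a234 (.cons a464 (.cons (t3 22 42 52) (.cons (t3 22 32 51) (.cons a366 .nil)))))))))))))))))))))))))))))))))))))))))))))))))))))))))) (by decide +kernel)
theorem s245 : Valid A [43, 1480, 1066, 2760, 1072, 945, 995] := rup _
  (.cons s7 (.cons s202 (.cons (t3 7 21 24) (.cons a208 (.cons a210 (.cons (t3 0 7 21) (.cons (t3 5 7 49) (.cons a203 (.cons a384 (.cons (t2 5 11 36) (.cons (t3 7 11 49) (.cons a215 .nil)))))))))))) (by decide +kernel)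
theorem s246 : Valid A [3048, 938, 662, 1454, 2760, 3005, 3913, 968] := rup _
  (.cons (t1 23 30 52) (.cons a238 (.cons s149 (.cons (t3 5 11 52) .nil)))) (by decide +kernel)
theorem s247 : Valid A [4698, 1450, 1480, 426, 457] := rup _
  (.cons (t2 3 36 45) (.cons a379 (.cons a60 (.cons (t3 11 21 45) .nil)))) (by decide +kernel)
theorem s248 : Valid A [1634, 2786, 1507, 406, 426] := rup _
  (.cons a499 (.cons (t2 11 12 49) (.cons (t1 3 12 21) (.cons a40 .nil)))) (by decide +kernel)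
theorem s249 : Valid A [1454, 2760, 431, 3017, 1071, 3042, 3005, 942, 3913, 1097, 457, 968, 1072, 3171, 995] := rup _
  (.cons (t1 21 23 36) (.cons (t2 3 21 36) (.cons (t2 8 21 36) (.cons (t3 8 30 36) (.cons (t3 8 24 49) (.cons (t3 7 24 49) (.cons (t2 3 11 23) (.cons (t3 11 23 36) (.cons s245 (.cons a505 (.cons s9 (.cons (t2 0 11 23) (.cons (t2 0 7 23) (.cons (t2 0 23 49) (.cons (t2 8 23 29) (.cons a383 (.cons a142 (.cons (t2 7 11 24) (.cons (t2 7 11 49) (.cons a137 (.cons (t2 11 21 24) (.cons a218 (.cons (t2 7 21 24) (.cons (t3 21 24 49) (.cons s201 (.cons a205 (.cons s246 (.cons (t2 23 36 52) (.cons (t3 23 49 52) (.cons s247 (.cons (t1 23 36 45) (.cons (t1 8 36 45) (.cons (t1 30 36 45) (.cons (t3 5 36 45) (.cons (t2 36 45 52) (.cons a357 (.cons s177 (.cons (t3 42 45 52) (.cons (t1 23 45 51) (.cons (t1 30 45 51) (.cons a234 (.cons a496 (.cons a466 (.cons (t2 0 22 23) (.cons (t2 8 30 32) (.cons a491 (.cons (t3 22 42 49) (.cons a365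 (.cons (t3 32 42 49) (.cons s248 (.cons (t1 8 12 49) (.cons (t2 12 32 49) (.cons a517 .nil))))))))))))))))))))))))))))))))))))))))))))))))))))) (by decide +kernel)
theorem s250 : Valid A [2736, 1450, 1506, 2760, 968, 945, 3171] := rup _
  (.cons (t2 7 21 24) (.cons (t3 21 24 49) (.cons s201 (.cons (t2 5 21 49) (.cons (t2 5 11 21) (.cons a215 .nil)))))) (by decide +kernel)
theorem s251 : Valid A [1372, 3164, 1244, 1072, 974, 995, 1124, 1106] := rup _
  (.cons s219 (.cons (t3 7 24 49) (.cons (t2 7 8 24) (.cons (t2 7 24 46) (.cons a185 (.cons a183 (.cons a65 (.cons a426 (.cons a430 (.cons (t1 7 41 50) (.cons s222 (.cons (t3 3 7 33) (.cons (t2 7 33 49) (.cons s150 (.cons (t2 7 48 49) (.cons a480 (.cons (t2 33 36 49) (.cons a52 (.cons a482 (.cons (t2 7 24 48) (.cons (t2 24 36 48) (.cons a177 (.cons (t1 3 36 46) (.cons (t3 8 36 46) (.cons s187 (.cons a432 (.cons (t3 7 39 49) (.cons s185 (.cons a307 (.cons (t1 6 24 49) (.cons s163 (.cons (t3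 6 41 50) (.cons a305 (.cons s221 (.cons (t2 6 9 41) (.cons (t1 9 41 46) (.cons (t2 36 41 46) (.cons (t3 24 46 49) (.cons (t2 6 9 50) (.cons a248 (.cons (t3 9 10 41) (.cons (t2 7 36 49) (.cons a405 (.cons a189 (.cons (t1 10 36 46) (.cons (t3 10 24 49) (.cons (t3 10 33 49) (.cons a392 (.cons (t2 7 30 33) (.cons s236 (.cons (t1 30 36 46) (.cons (t2 30 36 41) (.cons s243 (.cons (t1 7 23 46) (.cons (t3 23 30 46) (.cons (t2 23 46 49) (.cons (t1 17 23 46) (.cons (t3 8 23 46) (.cons (t3 23 36 46) (.cons (t3 3 23 46) (.cons s244 (.cons (t1 21 30 36) (.cons (t2 3 21 36) (.cons (t1 21 23 36) (.cons s249 (.cons a239 (.cons (t2 11 23 49) (.cons (t1 11 23 30) (.cons (t1 11 23 36) (.cons (t2 11 17 23) (.cons (t3 3 11 23) (.cons (t2 11 21 23) (.cons (t1 23 30 52) (.cons a373 (.cons a381 (.cons (t2 3 11 45) (.cons a222 (.cons a375 (.cons a60 (.cons (t2 16 17 24) (.cons s250 (.cons (t3 7 21 24) (.cons (t1 21 24 49) (.cons (t3 10 21 24) (.cons (t2 21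 24 52) (.cons s153 (.cons a503 (.cons a504 (.cons (t1 10 21 45) (.cons (t3 16 24 52) (.cons a30 (.cons (t2 10 13 49) (.cons (t3 13 21 52) (.cons a220 (.cons (t2 10 20 45) (.cons (t1 20 21 45) (.cons (t1 11 13 16) (.cons a18 (.cons a33 (.cons (t3 11 13 20) .nil)))))))))))))))))))))))))))))))))))))))))))))))))))))))))))))))))))))))))))))))))))))))))))))))))))) (by decide +kernel)
theorem s252 : Valid A [1455, 1066, 3020, 3916, 1085, 956, 943, 2993, 1072] := rup _
  (.cons a239 (.cons (t3 7 11 23) (.cons (t2 11 23 38) (.cons (t2 7 23 52) (.cons a384 (.cons (t3 0 7 23) (.cons s238 (.cons (t3 7 21 23) (.cons (t1 21 23 24) (.cons (t3 11 21 23) (.cons s147 (.cons a137 (.cons (t2 11 21 29) (.cons (t1 8 30 52) (.cons (t3 30 38 52) (.cons a142 (.cons a130 (.cons (t2 8 29 52) (.cons (t2 29 38 52) .nil))))))))))))))))))) (by decide +kernel)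
theorem s253 : Valid A [2737, 918, 2760, 943, 2993, 1097, 945, 995] := rup _
  (.cons (t2 8 21 36) (.cons a137 (.cons (t3 7 21 24) (.cons (t3 21 23 24) (.cons a142 (.cons a208 (.cons a210 (.cons a506 (.cons s3 (.cons (t3 5 7 49) (.cons a203 (.cons (t1 0 7 23) (.cons (t3 0 8 36) (.cons s226 (.cons (t1 0 5 36) .nil))))))))))))))) (by decide +kernel)
theorem s254 : Valid A [2760, 3020, 3916, 3913, 2493, 1085, 2478, 3004, 956, 943, 3043, 2993, 4701, 3164, 968, 1072, 3171, 995] := rup _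
  (.cons (t3 7 24 49) (.cons (t2 7 8 24) (.cons (t2 7 24 46) (.cons a185 (.cons (t3 8 36 46) (.cons (t3 21 36 46) (.cons (t1 21 30 36) (.cons (t2 8 21 36) (.cons s252 (.cons (t3 11 23 49) (.cons (t2 7 11 23) (.cons s253 (.cons (t2 7 21 24) (.cons s228 (.cons s250 (.cons s201 (.cons s238 (.cons a34 (.cons (t2 11 21 30) (.cons s26 (.cons (t1 0 23 49) (.cons s231 (.cons a492 (.cons a222 (.cons (t2 19 30 52) (.cons (t2 7 22 49) (.cons (t1 22 23 49) (.cons (t3 7 21 52) (.cons (t3 20 21 52) (.cons (t3 21 51 52) (.cons a226 (.cons a14 (.cons (t2 22 30 52) (.cons (t2 22 51 52) (.cons (t2 19 20 30) (.cons (t1 19 20 23) (.cons a495 (.cons a472 (.cons (t1 20 30 51) (.cons (t3 20 23 51) .nil)))))))))))))))))))))))))))))))))))))))) (by decide +kernel)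
theorem s255 : Valid A [3164, 1244, 1072, 974, 995, 1124, 1106] := rup _
  (.cons a426 (.cons a430 (.cons (t1 7 41 50) (.cons s219 (.cons (t3 7 24 49) (.cons (t2 7 8 24) (.cons s222 (.cons s150 (.cons (t2 7 48 49) (.cons a480 (.cons (t2 7 36 49) (.cons a482 (.cons (t2 7 24 48) (.cons (t2 24 36 48) (.cons (t3 7 8 48) (.cons (t2 7 24 33) (.cons (t2 7 33 48) (.cons (t2 7 24 46) (.cons (t1 24 33 46) (.cons a177 (.cons a185 (.cons s78 (.cons (t3 8 36 46) (.cons s251 (.cons s63 (.cons (t2 10 33 46) (.cons (t3 10 36 46) (.cons (t3 8 10 46) (.cons a401 (.cons a402 (.cons (t3 10 23 46) (.cons (t3 10 23 36) (.cons a520 (.cons a193 (.cons a483 (.cons s88 (.cons (t1 23 48 49) (.cons (t3 7 23 48) (.cons (t1 18 23 48) (.cons (t1 18 23 49) (.cons (t3 7 18 23) (.cons (t3 18 33 48) (.cons a469 (.cons a471 (.cons a346 (.cons a348 (.cons (t3 18 30 33) (.cons (t2 7 30 49) (.cons (t2 23 30 49) (.cons (t3 7 19 23) (.cons a349 (.cons a391 (.cons (t2 10 19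 46) (.cons (t2 10 19 36) (.cons a163 (.cons (t1 8 10 30) (.cons (t2 10 30 46) (.cons (t2 10 19 30) (.cons (t2 10 30 36) (.cons a175 (.cons a176 (.cons (t1 19 36 38) (.cons (t2 10 38 46) (.cons (t2 30 38 46) (.cons a158 (.cons s53 (.cons (t3 23 34 38) (.cons s254 (.cons a204 (.cons (t1 7 21 36) (.cons (t2 21 24 36) (.cons (t3 8 21 36) (.cons (t2 21 23 36) (.cons (t2 21 36 38) (.cons a207 (.cons a143 (.cons (t1 5 7 49) (.cons (t1 5 7 24) (.cons (t2 5 7 38) (.cons a134 (.cons a216 (.cons a217 (.cons (t1 5 24 29) (.cons (t1 5 29 38) (.cons s10 (.cons (t2 7 11 49) (.cons (t3 5 11 29) (.cons (t1 0 7 24) (.cons (t1 0 23 24) (.cons a130 (.cons a383 (.cons a505 (.cons (t2 11 21 38) (.cons (t2 0 11 21) .nil)))))))))))))))))))))))))))))))))))))))))))))))))))))))))))))))))))))))))))))))))))))))))))))) (by decide +kernel)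
theorem s256 : Valid A [2761, 2215, 1958, 2504, 934, 1096, 3016, 2223, 457, 968, 3144, 926, 1072] := rup _
  (.cons a204 (.cons (t1 7 21 36) (.cons (t2 21 24 36) (.cons (t1 8 21 36) (.cons (t3 3 21 36) (.cons (t2 21 23 36) (.cons (t1 19 21 36) (.cons a207 (.cons s202 (.cons a63 (.cons (t2 5 7 19) (.cons (t2 5 7 15) (.cons s7 (.cons a341 (.cons a505 (.cons (t1 17 19 45) (.cons (t3 15 19 45) (.cons (t3 0 17 23) (.cons a511 (.cons (t3 4 17 19) (.cons (t3 4 17 45) (.cons a211 (.cons a99 (.cons (t2 4 5 15) .nil)))))))))))))))))))))))) (by decide +kernel)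
theorem s257 : Valid A [2734, 738, 938, 2736, 2760, 2479, 2504, 1071, 942, 457, 968, 1072, 995] := rup _
  (.cons s201 (.cons (t2 3 21 36) (.cons (t2 8 21 23) (.cons (t2 19 21 23) (.cons s202 (.cons s7 (.cons a505 (.cons (t1 0 5 21) (.cons (t2 0 7 23) (.cons s226 (.cons (t1 7 11 36) (.cons (t1 7 11 21) (.cons s247 (.cons (t3 21 36 45) (.cons (t3 19 36 45) (.cons a341 .nil)))))))))))))))) (by decide +kernel)
theorem s258 : Valid A [2736, 2760, 2532, 1071, 3165, 457, 968, 1072, 3171, 995] := rup _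
  (.cons a404 (.cons s75 (.cons (t3 18 24 49) (.cons a513 (.cons (t3 8 24 46) (.cons a405 (.cons (t3 17 24 46) (.cons a181 (.cons (t2 8 17 23) (.cons (t2 17 18 23) (.cons (t2 24 46 49) (.cons a191 (.cons (t3 7 24 49) (.cons (t1 7 24 46) (.cons (t2 7 10 46) (.cons (t2 7 18 24) (.cons s193 (.cons a402 (.cons (t1 8 17 18) (.cons (t3 8 10 18) (.cons a349 (.cons (t2 18 19 23) (.cons a486 (.cons (t1 18 19 36) (.cons s72 (.cons a195 (.cons (t2 7 23 46) (.cons a432 (.cons (t2 7 21 24) (.cons (t3 21 24 49) (.cons s201 (.cons (t2 5 21 49) (.cons s257 (.cons a506 (.cons (t3 8 21 23) (.cons (t1 5 21 23) (.cons (t1 0 5 23) (.cons a143 (.cons a134 (.cons s10 (.cons (t1 7 24 29) (.cons (t2 24 29 46) (.cons (t2 24 29 49) (.cons (t1 0 7 24) (.cons s226 (.cons (t2 7 11 29) (.cons a132 (.cons (t3 29 38 46) (.cons (t3 29 38 49) (.cons a173 (.cons a329 (.cons (t1 19 38 50) .nil)))))))))))))))))))))))))))))))))))))))))))))))))))) (by decide +kernel)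
theorem s259 : Valid A [3165, 457, 968, 3144, 1956, 1120, 3169, 926, 1072, 3171, 2404, 995] := rup _
  (.cons (t3 7 24 49) (.cons a405 (.cons a404 (.cons a196 (.cons s75 (.cons (t2 24 46 49) (.cons (t3 17 24 46) (.cons (t1 7 24 46) (.cons (t3 8 24 46) (.cons (t3 23 24 48) (.cons (t3 18 24 49) (.cons (t2 7 18 24) (.cons a191 (.cons a181 (.cons (t2 7 10 46) (.cons a520 (.cons a513 (.cons s193 (.cons a402 (.cons (t2 8 17 23) (.cons (t1 8 17 18) (.cons (t2 17 18 23) (.cons (t3 8 10 18) (.cons a484 (.cons a486 (.cons a349 (.cons (t2 8 23 36) (.cons a347 (.cons (t1 18 19 50) (.cons (t1 18 19 36) (.cons (t3 15 18 19) (.cons (t1 17 18 19) (.cons s256 (.cons (t2 3 21 36) (.cons s258 (.cons a137 (.cons (t3 7 21 24) (.cons (t1 21 24 49) (.cons (t1 8 21 24) (.cons (t2 21 23 24) (.cons a142 (.cons a210 (.cons s3 (.cons (t2 8 17 29) (.cons (t2 8 23 29) (.cons a203 (.cons (t3 0 8 23) (.cons a140 (.cons a505 (.cons (t1 22 23 29) (.cons s245 (.cons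 (t1 0 21 49) (.cons a381 (.cons a382 (.cons (t3 5 11 36) (.cons a492 (.cons (t2 5 11 45) (.cons (t2 3 36 45) (.cons (t2 21 22 49) (.cons s177 (.cons a60 (.cons (t3 21 22 45) (.cons (t3 21 23 45) (.cons (t3 22 45 51) (.cons (t3 23 45 51) (.cons a495 .nil)))))))))))))))))))))))))))))))))))))))))))))))))))))))))))))))))) (by decide +kernel)
theorem s260 : Valid A [1072, 974, 995, 1124, 1106] := rup _
  (.cons a426 (.cons s187 (.cons a432 (.cons (t3 7 39 49) (.cons s185 (.cons a307 (.cons s219 (.cons (t1 6 24 49) (.cons s163 (.cons (t2 6 8 50) (.cons (t3 7 24 49) (.cons a65 (.cons a436 (.cons (t2 41 49 50) (.cons a442 (.cons (t3 18 39 41) (.cons a435 (.cons a430 (.cons (t1 7 41 50) (.cons a305 (.cons (t2 7 8 24) (.cons s222 (.cons a110 (.cons a112 (.cons a448 (.cons s150 (.cons (t2 7 33 49) (.cons (t3 3 7 33) (.cons s221 (.cons a95 (.cons (t2 7 48 49) (.cons (t2 7 24 48) (.cons (t3 7 8 48) (.cons (t3 6 8 9) (.cons (t2 15 18 41) (.cons a480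 (.cons a482 (.cons (t2 24 36 48) (.cons (t2 7 36 49) (.cons (t2 33 36 49) (.cons a52 (.cons s259 (.cons (t2 7 24 46) (.cons s255 (.cons a185 (.cons (t3 8 9 46) .nil)))))))))))))))))))))))))))))))))))))))))))))) (by decide +kernel)
theorem s261 : Valid A [2779, 554, 542, 1962] := rup _
  (.cons (t3 15 21 45) (.cons (t3 4 21 45) (.cons a99 .nil))) (by decide +kernel)
theorem s262 : Valid A [2737, 1962, 2760, 2504, 3912, 422, 1955, 2350, 457, 2249, 2376, 2480, 956, 2353, 3171, 995] := rup _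
  (.cons (t2 3 21 36) (.cons (t3 7 24 49) (.cons a65 (.cons (t3 7 21 24) (.cons (t1 21 24 49) (.cons (t1 19 21 24) (.cons (t3 18 21 24) (.cons a210 (.cons a203 (.cons (t3 3 5 36) (.cons (t3 5 17 36) (.cons (t2 5 19 36) (.cons s225 (.cons (t3 0 17 36) (.cons a511 (.cons (t1 4 15 17) (.cons (t1 4 5 17) (.cons a211 (.cons (t2 4 19 21) (.cons s261 (.cons a60 (.cons a341 (.cons (t3 3 19 45) .nil))))))))))))))))))))))) (by decide +kernel)
theorem s263 : Valid A [2778, 683, 426, 444, 917, 404, 431, 956, 398] := rup _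
  (.cons a60 (.cons (t2 5 21 45) (.cons (t3 3 7 45) (.cons (t2 3 23 45) (.cons (t3 3 10 45) (.cons (t3 3 30 45) (.cons s177 (.cons (t3 30 45 51) (.cons (t3 7 45 51) (.cons (t1 23 45 51) (.cons s169 (.cons a496 (.cons (t1 7 10 22) (.cons (t3 22 23 45) (.cons a395 .nil))))))))))))))) (by decide +kernel)
theorem s264 : Valid A [3047, 3930, 5862, 1370, 3004, 1340] := rup _
  (.cons a498 (.cons (t3 23 30 51) (.cons a472 (.cons s126 (.cons (t1 10 22 30) (.cons a395 .nil)))))) (by decide +kernel)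
theorem s265 : Valid A [2862, 3046, 3930, 5862, 1370, 1114, 2790, 1066, 2736, 2218, 1335, 1079, 1329, 2223] := rup _
  (.cons (t2 17 22 23) (.cons a495 (.cons a473 (.cons (t1 21 22 51) (.cons (t2 22 45 51) (.cons s203 (.cons a395 (.cons a142 (.cons a134 (.cons (t2 10 22 24) (.cons (t2 10 22 27) (.cons (t2 8 27 29) (.cons a152 (.cons (t2 22 24 51) (.cons (t2 22 24 32) (.cons a127 (.cons (t3 24 32 51) (.cons (t2 8 27 42) (.cons (t2 22 27 42) (.cons a464 (.cons a356 (.cons a363 (.cons (t1 30 32 45) (.cons (t1 32 42 45) .nil)))))))))))))))))))))))) (by decide +kernel)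
theorem s266 : Valid A [2760, 2493, 2504, 1335, 1079, 3912, 3004, 422, 444, 1340, 1329, 917, 1955, 1993, 1326, 404, 1070, 457, 968, 2480, 1073, 3171, 995] := rup _
  (.cons a405 (.cons (t2 8 17 24) (.cons (t3 7 24 49) (.cons (t3 7 8 24) (.cons a188 (.cons a181 (.cons a186 (.cons (t1 7 24 46) (.cons (t3 8 23 24) (.cons a193 (.cons (t3 17 23 46) (.cons (t1 7 24 36) (.cons a177 (.cons (t1 3 36 46) (.cons (t3 3 23 46) (.cons (t3 7 46 49) (.cons s138 (.cons (t3 7 18 49) (.cons (t1 7 18 36) (.cons (t1 8 24 49) (.cons (t3 8 18 49) (.cons (t1 8 18 23) (.cons a483 (.cons (t3 17 36 46) (.cons a469 (.cons (t2 7 30 49) (.cons (t3 18 24 49) (.cons a65 (.cons (t2 17 21 36) (.cons (t2 3 21 36) (.cons (t1 21 23 36) (.cons (t2 15 21 36) (.cons s262 (.cons (t2 7 21 24) (.cons (t2 8 21 24) (.cons (t2 10 21 24) (.cons s201 (.cons s26 (.cons s263 (.cons a342 (.cons (t3 8 21 45) (.cons (t3 21 23 45) (.cons (t3 10 21 45) (.cons (t1 21 45 51) (.cons (t1 19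 30 45) (.cons s264 (.cons s265 (.cons (t1 10 22 23) (.cons (t2 22 23 45) (.cons a395 .nil)))))))))))))))))))))))))))))))))))))))))))))))))) (by decide +kernel)
theorem s267 : Valid A [1245, 1070, 1183, 1231, 1235, 1253, 457, 968, 2480, 2530, 1073, 3171, 3172, 995] := rup _
  (.cons (t3 7 24 49) (.cons (t3 7 8 24) (.cons a186 (.cons (t3 7 46 49) (.cons a405 (.cons (t2 8 17 24) (.cons a188 (.cons a181 (.cons s138 (.cons (t3 7 18 49) (.cons (t1 7 18 36) (.cons (t1 8 24 49) (.cons (t3 8 18 49) (.cons (t1 8 18 23) (.cons a483 (.cons (t1 7 24 46) (.cons (t3 8 23 24) (.cons a193 (.cons a248 (.cons (t1 7 24 36) (.cons a177 (.cons (t1 3 36 46) (.cons (t3 17 36 46) (.cons (t3 3 17 36) (.cons a38 (.cons (t3 3 27 46) (.cons a346 (.cons a469 (.cons a171 (.cons s57 (.cons (t2 9 46 50) (.cons (t3 9 10 46) (.cons (t2 9 39 46) (.cons (t2 9 41 46) (.cons (t2 9 15 46) (.cons (t3 27 46 50) (.cons a189 (.cons (t1 10 36 46) (.cons (t2 3 10 46) (.cons (t1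 10 23 46) (.cons (t3 17 39 46) (.cons (t3 3 39 46) (.cons (t3 36 39 46) (.cons (t3 3 41 46) (.cons (t3 23 41 46) (.cons (t3 3 15 46) (.cons (t3 15 36 46) (.cons (t3 15 17 46) (.cons a313 (.cons (t3 7 10 49) (.cons (t3 10 24 49) (.cons (t2 10 34 49) (.cons (t2 10 30 49) (.cons (t2 10 19 49) (.cons a334 (.cons a50 (.cons (t2 3 19 39) (.cons (t3 3 30 41) (.cons (t2 23 30 41) (.cons (t1 3 15 30) (.cons (t3 15 30 36) (.cons (t1 8 24 27) (.cons (t1 24 27 34) (.cons (t3 19 24 27) (.cons (t1 10 24 27) (.cons a162 (.cons (t1 19 36 39) (.cons a154 (.cons (t3 19 30 34) (.cons s266 (.cons a204 (.cons (t1 7 21 36) (.cons (t3 3 21 36) (.cons (t1 19 21 36) (.cons a207 (.cons a62 (.cons a63 (.cons a341 (.cons (t2 5 7 19) (.cons (t1 3 36 45) (.cons (t3 10 19 45) (.cons (t3 5 19 45) (.cons (t2 19 30 45) (.cons s177 (.cons (t1 30 45 51) (.cons (t3 36 45 51) (.cons s234 (.cons a473 (.cons (t1 22 45 51) .nil)))))))))))))))))))))))))))))))))))))))))))))))))))))))))))))))))))))))))))))))))))))))))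 (by decide +kernel)
theorem s268 : Valid A [417, 2735, 4698, 2790, 5863, 3539, 466, 431, 419, 457, 851] := rup _
  (.cons (t2 3 16 17) (.cons (t2 3 16 23) (.cons (t2 3 16 36) (.cons (t1 3 16 41) (.cons a376 (.cons a289 (.cons a291 (.cons (t3 11 16 36) (.cons (t1 1 21 23) (.cons a284 (.cons a379 (.cons (t3 1 6 41) (.cons s68 (.cons (t1 11 45 51) (.cons a293 (.cons a294 (.cons (t1 6 11 51) (.cons (t1 1 41 51) (.cons (t3 6 11 41) (.cons a3 (.cons (t3 27 40 41) (.cons (t3 1 40 41) (.cons a1 (.cons a2 (.cons (t2 1 25 40) (.cons (t3 25 27 41) (.cons a286 (.cons a527 (.cons (t1 21 25 51) .nil))))))))))))))))))))))))))))) (by decide +kernel)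
theorem s269 : Valid A [160, 2130, 2094, 3026] := rup _
  (.cons a288 (.cons a284 (.cons (t2 1 23 41) .nil))) (by decide +kernel)
theorem s270 : Valid A [215, 170, 210, 2770] := rup _
  (.cons (t3 1 21 43) (.cons (t3 1 41 43) (.cons a451 .nil))) (by decide +kernel)
theorem s271 : Valid A [3159, 2770, 2736, 3154] := rup _
  (.cons (t3 21 24 43) (.cons (t3 24 41 43) (.cons a451 .nil))) (by decide +kernel)
theorem s272 : Valid A [177, 2096, 2094, 2992] := rup _
  (.cons (t2 1 16 24) (.cons (t2 1 23 24) (.cons a288 .nil))) (by decide +kernel)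
theorem s273 : Valid A [161, 215, 2090, 2770] := rup _
  (.cons a285 (.cons (t2 1 16 21) (.cons s270 .nil))) (by decide +kernel)
theorem s274 : Valid A [2907, 5863, 2778, 3539, 3026, 466, 462, 431, 3017, 2992, 419, 457, 851, 945, 3154, 5075, 995] := rup _
  (.cons (t3 21 45 51) (.cons a202 (.cons a67 (.cons a65 (.cons s86 (.cons (t1 5 22 45) (.cons (t1 22 45 51) (.cons a475 (.cons a497 (.cons (t2 3 22 23) (.cons (t3 22 23 36) (.cons (t3 3 22 45) (.cons (t3 22 36 45) (.cons a60 (.cons (t1 3 21 24) (.cons (t3 3 7 21) (.cons (t2 3 21 36) (.cons (t2 3 21 23) (.cons (t1 3 21 41) (.cons a204 (.cons a489 (.cons a207 (.cons (t2 23 28 36) (.cons (t1 5 7 49) (.cons (t1 5 7 24) (.cons (t1 5 7 22) (.cons a216 (.cons (t3 5 22 24) (.cons (t2 7 11 49) (.cons s268 (.cons (t3 3 16 23) (.cons (t3 3 16 21) (.cons a56 (.cons (t1 7 16 22) (.cons (t1 16 22 51) (.cons (t2 16 22 30) (.cons (t2 16 22 24) (.cons (t2 16 22 40) (.cons s271 (.cons s272 (.cons a281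 (.cons s273 (.cons a288 (.cons s269 (.cons (t3 1 16 43) (.cons (t2 1 23 28) (.cons (t2 16 41 51) (.cons (t3 16 30 41) (.cons (t3 16 40 41) (.cons (t3 1 28 43) (.cons a528 (.cons (t1 27 41 51) (.cons (t1 30 39 41) (.cons (t2 27 40 41) (.cons a456 (.cons (t1 25 27 51) (.cons (t2 16 25 51) (.cons a48 (.cons s70 (.cons a0 (.cons a460 (.cons (t2 3 21 30) (.cons (t1 16 22 52) (.cons (t3 7 11 25) (.cons a223 (.cons a226 (.cons (t3 11 25 40) (.cons (t1 21 23 52) (.cons (t3 7 11 52) (.cons a3 (.cons a238 (.cons (t2 11 23 41) .nil)))))))))))))))))))))))))))))))))))))))))))))))))))))))))))))))))))))))) (by decide +kernel)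
theorem s275 : Valid A [171, 175, 144, 2918, 2790, 3017, 2249, 4706, 1123] := rup _
  (.cons (t1 1 23 36) (.cons (t2 1 21 36) (.cons (t2 1 21 23) (.cons (t3 1 8 21) (.cons (t1 21 36 51) (.cons a506 (.cons s152 (.cons (t3 0 23 36) (.cons (t2 22 36 49) (.cons (t3 21 22 36) (.cons (t3 17 22 36) (.cons (t1 0 22 36) (.cons a139 (.cons a491 (.cons (t2 21 22 29) (.cons s13 (.cons a142 (.cons (t2 8 29 49) .nil)))))))))))))))))) (by decide +kernel)
theorem s276 : Valid A [2152, 1175, 940, 1454, 2093, 1185, 942] := rup _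
  (.cons (t2 9 16 52) (.cons (t1 16 22 52) (.cons a226 (.cons (t1 9 11 52) (.cons (t3 7 23 52) (.cons a238 .nil)))))) (by decide +kernel)
theorem s277 : Valid A [416, 160, 215, 144, 2918, 2906, 2790, 2778, 414, 3026, 2254, 1198, 431, 3017, 942, 1235, 2003, 457, 2249, 4706, 1123, 851, 5075, 978] := rup _
  (.cons (t3 3 17 36) (.cons (t3 3 16 23) (.cons a288 (.cons s269 (.cons (t3 1 3 23) (.cons (t2 1 23 41) (.cons (t2 1 9 23) (.cons (t1 7 16 41) (.cons (t3 9 16 41) (.cons (t3 15 16 41) (.cons (t3 6 16 41) (.cons (t3 16 39 41) (.cons (t2 1 3 43) (.cons (t3 1 9 43) (.cons a254 (.cons a260 (.cons (t1 4 6 16) (.cons (t1 4 15 16) (.cons s275 (.cons (t1 1 3 21) (.cons s270 (.cons a60 (.cons (t3 6 21 41) (.cons (t3 15 21 41) (.cons (t2 3 17 45) (.cons (t2 3 23 45) (.cons (t2 3 36 45) (.cons (t3 3 15 45) (.cons (t2 3 22 45) (.cons (t2 3 43 45) (.cons a103 (.cons a380 (.cons a99 (.cons a56 (.cons (t1 11 43 45) (.cons (t2 6 21 26) (.cons (t1 11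 23 45) (.cons (t3 4 23 45) (.cons (t3 4 17 45) (.cons a338 (.cons (t3 7 16 22) (.cons a243 (.cons a308 (.cons (t3 16 19 39) (.cons (t2 4 17 26) (.cons (t2 4 23 26) (.cons a333 (.cons s276 (.cons (t2 17 19 26) (.cons a425 (.cons (t3 16 19 52) (.cons (t3 16 32 52) (.cons (t2 19 26 32) (.cons a230 .nil)))))))))))))))))))))))))))))))))))))))))))))))))))))) (by decide +kernel)
theorem s278 : Valid A [4179, 1618, 1048, 1106] := rup _
  (.cons (t1 8 32 41) (.cons (t1 12 32 41) (.cons a517 .nil))) (by decide +kernel)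
theorem s279 : Valid A [160, 215, 144, 2906, 5863, 2778, 414, 3026, 466, 2254, 1198, 402, 431, 3017, 942, 1070, 1235, 2003, 457, 2249, 4706, 400, 1123, 851, 5075, 978, 995, 1106] := rup _
  (.cons (t3 22 45 51) (.cons (t3 21 45 51) (.cons s277 (.cons a58 (.cons (t3 3 8 16) (.cons (t3 3 9 16) (.cons (t2 3 16 23) (.cons (t2 3 16 36) (.cons (t1 3 16 41) (.cons (t3 3 22 23) (.cons (t3 3 22 36) (.cons a354 (.cons a284 (.cons a495 (.cons s152 (.cons (t1 16 23 42) (.cons (t2 1 41 43) (.cons (t3 8 23 51) (.cons (t3 23 45 51) (.cons (t1 21 23 51) (.cons s32 (.cons (t1 21 36 51) (.cons (t3 23 42 45) (.cons a453 (.cons (t1 8 45 51) (.cons (t2 16 21 23) (.cons a203 (.cons a356 (.cons a210 (.cons a361 (.cons (t3 7 21 49) (.cons (t3 8 12 49) (.cons a499 (.cons (t2 12 21 41) (.cons (t2 12 16 21) (.cons s278 (.cons (t2 9 32 41) (.cons a257 (.cons (t3 8 16 32) (.cons (t3 12 16 32) (.cons a517 .nil))))))))))))))))))))))))))))))))))))))))) (by decide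 +kernel)
theorem s280 : Valid A [171, 134, 140, 5863, 2778, 396] := rup _
  (.cons (t3 21 45 51) (.cons (t2 1 21 51) (.cons (t3 1 3 21) (.cons a292 (.cons a60 (.cons (t3 6 45 51) (.cons (t3 3 6 45) .nil))))))) (by decide +kernel)
theorem s281 : Valid A [215, 144, 2906, 5863, 2778, 414, 3026, 466, 2254, 396, 1198, 402, 431, 3017, 942, 1070, 1235, 2003, 457, 2249, 4706, 400, 1123, 851, 5075, 978, 995, 1106] := rup _
  (.cons (t3 21 45 51) (.cons s279 (.cons a285 (.cons a290 (.cons (t1 1 6 41) (.cons (t1 1 3 23) (.cons s280 (.cons s270 (.cons (t3 6 21 41) (.cons (t1 3 21 41) (.cons (t2 6 21 51) (.cons a60 (.cons a292 (.cons (t3 1 3 45) (.cons (t3 1 45 51) .nil))))))))))))))) (by decide +kernel)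
theorem s282 : Valid A [231, 359, 3047, 347, 723, 2010, 671, 3026, 1235] := rup _
  (.cons (t3 1 23 51) (.cons (t3 1 2 51) (.cons a289 (.cons a290 (.cons a91 (.cons s269 (.cons (t3 2 4 45) (.cons (t3 9 16 41) (.cons (t3 5 16 41) (.cons a99 (.cons a254 (.cons (t1 4 5 16) (.cons (t3 4 5 15) .nil))))))))))))) (by decide +kernel)
theorem s283 : Valid A [2771, 270, 5863, 2778, 3539, 3026, 466, 4690, 431, 3017, 1235, 2003, 457, 968, 400, 1123, 851, 945, 3171, 3154, 5346, 978] := rup _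
  (.cons (t3 21 45 51) (.cons s107 (.cons a65 (.cons (t1 7 21 41) (.cons (t2 21 41 49) (.cons (t3 6 21 41) (.cons (t2 21 24 41) (.cons (t1 3 21 41) (.cons (t3 15 21 41) (.cons (t2 21 36 41) (.cons (t3 21 27 41) (.cons (t1 21 41 51) (.cons s201 (.cons (t2 6 21 51) (.cons a60 (.cons (t3 5 15 21) (.cons (t2 15 21 45) (.cons (t1 5 21 41) (.cons (t3 3 7 45) (.cons (t3 3 8 45) (.cons (t2 3 23 45) (.cons (t2 3 36 45) (.cons a85 (.cons (t1 23 45 51) (.cons a380 (.cons (t1 2 45 51) (.cons (t2 3 11 45) (.cons s282 (.cons (t1 1 23 51) (.cons a292 (.cons (t1 1 6 41) (.cons (t1 1 6 21) (.cons a285 (.cons a287 (.cons a288 (.cons (t3 21 25 41) (.cons (t3 21 25 27) (.cons (t1 16 23 36) (.cons (t1 16 23 45) (.cons a527 (.cons a354 (.cons (t3 16 42 45) (.cons (t2 25 40 51) (.cons a356 (.cons a0 (.cons a361 (.cons (t2 27 40 41) (.cons (t1 21 27 40) (.cons (t3 8 12 49) (.cons a5 (.cons s248 (.cons (t1 11 21 40) (.cons s250 .nil)))))))))))))))))))))))))))))))))))))))))))))))))))))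 (by decide +kernel)
theorem s284 : Valid A [2737, 730, 2778, 457, 3144, 945] := rup _
  (.cons a67 (.cons (t3 7 21 24) (.cons (t1 3 21 24) (.cons (t2 21 24 36) (.cons a210 (.cons a60 (.cons a203 (.cons (t2 3 5 45) (.cons (t3 3 5 36) .nil))))))))) (by decide +kernel)
theorem s285 : Valid A [2761, 1066, 2918, 2790, 3017, 2249, 4706, 1123] := rup _
  (.cons (t3 21 23 36) (.cons (t1 21 36 51) (.cons a506 (.cons s152 (.cons (t3 0 23 36) (.cons (t2 22 36 49) (.cons (t3 21 22 36) (.cons (t3 17 22 36) (.cons (t1 0 22 36) (.cons a139 (.cons a491 (.cons (t2 21 22 29) (.cons s13 (.cons a142 (.cons (t2 8 29 49) .nil))))))))))))))) (by decide +kernel)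
theorem s286 : Valid A [141, 3158, 2906, 5863, 2778, 414, 3026, 466, 2254, 396, 1198, 402, 431, 3017, 942, 1070, 1235, 2003, 457, 2249, 4706, 400, 1123, 851, 784, 816, 5075, 978, 995, 1106] := rup _
  (.cons (t2 1 6 24) (.cons (t2 1 6 8) (.cons a281 (.cons s281 .nil)))) (by decide +kernel)
theorem s287 : Valid A [2770, 870, 3174, 2736, 2906, 5863, 2778, 414, 3026, 466, 2254, 396, 1198, 402, 431, 3017, 942, 1070, 1235, 2003, 457, 2249, 4706, 400, 1123, 851, 784, 816, 3154, 5075, 978, 995, 1106] := rup _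
  (.cons (t3 21 45 51) (.cons s271 (.cons s286 (.cons (t3 1 6 41) (.cons a292 (.cons (t2 1 21 51) (.cons (t2 1 24 51) (.cons s270 (.cons a281 .nil))))))))) (by decide +kernel)
theorem s288 : Valid A [5863, 2778, 3539, 414, 3026, 466, 4690, 462, 2254, 396, 1198, 402, 1070, 1235, 2003, 457, 968, 1073, 851, 784, 3171, 3154, 5075, 5346, 978, 995, 1106] := rup _
  (.cons (t3 7 24 49) (.cons (t3 7 8 24) (.cons a186 (.cons (t1 7 24 46) (.cons (t1 7 24 36) (.cons a177 (.cons (t1 3 36 46) (.cons (t3 8 23 24) (.cons a193 (.cons (t3 3 23 46) (.cons (t3 7 46 49) (.cons a405 (.cons (t2 8 17 24) (.cons a188 (.cons a181 (.cons s138 (.cons (t3 7 18 49) (.cons (t1 7 18 36) (.cons (t1 8 24 49) (.cons (t3 8 18 49) (.cons (t1 8 18 23) (.cons a483 (.cons (t2 7 8 23) (.cons (t3 17 36 46) (.cons (t3 3 17 36) (.cons (t3 7 36 49) (.cons a67 (.cons (t1 3 8 24) (.cons a307 (.cons (t1 6 24 49) (.cons a202 (.cons (t3 21 45 51) (.cons s274 (.cons (t3 22 45 51) (.cons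 s284 (.cons (t2 8 21 24) (.cons s285 (.cons (t2 3 21 36) (.cons a60 (.cons (t3 3 24 45) (.cons (t3 3 8 45) (.cons (t3 3 6 45) (.cons (t3 24 45 51) (.cons (t3 8 45 51) (.cons (t3 6 45 51) (.cons s287 (.cons s283 (.cons (t1 2 7 8) (.cons a83 (.cons (t1 8 24 43) (.cons s286 (.cons a292 (.cons (t2 1 24 51) (.cons (t2 1 8 51) (.cons a281 (.cons s281 .nil)))))))))))))))))))))))))))))))))))))))))))))))))))))))) (by decide +kernel)
theorem s289 : Valid A [2736, 731, 2778, 4690, 3017, 457, 968, 1073, 3171, 3154, 995] := rup _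
  (.cons (t2 5 21 45) (.cons (t3 7 24 49) (.cons (t3 7 8 24) (.cons a186 (.cons (t3 7 46 49) (.cons a405 (.cons (t2 8 17 24) (.cons a188 (.cons a181 (.cons s138 (.cons (t3 7 18 49) (.cons a346 (.cons (t1 8 24 49) (.cons (t2 7 21 24) (.cons (t3 21 24 49) (.cons s199 (.cons s201 (.cons a207 (.cons a30 (.cons (t2 7 45 49) (.cons (t3 7 19 45) (.cons (t2 7 8 45) (.cons (t3 7 36 45) (.cons (t2 7 24 45) (.cons (t3 21 23 36) (.cons (t2 21 36 41) (.cons (t1 5 7 49) (.cons (t3 20 45 49) (.cons a341 (.cons a357 (.cons a506 (.cons a216 (.cons (t1 19 21 23) (.cons (t1 19 21 36) (.cons (t3 42 45 49) (.cons (t2 24 42 45) (.cons (t3 0 23 36) (.cons (t2 7 11 49) (.cons (t1 11 45 49) (.cons a379 (.cons (t3 11 23 36) (.cons (t3 11 21 36) (.cons (t3 3 11 36) (.cons (t3 11 19 36) (.cons (t1 0 11 36) (.cons a239 (.cons a35 (.cons a41 (.cons (t1 11 19 20) (.cons a383 (.cons (t2 19 23 52) (.cons (t3 11 12 21) (.cons s2 (.cons a14 (.cons a499 (.cons (t1 7 24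 29) (.cons (t3 20 49 52) (.cons (t3 8 12 49) (.cons a134 (.cons a234 (.cons a519 (.cons (t1 21 29 41) (.cons s97 (.cons (t1 8 24 32) (.cons a367 (.cons a149 (.cons (t1 24 28 41) (.cons (t1 24 28 32) (.cons (t1 29 32 41) (.cons a529 .nil)))))))))))))))))))))))))))))))))))))))))))))))))))))))))))))))))))))) (by decide +kernel)
theorem s290 : Valid A [2778, 3539, 414, 3026, 466, 4690, 462, 2254, 814, 396, 1198, 402, 799, 2003, 926, 457, 968, 1073, 851, 784, 3171, 3154, 5075, 5346, 978, 995, 1106] := rup _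
  (.cons (t3 7 24 49) (.cons (t3 7 8 24) (.cons a186 (.cons (t1 7 24 46) (.cons (t1 7 24 36) (.cons a177 (.cons (t1 3 36 46) (.cons a97 (.cons a109 (.cons s150 (.cons (t2 7 8 48) (.cons a522 (.cons (t3 8 23 24) (.cons a193 (.cons (t3 3 23 46) (.cons (t3 7 46 49) (.cons a405 (.cons (t2 8 17 24) (.cons a188 (.cons a181 (.cons s138 (.cons (t3 7 18 49) (.cons (t1 7 18 36) (.cons (t1 8 24 49) (.cons (t3 8 18 49) (.cons (t1 8 18 23) (.cons a483 (.cons a305 (.cons s221 (.cons (t2 6 9 15) (.cons (t2 6 9 41) (.cons a346 (.cons a67 (.cons a307 (.cons (t1 6 24 49) (.cons s288 (.cons s177 (.cons (t2 5 21 45) (.cons s289 (.cons (t3 7 21 24) (.cons (t1 21 24 49) (.cons (t1 3 21 24) (.cons (t2 21 23 24) (.cons (t2 7 21 45) (.cons s130 (.cons (t3 5 21 49) (.cons a60 (.cons (t3 5 19 45) (.cons (t2 3 23 45) (.cons (t2 3 36 45) (.cons (t3 3 15 45) (.cons a213 (.cons a380 (.cons (t3 4 5 45) (.cons (t1 11 23 45) (.cons (t2 5 11 45) (.cons a99 (.cons a215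 (.cons (t2 4 7 15) (.cons (t3 4 6 15) (.cons (t3 4 9 15) (.cons (t3 7 11 49) (.cons (t3 11 21 49) (.cons a309 (.cons a255 (.cons a384 (.cons a34 (.cons a419 (.cons (t2 6 9 16) (.cons (t3 0 7 49) (.cons (t3 0 7 21) (.cons (t2 7 20 21) (.cons (t3 20 21 24) (.cons (t2 7 24 26) (.cons a505 (.cons a29 (.cons a280 (.cons (t2 20 45 51) (.cons (t3 20 23 45) (.cons (t3 19 20 45) (.cons a22 (.cons a16 (.cons (t3 6 24 51) (.cons (t3 1 24 51) (.cons (t1 20 23 52) (.cons a292 (.cons a238 (.cons (t2 1 6 23) (.cons (t2 1 6 16) (.cons (t1 7 11 52) (.cons (t2 11 49 52) (.cons a288 (.cons a228 (.cons (t1 22 49 52) (.cons (t3 3 16 23) (.cons (t3 0 16 23) (.cons a491 (.cons a57 (.cons (t2 0 16 22) .nil))))))))))))))))))))))))))))))))))))))))))))))))))))))))))))))))))))))))))))))))))))))))))))))))))) (by decide +kernel)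
theorem s291 : Valid A [919, 457, 968, 4698, 938, 426] := rup _
  (.cons (t1 7 11 36) (.cons (t1 7 11 21) (.cons s247 .nil))) (by decide +kernel)
theorem s292 : Valid A [1513, 2472, 1446, 1448] := rup _
  (.cons (t3 11 20 52) (.cons (t3 11 19 52) (.cons a14 .nil))) (by decide +kernel)
theorem s293 : Valid A [14, 3022, 974, 1325, 3020, 684, 998, 6374, 1065, 937, 918, 3938, 1066, 3042, 995, 683] := rup _
  (.cons (t2 7 20 49) (.cons (t2 7 30 49) (.cons a209 (.cons (t3 5 7 49) (.cons s57 (.cons (t3 0 7 49) (.cons s226 (.cons s1 (.cons (t2 0 5 22) (.cons (t1 5 21 29) (.cons a491 (.cons a142 (.cons (t3 7 22 49) (.cons (t2 22 30 49) (.cons (t2 22 23 49) (.cons (t2 22 34 49) (.cons (t2 22 49 51) (.cons (t3 20 22 49) (.cons (t2 8 20 29) (.cons s169 (.cons (t2 10 22 30) (.cons (t2 10 22 34) (.cons a495 (.cons (t3 10 20 22) (.cons a13 (.cons (t3 23 30 51) (.cons a162 (.cons (t2 10 20 37) (.cons (t2 7 20 37) (.cons (t1 23 30 38) (.cons (t1 30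 34 38) (.cons a121 (.cons a158 (.cons (t1 23 37 39) (.cons (t3 10 37 38) (.cons a123 .nil)))))))))))))))))))))))))))))))))))) (by decide +kernel)
theorem s294 : Valid A [15, 2734, 942, 938] := rup _
  (.cons (t2 0 7 21) (.cons (t2 0 7 23) (.cons a505 .nil))) (by decide +kernel)
theorem s295 : Valid A [457, 1073, 3017, 968, 3171, 995, 2779, 731] := rup _
  (.cons (t3 7 24 49) (.cons (t3 7 8 24) (.cons a186 (.cons (t3 7 46 49) (.cons a405 (.cons (t2 8 17 24) (.cons a188 (.cons a181 (.cons s138 (.cons (t3 7 18 49) (.cons a346 (.cons a469 (.cons (t1 7 24 36) (.cons (t2 23 24 36) (.cons (t1 7 24 46) (.cons a193 (.cons (t3 17 23 46) (.cons a177 (.cons (t3 17 36 46) (.cons (t3 5 21 45) (.cons a210 (.cons (t3 7 21 49) (.cons (t1 21 24 49) (.cons (t2 8 21 24) (.cons (t1 7 23 36) (.cons a204 (.cons (t1 21 23 36) (.cons s294 (.cons (t3 0 7 49) (.cons (t3 7 36 49) (.cons (t2 23 36 49) (.cons a65 (.cons (t3 3 7 49) (.cons a209 (.cons (t3 5 7 49)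 (.cons (t3 5 7 45) (.cons (t3 21 36 45) (.cons a344 (.cons a63 (.cons (t3 3 17 36) (.cons (t3 3 23 36) (.cons a38 (.cons (t1 3 23 27) (.cons s291 (.cons (t3 7 11 49) (.cons s250 (.cons a34 (.cons a35 (.cons (t2 11 21 23) (.cons (t1 11 21 45) (.cons (t2 11 19 21) (.cons (t3 20 21 45) (.cons a29 (.cons (t2 7 20 49) (.cons (t2 7 20 24) (.cons (t3 7 19 20) (.cons (t2 7 8 20) (.cons (t1 7 20 23) (.cons a23 (.cons a27 (.cons (t1 24 49 51) (.cons (t2 7 24 51) (.cons (t3 16 20 49) (.cons s292 (.cons a238 (.cons (t1 11 45 52) (.cons s87 (.cons (t3 7 23 52) (.cons (t2 23 46 52) (.cons (t3 23 49 52) (.cons (t1 3 23 52) (.cons (t1 17 23 52) (.cons (t3 20 23 52) (.cons (t3 23 28 36) (.cons s131 (.cons a14 (.cons a487 (.cons (t2 5 22 45) (.cons (t3 19 46 52) (.cons (t3 19 23 52) (.cons (t3 17 19 52) (.cons (t2 21 28 45) (.cons (t1 11 21 28) (.cons a175 (.cons a388 (.cons (t2 23 38 46) (.cons (t3 10 28 45) (.cons a395 (.cons a335 (.cons s226 (.cons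 (t1 19 23 39) (.cons s1 (.cons (t2 0 5 22) (.cons a325 (.cons s293 (.cons (t1 5 21 29) (.cons a491 (.cons (t2 7 39 49) (.cons (t2 7 8 39) (.cons a142 (.cons (t1 3 22 49) (.cons (t1 16 22 49) (.cons (t1 27 39 49) (.cons (t3 8 27 39) (.cons (t2 8 27 29) (.cons a56 (.cons a127 (.cons (t2 3 16 36) (.cons (t2 3 16 52) (.cons (t3 27 42 49) (.cons a354 (.cons a234 (.cons (t3 16 42 52) .nil))))))))))))))))))))))))))))))))))))))))))))))))))))))))))))))))))))))))))))))))))))))))))))))))))))))))))))))))) (by decide +kernel)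
theorem s296 : Valid A [918, 937, 1073, 3017, 968, 3171, 995, 2779, 731] := rup _
  (.cons (t2 7 20 49) (.cons (t3 7 24 49) (.cons (t3 7 8 24) (.cons (t2 7 8 20) (.cons a27 (.cons (t3 16 20 49) (.cons (t1 7 23 36) (.cons (t1 7 20 23) (.cons a186 (.cons (t3 7 46 49) (.cons a405 (.cons (t2 8 17 24) (.cons a188 (.cons a181 (.cons s138 (.cons (t3 7 18 49) (.cons a346 (.cons (t3 7 19 20) (.cons s295 (.cons (t1 3 23 36) (.cons (t3 7 19 49) (.cons (t3 5 21 45) (.cons a210 (.cons a204 (.cons (t1 21 23 36) (.cons s294 (.cons (t3 0 7 49) (.cons a205 (.cons (t1 5 23 36) (.cons a65 (.cons (t3 3 7 49) (.cons (t3 7 21 49) (.cons (t1 21 24 49) (.cons a209 (.cons (t3 5 7 49) (.cons (t3 5 7 45) (.cons a342 (.cons (t2 5 19 45) (.cons (t3 7 11 49) (.cons s226 (.cons a383 (.cons (t3 7 11 20) (.cons s250 (.cons (t2 0 5 23) (.cons (t1 0 5 45) (.cons (t2 0 5 19) (.cons (t1 0 11 23) (.cons (t1 0 11 19) (.cons (t1 11 21 45) (.cons s292 (.cons a238 (.cons (t1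 11 45 52) (.cons (t3 7 23 52) (.cons (t3 3 23 52) (.cons (t3 20 23 52) (.cons s131 (.cons a14 (.cons (t2 0 22 45) (.cons (t1 3 19 52) (.cons a491 (.cons (t1 19 22 49) (.cons (t1 3 22 49) (.cons (t1 16 22 49) (.cons a56 (.cons a337 (.cons (t1 3 16 19) .nil)))))))))))))))))))))))))))))))))))))))))))))))))))))))))))))))))) (by decide +kernel)
theorem s297 : Valid A [919, 968, 986, 4698] := rup _
  (.cons (t1 7 11 36) (.cons (t1 7 11 45) (.cons a379 .nil))) (by decide +kernel)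
theorem s298 : Valid A [5986, 1096, 912, 4706, 3171, 995] := rup _
  (.cons (t2 7 46 49) (.cons s140 (.cons a185 (.cons (t3 8 36 46) .nil)))) (by decide +kernel)
theorem s299 : Valid A [2915, 2089, 935, 2659, 995] := rup _
  (.cons (t3 7 22 49) (.cons (t3 20 22 49) (.cons (t2 7 19 22) (.cons a340 (.cons (t1 16 20 22) .nil))))) (by decide +kernel)

end Pool.Agent.Helper50.Canon.CD
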