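import Mathlib
import Pool.Agent.Helper50.Canon.CD.C2

set_option autoImplicit false

namespace Pool.Agent.Helper50.Canon.CD

theorem s300 : Valid A [3017, 968, 3171, 995, 2779, 731] := rup _
  (.cons (t3 7 24 49) (.cons (t3 5 21 45) (.cons a209 (.cons (t3 5 7 45) (.cons a204 (.cons a210 (.cons (t3 7 21 49) (.cons (t1 21 24 49) (.cons (t3 21 36 45) (.cons s297 (.cons (t3 7 11 49) (.cons s250 (.cons a34 (.cons (t3 20 21 45) (.cons a29 (.cons (t2 7 20 24) (.cons a65 (.cons (t3 3 7 20) (.cons (t2 7 20 49) (.cons (t3 7 36 49) (.cons a404 (.cons (t3 5 7 49) (.cons a205 (.cons a61 (.cons (t1 3 5 45) (.cons a344 (.cons (t1 7 23 36) (.cons (t1 21 23 36) (.cons s294 (.cons (t3 0 7 49) (.cons s226 (.cons a383 (.cons (t1 0 5 21) (.cons (t2 0 3 5) (.cons (t2 0 5 36) (.cons (t1 0 11 36) (.cons s296 (.cons (t1 8 20 24) (.cons (t2 7 8 24) (.cons (t3 8 24 49) (.cons s245 (.cons (t2 8 21 36) (.cons (t2 8 19 21) (.cons (t3 8 11 21) (.cons s298 (.cons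 s80 (.cons (t1 8 46 49) (.cons (t1 17 46 49) (.cons (t2 7 18 49) (.cons a513 (.cons a181 (.cons (t1 8 17 18) (.cons (t2 8 11 17) (.cons (t1 8 18 19) (.cons a377 (.cons a345 (.cons (t2 8 11 16) (.cons a25 (.cons (t1 16 20 49) (.cons s299 (.cons (t1 3 16 20) (.cons (t2 16 22 49) (.cons a491 (.cons a56 (.cons (t3 0 3 22) .nil))))))))))))))))))))))))))))))))))))))))))))))))))))))))))))))))) (by decide +kernel)
theorem s301 : Valid A [2477, 940, 2348, 932] := rup _
  (.cons (t1 7 19 22) (.cons (t1 18 19 22) (.cons a345 .nil))) (by decide +kernel)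
theorem s302 : Valid A [1117, 2992, 1072, 6242, 3144, 1122] := rup _
  (.cons (t3 8 24 46) (.cons (t1 8 46 49) (.cons a177 (.cons a193 (.cons (t2 36 46 49) (.cons (t3 8 36 46) (.cons (t3 8 23 46) (.cons a479 (.cons (t1 8 36 48) (.cons a522 .nil)))))))))) (by decide +kernel)
theorem s303 : Valid A [3170, 2864, 11, 733, 662, 713, 2092, 1454, 1047, 1457, 1067, 3017, 2760, 1070, 2737] := rup _
  (.cons (t3 5 23 36) (.cons s32 (.cons (t3 11 21 24) (.cons a34 (.cons (t2 8 20 21) (.cons (t3 20 21 24) (.cons (t2 21 24 49) (.cons (t2 11 24 49) (.cons a215 (.cons s33 (.cons (t2 5 36 49) (.cons (t2 5 46 49) (.cons (t2 5 23 49) (.cons (t1 0 5 49) (.cons a190 (.cons (t1 10 23 49) (.cons a492 (.cons a399 (.cons (t1 22 36 49) (.cons (t1 8 10 20) (.cons (t2 8 10 11) (.cons s152 (.cons a389 (.cons (t3 22 24 51) (.cons (t3 16 22 51) (.cons (t1 11 21 28) (.cons a22 (.cons a487 (.cons (t2 20 49 51) (.cons (t1 16 20 51) (.cons s96 (.cons a25 (.cons (t2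 23 36 52) (.cons (t2 8 16 21) (.cons (t2 8 11 16) (.cons (t2 8 10 16) (.cons a238 (.cons (t2 11 16 52) (.cons a221 (.cons (t3 13 16 21) (.cons (t2 10 13 16) (.cons a502 (.cons a18 (.cons (t2 13 20 49) .nil)))))))))))))))))))))))))))))))))))))))))))) (by decide +kernel)
theorem s304 : Valid A [3174, 2479, 2534, 1446, 956, 1583, 1048, 3046, 919, 939, 2608, 1448, 1454, 1073] := rup _
  (.cons a22 (.cons (t2 8 24 51) (.cons (t1 19 20 51) (.cons s292 (.cons (t2 7 11 52) (.cons a238 (.cons s147 (.cons (t1 19 23 52) (.cons (t3 23 51 52) (.cons (t1 12 23 52) (.cons a232 (.cons (t2 30 51 52) (.cons (t2 12 32 52) (.cons (t2 30 32 52) (.cons a517 (.cons a464 (.cons (t1 8 32 51) .nil))))))))))))))))) (by decide +kernel)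
theorem s305 : Valid A [3049, 823, 3523, 1078, 2479, 2091, 1057, 814, 1583, 3138, 1048, 913, 1451, 1047, 1067, 1073, 3017, 2760, 1070] := rup _
  (.cons s87 (.cons (t3 8 23 52) (.cons (t1 19 23 52) (.cons (t1 12 23 52) (.cons (t3 6 23 52) (.cons (t3 23 28 36) (.cons a232 (.cons (t2 12 32 52) (.cons a487 (.cons a517 (.cons (t1 8 21 28) (.cons (t1 11 21 28) (.cons (t1 16 21 28) (.cons (t1 7 8 32) (.cons (t2 8 24 32) (.cons (t2 8 11 32) (.cons (t3 8 27 32) (.cons (t2 8 16 32) (.cons a457 (.cons a415 (.cons a258 (.cons (t2 8 28 43) (.cons (t2 11 28 43) (.cons a321 (.cons (t1 9 24 32) (.cons (t1 9 11 32) (.cons a76 (.cons a250 (.cons a243 (.cons (t1 2 6 27) (.cons (t3 2 27 33) (.cons (t1 2 9 33) (.cons (t3 2 9 43) (.cons a71 (.cons a82 (.cons (t2 2 8 52) .nil)))))))))))))))))))))))))))))))))))) (by decide +kernel)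
theorem s306 : Valid A [429, 2479, 3298, 1074, 2477, 837, 2091, 1057, 3528, 4293, 814, 438, 1583, 3138, 409, 452, 1048, 1507, 1123, 939, 1454, 1451, 1047, 1067, 1073, 3017, 2760, 1070] := rup _
  (.cons s44 (.cons (t2 11 21 34) (.cons (t2 8 21 34) (.cons (t3 7 11 21) (.cons (t3 7 8 21) (.cons (t1 3 22 34) (.cons (t2 3 12 22) (.cons (t1 3 22 27) (.cons (t2 19 22 34) (.cons (t3 12 19 22) (.cons (t2 19 22 27) (.cons a154 (.cons (t1 8 27 34) (.cons (t3 27 33 34) (.cons (t3 6 27 34) (.cons (t1 11 27 34) (.cons s305 (.cons a238 (.cons (t2 19 23 52) (.cons s67 (.cons (t1 7 11 52) (.cons (t2 11 49 52) (.cons (t3 11 27 52) (.cons (t3 11 28 49) (.cons (t1 11 21 28) (.cons a235 (.cons a536 (.cons a487 (.cons (t2 8 42 49) (.cons (t1 25 28 36) (.cons a360 (.cons (t2 25 27 36) (.cons (t2 12 22 42) (.cons (t2 12 19 42) (.cons a365 (.cons (t2 19 32 42) (.cons a230 (.cons (t3 7 32 52) (.cons (t1 27 32 52) (.cons a413 (.cons a415 (.cons (t1 7 8 35)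 (.cons a321 (.cons a409 (.cons (t3 25 27 35) .nil))))))))))))))))))))))))))))))))))))))))))))) (by decide +kernel)
theorem s307 : Valid A [2864, 939, 2092, 1457, 1073, 6242, 3144, 3037, 1116, 2737] := rup _
  (.cons a195 (.cons a177 (.cons (t3 23 36 46) (.cons (t2 21 24 36) (.cons a210 (.cons a203 (.cons (t3 5 23 36) (.cons a194 (.cons (t2 21 23 24) (.cons (t3 11 21 24) (.cons (t3 7 11 21) (.cons a384 (.cons (t3 0 7 21) (.cons a505 (.cons (t3 0 5 23) (.cons (t1 0 23 46) (.cons (t1 7 21 24) (.cons (t3 0 7 24) (.cons (t1 5 36 46) (.cons a65 (.cons (t3 3 7 11) (.cons a67 (.cons (t1 5 11 21) (.cons (t3 8 21 24) (.cons (t3 7 8 21) (.cons (t2 11 23 24) (.cons (t3 8 11 24) (.cons (t1 8 23 46) (.cons s303 (.cons a405 (.cons (t1 7 24 49) (.cons (t1 21 24 49) (.cons (t1 8 24 49) (.cons (t3 24 36 49) (.cons (t3 24 46 49) (.cons (t2 24 48 49) (.cons (t1 11 24 49) (.cons (t3 0 24 49) (.cons (t3 22 24 49) (.cons (t2 8 17 24) (.cons (t2 11 17 24)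 (.cons a307 (.cons (t2 7 48 49) (.cons a500 (.cons (t2 8 48 49) (.cons a479 (.cons a44 (.cons (t2 11 12 49) (.cons a491 (.cons a181 (.cons s150 (.cons (t2 8 12 49) (.cons a520 (.cons (t2 36 46 48) (.cons s18 (.cons (t3 3 36 48) (.cons a40 (.cons (t2 0 16 22) (.cons (t2 0 22 46) (.cons (t2 0 22 23) (.cons s138 (.cons (t3 17 36 46) (.cons (t3 0 17 46) (.cons (t3 7 33 49) (.cons (t1 7 24 33) (.cons (t3 3 23 48) (.cons a54 (.cons (t3 3 17 36) (.cons (t3 0 16 17) (.cons (t3 7 18 49) (.cons a310 (.cons (t2 3 12 23) (.cons (t3 3 33 48) (.cons (t1 3 23 33) (.cons a38 (.cons a375 (.cons a346 (.cons (t2 6 23 33) (.cons s176 (.cons (t3 3 27 36) (.cons (t1 8 11 16) (.cons (t2 11 16 21) (.cons (t1 7 11 16) (.cons (t1 7 16 19) (.cons (t1 6 33 34) (.cons a461 (.cons a337 (.cons (t1 7 8 25) (.cons (t3 7 25 49) (.cons (t1 19 22 23) (.cons s306 (.cons (t3 3 22 48) (.cons (t1 22 46 48) .nil)))))))))))))))))))))))))))))))))))))))))))))))))))))))))))))))))))))))))))))))))))))))))))))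 (by decide +kernel)
theorem s308 : Valid A [939, 2092, 1457, 1073, 6242, 3144, 3037, 1116, 2737] := rup _
  (.cons (t3 8 21 24) (.cons (t3 11 21 24) (.cons a34 (.cons (t2 8 20 21) (.cons a194 (.cons (t2 11 23 24) (.cons a195 (.cons a177 (.cons (t3 23 36 46) (.cons (t2 21 24 36) (.cons (t1 8 23 46) (.cons s74 (.cons a210 (.cons (t1 7 21 24) (.cons (t3 7 11 21) (.cons a203 (.cons s32 (.cons s307 (.cons (t3 7 22 24) (.cons (t2 22 24 36) (.cons (t3 8 22 24) (.cons (t3 21 22 24) (.cons (t3 11 22 24) (.cons a227 (.cons s152 (.cons (t2 8 16 22) (.cons (t2 11 16 22) (.cons (t1 7 11 52) (.cons a473 (.cons a475 (.cons (t1 7 22 51) (.cons a25 (.cons a238 (.cons (t2 7 30 51) (.cons (t2 11 22 30) (.cons s87 (.cons s147 (.cons a371 (.cons (t3 23 28 36) (.cons (t1 16 30 52) (.cons a487 (.cons (t2 16 20 52) (.cons (t1 8 21 28) (.cons (t2 21 22 28) (.cons (t1 11 21 28) (.cons a15 (.cons a388 (.cons (t2 16 19 52) (.cons (t2 8 10 28) (.cons (t1 10 22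 28) (.cons a337 (.cons a399 (.cons (t1 10 19 22) (.cons (t3 7 19 22) (.cons (t2 10 18 23) (.cons a347 (.cons a349 .nil))))))))))))))))))))))))))))))))))))))))))))))))))))))))) (by decide +kernel)
theorem s309 : Valid A [935, 2472, 943, 1454, 2477, 918, 1448] := rup _
  (.cons (t3 7 11 19) (.cons (t1 7 19 22) (.cons s292 (.cons a227 (.cons a238 (.cons (t1 7 23 52) .nil)))))) (by decide +kernel)
theorem s310 : Valid A [3049, 1324, 2478, 2472, 1480, 2760, 943, 2477, 3017, 1451] := rup _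
  (.cons s87 (.cons (t1 7 23 52) (.cons (t2 23 36 52) (.cons (t3 19 23 52) (.cons (t3 23 28 36) (.cons a14 (.cons a487 (.cons (t3 7 20 52) (.cons (t3 20 36 52) (.cons (t1 11 21 28) (.cons a31 (.cons a389 (.cons (t1 20 36 45) (.cons a379 (.cons (t2 11 21 45) (.cons (t3 10 11 45) (.cons a342 (.cons a395 (.cons (t1 19 22 45) .nil))))))))))))))))))) (by decide +kernel)
theorem s311 : Valid A [1451, 919, 712, 1480] := rup _
  (.cons (t1 11 21 36) (.cons (t1 7 11 21) (.cons a203 (.cons a210 .nil)))) (by decide +kernel)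
theorem s312 : Valid A [1303, 1046, 1070, 1454] := rup _
  (.cons (t2 10 11 23) (.cons (t1 8 10 11) (.cons a399 .nil))) (by decide +kernel)
theorem s313 : Valid A [4707, 5986, 3170, 994, 682, 1328, 938, 1337] := rup _
  (.cons (t1 7 36 49) (.cons (t1 24 36 49) (.cons (t2 36 46 49) (.cons s201 (.cons a177 (.cons a489 (.cons (t3 10 24 46) (.cons (t2 10 28 36) (.cons a189 (.cons (t3 10 36 49) .nil)))))))))) (by decide +kernel)
theorem s314 : Valid A [994, 3682, 3128, 5987, 683, 662, 945, 919] := rup _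
  (.cons a205 (.cons a204 (.cons (t1 7 11 49) (.cons (t1 7 24 49) (.cons a215 (.cons (t1 24 46 49) (.cons (t2 5 21 49) (.cons (t3 5 36 49) (.cons (t2 21 28 49) (.cons (t1 36 46 49) (.cons a487 (.cons a177 (.cons (t3 24 28 36) .nil))))))))))))) (by decide +kernel)
theorem s315 : Valid A [1121, 2504, 4706, 1061, 1480, 1122, 1072, 932, 2760, 432, 938, 1450] := rup _
  (.cons (t3 8 24 48) (.cons (t1 8 48 49) (.cons (t2 8 18 48) (.cons a44 (.cons a479 (.cons (t3 18 36 48) (.cons (t3 3 18 48) (.cons (t3 3 36 48) (.cons (t2 18 21 36) (.cons (t2 18 19 36) (.cons (t2 3 18 21) (.cons s247 (.cons a345 (.cons (t3 21 36 45) (.cons (t3 19 36 45) (.cons (t1 7 19 21) (.cons a341 .nil))))))))))))))))) (by decide +kernel)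
theorem s316 : Valid A [4699, 2479, 3016, 2504, 1353, 3042, 712, 2760, 98] := rup _
  (.cons (t3 23 36 45) (.cons (t3 21 36 45) (.cons (t3 5 36 45) (.cons (t3 19 36 45) (.cons (t1 10 36 45) (.cons s177 (.cons a341 (.cons a396 (.cons (t3 22 45 51) (.cons (t3 23 45 51) (.cons (t2 19 21 23) (.cons a495 (.cons a506 (.cons (t2 22 23 49) (.cons (t1 0 22 23) (.cons a491 .nil)))))))))))))))) (by decide +kernel)
theorem s317 : Valid A [1071, 2504, 1353, 1061, 1318, 1444, 1454, 3042, 2736, 1450, 712, 2760, 4706, 1457, 995, 919] := rup _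
  (.cons (t2 7 11 49) (.cons (t2 11 36 49) (.cons (t2 7 36 49) (.cons a218 (.cons a384 (.cons (t3 0 7 49) (.cons a400 (.cons (t2 8 18 23) (.cons (t1 10 18 23) (.cons (t3 10 23 36) (.cons a349 (.cons (t2 18 19 23) (.cons (t1 8 18 19) (.cons (t3 11 18 19) (.cons s316 (.cons a379 (.cons s297 (.cons (t3 11 21 45) (.cons (t3 11 23 45) (.cons (t3 5 11 45) (.cons (t3 11 19 45) (.cons a30 (.cons s177 (.cons a341 (.cons (t2 11 20 45) (.cons (t1 11 45 51) (.cons (t3 23 45 51) (.cons (t2 19 21 23) (.cons (t1 8 19 21) (.cons a33 (.cons a506 (.cons a143 (.cons (t1 20 21 23) (.cons (t3 19 20 21) (.cons (t1 0 19 23) (.cons a134 (.cons a16 (.cons a17 (.cons a151 (.cons (t1 11 24 29) (.cons (t1 20 23 52) (.cons (t2 11 29 32) (.cons a238 (.cons (t3 11 32 52) (.cons (t1 7 11 52) (.cons (t2 11 49 52) (.cons (t2 11 51 52) (.cons a230 (.cons a228 (.cons (t1 22 49 52) (.cons (t1 22 51 52) (.cons (t2 19 23 32) (.cons (t3 0 19 32) (.cons a491 (.cons a495 (.cons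 (t1 22 23 32) (.cons (t1 0 22 32) .nil))))))))))))))))))))))))))))))))))))))))))))))))))))))))) (by decide +kernel)
theorem s318 : Valid A [4700, 3657, 683, 2760, 4706, 945, 995, 919] := rup _
  (.cons (t2 7 11 49) (.cons (t2 11 36 49) (.cons (t1 11 28 36) (.cons (t2 7 24 49) (.cons (t2 24 36 49) (.cons (t1 24 28 36) (.cons s96 (.cons a216 (.cons (t1 5 21 49) (.cons (t1 5 7 49) (.cons (t3 5 7 24) (.cons (t1 5 21 24) (.cons a218 (.cons (t3 5 11 21) (.cons a210 (.cons a205 (.cons a405 (.cons a404 (.cons a65 (.cons (t3 3 7 11) (.cons (t2 7 11 24) (.cons a67 (.cons a177 (.cons s140 (.cons a195 (.cons a196 (.cons s75 (.cons (t1 7 24 46) (.cons (t3 17 24 46) (.cons a190 (.cons s80 (.cons (t3 23 46 49) (.cons (t2 11 23 24) (.cons (t2 7 18 24) (.cons (t2 11 18 24) (.cons a186 (.cons a187 (.cons a181 (.cons (t2 7 10 49) (.cons (t1 10 11 49) (.cons a513 (.cons s193 (.cons (t3 7 8 24) (.cons (t3 7 8 49) (.cons a387 (.cons (t1 8 17 18) (.cons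 (t3 10 19 28) (.cons (t1 10 28 36) (.cons (t3 19 28 36) (.cons s315 (.cons s317 (.cons a520 (.cons (t1 23 48 49) (.cons (t3 23 24 48) (.cons a479 (.cons a44 (.cons (t3 21 36 48) (.cons (t1 28 36 48) (.cons (t1 36 48 52) (.cons (t2 3 21 48) (.cons (t1 8 28 48) (.cons (t2 23 48 52) (.cons s248 (.cons a238 (.cons (t3 7 12 49) (.cons (t1 8 12 49) (.cons (t1 7 11 52) (.cons (t2 11 49 52) (.cons (t2 7 12 52) (.cons a235 (.cons a236 (.cons (t2 12 42 52) (.cons (t2 24 42 49) (.cons a360 (.cons a367 (.cons (t3 8 28 42) .nil)))))))))))))))))))))))))))))))))))))))))))))))))))))))))))))))))))))))))))) (by decide +kernel)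
theorem s319 : Valid A [919, 3036, 3042, 1480, 1318, 1353, 1302, 5986, 2504, 683, 2760, 995] := rup _
  (.cons (t2 7 23 49) (.cons a209 (.cons a205 (.cons a384 (.cons (t2 7 11 49) (.cons s311 (.cons (t3 5 7 11) (.cons (t2 7 11 36) (.cons (t1 7 11 23) (.cons (t3 0 7 49) (.cons (t3 10 11 49) (.cons a189 (.cons s63 (.cons (t2 10 36 46) (.cons a349 (.cons (t3 10 18 36) (.cons (t1 23 36 46) (.cons a347 (.cons a483 (.cons (t1 7 11 19) (.cons (t2 18 19 23) (.cons s316 (.cons a379 (.cons s297 (.cons (t3 11 21 45) (.cons (t3 11 23 45) (.cons (t3 5 11 45) (.cons (t3 11 19 45) (.cons a30 (.cons s177 (.cons a341 (.cons (t2 11 20 45) (.cons (t1 11 45 51) (.cons (t3 23 45 51) (.cons (t2 19 21 23) (.cons a33 (.cons a506 (.cons (t1 20 21 23) (.cons (t3 19 20 21) (.cons a16 (.cons (t1 20 23 52) (.cons a238 (.cons (t1 7 11 52) (.cons (t2 11 49 52) (.cons (t2 11 51 52) (.cons a228 (.cons (t1 22 49 52) (.cons (t1 22 51 52) (.cons a491 (.cons a495 (.cons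 (t1 0 22 23) .nil))))))))))))))))))))))))))))))))))))))))))))))))))) (by decide +kernel)
theorem s320 : Valid A [4701, 46, 2734, 1070, 3036, 1322, 1353] := rup _
  (.cons a179 (.cons (t1 10 36 46) (.cons a193 (.cons (t2 10 23 46) (.cons (t3 8 23 24) (.cons a399 (.cons s238 (.cons (t2 8 10 21) .nil)))))))) (by decide +kernel)
theorem s321 : Valid A [2993, 1066, 46, 2734, 1070] := rup _
  (.cons (t3 8 23 24) (.cons s238 .nil)) (by decide +kernel)
theorem s322 : Valid A [1454, 918, 3036, 3042, 1480, 1322, 1353, 5986, 683, 995] := rup _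
  (.cons a209 (.cons (t3 5 7 49) (.cons (t3 7 11 49) (.cons a215 (.cons (t2 5 11 21) (.cons a34 (.cons (t2 7 46 49) (.cons (t2 7 23 49) (.cons s143 (.cons s26 (.cons a210 (.cons (t2 5 11 23) (.cons (t1 11 21 23) (.cons s294 (.cons s226 (.cons s1 (.cons (t2 0 5 23) (.cons (t1 5 21 29) (.cons s320 (.cons (t2 10 36 46) (.cons a189 (.cons (t3 7 10 49) (.cons (t2 10 36 49) (.cons (t2 10 23 49) (.cons (t1 7 10 36) (.cons a480 (.cons a399 (.cons (t2 7 48 49) (.cons (t2 10 48 49) (.cons (t2 8 10 46) (.cons (t2 8 10 21) (.cons (t2 8 10 48) (.cons a520 (.cons s321 (.cons a193 (.cons (t3 23 24 48) (.cons (t1 7 24 46) (.cons (t1 8 24 46) (.cons s145 (.cons s202 (.cons (t3 3 21 24) (.cons (t1 21 24 51) (.cons (t3 20 21 24) (.cons a63 (.cons a22 (.cons (t2 11 21 45) (.cons (t2 5 21 45) (.cons a379 (.cons s177 (.cons (t1 7 36 45) (.cons (t3 20 45 51) (.cons a30 .nil)))))))))))))))))))))))))))))))))))))))))))))))))))) (by decide +kernel)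
theorem s323 : Valid A [995, 1000, 3046, 1348, 1322, 944, 2736, 15, 2792, 3048] := rup _
  (.cons s57 (.cons (t1 0 7 49) (.cons (t3 7 24 49) (.cons a492 (.cons a168 (.cons (t2 7 22 49) (.cons (t3 21 24 34) (.cons a226 (.cons (t2 22 23 52) (.cons a495 (.cons a473 (.cons (t2 22 51 52) (.cons (t3 30 51 52) (.cons a222 (.cons (t3 10 21 30) (.cons (t1 21 30 34) (.cons a162 .nil))))))))))))))))) (by decide +kernel)
theorem s324 : Valid A [2236, 1315, 2213, 4450, 2402, 1348] := rup _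
  (.cons (t1 17 18 30) (.cons (t2 10 17 30) (.cons a468 (.cons a162 (.cons (t2 30 34 49) .nil))))) (by decide +kernel)
theorem s325 : Valid A [1000, 2876, 940, 939, 956] := rup _
  (.cons s147 (.cons a226 (.cons (t3 22 30 52) .nil))) (by decide +kernel)
theorem s326 : Valid A [1073, 1070, 3036, 1116] := rup _
  (.cons (t1 8 24 46) (.cons (t3 8 23 24) (.cons a193 .nil))) (by decide +kernel)
theorem s327 : Valid A [1507, 2364, 1468, 1444] := rup _
  (.cons (t3 11 18 49) (.cons (t3 11 30 49) (.cons a468 .nil))) (by decide +kernel)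
theorem s328 : Valid A [2088, 1064, 2621, 1046, 1468] := rup _
  (.cons a25 (.cons (t3 16 20 30) (.cons (t3 8 11 16) (.cons a371 .nil)))) (by decide +kernel)
theorem s329 : Valid A [2269, 3165, 2402] := rup _
  (.cons s138 (.cons (t3 17 24 46) (.cons (t1 17 46 49) (.cons a406 .nil)))) (by decide +kernel)
theorem s330 : Valid A [2746, 1066, 676, 1318, 1302, 1442, 3177, 688, 3128, 1046, 1457, 1059, 3144, 1072, 1468, 2408, 2365, 2362] := rup _
  (.cons a142 (.cons s202 (.cons (t2 8 18 29) (.cons (t1 5 21 24) (.cons (t2 21 24 36) (.cons (t3 11 21 24) (.cons (t2 21 24 28) (.cons (t1 21 24 52) (.cons a203 (.cons a34 (.cons a35 (.cons s216 (.cons (t3 5 18 36) (.cons (t3 20 21 52) (.cons (t2 10 18 36) (.cons a349 (.cons (t1 18 19 52) (.cons (t2 18 19 30) (.cons (t3 8 18 19) (.cons a14 (.cons (t2 19 20 30) (.cons (t3 8 19 20) (.cons s328 (.cons a26 (.cons (t1 11 16 20) (.cons (t3 8 16 17) (.cons a375 .nil))))))))))))))))))))))))))) (by decide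 +kernel)
theorem s331 : Valid A [2747, 3177, 3944, 3772] := rup _
  (.cons a137 (.cons (t2 21 29 30) (.cons (t3 21 24 52) (.cons a222 .nil)))) (by decide +kernel)
theorem s332 : Valid A [676, 1318, 1302, 1442, 1128, 3177, 688, 3128, 654, 1046, 1457, 1059, 3144, 1072, 1468, 3944, 2365, 2362, 912] := rup _
  (.cons (t3 18 29 30) (.cons s331 (.cons (t2 18 30 52) (.cons (t3 5 18 30) (.cons s330 (.cons (t3 7 8 21) (.cons (t1 8 21 52) (.cons a207 (.cons a222 (.cons (t1 5 21 30) .nil)))))))))) (by decide +kernel)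
theorem s333 : Valid A [1372, 919, 945, 3944, 1513, 2365, 2362, 662, 989] := rup _
  (.cons (t3 18 29 30) (.cons (t2 7 11 24) (.cons (t2 11 24 52) (.cons s331 (.cons (t2 7 11 46) (.cons a471 (.cons (t2 7 24 46) (.cons s329 (.cons (t2 11 17 46) (.cons (t1 7 11 52) (.cons a227 (.cons (t1 7 11 22) (.cons a186 (.cons (t3 7 8 11) (.cons (t3 8 11 52) (.cons (t3 5 11 24) (.cons s67 (.cons (t2 7 11 28) (.cons (t1 7 24 28) (.cons (t1 5 7 11) (.cons a178 (.cons (t2 7 24 36) (.cons (t1 7 11 36) (.cons a385 (.cons a187 (.cons a181 (.cons a195 (.cons (t2 7 23 46) (.cons a179 (.cons (t3 7 8 24) (.cons (t2 11 30 52) (.cons s42 (.cons (t2 7 10 46) (.cons (t1 10 11 46) (.cons s193 (.cons a387 (.cons (t3 10 19 28) (.cons s332 (.cons s24 (.cons (t2 5 18 49) (.cons a215 (.cons (t1 7 11 49) (.cons (t3 0 11 49) (.cons (t3 11 36 49) (.cons (t2 11 49 52) (.cons (t3 11 22 49) (.cons (t2 11 24 49) (.cons (t3 11 17 49) (.cons a235 (.cons a491 (.cons (t2 24 42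 49) (.cons a513 (.cons s8 (.cons a367 (.cons (t2 17 18 29) (.cons (t1 8 17 18) (.cons (t2 17 18 51) (.cons a138 (.cons (t2 8 17 29) (.cons (t3 5 8 18) (.cons (t1 8 17 22) (.cons (t1 17 22 51) (.cons a142 (.cons (t1 5 8 21) (.cons (t2 8 21 22) (.cons (t2 8 18 21) (.cons a204 (.cons (t3 0 21 22) (.cons s318 (.cons a507 (.cons a487 (.cons (t1 21 22 23) (.cons (t1 8 21 28) (.cons (t1 19 21 28) (.cons (t1 5 21 28) (.cons (t1 21 28 42) (.cons a495 (.cons (t1 8 28 42) (.cons (t2 18 19 21) (.cons (t1 5 28 42) (.cons (t3 7 23 51) (.cons a358 (.cons (t2 21 42 45) (.cons (t2 5 42 45) (.cons s123 (.cons s177 (.cons (t1 7 45 51) .nil))))))))))))))))))))))))))))))))))))))))))))))))))))))))))))))))))))))))))))))))))))))) (by decide +kernel)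
theorem s334 : Valid A [1373, 945, 2365, 989] := rup _
  (.cons s76 (.cons a470 (.cons s56 (.cons a191 (.cons (t2 10 34 46) (.cons (t2 10 30 46) (.cons (t2 7 46 49) (.cons a162 (.cons s158 (.cons (t1 30 34 49) .nil)))))))))) (by decide +kernel)
theorem s335 : Valid A [683, 656, 2736, 1072, 3944, 744, 3772] := rup _
  (.cons (t1 5 21 52) (.cons (t3 5 8 21) (.cons a222 (.cons s202 (.cons (t2 21 29 30) .nil))))) (by decide +kernel)
theorem s336 : Valid A [1066, 1129, 2736, 1072, 3944, 3772] := rup _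
  (.cons s202 (.cons (t3 8 21 52) (.cons (t2 21 29 30) (.cons a222 .nil)))) (by decide +kernel)
theorem s337 : Valid A [1379, 2744, 1451, 2760, 482, 3171, 995, 1506, 3938] := rup _
  (.cons (t2 24 30 49) (.cons s57 (.cons (t3 7 10 49) (.cons (t2 10 34 49) (.cons (t2 10 30 49) (.cons (t2 10 11 49) (.cons (t1 3 10 49) (.cons a162 (.cons s216 (.cons s101 (.cons (t1 7 10 36) (.cons (t2 10 36 49) (.cons (t3 3 10 36) (.cons a480 (.cons (t2 7 48 49) (.cons (t2 10 48 49) (.cons (t2 24 48 49) (.cons s150 (.cons s135 (.cons s136 (.cons (t3 7 33 36) (.cons a391 (.cons a52 (.cons (t3 3 30 33) .nil)))))))))))))))))))))))) (by decide +kernel)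
theorem s338 : Valid A [1373, 3908, 4451, 3932] := rup _
  (.cons a192 (.cons (t2 10 30 46) (.cons (t1 10 34 49) (.cons a162 .nil)))) (by decide +kernel)
theorem s339 : Valid A [686, 3164, 1066, 1046, 1507, 689, 918, 655, 2736, 938, 1454, 1372] := rup _
  (.cons (t3 11 23 49) (.cons (t1 5 7 23) (.cons (t3 5 23 24) (.cons a193 (.cons (t1 23 46 49) (.cons a189 (.cons (t3 10 11 49) (.cons s312 (.cons (t2 8 23 24) (.cons (t3 8 21 23) (.cons s202 (.cons s294 (.cons s7 (.cons a383 (.cons a505 (.cons (t2 0 11 23) .nil)))))))))))))))) (by decide +kernel)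
theorem s340 : Valid A [2761, 2780, 3164, 2736] := rup _
  (.cons (t3 21 24 36) (.cons (t1 21 36 46) (.cons a177 .nil))) (by decide +kernel)
theorem s341 : Valid A [2493, 2523, 2778, 962, 700, 932, 969, 938, 943, 3909, 1378, 3046] := rup _
  (.cons (t3 7 33 36) (.cons (t1 7 23 33) (.cons s50 (.cons a165 (.cons (t1 7 19 30) (.cons (t1 10 19 30) (.cons (t1 5 19 30) (.cons (t1 19 30 34) (.cons (t2 19 30 45) (.cons a345 (.cons (t3 7 19 45) (.cons (t3 10 19 45) (.cons (t3 5 19 45) (.cons a156 (.cons a157 (.cons (t1 18 19 34) (.cons (t1 18 19 30) (.cons s156 (.cons s177 (.cons (t2 18 27 34) (.cons (t1 27 30 34) (.cons (t3 19 27 45) (.cons a470 (.cons a471 (.cons (t3 3 7 36) (.cons (t1 30 45 51) (.cons (t1 30 34 49) (.cons (t1 30 45 49) (.cons a52 (.cons a466 (.cons a473 (.cons (t3 30 32 45) (.cons a495 (.cons (t1 22 45 51) (.cons (t3 7 22 23) (.cons (t2 22 23 33) (.cons a395 (.cons a227 (.cons (t1 10 22 49) (.cons (t2 10 22 33) (.cons (t2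 7 22 49) (.cons a391 (.cons s158 (.cons s132 (.cons (t1 18 30 33) (.cons (t3 3 30 33) (.cons (t1 19 30 33) (.cons (t3 27 30 33) (.cons (t2 30 33 45) (.cons (t2 30 33 51) (.cons a64 (.cons s141 (.cons a79 (.cons (t3 3 18 33) (.cons a50 (.cons (t2 24 27 33) (.cons (t1 24 33 51) (.cons (t1 24 33 45) (.cons (t3 19 24 33) (.cons a87 (.cons (t3 2 19 45) (.cons (t2 2 27 45) (.cons (t1 3 24 39) (.cons (t1 3 18 39) (.cons s181 (.cons a23 (.cons (t3 20 24 45) (.cons (t2 19 20 24) (.cons a29 (.cons (t1 7 20 52) (.cons a14 (.cons (t2 19 24 52) (.cons (t1 18 19 52) (.cons (t2 19 45 52) (.cons (t1 2 19 52) (.cons a69 (.cons (t1 44 45 52) (.cons (t2 24 44 52) (.cons (t2 18 44 52) (.cons a271 (.cons a269 (.cons a276 (.cons (t3 7 39 44) (.cons (t3 27 32 44) (.cons (t1 7 32 44) (.cons a322 (.cons a323 (.cons a412 (.cons a75 (.cons (t3 2 7 35) .nil)))))))))))))))))))))))))))))))))))))))))))))))))))))))))))))))))))))))))))))))))))))))))) (by decide +kernel)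
theorem s342 : Valid A [2749, 354, 994, 1373, 2343, 3938, 5863, 2779, 2474, 4296, 3010, 962, 3017, 4710, 713, 3909, 687] := rup _
  (.cons (t2 18 19 21) (.cons a484 (.cons (t1 18 19 23) (.cons s72 (.cons (t1 21 45 51) (.cons a63 (.cons a165 (.cons a164 (.cons s28 (.cons a223 (.cons (t2 21 30 49) (.cons (t1 10 21 30) (.cons (t1 21 30 34) (.cons (t3 3 21 30) (.cons (t2 21 30 51) (.cons (t3 18 21 30) (.cons (t1 21 45 52) (.cons (t1 21 45 49) (.cons (t3 10 21 45) (.cons (t3 19 21 34) (.cons a473 (.cons a468 (.cons a79 (.cons a495 (.cons s152 (.cons (t1 22 45 51) (.cons (t2 18 19 49) (.cons (t2 2 45 52) (.cons (t3 5 22 23) (.cons (t1 19 22 23) (.cons (t2 22 23 33) (.cons a395 (.cons (t2 10 22 46) (.cons (t3 5 10 22) (.cons (t2 10 22 33) (.cons (t1 5 22 46) (.cons a391 (.cons (t1 30 33 49) (.cons (t3 3 30 33) (.cons s148 (.cons a52 (.cons a304 (.cons (t3 3 22 36) (.cons (t1 2 6 49) (.cons (t3 6 19 49) (.cons a58 (.cons a59 (.cons a71 (.cons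 (t3 3 16 36) (.cons a337 (.cons (t2 6 49 52) (.cons (t2 6 19 52) (.cons (t1 16 19 52) (.cons a236 (.cons (t2 16 42 52) (.cons a353 (.cons (t1 5 36 42) (.cons a200 (.cons (t3 5 38 46) (.cons (t1 5 10 38) (.cons a173 (.cons a158 (.cons (t3 19 34 38) .nil))))))))))))))))))))))))))))))))))))))))))))))))))))))))))))))) (by decide +kernel)
theorem s343 : Valid A [360, 347, 268, 782, 2907, 986] := rup _
  (.cons (t1 2 45 52) (.cons a71 (.cons s131 (.cons (t3 6 7 52) .nil)))) (by decide +kernel)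
theorem s344 : Valid A [1356, 2500, 1373, 2524, 1348] := rup _
  (.cons (t3 10 38 46) (.cons a158 (.cons a173 (.cons (t3 19 34 38) .nil)))) (by decide +kernel)
theorem s345 : Valid A [1464, 3657, 697, 5858, 738, 4698] := rup _
  (.cons (t2 5 11 28) (.cons (t3 11 28 36) (.cons a215 (.cons a379 (.cons (t2 11 45 49) .nil))))) (by decide +kernel)
theorem s346 : Valid A [4700, 3144, 4706, 4444, 5986, 4450] := rup _
  (.cons s140 (.cons a177 (.cons a168 (.cons (t2 24 34 46) .nil)))) (by decide +kernel)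
theorem s347 : Valid A [3657, 1353, 738, 934, 986, 4698, 2779, 3017, 713] := rup _
  (.cons a342 (.cons s96 (.cons (t3 5 28 36) (.cons (t3 23 28 36) (.cons (t3 10 28 36) (.cons (t2 23 36 52) (.cons a388 (.cons (t2 5 11 28) (.cons (t3 11 28 36) (.cons (t1 11 23 28) (.cons s345 (.cons a215 (.cons a379 (.cons a238 (.cons (t3 19 45 49) (.cons (t2 11 19 49) (.cons (t3 11 21 45) (.cons a34 (.cons a35 (.cons (t3 20 21 45) (.cons s292 (.cons a29 (.cons (t3 7 19 20) .nil))))))))))))))))))))))) (by decide +kernel)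
theorem s348 : Valid A [994, 1373, 2343, 4450, 2779, 2474, 962, 969, 943, 3909, 687] := rup _
  (.cons a164 (.cons (t3 10 34 46) (.cons a191 (.cons a347 (.cons (t2 30 34 49) (.cons (t3 5 7 23) (.cons a209 (.cons (t3 5 21 45) (.cons s177 (.cons (t1 21 45 51) (.cons a208 (.cons (t3 7 21 45) (.cons (t3 7 21 36) (.cons (t3 21 36 45) (.cons (t3 7 33 36) (.cons (t1 7 23 33) (.cons (t2 7 23 36) (.cons s28 (.cons (t2 7 23 51) (.cons (t1 7 36 51) (.cons (t1 5 7 36) (.cons s50 (.cons s158 (.cons (t2 5 7 49) (.cons (t1 7 36 49) (.cons s132 (.cons (t3 7 24 36) (.cons s342 (.cons (t3 21 30 51) (.cons s169 (.cons (t3 7 22 23) (.cons a495 (.cons (t3 22 45 51) (.cons s346 (.cons (t3 10 36 46) (.cons s347 (.cons a487 (.cons s84 (.cons a222 (.cons (t1 21 45 52) (.cons (t3 7 30 52) (.cons s131 .nil)))))))))))))))))))))))))))))))))))))))))) (by decide +kernel)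
theorem s349 : Valid A [1373, 2343, 4450, 2779, 2474, 962, 969, 943, 3909, 687] := rup _
  (.cons a342 (.cons (t3 5 7 23) (.cons a209 (.cons (t3 5 21 45) (.cons s177 (.cons (t3 19 45 51) (.cons (t2 18 19 51) (.cons (t2 18 19 45) (.cons (t2 18 19 21) (.cons (t2 30 34 49) (.cons a208 (.cons (t3 7 21 36) (.cons (t3 21 36 45) (.cons (t2 7 23 36) (.cons a484 (.cons (t2 7 18 23) (.cons s50 (.cons (t1 7 23 30) (.cons s28 (.cons (t2 7 23 51) (.cons a192 (.cons s348 (.cons (t3 7 18 49) (.cons (t1 5 7 49) (.cons (t2 7 23 49) (.cons (t2 7 36 49) (.cons a468 (.cons a216 (.cons (t1 10 36 49) (.cons (t1 18 30 45) (.cons (t3 18 21 30) (.cons (t1 18 30 51) (.cons (t1 11 23 49) (.cons (t1 11 36 49) (.cons s169 (.cons a379 (.cons (t3 7 22 23) (.cons (t3 11 21 45) (.cons (t2 11 30 45) (.cons a495 (.cons s231 (.cons (t3 22 45 51) (.cons a222 (.cons a396 (.cons s84 (.cons (t1 10 11 45) (.cons s216 .nil))))))))))))))))))))))))))))))))))))))))))))))) (by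 decide +kernel)
theorem s350 : Valid A [1352, 3913, 3908, 1382, 2659, 2662, 4707, 1372, 4450] := rup _
  (.cons (t3 10 36 49) (.cons (t1 10 30 36) (.cons a189 (.cons a162 (.cons (t3 36 46 49) (.cons (t3 20 46 49) (.cons (t1 10 34 51) (.cons a179 (.cons (t2 20 24 46) (.cons (t3 24 46 49) (.cons a22 (.cons a168 (.cons (t2 24 34 51) .nil))))))))))))) (by decide +kernel)
theorem s351 : Valid A [3170, 4444, 3036, 3043, 4450] := rup _
  (.cons a168 (.cons (t2 23 24 49) (.cons (t2 24 34 46) (.cons a193 .nil)))) (by decide +kernel)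
theorem s352 : Valid A [943, 1512, 2402, 1444, 937, 406, 1451, 2791, 918, 998, 682, 938, 969, 1372, 995] := rup _
  (.cons (t2 7 20 49) (.cons (t2 7 20 36) (.cons a34 (.cons (t3 20 21 51) (.cons a35 (.cons (t3 7 21 36) (.cons (t2 7 36 49) (.cons a480 (.cons (t2 7 48 49) (.cons s57 (.cons s46 (.cons (t1 7 23 51) (.cons (t2 7 23 49) (.cons (t2 7 23 36) (.cons (t1 7 23 48) (.cons (t3 7 11 23) (.cons (t2 7 20 23) (.cons a238 (.cons s87 (.cons (t1 7 23 52) (.cons (t2 23 36 52) (.cons (t3 23 34 52) (.cons (t1 20 23 52) (.cons (t2 7 23 28) (.cons a227 (.cons s117 (.cons (t3 7 22 23) (.cons (t2 21 28 51) (.cons (t1 11 21 28) (.cons a495 (.cons (t3 22 28 51) (.cons a388 (.cons (t3 11 22 28) (.cons a475 (.cons (t1 22 28 30) (.cons (t3 10 28 51) (.cons (t2 11 22 30) (.cons s114 (.cons (t2 30 34 52) (.cons (t3 30 36 52) (.cons (t3 20 30 52) (.cons s350 (.cons (t1 10 36 46) (.cons (t3 10 23 36) (.cons (t3 10 20 36) (.cons (t2 7 36 46) (.cons (t2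 23 36 46) (.cons a400 (.cons a401 (.cons (t3 8 10 20) (.cons s154 (.cons a520 (.cons s105 (.cons s351 (.cons a404 (.cons (t3 7 24 49) (.cons (t2 24 48 49) (.cons a513 (.cons (t1 17 20 49) (.cons a67 (.cons a44 (.cons (t1 11 17 18) (.cons (t3 3 8 48) (.cons (t1 3 8 11) (.cons s328 (.cons (t1 11 16 20) (.cons (t2 16 17 20) (.cons a375 .nil)))))))))))))))))))))))))))))))))))))))))))))))))))))))))))))))))))) (by decide +kernel)
theorem s353 : Valid A [2343, 655, 2779, 969, 1372, 995] := rup _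
  (.cons a208 (.cons (t3 7 21 45) (.cons (t3 7 21 36) (.cons (t3 21 36 45) (.cons (t2 7 36 49) (.cons (t1 5 7 49) (.cons a216 (.cons (t1 11 36 49) (.cons a379 (.cons (t3 11 21 45) (.cons a34 (.cons (t3 20 21 45) (.cons a29 (.cons a35 (.cons a342 (.cons (t2 11 19 45) (.cons a61 (.cons (t1 3 11 45) (.cons a209 (.cons (t3 5 21 45) (.cons s177 (.cons (t3 19 45 51) (.cons (t1 21 45 51) (.cons (t2 7 11 49) (.cons s22 (.cons a344 (.cons a347 (.cons a348 (.cons (t2 18 19 21) (.cons (t2 18 19 51) (.cons (t1 11 18 19) (.cons (t3 7 19 20) (.cons (t3 7 18 36) (.cons (t3 7 18 49) (.cons s292 (.cons (t1 11 45 52) (.cons s352 (.cons (t3 7 23 49) (.cons (t3 7 23 36) (.cons a483 (.cons (t3 11 18 23) (.cons (t3 18 21 23) (.cons (t1 18 23 51) (.cons a238 (.cons s294 (.cons (t3 7 23 52) (.cons (t3 0 7 49) (.cons a383 (.cons s131 (.cons (t1 0 11 21) (.cons (t2 21 22 45) (.cons (t3 22 45 51) (.cons (t2 0 21 22) (.cons a495 (.cons a491 (.cons (t2 22 23 49)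 .nil)))))))))))))))))))))))))))))))))))))))))))))))))))))))) (by decide +kernel)
theorem s354 : Valid A [1379, 2914, 2906, 5858] := rup _
  (.cons (t2 10 22 49) (.cons (t2 10 45 49) (.cons a395 .nil))) (by decide +kernel)
theorem s355 : Valid A [3170, 2662, 2659, 992, 486, 995] := rup _
  (.cons s57 (.cons (t2 7 24 49) (.cons a168 (.cons (t2 20 24 49) (.cons s90 (.cons a22 (.cons s145 (.cons (t1 3 24 51) .nil)))))))) (by decide +kernel)
theorem s356 : Valid A [2918, 937, 6242, 2791, 1379, 5863, 995] := rup _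
  (.cons (t3 21 45 51) (.cons a63 (.cons a61 (.cons (t3 3 45 51) (.cons (t2 7 48 49) (.cons (t2 7 20 49) (.cons a31 (.cons (t3 20 45 51) (.cons s355 (.cons (t3 7 24 49) (.cons a67 (.cons (t2 24 48 49) (.cons a44 (.cons (t3 3 21 48) (.cons (t1 20 21 45) (.cons s26 (.cons a32 (.cons (t1 7 21 45) (.cons a207 (.cons (t1 5 7 49) (.cons a217 (.cons (t1 5 7 20) (.cons (t3 5 11 20) (.cons a33 (.cons a216 (.cons (t2 7 11 49) (.cons (t3 7 10 49) (.cons (t1 7 10 45) (.cons (t3 7 45 49) (.cons (t1 22 45 51) (.cons s354 (.cons a395 (.cons a492 (.cons (t2 22 48 49) (.cons (t3 22 24 49) (.cons (t1 0 7 49) (.cons a383 (.cons (t1 0 11 21) (.cons a507 (.cons a508 (.cons (t3 21 23 51) (.cons a495 (.cons (t1 10 22 23) (.cons (t1 22 23 48) (.cons (t2 22 23 24) (.cons a400 (.cons a520 (.cons s321 (.cons (t2 8 21 48) .nil))))))))))))))))))))))))))))))))))))))))))))))))) (by decide +kernel)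
theorem s357 : Valid A [45, 1709, 2733, 1329, 3145, 2736, 2224, 1736] := rup _
  (.cons s8 (.cons (t2 21 22 29) (.cons a134 (.cons (t2 24 29 36) (.cons (t3 17 24 29) (.cons (t1 10 24 29) (.cons a138 (.cons a147 (.cons (t3 0 17 22) (.cons (t3 13 17 22) (.cons (t3 4 29 36) (.cons a511 (.cons (t1 4 13 17) (.cons a476 .nil)))))))))))))) (by decide +kernel)
theorem s358 : Valid A [937, 969, 2791, 1379, 5863, 1372, 995] := rup _
  (.cons (t2 7 36 49) (.cons a480 (.cons (t2 7 48 49) (.cons (t3 7 10 49) (.cons (t2 7 10 36) (.cons (t3 21 45 51) (.cons a61 (.cons (t3 3 45 51) (.cons s26 (.cons a31 (.cons a32 (.cons (t2 7 20 49) (.cons (t2 7 10 20) (.cons (t3 20 45 51) (.cons (t1 20 21 45) (.cons (t1 7 21 45) (.cons a19 (.cons (t1 20 49 51) (.cons (t3 20 21 49) (.cons a207 (.cons (t3 10 13 36) (.cons (t3 10 13 49) (.cons s353 (.cons (t1 5 7 10) (.cons a502 (.cons (t1 13 21 51) (.cons s355 (.cons a404 (.cons a405 (.cons (t1 21 24 49) (.cons (t3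 24 36 49) (.cons (t3 10 24 49) (.cons s356 (.cons a498 (.cons (t3 21 22 51) (.cons (t2 22 49 51) (.cons (t3 13 22 51) (.cons (t2 21 23 51) (.cons s357 (.cons (t1 0 21 22) (.cons a491 (.cons a505 (.cons s13 (.cons (t3 0 36 49) (.cons (t3 0 10 49) (.cons (t2 0 17 49) (.cons (t2 10 29 49) (.cons (t2 24 29 49) (.cons (t2 0 23 36) (.cons (t2 0 10 23) (.cons a134 (.cons a484 (.cons (t2 10 18 23) (.cons (t2 21 22 29) (.cons a349 (.cons a140 (.cons (t1 5 10 19) (.cons (t1 0 10 19) (.cons a213 (.cons a214 (.cons (t2 0 4 19) (.cons (t3 4 5 10) (.cons a509 (.cons a146 (.cons (t2 4 17 29) .nil))))))))))))))))))))))))))))))))))))))))))))))))))))))))))))))))) (by decide +kernel)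
theorem s359 : Valid A [547, 1698, 1736, 2248] := rup _
  (.cons (t2 4 17 36) (.cons (t2 4 13 17) (.cons a476 .nil))) (by decide +kernel)
theorem s360 : Valid A [2778, 2474, 678, 2791] := rup _
  (.cons a341 (.cons (t3 21 45 51) (.cons (t3 5 19 45) (.cons s177 .nil)))) (by decide +kernel)
theorem s361 : Valid A [1306, 2346, 2218, 1066, 1316, 1454, 1327, 34, 21, 11, 1480, 2760, 2786, 2748, 2248, 1353, 2791, 1314, 1379] := rup _
  (.cons a401 (.cons (t3 10 13 36) (.cons (t3 10 13 49) (.cons a502 (.cons (t2 13 17 21) (.cons s359 (.cons a509 (.cons (t2 0 4 5) (.cons (t2 0 4 10) (.cons a212 (.cons a213 (.cons (t1 4 10 19) (.cons a349 (.cons (t1 18 19 21) (.cons s360 (.cons a342 (.cons (t3 21 30 45) (.cons (t3 21 36 45) (.cons (t3 8 21 45) (.cons (t3 17 21 45) (.cons (t1 13 21 45) (.cons a379 (.cons (t1 8 11 45) (.cons (t2 11 17 45) (.cons (t3 11 21 45) (.cons (t2 11 19 45) (.cons (t3 11 13 45) (.cons (t2 11 30 45) (.cons a35 (.cons (t1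 11 13 20) (.cons a18 (.cons (t3 10 17 20) (.cons (t2 10 20 23) (.cons (t3 8 10 20) (.cons (t3 10 19 20) (.cons s292 (.cons (t1 11 21 52) (.cons a238 (.cons a222 (.cons (t1 20 23 52) (.cons (t3 20 30 52) (.cons s328 (.cons (t1 11 16 20) (.cons (t2 16 17 20) (.cons a375 .nil))))))))))))))))))))))))))))))))))))))))))))) (by decide +kernel)
theorem s362 : Valid A [99, 2914, 2919, 4707, 2791, 1379, 3171] := rup _
  (.cons s26 (.cons (t3 21 22 51) (.cons (t1 22 36 49) (.cons (t2 21 22 36) (.cons a203 (.cons (t1 5 36 49) (.cons a216 (.cons (t1 11 36 49) (.cons (t2 21 22 49) (.cons (t1 21 24 49) (.cons a498 (.cons (t2 21 23 51) (.cons a473 (.cons (t2 21 30 51) (.cons a404 (.cons (t1 17 36 49) (.cons (t3 10 36 49) (.cons (t2 10 17 49) (.cons s13 (.cons (t2 0 21 49) (.cons (t2 0 11 49) (.cons (t3 0 5 49) (.cons (t3 0 36 49) (.cons (t3 0 10 49) (.cons (t2 0 17 49) (.cons (t2 10 29 49) (.cons (t2 24 29 49) (.cons a505 (.cons (t2 0 23 36) (.cons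 (t2 0 10 23) (.cons a134 (.cons (t2 0 23 49) (.cons (t3 0 11 23) (.cons a484 (.cons (t2 10 18 23) (.cons a143 (.cons (t2 21 22 29) (.cons (t3 18 23 49) (.cons a139 (.cons a140 (.cons a513 (.cons (t1 17 21 22) (.cons (t1 17 18 21) (.cons s361 (.cons (t2 10 13 36) (.cons a478 (.cons (t2 0 4 36) (.cons (t1 4 10 36) (.cons a509 (.cons a146 (.cons (t2 4 17 29) .nil))))))))))))))))))))))))))))))))))))))))))))))))))) (by decide +kernel)
theorem s363 : Valid A [919, 1448, 2650, 1498] := rup _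
  (.cons (t2 7 11 45) (.cons (t2 7 11 20) (.cons a29 .nil))) (by decide +kernel)
theorem s364 : Valid A [2343, 522, 548, 676] := rup _
  (.cons (t3 5 18 19) (.cons (t3 4 18 19) (.cons a211 .nil))) (by decide +kernel)
theorem s365 : Valid A [15, 526, 930, 546] := rup _
  (.cons (t2 0 7 17) (.cons (t2 0 4 7) (.cons a509 .nil))) (by decide +kernel)
theorem s366 : Valid A [1736, 2602, 1320, 2786, 1353, 4707] := rup _
  (.cons (t3 13 36 49) (.cons (t2 10 13 36) (.cons a502 (.cons a18 (.cons (t2 13 20 21) .nil))))) (by decide +kernel)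
theorem s367 : Valid A [3170, 2268, 2274, 4700, 4707] := rup _
  (.cons (t1 24 36 49) (.cons a403 (.cons a177 (.cons (t1 17 24 46) .nil)))) (by decide +kernel)
theorem s368 : Valid A [3171, 2662, 2658, 6374] := rup _
  (.cons (t1 20 24 49) (.cons (t2 24 49 51) (.cons a22 .nil))) (by decide +kernel)
theorem s369 : Valid A [3170, 2778, 5859, 2218, 4450, 992, 995, 2274] := rup _
  (.cons (t2 7 24 49) (.cons a168 (.cons (t1 24 45 49) (.cons a403 (.cons s90 (.cons (t3 17 21 24) (.cons s145 (.cons (t2 3 21 24) (.cons (t2 3 24 45) (.cons a60 .nil)))))))))) (by decide +kernel)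
theorem s370 : Valid A [1340, 4292, 1346, 1348] := rup _
  (.cons a162 (.cons a391 (.cons (t2 30 33 34) .nil))) (by decide +kernel)
theorem s371 : Valid A [5859, 2218, 2914, 969, 2274, 34, 2786, 4707, 1353] := rup _
  (.cons a481 (.cons (t2 7 36 48) (.cons s150 (.cons (t3 7 33 36) (.cons (t2 10 36 48) (.cons s52 (.cons (t2 10 34 36) (.cons s135 (.cons (t3 34 36 49) (.cons (t1 7 36 49) (.cons (t1 10 36 49) (.cons a190 (.cons a480 (.cons (t1 21 45 49) (.cons (t3 7 45 49) (.cons s369 (.cons a405 (.cons (t3 24 36 49) (.cons (t2 24 48 49) (.cons (t2 24 46 49) (.cons (t1 21 24 49) (.cons (t1 22 24 49) (.cons (t3 7 24 49) (.cons a65 (.cons a67 (.cons (t3 3 7 36) (.cons (t3 3 7 45) (.cons a44 (.cons a52 (.cons a60 (.cons s18 (.cons (t2 3 21 48) (.cons (t1 3 33 34) (.cons s370 (.cons (t2 10 30 49) (.cons a469 (.cons (t1 18 36 49) (.cons s142 (.cons (t2 23 36 48) (.cons (t3 10 23 36) (.cons a400 (.cons a520 (.cons (t3 8 21 48) (.cons a143 (.cons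 a134 (.cons s10 (.cons (t3 17 24 29) (.cons (t3 22 24 29) (.cons (t3 0 24 49) (.cons a138 (.cons a491 (.cons (t3 0 17 22) .nil)))))))))))))))))))))))))))))))))))))))))))))))))))) (by decide +kernel)
theorem s372 : Valid A [5858, 739, 969, 1480, 1379, 4707, 1451] := rup _
  (.cons (t1 7 36 49) (.cons a192 (.cons a35 (.cons (t2 36 45 49) (.cons (t2 5 45 49) (.cons (t2 7 45 49) (.cons a379 (.cons s177 (.cons (t2 11 21 45) (.cons (t3 11 20 45) (.cons (t1 21 45 51) (.cons a29 (.cons s358 .nil))))))))))))) (by decide +kernel)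
theorem s373 : Valid A [2914, 5859, 969, 918, 2274, 547, 2786, 4707, 1451, 532, 1353] := rup _
  (.cons (t1 7 36 49) (.cons (t3 7 45 49) (.cons (t1 21 45 49) (.cons a307 (.cons a481 (.cons (t2 7 36 48) (.cons s150 (.cons (t3 7 33 49) (.cons a310 (.cons (t3 7 33 36) (.cons (t3 7 10 36) (.cons a511 (.cons a480 (.cons s371 (.cons (t3 11 17 21) (.cons (t1 4 17 21) (.cons a377 (.cons a378 (.cons (t1 0 11 17) (.cons (t3 11 16 21) (.cons (t2 4 16 17) (.cons a383 (.cons s2 (.cons (t1 7 10 29) (.cons a146 (.cons (t2 4 17 29) (.cons (t2 4 21 29) (.cons a140 (.cons a136 (.cons (t2 21 22 29) (.cons (t2 17 24 29) (.cons a403 (.cons (t2 24 48 49) (.cons (t1 22 24 49) (.cons (t3 7 24 49) (.cons (t2 24 33 49) (.cons a65 (.cons a67 (.cons (t3 3 7 36) (.cons (t3 3 7 45) (.cons a44 (.cons a52 (.cons a60 (.cons (t2 3 33 48) (.cons (t2 3 21 48) (.cons (t2 3 21 33) (.cons (t2 3 16 21) (.cons (t2 3 21 22) (.cons (t1 6 33 48) (.cons (t1 4 21 48) (.cons (t1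 4 21 33) (.cons a56 (.cons a262 (.cons (t2 4 9 48) (.cons (t3 4 9 33) (.cons (t2 16 22 24) (.cons a253 (.cons a250 (.cons (t2 9 16 24) .nil))))))))))))))))))))))))))))))))))))))))))))))))))))))))))) (by decide +kernel)
theorem s374 : Valid A [5859, 969, 918, 2274, 547, 2786, 4707, 1451, 532, 1353] := rup _
  (.cons (t1 7 36 49) (.cons (t1 10 36 49) (.cons (t3 10 45 49) (.cons (t3 7 45 49) (.cons s373 (.cons a396 (.cons (t2 7 22 45) (.cons (t3 7 22 49) .nil)))))))) (by decide +kernel)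
theorem s375 : Valid A [969, 918, 547, 2786, 4707, 1451, 1353, 584] := rup _
  (.cons (t3 7 11 21) (.cons (t1 4 17 36) (.cons (t3 4 36 49) (.cons (t1 4 17 49) (.cons a510 (.cons (t1 21 36 49) (.cons (t2 11 21 36) (.cons (t1 10 36 49) (.cons a35 (.cons (t1 4 10 36) (.cons (t1 7 36 49) (.cons (t3 7 10 36) (.cons s374 (.cons (t2 36 45 49) (.cons (t2 7 45 49) (.cons s372 (.cons a379 (.cons (t1 5 7 49) (.cons (t2 11 21 45) (.cons (t3 11 20 45) (.cons a207 (.cons a29 (.cons (t2 7 10 20) (.cons a19 (.cons (t3 10 13 36) (.cons (t3 10 13 49) (.cons a476 (.cons s359 (.cons a502 (.cons (t3 0 4 13) (.cons (t3 5 13 21) (.cons (t2 13 17 21) (.cons (t1 0 5 13) (.cons (t1 17 21 45) (.cons s226 (.cons s2 (.cons (t1 0 7 49) (.cons (t1 7 10 29) (.cons a492 (.cons a146 (.cons s354 (.cons (t2 4 17 29) (.cons (t3 17 22 45) (.cons a141 .nil)))))))))))))))))))))))))))))))))))))))))))) (by decide +kernel)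
theorem s376 : Valid A [15, 940, 2914, 994] := rup _
  (.cons (t2 0 7 49) (.cons (t2 0 7 22) (.cons a491 .nil))) (by decide +kernel)
theorem s377 : Valid A [3171, 3810, 2746, 2786] := rup _
  (.cons (t1 21 24 49) (.cons (t2 24 29 49) (.cons a134 .nil))) (by decide +kernel)
theorem s378 : Valid A [2218, 2734, 2746, 2874, 2733, 2786, 2274, 1353, 1379] := rup _
  (.cons (t2 10 21 49) (.cons a192 (.cons (t1 10 36 46) (.cons (t2 10 36 49) (.cons a190 (.cons (t3 17 21 22) (.cons a138 (.cons (t1 17 29 49) (.cons s377 (.cons (t1 24 36 49) (.cons a403 (.cons s367 (.cons a177 (.cons (t3 17 21 24) (.cons a183 (.cons s138 (.cons (t1 8 24 46) (.cons (t3 18 36 49) (.cons (t3 10 18 49) (.cons s202 (.cons a486 (.cons (t2 10 18 23) (.cons (t2 8 21 23) (.cons (t2 8 10 21) (.cons a399 .nil))))))))))))))))))))))))) (by decide +kernel)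
theorem s379 : Valid A [3170, 417, 418, 930, 937, 2274, 4700, 4707] := rup _
  (.cons a403 (.cons s367 (.cons (t3 7 17 24) (.cons (t3 3 17 24) (.cons a183 (.cons (t3 7 17 46) (.cons a64 (.cons a185 (.cons (t2 3 7 16) (.cons (t2 7 8 20) (.cons (t2 7 8 16) (.cons a28 .nil)))))))))))) (by decide +kernel)
theorem s380 : Valid A [986, 2907, 2914, 968, 1499, 2786, 1451, 2274, 1353, 1379] := rup _
  (.cons (t2 11 21 45) (.cons a342 (.cons (t1 19 22 45) (.cons a61 (.cons (t1 3 22 45) (.cons (t3 21 22 45) (.cons (t3 11 22 45) (.cons (t1 7 10 36) (.cons (t2 10 36 49) (.cons (t3 7 36 49) (.cons a344 (.cons a63 (.cons a35 (.cons (t3 11 20 45) (.cons (t1 21 36 49) (.cons a34 (.cons a480 (.cons (t2 10 48 49) (.cons a192 (.cons (t1 10 36 46) (.cons (t1 7 21 45) (.cons (t1 7 11 45) (.cons a29 (.cons (t1 7 22 45) (.cons s201 (.cons (t3 7 10 20) (.cons (t2 5 19 21) (.cons s366 (.cons a478 (.cons (t1 4 10 36) (.cons (t3 4 36 49) (.cons s376 (.cons a383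 (.cons s4 (.cons (t1 0 11 21) (.cons (t1 11 22 29) (.cons (t1 11 21 29) (.cons a507 (.cons s378 (.cons (t3 5 17 21) (.cons (t3 11 17 21) (.cons (t1 7 17 21) (.cons (t3 0 17 21) (.cons (t1 3 17 21) (.cons (t1 17 21 22) (.cons a378 (.cons a511 (.cons (t3 16 17 22) (.cons (t1 4 5 17) (.cons a337 (.cons a56 (.cons a211 (.cons (t3 4 16 19) (.cons (t1 3 16 19) (.cons (t1 4 19 49) (.cons (t1 4 19 36) (.cons (t3 3 4 16) (.cons (t2 3 19 36) (.cons (t2 3 19 49) (.cons s379 (.cons a169 (.cons (t2 24 48 49) (.cons (t1 7 24 49) (.cons (t1 3 24 49) (.cons (t2 10 34 49) (.cons a44 (.cons a64 (.cons s135 (.cons s18 (.cons (t2 3 4 7) (.cons (t3 10 33 36) (.cons s120 (.cons a52 (.cons (t2 10 18 49) (.cons (t1 3 33 34) (.cons a469 (.cons s370 (.cons (t2 10 30 49) .nil)))))))))))))))))))))))))))))))))))))))))))))))))))))))))))))))))))))))))))))) (by decide +kernel)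
theorem s381 : Valid A [2914, 968, 2786, 1451, 5858, 2274, 1353, 1379] := rup _
  (.cons (t2 10 36 49) (.cons (t2 36 45 49) (.cons (t1 21 36 49) (.cons (t2 11 21 36) (.cons a379 (.cons (t2 11 21 45) (.cons a192 (.cons (t1 10 36 46) (.cons a190 (.cons s354 (.cons (t3 11 22 45) (.cons (t3 21 22 45) (.cons s380 (.cons (t3 7 21 45) (.cons (t3 7 11 45) (.cons (t3 7 22 45) (.cons a208 (.cons a384 (.cons a227 (.cons (t3 0 7 22) (.cons (t3 5 7 45) (.cons (t3 0 7 21) (.cons (t1 7 11 52) (.cons (t1 7 21 52) (.cons a491 (.cons s177 (.cons (t1 21 45 51) (.cons (t1 22 45 51) (.cons a473 (.cons a497 (.cons s362 (.cons (t2 21 30 51) (.cons (t2 11 22 23) (.cons (t2 21 22 23) (.cons s367 (.cons a222 (.cons a238 (.cons a505 (.cons s138 (.cons (t3 23 30 52) (.cons (t2 0 23 49) (.cons a469 (.cons (t2 23 30 49) .nil))))))))))))))))))))))))))))))))))))))))))) (by decide +kernel)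
theorem s382 : Valid A [939, 987, 2350, 1340, 2400, 1317, 2364, 3036, 1116] := rup _
  (.cons a350 (.cons a208 (.cons (t2 7 21 45) (.cons (t3 5 7 45) (.cons a342 (.cons s177 (.cons (t2 7 19 45) (.cons (t1 7 45 51) (.cons a345 (.cons s41 (.cons s42 (.cons (t2 7 18 23) (.cons (t3 7 10 18) (.cons (t2 7 18 51) (.cons (t2 7 18 48) (.cons (t2 10 18 34) (.cons a185 (.cons (t3 7 23 51) (.cons s143 (.cons (t2 7 10 45) (.cons (t2 7 10 51) (.cons (t3 18 30 51) (.cons (t1 7 8 48) (.cons a162 (.cons a520 (.cons a397 (.cons (t3 10 22 51) (.cons a472 (.cons s101 (.cons (t2 23 30 48) (.cons a495 (.cons (t2 22 23 30) .nil)))))))))))))))))))))))))))))))) (by decide +kernel)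
theorem s383 : Valid A [2877, 2918, 5863, 4442, 3042, 3938, 2992, 1379, 3170] := rup _
  (.cons (t1 22 45 51) (.cons (t2 10 30 49) (.cons (t2 22 30 49) (.cons (t1 10 22 30) (.cons s354 (.cons a395 (.cons (t2 45 49 51) (.cons (t3 34 45 49) (.cons (t2 10 34 45) (.cons (t3 23 49 51) (.cons a168 (.cons a162 (.cons a495 (.cons (t3 23 24 34) (.cons (t1 22 30 34) (.cons (t2 22 23 34) .nil)))))))))))))))) (by decide +kernel)
theorem s384 : Valid A [1451, 4698, 2760, 2778] := rup _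
  (.cons (t2 11 21 45) (.cons (t2 11 21 36) (.cons a379 .nil))) (by decide +kernel)
theorem s385 : Valid A [2918, 2662, 999, 738, 5863, 683, 2778, 938, 4442, 3042, 3912, 3938, 2992, 3036, 1116, 1379, 3170] := rup _
  (.cons a204 (.cons (t1 22 45 51) (.cons s383 (.cons a472 (.cons (t3 30 49 51) (.cons (t3 30 36 51) (.cons (t2 7 49 51) (.cons (t2 45 49 51) (.cons (t1 36 45 51) (.cons s354 (.cons a492 (.cons (t2 22 23 49) (.cons a495 (.cons (t3 7 23 51) (.cons (t3 23 24 51) (.cons (t2 7 23 46) (.cons a22 (.cons a185 (.cons (t2 20 24 49) (.cons (t1 7 8 21) (.cons s384 (.cons (t2 5 11 21) (.cons a215 (.cons (t1 7 11 49) (.cons (t2 11 20 49) (.cons (t1 0 11 49) (.cons a33 (.cons a383 (.cons (t2 20 21 24) (.cons s2 (.cons a137 (.cons (t1 7 8 29) (.cons a142 .nil))))))))))))))))))))))))))))))))) (by decide +kernel)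
theorem s386 : Valid A [654, 987, 1379, 4707, 3170, 2274] := rup _
  (.cons a190 (.cons (t2 36 46 49) (.cons s367 (.cons a183 (.cons (t1 24 36 49) (.cons a177 (.cons a195 (.cons s138 (.cons a471 (.cons (t3 10 18 49) (.cons a480 (.cons (t2 18 48 49) (.cons a469 (.cons (t2 10 30 49) (.cons (t3 18 36 49) (.cons a486 (.cons s382 (.cons (t3 7 21 45) (.cons s55 (.cons a88 (.cons a32 (.cons a30 (.cons a485 (.cons (t3 23 36 49) (.cons a350 (.cons (t1 30 36 49) (.cons a196 (.cons (t3 10 36 49) (.cons a403 (.cons a207 (.cons (t3 5 7 45) (.cons a204 (.cons a205 (.cons s177 (.cons (t3 5 36 49) (.cons (t1 7 45 51) (.cons (t3 20 45 51) (.cons s385 (.cons (t3 22 45 51) (.cons (t3 7 22 51) (.cons a396 (.cons a227 (.cons (t1 10 36 45) (.cons (t3 10 45 49) (.cons (t1 10 18 45) (.cons s384 (.cons a79 (.cons (t2 7 18 45) (.cons (t2 5 11 21) (.cons a345 (.cons a215 (.cons (t2 7 19 22) (.cons (t1 7 19 20) (.cons (t2 7 19 51) (.cons (t1 7 19 52) (.cons (t3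 11 36 49) (.cons (t3 2 11 49) (.cons (t3 10 11 49) (.cons (t2 11 17 49) (.cons (t2 11 24 49) (.cons a339 (.cons a14 (.cons a78 (.cons a389 (.cons (t2 7 16 19) (.cons (t3 16 19 51) (.cons s83 (.cons (t3 11 25 49) (.cons (t3 11 28 49) (.cons (t3 11 28 36) (.cons a536 (.cons a487 (.cons (t1 20 21 28) (.cons (t3 7 21 28) (.cons a33 (.cons (t1 7 25 28) (.cons (t1 11 20 24) (.cons a460 (.cons a22 (.cons (t1 11 16 25) (.cons (t1 17 24 51) (.cons a375 (.cons (t1 16 17 51) .nil))))))))))))))))))))))))))))))))))))))))))))))))))))))))))))))))))))))))))))))))))) (by decide +kernel)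
theorem s387 : Valid A [4698, 1450, 682, 938, 987, 2342, 2377, 1116, 1353, 1328, 5986, 4707, 3170] := rup _
  (.cons a32 (.cons a30 (.cons a485 (.cons (t1 24 36 49) (.cons (t2 36 46 49) (.cons a177 (.cons (t1 8 24 46) (.cons a195 (.cons (t3 36 45 49) (.cons (t2 18 36 45) (.cons (t2 7 36 45) (.cons (t2 7 45 49) (.cons (t2 7 18 45) (.cons s201 (.cons s313 (.cons a345 (.cons (t2 21 24 36) (.cons (t2 21 23 36) (.cons (t3 10 21 36) (.cons (t3 11 21 36) (.cons (t2 7 19 45) (.cons (t1 7 19 20) (.cons (t2 10 11 21) (.cons a379 (.cons a387 (.cons (t3 7 11 45) (.cons (t2 11 20 45) (.cons (t3 11 19 45) (.cons s67 (.cons a385 (.cons a33 (.cons (t1 11 19 52) (.cons (t2 20 21 23) (.cons a14 (.cons (t3 20 23 52) (.cons a238 (.cons (t1 7 11 23) (.cons (t3 0 11 23) (.cons (t2 7 23 46) (.cons a505 (.cons a185 (.cons s7 (.cons (t1 7 8 21) (.cons s202 .nil)))))))))))))))))))))))))))))))))))))))))))) (by decide +kernel)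
theorem s388 : Valid A [1450, 987, 1379, 4707, 3170, 2274] := rup _
  (.cons s386 (.cons a209 (.cons a190 (.cons (t2 36 46 49) (.cons s367 (.cons a183 (.cons (t1 24 36 49) (.cons a177 (.cons a195 (.cons s138 (.cons a471 (.cons (t3 10 18 49) (.cons a480 (.cons (t2 18 48 49) (.cons a469 (.cons (t2 10 30 49) (.cons (t3 18 36 49) (.cons a486 (.cons s382 (.cons (t3 7 21 45) (.cons s55 (.cons a350 (.cons (t3 18 19 36) (.cons a485 (.cons (t2 17 23 46) (.cons a184 (.cons (t3 10 36 49) (.cons (t2 10 24 49) (.cons a481 (.cons a403 (.cons s387 (.cons a380 (.cons (t1 36 45 46) (.cons (t2 36 45 49) (.cons (t1 10 36 45) (.cons (t1 36 45 48) (.cons (t3 7 36 45) (.cons (t3 19 36 45) (.cons (t2 7 11 45) (.cons (t2 7 45 46) (.cons (t1 7 45 49) (.cons (t3 34 45 49) (.cons a396 (.cons (t2 7 45 48) (.cons (t2 7 23 36) (.cons a341 (.cons a185 (.cons (t2 7 22 45) (.cons (t3 22 45 49) (.cons s369 (.cons (t3 17 19 21) (.cons (t2 7 8 45) (.cons (t1 7 8 22)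 (.cons (t1 17 21 23) (.cons (t1 11 17 21) (.cons (t2 17 19 24) (.cons s171 (.cons s294 (.cons (t3 8 22 29) (.cons (t3 8 17 29) (.cons (t3 0 7 49) (.cons a383 (.cons a138 (.cons a491 (.cons (t2 0 11 17) (.cons (t3 0 17 22) .nil)))))))))))))))))))))))))))))))))))))))))))))))))))))))))))))))))) (by decide +kernel)
theorem s389 : Valid A [4699, 987, 1379, 4707, 3170, 2274] := rup _
  (.cons a190 (.cons (t2 36 46 49) (.cons s367 (.cons a183 (.cons (t1 24 36 49) (.cons a177 (.cons a195 (.cons s138 (.cons a471 (.cons (t3 10 18 49) (.cons a480 (.cons (t2 18 48 49) (.cons a469 (.cons (t2 10 30 49) (.cons (t3 18 36 49) (.cons a486 (.cons s382 (.cons s388 (.cons (t1 7 11 21) (.cons a34 (.cons s386 (.cons (t1 5 7 45) (.cons (t3 7 21 45) (.cons s55 (.cons a30 (.cons a350 (.cons (t3 18 19 36) (.cons (t3 10 36 49) (.cons a481 (.cons (t1 21 36 45) (.cons (t3 5 36 45) (.cons (t2 36 45 49) (.cons (t1 10 36 45) (.cons (t1 36 45 48) (.cons (t3 7 36 45)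 (.cons (t3 19 36 45) (.cons (t3 21 36 49) (.cons (t2 5 19 36) (.cons (t1 7 45 49) (.cons (t3 34 45 49) (.cons (t2 10 20 45) (.cons (t2 7 45 48) (.cons a341 (.cons s366 (.cons s369 (.cons (t3 17 19 21) (.cons a478 (.cons (t1 4 5 36) (.cons s375 (.cons a211 (.cons (t3 4 17 19) .nil))))))))))))))))))))))))))))))))))))))))))))))))))) (by decide +kernel)
theorem s390 : Valid A [4450, 3132, 1340, 1379, 3170] := rup _
  (.cons (t2 10 34 49) (.cons a168 (.cons a162 (.cons (t3 24 30 34) .nil)))) (by decide +kernel)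
theorem s391 : Valid A [988, 3945, 3049, 6376, 935, 1454, 2736, 916, 994, 1451, 998, 938, 987, 1326, 1072, 3036, 1116] := rup _
  (.cons (t3 23 30 52) (.cons a32 (.cons (t1 7 19 20) (.cons (t1 7 11 21) (.cons a35 (.cons a185 (.cons (t1 7 8 21) (.cons (t1 7 8 51) (.cons (t1 7 8 10) (.cons (t2 7 8 45) (.cons (t2 7 8 19) (.cons s202 (.cons a399 (.cons a359 (.cons s7 (.cons s143 (.cons (t1 8 23 30) (.cons (t2 8 19 23) (.cons (t1 8 23 52) (.cons (t1 0 11 21) (.cons s309 (.cons (t2 8 19 30) (.cons (t1 8 30 51) (.cons (t1 19 23 52) (.cons (t3 8 42 52) (.cons a383 (.cons (t3 19 22 30) (.cons (t2 7 19 22) (.cons a232 (.cons a234 (.cons s376 (.cons a472 (.cons (t2 30 32 52) (.cons (t3 22 42 49) (.cons a464 (.cons a366 (.cons (t3 22 32 51) .nil))))))))))))))))))))))))))))))))))))) (by decide +kernel)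
theorem s392 : Valid A [987, 1379, 4707, 3170, 2274] := rup _
  (.cons a190 (.cons (t2 36 46 49) (.cons s367 (.cons s138 (.cons (t3 18 36 49) (.cons (t3 10 18 49) (.cons a350 (.cons (t3 18 19 36) (.cons (t3 10 36 49) (.cons a485 (.cons (t2 10 23 36) (.cons a486 (.cons a469 (.cons (t2 10 30 49) (.cons (t1 30 36 49) (.cons a480 (.cons (t2 18 48 49) (.cons a471 (.cons (t1 24 36 49) (.cons a177 (.cons a183 (.cons (t1 8 24 46) (.cons a195 (.cons a32 (.cons s382 (.cons (t3 7 21 45) (.cons s386 (.cons s22 (.cons s388 (.cons a35 (.cons (t1 7 11 21) (.cons (t2 11 21 45) (.cons s389 (.cons (t3 36 45 49) (.cons (t2 10 36 45) (.cons (t2 18 36 45) (.cons s384 (.cons a379 (.cons (t2 7 45 49) (.cons (t2 7 10 45) (.cons (t2 7 18 45) (.cons (t2 21 24 36) (.cons (t2 21 30 36) (.cons (t2 21 23 36) (.cons (t1 11 36 49) (.cons (t2 11 23 36) (.cons (t2 11 19 36) (.cons (t3 10 11 36) (.cons a345 (.cons (t1 7 19 20) (.cons s292 (.cons (t1 11 49 52) (.cons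 (t1 11 21 52) (.cons (t2 10 11 52) (.cons a238 (.cons a222 (.cons (t3 23 46 52) (.cons s391 (.cons (t2 7 23 46) (.cons (t2 7 45 46) (.cons (t2 7 46 52) (.cons s294 (.cons (t3 24 45 46) (.cons (t3 17 45 46) (.cons s109 (.cons a383 (.cons a395 (.cons s4 (.cons (t3 17 22 45) (.cons (t3 22 24 45) (.cons (t1 11 21 29) (.cons a139 (.cons (t1 22 24 29) (.cons a134 .nil)))))))))))))))))))))))))))))))))))))))))))))))))))))))))))))))))))))))))) (by decide +kernel)
theorem s393 : Valid A [938, 738, 2218, 1323, 2734, 2784, 2347, 2787, 2748, 2736, 2761, 986, 2342, 3165, 2269] := rup _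
  (.cons a204 (.cons a195 (.cons (t2 17 23 46) (.cons a183 (.cons (t1 8 24 46) (.cons a196 (.cons a207 (.cons (t1 7 18 21) (.cons (t2 5 7 45) (.cons s123 (.cons s177 (.cons (t2 21 36 45) (.cons (t3 21 30 45) (.cons (t2 21 45 49) (.cons (t3 21 23 45) (.cons (t1 10 21 45) (.cons a380 (.cons (t3 30 45 51) (.cons (t3 11 45 49) (.cons (t3 23 45 51) (.cons a396 (.cons a215 (.cons (t2 21 22 45) (.cons (t3 22 45 51) (.cons (t2 5 7 11) (.cons a495 (.cons a472 (.cons (t2 22 23 46) (.cons (t1 17 22 23) (.cons (t2 22 23 30) (.cons (t1 22 30 46) (.cons s203 (.cons s202 (.cons (t1 7 8 21) (.cons (t2 8 21 23) (.cons (t2 8 21 48) (.cons a185 (.cons a520 (.cons (t3 7 17 46) (.cons (t2 7 11 46) (.cons (t3 7 24 46) (.cons (t2 23 30 48) (.cons (t3 23 24 48) (.cons (t1 22 23 48) (.cons (t2 7 11 17) (.cons (t2 11 30 46) (.cons a67 (.cons a44 (.cons (t3 3 22 48) (.cons a377 (.cons (t3 3 30 48) (.cons a58 (.cons a371 (.cons (t3 3 16 30) .nil))))))))))))))))))))))))))))))))))))))))))))))))))))))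 (by decide +kernel)
theorem s394 : Valid A [2761, 986, 2269, 1379, 2248, 4707, 2225, 3170] := rup _
  (.cons a190 (.cons s138 (.cons (t3 10 18 49) (.cons a350 (.cons (t3 18 36 49) (.cons a485 (.cons a469 (.cons (t2 10 30 49) (.cons (t1 30 36 49) (.cons (t1 24 36 49) (.cons (t2 36 46 49) (.cons a177 (.cons a195 (.cons a183 (.cons a480 (.cons (t2 10 48 49) (.cons (t3 10 36 49) (.cons a481 (.cons a206 (.cons (t2 21 24 36) (.cons (t2 21 30 36) (.cons (t1 21 36 49) (.cons (t3 18 21 36) (.cons (t2 21 36 48) (.cons (t2 21 23 36) (.cons (t3 10 21 36) (.cons (t2 21 36 46) (.cons (t1 17 21 36) (.cons (t3 5 36 49) (.cons s393 (.cons s44 (.cons (t2 7 21 24) (.cons (t1 7 21 49) (.cons (t3 7 18 21) (.cons (t2 7 21 48) (.cons (t2 7 21 23) (.cons (t3 7 10 21) (.cons (t2 7 21 46) (.cons (t3 21 34 49) (.cons (t2 10 21 34) (.cons a307 (.cons a430 (.cons s150 (.cons s143 (.cons (t1 7 10 50) (.cons a185 (.cons a168 (.cons s390 (.cons s135 (.cons (t1 7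 8 50) (.cons (t1 7 18 50) (.cons (t3 7 33 49) (.cons (t2 7 8 18) (.cons (t1 7 8 48) (.cons s90 (.cons (t1 24 30 48) (.cons a391 (.cons a310 (.cons a520 (.cons s145 (.cons (t1 30 33 48) (.cons (t3 6 30 33) (.cons (t1 24 30 33) (.cons (t2 6 33 48) (.cons (t3 3 17 24) (.cons (t3 6 24 30) (.cons a251 (.cons a252 (.cons a38 (.cons (t2 6 9 24) (.cons (t1 3 24 27) (.cons a261 (.cons (t2 9 10 48) (.cons (t3 9 23 48) (.cons a246 (.cons (t2 9 23 50) (.cons (t3 9 33 50) (.cons (t3 9 24 50) (.cons a313 (.cons (t3 23 27 50) (.cons a326 (.cons (t3 23 39 50) (.cons a433 (.cons (t2 18 39 49) (.cons (t1 8 18 39) (.cons a443 (.cons a444 (.cons (t2 8 39 41) (.cons (t2 7 41 49) (.cons a426 (.cons a446 (.cons (t1 33 41 50) .nil)))))))))))))))))))))))))))))))))))))))))))))))))))))))))))))))))))))))))))))))))))))))))))) (by decide +kernel)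
theorem s395 : Valid A [3163, 14, 48, 1480, 968, 986, 3144] := rup _
  (.cons (t3 24 36 45) (.cons (t3 0 24 45) (.cons s297 (.cons a379 (.cons a383 (.cons (t1 0 11 45) .nil)))))) (by decide +kernel)
theorem s396 : Valid A [1200, 864, 834, 3138, 3169] := rup _
  (.cons (t3 9 24 48) (.cons a250 (.cons a261 (.cons (t1 6 9 33) .nil)))) (by decide +kernel)
theorem s397 : Valid A [3022, 2236, 444, 431, 2479, 2214] := rup _
  (.cons (t2 19 23 39) (.cons (t2 3 23 39) (.cons a333 (.cons a48 (.cons (t3 17 30 39) .nil))))) (by decide +kernel)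
theorem s398 : Valid A [2998, 2244, 431, 418, 2479, 2500] := rup _
  (.cons (t2 19 23 27) (.cons (t2 3 23 27) (.cons a154 (.cons a36 (.cons (t1 17 27 34) .nil))))) (by decide +kernel)
theorem s399 : Valid A [5863, 2876, 3904, 2237, 956, 1190, 1216, 2266, 1114, 1096, 4710, 935, 986] := rup _
  (.cons (t3 7 45 51) (.cons (t3 17 45 51) (.cons (t1 17 30 51) (.cons s169 (.cons a464 (.cons a472 (.cons (t1 7 19 22) (.cons (t2 32 36 51) (.cons (t3 22 32 51) (.cons (t3 32 45 51) (.cons a364 (.cons s119 (.cons (t3 32 42 45) (.cons a257 (.cons a356 (.cons (t2 16 32 36) (.cons (t2 16 32 42) (.cons (t3 8 36 42) (.cons a353 .nil))))))))))))))))))) (by decide +kernel)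
theorem s400 : Valid A [2748, 3022, 1442, 1190, 1216, 783, 399, 2266, 2220, 2240, 2479, 2735, 943, 1114, 1096, 2214, 266, 662, 4710, 935, 939, 986] := rup _
  (.cons (t1 3 7 23) (.cons (t2 7 19 21) (.cons (t2 7 21 30) (.cons (t1 21 23 30) (.cons (t2 3 7 30) (.cons s397 (.cons (t1 17 30 32) (.cons (t3 17 22 30) (.cons (t1 17 30 45) (.cons (t3 11 17 30) (.cons s399 (.cons s177 (.cons (t3 5 11 45) (.cons (t3 2 5 45) (.cons a85 (.cons (t1 2 7 19) (.cons (t1 2 7 21) (.cons (t3 2 6 7) (.cons a73 (.cons (t1 2 21 52) (.cons (t1 2 19 52) (.cons a222 (.cons (t3 30 45 52) (.cons s231 (.cons (t3 7 11 23) (.cons (t3 11 21 23) (.cons a34 (.cons a35 (.cons (t2 19 20 21) (.cons s363 (.cons a14 (.cons (t2 20 45 52) .nil)))))))))))))))))))))))))))))))) (by decide +kernel)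
theorem s401 : Valid A [1440, 1468, 2236, 1442] := rup _
  (.cons a375 (.cons a371 (.cons (t2 16 17 30) .nil))) (by decide +kernel)
theorem s402 : Valid A [790, 3048, 829, 2236, 1442, 1456, 3149, 815, 1356, 1302, 1326, 2992] := rup _
  (.cons (t3 6 11 23) (.cons (t3 6 11 30) (.cons a238 (.cons s67 (.cons a387 (.cons (t3 10 23 28) (.cons (t1 10 28 38) (.cons s401 (.cons (t1 11 16 23) (.cons (t1 11 16 28) (.cons (t1 11 16 24) (.cons s272 (.cons (t3 1 24 38) (.cons a295 (.cons (t2 1 16 28) (.cons (t2 1 23 28) (.cons a288 .nil))))))))))))))))) (by decide +kernel)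
theorem s403 : Valid A [988, 1480, 1302, 266, 662, 4710, 935, 916, 994, 968, 939, 986, 2269, 1379, 4707, 2225, 3170] := rup _
  (.cons s43 (.cons (t3 10 36 49) (.cons a190 (.cons s138 (.cons (t3 18 36 49) (.cons a485 (.cons (t2 10 23 36) (.cons a480 (.cons (t2 18 48 49) (.cons (t1 24 36 49) (.cons (t2 36 46 49) (.cons a177 (.cons a196 (.cons a195 (.cons a183 (.cons (t1 7 21 46) (.cons (t1 7 17 46) (.cons (t1 7 24 46) (.cons a185 (.cons (t1 21 24 46) (.cons (t2 17 21 46) (.cons (t3 7 17 19) (.cons (t1 7 19 24) (.cons (t2 7 8 21) (.cons (t1 7 8 36) (.cons (t1 7 8 10) (.cons (t1 7 8 45) (.cons (t2 7 8 19) (.cons a143 (.cons a399 (.cons a134 (.cons s143 (.cons s191 (.cons (t2 8 21 23) (.cons (t2 8 19 23) (.cons a151 (.cons a152 (.cons s10 (.cons (t1 17 24 29) (.cons s150 (.cons a506 (.cons (t2 17 29 32) (.cons a141 (.cons (t1 0 7 23) (.cons s395 (.cons (t2 17 24 45) (.cons s157 (.cons a64 (.cons (t1 3 17 24) (.cons s145 (.cons (t2 3 7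 36) (.cons (t1 3 7 23) (.cons (t2 3 7 33) (.cons s90 (.cons (t1 17 24 48) (.cons (t2 24 29 48) (.cons a52 (.cons a168 (.cons (t2 17 24 34) (.cons (t1 24 33 36) (.cons (t1 33 36 49) (.cons (t3 10 34 49) (.cons (t3 18 34 49) (.cons a311 (.cons a312 (.cons a160 (.cons a161 (.cons a304 (.cons (t2 18 34 38) (.cons (t1 6 7 21) (.cons (t1 6 7 23) (.cons (t1 6 7 8) (.cons (t2 6 7 45) (.cons (t2 6 7 48) (.cons s396 (.cons (t1 9 24 48) (.cons (t2 9 24 32) (.cons (t2 9 19 24) (.cons s166 (.cons (t3 17 38 48) (.cons (t3 24 38 48) (.cons (t3 29 38 48) (.cons a131 (.cons (t1 11 24 38) (.cons (t1 11 17 38) (.cons s398 (.cons a326 (.cons s400 (.cons a223 (.cons (t3 17 21 30) (.cons (t1 6 21 30) (.cons (t1 21 23 52) (.cons s402 (.cons (t2 6 7 11) (.cons (t1 6 11 45) (.cons (t2 6 8 11) (.cons (t2 6 11 30) (.cons (t2 6 11 21) (.cons a373 (.cons a34 (.cons a35 (.cons a375 (.cons (t2 8 11 16) (.cons (t2 8 20 21) (.cons s363 (.cons (t1 16 17 24) (.cons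 a25 (.cons (t2 20 24 45) (.cons (t2 16 20 24) .nil))))))))))))))))))))))))))))))))))))))))))))))))))))))))))))))))))))))))))))))))))))))))))))))))))))))))))))) (by decide +kernel)
theorem s404 : Valid A [2083, 918, 2234, 418, 475, 2215, 931, 1506, 994, 1379] := rup _
  (.cons (t3 7 16 17) (.cons (t1 16 17 19) (.cons (t1 3 16 17) (.cons a338 (.cons (t2 7 16 22) (.cons a56 (.cons (t1 16 17 22) (.cons (t2 3 22 45) (.cons a138 (.cons a398 (.cons s8 (.cons (t3 10 22 49) (.cons a491 (.cons s376 (.cons (t2 0 11 49) (.cons a383 .nil)))))))))))))))) (by decide +kernel)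
theorem s405 : Valid A [2220, 2146, 2086, 1441, 918, 2234, 2215, 931, 994] := rup _
  (.cons (t2 7 17 22) (.cons (t1 17 19 22) (.cons a138 (.cons a337 (.cons s8 (.cons (t1 16 22 49) (.cons (t1 0 16 22) (.cons s376 (.cons (t1 0 11 16) (.cons a383 .nil)))))))))) (by decide +kernel)
theorem s406 : Valid A [1442, 2234, 418, 475, 2215, 2266, 931, 1506, 994, 1379, 2274] := rup _
  (.cons (t2 7 11 17) (.cons s404 (.cons a375 (.cons (t3 16 17 19) (.cons (t1 11 16 49) (.cons s405 (.cons (t1 17 22 49) (.cons (t3 3 17 22) (.cons (t1 17 22 45) (.cons (t3 16 17 22) (.cons s354 (.cons a56 (.cons (t1 16 45 49) (.cons (t2 3 16 45) .nil)))))))))))))) (by decide +kernel)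
theorem s407 : Valid A [2792, 3034, 2651, 1454, 1443, 2219, 2475] := rup _
  (.cons (t1 11 17 21) (.cons a34 (.cons (t2 19 20 21) (.cons (t2 19 21 52) (.cons (t2 17 21 52) (.cons (t2 11 17 52) (.cons a238 (.cons a14 (.cons (t3 23 45 52) (.cons (t2 20 45 52) .nil)))))))))) (by decide +kernel)
theorem s408 : Valid A [939, 1379, 4707, 3170, 2274] := rup _
  (.cons a190 (.cons (t2 36 46 49) (.cons s367 (.cons s138 (.cons (t3 18 36 49) (.cons a403 (.cons (t1 17 36 49) (.cons s392 (.cons s394 (.cons (t2 18 21 36) (.cons (t3 10 36 49) (.cons (t2 10 21 36) (.cons (t3 21 36 49) (.cons a485 (.cons (t2 10 23 36) (.cons (t3 10 18 49) (.cons a350 (.cons (t1 24 36 49) (.cons a177 (.cons a195 (.cons a210 (.cons (t2 7 21 36) (.cons (t2 7 21 49) (.cons (t2 7 10 21) (.cons (t2 7 18 21) (.cons a203 (.cons s132 (.cons a345 (.cons s32 (.cons (t1 5 36 49) (.cons (t3 5 10 36) (.cons a216 (.cons a217 (.cons (t1 2 5 49) (.cons (t1 5 10 11) (.cons (t1 11 36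 49) (.cons s403 (.cons a186 (.cons (t2 7 23 46) (.cons (t3 7 45 46) (.cons (t3 7 17 46) (.cons (t2 7 21 46) (.cons (t3 7 24 46) (.cons (t2 7 19 46) (.cons (t3 7 8 21) (.cons (t1 7 21 23) (.cons (t2 17 45 46) (.cons (t2 7 17 19) (.cons (t3 21 24 46) (.cons a65 (.cons s158 (.cons a175 (.cons a135 (.cons a137 (.cons s153 (.cons (t3 3 7 17) (.cons (t3 10 34 49) (.cons (t2 17 38 46) (.cons (t2 17 24 29) (.cons a142 (.cons a161 (.cons s3 (.cons s406 (.cons (t3 7 11 17) (.cons (t2 11 17 38) (.cons (t2 11 17 29) (.cons a384 (.cons a130 (.cons (t3 0 7 21) (.cons (t1 8 29 38) (.cons a505 (.cons (t2 8 10 38) (.cons (t3 0 8 23) (.cons a399 .nil)))))))))))))))))))))))))))))))))))))))))))))))))))))))))))))))))))))))))) (by decide +kernel)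
theorem s409 : Valid A [935, 1046, 1501, 1457, 1506, 938, 2786, 2760, 986, 2504, 2530, 1116, 1353, 1379, 2225, 2274] := rup _
  (.cons (t2 7 19 36) (.cons (t1 7 19 21) (.cons (t1 7 19 45) (.cons (t2 7 19 49) (.cons s201 (.cons a341 (.cons (t2 5 21 49) (.cons (t3 21 36 45) (.cons (t1 21 45 49) (.cons a215 (.cons s297 (.cons (t2 5 11 21) (.cons (t3 7 11 46) (.cons (t2 11 21 24) (.cons (t3 8 11 21) (.cons s381 (.cons a185 (.cons a135 (.cons a137 (.cons (t1 7 22 49) (.cons (t1 17 22 49) (.cons (t2 17 24 29) (.cons a142 (.cons (t1 7 8 22) (.cons a138 (.cons (t3 8 22 29) .nil)))))))))))))))))))))))))) (by decide +kernel)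
theorem s410 : Valid A [1443, 938, 2786, 2760, 986, 3042, 2377, 3165, 2269, 1353, 1379, 2248, 3170, 2274] := rup _
  (.cons (t2 10 21 36) (.cons a190 (.cons s138 (.cons (t3 10 18 49) (.cons a350 (.cons (t3 18 19 36) (.cons (t3 18 19 49) (.cons a469 (.cons (t2 10 30 49) (.cons a195 (.cons (t2 17 23 46) (.cons s71 (.cons a184 (.cons a183 (.cons a403 (.cons (t2 11 17 49) (.cons (t2 11 17 36) (.cons (t1 11 17 24) (.cons (t1 11 17 46) (.cons (t1 8 11 17) (.cons (t2 11 17 18) (.cons (t2 11 17 23) (.cons s409 (.cons a345 (.cons s41 (.cons (t1 7 18 49) (.cons (t1 7 18 45) (.cons (t2 7 11 18) (.cons (t3 18 34 49) (.cons (t3 7 45 49) (.cons (t1 18 36 45) (.cons s322 (.cons s390 (.cons a379 (.cons a203 (.cons (t2 24 30 46) (.cons (t2 11 45 46) (.cons (t3 11 23 45) (.cons (t2 5 36 45) (.cons (t3 30 45 46) (.cons s177 (.cons (t1 30 45 51) (.cons (t3 23 45 51) (.cons a473 (.cons (t1 22 45 51) (.cons a495 (.cons s354 (.cons (t2 22 23 49) .nil))))))))))))))))))))))))))))))))))))))))))))))))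 (by decide +kernel)
theorem s411 : Valid A [933, 2350, 2400, 2352, 3036, 2403, 1116, 1376, 1379, 2225, 3170] := rup _
  (.cons a469 (.cons (t2 10 30 49) (.cons (t3 10 18 49) (.cons s41 (.cons s42 (.cons (t1 7 18 49) (.cons (t2 7 18 24) (.cons (t2 7 18 23) (.cons (t3 7 10 18) (.cons (t2 7 18 48) (.cons (t3 18 34 49) (.cons (t2 10 18 34) (.cons a185 (.cons a307 (.cons a430 (.cons s143 (.cons (t1 7 10 50) (.cons s150 (.cons (t1 7 8 48) (.cons a168 (.cons s390 (.cons s135 (.cons a162 (.cons (t2 7 8 49) (.cons (t1 7 8 50) (.cons (t1 7 18 50) (.cons (t3 7 33 49) (.cons a520 (.cons s90 (.cons a391 (.cons s101 (.cons a310 (.cons s145 (.cons (t3 6 30 33) (.cons (t1 24 30 33) (.cons (t2 6 30 48) (.cons (t3 3 17 24) (.cons (t3 6 24 30) (.cons a251 (.cons a252 (.cons a38 (.cons (t2 6 9 24) (.cons (t1 3 24 27) (.cons a261 (.cons (t2 9 10 48) (.cons (t3 9 23 48) (.cons a246 (.cons (t2 9 23 50) (.cons (t3 9 33 50) (.cons (t3 9 24 50) (.cons a313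 (.cons (t3 23 27 50) (.cons a326 (.cons (t3 23 39 50) (.cons a433 (.cons (t2 18 39 49) (.cons a443 (.cons (t2 7 41 49) (.cons (t2 8 41 49) (.cons a446 (.cons a426 (.cons (t1 33 41 50) .nil)))))))))))))))))))))))))))))))))))))))))))))))))))))))))))))) (by decide +kernel)
theorem s412 : Valid A [4450, 935, 916, 994, 1340, 1317, 3165, 1376, 1379, 3170] := rup _
  (.cons a190 (.cons (t2 10 34 49) (.cons s158 (.cons s390 (.cons s135 (.cons (t3 7 24 46) (.cons (t2 24 30 46) (.cons a391 (.cons s128 (.cons (t1 24 30 33) (.cons (t2 30 33 46) (.cons s79 (.cons (t2 38 46 49) (.cons (t3 33 38 46) (.cons (t1 7 38 46) (.cons a252 (.cons (t3 9 33 38) (.cons a265 (.cons (t3 9 10 18) (.cons a247 (.cons (t1 10 49 50) (.cons a429 (.cons a329 (.cons (t3 7 38 50) .nil)))))))))))))))))))))))) (by decide +kernel)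
theorem s413 : Valid A [3139, 944, 3140, 968, 3144] := rup _
  (.cons (t1 24 33 36) (.cons (t1 24 33 34) (.cons s176 (.cons (t1 24 33 48) (.cons a45 (.cons a64 (.cons (t3 3 24 33) (.cons (t2 3 7 36) (.cons a52 .nil))))))))) (by decide +kernel)
theorem s414 : Valid A [997, 972, 4962] := rup _
  (.cons a431 (.cons (t3 7 38 50) (.cons a329 .nil))) (by decide +kernel)
theorem s415 : Valid A [3169, 864, 834, 3138, 2479, 992, 943, 944, 2380, 4962, 2244, 2500, 994, 2400, 2225, 3170] := rup _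
  (.cons a45 (.cons s396 (.cons a64 (.cons (t1 3 17 24) (.cons (t1 9 24 48) (.cons (t1 3 7 23) (.cons s166 (.cons s398 (.cons (t1 7 38 48) (.cons (t1 7 23 27) (.cons s414 (.cons a429 (.cons s188 (.cons (t3 24 49 50) .nil)))))))))))))) (by decide +kernel)
theorem s416 : Valid A [988, 1468, 3133, 2380, 4962, 2244, 3140, 918, 731, 5858, 660, 683, 935, 916, 994, 968, 2786, 1326, 1340, 2400, 1116, 3165, 1353, 1379, 3144, 3170, 2274] := rup _
  (.cons a196 (.cons (t3 23 24 30) (.cons a209 (.cons s43 (.cons a195 (.cons a403 (.cons (t1 7 24 46) (.cons a185 (.cons (t1 7 8 10) (.cons (t2 7 8 19) (.cons (t3 5 7 8) (.cons (t1 7 8 11) (.cons a399 (.cons (t3 8 11 23) (.cons s143 (.cons s191 (.cons (t3 5 8 23) (.cons (t2 8 19 23) (.cons s231 (.cons s413 (.cons (t1 24 30 33) (.cons a391 (.cons (t2 10 33 49) (.cons a311 (.cons a312 (.cons a304 (.cons (t2 6 7 48) (.cons s415 (.cons s145 (.cons (t1 3 24 30) (.cons s146 (.cons (t3 5 23 52) (.cons (t3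 5 10 52) (.cons (t3 5 7 52) (.cons (t2 5 21 52) (.cons a238 (.cons s109 (.cons (t3 11 21 52) (.cons (t3 10 22 49) (.cons s381 .nil)))))))))))))))))))))))))))))))))))))))) (by decide +kernel)
theorem s417 : Valid A [962, 1200, 1172, 957, 945, 1340] := rup _
  (.cons (t1 7 24 33) (.cons (t1 7 30 33) (.cons a250 (.cons a391 (.cons (t3 9 10 33) .nil))))) (by decide +kernel)
theorem s418 : Valid A [3133, 2380, 4962, 2244, 3140, 918, 731, 5858, 660, 683, 935, 916, 994, 968, 1456, 2786, 2400, 2377, 3165, 2269, 1353, 1379, 3144, 3170, 2274] := rup _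
  (.cons a485 (.cons (t2 10 23 36) (.cons a190 (.cons s138 (.cons a469 (.cons (t2 10 30 49) (.cons (t3 10 18 49) (.cons a183 (.cons (t2 24 30 46) (.cons (t3 11 24 30) (.cons s416 (.cons (t3 7 17 46) (.cons (t3 7 24 46) (.cons (t2 7 19 46) (.cons (t3 7 30 46) (.cons (t2 7 17 19) (.cons a65 (.cons a175 (.cons (t3 19 30 46) (.cons (t3 3 7 30) (.cons a335 (.cons (t2 24 38 46) (.cons (t2 7 38 46) (.cons (t1 19 30 39) (.cons s414 (.cons a48 (.cons a429 (.cons (t1 18 49 50) (.cons (t1 10 49 50) (.cons a434 (.cons a247 (.cons (t1 18 36 39) (.cons (t3 9 10 18) (.cons (t2 3 36 39) (.cons a265 (.cons (t2 9 24 38) (.cons s417 (.cons (t3 3 7 33) (.cons (t1 7 33 36) (.cons a52 .nil)))))))))))))))))))))))))))))))))))))))) (by decide +kernel)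
theorem s419 : Valid A [989, 3932, 2380, 4962, 935, 916, 994, 3165, 2269, 1379] := rup _
  (.cons a190 (.cons s138 (.cons a469 (.cons (t2 10 30 49) (.cons (t3 10 18 49) (.cons (t3 7 17 46) (.cons (t3 7 24 46) (.cons (t2 7 19 46) (.cons (t2 7 30 46) (.cons (t2 7 17 19) (.cons (t2 7 19 24) (.cons a175 (.cons s183 (.cons a335 (.cons (t1 19 24 39) (.cons (t2 24 38 46) (.cons (t2 7 38 46) (.cons (t1 7 24 33) (.cons s414 (.cons a429 (.cons (t1 18 49 50) (.cons (t1 10 49 50) (.cons a434 (.cons a247 (.cons (t3 18 39 49) (.cons (t3 9 10 49) (.cons (t3 9 10 18) (.cons a265 (.cons (t2 9 24 38) (.cons a250 (.cons (t1 9 33 49) (.cons s148 (.cons a304 (.cons (t3 6 7 24) (.cons (t2 6 39 49) (.cons a300 .nil)))))))))))))))))))))))))))))))))))) (by decide +kernel)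
theorem s420 : Valid A [1229, 1190, 1244, 2524] := rup _
  (.cons (t1 9 38 46) (.cons (t3 9 19 38) (.cons a173 .nil))) (by decide +kernel)
theorem s421 : Valid A [1200, 2498, 992, 3138, 2524, 2380, 994, 2400, 2403, 3165] := rup _
  (.cons (t3 9 24 46) (.cons a250 (.cons (t2 9 19 33) (.cons s420 (.cons a265 (.cons (t2 9 18 48) (.cons (t1 9 18 49) (.cons (t2 9 33 49) (.cons a311 (.cons a304 (.cons (t1 6 9 49) (.cons (t2 6 7 48) (.cons a261 .nil))))))))))))) (by decide +kernel)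
theorem s422 : Valid A [1379, 4707, 3170, 2274] := rup _
  (.cons (t1 24 36 49) (.cons (t1 17 36 49) (.cons a480 (.cons a403 (.cons a190 (.cons (t3 10 36 49) (.cons (t2 10 48 49) (.cons (t2 36 46 49) (.cons s367 (.cons a177 (.cons a183 (.cons s138 (.cons a195 (.cons s75 (.cons a469 (.cons (t3 18 36 49) (.cons (t3 10 18 49) (.cons (t2 18 48 49) (.cons (t2 10 30 49) (.cons a485 (.cons a486 (.cons a350 (.cons (t3 23 36 49) (.cons (t2 10 23 36) (.cons s392 (.cons s394 (.cons (t3 21 36 49) (.cons (t2 10 21 36) (.cons s408 (.cons s410 (.cons (t3 11 17 24) (.cons s411 (.cons (t3 7 18 36) (.cons (t3 7 18 49) (.cons (t1 7 10 18) (.cons a345 (.cons s201 (.cons s43 (.cons (t1 7 19 21) (.cons (t1 7 19 45) (.cons (t2 5 10 21) (.cons a341 (.cons (t3 21 36 45) (.cons (t1 21 45 49) (.cons (t1 5 21 45) (.cons s297 (.cons s412 (.cons a170 (.cons (t3 10 34 49) (.cons (t1 17 34 49) (.cons (t3 18 34 49) (.cons a160 (.cons (t3 34 38 49) (.cons (t2 18 34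 38) (.cons s418 (.cons (t3 24 30 46) (.cons s419 (.cons (t1 7 17 46) (.cons (t1 7 24 46) (.cons a185 (.cons (t1 7 19 46) (.cons s413 (.cons (t1 7 8 10) (.cons a399 (.cons s191 (.cons s150 (.cons (t1 7 19 33) (.cons s141 (.cons s421 (.cons (t1 7 9 24) (.cons (t3 9 17 24) (.cons (t2 9 18 24) (.cons a265 (.cons (t3 7 9 38) (.cons s414 (.cons a429 (.cons (t3 24 49 50) (.cons (t1 34 49 50) (.cons (t1 36 49 50) (.cons s188 (.cons s189 (.cons (t1 7 19 27) (.cons (t1 3 36 50) (.cons (t1 3 34 50) (.cons a154 (.cons a52 (.cons (t1 3 27 34) (.cons (t1 17 27 34) (.cons (t1 33 36 49) (.cons a36 (.cons a311 (.cons (t2 3 7 17) (.cons (t1 3 17 24) (.cons (t3 3 9 17) (.cons a304 (.cons (t1 3 6 7) (.cons a46 (.cons (t3 3 6 9) (.cons (t1 3 9 48) (.cons (t2 6 7 48) (.cons a261 .nil))))))))))))))))))))))))))))))))))))))))))))))))))))))))))))))))))))))))))))))))))))))))))))))))))))) (by decide +kernel)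
theorem s423 : Valid A [1322, 3944, 1484, 1302, 2760, 1066, 1341, 1357, 1072, 1329, 1352] := rup _
  (.cons (t3 10 21 24) (.cons (t3 10 21 38) (.cons (t3 10 21 30) (.cons s202 (.cons (t1 21 29 38) (.cons a222 (.cons a130 (.cons s84 (.cons (t3 11 21 29) (.cons s216 .nil)))))))))) (by decide +kernel)
theorem s424 : Valid A [1456, 2760, 1454, 1046, 1066, 3133, 3004, 1341, 1357, 3149, 1072, 1329, 1352] := rup _
  (.cons (t2 10 11 24) (.cons (t3 11 24 38) (.cons (t3 11 24 30) (.cons s231 (.cons s423 (.cons (t2 10 21 24) (.cons (t2 10 21 38) (.cons a137 (.cons (t3 21 29 38) (.cons a142 (.cons a130 (.cons (t3 8 11 29) .nil)))))))))))) (by decide +kernel)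
theorem s425 : Valid A [2786, 1454, 1046, 1066, 938, 3127, 3133, 3004, 1341, 4709, 1124, 1357, 3149, 968, 1072, 1329, 1352, 4707, 3170] := rup _
  (.cons (t1 21 36 49) (.cons s201 (.cons (t2 5 21 49) (.cons s424 (.cons (t2 11 24 49) (.cons (t3 10 11 24) (.cons (t1 11 24 38) (.cons (t1 11 24 27) (.cons a215 (.cons a389 (.cons a133 (.cons (t1 5 11 38) (.cons (t1 11 27 29) (.cons (t2 5 11 21) (.cons (t1 5 11 27) (.cons (t1 11 21 28) (.cons (t1 11 24 28) (.cons a199 (.cons a200 (.cons (t1 11 21 29) (.cons (t1 5 27 42) (.cons a487 (.cons (t2 24 38 42) (.cons a142 (.cons a126 (.cons (t1 28 36 50) (.cons a367 (.cons (t1 8 29 50) (.cons (t1 29 42 50) (.cons (t2 28 42 50) .nil)))))))))))))))))))))))))))))) (by decide +kernel)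
theorem s426 : Valid A [918, 938, 5731, 399, 3127, 3133, 3004, 4709, 1124, 1357, 3149, 2531, 968, 943, 913, 916, 3938, 1072, 1329, 1378, 4707, 3170] := rup _
  (.cons (t1 7 8 21) (.cons a161 (.cons a159 (.cons (t2 24 34 38) (.cons a168 (.cons (t1 30 34 49) (.cons a162 (.cons (t1 10 36 49) (.cons (t1 7 8 11) (.cons (t3 7 11 23) (.cons s425 (.cons (t2 21 30 49) (.cons (t3 21 36 49) (.cons (t3 19 21 49) (.cons a204 (.cons a343 (.cons a344 (.cons a207 (.cons (t3 5 21 49) (.cons (t3 19 45 49) (.cons s156 (.cons (t2 5 7 10) (.cons a88 (.cons s133 (.cons a79 (.cons (t3 10 11 30) (.cons (t3 2 21 49) (.cons (t3 2 44 49) (.cons s231 (.cons a70 (.cons a222 (.cons (t1 2 21 52) .nil)))))))))))))))))))))))))))))))) (by decide +kernel)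
theorem s427 : Valid A [938, 5731, 399, 3127, 3133, 3004, 4709, 1124, 1357, 3149, 2531, 968, 994, 943, 913, 916, 3938, 1072, 1329, 1378, 4707, 3170] := rup _
  (.cons (t1 24 36 49) (.cons (t1 7 8 21) (.cons (t3 7 21 23) (.cons s426 (.cons a384 (.cons (t1 7 11 21) (.cons (t1 7 11 49) (.cons (t3 0 7 23) (.cons a505 (.cons s7 (.cons s202 (.cons (t2 21 24 36) (.cons (t2 21 24 49) (.cons s201 (.cons (t2 5 21 49) (.cons (t2 5 11 21) (.cons a215 .nil))))))))))))))))) (by decide +kernel)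
theorem s428 : Valid A [1229, 1201, 988, 3165, 1378, 4707, 2225, 3170] := rup _
  (.cons (t1 24 46 49) (.cons a189 (.cons (t3 10 24 46) (.cons (t3 9 10 24) (.cons a247 (.cons (t1 10 24 50) (.cons a248 (.cons (t2 9 24 49) (.cons (t1 7 24 46) (.cons (t1 7 9 24) (.cons (t1 17 24 46) (.cons s138 (.cons (t3 18 36 49) (.cons s63 (.cons (t1 7 10 46) (.cons a486 (.cons (t3 10 17 46) (.cons a195 (.cons (t2 17 23 46) (.cons (t2 10 17 23) (.cons a183 (.cons (t1 8 10 46) (.cons a399 (.cons (t2 8 18 23) (.cons a185 (.cons (t2 7 8 18) (.cons s193 (.cons a349 (.cons (t2 18 19 36) (.cons (t2 18 19 49) (.cons a471 (.cons (t1 18 19 30) (.cons a347 (.cons (t1 10 17 19) (.cons a485 (.cons (t2 8 23 36) (.cons (t2 7 8 36) (.cons (t3 8 18 49) (.cons (t2 7 8 49) (.cons s143 (.cons a469 (.cons (t1 8 24 46) (.cons (t1 9 38 49) (.cons (t2 9 24 38) (.cons (t2 9 10 38) (.cons (t3 7 9 38) (.cons (t1 9 38 50) (.cons a159 (.cons s414 (.cons a329 (.cons (t2 24 34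 38) (.cons (t1 7 8 50) (.cons (t1 18 49 50) (.cons (t1 36 49 50) (.cons a168 (.cons a434 (.cons (t1 30 34 49) (.cons (t3 34 36 49) (.cons (t3 19 34 49) (.cons (t3 18 34 49) (.cons (t1 34 49 50) (.cons (t1 18 19 39) (.cons s338 (.cons a156 (.cons a333 (.cons (t1 23 30 46) (.cons (t3 24 30 46) (.cons (t3 17 30 46) (.cons (t2 18 27 34) (.cons (t3 27 34 50) (.cons (t2 17 24 39) (.cons (t2 17 30 39) (.cons a313 (.cons a270 (.cons a49 (.cons (t1 24 27 44) (.cons (t1 3 24 39) (.cons a276 (.cons a64 (.cons (t2 18 44 49) (.cons (t1 3 7 23) (.cons s427 (.cons a210 (.cons (t1 7 21 36) (.cons (t1 7 21 24) (.cons (t2 7 8 21) (.cons (t3 7 19 21) (.cons (t1 3 7 21) (.cons a203 (.cons a143 (.cons a62 (.cons a63 (.cons s32 (.cons (t3 5 19 36) (.cons (t3 5 34 36) (.cons a134 (.cons (t1 3 23 45) (.cons a341 (.cons (t2 34 36 51) (.cons (t1 5 19 45) (.cons (t2 5 34 45) (.cons (t1 10 24 29) (.cons (t1 17 24 29) (.cons (t3 10 19 45) (.cons (t3 19 30 45)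 (.cons (t1 34 45 51) (.cons a140 (.cons (t2 10 22 29) (.cons a395 (.cons (t2 22 45 51) (.cons s126 (.cons (t2 22 23 45) (.cons (t3 23 30 51) (.cons a495 .nil)))))))))))))))))))))))))))))))))))))))))))))))))))))))))))))))))))))))))))))))))))))))))))))))))))))))))))))))))) (by decide +kernel)
theorem s429 : Valid A [1125, 962, 913] := rup _
  (.cons a106 (.cons a427 (.cons (t2 7 8 15) (.cons (t2 7 8 41) (.cons a109 (.cons a446 (.cons a96 .nil))))))) (by decide +kernel)
theorem s430 : Valid A [988, 3165, 1378, 4707, 2225, 3170] := rup _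
  (.cons (t1 24 46 49) (.cons (t1 17 24 46) (.cons s138 (.cons (t3 18 36 49) (.cons a486 (.cons a189 (.cons (t3 10 17 46) (.cons a195 (.cons (t2 17 23 46) (.cons (t2 10 17 23) (.cons a183 (.cons (t1 8 10 46) (.cons a399 (.cons (t2 8 18 23) (.cons (t3 8 18 49) (.cons a485 (.cons (t2 8 23 36) (.cons s63 (.cons (t1 24 36 49) (.cons (t1 7 10 46) (.cons (t1 7 24 46) (.cons a185 (.cons s143 (.cons s191 (.cons (t2 7 8 49) (.cons (t2 7 8 18) (.cons (t2 7 8 36) (.cons s150 (.cons s193 (.cons (t3 10 19 46) (.cons (t1 10 17 19) (.cons a349 (.cons (t2 18 19 49) (.cons s429 (.cons (t2 7 8 50) (.cons a429 (.cons a330 (.cons (t3 24 49 50) (.cons (t1 18 49 50) (.cons (t1 36 49 50) (.cons (t2 19 38 49) (.cons s188 (.cons s189 (.cons a434 (.cons a173 (.cons (t1 7 23 27) (.cons (t1 3 36 50) (.cons (t1 18 19 39) (.cons (t3 10 38 46) (.cons (t3 24 38 46) (.cons a333 (.cons a159 (.cons (t2 17 24 39) (.cons (t3 17 23 39) (.cons (t2 24 34 38) (.cons a301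 (.cons a325 (.cons s413 (.cons (t3 24 27 39) (.cons (t3 17 27 39) (.cons s141 (.cons a37 (.cons a52 (.cons (t1 3 24 27) (.cons (t1 33 36 49) (.cons s145 (.cons a312 (.cons (t3 6 24 48) (.cons s396 (.cons s428 (.cons (t1 9 24 38) .nil))))))))))))))))))))))))))))))))))))))))))))))))))))))))))))))))))))))) (by decide +kernel)
theorem s431 : Valid A [1124, 996, 912, 962] := rup _
  (.cons s184 (.cons a426 (.cons (t1 7 41 50) (.cons s222 .nil)))) (by decide +kernel)
theorem s432 : Valid A [996, 962, 994, 912, 1122] := rup _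
  (.cons a429 (.cons (t3 8 49 50) (.cons s431 .nil))) (by decide +kernel)
theorem s433 : Valid A [481, 439, 3556, 2404, 3044, 444, 3040, 2400, 2364] := rup _
  (.cons (t2 3 18 48) (.cons (t2 3 23 48) (.cons s139 (.cons (t3 3 23 27) (.cons a433 (.cons (t1 23 39 50) (.cons (t1 27 39 50) (.cons a325 .nil)))))))) (by decide +kernel)
theorem s434 : Valid A [3165, 1378, 4707, 2225, 3170] := rup _
  (.cons a480 (.cons a195 (.cons (t1 24 46 49) (.cons (t1 17 24 46) (.cons (t2 17 23 46) (.cons a189 (.cons a183 (.cons s138 (.cons (t3 10 17 46) (.cons (t2 10 17 23) (.cons (t3 10 24 46) (.cons (t1 8 10 46) (.cons a469 (.cons a471 (.cons (t3 18 36 49) (.cons (t2 18 48 49) (.cons a399 (.cons a486 (.cons a521 (.cons (t2 8 18 23) (.cons (t3 8 18 49) (.cons s430 (.cons a186 (.cons s42 (.cons s56 (.cons (t2 7 46 49) (.cons (t3 7 10 46) (.cons (t2 7 23 46) (.cons (t3 7 17 46) (.cons (t3 7 24 46) (.cons (t2 10 34 46) (.cons a65 (.cons a67 (.cons s158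 (.cons (t3 3 7 17) (.cons (t3 3 7 46) (.cons (t1 30 34 49) (.cons (t3 34 36 49) (.cons (t3 18 34 49) (.cons s338 (.cons a162 (.cons (t1 3 30 46) (.cons a393 (.cons (t1 10 24 33) (.cons (t2 7 10 33) (.cons s432 (.cons (t3 7 23 50) (.cons (t2 7 24 50) (.cons (t3 7 18 50) (.cons a314 (.cons a316 (.cons (t2 17 24 27) (.cons a36 (.cons s433 (.cons a44 (.cons (t3 24 33 48) (.cons s176 (.cons (t1 33 34 49) (.cons (t1 33 34 36) (.cons (t3 18 33 34) (.cons a311 (.cons a53 (.cons (t1 3 18 33) (.cons a304 (.cons s139 (.cons (t1 6 7 24) (.cons (t1 6 7 50) (.cons a433 (.cons a302 (.cons (t3 6 39 50) .nil)))))))))))))))))))))))))))))))))))))))))))))))))))))))))))))))))))))) (by decide +kernel)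
theorem s435 : Valid A [1986, 4323, 962, 3554, 950] := rup _
  (.cons a109 (.cons (t3 15 33 49) (.cons (t1 7 15 27) (.cons a113 .nil)))) (by decide +kernel)
theorem s436 : Valid A [962, 3554, 3524, 993, 4451, 950, 945, 2353] := rup _
  (.cons (t3 7 18 24) (.cons (t1 7 24 33) (.cons (t3 7 33 48) (.cons s176 (.cons (t1 33 34 49) (.cons (t1 27 33 34) (.cons s435 (.cons a96 (.cons (t2 15 27 33) (.cons (t2 15 24 33) (.cons a446 (.cons (t2 7 18 41) (.cons a524 (.cons (t3 14 18 24) (.cons (t2 7 14 18) (.cons a92 (.cons a317 (.cons (t2 14 15 27) .nil)))))))))))))))))) (by decide +kernel)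
theorem s437 : Valid A [444, 3909, 3939, 3913, 993, 439, 4451, 950, 945, 968, 2353] := rup _
  (.cons a65 (.cons (t3 3 30 34) (.cons (t3 3 30 49) (.cons (t3 3 30 36) (.cons (t1 3 27 34) (.cons (t1 3 27 49) (.cons s436 (.cons (t3 3 7 33) (.cons (t1 7 33 36) (.cons a52 .nil)))))))))) (by decide +kernel)
theorem s438 : Valid A [3933, 993, 1124, 1117, 439, 5092, 4451, 950, 945, 968, 6372, 2353, 5987, 4701] := rup _
  (.cons (t3 34 46 49) (.cons (t3 30 36 46) (.cons (t1 30 46 49) (.cons (t3 30 34 46) (.cons (t3 8 30 46) (.cons s437 (.cons a50 (.cons (t1 3 30 36) (.cons (t1 3 30 49) (.cons (t1 3 30 34) (.cons (t3 3 8 30) (.cons (t3 3 39 49) (.cons a54 (.cons (t2 3 27 49) (.cons s185 (.cons (t1 3 8 33) (.cons (t3 3 33 34) (.cons a114 (.cons a426 (.cons s176 (.cons (t1 15 46 49) (.cons (t2 8 41 46) (.cons (t3 8 33 41) (.cons (t3 7 33 48) (.cons (t1 15 41 46) (.cons a112 (.cons a95 .nil))))))))))))))))))))))))))) (by decide +kernel)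
theorem s439 : Valid A [993, 1124, 1117, 2511, 439, 3043, 1348, 5092, 2382, 4451, 950, 945, 968, 6372, 2353, 2402, 5987, 4701] := rup _
  (.cons (t3 34 46 49) (.cons (t3 7 18 24) (.cons a65 (.cons (t3 3 7 18) (.cons s438 (.cons (t3 30 46 49) (.cons (t1 30 34 46) (.cons a468 (.cons a162 (.cons (t1 7 18 30) (.cons (t3 3 18 30) (.cons (t1 18 30 39) (.cons a394 (.cons a48 (.cons (t2 7 30 33) (.cons (t3 3 19 39) (.cons (t2 3 27 39) (.cons (t2 3 19 27) (.cons a327 (.cons a155 (.cons (t3 23 27 49) (.cons s436 .nil)))))))))))))))))))))) (by decide +kernel)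
theorem s440 : Valid A [5348, 3554, 962, 1123, 1124, 950, 997] := rup _
  (.cons (t2 7 41 50) (.cons a426 (.cons a446 (.cons (t2 8 41 49) (.cons a96 (.cons (t1 33 41 49) (.cons s435 .nil))))))) (by decide +kernel)
theorem s441 : Valid A [1071, 2511, 439, 1348, 3037, 950, 2405, 945, 3044, 968, 997, 2353, 2402, 5987, 4701, 6242] := rup _
  (.cons (t1 23 46 49) (.cons (t3 7 18 24) (.cons a434 (.cons (t2 7 18 39) (.cons a435 (.cons a430 (.cons s158 (.cons a67 (.cons a431 (.cons (t1 8 23 46) (.cons (t2 8 23 50) (.cons (t1 8 23 49) (.cons s439 (.cons s150 (.cons (t1 7 24 48) (.cons a44 (.cons (t2 3 48 49) (.cons (t1 3 27 49) (.cons s440 (.cons (t3 18 41 50) (.cons s185 (.cons a524 (.cons (t1 27 39 49) (.cons (t2 7 14 18) (.cons a317 (.cons a439 (.cons (t2 14 27 39) .nil))))))))))))))))))))))))))) (by decide +kernel)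
theorem s442 : Valid A [924, 3534, 974, 950] := rup _
  (.cons a317 (.cons a439 (.cons (t2 14 27 39) .nil))) (by decide +kernel)
theorem s443 : Valid A [2381, 2524, 2342] := rup _
  (.cons s79 (.cons (t3 18 19 38) (.cons a173 .nil))) (by decide +kernel)
theorem s444 : Valid A [2778, 426, 2474, 422] := rup _
  (.cons a341 (.cons a60 (.cons (t3 3 19 45) .nil))) (by decide +kernel)
theorem s445 : Valid A [939, 461, 4685, 422, 917, 913, 1073, 1116, 934, 3037, 931, 945, 968, 3144, 4707] := rup _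
  (.cons a65 (.cons a480 (.cons a210 (.cons (t1 7 21 36) (.cons (t2 7 10 21) (.cons (t2 7 8 21) (.cons (t3 7 19 21) (.cons (t2 7 17 21) (.cons (t2 7 21 24) (.cons (t3 3 7 21) (.cons a203 (.cons a143 (.cons (t2 17 21 29) (.cons (t1 5 36 49) (.cons (t1 5 36 38) (.cons a216 (.cons a217 (.cons (t3 5 11 38) (.cons (t1 11 36 49) (.cons s444 (.cons (t3 21 36 45) (.cons (t1 10 21 45) (.cons (t2 21 24 45) (.cons (t1 17 21 45) (.cons (t3 21 29 45) (.cons a379 (.cons a396 (.cons (t3 11 24 45) (.cons (t2 11 29 45) (.cons (t2 17 22 45) (.cons s308 (.cons a130 (.cons a138 (.cons a59 (.cons (t3 3 29 38) (.cons (t3 3 22 29) .nil)))))))))))))))))))))))))))))))))))) (by decide +kernel)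
theorem s446 : Valid A [1083, 4950, 982, 34, 23, 1100, 913, 1059, 1045] := rup _
  (.cons s4 (.cons (t1 7 8 29) (.cons (t2 8 17 29) (.cons (t2 8 10 29) (.cons (t1 8 29 38) (.cons a147 (.cons a130 (.cons (t1 4 17 29) (.cons (t1 4 7 29) (.cons (t2 11 38 43) (.cons a509 (.cons a454 (.cons (t2 0 4 11) (.cons (t2 4 11 43) .nil)))))))))))))) (by decide +kernel)
theorem s447 : Valid A [2779, 938, 3917, 4963, 1100, 2515, 3005, 3913, 445, 483, 431, 457, 3154, 913, 1073, 1059, 1045, 945, 942, 968, 994, 2225] := rup _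
  (.cons (t3 7 21 24) (.cons (t1 7 8 21) (.cons (t3 3 38 49) (.cons (t3 7 17 24) (.cons a61 (.cons a63 (.cons a344 (.cons (t3 7 21 45) (.cons (t3 8 21 45) (.cons (t3 3 45 49) (.cons (t1 3 36 45) (.cons (t3 3 21 36) (.cons (t3 3 21 23) (.cons (t3 3 21 30) (.cons (t3 3 21 38) (.cons (t3 19 21 41) (.cons s132 (.cons s297 (.cons s201 (.cons s294 (.cons s271 (.cons a79 (.cons (t1 2 38 49) (.cons (t3 7 11 17) (.cons a383 (.cons (t1 5 21 45) (.cons (t3 0 7 17) (.cons (t2 7 24 43) (.cons (t2 17 24 43) (.cons (t2 8 24 43) (.cons (t3 2 5 45) (.cons (t2 2 8 45) (.cons s4 (.cons a82 (.cons (t2 2 5 43) (.cons (t3 2 38 43) (.cons s446 (.cons a142 (.cons s7 (.cons (t1 21 29 38) (.cons (t1 11 21 29) (.cons a505 (.cons a130 (.cons s247 (.cons (t2 0 11 23) (.cons (t3 11 30 38) (.cons a239 (.cons a373 (.cons (t1 23 30 52) (.cons (t3 11 16 36) (.cons a375 (.cons s149 (.cons a222 (.cons (t2 16 17 43) (.cons s30 (.cons s84 (.cons (t3 5 28 43) (.cons a487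 (.cons a456 (.cons (t1 16 28 36) .nil)))))))))))))))))))))))))))))))))))))))))))))))))))))))))))) (by decide +kernel)
theorem s448 : Valid A [1485, 2747, 2778, 461, 4685] := rup _
  (.cons a131 (.cons (t3 11 36 38) (.cons (t3 3 11 38) (.cons (t2 3 29 38) (.cons a381 (.cons (t1 3 21 29) (.cons (t2 3 11 45) (.cons a60 .nil)))))))) (by decide +kernel)
theorem s449 : Valid A [3788, 1484, 2747, 938, 3021, 942] := rup _
  (.cons (t3 7 21 29) (.cons a130 (.cons (t2 23 29 38) (.cons s4 (.cons (t1 7 11 29) (.cons (t2 21 23 29) (.cons a383 (.cons s294 .nil)))))))) (by decide +kernel)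

end Pool.Agent.Helper50.Canon.CD
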