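import Mathlib
import Pool.Agent.Helper50.Canon.CD.C3

set_option autoImplicit false

namespace Pool.Agent.Helper50.Canon.CD

theorem s450 : Valid A [2747, 2778, 938, 461, 2508, 4685, 3021, 4963, 934, 942] := rup _
  (.cons (t1 21 29 45) (.cons s448 (.cons (t3 11 38 49) (.cons (t1 11 36 38) (.cons s449 (.cons (t1 29 38 49) (.cons (t1 19 29 38) (.cons (t3 29 36 38) (.cons (t1 21 29 49) (.cons (t1 19 21 29) (.cons (t1 21 29 36) (.cons (t1 29 36 45) (.cons a341 (.cons a204 (.cons a379 (.cons (t3 7 19 45) (.cons a207 (.cons (t3 5 21 49) (.cons (t1 7 11 45) (.cons (t2 5 7 11) (.cons a215 .nil))))))))))))))))))))) (by decide +kernel)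
theorem s451 : Valid A [1484, 827, 1851, 3788, 1339, 2235, 955, 2746, 1834, 938, 1213, 1225, 3917, 3939, 945, 968, 994, 5987] := rup _
  (.cons (t3 7 21 24) (.cons a134 (.cons a151 (.cons (t2 7 29 32) (.cons a147 (.cons (t1 4 14 29) (.cons (t1 11 30 38) (.cons a130 (.cons (t3 11 24 29) (.cons (t2 11 21 29) (.cons (t3 10 11 29) (.cons (t3 11 17 29) (.cons (t3 7 11 29) (.cons (t3 6 11 29) (.cons (t3 11 14 29) (.cons a389 (.cons a377 (.cons a299 (.cons (t1 11 14 35) (.cons (t1 11 24 28) (.cons (t1 11 14 28) (.cons a371 (.cons (t2 7 11 35) (.cons a407 (.cons a538 (.cons (t1 16 30 49) (.cons (t3 9 16 30) (.cons a412 (.cons a254 (.cons a259 (.cons (t3 21 32 35) (.cons (t3 4 16 49) (.cons (t3 9 32 36) (.cons (t1 4 28 49) (.cons (t2 21 32 36) (.cons s201 (.cons (t2 5 11 21) (.cons s314 .nil)))))))))))))))))))))))))))))))))))))) (by decide +kernel)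
theorem s452 : Valid A [1485, 14, 2778, 461, 4685, 3021, 972] := rup _
  (.cons (t1 7 11 38) (.cons (t3 11 36 38) (.cons (t3 11 23 38) (.cons (t3 3 11 38) (.cons a383 (.cons a381 (.cons (t1 0 11 23) (.cons (t3 0 3 11) (.cons (t2 3 11 45) (.cons a508 (.cons (t1 0 3 21) (.cons a60 .nil)))))))))))) (by decide +kernel)
theorem s453 : Valid A [3173, 942, 997, 2213, 3164, 1378, 3144, 4707, 2225] := rup _
  (.cons (t3 7 23 50) (.cons a177 (.cons (t2 36 46 49) (.cons a430 (.cons (t1 7 46 49) (.cons (t1 7 36 49) (.cons (t2 17 18 24) (.cons s78 (.cons (t3 18 36 49) (.cons (t1 10 36 49) (.cons (t3 10 36 46) (.cons (t2 17 24 46) (.cons a480 (.cons a314 (.cons (t3 7 24 50) (.cons (t1 18 24 50) (.cons (t1 17 24 50) (.cons (t1 23 24 50) (.cons (t2 7 24 27) (.cons (t2 17 24 27) (.cons a65 (.cons s158 (.cons (t3 7 17 24) (.cons (t3 7 18 24) (.cons a434 (.cons (t2 18 23 50) (.cons a193 (.cons (t3 3 7 17) (.cons (t3 34 36 49) (.cons (t1 10 34 49) (.cons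 (t3 34 46 49) (.cons a346 (.cons a348 (.cons (t2 17 18 39) (.cons (t2 7 18 39) (.cons (t1 18 24 39) (.cons a483 (.cons (t1 23 46 49) (.cons (t1 10 23 46) (.cons a36 (.cons (t3 23 34 46) (.cons (t1 7 17 19) (.cons a333 (.cons s441 (.cons (t3 8 23 46) (.cons a399 (.cons a181 (.cons s182 (.cons a185 (.cons (t2 8 10 17) (.cons (t1 8 17 18) (.cons (t1 8 17 50) (.cons (t1 7 8 10) (.cons (t1 10 17 18) (.cons (t1 10 17 50) (.cons a427 (.cons s429 (.cons a247 (.cons (t1 8 24 41) (.cons a112 (.cons a448 (.cons (t3 3 7 33) (.cons (t2 7 18 33) (.cons (t1 7 33 36) (.cons (t2 7 10 33) (.cons (t3 9 10 18) (.cons a95 (.cons a52 (.cons a392 (.cons a393 (.cons (t3 3 23 36) (.cons (t1 3 36 49) (.cons (t3 3 34 36) (.cons (t1 3 36 46) (.cons (t2 18 30 33) (.cons a162 (.cons (t2 3 23 27) (.cons (t2 3 27 49) (.cons (t3 3 30 34) (.cons (t2 3 27 34) (.cons (t2 3 27 46) (.cons a468 (.cons (t1 30 34 36) (.cons (t3 23 30 34) (.cons a326 (.cons a327 (.cons a114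 (.cons a50 (.cons a155 (.cons (t3 23 39 49) (.cons (t1 15 41 49) (.cons (t1 3 19 39) (.cons (t3 19 27 46) (.cons (t3 19 27 49) (.cons a442 (.cons (t1 19 39 41) (.cons s442 (.cons (t2 7 8 14) (.cons s443 (.cons (t2 7 18 38) (.cons a265 (.cons (t2 8 18 38) (.cons s414 (.cons (t3 23 38 49) (.cons (t3 36 38 49) (.cons (t1 19 38 49) (.cons (t3 30 38 49) (.cons (t3 3 38 49) (.cons (t3 9 36 38) (.cons (t3 9 30 38) (.cons s445 (.cons (t1 7 8 21) (.cons (t3 7 21 24) (.cons (t1 7 14 21) (.cons s447 (.cons s450 (.cons a142 (.cons a134 (.cons s3 (.cons (t1 7 8 29) (.cons (t2 8 17 29) (.cons (t2 8 10 29) (.cons (t1 8 29 38) (.cons (t2 8 14 29) (.cons (t1 0 7 8) (.cons s452 (.cons s451 (.cons (t1 6 7 29) (.cons (t1 6 24 29) (.cons a304 (.cons a300 (.cons (t2 6 39 49) .nil)))))))))))))))))))))))))))))))))))))))))))))))))))))))))))))))))))))))))))))))))))))))))))))))))))))))))))))))))))))))))))))))))))) (by decide +kernel)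
theorem s454 : Valid A [913, 944, 994, 2268, 3170] := rup _
  (.cons a188 (.cons s162 (.cons a181 .nil))) (by decide +kernel)
theorem s455 : Valid A [4963, 938, 3788, 1484, 2746, 1072, 1123, 1097, 932, 2353] := rup _
  (.cons a130 (.cons (t3 8 38 49) (.cons (t3 11 38 49) (.cons (t2 8 29 38) (.cons a142 (.cons (t2 8 21 36) (.cons (t2 8 21 49) (.cons (t1 8 21 24) (.cons a204 (.cons a134 (.cons a207 (.cons (t3 5 21 49) (.cons (t1 18 24 29) (.cons (t2 5 7 18) (.cons a215 (.cons (t3 11 18 29) (.cons (t1 5 11 18) .nil))))))))))))))))) (by decide +kernel)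
theorem s456 : Valid A [1082, 918, 938, 1467, 2746, 1123, 1097] := rup _
  (.cons a142 (.cons (t3 8 29 49) (.cons (t2 8 21 36) (.cons (t2 8 21 49) (.cons (t2 11 29 49) (.cons a204 (.cons a207 (.cons (t3 5 21 49) (.cons (t2 5 7 11) (.cons a215 .nil)))))))))) (by decide +kernel)
theorem s457 : Valid A [938, 3788, 1484, 2746, 1072, 1123, 1097, 1120, 1044, 932, 942, 997, 2353] := rup _
  (.cons a130 (.cons s4 (.cons s455 (.cons s414 (.cons s53 (.cons (t3 7 23 38) (.cons (t2 7 11 38) (.cons a383 (.cons s294 (.cons (t1 21 23 29) (.cons s456 (.cons (t2 8 23 29) (.cons a399 (.cons a520 (.cons (t2 10 23 38) (.cons s88 (.cons a158 (.cons (t2 10 23 34) .nil)))))))))))))))))) (by decide +kernel)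
theorem s458 : Valid A [939, 2746, 1072, 912, 944] := rup _
  (.cons (t1 7 21 24) (.cons (t3 7 8 21) (.cons s202 .nil))) (by decide +kernel)
theorem s459 : Valid A [2778, 2342, 1451, 2347, 2760, 932, 968] := rup _
  (.cons s384 (.cons s123 (.cons (t3 7 36 45) .nil))) (by decide +kernel)
theorem s460 : Valid A [3020, 1457, 1451, 4685, 4957, 1101, 2347, 2737, 2760, 2786, 938, 1120, 1044, 932, 944, 942, 994, 2376, 3164, 4707] := rup _
  (.cons a34 (.cons (t1 7 36 49) (.cons (t3 23 38 46) (.cons (t1 23 36 38) (.cons (t2 8 23 38) (.cons a193 (.cons a483 (.cons a399 (.cons a520 (.cons (t3 21 23 24) (.cons (t3 11 23 24) (.cons (t2 23 24 48) (.cons (t3 10 18 23) (.cons (t3 7 23 48) (.cons a239 (.cons a45 (.cons a350 (.cons s150 (.cons (t2 21 23 52) (.cons a64 (.cons a345 (.cons (t2 3 7 36) (.cons (t2 3 7 33) (.cons a52 (.cons (t1 33 36 49) (.cons a311 (.cons a304 (.cons (t2 6 7 21) (.cons s459 (.cons (t3 7 21 45) (.cons (t3 6 21 45) (.cons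 (t1 21 45 49) (.cons (t3 20 21 45) (.cons (t1 21 45 52) (.cons s132 (.cons a29 (.cons a79 (.cons (t2 7 19 20) (.cons (t1 6 7 20) (.cons (t2 2 6 45) (.cons (t2 2 45 52) (.cons a16 (.cons (t2 6 20 52) (.cons a71 .nil)))))))))))))))))))))))))))))))))))))))))))) (by decide +kernel)
theorem s461 : Valid A [2779, 534, 522, 1454, 1071, 3043, 1451, 1338, 954, 2347, 683, 2737, 2760, 1066, 938, 1352] := rup _
  (.cons a209 (.cons (t3 8 21 45) (.cons (t1 5 21 45) (.cons s124 (.cons (t2 4 7 29) (.cons a146 (.cons (t1 4 10 11) (.cons s216 (.cons s84 (.cons (t2 21 28 45) (.cons (t2 21 24 28) (.cons (t2 11 21 52) (.cons a368 (.cons a238 (.cons (t3 28 42 45) (.cons (t1 8 23 52) (.cons (t2 23 49 52) (.cons a356 (.cons (t2 8 42 52) (.cons a236 .nil)))))))))))))))))))) (by decide +kernel)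
theorem s462 : Valid A [1066, 3789, 1484, 2746, 1123, 1097, 1120, 1044, 1117, 912, 944, 942, 994, 2353, 2376, 3164, 1352, 4707, 2225] := rup _
  (.cons (t3 21 29 38) (.cons s12 (.cons a132 (.cons (t2 8 24 46) (.cons s458 (.cons (t1 7 18 24) (.cons (t1 7 36 49) (.cons (t3 8 21 49) (.cons (t3 8 21 36) (.cons s202 (.cons a142 (.cons s201 (.cons (t3 18 21 24) (.cons (t3 17 21 24) (.cons (t3 7 8 29) (.cons (t2 8 29 46) (.cons (t2 8 29 49) (.cons (t2 8 29 36) (.cons (t3 8 10 29) (.cons (t1 8 29 38) (.cons s26 (.cons (t2 5 21 49) (.cons (t1 5 21 24) (.cons (t2 5 21 38) (.cons (t3 5 17 21) (.cons (t2 29 38 46) (.cons (t2 29 38 49) (.cons (t3 11 29 49) (.cons (t2 29 36 38) (.cons (t1 21 24 51) (.cons a215 (.cons (t2 5 11 21) (.cons (t2 5 11 17) (.cons (t2 5 11 24) (.cons a34 (.cons a377 (.cons (t3 20 21 24) (.cons (t2 5 11 16) (.cons a22 (.cons s460 (.cons (t1 23 38 49) (.cons (t3 8 23 38) (.cons (t1 11 23 38) (.cons (t1 0 23 38) (.cons (t1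 21 23 38) (.cons a505 (.cons (t3 0 17 21) (.cons a511 (.cons (t1 4 5 17) (.cons (t1 4 11 17) (.cons s461 (.cons (t2 5 21 45) (.cons s384 (.cons s177 (.cons (t2 36 38 45) (.cons (t1 8 36 45) (.cons (t1 36 45 51) (.cons (t3 20 45 51) (.cons a357 (.cons (t3 8 20 45) (.cons (t3 20 36 51) (.cons (t2 36 42 45) (.cons (t2 38 42 45) (.cons a27 (.cons a198 (.cons (t3 16 20 36) (.cons (t3 5 16 42) (.cons a353 .nil)))))))))))))))))))))))))))))))))))))))))))))))))))))))))))))))))))) (by decide +kernel)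
theorem s463 : Valid A [1484, 2746, 1123, 1097, 1120, 1044, 1117, 912, 944, 942, 997, 2353, 2376, 3164, 1352, 4707, 2225] := rup _
  (.cons (t2 8 24 46) (.cons s458 (.cons (t1 7 18 24) (.cons a430 (.cons s457 (.cons (t3 21 29 38) (.cons s462 (.cons (t2 8 21 49) (.cons (t1 8 21 24) (.cons (t3 21 38 49) (.cons a134 (.cons s414 (.cons (t1 24 29 38) (.cons (t3 7 24 38) .nil)))))))))))))) (by decide +kernel)
theorem s464 : Valid A [1338, 1307, 3643, 1464, 22, 34, 2235, 1736, 2248] := rup _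
  (.cons (t1 10 17 29) (.cons (t1 10 28 29) (.cons (t1 10 13 17) (.cons a387 (.cons s359 (.cons (t1 0 10 11) (.cons (t3 4 17 29) (.cons a509 (.cons a146 (.cons (t1 0 4 10) .nil)))))))))) (by decide +kernel)
theorem s465 : Valid A [2778, 1492, 1450, 919, 1480, 34, 2363, 2235, 1736, 1080, 3131, 1322, 2761, 1067, 1466, 1072, 1123, 932, 968, 2248] := rup _
  (.cons a385 (.cons a140 (.cons (t1 11 24 29) (.cons (t2 8 21 49) (.cons a504 (.cons (t2 8 21 45) (.cons (t1 21 36 45) (.cons a379 (.cons s297 (.cons (t3 11 29 45) (.cons (t3 11 42 45) (.cons a30 (.cons a32 (.cons a356 (.cons (t2 11 20 45) (.cons (t2 8 42 49) (.cons (t3 8 24 42) (.cons (t3 8 28 42) (.cons a33 (.cons a235 (.cons a367 (.cons (t1 20 21 49) (.cons (t1 10 20 21) (.cons (t1 13 20 21) (.cons (t2 20 49 52) (.cons (t3 11 24 28) (.cons (t2 24 28 29) (.cons a18 (.cons s464 (.cons (t3 10 18 29) (.cons (t2 10 22 29) (.cons (t2 10 29 45) (.cons a350 (.cons a395 (.cons a345 (.cons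 (t3 7 22 45) (.cons (t1 7 19 20) (.cons a227 (.cons a14 (.cons (t1 7 19 52) .nil)))))))))))))))))))))))))))))))))))))))) (by decide +kernel)
theorem s466 : Valid A [1339, 935, 6375, 5863, 1370, 4956, 2874, 2363, 954, 988, 2402] := rup _
  (.cons (t1 7 10 29) (.cons (t3 10 18 29) (.cons (t2 10 22 29) (.cons s128 (.cons a395 (.cons a163 (.cons (t1 22 45 51) (.cons (t1 10 18 30) (.cons a473 (.cons a468 (.cons (t1 30 49 51) .nil))))))))))) (by decide +kernel)
theorem s467 : Valid A [4962, 2380, 34, 2363, 954, 2235, 1080, 655, 3131, 1322, 2781, 2761, 1067, 1485, 1072, 1123, 932, 942, 997, 2402, 5987, 2248, 4707] := rup _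
  (.cons a140 (.cons (t2 8 21 49) (.cons a503 (.cons (t1 13 36 49) (.cons a204 (.cons a133 (.cons a430 (.cons (t1 7 46 49) (.cons (t1 7 36 49) (.cons (t1 38 46 49) (.cons (t2 36 38 49) (.cons s414 (.cons (t2 8 38 49) (.cons (t2 11 38 49) (.cons (t2 11 36 38) (.cons (t3 7 23 38) (.cons (t3 7 11 38) (.cons (t1 5 7 38) (.cons (t1 8 11 38) (.cons (t1 11 21 49) (.cons (t2 11 23 38) (.cons a384 (.cons a199 (.cons (t3 0 7 38) (.cons (t2 11 38 42) (.cons s465 (.cons a344 (.cons (t1 8 21 45) (.cons (t3 5 21 45) (.cons (t2 21 45 49) (.cons (t3 10 21 45) (.cons (t3 19 21 46) (.cons s177 (.cons (t2 45 49 51) (.cons a173 (.cons (t1 8 45 51) (.cons (t3 7 19 38) (.cons (t1 18 19 38) (.cons (t1 0 19 38) (.cons (t3 11 19 38) (.cons s466 (.cons (t1 10 18 29) (.cons a349 (.cons (t3 10 11 19) (.cons (t1 0 10 19) (.cons s312 (.cons (t2 8 23 49) (.cons (t2 8 21 23) (.cons (t2 8 23 45) (.cons (t2 8 23 51) (.cons a506 (.cons a496 (.cons (t3 0 23 49) (.cons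 (t3 22 23 49) (.cons (t3 22 23 45) (.cons a491 (.cons a395 (.cons (t3 0 10 22) .nil)))))))))))))))))))))))))))))))))))))))))))))))))))))))))) (by decide +kernel)
theorem s468 : Valid A [935, 1316, 1338, 2523, 1384, 2778, 2874, 1736, 655, 3784, 1322] := rup _
  (.cons a347 (.cons (t1 5 7 19) (.cons (t1 7 19 45) (.cons a349 (.cons a214 (.cons a30 (.cons a32 (.cons (t3 7 10 19) (.cons s118 (.cons (t1 4 10 19) (.cons (t1 10 19 52) (.cons (t2 19 20 45) (.cons (t1 7 10 20) (.cons (t2 7 10 52) (.cons a396 (.cons a146 (.cons a14 (.cons (t2 7 22 45) (.cons (t2 4 29 36) (.cons (t2 4 22 29) (.cons a226 (.cons a476 (.cons (t1 4 13 22) (.cons (t3 20 22 52) (.cons (t3 4 10 13) (.cons (t1 13 20 22) (.cons a18 .nil))))))))))))))))))))))))))) (by decide +kernel)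
theorem s469 : Valid A [1338, 1384, 2778, 2474, 2874, 2363, 1736, 3784, 1322, 2761, 938, 1097, 1044, 932, 2376, 1352] := rup _
  (.cons a341 (.cons (t2 18 22 29) (.cons a204 (.cons a207 (.cons (t1 10 18 29) (.cons s468 (.cons a345 (.cons (t3 7 19 45) (.cons (t2 5 7 19) (.cons a351 (.cons (t1 18 19 45) (.cons s199 (.cons s360 (.cons (t3 10 19 45) (.cons (t3 18 22 45) (.cons s177 (.cons (t1 21 36 51) (.cons s234 (.cons a483 (.cons (t2 8 23 36) (.cons (t3 10 18 23) (.cons a399 .nil)))))))))))))))))))))) (by decide +kernel)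
theorem s470 : Valid A [1067, 1485, 938, 2746, 1072, 1097, 1044, 1117, 944, 942, 997, 2353, 5987, 2376, 1378, 2248, 4707, 2225] := rup _
  (.cons a131 (.cons (t1 8 46 49) (.cons (t1 7 18 24) (.cons (t3 18 36 49) (.cons (t1 10 36 49) (.cons a145 (.cons (t2 8 21 36) (.cons (t2 8 21 49) (.cons (t2 8 21 46) (.cons (t3 8 10 21) (.cons (t1 8 21 24) (.cons (t3 8 29 36) (.cons a204 (.cons a489 (.cons a503 (.cons a134 (.cons a207 (.cons (t3 28 36 49) (.cons (t2 8 28 36) (.cons (t1 13 36 49) (.cons s10 (.cons (t1 17 24 29) (.cons (t3 7 24 29) (.cons (t2 24 29 38) (.cons (t1 18 24 29) (.cons (t1 0 17 24) (.cons a140 (.cons (t2 18 24 38) (.cons s467 (.cons (t3 38 46 49) (.cons (t3 36 38 49) (.cons (t1 10 38 49) (.cons (t3 21 38 49) (.cons (t1 11 38 49) (.cons a174 (.cons (t3 11 36 38) (.cons (t1 10 11 38) (.cons (t1 19 21 38) (.cons (t3 11 21 38) (.cons (t2 11 28 49) (.cons (t2 11 19 38) (.cons a381 (.cons a35 (.cons a387 (.cons (t1 11 21 45)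 (.cons (t3 11 45 49) (.cons s64 (.cons a341 (.cons s469 (.cons a147 (.cons (t1 7 10 29) (.cons (t3 10 18 29) (.cons (t2 10 22 29) (.cons (t1 4 17 29) (.cons s193 (.cons a350 (.cons (t2 10 18 28) (.cons a509 (.cons (t3 10 19 45) (.cons a345 (.cons a395 (.cons (t1 5 7 19) (.cons (t1 7 19 45) (.cons (t3 7 22 45) (.cons (t2 22 45 49) (.cons a213 (.cons a30 (.cons a88 (.cons (t1 5 7 22) (.cons (t2 0 4 5) (.cons (t2 19 20 45) (.cons a79 (.cons (t3 0 5 22) (.cons s292 (.cons (t3 2 11 49) (.cons a491 (.cons a78 (.cons (t3 0 21 49) (.cons (t3 11 25 49) (.cons a507 (.cons a536 (.cons (t3 21 23 36) (.cons (t2 11 21 23) (.cons s92 (.cons (t3 18 25 28) (.cons a483 (.cons a238 (.cons (t2 23 25 52) (.cons (t2 18 23 25) .nil))))))))))))))))))))))))))))))))))))))))))))))))))))))))))))))))))))))))))))))))))))))))) (by decide +kernel)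
theorem s471 : Valid A [2746, 1097, 1120, 1044, 912, 944, 942, 997, 2353, 5987, 2376, 3164, 1378, 2248, 4707, 2225] := rup _
  (.cons a430 (.cons (t1 7 46 49) (.cons a185 (.cons (t2 8 24 46) (.cons (t1 8 46 49) (.cons (t1 7 36 49) (.cons (t1 10 36 49) (.cons s458 (.cons s463 (.cons a131 (.cons a133 (.cons s470 (.cons (t3 8 21 49) (.cons (t3 8 21 36) (.cons a142 (.cons s201 (.cons (t2 8 29 49) (.cons a209 (.cons (t2 5 21 49) (.cons (t3 29 38 49) (.cons (t3 11 29 49) (.cons s414 (.cons a215 (.cons (t3 7 11 38) (.cons (t3 5 7 11) .nil))))))))))))))))))))))))) (by decide +kernel)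
theorem s472 : Valid A [1485, 716, 4962, 738] := rup _
  (.cons (t2 11 38 49) (.cons (t1 5 11 38) (.cons a215 .nil))) (by decide +kernel)
theorem s473 : Valid A [4962, 738, 654, 954, 14, 997] := rup _
  (.cons s414 (.cons (t3 7 29 38) (.cons (t3 5 7 38) (.cons s472 (.cons (t2 7 11 38) (.cons a130 (.cons a383 (.cons s4 .nil)))))))) (by decide +kernel)
theorem s474 : Valid A [1467, 954, 14] := rup _
  (.cons s4 (.cons (t1 7 11 29) (.cons a383 .nil))) (by decide +kernel)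
theorem s475 : Valid A [2778, 1322, 2888, 3017, 4698, 1507, 1442, 1444, 683, 2218, 2747, 2213] := rup _
  (.cons s26 (.cons (t2 5 21 45) (.cons s177 (.cons (t3 36 45 51) (.cons s152 (.cons a475 (.cons (t3 22 45 51) (.cons (t1 21 22 51) (.cons a396 (.cons a398 (.cons s203 (.cons s118 (.cons (t1 10 17 22) (.cons (t2 17 22 30) (.cons (t2 17 18 22) (.cons (t3 10 17 18) (.cons (t1 17 18 30) (.cons a349 (.cons s327 (.cons (t1 17 18 19) (.cons (t2 18 19 22) (.cons a373 (.cons a339 (.cons a375 (.cons (t1 16 17 19) .nil))))))))))))))))))))))))) (by decide +kernel)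
theorem s476 : Valid A [2364, 5090, 2254, 2220, 428, 1507, 1442, 1444, 2402] := rup _
  (.cons a468 (.cons s327 (.cons (t2 30 39 49) (.cons a373 (.cons a374 (.cons a375 (.cons (t2 16 17 39) (.cons (t2 16 17 22) (.cons a56 (.cons (t2 3 16 30) (.cons (t2 3 16 39) (.cons a48 .nil)))))))))))) (by decide +kernel)
theorem s477 : Valid A [2365, 3047, 1316, 5862, 1370, 2394, 2350] := rup _
  (.cons (t3 18 23 30) (.cons (t3 10 18 30) (.cons (t1 18 30 45) (.cons s264 .nil)))) (by decide +kernel)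
theorem s478 : Valid A [2907, 1316, 5862, 1370, 2266, 2394, 2522, 474, 2862, 2350, 1507, 1442, 1444, 2404, 6372, 2213, 2402] := rup _
  (.cons (t1 3 22 45) (.cons (t1 19 22 45) (.cons (t1 17 22 45) (.cons (t2 22 45 51) (.cons a495 (.cons s477 (.cons s327 (.cons a373 (.cons a375 (.cons (t1 16 17 18) (.cons (t2 16 17 22) (.cons a337 (.cons (t2 16 17 19) (.cons (t2 16 18 19) (.cons a335 (.cons a336 (.cons (t2 18 19 39) (.cons s476 (.cons a433 (.cons (t2 39 49 50) .nil)))))))))))))))))))) (by decide +kernel)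
theorem s479 : Valid A [1316, 5862, 1370, 2394, 2779, 2862, 2350, 1507, 1442, 1444, 2218, 2747, 2404, 6372, 2213, 2402] := rup _
  (.cons (t3 17 21 45) (.cons a342 (.cons a61 (.cons (t1 10 17 18) (.cons s478 (.cons (t2 21 22 45) (.cons a395 (.cons s203 (.cons (t3 10 17 22) .nil))))))))) (by decide +kernel)
theorem s480 : Valid A [745, 1325, 916, 660, 654] := rup _
  (.cons (t3 5 7 52) (.cons (t3 5 10 52) (.cons s109 .nil))) (by decide +kernel)
theorem s481 : Valid A [3939, 744, 6376, 938, 2760, 968, 4707] := rup _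
  (.cons (t3 30 36 49) (.cons (t2 30 49 52) (.cons s149 .nil))) (by decide +kernel)
theorem s482 : Valid A [5091, 2404, 6372, 2402] := rup _
  (.cons (t1 18 39 49) (.cons (t2 39 49 50) (.cons a433 .nil))) (by decide +kernel)
theorem s483 : Valid A [269, 270, 354, 994] := rup _
  (.cons (t1 2 6 49) (.cons (t1 2 6 7) (.cons a304 .nil))) (by decide +kernel)
theorem s484 : Valid A [744, 268, 267, 6376, 938, 2760, 2346, 932, 994, 2402, 4707] := rup _
  (.cons (t1 7 36 49) (.cons s201 (.cons (t1 5 21 52) (.cons (t2 2 5 52) (.cons s481 (.cons a468 (.cons (t3 7 18 30) (.cons (t3 18 21 30) (.cons a222 (.cons (t3 7 30 52) (.cons a71 (.cons (t2 6 7 52) (.cons (t2 6 49 52) (.cons a304 .nil)))))))))))))) (by decide +kernel)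
theorem s485 : Valid A [1338, 6376, 2862, 2888, 3017, 2350, 1481, 1507, 1442, 1444, 938, 2760, 2346, 2218, 2747, 932, 930, 2404, 997, 2213, 2402, 4707] := rup _
  (.cons a381 (.cons (t3 11 45 49) (.cons a382 (.cons a430 (.cons (t1 7 36 49) (.cons s201 (.cons (t1 5 21 29) (.cons s26 (.cons a209 (.cons a431 (.cons (t1 10 21 29) (.cons (t2 5 10 29) (.cons s475 (.cons (t3 7 21 45) (.cons (t3 18 21 45) (.cons (t3 17 21 45) (.cons (t1 5 21 45) (.cons (t3 10 21 45) (.cons (t1 21 45 51) (.cons s132 (.cons a79 (.cons (t1 2 11 49) (.cons a87 (.cons (t3 2 5 45) (.cons (t2 2 17 45) (.cons s479 (.cons (t1 7 10 18) (.cons s483 (.cons s484 (.cons s30 (.cons (t2 5 21 52) (.cons s480 (.cons (t1 5 21 28) (.cons a223 (.cons a395 (.cons a487 (.cons (t3 21 30 45) (.cons (t2 22 45 51) (.cons (t1 28 36 49) (.cons (t3 11 28 36) (.cons s126 (.cons s152 (.cons a537 (.cons (t1 11 36 51) (.cons (t2 11 25 28) (.cons (t3 11 30 51) (.cons a77 (.cons a373 (.cons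 (t3 2 7 25) (.cons (t3 2 17 25) (.cons a375 (.cons (t1 7 16 17) (.cons (t2 16 17 25) (.cons a460 .nil)))))))))))))))))))))))))))))))))))))))))))))))))))))) (by decide +kernel)
theorem s486 : Valid A [2221, 2215, 1047, 1507, 1442, 1444, 1450, 2790, 2736, 2353, 2213] := rup _
  (.cons (t2 17 18 22) (.cons (t2 17 19 22) (.cons a339 (.cons (t1 16 17 19) (.cons a375 (.cons a373 (.cons (t1 8 11 16) (.cons s327 (.cons a26 (.cons (t2 18 24 30) (.cons (t2 18 22 30) (.cons (t2 11 16 20) (.cons a474 (.cons a33 (.cons (t2 24 30 51) (.cons (t2 20 21 24) (.cons (t2 20 21 51) (.cons a22 .nil)))))))))))))))))) (by decide +kernel)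
theorem s487 : Valid A [938, 14, 47, 2760, 2218, 2747, 1123, 932, 930, 2404, 997, 2353, 2402, 4707, 2274] := rup _
  (.cons a144 (.cons (t3 8 29 49) (.cons a143 (.cons (t3 8 21 49) (.cons a137 (.cons (t2 18 21 24) (.cons a136 (.cons (t2 18 24 29) (.cons a430 (.cons (t1 7 36 49) (.cons a513 (.cons (t3 7 21 29) (.cons s201 (.cons a209 (.cons s26 (.cons (t2 5 21 49) (.cons (t1 5 21 29) (.cons s473 (.cons (t1 7 38 49) (.cons (t3 36 38 49) (.cons (t1 18 38 49) (.cons (t1 17 38 49) (.cons (t3 8 38 49) (.cons (t1 29 38 49) (.cons s474 (.cons (t1 11 21 29) (.cons a130 (.cons (t2 11 18 38) (.cons (t2 11 17 38) (.cons (t1 11 38 49) (.cons (t1 7 11 38) (.cons (t3 11 36 38) (.cons (t3 8 11 38) (.cons a383 (.cons a382 (.cons (t2 0 11 18) (.cons (t1 0 11 36) (.cons (t1 0 11 49) (.cons (t2 0 11 23) (.cons (t3 0 18 23) (.cons (t2 0 23 36) (.cons a492 (.cons (t2 0 23 49) (.cons a239 (.cons (t1 22 36 49) (.cons (t1 22 23 49) (.cons (t1 23 49 52) (.cons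 s485 (.cons (t3 10 21 29) (.cons (t1 7 10 29) (.cons (t2 10 18 29) (.cons (t3 5 10 29) (.cons s193 (.cons a349 (.cons (t1 17 18 19) (.cons s486 (.cons s203 (.cons (t1 10 21 22) (.cons (t1 21 22 51) (.cons a397 (.cons s152 (.cons (t2 5 10 45) (.cons (t3 36 45 51) (.cons s177 .nil)))))))))))))))))))))))))))))))))))))))))))))))))))))))))))))))) (by decide +kernel)
theorem s488 : Valid A [1485, 1506, 955, 997] := rup _
  (.cons a131 (.cons (t1 11 38 49) (.cons (t2 7 29 38) (.cons s414 .nil)))) (by decide +kernel)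
theorem s489 : Valid A [23, 1444, 1480, 47, 2376] := rup _
  (.cons (t2 0 11 18) (.cons (t2 0 11 36) (.cons (t3 0 18 23) (.cons (t1 0 23 36) (.cons a483 .nil))))) (by decide +kernel)
theorem s490 : Valid A [1001, 5474, 688, 939, 2760, 944, 994] := rup _
  (.cons a210 (.cons s49 (.cons (t3 7 49 52) (.cons (t3 7 24 52) (.cons (t1 7 21 28) (.cons a234 (.cons s115 (.cons s97 (.cons (t1 24 42 52) (.cons (t3 5 24 28) (.cons a367 .nil))))))))))) (by decide +kernel)
theorem s491 : Valid A [6376, 3049, 1451, 939, 2760, 1123, 1044, 932, 942, 2376, 1352, 4707] := rup _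
  (.cons a34 (.cons (t2 7 20 21) (.cons (t2 36 49 52) (.cons (t2 8 49 52) (.cons (t2 23 36 52) (.cons (t1 8 23 52) (.cons a483 (.cons a399 (.cons (t1 7 10 23) (.cons (t1 10 23 52) (.cons (t3 10 18 23) (.cons s193 (.cons (t3 10 19 52) (.cons a350 (.cons a345 (.cons (t2 7 19 21) (.cons (t1 7 19 20) (.cons a343 (.cons a344 (.cons a14 (.cons (t2 7 19 45) (.cons s384 (.cons (t3 10 20 52) (.cons a29 (.cons (t3 10 36 45) (.cons (t1 10 20 45) .nil)))))))))))))))))))))))))) (by decide +kernel)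
theorem s492 : Valid A [1442, 1484, 688, 939, 47, 2760, 1072, 1123, 1044, 932, 944, 942, 997, 2376, 1352, 4707, 2274] := rup _
  (.cons a210 (.cons a203 (.cons (t1 5 36 49) (.cons a216 (.cons (t2 8 11 49) (.cons (t1 11 36 49) (.cons s32 (.cons (t2 0 7 23) (.cons a430 (.cons (t3 18 36 49) (.cons a513 (.cons (t3 11 17 18) (.cons s489 (.cons a383 (.cons (t3 0 11 23) (.cons (t2 7 11 21) (.cons (t2 7 11 38) (.cons a34 (.cons a35 (.cons s414 (.cons (t3 5 38 49) (.cons a199 (.cons (t3 38 42 49) (.cons s490 (.cons (t1 7 11 52) (.cons a238 (.cons (t1 0 23 52) (.cons s491 (.cons s100 (.cons (t1 36 49 52) (.cons (t3 17 49 52) (.cons (t3 0 49 52) (.cons (t1 28 36 49) (.cons (t3 23 36 52) (.cons a492 (.cons a487 (.cons (t1 22 36 49) (.cons (t3 22 49 52) (.cons (t1 7 21 28) (.cons (t3 20 21 28) (.cons s152 (.cons a226 (.cons a475 (.cons (t1 7 22 51) (.cons (t2 7 28 51) (.cons (t3 20 28 51) (.cons (t2 7 11 22) (.cons (t2 7 22 30) (.cons (t2 11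 22 30) (.cons (t3 7 24 51) (.cons a22 (.cons s147 (.cons (t1 8 20 24) (.cons (t1 17 30 52) (.cons s401 (.cons (t3 8 11 16) (.cons (t1 11 16 20) (.cons a25 .nil)))))))))))))))))))))))))))))))))))))))))))))))))))))))))) (by decide +kernel)
theorem s493 : Valid A [942, 997, 4707, 3170, 2274] := rup _
  (.cons (t1 24 36 49) (.cons a403 (.cons s422 (.cons s434 (.cons a177 (.cons (t2 36 46 49) (.cons a430 (.cons (t1 7 46 49) (.cons s78 (.cons (t3 18 36 49) (.cons a513 (.cons (t2 17 18 24) (.cons a481 (.cons (t1 36 46 48) (.cons (t1 10 36 49) (.cons (t3 10 36 46) (.cons (t2 17 24 46) (.cons (t1 17 36 49) (.cons s453 (.cons (t2 7 24 50) (.cons (t2 18 24 50) (.cons (t1 7 17 24) (.cons (t1 7 18 24) (.cons s454 (.cons a185 (.cons (t2 8 10 46) (.cons (t2 8 46 48) (.cons (t3 8 36 46) (.cons (t1 8 46 49) (.cons (t2 8 24 46) (.cons s471 (.cons a136 (.cons a137 (.cons a143 (.cons s7 (.cons (t2 17 24 29) (.cons (t2 17 21 24) (.cons (t3 8 21 36) (.cons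 (t3 8 21 46) (.cons s228 (.cons (t3 21 23 29) (.cons a505 (.cons (t2 0 7 23) (.cons s487 (.cons a210 (.cons s44 (.cons (t1 7 21 29) (.cons a203 (.cons (t1 21 29 34) (.cons (t1 5 36 49) (.cons (t2 5 24 36) (.cons a216 (.cons (t2 8 11 49) (.cons s488 (.cons s492 (.cons (t1 7 11 17) (.cons (t2 11 17 29) (.cons a383 (.cons a130 (.cons (t2 0 8 11) (.cons (t3 23 29 38) (.cons (t3 29 34 38) (.cons (t3 0 8 23) (.cons a399 (.cons a520 (.cons (t2 10 23 38) (.cons s88 (.cons a158 (.cons (t2 10 23 34) .nil))))))))))))))))))))))))))))))))))))))))))))))))))))))))))))))))))))) (by decide +kernel)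
theorem s494 : Valid A [963, 456, 398, 968] := rup _
  (.cons (t3 3 7 33) (.cons (t1 7 33 36) (.cons a52 .nil))) (by decide +kernel)
theorem s495 : Valid A [997, 4707, 3170, 2274] := rup _
  (.cons a403 (.cons (t1 24 36 49) (.cons s422 (.cons s434 (.cons a177 (.cons s78 (.cons (t3 18 36 49) (.cons a513 (.cons (t2 17 18 24) (.cons a481 (.cons (t1 36 46 48) (.cons (t2 36 46 49) (.cons a430 (.cons (t1 7 36 49) (.cons (t1 7 46 49) (.cons s493 (.cons (t1 7 23 36) (.cons (t2 7 23 50) (.cons (t1 7 23 46) (.cons a483 (.cons (t1 18 23 50) (.cons a193 (.cons (t3 7 18 23) (.cons a434 (.cons (t2 18 24 50) (.cons (t1 7 23 24) (.cons a346 (.cons (t3 7 17 18) (.cons (t2 17 18 39) (.cons (t1 18 23 39) (.cons a314 (.cons a65 (.cons s158 (.cons (t1 7 17 19) (.cons a333 (.cons (t2 7 24 27) (.cons (t2 23 24 27) (.cons (t2 17 24 27) (.cons (t3 3 7 17) (.cons (t3 34 36 49) (.cons a325 (.cons a36 (.cons (t3 19 27 39) (.cons a155 (.cons a157 (.cons (t3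 3 19 27) (.cons (t3 27 34 49) (.cons (t3 19 34 36) (.cons (t2 3 19 36) (.cons s494 (.cons s436 (.cons (t1 7 23 48) (.cons s154 (.cons (t3 7 8 23) (.cons (t1 8 23 50) (.cons s429 .nil)))))))))))))))))))))))))))))))))))))))))))))))))))))))) (by decide +kernel)
theorem s496 : Valid A [423, 484, 482, 476, 1357, 4956, 2214, 1348, 2404, 934, 420, 2213, 2402] := rup _
  (.cons (t1 3 19 50) (.cons (t1 3 19 46) (.cons a173 (.cons (t3 10 19 38) (.cons s129 (.cons a468 (.cons (t1 3 30 49) (.cons s139 (.cons (t2 17 18 39) (.cons a433 (.cons a333 (.cons (t1 19 39 50) .nil)))))))))))) (by decide +kernel)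
theorem s497 : Valid A [47, 1327, 3004, 2993, 943, 1085, 1097, 973, 1352] := rup _
  (.cons (t2 7 23 38) (.cons a506 (.cons s9 (.cons (t3 0 7 23) (.cons (t3 0 10 23) (.cons (t3 21 23 24) (.cons (t1 23 24 29) (.cons (t3 23 29 38) (.cons a384 (.cons a386 (.cons (t1 0 10 11) (.cons a134 (.cons (t3 7 11 23) (.cons (t3 7 11 38) (.cons a143 (.cons a130 (.cons (t3 8 21 36) (.cons (t3 8 21 30) (.cons (t3 11 21 29) (.cons (t2 11 21 30) (.cons s216 (.cons s231 (.cons s84 (.cons a222 .nil)))))))))))))))))))))))) (by decide +kernel)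
theorem s498 : Valid A [2747, 46, 1070, 2993] := rup _
  (.cons a137 (.cons a143 (.cons (t1 21 23 24) (.cons s321 .nil)))) (by decide +kernel)
theorem s499 : Valid A [1066, 2746, 1969, 1044, 1063, 1097, 1072, 1329, 2505, 422, 945] := rup _
  (.cons a67 (.cons s202 (.cons a142 (.cons (t3 8 21 36) (.cons (t1 8 19 21) (.cons (t3 7 21 24) (.cons (t1 3 21 24) (.cons (t3 10 21 24) (.cons (t3 15 21 24) (.cons (t2 8 29 36) (.cons (t3 8 10 29) (.cons a210 (.cons s444 (.cons (t1 15 21 45) (.cons a203 (.cons (t1 10 21 45) (.cons a100 (.cons (t3 5 29 36) (.cons (t3 5 19 36) (.cons (t1 4 10 45) (.cons a213 (.cons a146 (.cons (t3 4 5 29) .nil))))))))))))))))))))))) (by decide +kernel)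
theorem s500 : Valid A [943, 1969, 1085, 400, 1044, 1063, 1097, 1072, 912, 3913, 956, 973, 3149, 917, 1329, 2505, 422, 968, 945, 1352] := rup _
  (.cons a65 (.cons (t1 7 23 36) (.cons (t2 7 23 24) (.cons (t1 7 23 30) (.cons (t2 7 10 23) (.cons (t3 7 8 23) (.cons s497 (.cons (t1 0 7 23) (.cons s498 (.cons s499 (.cons (t2 8 21 36) (.cons (t1 8 21 24) (.cons (t2 8 19 21) (.cons (t3 3 8 21) (.cons a134 (.cons a343 (.cons a344 (.cons a60 (.cons (t2 24 29 38) (.cons (t1 10 24 29) (.cons (t1 19 36 45) (.cons (t3 3 7 45) (.cons a132 (.cons (t2 10 11 29) (.cons s297 (.cons s237 (.cons a383 .nil))))))))))))))))))))))))))) (by decide +kernel)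
theorem s501 : Valid A [2746, 414, 1969, 400, 1044, 1063, 1097, 1072, 912, 917, 1329, 2505, 422, 945] := rup _
  (.cons s499 (.cons (t3 7 8 21) (.cons (t2 8 21 36) (.cons (t1 8 21 24) (.cons (t2 8 19 21) (.cons (t3 3 8 21) (.cons a204 (.cons a134 (.cons a343 (.cons a344 (.cons (t1 5 19 21) (.cons a60 (.cons a207 (.cons (t1 10 24 29) (.cons (t1 15 24 29) (.cons (t3 3 15 45) (.cons (t1 5 7 10) (.cons a147 (.cons a148 (.cons (t1 4 15 29) (.cons a99 (.cons (t1 4 5 10) (.cons (t2 4 19 45) (.cons a211 .nil)))))))))))))))))))))))) (by decide +kernel)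
theorem s502 : Valid A [1125, 3941, 3913, 956, 1893, 1840, 438, 973, 3149, 917, 1329, 3554, 2505, 2533, 422, 484, 4709, 1380, 6373, 968, 945, 996, 1352] := rup _
  (.cons a330 (.cons (t1 7 24 50) (.cons a106 (.cons a108 (.cons (t1 7 8 50) (.cons (t3 8 49 50) (.cons (t2 8 24 50) (.cons (t3 8 36 50) (.cons (t3 8 19 50) (.cons (t2 8 10 50) (.cons (t1 3 8 50) (.cons (t3 8 30 50) (.cons (t3 8 15 49) (.cons (t2 14 15 50) (.cons a113 (.cons a92 (.cons (t1 3 15 27) (.cons s500 (.cons (t1 7 10 23) (.cons a399 (.cons s501 (.cons a136 (.cons a137 (.cons a143 (.cons (t2 7 24 29) (.cons (t3 24 29 38) (.cons (t2 7 21 24) (.cons (t3 21 24 38) (.cons (t3 8 21 49) (.cons (t3 8 21 36) (.cons (t3 8 21 23) (.cons s294 (.cons s201 (.cons s474 (.cons (t2 5 21 49) (.cons (t2 5 21 38) (.cons a130 (.cons s472 .nil)))))))))))))))))))))))))))))))))))))) (by decide +kernel)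
theorem s503 : Valid A [2760, 2764, 938, 3788, 954, 3017, 942, 4962, 968, 4707] := rup _
  (.cons (t3 21 36 49) (.cons s201 (.cons (t1 21 23 36) (.cons (t2 5 21 49) (.cons (t2 5 21 38) (.cons s294 (.cons s472 (.cons s474 (.cons a130 .nil))))))))) (by decide +kernel)
theorem s504 : Valid A [2747, 3017, 942, 1101, 400, 973, 3149, 3127, 2505, 456, 4962, 968, 945, 4707] := rup _
  (.cons (t1 7 24 27) (.cons a136 (.cons a137 (.cons (t2 7 24 29) (.cons (t1 24 27 29) (.cons (t3 24 29 38) (.cons (t2 7 21 24) (.cons (t3 21 24 38) (.cons s503 (.cons a204 (.cons (t2 21 29 36) (.cons (t1 3 21 36) (.cons (t3 19 21 36) (.cons a207 (.cons (t3 19 29 36) (.cons a343 (.cons a344 (.cons (t1 5 7 38) (.cons (t1 5 7 27) (.cons (t1 19 29 45) (.cons a60 (.cons a199 (.cons a200 (.cons (t1 5 27 42) (.cons (t3 3 8 45) (.cons (t2 8 38 42) (.cons a126 (.cons a356 (.cons (t1 29 42 45) .nil))))))))))))))))))))))))))))) (by decide +kernel)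
theorem s505 : Valid A [2761, 23, 918, 1046, 1066, 2736, 3017, 945, 1372, 3164, 4707] := rup _
  (.cons (t2 7 21 24) (.cons a204 (.cons (t1 21 36 49) (.cons (t3 21 23 36) (.cons a207 (.cons (t3 5 21 49) (.cons (t3 5 21 23) (.cons a506 (.cons (t1 5 7 24) (.cons (t2 5 7 11) (.cons (t1 0 11 23) (.cons s339 (.cons a215 .nil))))))))))))) (by decide +kernel)
theorem s506 : Valid A [46, 2790, 2734, 23, 1456, 1442, 1046, 1490, 3005, 3026, 2992, 785, 1073, 2236, 817] := rup _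
  (.cons (t3 0 23 30) (.cons a505 (.cons (t1 0 11 23) (.cons (t1 0 11 30) (.cons (t2 0 11 21) (.cons s401 (.cons a35 (.cons (t2 11 21 51) (.cons (t1 11 16 24) (.cons (t3 8 11 16) (.cons (t1 11 16 23) (.cons (t1 11 16 51) (.cons (t1 11 16 20) (.cons (t1 11 16 41) (.cons s272 (.cons a25 (.cons s269 (.cons (t1 1 6 24) (.cons (t2 8 20 24) (.cons (t1 6 8 20) (.cons (t2 1 16 51) (.cons a24 (.cons (t2 6 20 51) (.cons a292 .nil)))))))))))))))))))))))) (by decide +kernel)
theorem s507 : Valid A [2736, 2746, 2479, 3005, 3043, 3017, 3026, 2992, 785, 1101, 1073, 2236, 817, 3155, 973, 3149, 2253, 2531, 968, 945, 1372, 3164, 4707, 2225] := rup _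
  (.cons (t2 7 21 24) (.cons a134 (.cons (t2 8 21 24) (.cons s10 (.cons (t1 17 24 29) (.cons (t2 24 29 38) (.cons (t2 24 29 41) (.cons (t1 0 7 24) (.cons a141 (.cons a131 (.cons a132 (.cons (t3 11 29 41) (.cons (t2 8 11 38) (.cons (t1 11 17 38) (.cons (t1 11 24 38) (.cons (t2 7 11 38) (.cons a383 (.cons s505 (.cons s201 (.cons (t1 21 23 36) (.cons s26 (.cons s506 (.cons (t1 0 23 49) (.cons (t1 0 23 30) (.cons (t3 0 19 23) (.cons a492 (.cons (t2 0 11 30) (.cons (t2 0 11 19) (.cons (t2 19 22 49) (.cons a373 (.cons (t3 11 16 19) (.cons a337 (.cons a375 (.cons (t2 16 17 22) .nil)))))))))))))))))))))))))))))))))) (by decide +kernel)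
theorem s508 : Valid A [2364, 817, 783, 1363, 3155, 1893, 973, 3149, 2253, 3127, 3554, 1317, 2505, 2525, 2531, 2533, 422, 456, 1380, 6373, 945, 996, 2213, 3164, 1352, 3144, 4707, 2225] := rup _
  (.cons (t1 7 24 27) (.cons a318 (.cons (t3 7 14 24) (.cons a67 (.cons (t3 3 24 27) (.cons (t2 17 18 24) (.cons (t3 7 18 24) (.cons (t3 7 10 18) (.cons (t1 10 18 24) (.cons (t2 7 24 36) (.cons a65 (.cons s494 (.cons (t1 36 49 50) (.cons (t3 3 36 50) (.cons a346 (.cons (t3 7 19 24) (.cons a177 (.cons (t2 36 46 49) (.cons (t1 46 49 50) (.cons a330 (.cons s78 (.cons (t3 18 36 49) (.cons (t3 10 36 46) (.cons a480 (.cons a468 (.cons (t2 17 18 30) (.cons (t2 7 18 30) (.cons (t3 30 36 49) (.cons (t3 30 46 49) (.cons (t1 30 49 50) (.cons s502 (.cons (t1 8 46 50) (.cons s431 (.cons s182 (.cons (t3 3 7 8) (.cons (t2 7 8 10) (.cons (t2 7 8 38) (.cons (t1 6 7 8) (.cons a401 (.cons a402 (.cons (t3 10 23 24) (.cons (t1 10 18 23) (.cons (t2 7 10 23) (.cons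 (t3 10 23 41) (.cons s326 (.cons a483 (.cons (t1 23 46 49) (.cons (t3 23 30 46) (.cons (t3 19 23 46) (.cons s504 (.cons s507 (.cons a135 (.cons (t3 7 21 24) (.cons (t2 21 24 36) (.cons (t3 17 21 24) (.cons (t3 8 21 24) (.cons (t1 3 21 24) (.cons (t1 19 21 24) (.cons (t3 10 21 24) (.cons (t1 21 24 27) (.cons (t1 21 24 38) (.cons (t2 17 24 29) (.cons (t1 24 27 29) (.cons a210 (.cons s444 (.cons (t2 21 27 45) (.cons (t3 5 21 38) (.cons a203 (.cons (t2 21 24 45) (.cons (t1 17 21 45) (.cons (t1 8 21 45) (.cons (t3 21 36 45) (.cons (t2 21 38 45) (.cons (t1 10 21 45) (.cons (t1 5 36 49) (.cons a357 (.cons a396 (.cons a216 (.cons (t2 38 42 45) (.cons (t2 27 42 45) (.cons (t2 17 22 45) (.cons (t1 11 36 49) (.cons a198 (.cons a126 (.cons a138 (.cons a379 (.cons (t2 5 36 42) (.cons (t1 22 29 42) (.cons (t3 11 24 45) (.cons a355 (.cons (t1 16 22 42) (.cons s308 .nil))))))))))))))))))))))))))))))))))))))))))))))))))))))))))))))))))))))))))))))))))))))))))))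 (by decide +kernel)
theorem s509 : Valid A [2382, 422, 456, 1357, 1380, 4451, 994, 945, 996, 2213, 3164, 1352, 3144, 4707, 2225] := rup _
  (.cons (t2 7 24 36) (.cons a65 (.cons s494 (.cons (t1 7 24 33) (.cons a429 (.cons (t1 36 49 50) (.cons (t3 3 36 50) (.cons (t3 7 17 24) (.cons (t2 17 18 24) (.cons (t3 7 18 24) (.cons a346 (.cons (t1 7 17 19) (.cons (t1 34 49 50) (.cons a177 (.cons (t2 36 46 49) (.cons (t1 46 49 50) (.cons (t1 7 18 50) (.cons a348 (.cons (t3 3 7 18) (.cons (t1 7 24 50) (.cons (t2 17 18 39) (.cons (t2 7 18 39) (.cons (t1 18 24 39) (.cons a433 (.cons a333 (.cons (t3 39 49 50) (.cons (t3 39 46 50) (.cons (t3 34 39 50) (.cons (t3 36 39 50) (.cons (t1 10 39 50) (.cons (t1 19 39 50) (.cons a443 (.cons (t1 19 39 49) (.cons (t1 19 39 46) (.cons (t3 19 34 39) (.cons (t3 19 36 39) (.cons (t1 10 19 39) (.cons (t3 41 49 50) (.cons a156 (.cons a349 (.cons (t3 27 34 49) (.cons (t3 27 34 50) (.cons (t3 10 17 18) (.cons (t1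 10 18 24) (.cons (t3 7 10 18) (.cons (t2 10 18 38) (.cons a313 (.cons (t2 10 17 38) (.cons (t2 10 24 38) (.cons (t1 7 10 38) (.cons a266 (.cons (t1 7 24 27) (.cons (t3 9 18 24) (.cons (t1 9 10 18) (.cons a318 (.cons a250 (.cons a246 (.cons a439 (.cons (t3 9 49 50) (.cons (t2 9 33 50) (.cons (t2 9 41 50) (.cons (t1 14 39 50) (.cons (t2 9 33 49) (.cons (t3 33 39 50) (.cons s220 (.cons a311 (.cons a312 (.cons (t3 6 33 39) (.cons (t2 7 24 41) (.cons (t2 7 10 41) (.cons a304 (.cons a300 (.cons s508 (.cons (t3 3 18 30) (.cons s137 .nil))))))))))))))))))))))))))))))))))))))))))))))))))))))))))))))))))))))))))) (by decide +kernel)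
theorem s510 : Valid A [3149, 4324, 3151, 3138, 1357, 1380, 2353] := rup _
  (.cons (t3 10 24 38) (.cons (t1 18 24 38) (.cons (t2 24 38 39) (.cons (t1 10 24 39) (.cons a266 (.cons a268 (.cons (t3 9 38 39) (.cons (t1 9 10 39) (.cons (t3 9 18 24) (.cons a246 (.cons a250 (.cons (t2 9 33 50) .nil)))))))))))) (by decide +kernel)
theorem s511 : Valid A [456, 4451, 994, 945, 996, 2213, 3164, 1378, 3144, 4707, 2225] := rup _
  (.cons (t1 10 34 49) (.cons a429 (.cons a330 (.cons (t2 34 38 49) (.cons a158 (.cons a177 (.cons (t2 36 46 49) (.cons (t1 38 46 49) (.cons (t3 7 17 24) (.cons (t2 17 18 24) (.cons (t3 7 18 24) (.cons a346 (.cons (t1 7 17 19) (.cons (t1 36 49 50) (.cons (t3 10 49 50) (.cons (t1 7 18 50) (.cons a348 (.cons a65 (.cons (t3 3 7 18) (.cons (t2 7 24 36) (.cons s78 (.cons (t3 18 36 49) (.cons (t1 10 36 49) (.cons (t3 3 36 46) (.cons (t3 3 36 49) (.cons (t3 3 36 50) (.cons s494 (.cons (t1 7 24 33) (.cons s496 (.cons s509 (.cons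 (t2 18 24 39) (.cons a301 (.cons (t1 6 7 24) (.cons a304 (.cons a311 (.cons (t1 33 36 49) (.cons (t1 33 34 49) (.cons (t3 33 49 50) (.cons a52 (.cons (t3 3 19 33) (.cons s510 (.cons (t2 18 24 38) (.cons (t2 10 18 38) (.cons a349 (.cons s129 (.cons (t2 10 19 33) (.cons a468 (.cons s370 (.cons (t1 10 30 49) .nil))))))))))))))))))))))))))))))))))))))))))))))))) (by decide +kernel)
theorem s512 : Valid A [3148, 3139, 4292, 1357, 1348, 2342, 934, 2353, 2402, 1378] := rup _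
  (.cons (t2 18 24 38) (.cons (t2 10 24 38) (.cons (t2 10 18 38) (.cons (t3 10 24 33) (.cons a349 (.cons s370 (.cons s129 (.cons (t1 10 30 49) (.cons a468 .nil))))))))) (by decide +kernel)
theorem s513 : Valid A [1457, 1468, 2737, 939, 1073, 1116, 3037, 445, 3144, 6242, 2225] := rup _
  (.cons (t3 11 17 24) (.cons s308 (.cons a377 (.cons a57 (.cons a371 (.cons (t3 3 16 30) .nil)))))) (by decide +kernel)
theorem s514 : Valid A [682, 2770, 2760, 913, 1073, 1116, 3017, 3037, 2992, 445, 3913, 1225, 2236, 2505, 457, 945, 3144, 4707, 2225] := rup _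
  (.cons (t2 3 21 36) (.cons (t2 7 24 36) (.cons a480 (.cons a203 (.cons s201 (.cons (t1 5 36 49) (.cons (t3 5 30 36) (.cons (t3 5 19 36) (.cons (t3 5 9 36) (.cons (t3 5 23 36) (.cons (t2 7 21 24) (.cons a216 (.cons a217 (.cons (t3 5 11 30) (.cons a213 (.cons (t1 5 9 11) (.cons (t3 4 5 9) (.cons (t3 5 11 23) (.cons (t1 11 36 49) (.cons s513 (.cons (t1 11 17 24) (.cons (t2 7 11 24) (.cons (t1 11 21 24) (.cons s401 (.cons s247 (.cons (t3 7 11 16) (.cons (t1 11 16 21) (.cons (t1 11 16 24) (.cons (t1 11 16 23) (.cons (t3 9 11 16) (.cons (t2 36 45 49) (.cons (t3 7 36 45) (.cons s272 (.cons a253 (.cons a80 (.cons (t1 1 7 24) (.cons (t2 4 7 16) (.cons a85 (.cons (t1 2 7 8) (.cons (t2 2 4 7) (.cons (t1 1 2 7) (.cons a83 (.cons a89 (.cons (t1 8 24 43) (.cons (t1 1 4 16) (.cons a281 (.cons s273 .nil))))))))))))))))))))))))))))))))))))))))))))))) (by decide +kernel)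
theorem s515 : Valid A [2760, 913, 1073, 1116, 3017, 3037, 4691, 2992, 942, 1213, 445, 3913, 1225, 1251, 2236, 2505, 2253, 973, 3154, 457, 1357, 4962, 945, 1378, 3144, 4707, 2225] := rup _
  (.cons (t3 10 17 38) (.cons (t3 7 10 38) (.cons (t3 7 17 24) (.cons (t1 10 36 49) (.cons (t3 21 36 49) (.cons (t1 21 23 36) (.cons (t3 21 36 41) (.cons s514 (.cons a209 (.cons a210 (.cons (t2 5 21 49) (.cons (t3 5 7 10) (.cons (t3 5 7 38) (.cons (t3 7 21 24) (.cons s294 (.cons s133 (.cons s472 (.cons s271 (.cons (t3 0 7 17) (.cons (t2 7 10 11) (.cons (t3 10 11 17) (.cons (t2 7 24 43) (.cons a383 (.cons s4 (.cons a130 (.cons (t3 17 29 38) (.cons (t3 7 29 38) (.cons (t3 10 29 38) (.cons a147 (.cons (t1 4 17 29) (.cons (t1 4 7 29) (.cons a509 (.cons a454 (.cons (t2 0 4 11) (.cons (t2 4 11 43) (.cons a244 (.cons (t3 9 11 49) (.cons (t3 9 11 30) (.cons a215 (.cons s401 (.cons (t2 5 11 21) (.cons (t2 11 16 21) (.cons (t2 11 16 43) (.cons s216 (.cons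 (t1 16 21 28) (.cons a459 .nil)))))))))))))))))))))))))))))))))))))))))))))) (by decide +kernel)
theorem s516 : Valid A [1468, 1238, 3048, 675, 3644, 738, 3005, 1213, 3939] := rup _
  (.cons (t3 11 30 49) (.cons (t1 11 23 30) (.cons (t2 9 11 30) (.cons a215 (.cons a238 (.cons a243 (.cons (t2 5 11 17) (.cons s67 (.cons (t2 11 17 52) (.cons (t2 11 43 52) (.cons a377 (.cons a378 (.cons (t3 11 28 43) (.cons (t3 16 17 52) (.cons (t1 16 43 52) (.cons a371 (.cons a456 (.cons (t2 16 28 30) .nil)))))))))))))))))) (by decide +kernel)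
theorem s517 : Valid A [945, 996, 2213, 1378, 4707, 2225, 3170] := rup _
  (.cons (t2 17 18 24) (.cons (t1 24 36 49) (.cons s434 (.cons a177 (.cons s78 (.cons (t3 18 36 49) (.cons (t2 36 46 49) (.cons a481 (.cons a65 (.cons a67 (.cons s47 (.cons (t2 7 24 36) (.cons (t2 7 24 49) (.cons (t2 7 24 46) (.cons (t3 7 17 24) (.cons (t3 7 18 24) (.cons (t1 7 24 50) (.cons (t3 3 7 17) (.cons a168 (.cons a429 (.cons a346 (.cons a348 (.cons (t1 7 18 50) (.cons (t3 34 36 49) (.cons (t1 10 34 49) (.cons (t3 34 46 49) (.cons a330 (.cons (t3 10 49 50) (.cons (t1 36 49 50) (.cons (t1 34 49 50) (.cons (t2 34 38 49) (.cons a158 (.cons s511 (.cons a55 (.cons (t3 3 34 36) (.cons (t2 3 36 48) (.cons (t1 3 36 50) (.cons (t1 33 34 36) (.cons a44 (.cons s176 (.cons (t1 7 24 48) (.cons (t1 18 24 48) (.cons (t1 17 24 48) (.cons (t3 24 33 48) (.cons (t3 7 33 48) (.cons (t3 18 33 48) (.cons (t3 17 33 48) (.cons a251 (.cons a110 (.cons a112 (.cons a447 (.cons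 a448 (.cons (t3 7 15 17) (.cons a95 (.cons (t1 7 24 41) (.cons s512 (.cons (t1 7 24 38) (.cons (t1 17 24 38) (.cons (t3 10 24 38) (.cons (t1 18 24 38) (.cons (t3 7 10 38) (.cons (t3 10 17 38) (.cons (t1 10 24 33) (.cons (t1 9 10 24) (.cons s443 (.cons a392 (.cons a393 (.cons a246 (.cons (t3 19 36 46) (.cons (t3 19 34 46) (.cons (t2 17 30 33) (.cons (t2 7 30 33) (.cons (t2 18 30 33) (.cons a162 (.cons (t3 9 49 50) (.cons (t3 9 36 50) (.cons (t3 9 34 50) (.cons a156 (.cons a468 (.cons (t1 30 34 36) (.cons (t1 30 34 46) (.cons (t3 3 30 34) (.cons (t3 9 30 34) (.cons (t3 27 34 49) (.cons (t2 3 27 34) (.cons (t3 27 34 50) (.cons a50 (.cons a36 (.cons a313 (.cons (t3 3 39 50) (.cons (t1 7 17 27) (.cons (t2 17 18 27) (.cons (t3 15 17 27) (.cons a433 (.cons (t2 18 27 39) (.cons a113 (.cons a327 (.cons (t1 15 49 50) (.cons (t2 15 41 49) (.cons (t3 15 46 49) (.cons (t2 7 23 27) (.cons (t1 23 24 27) (.cons (t2 18 23 27) (.cons a107 (.cons (t3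 36 41 49) (.cons a193 (.cons a483 (.cons (t3 8 15 46) (.cons (t3 23 30 46) (.cons s182 (.cons a185 (.cons s515 (.cons a204 (.cons a206 (.cons a489 (.cons (t1 21 36 49) (.cons (t1 7 21 36) (.cons (t3 21 30 36) (.cons (t3 9 21 36) (.cons (t3 21 23 36) (.cons (t1 21 36 41) (.cons a207 (.cons (t3 5 21 49) (.cons (t1 5 19 36) (.cons (t1 28 30 36) (.cons a223 (.cons a506 (.cons a452 (.cons (t1 5 7 17) (.cons (t1 5 7 38) (.cons (t1 21 23 52) (.cons (t3 0 23 30) (.cons (t1 21 36 43) (.cons (t2 9 21 43) (.cons a199 (.cons (t2 17 38 42) (.cons s516 (.cons a373 (.cons (t1 7 11 30) (.cons (t1 11 30 36) (.cons (t1 10 11 30) (.cons (t2 11 17 30) (.cons (t1 0 11 30) (.cons (t2 11 28 30) (.cons (t3 11 16 36) (.cons a375 (.cons a383 (.cons a387 (.cons (t3 7 16 17) (.cons (t2 16 17 42) (.cons (t1 0 7 17) (.cons (t3 0 5 7) (.cons (t2 10 17 28) (.cons (t1 7 10 28) (.cons (t2 7 16 28) (.cons a353 (.cons a511 (.cons a512 (.cons (t3 0 4 5) (.cons (t3 4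 17 28) (.cons a457 (.cons (t1 36 42 43) (.cons (t1 19 36 42) (.cons a211 (.cons s112 (.cons (t2 4 42 43) (.cons (t1 4 19 42) .nil))))))))))))))))))))))))))))))))))))))))))))))))))))))))))))))))))))))))))))))))))))))))))))))))))))))))))))))))))))))))))))))))))))))))))))))))))))))))))))))))))))))) (by decide +kernel)
theorem s518 : Valid A [3909, 22, 1451, 2781, 2736, 3939, 1469, 944, 996, 2353, 5987, 2268, 3170] := rup _
  (.cons (t1 11 30 49) (.cons (t3 30 46 49) (.cons (t1 7 18 24) (.cons a164 (.cons s50 (.cons (t2 30 34 49) (.cons (t3 7 30 49) (.cons (t3 7 30 46) (.cons (t1 7 11 30) (.cons a429 (.cons s454 (.cons a383 (.cons a330 (.cons a185 (.cons s2 (.cons (t1 38 46 49) (.cons (t2 34 38 49) (.cons (t2 11 38 49) (.cons (t3 8 21 46) (.cons a158 (.cons a143 (.cons a134 (.cons (t2 11 21 29) (.cons (t1 18 24 29) (.cons a130 (.cons (t3 7 29 38) (.cons (t1 18 29 38) (.cons (t1 7 10 38) (.cons (t3 10 18 38) (.cons s128 (.cons a350 (.cons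 a345 .nil)))))))))))))))))))))))))))))))) (by decide +kernel)
theorem s519 : Valid A [1117, 3148, 1451, 2781, 2736, 1507, 996, 5987] := rup _
  (.cons a187 (.cons (t3 8 21 46) (.cons (t3 7 46 49) (.cons a143 (.cons a429 (.cons a134 (.cons (t2 11 21 29) (.cons a330 (.cons (t1 24 29 38) (.cons (t2 11 38 49) (.cons a130 .nil))))))))))) (by decide +kernel)
theorem s520 : Valid A [3939, 1469, 3037, 682, 944, 996, 2353, 1378, 4707, 2225, 3170] := rup _
  (.cons a481 (.cons (t1 24 36 49) (.cons s434 (.cons a177 (.cons (t1 36 46 48) (.cons (t2 23 46 48) (.cons (t3 23 36 46) (.cons (t2 36 46 49) (.cons (t2 17 24 46) (.cons (t3 30 36 49) (.cons (t1 10 30 49) (.cons (t1 11 30 49) (.cons (t1 11 30 36) (.cons a216 (.cons (t1 5 36 49) (.cons a203 (.cons (t2 21 24 36) (.cons (t1 21 36 46) (.cons (t3 21 23 36) (.cons (t3 11 21 36) (.cons a507 (.cons (t1 0 11 21) (.cons s518 (.cons (t3 30 34 49) (.cons a162 (.cons a168 (.cons a160 (.cons s90 (.cons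 (t2 24 34 38) (.cons (t2 17 24 48) (.cons s519 (.cons a181 (.cons (t1 8 23 46) (.cons (t2 8 17 48) (.cons a520 .nil))))))))))))))))))))))))))))))))))) (by decide +kernel)
theorem s521 : Valid A [2761, 918, 1506, 3037, 682, 3164, 4707, 2225, 3170] := rup _
  (.cons a481 (.cons (t1 24 36 49) (.cons a177 (.cons (t1 36 46 48) (.cons (t2 23 46 48) (.cons (t3 23 36 46) (.cons a206 (.cons (t1 21 36 49) (.cons (t1 21 36 46) (.cons (t3 21 23 36) (.cons (t3 5 36 49) (.cons a215 (.cons (t2 5 7 11) (.cons a207 (.cons s44 (.cons (t1 7 21 46) (.cons (t1 7 21 23) (.cons (t3 21 34 49) (.cons a186 (.cons a187 (.cons (t3 7 8 23) (.cons a168 (.cons s182 (.cons a520 (.cons s90 (.cons (t2 8 24 48) .nil)))))))))))))))))))))))))) (by decide +kernel)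
theorem s522 : Valid A [1116, 3040, 3037, 930, 5987, 3164, 2225, 3170] := rup _
  (.cons (t2 17 24 46) (.cons a181 (.cons s182 (.cons (t1 8 23 46) (.cons (t1 7 8 17) (.cons a520 (.cons a185 (.cons s62 (.cons s56 (.cons (t1 8 24 34) (.cons (t3 34 46 49) (.cons a168 .nil)))))))))))) (by decide +kernel)
theorem s523 : Valid A [1469, 3037, 682, 944, 996, 2353, 1378, 4707, 2225, 3170] := rup _
  (.cons (t1 24 36 49) (.cons s434 (.cons a177 (.cons (t2 36 46 49) (.cons (t1 7 17 24) (.cons a481 (.cons (t1 36 46 48) (.cons (t2 23 46 48) (.cons s522 (.cons a187 (.cons (t1 7 36 46) (.cons (t2 8 24 46) (.cons a188 (.cons (t3 23 36 46) (.cons (t1 23 46 49) (.cons (t1 7 18 24) (.cons s78 (.cons (t3 18 36 49) (.cons s520 (.cons a468 (.cons (t2 23 30 49) (.cons (t2 11 30 49) (.cons (t3 7 18 30) (.cons (t2 11 23 30) (.cons (t1 7 11 30) (.cons s521 (.cons (t1 21 23 36) (.cons s201 (.cons s458 (.cons s7 (.cons a505 (.cons (t1 0 7 21) (.cons (t2 0 11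 23) (.cons a383 .nil)))))))))))))))))))))))))))))))))) (by decide +kernel)
theorem s524 : Valid A [2760, 2237, 956, 3004, 1468, 968, 1072, 912, 3017, 3043, 682, 930, 944, 4707] := rup _
  (.cons (t1 21 23 36) (.cons a203 (.cons s201 (.cons s32 (.cons (t1 5 36 49) (.cons (t3 5 23 36) (.cons (t3 7 17 21) (.cons s458 (.cons a217 (.cons (t3 5 11 23) (.cons s7 (.cons s231 (.cons a505 (.cons s147 (.cons (t1 0 23 49) (.cons a227 (.cons a492 (.cons (t1 7 21 22) (.cons (t1 22 36 49) (.cons s203 (.cons s152 (.cons (t2 17 22 30) (.cons a475 .nil))))))))))))))))))))))) (by decide +kernel)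
theorem s525 : Valid A [2914, 1000, 6377, 14, 98] := rup _
  (.cons a491 (.cons (t3 22 49 52) (.cons (t3 0 7 22) (.cons a226 .nil)))) (by decide +kernel)
theorem s526 : Valid A [3140, 2509, 3133, 956, 4962, 932, 1378, 3170] := rup _
  (.cons a168 (.cons (t1 24 30 34) (.cons (t1 10 34 49) (.cons (t2 34 38 49) (.cons a162 (.cons a158 (.cons (t1 7 10 30) (.cons (t3 10 19 38) (.cons s193 .nil))))))))) (by decide +kernel)
theorem s527 : Valid A [1454, 2363, 2761, 3133, 956, 3004, 3912, 1468, 4962, 968, 994, 1097, 1044, 3037, 682, 932, 1378, 4707, 2225, 3170] := rup _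
  (.cons (t1 24 36 49) (.cons (t2 21 24 36) (.cons (t3 8 21 36) (.cons a143 (.cons a134 (.cons (t1 17 24 29) (.cons a140 (.cons (t2 18 22 29) (.cons (t3 21 29 36) (.cons s434 (.cons a177 (.cons (t2 36 46 49) (.cons (t1 23 46 49) (.cons (t3 23 36 46) (.cons (t3 21 23 36) (.cons a506 (.cons (t3 0 23 49) (.cons (t1 21 36 49) (.cons a503 (.cons (t1 13 36 49) (.cons (t1 7 21 36) (.cons (t1 10 36 49) (.cons (t1 10 21 36) (.cons (t1 38 46 49) (.cons s78 (.cons (t3 11 23 49) (.cons s231 (.cons s521 (.cons s116 (.cons a384 (.cons (t2 36 49 52) (.cons (t3 10 36 52) (.cons (t3 7 36 52) (.cons s525 (.cons (t1 7 22 49) (.cons (t3 21 22 49) (.cons (t3 22 46 49) (.cons (t3 22 23 49) (.cons s301 (.cons a496 (.cons (t1 19 21 22) (.cons (t3 19 22 46) (.cons (t2 21 23 51) (.cons a173 (.cons s526 (.cons (t2 24 30 34) (.cons (t2 24 29 34) (.cons a164 (.cons (t1 10 29 34) (.cons s469 (.cons (t3 5 21 45) (.cons (t1 21 45 51) (.cons s177 .nil)))))))))))))))))))))))))))))))))))))))))))))))))))))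 (by decide +kernel)
theorem s528 : Valid A [3938, 1468, 4962, 3037, 682, 944, 2213, 1378, 4707, 2225, 3170] := rup _
  (.cons (t1 24 36 49) (.cons s434 (.cons a177 (.cons (t2 36 46 49) (.cons (t1 7 17 24) (.cons a481 (.cons (t1 36 46 48) (.cons (t2 23 46 48) (.cons s522 (.cons a187 (.cons (t1 7 36 46) (.cons (t3 7 46 49) (.cons (t2 8 24 46) (.cons (t3 8 36 46) (.cons (t1 10 36 49) (.cons (t3 10 36 46) (.cons (t2 8 10 46) (.cons a188 (.cons (t3 23 36 46) (.cons (t1 23 46 49) (.cons (t2 17 18 24) (.cons (t1 7 18 24) (.cons s78 (.cons (t3 18 36 49) (.cons (t1 30 36 49) (.cons a468 (.cons (t2 23 30 49) (.cons (t3 7 18 30) (.cons (t2 18 24 30) (.cons (t1 17 18 30) (.cons s524 (.cons (t2 21 24 36) (.cons (t3 8 21 36) (.cons (t1 7 21 36) (.cons a143 (.cons a207 (.cons a134 (.cons s22 (.cons (t1 17 24 29) (.cons (t1 18 24 29) (.cons (t2 24 29 30) (.cons a140 (.cons (t3 22 29 30) (.cons s527 (.cons a239 (.cons (t1 23 36 52) (.cons s116 (.cons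 (t3 7 30 52) (.cons (t3 22 30 52) (.cons a226 (.cons (t1 7 22 36) (.cons s169 (.cons (t1 7 22 51) (.cons (t3 30 36 51) (.cons s152 .nil))))))))))))))))))))))))))))))))))))))))))))))))))))))) (by decide +kernel)
theorem s529 : Valid A [4712, 1000, 1454, 1506, 956, 3913, 968, 3037, 682, 3164, 4707, 2225, 3170] := rup _
  (.cons (t1 24 36 49) (.cons a177 (.cons (t3 23 36 46) (.cons (t2 23 36 52) (.cons (t2 30 36 52) (.cons a238 (.cons s147 (.cons (t1 7 11 52) (.cons s201 (.cons s521 .nil)))))))))) (by decide +kernel)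
theorem s530 : Valid A [4713, 1454, 2236, 3913, 1468, 4684, 968, 1072, 912, 3017, 682, 930, 944, 4707] := rup _
  (.cons (t3 11 30 36) (.cons (t1 23 36 52) (.cons (t2 36 49 52) (.cons (t1 30 36 52) (.cons a235 (.cons a224 (.cons (t2 36 42 49) (.cons (t1 21 36 52) (.cons (t1 21 23 52) (.cons a203 (.cons s201 (.cons (t2 5 36 38) (.cons (t2 5 36 42) (.cons s458 (.cons a198 (.cons s7 (.cons (t1 7 21 29) (.cons a505 (.cons (t1 0 7 21) (.cons (t2 0 11 23) (.cons a383 (.cons (t1 7 11 17) (.cons (t2 7 11 29) (.cons s401 (.cons a133 (.cons (t1 11 16 36) (.cons (t1 11 16 38) (.cons a353 (.cons (t3 16 38 42) .nil))))))))))))))))))))))))))))) (by decide +kernel)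
theorem s531 : Valid A [2760, 1476, 919, 952, 3916, 1340, 968, 1072, 912, 682, 944, 1352] := rup _
  (.cons s201 (.cons s458 (.cons (t1 7 21 28) (.cons (t2 7 11 21) (.cons s216 (.cons (t1 11 21 29) (.cons (t2 10 11 34) (.cons (t1 10 11 29) (.cons a132 (.cons a162 (.cons (t2 10 29 38) (.cons (t1 30 34 38) (.cons a158 .nil))))))))))))) (by decide +kernel)
theorem s532 : Valid A [3037, 682, 4707, 3170, 2274] := rup _
  (.cons a403 (.cons (t1 24 36 49) (.cons s422 (.cons s434 (.cons a177 (.cons s78 (.cons (t3 18 36 49) (.cons a513 (.cons (t2 17 18 24) (.cons s495 (.cons s517 (.cons (t1 7 18 24) (.cons (t1 7 17 24) (.cons a481 (.cons (t1 36 46 48) (.cons (t2 36 46 49) (.cons (t1 10 36 49) (.cons (t1 17 36 49) (.cons (t1 23 46 49) (.cons (t3 23 36 46) (.cons (t2 23 46 48) (.cons s522 (.cons a187 (.cons a188 (.cons (t3 8 36 46) (.cons (t1 8 46 49) (.cons (t2 8 24 46) (.cons (t3 7 46 49) (.cons (t1 7 36 46) (.cons a429 (.cons a330 (.cons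 (t1 38 46 49) (.cons (t2 36 38 49) (.cons s523 (.cons s528 (.cons (t3 30 36 49) (.cons (t1 10 30 49) (.cons (t3 30 46 49) (.cons (t1 17 30 49) (.cons (t3 23 30 49) (.cons (t1 7 30 49) (.cons (t2 30 38 49) (.cons (t3 11 30 49) (.cons (t3 11 30 36) (.cons (t3 11 30 46) (.cons (t1 11 23 30) (.cons s530 (.cons (t2 23 36 52) (.cons s529 (.cons a238 (.cons a227 (.cons a228 (.cons s49 (.cons s58 (.cons (t3 7 17 52) (.cons (t3 7 24 52) (.cons (t3 7 11 52) (.cons (t2 11 22 52) (.cons (t2 11 34 52) (.cons (t2 11 17 52) (.cons (t2 11 24 52) (.cons s401 (.cons (t1 11 16 36) (.cons (t1 11 16 46) (.cons (t1 7 11 16) (.cons (t1 11 16 22) (.cons s531 (.cons a489 (.cons (t2 21 24 36) (.cons (t1 21 36 49) (.cons (t1 10 21 36) (.cons (t3 8 21 36) (.cons (t1 7 21 36) (.cons (t1 11 21 36) (.cons (t2 8 28 36) (.cons a503 (.cons a143 (.cons a207 (.cons (t1 13 36 49) (.cons a134 (.cons (t1 5 7 16) (.cons s10 (.cons (t1 17 24 29) (.cons (t1 18 24 29) (.cons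 (t3 11 24 29) (.cons (t1 0 17 24) (.cons a140 (.cons (t2 18 22 29) (.cons s301 (.cons a337 (.cons (t1 5 16 19) (.cons (t1 11 16 19) (.cons (t1 16 19 46) (.cons a173 (.cons (t1 11 19 38) (.cons (t1 5 19 38) (.cons (t1 16 19 38) (.cons a199 (.cons (t2 16 38 42) (.cons (t2 11 38 42) (.cons a353 (.cons s465 (.cons (t1 8 36 42) (.cons (t1 8 21 45) (.cons a359 .nil))))))))))))))))))))))))))))))))))))))))))))))))))))))))))))))))))))))))))))))))))))))))))))))))))))))))) (by decide +kernel)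
theorem s533 : Valid A [968, 942, 3036, 932, 944, 996, 1372, 2268, 4701, 4707, 3170] := rup _
  (.cons s78 (.cons (t1 23 36 46) (.cons a483 (.cons a481 (.cons (t1 36 46 48) (.cons (t2 36 46 49) (.cons (t3 7 36 46) (.cons (t3 7 36 49) (.cons s143 (.cons a429 (.cons s454 (.cons a330 (.cons a185 (.cons (t1 38 46 49) (.cons (t2 8 10 46) (.cons (t2 8 46 48) (.cons a399 (.cons a520 (.cons (t1 7 10 23) (.cons (t3 10 18 23) (.cons s88 (.cons a350 (.cons (t2 10 23 34) (.cons a345 (.cons s128 .nil))))))))))))))))))))))))) (by decide +kernel)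
theorem s534 : Valid A [3939, 1348, 4450, 1378] := rup _
  (.cons (t1 10 30 49) (.cons (t2 30 34 49) (.cons a162 .nil))) (by decide +kernel)
theorem s535 : Valid A [919, 920, 939, 2734, 979, 927, 433, 969, 2223, 2225] := rup _
  (.cons (t3 3 17 24) (.cons a66 (.cons a384 (.cons (t2 7 11 36) (.cons (t3 3 7 11) (.cons (t2 7 11 15) (.cons (t2 7 11 41) (.cons (t1 7 11 12) (.cons (t3 0 7 21) (.cons a381 (.cons a40 (.cons (t1 11 15 45) (.cons a4 (.cons a505 (.cons (t2 7 11 45) (.cons (t2 3 12 24) (.cons (t2 3 12 17) (.cons (t1 11 15 40) (.cons (t3 0 17 23) (.cons s157 (.cons (t1 12 24 45) (.cons (t2 12 17 45) (.cons a511 (.cons s91 (.cons (t3 4 17 45) (.cons (t3 4 17 24) (.cons a99 (.cons a7 (.cons (t2 4 15 40) .nil))))))))))))))))))))))))))))) (by decide +kernel)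
theorem s536 : Valid A [2761, 2536, 3048, 1001, 2486, 2479, 979, 927, 815, 431, 433, 1106, 1071, 969, 2223, 3016, 4707, 2225] := rup _
  (.cons (t2 7 41 52) (.cons (t1 7 36 49) (.cons (t2 7 15 49) (.cons a114 (.cons (t2 7 27 49) (.cons (t2 7 36 41) (.cons (t1 21 36 49) (.cons (t2 21 23 36) (.cons (t3 7 21 36) (.cons (t1 21 36 41) (.cons a500 (.cons a501 (.cons (t3 12 21 41) (.cons (t2 7 12 49) (.cons s535 (.cons (t3 7 11 52) (.cons a238 (.cons (t3 8 11 23) (.cons (t3 3 11 23) (.cons (t3 6 11 23) (.cons (t3 11 19 23) (.cons a41 (.cons a299 (.cons (t2 8 11 12) (.cons (t1 11 19 35) (.cons s278 (.cons (t2 7 32 41) (.cons (t3 32 41 52) (.cons a230 (.cons (t3 19 27 32) (.cons (t1 19 32 35) (.cons a412 (.cons a321 (.cons (t3 7 27 35) .nil)))))))))))))))))))))))))))))))))) (by decide +kernel)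
theorem s537 : Valid A [1001, 3133, 3938, 3149, 4684, 2486, 2479, 934, 979, 927, 815, 431, 433, 1106, 1071, 969, 942, 2223, 3016, 682, 4707, 2225] := rup _
  (.cons (t1 7 36 49) (.cons s49 (.cons (t3 7 23 52) (.cons (t2 7 49 52) (.cons (t3 7 19 52) (.cons (t3 7 28 36) (.cons a235 (.cons (t2 36 42 49) (.cons (t3 30 49 52) (.cons s536 (.cons a203 (.cons a487 (.cons (t2 5 36 38) (.cons (t2 5 36 42) (.cons s114 (.cons a198 (.cons (t3 24 28 30) (.cons (t1 24 38 42) (.cons a370 .nil))))))))))))))))))) (by decide +kernel)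
theorem s538 : Valid A [952, 3944, 2536, 2778, 998, 671, 678, 655, 716, 938, 2760, 5352, 3917, 829, 1085, 3133, 807, 2481, 979, 682] := rup _
  (.cons (t3 7 28 41) (.cons s117 (.cons s114 (.cons (t1 21 28 45) (.cons (t3 24 28 30) (.cons (t1 28 30 38) (.cons (t3 8 28 30) (.cons (t3 6 28 30) (.cons (t2 8 28 45) (.cons a368 (.cons a296 (.cons (t2 8 28 42) (.cons (t1 1 6 28) (.cons a356 (.cons (t1 28 38 42) (.cons (t1 1 24 28) (.cons a198 (.cons (t2 5 7 42) (.cons (t2 5 15 42) (.cons (t1 5 42 45) (.cons (t1 7 42 45) (.cons (t1 15 42 45) (.cons a100 (.cons (t1 4 7 45) (.cons (t1 4 5 45) (.cons a211 (.cons (t1 4 19 24) (.cons (t3 4 6 19) (.cons a309 (.cons a419 (.cons (t1 4 24 26) (.cons (t1 7 26 51) (.cons a279 (.cons (t2 1 26 51) (.cons a292 (.cons (t2 6 30 51) (.cons (t2 6 19 51) (.cons a466 (.cons a467 (.cons (t2 19 32 51) (.cons (t2 28 30 32) (.cons a230 (.cons a529 (.cons (t2 32 41 52) .nil))))))))))))))))))))))))))))))))))))))))))))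 (by decide +kernel)
theorem s539 : Valid A [4201, 2151, 2099, 2130, 1257, 1513, 790, 1468, 3944, 918, 2770, 2493, 1085, 3005, 974, 785, 3535] := rup _
  (.cons a118 (.cons (t1 30 32 52) (.cons (t3 11 32 52) (.cons (t3 9 32 52) (.cons a258 (.cons (t2 11 16 32) (.cons (t3 16 32 51) (.cons a371 (.cons a464 (.cons (t3 16 19 30) (.cons (t3 16 23 30) (.cons (t3 8 16 30) (.cons (t1 23 30 51) (.cons (t1 19 30 51) (.cons (t2 16 19 25) (.cons a289 (.cons a291 (.cons (t1 8 16 25) (.cons (t3 1 23 51) (.cons (t1 1 19 51) (.cons (t3 1 19 25) (.cons a284 (.cons a410 (.cons a411 (.cons (t2 1 21 41) (.cons (t2 6 8 35) (.cons a286 (.cons a298 (.cons (t2 21 25 37) (.cons (t2 21 25 35) (.cons (t3 7 11 35) (.cons (t2 11 32 35) (.cons a119 (.cons a324 (.cons (t3 7 35 37) (.cons (t3 27 35 37) (.cons a121 (.cons (t3 27 37 39) .nil)))))))))))))))))))))))))))))))))))))) (by decide +kernel)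
theorem s540 : Valid A [4948, 1257, 1513, 790, 406, 1468, 3303, 946, 3944, 2536, 918, 662, 723, 655, 716, 2770, 713, 2493, 1085, 3005, 1101, 974, 423, 1063, 785, 3535] := rup _
  (.cons (t2 8 38 42) (.cons a198 (.cons (t2 5 7 42) (.cons (t2 5 36 42) (.cons (t2 5 41 42) (.cons (t3 5 11 42) (.cons a355 (.cons (t1 16 41 42) (.cons (t2 7 16 42) (.cons a460 (.cons (t1 16 25 51) (.cons s539 (.cons a230 (.cons (t1 8 19 32) (.cons (t1 3 19 32) (.cons a518 (.cons a519 (.cons (t2 3 12 32) (.cons a360 (.cons a40 (.cons (t1 11 12 42) .nil))))))))))))))))))))) (by decide +kernel)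
theorem s541 : Valid A [3048, 918, 2778, 662, 5350, 998, 723, 671, 678, 655, 716, 2770, 938, 2760, 5352, 6376, 3917, 829, 2493, 1340, 1085, 3005, 3133, 3021, 1101, 4962, 1173, 807, 788, 423, 1063, 2479, 2481, 979, 785, 3535, 404, 1326, 995, 916, 682] := rup _
  (.cons a203 (.cons (t2 7 41 49) (.cons a443 (.cons (t2 7 39 49) (.cons (t2 19 23 52) (.cons (t1 23 38 52) (.cons (t1 23 30 52) (.cons s538 (.cons (t2 7 28 49) (.cons (t3 7 10 28) (.cons (t2 7 28 41) (.cons (t3 7 11 28) (.cons a537 (.cons (t3 25 28 41) (.cons a387 (.cons (t2 7 25 28) (.cons a527 (.cons (t1 10 11 23) (.cons (t1 10 11 30) (.cons (t3 3 10 11) (.cons (t3 6 10 11) (.cons (t1 9 10 11) (.cons a238 (.cons (t1 9 11 52) (.cons s540 (.cons (t1 38 42 49) (.cons (t1 38 42 52) (.cons a234 .nil)))))))))))))))))))))))))))) (by decide +kernel)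
theorem s542 : Valid A [2760, 5352, 6376, 3917, 829, 2493, 1340, 1085, 3005, 3133, 3021, 1101, 4684, 4962, 1173, 1993, 423, 1063, 2479, 2481, 2504, 979, 785, 3535, 2343, 404, 431, 456, 1326, 916, 969, 682, 1372, 4707] := rup _
  (.cons (t2 7 36 41) (.cons (t1 7 36 49) (.cons a307 (.cons a481 (.cons (t2 7 36 48) (.cons s150 (.cons (t3 7 33 49) (.cons a310 (.cons (t3 7 33 36) (.cons a52 (.cons (t3 3 6 33) (.cons (t2 3 6 19) (.cons (t1 3 6 10) (.cons a203 (.cons (t2 7 21 36) (.cons (t3 21 36 41) (.cons s32 (.cons (t1 5 36 49) (.cons (t2 5 36 38) (.cons (t3 5 7 36) (.cons (t2 5 19 36) (.cons (t3 5 15 36) (.cons (t1 5 36 41) (.cons (t2 7 36 51) (.cons (t1 36 41 51) (.cons a216 (.cons a217 (.cons s353 (.cons (t1 11 36 49) (.cons (t2 7 11 49) (.cons s541 (.cons a239 (.cons (t2 23 30 52) (.cons (t1 3 23 52) (.cons (t2 3 11 23) (.cons a224 (.cons (t2 3 21 52) (.cons a60 (.cons (t3 3 36 45) (.cons (t3 3 11 45) (.cons a379 .nil)))))))))))))))))))))))))))))))))))))))))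 (by decide +kernel)
theorem s543 : Valid A [2778, 1480, 406, 426, 2761] := rup _
  (.cons (t1 21 36 45) (.cons a60 (.cons a379 (.cons (t3 3 11 45) .nil)))) (by decide +kernel)
theorem s544 : Valid A [682, 4707, 3170, 2274] := rup _
  (.cons a403 (.cons (t1 24 36 49) (.cons s422 (.cons s434 (.cons a177 (.cons s78 (.cons (t3 18 36 49) (.cons a513 (.cons (t2 17 18 24) (.cons s495 (.cons s517 (.cons (t1 7 18 24) (.cons (t1 10 36 49) (.cons (t3 10 36 46) (.cons (t2 17 24 46) (.cons a481 (.cons s532 (.cons (t1 23 36 46) (.cons a193 (.cons a483 (.cons (t3 17 23 24) (.cons (t1 7 23 24) (.cons s533 (.cons s52 (.cons (t2 7 10 36) (.cons (t1 7 36 46) (.cons (t1 7 36 49) (.cons (t2 7 36 48) (.cons (t3 34 36 49) (.cons s193 (.cons a186 (.cons a187 (.cons a307 (.cons s150 (.cons a168 (.cons a181 (.cons s182 (.cons (t3 7 33 36) (.cons (t3 7 33 49) (.cons s431 (.cons s90 (.cons (t1 23 24 34) (.cons (t1 8 24 34) (.cons (t1 8 17 18) (.cons (t1 8 17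 23) (.cons a310 (.cons a106 (.cons a427 (.cons (t2 8 24 50) (.cons (t2 8 18 50) (.cons (t2 8 23 50) (.cons s145 (.cons (t2 23 34 50) (.cons (t3 8 15 34) (.cons (t1 8 34 41) (.cons a400 (.cons a314 (.cons a434 (.cons (t3 10 23 50) (.cons (t2 3 24 36) (.cons (t3 3 18 24) (.cons (t3 3 23 24) (.cons (t1 3 24 34) (.cons (t3 3 8 24) (.cons (t1 10 34 50) (.cons (t2 3 15 34) (.cons (t2 3 34 41) (.cons (t1 10 18 23) (.cons (t2 23 24 27) (.cons (t2 18 24 27) (.cons (t1 18 23 39) (.cons a52 (.cons (t2 3 10 18) (.cons (t2 3 23 33) (.cons (t2 3 8 33) (.cons (t3 3 15 33) (.cons (t1 3 33 41) (.cons a349 (.cons a325 (.cons (t2 3 24 33) (.cons (t2 3 18 33) (.cons (t3 6 23 33) (.cons (t3 6 8 33) (.cons a109 (.cons a446 (.cons a347 (.cons s72 (.cons (t1 18 19 36) (.cons (t2 18 19 24) (.cons (t2 18 19 23) (.cons (t1 8 18 19) (.cons (t1 18 19 27) (.cons (t1 3 18 19) (.cons a251 (.cons (t3 6 18 33) (.cons (t2 7 15 36) (.cons (t1 9 18 24) (.cons (t3 9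 24 50) (.cons (t1 9 19 24) (.cons a246 (.cons (t2 9 10 46) (.cons s420 (.cons a265 (.cons (t1 18 38 49) (.cons (t3 18 36 38) (.cons (t2 18 24 38) (.cons (t1 8 18 38) (.cons (t2 18 23 38) (.cons s534 (.cons (t1 30 36 49) (.cons a468 (.cons (t2 18 24 30) (.cons (t2 18 23 30) (.cons (t1 8 18 30) (.cons (t1 3 18 30) (.cons (t3 10 18 30) (.cons (t2 18 19 30) (.cons (t1 6 18 30) (.cons (t2 18 30 38) (.cons s537 (.cons (t1 7 36 52) (.cons (t1 7 49 52) (.cons (t1 7 41 52) (.cons s542 (.cons (t2 21 24 36) (.cons (t1 21 36 49) (.cons (t2 21 23 36) (.cons (t1 3 21 36) (.cons s116 (.cons (t3 7 21 36) (.cons a500 (.cons (t1 23 30 52) (.cons (t1 24 30 52) (.cons (t1 3 30 52) (.cons (t1 19 30 52) (.cons (t2 7 12 49) (.cons a240 (.cons (t2 3 11 52) (.cons a15 (.cons s535 (.cons (t1 20 24 52) (.cons (t3 7 11 36) (.cons s543 (.cons (t1 7 21 45) (.cons (t3 21 24 45) (.cons (t3 5 21 45) (.cons a30 (.cons s177 (.cons (t3 20 45 51) (.cons (t3 24 45 51)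 (.cons a22 .nil))))))))))))))))))))))))))))))))))))))))))))))))))))))))))))))))))))))))))))))))))))))))))))))))))))))))))))))))))))))))))))))))))))))))))))))))))))))) (by decide +kernel)
theorem s545 : Valid A [2779, 1000, 3786, 954, 1446, 3538, 1173, 1490, 979, 1451, 916, 969, 912, 1078, 2343, 938, 2760, 4707] := rup _
  (.cons (t3 7 21 41) (.cons (t2 7 36 41) (.cons a35 (.cons a34 (.cons a351 (.cons a347 (.cons s85 (.cons (t3 7 21 45) (.cons (t1 11 21 45) (.cons (t3 20 21 45) (.cons (t2 11 21 40) (.cons a29 (.cons a3 (.cons (t2 7 20 36) (.cons (t3 7 8 20) (.cons (t3 7 19 20) (.cons (t1 7 20 29) (.cons (t1 7 20 52) (.cons (t2 7 20 41) (.cons (t3 36 40 41) (.cons (t1 27 40 41) (.cons s292 (.cons a11 (.cons a14 (.cons (t1 11 45 52) (.cons (t2 20 36 37) (.cons (t2 20 37 41) (.cons (t3 10 19 52) (.cons s131 (.cons s109 (.cons a395 (.cons (t1 9 10 45) (.cons (t3 10 11 45) (.cons (t3 9 11 45) (.cons a389 (.cons a244 (.cons (t1 11 21 28)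 (.cons (t1 11 21 43) (.cons a487 (.cons a451 (.cons (t1 28 36 49) (.cons (t1 28 36 41) (.cons (t1 28 36 40) (.cons (t1 28 36 37) (.cons (t1 28 41 43) (.cons (t1 20 41 43) (.cons (t1 37 41 43) (.cons a537 (.cons (t3 25 28 40) (.cons (t3 25 28 37) (.cons a458 (.cons (t1 16 20 43) (.cons (t1 16 37 43) (.cons a0 (.cons a117 (.cons a25 (.cons (t1 16 25 27) (.cons (t1 8 16 27) .nil)))))))))))))))))))))))))))))))))))))))))))))))))))))))))) (by decide +kernel)
theorem s546 : Valid A [2778, 2218, 1451, 995, 4707, 3170, 2274] := rup _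
  (.cons a480 (.cons (t2 7 48 49) (.cons s57 (.cons s544 (.cons a204 (.cons s369 (.cons s384 (.cons (t2 36 45 49) .nil)))))))) (by decide +kernel)
theorem s547 : Valid A [406, 4812, 461, 972, 3538, 1173, 979, 423, 431, 419, 969, 995, 942, 912, 1078, 918, 2343, 4707, 3170, 2274] := rup _
  (.cons (t3 7 11 41) (.cons s544 (.cons a205 (.cons (t3 5 36 49) (.cons (t3 7 11 49) (.cons a215 (.cons (t2 5 11 21) (.cons s422 (.cons (t2 7 10 49) (.cons a210 (.cons a204 (.cons (t3 3 11 17) (.cons (t3 3 11 23) (.cons (t3 3 11 19) (.cons (t3 3 11 38) (.cons (t3 11 17 21) (.cons (t1 11 21 23) (.cons s294 (.cons a383 (.cons s4 (.cons a130 (.cons (t1 7 29 38) (.cons (t2 29 37 38) (.cons s546 (.cons s545 (.cons (t3 7 23 52) (.cons (t3 7 11 52) (.cons a238 .nil)))))))))))))))))))))))))))) (by decide +kernel)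
theorem s548 : Valid A [785, 3535, 918, 1071, 2343, 4707, 3170, 2274] := rup _
  (.cons a328 (.cons (t2 8 23 39) (.cons a327 (.cons (t2 8 23 27) (.cons a522 (.cons a402 (.cons a403 (.cons (t1 24 36 49) (.cons s422 (.cons s434 (.cons a177 (.cons s78 (.cons (t3 18 36 49) (.cons a513 (.cons (t2 17 18 24) (.cons (t2 18 19 24) (.cons (t1 17 18 19) (.cons a335 (.cons (t1 19 24 39) (.cons s72 (.cons s544 (.cons a205 (.cons (t3 5 36 49) (.cons a204 (.cons s495 (.cons s517 (.cons (t1 7 18 24) (.cons (t1 10 36 49) (.cons (t3 10 36 46) (.cons (t2 17 24 46) (.cons a480 (.cons (t1 6 8 23) (.cons (t2 6 8 48) (.cons (t2 6 8 39) (.cons a300 (.cons (t2 6 7 24) (.cons (t2 6 24 49) (.cons (t2 6 24 46) (.cons (t3 6 18 24) (.cons (t1 6 24 48) (.cons (t2 6 23 24) (.cons (t2 6 8 24) (.cons (t3 6 7 8) (.cons (t3 6 7 23) (.cons a304 (.cons (t1 6 23 46) (.cons (t2 6 18 23) (.cons s533 (.cons (t2 7 48 49) (.cons (t3 7 11 49) (.cons s150 (.cons s145 (.cons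 a215 (.cons (t3 7 33 49) (.cons s431 (.cons (t3 3 18 24) (.cons (t3 3 17 24) (.cons (t3 3 23 24) (.cons (t3 3 8 24) (.cons (t3 3 19 24) (.cons (t3 3 6 24) (.cons s23 (.cons (t2 5 11 21) (.cons a310 (.cons a427 (.cons (t2 8 24 50) (.cons (t3 8 10 50) (.cons (t2 3 8 41) (.cons (t1 3 6 41) (.cons a35 (.cons (t2 6 24 33) (.cons s186 (.cons a251 (.cons (t2 7 41 49) (.cons (t1 9 18 24) (.cons (t3 9 24 50) (.cons (t1 9 19 24) (.cons a445 (.cons a246 (.cons (t2 27 39 41) (.cons (t2 9 10 46) (.cons s420 (.cons a265 (.cons (t3 7 18 38) (.cons (t2 18 23 38) (.cons (t1 3 18 38) (.cons a125 (.cons s547 (.cons (t2 3 11 24) (.cons (t3 3 5 11) (.cons (t1 3 11 21) (.cons (t1 11 24 51) (.cons (t3 11 20 24) (.cons a62 (.cons a63 (.cons a22 (.cons (t1 3 5 45) (.cons s384 (.cons s177 (.cons (t1 7 36 45) (.cons (t3 20 45 51) (.cons a30 .nil)))))))))))))))))))))))))))))))))))))))))))))))))))))))))))))))))))))))))))))))))))))))))))))))))))))) (by decide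 +kernel)
theorem s549 : Valid A [969, 784, 944, 2268, 4701, 4707, 2225, 3170] := rup _
  (.cons (t1 24 36 49) (.cons a481 (.cons s52 (.cons (t1 7 36 46) (.cons (t1 7 36 49) (.cons (t2 7 36 48) (.cons (t3 34 36 49) (.cons a187 (.cons a307 (.cons s150 (.cons a168 (.cons a181 (.cons (t3 7 33 36) (.cons (t3 7 33 49) (.cons s90 (.cons (t3 6 8 17) (.cons a310 (.cons s145 (.cons (t3 6 17 33) (.cons (t2 3 24 36) (.cons (t3 3 17 24) (.cons (t2 3 17 33) (.cons a52 .nil))))))))))))))))))))))) (by decide +kernel)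
theorem s550 : Valid A [3535, 918, 1071, 2343, 4707, 3170, 2274] := rup _
  (.cons a403 (.cons (t1 24 36 49) (.cons s422 (.cons s434 (.cons a177 (.cons s78 (.cons (t3 18 36 49) (.cons a513 (.cons (t2 17 18 24) (.cons (t2 18 19 24) (.cons (t1 17 18 19) (.cons a335 (.cons (t1 19 24 39) (.cons s495 (.cons s517 (.cons (t2 36 46 49) (.cons (t2 17 24 46) (.cons a327 (.cons (t1 24 27 39) (.cons (t2 8 23 27) (.cons s548 (.cons s549 (.cons (t3 7 36 46) (.cons (t3 7 36 49) (.cons a429 (.cons s454 (.cons (t3 24 49 50) (.cons (t1 46 49 50) (.cons a185 (.cons a313 (.cons (t3 8 27 46) (.cons (t3 27 46 50) .nil)))))))))))))))))))))))))))))))) (by decide +kernel)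
theorem s551 : Valid A [6373, 3534, 2382, 2481, 2524, 1318, 2402, 5987, 1378, 3170] := rup _
  (.cons a330 (.cons (t3 24 49 50) (.cons (t3 18 49 50) (.cons (t1 38 46 49) (.cons a433 (.cons a173 (.cons (t3 27 39 50) (.cons (t3 10 19 38) (.cons (t2 19 24 38) (.cons a313 (.cons (t1 19 24 27) (.cons (t2 24 27 38) (.cons a155 (.cons (t3 27 34 38) (.cons (t2 24 27 34) (.cons a158 (.cons a168 (.cons (t1 10 34 49) .nil)))))))))))))))))) (by decide +kernel)
theorem s552 : Valid A [3534, 1071, 2382, 2254, 2481, 2524, 1318, 996, 2402, 5987, 2268, 1378, 2225, 3170] := rup _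
  (.cons s551 (.cons a429 (.cons s57 (.cons (t3 7 46 49) (.cons a168 (.cons a187 (.cons (t1 17 24 34) (.cons (t1 19 24 34) (.cons a181 (.cons (t1 8 17 34) (.cons a156 (.cons (t2 8 17 23) (.cons (t2 8 23 34) (.cons (t2 23 27 34) (.cons (t1 17 23 39) (.cons a325 .nil)))))))))))))))) (by decide +kernel)
theorem s553 : Valid A [2651, 2778, 1498, 1450] := rup _
  (.cons (t2 20 21 45) (.cons (t1 11 20 45) (.cons a33 .nil))) (by decide +kernel)
theorem s554 : Valid A [2778, 3149, 406, 1073, 1122, 986, 992, 1498, 995, 1507, 1450, 738, 2786, 683, 944, 3170] := rup _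
  (.cons s26 (.cons (t2 5 21 45) (.cons s177 (.cons s553 (.cons a29 (.cons (t3 20 45 51) (.cons (t2 7 20 49) (.cons (t1 7 20 24) (.cons a22 (.cons s355 (.cons s29 (.cons (t1 8 24 51) (.cons (t2 24 38 51) (.cons (t2 3 21 51) (.cons (t3 5 24 38) (.cons (t3 8 45 51) (.cons (t3 38 45 51) (.cons s248 (.cons a357 (.cons a359 (.cons (t1 5 12 49) (.cons (t1 8 12 49) (.cons (t2 38 42 45) (.cons a360 (.cons a198 (.cons (t3 5 12 42) .nil)))))))))))))))))))))))))) (by decide +kernel)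
theorem s555 : Valid A [1601, 1590, 921, 822, 790, 919] := rup _
  (.cons (t1 7 12 32) (.cons (t3 12 27 32) (.cons a413 (.cons a415 (.cons (t1 7 11 35) (.cons a321 (.cons a298 (.cons (t3 6 27 35) .nil)))))))) (by decide +kernel)
theorem s556 : Valid A [2650, 745, 2536, 731, 986, 934] := rup _
  (.cons a29 (.cons (t2 5 20 45) (.cons (t3 7 19 20) (.cons a14 (.cons (t3 5 20 52) .nil))))) (by decide +kernel)
theorem s557 : Valid A [1071, 2343, 4707, 3170, 2274] := rup _
  (.cons a403 (.cons (t1 24 36 49) (.cons s422 (.cons s434 (.cons a177 (.cons s78 (.cons (t3 18 36 49) (.cons a513 (.cons (t2 17 18 24) (.cons (t2 18 19 24) (.cons (t1 17 18 19) (.cons a335 (.cons (t1 19 24 39) (.cons (t2 18 19 39) (.cons a336 (.cons s72 (.cons a351 (.cons s544 (.cons a205 (.cons (t3 5 36 49) (.cons a204 (.cons (t3 21 36 49) (.cons a210 (.cons a209 (.cons s495 (.cons s517 (.cons (t1 7 18 24) (.cons (t1 10 36 49) (.cons (t3 10 36 46) (.cons (t2 36 46 49)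 (.cons (t2 17 24 46) (.cons a480 (.cons a402 (.cons s552 (.cons a327 (.cons a328 (.cons s550 (.cons (t2 8 23 27) (.cons (t2 8 23 39) (.cons s39 (.cons (t1 7 11 18) (.cons (t1 7 11 24) (.cons (t3 5 7 11) (.cons (t1 7 11 21) (.cons a215 (.cons (t3 11 36 49) (.cons (t2 11 48 49) (.cons (t3 11 46 49) (.cons (t1 7 11 49) (.cons (t3 11 34 49) (.cons a381 (.cons (t1 7 11 36) (.cons (t2 7 11 48) (.cons (t1 7 11 46) (.cons a305 (.cons a307 (.cons s212 (.cons a168 (.cons (t2 7 11 45) (.cons s549 (.cons s150 (.cons a187 (.cons (t3 6 7 11) (.cons (t3 7 8 49) (.cons (t3 7 8 36) (.cons (t3 7 8 23) (.cons s90 (.cons (t2 6 8 27) (.cons (t2 6 8 39) (.cons (t3 7 33 49) (.cons s431 (.cons a181 (.cons s182 (.cons (t1 8 23 36) (.cons s145 (.cons a300 (.cons a310 (.cons a106 (.cons (t3 8 10 50) (.cons (t1 8 17 18) (.cons (t2 8 24 50) (.cons a483 (.cons (t2 3 11 24) (.cons (t2 6 8 33) (.cons (t2 6 24 33) (.cons (t3 8 15 33) (.cons a251 (.cons a109 (.cons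 (t1 9 18 24) (.cons (t3 9 24 50) (.cons (t1 9 19 24) (.cons (t2 7 15 49) (.cons a246 (.cons a114 (.cons (t2 9 10 46) (.cons s420 (.cons a265 (.cons (t2 18 24 38) (.cons (t1 8 18 38) (.cons (t2 18 23 38) (.cons (t3 11 18 38) (.cons s554 (.cons a63 (.cons (t3 3 21 24) (.cons s248 (.cons (t3 7 12 49) (.cons (t1 8 12 49) (.cons (t2 12 27 49) (.cons s555 (.cons a517 (.cons (t2 8 24 32) (.cons (t2 8 32 38) (.cons a150 (.cons a152 (.cons (t3 29 32 38) (.cons a134 (.cons s449 .nil))))))))))))))))))))))))))))))))))))))))))))))))))))))))))))))))))))))))))))))))))))))))))))))))))))))))))))))))))))) (by decide +kernel)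
theorem s558 : Valid A [1116, 1070, 1314, 1372, 3164, 2225] := rup _
  (.cons (t2 17 24 46) (.cons a181 (.cons s182 (.cons (t2 8 10 17) (.cons s326 (.cons a399 (.cons (t1 10 23 46) .nil))))))) (by decide +kernel)
theorem s559 : Valid A [2343, 4707, 3170, 2274] := rup _
  (.cons a403 (.cons (t1 24 36 49) (.cons s422 (.cons s434 (.cons a177 (.cons s78 (.cons (t3 18 36 49) (.cons a513 (.cons (t2 17 18 24) (.cons (t1 10 36 49) (.cons (t3 10 36 46) (.cons a350 (.cons (t3 10 18 24) (.cons (t1 10 17 18) (.cons s557 (.cons s558 (.cons (t2 8 10 46) (.cons (t3 8 23 46) (.cons a399 (.cons a193 (.cons (t1 10 23 24) .nil))))))))))))))))))))) (by decide +kernel)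
theorem s560 : Valid A [1117, 1070, 932, 944, 996, 1372, 2268, 3164, 4707, 3170] := rup _
  (.cons (t1 24 36 49) (.cons a177 (.cons a187 (.cons (t3 8 23 46) (.cons (t1 7 36 46) (.cons a193 (.cons s533 (.cons (t1 7 23 24) .nil)))))))) (by decide +kernel)
theorem s561 : Valid A [1070, 932, 944, 996, 1372, 3164, 4707, 2225, 3170] := rup _
  (.cons (t1 7 17 24) (.cons a481 (.cons (t1 24 36 49) (.cons a177 (.cons (t1 36 46 48) (.cons (t2 36 46 49) (.cons (t2 17 24 46) (.cons s560 (.cons s182 (.cons s326 (.cons (t2 23 46 48) (.cons s522 .nil)))))))))))) (by decide +kernel)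
theorem s562 : Valid A [1116, 1044, 2342, 932, 930, 2213, 1372, 2268] := rup _
  (.cons a181 (.cons (t1 7 8 17) (.cons (t1 8 17 18) (.cons a185 (.cons (t3 8 10 18) (.cons (t2 7 10 46) (.cons a349 (.cons s193 .nil)))))))) (by decide +kernel)
theorem s563 : Valid A [4707, 3170, 2274] := rup _
  (.cons a403 (.cons (t1 24 36 49) (.cons s422 (.cons (t1 10 36 49) (.cons s434 (.cons a177 (.cons (t2 17 24 46) (.cons s78 (.cons (t2 36 46 49) (.cons (t3 10 36 46) (.cons (t3 18 36 49) (.cons a513 (.cons (t2 17 18 24) (.cons s495 (.cons s517 (.cons (t1 7 17 24) (.cons (t1 7 18 24) (.cons s544 (.cons a204 (.cons a205 (.cons a209 (.cons a210 (.cons (t3 21 36 46) (.cons (t3 5 36 49) (.cons s559 (.cons a345 (.cons (t3 5 7 19) (.cons (t1 7 19 21) (.cons s561 (.cons a402 (.cons a522 (.cons s562 (.cons a187 (.cons a188 (.cons (t3 8 36 46) (.cons (t1 8 46 49) (.cons (t2 8 23 46) (.cons (t2 8 21 46) (.cons (t3 7 46 49) (.cons (t1 7 19 46) (.cons (t3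 7 8 23) (.cons (t1 21 23 46) (.cons a429 (.cons s294 (.cons a330 (.cons (t1 38 46 49) (.cons a173 (.cons (t1 7 19 38) (.cons (t3 5 19 38) (.cons (t3 19 21 38) (.cons s472 (.cons (t2 7 11 38) (.cons a383 (.cons s4 (.cons a130 (.cons (t1 21 29 38) (.cons s462 .nil))))))))))))))))))))))))))))))))))))))))))))))))))))))))) (by decide +kernel)
theorem s564 : Valid A [683, 1484, 918, 1100, 995, 3017, 1097, 942] := rup _
  (.cons (t3 7 11 49) (.cons a204 (.cons a209 (.cons a210 (.cons (t2 8 21 36) (.cons (t1 21 23 36) (.cons (t3 5 7 49) (.cons s294 (.cons a215 (.cons a383 (.cons (t2 5 11 21) (.cons s4 (.cons (t1 11 21 29) (.cons a130 (.cons a142 (.cons (t1 8 29 38) .nil)))))))))))))))) (by decide +kernel)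
theorem s565 : Valid A [738, 682, 918, 995, 2531, 917, 935, 944, 3017, 968, 1352, 1072, 912] := rup _
  (.cons (t3 7 11 49) (.cons (t1 5 7 49) (.cons a215 (.cons a207 (.cons (t1 7 21 36) (.cons (t2 7 21 49) (.cons s458 (.cons (t2 7 19 21) (.cons (t2 7 10 21) (.cons a203 (.cons s7 (.cons a343 (.cons a344 (.cons (t2 10 21 45) (.cons s32 (.cons (t2 5 11 36) (.cons (t3 0 21 49) (.cons (t1 0 7 21) (.cons (t3 19 45 49) (.cons a381 (.cons a383 (.cons (t2 5 11 45) (.cons (t2 0 11 45) (.cons s177 (.cons s234 (.cons (t2 22 45 49) (.cons (t1 0 22 45) (.cons a491 .nil)))))))))))))))))))))))))))) (by decide +kernel)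
theorem s566 : Valid A [2778, 1480, 2474, 2761, 1446] := rup _
  (.cons (t1 21 36 45) (.cons a341 (.cons a379 (.cons (t3 11 19 45) .nil)))) (by decide +kernel)
theorem s567 : Valid A [918, 973, 1100, 3148, 2531, 917, 935, 944, 1379, 3017, 968, 1097, 1352, 3144, 942, 1072, 912, 4706] := rup _
  (.cons (t1 7 10 49) (.cons (t3 7 11 19) (.cons (t3 7 11 38) (.cons s564 (.cons s565 (.cons (t2 5 36 49) (.cons (t3 5 21 49) (.cons a203 (.cons (t2 19 21 49) (.cons (t2 21 24 36) (.cons (t3 21 23 36) (.cons (t3 8 21 36) (.cons a143 (.cons (t3 21 29 36) (.cons a134 (.cons (t3 7 24 29) (.cons (t1 24 29 38) (.cons a130 (.cons (t2 11 29 36) (.cons s474 (.cons (t1 0 7 49) (.cons a492 (.cons s566 (.cons (t3 5 21 45) (.cons (t1 21 45 49) (.cons (t2 21 23 45) (.cons s177 (.cons s354 (.cons (t1 23 45 51) (.cons (t1 22 45 51) (.cons a498 .nil))))))))))))))))))))))))))))))) (by decide +kernel)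
theorem s568 : Valid A [939, 954, 944, 1072, 912] := rup _
  (.cons s458 (.cons (t1 7 21 29) .nil)) (by decide +kernel)
theorem s569 : Valid A [2779, 2760, 938, 919, 968] := rup _
  (.cons (t3 7 21 45) (.cons (t3 21 36 45) (.cons s297 .nil))) (by decide +kernel)
theorem s570 : Valid A [2747, 4698, 2778, 1322, 683, 1507, 1442, 1444, 3017, 2248, 2213, 2225] := rup _
  (.cons a204 (.cons a137 (.cons (t2 17 21 24) (.cons s475 (.cons (t1 21 22 36) (.cons (t1 17 22 36) (.cons s203 .nil))))))) (by decide +kernel)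
theorem s571 : Valid A [2342, 944, 1348, 1379, 3017, 968, 2248, 1097, 1352, 3144, 2213, 942, 1072, 912, 988, 1044, 4706, 2225, 3170] := rup _
  (.cons (t2 17 18 24) (.cons (t1 7 18 24) (.cons (t1 7 17 24) (.cons a516 (.cons (t2 10 18 49) (.cons a345 (.cons a349 (.cons (t1 7 19 46) (.cons (t1 7 19 36) (.cons (t3 7 10 19) (.cons (t2 10 19 49) (.cons s443 (.cons (t1 7 10 49) (.cons (t1 18 24 38) (.cons s164 (.cons (t3 8 10 38) (.cons (t1 7 10 38) (.cons s567 (.cons a384 (.cons (t1 7 11 18) (.cons (t1 7 11 17) (.cons (t2 7 11 38) (.cons (t2 7 11 49) (.cons (t3 0 7 49) (.cons a131 (.cons a216 (.cons (t2 7 29 38) (.cons (t1 5 7 49) (.cons s568 (.cons a207 (.cons (t1 7 19 21) (.cons (t1 7 10 21) (.cons a204 (.cons (t2 8 21 36) (.cons s569 (.cons (t2 5 21 45) (.cons a341 (.cons s118 (.cons s177 (.cons (t2 19 45 49) (.cons (t3 19 36 45) (.cons a396 (.cons (t3 36 45 51) (.cons (t3 22 45 49) (.cons (t3 22 45 51) (.cons s570 (.cons a491 (.cons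 s152 (.cons a142 (.cons s8 (.cons (t2 8 29 36) (.cons (t3 22 29 36) .nil)))))))))))))))))))))))))))))))))))))))))))))))))))) (by decide +kernel)
theorem s572 : Valid A [4698, 1507, 98, 1303, 1322, 2778, 1480, 1442, 1444, 683, 3017, 2248, 1097, 2213, 2225] := rup _
  (.cons (t2 5 21 45) (.cons s177 (.cons a204 (.cons (t2 8 21 36) (.cons a379 (.cons s570 (.cons (t3 36 45 51) (.cons (t2 11 45 49) (.cons (t1 11 45 51) (.cons (t1 10 11 45) (.cons a142 (.cons (t1 10 11 51) (.cons a396 (.cons a397 (.cons s3 (.cons (t3 10 22 51) (.cons (t3 22 45 49) (.cons (t3 0 8 36) (.cons s152 (.cons a491 (.cons (t1 0 22 36) .nil))))))))))))))))))))) (by decide +kernel)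
theorem s573 : Valid A [4699, 5863, 1450, 2778, 944, 968, 3144] := rup _
  (.cons a380 (.cons (t3 7 36 45) (.cons (t3 24 36 45) (.cons s553 (.cons (t3 24 45 51) (.cons a29 (.cons (t3 20 45 51) (.cons (t1 7 20 24) (.cons a22 .nil))))))))) (by decide +kernel)
theorem s574 : Valid A [919, 683, 2530, 1318, 934, 944, 1379, 3017, 968, 2248, 1097, 3144, 2213, 2225] := rup _
  (.cons a210 (.cons a209 (.cons a204 (.cons (t2 17 18 24) (.cons (t1 7 18 24) (.cons (t1 7 17 24) (.cons a385 (.cons (t1 7 11 18) (.cons (t1 7 11 17) (.cons (t1 7 11 19) (.cons (t1 7 11 36) (.cons s569 (.cons (t3 5 7 11) (.cons (t1 7 11 21) (.cons (t2 5 21 45) (.cons s177 (.cons s573 (.cons a379 (.cons (t3 11 19 45) (.cons a341 (.cons (t3 10 19 21) (.cons (t3 5 19 21) (.cons (t2 5 19 49) (.cons a215 (.cons (t3 10 11 49) (.cons (t3 0 11 49) (.cons s572 .nil))))))))))))))))))))))))))) (by decide +kernel)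
theorem s575 : Valid A [4698, 2778, 23, 918, 656, 683, 2481, 934, 3017, 1071] := rup _
  (.cons (t2 5 21 45) (.cons a204 (.cons (t1 21 23 36) (.cons a210 (.cons s384 (.cons (t2 23 36 45) (.cons (t2 0 11 21) (.cons a505 (.cons s9 (.cons (t2 0 11 23) (.cons (t2 8 23 29) (.cons (t2 11 23 45) (.cons s170 (.cons s553 (.cons (t3 7 19 45) (.cons a29 (.cons (t1 7 20 21) (.cons (t3 7 11 20) (.cons a33 .nil))))))))))))))))))) (by decide +kernel)
theorem s576 : Valid A [2778, 23, 918, 683, 2481, 2504, 934, 1379, 3017, 1097, 1058, 1071, 4706, 2274] := rup _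
  (.cons a205 (.cons (t1 5 8 36) (.cons (t2 5 21 45) (.cons s177 (.cons s575 (.cons (t1 36 45 49) (.cons (t3 19 36 45) (.cons (t1 8 36 45) (.cons (t1 23 36 45) (.cons s170 (.cons (t1 8 45 51) (.cons (t1 23 45 51) (.cons (t3 8 17 29) (.cons (t2 8 29 51) (.cons (t2 8 29 45) (.cons a498 (.cons (t1 22 29 51) (.cons (t3 22 29 45) (.cons a138 (.cons s354 (.cons (t1 17 22 49) .nil))))))))))))))))))))) (by decide +kernel)
theorem s577 : Valid A [683, 4701, 2213, 1117, 1071, 3170, 2274] := rup _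
  (.cons a403 (.cons (t2 17 18 24) (.cons s563 (.cons a402 (.cons a187 (.cons a188 (.cons a182 (.cons (t3 8 17 24) (.cons (t3 7 8 23) (.cons a180 (.cons (t3 8 10 46) (.cons (t1 10 36 46) (.cons (t3 8 36 46) (.cons a183 (.cons (t1 17 36 46) (.cons (t1 7 36 46) (.cons (t2 8 23 46) (.cons (t3 23 36 46) (.cons (t1 36 46 49) (.cons a189 (.cons a522 (.cons (t1 8 46 48) (.cons (t2 36 46 48) (.cons a479 (.cons s106 (.cons (t2 10 34 49) (.cons a168 (.cons s47 (.cons s571 (.cons (t2 18 19 24) (.cons (t1 17 18 19) (.cons a516 (.cons (t1 18 19 49) (.cons s78 (.cons (t1 18 19 36) (.cons a351 (.cons a347 (.cons (t1 24 48 49) (.cons (t2 23 46 49) (.cons a194 (.cons a204 (.cons a209 (.cons a210 (.cons (t2 8 21 36) (.cons (t1 21 23 36) (.cons s294 (.cons s574 (.cons a383 (.cons s4 (.cons s576 (.cons a344 (.cons (t1 5 21 45) (.cons (t3 19 21 24) (.cons (t2 17 19 21) (.cons s202 (.cons s7 (.cons (t1 5 21 29) (.cons a505 (.cons (t2 5 11 29) (.cons (t2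 0 23 49) (.cons (t2 0 23 24) (.cons (t1 0 11 49) (.cons a215 (.cons (t3 5 10 49) (.cons (t3 5 7 49) (.cons (t2 5 45 49) (.cons (t2 5 10 45) (.cons (t1 7 48 49) (.cons a396 (.cons s145 (.cons (t2 21 22 45) (.cons (t3 22 45 49) (.cons (t3 3 17 24) (.cons (t1 0 3 24) (.cons s203 (.cons a491 (.cons (t3 0 3 22) (.cons (t1 3 17 22) .nil)))))))))))))))))))))))))))))))))))))))))))))))))))))))))))))))))))))))))))))) (by decide +kernel)
theorem s578 : Valid A [5859, 5863, 2218, 2736, 2779, 1122, 1379, 3017, 2248, 1072, 4706] := rup _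
  (.cons (t1 36 45 49) (.cons (t1 21 45 49) (.cons (t3 10 45 49) (.cons (t3 36 45 51) (.cons (t1 8 21 49) (.cons a396 (.cons s202 (.cons (t2 21 22 45) (.cons (t3 22 45 51) (.cons s203 (.cons s152 (.cons (t1 17 22 36) .nil)))))))))))) (by decide +kernel)
theorem s579 : Valid A [1125, 3126, 2382, 1072, 1060, 1071] := rup _
  (.cons (t3 8 24 50) (.cons (t2 8 23 50) (.cons (t3 8 18 50) (.cons a313 (.cons a433 (.cons (t3 23 27 50) (.cons (t3 27 39 50) (.cons a327 .nil)))))))) (by decide +kernel)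
theorem s580 : Valid A [2906, 23, 5858, 2791, 4454, 5863, 918, 1124, 682, 1348, 1379, 3017, 968, 1352, 912] := rup _
  (.cons (t2 10 45 49) (.cons s354 (.cons (t3 22 45 51) (.cons s234 (.cons a492 (.cons (t3 7 36 51) (.cons (t1 0 11 49) (.cons (t1 7 21 51) (.cons a207 (.cons (t2 5 7 11) (.cons a215 (.cons (t3 5 10 49) (.cons (t2 5 7 49) (.cons (t2 5 7 10) (.cons a430 (.cons (t3 7 22 49) (.cons s431 (.cons (t2 7 10 33) (.cons (t2 7 22 33) (.cons a392 (.cons a393 (.cons (t2 22 30 33) (.cons a162 (.cons a472 (.cons (t2 30 34 51) .nil))))))))))))))))))))))))) (by decide +kernel)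
theorem s581 : Valid A [23, 5858, 4454, 2779, 918, 1124, 682, 1348, 3042, 1379, 3017, 968, 1352, 912] := rup _
  (.cons (t3 5 21 45) (.cons s177 (.cons (t1 21 45 51) (.cons a386 (.cons s580 (.cons (t3 21 22 45) (.cons (t2 22 45 49) (.cons (t1 22 45 51) (.cons a497 (.cons (t3 22 23 36) (.cons (t2 21 22 23) (.cons (t2 21 22 36) (.cons s201 (.cons (t3 0 7 21) (.cons a505 (.cons (t3 0 21 22) (.cons (t2 0 23 49) (.cons a491 .nil)))))))))))))))))) (by decide +kernel)
theorem s582 : Valid A [2779, 918, 1124, 682, 2501, 2481, 2215, 2343, 932, 6243, 3042, 1122, 1379, 3017, 968, 2248, 1097, 1352, 2402, 942, 1072, 912, 3170, 2274] := rup _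
  (.cons a336 (.cons s106 (.cons a168 (.cons s47 (.cons (t2 10 34 49) (.cons (t1 24 48 49) (.cons (t2 10 24 49) (.cons s563 (.cons a403 (.cons a63 (.cons a342 (.cons a344 (.cons (t3 5 21 45) (.cons (t2 18 19 45) (.cons (t1 19 34 45) (.cons (t3 19 21 24) (.cons (t2 17 19 21) (.cons s177 (.cons (t3 18 45 51) (.cons (t3 34 45 51) (.cons (t1 21 45 51) (.cons s578 (.cons (t2 21 45 49) (.cons s581 (.cons a383 (.cons s2 (.cons s568 (.cons a207 (.cons s201 (.cons s294 (.cons (t2 5 7 11) (.cons (t3 0 5 7) (.cons (t3 8 21 36) (.cons (t2 21 23 45) (.cons (t2 21 23 51) (.cons a143 (.cons a496 (.cons a498 (.cons a134 (.cons (t3 22 23 45) (.cons (t1 17 24 29) (.cons s354 (.cons a141 (.cons a492 (.cons (t2 22 24 49) (.cons (t1 0 7 49) (.cons (t1 0 5 49) (.cons (t1 7 48 49) (.cons a215 (.cons s150 (.cons s145 (.cons (t2 11 18 49) (.cons (t3 10 11 49) (.cons (t2 11 17 49) (.cons s432 (.cons (t2 3 10 24) (.cons (t2 3 22 24) (.cons (t3 3 10 11) (.cons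 a431 (.cons (t3 7 18 50) (.cons s248 (.cons s482 (.cons (t2 12 18 49) (.cons (t3 12 22 49) (.cons s476 (.cons (t3 12 18 30) (.cons (t1 12 22 30) (.cons (t1 18 30 51) (.cons a472 .nil))))))))))))))))))))))))))))))))))))))))))))))))))))))))))))))))))))) (by decide +kernel)
theorem s583 : Valid A [5863, 4698, 2906, 1370, 3017, 1352] := rup _
  (.cons s234 (.cons (t3 36 45 51) .nil)) (by decide +kernel)
theorem s584 : Valid A [2523, 2906, 1370, 2778, 682, 2504, 934, 3017, 968, 1352] := rup _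
  (.cons (t3 19 36 45) (.cons (t3 7 19 45) (.cons s583 (.cons s177 (.cons s199 (.cons (t2 5 36 45) (.cons (t1 7 21 36) (.cons a203 .nil)))))))) (by decide +kernel)
theorem s585 : Valid A [2475, 682, 2504, 934, 968] := rup _
  (.cons (t3 7 19 21) (.cons (t1 19 21 36) (.cons s201 .nil))) (by decide +kernel)
theorem s586 : Valid A [5858, 3034, 3163, 2267, 2778, 2736, 682, 2504, 934, 3042, 1379, 3017, 968, 1352, 1071] := rup _
  (.cons s585 (.cons a341 (.cons (t2 10 45 49) (.cons s584 (.cons (t2 22 23 45) (.cons (t2 22 45 49) (.cons (t3 17 22 45) (.cons (t3 22 24 45) (.cons a139 (.cons (t1 22 24 29) (.cons a134 (.cons a143 (.cons s7 (.cons (t3 8 21 23) (.cons a505 (.cons (t2 0 23 49) (.cons (t2 0 22 23) (.cons a491 .nil)))))))))))))))))) (by decide +kernel)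
theorem s587 : Valid A [2778, 682, 2478, 2481, 2215, 2530, 2504, 934, 3042, 1379, 3017, 968, 1352, 1071] := rup _
  (.cons s585 (.cons (t3 19 21 24) (.cons a341 (.cons (t1 17 19 45) (.cons (t2 19 24 45) (.cons (t3 19 23 45) (.cons s586 (.cons (t1 19 45 49) .nil)))))))) (by decide +kernel)
theorem s588 : Valid A [4698, 5858, 1480, 2779, 682, 4706] := rup _
  (.cons (t3 5 21 45) (.cons (t2 21 36 45) (.cons a379 (.cons a203 (.cons (t1 5 11 45) (.cons (t2 11 45 49) (.cons (t2 5 36 49) (.cons a215 .nil)))))))) (by decide +kernel)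
theorem s589 : Valid A [2877, 2894, 428, 462] := rup _
  (.cons (t1 22 30 39) (.cons (t3 3 22 30) (.cons a48 .nil))) (by decide +kernel)
theorem s590 : Valid A [4701, 2213, 1117, 1071, 3170, 2274] := rup _
  (.cons a403 (.cons (t2 17 18 24) (.cons a516 (.cons s60 (.cons (t3 8 18 23) (.cons a188 (.cons (t3 7 8 23) (.cons a182 (.cons (t3 8 17 24) (.cons (t2 8 23 46) (.cons a522 (.cons (t1 8 46 48) (.cons a402 (.cons (t3 8 10 46) (.cons a187 (.cons a183 (.cons s563 (.cons a180 (.cons s78 (.cons (t1 36 46 49) (.cons (t1 10 36 46) (.cons (t3 8 36 46) (.cons (t1 17 36 46) (.cons (t1 7 36 46) (.cons (t2 36 46 48) (.cons (t3 23 36 46) (.cons a189 (.cons (t2 8 46 49) (.cons (t2 23 46 49) (.cons a479 (.cons s106 (.cons (t1 24 48 49) (.cons (t2 10 34 49) (.cons a168 (.cons s47 (.cons (t1 18 24 34) (.cons (t1 7 18 24) (.cons s571 (.cons a347 (.cons (t1 18 19 36) (.cons (t1 18 19 49) (.cons (t1 17 18 19) (.cons (t2 18 19 24) (.cons (t1 18 19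 23) (.cons (t2 18 19 34) (.cons a335 (.cons a156 (.cons (t2 18 19 39) (.cons (t1 19 24 39) (.cons (t2 24 27 34) (.cons s577 (.cons s579 (.cons s585 (.cons (t2 18 19 21) (.cons (t3 19 21 24) (.cons (t2 17 19 21) (.cons s587 (.cons (t3 18 21 45) (.cons (t3 5 21 45) (.cons s582 (.cons s177 (.cons (t1 7 11 36) (.cons s578 (.cons (t3 18 45 51) (.cons s588 (.cons (t3 21 36 45) (.cons (t1 23 36 45) (.cons (t1 7 21 36) (.cons (t1 23 45 51) (.cons a207 (.cons a496 (.cons a498 (.cons (t1 5 7 11) (.cons (t3 22 23 45) (.cons a217 (.cons s354 (.cons (t1 5 48 49) (.cons (t1 5 7 49) (.cons (t2 22 24 49) (.cons (t1 5 7 48) (.cons s150 (.cons s145 (.cons s432 (.cons (t2 3 24 39) (.cons (t2 3 22 24) (.cons a431 (.cons (t3 7 18 50) (.cons s482 (.cons (t2 22 39 49) (.cons s589 (.cons (t3 22 30 49) (.cons a472 (.cons a468 (.cons (t1 18 30 51) .nil)))))))))))))))))))))))))))))))))))))))))))))))))))))))))))))))))))))))))))))))))))))))))))))) (by decide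 +kernel)
theorem s591 : Valid A [2779, 2905, 473, 2521, 917, 429, 1344, 1341, 940, 1324] := rup _
  (.cons a61 (.cons (t1 3 22 45) (.cons (t1 3 44 45) (.cons a395 (.cons (t3 10 21 45) (.cons (t3 10 32 45) (.cons (t1 7 10 21) (.cons (t2 10 21 30) (.cons a271 (.cons a223 (.cons (t3 19 32 44) (.cons (t3 22 32 44) (.cons (t2 7 21 52) (.cons a231 (.cons (t2 22 32 52) (.cons a226 .nil)))))))))))))))) (by decide +kernel)
theorem s592 : Valid A [2906, 2778, 2905, 3033, 2521, 2477, 2531, 917, 1344, 1353, 940, 1324, 3043, 712] := rup _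
  (.cons a395 (.cons (t2 19 22 45) (.cons (t1 22 44 45) (.cons (t2 10 21 45) (.cons (t2 10 36 45) (.cons (t3 10 32 45) (.cons (t1 7 10 45) (.cons a341 (.cons (t3 10 21 36) (.cons a380 (.cons a271 (.cons (t2 19 21 49) (.cons a203 (.cons (t2 7 11 45) (.cons (t3 19 32 44) (.cons (t3 22 32 44) (.cons (t3 23 32 44) (.cons (t1 5 21 49) (.cons a231 (.cons (t2 22 32 52) (.cons a216 (.cons (t2 23 32 52) (.cons a226 (.cons (t1 11 23 49) (.cons a238 (.cons (t3 7 11 52) .nil)))))))))))))))))))))))))) (by decide +kernel)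
theorem s593 : Valid A [3943, 2918, 2915, 3145, 2213, 1117, 1071, 4706, 2225] := rup _
  (.cons (t1 22 49 51) (.cons (t2 17 18 24) (.cons (t1 18 24 36) (.cons a516 (.cons s60 (.cons (t3 8 18 23) (.cons a188 (.cons (t3 7 8 23) (.cons (t2 8 23 46) (.cons a521 (.cons a400 (.cons a466 (.cons s31 (.cons (t2 30 49 51) (.cons a468 (.cons (t2 18 24 30) (.cons (t1 17 18 30) (.cons (t3 18 23 30) (.cons (t1 5 18 30) (.cons (t2 18 30 36) (.cons (t2 24 30 32) (.cons (t3 23 30 51) (.cons (t3 5 18 36) (.cons a495 (.cons (t2 22 23 49) (.cons (t1 10 22 23) (.cons (t1 7 22 23) (.cons (t3 8 22 23) (.cons (t3 10 23 49) (.cons (t2 23 46 49) (.cons (t3 7 23 49) (.cons (t3 23 48 49) (.cons a479 (.cons s103 (.cons (t1 18 36 48) (.cons (t1 30 36 48) (.cons (t1 24 36 48) (.cons s127 (.cons (t2 30 34 36) (.cons a45 (.cons (t1 10 34 49) (.cons (t3 34 46 49) (.cons (t3 23 34 49) (.cons (t3 22 34 49) (.cons a162 (.cons (t3 3 24 36) (.cons (t3 3 24 30) (.cons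 a393 (.cons (t1 10 30 36) (.cons (t3 10 18 30) (.cons (t3 10 17 30) (.cons (t3 10 24 30) (.cons (t1 5 10 30) (.cons (t2 10 30 32) (.cons (t1 10 30 48) (.cons (t3 10 33 36) (.cons (t1 10 24 33) (.cons (t3 10 33 48) (.cons a352 (.cons (t1 10 17 19) (.cons a52 (.cons s176 (.cons s51 (.cons (t1 33 34 49) (.cons (t1 33 34 46) (.cons (t1 3 33 34) (.cons s141 (.cons a311 (.cons (t1 3 33 49) (.cons (t1 3 33 46) (.cons (t3 3 23 34) (.cons (t3 3 22 34) (.cons (t3 7 18 24) (.cons (t1 7 24 30) (.cons (t2 7 24 32) (.cons (t1 7 24 48) (.cons (t3 7 10 24) (.cons a304 (.cons (t1 6 7 24) (.cons (t1 6 7 48) (.cons (t1 6 7 30) (.cons a301 (.cons a302 (.cons a262 (.cons (t1 6 30 39) (.cons (t2 17 24 39) (.cons (t1 9 24 48) (.cons (t1 9 18 48) (.cons a48 (.cons a333 (.cons a250 (.cons (t2 3 23 39) (.cons (t2 3 39 49) (.cons (t2 3 39 46) (.cons (t2 3 22 39) (.cons (t2 3 33 39) (.cons (t1 9 33 46) (.cons a326 (.cons a328 (.cons a444 (.cons (t1 19 39 49)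 (.cons (t3 27 39 49) (.cons (t1 19 39 46) (.cons (t3 19 22 39) (.cons (t2 33 39 41) (.cons (t3 23 27 34) (.cons a175 (.cons a446 (.cons s436 (.cons (t2 34 38 46) (.cons (t2 9 38 46) (.cons (t2 7 18 41) (.cons (t3 7 32 41) (.cons (t2 7 18 27) (.cons a158 (.cons a265 (.cons (t2 18 38 41) (.cons (t1 32 38 41) (.cons a277 (.cons (t3 5 10 38) (.cons (t1 18 24 44) (.cons a269 (.cons (t1 19 39 44) (.cons (t1 3 39 44) (.cons (t1 23 39 44) (.cons (t1 22 39 44) (.cons s591 (.cons s592 (.cons (t1 22 45 51) (.cons (t1 8 22 45) (.cons (t2 22 44 45) (.cons s177 (.cons a357 (.cons a272 (.cons (t2 5 42 45) (.cons (t2 22 42 45) (.cons (t2 22 32 45) (.cons a198 (.cons a363 (.cons (t3 32 38 42) .nil)))))))))))))))))))))))))))))))))))))))))))))))))))))))))))))))))))))))))))))))))))))))))))))))))))))))))))))))))))))))))))))))))))))))))))) (by decide +kernel)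
theorem s594 : Valid A [2907, 2778, 2108, 429, 3939, 2918, 2888, 2915, 2249] := rup _
  (.cons (t1 21 22 45) (.cons (t2 22 45 49) (.cons (t3 22 36 45) (.cons (t1 3 22 45) (.cons (t1 22 45 51) (.cons (t2 3 21 22) (.cons s177 (.cons (t2 5 21 45) (.cons (t2 5 36 45) (.cons (t1 5 45 49) (.cons (t3 3 5 45) (.cons a203 (.cons a216 (.cons a217 (.cons (t2 3 5 11) (.cons (t1 11 30 49) (.cons s543 (.cons a371 (.cons (t3 11 17 36) (.cons a377 .nil)))))))))))))))))))) (by decide +kernel)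
theorem s595 : Valid A [683, 2920, 2733, 2760, 2787, 427, 2108, 432, 3939, 3145, 942, 1326, 2225] := rup _
  (.cons a209 (.cons a210 (.cons (t1 5 21 49) (.cons (t1 5 21 22) (.cons (t3 5 7 22) (.cons (t3 7 21 49) (.cons (t2 3 7 21) (.cons a216 (.cons a226 (.cons a64 (.cons (t1 11 21 49) (.cons (t1 11 30 49) (.cons s49 (.cons (t3 7 23 52) (.cons (t2 7 24 52) (.cons (t1 7 24 36) (.cons s158 (.cons a371 (.cons (t3 7 28 36) (.cons (t1 17 24 52) (.cons (t3 30 34 49) (.cons (t3 21 34 49) (.cons a377 (.cons a487 (.cons (t3 11 17 52) (.cons a164 (.cons (t1 10 21 34) (.cons (t3 11 21 28) (.cons (t3 10 21 28) (.cons a238 (.cons a387 (.cons (t1 10 11 23) .nil)))))))))))))))))))))))))))))))) (by decide +kernel)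
theorem s596 : Valid A [1506, 675, 738, 2108, 3939] := rup _
  (.cons a215 (.cons (t1 11 30 49) (.cons (t2 5 11 17) (.cons a371 (.cons a377 .nil))))) (by decide +kernel)
theorem s597 : Valid A [945, 3163, 2602, 2920, 2778, 2864, 2353] := rup _
  (.cons (t3 7 18 24) (.cons (t2 7 22 24) (.cons (t1 7 24 45) (.cons a346 (.cons a226 (.cons a32 (.cons (t3 7 19 45) (.cons (t3 7 19 52) (.cons (t3 7 20 52) (.cons a341 (.cons a14 (.cons (t2 19 20 21) .nil)))))))))))) (by decide +kernel)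
theorem s598 : Valid A [2778, 445, 429, 3939, 2918, 2915, 1096, 3145, 2353, 942, 1072, 1372, 912, 988, 1326, 3170, 2274] := rup _
  (.cons a58 (.cons (t3 3 16 30) (.cons (t1 3 22 49) (.cons (t3 3 16 49) (.cons s563 (.cons (t2 22 36 49) (.cons (t2 3 22 36) (.cons (t2 22 24 49) (.cons (t2 3 22 24) (.cons a403 (.cons (t1 17 24 36) (.cons s594 (.cons (t2 3 22 45) (.cons a60 (.cons (t2 3 21 49) (.cons (t1 3 21 36) (.cons (t2 3 21 22) (.cons (t2 3 21 30) (.cons a223 (.cons (t1 21 49 52) (.cons (t1 21 22 52) (.cons s595 (.cons a203 (.cons (t3 5 21 49) (.cons (t3 5 17 36) (.cons s596 (.cons (t2 11 17 49) (.cons (t3 11 21 49) (.cons (t2 11 16 49) (.cons a34 (.cons s384 (.cons a375 (.cons (t3 8 36 45) (.cons (t1 24 36 45) (.cons (t1 17 36 45) (.cons (t1 16 17 24) (.cons (t1 16 17 36) (.cons (t1 16 17 45) (.cons a354 (.cons (t3 16 42 45) (.cons (t1 16 24 42) (.cons a356 (.cons (t3 7 8 42) (.cons s597 (.cons (t3 7 24 36) (.cons a64 (.cons s201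 (.cons s16 (.cons (t2 3 7 49) (.cons s458 (.cons s568 (.cons (t3 3 34 49) (.cons a430 (.cons a432 (.cons (t3 7 46 49) (.cons (t2 7 29 49) (.cons (t3 7 42 49) (.cons (t1 11 21 29) (.cons a189 (.cons (t3 10 29 49) (.cons a234 (.cons a132 (.cons (t3 10 30 49) (.cons (t3 7 10 49) (.cons (t2 10 34 49) (.cons s97 (.cons (t3 29 38 49) (.cons (t2 10 29 38) (.cons a393 (.cons (t2 7 10 33) (.cons a367 (.cons (t2 8 28 42) (.cons a329 (.cons s164 (.cons s431 (.cons (t2 24 28 38) (.cons (t3 8 28 50) (.cons (t1 28 38 50) .nil)))))))))))))))))))))))))))))))))))))))))))))))))))))))))))))))))))))))))))))) (by decide +kernel)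
theorem s599 : Valid A [944, 462, 483, 456, 418, 432, 3939, 3145, 2213, 1072, 1372, 912, 988, 2225, 3170] := rup _
  (.cons (t2 17 18 24) (.cons (t1 7 18 24) (.cons a64 (.cons s16 (.cons (t2 3 7 49) (.cons (t1 3 7 39) (.cons (t3 3 34 49) (.cons a307 (.cons a430 (.cons (t3 7 46 49) (.cons a168 (.cons a189 (.cons (t1 17 24 34) (.cons (t3 10 30 49) (.cons (t3 3 10 49) (.cons (t3 7 10 49) (.cons a393 (.cons (t2 3 10 33) (.cons (t2 7 10 33) (.cons (t3 10 33 49) (.cons a52 (.cons s431 (.cons a310 (.cons (t3 24 33 36) (.cons (t3 8 24 50) (.cons (t3 6 24 33) (.cons s188 (.cons a301 (.cons (t2 3 7 27) (.cons (t2 17 24 39) (.cons a36 (.cons (t2 17 18 27) (.cons (t2 17 27 34) (.cons a155 (.cons (t2 18 19 27) (.cons (t2 17 19 27) (.cons a345 (.cons a333 (.cons (t1 7 19 39) .nil))))))))))))))))))))))))))))))))))))))) (by decide +kernel)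

end Pool.Agent.Helper50.Canon.CD
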