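import Mathlib
import Pool.Agent.Helper50.Canon.CD.C4

set_option autoImplicit false

namespace Pool.Agent.Helper50.Canon.CD

theorem s600 : Valid A [429, 2918, 2915, 2213, 1117, 1071, 3170, 2274] := rup _
  (.cons a403 (.cons s563 (.cons a183 (.cons (t1 17 24 46) (.cons s590 (.cons a177 (.cons s593 (.cons a472 (.cons (t2 22 30 49) (.cons (t2 22 24 49) (.cons (t1 17 22 49) (.cons (t2 22 36 49) (.cons a492 (.cons (t2 17 18 24) (.cons (t1 18 24 36) (.cons (t2 8 36 46) (.cons a188 (.cons (t3 7 8 23) (.cons a182 (.cons (t3 8 17 24) (.cons (t2 8 23 46) (.cons a402 (.cons (t3 8 10 46) (.cons a187 (.cons a400 (.cons a58 (.cons (t2 3 22 24) (.cons (t1 3 22 30) (.cons (t2 3 17 22) (.cons (t2 3 22 36) (.cons (t1 3 22 49) (.cons (t3 3 16 49) (.cons a50 (.cons s598 (.cons a61 (.cons a342 (.cons (t3 3 45 49) (.cons (t1 3 22 45) (.cons s599 (.cons (t2 7 24 49) (.cons (t3 7 17 24) (.cons (t1 7 24 36) (.cons (t3 7 18 24) (.cons s158 (.cons a348 (.cons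 s106 (.cons (t3 30 34 49) (.cons (t3 22 34 49) (.cons a479 (.cons a164 (.cons (t1 10 22 34) (.cons (t1 18 36 48) (.cons (t1 7 36 48) (.cons (t3 10 34 49) (.cons a395 (.cons a189 (.cons (t3 10 21 45) (.cons (t2 10 19 45) (.cons (t1 8 46 49) (.cons (t1 23 46 49) (.cons (t1 10 21 23) (.cons (t3 8 10 21) (.cons a349 (.cons (t2 8 16 49) (.cons (t1 0 23 49) (.cons (t1 16 23 49) (.cons (t1 10 18 36) (.cons (t3 10 17 18) (.cons (t2 10 18 21) (.cons (t3 7 10 18) (.cons a505 (.cons (t2 10 21 36) (.cons (t2 10 36 45) (.cons (t2 10 17 21) (.cons (t2 10 17 45) (.cons (t3 0 18 21) (.cons (t1 7 10 45) (.cons s7 (.cons (t1 0 21 45) (.cons (t3 0 10 21) (.cons a489 (.cons a380 (.cons (t3 0 17 21) (.cons s6 (.cons a88 (.cons a142 (.cons (t2 10 21 29) (.cons (t2 0 11 45) (.cons (t1 0 10 11) (.cons (t2 7 28 36) (.cons (t2 10 28 36) (.cons (t1 11 17 45) (.cons a511 (.cons a79 (.cons (t2 8 29 49) (.cons (t2 8 23 29) (.cons (t3 8 16 29) (.cons a387 (.cons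 (t1 4 7 17) (.cons (t1 4 10 17) (.cons (t3 2 23 49) (.cons (t3 2 29 49) (.cons (t3 2 8 49) (.cons s67 (.cons a146 (.cons (t3 2 4 29) (.cons a84 (.cons (t3 4 23 29) (.cons a90 (.cons (t1 2 4 43) (.cons (t3 1 4 23) (.cons a454 (.cons a288 (.cons (t2 7 24 43) (.cons (t3 7 28 43) (.cons a282 (.cons a283 (.cons (t1 1 17 24) (.cons (t1 1 16 43) (.cons (t1 1 16 17) (.cons a456 (.cons a375 (.cons (t1 1 16 28) (.cons (t2 11 16 23) (.cons (t2 11 16 29) (.cons (t3 1 11 16) (.cons a296 (.cons a297 (.cons a238 (.cons (t1 1 11 38) (.cons (t2 23 49 52) (.cons (t1 2 23 52) (.cons a130 (.cons a72 (.cons (t3 18 29 38) (.cons (t1 6 49 52) (.cons a304 (.cons (t1 6 7 48) (.cons (t1 6 7 43) (.cons a262 (.cons a264 (.cons (t3 6 9 43) (.cons (t1 9 18 48) (.cons s113 (.cons a265 (.cons (t2 9 28 38) .nil)))))))))))))))))))))))))))))))))))))))))))))))))))))))))))))))))))))))))))))))))))))))))))))))))))))))))))))))))))))))))))))))))))))))))))))))))) (by decide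 +kernel)
theorem s601 : Valid A [2779, 1357, 2082, 1063, 2479, 2477, 1353, 1315, 46, 1324] := rup _
  (.cons a339 (.cons (t2 8 16 19) (.cons a342 (.cons a344 (.cons (t1 19 22 45) (.cons (t3 19 21 23) (.cons (t2 8 19 21) (.cons a395 (.cons a505 (.cons (t3 10 21 45) (.cons (t2 10 17 45) (.cons (t2 10 36 45) (.cons (t2 10 38 45) (.cons s7 (.cons (t2 10 21 38) (.cons a380 (.cons (t1 11 38 45) (.cons a142 (.cons (t3 21 29 38) (.cons (t1 11 17 45) (.cons (t3 8 16 29) (.cons a130 (.cons a375 (.cons (t2 11 16 29) .nil)))))))))))))))))))))))) (by decide +kernel)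
theorem s602 : Valid A [4699, 2778, 422, 2504, 456] := rup _
  (.cons (t3 3 36 45) (.cons (t3 19 36 45) (.cons a60 (.cons a341 (.cons (t3 3 19 21) .nil))))) (by decide +kernel)
theorem s603 : Valid A [462, 1353, 1315, 3005, 46, 1085, 4445, 3933, 2511, 1324, 1348, 2504, 418, 969, 398, 428, 2877, 2918] := rup _
  (.cons (t3 3 7 36) (.cons (t3 3 22 30) (.cons a48 (.cons s589 (.cons (t1 3 19 39) (.cons (t2 30 39 46) (.cons (t3 19 30 39) (.cons (t3 19 22 39) (.cons (t1 19 39 46) (.cons (t3 19 23 30) (.cons (t3 8 19 30) (.cons a340 (.cons a175 (.cons a56 (.cons (t2 34 38 46) (.cons (t1 3 16 17) (.cons a158 (.cons s601 (.cons s602 (.cons (t2 10 36 45) (.cons (t2 7 36 45) (.cons a395 (.cons (t1 22 45 51) (.cons (t3 3 22 45) (.cons s177 (.cons s153 (.cons s199 .nil))))))))))))))))))))))))))) (by decide +kernel)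
theorem s604 : Valid A [4698, 2778, 1353, 1324, 969, 398, 428, 2918] := rup _
  (.cons (t2 10 36 45) (.cons (t2 7 36 45) (.cons a395 (.cons (t1 22 45 51) (.cons (t3 3 22 45) (.cons s177 (.cons s153 (.cons s199 .nil)))))))) (by decide +kernel)
theorem s605 : Valid A [2778, 1353, 400, 1324, 969, 398, 428, 2918, 2220, 2249, 3145, 1072] := rup _
  (.cons (t3 3 7 36) (.cons s604 (.cons (t1 21 36 45) (.cons (t3 3 36 45) (.cons (t1 21 24 36) (.cons (t2 17 21 36) (.cons a60 (.cons (t1 3 21 22) (.cons (t3 3 8 21) (.cons s203 (.cons s202 .nil))))))))))) (by decide +kernel)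
theorem s606 : Valid A [4699, 2779, 1251, 5090, 1353, 1123, 2254, 969, 428, 2236, 2364, 3939, 2220, 2377, 2249, 2402, 4706] := rup _
  (.cons a380 (.cons (t1 36 45 49) (.cons (t3 21 36 45) (.cons (t1 18 36 45) (.cons (t1 17 36 45) (.cons (t1 7 36 45) (.cons (t1 10 36 45) (.cons (t1 11 17 45) (.cons (t1 11 18 45) (.cons (t2 10 11 45) (.cons a489 (.cons a88 (.cons s476 (.cons (t2 10 28 36) (.cons a79 (.cons (t1 11 30 49) (.cons (t2 9 11 49) (.cons a387 (.cons (t3 2 8 49) (.cons (t3 2 9 49) (.cons s401 (.cons (t3 9 11 28) (.cons a84 (.cons (t1 2 9 43) (.cons (t2 11 16 28) (.cons s113 (.cons a457 .nil))))))))))))))))))))))))))) (by decide +kernel)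
theorem s607 : Valid A [917, 3005, 46, 2863, 476, 4445, 3933, 1123, 2254, 933, 931, 994, 945, 428, 2877, 2918, 2220, 2915, 2377, 2249, 3145, 2402, 1072, 4706] := rup _
  (.cons (t3 3 22 49) (.cons (t1 3 8 49) (.cons (t2 22 30 49) (.cons (t3 8 30 49) (.cons (t3 8 22 49) (.cons a346 (.cons (t1 7 17 19) (.cons a333 (.cons s158 (.cons (t3 30 34 49) (.cons a164 (.cons (t3 22 34 49) (.cons (t1 10 22 34) (.cons (t1 7 24 36) (.cons (t3 7 19 36) (.cons a348 (.cons a65 (.cons (t3 3 7 17) (.cons (t3 17 22 30) (.cons (t1 18 22 49) (.cons (t3 18 22 30) (.cons (t2 7 10 17) (.cons (t2 7 10 36) (.cons (t2 7 10 18) (.cons s603 (.cons (t1 3 39 46) (.cons (t1 3 39 49) (.cons (t3 3 8 39) (.cons (t2 19 39 46) (.cons (t1 8 19 39) (.cons s443 (.cons (t2 10 18 38) (.cons a158 (.cons (t2 34 38 49) (.cons (t1 22 34 38) (.cons a330 (.cons a429 (.cons (t2 7 10 50) (.cons a247 (.cons (t3 9 10 18) (.cons a265 (.cons (t1 9 38 49) (.cons s605 (.cons s606 (.cons (t2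 10 36 45) (.cons (t2 21 36 45) (.cons (t2 7 36 45) (.cons a395 (.cons (t1 21 24 36) (.cons (t3 21 22 45) (.cons (t2 22 45 49) (.cons (t1 22 45 51) (.cons (t1 8 22 45) (.cons (t2 22 23 45) (.cons (t2 22 38 45) (.cons (t1 21 22 49) (.cons (t1 21 22 30) (.cons (t3 8 21 22) (.cons (t1 21 22 23) (.cons (t1 21 22 38) (.cons s177 (.cons a357 (.cons a359 (.cons a501 (.cons a223 (.cons a143 (.cons (t2 8 12 21) (.cons (t1 21 23 52) (.cons (t3 21 29 38) (.cons (t1 5 45 49) (.cons (t3 5 23 45) (.cons (t3 5 38 45) (.cons (t3 42 45 49) (.cons (t1 21 49 52) (.cons (t1 21 45 52) (.cons a134 (.cons a360 (.cons a217 (.cons (t3 5 11 23) (.cons (t3 5 11 38) (.cons a234 (.cons s131 (.cons a151 (.cons a152 (.cons a238 (.cons a130 (.cons (t3 11 42 52) (.cons (t2 7 24 52) (.cons (t3 7 19 52) (.cons (t2 11 29 32) (.cons (t3 24 32 52) (.cons (t3 11 12 42) (.cons (t1 11 12 32) (.cons a230 (.cons a517 (.cons (t3 8 19 32) .nil))))))))))))))))))))))))))))))))))))))))))))))))))))))))))))))))))))))))))))))))))))))))))))))))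 (by decide +kernel)
theorem s608 : Valid A [945, 428, 2877, 2918, 2220, 2915, 3145, 2213, 3037, 1372, 1117, 4706, 2225, 3170] := rup _
  (.cons (t3 3 22 30) (.cons (t3 3 22 49) (.cons (t2 22 24 49) (.cons (t3 22 24 30) (.cons a516 (.cons (t1 18 22 49) (.cons (t3 18 22 30) (.cons (t2 22 30 49) (.cons a492 (.cons (t2 17 18 24) (.cons (t1 18 24 36) (.cons (t1 17 24 36) (.cons a182 (.cons (t3 8 17 24) (.cons a65 (.cons (t2 7 24 49) (.cons (t3 7 17 24) (.cons (t1 7 24 36) (.cons (t3 7 18 24) (.cons s158 (.cons (t2 7 24 30) (.cons (t3 3 7 36) (.cons (t3 3 7 18) (.cons s106 (.cons (t3 30 34 49) (.cons (t1 3 34 49) (.cons s139 (.cons a479 (.cons a164 (.cons a165 (.cons (t2 17 18 39) (.cons (t1 7 36 48) (.cons (t3 10 34 49) (.cons a189 (.cons (t1 8 46 49) (.cons (t1 23 46 49) (.cons (t3 30 46 49) (.cons (t3 34 46 49) (.cons (t1 3 46 49) (.cons (t3 22 23 49) (.cons (t1 0 23 49) (.cons (t3 23 30 49) (.cons s607 (.cons (t3 7 10 48) (.cons s183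 (.cons s135 (.cons (t3 7 33 36) (.cons s370 (.cons a52 (.cons (t1 3 33 34) .nil)))))))))))))))))))))))))))))))))))))))))))))))))) (by decide +kernel)
theorem s609 : Valid A [433, 482, 3939, 3145, 5984, 1372, 3170] := rup _
  (.cons a46 (.cons (t1 3 24 36) (.cons a54 (.cons s211 (.cons (t1 3 24 33) (.cons s106 (.cons (t3 46 48 49) (.cons a168 (.cons a189 (.cons (t3 24 33 34) (.cons (t3 10 30 49) (.cons (t3 10 48 49) (.cons s176 (.cons a393 (.cons (t3 10 33 48) .nil))))))))))))))) (by decide +kernel)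
theorem s610 : Valid A [4450, 994, 432, 944, 3145, 4706, 3170] := rup _
  (.cons a168 (.cons s127 (.cons s90 (.cons s103 (.cons s145 (.cons a479 (.cons (t1 7 48 49) .nil))))))) (by decide +kernel)
theorem s611 : Valid A [2918, 2915, 2213, 1117, 1071, 3170, 2274] := rup _
  (.cons a516 (.cons (t1 18 22 49) (.cons (t1 17 22 49) (.cons a403 (.cons a183 (.cons (t1 17 24 46) (.cons s590 (.cons a177 (.cons (t1 17 24 36) (.cons (t2 17 18 24) (.cons (t2 8 23 46) (.cons a522 (.cons (t1 8 46 48) (.cons a402 (.cons (t3 8 10 46) (.cons s563 (.cons s593 (.cons a472 (.cons (t2 22 30 49) (.cons (t3 18 22 30) (.cons s600 (.cons (t3 3 22 49) (.cons (t3 3 22 30) (.cons s608 (.cons (t3 7 24 36) (.cons (t1 7 18 24) (.cons s609 (.cons (t3 3 24 36) (.cons (t1 3 18 24) (.cons a64 (.cons s139 (.cons (t1 3 7 49) (.cons (t1 3 7 22) (.cons (t2 17 18 39) (.cons (t1 18 24 39) (.cons s301 (.cons (t3 19 22 49) (.cons s610 (.cons s106 (.cons (t3 30 34 49) (.cons (t2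 34 36 49) (.cons a479 (.cons a164 (.cons a165 (.cons (t3 7 36 48) (.cons s150 (.cons (t2 3 7 33) (.cons a52 (.cons (t2 33 36 49) (.cons (t3 17 33 36) (.cons (t2 33 34 36) (.cons s148 (.cons s370 (.cons a304 (.cons (t1 7 10 33) (.cons (t3 10 17 33) (.cons (t2 6 24 49) (.cons (t2 6 19 49) (.cons s193 (.cons (t1 10 17 19) (.cons a300 (.cons a333 (.cons (t3 6 19 39) .nil))))))))))))))))))))))))))))))))))))))))))))))))))))))))))))))) (by decide +kernel)
theorem s612 : Valid A [428, 956, 932, 399, 1340, 1316, 1379, 1122, 2915, 3145, 1117, 4706, 3170] := rup _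
  (.cons a66 (.cons a65 (.cons (t3 10 22 49) (.cons a188 (.cons a187 (.cons (t3 3 22 49) (.cons (t1 3 10 22) (.cons (t1 3 7 49) (.cons (t1 3 7 10) (.cons s610 (.cons s193 (.cons s183 (.cons (t3 10 34 49) (.cons a349 (.cons s432 (.cons a160 (.cons a347 (.cons s72 (.cons a431 (.cons (t3 7 46 50) (.cons (t3 7 19 50) (.cons (t3 34 38 49) (.cons a329 (.cons (t2 38 46 50) (.cons (t1 19 38 50) (.cons a173 .nil)))))))))))))))))))))))))) (by decide +kernel)
theorem s613 : Valid A [2779, 16, 986, 14, 995, 968, 731, 2906, 738, 2220, 2249, 3145, 1072] := rup _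
  (.cons (t2 21 22 45) (.cons (t3 5 21 45) (.cons (t1 7 21 45) (.cons a204 (.cons s569 (.cons (t1 21 24 36) (.cons (t2 17 21 36) (.cons s226 (.cons s203 (.cons (t1 0 5 21) (.cons s202 (.cons (t3 0 8 21) .nil)))))))))))) (by decide +kernel)
theorem s614 : Valid A [46, 1319, 986, 14, 995, 968, 731, 2906, 1370, 20, 738, 2220, 2249, 3145, 1072, 1071] := rup _
  (.cons a400 (.cons (t1 0 8 23) (.cons s613 (.cons s118 (.cons (t1 10 21 23) (.cons (t3 0 10 21) (.cons a505 .nil))))))) (by decide +kernel)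
theorem s615 : Valid A [2342, 986, 1348, 917, 14, 995, 932, 968, 731, 20, 1325, 1316, 1379, 738, 684, 2220, 3016, 3145, 2353, 1117, 1071, 2225, 3170] := rup _
  (.cons a398 (.cons a397 (.cons (t1 17 24 36) (.cons a182 (.cons (t3 8 17 24) (.cons a187 (.cons a345 (.cons a349 (.cons (t1 7 19 46) (.cons s443 (.cons (t1 18 24 38) (.cons s164 (.cons (t1 7 10 38) (.cons (t2 10 22 38) (.cons s614 (.cons a506 (.cons s9 (.cons (t2 0 23 36) (.cons (t2 8 21 23) (.cons (t2 8 23 29) (.cons a142 (.cons a136 (.cons a137 (.cons (t2 17 24 29) (.cons (t3 21 24 36) (.cons (t2 17 21 24) (.cons a138 (.cons s203 (.cons (t2 22 29 38) (.cons (t1 5 21 22) (.cons a131 (.cons a203 (.cons (t2 7 11 38) (.cons (t1 0 5 36) (.cons s226 .nil))))))))))))))))))))))))))))))))))) (by decide +kernel)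
theorem s616 : Valid A [2747, 2871, 3555, 3924, 6376, 941, 956, 2220, 2225] := rup _
  (.cons a227 (.cons a136 (.cons a137 (.cons (t2 17 24 29) (.cons (t2 17 21 24) (.cons a138 (.cons s203 (.cons (t2 22 27 29) (.cons (t3 7 21 22) (.cons a127 (.cons s147 (.cons (t3 27 42 49) (.cons (t3 30 42 52) (.cons a234 .nil)))))))))))))) (by decide +kernel)
theorem s617 : Valid A [399, 731, 1340, 1316, 1379, 1122, 2365, 684, 2348, 2220, 2915, 3016, 3145, 2353, 1117, 1071, 4706, 2225, 3170] := rup _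
  (.cons (t3 10 22 49) (.cons a398 (.cons a492 (.cons (t1 0 10 49) (.cons (t2 18 24 30) (.cons (t3 5 22 49) (.cons a493 (.cons (t1 18 24 36) (.cons (t1 17 24 36) (.cons a182 (.cons (t3 8 17 24) (.cons a188 (.cons a65 (.cons a66 (.cons s16 (.cons (t3 7 24 36) (.cons (t1 7 18 24) (.cons (t3 7 24 30) (.cons (t1 3 17 24) (.cons s612 (.cons a59 (.cons (t1 3 22 49) (.cons (t1 0 3 22) (.cons (t3 3 10 22) (.cons (t2 3 22 45) (.cons (t2 3 7 22) (.cons (t2 3 7 49) (.cons (t3 3 34 49) (.cons (t3 0 3 7) (.cons (t2 3 7 10) (.cons (t1 3 10 34) (.cons (t1 3 7 45) (.cons a227 (.cons a168 (.cons (t1 7 49 52) (.cons (t1 17 24 34) (.cons (t1 18 24 34) (.cons s615 (.cons (t2 18 19 36) (.cons (t2 18 19 24) (.cons (t1 18 19 22) (.cons (t2 18 19 30) (.cons (t2 18 19 34) (.cons a337 (.cons a156 (.cons (t1 16 19 30) (.cons (t1 16 19 36) (.cons (t2 17 27 34) (.cons a354 (.cons a36 (.cons (t1 16 30 42) (.cons (t2 3 27 49) (.cons (t2 3 22 27) (.cons s616 (.cons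 s458 (.cons s199 (.cons a344 (.cons s613 (.cons (t3 19 21 24) (.cons (t1 0 8 23) (.cons s202 (.cons a506 (.cons (t2 8 21 23) .nil))))))))))))))))))))))))))))))))))))))))))))))))))))))))))))))) (by decide +kernel)
theorem s618 : Valid A [483, 398, 1316, 1379, 1122, 3145, 2353, 1372, 912, 3170, 2274] := rup _
  (.cons s563 (.cons a403 (.cons (t2 3 24 49) (.cons (t2 3 17 49) (.cons (t3 3 7 49) (.cons a64 (.cons (t3 7 17 24) (.cons (t1 7 24 36) (.cons (t3 7 18 24) (.cons s158 (.cons a348 (.cons s106 (.cons (t3 3 34 49) (.cons (t3 10 34 49) (.cons a349 (.cons a479 (.cons a160 (.cons (t1 10 19 46) (.cons (t2 10 19 34) (.cons (t1 24 36 48) (.cons (t1 7 36 48) (.cons (t3 34 38 49) (.cons s443 (.cons a156 (.cons (t2 7 18 38) (.cons (t3 27 34 49) (.cons (t2 3 27 34) (.cons s414 (.cons a36 (.cons a429 (.cons s432 (.cons (t1 7 18 50) (.cons (t1 7 17 27) (.cons (t1 10 49 50) (.cons a110 (.cons a112 (.cons a448 (.cons (t2 7 24 33) (.cons (t3 7 15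 27) (.cons a247 (.cons a95 (.cons a251 (.cons a113 (.cons (t3 9 10 49) (.cons (t3 9 24 48) (.cons (t1 15 49 50) (.cons (t2 15 41 49) (.cons s167 (.cons (t2 15 41 50) (.cons a445 (.cons (t3 6 24 48) (.cons (t3 39 41 50) (.cons a301 (.cons a433 (.cons (t2 18 24 39) .nil))))))))))))))))))))))))))))))))))))))))))))))))))))))) (by decide +kernel)
theorem s619 : Valid A [945, 994, 482, 1316, 1379, 1122, 2365, 3145, 2353, 1372, 912, 4706] := rup _
  (.cons (t2 18 24 30) (.cons a67 (.cons (t1 7 24 36) (.cons (t3 7 18 24) (.cons s158 (.cons (t3 3 24 30) (.cons a348 (.cons s106 (.cons (t3 10 34 49) (.cons a349 (.cons a479 (.cons a160 (.cons (t1 10 19 46) (.cons (t1 24 36 48) (.cons (t1 7 36 48) (.cons (t3 34 38 49) (.cons s443 (.cons (t2 7 18 38) (.cons s414 (.cons a429 (.cons s432 (.cons (t1 7 18 50) (.cons (t1 10 49 50) (.cons (t3 3 49 50) (.cons (t2 7 24 33) (.cons s137 (.cons a247 (.cons a251 (.cons (t2 18 24 39) (.cons (t3 9 10 49) (.cons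 (t3 9 24 48) (.cons a301 (.cons s167 (.cons (t3 6 24 48) .nil)))))))))))))))))))))))))))))))))) (by decide +kernel)
theorem s620 : Valid A [2380, 1348, 2343, 1379, 2353, 1372, 3170] := rup _
  (.cons s72 (.cons (t1 18 24 38) (.cons (t1 18 19 38) (.cons s164 (.cons a173 (.cons (t1 10 38 46) .nil)))))) (by decide +kernel)
theorem s621 : Valid A [994, 482, 398, 1340, 1379, 1122, 2365, 3145, 2353, 2402, 1372, 912, 4706, 3170] := rup _
  (.cons (t2 10 18 49) (.cons (t2 18 24 30) (.cons (t1 7 10 49) (.cons s619 (.cons (t1 7 18 24) (.cons (t3 7 24 30) (.cons a64 (.cons s193 (.cons s183 (.cons a46 (.cons (t1 3 24 36) (.cons a349 (.cons s432 (.cons s211 (.cons s106 (.cons (t2 10 34 49) (.cons s620 (.cons (t1 18 38 49) (.cons (t3 7 18 38) (.cons s414 .nil)))))))))))))))))))) (by decide +kernel)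
theorem s622 : Valid A [2746, 433, 14, 986, 968, 944, 995, 731, 2906, 738, 2220, 2249, 3145, 1072, 912, 1071] := rup _
  (.cons s458 (.cons s199 (.cons a63 (.cons s613 (.cons (t3 3 21 24) (.cons (t1 0 8 23) (.cons s202 (.cons a506 (.cons (t2 8 21 23) .nil))))))))) (by decide +kernel)
theorem s623 : Valid A [2915, 2213, 1117, 1071, 3170, 2274] := rup _
  (.cons a403 (.cons (t2 17 18 24) (.cons a183 (.cons (t1 17 24 46) (.cons s590 (.cons a177 (.cons (t1 18 24 36) (.cons (t1 17 24 36) (.cons (t2 8 23 46) (.cons (t2 23 36 46) (.cons a516 (.cons s60 (.cons (t3 8 18 23) (.cons a182 (.cons (t3 8 17 24) (.cons a402 (.cons (t3 8 10 46) (.cons a188 (.cons s563 (.cons a492 (.cons (t1 17 22 49) (.cons (t1 18 22 49) (.cons s611 (.cons a473 (.cons a497 (.cons s27 (.cons (t2 22 49 51) (.cons (t1 30 49 51) (.cons (t3 22 23 49) (.cons (t3 5 22 49) (.cons a468 (.cons (t1 23 46 49) (.cons (t2 8 23 49) (.cons (t3 18 23 30) (.cons a189 (.cons (t2 10 18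 49) (.cons (t3 10 22 49) (.cons (t1 0 10 49) (.cons (t2 10 30 49) (.cons (t1 10 49 51) (.cons a397 (.cons a398 (.cons (t3 10 45 51) (.cons (t3 10 45 49) (.cons s177 (.cons s617 (.cons s618 (.cons s621 (.cons s57 (.cons (t2 7 24 49) (.cons (t2 7 18 49) (.cons (t2 7 36 49) (.cons (t2 7 45 49) (.cons (t3 7 22 49) (.cons (t1 0 7 49) (.cons (t2 7 30 49) (.cons (t3 7 10 49) (.cons (t2 10 34 49) (.cons a64 (.cons s615 (.cons a227 (.cons s620 (.cons (t3 3 18 24) (.cons (t2 18 36 38) (.cons (t2 18 24 38) (.cons (t2 18 30 38) (.cons (t1 3 18 38) (.cons s622 (.cons a136 (.cons a137 (.cons a144 (.cons (t3 24 29 38) (.cons (t2 17 21 24) (.cons (t1 8 23 29) (.cons s203 (.cons (t2 21 22 45) (.cons (t3 7 21 22) (.cons s448 (.cons s147 (.cons (t1 11 30 38) (.cons a130 (.cons s231 (.cons (t2 11 23 29) .nil))))))))))))))))))))))))))))))))))))))))))))))))))))))))))))))))))))))))))))))))))) (by decide +kernel)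
theorem s624 : Valid A [2761, 2220, 968, 995, 2914, 2249, 3016, 3145, 942] := rup _
  (.cons (t3 21 24 36) (.cons (t2 21 23 36) (.cons (t3 17 21 36) (.cons (t1 7 21 36) (.cons a137 (.cons s294 (.cons (t2 17 21 29) (.cons (t3 0 7 49) (.cons a138 (.cons a491 (.cons s8 .nil))))))))))) (by decide +kernel)
theorem s625 : Valid A [2746, 731, 2748, 2736, 2760, 956, 1348, 917, 968, 944, 995, 1352, 1072, 912, 1071] := rup _
  (.cons s458 (.cons s202 (.cons (t3 7 21 49) (.cons (t1 7 10 21) (.cons s201 (.cons (t2 8 21 23) (.cons s26 (.cons (t2 5 21 49) (.cons (t2 5 21 45) (.cons a507 (.cons (t1 5 21 23) (.cons (t1 21 23 51) (.cons s569 (.cons (t1 0 5 21) (.cons (t3 7 11 49) (.cons (t1 7 10 11) (.cons s226 (.cons a215 (.cons (t2 5 11 21) (.cons (t2 5 11 23) (.cons s216 (.cons a239 (.cons s84 (.cons s323 (.cons a222 (.cons (t3 7 30 52) .nil)))))))))))))))))))))))))) (by decide +kernel)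
theorem s626 : Valid A [2747, 2218, 2220, 3042, 2914, 1071] := rup _
  (.cons a143 (.cons s7 (.cons s203 (.cons (t3 8 21 23) (.cons a505 (.cons (t3 0 21 22) (.cons (t2 0 23 49) (.cons a491 .nil)))))))) (by decide +kernel)
theorem s627 : Valid A [2220, 445, 3913, 956, 457, 1348, 917, 968, 944, 995, 404, 3042, 1352, 2914, 2249, 3016, 3145, 1072, 912, 1071] := rup _
  (.cons (t3 7 8 23) (.cons s624 (.cons (t1 21 24 36) (.cons (t2 17 21 36) (.cons (t1 21 30 36) (.cons (t2 3 21 36) (.cons s626 (.cons s458 (.cons s625 (.cons (t1 7 10 21) (.cons s201 (.cons (t1 5 21 45) (.cons a60 (.cons s200 (.cons (t3 3 10 45) .nil))))))))))))))) (by decide +kernel)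
theorem s628 : Valid A [2746, 3130, 2865, 3133, 940, 944, 995, 3145, 2992, 1072, 912, 1071] := rup _
  (.cons (t3 7 8 23) (.cons s458 (.cons a134 (.cons (t1 21 24 36) (.cons (t1 8 21 24) (.cons (t2 21 23 24) (.cons (t1 21 24 30) (.cons (t3 21 22 24) (.cons a204 (.cons a142 (.cons s294 (.cons a223 (.cons a207 (.cons (t3 7 8 29) (.cons (t2 8 23 29) (.cons s474 (.cons (t1 21 22 52) (.cons (t1 5 7 49) (.cons (t1 11 23 29) (.cons a226 (.cons a216 (.cons (t3 7 23 52) (.cons (t2 7 49 52) (.cons a238 (.cons (t3 11 49 52) .nil))))))))))))))))))))))))) (by decide +kernel)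
theorem s629 : Valid A [995, 482, 398, 1379, 2914, 3016, 3145, 2353, 2402, 1117, 1071, 4706, 2225, 3170] := rup _
  (.cons (t1 3 10 49) (.cons a400 (.cons (t3 10 23 49) (.cons (t2 10 36 49) (.cons (t1 18 24 36) (.cons (t1 17 24 36) (.cons (t2 8 23 46) (.cons a194 (.cons a182 (.cons (t3 8 17 23) (.cons (t3 8 17 24) (.cons a522 (.cons (t1 8 46 48) (.cons a402 (.cons (t3 8 10 46) (.cons a188 (.cons s57 (.cons (t2 7 24 49) (.cons (t2 7 36 49) (.cons (t2 7 22 49) (.cons (t3 7 10 49) (.cons (t2 10 34 49) (.cons a64 (.cons (t1 3 24 36) (.cons (t3 3 18 24) (.cons s609 (.cons a468 (.cons (t2 7 30 49) (.cons (t2 18 24 30) (.cons (t2 18 30 36) (.cons (t1 3 18 30) (.cons s627 (.cons a141 (.cons (t2 17 22 24) (.cons (t1 17 22 23) (.cons (t1 17 24 29) (.cons s628 (.cons a143 (.cons s7 (.cons (t3 8 21 23) (.cons a505 (.cons (t2 0 23 49) (.cons (t2 0 22 23) (.cons a491 .nil)))))))))))))))))))))))))))))))))))))))))))) (by decide +kernel)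
theorem s630 : Valid A [47, 2862, 3042, 2914] := rup _
  (.cons (t2 0 23 49) (.cons (t2 0 22 23) (.cons a491 .nil))) (by decide +kernel)
theorem s631 : Valid A [3938, 994, 482, 398, 1122, 1379, 3145, 2353, 2402, 1372, 912, 4706, 3170] := rup _
  (.cons a468 (.cons (t2 10 30 49) (.cons s621 .nil))) (by decide +kernel)
theorem s632 : Valid A [398, 1379, 2213, 1117, 1071, 3170, 2274] := rup _
  (.cons a516 (.cons (t2 10 18 49) (.cons a402 (.cons (t3 8 10 49) (.cons s623 (.cons (t2 8 23 46) (.cons s590 (.cons (t2 23 36 46) (.cons a403 (.cons a183 (.cons (t1 17 24 46) (.cons a177 (.cons (t2 17 18 24) (.cons a522 (.cons (t1 8 46 48) (.cons (t3 8 10 46) (.cons a188 (.cons s563 (.cons s618 (.cons s629 (.cons s631 (.cons (t3 10 30 49) (.cons s609 (.cons a163 (.cons a64 (.cons (t3 10 34 49) (.cons s158 .nil))))))))))))))))))))))))))) (by decide +kernel)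
theorem s633 : Valid A [994, 932, 432, 944, 1316, 1122, 1379, 3145, 1117, 4706, 3170] := rup _
  (.cons (t3 7 24 36) (.cons a188 (.cons a187 (.cons (t1 7 10 49) (.cons s610 (.cons s193 (.cons s106 (.cons (t3 10 34 49) (.cons a349 (.cons a479 (.cons a160 (.cons a347 (.cons s72 (.cons (t3 7 36 48) (.cons (t3 34 38 49) (.cons s150 (.cons s432 (.cons s414 (.cons (t1 7 38 46) (.cons (t3 7 19 38) (.cons a173 .nil))))))))))))))))))))) (by decide +kernel)
theorem s634 : Valid A [2221, 3133, 995, 944, 3042, 2914, 3145, 1117, 1071, 2225] := rup _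
  (.cons (t2 7 22 49) (.cons (t2 8 23 46) (.cons a194 (.cons a182 (.cons (t3 8 17 23) (.cons (t3 8 17 24) (.cons a188 (.cons a141 (.cons (t2 17 22 24) (.cons (t1 17 22 23) (.cons (t1 17 24 29) (.cons s630 (.cons s628 (.cons a143 (.cons s7 (.cons (t3 8 21 23) (.cons a505 .nil))))))))))))))))) (by decide +kernel)
theorem s635 : Valid A [1340, 995, 399, 1352, 1379, 2914, 3016, 3145, 1117, 1071, 2225, 3170] := rup _
  (.cons s57 (.cons (t2 10 34 49) (.cons (t3 7 10 49) (.cons (t2 7 22 49) (.cons a65 (.cons (t3 7 24 36) (.cons a400 (.cons (t3 10 23 49) (.cons (t1 17 24 36) (.cons a188 (.cons (t3 7 8 23) (.cons a182 (.cons (t3 8 17 24) (.cons s390 (.cons (t2 7 10 30) (.cons (t2 24 30 36) (.cons (t1 17 24 30) (.cons s634 (.cons (t3 17 22 30) (.cons s624 (.cons (t1 21 24 36) (.cons (t2 17 21 36) (.cons (t1 21 30 36) (.cons s626 (.cons s625 (.cons s458 (.cons s177 (.cons s201 (.cons (t1 5 21 45) (.cons s156 (.cons (t3 7 22 45) (.cons (t3 7 30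 45) (.cons (t3 22 45 51) (.cons (t3 30 45 51) (.cons a472 .nil))))))))))))))))))))))))))))))))))) (by decide +kernel)
theorem s636 : Valid A [1379, 2213, 1117, 1071, 3170, 2274] := rup _
  (.cons s623 (.cons (t2 8 23 46) (.cons s590 (.cons (t2 23 36 46) (.cons a403 (.cons a183 (.cons (t1 17 24 46) (.cons a177 (.cons (t2 17 18 24) (.cons a516 (.cons a182 (.cons (t3 8 17 24) (.cons a402 (.cons (t3 8 10 46) (.cons a188 (.cons a187 (.cons s563 (.cons (t2 10 36 49) (.cons (t3 8 10 49) (.cons (t2 10 18 49) (.cons s632 (.cons a65 (.cons a66 (.cons (t1 7 18 24) (.cons (t3 3 24 36) (.cons (t1 3 17 24) (.cons s633 (.cons (t1 3 7 49) (.cons (t3 3 10 49) (.cons s635 (.cons (t2 10 30 49) (.cons (t1 3 10 30) (.cons s599 (.cons a50 .nil)))))))))))))))))))))))))))))))))) (by decide +kernel)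
theorem s637 : Valid A [1316, 4292, 2371, 1348, 1378, 2402] := rup _
  (.cons (t3 10 18 33) (.cons s370 (.cons (t1 10 30 49) (.cons (t3 10 18 30) (.cons a468 .nil))))) (by decide +kernel)
theorem s638 : Valid A [399, 420, 6242, 5987, 1378, 2377, 3145, 2402, 988, 4706] := rup _
  (.cons a479 (.cons (t1 24 36 48) (.cons a45 (.cons (t3 3 24 36) (.cons s103 (.cons s127 (.cons (t1 10 34 49) (.cons a47 (.cons (t3 7 46 49) (.cons (t1 3 7 48) (.cons (t1 3 7 18) (.cons s150 (.cons (t2 3 7 33) (.cons a52 (.cons (t3 18 33 36) (.cons (t3 24 33 36) (.cons (t2 33 36 49) (.cons (t2 33 34 36) (.cons a251 (.cons s148 (.cons (t3 9 24 48) (.cons a304 (.cons (t3 6 46 49) (.cons (t2 6 10 49) (.cons (t2 6 48 49) (.cons a261 (.cons (t1 6 9 10) (.cons (t2 6 9 46) (.cons s637 (.cons a350 (.cons (t1 7 10 18) (.cons a345 (.cons s128 (.cons (t1 38 46 49) (.cons (t3 9 38 46) (.cons a330 (.cons a331 (.cons (t2 9 38 50) (.cons a429 (.cons a246 (.cons (t3 7 10 50)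 .nil))))))))))))))))))))))))))))))))))))))))) (by decide +kernel)
theorem s639 : Valid A [864, 1230, 3150, 1248, 3169] := rup _
  (.cons (t1 6 24 48) (.cons a261 (.cons a300 (.cons (t2 6 9 39) .nil)))) (by decide +kernel)
theorem s640 : Valid A [683, 3048, 6376, 1048, 2765, 2787, 3788, 2490, 3776, 1101, 4963, 1062, 3043] := rup _
  (.cons (t1 5 21 49) (.cons (t1 5 21 38) (.cons a216 (.cons a217 (.cons a199 (.cons (t3 5 11 38) (.cons (t1 11 23 49) (.cons (t3 38 42 49) (.cons (t2 8 38 42) (.cons a130 (.cons a238 (.cons a234 (.cons a360 (.cons (t2 11 19 29) (.cons (t2 11 29 32) (.cons (t3 11 19 52) (.cons (t3 11 32 52) (.cons (t1 12 42 52) (.cons a230 (.cons (t2 12 32 52) (.cons (t3 8 19 32) (.cons a517 .nil)))))))))))))))))))))) (by decide +kernel)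
theorem s641 : Valid A [2736, 2746, 34, 1213, 1043, 1199, 4963, 3148, 1062, 1085, 2236, 1329, 1315, 2480, 2504, 3043, 1123, 2914, 3145, 1072, 1071, 2225] := rup _
  (.cons (t3 8 38 49) (.cons (t3 21 24 36) (.cons a134 (.cons s202 (.cons a151 (.cons (t2 24 29 36) (.cons (t1 17 24 29) (.cons (t1 10 24 29) (.cons (t3 19 24 29) (.cons (t1 24 29 38) (.cons (t2 8 21 49) (.cons (t2 8 21 23) (.cons (t2 8 21 30) (.cons (t2 8 9 21) (.cons (t2 8 21 38) (.cons a147 (.cons a500 (.cons a504 (.cons a506 (.cons a507 (.cons a223 (.cons (t1 0 9 21) (.cons (t2 9 13 21) (.cons (t2 9 21 52) (.cons (t3 4 29 36) (.cons (t1 4 17 29) (.cons (t2 8 12 49) (.cons (t3 0 23 49) (.cons (t1 21 49 52) (.cons (t1 21 23 52) (.cons a509 (.cons a491 (.cons (t2 0 4 22) (.cons (t1 0 4 9) (.cons s640 (.cons a203 (.cons (t2 5 19 36) (.cons (t1 4 5 36) (.cons a211 (.cons (t2 4 19 22) (.cons a339 (.cons (t2 4 16 19) (.cons a253 (.cons (t2 9 16 23) (.cons (t1 8 9 16) (.cons (t2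 9 16 30) (.cons (t2 9 16 21) (.cons (t1 9 16 52) (.cons (t3 9 13 16) (.cons a26 (.cons a372 (.cons a374 (.cons a220 (.cons (t3 16 20 21) (.cons s401 (.cons (t3 11 16 21) (.cons (t3 11 16 23) (.cons a33 (.cons (t3 10 11 17) (.cons a238 (.cons (t1 10 11 20) (.cons (t2 11 20 52) (.cons a20 (.cons (t3 13 20 52) .nil)))))))))))))))))))))))))))))))))))))))))))))))))))))))))))))))) (by decide +kernel)
theorem s642 : Valid A [2746, 34, 2220, 1213, 1043, 1199, 4963, 3148, 1062, 1085, 2236, 1329, 1315, 2480, 2504, 3043, 1123, 2914, 3145, 1072, 1071, 2225] := rup _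
  (.cons (t2 8 22 49) (.cons s641 (.cons a135 (.cons (t1 8 21 24) (.cons (t2 17 24 29) (.cons a142 (.cons a138 (.cons (t3 8 22 29) .nil)))))))) (by decide +kernel)
theorem s643 : Valid A [2220, 1213, 1043, 1199, 4963, 3148, 2252, 2380, 423, 1062, 5090, 439, 2254, 1085, 3005, 2364, 2236, 1329, 1315, 2480, 2504, 945, 3043, 994, 1123, 2914, 3145, 2402, 1117, 1071, 2225] := rup _
  (.cons a468 (.cons (t3 30 38 49) (.cons (t3 8 38 49) (.cons (t3 23 38 49) (.cons (t3 7 17 24) (.cons (t1 17 24 36) (.cons a188 (.cons (t3 7 8 23) (.cons a182 (.cons (t3 8 17 24) (.cons (t2 7 17 22) (.cons s376 (.cons (t3 0 7 17) (.cons s642 (.cons a136 (.cons a137 (.cons a143 (.cons a144 (.cons (t2 17 24 29) (.cons (t2 17 21 24) (.cons (t2 7 21 24) (.cons (t3 8 21 30) (.cons (t3 8 29 38) (.cons a138 (.cons s203 (.cons s449 (.cons (t2 11 18 38) (.cons (t2 11 17 38) (.cons (t1 11 38 49) (.cons (t3 11 23 38) (.cons (t3 11 30 38) (.cons s476 (.cons a239 (.cons a373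 (.cons (t3 3 21 22) (.cons (t2 3 22 27) (.cons (t1 23 30 52) (.cons a375 (.cons (t2 3 19 21) (.cons (t2 22 27 29) (.cons a222 (.cons (t1 16 17 24) (.cons (t1 16 17 36) (.cons a127 (.cons (t2 21 22 52) (.cons (t1 19 21 52) (.cons (t2 21 29 52) (.cons a354 (.cons (t2 22 27 42) (.cons a232 (.cons (t1 16 24 42) (.cons (t2 29 32 52) (.cons (t2 22 32 52) (.cons a149 (.cons a363 (.cons (t1 24 32 42) .nil)))))))))))))))))))))))))))))))))))))))))))))))))))))))) (by decide +kernel)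
theorem s644 : Valid A [2747, 2770, 2764, 332, 272, 4698, 986, 954, 1101, 3021, 1229, 4684, 3154, 945, 942] := rup _
  (.cons a137 (.cons (t1 7 21 29) (.cons (t1 21 29 38) (.cons s271 (.cons s449 (.cons (t2 7 24 43) (.cons (t2 11 36 38) (.cons (t3 8 11 38) (.cons (t3 9 11 38) (.cons (t1 2 11 38) (.cons a379 (.cons a244 (.cons (t3 2 11 45) (.cons (t2 8 11 43) (.cons a85 (.cons a82 (.cons (t2 2 7 43) .nil))))))))))))))))) (by decide +kernel)
theorem s645 : Valid A [2737, 316, 354, 872, 4712, 858, 3162, 482, 3912, 432, 3145] := rup _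
  (.cons (t1 21 24 36) (.cons (t1 3 21 24) (.cons (t2 21 24 45) (.cons s116 (.cons a60 (.cons (t3 2 30 52) (.cons (t1 3 45 49) (.cons a71 (.cons a79 (.cons (t2 2 6 45) .nil)))))))))) (by decide +kernel)
theorem s646 : Valid A [997, 1085, 3005, 2364, 3912, 2236, 1248, 1188, 978, 926, 1377, 1329, 1315, 1353, 945, 3169, 5987, 2914, 3145, 2213, 1117, 1071, 2225] := rup _
  (.cons a516 (.cons a468 (.cons (t1 7 24 41) (.cons (t2 17 18 24) (.cons (t3 7 18 24) (.cons a346 (.cons (t3 7 19 24) (.cons (t3 7 17 24) (.cons (t1 7 17 19) (.cons (t1 7 24 36) (.cons (t3 7 19 36) (.cons a348 (.cons (t1 7 24 48) (.cons a45 (.cons (t1 3 17 24) (.cons (t2 8 23 46) (.cons (t1 23 46 49) (.cons a187 (.cons (t3 7 46 49) (.cons (t1 8 46 49) (.cons (t1 18 24 36) (.cons a188 (.cons (t3 7 8 23) (.cons (t3 7 8 50) (.cons (t2 7 24 50) (.cons (t2 7 18 50) (.cons (t3 7 15 50) (.cons (t3 7 41 50) (.cons a314 (.cons a434 (.cons a105 (.cons a426 (.cons (t2 17 24 27) (.cons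 (t2 17 18 39) (.cons (t1 18 24 39) (.cons (t2 8 15 49) (.cons (t2 8 41 49) (.cons a36 (.cons a333 (.cons a114 (.cons a443 (.cons (t2 3 27 49) (.cons (t2 30 39 49) (.cons (t1 39 46 49) (.cons (t2 8 39 49) (.cons (t1 3 30 49) (.cons a48 (.cons (t2 19 39 46) (.cons (t1 8 19 39) (.cons (t3 3 19 39) (.cons s443 (.cons (t2 7 18 38) (.cons (t1 18 36 38) (.cons (t2 17 18 38) (.cons (t1 18 24 38) (.cons a265 (.cons s414 (.cons (t1 9 38 49) (.cons (t3 23 38 49) (.cons (t3 8 38 49) (.cons (t3 9 23 49) (.cons (t3 8 9 49) (.cons (t3 9 30 49) (.cons (t2 9 39 49) (.cons s639 (.cons (t3 6 7 48) (.cons (t3 6 10 48) (.cons s643 (.cons a141 (.cons (t1 10 17 22) (.cons (t1 7 17 22) (.cons (t1 17 24 29) (.cons (t2 7 17 29) (.cons a397 (.cons a398 (.cons a227 (.cons (t2 7 22 45) (.cons (t1 10 36 45) (.cons (t1 10 24 45) (.cons (t2 6 10 45) (.cons (t1 7 36 52) (.cons (t2 6 7 52) (.cons s132 (.cons (t1 2 30 49) (.cons (t1 2 8 49) (.cons (t1 2 38 49) (.cons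 s645 (.cons a134 (.cons a143 (.cons (t3 8 21 38) (.cons (t3 8 21 41) (.cons s644 .nil)))))))))))))))))))))))))))))))))))))))))))))))))))))))))))))))))))))))))))))))))))))))))))) (by decide +kernel)
theorem s647 : Valid A [4297, 917, 1377, 1329, 1315, 1353, 945, 1348, 4451, 3169, 5987, 2914, 3145, 2213, 1117, 1071, 2225] := rup _
  (.cons (t2 17 18 24) (.cons (t3 7 18 24) (.cons a348 (.cons (t1 7 24 36) (.cons (t2 8 23 46) (.cons (t1 23 46 49) (.cons (t3 23 34 49) (.cons (t1 8 46 49) (.cons (t3 8 34 49) (.cons (t3 34 46 49) (.cons a187 (.cons (t3 7 46 49) (.cons (t1 18 24 36) (.cons (t1 17 24 36) (.cons (t3 7 33 36) (.cons (t3 18 33 36) (.cons (t3 24 33 36) (.cons (t3 17 33 36) (.cons (t3 10 33 36) (.cons a110 (.cons a447 (.cons a251 (.cons a252 (.cons a392 (.cons a393 (.cons (t1 9 10 33) (.cons (t3 7 15 24) (.cons (t1 9 18 24) (.cons (t3 9 24 48) (.cons (t2 17 30 33) (.cons (t3 30 33 36) (.cons (t2 18 30 33) (.cons a162 (.cons (t3 23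 30 34) (.cons (t3 8 30 34) (.cons s646 (.cons a429 (.cons (t1 7 24 50) (.cons (t1 7 10 50) (.cons a332 (.cons (t1 46 49 50) (.cons (t1 8 49 50) (.cons a246 (.cons a106 (.cons (t2 9 38 50) (.cons (t3 8 15 49) (.cons a265 (.cons s443 (.cons (t3 19 34 46) (.cons (t1 19 46 50) (.cons a156 (.cons a157 (.cons (t3 19 27 50) (.cons (t3 27 34 49) (.cons a313 (.cons a113 (.cons (t3 15 24 27) .nil))))))))))))))))))))))))))))))))))))))))))))))))))))))))) (by decide +kernel)
theorem s648 : Valid A [2747, 5731, 3928, 973, 3149, 4685, 3917, 1357, 829, 945, 994, 3145, 942, 1071] := rup _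
  (.cons a136 (.cons a137 (.cons a143 (.cons (t3 24 29 38) (.cons (t2 7 24 29) (.cons (t3 21 24 36) (.cons (t2 7 21 24) (.cons (t3 8 21 23) (.cons s294 (.cons s474 (.cons a130 (.cons (t3 11 36 38) (.cons (t3 7 11 38) (.cons (t3 10 11 38) (.cons (t3 11 30 38) (.cons a381 (.cons a389 (.cons (t2 7 11 45) (.cons (t3 11 28 36) (.cons (t3 11 28 30) (.cons s132 (.cons a487 (.cons (t1 2 44 49) (.cons s114 (.cons (t1 6 30 52) (.cons (t3 30 44 52) (.cons a72 (.cons a68 .nil)))))))))))))))))))))))))))) (by decide +kernel)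
theorem s649 : Valid A [2736, 2746, 973, 3149, 3917, 957, 3133, 3004, 945, 1068, 1072, 1071, 2225] := rup _
  (.cons (t3 21 24 30) (.cons a134 (.cons s202 (.cons s10 (.cons (t1 17 24 29) (.cons (t1 7 24 29) (.cons (t2 24 29 38) (.cons (t2 8 21 23) (.cons (t1 8 21 22) (.cons (t1 0 7 24) (.cons a140 (.cons (t2 7 22 29) (.cons a131 (.cons a506 (.cons (t2 7 11 38) (.cons (t1 11 30 38) (.cons a383 (.cons (t1 0 11 23) (.cons s231 (.cons a222 (.cons (t2 7 30 52) (.cons (t3 21 22 52) (.cons a226 .nil))))))))))))))))))))))) (by decide +kernel)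
theorem s650 : Valid A [3906, 4293, 1346, 962, 451, 917, 1329, 1315, 1353, 993, 945, 4445, 1348, 4451, 3043, 994, 1123, 2914, 3145, 2353, 2402, 1117, 1071, 2225] := rup _
  (.cons (t3 7 17 24) (.cons (t3 7 18 24) (.cons a346 (.cons (t1 7 17 19) (.cons (t1 33 34 49) (.cons a311 (.cons a304 (.cons (t1 6 7 24) (.cons a301 (.cons (t2 17 24 39) (.cons a333 (.cons (t2 10 24 39) (.cons (t2 7 24 39) (.cons (t1 6 7 10) (.cons (t3 23 34 49) (.cons (t1 3 33 34) (.cons (t3 3 23 34) (.cons (t3 23 33 34) (.cons a450 (.cons (t2 3 23 47) (.cons (t1 33 34 46) (.cons (t1 3 33 46) (.cons (t1 3 33 49) (.cons (t1 22 23 49) (.cons (t2 8 22 49) (.cons (t2 8 23 46) (.cons a194 (.cons a188 (.cons (t3 7 8 23) (.cons a182 (.cons (t3 8 17 24) (.cons (t3 30 33 49) (.cons a391 (.cons (t2 23 30 33) (.cons (t2 3 30 33) (.cons (t3 30 33 34) (.cons a468 (.cons (t2 10 24 30) (.cons (t2 10 17 30) (.cons (t1 7 10 30) (.cons (t1 6 10 30) (.cons (t1 10 30 39) (.cons a48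 (.cons (t2 3 23 39) (.cons (t2 3 39 49) (.cons (t2 3 39 46) (.cons (t1 3 39 47) (.cons a326 (.cons (t1 19 39 46) (.cons a437 (.cons (t3 23 27 49) (.cons (t3 23 27 34) (.cons a175 (.cons (t2 7 24 47) (.cons s436 (.cons (t2 34 38 46) (.cons a318 (.cons (t2 7 18 27) (.cons a158 (.cons s125 (.cons a439 (.cons a277 (.cons (t2 10 36 38) (.cons (t2 10 24 38) (.cons (t1 7 10 38) (.cons (t3 14 23 39) (.cons (t1 18 24 44) (.cons (t1 18 30 44) (.cons a269 (.cons (t2 39 44 49) (.cons s648 (.cons s649 (.cons a135 (.cons (t1 21 24 36) (.cons (t1 8 21 24) (.cons (t2 21 23 24) (.cons (t3 10 21 24) (.cons (t1 21 24 47) (.cons (t2 17 24 29) (.cons (t3 24 29 38) (.cons a489 (.cons a490 (.cons a142 (.cons (t3 21 28 47) (.cons (t2 10 28 36) (.cons s3 (.cons (t2 8 23 29) (.cons (t3 8 22 29) (.cons (t3 0 8 49) (.cons (t3 0 8 23) (.cons a138 (.cons a491 (.cons a505 (.cons (t2 17 22 30) (.cons (t1 7 17 22) (.cons (t3 0 17 22) (.cons (t3 0 7 22) (.cons (t3 0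 10 21) (.cons (t1 0 21 47) (.cons a475 (.cons a512 (.cons a384 (.cons a386 (.cons (t1 0 10 11) (.cons (t3 0 4 47) (.cons a495 (.cons (t3 7 11 38) (.cons a387 (.cons a533 (.cons (t2 23 29 51) (.cons (t1 14 23 51) (.cons a130 (.cons (t2 11 28 29) (.cons a539 (.cons (t1 28 29 51) (.cons (t3 14 28 51) .nil)))))))))))))))))))))))))))))))))))))))))))))))))))))))))))))))))))))))))))))))))))))))))))))))))))))))))))))))))))) (by decide +kernel)
theorem s651 : Valid A [1317, 945, 1348, 4451, 4705, 5987, 2914, 3145, 2213, 1117, 1071, 2225] := rup _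
  (.cons (t3 7 17 24) (.cons (t2 17 18 24) (.cons (t3 7 18 24) (.cons a346 (.cons (t1 7 17 19) (.cons a348 (.cons (t1 24 36 48) (.cons (t1 7 24 48) (.cons (t1 7 24 36) (.cons a45 (.cons (t3 3 24 36) (.cons (t2 8 23 46) (.cons (t1 23 46 49) (.cons (t3 23 34 49) (.cons (t1 8 46 49) (.cons (t3 8 34 49) (.cons (t3 34 46 49) (.cons (t1 18 24 36) (.cons (t1 18 36 48) (.cons a187 (.cons (t3 7 46 49) (.cons (t1 17 24 36) (.cons a516 (.cons (t1 10 18 36) (.cons (t3 10 17 18) (.cons (t1 10 18 24) (.cons (t1 10 18 48) (.cons (t3 7 10 18) (.cons s647 (.cons (t2 24 33 36) (.cons (t2 18 33 36) (.cons a52 (.cons (t2 17 33 36) (.cons (t3 33 36 48) (.cons (t2 7 33 36) (.cons (t2 10 33 36) (.cons s176 (.cons (t1 33 34 49) (.cons (t1 33 34 46) (.cons (t3 23 33 34) (.cons (t3 8 33 34) (.cons a311 (.cons (t1 3 33 49) (.cons (t1 3 33 46) (.cons a304 (.cons (t1 6 7 24) (.cons (t1 6 7 48) (.cons a301 (.cons a262 (.cons (t2 17 24 39) (.cons (t2 7 24 39) (.cons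 (t1 9 24 48) (.cons (t1 9 18 48) (.cons a333 (.cons a250 (.cons (t1 9 33 49) (.cons s650 (.cons (t2 30 33 36) (.cons (t1 18 30 33) (.cons (t1 17 30 33) (.cons (t3 3 30 33) (.cons (t3 8 30 33) (.cons (t3 23 30 33) (.cons a50 (.cons (t3 3 39 49) (.cons (t1 3 19 39) (.cons (t3 3 19 46) (.cons s443 (.cons a265 (.cons (t2 9 38 49) (.cons a330 (.cons a429 (.cons (t2 8 49 50) (.cons (t2 7 24 50) (.cons (t3 7 39 50) (.cons a314 (.cons s185 (.cons (t2 7 24 27) (.cons (t2 7 41 50) (.cons s440 (.cons s646 (.cons (t2 27 39 49) (.cons (t2 7 15 24) (.cons s442 (.cons a93 (.cons (t2 7 14 24) .nil)))))))))))))))))))))))))))))))))))))))))))))))))))))))))))))))))))))))))))))))))))))) (by decide +kernel)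
theorem s652 : Valid A [2213, 1117, 1071, 3170, 2274] := rup _
  (.cons a403 (.cons a183 (.cons (t1 17 24 46) (.cons a522 (.cons (t1 8 46 48) (.cons a402 (.cons (t3 8 10 46) (.cons a187 (.cons s563 (.cons a516 (.cons (t2 17 18 24) (.cons s590 (.cons a177 (.cons (t1 18 24 36) (.cons s623 (.cons s636 (.cons a189 (.cons (t3 7 46 49) (.cons (t3 46 48 49) (.cons a479 (.cons s103 (.cons (t1 18 36 48) (.cons (t1 24 36 48) (.cons s127 (.cons a45 (.cons (t1 10 34 49) (.cons (t1 3 18 24) (.cons s638 (.cons a64 (.cons (t3 7 18 24) (.cons (t1 7 24 48) (.cons a346 (.cons a348 (.cons s651 (.cons (t3 10 18 48) (.cons (t2 7 10 18) (.cons a349 (.cons s135 (.cons (t1 10 19 46) (.cons s129 (.cons s443 (.cons a468 (.cons (t2 7 18 30) (.cons (t1 10 30 49) (.cons s183 (.cons s370 (.cons (t1 7 24 33) (.cons (t1 33 34 49) (.cons a311 (.cons a304 (.cons (t1 6 7 48) (.cons a262 (.cons (t1 9 24 48) (.cons (t1 9 18 48) (.cons a250 (.cons a265 (.cons (t2 9 10 33)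 (.cons (t1 9 33 49) (.cons (t2 9 38 49) (.cons a330 (.cons a429 (.cons (t2 9 49 50) (.cons (t3 7 10 50) (.cons a246 .nil)))))))))))))))))))))))))))))))))))))))))))))))))))))))))))))))) (by decide +kernel)
theorem s653 : Valid A [2737, 938, 2746, 2509, 3149, 2504, 422, 456, 1097, 2992, 942, 1072, 912] := rup _
  (.cons (t3 19 24 38) (.cons a135 (.cons (t1 8 21 24) (.cons (t2 21 23 24) (.cons (t3 19 21 24) (.cons (t3 24 29 38) (.cons a142 (.cons s294 (.cons a343 (.cons a344 (.cons (t3 7 8 29) (.cons (t2 8 29 36) (.cons s474 (.cons (t1 19 38 45) (.cons s602 (.cons (t3 11 29 36) (.cons a130 (.cons (t2 11 38 45) (.cons a379 .nil))))))))))))))))))) (by decide +kernel)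
theorem s654 : Valid A [2746, 2509, 3149, 2504, 2914, 422, 456, 995, 399, 944, 1097, 1379, 2992, 1072, 912, 1071] := rup _
  (.cons (t3 19 24 38) (.cons (t3 7 8 23) (.cons s458 (.cons (t3 7 21 49) (.cons (t2 3 7 21) (.cons s653 (.cons (t2 19 21 24) (.cons s202 (.cons s444 (.cons (t2 8 21 36) (.cons (t2 8 21 23) (.cons (t1 21 45 49) (.cons (t2 21 36 45) (.cons (t2 21 23 45) (.cons a206 (.cons s354 (.cons (t3 5 36 45) (.cons (t3 22 23 45) (.cons s177 (.cons a496 (.cons (t1 23 45 51) .nil))))))))))))))))))))) (by decide +kernel)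
theorem s655 : Valid A [2747, 2914, 3042, 2222, 1071, 2225] := rup _
  (.cons a137 (.cons a143 (.cons s7 (.cons (t2 17 21 24) (.cons (t3 8 21 23) (.cons a505 (.cons s626 (.cons s630 (.cons (t1 17 22 23) .nil))))))))) (by decide +kernel)
theorem s656 : Valid A [3149, 2746, 2914, 422, 456, 995, 399, 418, 4424, 3141, 1097, 1379, 2992, 1072, 912, 1071, 2225, 3170] := rup _
  (.cons a432 (.cons s47 (.cons (t1 24 38 49) (.cons (t2 24 34 38) (.cons a329 (.cons (t1 24 38 50) (.cons a314 (.cons (t2 17 24 27) (.cons (t3 24 27 34) (.cons a36 (.cons (t3 3 19 27) (.cons a154 (.cons (t2 19 34 36) (.cons (t1 19 34 38) (.cons s654 .nil))))))))))))))) (by decide +kernel)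
theorem s657 : Valid A [2736, 2525, 1357, 3148, 426, 938, 2746, 483, 995, 1097, 3144, 1379, 1072, 1117] := rup _
  (.cons a134 (.cons s202 (.cons (t1 24 29 36) (.cons (t2 8 21 36) (.cons (t2 8 21 46) (.cons a204 (.cons a207 (.cons (t1 5 7 49) (.cons a216 (.cons (t2 3 11 49) (.cons (t2 10 11 49) (.cons (t1 24 29 38) (.cons (t3 10 11 38) (.cons a130 (.cons (t3 19 21 46) (.cons (t2 11 29 36) (.cons a344 (.cons s543 .nil)))))))))))))))))) (by decide +kernel)
theorem s658 : Valid A [2914, 422, 456, 483, 917, 995, 399, 418, 1348, 3141, 1318, 968, 1097, 3144, 1379, 3042, 1117, 1071, 2225, 3170] := rup _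
  (.cons (t1 24 34 36) (.cons s47 (.cons (t2 8 23 46) (.cons a194 (.cons a188 (.cons (t3 7 8 23) (.cons a183 (.cons (t1 17 24 46) (.cons a182 (.cons (t3 8 17 23) (.cons (t3 8 17 24) (.cons a402 (.cons (t3 8 10 46) (.cons s655 (.cons s458 (.cons (t2 3 7 21) (.cons s656 (.cons s164 (.cons (t1 10 38 46) (.cons (t3 10 19 38) (.cons (t3 8 10 38) (.cons (t1 7 10 38) (.cons a173 (.cons (t2 19 24 46) (.cons s657 (.cons (t2 21 24 36) (.cons (t1 8 21 24) (.cons (t2 21 23 24) (.cons (t1 19 21 24) (.cons a142 (.cons s294 (.cons s444 (.cons (t3 7 8 29) (.cons (t1 8 29 38) (.cons s474 (.cons s569 (.cons a130 (.cons (t3 7 11 38) .nil)))))))))))))))))))))))))))))))))))))) (by decide +kernel)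
theorem s659 : Valid A [1357, 2474, 2522, 938, 986, 917, 995, 1318, 1097, 4701, 3017, 942, 1372, 1044] := rup _
  (.cons (t3 7 23 36) (.cons (t1 10 38 46) (.cons (t3 10 19 38) (.cons (t3 8 10 38) (.cons (t1 7 10 38) (.cons a173 (.cons (t3 19 36 46) (.cons (t1 19 36 45) (.cons (t3 19 21 36) (.cons s297 (.cons s201 (.cons s564 (.cons (t3 7 11 38) .nil))))))))))))) (by decide +kernel)
theorem s660 : Valid A [2746, 986, 941, 422, 917, 995, 399, 418, 956, 3909, 1348, 3141, 1318, 1097, 4701, 3017, 1379, 942, 1072, 1372, 912, 1044, 2225, 3170] := rup _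
  (.cons a432 (.cons s47 (.cons s458 (.cons s156 (.cons a342 (.cons a344 (.cons s659 (.cons (t3 10 38 49) (.cons s164 (.cons a329 (.cons (t1 24 38 50) (.cons a314 (.cons (t2 17 24 27) (.cons (t3 24 27 34) (.cons a36 (.cons (t3 3 19 27) (.cons a154 (.cons (t3 19 24 34) (.cons (t3 19 30 34) (.cons (t3 19 21 24) (.cons (t1 19 30 45) (.cons s202 (.cons (t2 8 21 36) (.cons a204 (.cons a207 (.cons (t3 5 21 45) (.cons s22 (.cons s177 (.cons s169 (.cons (t3 30 45 51) .nil)))))))))))))))))))))))))))))) (by decide +kernel)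
theorem s661 : Valid A [432, 1117, 1071, 3170, 2274] := rup _
  (.cons (t2 8 23 46) (.cons a194 (.cons a403 (.cons a182 (.cons (t3 8 17 24) (.cons s60 (.cons s652 (.cons a513 (.cons (t3 8 18 49) (.cons (t3 8 18 23) (.cons s563 (.cons (t2 18 36 49) (.cons a483 (.cons (t3 23 24 36) (.cons s302 (.cons s106 (.cons a168 (.cons s47 (.cons a402 (.cons (t3 8 10 46) (.cons s80 (.cons a189 (.cons a469 (.cons (t2 10 30 49) (.cons s390 (.cons (t3 7 24 30) (.cons (t3 23 24 30) (.cons (t2 10 34 49) (.cons a162 (.cons (t3 10 18 49) (.cons a350 (.cons (t3 18 19 49) (.cons (t1 19 48 49) (.cons (t3 10 48 49) (.cons (t1 24 48 49) (.cons a352 (.cons a521 (.cons (t1 23 36 48) (.cons a188 (.cons (t3 7 8 23) (.cons (t3 7 23 36) (.cons (t1 8 23 36) (.cons (t2 23 36 46) (.cons (t2 10 36 49) (.cons (t3 18 23 49) (.cons (t1 3 17 24) (.cons s145 (.cons a44 (.cons a64 (.cons (t1 7 48 49) (.cons (t3 7 10 48) (.cons (t2 7 19 48) (.cons (t1 3 48 49) (.cons (t2 3 36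 48) (.cons (t2 3 19 48) (.cons s658 (.cons (t1 17 22 49) (.cons (t3 10 22 49) (.cons (t3 7 22 49) (.cons a397 (.cons a398 (.cons a227 (.cons (t2 7 22 45) (.cons s660 (.cons a137 (.cons a143 (.cons (t2 17 21 24) (.cons (t3 8 21 36) (.cons s203 (.cons (t3 7 21 22) (.cons (t2 21 22 45) (.cons a208 (.cons a210 (.cons s147 (.cons s130 (.cons (t3 5 7 49) (.cons a203 (.cons s584 (.cons (t3 5 19 36) (.cons (t3 19 23 36) (.cons (t2 19 36 45) (.cons (t1 5 19 45) (.cons (t2 19 23 45) (.cons a380 (.cons (t1 11 23 45) (.cons (t2 5 11 45) (.cons s231 (.cons a215 (.cons (t2 11 30 49) .nil))))))))))))))))))))))))))))))))))))))))))))))))))))))))))))))))))))))))))))))))))))))))) (by decide +kernel)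
theorem s662 : Valid A [2747, 456, 433, 968, 1352, 3017, 1379, 3042, 2403, 2222, 1071, 2225, 2274] := rup _
  (.cons a66 (.cons (t3 10 18 49) (.cons a350 (.cons (t3 18 19 49) (.cons a137 (.cons s655 (.cons (t2 17 21 24) (.cons (t2 3 21 24) (.cons (t1 17 22 49) (.cons (t3 18 22 49) (.cons (t3 10 22 49) (.cons (t1 19 22 49) (.cons s203 (.cons a397 (.cons a398 (.cons (t3 18 21 22) (.cons (t1 19 21 22) (.cons (t2 21 22 45) (.cons s444 (.cons a341 (.cons (t3 3 7 19) (.cons (t1 3 19 36) (.cons a345 (.cons s584 (.cons (t1 7 18 21) (.cons a210 .nil)))))))))))))))))))))))))) (by decide +kernel)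
theorem s663 : Valid A [2918, 4442, 3942, 5863, 1379, 3042, 3938, 2992, 3170] := rup _
  (.cons a472 (.cons s383 .nil)) (by decide +kernel)
theorem s664 : Valid A [683, 2778, 2746, 3133, 3141, 1097, 1379, 3042, 3938, 2992, 1058, 1071, 2225, 3170] := rup _
  (.cons (t3 8 17 24) (.cons a204 (.cons s26 (.cons (t2 5 21 45) (.cons (t2 8 21 36) (.cons s177 (.cons s202 (.cons a142 (.cons (t3 17 21 24) (.cons (t1 21 24 30) (.cons (t1 21 24 34) (.cons (t3 8 17 29) (.cons (t2 8 23 29) (.cons (t2 17 21 51) (.cons (t1 21 30 51) (.cons (t1 21 34 45) (.cons s663 (.cons a497 (.cons (t1 17 22 51) (.cons (t3 22 23 29) (.cons a138 .nil))))))))))))))))))))) (by decide +kernel)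
theorem s665 : Valid A [2778, 938, 2746, 404, 419, 456, 398, 3133, 3141, 968, 1352, 3017, 1379, 3042, 3938, 2992, 1058, 1071, 2225, 3170] := rup _
  (.cons (t1 8 23 36) (.cons (t3 23 24 36) (.cons s664 (.cons s201 (.cons a207 (.cons (t2 21 24 36) (.cons (t1 3 21 36) (.cons (t1 21 36 45) (.cons (t1 3 5 7) (.cons a134 (.cons a60 (.cons (t3 3 5 45) (.cons (t1 17 24 29) (.cons (t2 3 17 45) (.cons (t3 3 10 45) (.cons s177 (.cons a141 (.cons (t3 17 22 45) (.cons s583 .nil))))))))))))))))))) (by decide +kernel)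
theorem s666 : Valid A [1117, 1071, 3170, 2274] := rup _
  (.cons a402 (.cons s563 (.cons a403 (.cons a182 (.cons a188 (.cons s60 (.cons (t3 8 10 46) (.cons (t2 8 23 46) (.cons (t3 8 17 24) (.cons (t3 8 17 23) (.cons (t3 7 8 23) (.cons (t3 8 18 23) (.cons a194 (.cons s652 (.cons a513 (.cons a469 (.cons s80 (.cons (t2 18 36 49) (.cons (t3 8 18 49) (.cons (t3 18 23 49) (.cons a189 (.cons a483 (.cons (t2 10 24 49) (.cons (t2 10 36 49) (.cons (t2 10 30 49) (.cons (t3 23 24 36) (.cons (t1 8 23 36) (.cons (t3 7 23 36) (.cons s302 (.cons s106 (.cons a168 (.cons s390 (.cons s47 (.cons s661 (.cons a66 (.cons (t2 3 24 36) (.cons (t3 3 17 24) (.cons (t2 3 10 24) (.cons (t1 3 24 34) (.cons (t1 3 24 30) (.cons s662 (.cons s458 (.cons s665 (.cons a61 (.cons a63 (.cons (t1 3 30 45) (.cons (t1 3 34 45) (.cons (t3 3 21 24) (.cons s202 (.cons (t2 8 21 36) (.cons (t2 8 21 23) (.cons a204 (.cons (t2 21 23 45) (.cons (t3 5 21 45) (.cons s177 (.cons (t3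 30 45 51) (.cons (t1 23 45 51) (.cons s663 (.cons a498 .nil))))))))))))))))))))))))))))))))))))))))))))))))))))))))))) (by decide +kernel)
theorem s667 : Valid A [2992, 3017, 2403, 1379, 1116, 1071, 4706, 3170] := rup _
  (.cons a521 (.cons (t1 23 36 48) (.cons a479 (.cons s106 (.cons a168 (.cons s47 (.cons (t1 24 48 49) (.cons (t1 8 23 36) (.cons a402 (.cons (t3 8 10 49) (.cons a400 (.cons (t3 10 23 49) (.cons (t1 8 23 46) (.cons a193 (.cons (t3 23 24 36) (.cons (t3 7 24 46) (.cons a185 (.cons s191 (.cons (t2 7 8 49) (.cons (t1 7 8 36) (.cons s150 (.cons s145 (.cons (t3 7 33 36) (.cons s429 (.cons (t2 3 24 36) (.cons (t2 3 24 49) (.cons a52 (.cons (t2 7 8 50) (.cons (t1 8 23 50) (.cons (t1 3 33 49) (.cons a429 (.cons s148 (.cons (t3 24 49 50) (.cons s159 (.cons a304 .nil))))))))))))))))))))))))))))))))))) (by decide +kernel)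
theorem s668 : Valid A [2403, 2350, 1379, 1116, 1071, 4706, 3170] := rup _
  (.cons a402 (.cons (t3 8 10 49) (.cons a192 (.cons a190 (.cons (t1 8 23 46) (.cons a521 (.cons a469 (.cons (t2 18 36 49) (.cons (t3 10 18 49) (.cons (t2 10 30 49) (.cons a483 (.cons a350 (.cons (t1 23 36 48) (.cons a479 (.cons s106 (.cons (t3 18 48 49) (.cons a168 (.cons s390 (.cons s47 (.cons (t3 7 24 30) (.cons s667 (.cons (t2 23 24 36) (.cons (t1 7 23 24) (.cons s143 (.cons (t1 7 8 23) (.cons s42 (.cons (t2 7 46 49) (.cons (t2 7 10 46) (.cons a345 (.cons s610 (.cons s183 (.cons (t2 7 19 46) (.cons (t1 3 24 36) (.cons (t1 3 24 34) (.cons s432 (.cons a175 (.cons a54 (.cons (t2 7 38 46) (.cons (t1 3 24 33) (.cons (t3 3 33 34) (.cons s414 (.cons s176 (.cons (t3 18 38 49) (.cons (t1 33 48 49) (.cons (t3 18 33 48) (.cons a266 (.cons a311 (.cons (t3 9 18 48) (.cons (t3 9 18 33) (.cons a304 (.cons (t1 6 48 49) (.cons a261 (.cons a250 (.cons (t2 6 7 9) (.cons (t1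 7 9 24) .nil))))))))))))))))))))))))))))))))))))))))))))))))))))))) (by decide +kernel)
theorem s669 : Valid A [2350, 1379, 1071, 3170, 2274] := rup _
  (.cons a190 (.cons s666 (.cons s563 (.cons (t2 8 18 23) (.cons s668 (.cons s138 (.cons a513 (.cons a181 (.cons (t1 8 17 18) .nil))))))))) (by decide +kernel)
theorem s670 : Valid A [962, 2382, 969, 994, 912, 932, 482, 456, 944, 1122, 3170] := rup _
  (.cons (t3 7 33 36) (.cons s432 (.cons a52 (.cons (t3 7 24 50) (.cons (t3 7 18 50) (.cons (t1 3 33 49) (.cons a433 (.cons s148 (.cons a304 (.cons (t3 6 7 50) (.cons (t2 6 24 49) (.cons s163 .nil)))))))))))) (by decide +kernel)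
theorem s671 : Valid A [2747, 14, 4698, 938, 2764, 3021, 4684, 942, 2779] := rup _
  (.cons (t2 21 29 45) (.cons (t3 7 21 29) (.cons (t1 21 29 38) (.cons s474 (.cons s449 (.cons (t3 11 29 45) (.cons (t2 11 36 38) (.cons a379 .nil)))))))) (by decide +kernel)
theorem s672 : Valid A [1498, 1442, 2476, 1446, 1454, 268, 986, 4698, 731, 829, 3004, 2236, 3912, 969, 4706] := rup _
  (.cons a379 (.cons (t2 5 11 45) (.cons (t2 11 36 49) (.cons (t2 11 30 36) (.cons (t3 7 11 36) (.cons a215 (.cons s231 (.cons s401 (.cons (t2 5 45 49) (.cons (t2 6 30 52) (.cons (t1 7 11 16) (.cons (t1 11 16 19) (.cons a80 (.cons a71 (.cons a337 (.cons a85 (.cons (t1 7 16 22) (.cons (t2 2 7 52) (.cons a227 .nil))))))))))))))))))) (by decide +kernel)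
theorem s673 : Valid A [731, 867, 2764, 3021, 4684, 3004, 2236, 3912, 3939, 969, 994, 2481, 2734, 2736, 944, 2779, 2993, 1379, 4706, 2225] := rup _
  (.cons (t3 6 30 49) (.cons (t1 7 23 24) (.cons (t2 10 36 49) (.cons (t3 5 21 45) (.cons a204 (.cons a209 (.cons a210 (.cons (t3 21 36 45) (.cons (t3 5 7 45) (.cons s294 (.cons s132 (.cons (t1 2 6 49) (.cons s671 (.cons a134 (.cons (t1 17 24 29) (.cons (t3 7 24 29) (.cons (t1 23 24 29) (.cons (t1 19 24 29) (.cons a140 (.cons s474 (.cons (t1 11 23 29) (.cons (t1 11 19 29) (.cons (t2 19 22 29) (.cons (t1 11 17 29) (.cons s672 (.cons (t3 11 21 45) (.cons (t3 5 11 45) (.cons a217 (.cons a218 (.cons (t1 5 30 49) (.cons (t1 11 30 49) (.cons (t2 10 11 49) (.cons (t1 5 21 30) (.cons s231 (.cons s216 (.cons a222 (.cons s84 .nil))))))))))))))))))))))))))))))))))))) (by decide +kernel)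
theorem s674 : Valid A [2760, 682, 5863, 2764, 461, 3021, 2253, 4684, 4962, 2236, 3912, 969, 433, 2779, 2993, 4706, 2225] := rup _
  (.cons a61 (.cons (t3 3 23 24) (.cons (t1 3 23 45) (.cons (t3 23 45 51) (.cons (t1 21 45 51) (.cons a63 (.cons (t3 3 21 23) (.cons a67 (.cons (t1 7 23 24) (.cons (t3 3 21 24) (.cons (t2 7 21 36) (.cons a203 (.cons (t3 21 36 45) (.cons (t3 21 36 51) (.cons s294 (.cons (t2 5 36 49) (.cons (t2 5 36 38) (.cons s671 (.cons s472 (.cons a134 (.cons (t1 11 17 38) (.cons (t2 3 11 38) (.cons s10 (.cons (t1 17 24 29) (.cons (t1 23 24 29) (.cons (t1 3 24 29) (.cons (t1 0 23 24) (.cons a140 (.cons a505 (.cons (t1 22 23 29) (.cons (t2 3 22 29) (.cons (t1 0 21 51) (.cons a495 (.cons (t3 0 22 51) (.cons (t3 22 45 51) (.cons (t2 22 36 51) (.cons a493 (.cons (t1 22 45 49) (.cons s588 (.cons (t2 11 30 36) (.cons (t2 11 22 36) (.cons s401 (.cons (t1 11 16 22) (.cons (t3 3 11 16) (.cons a56 .nil)))))))))))))))))))))))))))))))))))))))))))))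 (by decide +kernel)
theorem s675 : Valid A [433, 2779, 1379, 1071, 3170, 2274] := rup _
  (.cons a63 (.cons a61 (.cons a403 (.cons a190 (.cons a400 (.cons (t3 10 23 49) (.cons s669 (.cons (t2 18 23 49) (.cons s138 (.cons (t1 17 24 46) (.cons a484 (.cons a486 (.cons s142 (.cons a177 (.cons s666 (.cons (t1 8 23 46) (.cons a193 (.cons a513 (.cons (t3 8 18 23) (.cons (t3 8 17 18) (.cons (t1 8 17 24) (.cons (t2 17 18 24) (.cons a402 (.cons (t3 8 10 49) (.cons s563 (.cons (t2 10 36 49) (.cons (t2 10 17 49) (.cons a192 (.cons a67 (.cons (t2 3 24 36) (.cons (t2 3 24 49) (.cons (t3 3 18 24) (.cons (t3 3 17 24) (.cons (t3 3 23 24) (.cons (t1 3 24 45) (.cons (t3 3 21 24) (.cons (t1 7 17 24) (.cons (t1 7 18 24) (.cons (t1 7 8 24) (.cons (t1 3 18 21) (.cons (t1 3 17 21) (.cons (t3 3 21 23) (.cons s562 (.cons a185 (.cons (t1 17 18 19) (.cons (t2 18 19 24) (.cons (t2 7 46 49) (.cons (t2 7 10 46) (.cons (t3 7 36 46) (.cons a335 (.cons (t2 18 19 39)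 (.cons s670 (.cons s150 (.cons (t3 7 24 33) (.cons (t2 7 33 48) (.cons (t3 7 18 33) (.cons (t3 7 10 33) (.cons s165 (.cons a163 (.cons (t2 10 30 49) (.cons (t1 10 30 36) (.cons (t3 10 17 30) (.cons (t3 10 23 30) (.cons (t3 7 10 30) (.cons s620 (.cons a266 (.cons (t1 18 38 49) (.cons (t3 18 36 38) (.cons (t1 17 18 38) (.cons (t2 18 24 38) (.cons (t2 18 23 38) (.cons (t1 3 18 38) (.cons (t3 18 21 38) (.cons (t3 9 18 24) (.cons a250 (.cons (t1 9 33 48) (.cons a262 (.cons (t1 6 7 48) (.cons a304 (.cons s673 (.cons s177 (.cons (t1 5 21 45) (.cons (t3 24 45 51) (.cons s674 (.cons (t2 21 36 49) (.cons (t3 7 21 36) (.cons (t2 21 36 45) (.cons (t1 21 45 49) (.cons s157 (.cons a380 (.cons a30 (.cons a88 (.cons (t1 11 21 45) (.cons (t1 20 21 45) (.cons (t3 20 45 51) (.cons a79 (.cons a33 (.cons a22 (.cons (t3 2 30 49) (.cons (t3 2 6 49) (.cons (t1 11 20 24) (.cons a73 (.cons (t1 11 24 38) (.cons (t1 2 30 52) (.cons a131 (.cons s147 (.cons (t2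 24 29 38) (.cons a227 (.cons a134 (.cons (t1 7 21 22) (.cons (t3 7 22 45) (.cons s203 (.cons s354 (.cons (t1 17 22 49) .nil)))))))))))))))))))))))))))))))))))))))))))))))))))))))))))))))))))))))))))))))))))))))))))))))))))))))))))))))))) (by decide +kernel)
theorem s676 : Valid A [2381, 997, 932, 2402] := rup _
  (.cons (t1 18 38 49) (.cons (t3 7 18 38) (.cons s414 .nil))) (by decide +kernel)
theorem s677 : Valid A [989, 432, 4701, 3168, 2353, 3164, 2213, 1316, 2402, 1379, 1116, 1044, 3170] := rup _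
  (.cons a44 (.cons a190 (.cons s138 (.cons (t3 8 10 49) (.cons a192 (.cons a186 (.cons s42 (.cons (t2 7 46 49) (.cons (t2 7 10 46) (.cons (t2 7 24 46) (.cons (t2 7 17 46) (.cons (t3 7 36 46) (.cons s562 (.cons s145 (.cons a64 (.cons s72 (.cons (t2 7 46 48) (.cons (t1 3 7 36) (.cons a54 (.cons (t1 3 7 33) (.cons (t3 3 33 48) (.cons s432 (.cons s176 (.cons (t3 7 10 50) (.cons (t2 7 48 50) (.cons s676 (.cons (t1 18 19 38) (.cons s620 (.cons a173 (.cons (t2 10 34 49) (.cons (t1 38 46 48) (.cons (t1 33 34 49) (.cons a311 (.cons a304 (.cons (t1 6 7 48) (.cons a262 (.cons (t1 9 38 48) (.cons (t3 9 48 50) (.cons a265 (.cons a246 (.cons (t2 9 10 18) .nil))))))))))))))))))))))))))))))))))))))))) (by decide +kernel)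
theorem s678 : Valid A [432, 4701, 3168, 1073, 2353, 3164, 2213, 1316, 1061, 2402, 1379, 1116, 1071, 3170] := rup _
  (.cons (t1 8 23 46) (.cons a193 (.cons a402 (.cons (t3 8 10 49) (.cons (t1 3 18 24) (.cons a44 (.cons s18 (.cons s677 (.cons a185 (.cons s191 (.cons (t2 7 8 49) (.cons (t1 7 8 18) (.cons (t1 7 8 24) (.cons s150 (.cons a348 (.cons s158 (.cons s429 (.cons a349 (.cons (t3 10 34 49) (.cons (t3 3 34 49) (.cons (t2 7 8 50) (.cons (t1 8 18 50) (.cons (t1 8 24 50) (.cons (t2 10 19 34) (.cons a163 (.cons a429 (.cons a156 (.cons (t3 10 30 49) (.cons (t1 34 49 50) (.cons (t3 3 49 50) (.cons a468 (.cons (t3 27 34 50) (.cons (t3 3 18 30) (.cons a313 (.cons s137 (.cons (t1 18 24 27) (.cons (t1 23 24 27) (.cons (t2 18 27 39) (.cons a327 .nil))))))))))))))))))))))))))))))))))))))) (by decide +kernel)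
theorem s679 : Valid A [426, 1194, 938, 2760, 467, 402, 1186, 956, 444, 2236, 994, 2778, 401, 431, 482, 456, 433] := rup _
  (.cons a66 (.cons a60 (.cons (t3 3 21 41) (.cons (t1 3 45 49) (.cons (t3 3 36 45) (.cons (t3 3 30 45) (.cons (t2 3 24 45) (.cons (t3 3 7 45) (.cons (t2 3 8 45) (.cons (t2 3 23 45) (.cons (t2 3 41 45) (.cons s384 (.cons s199 (.cons s132 (.cons s177 (.cons a79 (.cons (t3 7 45 51) (.cons (t3 30 45 51) (.cons (t1 24 45 51) (.cons (t1 23 45 51) (.cons (t3 2 8 45) (.cons (t3 2 41 45) (.cons s169 (.cons a23 (.cons a496 (.cons a84 (.cons (t1 2 41 43) (.cons (t3 20 24 45) (.cons (t2 3 22 23) (.cons a451 (.cons a29 (.cons (t3 11 21 43) (.cons (t3 9 21 43) (.cons (t1 7 20 21) (.cons (t1 7 20 30) (.cons (t1 7 20 22) (.cons a243 (.cons a33 (.cons (t2 11 20 30) (.cons (t2 11 20 22) (.cons (t3 3 9 11) (.cons (t1 9 11 17) (.cons s401 (.cons (t1 11 16 22) (.cons (t3 3 11 16) (.cons a56 .nil))))))))))))))))))))))))))))))))))))))))))))))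 (by decide +kernel)
theorem s680 : Valid A [739, 2786, 2760, 4706] := rup _
  (.cons (t2 5 36 49) (.cons (t2 5 21 49) (.cons a203 .nil))) (by decide +kernel)
theorem s681 : Valid A [3944, 298, 268, 2748, 829] := rup _
  (.cons (t2 6 30 52) (.cons a222 (.cons a71 (.cons (t3 2 21 52) .nil)))) (by decide +kernel)
theorem s682 : Valid A [5858, 268, 354, 1454, 4698, 2748, 829, 3004, 3912, 3939, 2778] := rup _
  (.cons (t2 30 45 49) (.cons a79 (.cons (t2 2 21 45) (.cons s681 (.cons s231 (.cons (t2 11 30 36) (.cons (t2 11 30 45) (.cons a379 .nil)))))))) (by decide +kernel)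
theorem s683 : Valid A [4698, 3034, 2748, 2735, 2760, 867, 956, 3004, 3912, 3939, 969, 994, 942, 2778, 1379] := rup _
  (.cons (t2 7 21 36) (.cons (t3 6 30 49) (.cons s384 (.cons (t2 7 36 45) (.cons (t3 11 21 23) (.cons s199 (.cons s132 (.cons s177 (.cons (t1 2 6 49) (.cons (t3 23 45 51) (.cons s682 (.cons a80 (.cons (t3 10 45 49) (.cons (t3 30 45 49) (.cons a85 (.cons a396 (.cons (t2 2 7 21) (.cons (t1 22 30 45) (.cons (t3 22 45 51) (.cons s681 (.cons (t3 22 30 52) (.cons a495 (.cons (t3 7 30 52) (.cons (t1 7 22 23) (.cons a226 .nil))))))))))))))))))))))))) (by decide +kernel)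
theorem s684 : Valid A [2760, 867, 467, 1225, 402, 1186, 956, 444, 3004, 2236, 3912, 3939, 969, 994, 942, 2778, 401, 431, 419, 482, 456, 433, 1122, 1379, 4706] := rup _
  (.cons (t2 7 21 36) (.cons (t2 9 21 36) (.cons s679 (.cons a62 (.cons (t2 3 17 21) (.cons (t2 3 8 21) (.cons (t2 3 21 23) (.cons (t1 3 21 30) (.cons (t2 3 21 41) (.cons (t1 3 23 45) (.cons a452 (.cons (t2 8 21 43) (.cons (t2 17 21 43) (.cons s683 (.cons a382 (.cons (t1 36 45 49) (.cons (t1 7 36 45) (.cons (t1 9 36 45) (.cons (t2 9 11 36) (.cons a88 (.cons (t1 2 9 45) (.cons a79 (.cons (t3 2 10 49) (.cons (t3 2 30 49) (.cons (t2 2 8 49) (.cons (t3 2 6 49) (.cons a82 (.cons a73 (.cons (t2 2 30 43) (.cons (t3 2 9 43) (.cons (t2 2 10 43) (.cons (t1 2 30 52) (.cons a243 (.cons a222 (.cons (t3 11 30 43) (.cons (t2 11 17 43) (.cons (t3 10 11 43) (.cons s84 (.cons a373 (.cons a389 (.cons (t2 17 21 28) (.cons a375 (.cons (t3 11 16 43) (.cons (t3 11 28 43) (.cons (t2 16 17 28)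 (.cons a456 .nil)))))))))))))))))))))))))))))))))))))))))))))) (by decide +kernel)
theorem s685 : Valid A [1379, 1071, 3170, 2274] := rup _
  (.cons s666 (.cons (t1 8 23 46) (.cons a521 (.cons a402 (.cons a400 (.cons s563 (.cons a403 (.cons a190 (.cons a192 (.cons (t2 10 17 49) (.cons (t2 10 24 49) (.cons (t2 10 36 49) (.cons (t3 10 23 49) (.cons (t3 8 10 49) (.cons s669 (.cons a484 (.cons a486 (.cons (t2 18 23 49) (.cons (t3 8 18 23) (.cons (t2 18 23 48) (.cons (t1 10 18 23) (.cons s138 (.cons a513 (.cons (t3 8 17 18) (.cons (t2 17 18 48) (.cons (t1 17 24 46) (.cons (t2 17 18 24) (.cons (t1 17 18 23) (.cons (t1 8 17 24) (.cons (t1 17 24 48) (.cons a193 (.cons s142 (.cons a177 (.cons s678 (.cons a67 (.cons (t2 3 24 36) (.cons (t2 3 24 49) (.cons (t3 3 18 24) (.cons (t3 3 17 24) (.cons (t3 3 23 24) (.cons (t3 3 8 24) (.cons (t2 3 10 24) (.cons s675 (.cons (t1 7 17 24) (.cons (t1 7 18 24) (.cons (t1 7 8 24) (.cons (t1 7 23 24) (.cons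 s562 (.cons a185 (.cons (t1 17 18 19) (.cons (t1 3 18 19) (.cons (t2 7 46 49) (.cons (t2 7 10 46) (.cons (t3 7 36 46) (.cons a335 (.cons (t2 18 19 39) (.cons (t2 3 19 39) (.cons s670 (.cons a447 (.cons s150 (.cons (t3 7 24 33) (.cons (t2 7 33 48) (.cons (t3 7 18 33) (.cons (t2 7 33 36) (.cons (t3 7 10 33) (.cons (t1 7 36 41) (.cons s165 (.cons a163 (.cons (t2 10 30 49) (.cons (t1 10 30 36) (.cons (t3 10 17 30) (.cons (t3 10 23 30) (.cons (t3 3 10 30) (.cons (t3 7 10 30) (.cons s620 (.cons a48 (.cons a266 (.cons s676 (.cons (t2 30 39 49) (.cons (t1 9 17 18) (.cons (t3 9 18 24) (.cons (t2 3 9 18) (.cons a429 (.cons a443 (.cons a250 (.cons (t3 8 49 50) (.cons (t3 41 49 50) (.cons (t1 9 33 48) (.cons (t1 9 33 36) (.cons a426 (.cons a262 (.cons (t1 3 8 41) (.cons (t1 6 7 48) (.cons a304 (.cons (t3 6 30 49) (.cons s684 (.cons a490 (.cons (t1 3 21 36) (.cons (t1 21 36 45) (.cons (t2 21 36 41) (.cons (t2 21 30 36) (.cons a60 (.cons (t2 7 36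 45) (.cons (t1 3 45 49) (.cons (t2 3 8 45) (.cons (t2 3 41 45) (.cons s132 (.cons (t1 2 6 49) (.cons a79 (.cons s682 (.cons (t3 2 8 45) (.cons (t2 2 21 45) (.cons (t3 2 41 45) (.cons (t3 11 17 23) (.cons (t2 11 23 30) (.cons a84 (.cons s681 (.cons (t1 2 41 43) (.cons a377 (.cons s94 (.cons a451 (.cons a371 (.cons (t3 21 30 43) (.cons (t3 21 28 43) (.cons (t2 16 30 43) (.cons (t2 16 28 30) (.cons a456 .nil))))))))))))))))))))))))))))))))))))))))))))))))))))))))))))))))))))))))))))))))))))))))))))))))))))))))))))))))))))))))))))))) (by decide +kernel)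
theorem s686 : Valid A [3945, 1370, 4698, 956, 268, 829, 3016, 3004, 2223, 1340, 3912, 3939, 347, 354, 3930, 475, 2778] := rup _
  (.cons a88 (.cons a80 (.cons a225 (.cons (t3 7 30 52) (.cons (t3 30 45 52) (.cons s682 (.cons s131 (.cons (t2 11 23 36) (.cons (t3 11 17 23) (.cons (t2 11 23 30) (.cons (t2 3 22 45) (.cons a395 (.cons a379 (.cons a377 (.cons (t1 10 22 30) (.cons (t3 3 11 45) (.cons a371 (.cons (t2 3 11 16) (.cons (t2 16 22 30) (.cons a56 .nil)))))))))))))))))))) (by decide +kernel)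
theorem s687 : Valid A [867, 1353, 1316, 3004, 2351, 2223, 1340, 3912, 3939, 347, 354, 3930, 2778, 426] := rup _
  (.cons a484 (.cons a470 (.cons (t2 2 21 45) (.cons a88 (.cons a87 (.cons a60 (.cons a307 (.cons a311 (.cons (t3 6 30 49) (.cons (t1 2 6 49) (.cons (t1 7 30 49) (.cons (t2 30 33 49) (.cons a391 (.cons (t2 10 33 36) (.cons a53 (.cons a55 (.cons (t1 3 10 33) (.cons (t3 3 36 45) (.cons (t3 3 10 45) (.cons s686 (.cons (t2 6 30 52) (.cons s681 (.cons a71 (.cons (t1 18 21 30) (.cons (t1 7 21 30) (.cons (t1 10 21 30) (.cons (t3 2 7 52) (.cons (t2 2 45 52) (.cons s199 (.cons s118 (.cons s177 (.cons a349 (.cons (t1 3 45 51) (.cons (t3 7 45 51) (.cons (t3 30 45 51) (.cons (t2 45 51 52) (.cons (t2 18 19 23) (.cons (t1 18 19 21) (.cons s169 (.cons s444 (.cons a226 (.cons (t1 3 19 23) (.cons (t3 22 51 52) (.cons (t2 3 23 51) (.cons a498 .nil))))))))))))))))))))))))))))))))))))))))))))) (by decide +kernel)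
theorem s688 : Valid A [2343, 783, 2346, 828, 2353, 2213, 444, 2778, 426] := rup _
  (.cons a347 (.cons (t1 17 18 19) (.cons (t2 18 19 24) (.cons (t1 18 19 21) (.cons (t2 6 7 19) (.cons a335 (.cons s444 (.cons (t3 6 19 24) (.cons (t1 19 24 39) (.cons (t2 3 19 39) (.cons a300 (.cons a48 (.cons (t3 6 30 39) .nil))))))))))))) (by decide +kernel)
theorem s689 : Valid A [994, 1322, 2346, 2787, 828, 866, 1316, 3004, 2353, 2213, 986, 444, 2778, 426, 1326] := rup _
  (.cons a60 (.cons (t3 3 30 45) (.cons a304 (.cons (t1 7 21 49) (.cons s199 (.cons s177 (.cons (t3 30 45 51) (.cons s688 (.cons a349 (.cons s118 (.cons a396 (.cons (t3 10 23 45) (.cons (t3 22 45 51) (.cons (t3 23 45 51) (.cons a472 (.cons a495 (.cons (t2 22 23 30) .nil))))))))))))))))) (by decide +kernel)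
theorem s690 : Valid A [995, 5986, 1122, 1116] := rup _
  (.cons (t2 7 46 49) (.cons (t2 7 8 49) (.cons a185 .nil))) (by decide +kernel)
theorem s691 : Valid A [1322, 2346, 268, 3944, 994, 866, 1316, 3004, 2353, 2213, 3939, 347, 444, 2778, 426, 1326] := rup _
  (.cons (t1 6 30 49) (.cons a304 (.cons s688 (.cons a349 (.cons (t2 2 21 45) (.cons a88 (.cons s689 (.cons s118 (.cons (t1 21 30 49) (.cons (t1 7 10 45) (.cons a222 (.cons s193 (.cons (t3 18 21 52) (.cons (t3 2 21 52) (.cons (t1 6 7 18) (.cons (t2 6 18 52) (.cons a71 .nil))))))))))))))))) (by decide +kernel)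
theorem s692 : Valid A [2346, 268, 3944, 994, 866, 1353, 1316, 3004, 1073, 3939, 347, 444, 2778, 426, 1378, 1326, 2225, 2274] := rup _
  (.cons a304 (.cons (t1 6 30 49) (.cons a469 (.cons a513 (.cons (t2 17 18 24) (.cons (t1 10 30 49) (.cons a60 (.cons a88 (.cons (t2 3 7 45) (.cons (t2 2 21 45) (.cons a80 (.cons (t3 18 21 24) (.cons s688 (.cons a349 (.cons (t1 10 19 30) (.cons s691 (.cons (t1 10 21 30) (.cons (t2 10 19 21) (.cons (t2 10 21 36) (.cons (t2 10 21 45) (.cons a222 (.cons a204 (.cons (t1 10 21 52) (.cons (t1 19 21 52) (.cons (t3 21 24 52) (.cons (t3 2 21 52) (.cons (t1 5 10 21) (.cons a15 (.cons a71 (.cons (t2 6 20 52) (.cons (t2 6 7 52) (.cons (t1 6 7 20) (.cons a228 (.cons (t2 7 24 52) (.cons (t3 7 21 52) (.cons a29 (.cons (t2 10 22 52) (.cons (t2 19 22 52) (.cons a64 (.cons s157 (.cons (t3 20 24 45) (.cons a395 (.cons (t1 17 24 45) (.cons a23 (.cons (t3 17 20 24) (.cons (t3 8 20 24) (.cons (t3 3 22 45) (.cons (t1 24 45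 51) (.cons a27 (.cons a59 (.cons s177 (.cons (t1 16 17 20) (.cons a337 (.cons (t3 5 17 45) (.cons (t2 5 45 49) (.cons (t3 10 16 19) (.cons (t2 16 19 30) (.cons s133 (.cons (t3 10 11 16) (.cons s596 (.cons a375 (.cons (t2 11 17 49) .nil)))))))))))))))))))))))))))))))))))))))))))))))))))))))))))))) (by decide +kernel)
theorem s693 : Valid A [2347, 994, 3168, 1061, 1073, 2213, 2364, 398, 986, 5858, 444, 426, 2225] := rup _
  (.cons (t2 17 18 24) (.cons (t2 18 21 24) (.cons (t1 3 18 21) (.cons (t3 3 21 24) (.cons s139 (.cons a44 (.cons a64 (.cons (t2 17 18 39) (.cons (t3 3 7 48) (.cons (t3 7 17 24) (.cons (t3 7 18 24) (.cons (t3 7 8 24) (.cons (t3 7 21 24) (.cons s150 (.cons a346 (.cons s429 (.cons s130 (.cons (t1 7 17 19) (.cons (t2 7 8 50) (.cons (t1 8 18 50) (.cons (t2 19 45 49) (.cons a333 (.cons a429 (.cons a433 (.cons (t1 19 39 49) (.cons (t3 39 49 50) .nil)))))))))))))))))))))))))) (by decide +kernel)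
theorem s694 : Valid A [3939, 347, 354, 444, 2778, 426, 1071, 3170, 2274] := rup _
  (.cons a60 (.cons a88 (.cons (t2 3 7 45) (.cons (t3 3 30 45) (.cons (t2 2 30 45) (.cons a87 (.cons a80 (.cons s685 (.cons s666 (.cons (t1 8 23 46) (.cons a522 (.cons a402 (.cons a400 (.cons s563 (.cons a403 (.cons a469 (.cons a470 (.cons (t2 30 36 49) (.cons (t1 24 30 49) (.cons (t1 10 30 49) (.cons a513 (.cons s71 (.cons (t2 17 18 24) (.cons (t1 17 24 46) (.cons a181 (.cons s182 (.cons a193 (.cons (t1 8 17 18) (.cons (t2 8 17 49) (.cons (t2 8 17 23) (.cons (t1 8 24 48) (.cons (t3 18 23 24) (.cons (t2 23 24 30) (.cons (t3 8 10 18) (.cons a484 (.cons a486 (.cons s142 (.cons a177 (.cons (t1 36 46 49) (.cons a189 (.cons (t3 10 36 46) (.cons s687 (.cons (t1 6 30 49) (.cons s690 (.cons s693 (.cons s483 (.cons s692 (.cons (t3 2 30 52) (.cons (t3 6 30 52) (.cons a71 .nil)))))))))))))))))))))))))))))))))))))))))))))))))) (by decide +kernel)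
theorem s695 : Valid A [2353, 994, 3938, 398, 444, 1378, 3036, 4706, 3170] := rup _
  (.cons s75 (.cons (t2 18 24 49) (.cons a193 (.cons a468 (.cons (t3 18 23 24) (.cons s76 (.cons (t2 18 24 30) (.cons a484 (.cons a486 (.cons (t1 3 24 30) (.cons s142 (.cons a64 (.cons a177 (.cons s47 (.cons s158 (.cons (t1 36 46 49) (.cons (t1 24 30 34) (.cons a189 (.cons s338 .nil))))))))))))))))))) (by decide +kernel)
theorem s696 : Valid A [3164, 2382, 1373, 1316, 2403, 2352, 994, 866, 3036, 1116, 3040, 4706, 2225, 3170] := rup _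
  (.cons (t1 7 18 49) (.cons (t2 18 36 49) (.cons a304 (.cons s182 (.cons a193 (.cons (t2 8 24 49) (.cons (t1 18 23 24) (.cons (t3 17 23 24) (.cons a483 (.cons (t1 23 36 48) (.cons a479 (.cons s106 (.cons (t3 18 48 49) (.cons (t1 7 48 49) (.cons (t1 6 48 49) (.cons s158 (.cons s150 (.cons (t1 7 17 24) (.cons (t1 7 8 24) (.cons (t1 7 23 24) (.cons s432 (.cons a185 (.cons (t3 7 17 50) (.cons (t3 7 18 50) (.cons (t2 7 46 50) (.cons (t3 7 10 46) (.cons a433 (.cons (t1 10 46 50) (.cons (t1 6 7 10) (.cons (t3 7 39 50) (.cons (t1 17 39 50) (.cons a247 (.cons a122 (.cons (t2 6 9 10) (.cons a261 (.cons (t3 9 18 48) (.cons a266 (.cons (t3 18 38 49) (.cons s414 (.cons (t2 7 38 46) (.cons (t3 7 23 38) (.cons (t2 7 10 38) (.cons (t2 7 38 39) (.cons (t3 7 37 38) (.cons a174 (.cons a123 (.cons (t2 10 19 38) (.cons (t3 19 38 39) (.cons (t1 17 23 37) (.cons (t3 18 23 37) (.cons a349 (.cons a333 (.cons (t2 17 19 37) (.cons (t1 18 19 37) .nil))))))))))))))))))))))))))))))))))))))))))))))))))))))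 (by decide +kernel)
theorem s697 : Valid A [6243, 1329, 783, 994, 3938, 1378, 3170] := rup _
  (.cons s106 (.cons (t1 7 48 49) (.cons a168 (.cons s150 (.cons (t1 10 24 34) (.cons s148 (.cons a163 (.cons (t1 10 33 49) (.cons (t1 30 33 49) (.cons a391 .nil)))))))))) (by decide +kernel)
theorem s698 : Valid A [2510, 463, 1498, 2760, 2237, 2254, 457, 3908, 1093, 1348, 945, 1123, 2269, 3144, 2778, 426, 3170, 2274] := rup _
  (.cons a184 (.cons s563 (.cons a403 (.cons a333 (.cons (t2 3 19 39) (.cons (t1 17 19 49) (.cons (t2 17 19 24) (.cons (t2 17 19 46) (.cons (t3 8 17 19) (.cons (t2 17 19 30) (.cons s444 (.cons a176 (.cons (t1 19 30 38) (.cons (t1 19 21 49) (.cons (t2 19 21 24) (.cons (t3 8 19 21) (.cons s125 (.cons s680 (.cons a137 (.cons s284 (.cons (t1 8 34 38) (.cons a142 (.cons (t2 5 11 45) (.cons (t2 8 29 49) (.cons (t2 8 29 38) (.cons a215 (.cons a132 (.cons (t3 11 29 49) .nil)))))))))))))))))))))))))))) (by decide +kernel)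
theorem s699 : Valid A [994, 866, 3938, 398, 482, 444, 2778, 426, 1071, 3170, 2274] := rup _
  (.cons a60 (.cons s685 (.cons s666 (.cons (t1 8 23 46) (.cons a521 (.cons s563 (.cons a403 (.cons a304 (.cons s695 (.cons (t2 17 18 24) (.cons a513 (.cons a471 (.cons s80 (.cons (t2 18 36 49) (.cons (t1 10 18 49) (.cons (t1 3 18 49) (.cons (t1 7 18 49) (.cons a189 (.cons s139 (.cons s696 (.cons a178 (.cons a179 (.cons (t1 17 24 46) (.cons (t3 10 24 46) (.cons s697 (.cons a479 (.cons (t1 23 36 48) (.cons (t3 24 36 48) (.cons a483 (.cons (t2 18 23 49) (.cons (t3 7 18 23) (.cons (t1 8 23 49) (.cons s143 (.cons s56 (.cons (t3 7 24 46) (.cons (t2 10 34 46) (.cons s346 (.cons a67 (.cons (t1 6 7 24) (.cons (t3 8 34 49) (.cons (t1 30 34 49) (.cons a44 (.cons a301 (.cons s338 (.cons (t3 3 21 48) (.cons (t2 3 45 48) (.cons (t3 3 36 48) (.cons (t3 24 39 46) (.cons (t2 17 24 39) (.cons (t2 7 24 39) (.cons (t3 17 30 46) (.cons (t1 21 36 48) (.cons (t3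 36 45 48) (.cons (t2 30 39 46) (.cons a380 (.cons a48 (.cons s698 (.cons (t1 7 19 39) (.cons (t1 18 19 39) (.cons a345 .nil)))))))))))))))))))))))))))))))))))))))))))))))))))))))))))) (by decide +kernel)
theorem s700 : Valid A [1498, 2760, 2523, 2474, 2504, 2864, 918, 943, 913, 4698, 3163, 2736, 986, 2778] := rup _
  (.cons s384 (.cons (t3 7 11 23) (.cons (t1 11 19 45) (.cons s553 (.cons a29 (.cons (t2 19 20 45) (.cons (t2 7 8 20) (.cons (t2 7 20 23) (.cons (t3 7 11 20) (.cons a33 (.cons s292 (.cons (t1 7 20 21) (.cons (t1 8 20 21) (.cons (t2 20 21 23) (.cons a238 (.cons a210 (.cons a143 (.cons (t1 7 23 52) (.cons a203 (.cons a134 (.cons a227 (.cons (t2 5 19 36) (.cons (t2 5 36 45) (.cons (t2 24 29 45) (.cons (t3 22 24 29) (.cons (t3 7 22 23) (.cons s360 (.cons s177 (.cons (t1 29 45 51) (.cons (t3 22 29 51) (.cons (t1 21 23 51) (.cons a495 .nil)))))))))))))))))))))))))))))))) (by decide +kernel)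
theorem s701 : Valid A [2760, 2523, 2474, 2504, 2864, 428, 3004, 918, 943, 913, 3034, 4698, 2267, 3163, 2736, 986, 3930, 475, 2778] := rup _
  (.cons s700 (.cons (t3 11 17 45) (.cons (t3 3 11 45) (.cons (t2 11 30 45) (.cons a377 (.cons a371 (.cons (t2 3 11 16) (.cons (t2 16 23 30) (.cons a56 (.cons (t1 16 22 23) (.cons (t2 16 22 30) (.cons a475 (.cons a495 (.cons (t3 23 45 51) (.cons s177 (.cons (t2 5 21 45) (.cons (t2 5 36 45) (.cons a203 .nil)))))))))))))))))) (by decide +kernel)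
theorem s702 : Valid A [3165, 2218, 2736, 956, 995, 986, 3930, 475, 2778, 1378, 1116, 1071, 4706, 2225, 3170] := rup _
  (.cons (t2 3 7 45) (.cons (t2 7 24 49) (.cons a64 (.cons (t3 3 17 24) (.cons (t2 3 17 45) (.cons (t2 3 24 45) (.cons (t2 7 36 49) (.cons (t1 8 23 46) (.cons a178 (.cons a179 (.cons a196 (.cons (t1 24 46 49) (.cons (t1 17 24 46) (.cons (t1 8 24 46) (.cons (t3 7 24 46) (.cons (t3 21 24 46) (.cons (t2 24 45 46) (.cons (t3 24 36 45) (.cons (t3 23 24 45) (.cons a189 (.cons s690 (.cons s138 (.cons a185 (.cons s143 (.cons (t2 10 21 46) (.cons (t3 10 45 46) (.cons s297 (.cons s63 (.cons (t2 10 36 46) (.cons (t2 8 36 49) (.cons (t3 7 18 49) (.cons (t1 7 23 36) (.cons (t1 7 23 30) (.cons a396 (.cons a348 (.cons (t2 3 22 45) (.cons (t1 22 24 45) (.cons (t2 17 22 45) (.cons a349 (.cons (t1 10 19 36) (.cons (t1 10 19 21) (.cons (t2 10 19 45) (.cons s701 (.cons (t2 21 23 36) (.cons (t1 8 21 36) (.cons (t1 7 21 36) (.cons s202 (.cons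 s199 (.cons s203 (.cons s177 (.cons (t1 21 22 23) (.cons (t3 22 45 51) (.cons (t3 23 45 51) (.cons a495 .nil)))))))))))))))))))))))))))))))))))))))))))))))))))))) (by decide +kernel)
theorem s703 : Valid A [995, 3938, 986, 444, 2778, 426, 1071, 3170, 2274] := rup _
  (.cons a60 (.cons (t2 3 7 45) (.cons (t3 3 30 45) (.cons s685 (.cons s666 (.cons s563 (.cons a403 (.cons (t2 7 24 49) (.cons (t2 7 30 49) (.cons a64 (.cons (t3 3 17 24) (.cons (t3 3 21 24) (.cons (t1 3 17 21) (.cons (t1 3 17 30) (.cons s702 (.cons s182 (.cons (t2 8 24 49) (.cons s690 (.cons s80 (.cons a513 (.cons a468 (.cons (t1 17 18 30) .nil)))))))))))))))))))))) (by decide +kernel)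
theorem s704 : Valid A [3164, 956, 3132, 944, 1373, 2376, 2352, 994, 3036, 1116, 3040, 4706, 2225, 3170] := rup _
  (.cons (t2 17 24 46) (.cons a193 (.cons s454 (.cons (t1 18 23 24) (.cons a185 (.cons a483 (.cons s56 (.cons (t3 7 10 46) (.cons (t1 23 36 48) (.cons (t2 10 34 46) (.cons (t1 7 10 30) (.cons a479 (.cons a162 (.cons s106 (.cons (t3 24 30 34) (.cons a168 .nil)))))))))))))))) (by decide +kernel)
theorem s705 : Valid A [3165, 3534, 433, 2480, 3151, 1373, 932, 1316, 2376, 3036, 1071] := rup _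
  (.cons a67 (.cons a45 (.cons a178 (.cons a196 (.cons (t3 7 24 46) (.cons (t1 3 24 46) (.cons (t1 24 46 48) (.cons (t3 10 24 46) (.cons (t2 3 24 36) (.cons (t3 23 24 39) (.cons s191 (.cons s143 (.cons (t3 3 10 46) (.cons (t2 10 46 48) (.cons (t2 10 19 24) (.cons a325 (.cons s150 (.cons s46 (.cons (t3 7 18 23) (.cons (t1 7 23 33) (.cons (t3 18 23 27) (.cons (t1 23 27 34) (.cons a483 (.cons (t3 23 33 36) (.cons s192 (.cons a52 (.cons s135 (.cons (t2 3 10 33) .nil)))))))))))))))))))))))))))) (by decide +kernel)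
theorem s706 : Valid A [433, 3151, 1373, 932, 1316, 2376, 4322, 2352, 3036, 1071, 4706, 2225, 3170] := rup _
  (.cons (t1 17 24 39) (.cons a334 (.cons (t1 19 24 39) (.cons a521 (.cons (t3 3 17 24) (.cons (t1 3 24 39) (.cons a38 (.cons (t3 3 27 39) (.cons s705 (.cons a193 (.cons (t3 3 23 24) (.cons (t1 18 23 24) (.cons a483 (.cons (t1 23 36 48) (.cons (t1 3 23 36) (.cons a479 (.cons a54 (.cons s106 (.cons (t1 33 48 49) (.cons (t1 3 24 33) (.cons a168 (.cons s176 (.cons (t3 24 33 34) .nil))))))))))))))))))))))) (by decide +kernel)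
theorem s707 : Valid A [347, 354, 444, 2778, 426, 1071, 3170, 2274] := rup _
  (.cons a60 (.cons s685 (.cons s666 (.cons (t1 8 23 46) (.cons s563 (.cons a403 (.cons a80 (.cons a88 (.cons (t2 3 45 49) (.cons (t2 3 7 45) (.cons s694 (.cons s703 (.cons s695 (.cons s699 (.cons (t2 17 18 24) (.cons a311 (.cons (t2 6 24 49) (.cons a513 (.cons a471 (.cons s80 (.cons (t2 18 36 49) (.cons (t1 10 18 49) (.cons (t1 3 18 49) (.cons (t1 7 18 49) (.cons (t3 6 18 49) (.cons s139 (.cons a189 (.cons (t2 6 18 39) (.cons a300 (.cons s706 (.cons a64 (.cons (t3 3 24 39) (.cons s158 (.cons a48 (.cons s106 (.cons (t1 10 34 49) (.cons (t1 30 34 49) (.cons (t1 33 34 49) (.cons (t3 24 30 39) (.cons a479 (.cons a162 (.cons s176 (.cons a394 (.cons (t3 33 36 48) (.cons (t3 30 33 48) (.cons a53 (.cons (t2 24 30 48) (.cons (t3 3 33 48) (.cons a44 .nil))))))))))))))))))))))))))))))))))))))))))))))))) (by decide +kernel)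
theorem s708 : Valid A [994, 432, 483, 3938, 444, 1071, 3170, 2274] := rup _
  (.cons s685 (.cons s666 (.cons (t1 8 23 46) (.cons a521 (.cons s563 (.cons a403 (.cons (t2 3 7 49) (.cons a64 (.cons s695 (.cons s158 (.cons (t2 17 18 24) (.cons s106 (.cons a513 (.cons a479 (.cons (t2 3 48 49) (.cons (t2 18 36 49) (.cons (t1 23 36 48) (.cons a44 (.cons (t3 24 36 48) (.cons a178 (.cons s142 .nil))))))))))))))))))))) (by decide +kernel)
theorem s709 : Valid A [5859, 444, 475, 1071, 3170, 2274] := rup _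
  (.cons (t3 3 30 45) (.cons s666 (.cons (t1 8 23 46) (.cons s563 (.cons a403 (.cons (t1 24 45 49) (.cons (t3 30 45 49) (.cons (t1 3 45 49) (.cons (t2 3 24 45) (.cons s708 (.cons s57 (.cons (t2 7 24 49) (.cons (t2 7 36 49) (.cons a168 (.cons s90 (.cons s145 (.cons s191 (.cons s42 (.cons (t3 7 24 46) (.cons (t3 7 36 46) (.cons (t3 7 18 49) (.cons a193 (.cons a177 (.cons a513 (.cons (t1 17 24 36) (.cons (t1 23 24 36) (.cons (t2 17 18 36) (.cons a485 .nil)))))))))))))))))))))))))))) (by decide +kernel)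
theorem s710 : Valid A [995, 432, 482, 3170] := rup _
  (.cons (t2 7 24 49) (.cons (t1 3 7 49) (.cons a64 .nil))) (by decide +kernel)
theorem s711 : Valid A [2365, 1172, 2380, 3907, 3909, 1348, 2353] := rup _
  (.cons (t2 18 24 30) (.cons (t1 18 30 34) (.cons (t1 24 30 33) (.cons (t1 18 34 38) (.cons a251 (.cons a158 (.cons (t1 9 18 24) (.cons (t3 9 10 38) (.cons a265 .nil))))))))) (by decide +kernel)
theorem s712 : Valid A [1987, 1090, 4324, 1124] := rup _
  (.cons (t2 15 33 50) (.cons (t1 8 15 33) (.cons a105 .nil))) (by decide +kernel)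
theorem s713 : Valid A [3554, 2500, 934, 1986, 4323, 4451, 962] := rup _
  (.cons (t1 27 34 49) (.cons s435 (.cons a154 (.cons (t3 7 19 27) .nil)))) (by decide +kernel)
theorem s714 : Valid A [3555, 997, 944, 994, 3170] := rup _
  (.cons (t1 7 27 49) (.cons (t1 24 27 49) (.cons s180 .nil))) (by decide +kernel)
theorem s715 : Valid A [934, 3554, 1986, 4323, 4451, 2372, 962, 932] := rup _
  (.cons a345 (.cons s713 (.cons (t1 18 19 34) .nil))) (by decide +kernel)
theorem s716 : Valid A [5863, 3004, 2906, 3034, 3930] := rup _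
  (.cons (t3 30 45 51) (.cons (t3 22 45 51) (.cons (t3 23 45 51) (.cons a472 (.cons a495 (.cons (t2 22 23 30) .nil)))))) (by decide +kernel)
theorem s717 : Valid A [2402, 944, 432, 444, 475, 1071, 3170, 2274] := rup _
  (.cons s709 (.cons a64 (.cons (t2 3 7 45) (.cons a88 (.cons a79 (.cons (t1 3 7 30) (.cons s19 (.cons (t1 3 7 40) (.cons a403 (.cons (t1 7 17 24) (.cons (t2 3 45 49) (.cons s710 (.cons (t3 3 24 45) (.cons (t1 3 17 24) (.cons (t3 3 30 45) (.cons s685 (.cons s666 (.cons (t1 8 23 46) (.cons a522 (.cons s563 (.cons a513 (.cons s71 (.cons (t2 17 18 24) (.cons (t3 7 17 18) (.cons (t3 3 17 18) (.cons (t1 17 24 46) (.cons a181 (.cons s454 (.cons s182 (.cons a193 (.cons (t2 8 17 49) (.cons (t2 8 17 23) (.cons (t1 8 17 18) (.cons a185 (.cons (t1 8 24 48) (.cons (t2 23 24 45) (.cons (t3 18 23 24) (.cons s56 (.cons (t1 7 46 49) (.cons (t3 7 30 46) (.cons (t1 3 7 46) (.cons (t2 7 45 46) (.cons a44 (.cons a189 (.cons (t2 3 45 48) (.cons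 (t1 3 48 49) (.cons (t3 10 45 46) (.cons (t3 3 10 46) (.cons (t2 10 30 46) (.cons (t3 7 10 46) (.cons (t2 10 34 46) (.cons a479 (.cons a396 (.cons a162 (.cons (t3 36 45 48) (.cons (t3 3 36 48) (.cons (t2 3 22 45) (.cons a380 (.cons a54 (.cons (t2 7 11 45) (.cons (t1 3 7 33) (.cons (t1 3 10 33) (.cons s432 (.cons a391 (.cons a431 (.cons (t3 7 8 50) (.cons (t3 7 18 50) (.cons s676 (.cons (t3 7 33 50) (.cons (t2 7 10 50) (.cons (t3 7 40 50) (.cons (t3 7 11 50) (.cons s482 (.cons a247 (.cons s711 (.cons a468 (.cons (t2 17 18 30) (.cons s139 (.cons (t2 8 18 30) (.cons (t1 18 23 30) (.cons (t3 18 30 34) (.cons s534 (.cons (t2 30 33 49) (.cons (t2 17 18 39) (.cons a433 (.cons (t3 8 30 33) (.cons (t3 7 39 50) (.cons a122 (.cons a440 (.cons s712 (.cons a109 (.cons (t1 7 15 24) (.cons (t3 7 14 15) (.cons a92 (.cons (t3 14 18 24) (.cons a524 (.cons (t2 8 18 41) (.cons a426 (.cons (t1 11 41 50) (.cons (t1 40 41 50) (.cons a3 (.cons s714 (.cons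 s435 (.cons (t3 7 17 27) (.cons (t1 7 27 37) (.cons (t1 7 27 40) (.cons s715 (.cons (t2 7 19 46) (.cons a175 (.cons (t2 10 38 46) (.cons (t2 7 38 46) (.cons a158 (.cons s414 (.cons (t1 30 34 38) (.cons s716 (.cons s177 (.cons (t2 5 11 45) (.cons (t2 5 45 49) (.cons a215 (.cons (t2 11 18 49) (.cons (t2 11 17 49) (.cons (t3 11 30 49) (.cons (t3 11 38 49) (.cons (t3 2 11 49) (.cons s476 (.cons a373 (.cons a131 (.cons a78 (.cons a141 (.cons (t2 17 22 23) (.cons (t1 17 22 30) (.cons a375 (.cons (t1 29 30 38) (.cons (t3 11 25 40) (.cons a496 (.cons a497 (.cons a472 (.cons (t1 16 17 24) (.cons (t3 8 16 17) (.cons (t2 16 17 27) (.cons (t2 16 17 29) (.cons a0 (.cons (t1 23 24 51) (.cons (t3 29 30 51) (.cons a26 (.cons (t1 16 25 27) (.cons (t2 25 27 37) (.cons (t3 16 20 24) (.cons a117 (.cons a22 (.cons (t3 16 20 37) (.cons (t3 16 29 37) (.cons (t2 20 29 51) (.cons a11 .nil))))))))))))))))))))))))))))))))))))))))))))))))))))))))))))))))))))))))))))))))))))))))))))))))))))))))))))))))))))))))))))))))))))))))))))))))))))))))))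 (by decide +kernel)
theorem s718 : Valid A [6243, 432, 482, 3170] := rup _
  (.cons (t1 24 48 49) (.cons (t1 3 48 49) (.cons a44 .nil))) (by decide +kernel)
theorem s719 : Valid A [944, 432, 444, 475, 1071, 3170, 2274] := rup _
  (.cons a521 (.cons s563 (.cons s709 (.cons (t2 3 45 49) (.cons s718 (.cons a479 (.cons (t1 23 36 48) (.cons s710 (.cons s666 (.cons (t1 8 23 46) (.cons s717 (.cons (t2 18 36 49) (.cons (t2 18 24 49) (.cons (t1 7 18 49) (.cons a483 (.cons (t1 18 23 24) (.cons (t3 7 18 23) (.cons a193 (.cons s143 (.cons (t3 7 24 46) .nil)))))))))))))))))))) (by decide +kernel)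
theorem s720 : Valid A [354, 444, 2778, 426, 1071, 3170, 2274] := rup _
  (.cons a60 (.cons s709 (.cons s707 (.cons a79 .nil)))) (by decide +kernel)
theorem s721 : Valid A [399, 444, 475, 1071, 3170, 2274] := rup _
  (.cons a65 (.cons a66 (.cons s719 .nil))) (by decide +kernel)
theorem s722 : Valid A [444, 2778, 426, 1071, 3170, 2274] := rup _
  (.cons a60 (.cons s685 (.cons s666 (.cons a402 (.cons a403 (.cons s720 (.cons s721 (.cons (t3 3 7 45) (.cons s132 (.cons s703 (.cons s57 (.cons a469 (.cons a168 (.cons s534 (.cons a513 (.cons (t1 17 24 34) (.cons (t3 8 10 34) (.cons s71 (.cons (t1 8 17 34) (.cons a181 .nil)))))))))))))))))))) (by decide +kernel)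
theorem s723 : Valid A [2213, 995, 1071, 3170, 2274] := rup _
  (.cons s666 (.cons (t1 8 23 46) (.cons s563 (.cons a403 (.cons s71 (.cons (t2 17 18 24) (.cons (t1 17 24 46) (.cons a181 (.cons a193 (.cons (t2 8 17 49) (.cons (t3 18 23 24) (.cons s690 (.cons a484 (.cons a486 (.cons (t1 36 46 49) (.cons s142 (.cons a177 .nil))))))))))))))))) (by decide +kernel)
theorem s724 : Valid A [995, 398, 445, 1071, 3170, 2274] := rup _
  (.cons s685 (.cons s666 (.cons (t1 8 23 46) (.cons s57 (.cons (t3 3 7 49) (.cons s710 (.cons a168 (.cons (t2 3 24 30) (.cons (t2 24 30 34) (.cons a164 (.cons s723 (.cons a513 (.cons s80 (.cons a189 (.cons s690 (.cons (t3 10 34 46) (.cons (t2 8 23 49) (.cons s351 .nil)))))))))))))))))) (by decide +kernel)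
theorem s725 : Valid A [1123, 1373, 3938, 994, 956, 1116, 1071, 3170] := rup _
  (.cons (t1 8 23 46) (.cons (t1 7 8 49) (.cons (t2 8 23 49) (.cons a185 (.cons s56 (.cons (t3 7 30 46) (.cons s351 (.cons (t1 30 34 49) (.cons s338 .nil))))))))) (by decide +kernel)
theorem s726 : Valid A [2403, 994, 956, 445, 1378, 1116, 1071, 4706, 3170] := rup _
  (.cons (t1 8 23 46) (.cons a521 (.cons a469 (.cons s80 (.cons (t2 18 36 49) (.cons (t2 3 30 49) (.cons a189 (.cons s725 (.cons (t1 8 23 49) (.cons (t2 18 23 49) (.cons a483 (.cons (t1 23 36 46) (.cons (t1 23 36 48) (.cons a479 (.cons s106 (.cons (t1 24 48 49) (.cons (t1 10 48 49) (.cons (t1 30 48 49) (.cons s718 (.cons a168 (.cons s136 (.cons (t2 24 30 34) (.cons a164 (.cons a165 (.cons (t3 10 34 46) (.cons s135 (.cons s346 (.cons a391 (.cons (t1 3 24 36) (.cons (t1 3 30 33) (.cons a54 .nil))))))))))))))))))))))))))))))) (by decide +kernel)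
theorem s727 : Valid A [1507, 4698, 5858, 4706] := rup _
  (.cons (t2 11 36 49) (.cons (t2 11 45 49) (.cons a379 .nil))) (by decide +kernel)
theorem s728 : Valid A [3049, 3541, 4186, 3028, 270, 310, 303, 2358, 3035, 2351, 3042, 994] := rup _
  (.cons (t3 23 49 52) (.cons (t1 18 23 52) (.cons (t2 23 45 52) (.cons (t1 2 23 52) (.cons (t3 23 42 52) (.cons a69 (.cons a234 (.cons (t1 44 45 52) (.cons (t2 18 44 52) (.cons (t1 7 42 49) (.cons a271 (.cons a276 (.cons (t1 7 27 42) (.cons (t3 7 27 44) (.cons (t3 27 32 44) (.cons (t1 7 32 44) (.cons a322 (.cons a323 (.cons a412 (.cons a75 (.cons (t3 2 7 35) .nil))))))))))))))))))))) (by decide +kernel)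
theorem s729 : Valid A [428, 3028, 3156, 270, 310, 303, 3126, 969, 917, 2358, 3912, 3005, 4698, 1370, 2218, 3163, 2736, 419, 944, 2351, 3042, 2993, 994, 956, 2748, 475, 2778, 1378, 1071] := rup _
  (.cons (t1 23 24 45) (.cons (t1 21 23 24) (.cons (t1 7 23 24) (.cons (t3 3 22 45) (.cons (t1 3 17 22) (.cons a395 (.cons (t1 10 22 49) (.cons (t1 7 10 22) (.cons s626 (.cons a227 (.cons a134 (.cons (t1 7 36 52) (.cons a151 (.cons (t3 7 24 29) (.cons (t1 23 24 29) (.cons (t3 24 27 29) (.cons (t2 24 29 45) (.cons (t1 24 29 42) (.cons (t3 29 32 45) (.cons a126 (.cons s728 (.cons (t1 23 30 52) (.cons s116 (.cons s147 (.cons a222 (.cons s384 (.cons s294 (.cons (t3 11 21 52) (.cons s474 (.cons a238 (.cons (t1 11 23 29) .nil))))))))))))))))))))))))))))))) (by decide +kernel)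
theorem s730 : Valid A [4450, 1122, 2353, 2268, 994, 986, 445, 2778, 426, 1378, 1116, 1071, 4706, 2225, 3170] := rup _
  (.cons (t1 17 24 46) (.cons (t1 8 23 46) (.cons a193 (.cons (t3 18 23 24) (.cons a486 (.cons a484 (.cons s142 (.cons a177 (.cons (t1 36 46 49) (.cons a189 (.cons (t2 23 24 49) (.cons a402 (.cons s182 (.cons (t3 8 10 24) (.cons s132 (.cons a60 (.cons (t2 3 30 45) (.cons (t1 7 30 45) (.cons (t2 3 7 45) (.cons (t3 3 21 30) (.cons a50 (.cons a168 (.cons s158 (.cons (t1 18 24 34) (.cons (t3 10 24 34) (.cons a64 (.cons s454 (.cons (t1 7 18 24) (.cons s534 (.cons (t2 3 24 49) (.cons (t3 3 17 24) (.cons (t3 3 21 24) (.cons (t2 3 24 45) (.cons (t2 3 24 30) (.cons (t1 3 24 39) (.cons (t3 3 18 24) (.cons (t3 3 8 24) (.cons (t3 3 23 24) (.cons (t2 3 24 36) (.cons a185 (.cons (t1 30 45 49) (.cons a38 (.cons (t1 3 17 21) (.cons (t2 8 21 24) (.cons (t1 18 24 45) (.cons (t1 8 24 45) (.cons (t1 23 24 45) (.cons (t3 10 24 45) (.cons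 (t3 24 36 45) (.cons (t1 23 24 30) (.cons (t1 24 30 36) (.cons (t2 18 24 39) (.cons (t2 23 24 39) (.cons (t1 3 18 27) (.cons (t1 3 23 27) (.cons (t3 7 10 46) (.cons (t3 7 36 46) (.cons a79 (.cons (t1 3 24 27) (.cons (t3 2 18 45) (.cons a357 (.cons (t3 2 23 45) (.cons (t2 2 10 45) (.cons (t2 2 18 27) (.cons a325 (.cons (t1 2 7 10) (.cons s670 (.cons (t3 2 24 45) (.cons (t2 24 42 45) (.cons (t2 23 42 45) (.cons s483 (.cons s150 (.cons (t3 7 24 33) (.cons (t2 7 33 48) (.cons (t3 2 6 24) (.cons a300 (.cons (t3 6 27 39) (.cons s727 (.cons s729 (.cons (t2 3 17 22) (.cons (t2 3 22 23) (.cons (t2 3 8 22) (.cons (t2 3 22 45) (.cons a139 (.cons a496 (.cons (t2 8 22 29) (.cons (t1 23 45 51) (.cons a142 (.cons s177 (.cons (t3 5 23 45) (.cons s199 (.cons (t3 5 24 45) (.cons (t2 5 45 49) (.cons (t2 5 42 45) (.cons (t1 7 21 29) (.cons a215 (.cons (t2 5 11 23) (.cons a239 (.cons (t2 2 23 52) (.cons s343 (.cons (t1 6 7 48) (.cons (t1 6 7 10) (.cons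 (t2 6 7 27) (.cons a262 (.cons (t2 6 10 27) (.cons (t2 7 27 29) (.cons (t1 9 33 48) (.cons a127 (.cons a250 (.cons (t2 10 27 42) (.cons (t3 9 18 24) (.cons (t3 5 9 24) (.cons a266 (.cons a267 (.cons (t2 5 9 38) (.cons (t1 18 34 38) (.cons a198 (.cons a158 (.cons (t1 10 38 42) .nil))))))))))))))))))))))))))))))))))))))))))))))))))))))))))))))))))))))))))))))))))))))))))))))))))))))))))))))))))))))) (by decide +kernel)
theorem s731 : Valid A [3133, 4451, 1373, 3164] := rup _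
  (.cons a170 (.cons (t1 24 30 34) (.cons (t1 24 30 46) (.cons s338 .nil)))) (by decide +kernel)
theorem s732 : Valid A [986, 2778, 426, 1071, 3170, 2274] := rup _
  (.cons a60 (.cons s722 (.cons (t2 3 30 45) (.cons s685 (.cons s666 (.cons (t1 8 23 46) (.cons a522 (.cons s563 (.cons a403 (.cons (t2 3 7 45) (.cons (t1 7 30 45) (.cons s724 (.cons s726 (.cons a513 (.cons s71 (.cons (t2 17 18 24) (.cons (t1 17 24 46) (.cons a181 (.cons s182 (.cons a193 (.cons (t2 8 17 49) (.cons (t1 8 24 48) (.cons (t3 18 23 24) (.cons a484 (.cons a486 (.cons s142 (.cons a177 (.cons (t1 36 46 49) (.cons a189 (.cons s730 (.cons s106 (.cons s731 (.cons s136 (.cons (t2 18 24 30) (.cons (t2 30 48 49) (.cons a468 .nil)))))))))))))))))))))))))))))))))))) (by decide +kernel)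
theorem s733 : Valid A [2353, 3938, 3132, 3170] := rup _
  (.cons (t2 18 24 49) (.cons (t2 18 24 30) (.cons a468 .nil))) (by decide +kernel)
theorem s734 : Valid A [994, 957, 399, 1071, 3170, 2274] := rup _
  (.cons a65 (.cons (t3 7 24 30) (.cons a66 (.cons s666 (.cons (t1 8 23 46) (.cons a521 (.cons s563 (.cons a403 (.cons (t2 3 7 49) (.cons (t1 7 30 49) (.cons s718 (.cons a479 (.cons (t1 23 36 48) (.cons s733 (.cons (t2 17 18 24) (.cons a513 (.cons (t2 18 36 49) (.cons (t1 7 18 49) (.cons a483 (.cons (t3 7 18 23) (.cons (t1 18 23 24) (.cons s143 (.cons a193 (.cons (t3 7 24 46) .nil)))))))))))))))))))))))) (by decide +kernel)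
theorem s735 : Valid A [957, 399, 2274, 1071, 3170] := rup _
  (.cons s734 (.cons s723 (.cons (t2 7 30 49) (.cons a513 (.cons a469 .nil))))) (by decide +kernel)
theorem s736 : Valid A [2778, 426, 1071, 3170, 2274] := rup _
  (.cons a60 (.cons s722 (.cons (t2 3 30 45) (.cons s732 (.cons (t3 3 7 45) (.cons (t3 7 30 45) (.cons s735 .nil))))))) (by decide +kernel)
theorem s737 : Valid A [995, 957, 1071, 3170, 2274] := rup _
  (.cons s723 (.cons (t2 7 30 49) (.cons a513 (.cons a469 .nil)))) (by decide +kernel)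
theorem s738 : Valid A [433, 2343, 1373, 1316, 2403, 2352, 994, 444, 1116, 1071, 4706, 2225, 3170] := rup _
  (.cons (t1 18 19 24) (.cons (t2 17 18 24) (.cons (t3 17 18 19) (.cons (t1 7 18 49) (.cons (t2 18 36 49) (.cons a471 (.cons (t1 8 23 46) (.cons a521 (.cons (t3 3 17 24) (.cons (t2 3 18 24) (.cons a39 (.cons s139 (.cons (t1 18 19 39) (.cons a333 (.cons (t2 17 24 39) (.cons (t3 17 27 39) (.cons s706 (.cons s705 (.cons a311 (.cons s696 .nil)))))))))))))))))))) (by decide +kernel)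
theorem s739 : Valid A [934, 2254, 2382, 931, 932] := rup _
  (.cons a345 (.cons (t1 7 17 19) (.cons (t1 18 19 39) (.cons a333 .nil)))) (by decide +kernel)
theorem s740 : Valid A [945, 957, 1071, 3170, 2274] := rup _
  (.cons s685 (.cons a403 (.cons s563 (.cons s666 (.cons (t1 8 23 46) (.cons s735 (.cons (t3 3 7 30) (.cons s737 (.cons (t1 7 30 49) (.cons s695 (.cons (t2 17 18 24) (.cons a513 (.cons s80 (.cons a189 (.cons (t1 7 18 49) (.cons a471 (.cons s50 (.cons a67 (.cons (t3 7 17 24) (.cons s158 (.cons (t2 7 24 30) (.cons s708 (.cons s106 (.cons (t1 10 34 49) (.cons s338 (.cons s731 (.cons (t1 3 18 49) (.cons a479 (.cons (t1 7 30 46) (.cons a178 (.cons s139 (.cons (t3 24 36 48) (.cons a44 (.cons (t3 3 36 48) (.cons a54 (.cons (t3 3 33 48) (.cons s176 (.cons (t1 33 34 49) (.cons a311 (.cons a304 (.cons (t1 6 7 24) (.cons a301 (.cons (t2 17 24 39) (.cons (t2 7 24 39) (.cons s739 (.cons (t2 7 19 46) (.cons a175 (.cons (t2 10 38 46)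 (.cons a158 (.cons (t2 34 38 49) (.cons a330 (.cons a429 (.cons (t2 18 49 50) (.cons (t3 7 39 50) (.cons a433 .nil))))))))))))))))))))))))))))))))))))))))))))))))))))))) (by decide +kernel)
theorem s741 : Valid A [957, 1071, 3170, 2274] := rup _
  (.cons s685 (.cons s666 (.cons (t1 8 23 46) (.cons a521 (.cons s563 (.cons a403 (.cons s735 (.cons (t3 3 7 30) (.cons s737 (.cons (t1 7 30 49) (.cons s695 (.cons (t2 17 18 24) (.cons a513 (.cons a471 (.cons s80 (.cons (t2 18 36 49) (.cons (t1 10 18 49) (.cons (t1 7 18 49) (.cons a189 (.cons s740 (.cons a64 (.cons (t2 3 18 24) (.cons s738 (.cons s139 (.cons a349 (.cons a345 (.cons (t3 18 39 49) (.cons (t2 10 19 46) (.cons (t1 7 19 24) (.cons (t3 19 24 46) (.cons s696 (.cons a311 (.cons (t2 6 24 49) (.cons (t2 6 39 49) (.cons s706 (.cons a300 .nil)))))))))))))))))))))))))))))))))))) (by decide +kernel)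
theorem s742 : Valid A [2403, 994, 956, 1378, 1116, 1071, 4706, 2225, 3170] := rup _
  (.cons (t1 8 23 46) (.cons a521 (.cons a469 (.cons s80 (.cons (t2 18 36 49) (.cons (t2 18 24 49) (.cons (t1 10 18 49) (.cons (t1 7 18 49) (.cons s726 (.cons a189 (.cons s725 (.cons (t1 8 23 49) (.cons (t2 18 23 49) (.cons a483 (.cons (t1 23 36 48) (.cons a479 (.cons s106 (.cons (t1 24 48 49) (.cons (t1 7 48 49) (.cons s158 (.cons s145 (.cons (t1 7 17 24) (.cons (t1 3 24 30) (.cons s738 (.cons s704 (.cons a349 (.cons a345 (.cons (t1 17 24 46) (.cons (t2 10 19 46) (.cons (t3 7 17 19) (.cons (t3 17 19 46) .nil))))))))))))))))))))))))))))))) (by decide +kernel)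
theorem s743 : Valid A [3938, 3917, 972, 969, 912, 444, 1122, 2353, 994, 1378, 3036, 4706, 3170] := rup _
  (.cons s695 (.cons (t1 30 38 49) (.cons (t1 3 7 36) (.cons s414 (.cons a54 (.cons s432 (.cons (t1 3 7 33) .nil))))))) (by decide +kernel)
theorem s744 : Valid A [3049, 2748, 1839, 457, 3004, 4698, 2760, 1353, 426] := rup _
  (.cons a239 (.cons (t3 23 30 52) (.cons (t1 14 23 52) (.cons (t1 11 14 23) (.cons a222 (.cons (t3 14 21 52) (.cons (t3 11 14 21) (.cons s84 (.cons s247 (.cons a487 (.cons (t3 10 11 36) (.cons (t3 10 28 36) (.cons a390 .nil))))))))))))) (by decide +kernel)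
theorem s745 : Valid A [2793, 3176, 3048, 1484, 457, 3148, 4698, 938, 969, 942, 1353, 426] := rup _
  (.cons (t3 7 21 36) (.cons s84 (.cons (t2 21 24 52) (.cons (t2 21 23 52) (.cons a487 (.cons s294 (.cons (t3 7 28 36) (.cons (t3 10 28 36) (.cons a388 (.cons (t3 11 28 36) (.cons (t2 7 11 28) (.cons s247 (.cons a383 (.cons s4 (.cons (t1 11 21 29) (.cons a130 (.cons a134 (.cons (t1 24 29 38) .nil)))))))))))))))))) (by decide +kernel)
theorem s746 : Valid A [3930, 1839, 858, 828, 457, 3148, 4963, 3004, 3939, 4698, 354, 938, 969, 942, 1353, 2993, 2779, 426, 4706] := rup _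
  (.cons (t3 7 21 36) (.cons (t2 21 30 45) (.cons (t3 30 45 49) (.cons a79 (.cons s727 (.cons (t3 2 21 45) (.cons (t2 2 6 45) (.cons (t1 11 38 49) (.cons s744 (.cons (t1 23 24 52) (.cons s745 (.cons a222 (.cons (t2 2 21 52) (.cons (t3 6 30 52) (.cons a71 .nil))))))))))))))) (by decide +kernel)
theorem s747 : Valid A [399, 924, 3148, 4963, 1084, 2236, 3132, 3939, 1370, 986, 938, 1340, 969, 917, 912, 944, 1353, 3042, 1061, 1314, 2993, 1073, 2353, 994, 2779, 426, 1071, 4706] := rup _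
  (.cons a330 (.cons a429 (.cons (t3 7 21 50) (.cons (t3 7 8 50) (.cons (t1 23 30 49) (.cons s132 (.cons (t1 2 30 49) (.cons (t1 7 36 45) (.cons (t1 7 23 24) (.cons a402 (.cons (t3 8 10 24) (.cons (t1 3 7 10) (.cons (t1 3 7 36) (.cons (t1 3 7 50) (.cons a54 (.cons (t3 3 33 50) (.cons (t1 3 7 33) (.cons (t1 3 10 33) (.cons a391 (.cons (t2 30 33 49) (.cons (t3 8 30 33) (.cons a311 (.cons s712 (.cons a304 (.cons (t1 6 30 49) (.cons a109 (.cons (t2 6 7 45) (.cons (t1 7 15 24) (.cons (t1 7 15 21) (.cons (t3 7 14 15) (.cons a92 (.cons (t3 14 18 24) (.cons (t3 14 23 24) (.cons a524 (.cons (t1 18 24 41) (.cons (t2 8 18 41) (.cons a426 (.cons (t1 21 41 50) (.cons s746 (.cons (t3 21 30 45) (.cons (t2 30 45 49) (.cons (t3 2 30 45) (.cons a223 (.cons (t2 21 24 30) (.cons (t1 17 21 30) (.cons a85 (.cons (t1 21 45 52) (.cons s271 (.cons (t2 2 7 8) (.cons (t3 2 6 7) (.cons (t2 8 24 43) (.cons a73 (.cons a82 (.cons (t1 2 7 52) (.cons (t2 2 7 43) (.cons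 s131 (.cons a455 (.cons a395 (.cons (t3 22 45 49) (.cons (t3 4 7 10) (.cons (t3 4 7 15) (.cons (t3 10 17 22) (.cons s626 (.cons s261 (.cons a134 (.cons (t2 4 21 29) (.cons (t3 10 24 29) (.cons a146 .nil)))))))))))))))))))))))))))))))))))))))))))))))))))))))))))))))))))) (by decide +kernel)
theorem s748 : Valid A [935, 944, 444, 994, 426, 1071, 3170, 2274] := rup _
  (.cons s685 (.cons s563 (.cons a403 (.cons s666 (.cons s741 (.cons s742 (.cons a513 (.cons s71 (.cons (t1 17 24 46) (.cons (t2 17 18 24) (.cons (t1 8 23 46) (.cons a193 (.cons (t3 18 23 24) (.cons a486 (.cons a484 (.cons s142 (.cons a177 (.cons (t1 36 46 49) (.cons a189 (.cons s454 (.cons a185 (.cons s56 (.cons (t2 10 34 46) (.cons (t3 7 30 46) (.cons (t2 10 30 46) (.cons a162 (.cons (t3 7 36 46) (.cons (t3 7 10 46) (.cons (t1 7 18 24) (.cons (t3 10 36 46) (.cons (t2 23 24 49) (.cons a181 (.cons (t1 8 17 18) (.cons a402 (.cons (t3 8 10 17) (.cons (t2 8 17 49) (.cons s182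 (.cons s736 (.cons a344 (.cons a342 (.cons s43 (.cons (t2 7 10 19) (.cons (t2 7 19 21) (.cons (t2 7 19 45) (.cons (t2 7 19 46) (.cons (t2 10 19 45) (.cons a175 (.cons (t2 10 38 46) (.cons (t2 7 38 46) (.cons a158 (.cons (t1 30 34 38) (.cons s743 (.cons (t1 24 30 49) (.cons (t1 17 30 49) (.cons (t1 8 30 49) (.cons s534 (.cons (t2 30 38 49) (.cons (t3 24 30 38) (.cons a330 (.cons a429 (.cons (t3 7 8 50) (.cons (t3 7 18 50) (.cons s714 (.cons s482 (.cons (t1 27 34 49) (.cons (t2 30 39 49) (.cons a154 (.cons a48 (.cons (t1 7 19 27) (.cons a318 (.cons s747 (.cons a64 (.cons (t3 3 7 50) (.cons (t3 3 7 39) (.cons (t3 3 18 24) (.cons (t1 3 39 50) (.cons a439 (.cons (t2 3 18 39) (.cons s185 (.cons (t3 14 18 39) (.cons a426 (.cons a524 (.cons (t2 8 18 41) .nil))))))))))))))))))))))))))))))))))))))))))))))))))))))))))))))))))))))))))))))))))) (by decide +kernel)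
theorem s749 : Valid A [2793, 663, 5858, 2760, 4698, 986, 934, 1353, 2779, 4706] := rup _
  (.cons a344 (.cons s84 (.cons (t3 19 21 52) (.cons a487 (.cons (t3 10 28 36) (.cons a388 (.cons (t3 11 28 36) (.cons s588 (.cons (t1 5 21 45) (.cons (t1 5 21 52) (.cons (t2 5 11 21) (.cons s556 (.cons a34 (.cons (t3 20 21 45) .nil)))))))))))))) (by decide +kernel)

end Pool.Agent.Helper50.Canon.CD
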