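import Mathlib
import Pool.Agent.Helper50.Canon.CD.C5

set_option autoImplicit false

namespace Pool.Agent.Helper50.Canon.CD

theorem s750 : Valid A [1455, 4698, 3034, 3016] := rup _
  (.cons (t2 11 23 36) (.cons (t2 11 23 45) (.cons a379 .nil))) (by decide +kernel)
theorem s751 : Valid A [3945, 1454, 4698, 3004, 3939, 2779, 4706] := rup _
  (.cons a224 (.cons (t2 30 49 52) (.cons s231 (.cons (t1 21 45 52) (.cons (t1 11 30 49) (.cons (t1 45 49 52) (.cons s727 .nil))))))) (by decide +kernel)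
theorem s752 : Valid A [1469, 14, 4698, 3916, 3148, 2736, 3912, 2779, 956] := rup _
  (.cons (t2 11 30 36) (.cons (t1 7 11 30) (.cons (t2 11 30 38) (.cons a379 (.cons a383 (.cons (t3 11 21 45) (.cons s4 (.cons (t1 11 21 29) (.cons a130 (.cons a134 (.cons (t1 24 29 38) .nil))))))))))) (by decide +kernel)
theorem s753 : Valid A [1480, 1506, 1468, 3944, 2760, 4698, 986, 934, 1353, 2779, 4706] := rup _
  (.cons a379 (.cons (t3 11 21 45) (.cons (t1 11 45 49) (.cons (t1 11 21 30) (.cons s588 (.cons a222 (.cons (t3 5 11 21) (.cons s749 .nil)))))))) (by decide +kernel)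
theorem s754 : Valid A [986, 3027, 3155, 1962, 3517, 3916, 3148, 2003, 3004, 2236, 3939, 2734, 1114, 3034, 2736, 934, 3912, 969, 917, 942, 1353, 3016, 2223, 2779, 956, 1071, 4706] := rup _
  (.cons s85 (.cons (t1 7 21 45) (.cons (t1 7 36 45) (.cons (t3 7 21 36) (.cons s294 (.cons s750 (.cons (t1 11 17 23) (.cons (t2 8 11 23) (.cons (t3 11 23 41) (.cons s751 (.cons s752 (.cons (t3 11 30 49) (.cons s401 (.cons (t3 8 11 16) (.cons s753 (.cons (t3 7 11 36) (.cons (t3 10 11 36) (.cons (t2 11 16 36) (.cons (t1 7 11 16) (.cons a389 (.cons a461 (.cons (t3 11 28 36) (.cons (t1 7 11 25) (.cons a487 (.cons s84 (.cons s114 (.cons (t1 21 28 40) (.cons a222 (.cons (t1 28 30 49) (.cons (t3 27 28 30) (.cons (t2 27 28 40) (.cons (t1 21 30 49) (.cons a537 (.cons a504 (.cons (t1 25 27 28) (.cons a0 (.cons (t3 11 25 40) (.cons a3 (.cons (t3 24 40 41) (.cons (t3 15 40 41) (.cons a9 (.cons (t1 4 15 40) (.cons s261 (.cons (t2 4 21 36) (.cons (t2 4 13 21) (.cons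 a476 (.cons (t3 10 13 36) (.cons (t3 13 16 36) (.cons a19 (.cons a21 (.cons (t1 13 16 20) (.cons (t2 7 10 20) (.cons a25 (.cons a29 (.cons (t1 8 20 45) .nil))))))))))))))))))))))))))))))))))))))))))))))))))))))) (by decide +kernel)
theorem s755 : Valid A [3027, 3155, 4706, 1962, 3517, 3916, 3148, 2003, 3004, 2236, 3939, 2734, 1114, 3034, 2736, 934, 3912, 969, 917, 942, 1353, 3016, 2223, 2779, 956, 1071] := rup _
  (.cons s754 (.cons (t3 7 30 45) (.cons (t3 7 21 45) (.cons (t2 7 10 45) (.cons a208 (.cons a396 (.cons (t3 5 7 45) (.cons s716 (.cons s177 .nil))))))))) (by decide +kernel)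
theorem s756 : Valid A [398, 934, 944, 444, 994, 2779, 1071, 3170, 2274] := rup _
  (.cons a403 (.cons s563 (.cons s666 (.cons s685 (.cons s741 (.cons s742 (.cons a513 (.cons (t2 17 18 24) (.cons (t1 7 18 24) (.cons a345 (.cons (t2 18 19 24) (.cons (t1 17 18 19) (.cons a335 (.cons (t1 19 24 39) (.cons (t2 18 19 39) (.cons (t1 8 23 46) (.cons s71 (.cons (t1 17 24 46) (.cons a193 (.cons (t3 18 23 24) (.cons (t2 18 19 23) (.cons (t1 19 23 39) (.cons a181 (.cons (t1 8 17 18) (.cons a344 (.cons (t2 18 19 21) (.cons (t2 8 18 21) (.cons (t3 18 21 23) (.cons a342 (.cons (t2 18 19 45) (.cons (t2 8 18 45) (.cons (t1 18 23 45) (.cons (t3 19 21 24) (.cons (t1 18 19 49) (.cons s454 (.cons a185 (.cons (t3 7 19 46) (.cons a486 (.cons a484 (.cons s142 (.cons a177 (.cons (t3 7 30 46) (.cons (t1 30 36 46) (.cons (t1 36 46 49) (.cons a189 (.cons (t2 10 30 46) (.cons s56 (.cons (t2 10 34 46) (.cons (t3 7 36 46) (.cons (t3 7 10 46) (.cons (t1 7 23 24) (.cons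 (t3 10 36 46) (.cons (t2 23 24 49) (.cons a402 (.cons s182 (.cons (t3 8 10 24) (.cons (t2 8 17 23) (.cons (t2 8 17 49) (.cons s695 (.cons a64 (.cons (t3 3 7 36) (.cons (t1 17 30 49) (.cons (t3 3 30 49) (.cons (t1 23 30 49) (.cons s534 (.cons (t3 3 17 24) (.cons (t3 3 23 24) (.cons (t2 3 24 39) (.cons s670 (.cons (t1 19 34 49) (.cons a38 (.cons (t1 3 23 27) (.cons a48 (.cons a112 (.cons a448 (.cons s344 (.cons a325 (.cons (t2 30 39 49) (.cons a95 (.cons (t3 10 24 38) (.cons (t3 10 30 38) (.cons (t3 27 30 39) (.cons a443 (.cons (t1 27 39 49) (.cons (t2 15 41 49) (.cons s714 (.cons a429 (.cons (t3 8 49 50) (.cons (t3 15 49 50) (.cons (t3 41 49 50) (.cons a105 (.cons a426 (.cons (t1 8 15 21) (.cons (t2 8 24 41) (.cons (t2 8 23 41) (.cons s755 .nil)))))))))))))))))))))))))))))))))))))))))))))))))))))))))))))))))))))))))))))))))))))))))))))))) (by decide +kernel)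
theorem s757 : Valid A [944, 444, 994, 426, 1071, 3170, 2274] := rup _
  (.cons s685 (.cons s563 (.cons a403 (.cons s666 (.cons s741 (.cons s742 (.cons a513 (.cons s71 (.cons (t1 17 24 46) (.cons (t2 17 18 24) (.cons (t1 8 23 46) (.cons a193 (.cons (t3 18 23 24) (.cons a486 (.cons a484 (.cons s142 (.cons a177 (.cons (t1 36 46 49) (.cons a189 (.cons a181 (.cons (t1 8 17 18) (.cons (t2 8 17 49) (.cons s736 (.cons s454 (.cons (t1 7 18 24) (.cons a185 (.cons s56 (.cons (t3 7 30 46) (.cons (t3 7 10 46) (.cons (t3 7 36 46) (.cons (t2 10 34 46) (.cons (t2 10 30 46) (.cons a162 (.cons s748 (.cons s756 (.cons (t1 3 7 10) (.cons (t1 3 7 36) (.cons a54 (.cons (t1 3 7 33) (.cons (t1 3 10 33) (.cons s432 (.cons (t3 7 33 50) (.cons a391 (.cons (t3 7 8 50) (.cons s676 (.cons (t2 7 10 50) (.cons s714 (.cons a247 (.cons s711 (.cons a468 (.cons (t2 8 18 30) (.cons (t3 18 30 34) (.cons s534 (.cons (t2 30 33 49) (.cons (t3 8 30 33) (.cons s715 (.cons s712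 .nil))))))))))))))))))))))))))))))))))))))))))))))))))))))))) (by decide +kernel)
theorem s758 : Valid A [444, 994, 426, 1071, 3170, 2274] := rup _
  (.cons a403 (.cons s563 (.cons s666 (.cons s685 (.cons s741 (.cons s742 (.cons a513 (.cons a402 (.cons s71 (.cons a181 (.cons (t3 8 10 17) (.cons (t3 10 17 18) (.cons a522 (.cons (t1 17 24 46) (.cons s182 (.cons (t1 8 24 48) (.cons (t1 8 17 18) (.cons (t2 17 18 24) (.cons s757 (.cons a67 (.cons (t3 7 17 24) (.cons (t1 7 24 30) (.cons (t3 7 18 24) (.cons (t3 7 8 24) (.cons (t2 7 24 48) (.cons (t1 3 18 24) (.cons (t2 18 24 30) (.cons a346 (.cons a348 (.cons s150 (.cons s139 (.cons (t1 7 17 19) (.cons a349 (.cons s429 (.cons (t2 17 18 39) (.cons (t1 10 19 49) (.cons (t2 7 8 50) (.cons (t1 8 18 50) (.cons a333 (.cons a429 (.cons a433 (.cons (t1 19 39 50) (.cons (t3 19 49 50) .nil))))))))))))))))))))))))))))))))))))))))))) (by decide +kernel)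
theorem s759 : Valid A [945, 445, 3168, 2353, 994, 956, 3170] := rup _
  (.cons a67 (.cons s158 (.cons (t1 7 24 30) (.cons a44 (.cons s106 (.cons s733 (.cons (t2 3 48 49) (.cons (t1 3 30 49) .nil)))))))) (by decide +kernel)
theorem s760 : Valid A [1172, 3172, 1380, 1347, 3138] := rup _
  (.cons (t3 9 10 33) (.cons a246 (.cons a250 (.cons (t2 9 24 50) .nil)))) (by decide +kernel)
theorem s761 : Valid A [1480, 2907, 682, 14, 4698, 969, 2779, 4706] := rup _
  (.cons a379 (.cons (t2 7 11 36) (.cons s588 (.cons (t3 11 22 45) (.cons a383 (.cons (t1 22 45 49) (.cons (t1 0 11 22) (.cons a493 .nil)))))))) (by decide +kernel)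
theorem s762 : Valid A [730, 14, 986, 969, 917, 2748, 3930, 1353, 2779, 956, 4706] := rup _
  (.cons (t1 7 21 45) (.cons (t3 7 21 36) (.cons (t1 7 36 45) (.cons (t1 7 10 45) (.cons s177 (.cons (t1 5 21 45) (.cons (t3 7 45 51) (.cons (t3 30 45 51) (.cons a203 (.cons s169 (.cons (t1 7 10 22) (.cons a395 (.cons s761 (.cons (t3 10 11 36) (.cons (t3 5 11 36) (.cons a389 (.cons (t2 5 11 28) (.cons s115 (.cons s84 (.cons a222 (.cons (t1 21 45 52) (.cons (t3 7 30 52) (.cons s131 .nil))))))))))))))))))))))) (by decide +kernel)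
theorem s763 : Valid A [987, 823, 816, 3155, 3555, 950, 1085, 1066, 2237, 969, 917, 3162, 3133, 3930, 1353, 2353, 994, 2779] := rup _
  (.cons a30 (.cons a88 (.cons (t3 7 21 45) (.cons (t1 7 45 49) (.cons (t2 7 10 45) (.cons (t2 7 36 45) (.cons (t1 20 21 45) (.cons a208 (.cons (t2 7 21 36) (.cons (t1 7 21 27) (.cons a79 (.cons a396 (.cons a380 (.cons (t3 5 7 45) (.cons a489 (.cons (t3 2 27 49) (.cons (t1 11 21 45) (.cons (t2 10 11 45) (.cons s177 (.cons (t2 10 28 36) (.cons a76 (.cons a33 (.cons (t3 30 45 51) (.cons (t3 24 45 51) (.cons (t3 20 45 51) (.cons (t3 22 45 51) (.cons a387 (.cons (t2 6 27 35) (.cons (t2 11 20 28) (.cons a22 (.cons a472 (.cons (t3 18 20 24) (.cons (t1 11 20 24) (.cons (t2 20 24 28) (.cons (t3 22 24 30) (.cons (t3 17 22 30) (.cons (t3 8 22 30) (.cons (t3 11 18 20) (.cons (t1 18 20 28) (.cons (t1 6 11 24) (.cons (t2 24 28 41) (.cons a139 (.cons (t2 8 22 29) (.cons a298 (.cons a530 (.cons (t1 22 24 29) (.cons a142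 (.cons (t2 11 18 35) (.cons (t2 24 28 32) (.cons (t2 18 28 32) (.cons a149 (.cons (t3 21 27 29) (.cons (t3 18 32 35) (.cons (t3 27 29 32) (.cons a321 .nil))))))))))))))))))))))))))))))))))))))))))))))))))))))) (by decide +kernel)
theorem s764 : Valid A [347, 660, 1468, 731, 268, 2760, 4698, 986, 828, 934, 1353, 2779, 1378, 4706] := rup _
  (.cons a80 (.cons (t3 2 21 45) (.cons s727 (.cons (t2 5 45 49) (.cons s133 (.cons a215 (.cons (t3 10 11 36) (.cons s749 (.cons s753 (.cons (t2 2 21 52) (.cons (t3 6 30 52) (.cons a71 .nil)))))))))))) (by decide +kernel)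
theorem s765 : Valid A [996, 934, 1347, 3138, 993, 3126, 3034, 2382, 3005, 2734, 1066, 2237, 3938, 969, 917, 3162, 3133, 942, 944, 2748, 3930, 1353, 3016, 1122, 1073, 2353, 2402, 994, 2779, 956, 1378, 4706, 3170] := rup _
  (.cons (t2 7 10 48) (.cons (t1 8 24 30) (.cons a429 (.cons (t1 7 10 50) (.cons (t3 24 49 50) (.cons (t3 18 49 50) (.cons (t3 8 49 50) (.cons s188 (.cons a313 (.cons a433 (.cons (t3 27 49 50) (.cons (t3 39 49 50) (.cons a443 (.cons (t3 41 49 50) (.cons a426 (.cons (t2 8 24 41) (.cons s760 (.cons (t1 9 10 48) (.cons a262 (.cons (t1 6 7 48) (.cons a304 (.cons (t2 6 24 49) (.cons (t2 6 30 49) (.cons (t3 6 27 49) (.cons s763 (.cons (t1 7 21 45) (.cons s132 (.cons (t1 7 10 45) (.cons (t1 7 36 45) (.cons (t3 7 21 36) (.cons s294 (.cons (t1 2 6 49) (.cons s750 (.cons s762 (.cons (t3 11 23 30) (.cons (t2 5 10 45) (.cons s764 (.cons a85 (.cons a79 (.cons (t2 2 7 30) (.cons (t1 21 45 49) (.cons (t1 5 45 49) (.cons (t3 6 21 49)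 (.cons a216 (.cons (t1 11 45 49) (.cons a379 (.cons (t3 10 11 36) (.cons a389 (.cons (t3 11 28 36) (.cons a487 (.cons s84 (.cons a222 (.cons (t2 6 21 52) (.cons (t3 2 30 52) (.cons a71 .nil))))))))))))))))))))))))))))))))))))))))))))))))))))))) (by decide +kernel)
theorem s766 : Valid A [997, 926, 3126, 912, 944, 1122, 994, 3170] := rup _
  (.cons (t3 7 8 50) (.cons s714 (.cons s180 (.cons (t3 7 15 50) (.cons (t3 7 15 27) (.cons a105 (.cons a113 (.cons (t1 8 15 49) .nil)))))))) (by decide +kernel)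
theorem s767 : Valid A [994, 426, 1071, 3170, 2274] := rup _
  (.cons s736 (.cons a61 (.cons s741 (.cons s685 (.cons s666 (.cons (t1 8 23 46) (.cons a522 (.cons s563 (.cons a403 (.cons s742 (.cons a513 (.cons s71 (.cons (t2 17 18 24) (.cons (t1 17 24 46) (.cons a181 (.cons s182 (.cons a193 (.cons (t2 8 17 49) (.cons (t1 8 24 48) (.cons (t3 18 23 24) (.cons a484 (.cons a486 (.cons s142 (.cons a177 (.cons (t1 36 46 49) (.cons a189 (.cons (t3 10 36 46) (.cons s758 (.cons a50 (.cons (t1 3 30 45) (.cons (t3 3 21 30) (.cons (t2 3 7 30) (.cons s759 (.cons (t1 7 17 24) (.cons s454 (.cons (t1 7 18 24) (.cons (t1 7 23 24) (.cons a64 (.cons a185 (.cons (t2 3 24 49) (.cons (t3 3 17 24) (.cons (t3 3 21 24) (.cons (t2 3 24 30) (.cons (t3 3 18 24) (.cons (t1 3 24 45) (.cons (t2 3 24 36) (.cons (t3 7 10 46) (.cons (t3 7 36 46) (.cons (t1 3 30 49) (.cons a38 (.cons (t2 3 17 30) (.cons (t1 3 17 39) (.cons (t2 8 21 24) (.cons (t1 21 23 24) (.cons (t1 23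 24 30) (.cons (t1 3 18 39) (.cons (t2 23 24 45) (.cons s670 (.cons (t1 3 24 27) (.cons a110 (.cons s150 (.cons (t3 7 24 33) (.cons (t2 7 10 33) (.cons s766 (.cons a429 (.cons s765 (.cons (t3 18 49 50) (.cons (t3 7 17 19) (.cons (t1 7 19 50) (.cons a433 (.cons a333 (.cons (t1 19 39 50) .nil)))))))))))))))))))))))))))))))))))))))))))))))))))))))))))))))))))))))) (by decide +kernel)
theorem s768 : Valid A [996, 994, 951, 3170, 944] := rup _
  (.cons a429 (.cons s188 (.cons (t3 24 49 50) .nil))) (by decide +kernel)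
theorem s769 : Valid A [989, 997, 935, 4450, 917] := rup _
  (.cons a431 (.cons s38 (.cons (t2 7 10 46) (.cons (t2 7 19 46) (.cons (t2 7 46 50) (.cons a175 (.cons (t3 38 46 50) (.cons (t2 10 38 46) (.cons a329 (.cons a158 (.cons (t1 34 38 49) .nil))))))))))) (by decide +kernel)
theorem s770 : Valid A [969, 951, 935, 4450, 917, 4706, 3170, 944] := rup _
  (.cons (t2 7 36 49) (.cons (t3 7 24 36) (.cons (t1 7 10 49) (.cons s768 (.cons s769 (.cons (t1 7 10 46) (.cons (t1 7 36 46) (.cons a189 (.cons a177 (.cons (t1 24 46 49) .nil)))))))))) (by decide +kernel)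
theorem s771 : Valid A [989, 942, 1326, 951, 935, 4450, 917, 3170, 944] := rup _
  (.cons a186 (.cons a187 (.cons s56 (.cons (t2 7 10 46) (.cons (t3 7 23 46) (.cons s769 (.cons (t3 7 8 10) (.cons s351 (.cons a191 (.cons s768 (.cons a399 (.cons (t2 8 23 49) (.cons s690 .nil))))))))))))) (by decide +kernel)
theorem s772 : Valid A [912, 988, 1326, 917, 2225] := rup _
  (.cons a406 (.cons a405 (.cons a185 (.cons (t3 7 8 10) (.cons s666 (.cons a399 .nil)))))) (by decide +kernel)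
theorem s773 : Valid A [935, 3524, 4450, 917, 2254, 930, 2225, 944] := rup _
  (.cons s38 (.cons a406 (.cons a405 (.cons a346 (.cons s43 (.cons (t3 7 17 19) (.cons (t2 7 10 19) (.cons (t1 7 10 18) (.cons a154 (.cons a333 (.cons s196 (.cons (t1 7 19 27) (.cons (t2 19 27 39) (.cons a327 (.cons (t2 10 23 27) (.cons (t2 7 23 27) (.cons s771 (.cons (t1 7 10 46) (.cons s772 (.cons a188 (.cons (t1 7 8 17) (.cons (t1 7 8 24) (.cons a181 (.cons s182 (.cons (t1 17 46 49) (.cons s329 (.cons a189 (.cons (t3 10 18 49) .nil)))))))))))))))))))))))))))) (by decide +kernel)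
theorem s774 : Valid A [951, 994, 1122, 932, 912, 934, 3524, 3141, 4450, 1340, 917, 3170, 3126, 944] := rup _
  (.cons a345 (.cons s38 (.cons a162 (.cons (t3 7 19 27) (.cons s768 (.cons a154 (.cons (t2 7 10 50) (.cons s766 (.cons (t1 18 19 34) (.cons a247 (.cons a110 (.cons (t2 18 34 49) (.cons (t3 18 24 34) (.cons (t3 18 30 34) (.cons (t1 7 10 33) (.cons s676 (.cons s711 (.cons a391 .nil)))))))))))))))))) (by decide +kernel)
theorem s775 : Valid A [269, 1174, 3030, 3048, 1110, 784, 786] := rup _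
  (.cons a73 (.cons (t2 2 6 8) (.cons (t2 2 6 9) (.cons a82 (.cons (t1 2 43 52) (.cons (t3 2 9 43) (.cons a243 (.cons (t2 11 23 43) (.cons (t2 11 43 52) (.cons a238 .nil)))))))))) (by decide +kernel)
theorem s776 : Valid A [346, 270, 354, 994] := rup _
  (.cons a85 (.cons a79 (.cons (t1 7 45 49) .nil))) (by decide +kernel)
theorem s777 : Valid A [270, 1507, 354, 969, 994, 4706] := rup _
  (.cons (t3 2 7 36) (.cons s776 (.cons a80 (.cons (t3 2 36 45) (.cons s727 .nil))))) (by decide +kernel)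
theorem s778 : Valid A [1513, 6377, 3561, 873, 310, 354, 1302, 3538, 969, 1362, 994, 917, 4706] := rup _
  (.cons s67 (.cons (t3 11 49 52) (.cons (t3 11 27 52) (.cons (t3 6 11 52) (.cons a387 (.cons a299 (.cons (t1 7 10 28) (.cons (t1 10 28 41) (.cons (t1 11 27 35) (.cons a75 (.cons s777 (.cons (t1 2 7 28) (.cons (t2 2 7 35) (.cons (t2 2 28 35) (.cons a414 (.cons (t2 28 32 35) (.cons a321 (.cons a529 (.cons (t1 27 32 41) .nil))))))))))))))))))) (by decide +kernel)
theorem s779 : Valid A [873, 310, 354, 1302, 1480, 98, 3016, 3048, 3034, 2479, 3042, 823, 867, 738, 3538, 1353, 2504, 2760, 969, 1362, 994, 917, 4706] := rup _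
  (.cons (t2 6 27 52) (.cons (t2 6 49 52) (.cons s778 (.cons (t1 11 49 52) (.cons a238 (.cons a215 (.cons s750 (.cons (t2 5 11 36) (.cons s316 .nil))))))))) (by decide +kernel)
theorem s780 : Valid A [1454, 6376, 1480, 3048, 2735, 738, 2760] := rup _
  (.cons (t1 11 21 23) (.cons a238 (.cons (t2 11 49 52) (.cons a215 (.cons (t2 5 11 36) (.cons (t2 5 11 21) (.cons a203 .nil))))))) (by decide +kernel)
theorem s781 : Valid A [15, 3030, 3016, 3048, 2735, 3034, 2479, 1110, 3042, 823, 784, 867, 738, 3538, 786, 1353, 2504, 2760, 969, 915, 1362, 994, 917, 4706] := rup _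
  (.cons a384 (.cons (t2 0 7 49) (.cons (t3 7 11 36) (.cons (t1 7 10 11) (.cons (t1 7 9 11) (.cons s775 (.cons (t3 2 6 49) (.cons (t3 2 6 27) (.cons s779 (.cons (t1 6 49 52) (.cons s780 (.cons (t2 11 23 49) (.cons s750 (.cons a215 (.cons s316 (.cons (t2 5 11 36) .nil)))))))))))))))) (by decide +kernel)
theorem s782 : Valid A [873, 1513, 310, 354, 823, 867, 788, 3538, 969, 1362, 994, 917, 4706] := rup _
  (.cons (t3 6 10 52) (.cons (t2 6 27 52) (.cons (t2 6 49 52) (.cons (t1 10 11 52) (.cons s778 .nil))))) (by decide +kernel)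
theorem s783 : Valid A [1454, 310, 354, 3048, 2735, 1110, 823, 867, 788, 738, 3538, 1225, 2760, 969, 1362, 994, 1128, 917, 4706] := rup _
  (.cons (t1 2 6 49) (.cons a238 (.cons s782 (.cons (t1 6 49 52) (.cons a71 (.cons s780 (.cons (t2 2 8 52) (.cons (t3 2 11 52) (.cons (t3 9 11 36) (.cons a82 (.cons (t2 2 11 43) (.cons a244 .nil)))))))))))) (by decide +kernel)
theorem s784 : Valid A [1455, 14, 46, 942] := rup _
  (.cons (t1 7 11 23) (.cons (t1 0 11 23) (.cons a383 .nil))) (by decide +kernel)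
theorem s785 : Valid A [354, 1454, 3048, 2735, 1110, 867, 788, 738, 3538, 1225, 2760, 969, 3555, 1362, 994, 1128, 917, 4706] := rup _
  (.cons (t3 6 27 49) (.cons (t1 2 27 49) (.cons s783 .nil))) (by decide +kernel)
theorem s786 : Valid A [1071, 1063, 1110, 3042, 784, 867, 788, 738, 3538, 786, 1353, 2504, 2760, 969, 1096, 915, 3555, 1362, 994, 1128, 1067, 1114, 912, 917, 4706] := rup _
  (.cons (t3 6 27 49) (.cons (t2 7 9 36) (.cons (t2 8 19 23) (.cons (t3 7 8 23) (.cons (t1 8 23 45) (.cons (t2 8 21 23) (.cons (t1 8 23 52) (.cons (t1 8 23 36) (.cons (t1 8 23 43) (.cons a506 (.cons s781 (.cons s784 (.cons s785 (.cons s132 (.cons (t3 2 6 49) (.cons (t2 7 36 45) (.cons s775 (.cons a382 (.cons (t2 9 11 36) .nil))))))))))))))))))) (by decide +kernel)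
theorem s787 : Valid A [1513, 1480, 310, 354, 823, 867, 788, 738, 3538, 2760, 969, 1362, 994, 917, 2792, 4706] := rup _
  (.cons (t2 11 21 52) (.cons s782 (.cons (t1 6 49 52) (.cons (t2 11 49 52) (.cons a215 (.cons (t2 5 11 36) (.cons (t2 5 11 21) (.cons a203 .nil)))))))) (by decide +kernel)
theorem s788 : Valid A [1454, 310, 354, 3017, 1327, 814, 1110, 823, 867, 788, 738, 3538, 2760, 969, 1362, 994, 1128, 917, 2792, 4706, 2778] := rup _
  (.cons (t1 2 6 49) (.cons (t1 7 10 23) (.cons (t3 11 23 36) (.cons (t2 10 11 23) (.cons s787 (.cons a238 (.cons s87 (.cons (t1 7 23 52) (.cons (t2 23 36 52) (.cons (t3 6 23 52) (.cons (t2 10 23 28) (.cons (t3 23 28 36) (.cons a71 (.cons a387 (.cons a487 (.cons (t2 2 8 52) (.cons (t3 2 36 52) (.cons (t3 2 7 52) (.cons (t3 11 21 28) (.cons a82 (.cons (t2 2 36 43) (.cons a87 (.cons s384 (.cons (t1 2 43 45) (.cons (t2 36 43 45) .nil))))))))))))))))))))))))) (by decide +kernel)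
theorem s789 : Valid A [1455, 943, 3017, 2734, 3042, 738, 3162, 944, 2778] := rup _
  (.cons (t2 11 23 49) (.cons (t1 11 23 36) (.cons (t2 11 21 23) (.cons (t3 7 11 23) (.cons a215 (.cons a381 (.cons s23 (.cons s553 (.cons (t2 5 11 45) (.cons (t2 7 11 45) (.cons (t2 7 11 51) (.cons a29 (.cons s177 (.cons (t1 7 20 24) (.cons (t1 7 20 51) (.cons (t3 24 45 51) (.cons a22 .nil))))))))))))))))) (by decide +kernel)
theorem s790 : Valid A [354, 1454, 3017, 1327, 814, 1110, 867, 788, 738, 3538, 2760, 969, 3555, 1362, 994, 1128, 917, 2792, 4706, 2778] := rup _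
  (.cons (t3 6 27 49) (.cons (t1 2 27 49) (.cons s788 .nil))) (by decide +kernel)
theorem s791 : Valid A [989, 934, 3524, 3141, 4450, 1340, 917, 2792, 3150, 930, 2784, 2737, 3126, 3162, 2225, 944, 3168, 2778] := rup _
  (.cons (t1 21 24 52) (.cons a406 (.cons a405 (.cons s563 (.cons (t2 21 24 49) (.cons a186 (.cons a187 (.cons s42 (.cons (t3 7 24 46) (.cons (t3 7 17 46) (.cons (t2 7 10 46) (.cons (t3 7 8 10) (.cons a345 (.cons s182 (.cons a181 (.cons a191 (.cons a192 (.cons (t2 8 24 49) (.cons (t2 8 24 48) (.cons (t2 8 24 45) (.cons (t3 8 21 24) (.cons (t2 8 24 39) (.cons (t2 8 24 52) (.cons (t2 7 46 49) (.cons s774 (.cons s180 (.cons (t1 7 10 50) (.cons a429 (.cons s432 (.cons (t3 24 49 50) (.cons (t3 8 49 50) (.cons a112 (.cons a447 (.cons a448 (.cons s150 (.cons (t3 7 24 33) (.cons (t2 7 10 33) (.cons a313 (.cons (t1 7 10 41) (.cons a95 (.cons (t1 7 48 49) (.cons (t2 7 10 48) (.cons (t3 7 19 48) (.cons s760 (.cons (t3 27 49 50) (.cons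 a479 (.cons (t3 7 9 10) (.cons (t2 9 10 49) (.cons (t1 9 10 48) (.cons a114 (.cons a116 (.cons (t1 8 36 48) (.cons (t3 7 36 48) (.cons (t1 21 36 48) (.cons (t1 19 36 48) (.cons (t3 10 36 48) (.cons a262 (.cons a263 (.cons (t3 15 49 50) (.cons (t1 15 41 49) (.cons (t3 15 27 41) (.cons s680 (.cons (t1 6 7 48) (.cons (t1 6 10 48) (.cons (t1 15 41 50) (.cons a105 (.cons a304 (.cons a426 (.cons (t2 8 15 24) (.cons (t2 6 24 49) (.cons (t2 6 8 49) (.cons (t3 6 27 49) (.cons (t2 8 24 41) (.cons (t3 8 39 41) (.cons (t2 8 21 41) (.cons a93 (.cons a300 (.cons (t2 6 27 39) (.cons a442 (.cons a452 (.cons s175 (.cons a327 (.cons a328 (.cons (t3 23 39 49) (.cons (t2 8 21 43) (.cons (t1 8 18 19) (.cons (t2 6 23 27) (.cons s786 (.cons a399 (.cons (t1 8 21 23) (.cons (t2 10 23 36) (.cons (t1 7 10 23) (.cons (t1 9 10 23) (.cons s789 (.cons (t2 10 11 23) (.cons (t2 9 11 23) (.cons s790 (.cons (t2 2 8 49) (.cons (t2 2 9 49) (.cons (t3 2 6 49) (.cons (t2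 2 23 49) (.cons a82 (.cons (t3 2 9 43) (.cons (t3 2 23 43) (.cons a243 (.cons s775 (.cons (t2 11 21 43) (.cons s87 (.cons (t2 10 23 28) (.cons (t3 23 28 36) (.cons a387 (.cons a487 (.cons (t3 11 21 28) .nil))))))))))))))))))))))))))))))))))))))))))))))))))))))))))))))))))))))))))))))))))))))))))))))))))))))))))))))))) (by decide +kernel)
theorem s792 : Valid A [994, 988, 917, 2225, 944] := rup _
  (.cons (t1 7 10 46) (.cons (t1 7 10 24) (.cons a406 (.cons a405 (.cons (t1 7 10 49) (.cons a189 (.cons (t1 17 46 49) (.cons (t1 24 46 49) (.cons s454 (.cons s772 (.cons (t1 10 23 46) (.cons (t1 10 23 24) (.cons a193 .nil))))))))))))) (by decide +kernel)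
theorem s793 : Valid A [962, 836, 995, 1340, 917] := rup _
  (.cons a307 (.cons s38 (.cons (t3 7 33 49) (.cons (t1 7 10 33) (.cons a310 (.cons s370 (.cons (t1 6 33 34) .nil))))))) (by decide +kernel)
theorem s794 : Valid A [1362, 950, 3139, 4302, 962, 995, 917, 3126] := rup _
  (.cons (t2 7 10 49) (.cons (t2 7 10 41) (.cons (t3 10 41 49) (.cons a446 (.cons a96 (.cons (t3 33 39 41) (.cons a109 (.cons (t1 15 24 33) (.cons a442 (.cons (t3 7 39 49) (.cons a440 (.cons a317 (.cons (t3 7 14 15) (.cons (t2 14 24 27) (.cons a92 .nil))))))))))))))) (by decide +kernel)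
theorem s795 : Valid A [1073, 5986, 995, 2225] := rup _
  (.cons a405 (.cons (t2 8 24 49) (.cons (t3 8 17 24) (.cons s690 (.cons a182 .nil))))) (by decide +kernel)
theorem s796 : Valid A [1122, 2992, 6242, 3144, 1072, 5986, 995] := rup _
  (.cons s690 (.cons s302 .nil)) (by decide +kernel)
theorem s797 : Valid A [3042, 2992, 5863, 3942, 2278, 1083, 1070, 1379, 4442, 3938, 2234, 3170] := rup _
  (.cons (t2 10 23 49) (.cons s663 (.cons a399 (.cons (t1 17 22 51) (.cons (t3 22 45 51) (.cons (t2 8 10 29) (.cons a138 (.cons a398 (.cons (t3 10 22 29) .nil))))))))) (by decide +kernel)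
theorem s798 : Valid A [2761, 1070, 1379, 988, 2757, 4450, 1314, 917, 2737, 2225] := rup _
  (.cons (t1 7 10 46) (.cons a405 (.cons (t2 21 24 36) (.cons (t2 21 34 36) (.cons a178 (.cons a180 (.cons (t2 34 36 46) (.cons s558 (.cons a188 (.cons (t3 8 23 46) (.cons s772 (.cons s351 (.cons (t2 10 23 49) .nil))))))))))))) (by decide +kernel)
theorem s799 : Valid A [3042, 5863, 3942, 2278, 1083, 1070, 1379, 1372, 4442, 1314, 3938, 2234, 2225] := rup _
  (.cons a405 (.cons (t2 10 23 49) (.cons s797 (.cons a399 (.cons a196 (.cons (t2 8 10 46) (.cons s558 .nil))))))) (by decide +kernel)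
theorem s800 : Valid A [917, 2254, 3150, 3938, 2749, 3516, 3133, 3930, 445, 938, 930, 2784, 2737, 3126, 3162, 2225, 944, 398, 3168, 2219, 2778] := rup _
  (.cons a223 (.cons (t3 3 7 30) (.cons a135 (.cons (t2 17 24 29) (.cons a406 (.cons a405 (.cons s563 (.cons a137 (.cons s38 (.cons (t1 7 10 17) (.cons (t1 7 10 30) (.cons a162 (.cons (t1 30 34 45) (.cons (t1 30 34 49) (.cons (t1 24 30 34) (.cons (t3 27 30 34) (.cons (t1 21 30 34) (.cons s773 (.cons s791 (.cons (t1 7 10 46) (.cons s792 (.cons (t2 7 36 49) (.cons (t2 7 10 49) (.cons s724 (.cons (t3 7 46 49) (.cons s795 (.cons (t3 8 24 34) (.cons (t1 8 21 24) (.cons a142 (.cons s798 (.cons s201 (.cons s26 (.cons (t2 5 21 45) (.cons (t2 17 21 51) (.cons (t1 21 30 51) (.cons s177 (.cons s799 (.cons (t2 23 46 49) (.cons (t3 8 23 49) (.cons s351 (.cons s690 (.cons (t3 8 34 46) .nil)))))))))))))))))))))))))))))))))))))))))) (by decide +kernel)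
theorem s801 : Valid A [989, 994, 916, 2225, 944] := rup _
  (.cons a406 (.cons a405 (.cons a187 (.cons (t3 7 10 46) (.cons (t3 7 24 46) (.cons (t1 7 46 49) (.cons a189 (.cons (t2 10 17 49) (.cons s685 (.cons s558 .nil)))))))))) (by decide +kernel)
theorem s802 : Valid A [1071, 988, 994, 956, 2225, 944] := rup _
  (.cons a406 (.cons a405 (.cons s563 (.cons s666 (.cons s685 (.cons s742 (.cons a185 (.cons a513 (.cons s454 (.cons s71 .nil)))))))))) (by decide +kernel)
theorem s803 : Valid A [3165, 1373, 1070, 2225] := rup _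
  (.cons a195 (.cons (t1 17 24 46) (.cons (t2 10 23 46) (.cons a183 (.cons a399 (.cons (t1 8 10 46) .nil)))))) (by decide +kernel)
theorem s804 : Valid A [4957, 997, 5986, 988] := rup _
  (.cons (t2 38 46 49) (.cons (t1 7 38 46) (.cons s414 .nil))) (by decide +kernel)
theorem s805 : Valid A [1373, 5986, 994, 916, 3133, 956, 3126, 2225, 944] := rup _
  (.cons s801 (.cons s802 (.cons a405 (.cons s63 (.cons s803 (.cons (t2 17 24 46) (.cons (t2 10 24 46) (.cons s731 (.cons s454 (.cons (t3 10 24 30) (.cons a168 (.cons a185 (.cons s183 (.cons (t3 24 27 34) (.cons (t3 10 24 34) (.cons (t2 8 46 49) (.cons s432 (.cons s180 (.cons (t3 7 10 27) (.cons s196 (.cons (t3 10 19 46) (.cons a349 (.cons a347 (.cons s804 (.cons (t2 10 38 46) (.cons a173 (.cons a158 (.cons (t3 7 19 38) (.cons (t1 34 38 49) (.cons s414 .nil)))))))))))))))))))))))))))))) (by decide +kernel)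
theorem s806 : Valid A [913, 962, 1379, 5986, 994, 2254, 3170, 930, 3126, 944] := rup _
  (.cons (t1 7 8 24) (.cons s454 (.cons s429 (.cons s138 (.cons (t2 7 8 50) (.cons (t3 10 18 49) (.cons (t1 7 18 49) (.cons s768 (.cons a429 (.cons a350 (.cons (t3 24 49 50) (.cons a345 (.cons a313 (.cons (t3 7 17 19) (.cons (t2 7 8 19) (.cons (t3 27 49 50) (.cons a333 (.cons a114 (.cons (t1 7 19 39) (.cons (t1 8 19 39) (.cons (t3 15 49 50) (.cons a440 (.cons a441 (.cons (t2 8 14 39) (.cons a105 (.cons a317 (.cons (t3 8 14 15) (.cons (t1 8 15 24) (.cons (t2 14 24 27) (.cons a92 .nil)))))))))))))))))))))))))))))) (by decide +kernel)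
theorem s807 : Valid A [5986, 994, 916, 2254, 3938, 3133, 956, 930, 3126, 2225, 944] := rup _
  (.cons s801 (.cons s802 (.cons a405 (.cons s805 (.cons a189 (.cons (t2 10 24 49) (.cons (t2 10 30 49) (.cons s183 (.cons s806 (.cons a185 (.cons a183 (.cons (t2 8 10 46) (.cons (t3 8 23 46) (.cons (t1 17 24 46) (.cons a399 (.cons a193 (.cons (t1 10 23 24) .nil))))))))))))))))) (by decide +kernel)
theorem s808 : Valid A [994, 916, 2254, 3938, 3133, 956, 930, 3126, 2225, 944] := rup _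
  (.cons a406 (.cons a405 (.cons s563 (.cons s801 (.cons s802 (.cons s807 (.cons s80 (.cons (t1 17 46 49) (.cons (t1 24 46 49) (.cons (t1 36 46 49) (.cons a513 (.cons s454 (.cons a177 (.cons (t2 17 18 24) (.cons a185 (.cons (t1 18 24 36) (.cons (t3 8 23 46) (.cons a485 (.cons a193 (.cons (t1 23 24 36) .nil)))))))))))))))))))) (by decide +kernel)
theorem s809 : Valid A [989, 1314, 1070, 916, 2225, 944] := rup _
  (.cons a187 (.cons (t3 7 10 46) (.cons (t3 7 24 46) (.cons s558 .nil)))) (by decide +kernel)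
theorem s810 : Valid A [445, 433, 427, 419] := rup _
  (.cons (t2 3 17 24) (.cons a405 (.cons (t2 3 24 49) (.cons a406 (.cons s563 (.cons (t2 3 21 24) (.cons (t2 21 24 49) (.cons a66 (.cons (t3 3 7 21) (.cons (t3 3 7 17) (.cons a46 (.cons (t1 3 21 48) (.cons a38 (.cons (t1 3 24 27) (.cons a62 (.cons (t1 3 24 45) (.cons a67 (.cons a45 (.cons (t2 3 17 21) (.cons a63 (.cons a50 (.cons (t1 3 30 45) (.cons (t3 3 7 30) (.cons (t2 3 24 30) (.cons (t3 3 27 30) (.cons (t2 3 21 30) (.cons (t1 3 30 49) (.cons (t1 3 24 39) (.cons (t1 3 17 39) (.cons a223 (.cons a225 (.cons (t1 21 24 52) (.cons s800 (.cons s808 (.cons s57 (.cons (t2 7 36 49) (.cons (t3 7 10 49) (.cons s724 (.cons a168 (.cons (t1 17 24 34) (.cons (t1 21 24 34) (.cons (t2 24 30 34) (.cons a164 (.cons (t1 10 17 34) (.cons (t1 10 21 34) (.cons s809 (.cons (t3 7 46 49) (.cons s795 (.cons a189 (.cons (t1 8 17 24) (.cons s63 (.cons s803 (.cons (t3 10 34 46) (.cons (t3 10 17 46) (.cons a181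 (.cons s60 (.cons (t3 8 10 46) (.cons (t3 8 23 46) (.cons (t2 8 46 49) (.cons a193 (.cons s351 (.cons (t2 23 24 48) (.cons (t1 7 23 24) (.cons (t2 23 24 45) (.cons (t3 21 23 24) (.cons (t2 23 24 52) (.cons a520 (.cons a507 (.cons (t1 8 48 49) (.cons (t2 8 10 48) (.cons (t3 8 18 48) (.cons a479 (.cons (t1 18 36 48) (.cons (t1 21 36 48) (.cons (t3 10 36 48) (.cons (t1 23 36 48) (.cons s680 (.cons s201 (.cons a483 (.cons s26 (.cons (t2 5 21 45) (.cons (t2 5 10 21) (.cons (t1 0 5 21) (.cons (t1 7 18 23) (.cons (t3 18 21 23) (.cons (t2 18 23 52) (.cons (t1 21 24 51) (.cons (t1 21 30 51) (.cons s177 (.cons s133 (.cons s193 (.cons (t3 10 11 36) (.cons a349 (.cons (t3 10 19 36) (.cons (t2 18 19 21) (.cons (t1 18 19 52) (.cons s319 (.cons s322 (.cons s226 (.cons s750 (.cons (t3 11 21 23) (.cons (t1 0 7 49) (.cons (t1 10 36 45) (.cons (t3 7 36 45) (.cons a34 (.cons a492 (.cons a396 (.cons (t3 7 45 51) (.cons (t2 19 20 21) (.cons (t3 20 21 24)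 (.cons (t2 7 22 49) (.cons (t3 22 45 51) (.cons a14 (.cons a22 (.cons a472 (.cons (t1 7 20 51) (.cons (t2 22 30 52) (.cons (t3 7 20 52) (.cons a226 .nil))))))))))))))))))))))))))))))))))))))))))))))))))))))))))))))))))))))))))))))))))))))))))))))))))))))))))))))))))))))) (by decide +kernel)
theorem s811 : Valid A [3150, 993, 1377, 1353, 969, 738, 2760, 456, 2248, 1096, 2353, 2998, 2993, 1071, 1114, 1067, 1059, 917, 932, 912, 994, 444, 3126, 2225, 433] := rup _
  (.cons a406 (.cons a405 (.cons s563 (.cons s38 (.cons s741 (.cons (t1 7 10 30) (.cons a162 (.cons s101 (.cons (t1 3 24 30) (.cons s733 (.cons (t3 30 48 49) (.cons a479 (.cons (t2 30 36 49) (.cons (t2 8 17 49) (.cons (t1 8 23 49) (.cons (t2 3 24 49) (.cons a67 (.cons (t2 17 24 39) (.cons (t2 3 24 39) (.cons (t2 23 24 39) (.cons (t2 18 24 39) (.cons a48 (.cons a325 (.cons s670 (.cons (t2 30 39 49) (.cons (t2 30 34 39) (.cons (t3 30 36 39) (.cons a110 (.cons a447 (.cons (t3 7 24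 33) (.cons (t2 7 10 33) (.cons a443 (.cons (t1 27 39 49) (.cons (t3 27 34 39) (.cons (t2 27 36 39) (.cons s766 (.cons (t1 7 10 41) (.cons (t2 27 41 49) (.cons a114 (.cons a155 (.cons (t1 7 10 50) (.cons a429 (.cons (t3 15 49 50) (.cons (t3 19 27 39) (.cons (t3 24 49 50) (.cons (t3 8 49 50) (.cons (t3 41 49 50) (.cons a105 (.cons a333 (.cons s760 (.cons a426 (.cons (t2 8 15 21) (.cons (t2 8 15 23) (.cons (t1 17 19 36) (.cons (t1 8 17 19) (.cons (t3 7 9 10) (.cons (t1 9 10 48) (.cons (t2 8 21 41) (.cons a104 (.cons (t1 15 23 26) (.cons a262 (.cons a263 (.cons a452 (.cons (t1 6 7 48) (.cons (t1 6 36 48) (.cons (t1 6 10 48) (.cons (t2 8 21 43) (.cons a304 (.cons (t2 6 8 49) (.cons s786 (.cons s61 (.cons (t2 8 23 52) (.cons (t2 8 19 52) (.cons (t2 8 41 52) (.cons (t1 8 21 28) (.cons (t3 8 28 41) (.cons a232 (.cons a487 (.cons (t2 23 32 52) (.cons (t1 32 41 52) (.cons (t3 7 28 36) (.cons (t1 27 28 36) (.cons (t1 6 28 36) (.cons a423 (.cons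 a529 (.cons (t3 26 28 32) (.cons (t1 7 28 32) (.cons (t3 27 28 32) (.cons (t1 6 26 28) (.cons (t3 7 26 28) (.cons a415 (.cons a421 (.cons a321 (.cons a308 (.cons (t2 27 35 49) (.cons (t1 4 6 49) (.cons a417 .nil))))))))))))))))))))))))))))))))))))))))))))))))))))))))))))))))))))))))))))))))))))))))))))))))) (by decide +kernel)
theorem s812 : Valid A [1071, 989, 994, 433, 427, 419] := rup _
  (.cons s810 (.cons (t1 3 17 30) (.cons a66 (.cons (t3 3 7 17) (.cons (t3 7 17 46) (.cons a187 (.cons a181 (.cons (t2 8 17 30) (.cons a62 (.cons (t1 3 17 45) (.cons (t2 8 17 45) (.cons (t2 3 17 21) (.cons (t1 8 17 21) (.cons a39 (.cons (t2 8 17 27) (.cons (t3 3 8 17) (.cons a67 (.cons (t2 3 17 24) (.cons s801 (.cons (t2 7 10 46) (.cons (t1 7 10 49) (.cons (t3 3 7 21) (.cons (t1 7 10 21) (.cons s38 (.cons (t3 7 24 46) (.cons s182 (.cons s42 (.cons (t1 7 10 18) (.cons a186 (.cons (t1 3 24 30) (.cons a406 (.cons a405 (.cons s563 (.cons (t2 3 21 24) (.cons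 (t2 21 24 49) (.cons a38 (.cons (t1 3 24 27) (.cons a63 (.cons s741 (.cons s742 (.cons (t2 8 17 23) (.cons (t2 8 23 24) (.cons (t1 3 8 23) (.cons (t1 8 23 27) (.cons (t2 8 21 23) (.cons (t1 8 23 45) (.cons (t1 8 23 30) (.cons (t1 7 10 30) (.cons a513 (.cons a162 (.cons (t2 17 18 24) (.cons (t2 17 18 21) (.cons (t2 17 18 23) (.cons (t1 8 17 18) (.cons s101 (.cons s733 (.cons a484 (.cons a486 (.cons (t2 8 18 36) (.cons (t3 30 48 49) (.cons (t1 23 24 36) (.cons (t2 17 23 36) (.cons (t2 3 23 36) (.cons (t2 21 23 36) (.cons a479 (.cons a177 (.cons s680 (.cons (t2 36 46 48) (.cons (t3 7 36 46) (.cons (t3 10 36 46) (.cons (t1 10 46 48) (.cons (t1 7 46 48) (.cons s811 (.cons (t1 18 24 39) (.cons (t1 17 24 39) (.cons (t1 21 24 39) (.cons a334 (.cons a336 (.cons (t1 19 21 39) (.cons (t2 18 19 39) (.cons a341 (.cons a349 (.cons s123 (.cons s118 (.cons (t3 7 30 45) (.cons (t2 7 36 45) (.cons a396 (.cons a380 (.cons s716 (.cons (t2 19 22 45) (.cons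 s177 (.cons (t2 5 11 45) (.cons a215 (.cons (t2 11 17 49) (.cons (t3 11 30 49) (.cons a373 (.cons a375 (.cons (t3 3 16 17) (.cons (t2 16 17 19) (.cons a57 (.cons a337 .nil))))))))))))))))))))))))))))))))))))))))))))))))))))))))))))))))))))))))))))))))))))))))))))))))))))) (by decide +kernel)
theorem s813 : Valid A [3938, 3919, 969, 456, 1122, 917, 932, 912, 994, 3132, 482, 2225, 944] := rup _
  (.cons s38 (.cons a406 (.cons a405 (.cons s733 (.cons (t1 30 39 49) (.cons (t2 17 18 24) (.cons a513 (.cons (t2 18 39 49) (.cons s670 (.cons (t2 7 10 33) (.cons a393 (.cons a162 (.cons (t3 24 30 34) (.cons (t1 30 34 49) (.cons a168 .nil))))))))))))))) (by decide +kernel)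
theorem s814 : Valid A [2792, 867, 1110, 788, 814, 3555, 3538, 1362, 3939, 1454, 738, 3017, 2760, 969, 1327, 1067, 917, 994, 2748, 4706, 2778] := rup _
  (.cons (t3 6 30 49) (.cons a222 (.cons (t2 8 21 52) (.cons (t2 30 49 52) (.cons (t1 6 30 52) (.cons s790 (.cons (t1 2 49 52) (.cons a72 .nil)))))))) (by decide +kernel)
theorem s815 : Valid A [3150, 3017, 2760, 969, 456, 993, 1377, 2734, 1327, 1067, 1122, 917, 932, 912, 994, 444, 3126, 2225, 433, 2219, 427] := rup _
  (.cons a63 (.cons a67 (.cons a62 (.cons (t1 3 24 45) (.cons a406 (.cons a405 (.cons s563 (.cons (t2 3 21 24) (.cons (t2 21 24 49) (.cons s680 (.cons (t1 7 10 49) (.cons (t1 10 23 49) (.cons (t1 7 10 23) (.cons s789 (.cons (t2 10 11 23) (.cons s38 (.cons (t1 3 21 30) (.cons (t1 3 24 30) (.cons (t2 3 24 49) (.cons a137 (.cons a135 (.cons (t2 17 24 39) (.cons (t2 3 24 39) (.cons a48 (.cons s813 (.cons a470 (.cons (t1 23 30 49) (.cons s534 (.cons (t2 30 39 49) (.cons (t3 18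 30 39) (.cons (t3 23 30 39) (.cons a443 (.cons s670 (.cons a110 (.cons a447 (.cons (t3 7 24 33) (.cons (t2 7 10 33) (.cons s766 (.cons (t1 7 10 41) (.cons (t1 7 10 50) (.cons s768 (.cons a429 (.cons (t1 7 23 27) (.cons a330 (.cons (t3 24 49 50) (.cons (t3 8 49 50) (.cons (t1 34 49 50) (.cons (t3 41 49 50) (.cons a325 (.cons (t2 34 38 49) (.cons a313 (.cons s760 (.cons (t3 27 34 50) (.cons a426 (.cons (t2 27 41 50) (.cons (t1 27 39 49) (.cons a158 (.cons (t1 9 10 48) (.cons (t1 9 10 23) (.cons a155 (.cons (t2 8 21 41) (.cons (t3 10 11 38) (.cons a262 (.cons a263 (.cons (t3 6 9 23) (.cons (t3 19 27 39) (.cons a452 (.cons (t1 6 7 48) (.cons (t1 6 10 48) (.cons a333 (.cons (t2 8 21 43) (.cons a304 (.cons (t2 17 19 21) (.cons s814 (.cons (t1 3 21 52) (.cons (t3 21 23 52) (.cons (t2 21 24 52) (.cons (t1 8 21 52) (.cons (t3 21 29 52) (.cons (t1 19 21 52) (.cons a238 (.cons (t2 11 29 52) (.cons a232 (.cons (t3 3 11 52) (.cons (t3 11 21 52) (.cons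 (t3 8 11 52) (.cons a130 (.cons (t2 24 32 52) (.cons (t2 8 32 52) (.cons a41 (.cons (t2 29 38 49) (.cons a149 (.cons (t3 11 12 21) (.cons (t2 8 11 12) (.cons (t1 29 32 49) (.cons a499 (.cons a517 (.cons (t2 12 32 49) .nil)))))))))))))))))))))))))))))))))))))))))))))))))))))))))))))))))))))))))))))))))))))))))))))))))) (by decide +kernel)
theorem s816 : Valid A [989, 994, 433, 427, 419] := rup _
  (.cons s810 (.cons (t2 3 17 24) (.cons a405 (.cons (t2 3 24 49) (.cons a406 (.cons s563 (.cons a66 (.cons (t3 3 7 17) (.cons a46 (.cons (t1 3 21 48) (.cons a45 (.cons (t2 17 24 48) (.cons a38 (.cons (t1 3 24 27) (.cons a67 (.cons (t2 3 17 21) (.cons a186 (.cons a187 (.cons s42 (.cons (t3 7 24 46) (.cons (t3 7 17 46) (.cons s801 (.cons (t3 7 8 10) (.cons a181 (.cons s182 (.cons (t1 7 10 49) (.cons (t2 8 17 49) (.cons (t1 8 17 21) (.cons (t2 8 17 48) (.cons s812 (.cons a399 (.cons (t3 8 23 24) (.cons (t1 8 21 23) (.cons a520 (.cons (t1 10 23 49)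 (.cons (t1 7 10 23) (.cons (t1 23 48 49) (.cons (t1 10 23 48) (.cons (t1 7 23 48) (.cons a479 (.cons s211 (.cons (t3 7 36 48) (.cons (t1 21 36 48) (.cons (t3 23 36 48) (.cons s815 (.cons (t1 24 39 49) (.cons (t3 7 24 39) (.cons (t3 23 24 39) (.cons (t3 24 27 39) (.cons (t1 8 24 39) (.cons a325 (.cons (t1 7 23 27) (.cons a318 (.cons s768 (.cons a439 (.cons a431 (.cons (t3 7 8 50) (.cons (t3 7 18 50) (.cons (t3 7 39 50) (.cons (t3 8 14 39) (.cons s185 (.cons a433 (.cons a426 (.cons (t3 14 18 39) (.cons (t2 8 14 41) (.cons a526 .nil)))))))))))))))))))))))))))))))))))))))))))))))))))))))))))))))))) (by decide +kernel)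
theorem s817 : Valid A [1071, 988, 994, 2225, 944] := rup _
  (.cons a406 (.cons a405 (.cons s741 (.cons s802 .nil)))) (by decide +kernel)
theorem s818 : Valid A [2254, 2474, 2500, 5090, 3043, 4451, 1379, 2734, 955, 1338, 2992, 5986, 913, 994, 3170, 930, 2737, 3126, 944, 2778] := rup _
  (.cons a341 (.cons s454 (.cons s138 (.cons (t1 7 18 49) (.cons (t3 10 18 49) (.cons a350 (.cons a345 (.cons (t2 7 19 29) (.cons (t2 19 29 45) (.cons (t1 7 19 45) (.cons a30 (.cons (t1 20 29 45) (.cons (t3 7 17 19) (.cons (t3 23 34 49) (.cons (t3 10 34 49) (.cons a160 (.cons (t2 23 34 38) (.cons (t3 34 38 49) (.cons s806 (.cons a333 (.cons a110 (.cons a112 (.cons a447 (.cons a448 (.cons (t1 7 19 39) (.cons (t3 7 15 45) (.cons a95 (.cons a122 (.cons (t1 7 39 41) (.cons (t1 7 29 37) (.cons a442 (.cons a11 (.cons (t1 24 41 49) (.cons (t1 15 41 49) (.cons (t3 18 41 49) (.cons (t2 15 24 41) (.cons a114 (.cons (t3 15 18 49) (.cons a524 (.cons (t1 27 34 49)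 (.cons (t1 14 15 18) (.cons a154 (.cons a92 (.cons (t1 7 19 27) (.cons (t3 14 21 24) (.cons s768 (.cons a408 (.cons s414 (.cons (t3 7 37 38) (.cons a123 (.cons (t3 23 24 37) (.cons (t2 23 37 49) (.cons (t3 21 23 37) (.cons (t2 20 24 37) (.cons a119 (.cons (t1 35 37 49) (.cons a417 (.cons (t1 4 10 49) (.cons (t1 4 15 49) (.cons a146 (.cons a99 (.cons (t3 4 19 29) (.cons a212 (.cons a214 (.cons (t3 4 5 45) (.cons s360 (.cons s177 (.cons (t1 21 24 51) (.cons (t3 20 45 51) (.cons a22 .nil)))))))))))))))))))))))))))))))))))))))))))))))))))))))))))))))))))))) (by decide +kernel)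
theorem s819 : Valid A [1116, 994, 433, 427, 419] := rup _
  (.cons a67 (.cons (t2 3 17 24) (.cons s816 (.cons s817 (.cons s792 (.cons s810 (.cons (t1 3 24 30) (.cons a405 (.cons (t2 3 24 49) (.cons a406 (.cons s563 (.cons (t2 3 21 24) (.cons a137 (.cons a66 (.cons (t3 3 7 21) (.cons (t3 3 7 17) (.cons a38 (.cons (t1 3 24 27) (.cons (t2 3 17 21) (.cons a63 (.cons a39 (.cons a185 (.cons (t1 7 8 24) (.cons (t1 7 8 10) (.cons (t2 7 8 23) (.cons (t1 7 8 21) (.cons s454 (.cons s182 (.cons a399 (.cons a142 (.cons s71 (.cons (t1 17 46 49) (.cons (t2 17 21 46) (.cons s138 (.cons a178 (.cons a195 (.cons a196 (.cons s803 (.cons (t3 8 10 29) (.cons (t1 7 8 29) (.cons (t2 3 17 18) (.cons (t2 21 23 46) (.cons a469 (.cons a471 (.cons (t1 7 18 49) (.cons (t2 3 24 36) (.cons a189 (.cons s139 (.cons s193 (.cons (t2 10 30 49) (.cons s390 (.cons (t2 10 23 49) (.cons (t3 10 18 49) (.cons (t3 18 39 49) (.cons (t3 10 19 49) (.cons s106 (.cons (t1 3 34 49)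 (.cons a350 (.cons (t2 23 39 49) (.cons (t1 19 34 49) (.cons a479 (.cons (t2 23 48 49) (.cons a345 (.cons a520 (.cons (t1 7 19 21) (.cons (t3 8 36 48) (.cons s818 (.cons (t3 17 27 39) (.cons a325 (.cons (t3 7 23 27) (.cons (t2 23 27 49) (.cons s180 (.cons a114 (.cons a429 (.cons (t1 7 8 50) (.cons (t3 15 49 50) (.cons a105 (.cons (t1 7 8 15) (.cons (t2 8 15 48) (.cons (t2 8 15 36) (.cons a111 (.cons (t3 15 33 48) (.cons (t3 15 33 36) (.cons s176 (.cons a52 (.cons (t1 3 33 34) .nil)))))))))))))))))))))))))))))))))))))))))))))))))))))))))))))))))))))))))))))))))))))) (by decide +kernel)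
theorem s820 : Valid A [2352, 2400, 3040, 2993, 2225] := rup _
  (.cons a406 (.cons a405 (.cons s563 (.cons (t2 17 18 24) (.cons (t1 18 23 24) (.cons a513 (.cons (t2 18 36 49) (.cons (t3 18 48 49) (.cons a483 (.cons a479 (.cons (t1 23 36 48) .nil))))))))))) (by decide +kernel)
theorem s821 : Valid A [994, 433, 427, 419] := rup _
  (.cons s810 (.cons (t1 3 24 30) (.cons (t2 3 17 24) (.cons a406 (.cons a405 (.cons s563 (.cons a38 (.cons (t1 3 24 27) (.cons a67 (.cons a66 (.cons a45 (.cons s816 (.cons s817 (.cons s819 (.cons a183 (.cons a188 (.cons s60 (.cons (t3 8 23 46) (.cons (t1 17 24 46) (.cons a193 (.cons (t2 23 24 48) (.cons a520 (.cons (t3 7 8 48) (.cons (t3 8 18 48) (.cons s150 (.cons s820 (.cons (t2 18 24 49) (.cons (t1 7 18 24) (.cons s733 (.cons (t3 3 18 24) (.cons (t3 18 23 24) (.cons a484 (.cons (t1 23 24 36) (.cons a177 (.cons (t1 36 46 49) (.cons (t2 8 46 49) (.cons s432 (.cons a431 (.cons (t3 3 7 50) (.cons s180 (.cons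 (t3 7 8 50) (.cons s766 (.cons (t3 7 18 50) (.cons a318 (.cons (t1 7 15 24) (.cons (t3 7 14 15) (.cons s482 (.cons a92 (.cons (t2 30 39 49) (.cons (t3 14 18 24) (.cons a48 (.cons a524 (.cons (t2 3 18 39) (.cons (t1 3 39 50) (.cons (t1 18 39 41) (.cons s185 (.cons a442 (.cons a426 (.cons (t1 8 41 49) .nil))))))))))))))))))))))))))))))))))))))))))))))))))))))))))) (by decide +kernel)
theorem s822 : Valid A [989, 3524, 995, 3132, 2225, 944] := rup _
  (.cons a405 (.cons s57 (.cons a168 (.cons a432 (.cons a430 (.cons a406 (.cons s42 (.cons (t2 7 46 49) (.cons (t3 7 18 49) (.cons a190 (.cons a513 (.cons (t2 7 10 49) (.cons (t2 17 18 24) (.cons s723 (.cons s193 (.cons s733 (.cons s809 (.cons s534 (.cons (t1 10 17 18) (.cons a160 (.cons (t3 10 19 34) (.cons a350 (.cons (t2 24 34 38) (.cons a154 (.cons a345 (.cons (t1 7 19 27) (.cons (t2 7 19 46) (.cons s188 (.cons a175 (.cons (t3 24 38 50) (.cons (t3 38 46 49) (.cons a329 .nil))))))))))))))))))))))))))))))))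 (by decide +kernel)
theorem s823 : Valid A [569, 584, 554, 2760] := rup _
  (.cons (t1 4 28 36) (.cons (t3 4 21 28) (.cons a487 .nil))) (by decide +kernel)
theorem s824 : Valid A [1071, 433, 427, 419] := rup _
  (.cons (t2 3 21 24) (.cons a137 (.cons (t2 3 17 24) (.cons s821 (.cons a67 (.cons s810 (.cons (t1 3 24 30) (.cons a38 (.cons (t1 3 24 27) (.cons a405 (.cons s57 (.cons a168 (.cons (t3 24 27 34) (.cons s822 (.cons (t3 7 46 49) (.cons s795 (.cons (t1 8 21 24) (.cons a142 (.cons s3 (.cons (t1 8 17 24) (.cons a406 (.cons s563 (.cons (t2 7 36 49) (.cons a430 (.cons (t1 3 21 30) (.cons a66 (.cons (t3 3 7 21) (.cons a62 (.cons (t1 3 24 45) (.cons (t2 3 17 21) (.cons a63 (.cons a400 (.cons a402 (.cons s666 (.cons s685 (.cons (t1 8 23 46) (.cons s723 (.cons (t3 8 21 23) (.cons (t2 8 23 29) (.cons (t3 0 8 23) (.cons (t3 8 10 29) (.cons a185 (.cons s690 (.cons s182 (.cons a181 (.cons a189 (.cons s143 (.cons a513 (.cons (t2 3 17 18) (.cons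 (t1 7 23 29) (.cons a505 (.cons (t1 7 8 50) (.cons (t2 8 29 49) (.cons a178 (.cons (t1 3 24 46) (.cons (t3 24 45 46) (.cons (t1 21 24 46) (.cons s63 (.cons (t3 10 17 46) (.cons a471 (.cons (t3 7 18 49) (.cons (t3 8 18 49) (.cons (t1 7 29 36) (.cons (t3 0 17 21) (.cons (t3 18 29 49) (.cons (t2 21 24 36) (.cons (t3 3 10 46) (.cons (t2 10 45 46) (.cons (t3 10 21 46) (.cons s139 (.cons a348 (.cons a511 (.cons s201 (.cons (t2 7 18 39) (.cons a349 (.cons (t3 4 17 21) (.cons (t1 4 10 17) (.cons s26 (.cons (t2 5 21 45) (.cons s219 (.cons (t2 10 19 21) (.cons (t2 10 17 19) (.cons (t1 3 10 19) (.cons a146 (.cons (t1 21 24 51) (.cons s177 (.cons (t2 8 18 41) (.cons a335 (.cons (t3 4 18 29) (.cons (t2 4 29 36) (.cons a524 (.cons (t2 3 19 39) (.cons (t2 4 14 18) (.cons (t2 7 14 18) (.cons a48 (.cons a439 (.cons (t3 14 30 39) (.cons s823 (.cons a538 (.cons s69 (.cons (t1 14 30 52) (.cons a222 (.cons (t3 21 45 52) (.cons (t2 21 24 52) (.cons (t3 7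 21 52) (.cons (t1 19 21 52) (.cons a15 (.cons (t1 20 24 52) (.cons a22 (.cons (t3 20 45 51) (.cons a30 (.cons (t1 7 23 45) (.cons s131 (.cons (t3 23 45 51) (.cons a395 (.cons (t3 22 45 51) (.cons (t1 10 22 23) (.cons a495 .nil)))))))))))))))))))))))))))))))))))))))))))))))))))))))))))))))))))))))))))))))))))))))))))))))))))))))))))))))))))))) (by decide +kernel)
theorem s825 : Valid A [917, 1070, 988, 3908, 995, 2225] := rup _
  (.cons (t3 7 46 49) (.cons s795 (.cons (t1 8 17 24) (.cons a405 (.cons s57 (.cons a168 (.cons (t1 17 24 34) (.cons s38 (.cons (t2 7 10 49) (.cons a162 (.cons (t2 10 30 49) (.cons a469 (.cons s138 (.cons a181 (.cons (t1 17 34 46) (.cons a188 (.cons (t3 8 23 46) (.cons s351 (.cons s772 (.cons (t2 10 23 49) .nil)))))))))))))))))))) (by decide +kernel)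
theorem s826 : Valid A [433, 427, 419] := rup _
  (.cons a38 (.cons a45 (.cons a67 (.cons (t2 3 17 24) (.cons (t1 3 24 27) (.cons a405 (.cons s810 (.cons (t1 3 24 30) (.cons s821 (.cons s57 (.cons a168 (.cons (t3 24 27 34) (.cons (t3 24 30 34) (.cons s822 (.cons (t3 7 46 49) (.cons s795 (.cons s824 (.cons s825 (.cons (t3 7 10 49) (.cons a189 (.cons s803 (.cons (t2 10 24 46) (.cons s182 (.cons (t3 10 24 34) (.cons s60 (.cons (t3 8 23 46) (.cons s534 (.cons a193 (.cons s733 (.cons (t2 23 24 48) (.cons s820 (.cons a520 (.cons (t3 8 18 48) .nil))))))))))))))))))))))))))))))))) (by decide +kernel)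
theorem s827 : Valid A [989, 2275, 994, 427, 419] := rup _
  (.cons s826 (.cons (t1 7 17 49) (.cons (t2 3 7 17) (.cons a64 (.cons (t1 3 17 49) (.cons s158 (.cons s106 (.cons (t2 3 48 49) (.cons a44 (.cons (t1 7 24 48) (.cons (t2 3 17 21) (.cons (t2 17 21 49) (.cons a500 (.cons (t2 3 12 49) (.cons (t1 12 17 49) (.cons (t3 7 17 21) (.cons a514 (.cons (t1 3 21 24) (.cons a62 (.cons (t1 3 17 45) (.cons a186 (.cons a187 (.cons (t2 7 24 46) (.cons (t3 7 17 46) (.cons (t1 7 46 49) (.cons (t2 7 46 48) (.cons (t3 7 8 48) (.cons a178 (.cons a179 (.cons a195 (.cons a181 (.cons (t3 23 46 48) (.cons (t3 36 46 48) (.cons (t2 7 24 36) (.cons (t2 7 23 46) (.cons (t1 8 17 49) (.cons (t3 3 8 17) (.cons (t1 8 17 21) (.cons (t2 8 17 45) (.cons (t2 8 12 17) (.cons a520 (.cons a479 (.cons (t3 8 36 49) (.cons (t2 8 23 49) (.cons a143 (.cons (t1 8 36 45) (.cons a400 (.cons (t1 3 8 23) (.cons (t2 8 21 23) (.cons (t3 21 36 49) (.cons (t2 8 23 36) (.cons a134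 (.cons (t3 10 23 49) (.cons a506 (.cons a204 (.cons a151 (.cons s10 (.cons (t2 24 29 46) (.cons a189 (.cons a207 (.cons (t3 5 21 49) (.cons (t3 29 32 46) (.cons (t1 0 7 24) (.cons s334 (.cons s22 (.cons (t1 5 7 46) (.cons (t1 5 7 24) (.cons (t2 5 32 46) (.cons s784 (.cons a468 (.cons (t1 7 24 51) (.cons (t2 3 11 23) (.cons (t1 11 21 23) (.cons (t3 11 23 49) (.cons (t3 11 23 36) (.cons (t3 8 30 49) (.cons a40 (.cons a215 (.cons a379 (.cons (t2 11 12 45) (.cons (t2 5 11 24) (.cons (t2 5 7 11) (.cons (t1 5 11 32) (.cons (t3 11 32 45) (.cons (t2 12 32 45) (.cons (t2 11 24 45) (.cons s297 (.cons a517 (.cons a30 (.cons (t2 8 30 32) (.cons (t2 8 21 32) (.cons (t1 20 24 45) (.cons (t2 11 20 45) (.cons a465 (.cons a22 (.cons a33 (.cons (t2 21 32 51) (.cons (t2 20 21 51) .nil)))))))))))))))))))))))))))))))))))))))))))))))))))))))))))))))))))))))))))))))))))))))))))))))))) (by decide +kernel)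
theorem s828 : Valid A [1071, 988, 993, 3169, 938, 483, 5858, 2275, 2736, 2219, 427] := rup _
  (.cons (t2 17 21 49) (.cons a63 (.cons a400 (.cons a521 (.cons a522 (.cons s191 (.cons (t2 7 23 48) (.cons (t1 8 24 48) (.cons (t3 10 23 46) (.cons (t1 8 23 46) (.cons a182 (.cons a183 (.cons (t3 8 17 49) (.cons (t3 8 17 21) (.cons (t3 17 46 49) (.cons (t1 8 23 49) (.cons s202 (.cons (t3 8 21 23) (.cons a189 (.cons s7 (.cons (t1 3 21 29) (.cons (t1 17 21 29) (.cons (t2 21 29 49) (.cons (t2 10 45 49) (.cons (t3 3 10 49) (.cons a505 (.cons (t2 3 10 29) (.cons a140 (.cons (t2 10 22 29) (.cons (t3 22 29 49) (.cons a395 (.cons s630 (.cons a497 (.cons (t1 7 22 23) (.cons (t1 22 45 51) (.cons (t3 7 22 45) (.cons s177 (.cons s199 .nil)))))))))))))))))))))))))))))))))))))) (by decide +kernel)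
theorem s829 : Valid A [996, 3126, 945, 3554, 994] := rup _
  (.cons (t1 7 24 50) (.cons a429 (.cons a313 (.cons (t3 27 49 50) .nil)))) (by decide +kernel)
theorem s830 : Valid A [3176, 2907, 1641, 3942, 1513, 5863, 1114, 1084, 1045, 1073] := rup _
  (.cons s67 (.cons (t2 8 10 24) (.cons (t2 8 24 52) (.cons (t2 10 24 52) (.cons (t1 8 12 52) (.cons (t1 10 11 52) (.cons a387 (.cons (t1 8 10 28) (.cons (t2 10 24 28) (.cons a368 (.cons (t2 8 28 42) (.cons a356 (.cons a360 (.cons (t1 42 45 51) (.cons (t3 22 42 45) (.cons a365 (.cons (t2 12 32 42) (.cons (t3 32 42 51) (.cons a517 (.cons a464 (.cons (t3 8 30 32) .nil))))))))))))))))))))) (by decide +kernel)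
theorem s831 : Valid A [3162, 3145, 3016, 2760, 3048, 1084, 956, 3930, 917, 1045, 3034, 1073, 408, 945, 938, 427] := rup _
  (.cons (t2 8 10 24) (.cons a63 (.cons (t2 7 24 45) (.cons (t2 10 24 45) (.cons (t1 24 36 45) (.cons (t2 8 24 45) (.cons s199 (.cons s384 (.cons s750 (.cons s177 (.cons (t2 3 11 21) (.cons a238 (.cons (t3 30 45 51) (.cons (t3 7 45 51) (.cons a40 (.cons (t2 11 12 52) (.cons s169 (.cons (t1 7 10 22) (.cons a395 (.cons s830 (.cons s89 (.cons (t1 8 24 52) (.cons (t3 24 28 36) (.cons (t3 8 12 52) (.cons a487 (.cons a361 (.cons (t1 21 28 45) (.cons (t1 8 24 42) (.cons a356 (.cons a367 (.cons (t1 28 42 45) .nil))))))))))))))))))))))))))))))) (by decide +kernel)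
theorem s832 : Valid A [1454, 4948, 4962, 1046, 1480, 1108, 2760, 3048, 6376, 2735, 431, 408, 1634] := rup _
  (.cons (t2 3 11 23) (.cons s780 (.cons a40 (.cons (t2 5 12 49) (.cons (t2 5 38 49) (.cons (t3 8 11 12) (.cons a198 (.cons a360 (.cons (t3 5 12 42) .nil))))))))) (by decide +kernel)
theorem s833 : Valid A [4706, 997, 2528, 3048, 6376, 1084, 956, 3930, 917, 1045, 3034, 2735, 431, 3043, 477, 5987, 2350, 942, 1073, 3169, 945, 938, 483, 2787, 994, 427] := rup _
  (.cons (t2 8 10 24) (.cons a506 (.cons s158 (.cons s106 (.cons a500 (.cons (t2 3 12 49) (.cons a63 (.cons (t2 21 36 49) (.cons (t2 3 36 49) (.cons a479 (.cons (t2 23 36 49) (.cons (t3 24 36 48) (.cons (t1 19 36 48) (.cons a483 (.cons (t3 18 24 36) (.cons s831 (.cons (t1 7 24 45) (.cons (t1 8 24 45) (.cons (t1 10 24 45) (.cons (t2 24 36 45) (.cons a357 (.cons a359 (.cons a396 (.cons a380 (.cons a382 (.cons s602 (.cons (t2 7 42 45) (.cons (t2 7 22 45) (.cons (t1 22 24 45)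 (.cons (t2 8 11 45) (.cons (t2 3 19 46) (.cons a175 (.cons (t3 38 46 49) (.cons s414 (.cons (t1 7 38 42) (.cons s832 (.cons (t3 11 21 23) (.cons s784 (.cons a34 (.cons s376 (.cons s597 (.cons (t2 22 49 52) .nil)))))))))))))))))))))))))))))))))))))))))) (by decide +kernel)
theorem s834 : Valid A [3162, 689, 998, 3017, 1352, 2761, 4707, 956, 3930, 1329, 1372, 1066, 913, 3164, 945, 5858, 994, 2736] := rup _
  (.cons (t2 36 45 49) (.cons (t1 7 36 49) (.cons (t2 7 24 45) (.cons (t2 10 24 45) (.cons (t2 5 24 45) (.cons s297 (.cons s177 (.cons (t1 7 8 11) (.cons s505 (.cons (t3 30 45 51) (.cons s583 (.cons a383 (.cons s169 (.cons (t2 22 45 49) (.cons s376 .nil))))))))))))))) (by decide +kernel)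
theorem s835 : Valid A [1454, 3156, 724, 689, 3682, 738, 3048, 6376, 3043] := rup _
  (.cons (t3 11 23 49) (.cons a238 (.cons a215 (.cons s67 (.cons (t1 5 11 52) (.cons (t2 5 11 28) (.cons (t3 5 42 52) (.cons (t1 5 24 28) (.cons a234 (.cons a367 (.cons (t1 28 42 49) .nil))))))))))) (by decide +kernel)
theorem s836 : Valid A [3126, 3048, 6376, 1084, 956, 3930, 1045, 1348, 3034, 2735, 431, 3043, 477, 5987, 2350, 942, 913, 3164, 3169, 945, 938, 2346, 3554, 483, 5858, 2787, 994, 2736, 427] := rup _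
  (.cons (t1 7 24 48) (.cons (t2 7 8 48) (.cons (t2 8 10 48) (.cons (t2 7 8 24) (.cons (t2 8 10 24) (.cons (t1 7 8 10) (.cons a506 (.cons a191 (.cons a190 (.cons (t1 7 8 21) (.cons s158 (.cons (t1 27 34 49) (.cons a63 (.cons (t2 10 24 27) (.cons s196 (.cons (t3 10 19 24) (.cons (t3 10 19 48) (.cons s829 (.cons s833 (.cons (t3 21 36 49) (.cons (t1 10 36 49) (.cons (t3 23 36 49) (.cons a204 (.cons a489 (.cons a207 (.cons (t3 5 21 49) (.cons (t3 28 36 49) (.cons s22 (.cons (t1 5 7 24) (.cons s834 (.cons (t1 7 24 45) (.cons (t1 8 24 45) (.cons (t1 10 24 45) (.cons (t3 19 24 45) (.cons (t1 5 24 45) (.cons a357 (.cons a396 (.cons a341 (.cons (t2 5 42 45) (.cons (t2 24 42 45) (.cons (t2 7 22 45) (.cons (t1 22 24 45) (.cons (t1 18 19 21) (.cons a349 (.cons (t2 10 18 24) (.cons s835 (.cons (t3 11 21 23) (.cons s784 (.cons a34 (.cons s376 (.cons s597 (.cons (t2 22 49 52) .nil)))))))))))))))))))))))))))))))))))))))))))))))))))) (by decide +kernel)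
theorem s837 : Valid A [4706, 3149, 2353, 4962, 3048, 6376, 1084, 956, 3930, 917, 1045, 3034, 2735, 431, 3043, 942, 1073, 3169, 408, 945, 938, 2787, 994, 427] := rup _
  (.cons (t2 8 10 24) (.cons a506 (.cons s158 (.cons s106 (.cons a500 (.cons a63 (.cons (t2 21 36 49) (.cons a479 (.cons (t2 23 36 49) (.cons (t3 24 36 48) (.cons s831 (.cons (t1 7 24 45) (.cons (t1 8 24 45) (.cons (t1 10 24 45) (.cons (t2 24 36 45) (.cons (t2 24 38 45) (.cons a357 (.cons a359 (.cons a396 (.cons a380 (.cons a382 (.cons (t2 38 42 45) (.cons (t2 7 22 45) (.cons (t1 22 24 45) (.cons (t2 8 11 45) (.cons s832 (.cons (t3 11 21 23) (.cons s784 (.cons a34 (.cons s376 (.cons s597 (.cons (t2 22 49 52) .nil)))))))))))))))))))))))))))))))) (by decide +kernel)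
theorem s838 : Valid A [445, 1045, 1348, 3034, 2735, 2998, 431, 3043, 477, 5987, 2350, 942, 913, 3164, 3169, 945, 938, 398, 2346, 3554, 483, 5858, 2787, 2402, 994, 2736, 427] := rup _
  (.cons (t2 7 8 24) (.cons (t2 8 10 24) (.cons (t1 7 8 10) (.cons a506 (.cons a191 (.cons a190 (.cons (t1 7 8 21) (.cons (t3 3 7 8) (.cons s158 (.cons a500 (.cons (t2 3 12 49) (.cons a63 (.cons a62 (.cons a50 (.cons (t1 3 30 45) (.cons (t3 3 7 30) (.cons (t2 3 21 30) (.cons (t3 3 8 30) (.cons (t1 3 23 39) (.cons a223 (.cons a325 (.cons (t1 21 49 52) (.cons (t1 21 23 52) (.cons s836 (.cons a314 (.cons a315 (.cons (t1 24 27 39) (.cons (t2 7 24 50) (.cons (t1 27 39 50) (.cons a429 (.cons a330 (.cons (t3 18 49 50) (.cons (t2 34 38 49) (.cons a433 (.cons a158 (.cons (t3 18 24 39) (.cons (t2 10 24 38) (.cons (t1 7 10 38) (.cons s837 (.cons (t3 21 36 49) (.cons (t1 10 36 49) (.cons (t3 23 36 49) (.cons a204 (.cons a489 (.cons a207 (.cons (t3 5 21 49) (.cons (t3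 28 36 49) (.cons s22 (.cons (t1 5 7 24) (.cons (t1 5 7 38) (.cons s834 (.cons a199 (.cons a200 (.cons (t1 7 24 45) (.cons (t1 10 24 45) (.cons (t2 24 38 42) (.cons s835 (.cons a396 (.cons (t3 11 21 23) (.cons s784 (.cons (t2 7 22 45) (.cons (t1 22 24 45) (.cons a34 (.cons s376 (.cons s597 (.cons (t2 22 49 52) .nil)))))))))))))))))))))))))))))))))))))))))))))))))))))))))))))))))) (by decide +kernel)
theorem s839 : Valid A [1116, 3170, 994, 427, 419] := rup _
  (.cons (t2 3 17 21) (.cons s826 (.cons (t1 3 21 24) (.cons (t1 3 17 24) (.cons a403 (.cons a62 (.cons (t1 3 17 45) (.cons (t3 17 45 49) (.cons (t1 3 17 49) (.cons (t1 7 17 49) (.cons (t3 7 17 21) (.cons (t2 3 7 17) (.cons a64 (.cons s158 (.cons s106 (.cons (t2 3 48 49) (.cons a44 (.cons (t1 7 24 48) (.cons s827 (.cons s828 (.cons (t1 7 24 46) (.cons (t3 3 34 49) (.cons (t3 17 34 49) (.cons a39 (.cons (t3 17 27 49) (.cons (t1 27 34 49) (.cons a515 (.cons (t3 17 18 21) (.cons (t2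 17 21 49) (.cons a514 (.cons a185 (.cons (t2 7 8 24) (.cons (t1 7 8 17) (.cons (t2 7 8 23) (.cons (t2 7 8 48) (.cons s326 (.cons a181 (.cons s74 (.cons s160 (.cons (t1 3 17 46) (.cons (t3 17 27 46) (.cons (t2 17 21 46) (.cons (t3 17 45 46) (.cons (t2 17 34 46) (.cons a191 (.cons (t1 23 46 49) (.cons (t3 3 23 46) (.cons (t2 23 27 46) (.cons (t3 21 23 46) (.cons (t2 23 45 46) (.cons (t1 10 34 46) (.cons (t1 10 23 46) (.cons a399 (.cons (t1 7 8 10) (.cons (t2 8 10 24) (.cons (t2 8 10 48) (.cons s838 (.cons (t3 3 30 49) (.cons (t3 3 30 34) (.cons a468 (.cons a162 (.cons a393 (.cons (t1 7 10 30) (.cons (t2 10 24 30) (.cons (t3 10 18 30) (.cons (t2 7 10 33) (.cons (t3 10 33 48) (.cons (t3 7 18 30) (.cons (t3 18 24 30) (.cons (t1 8 10 18) (.cons s429 (.cons s176 (.cons a346 (.cons s436 (.cons (t1 8 18 50) (.cons (t2 7 8 50) (.cons (t1 33 34 49) (.cons (t3 7 19 27) (.cons a429 (.cons a311 (.cons a154 (.cons (t1 34 49 50) (.cons a304 (.cons (t3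 17 19 34) (.cons (t1 19 34 50) (.cons (t1 6 7 24) (.cons (t1 6 7 18) (.cons a335 (.cons a302 (.cons (t1 6 18 39) (.cons (t3 19 39 50) (.cons a433 .nil)))))))))))))))))))))))))))))))))))))))))))))))))))))))))))))))))))))))))))))))))))))))))))) (by decide +kernel)
theorem s840 : Valid A [445, 1513, 998, 941, 918, 938, 398, 483, 2787, 427] := rup _
  (.cons (t3 3 7 30) (.cons (t2 3 30 49) (.cons (t2 3 21 30) (.cons s169 (.cons a223 (.cons s31 (.cons (t1 21 49 52) (.cons (t3 5 30 49) (.cons (t1 5 21 30) (.cons (t2 11 49 52) (.cons a207 (.cons a215 (.cons (t2 5 7 11) .nil))))))))))))) (by decide +kernel)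
theorem s841 : Valid A [3170, 994, 427, 419] := rup _
  (.cons s826 (.cons (t1 3 21 24) (.cons (t1 3 17 24) (.cons a62 (.cons (t1 3 17 45) (.cons (t2 3 17 21) (.cons a403 (.cons a514 (.cons (t1 7 17 49) (.cons (t2 17 21 49) (.cons (t3 17 45 49) (.cons (t1 3 17 49) (.cons (t2 3 7 17) (.cons (t3 7 17 21) (.cons a64 (.cons s158 (.cons s106 (.cons (t3 3 34 49) (.cons (t2 3 48 49) (.cons a44 (.cons (t1 7 24 48) (.cons s827 (.cons (t1 7 24 46) (.cons s828 (.cons s839 (.cons a182 (.cons a183 (.cons (t3 8 23 46) (.cons (t2 8 24 46) (.cons (t3 8 17 21) (.cons (t3 17 46 49) (.cons a193 (.cons s202 (.cons (t2 23 24 49) (.cons (t3 7 23 24) (.cons s498 (.cons (t1 17 21 29) (.cons (t2 21 29 49) (.cons (t3 0 7 23) (.cons a140 (.cons a384 (.cons (t3 22 29 49) (.cons (t3 7 11 23) (.cons s376 (.cons s630 (.cons a227 (.cons a496 (.cons (t1 7 23 52) (.cons (t2 7 23 51) (.cons a238 (.cons s840 (.cons (t3 3 30 49) (.cons (t3 3 30 34) (.cons a468 (.cons s76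 (.cons s338 (.cons (t2 8 10 46) (.cons a189 (.cons a399 (.cons (t2 10 23 49) .nil)))))))))))))))))))))))))))))))))))))))))))))))))))))))))))) (by decide +kernel)
theorem s842 : Valid A [935, 3022, 5090, 4293, 962, 1334, 1348, 917, 1123, 3012, 989, 4450] := rup _
  (.cons a186 (.cons (t2 7 10 19) (.cons s769 (.cons s196 (.cons s431 (.cons (t2 27 34 49) (.cons (t1 23 27 34) (.cons (t3 27 33 34) (.cons a106 (.cons a427 (.cons a325 (.cons (t3 8 15 49) (.cons (t3 8 41 49) (.cons a113 (.cons a442 (.cons (t1 15 27 33) (.cons (t1 15 27 39) (.cons (t1 15 39 41) (.cons a97 .nil))))))))))))))))))) (by decide +kernel)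
theorem s843 : Valid A [989, 1071, 994, 427, 419] := rup _
  (.cons a521 (.cons a400 (.cons a62 (.cons s826 (.cons s841 (.cons (t1 7 24 49) (.cons a64 (.cons (t1 3 7 45) (.cons s132 (.cons (t2 3 7 21) (.cons a38 (.cons (t1 3 7 27) (.cons (t2 3 7 17) (.cons a171 (.cons a169 (.cons (t2 3 17 21) (.cons a39 (.cons a187 (.cons s42 (.cons s56 (.cons (t2 7 17 46) (.cons (t3 7 24 46) (.cons (t1 7 46 49) (.cons (t1 3 7 46) (.cons (t3 7 27 46) (.cons (t1 8 23 46) (.cons s138 (.cons a193 (.cons a469 (.cons (t3 18 24 49) (.cons (t1 2 18 49) (.cons (t1 23 24 49) (.cons (t1 23 24 48) (.cons (t2 23 24 34) (.cons (t3 18 23 24) (.cons (t1 8 23 49) (.cons (t3 10 23 49) (.cons a44 (.cons a484 (.cons a189 (.cons (t3 23 36 49) (.cons (t3 7 10 46) (.cons (t2 10 34 46) (.cons (t2 10 27 46) (.cons s140 (.cons (t3 3 36 46) (.cons a54 (.cons (t1 3 7 33) (.cons (t3 3 33 48) (.cons s176 (.cons (t2 33 34 49) (.cons s148 (.cons a304 (.cons (t3 6 24 49) (.cons (t2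 6 30 49) (.cons (t3 6 18 49) (.cons (t1 2 6 49) (.cons a301 (.cons a302 (.cons (t1 6 18 39) (.cons (t3 24 39 49) (.cons (t2 23 24 39) (.cons s842 (.cons s739 (.cons a345 (.cons s130 (.cons (t1 7 17 39) (.cons (t1 3 17 39) (.cons (t2 17 21 39) (.cons (t3 17 27 39) (.cons (t3 2 18 19) (.cons a49 (.cons (t2 21 30 39) (.cons a325 (.cons (t3 2 19 45) (.cons (t1 18 23 27) (.cons a85 (.cons a277 (.cons (t1 2 7 39) (.cons (t1 2 7 21) (.cons (t1 18 24 44) (.cons a269 (.cons (t1 2 39 44) (.cons a70 (.cons (t1 2 21 52) (.cons a71 (.cons a222 (.cons (t3 6 30 52) .nil)))))))))))))))))))))))))))))))))))))))))))))))))))))))))))))))))))))))))))))))))))))))) (by decide +kernel)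
theorem s844 : Valid A [445, 1348, 404, 452] := rup _
  (.cons (t1 3 30 34) (.cons (t3 3 10 30) (.cons a162 .nil))) (by decide +kernel)
theorem s845 : Valid A [3144, 1379, 1122, 1072, 2992, 1117, 912, 968, 3171, 994] := rup _
  (.cons (t1 7 10 49) (.cons (t1 7 24 49) (.cons a171 (.cons s302 (.cons s413 (.cons (t3 24 48 49) (.cons (t3 10 48 49) (.cons (t1 7 48 49) (.cons (t3 24 33 49) (.cons s150 (.cons s148 (.cons s432 (.cons a304 (.cons (t3 7 10 50) (.cons (t3 7 33 50) (.cons (t3 6 48 49) (.cons a262 (.cons (t1 9 24 48) (.cons (t1 9 10 48) (.cons a250 (.cons a246 (.cons (t2 9 33 50) .nil)))))))))))))))))))))) (by decide +kernel)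
theorem s846 : Valid A [5986, 2268, 988, 1071, 939, 452, 3171, 994, 2736, 2219, 427] := rup _
  (.cons (t1 7 21 46) (.cons a400 (.cons a169 (.cons (t2 24 46 49) (.cons s340 (.cons s228 (.cons (t2 7 21 36) (.cons (t2 3 21 36) (.cons (t2 17 21 23) (.cons (t2 8 21 23) (.cons (t2 7 21 23) (.cons (t2 8 17 23) (.cons (t2 7 8 21) (.cons s143 (.cons a181 (.cons a194 (.cons s74 (.cons (t3 10 23 46) (.cons (t2 8 24 46) (.cons (t2 8 46 49) (.cons a189 (.cons (t2 10 34 49) (.cons (t3 10 24 49) (.cons s845 (.cons (t2 24 36 49) (.cons (t3 23 24 36) (.cons (t1 10 24 36) (.cons a480 (.cons a483 (.cons (t2 10 48 49) (.cons (t1 18 36 49) (.cons (t3 10 18 36) (.cons s135 (.cons a471 (.cons (t2 10 18 30) (.cons s370 (.cons (t3 10 33 36) (.cons (t1 3 33 34) (.cons a52 .nil))))))))))))))))))))))))))))))))))))))) (by decide +kernel)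
theorem s847 : Valid A [1071, 994, 427, 419] := rup _
  (.cons s826 (.cons s841 (.cons (t1 7 24 49) (.cons a64 (.cons (t2 3 7 21) (.cons a210 (.cons (t2 3 7 17) (.cons a62 (.cons (t1 3 7 45) (.cons s16 (.cons (t1 3 21 24) (.cons (t3 21 24 49) (.cons a404 (.cons (t2 3 17 21) (.cons a400 (.cons s843 (.cons (t1 7 17 46) (.cons s846 (.cons a191 (.cons s80 (.cons (t3 24 46 49) (.cons a513 (.cons a178 (.cons a195 (.cons (t1 7 17 18) (.cons (t3 24 36 49) (.cons (t2 8 23 46) (.cons s191 (.cons s143 (.cons a346 (.cons a348 (.cons (t2 7 18 23) (.cons a185 (.cons s150 (.cons (t2 7 21 23) (.cons s130 (.cons a484 (.cons (t1 10 18 23) (.cons (t2 7 8 21) (.cons s429 (.cons a506 (.cons (t2 21 23 36) (.cons a349 (.cons a143 (.cons (t2 7 8 50) (.cons (t1 0 7 23) (.cons a203 (.cons s680 (.cons (t1 10 19 46) (.cons s377 (.cons (t2 7 21 29) (.cons a429 (.cons s474 (.cons a330 (.cons (t3 11 29 49) (.cons (t1 38 46 49) (.cons (t2 29 38 49) (.cons a215 (.cons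 a173 (.cons a130 (.cons (t2 5 11 36) (.cons (t2 19 38 45) (.cons (t1 11 38 45) (.cons a381 .nil)))))))))))))))))))))))))))))))))))))))))))))))))))))))))))))))) (by decide +kernel)
theorem s848 : Valid A [4293, 1123, 962, 3022, 2254, 3012, 1334, 1348, 917, 989, 931, 3171, 994] := rup _
  (.cons (t2 7 17 46) (.cons (t1 7 46 49) (.cons s138 (.cons s42 (.cons a169 (.cons (t2 33 34 49) (.cons s148 (.cons a304 (.cons (t3 6 24 49) (.cons (t3 6 18 49) (.cons a301 (.cons a302 (.cons (t1 6 18 39) (.cons (t3 24 39 49) (.cons s739 (.cons s842 .nil)))))))))))))))) (by decide +kernel)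
theorem s849 : Valid A [4321, 457, 450, 3535, 974, 917, 3171, 994, 432] := rup _
  (.cons (t3 3 24 49) (.cons (t3 3 33 48) (.cons a44 (.cons s211 (.cons (t3 24 33 48) (.cons (t1 33 48 49) (.cons a251 (.cons a311 (.cons (t3 9 24 48) (.cons (t1 6 24 49) (.cons a304 (.cons (t1 6 48 49) (.cons a261 (.cons (t1 6 7 10) (.cons (t2 6 7 39) (.cons (t2 6 9 10) (.cons a300 (.cons a247 (.cons (t2 24 39 49) (.cons (t3 24 27 39) (.cons (t2 7 10 50) (.cons (t1 27 39 49) (.cons a315 (.cons a429 (.cons (t1 27 49 50) .nil))))))))))))))))))))))))) (by decide +kernel)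
theorem s850 : Valid A [4293, 962, 3535, 3022, 2254, 3012, 1334, 1348, 917, 989, 950, 931, 3171, 994] := rup _
  (.cons a186 (.cons (t1 7 24 49) (.cons a169 (.cons (t2 33 34 49) (.cons s848 (.cons s148 (.cons s432 (.cons a304 (.cons s180 (.cons (t3 6 24 49) (.cons (t1 24 27 39) (.cons a301 .nil)))))))))))) (by decide +kernel)
theorem s851 : Valid A [445, 3012, 431, 2998, 1334, 405, 1348, 917, 989, 3171, 994, 432, 419] := rup _
  (.cons a38 (.cons (t1 7 24 49) (.cons a64 (.cons (t1 3 7 27) (.cons (t2 3 7 17) (.cons a50 (.cons (t2 3 10 30) (.cons (t1 3 7 39) (.cons (t1 3 17 39) (.cons (t1 3 23 39) (.cons a393 (.cons a325 (.cons (t2 3 10 33) (.cons (t2 7 10 33) (.cons s850 (.cons s176 (.cons (t3 3 33 48) (.cons s849 (.cons a44 (.cons a52 (.cons (t2 24 48 49) (.cons (t2 33 36 48) (.cons a482 .nil))))))))))))))))))))))) (by decide +kernel)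
theorem s852 : Valid A [996, 1123, 962, 5090, 2403, 912, 950, 3171, 994] := rup _
  (.cons a429 (.cons s431 (.cons (t1 24 49 50) (.cons (t1 18 49 50) (.cons a106 (.cons a427 (.cons a428 (.cons a314 (.cons a316 (.cons (t2 18 27 50) (.cons (t2 18 41 50) (.cons (t3 8 15 49) (.cons (t3 8 41 49) (.cons (t3 24 27 49) (.cons a113 (.cons a442 (.cons (t1 7 15 27) (.cons a109 (.cons a96 (.cons a446 (.cons (t3 7 39 41) (.cons a440 (.cons a317 (.cons (t3 7 14 41) (.cons (t2 14 18 27) (.cons a523 .nil)))))))))))))))))))))))))) (by decide +kernel)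
theorem s853 : Valid A [1073, 828, 268, 3138, 962, 2382, 2748, 917, 989, 939, 950, 931, 986, 3171, 994] := rup _
  (.cons (t2 7 17 46) (.cons (t1 7 46 49) (.cons s138 (.cons (t3 18 39 49) (.cons (t3 18 24 49) (.cons (t1 18 24 39) (.cons s132 (.cons (t1 2 18 49) (.cons s42 (.cons a186 (.cons (t1 7 24 49) (.cons a169 (.cons (t1 8 24 49) (.cons (t2 8 24 33) (.cons s852 (.cons s180 (.cons (t3 7 8 50) (.cons (t3 7 33 50) (.cons s769 (.cons (t1 18 24 27) (.cons s712 (.cons s130 (.cons a345 (.cons s739 (.cons a277 (.cons a109 (.cons (t3 2 18 19) (.cons (t1 7 17 39) (.cons (t1 18 24 44) (.cons (t3 2 19 45) (.cons (t2 7 15 39) (.cons a269 (.cons a85 (.cons (t1 15 39 44) (.cons (t1 2 7 21) (.cons (t1 2 7 15) (.cons (t1 2 15 44) (.cons a70 (.cons (t1 2 21 52) (.cons a71 (.cons a222 (.cons (t3 6 30 52) .nil)))))))))))))))))))))))))))))))))))))))))) (by decide +kernel)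
theorem s854 : Valid A [450, 2382, 1340, 2748, 956, 1323, 1370, 405, 1348, 917, 989, 939, 950, 931, 986, 399, 3171, 994, 2219] := rup _
  (.cons (t2 7 17 46) (.cons (t1 7 46 49) (.cons s138 (.cons (t3 18 24 49) (.cons (t1 18 24 39) (.cons s132 (.cons (t1 2 18 49) (.cons a471 (.cons a469 (.cons s42 (.cons a186 (.cons (t1 7 24 49) (.cons a171 (.cons a169 (.cons (t1 3 7 33) (.cons (t1 3 10 33) (.cons s370 (.cons (t1 24 33 34) (.cons (t2 33 34 49) (.cons s148 (.cons a304 (.cons (t1 2 6 49) (.cons (t2 6 30 49) (.cons s853 (.cons (t3 8 24 49) (.cons s458 (.cons s568 (.cons s432 (.cons (t1 17 21 29) (.cons (t1 10 21 29) (.cons s180 (.cons s769 (.cons a140 (.cons (t2 10 22 29) (.cons (t1 18 24 27) (.cons s130 (.cons a345 (.cons s739 (.cons (t2 7 22 29) (.cons a395 (.cons a277 (.cons (t3 2 18 19) (.cons (t1 18 19 45) (.cons (t1 7 17 39) (.cons (t3 18 22 45) (.cons (t1 18 24 44) (.cons (t3 2 19 45) (.cons (t1 18 22 30) (.cons a269 (.cons a85 (.cons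 s325 (.cons (t1 7 39 44) (.cons (t1 2 7 52) (.cons (t1 2 7 44) (.cons a70 .nil))))))))))))))))))))))))))))))))))))))))))))))))))))))) (by decide +kernel)
theorem s855 : Valid A [361, 2025, 5097, 1384, 1000, 279, 343, 3150, 1328, 917, 986] := rup _
  (.cons a69 (.cons a70 (.cons s15 (.cons (t2 2 11 52) (.cons (t2 2 7 52) (.cons (t3 2 15 52) (.cons (t2 39 44 52) (.cons (t1 2 43 44) (.cons (t3 2 28 43) (.cons (t1 2 11 28) (.cons (t1 10 11 52) (.cons a85 (.cons (t2 2 15 45) (.cons (t2 2 15 43) (.cons a269 (.cons a387 (.cons a101 (.cons (t3 4 15 43) (.cons (t3 10 24 44) (.cons (t1 7 10 28) (.cons (t1 10 28 44) (.cons s112 (.cons s111 .nil))))))))))))))))))))))) (by decide +kernel)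
theorem s856 : Valid A [2792, 279, 3923, 1981, 3919, 343, 2770, 3150, 2748, 2223, 3037, 1327, 1323, 1328, 917, 2781, 939, 986, 2219] := rup _
  (.cons (t2 10 21 23) (.cons a222 (.cons (t2 7 21 52) (.cons (t1 21 23 52) (.cons (t2 10 21 52) (.cons s94 (.cons (t2 30 39 52) (.cons (t2 30 41 52) (.cons (t1 15 30 52) (.cons s855 (.cons (t1 2 30 52) (.cons (t1 2 43 52) (.cons (t1 2 11 52) (.cons (t1 2 11 30) (.cons (t2 41 43 52) (.cons a238 (.cons a451 (.cons (t3 11 17 23) (.cons (t3 10 11 23) (.cons (t1 11 23 46) (.cons (t2 21 43 46) (.cons (t1 17 21 43) (.cons a377 (.cons a378 (.cons a389 (.cons (t3 11 28 46) (.cons (t1 28 43 46) (.cons (t3 16 17 43) (.cons a371 (.cons a456 (.cons (t2 16 28 30) .nil))))))))))))))))))))))))))))))) (by decide +kernel)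
theorem s857 : Valid A [2793, 1480, 2760, 1327, 1323] := rup _
  (.cons (t2 10 21 23) (.cons s84 (.cons (t2 21 23 52) (.cons a487 (.cons (t2 10 21 28) (.cons a239 (.cons (t1 11 28 36) (.cons a387 (.cons (t2 10 11 23) .nil))))))))) (by decide +kernel)
theorem s858 : Valid A [6373, 272, 1123, 1073, 2792, 1456, 2003, 2770, 466, 2258, 5985, 2400, 4321, 3138, 3150, 2382, 2748, 444, 2223, 3037, 1327, 1323, 1328, 917, 2403, 989, 939, 931, 986, 2736, 2219] := rup _
  (.cons (t3 18 39 49) (.cons (t2 7 21 46) (.cons s42 (.cons a330 (.cons (t1 8 49 50) (.cons (t2 18 38 49) (.cons a427 (.cons (t1 8 24 41) (.cons (t3 8 41 49) (.cons s271 (.cons a442 (.cons (t2 8 24 43) (.cons (t1 17 39 41) (.cons (t1 3 39 41) (.cons (t3 15 39 41) (.cons a82 (.cons s739 (.cons a48 (.cons (t3 15 30 39) (.cons (t2 7 19 46) (.cons (t1 30 39 41) (.cons a175 (.cons s856 (.cons (t3 38 46 48) (.cons (t3 2 11 43) (.cons s166 (.cons (t1 9 33 48) (.cons a250 (.cons (t2 9 11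 24) (.cons (t2 9 24 43) (.cons a243 .nil))))))))))))))))))))))))))))))) (by decide +kernel)
theorem s859 : Valid A [1073, 2792, 1456, 2003, 2770, 466, 2258, 5985, 2400, 926, 4321, 3138, 2382, 2748, 444, 2223, 3037, 1327, 1323, 1328, 917, 989, 939, 950, 931, 986, 3171, 994, 2736, 2219] := rup _
  (.cons (t2 7 17 46) (.cons (t1 7 46 49) (.cons s138 (.cons (t3 18 24 49) (.cons (t1 18 24 39) (.cons s132 (.cons (t1 2 24 49) (.cons (t1 7 24 49) (.cons (t1 8 24 49) (.cons (t1 2 8 24) (.cons s858 (.cons a429 (.cons (t2 8 49 50) (.cons s180 (.cons (t3 7 15 50) (.cons (t2 24 27 49) (.cons a105 (.cons a114 (.cons (t2 8 15 49) .nil))))))))))))))))))) (by decide +kernel)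
theorem s860 : Valid A [1373, 989, 994, 427, 419] := rup _
  (.cons s826 (.cons s841 (.cons (t1 7 24 49) (.cons a64 (.cons (t2 3 7 17) (.cons (t2 7 17 46) (.cons (t1 7 46 49) (.cons s138 (.cons a471 (.cons s42 (.cons (t2 3 7 18) (.cons (t2 3 7 21) (.cons (t2 7 21 46) (.cons a38 (.cons (t1 3 7 27) (.cons (t3 7 27 46) (.cons a62 (.cons (t1 3 7 45) (.cons (t3 7 45 46) (.cons (t1 3 7 46) (.cons (t3 7 24 46) (.cons s56 (.cons a187 (.cons a186 (.cons s847 (.cons a210 (.cons (t1 3 21 24) (.cons (t2 3 17 21) (.cons s63 (.cons (t3 7 10 46) (.cons (t2 10 24 46) (.cons (t1 8 10 46) (.cons (t2 10 34 46) (.cons (t3 10 17 46) (.cons (t3 3 10 46) (.cons (t2 10 45 46) (.cons (t2 10 27 46) (.cons (t3 10 21 46) (.cons a399 (.cons (t1 10 23 27) (.cons (t2 10 23 46) (.cons (t3 10 18 23) (.cons (t1 3 10 23) (.cons (t2 10 17 23) (.cons (t1 10 23 34) (.cons s851 (.cons (t1 3 7 30) (.cons (t1 3 21 30) (.cons (t1 3 10 30) (.cons s139 (.cons s854 (.cons a54 (.cons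 (t3 3 24 33) (.cons (t2 3 10 33) (.cons (t2 3 7 33) (.cons (t3 3 18 33) (.cons (t1 3 21 36) (.cons (t1 3 23 36) (.cons (t3 3 36 46) (.cons s135 (.cons (t2 10 33 48) (.cons a110 (.cons a112 (.cons a447 (.cons a448 (.cons (t3 18 33 48) (.cons a203 (.cons a483 (.cons s140 (.cons (t2 10 46 48) (.cons (t1 7 17 41) (.cons (t2 3 7 41) (.cons (t1 7 21 41) (.cons a95 (.cons (t3 5 18 36) (.cons (t1 5 36 49) (.cons (t2 5 18 30) (.cons a216 (.cons (t1 11 36 49) (.cons (t1 11 24 49) (.cons s857 (.cons a222 (.cons (t2 7 21 52) (.cons (t3 5 30 52) (.cons s859 (.cons s458 (.cons s568 (.cons (t1 17 21 29) (.cons (t1 10 21 29) (.cons a140 (.cons (t2 10 22 29) (.cons (t2 7 22 29) (.cons a395 (.cons s325 (.cons s131 (.cons a474 (.cons (t2 22 30 45) (.cons (t1 5 45 52) (.cons (t1 30 45 51) (.cons s177 .nil)))))))))))))))))))))))))))))))))))))))))))))))))))))))))))))))))))))))))))))))))))))))))))))))))))) (by decide +kernel)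
theorem s861 : Valid A [989, 994, 427, 419] := rup _
  (.cons a38 (.cons s826 (.cons s841 (.cons (t1 7 24 49) (.cons a64 (.cons (t1 3 7 27) (.cons (t2 3 7 17) (.cons s16 (.cons a171 (.cons a169 (.cons a186 (.cons s42 (.cons (t2 7 17 46) (.cons (t1 7 46 49) (.cons (t1 3 7 46) (.cons (t2 3 7 18) (.cons s138 (.cons a469 (.cons a471 (.cons s860 (.cons (t2 7 10 46) (.cons a189 (.cons (t2 3 10 46) (.cons (t2 10 34 49) (.cons (t3 10 18 49) (.cons (t2 10 30 49) (.cons s844 (.cons a350 (.cons (t1 3 7 30) (.cons s139 (.cons a345 (.cons s183 (.cons (t3 18 39 49) (.cons s43 (.cons (t1 7 19 27) (.cons a154 (.cons (t1 24 27 34) (.cons s180 (.cons s432 (.cons s852 .nil)))))))))))))))))))))))))))))))))))))))) (by decide +kernel)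
theorem s862 : Valid A [1326, 1376, 974, 942, 916, 1373, 1070, 950, 3171, 994] := rup _
  (.cons a191 (.cons (t2 24 46 49) (.cons a192 (.cons (t1 7 24 49) (.cons a399 (.cons (t3 10 23 46) (.cons (t1 7 8 10) (.cons (t2 8 10 49) (.cons (t2 8 10 48) (.cons a193 (.cons a520 (.cons (t1 23 24 49) (.cons (t3 7 23 48) (.cons (t2 23 48 49) (.cons s150 (.cons a480 (.cons s432 (.cons s140 (.cons (t2 23 36 49) (.cons s180 (.cons (t3 7 23 50) (.cons (t3 7 39 50) (.cons s78 (.cons (t1 23 24 27) (.cons a483 (.cons a326 (.cons (t2 18 23 50) (.cons (t2 18 23 39) (.cons a433 .nil))))))))))))))))))))))))))))) (by decide +kernel)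
theorem s863 : Valid A [445, 942, 968, 1373, 988, 1070, 939, 986, 399, 3171, 994, 419] := rup _
  (.cons a191 (.cons (t2 24 46 49) (.cons (t2 3 7 46) (.cons (t1 3 10 46) (.cons (t1 7 10 46) (.cons s63 (.cons a192 (.cons s132 (.cons a38 (.cons (t1 3 7 27) (.cons (t2 3 7 17) (.cons s16 (.cons (t1 7 24 49) (.cons a50 (.cons s844 (.cons (t1 3 7 39) (.cons (t1 3 17 39) (.cons a160 (.cons s65 (.cons (t2 10 34 46) (.cons (t3 34 38 46) (.cons s862 (.cons a401 (.cons (t1 10 23 49) (.cons (t1 10 23 48) (.cons (t3 8 10 46) (.cons a520 (.cons a185 (.cons (t1 7 8 48) (.cons (t1 7 48 49) (.cons (t3 7 36 48) (.cons a479 (.cons (t1 23 36 49) (.cons (t3 24 36 49) (.cons (t1 2 36 49) (.cons s142 (.cons (t1 2 18 36) (.cons (t1 18 36 49) (.cons (t3 18 24 36) (.cons (t1 7 18 36) (.cons s193 (.cons (t3 10 19 46) (.cons a349 (.cons a173 (.cons a347 (.cons (t2 18 19 49) (.cons (t3 2 18 19) (.cons (t1 18 19 38) (.cons s130 (.cons s739 (.cons (t2 19 38 49) (.cons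 (t3 2 19 45) (.cons a266 (.cons (t2 18 24 39) (.cons a330 (.cons a85 (.cons (t3 9 18 24) (.cons a301 (.cons a429 (.cons (t3 6 24 49) (.cons (t2 7 8 50) (.cons a304 (.cons s429 (.cons (t1 6 7 48) (.cons (t3 2 6 7) (.cons (t3 7 24 33) (.cons (t1 2 7 33) (.cons a264 (.cons (t2 2 6 9) (.cons a250 (.cons (t3 2 9 33) .nil))))))))))))))))))))))))))))))))))))))))))))))))))))))))))))))))))))))) (by decide +kernel)
theorem s864 : Valid A [993, 912, 942, 1070] := rup _
  (.cons (t3 7 8 48) (.cons (t3 7 23 48) (.cons a520 .nil))) (by decide +kernel)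
theorem s865 : Valid A [992, 1348, 456, 1373, 944, 3171, 432] := rup _
  (.cons a192 (.cons (t1 10 24 49) (.cons a191 (.cons a64 (.cons s150 (.cons s145 (.cons (t2 3 7 33) (.cons (t2 24 48 49) (.cons (t3 10 24 48) (.cons a52 (.cons a480 (.cons s135 (.cons (t3 10 33 36) (.cons s140 (.cons (t3 10 36 46) .nil))))))))))))))) (by decide +kernel)
theorem s866 : Valid A [1348, 444, 942, 2222, 456, 968, 916, 1373, 1070, 931, 3171, 994, 432, 2230] := rup _
  (.cons a191 (.cons (t2 24 46 49) (.cons s63 (.cons a192 (.cons (t1 7 24 49) (.cons a169 (.cons s534 (.cons s865 (.cons (t1 7 48 49) (.cons (t3 7 36 48) (.cons s864 (.cons a479 (.cons (t1 7 8 10) (.cons (t1 10 36 49) (.cons (t3 24 36 49) (.cons (t1 34 36 49) (.cons (t1 30 36 49) (.cons a399 (.cons (t1 10 23 36) (.cons (t1 10 23 34) (.cons s142 (.cons (t1 7 18 36) (.cons (t1 3 18 36) (.cons (t2 18 34 36) (.cons (t2 18 30 36) (.cons s193 (.cons s139 (.cons a349 (.cons (t3 10 19 23) (.cons a347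 (.cons (t1 18 19 34) (.cons s739 (.cons (t3 17 23 39) (.cons (t3 17 27 39) (.cons a325 (.cons (t1 23 27 34) (.cons (t3 19 23 27) (.cons a154 .nil)))))))))))))))))))))))))))))))))))))) (by decide +kernel)
theorem s867 : Valid A [1326, 962, 1376, 1340, 713, 2734, 1322, 916, 1373, 1070, 939, 950, 931, 986, 3171, 994] := rup _
  (.cons s32 (.cons (t2 7 21 23) (.cons a191 (.cons (t2 24 46 49) (.cons a192 (.cons a404 (.cons a399 (.cons (t3 10 23 46) (.cons s862 (.cons (t1 7 8 10) (.cons (t2 8 10 21) (.cons (t2 8 10 49) (.cons (t2 8 10 48) (.cons a193 (.cons (t2 7 17 39) (.cons s432 (.cons s321 (.cons a520 (.cons (t1 23 24 49) (.cons a334 (.cons (t2 7 17 50) (.cons (t2 7 39 50) (.cons (t1 0 23 49) (.cons (t2 23 48 49) (.cons (t2 7 19 39) (.cons a435 (.cons a492 (.cons a480 (.cons s130 (.cons (t2 17 18 50) (.cons (t2 7 18 50) (.cons s140 (.cons a513 (.cons s193 (.cons a345 (.cons (t3 10 36 46) (.cons a471 (.cons (t2 18 22 49) (.cons (t3 10 19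 45) (.cons (t1 18 19 30) (.cons (t1 18 19 45) (.cons (t3 5 10 36) (.cons (t2 10 36 51) (.cons (t3 18 22 45) (.cons (t2 5 10 45) (.cons (t3 19 30 45) (.cons a395 (.cons s177 (.cons (t1 10 22 30) (.cons (t1 10 22 51) (.cons (t3 30 45 51) (.cons a472 .nil)))))))))))))))))))))))))))))))))))))))))))))))))))) (by decide +kernel)
theorem s868 : Valid A [1373, 994, 427, 419] := rup _
  (.cons s826 (.cons s841 (.cons (t1 7 24 49) (.cons a64 (.cons (t2 3 7 21) (.cons s861 (.cons (t1 7 21 46) (.cons s847 (.cons a210 (.cons a38 (.cons (t1 3 7 27) (.cons (t2 3 7 17) (.cons a62 (.cons (t1 3 7 45) (.cons a169 (.cons (t1 3 21 24) (.cons (t2 3 17 21) (.cons a39 (.cons a191 (.cons (t1 7 10 46) (.cons (t2 10 21 46) (.cons (t2 24 46 49) (.cons s340 (.cons s228 (.cons (t2 7 21 36) (.cons (t2 3 21 36) (.cons a203 (.cons (t2 17 21 23) (.cons (t2 7 21 23) (.cons s863 (.cons (t1 3 7 30) (.cons s866 (.cons a163 (.cons s65 (.cons s183 (.cons (t2 3 7 33) (.cons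 a52 (.cons s867 (.cons a401 (.cons (t1 10 23 48) (.cons (t3 8 10 46) (.cons a520 (.cons a185 (.cons (t1 7 8 48) (.cons (t1 7 48 49) (.cons (t3 7 36 48) (.cons (t3 7 33 48) (.cons a479 (.cons s176 (.cons (t1 33 36 49) (.cons (t2 33 34 49) .nil))))))))))))))))))))))))))))))))))))))))))))))))))) (by decide +kernel)
theorem s869 : Valid A [1045, 962, 2382, 974, 1317, 933, 917, 950, 3171, 994] := rup _
  (.cons (t3 7 8 10) (.cons (t1 8 10 18) (.cons s429 (.cons (t1 8 18 50) (.cons (t2 7 8 50) (.cons a433 (.cons a429 (.cons (t1 24 49 50) (.cons (t3 39 49 50) (.cons a314 (.cons (t3 24 39 50) (.cons a443 (.cons (t3 24 27 39) (.cons (t3 41 49 50) (.cons s442 (.cons a426 (.cons (t2 7 14 18) (.cons (t2 7 8 14) (.cons (t2 8 14 41) (.cons a526 .nil)))))))))))))))))))) (by decide +kernel)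
theorem s870 : Valid A [917, 1372, 1070, 399, 3171, 994, 419] := rup _
  (.cons a38 (.cons (t1 3 7 27) (.cons (t2 3 7 17) (.cons (t1 7 24 49) (.cons a404 (.cons a171 (.cons a169 (.cons s38 (.cons (t2 7 10 17) (.cons (t1 7 10 49) (.cons (t1 3 7 10) (.cons (t1 7 10 27) (.cons s534 (.cons a189 (.cons s80 (.cons (t3 24 46 49) (.cons a513 (.cons a468 (.cons a178 (.cons (t1 3 17 18) (.cons (t1 7 17 18) (.cons s324 (.cons (t1 10 17 18) (.cons (t1 3 18 30) (.cons (t1 10 17 30) (.cons a50 (.cons a393 (.cons (t1 3 7 39) (.cons (t1 3 10 39) (.cons (t1 3 18 39) (.cons (t2 7 10 33) (.cons s869 (.cons a399 (.cons (t1 7 10 23) (.cons (t2 10 18 23) (.cons (t1 10 23 27) (.cons (t1 10 23 39) (.cons a484 (.cons a325 (.cons (t2 7 23 36) (.cons s413 (.cons (t3 24 33 49) (.cons s148 (.cons a304 (.cons (t3 6 24 49) (.cons a301 (.cons (t3 24 39 49) (.cons (t1 24 27 39) (.cons s180 (.cons a429 (.cons (t1 7 18 50) (.cons (t3 39 49 50) (.cons a433 .nil)))))))))))))))))))))))))))))))))))))))))))))))))))))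 (by decide +kernel)
theorem s871 : Valid A [445, 1322, 404, 1314, 1372, 988, 939, 986, 399, 3171, 994, 2778, 419] := rup _
  (.cons s132 (.cons a38 (.cons (t1 3 7 27) (.cons (t2 3 7 17) (.cons s16 (.cons (t1 7 24 49) (.cons a404 (.cons a171 (.cons a169 (.cons a50 (.cons s844 (.cons (t1 3 7 39) (.cons (t1 3 17 39) (.cons a161 (.cons (t2 10 34 49) (.cons (t2 10 24 34) (.cons a189 (.cons s80 (.cons a513 (.cons (t1 7 17 18) (.cons (t3 10 17 18) (.cons a346 (.cons a348 (.cons (t1 7 17 19) (.cons s130 (.cons a349 (.cons a333 (.cons s118 (.cons (t1 10 19 24) (.cons (t1 10 19 46) (.cons (t2 10 19 34) (.cons (t1 10 19 38) (.cons (t2 19 39 45) (.cons (t1 10 45 49) (.cons (t3 19 24 39) (.cons a157 (.cons a173 (.cons a79 (.cons (t3 19 27 39) (.cons (t1 38 46 49) (.cons a87 (.cons (t3 2 39 45) (.cons s442 (.cons a330 (.cons s483 (.cons (t2 7 14 18) (.cons (t1 7 14 24) (.cons a429 (.cons (t3 2 6 39) (.cons a524 (.cons a526 (.cons s180 (.cons (t2 7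 18 50) (.cons (t2 7 14 50) (.cons a300 (.cons (t2 24 27 49) (.cons (t3 18 41 50) (.cons (t1 6 24 49) (.cons a114 (.cons a311 (.cons (t1 15 24 49) (.cons (t1 33 46 49) (.cons a92 (.cons (t1 7 14 15) (.cons (t2 14 15 50) (.cons (t1 14 15 41) (.cons a111 (.cons a107 (.cons a108 (.cons a95 (.cons (t2 7 8 15) (.cons a426 (.cons (t1 33 41 46) (.cons a185 (.cons (t2 8 41 46) .nil))))))))))))))))))))))))))))))))))))))))))))))))))))))))))))))))))))))))))) (by decide +kernel)
theorem s872 : Valid A [1045, 916, 1372, 988] := rup _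
  (.cons (t2 8 10 46) (.cons (t1 7 8 10) (.cons a185 .nil))) (by decide +kernel)
theorem s873 : Valid A [3164, 3144, 962, 912, 1348, 3036, 1327, 916, 988, 3171, 994] := rup _
  (.cons a185 (.cons (t3 7 10 23) (.cons (t3 24 46 49) (.cons a193 (.cons a177 (.cons (t2 8 46 49) (.cons (t2 23 24 36) (.cons s78 (.cons s432 (.cons a483 (.cons s804 (.cons (t1 7 18 23) (.cons (t3 10 18 23) (.cons s128 (.cons a345 (.cons a350 .nil)))))))))))))))) (by decide +kernel)
theorem s874 : Valid A [3165, 1348, 2236, 3171] := rup _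
  (.cons a404 (.cons a169 (.cons s75 (.cons (t2 24 46 49) (.cons (t3 18 24 49) (.cons a190 (.cons a513 (.cons s534 (.cons (t1 17 18 30) (.cons a468 .nil)))))))))) (by decide +kernel)
theorem s875 : Valid A [912, 3164, 1348, 3036, 1327, 916, 988, 1070, 3171, 994, 432] := rup _
  (.cons (t3 7 10 23) (.cons (t1 7 24 49) (.cons s864 (.cons s150 (.cons s145 (.cons s873 (.cons (t2 24 48 49) (.cons (t2 24 36 48) (.cons a482 .nil))))))))) (by decide +kernel)
theorem s876 : Valid A [963, 15, 713, 968, 1379, 2236, 956, 916, 939, 931, 986, 2274, 994, 2778] := rup _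
  (.cons a384 (.cons (t3 7 11 17) (.cons (t3 7 10 21) (.cons s150 (.cons s183 (.cons (t1 7 48 49) (.cons (t3 7 36 48) (.cons (t2 10 30 49) (.cons a479 (.cons a469 (.cons (t3 30 36 49) (.cons (t1 5 36 49) (.cons a513 (.cons (t2 10 18 49) (.cons (t3 5 30 36) (.cons a217 (.cons (t1 7 17 18) (.cons (t3 5 11 30) (.cons a346 (.cons a348 (.cons s401 (.cons s130 (.cons a349 (.cons a372 (.cons (t3 7 11 16) (.cons s118 (.cons (t2 10 19 30) (.cons (t1 16 19 30) (.cons a396 (.cons (t2 10 45 49) (.cons (t3 22 45 49) (.cons (t2 19 22 45) (.cons s376 (.cons a337 (.cons (t3 7 16 22) .nil))))))))))))))))))))))))))))))))))) (by decide +kernel)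
theorem s877 : Valid A [927, 3554, 950, 994] := rup _
  (.cons (t1 7 15 49) (.cons (t1 7 15 27) (.cons a113 .nil))) (by decide +kernel)
theorem s878 : Valid A [1348, 2236, 956, 916, 1372, 988, 1070, 950, 931, 3171, 994, 432, 427] := rup _
  (.cons (t1 7 24 49) (.cons a64 (.cons (t2 3 7 21) (.cons (t3 7 10 21) (.cons s872 (.cons a399 (.cons (t3 10 21 23) (.cons (t1 10 23 46) (.cons (t1 7 21 46) (.cons a210 (.cons a62 (.cons (t1 3 7 45) (.cons (t1 3 21 24) (.cons (t3 21 24 49) (.cons a404 (.cons a63 (.cons s874 (.cons (t3 24 46 49) (.cons s340 (.cons a193 (.cons a189 (.cons (t2 7 21 36) (.cons (t2 3 21 36) (.cons a203 (.cons (t1 23 24 49) (.cons s875 (.cons (t2 7 8 21) (.cons a143 (.cons s377 (.cons s13 (.cons (t1 0 23 49) (.cons a505 (.cons (t3 0 7 21) (.cons s876 (.cons (t2 3 7 33) (.cons (t1 7 8 33) (.cons s429 (.cons a52 (.cons (t2 7 8 50) (.cons a429 (.cons (t1 24 49 50) (.cons (t1 10 49 50) (.cons a314 (.cons (t3 24 27 49) (.cons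 s877 (.cons a109 (.cons s712 (.cons (t3 33 49 50) (.cons (t2 33 36 50) (.cons (t3 10 33 50) (.cons (t2 33 36 49) (.cons (t3 10 36 50) (.cons s135 (.cons a481 (.cons (t2 10 36 48) .nil))))))))))))))))))))))))))))))))))))))))))))))))))))))) (by decide +kernel)
theorem s879 : Valid A [994, 427, 419] := rup _
  (.cons s826 (.cons a63 (.cons a62 (.cons a38 (.cons s841 (.cons a169 (.cons a404 (.cons (t1 7 24 49) (.cons a64 (.cons (t1 3 7 45) (.cons (t2 3 7 17) (.cons (t1 3 7 27) (.cons (t2 3 7 21) (.cons s847 (.cons s861 (.cons s868 (.cons s870 (.cons (t3 7 10 17) (.cons (t2 3 7 10) (.cons (t3 7 10 21) (.cons s871 (.cons (t1 3 7 30) (.cons (t1 3 17 30) (.cons s878 (.cons a161 (.cons a163 (.cons (t2 10 34 49) (.cons a189 (.cons s80 (.cons a513 (.cons (t1 3 17 18) (.cons (t1 7 17 18) (.cons (t3 10 17 18) (.cons a346 (.cons a348 (.cons (t1 7 17 19) (.cons a349 (.cons (t1 10 19 46) (.cons (t1 10 19 30) (.cons (t1 10 19 38) (.cons a173 (.cons (t1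 38 46 49) (.cons a330 (.cons a429 (.cons (t2 7 18 50) (.cons a434 (.cons (t2 17 18 39) (.cons (t2 3 18 39) (.cons a333 (.cons a48 (.cons (t3 19 30 39) .nil))))))))))))))))))))))))))))))))))))))))))))))))))) (by decide +kernel)
theorem s880 : Valid A [1071, 917, 713, 968, 993, 986, 939, 932, 5858, 2787, 944, 995, 2219, 2778] := rup _
  (.cons (t2 7 10 49) (.cons a190 (.cons (t2 7 46 49) (.cons (t1 7 10 36) (.cons a503 (.cons (t2 7 13 49) (.cons (t1 7 10 13) (.cons (t2 7 10 21) (.cons a208 (.cons (t3 5 7 49) (.cons a210 (.cons a400 (.cons a402 (.cons s191 (.cons (t1 10 21 23) (.cons (t3 10 23 49) (.cons (t2 7 8 10) (.cons a194 (.cons s74 (.cons (t2 8 23 24) (.cons s458 (.cons s568 (.cons s7 (.cons (t1 17 21 29) (.cons (t2 21 29 49) (.cons (t1 10 21 29) (.cons a505 (.cons (t1 0 17 21) (.cons (t3 0 21 49) (.cons a140 (.cons a147 (.cons (t2 7 22 29) (.cons (t3 22 29 49) (.cons (t1 4 17 29) (.cons s630 (.cons a491 (.cons s354 (.cons a509 (.cons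 a496 (.cons (t1 18 22 23) (.cons (t2 22 23 45) (.cons (t1 0 22 45) (.cons (t2 0 4 45) (.cons (t1 23 45 51) (.cons s301 (.cons s177 (.cons (t3 19 22 45) (.cons (t3 5 23 45) (.cons (t2 5 36 45) (.cons a341 (.cons s130 (.cons (t2 5 23 36) (.cons a380 (.cons (t3 4 36 45) (.cons (t1 19 21 49) (.cons a477 (.cons s565 (.cons (t3 4 13 45) (.cons (t2 7 11 21) (.cons a34 (.cons a35 (.cons (t2 10 20 21) (.cons s363 (.cons a18 (.cons (t1 13 20 45) .nil))))))))))))))))))))))))))))))))))))))))))))))))))))))))))))))))) (by decide +kernel)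
theorem s881 : Valid A [43, 699, 2234, 1379, 713, 939, 5858, 2787, 2275, 995] := rup _
  (.cons a208 (.cons (t3 5 7 49) (.cons (t3 0 7 21) (.cons (t1 0 21 49) (.cons a384 (.cons a492 (.cons (t3 7 11 49) (.cons (t2 17 22 49) (.cons s354 (.cons a215 (.cons a138 (.cons (t2 5 11 36) (.cons (t2 5 11 29) (.cons (t2 22 29 45) (.cons a381 (.cons (t1 11 29 45) .nil)))))))))))))))) (by decide +kernel)
theorem s882 : Valid A [445, 917, 3170, 427, 419] := rup _
  (.cons a63 (.cons (t2 3 17 21) (.cons s879 (.cons (t2 7 24 49) (.cons s826 (.cons (t1 3 17 24) (.cons a403 (.cons (t2 17 21 49) (.cons a62 (.cons (t1 3 17 45) (.cons (t3 17 45 49) (.cons a514 (.cons (t2 7 18 49) (.cons (t3 7 17 49) (.cons (t1 7 17 21) (.cons (t2 7 17 45) (.cons s57 (.cons a168 (.cons s90 (.cons s145 (.cons s710 (.cons a44 (.cons (t2 3 48 49) (.cons a480 (.cons (t2 7 36 49) (.cons a210 (.cons (t2 21 36 49) (.cons a203 (.cons s880 (.cons (t2 7 10 49) (.cons a190 (.cons (t2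 21 46 49) (.cons a64 (.cons (t1 3 7 10) (.cons (t2 3 36 49) (.cons a208 (.cons (t3 5 7 49) (.cons a307 (.cons (t1 3 21 24) (.cons a50 (.cons (t2 3 21 30) (.cons (t3 3 24 30) (.cons (t2 3 10 30) (.cons s136 (.cons (t1 3 17 39) (.cons a223 (.cons a393 (.cons a394 (.cons (t3 30 33 48) (.cons (t3 10 33 49) (.cons (t2 3 10 33) (.cons s176 (.cons a310 (.cons a52 (.cons (t3 24 33 34) (.cons (t3 5 33 36) (.cons (t1 24 33 36) (.cons (t3 6 24 33) (.cons (t3 5 24 33) (.cons a178 (.cons a301 (.cons s228 (.cons (t1 24 36 39) (.cons (t2 7 21 23) (.cons s864 (.cons (t2 7 8 21) (.cons a143 (.cons a134 (.cons (t2 17 21 29) (.cons s10 (.cons (t1 5 24 29) (.cons (t3 0 24 36) (.cons (t1 0 5 24) (.cons s881 (.cons a505 (.cons (t1 0 7 21) (.cons (t1 0 23 36) (.cons s226 (.cons s142 (.cons (t2 7 11 17) (.cons (t1 7 11 23) (.cons s297 (.cons (t1 7 11 45) (.cons (t2 7 11 21) (.cons (t2 18 36 39) (.cons (t3 23 36 45) (.cons a35 (.cons s739 (.cons s363 (.cons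 (t2 7 19 21) (.cons s407 .nil))))))))))))))))))))))))))))))))))))))))))))))))))))))))))))))))))))))))))))))))))))))))))) (by decide +kernel)
theorem s883 : Valid A [963, 913, 2353, 3554, 2402, 3170, 995] := rup _
  (.cons a430 (.cons (t1 7 8 50) (.cons a432 (.cons a110 (.cons a447 (.cons (t3 7 15 49) (.cons (t1 7 8 15) (.cons (t1 7 8 41) (.cons a113 (.cons a105 (.cons s219 (.cons (t2 15 27 50) (.cons (t2 7 39 49) (.cons a316 (.cons s482 (.cons (t2 18 24 50) .nil)))))))))))))))) (by decide +kernel)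
theorem s884 : Valid A [917, 3170, 427, 419] := rup _
  (.cons (t2 3 17 21) (.cons s879 (.cons s826 (.cons (t1 3 17 24) (.cons a403 (.cons (t3 7 17 49) (.cons (t1 7 17 21) (.cons a210 (.cons (t2 17 21 49) (.cons s710 (.cons s57 (.cons a168 (.cons s90 (.cons a44 (.cons (t2 3 48 49) (.cons a480 (.cons (t2 21 36 49) (.cons a203 (.cons (t2 7 36 49) (.cons (t2 7 24 49) (.cons s145 (.cons a62 (.cons (t1 3 17 45) (.cons (t2 7 17 45) (.cons a39 (.cons (t2 7 17 27) (.cons a514 (.cons (t2 7 18 49) (.cons a432 (.cons (t2 3 49 50) (.cons a64 (.cons (t3 17 27 49) (.cons (t3 17 45 49) (.cons (t1 3 21 24) (.cons a63 (.cons s38 (.cons (t2 7 10 49) (.cons (t1 3 7 10) (.cons a190 (.cons (t2 21 46 49) (.cons s880 (.cons s882 (.cons (t3 3 30 49) (.cons (t1 3 10 30) (.cons a468 (.cons s390 (.cons a162 (.cons s76 (.cons (t3 18 24 30) (.cons (t1 18 30 34) (.cons (t2 24 30 46) (.cons s228 (.cons (t2 7 21 23) (.cons s864 (.cons (t2 7 8 21) (.cons a143 (.cons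 a134 (.cons (t2 24 29 34) (.cons s883 (.cons (t1 7 10 33) (.cons s793 (.cons s370 (.cons (t3 6 24 34) (.cons (t3 6 18 34) (.cons (t3 6 29 34) (.cons (t3 24 33 34) (.cons (t3 29 33 34) (.cons a301 (.cons a302 (.cons (t1 6 18 39) (.cons (t1 6 29 39) (.cons (t1 29 33 39) (.cons (t1 24 30 39) (.cons s137 (.cons a48 (.cons (t2 18 24 50) (.cons (t2 3 39 49) (.cons a314 (.cons a443 (.cons s794 (.cons (t2 10 41 49) .nil))))))))))))))))))))))))))))))))))))))))))))))))))))))))))))))))))))))))))))))))) (by decide +kernel)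
theorem s885 : Valid A [445, 912, 3042, 2734, 1044, 1326, 1318, 404, 986, 939, 452, 2787, 3141, 944, 2219, 427] := rup _
  (.cons a63 (.cons (t2 3 21 30) (.cons s844 (.cons a223 (.cons (t3 10 24 34) (.cons (t2 7 21 52) (.cons (t3 10 23 24) (.cons (t3 8 10 24) (.cons (t3 10 19 24) (.cons s458 (.cons s568 (.cons a136 (.cons s7 (.cons (t1 17 21 29) (.cons (t2 21 29 49) (.cons (t2 21 29 30) (.cons s2 (.cons a505 (.cons (t3 0 21 49) (.cons a140 (.cons (t2 0 23 24) (.cons (t2 7 22 29) (.cons (t3 22 29 49) (.cons (t3 22 29 30) (.cons a226 (.cons s630 (.cons a491 (.cons (t1 0 22 52) (.cons a497 (.cons (t2 22 23 52) (.cons (t3 0 24 52) (.cons a472 (.cons a239 (.cons a466 (.cons (t2 0 11 23) (.cons (t2 29 30 32) (.cons a383 (.cons a149 (.cons (t1 7 11 45) (.cons (t2 7 11 21) (.cons (t1 24 32 52) (.cons (t3 19 24 32) (.cons a35 (.cons a230 (.cons s363 (.cons a17 (.cons (t2 19 21 52) (.cons (t3 19 20 45) (.cons a341 .nil)))))))))))))))))))))))))))))))))))))))))))))))))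 (by decide +kernel)
theorem s886 : Valid A [989, 2365, 444, 1122, 1120, 3040, 1044, 713, 968, 993, 950, 932, 399, 931, 3170, 995] := rup _
  (.cons (t2 7 23 48) (.cons s57 (.cons a168 (.cons (t2 7 24 49) (.cons (t3 7 24 46) (.cons (t2 7 46 48) (.cons (t3 7 36 46) (.cons (t3 7 23 46) (.cons s161 (.cons a177 (.cons a193 (.cons (t1 8 24 34) (.cons (t1 8 24 36) (.cons (t3 5 24 36) (.cons (t1 23 24 34) (.cons (t1 23 24 36) (.cons (t3 5 23 24) (.cons (t3 8 10 34) (.cons (t3 5 8 36) (.cons a484 (.cons (t2 5 18 23) (.cons (t1 5 8 18) (.cons (t3 18 23 34) (.cons (t3 8 18 30) (.cons (t1 18 30 34) (.cons a162 (.cons (t3 10 18 30) (.cons a350 (.cons a345 (.cons s43 (.cons (t2 7 17 19) (.cons (t2 7 19 49) (.cons (t1 7 19 27) (.cons (t1 3 7 19) (.cons a335 (.cons a154 (.cons (t3 19 39 49) (.cons (t2 7 19 39) (.cons (t2 3 19 39) (.cons (t3 24 27 34) (.cons (t3 8 27 34) (.cons a48 (.cons a315 (.cons (t2 8 27 50) (.cons (t3 8 30 39) (.cons s219 (.cons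 (t3 8 39 41) (.cons (t1 8 41 49) (.cons a442 .nil))))))))))))))))))))))))))))))))))))))))))))))))) (by decide +kernel)
theorem s887 : Valid A [1071, 1318, 404, 1378, 2785, 6243, 993, 986, 950, 399, 2787, 931, 2402, 483, 3170, 995, 2219, 427] := rup _
  (.cons (t1 7 17 21) (.cons a210 (.cons a480 (.cons (t2 21 36 49) (.cons a203 (.cons (t2 7 36 49) (.cons (t2 7 18 49) (.cons s57 (.cons (t2 3 34 49) (.cons a168 (.cons (t2 7 24 49) (.cons a400 (.cons a402 (.cons a521 (.cons a522 (.cons (t2 21 23 48) (.cons (t3 23 48 49) (.cons (t3 8 48 49) (.cons (t2 7 8 48) (.cons s885 (.cons (t3 3 30 49) (.cons a468 (.cons s886 (.cons (t3 7 46 49) (.cons s191 (.cons a189 (.cons (t3 10 23 46) .nil))))))))))))))))))))))))))) (by decide +kernel)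
theorem s888 : Valid A [989, 1093, 2377, 3535, 912, 2480, 3148, 2500, 2400, 864, 993, 950, 932, 3141, 944, 996] := rup _
  (.cons s78 (.cons (t3 7 24 46) (.cons (t2 7 46 48) (.cons a177 (.cons (t1 24 36 38) (.cons (t3 19 24 36) (.cons (t2 18 36 38) (.cons (t2 18 19 36) (.cons a345 (.cons (t2 7 19 46) (.cons (t1 7 19 27) (.cons a175 (.cons a154 (.cons (t3 38 46 48) (.cons (t3 24 27 34) (.cons (t3 8 27 34) (.cons s166 (.cons a315 (.cons (t1 24 27 39) (.cons (t2 8 27 50) (.cons (t2 7 9 48) (.cons a261 (.cons a301 (.cons s431 (.cons (t3 7 9 33) (.cons (t1 6 9 24) (.cons (t3 7 24 33) (.cons a250 .nil)))))))))))))))))))))))))))) (by decide +kernel)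
theorem s889 : Valid A [912, 2254, 974, 1349, 1070, 916, 968, 2400, 864, 993, 950, 931, 2212, 2402, 3141, 944, 995] := rup _
  (.cons (t2 7 18 49) (.cons s193 (.cons (t3 10 24 34) (.cons (t3 10 19 24) (.cons a160 (.cons (t2 24 34 38) (.cons (t3 10 19 34) (.cons a161 (.cons a432 (.cons a430 (.cons s864 (.cons (t1 7 23 27) (.cons (t3 7 18 23) (.cons (t3 7 10 23) (.cons (t1 7 23 39) (.cons (t1 7 23 36) (.cons a325 (.cons a399 (.cons a483 (.cons (t1 8 10 34) (.cons (t2 8 10 19) (.cons (t2 8 10 38) (.cons s888 (.cons a185 (.cons s872 (.cons (t3 8 19 46) (.cons (t3 8 38 46) (.cons s63 (.cons a173 (.cons a349 (.cons (t1 18 19 38) (.cons a347 (.cons (t3 17 18 19) (.cons (t1 18 38 49) (.cons s739 (.cons a333 (.cons a329 (.cons a436 (.cons (t2 19 39 50) (.cons (t1 19 38 50) .nil)))))))))))))))))))))))))))))))))))))))) (by decide +kernel)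
theorem s890 : Valid A [445, 1070, 916, 968, 2400, 864, 993, 452, 399, 931, 2212, 2402, 3141, 944, 995, 419] := rup _
  (.cons (t2 3 7 10) (.cons (t3 7 10 49) (.cons a39 (.cons (t2 7 17 27) (.cons a50 (.cons s844 (.cons (t1 3 7 39) (.cons (t1 3 17 39) (.cons (t3 10 24 34) (.cons s889 (.cons a186 (.cons (t1 7 8 10) (.cons (t3 7 46 49) (.cons a399 (.cons a189 (.cons (t2 10 23 46) (.cons (t2 10 24 46) (.cons a195 .nil)))))))))))))))))) (by decide +kernel)
theorem s891 : Valid A [4425, 2377, 1045, 912, 2365, 956, 444, 1376, 916, 484, 3141, 995] := rup _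
  (.cons (t2 18 30 36) (.cons a430 (.cons a307 (.cons (t3 18 34 36) (.cons (t3 30 34 36) (.cons a164 (.cons a165 (.cons s135 (.cons (t2 8 10 34) (.cons s183 (.cons s370 (.cons (t1 8 18 34) (.cons (t3 7 33 49) (.cons s431 (.cons (t3 24 33 34) (.cons (t3 18 33 34) (.cons a310 (.cons (t3 8 18 50) (.cons (t3 6 18 33) (.cons (t3 6 24 33) (.cons s137 (.cons (t1 6 18 39) (.cons a302 .nil))))))))))))))))))))))) (by decide +kernel)
theorem s892 : Valid A [912, 2365, 956, 444, 1070, 916, 4706, 993, 484, 2402, 3170, 995] := rup _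
  (.cons s76 (.cons (t3 7 10 48) (.cons (t2 7 18 49) (.cons s193 (.cons (t3 7 10 49) (.cons (t2 7 36 49) (.cons s57 (.cons a168 (.cons a432 (.cons a430 (.cons (t3 7 8 49) (.cons s864 (.cons (t3 7 18 23) (.cons (t3 7 10 23) (.cons (t1 7 23 36) (.cons a399 (.cons a483 (.cons s78 (.cons s891 (.cons s127 (.cons a177 (.cons (t1 24 46 49) (.cons (t2 24 34 46) (.cons a189 (.cons s690 (.cons s63 (.cons (t3 10 34 46) (.cons (t3 10 19 46) (.cons (t2 10 30 46) (.cons (t3 8 34 46) (.cons a349 (.cons a160 (.cons s183 (.cons (t2 8 34 38) (.cons (t1 18 19 49) (.cons (t3 34 38 46) (.cons s431 (.cons (t3 8 38 50) (.cons a173 (.cons a329 (.cons (t1 19 38 49) .nil))))))))))))))))))))))))))))))))))))))))) (by decide +kernel)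
theorem s893 : Valid A [3170, 427, 419] := rup _
  (.cons s879 (.cons s57 (.cons a432 (.cons a307 (.cons s826 (.cons (t1 3 17 24) (.cons a62 (.cons (t1 3 17 45) (.cons (t2 3 17 21) (.cons a39 (.cons a403 (.cons (t2 7 24 49) (.cons s710 (.cons a168 (.cons a514 (.cons a515 (.cons (t3 7 17 49) (.cons (t2 17 21 49) (.cons a64 (.cons (t2 3 18 49) (.cons (t2 3 6 49) (.cons (t2 3 49 50) (.cons (t2 3 34 49) (.cons s90 (.cons (t2 7 18 49) (.cons (t2 7 17 27) (.cons (t2 7 17 45) (.cons a44 (.cons s145 (.cons (t2 3 48 49) (.cons (t2 3 21 48) (.cons (t1 3 48 50) (.cons (t3 3 6 48) (.cons (t3 3 18 48) (.cons a480 (.cons (t2 7 36 49) (.cons s884 (.cons (t3 7 10 49) (.cons (t2 3 7 10) (.cons s193 (.cons (t3 7 10 48) (.cons s887 (.cons s890 (.cons (t1 3 7 30) (.cons (t3 3 30 49) (.cons a468 (.cons s76 (.cons s892 (.cons a186 (.cons (t1 7 8 10) (.cons (t3 7 46 49) (.cons a399 (.cons a189 (.cons (t2 10 23 46) (.cons s63 (.cons (t2 10 30 46) (.cons a194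 (.cons s183 (.cons (t3 23 24 34) (.cons (t3 7 33 49) (.cons (t3 7 33 48) (.cons (t2 10 23 34) (.cons a310 (.cons s176 (.cons a162 (.cons (t1 6 33 34) (.cons (t3 24 33 34) (.cons (t3 24 30 34) (.cons (t3 6 24 34) (.cons a251 (.cons (t3 18 24 30) (.cons a301 (.cons (t2 6 9 24) (.cons (t2 18 24 39) (.cons a261 (.cons s137 (.cons (t2 9 48 50) (.cons (t2 9 10 48) (.cons (t3 10 18 50) (.cons a246 .nil)))))))))))))))))))))))))))))))))))))))))))))))))))))))))))))))))))))))))))))))) (by decide +kernel)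
theorem s894 : Valid A [445, 428, 47, 2760, 3042, 917, 3171, 995, 432, 427] := rup _
  (.cons (t2 7 10 49) (.cons (t3 7 24 49) (.cons a65 (.cons (t3 3 7 10) (.cons s38 (.cons (t1 3 21 24) (.cons (t2 7 21 24) (.cons a63 (.cons (t2 3 21 30) (.cons s844 (.cons (t3 3 22 30) (.cons s18 (.cons a44 (.cons (t2 24 48 49) (.cons a480 (.cons (t2 7 36 49) (.cons s201 (.cons s26 (.cons (t2 5 21 45) (.cons (t1 21 30 51) (.cons s177 (.cons a472 (.cons a497 (.cons (t3 22 45 51) (.cons s630 (.cons a398 (.cons (t3 10 22 49) .nil))))))))))))))))))))))))))) (by decide +kernel)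
theorem s895 : Valid A [932, 2348, 940, 2236, 428, 1442, 1450, 2220, 456, 2248, 2760, 1060, 2350, 912, 942, 3171, 995, 2736] := rup _
  (.cons (t3 7 24 49) (.cons a65 (.cons a404 (.cons a432 (.cons a430 (.cons (t3 7 18 49) (.cons s301 (.cons a513 (.cons (t1 17 18 30) (.cons (t1 17 18 36) (.cons (t3 11 17 18) (.cons a468 (.cons a483 (.cons (t3 7 23 36) (.cons s494 (.cons s250 (.cons s431 (.cons (t3 11 30 49) (.cons (t3 8 18 50) (.cons a373 (.cons s482 (.cons a375 (.cons s476 (.cons (t1 16 17 39) (.cons (t2 16 17 22) (.cons a334 (.cons (t2 16 19 39) (.cons a337 .nil)))))))))))))))))))))))))))) (by decide +kernel)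
theorem s896 : Valid A [987, 2236, 444, 428, 1442, 1450, 2220, 47, 3037, 912, 3042, 942, 917, 3171, 995, 2736, 2742, 2219, 427] := rup _
  (.cons (t1 3 21 30) (.cons (t2 7 10 49) (.cons a190 (.cons (t2 24 46 49) (.cons (t2 7 46 49) (.cons a185 (.cons a183 (.cons (t1 17 21 46) (.cons s340 (.cons (t2 3 21 36) (.cons (t2 17 21 36) (.cons s60 (.cons s74 (.cons s38 (.cons (t3 7 24 49) (.cons a65 (.cons a432 (.cons a430 (.cons a63 (.cons (t2 7 10 45) (.cons (t2 7 45 49) (.cons a396 (.cons (t2 7 22 45) (.cons (t3 22 45 49) (.cons s630 (.cons (t1 18 22 23) (.cons s895 (.cons a346 (.cons a348 (.cons (t2 7 18 49) (.cons (t3 3 7 18) (.cons (t1 7 18 50) (.cons (t3 7 19 45) (.cons a469 (.cons a471 (.cons a341 (.cons (t2 10 30 49) (.cons s139 (.cons (t3 17 19 21) (.cons (t3 3 19 21) (.cons (t2 19 21 46) (.cons (t2 19 21 27) (.cons (t2 19 21 30) (.cons a162 (.cons a433 (.cons a335 (.cons s443 (.cons (t3 19 30 34) (.cons (t3 19 39 50) (.cons (t2 3 19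 39) (.cons (t3 18 38 49) (.cons a154 (.cons a48 (.cons a329 (.cons (t3 27 30 34) (.cons (t1 27 30 39) (.cons (t1 19 38 50) (.cons (t3 38 39 50) (.cons a328 (.cons a173 (.cons (t1 23 38 39) (.cons (t3 23 38 46) .nil)))))))))))))))))))))))))))))))))))))))))))))))))))))))))))))) (by decide +kernel)
theorem s897 : Valid A [932, 934, 444, 456, 2248, 1060, 2350, 912, 942, 427, 419] := rup _
  (.cons (t1 3 17 30) (.cons s879 (.cons s893 (.cons (t3 7 24 49) (.cons a65 (.cons a404 (.cons a432 (.cons a430 (.cons (t3 7 18 49) (.cons a345 (.cons a513 (.cons (t1 17 18 19) (.cons (t1 17 18 30) (.cons (t1 17 18 36) (.cons a335 (.cons (t1 3 17 19) (.cons a468 (.cons a483 (.cons (t2 3 19 39) (.cons (t3 7 23 36) (.cons a48 (.cons s494 (.cons (t2 30 39 49) (.cons s431 (.cons s482 (.cons (t3 8 18 50) .nil)))))))))))))))))))))))))) (by decide +kernel)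
theorem s898 : Valid A [969, 452, 1340, 456, 917, 995] := rup _
  (.cons s38 (.cons (t2 7 36 49) (.cons (t2 7 10 36) (.cons a481 (.cons (t2 10 36 48) (.cons s135 (.cons (t3 10 33 36) (.cons s370 (.cons a52 (.cons (t1 3 33 34) .nil)))))))))) (by decide +kernel)
theorem s899 : Valid A [1071, 917, 427, 419] := rup _
  (.cons s893 (.cons s879 (.cons (t2 7 10 49) (.cons a190 (.cons (t2 24 46 49) (.cons (t2 7 46 49) (.cons s826 (.cons (t1 3 21 24) (.cons (t3 7 24 49) (.cons (t2 7 21 24) (.cons (t1 7 10 21) (.cons (t2 7 10 24) (.cons s38 (.cons a65 (.cons a432 (.cons (t2 24 49 50) (.cons a307 (.cons (t1 6 24 49) (.cons a430 (.cons a38 (.cons (t1 3 21 27) (.cons (t2 3 17 21) (.cons a63 (.cons a400 (.cons a402 (.cons (t2 7 10 23) (.cons (t3 10 23 49) (.cons (t2 7 8 10) (.cons (t3 8 10 24) (.cons s143 (.cons a185 (.cons s74 (.cons a182 (.cons a183 (.cons s60 (.cons (t3 8 17 21) (.cons (t1 17 21 46) (.cons (t3 8 21 23) (.cons s202 (.cons s340 (.cons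 s294 (.cons s7 (.cons (t1 3 21 29) (.cons (t1 17 21 29) (.cons (t3 7 21 29) (.cons (t2 17 21 36) (.cons (t2 3 21 36) (.cons s474 (.cons a505 (.cons a140 (.cons a141 (.cons (t1 11 21 29) (.cons (t1 11 17 29) (.cons (t2 3 22 29) (.cons s894 (.cons (t1 3 17 30) (.cons s896 (.cons (t1 7 10 45) (.cons s118 (.cons (t2 7 10 19) (.cons s897 (.cons (t2 7 18 49) (.cons (t3 3 7 18) (.cons (t1 7 18 50) (.cons a469 (.cons a471 (.cons (t2 10 30 49) (.cons s139 (.cons a162 (.cons a433 (.cons (t3 3 30 34) (.cons s163 (.cons s898 (.cons s494 (.cons (t3 7 33 49) (.cons s431 (.cons a310 (.cons a108 (.cons s579 (.cons (t2 6 33 50) (.cons (t2 24 27 49) (.cons (t1 15 33 50) (.cons a114 (.cons a109 (.cons (t2 7 15 49) .nil))))))))))))))))))))))))))))))))))))))))))))))))))))))))))))))))))))))))))))))))))))) (by decide +kernel)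

end Pool.Agent.Helper50.Canon.CD
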