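import Mathlib
import Pool.Agent.Helper50.Canon.CD.C6

set_option autoImplicit false

namespace Pool.Agent.Helper50.Canon.CD

theorem s900 : Valid A [912, 445, 917, 427, 419] := rup _
  (.cons s879 (.cons (t2 7 10 49) (.cons a190 (.cons s893 (.cons s826 (.cons s38 (.cons (t3 7 24 49) (.cons a65 (.cons (t3 3 7 10) (.cons s844 (.cons s18 (.cons a44 (.cons (t2 24 48 49) (.cons a480 (.cons s140 (.cons s78 (.cons (t2 7 36 49) (.cons (t1 7 24 48) (.cons a50 (.cons (t1 3 34 39) (.cons (t2 3 21 34) (.cons (t2 3 21 30) (.cons a223 (.cons (t1 3 17 39) (.cons (t3 3 10 30) (.cons s899 (.cons (t2 7 46 49) (.cons (t1 3 21 24) (.cons (t2 7 21 24) (.cons a307 (.cons (t1 6 24 49) (.cons (t3 21 24 49) (.cons (t2 3 17 21) (.cons (t3 7 8 24) (.cons s864 (.cons a185 (.cons s298 (.cons (t2 7 23 24) (.cons (t3 7 21 23) (.cons (t2 7 10 23) (.cons (t1 7 23 36) (.cons a182 (.cons a183 (.cons (t3 8 17 36) (.cons a483 (.cons (t3 8 17 21) (.cons (t2 3 17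 36) (.cons (t1 17 21 36) (.cons (t3 7 18 23) (.cons s202 (.cons s238 (.cons s494 (.cons s680 (.cons s201 (.cons a346 (.cons a348 (.cons (t2 21 29 34) (.cons (t3 0 7 23) (.cons s793 (.cons (t1 5 21 29) (.cons (t2 5 21 52) (.cons (t3 7 19 24) (.cons a384 (.cons (t2 6 34 39) (.cons (t3 7 11 49) (.cons (t3 7 11 23) (.cons a300 (.cons a215 (.cons (t3 19 24 39) (.cons (t2 5 11 29) (.cons (t1 5 11 52) (.cons a333 (.cons a132 (.cons a238 (.cons (t1 17 19 46) (.cons (t1 29 34 38) (.cons (t1 10 23 52) (.cons (t1 18 23 52) (.cons s443 (.cons a158 (.cons (t2 10 38 52) (.cons (t3 18 38 52) .nil)))))))))))))))))))))))))))))))))))))))))))))))))))))))))))))))))))))))))))))))))) (by decide +kernel)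
theorem s901 : Valid A [987, 5349, 3154, 5346, 46, 3535, 4686, 4698, 2761, 3528, 457, 3017, 942, 913, 4706, 2792, 917, 3171, 995, 2736, 2778] := rup _
  (.cons (t2 7 10 49) (.cons (t3 7 24 49) (.cons (t2 7 21 24) (.cons a204 (.cons a207 (.cons (t1 5 7 49) (.cons a216 (.cons (t2 10 11 49) (.cons (t2 7 11 49) (.cons s22 (.cons (t1 7 24 51) (.cons a190 (.cons a404 (.cons (t2 7 17 49) (.cons (t1 7 8 17) (.cons a188 (.cons a181 (.cons s138 (.cons (t3 7 18 49) (.cons a346 (.cons a489 (.cons (t3 18 24 49) (.cons s140 (.cons (t3 17 36 46) (.cons (t2 7 8 49) (.cons (t1 7 8 21) (.cons (t2 7 8 24) (.cons (t2 7 36 49) (.cons a432 (.cons (t2 24 49 50) (.cons a30 (.cons (t2 7 10 45) (.cons (t2 7 24 45) (.cons (t2 7 45 49) (.cons (t2 7 8 45) (.cons (t3 7 19 45) (.cons (t3 7 11 45) (.cons (t1 5 7 45) (.cons (t1 20 24 45) (.cons a396 (.cons a357 (.cons a341 (.cons a379 (.cons s289 (.cons a22 (.cons (t1 22 24 45) (.cons (t3 22 45 49) (.cons (t2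 10 42 45) (.cons (t3 42 45 49) (.cons (t2 19 21 52) (.cons (t1 19 21 36) (.cons (t3 11 23 36) (.cons (t3 11 21 36) (.cons (t3 11 19 36) (.cons (t2 11 28 36) (.cons (t3 36 39 41) (.cons (t1 36 41 50) (.cons s784 (.cons a34 (.cons a35 (.cons (t1 11 19 20) (.cons a387 (.cons a442 (.cons (t3 27 36 50) (.cons s2 (.cons s597 (.cons (t3 20 21 51) (.cons a14 (.cons (t2 10 28 49) (.cons (t1 10 28 42) (.cons (t1 27 39 49) (.cons a313 (.cons (t1 7 24 29) (.cons (t1 21 22 52) (.cons (t3 22 49 52) (.cons s285 (.cons (t2 20 51 52) (.cons (t3 27 28 49) (.cons (t2 27 28 42) (.cons a134 (.cons (t1 24 27 29) (.cons (t3 21 22 29) (.cons a234 (.cons (t3 22 29 51) (.cons (t3 29 51 52) (.cons a126 (.cons (t1 29 42 52) .nil))))))))))))))))))))))))))))))))))))))))))))))))))))))))))))))))))))))))))))))))))))))) (by decide +kernel)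
theorem s902 : Valid A [950, 2907, 5863, 851, 5349, 3154, 5346, 3535, 2998, 431, 457, 3017, 2992, 462, 427, 419] := rup _
  (.cons s879 (.cons a432 (.cons s893 (.cons (t2 24 49 50) (.cons (t3 7 24 49) (.cons a63 (.cons a38 (.cons (t1 7 24 27) (.cons (t3 7 27 49) (.cons a313 (.cons (t1 27 39 49) (.cons (t3 3 27 50) (.cons (t3 23 27 50) (.cons (t3 27 41 50) (.cons a442 (.cons (t1 3 41 50) (.cons (t1 23 41 50) (.cons s274 .nil)))))))))))))))))) (by decide +kernel)
theorem s903 : Valid A [445, 917, 427, 419] := rup _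
  (.cons s899 (.cons s879 (.cons (t2 7 10 49) (.cons a190 (.cons s893 (.cons (t3 7 24 49) (.cons a65 (.cons (t3 3 7 10) (.cons (t2 7 10 24) (.cons s38 (.cons s826 (.cons (t1 3 21 24) (.cons (t2 7 21 24) (.cons a404 (.cons (t2 7 17 49) (.cons a430 (.cons a305 (.cons a62 (.cons (t1 3 17 45) (.cons (t2 3 17 21) (.cons a63 (.cons a39 (.cons a38 (.cons a50 (.cons (t1 3 30 45) (.cons (t3 3 7 30) (.cons (t2 3 21 30) (.cons s844 (.cons (t1 3 17 39) (.cons a223 (.cons s18 (.cons (t2 3 17 34) (.cons (t3 3 27 34) (.cons (t2 3 21 34) (.cons a44 (.cons (t2 24 48 49) (.cons (t1 7 24 48) (.cons (t1 10 24 48) (.cons a480 (.cons a482 (.cons (t2 10 36 48) (.cons s140 (.cons s900 (.cons a188 (.cons (t2 7 8 24) (.cons (t1 7 8 17) (.cons (t2 7 8 23) (.cons (t2 7 8 10) (.cons (t3 6 7 8) (.cons (t1 7 8 50) (.cons a181 (.cons (t3 8 23 24) (.cons s326 (.cons (t1 3 17 46) (.cons (t3 17 27 46) (.cons (t2 17 21 46) (.cons (t3 17 45 46) (.cons (t2 17 34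 46) (.cons s138 (.cons (t3 17 36 46) (.cons (t3 17 23 46) (.cons (t3 23 36 46) (.cons (t3 3 36 46) (.cons (t3 3 23 46) (.cons (t2 23 27 46) (.cons (t1 27 36 46) (.cons (t3 21 36 46) (.cons (t3 21 23 46) (.cons (t2 36 45 46) (.cons (t3 7 18 49) (.cons (t1 17 36 39) (.cons (t1 17 23 39) (.cons a54 (.cons a325 (.cons a204 (.cons a506 (.cons a507 (.cons a346 (.cons (t3 3 33 34) (.cons a207 (.cons s176 (.cons (t1 5 7 10) (.cons (t1 5 7 49) (.cons (t3 7 33 48) (.cons (t1 33 48 49) (.cons a216 (.cons a110 (.cons a447 (.cons a448 (.cons s221 (.cons (t3 33 41 49) (.cons (t2 7 11 49) (.cons (t2 10 11 49) (.cons (t3 7 15 24) (.cons (t1 7 8 15) (.cons (t1 7 24 41) (.cons (t1 7 8 41) (.cons (t1 7 18 41) (.cons (t3 6 8 9) (.cons a105 (.cons a426 (.cons s214 (.cons (t3 9 15 50) (.cons (t3 9 41 50) (.cons (t1 6 9 15) (.cons (t1 6 9 41) (.cons s901 (.cons s199 (.cons (t1 7 10 45) (.cons (t1 7 8 45) (.cons s177 (.cons s583 (.cons (t3 30 45 51)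 (.cons s902 (.cons a318 (.cons (t2 7 10 27) (.cons (t1 7 27 39) (.cons (t3 7 19 27) (.cons (t3 7 14 24) (.cons (t3 7 14 18) (.cons a122 (.cons a154 (.cons a92 (.cons a523 (.cons (t1 7 10 37) (.cons (t1 19 34 46) (.cons (t3 19 21 34) (.cons (t3 6 14 15) (.cons a175 (.cons (t2 34 38 46) (.cons (t2 23 38 46) (.cons a158 (.cons (t1 8 10 38) (.cons (t1 5 10 38) (.cons (t3 10 11 38) (.cons (t2 10 27 38) (.cons (t3 10 37 38) (.cons a199 (.cons a123 (.cons (t2 8 38 42) (.cons (t2 27 38 42) (.cons (t1 21 23 37) (.cons a356 (.cons a120 (.cons (t1 21 42 45) (.cons (t1 42 45 51) (.cons (t3 22 42 45) (.cons (t1 21 30 35) (.cons a365 (.cons (t3 32 42 51) (.cons a464 (.cons (t3 7 30 32) (.cons (t1 21 30 32) (.cons (t1 30 32 35) (.cons a412 (.cons (t3 7 11 35) (.cons (t3 6 7 35) (.cons (t3 7 14 35) (.cons a298 (.cons a407 (.cons (t2 6 11 14) (.cons (t3 3 14 21) (.cons (t3 14 19 21) (.cons (t2 14 21 41) (.cons (t1 0 14 21) (.cons (t2 14 21 42)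 (.cons (t2 11 14 42) (.cons (t3 3 11 14) (.cons (t1 3 14 15) (.cons (t2 14 15 19) (.cons (t2 14 19 41) (.cons (t2 21 32 41) (.cons (t1 0 11 14) (.cons a42 (.cons (t3 3 12 15) (.cons (t3 12 15 19) (.cons (t3 12 19 41) (.cons s278 (.cons a383 (.cons (t1 7 8 12) (.cons (t2 8 12 38) (.cons s2 (.cons (t1 7 12 29) (.cons (t3 12 29 38) (.cons (t1 7 27 29) (.cons a130 (.cons a126 (.cons (t1 11 29 42) .nil)))))))))))))))))))))))))))))))))))))))))))))))))))))))))))))))))))))))))))))))))))))))))))))))))))))))))))))))))))))))))))))))))))))))))))))))))))))))))))))))))))))))))))))))))))))))))))) (by decide +kernel)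
theorem s904 : Valid A [6242, 400, 3043, 1070, 3171, 432] := rup _
  (.cons (t2 24 48 49) (.cons (t2 23 48 49) (.cons a44 (.cons a520 (.cons (t3 3 8 48) .nil))))) (by decide +kernel)
theorem s905 : Valid A [912, 917, 427, 419] := rup _
  (.cons s903 (.cons (t1 3 21 30) (.cons s899 (.cons s893 (.cons s879 (.cons (t2 7 10 49) (.cons a190 (.cons (t2 24 46 49) (.cons (t2 7 46 49) (.cons s826 (.cons (t1 3 21 24) (.cons (t3 7 24 49) (.cons (t2 7 21 24) (.cons (t1 7 10 21) (.cons (t2 7 10 24) (.cons (t2 3 17 21) (.cons (t3 7 8 24) (.cons (t3 7 8 10) (.cons a185 (.cons a399 (.cons a182 (.cons a183 (.cons (t1 7 10 23) (.cons (t3 10 21 23) (.cons (t2 10 23 49) (.cons (t2 10 23 24) (.cons (t2 3 8 17) (.cons (t3 8 17 21) (.cons (t1 17 21 46) (.cons s238 (.cons s340 (.cons (t3 0 7 23) (.cons a384 (.cons (t3 7 11 49) (.cons (t3 7 11 23) (.cons (t1 7 10 11) (.cons s904 (.cons a480 (.cons (t2 7 36 49) (.cons (t2 10 36 49) (.cons s140 (.cons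 (t2 23 36 49) (.cons s250 (.cons s78 (.cons (t2 11 21 30) (.cons s216 (.cons a483 (.cons s84 (.cons (t1 18 23 49) (.cons a222 (.cons a469 (.cons s231 (.cons (t2 23 30 49) .nil))))))))))))))))))))))))))))))))))))))))))))))))))))) (by decide +kernel)
theorem s906 : Valid A [969, 452, 1340, 917, 398, 995] := rup _
  (.cons (t3 3 7 36) (.cons s898 .nil)) (by decide +kernel)
theorem s907 : Valid A [987, 918, 3174, 4698, 2761, 2249, 3017, 4706, 2353, 2735, 1123, 1066, 2748, 917, 945, 2778] := rup _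
  (.cons a30 (.cons (t2 7 10 45) (.cons (t2 7 24 45) (.cons (t3 7 11 45) (.cons (t1 20 24 45) (.cons a396 (.cons a379 (.cons a22 (.cons (t1 22 24 45) (.cons (t3 11 23 36) (.cons (t3 11 21 36) (.cons a239 (.cons a34 (.cons (t2 21 23 52) (.cons s597 (.cons (t3 20 21 51) (.cons a222 (.cons (t3 22 30 52) (.cons s285 (.cons a475 .nil)))))))))))))))))))) (by decide +kernel)
theorem s908 : Valid A [963, 4701, 968, 869, 847, 2530, 2480, 5090, 2998, 477, 913, 1070, 3171, 995, 2778] := rup _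
  (.cons (t3 3 36 46) (.cons a188 (.cons (t3 7 24 49) (.cons (t2 7 8 24) (.cons s326 (.cons a404 (.cons (t2 7 17 49) (.cons (t1 7 8 17) (.cons a181 (.cons a430 (.cons (t1 7 8 50) (.cons a305 (.cons (t3 6 7 8) (.cons a432 (.cons (t2 24 49 50) (.cons a110 (.cons a112 (.cons a447 (.cons a448 (.cons s221 (.cons (t1 7 8 15) (.cons a95 (.cons (t3 7 41 49) (.cons (t1 7 24 41) (.cons (t1 7 8 41) (.cons (t2 6 9 39) (.cons (t2 6 9 50) (.cons a105 (.cons a442 (.cons (t1 9 39 41) (.cons (t3 9 15 50) (.cons (t3 6 15 50) (.cons (t1 6 39 41) (.cons s267 (.cons (t1 9 17 46) (.cons (t2 3 9 46) (.cons (t1 9 36 46) (.cons (t1 9 23 46) (.cons (t3 9 17 39) (.cons (t1 3 6 9) (.cons (t3 3 9 39) (.cons (t3 3 9 15) (.cons (t3 3 9 41) (.cons (t3 9 36 41) (.cons (t3 9 23 39) (.cons (t2 6 9 23) (.cons (t3 9 23 41) (.cons s290 (.cons a325 (.cons (t1 27 39 41) .nil)))))))))))))))))))))))))))))))))))))))))))))))))) (by decide +kernel)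
theorem s909 : Valid A [3945, 3930, 2907, 986, 956] := rup _
  (.cons (t3 7 30 52) (.cons (t3 30 45 52) (.cons s131 .nil))) (by decide +kernel)
theorem s910 : Valid A [917, 427, 419] := rup _
  (.cons s826 (.cons (t1 3 21 24) (.cons s879 (.cons s893 (.cons (t3 7 24 49) (.cons (t2 7 21 24) (.cons a65 (.cons a404 (.cons (t2 7 17 49) (.cons a62 (.cons (t1 3 17 45) (.cons (t2 3 17 21) (.cons a63 (.cons s38 (.cons (t2 7 10 49) (.cons a190 (.cons s899 (.cons s903 (.cons (t1 3 21 30) (.cons s905 (.cons a188 (.cons (t2 7 8 24) (.cons (t1 7 8 17) (.cons (t1 7 8 21) (.cons (t2 7 8 49) (.cons a181 (.cons s326 (.cons (t2 17 21 46) (.cons (t3 17 45 46) (.cons s138 (.cons s74 (.cons (t3 21 23 46) (.cons a469 (.cons (t3 18 24 49) (.cons (t3 7 18 49) (.cons (t2 7 30 49) (.cons (t2 10 30 49) (.cons a162 (.cons (t3 3 30 34) (.cons s906 (.cons (t3 7 36 49) (.cons (t1 7 10 36) (.cons (t1 7 18 36) (.cons s140 (.cons a483 (.cons (t3 17 36 46) (.cons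 (t3 21 36 46) (.cons (t2 36 45 46) (.cons a204 (.cons a207 (.cons s22 (.cons (t1 5 7 49) (.cons (t1 7 24 51) (.cons a216 (.cons (t2 7 11 49) (.cons s907 (.cons s199 (.cons (t1 7 10 45) (.cons s177 (.cons s583 (.cons (t1 22 45 51) (.cons a473 (.cons (t1 30 45 51) (.cons s909 (.cons a222 (.cons (t3 21 45 52) (.cons (t3 7 21 52) (.cons s131 .nil)))))))))))))))))))))))))))))))))))))))))))))))))))))))))))))))))))) (by decide +kernel)
theorem s911 : Valid A [969, 932, 942, 945] := rup _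
  (.cons (t2 7 24 36) (.cons (t3 7 23 36) (.cons (t3 7 18 36) (.cons a178 (.cons s142 .nil))))) (by decide +kernel)
theorem s912 : Valid A [1117, 1122, 1044, 1378] := rup _
  (.cons (t3 8 10 46) (.cons (t1 8 46 49) (.cons a189 .nil))) (by decide +kernel)
theorem s913 : Valid A [2402, 1372, 989, 1116, 942, 1071, 2280, 3944, 3938, 2237, 2786, 3171, 995, 2219] := rup _
  (.cons a402 (.cons a404 (.cons (t2 7 17 49) (.cons (t3 7 24 49) (.cons a513 (.cons (t2 7 18 49) (.cons a468 (.cons s71 (.cons (t2 17 18 21) (.cons s911 (.cons (t3 7 36 49) (.cons a181 (.cons (t1 8 17 21) (.cons (t2 8 17 23) (.cons s562 (.cons a143 (.cons (t2 8 21 23) (.cons (t2 17 18 23) (.cons (t2 17 23 30) (.cons (t1 17 23 52) (.cons a347 (.cons (t2 18 19 21) (.cons (t2 18 19 30) (.cons s377 (.cons (t2 18 21 29) (.cons a506 (.cons a507 (.cons a484 (.cons (t1 23 30 36) (.cons (t2 19 30 36) (.cons s13 (.cons (t2 21 23 36) (.cons s585 (.cons (t1 0 7 49) (.cons s680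 (.cons (t1 5 21 23) (.cons (t1 0 5 21) (.cons s784 (.cons (t2 5 11 23) (.cons s226 (.cons a238 (.cons s333 .nil)))))))))))))))))))))))))))))))))))))))))) (by decide +kernel)
theorem s914 : Valid A [912, 1071, 2280, 3944, 3938, 2237, 916, 2786, 3171, 995, 2219] := rup _
  (.cons a402 (.cons (t3 7 10 49) (.cons (t3 7 8 49) (.cons (t3 7 8 23) (.cons s912 (.cons a185 (.cons s690 (.cons (t3 7 10 46) (.cons s913 (.cons s80 .nil)))))))))) (by decide +kernel)
theorem s915 : Valid A [987, 1454, 918, 4698, 2761, 2505, 2536, 943] := rup _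
  (.cons (t1 19 36 52) (.cons a30 (.cons (t2 7 23 45) (.cons (t3 7 11 45) (.cons (t1 20 23 45) (.cons a379 (.cons (t3 11 21 36) (.cons (t3 11 19 36) (.cons (t2 11 36 52) (.cons a35 (.cons (t1 11 19 20) (.cons a238 (.cons a14 (.cons (t3 20 23 52) .nil)))))))))))))) (by decide +kernel)
theorem s916 : Valid A [46, 2914, 2732, 2734, 3043] := rup _
  (.cons a505 (.cons (t3 0 23 49) (.cons (t2 0 21 22) (.cons a491 .nil)))) (by decide +kernel)
theorem s917 : Valid A [1450, 3405, 1110, 3124, 529, 561, 559, 527, 3788, 2747, 2907, 986, 1229, 1456, 1454, 845, 1336, 4698, 2761, 1323, 3043, 3171, 782] := rup _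
  (.cons (t3 11 21 36) (.cons (t3 11 21 29) (.cons (t2 10 11 21) (.cons a379 (.cons a130 (.cons a387 (.cons (t3 11 22 45) (.cons (t2 11 22 38) (.cons (t3 6 11 38) (.cons (t3 9 11 38) (.cons s67 (.cons (t3 11 24 28) (.cons (t2 11 28 38) (.cons (t2 11 22 28) (.cons (t3 22 26 38) (.cons (t1 6 11 28) (.cons a244 (.cons a238 (.cons a296 (.cons (t1 1 22 28) (.cons (t3 1 22 26) (.cons (t1 11 28 43) (.cons (t2 23 49 52) (.cons (t1 4 23 52) (.cons a279 (.cons a235 (.cons (t3 1 4 24) (.cons (t2 24 42 49) (.cons a90 (.cons a367 (.cons (t3 2 4 7) (.cons (t3 2 4 8) (.cons (t3 2 4 52) (.cons (t1 6 28 42) (.cons (t1 28 42 43) (.cons a85 (.cons a82 (.cons s343 (.cons (t1 2 6 42) (.cons (t2 2 42 43) .nil)))))))))))))))))))))))))))))))))))))))) (by decide +kernel)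
theorem s918 : Valid A [1071, 445, 427, 419] := rup _
  (.cons (t2 3 17 21) (.cons (t2 3 21 30) (.cons a223 (.cons (t2 17 21 52) (.cons a225 (.cons s826 (.cons s893 (.cons (t3 3 24 49) (.cons (t1 3 30 49) (.cons (t2 3 17 30) (.cons s879 (.cons (t3 7 24 49) (.cons a65 (.cons (t3 3 7 30) (.cons a62 (.cons (t1 3 30 45) (.cons s910 (.cons (t3 7 10 49) (.cons (t1 3 21 24) (.cons (t2 7 21 24) (.cons a404 (.cons (t2 7 17 49) (.cons (t3 21 24 49) (.cons s57 (.cons a307 (.cons a305 (.cons (t1 3 17 45) (.cons a63 (.cons a522 (.cons s914 (.cons a186 (.cons a188 (.cons (t2 7 8 24) (.cons (t1 7 8 17) (.cons (t1 7 8 23) (.cons (t2 7 8 49) (.cons (t2 7 8 48) (.cons (t3 7 46 49) (.cons (t2 8 23 24) (.cons (t1 8 24 48) (.cons (t3 8 17 23) (.cons a181 (.cons (t2 7 23 49) (.cons (t3 7 21 23) (.cons (t3 6 7 23) (.cons (t1 7 23 30) (.cons (t3 8 48 49) (.cons s150 (.cons a189 (.cons a44 (.cons (t1 3 17 46) (.cons (t2 17 21 46) (.cons (t3 17 45 46)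 (.cons s138 (.cons (t2 17 30 46) (.cons (t1 17 46 52) (.cons (t2 18 48 49) (.cons (t3 7 33 49) (.cons s63 (.cons (t3 10 17 46) (.cons s18 (.cons (t2 3 17 48) (.cons (t3 3 10 46) (.cons (t3 10 21 46) (.cons (t2 10 45 46) (.cons (t3 7 18 49) (.cons (t2 18 34 49) (.cons (t3 18 23 49) (.cons (t3 10 30 46) (.cons (t2 10 46 52) (.cons a310 (.cons (t1 10 17 48) (.cons (t1 3 10 34) (.cons a348 (.cons a484 (.cons a393 (.cons (t3 10 33 48) (.cons a349 (.cons (t3 23 36 49) (.cons s176 (.cons (t2 6 33 48) (.cons (t2 10 19 21) (.cons (t2 10 19 46) (.cons (t2 10 19 48) (.cons (t1 10 19 52) (.cons s140 (.cons (t1 6 33 34) (.cons a175 (.cons a176 (.cons (t3 19 36 46) (.cons (t3 19 38 48) (.cons (t3 10 36 46) (.cons (t3 21 36 46) (.cons (t2 36 45 46) (.cons (t2 21 38 46) (.cons (t2 10 38 46) (.cons a204 (.cons a489 (.cons a158 (.cons a207 (.cons (t2 10 28 36) (.cons (t1 6 34 38) (.cons (t3 18 34 38) (.cons (t1 5 7 49) (.cons s166 (.cons a216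 (.cons a261 (.cons (t2 7 11 49) (.cons (t1 11 23 49) (.cons (t1 11 24 49) (.cons (t1 6 9 23) (.cons (t2 6 9 38) (.cons s915 (.cons (t3 7 45 49) (.cons s199 (.cons (t1 7 23 45) (.cons s177 (.cons s716 (.cons a398 (.cons (t1 21 22 45) (.cons (t2 22 45 49) (.cons s916 (.cons s9 (.cons (t3 0 7 23) (.cons (t1 0 23 24) (.cons (t2 0 17 23) (.cons (t3 0 8 23) (.cons (t2 0 6 23) (.cons (t2 0 23 45) (.cons (t2 0 9 23) (.cons (t1 23 24 29) (.cons a134 (.cons (t1 17 21 29) (.cons (t1 10 21 29) (.cons (t1 21 29 38) (.cons a147 (.cons (t1 4 17 29) (.cons a509 (.cons s365 (.cons (t2 0 4 23) (.cons (t2 0 4 24) (.cons (t2 0 4 8) (.cons (t1 0 4 45) (.cons (t1 0 4 6) (.cons (t1 0 4 9) (.cons a420 (.cons a422 (.cons a455 (.cons (t1 7 24 26) (.cons (t1 7 23 26) (.cons a308 (.cons (t1 7 8 43) (.cons (t2 6 9 26) (.cons (t2 6 26 38) (.cons s917 (.cons (t3 3 11 21) (.cons (t3 11 17 21) (.cons (t3 11 19 21) (.cons a41 (.cons a377 (.cons (t3 11 16 19)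 (.cons (t3 11 12 21) (.cons s108 (.cons a499 (.cons (t1 4 16 45) (.cons (t3 8 12 49) (.cons a253 (.cons a519 (.cons a259 (.cons (t1 8 23 32) (.cons (t1 9 26 32) (.cons a423 .nil)))))))))))))))))))))))))))))))))))))))))))))))))))))))))))))))))))))))))))))))))))))))))))))))))))))))))))))))))))))))))))))))))))))))))))))))))))))))))))))))))))))))))))) (by decide +kernel)
theorem s919 : Valid A [942, 2402, 912, 1070, 3171, 995, 2230] := rup _
  (.cons a404 (.cons a513 (.cons s71 (.cons (t2 7 18 49) (.cons (t3 7 8 49) (.cons (t3 7 24 49) (.cons (t3 7 8 24) (.cons a432 (.cons (t2 24 49 50) (.cons a430 (.cons (t3 7 23 24) (.cons s864 (.cons s911 (.cons s150 (.cons (t3 7 48 49) (.cons (t1 7 24 36) (.cons s431 (.cons s302 (.cons a106 (.cons a427 (.cons a181 (.cons (t3 8 15 17) (.cons (t1 8 17 41) (.cons (t2 8 17 27) (.cons (t3 15 17 18) (.cons (t1 17 18 41) (.cons (t3 8 27 50) (.cons a313 (.cons (t1 7 24 27) (.cons (t2 24 27 49) (.cons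 a318 (.cons a114 (.cons (t3 7 14 24) (.cons (t1 15 24 49) (.cons (t2 7 15 49) (.cons a92 (.cons a109 (.cons (t2 14 15 18) (.cons (t1 14 15 33) (.cons a96 (.cons a523 (.cons (t2 14 33 41) .nil)))))))))))))))))))))))))))))))))))))))))) (by decide +kernel)
theorem s920 : Valid A [2402, 912, 1070, 427, 419] := rup _
  (.cons s879 (.cons s893 (.cons (t3 7 24 49) (.cons a404 (.cons s826 (.cons (t1 3 21 24) (.cons (t2 3 17 21) (.cons a39 (.cons a513 (.cons (t2 7 18 49) (.cons s71 (.cons (t2 17 18 21) (.cons (t2 3 17 46) (.cons (t1 17 21 46) (.cons s919 (.cons (t2 7 23 49) (.cons (t2 7 23 24) (.cons (t3 7 18 23) (.cons a194 (.cons a196 (.cons (t2 7 23 46) (.cons s340 (.cons a185 (.cons (t2 18 21 36) (.cons (t1 3 8 46) (.cons a483 (.cons s904 (.cons (t2 23 36 49) (.cons a480 .nil))))))))))))))))))))))))))))) (by decide +kernel)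
theorem s921 : Valid A [912, 445, 427, 419] := rup _
  (.cons s918 (.cons s826 (.cons (t3 3 24 30) (.cons a62 (.cons (t1 3 30 45) (.cons s879 (.cons s910 (.cons (t3 7 10 49) (.cons (t1 3 21 24) (.cons s893 (.cons (t3 7 24 49) (.cons (t2 7 21 24) (.cons (t2 3 17 21) (.cons a63 (.cons (t3 7 8 49) (.cons s920 (.cons s80 (.cons (t3 7 18 49) (.cons (t1 10 18 49) (.cons (t2 24 46 49) (.cons a189 (.cons s690 (.cons a348 (.cons a182 (.cons (t3 8 23 46) (.cons (t3 8 10 46) (.cons a349 (.cons (t3 8 17 21) (.cons (t2 10 23 46) (.cons a193 (.cons (t1 8 10 21) (.cons (t2 23 24 30) (.cons s118 (.cons a396 (.cons (t3 7 10 45) (.cons (t3 10 23 45) (.cons s716 (.cons s199 (.cons s177 .nil))))))))))))))))))))))))))))))))))))))) (by decide +kernel)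
theorem s922 : Valid A [4706, 987, 1370, 3933, 2781, 2350, 1373, 2269, 5986, 1123, 1066, 3930, 938, 3171, 995] := rup _
  (.cons (t2 7 45 49) (.cons a30 (.cons (t3 20 45 49) (.cons s138 (.cons (t2 18 36 49) (.cons (t1 36 45 49) (.cons s140 (.cons a483 (.cons (t3 10 36 46) (.cons (t3 17 36 46) (.cons (t3 21 36 46) (.cons (t3 30 36 46) (.cons a204 (.cons a207 (.cons s22 (.cons (t1 5 7 49) (.cons (t1 5 7 45) (.cons (t1 7 49 51) (.cons (t1 7 45 51) (.cons a217 (.cons (t3 5 11 45) (.cons s368 (.cons a379 (.cons (t3 11 21 36) (.cons (t3 11 30 36) (.cons (t3 10 11 36) (.cons a34 (.cons a35 (.cons (t3 11 20 30) (.cons (t2 10 11 20) (.cons (t3 20 21 51) (.cons (t3 20 30 51) (.cons (t3 10 20 51) (.cons s285 (.cons s126 (.cons (t1 10 22 51) (.cons a395 .nil))))))))))))))))))))))))))))))))))))) (by decide +kernel)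
theorem s923 : Valid A [4707, 450, 482, 995] := rup _
  (.cons a480 (.cons (t1 3 36 49) (.cons (t3 7 36 49) (.cons (t2 7 48 49) (.cons a52 (.cons s150 (.cons (t3 7 33 36) .nil))))))) (by decide +kernel)
theorem s924 : Valid A [1450, 1336, 3048, 2735, 1323] := rup _
  (.cons (t3 11 21 23) (.cons (t2 10 11 21) (.cons a238 (.cons a387 (.cons s67 .nil))))) (by decide +kernel)
theorem s925 : Valid A [445, 427, 419] := rup _
  (.cons s879 (.cons s910 (.cons (t3 7 10 49) (.cons s826 (.cons (t1 3 21 24) (.cons s893 (.cons (t3 7 24 49) (.cons (t2 7 21 24) (.cons a404 (.cons (t2 7 17 49) (.cons a307 (.cons (t1 6 24 49) (.cons (t3 21 24 49) (.cons (t3 3 24 49) (.cons a171 (.cons a305 (.cons a62 (.cons (t1 3 17 45) (.cons (t2 3 17 21) (.cons a63 (.cons a39 (.cons a50 (.cons (t1 3 30 45) (.cons (t2 3 17 30) (.cons (t2 3 21 30) (.cons (t1 3 17 39) (.cons a223 (.cons (t2 17 21 52) (.cons s918 (.cons s921 (.cons a186 (.cons a188 (.cons (t2 7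 8 24) (.cons (t1 7 8 17) (.cons (t2 7 8 23) (.cons (t1 7 8 21) (.cons (t2 7 8 49) (.cons (t1 7 8 10) (.cons (t3 7 46 49) (.cons (t3 8 23 24) (.cons s326 (.cons a181 (.cons a399 (.cons a189 (.cons s74 (.cons (t1 3 17 46) (.cons (t3 17 27 46) (.cons (t2 17 21 46) (.cons (t3 17 45 46) (.cons s138 (.cons (t3 17 23 46) (.cons (t2 17 30 46) (.cons (t2 10 18 23) (.cons (t3 3 10 46) (.cons (t2 10 27 46) (.cons (t2 23 27 46) (.cons (t3 10 21 46) (.cons (t3 21 23 46) (.cons (t2 10 45 46) (.cons (t3 7 18 49) (.cons (t1 17 23 39) (.cons (t1 17 23 52) (.cons (t3 10 30 46) (.cons a325 (.cons a506 (.cons a348 (.cons a163 (.cons a393 (.cons (t1 0 17 23) (.cons a349 (.cons (t2 3 10 33) (.cons (t2 10 19 46) (.cons s196 (.cons (t2 10 19 21) (.cons a175 (.cons (t1 24 27 34) (.cons (t2 10 38 46) (.cons (t3 24 27 39) (.cons a158 (.cons a300 (.cons s53 (.cons (t1 27 34 38) (.cons (t3 6 27 39) (.cons (t1 6 27 38) (.cons s923 (.cons (t2 18 36 49) (.cons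 s140 (.cons s922 (.cons a483 (.cons (t3 10 36 46) (.cons (t3 17 36 46) (.cons (t3 21 36 46) (.cons (t1 7 24 45) (.cons s199 (.cons (t1 7 8 45) (.cons a204 (.cons a489 (.cons s177 (.cons a207 (.cons (t2 10 28 36) (.cons (t3 21 45 51) (.cons (t3 10 45 51) (.cons (t1 5 7 8) (.cons (t2 5 7 38) (.cons s285 (.cons (t1 10 22 51) (.cons s924 (.cons (t3 3 11 21) (.cons (t3 11 17 21) (.cons (t1 11 21 23) (.cons (t3 11 19 21) (.cons a41 (.cons a377 (.cons s784 (.cons (t3 11 16 19) (.cons (t3 11 12 21) (.cons (t3 11 16 23) (.cons s2 (.cons (t2 0 6 7) (.cons s108 (.cons a499 (.cons (t1 7 24 29) (.cons (t2 16 24 45) (.cons (t3 8 12 49) (.cons a134 (.cons s272 (.cons a361 (.cons (t1 17 21 29) (.cons (t1 10 21 29) (.cons a356 (.cons (t2 5 8 42) (.cons a147 (.cons (t1 42 45 51) (.cons a198 (.cons (t1 4 17 29) (.cons (t1 38 42 51) (.cons a509 (.cons s365 (.cons (t1 6 38 51) (.cons (t1 0 4 6) (.cons a420 (.cons a422 (.cons a294 (.cons (t1 7 24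 26) (.cons a308 (.cons (t3 1 6 26) (.cons a279 .nil))))))))))))))))))))))))))))))))))))))))))))))))))))))))))))))))))))))))))))))))))))))))))))))))))))))))))))))))))))))))))))))))))))))))))))))))))) (by decide +kernel)
theorem s926 : Valid A [1071, 912, 427, 419] := rup _
  (.cons s879 (.cons (t3 7 8 49) (.cons s925 (.cons (t1 3 17 30) (.cons s910 (.cons (t3 7 10 49) (.cons s893 (.cons (t3 7 24 49) (.cons a65 (.cons a404 (.cons (t2 7 17 49) (.cons a432 (.cons (t2 24 49 50) (.cons a171 (.cons a430 (.cons a39 (.cons a402 (.cons (t3 7 8 23) (.cons s912 (.cons a185 (.cons s690 (.cons s42 (.cons (t2 7 24 46) (.cons (t3 7 17 46) (.cons s80 (.cons s193 (.cons s911 (.cons s874 (.cons a181 (.cons a513 (.cons (t3 3 8 17) (.cons (t2 8 17 27) (.cons (t2 8 17 23) (.cons (t1 8 17 18) (.cons (t1 17 18 27) (.cons (t1 3 8 23) (.cons (t2 17 18 23) (.cons (t3 8 10 18) (.cons a484 (.cons s192 (.cons (t2 3 23 36) (.cons (t1 24 27 34) (.cons s494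 (.cons a313 (.cons s431 (.cons (t3 8 27 50) .nil)))))))))))))))))))))))))))))))))))))))))))))) (by decide +kernel)
theorem s927 : Valid A [912, 427, 419] := rup _
  (.cons s879 (.cons s910 (.cons (t3 7 10 49) (.cons s826 (.cons (t1 3 21 24) (.cons s893 (.cons (t3 7 24 49) (.cons (t2 7 21 24) (.cons (t2 3 17 21) (.cons a63 (.cons (t3 7 8 24) (.cons (t3 7 8 49) (.cons s926 (.cons s920 (.cons s80 (.cons (t3 7 18 49) (.cons (t1 10 18 49) (.cons (t2 24 46 49) (.cons a189 (.cons s690 (.cons a348 (.cons a182 (.cons (t3 8 23 46) (.cons (t3 8 10 46) (.cons a349 (.cons (t3 8 17 21) (.cons (t2 10 23 46) (.cons a193 (.cons (t1 8 10 21) (.cons s202 (.cons (t1 23 24 49) (.cons s118 (.cons s498 (.cons a396 (.cons (t3 7 10 45) (.cons (t3 10 23 45) (.cons (t1 0 23 49) (.cons s199 (.cons a492 (.cons s177 (.cons (t1 22 23 49) (.cons (t3 23 45 51) (.cons (t3 22 45 51) (.cons a495 .nil)))))))))))))))))))))))))))))))))))))))))))) (by decide +kernel)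
theorem s928 : Valid A [987, 716, 1454, 943, 655, 2505, 4698, 2761, 2508, 2530, 913, 995] := rup _
  (.cons (t1 5 7 49) (.cons a216 (.cons (t2 7 11 49) (.cons (t2 7 45 49) (.cons (t2 7 8 45) (.cons s915 (.cons (t1 5 7 45) (.cons a357 (.cons (t3 19 49 52) (.cons (t3 19 38 52) (.cons (t2 5 42 45) (.cons (t3 42 45 49) (.cons a234 (.cons a198 (.cons (t1 38 42 52) .nil))))))))))))))) (by decide +kernel)
theorem s929 : Valid A [2906, 5863, 3046, 1326, 1370] := rup _
  (.cons a395 (.cons (t3 22 45 51) (.cons (t1 10 22 23) (.cons a495 .nil)))) (by decide +kernel)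
theorem s930 : Valid A [1071, 2505, 4698, 2761, 1353, 4706, 1356, 2508, 2530, 956, 1370, 913, 2748, 938, 995, 2778] := rup _
  (.cons (t2 7 8 49) (.cons a204 (.cons a207 (.cons (t1 5 7 49) (.cons a216 (.cons (t2 8 11 49) (.cons s22 (.cons (t1 7 8 51) (.cons s21 (.cons a400 (.cons a521 (.cons (t1 7 8 23) (.cons (t2 8 23 49) (.cons (t1 8 23 51) (.cons (t3 8 11 23) (.cons (t3 23 48 49) (.cons a479 (.cons s103 (.cons (t2 10 34 36) (.cons a158 (.cons (t3 5 34 38) (.cons s928 (.cons s199 (.cons s177 (.cons s929 (.cons (t1 22 45 51) (.cons a473 (.cons (t1 30 45 51) (.cons s909 (.cons a222 (.cons (t3 21 45 52) (.cons (t3 7 21 52) (.cons s131 .nil))))))))))))))))))))))))))))))))) (by decide +kernel)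
theorem s931 : Valid A [987, 3017, 3004, 2735, 1327, 998, 2761, 2249, 4706, 956, 1340, 1370, 1123, 1066] := rup _
  (.cons (t3 7 30 45) (.cons (t1 7 45 51) (.cons s264 (.cons (t2 21 23 51) (.cons (t2 10 23 51) (.cons s285 (.cons (t2 22 45 51) (.cons (t1 10 22 51) (.cons a395 .nil))))))))) (by decide +kernel)
theorem s932 : Valid A [427, 419] := rup _
  (.cons a62 (.cons a63 (.cons (t2 3 17 21) (.cons (t1 3 17 45) (.cons s826 (.cons (t1 3 21 24) (.cons s879 (.cons a307 (.cons s893 (.cons a404 (.cons (t3 7 24 49) (.cons (t3 3 24 49) (.cons (t1 6 24 49) (.cons (t2 7 17 49) (.cons (t2 7 21 24) (.cons s910 (.cons (t3 7 10 49) (.cons s925 (.cons (t1 3 17 30) (.cons (t1 3 21 30) (.cons s927 (.cons a186 (.cons a188 (.cons (t2 7 8 24) (.cons (t1 7 8 17) (.cons (t1 7 8 21) (.cons (t2 7 8 49) (.cons (t1 7 8 10) (.cons (t3 7 46 49) (.cons a181 (.cons a189 (.cons s71 (.cons (t1 3 17 46) (.cons (t2 17 21 46) (.cons (t3 17 45 46) (.cons s138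 (.cons (t3 17 30 46) (.cons (t3 10 17 46) (.cons s63 (.cons (t2 3 17 18) (.cons (t3 3 10 46) (.cons (t2 10 45 46) (.cons a469 (.cons a471 (.cons (t3 18 24 49) (.cons (t3 7 18 49) (.cons (t2 10 30 46) (.cons (t2 7 30 49) (.cons s139 (.cons a346 (.cons a348 (.cons s183 (.cons (t1 18 24 39) (.cons (t3 7 19 49) (.cons a349 (.cons (t3 7 33 49) (.cons a300 (.cons (t2 10 19 46) (.cons (t2 10 17 19) (.cons (t1 3 10 19) (.cons a310 (.cons a175 (.cons a176 (.cons a335 (.cons (t2 6 33 39) (.cons (t2 10 38 46) (.cons (t2 3 19 39) (.cons (t1 3 33 39) (.cons s923 (.cons s140 (.cons (t3 10 36 46) (.cons (t3 17 36 46) (.cons (t3 21 36 46) (.cons (t2 36 45 46) (.cons (t3 19 36 46) (.cons a204 (.cons a207 (.cons s22 (.cons s930 (.cons s326 (.cons a399 (.cons (t3 21 23 46) (.cons (t2 23 30 46) (.cons (t3 23 36 46) (.cons s931 (.cons s199 (.cons s177 (.cons (t3 21 45 51) (.cons s285 (.cons a473 (.cons (t3 22 45 51) (.cons (t1 30 45 51) (.cons s909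 (.cons a222 (.cons (t3 21 45 52) (.cons (t3 7 21 52) (.cons s131 .nil))))))))))))))))))))))))))))))))))))))))))))))))))))))))))))))))))))))))))))))))))))))))))))))))) (by decide +kernel)
theorem s933 : Valid A [987, 2734, 1066, 1123, 1059, 917, 945, 398, 1071, 426] := rup _
  (.cons (t2 8 23 49) (.cons (t3 3 7 45) (.cons (t2 7 10 45) (.cons (t2 7 24 45) (.cons a60 (.cons a396 (.cons (t3 21 24 45) (.cons (t2 21 22 45) (.cons a137 (.cons a142 (.cons s3 (.cons (t2 8 17 29) (.cons (t2 8 29 49) (.cons (t3 0 8 23) (.cons a140 (.cons s916 (.cons (t3 22 29 49) .nil))))))))))))))))) (by decide +kernel)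
theorem s934 : Valid A [938, 3017, 2760, 2734, 3005, 431, 3043, 1085, 1066, 1078, 3939, 1316, 1378, 917, 3524, 2372, 1072, 945, 2275, 942, 1071, 419] := rup _
  (.cons (t2 7 10 18) (.cons s911 (.cons s38 (.cons (t1 3 17 49) (.cons s932 (.cons (t1 3 17 21) (.cons (t3 17 21 49) (.cons (t3 7 21 24) (.cons (t1 7 10 21) (.cons s294 (.cons s201 (.cons s202 (.cons s26 (.cons (t2 5 21 49) (.cons (t1 5 21 29) (.cons (t2 5 10 21) (.cons s7 (.cons (t3 17 21 29) (.cons (t3 7 21 29) (.cons (t3 10 21 29) (.cons s133 (.cons a505 (.cons s474 (.cons (t2 7 10 11) (.cons (t3 0 8 23) (.cons (t1 0 23 49) (.cons (t3 0 3 23) (.cons (t1 0 23 36) (.cons (t1 0 23 30) (.cons (t2 5 11 29) (.cons a383 (.cons a492 (.cons a215 (.cons (t2 0 11 30) (.cons (t2 0 3 11) (.cons (t2 0 8 11) (.cons (t2 0 11 36) (.cons (t2 3 22 49) (.cons (t2 17 22 49) (.cons (t1 22 30 49) (.cons a373 (.cons a41 (.cons a381 (.cons s203 (.cons a138 (.cons (t2 3 11 16) (.cons (t3 11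 12 49) (.cons (t2 8 11 12) (.cons (t2 3 11 45) (.cons (t2 8 11 45) (.cons (t1 21 22 51) (.cons a56 (.cons a499 (.cons a60 (.cons a472 (.cons a340 (.cons (t1 12 21 45) (.cons (t1 12 21 29) (.cons (t1 12 21 22) (.cons a466 (.cons (t3 19 22 29) (.cons (t2 8 30 32) (.cons a517 (.cons (t2 12 29 32) (.cons (t2 12 22 32) (.cons (t2 12 32 45) (.cons a364 (.cons (t3 32 42 45) (.cons (t2 29 32 42) (.cons a356 (.cons (t3 8 27 42) (.cons a126 (.cons (t1 10 27 29) (.cons (t1 19 27 29) (.cons s196 (.cons a154 (.cons a349 (.cons (t1 18 19 34) .nil)))))))))))))))))))))))))))))))))))))))))))))))))))))))))))))))))))))))))))))) (by decide +kernel)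
theorem s935 : Valid A [917, 2268, 1072, 2275, 942, 1071, 994, 419] := rup _
  (.cons (t3 17 46 49) (.cons a406 (.cons (t2 3 17 24) (.cons (t1 3 17 49) (.cons (t1 7 17 49) (.cons (t2 3 7 17) (.cons a64 (.cons s158 (.cons s106 (.cons (t2 3 48 49) (.cons a44 (.cons a39 (.cons (t3 17 27 49) (.cons (t1 27 34 49) (.cons a514 (.cons (t1 18 34 49) (.cons s932 (.cons (t1 3 17 21) (.cons (t3 17 21 49) (.cons a402 (.cons (t2 7 10 24) (.cons (t1 7 10 49) (.cons a189 (.cons s63 (.cons (t1 7 10 46) (.cons (t2 10 24 46) (.cons (t3 8 10 46) (.cons s334 (.cons a178 (.cons a181 (.cons a468 (.cons (t3 24 36 48) (.cons (t1 8 17 49) (.cons (t3 3 8 17) (.cons (t2 8 17 27) (.cons (t2 8 17 23) (.cons (t2 8 17 21) (.cons (t3 17 30 49) (.cons (t3 8 30 49) (.cons a479 (.cons (t2 8 23 49) (.cons (t1 3 8 23) (.cons (t2 17 23 30) (.cons (t3 17 21 23) (.cons (t3 3 36 49) (.cons (t1 21 36 49) (.cons (t3 23 36 49) (.cons (t3 8 36 49) (.cons s933 (.cons (t1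 7 10 45) (.cons s934 (.cons a210 (.cons (t1 7 21 45) (.cons s153 (.cons (t2 7 21 24) (.cons a203 (.cons (t2 3 8 45) (.cons (t2 3 36 45) (.cons a137 (.cons s32 (.cons a380 (.cons a142 (.cons s3 (.cons (t2 8 17 29) (.cons (t2 8 29 36) (.cons (t2 8 29 45) (.cons (t3 0 8 23) (.cons a140 (.cons a505 (.cons (t3 22 29 36) (.cons (t3 22 29 45) (.cons (t3 0 7 21) (.cons s152 (.cons a395 (.cons a384 (.cons (t2 10 22 24) (.cons (t3 7 11 21) (.cons (t2 22 24 51) (.cons s553 (.cons a23 (.cons a29 (.cons (t2 7 20 24) .nil)))))))))))))))))))))))))))))))))))))))))))))))))))))))))))))))))))))))))))))))))) (by decide +kernel)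
theorem s936 : Valid A [1373, 916, 1044, 912] := rup _
  (.cons (t3 7 10 46) (.cons (t3 8 10 46) (.cons a185 .nil))) (by decide +kernel)
theorem s937 : Valid A [2268, 3170, 1071, 912, 994, 419] := rup _
  (.cons s932 (.cons s767 (.cons a406 (.cons (t2 3 17 24) (.cons (t1 7 17 49) (.cons (t2 3 7 17) (.cons a64 (.cons (t1 3 17 49) (.cons s158 (.cons s106 (.cons (t2 3 48 49) (.cons a44 (.cons (t1 7 24 48) (.cons (t3 7 8 23) (.cons (t3 7 23 24) (.cons (t3 7 8 24) (.cons a514 (.cons a402 (.cons (t3 17 46 49) (.cons s935 (.cons s936 (.cons a189 (.cons (t3 10 17 49) (.cons (t3 3 10 49) (.cons (t3 10 34 49) (.cons (t3 8 10 49) (.cons (t2 10 18 49) (.cons (t3 8 10 17) (.cons a161 (.cons a163 (.cons a181 (.cons (t3 10 30 49) (.cons (t2 3 10 30) (.cons a187 (.cons s302 (.cons a468 (.cons (t1 7 24 36) (.cons s911 (.cons a348 (.cons (t2 7 18 24) (.cons (t1 7 18 30) (.cons a349 (.cons s733 (.cons (t2 7 30 48) (.cons (t1 10 19 46) (.cons (t2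 10 17 19) (.cons (t1 3 10 19) (.cons (t1 10 19 38) (.cons a335 (.cons a173 (.cons (t2 3 19 39) (.cons s804 (.cons a48 (.cons a429 (.cons s432 (.cons (t1 24 30 39) (.cons (t2 30 39 48) (.cons (t1 10 49 50) (.cons (t2 7 24 33) (.cons a303 (.cons (t3 6 39 48) (.cons a247 (.cons a251 (.cons (t3 9 10 49) (.cons (t3 9 24 48) (.cons s167 .nil)))))))))))))))))))))))))))))))))))))))))))))))))))))))))))))))))) (by decide +kernel)
theorem s938 : Valid A [3170, 1071, 912, 994, 419] := rup _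
  (.cons s932 (.cons s767 (.cons (t1 7 17 49) (.cons s937 (.cons a183 (.cons (t3 7 17 46) (.cons a185 .nil))))))) (by decide +kernel)
theorem s939 : Valid A [987, 2402, 2268, 1071, 912, 994, 419] := rup _
  (.cons a402 (.cons s938 (.cons a405 (.cons (t2 3 17 24) (.cons (t1 7 24 49) (.cons a64 (.cons (t2 3 7 17) (.cons (t3 7 8 17) (.cons a181 (.cons (t3 8 10 46) (.cons (t3 7 8 23) (.cons (t2 7 17 46) (.cons s143 (.cons a195 (.cons (t3 24 46 49) (.cons a189 (.cons (t2 10 18 49) (.cons a404 (.cons a513 (.cons (t1 7 17 18) (.cons a348 (.cons a349 (.cons (t2 3 17 49) (.cons (t1 3 10 49) (.cons s16 (.cons a169 (.cons (t2 10 34 49) (.cons s844 (.cons (t1 3 17 30) (.cons (t1 17 18 30) (.cons a468 (.cons (t3 10 30 49) (.cons (t2 10 19 30) (.cons a346 (.cons (t2 3 7 19) (.cons (t3 10 24 49) (.cons (t1 7 10 49) (.cons a194 (.cons (t3 23 24 49) (.cons (t2 8 23 49) (.cons (t2 8 23 24) (.cons s74 (.cons s932 (.cons (t1 3 7 21) (.cons a400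 (.cons a30 (.cons (t1 3 7 45) (.cons (t2 7 17 45) (.cons (t3 7 10 45) (.cons (t1 7 45 49) (.cons (t3 7 21 45) (.cons (t2 7 18 45) (.cons (t2 17 20 45) (.cons s118 (.cons s444 (.cons (t2 10 21 49) (.cons (t2 10 21 24) (.cons (t3 8 10 21) (.cons (t1 10 21 23) (.cons a137 (.cons a142 (.cons s3 (.cons (t3 0 8 23) (.cons a505 (.cons (t1 0 21 49) (.cons (t3 0 19 21) (.cons a492 (.cons a494 (.cons (t1 0 19 22) (.cons s354 (.cons (t3 3 22 45) (.cons a58 (.cons a59 (.cons (t3 3 16 17) (.cons a337 (.cons (t1 16 19 30) (.cons (t1 16 19 21) (.cons a372 (.cons a375 (.cons (t3 11 16 21) (.cons (t1 11 17 45) (.cons (t2 11 17 20) (.cons a380 (.cons a33 (.cons (t2 7 36 45) (.cons (t2 18 36 45) (.cons (t1 20 21 24) (.cons (t2 20 21 23) (.cons s845 (.cons a483 (.cons (t1 20 24 36) (.cons (t3 20 23 36) .nil)))))))))))))))))))))))))))))))))))))))))))))))))))))))))))))))))))))))))))))))))))))))))))) (by decide +kernel)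
theorem s940 : Valid A [2906, 1344, 3904, 3028, 3773, 3035, 2735, 1370, 972, 1341, 3133, 1319, 1329, 916, 404, 938, 419] := rup _
  (.cons (t2 10 19 30) (.cons a395 (.cons (t1 22 23 45) (.cons (t2 10 22 24) (.cons (t2 10 22 30) (.cons (t3 3 10 22) (.cons (t3 7 10 22) (.cons (t2 10 19 22) (.cons (t1 10 22 32) (.cons a474 (.cons a475 (.cons a339 (.cons a340 (.cons a464 (.cons a495 (.cons (t3 16 19 30) (.cons a56 (.cons (t3 23 32 51) (.cons s28 (.cons (t2 3 16 17) (.cons (t1 23 32 42) (.cons (t1 5 21 23) (.cons a376 (.cons a363 (.cons a207 (.cons a371 (.cons (t3 7 22 42) (.cons (t2 22 24 42) (.cons (t2 5 7 38) (.cons (t3 11 24 30) (.cons (t3 11 29 30) (.cons (t2 5 7 42) (.cons (t1 11 24 42) (.cons a198 (.cons a133 (.cons (t3 11 38 42) .nil)))))))))))))))))))))))))))))))))))) (by decide +kernel)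
theorem s941 : Valid A [1067, 2266, 2779, 972, 1319, 3939, 916, 1379, 938, 3171, 1071, 419] := rup _
  (.cons (t2 10 19 49) (.cons a344 (.cons (t3 19 21 49) (.cons (t3 10 24 49) (.cons (t2 10 19 24) (.cons (t3 19 21 24) (.cons a342 (.cons (t2 10 19 45) (.cons (t3 10 30 49) (.cons (t3 24 30 49) (.cons a404 (.cons (t2 3 17 49) (.cons (t1 3 10 49) (.cons a143 (.cons (t1 8 21 45) (.cons (t2 8 21 23) (.cons s377 (.cons (t3 21 29 45) (.cons a134 (.cons a357 (.cons (t2 8 23 45) (.cons (t1 17 29 49) (.cons (t3 10 29 49) (.cons (t3 29 30 49) (.cons a151 (.cons (t2 23 42 45) (.cons (t1 29 30 32) (.cons (t2 10 29 32) (.cons s940 (.cons (t1 17 22 45) (.cons (t2 22 29 45) (.cons a138 .nil)))))))))))))))))))))))))))))))) (by decide +kernel)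
theorem s942 : Valid A [2906, 2747, 1370, 2779, 1314, 2218] := rup _
  (.cons (t2 21 22 45) (.cons a395 (.cons s203 (.cons (t3 10 17 22) .nil)))) (by decide +kernel)
theorem s943 : Valid A [2402, 2268, 1071, 912, 994, 419] := rup _
  (.cons s938 (.cons a404 (.cons (t2 3 17 49) (.cons a402 (.cons a405 (.cons (t2 3 17 24) (.cons (t1 7 24 49) (.cons a64 (.cons (t2 3 7 17) (.cons (t3 7 8 17) (.cons a181 (.cons (t3 8 10 46) (.cons (t3 7 8 23) (.cons (t2 7 17 46) (.cons s143 (.cons a195 (.cons (t3 24 46 49) (.cons a189 (.cons (t1 3 10 49) (.cons s16 (.cons a169 (.cons (t2 10 34 49) (.cons s844 (.cons (t1 3 17 30) (.cons (t3 10 24 49) (.cons (t1 7 10 49) (.cons (t2 10 17 49) (.cons a194 (.cons (t2 8 23 24) (.cons (t3 23 24 49) (.cons s932 (.cons (t1 3 7 21) (.cons (t1 3 17 21) (.cons a513 (.cons (t2 10 18 49) (.cons (t1 7 17 18) (.cons (t1 17 18 30) (.cons a348 (.cons a468 (.cons a349 (.cons (t2 10 19 24) (.cons (t1 10 19 46) (.cons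 (t2 10 19 49) (.cons s443 (.cons (t2 7 18 38) (.cons s939 (.cons s156 (.cons (t1 7 17 45) (.cons a342 (.cons a344 (.cons (t2 10 19 45) (.cons (t3 19 45 49) (.cons (t3 19 21 24) (.cons s941 (.cons s202 (.cons s942 (.cons (t1 17 22 45) (.cons (t2 22 45 49) (.cons s626 .nil))))))))))))))))))))))))))))))))))))))))))))))))))))))))))) (by decide +kernel)
theorem s944 : Valid A [2268, 1071, 912, 994, 419] := rup _
  (.cons s938 (.cons a405 (.cons (t2 3 17 24) (.cons (t1 7 24 49) (.cons a64 (.cons (t2 3 7 17) (.cons (t3 7 8 17) (.cons s16 (.cons a404 (.cons (t2 3 17 49) (.cons a169 (.cons (t3 7 8 23) (.cons a402 (.cons (t2 7 17 46) (.cons a181 (.cons s143 (.cons (t3 8 10 46) (.cons a194 (.cons a195 (.cons (t3 23 24 49) (.cons (t3 24 46 49) (.cons (t2 8 23 49) (.cons a189 (.cons (t1 3 10 49) (.cons (t1 7 10 49) (.cons (t2 10 34 49) (.cons s844 (.cons (t1 3 7 30) (.cons s943 (.cons a469 (.cons (t1 7 18 49) (.cons (t3 10 18 49) (.cons (t2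 10 30 49) (.cons a350 (.cons s183 (.cons a345 (.cons s432 (.cons s128 (.cons s804 .nil))))))))))))))))))))))))))))))))))))))) (by decide +kernel)
theorem s945 : Valid A [987, 3928, 985, 2343, 422, 867, 2403, 938, 994, 426] := rup _
  (.cons a471 (.cons (t1 18 19 30) (.cons a86 (.cons a88 (.cons (t3 7 21 45) (.cons (t3 2 7 44) (.cons s776 (.cons s444 (.cons (t3 2 18 49) (.cons (t3 2 6 49) (.cons (t1 18 19 21) (.cons (t1 19 21 30) (.cons (t1 2 18 21) (.cons a73 (.cons (t1 2 21 52) (.cons a68 (.cons a222 (.cons (t3 30 44 52) .nil)))))))))))))))))) (by decide +kernel)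
theorem s946 : Valid A [1071, 912, 994, 419] := rup _
  (.cons s932 (.cons (t1 3 17 21) (.cons a39 (.cons a38 (.cons a400 (.cons a521 (.cons (t3 7 8 23) (.cons s938 (.cons a169 (.cons a171 (.cons a404 (.cons a405 (.cons (t1 7 24 49) (.cons (t2 3 17 24) (.cons a64 (.cons s16 (.cons (t1 3 7 21) (.cons (t2 3 7 17) (.cons (t1 3 7 27) (.cons (t1 3 17 34) (.cons (t1 7 17 23) (.cons s944 (.cons s71 (.cons (t3 17 24 46) (.cons (t1 17 46 49) (.cons (t1 7 17 46) (.cons (t1 3 17 46) (.cons (t3 17 27 46) (.cons (t3 17 21 46) (.cons (t3 17 34 46) (.cons (t3 17 23 46) (.cons a513 (.cons (t2 7 17 18) (.cons a193 (.cons a469 (.cons (t3 18 24 49) (.cons (t2 18 34 49) (.cons (t1 23 24 49) (.cons (t1 8 23 24) (.cons (t2 23 24 34) (.cons (t3 10 23 24) (.cons (t3 18 23 24) (.cons (t1 23 24 48) (.cons (t2 23 30 49) (.cons (t1 8 23 49) (.cons (t3 10 23 49) (.cons a484 (.cons a44 (.cons s145 (.cons a189 (.cons (t3 23 36 49) (.cons (t2 3 17 48) (.cons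 (t3 7 10 46) (.cons (t2 10 34 46) (.cons (t3 10 17 46) (.cons (t2 10 27 46) (.cons s140 (.cons (t1 10 17 48) (.cons (t3 7 36 46) (.cons (t3 10 36 46) (.cons (t3 17 36 46) (.cons (t3 3 36 46) (.cons (t1 21 36 46) (.cons a54 (.cons (t1 3 7 33) (.cons (t3 3 33 48) (.cons s176 (.cons (t2 33 34 49) (.cons s148 (.cons a304 (.cons (t3 6 7 48) (.cons (t3 6 24 49) (.cons (t3 6 23 49) (.cons a301 (.cons a302 (.cons (t1 6 23 39) (.cons (t3 24 39 49) (.cons s848 (.cons s842 (.cons s852 (.cons (t1 7 17 39) (.cons (t1 3 17 39) (.cons (t3 17 21 39) (.cons (t2 17 36 39) (.cons (t1 10 17 39) (.cons (t2 3 7 19) (.cons a345 (.cons (t3 7 19 46) (.cons (t2 7 10 50) (.cons s180 (.cons a440 (.cons a49 (.cons (t2 18 19 49) (.cons (t2 18 19 24) (.cons (t1 18 19 34) (.cons (t2 18 19 23) (.cons a247 (.cons (t1 18 24 27) (.cons a317 (.cons (t2 7 30 39) (.cons (t1 30 36 39) (.cons (t2 10 30 39) (.cons s344 (.cons (t3 9 10 48) (.cons a277 (.cons (t3 14 18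 27) (.cons (t3 10 24 38) (.cons (t3 10 30 38) (.cons s167 (.cons (t1 18 24 44) (.cons a524 (.cons (t3 9 24 49) (.cons a269 (.cons (t3 18 41 49) (.cons (t1 18 24 41) (.cons (t1 7 39 44) (.cons (t3 30 39 44) (.cons a442 (.cons (t3 21 39 41) (.cons s945 (.cons s156 (.cons s132 (.cons (t1 7 36 45) (.cons a342 (.cons a344 (.cons (t1 2 8 49) (.cons (t3 19 45 49) (.cons (t1 19 23 45) (.cons (t3 19 21 24) (.cons (t3 19 21 49) (.cons (t3 19 21 23) (.cons a79 (.cons s727 (.cons s750 (.cons s271 (.cons s680 (.cons s294 (.cons (t3 2 21 45) (.cons (t2 9 11 49) (.cons (t2 8 24 43) (.cons (t2 9 24 43) (.cons a215 (.cons s752 (.cons a243 (.cons a82 (.cons s749 (.cons s231 (.cons (t3 11 30 43) (.cons (t2 2 21 43) (.cons a222 (.cons (t2 21 30 43) .nil))))))))))))))))))))))))))))))))))))))))))))))))))))))))))))))))))))))))))))))))))))))))))))))))))))))))))))))))))))))))))))))))))))))))))))))))))))))) (by decide +kernel)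
theorem s947 : Valid A [987, 944, 938, 3170, 994, 419] := rup _
  (.cons s932 (.cons (t3 7 24 45) (.cons (t1 7 45 49) (.cons (t3 7 21 45) (.cons a60 (.cons (t2 3 17 45) (.cons (t2 17 45 49) (.cons (t2 17 24 45) (.cons a403 .nil))))))))) (by decide +kernel)
theorem s948 : Valid A [2778, 944, 938, 2402, 476, 917, 3170, 912, 994, 419] := rup _
  (.cons s947 (.cons (t1 7 10 45) (.cons (t1 7 10 21) (.cons (t1 7 10 49) (.cons s946 (.cons (t3 7 8 10) (.cons a399 (.cons (t1 10 23 49) (.cons (t1 7 10 23) (.cons s932 (.cons a38 (.cons a60 (.cons s199 (.cons s118 (.cons s156 (.cons (t2 3 17 45) (.cons s177 (.cons (t2 7 10 19) (.cons a64 (.cons (t1 3 45 51) (.cons a45 (.cons a46 (.cons (t2 3 17 24) (.cons (t3 3 21 24) (.cons (t2 3 24 45) (.cons (t1 3 24 27) (.cons (t2 3 24 49) (.cons (t1 3 24 46) (.cons (t2 3 24 51) (.cons a406 (.cons s792 (.cons a23 (.cons s563 (.cons a513 (.cons a187 (.cons s42 (.cons (t3 7 21 46) (.cons (t2 17 20 24)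 (.cons (t3 20 24 45) (.cons (t2 17 18 24) (.cons (t2 17 18 45) (.cons s182 (.cons a345 (.cons s340 (.cons (t1 17 18 20) (.cons a29 (.cons (t2 18 19 45) (.cons (t2 8 24 49) (.cons (t3 8 18 24) (.cons (t2 8 24 48) (.cons (t1 8 24 45) (.cons (t1 18 19 49) (.cons (t1 17 18 19) (.cons (t1 8 18 19) (.cons (t1 18 19 20) (.cons (t2 7 20 23) (.cons (t2 7 10 20) (.cons (t1 7 20 21) (.cons a520 (.cons a357 (.cons a335 (.cons (t1 20 23 48) (.cons (t1 23 48 49) (.cons (t1 7 23 48) (.cons (t2 24 42 45) (.cons (t2 19 42 45) (.cons (t2 18 19 39) (.cons s211 (.cons a479 (.cons s181 (.cons (t3 3 36 45) (.cons (t3 7 36 48) (.cons (t3 20 36 48) (.cons s384 (.cons s670 (.cons a33 (.cons a110 (.cons (t3 7 11 20) (.cons (t1 11 20 23) (.cons (t3 10 11 20) (.cons (t1 11 20 36) (.cons s766 (.cons a239 (.cons a389 (.cons (t2 20 23 52) (.cons (t2 7 11 28) (.cons (t3 11 28 36) (.cons a14 (.cons a487 (.cons a233 (.cons (t3 19 49 52) (.cons (t3 19 42 52) (.cons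 (t3 21 24 28) (.cons (t2 8 19 32) (.cons a234 (.cons a367 (.cons s179 (.cons (t1 28 42 49) .nil)))))))))))))))))))))))))))))))))))))))))))))))))))))))))))))))))))))))))))))))))))))))))))))))))) (by decide +kernel)
theorem s949 : Valid A [2786, 660, 700, 731, 828, 268, 934, 1353, 2760, 4706, 2779, 354, 986, 1378] := rup _
  (.cons (t3 21 36 45) (.cons (t1 21 45 49) (.cons s680 (.cons a79 (.cons s727 (.cons a215 (.cons s764 (.cons (t1 5 11 30) .nil)))))))) (by decide +kernel)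
theorem s950 : Valid A [2906, 828, 867, 934, 3930, 3004, 1353, 2760, 4706, 2779, 3034, 354, 986, 1378, 917] := rup _
  (.cons (t1 2 6 49) (.cons (t3 21 36 45) (.cons (t1 7 10 45) (.cons a395 (.cons s716 (.cons (t1 7 10 22) (.cons s177 (.cons a227 (.cons (t3 5 21 45) (.cons (t2 5 30 45) (.cons (t2 5 10 45) (.cons s949 (.cons (t2 21 45 49) (.cons (t3 6 21 49) (.cons (t1 5 21 49) (.cons a80 (.cons a216 (.cons a85 (.cons (t1 11 45 49) (.cons (t2 2 7 52) (.cons a379 (.cons a71 (.cons (t3 10 11 36) (.cons s35 (.cons a389 (.cons (t1 6 21 28) (.cons (t3 11 28 36) (.cons a487 .nil)))))))))))))))))))))))))))) (by decide +kernel)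
theorem s951 : Valid A [3938, 2760, 2394, 1316, 2350, 2346, 932, 2358, 421, 2353, 3164, 4706, 2225, 482, 2779, 986, 944, 2734, 2402, 917, 3170, 912, 994, 419] := rup _
  (.cons s946 (.cons (t1 3 17 24) (.cons a45 (.cons s792 (.cons a187 (.cons s182 (.cons (t2 8 24 48) (.cons a520 (.cons (t1 7 10 49) (.cons (t3 7 8 10) (.cons a399 (.cons (t1 10 23 49) (.cons (t1 23 48 49) (.cons a479 (.cons (t3 23 36 48) (.cons (t1 10 23 48) (.cons (t3 10 36 48) (.cons (t1 7 10 23) (.cons (t1 7 23 48) (.cons (t3 7 36 48) (.cons a46 (.cons s211 (.cons (t3 21 36 45) (.cons (t2 8 24 49) (.cons (t2 7 10 46) (.cons (t1 7 17 24) (.cons a39 (.cons (t1 17 24 27) (.cons (t1 7 23 45) (.cons s132 (.cons s38 (.cons a468 (.cons s733 (.cons (t1 3 18 30) (.cons (t3 18 23 30) (.cons (t3 10 18 30) (.cons (t3 7 18 30) (.cons (t3 18 27 30) (.cons (t3 18 21 30) (.cons (t1 18 30 45) (.cons s731 (.cons a50 (.cons a162 (.cons (t3 27 30 34) (.cons a168 (.cons (t1 3 17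 39) (.cons (t1 3 18 39) (.cons s773 (.cons s670 (.cons s774 (.cons a112 (.cons a447 (.cons a448 (.cons (t3 7 24 33) (.cons (t2 7 10 33) (.cons s180 (.cons (t1 7 10 41) (.cons a95 (.cons a429 (.cons (t1 7 10 50) (.cons (t3 24 49 50) (.cons (t3 2 49 50) (.cons a313 (.cons s760 (.cons (t3 27 49 50) (.cons (t1 2 27 50) (.cons (t1 9 10 48) (.cons a116 (.cons a262 (.cons (t3 15 27 41) (.cons (t1 6 7 48) (.cons (t1 6 10 48) (.cons a304 (.cons (t2 6 30 49) (.cons (t3 6 27 49) (.cons s950 (.cons s909 (.cons a222 (.cons s84 (.cons (t3 21 23 52) (.cons a487 (.cons s121 (.cons (t3 23 28 36) (.cons (t3 10 28 36) (.cons a388 (.cons (t1 11 23 28) (.cons (t3 11 28 36) (.cons a238 (.cons s753 (.cons s782 (.cons (t1 6 11 52) (.cons (t3 6 11 49) .nil)))))))))))))))))))))))))))))))))))))))))))))))))))))))))))))))))))))))))))))))))))))))))))) (by decide +kernel)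
theorem s952 : Valid A [5862, 934, 3943, 3939, 1353, 2760, 4706, 2779, 1370, 986, 1327, 1378] := rup _
  (.cons s31 (.cons (t3 5 30 49) (.cons (t2 30 49 51) (.cons (t1 10 23 49) (.cons (t1 23 30 49) (.cons (t3 21 36 45) (.cons s177 (.cons (t1 45 49 51) (.cons (t2 5 10 45) (.cons s727 (.cons s133 (.cons (t1 11 30 49) (.cons (t3 10 11 23) (.cons (t3 10 11 36) (.cons s231 (.cons s753 .nil)))))))))))))))) (by decide +kernel)
theorem s953 : Valid A [934, 1325, 3939, 1353, 969, 456, 993, 1377, 1122, 2760, 932, 2358, 3126, 2213, 4706, 482, 2779, 986, 944, 1327, 917, 3170, 912, 994] := rup _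
  (.cons s132 (.cons (t1 2 30 49) (.cons (t1 7 10 49) (.cons (t1 10 30 49) (.cons (t1 10 22 30) (.cons (t2 10 22 23) (.cons a497 (.cons a472 (.cons (t3 2 30 51) (.cons (t2 30 49 51) (.cons (t1 7 10 22) (.cons a227 (.cons s38 (.cons s534 (.cons (t3 30 34 49) (.cons a470 (.cons (t3 18 30 34) (.cons (t1 7 10 45) (.cons a345 (.cons (t1 17 18 19) (.cons (t1 18 19 27) (.cons (t1 18 19 34) (.cons a335 (.cons a154 (.cons (t2 18 19 39) (.cons s48 (.cons s670 (.cons s180 (.cons (t3 7 24 33) (.cons (t2 7 10 33) (.cons a429 (.cons (t1 7 10 50) (.cons (t3 24 49 50) (.cons s760 (.cons (t1 9 10 48) (.cons a262 (.cons (t1 6 7 48) (.cons a304 (.cons (t1 2 6 49) (.cons (t1 6 49 51) (.cons s952 (.cons (t1 21 45 51) (.cons (t1 2 45 51) (.cons (t3 21 30 51) (.cons (t3 6 21 51) (.cons a85 (.cons a223 (.cons (t2 2 7 52) (.cons (t2 6 21 52) (.cons a71 .nil)))))))))))))))))))))))))))))))))))))))))))))))))) (by decide +kernel)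
theorem s954 : Valid A [1325, 3939, 1353, 969, 456, 993, 1377, 1122, 2760, 404, 932, 3126, 2213, 4706, 482, 2779, 986, 944, 917, 3170, 912, 994, 419] := rup _
  (.cons (t1 7 10 49) (.cons s946 (.cons (t3 7 8 10) (.cons a399 (.cons (t1 10 23 49) (.cons (t1 23 30 49) (.cons (t1 10 30 49) (.cons (t1 3 30 49) (.cons (t3 21 36 45) (.cons a39 (.cons (t1 17 18 27) (.cons (t1 7 10 23) (.cons (t2 10 22 23) (.cons (t1 10 22 30) (.cons (t3 3 10 22) (.cons (t1 7 10 22) (.cons a497 (.cons a227 (.cons a472 (.cons (t1 7 23 52) (.cons s953 (.cons (t2 7 19 22) (.cons a340 (.cons a56 (.cons (t2 3 16 17) (.cons (t1 3 16 30) (.cons a376 (.cons a371 (.cons (t2 11 23 30) (.cons (t1 11 30 51) (.cons s751 (.cons a238 (.cons (t2 11 51 52) (.cons (t1 30 51 52) .nil)))))))))))))))))))))))))))))))))) (by decide +kernel)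
theorem s955 : Valid A [5862, 934, 2907, 3939, 1353, 969, 2760, 4706, 2779, 1370, 986, 943, 1327, 1378] := rup _
  (.cons (t3 21 36 45) (.cons s177 (.cons s952 (.cons s126 (.cons (t3 21 30 45) (.cons (t2 30 45 49) (.cons a223 (.cons (t1 5 45 49) (.cons (t1 21 45 52) (.cons a216 (.cons s131 (.cons (t1 11 45 49) (.cons (t2 7 23 52) (.cons (t2 7 36 52) (.cons a379 (.cons a240 (.cons (t1 11 36 52) .nil))))))))))))))))) (by decide +kernel)
theorem s956 : Valid A [5863, 2907, 940, 3939, 1353, 969, 4706, 2779, 986, 917, 994] := rup _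
  (.cons (t1 7 30 49) (.cons a202 (.cons (t1 21 45 51) (.cons (t1 22 45 51) (.cons a473 (.cons a475 (.cons (t2 21 30 51) (.cons (t1 30 45 51) (.cons (t3 22 30 49) (.cons s762 (.cons s376 .nil))))))))))) (by decide +kernel)
theorem s957 : Valid A [2274, 944, 938, 2402, 2268, 917, 3170, 912, 994, 419] := rup _
  (.cons s932 (.cons (t1 3 17 21) (.cons (t2 3 17 46) (.cons s948 (.cons (t3 17 21 45) (.cons s947 (.cons (t1 7 10 45) (.cons s946 (.cons (t3 7 8 10) (.cons a399 (.cons (t1 7 10 23) (.cons (t1 7 23 24) (.cons (t1 7 10 24) (.cons (t3 7 21 23) (.cons (t1 7 10 49) (.cons (t1 10 23 49) (.cons a39 (.cons (t2 3 17 49) (.cons a403 (.cons s563 (.cons a513 (.cons (t1 3 17 24) (.cons (t1 17 24 27) (.cons (t3 17 21 24) (.cons s792 (.cons (t1 17 24 46) (.cons (t1 7 17 24) (.cons (t1 10 17 24) (.cons (t2 17 23 24) (.cons (t2 17 18 24) (.cons (t1 3 17 18) (.cons (t1 17 18 27) (.cons (t3 7 17 18) (.cons (t1 17 18 21) (.cons (t1 17 18 23)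 (.cons (t3 10 17 18) (.cons (t1 17 18 45) (.cons a45 (.cons a46 (.cons (t2 3 10 24) (.cons a187 (.cons (t3 7 21 46) (.cons s182 (.cons s340 (.cons (t2 8 24 49) (.cons (t2 8 24 48) (.cons (t3 21 36 45) (.cons a520 (.cons (t1 23 48 49) (.cons (t1 10 23 48) (.cons (t1 7 23 48) (.cons s211 (.cons a479 (.cons (t3 7 36 48) (.cons (t3 10 36 48) (.cons s951 (.cons (t1 10 30 49) (.cons (t1 23 30 49) (.cons s954 (.cons (t2 7 10 22) (.cons (t3 10 22 23) (.cons a395 (.cons s956 (.cons s177 (.cons (t2 22 45 51) (.cons a495 (.cons s264 (.cons (t3 21 30 45) (.cons (t2 30 45 49) (.cons a223 (.cons (t1 5 45 49) (.cons (t1 21 45 52) (.cons a216 (.cons s131 (.cons (t1 11 45 49) (.cons (t2 7 23 52) (.cons (t2 7 36 52) (.cons a379 (.cons a240 (.cons (t1 11 36 52) .nil)))))))))))))))))))))))))))))))))))))))))))))))))))))))))))))))))))))))))))))))) (by decide +kernel)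
theorem s958 : Valid A [944, 938, 419, 2402, 2268, 917, 3170, 912, 994] := rup _
  (.cons s957 (.cons a406 (.cons (t1 7 17 49) (.cons (t2 3 17 24) (.cons (t2 3 7 17) (.cons a64 .nil)))))) (by decide +kernel)
theorem s959 : Valid A [945, 2268, 943, 1327, 1378, 3170, 419] := rup _
  (.cons a67 (.cons (t2 7 23 24) (.cons (t1 3 17 24) (.cons a194 (.cons a403 (.cons (t2 10 23 46) (.cons (t3 17 46 49) (.cons a189 .nil)))))))) (by decide +kernel)
theorem s960 : Valid A [2906, 1468, 3930, 3004, 956, 5858, 3034, 1370, 939, 1327, 1378, 917] := rup _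
  (.cons a208 (.cons (t3 5 7 10) (.cons a395 (.cons s716 (.cons (t1 7 10 22) (.cons s177 (.cons a227 (.cons (t2 5 45 49) (.cons s147 (.cons s133 (.cons s231 (.cons (t3 10 11 23) .nil)))))))))))) (by decide +kernel)
theorem s961 : Valid A [3939, 1506, 986, 3017, 2761, 1316, 2353, 2346, 932, 2213, 482, 939, 1327, 917, 994, 426] := rup _
  (.cons s132 (.cons (t1 3 7 21) (.cons s153 (.cons (t1 3 45 49) (.cons a79 (.cons a87 (.cons s483 (.cons (t1 7 21 45) (.cons (t2 2 21 45) (.cons (t1 7 10 23) (.cons (t1 7 23 45) (.cons (t1 7 10 45) (.cons (t1 7 21 49) (.cons (t1 7 10 49) (.cons (t1 10 23 49) (.cons (t1 3 30 49) (.cons (t1 7 30 49) (.cons (t1 23 30 49) (.cons (t1 21 30 49) (.cons (t2 30 45 49) (.cons (t1 11 30 49) (.cons s960 (.cons a398 (.cons (t3 3 22 45) (.cons (t1 7 22 45) (.cons (t2 22 30 45) (.cons s909 (.cons a58 (.cons s325 (.cons s681 (.cons (t3 3 16 45) (.cons (t2 7 23 52) (.cons (t3 2 7 52) (.cons a239 (.cons s343 (.cons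 (t3 11 23 36) (.cons s688 (.cons s543 (.cons a345 (.cons a349 (.cons (t1 3 11 16) (.cons (t1 7 19 30) (.cons s108 (.cons a371 (.cons (t2 16 19 30) .nil))))))))))))))))))))))))))))))))))))))))))))) (by decide +kernel)
theorem s962 : Valid A [986, 3164, 939, 2402, 944, 917, 3170, 912, 994, 419] := rup _
  (.cons s946 (.cons (t3 7 8 10) (.cons a399 (.cons s932 (.cons (t1 3 7 21) (.cons a64 (.cons a45 (.cons (t2 3 17 24) (.cons s792 (.cons a187 (.cons s182 (.cons (t2 8 24 48) (.cons a520 (.cons (t1 10 23 48) (.cons a406 (.cons s563 (.cons (t1 7 10 49) (.cons (t1 10 23 49) (.cons (t1 23 48 49) (.cons a479 (.cons (t3 10 36 48) (.cons (t1 7 10 23) (.cons (t2 7 21 23) (.cons (t1 21 23 48) (.cons (t3 21 36 48) (.cons a489 (.cons (t2 10 28 36) (.cons (t3 23 36 48) (.cons (t1 7 23 48) (.cons (t3 7 36 48) (.cons a46 (.cons (t2 3 24 49) (.cons s211 (.cons (t3 3 8 24) (.cons (t2 8 24 49) (.cons (t1 3 17 21) (.cons (t2 7 17 21) (.cons (t1 7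 10 17) (.cons a513 (.cons (t3 10 17 18) (.cons a39 (.cons (t1 17 18 27) (.cons (t1 3 17 18) (.cons (t2 17 18 24) (.cons (t1 7 21 24) (.cons s228 (.cons s73 (.cons (t2 7 10 46) (.cons s42 (.cons a38 (.cons (t1 3 24 27) (.cons (t2 7 10 21) (.cons s38 (.cons s132 (.cons (t1 7 23 45) (.cons s153 (.cons s157 (.cons (t1 7 36 45) (.cons (t1 3 45 49) (.cons (t2 3 8 45) (.cons s727 (.cons a79 (.cons (t3 2 8 45) (.cons a87 (.cons (t3 2 24 45) (.cons (t2 2 23 45) (.cons a83 (.cons s483 (.cons (t3 2 6 24) (.cons s961 (.cons a468 (.cons s733 (.cons (t1 3 18 30) (.cons (t3 10 18 30) (.cons (t3 18 27 30) (.cons s731 (.cons a50 (.cons a162 (.cons (t3 27 30 34) (.cons a168 (.cons (t1 3 24 39) (.cons (t1 3 17 39) (.cons (t1 3 18 39) (.cons a300 (.cons s773 (.cons s181 (.cons s670 (.cons s774 (.cons (t1 7 23 39) (.cons (t2 6 7 39) (.cons a447 (.cons (t3 7 24 33) (.cons (t2 7 10 33) (.cons s180 (.cons (t2 6 23 39) (.cons a304 (.cons (t1 7 21 41)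 (.cons a429 (.cons (t1 7 10 50) (.cons (t2 6 39 49) (.cons (t3 24 49 50) (.cons (t3 8 49 50) (.cons a443 (.cons s760 (.cons (t3 41 49 50) (.cons (t1 9 10 21) (.cons a426 (.cons (t1 8 41 43) (.cons a451 (.cons (t1 9 21 43) (.cons a245 (.cons (t3 9 11 21) (.cons s924 (.cons (t3 2 23 52) (.cons (t3 6 23 52) (.cons a71 .nil)))))))))))))))))))))))))))))))))))))))))))))))))))))))))))))))))))))))))))))))))))))))))))))))))))))))))))))))))))) (by decide +kernel)
theorem s963 : Valid A [2402, 2268, 917, 3170, 912, 994, 419] := rup _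
  (.cons (t1 7 10 49) (.cons s946 (.cons (t3 7 8 10) (.cons a399 (.cons (t1 7 10 23) (.cons s959 (.cons (t2 3 17 46) (.cons (t1 10 23 49) (.cons s932 (.cons a38 (.cons s958 (.cons a208 (.cons (t1 3 7 21) (.cons (t1 7 21 24) (.cons (t2 7 10 21) (.cons (t2 7 21 23) (.cons a64 (.cons a506 (.cons a45 (.cons a46 (.cons (t2 3 17 24) (.cons (t1 3 24 27) (.cons (t2 3 24 49) (.cons (t1 3 24 46) (.cons (t1 0 7 23) (.cons a406 (.cons s792 (.cons s563 (.cons a513 (.cons a187 (.cons s42 (.cons s182 (.cons a181 (.cons (t2 8 24 49) (.cons (t2 8 24 48) (.cons a520 (.cons (t1 23 48 49) (.cons (t1 7 23 48) (.cons s211 (.cons a479 (.cons (t3 7 36 48) (.cons s962 (.cons a30 (.cons a32 (.cons (t3 7 24 45) (.cons (t2 7 21 45) (.cons (t3 5 7 45) (.cons (t2 7 45 48) (.cons (t2 7 36 45) (.cons (t1 20 21 45) (.cons (t3 7 20 48) (.cons a342 (.cons s177 (.cons (t2 45 48 51) (.cons a380 (.cons (t3 20 48 51) (.cons (t2 7 19 45) (.cons (t3 24 45 51) (.cons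 (t1 11 21 45) (.cons (t2 7 11 45) (.cons a22 (.cons a345 (.cons a33 (.cons a383 (.cons (t3 17 20 24) (.cons (t1 17 18 19) (.cons (t1 11 20 24) (.cons (t1 0 11 20) (.cons s4 (.cons a335 (.cons (t3 0 17 20) (.cons (t1 11 24 29) (.cons (t2 18 19 39) (.cons a511 (.cons a134 (.cons s670 (.cons (t1 4 8 17) (.cons (t1 10 21 29) (.cons a110 (.cons a147 (.cons s766 (.cons (t3 7 15 21) (.cons (t1 4 21 29) (.cons a429 (.cons s261 (.cons (t3 24 49 50) (.cons (t3 8 49 50) (.cons (t3 4 8 15) (.cons a313 (.cons a105 (.cons (t3 27 49 50) (.cons (t3 15 27 50) (.cons a116 .nil))))))))))))))))))))))))))))))))))))))))))))))))))))))))))))))))))))))))))))))))))))))))))))) (by decide +kernel)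
theorem s964 : Valid A [1340, 14, 2907, 2862, 2779, 2748, 986, 1353, 969, 4706, 1327, 917] := rup _
  (.cons (t3 21 30 45) (.cons (t1 7 10 45) (.cons (t2 7 10 30) (.cons (t1 10 23 30) (.cons s762 (.cons a202 (.cons (t2 22 45 51) (.cons s264 (.cons a495 .nil))))))))) (by decide +kernel)
theorem s965 : Valid A [1341, 1122, 456, 969, 404, 420, 482, 932, 2364, 944, 917, 3170, 912, 994] := rup _
  (.cons a393 (.cons (t3 3 10 30) (.cons (t2 7 10 33) (.cons s139 (.cons s670 .nil))))) (by decide +kernel)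
theorem s966 : Valid A [2268, 917, 3170, 912, 994, 419] := rup _
  (.cons (t1 7 10 49) (.cons s946 (.cons (t3 7 8 10) (.cons a399 (.cons (t1 10 23 49) (.cons (t1 7 10 23) (.cons s38 (.cons a39 (.cons (t2 3 17 46) (.cons s959 (.cons (t1 7 23 24) (.cons s963 (.cons a469 (.cons a471 (.cons a514 (.cons a516 (.cons s80 (.cons (t1 7 18 49) (.cons (t2 18 23 49) (.cons (t2 3 17 49) (.cons a403 (.cons s563 (.cons (t2 3 17 18) (.cons a189 (.cons (t1 3 17 24) (.cons (t1 17 24 27) (.cons (t1 17 24 46) (.cons (t1 7 17 24) (.cons (t2 18 36 49) (.cons (t3 8 10 46) (.cons (t1 3 10 46) (.cons (t2 3 23 24) (.cons a483 (.cons s182 (.cons (t1 7 23 36) (.cons (t3 3 23 36) (.cons (t2 8 24 49) (.cons s965 (.cons a162 (.cons (t1 30 34 49) (.cons a168 (.cons (t1 3 24 34) (.cons (t3 24 27 34) (.cons (t3 3 30 34) (.cons a50 (.cons (t1 3 17 39) (.cons s773 (.cons a345 (.cons s774 (.cons (t3 17 18 19) (.cons s180 (.cons a333 (.cons a429 (.cons (t1 18 19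 39) (.cons (t1 18 49 50) (.cons a434 .nil)))))))))))))))))))))))))))))))))))))))))))))))))))))))) (by decide +kernel)
theorem s967 : Valid A [917, 3170, 912, 994, 419] := rup _
  (.cons s946 (.cons (t3 7 8 10) (.cons a399 (.cons (t1 7 10 23) (.cons s966 (.cons a183 (.cons a185 (.cons (t1 7 46 49) (.cons (t2 7 23 46) (.cons s160 (.cons a195 .nil))))))))))) (by decide +kernel)
theorem s968 : Valid A [463, 466, 5090, 1124, 484, 6372, 1122] := rup _
  (.cons (t1 3 39 50) (.cons (t1 3 39 41) (.cons s185 (.cons a442 (.cons a426 (.cons (t1 8 41 49) .nil)))))) (by decide +kernel)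
theorem s969 : Valid A [3939, 462, 5090, 482] := rup _
  (.cons (t1 3 30 49) (.cons (t2 30 39 49) (.cons a48 .nil))) (by decide +kernel)
theorem s970 : Valid A [2274, 944, 2402, 2268, 3170, 912, 994, 419] := rup _
  (.cons s967 (.cons s946 (.cons a39 (.cons (t2 3 17 49) (.cons a403 (.cons s563 (.cons a513 (.cons (t1 3 17 24) (.cons (t1 17 24 27) (.cons (t1 17 24 46) (.cons (t1 7 17 24) (.cons s801 (.cons (t2 17 18 24) (.cons (t1 3 17 18) (.cons (t3 7 17 18) (.cons a66 (.cons a185 (.cons (t3 8 23 46) (.cons a193 (.cons (t1 7 23 24) (.cons (t3 18 23 24) (.cons s864 (.cons a484 (.cons s150 (.cons (t1 23 24 36) (.cons a177 (.cons (t1 36 46 49) (.cons (t2 8 46 49) (.cons s432 (.cons a431 (.cons (t3 3 7 50) (.cons s180 (.cons s766 (.cons (t3 7 8 50) (.cons (t3 7 18 50) (.cons a318 (.cons (t1 7 15 24) (.cons (t3 7 14 15) (.cons s482 (.cons a92 (.cons (t3 14 18 24) (.cons a524 (.cons (t2 3 18 41) (.cons s968 (.cons (t1 3 17 39) (.cons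 s969 (.cons a468 (.cons s733 (.cons (t3 7 18 30) (.cons s808 .nil)))))))))))))))))))))))))))))))))))))))))))))))))) (by decide +kernel)
theorem s971 : Valid A [944, 2402, 419, 2268, 3170, 912, 994] := rup _
  (.cons s970 (.cons a406 (.cons (t1 7 17 49) (.cons (t2 3 17 24) (.cons (t2 3 7 17) (.cons a64 .nil)))))) (by decide +kernel)
theorem s972 : Valid A [3939, 1090, 956, 1346, 1378, 1122, 3554, 945, 916, 912, 994] := rup _
  (.cons (t1 10 30 49) (.cons s183 (.cons a391 (.cons s432 (.cons (t2 30 33 49) (.cons (t2 7 24 50) (.cons (t3 7 8 50) (.cons (t3 7 33 50) (.cons a314 (.cons s712 (.cons (t2 7 24 27) (.cons s435 .nil)))))))))))) (by decide +kernel)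
theorem s973 : Valid A [2402, 2268, 3170, 912, 994, 419] := rup _
  (.cons s967 (.cons s946 (.cons a39 (.cons s971 (.cons a67 (.cons s158 (.cons (t3 7 10 24) (.cons (t1 3 17 24) (.cons s106 (.cons a403 (.cons (t2 17 48 49) (.cons (t3 17 27 49) (.cons (t3 17 46 49) (.cons (t2 3 17 48) (.cons (t2 34 46 49) (.cons a44 (.cons (t1 7 24 48) (.cons (t3 10 24 48) (.cons s864 (.cons (t3 7 10 23) (.cons (t2 7 23 24) (.cons a399 (.cons a194 (.cons a196 (.cons (t2 7 23 46) (.cons a185 (.cons s872 (.cons (t2 8 46 49) (.cons a192 (.cons (t2 10 34 46) (.cons s731 (.cons s135 (.cons (t2 7 24 30) (.cons (t2 8 10 33) (.cons s972 (.cons a468 (.cons (t1 30 34 49) (.cons s76 (.cons s338 .nil))))))))))))))))))))))))))))))))))))))) (by decide +kernel)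
theorem s974 : Valid A [2268, 3170, 912, 994, 419] := rup _
  (.cons s967 (.cons s946 (.cons s973 (.cons a514 (.cons (t2 18 24 49) (.cons a403 (.cons (t1 3 17 24) (.cons (t1 17 24 46) (.cons a45 (.cons a67 (.cons s801 (.cons a185 (.cons s60 (.cons (t3 8 23 46) (.cons a193 (.cons (t2 23 24 48) (.cons a520 (.cons s820 (.cons (t3 8 18 48) .nil))))))))))))))))))) (by decide +kernel)
theorem s975 : Valid A [3170, 912, 994, 419] := rup _
  (.cons s946 (.cons s967 (.cons s974 (.cons a183 (.cons (t1 3 17 46) (.cons a185 (.cons (t3 7 17 46) (.cons (t3 3 7 46) (.cons (t1 7 17 49) (.cons (t3 7 10 17) (.cons a65 (.cons a403 (.cons s809 .nil))))))))))))) (by decide +kernel)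
theorem s976 : Valid A [917, 988, 912, 994, 419] := rup _
  (.cons s975 (.cons (t1 7 24 49) (.cons a405 (.cons (t2 3 17 24) (.cons a64 (.cons s946 (.cons s870 (.cons (t1 7 10 46) .nil)))))))) (by decide +kernel)
theorem s977 : Valid A [3164, 2352, 3036, 400, 432, 3171, 1070] := rup _
  (.cons (t3 24 46 49) (.cons a193 (.cons (t1 23 24 49) (.cons (t1 18 23 24) (.cons s904 (.cons a480 (.cons s140 (.cons (t2 23 36 49) (.cons s78 (.cons a483 .nil)))))))))) (by decide +kernel)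
theorem s978 : Valid A [3939, 3165, 1319, 2214, 933, 421, 2213, 482, 3171, 994] := rup _
  (.cons (t2 24 46 49) (.cons a191 (.cons (t1 10 19 46) (.cons a404 (.cons (t1 17 30 49) (.cons (t1 3 30 49) (.cons s874 (.cons a160 (.cons a163 (.cons (t2 10 19 34) (.cons (t2 19 34 38) (.cons (t1 10 19 30) (.cons a173 (.cons (t1 38 46 49) (.cons a330 (.cons a429 (.cons (t2 7 18 50) (.cons a434 (.cons (t2 17 18 39) (.cons (t2 3 18 39) (.cons a333 (.cons a48 (.cons (t3 19 30 39) .nil))))))))))))))))))))))) (by decide +kernel)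
theorem s979 : Valid A [2402, 2268, 912, 994, 419] := rup _
  (.cons s975 (.cons (t1 7 24 49) (.cons a405 (.cons (t2 3 17 24) (.cons a64 (.cons (t2 3 7 17) (.cons (t2 7 17 46) (.cons s976 (.cons s946 (.cons (t3 7 8 17) (.cons a181 (.cons (t3 8 23 46) (.cons (t2 3 7 8) (.cons a404 (.cons (t2 3 17 49) (.cons (t1 18 24 49) (.cons a513 (.cons (t1 3 17 18) (.cons (t1 7 17 18) (.cons a346 (.cons a348 (.cons (t1 7 17 19) (.cons (t3 7 10 18) (.cons a349 (.cons s977 (.cons (t2 24 46 49) (.cons a190 (.cons a191 (.cons (t1 10 19 46) (.cons s443 (.cons s978 (.cons (t1 10 24 49) (.cons s872 (.cons a468 (.cons a399 (.cons (t1 7 18 30) (.cons (t3 10 18 30) (.cons s129 (.cons (t3 7 10 23) (.cons a160 (.cons a161 (.cons (t2 10 19 34) (.cons s864 (.cons (t2 19 34 38) (.cons s150 (.cons a173 (.cons (t1 7 30 33) (.cons (t1 38 46 49) (.cons a391 (.cons a330 (.cons (t3 10 24 33) (.cons a429 (.cons (t2 24 49 50) (.cons (t3 7 10 50) (.cons s760 (.cons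 (t2 9 10 18) (.cons (t2 9 10 38) (.cons a265 .nil)))))))))))))))))))))))))))))))))))))))))))))))))))))))))) (by decide +kernel)
theorem s980 : Valid A [2760, 14, 2764, 2736, 3021, 2779, 4684, 1097, 942, 1072, 938] := rup _
  (.cons (t2 8 21 36) (.cons (t3 21 36 45) (.cons s202 (.cons s671 .nil)))) (by decide +kernel)
theorem s981 : Valid A [2268, 912, 994, 419] := rup _
  (.cons s975 (.cons (t1 7 24 49) (.cons a405 (.cons (t2 3 17 24) (.cons a64 (.cons (t2 3 7 17) (.cons (t3 7 8 17) (.cons (t2 3 7 8) (.cons a38 (.cons (t1 3 7 27) (.cons s932 (.cons (t1 3 7 21) (.cons a171 (.cons s946 (.cons (t2 3 17 46) (.cons (t2 7 17 46) (.cons a181 (.cons s60 (.cons (t3 8 23 46) (.cons s976 (.cons s979 (.cons a469 (.cons s80 (.cons (t3 18 24 49) (.cons (t1 7 18 49) (.cons (t3 8 18 49) (.cons (t2 24 30 49) (.cons (t2 24 46 49) (.cons (t3 8 18 24) (.cons a193 (.cons (t1 23 24 49) (.cons (t1 7 23 24) (.cons (t3 18 23 24) (.cons (t2 23 24 30)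 (.cons s904 (.cons s864 (.cons a484 (.cons a480 (.cons (t3 24 48 49) (.cons s150 (.cons (t1 23 24 36) (.cons s140 (.cons (t2 3 7 33) (.cons s432 (.cons (t1 7 36 46) (.cons (t3 8 36 46) (.cons (t1 3 36 46) (.cons (t2 7 17 50) (.cons (t3 7 10 50) (.cons (t1 3 7 50) (.cons s180 (.cons s804 (.cons (t3 7 33 50) (.cons (t3 7 18 50) (.cons s413 (.cons a52 (.cons (t1 23 24 27) (.cons (t1 18 24 27) (.cons (t2 36 38 46) (.cons (t3 24 33 49) (.cons a326 (.cons a327 (.cons a277 (.cons (t2 18 27 39) (.cons s148 (.cons (t1 23 24 39) (.cons (t1 18 24 44) (.cons a433 (.cons a304 (.cons a269 (.cons (t3 7 39 50) (.cons (t3 3 39 50) (.cons (t3 17 39 50) (.cons (t3 6 48 49) (.cons (t1 7 39 44) (.cons (t1 3 39 44) (.cons a50 (.cons a334 (.cons a262 (.cons (t3 3 30 44) (.cons (t2 7 19 39) (.cons (t2 3 19 39) (.cons (t1 9 24 48) (.cons a345 (.cons a250 (.cons s72 (.cons (t2 18 19 24) (.cons (t2 18 19 23) (.cons s945 (.cons (t2 9 33 50) (.cons (t1 9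 33 36) (.cons a173 (.cons s156 (.cons a246 (.cons (t2 9 10 36) (.cons (t2 19 23 38) (.cons a342 (.cons a344 (.cons (t2 9 10 33) (.cons (t1 19 23 45) (.cons (t3 19 21 23) (.cons (t3 19 21 24) (.cons (t3 19 21 38) (.cons a392 (.cons s294 (.cons (t3 30 33 36) (.cons s980 (.cons a204 (.cons (t3 10 21 36) (.cons (t2 21 30 36) (.cons (t3 5 21 45) (.cons (t1 10 21 45) (.cons (t3 21 30 45) (.cons s177 (.cons a396 (.cons s716 .nil)))))))))))))))))))))))))))))))))))))))))))))))))))))))))))))))))))))))))))))))))))))))))))))))))))))))))))))))))))) (by decide +kernel)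
theorem s982 : Valid A [997, 817, 867, 1353, 2760, 969, 4706, 2382, 956, 917, 2353, 932, 2403, 989, 950, 399, 944, 4450, 994, 426] := rup _
  (.cons (t1 18 24 39) (.cons (t1 3 7 21) (.cons s180 (.cons (t3 7 18 50) (.cons s769 (.cons (t3 7 30 50) (.cons (t1 18 24 27) (.cons (t1 6 24 27) (.cons a433 (.cons (t2 3 7 19) (.cons a345 (.cons (t1 30 39 50) (.cons a277 (.cons a278 (.cons (t2 6 27 44) (.cons (t3 7 39 50) (.cons (t2 18 19 49) (.cons (t1 18 24 44) (.cons a269 (.cons (t1 7 39 44) (.cons (t3 30 39 44) (.cons s945 (.cons s132 (.cons s156 (.cons (t1 7 44 45) (.cons (t1 7 36 45) (.cons (t1 2 6 49) (.cons a342 (.cons a344 (.cons (t3 19 45 49) (.cons (t3 19 21 49) (.cons a79 (.cons s727 (.cons s680 (.cons (t3 2 21 45) (.cons (t2 2 44 45) (.cons a215 (.cons s749 (.cons (t2 2 21 52) (.cons a71 (.cons a68 (.cons (t3 6 44 52) .nil)))))))))))))))))))))))))))))))))))))))))) (by decide +kernel)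
theorem s983 : Valid A [4706, 1340, 2382, 956, 1373, 917, 932, 2403, 989, 5986, 2780, 477, 950, 399, 3171, 912, 994, 426] := rup _
  (.cons (t3 18 39 49) (.cons (t1 3 7 10) (.cons (t3 18 24 49) (.cons a469 (.cons (t1 7 24 49) (.cons a169 (.cons s140 (.cons (t3 7 36 46) (.cons (t3 3 36 46) (.cons (t1 21 36 46) (.cons (t3 10 36 46) (.cons a54 (.cons (t1 3 7 33) (.cons (t1 3 10 33) (.cons a391 (.cons (t1 30 33 49) (.cons s148 (.cons a304 (.cons (t3 6 24 49) (.cons s982 (.cons s432 (.cons s852 .nil)))))))))))))))))))))) (by decide +kernel)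
theorem s984 : Valid A [1325, 1318, 1442, 1454, 2790, 2474, 1340, 1327, 405, 917, 419] := rup _
  (.cons (t1 7 10 23) (.cons (t2 10 22 23) (.cons (t1 3 10 22) (.cons (t1 7 10 22) (.cons (t3 10 19 22) (.cons (t1 10 22 30) (.cons a497 (.cons a58 (.cons a59 (.cons a227 (.cons a472 (.cons (t3 3 16 17) (.cons a337 (.cons (t1 7 23 52) (.cons (t1 21 30 51) (.cons a375 (.cons (t2 16 19 21) (.cons a238 (.cons a373 (.cons (t2 11 16 21) (.cons (t3 11 30 52) (.cons (t3 11 21 52) (.cons a222 .nil))))))))))))))))))))))) (by decide +kernel)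
theorem s985 : Valid A [934, 2760, 3148, 986, 917, 912, 994, 419] := rup _
  (.cons s975 (.cons (t1 7 24 49) (.cons a405 (.cons (t2 3 17 24) (.cons a64 (.cons s932 (.cons (t1 3 7 21) (.cons s156 (.cons a38 (.cons (t1 3 7 27) (.cons s981 (.cons (t1 3 17 46) (.cons (t1 3 17 21) (.cons (t3 17 21 46) (.cons a404 (.cons (t1 17 46 49) (.cons (t2 3 7 17) (.cons (t1 7 17 46) (.cons s71 (.cons a513 (.cons (t2 7 17 18) (.cons s946 (.cons s870 (.cons s38 (.cons (t3 7 8 10) (.cons a399 (.cons (t1 10 23 34) (.cons (t1 3 7 10) (.cons (t1 3 10 23) (.cons (t1 7 10 27) (.cons (t1 10 23 27) (.cons s851 (.cons (t1 3 7 30) (.cons a471 (.cons (t2 3 17 18) (.cons s139 (.cons (t1 3 10 30) (.cons s983 (.cons (t1 7 36 49) (.cons s201 (.cons s26 (.cons (t1 21 45 51) (.cons s569 (.cons (t3 7 11 17) (.cons (t1 7 10 23) (.cons (t1 7 23 45) (.cons (t1 7 10 49) (.cons (t1 10 23 49) (.cons (t1 23 36 49) (.cons (t3 21 36 45) (.cons s750 (.cons (t3 21 36 49)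 (.cons (t1 21 45 49) (.cons (t3 24 36 49) (.cons (t1 21 24 36) (.cons a344 (.cons (t1 7 10 45) (.cons a469 (.cons (t1 30 36 49) (.cons (t1 3 23 30) (.cons (t1 7 10 21) (.cons (t3 10 21 23) (.cons a169 (.cons (t2 18 34 49) (.cons (t3 7 19 46) (.cons a345 (.cons (t1 7 10 19) (.cons (t1 18 19 34) (.cons s344 (.cons (t3 10 30 38) (.cons s984 (.cons (t2 7 10 22) (.cons (t3 10 22 23) (.cons a395 (.cons (t2 22 45 49) (.cons (t2 22 45 51) (.cons s630 (.cons s376 (.cons a495 (.cons a505 (.cons s752 (.cons a383 (.cons s264 (.cons (t1 0 21 45) (.cons (t3 11 30 45) (.cons (t2 0 11 45) .nil)))))))))))))))))))))))))))))))))))))))))))))))))))))))))))))))))))))))))))))))))))))) (by decide +kernel)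
theorem s986 : Valid A [1337, 2760, 1352, 1322] := rup _
  (.cons (t1 10 28 36) (.cons (t3 10 21 28) (.cons a487 .nil))) (by decide +kernel)
theorem s987 : Valid A [2760, 3148, 986, 917, 912, 994, 419] := rup _
  (.cons s975 (.cons (t1 7 24 49) (.cons a405 (.cons (t2 3 17 24) (.cons a64 (.cons s932 (.cons (t1 3 7 21) (.cons s156 (.cons s946 (.cons (t3 7 8 10) (.cons a399 (.cons (t1 7 10 23) (.cons (t1 7 23 45) (.cons s132 (.cons (t1 7 10 49) (.cons (t1 10 23 49) (.cons a38 (.cons (t1 3 7 27) (.cons s981 (.cons (t1 3 17 46) (.cons (t1 3 17 21) (.cons (t3 17 21 46) (.cons a404 (.cons (t1 17 46 49) (.cons (t2 3 7 17) (.cons (t1 7 17 46) (.cons s71 (.cons a513 (.cons (t2 7 17 18) (.cons s870 (.cons s38 (.cons (t1 10 23 34) (.cons (t1 3 7 10) (.cons (t1 3 10 23) (.cons (t1 7 10 27) (.cons (t1 10 23 27) (.cons s851 (.cons (t1 3 7 30) (.cons a471 (.cons (t2 3 17 18) (.cons s139 (.cons (t1 3 10 30) (.cons s983 (.cons (t1 23 36 49) (.cons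 (t1 10 36 49) (.cons (t1 7 36 49) (.cons (t3 18 24 49) (.cons (t1 18 24 39) (.cons (t1 7 10 24) (.cons (t1 10 23 24) (.cons (t1 7 10 21) (.cons (t3 21 36 49) (.cons (t3 21 36 45) (.cons s569 (.cons (t1 21 45 49) (.cons s750 (.cons (t1 7 10 11) (.cons a79 (.cons a87 (.cons (t2 2 23 45) (.cons s483 (.cons s985 (.cons (t2 7 17 19) (.cons (t2 7 19 23) (.cons a335 (.cons (t1 19 23 39) (.cons s986 (.cons a387 (.cons s67 (.cons a238 (.cons (t3 23 24 52) (.cons (t3 2 23 52) (.cons (t3 23 39 52) (.cons a71 (.cons (t2 6 39 52) (.cons (t2 6 24 52) (.cons a300 .nil))))))))))))))))))))))))))))))))))))))))))))))))))))))))))))))))))))))))))))) (by decide +kernel)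
theorem s988 : Valid A [3149, 1328, 1348, 3140] := rup _
  (.cons (t3 10 24 38) (.cons (t3 24 34 38) (.cons a158 .nil))) (by decide +kernel)
theorem s989 : Valid A [2760, 917, 912, 994, 419] := rup _
  (.cons s975 (.cons a171 (.cons s38 (.cons (t1 7 24 49) (.cons (t1 7 10 24) (.cons s988 (.cons a404 (.cons s981 (.cons s71 (.cons a513 (.cons a469 (.cons s932 (.cons a405 (.cons (t2 3 17 24) (.cons a64 (.cons a38 (.cons (t1 3 7 27) (.cons (t1 3 17 46) (.cons (t1 3 17 21) (.cons (t3 17 21 46) (.cons (t1 17 46 49) (.cons (t2 3 7 17) (.cons (t1 7 17 46) (.cons (t2 7 17 18) (.cons s946 (.cons s870 (.cons (t3 7 8 10) (.cons a399 (.cons (t1 10 23 34) (.cons (t1 3 7 10) (.cons (t1 3 10 23) (.cons (t1 7 10 27) (.cons (t1 10 23 27) (.cons s851 (.cons (t1 3 7 30) (.cons a471 (.cons (t2 3 17 18) (.cons s139 (.cons (t1 3 10 30) (.cons s983 (.cons (t1 30 36 49) (.cons (t1 7 36 49) (.cons (t1 3 17 30) (.cons (t2 7 10 17) (.cons (t1 3 7 21) (.cons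 (t1 7 10 21) (.cons (t1 7 10 49) (.cons (t3 21 36 49) (.cons s201 (.cons s987 (.cons a209 (.cons (t2 5 10 21) (.cons (t2 5 21 49) (.cons (t2 7 10 45) (.cons (t3 7 21 45) (.cons (t3 5 7 45) (.cons (t1 3 7 45) (.cons (t3 7 30 45) (.cons (t3 7 36 45) (.cons s133 (.cons a396 (.cons s384 (.cons s177 (.cons (t3 10 11 17) (.cons (t2 3 10 11) (.cons (t3 10 11 45) (.cons (t2 3 22 45) (.cons (t3 22 45 51) (.cons (t2 5 11 21) (.cons (t3 30 45 51) (.cons a379 (.cons a472 (.cons a215 (.cons (t2 11 30 36) (.cons (t2 22 30 49) (.cons (t2 11 22 49) (.cons s401 (.cons (t3 3 11 16) (.cons (t1 11 16 22) (.cons a56 .nil)))))))))))))))))))))))))))))))))))))))))))))))))))))))))))))))))))))))))))))))) (by decide +kernel)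
theorem s990 : Valid A [986, 2746, 655, 2748, 2787, 3004, 943, 2223, 2734, 931, 938, 399] := rup _
  (.cons (t1 7 23 45) (.cons (t1 7 17 45) (.cons s156 (.cons (t2 5 7 45) (.cons (t2 21 45 49) (.cons (t3 21 30 45) (.cons (t3 21 29 45) (.cons s177 (.cons s716 (.cons (t1 17 22 45) (.cons (t1 22 45 49) (.cons (t2 22 29 45) (.cons a492 (.cons a138 (.cons (t1 0 21 49) (.cons s5 (.cons a505 (.cons (t3 0 17 23) .nil)))))))))))))))))) (by decide +kernel)
theorem s991 : Valid A [3945, 2876, 940, 956] := rup _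
  (.cons (t3 22 30 52) (.cons (t3 7 30 52) (.cons a226 .nil))) (by decide +kernel)
theorem s992 : Valid A [917, 912, 994, 419] := rup _
  (.cons s975 (.cons a404 (.cons s981 (.cons s71 (.cons a513 (.cons a471 (.cons a469 (.cons (t1 7 24 49) (.cons a405 (.cons (t2 3 17 24) (.cons a64 (.cons (t2 3 7 17) (.cons (t2 7 17 18) (.cons (t2 3 17 18) (.cons (t1 7 17 46) (.cons (t1 17 46 49) (.cons s932 (.cons (t1 3 17 21) (.cons (t3 17 21 46) (.cons (t1 3 17 46) (.cons a38 (.cons (t1 3 7 27) (.cons (t1 3 7 21) (.cons s946 (.cons s38 (.cons (t3 7 8 10) (.cons (t1 3 7 10) (.cons s870 (.cons (t1 7 10 21) (.cons (t2 7 10 17) (.cons (t1 7 10 27) (.cons a399 (.cons (t1 3 10 23) (.cons (t3 10 21 23) (.cons (t2 10 17 23) (.cons (t1 7 10 23) (.cons (t1 10 23 34) (.cons (t1 10 23 27) (.cons s851 (.cons (t1 3 7 30) (.cons s139 (.cons (t1 3 10 30) (.cons (t1 3 23 30) (.cons s983 (.cons (t1 7 36 49) (.cons (t3 24 36 49) (.cons (t1 30 36 49) (.cons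 s989 (.cons a204 (.cons (t3 21 24 36) (.cons (t1 21 36 49) (.cons (t2 21 30 36) (.cons a207 (.cons a135 (.cons a137 (.cons s22 (.cons (t3 24 29 36) (.cons (t1 7 23 51) (.cons s990 (.cons (t2 7 10 45) (.cons (t2 7 23 45) (.cons (t2 7 17 45) (.cons a396 (.cons (t2 7 22 45) (.cons (t1 22 23 45) (.cons (t2 17 22 45) (.cons a495 (.cons a475 (.cons s991 (.cons s116 (.cons (t2 36 49 52) (.cons (t3 7 36 52) (.cons (t3 29 36 52) (.cons a226 (.cons (t3 22 49 52) (.cons (t2 22 29 52) (.cons a492 (.cons a138 (.cons (t1 0 21 49) (.cons s5 (.cons a505 (.cons (t3 0 17 23) .nil)))))))))))))))))))))))))))))))))))))))))))))))))))))))))))))))))))))))))))))))))) (by decide +kernel)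
theorem s993 : Valid A [912, 994, 419] := rup _
  (.cons a38 (.cons s975 (.cons a169 (.cons a171 (.cons a404 (.cons a405 (.cons (t1 7 24 49) (.cons (t2 3 17 24) (.cons a64 (.cons s16 (.cons (t2 3 7 17) (.cons (t1 3 7 27) (.cons s981 (.cons s71 (.cons (t1 17 46 49) (.cons (t1 7 17 46) (.cons (t2 3 17 18) (.cons a513 (.cons (t2 7 17 18) (.cons a469 (.cons a471 (.cons s992 (.cons (t2 3 7 10) (.cons (t3 7 10 46) (.cons a189 (.cons (t2 10 34 49) (.cons (t3 10 18 49) (.cons (t2 10 30 49) (.cons s844 (.cons a350 (.cons (t1 3 7 30) (.cons s139 (.cons a345 (.cons s183 (.cons (t3 18 39 49) (.cons s43 (.cons (t1 7 19 27) (.cons a154 (.cons (t1 24 27 34) (.cons s180 (.cons s432 (.cons s852 .nil)))))))))))))))))))))))))))))))))))))))))) (by decide +kernel)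
theorem s994 : Valid A [2779, 956, 3939, 934, 4698, 1353, 969, 4706, 14, 2760, 986, 2786, 1378, 917] := rup _
  (.cons (t1 21 30 49) (.cons s680 (.cons (t1 7 10 45) (.cons (t1 21 45 49) (.cons (t3 21 30 45) (.cons s727 (.cons s762 (.cons a215 (.cons (t2 5 7 45) (.cons s749 (.cons (t3 5 7 11) (.cons a222 (.cons a383 (.cons (t2 30 49 52) (.cons s909 (.cons (t3 7 30 52) (.cons (t2 0 11 49) (.cons a395 (.cons s525 (.cons (t1 10 22 49) .nil)))))))))))))))))))) (by decide +kernel)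
theorem s995 : Valid A [1507, 1196, 2880, 1088, 2889, 1069, 4186, 428, 1066, 1114, 483, 2786, 2275] := rup _
  (.cons (t3 3 11 49) (.cons (t3 11 17 49) (.cons a41 (.cons a377 (.cons (t3 11 12 49) (.cons (t2 3 11 16) (.cons a499 (.cons a56 (.cons (t1 8 12 21) (.cons (t3 8 16 22) (.cons (t1 16 22 36) (.cons (t1 9 16 22) (.cons (t2 16 22 32) (.cons a517 (.cons a354 (.cons a257 (.cons (t2 8 16 42) (.cons (t2 9 32 45) (.cons (t3 9 12 32) (.cons a356 (.cons a360 (.cons (t1 9 42 45) (.cons (t1 9 12 42) .nil))))))))))))))))))))))) (by decide +kernel)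
theorem s996 : Valid A [997, 5602, 2880, 1088, 955, 99, 2889, 941, 1069, 4694, 4186, 428, 5859, 4698, 1353, 2377, 14, 1066, 1114, 483, 2786, 2275, 917] := rup _
  (.cons (t3 10 18 36) (.cons (t2 7 10 50) (.cons (t2 7 22 50) (.cons a247 (.cons a249 (.cons (t1 9 22 50) (.cons (t3 9 10 18) (.cons (t3 9 10 36) (.cons s995 (.cons (t1 11 45 49) (.cons (t2 0 11 49) (.cons s488 (.cons a379 (.cons a383 (.cons (t1 11 36 38) (.cons (t2 11 36 43) (.cons (t1 9 11 36) (.cons (t2 7 11 38) (.cons (t2 18 36 38) (.cons a243 (.cons s414 (.cons a265 (.cons (t2 9 43 49) (.cons (t1 9 38 49) .nil)))))))))))))))))))))))) (by decide +kernel)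
theorem s997 : Valid A [3939, 4698, 1353, 1097, 969, 4706, 938, 2760, 986, 945, 2275, 398, 917, 994, 419] := rup _
  (.cons s993 (.cons (t2 7 8 10) (.cons a401 (.cons (t2 7 10 23) (.cons s911 (.cons a346 (.cons a402 (.cons a188 (.cons (t2 7 8 24) (.cons s326 (.cons s74 (.cons (t1 7 10 49) (.cons a186 (.cons (t1 7 10 46) (.cons a189 (.cons (t1 23 46 49) (.cons (t2 23 36 49) (.cons a483 (.cons s932 (.cons (t1 3 17 21) (.cons (t3 3 7 17) (.cons (t1 7 8 17) (.cons a181 (.cons (t3 17 21 46) (.cons (t1 21 23 46) (.cons s294 (.cons (t3 0 7 10) (.cons (t3 7 21 24) (.cons (t1 7 10 21) (.cons (t1 7 8 21) (.cons (t1 3 17 49) (.cons s132 (.cons (t1 2 3 49) (.cons (t1 7 8 45) (.cons (t1 3 17 46) (.cons (t3 3 23 46) (.cons (t3 17 23 46) (.cons (t2 7 10 24) (.cons a39 (.cons (t3 17 27 49) (.cons (t3 17 21 49) (.cons (t3 3 30 49) (.cons (t1 7 30 49) (.cons s994 (.cons a60 (.cons s199 (.cons (t2 3 23 45) (.cons (t2 3 30 45) (.cons (t2 3 45 49)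 (.cons (t3 2 3 45) (.cons s177 (.cons a85 (.cons (t1 23 45 51) (.cons (t1 30 45 51) (.cons (t1 2 7 8) (.cons a496 (.cons a498 (.cons a466 (.cons a83 (.cons (t3 22 23 49) (.cons (t2 17 22 23) (.cons (t2 3 22 23) (.cons (t3 30 32 45) (.cons (t2 7 8 43) (.cons (t1 8 36 43) (.cons s604 (.cons (t1 8 10 22) (.cons (t2 10 22 24) (.cons (t1 7 10 22) (.cons (t3 10 21 22) (.cons (t2 10 22 36) (.cons (t3 0 10 22) (.cons s916 (.cons s203 (.cons a491 (.cons (t3 0 17 23) (.cons a134 (.cons a142 (.cons a511 (.cons a151 (.cons (t1 7 24 29) (.cons (t1 10 24 29) (.cons (t1 22 24 29) (.cons (t3 4 17 49) (.cons (t2 8 29 32) (.cons (t2 22 29 32) (.cons a147 (.cons (t1 4 7 29) (.cons a454 (.cons (t1 4 43 49) (.cons s996 (.cons s829 (.cons (t1 8 24 27) (.cons (t1 22 24 27) (.cons (t2 24 27 29) (.cons a127 (.cons (t2 8 27 42) (.cons (t2 22 27 42) (.cons a356 (.cons a363 (.cons (t1 32 42 45) .nil)))))))))))))))))))))))))))))))))))))))))))))))))))))))))))))))))))))))))))))))))))))))))))))))))))))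 (by decide +kernel)
theorem s998 : Valid A [4706, 938, 2760, 986, 2275, 398, 3164, 917, 994, 419] := rup _
  (.cons s993 (.cons a186 (.cons (t1 7 10 46) (.cons a188 (.cons (t2 7 8 10) (.cons a402 (.cons (t3 3 7 17) (.cons (t1 7 10 17) (.cons s558 (.cons (t2 3 17 24) (.cons a64 (.cons s158 (.cons (t1 3 17 49) (.cons (t3 3 34 49) (.cons s18 (.cons a44 (.cons (t1 7 24 48) (.cons (t3 7 45 48) (.cons (t2 7 10 24) (.cons (t1 10 24 48) (.cons (t2 7 8 24) (.cons (t1 8 24 48) (.cons (t1 7 10 49) (.cons a189 (.cons s326 (.cons (t1 23 46 49) (.cons s74 (.cons (t3 17 34 49) (.cons s106 (.cons a39 (.cons (t3 17 27 49) (.cons (t1 27 34 49) (.cons a401 (.cons (t2 7 10 23) (.cons s80 (.cons (t2 3 36 49) (.cons (t2 23 36 49) (.cons (t1 36 46 49) (.cons a479 (.cons a483 (.cons a177 (.cons (t3 7 36 48) (.cons (t3 8 36 48) (.cons (t3 10 36 48) (.cons (t2 36 45 48) (.cons (t3 18 24 36) (.cons s911 (.cons (t3 8 18 36) (.cons (t3 10 18 36) (.cons a346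 (.cons s997 (.cons a468 (.cons (t1 10 18 30) (.cons a393 (.cons (t2 7 10 33) (.cons (t3 10 33 36) (.cons s429 (.cons s436 (.cons a52 (.cons (t2 7 8 50) (.cons (t1 8 18 50) (.cons (t3 7 19 27) (.cons (t2 3 33 49) (.cons a429 (.cons a154 (.cons a311 (.cons (t1 34 49 50) (.cons (t3 17 19 34) (.cons (t1 19 34 50) (.cons a304 (.cons a335 (.cons (t3 19 39 50) (.cons (t1 6 7 24) (.cons (t1 6 7 18) (.cons a433 (.cons a302 (.cons (t1 6 18 39) .nil))))))))))))))))))))))))))))))))))))))))))))))))))))))))))))))))))))))))))))) (by decide +kernel)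
theorem s999 : Valid A [935, 2254, 1054, 926, 3524, 1073, 3554, 945, 930, 2402] := rup _
  (.cons a347 (.cons s43 (.cons (t3 7 17 19) (.cons (t2 7 19 24) (.cons (t3 7 15 19) (.cons a154 (.cons a333 (.cons (t3 15 19 27) (.cons (t2 19 24 27) (.cons (t3 18 19 39) (.cons (t2 19 24 39) (.cons a113 (.cons a314 (.cons (t1 24 39 50) (.cons (t2 15 18 49) (.cons (t2 8 24 50) (.cons a433 (.cons (t3 15 18 50) (.cons a105 .nil))))))))))))))))))) (by decide +kernel)
theorem s1000 : Valid A [2906, 2779, 934, 3005, 3939, 3132, 104, 57, 23, 968, 4707, 20, 2736, 1066, 938, 2760, 1370, 3162, 986, 2734, 3043, 431, 2786, 1314, 1378, 2218] := rup _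
  (.cons s201 (.cons a344 (.cons (t2 5 19 21) (.cons s26 (.cons (t1 21 45 51) (.cons (t1 5 21 45) (.cons (t2 21 22 45) (.cons a395 (.cons s942 (.cons (t1 10 22 49) (.cons (t3 0 10 22) (.cons a134 (.cons a142 (.cons s916 (.cons a491 (.cons a151 (.cons a152 (.cons (t3 0 3 23) (.cons (t1 0 23 30) (.cons (t2 0 11 49) (.cons (t1 0 49 52) (.cons (t2 8 29 32) (.cons (t2 0 3 11) (.cons (t2 0 3 28) (.cons (t2 0 28 30) (.cons s481 (.cons a41 (.cons a42 (.cons (t3 3 12 28) (.cons (t3 12 28 30) (.cons (t3 5 19 52) (.cons (t3 11 12 49) (.cons s556 (.cons a499 (.cons (t2 20 45 51) (.cons (t2 20 24 45) (.cons (t1 8 12 21) (.cons a22 (.cons a517 (.cons (t3 24 30 51) (.cons (t3 24 32 51) (.cons (t3 12 30 32) (.cons a464 .nil))))))))))))))))))))))))))))))))))))))))))) (by decide +kernel)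
theorem s1001 : Valid A [2779, 934, 3005, 2748, 445, 3939, 3132, 956, 104, 57, 23, 968, 4707, 20, 2736, 1066, 938, 2760, 1370, 3162, 986, 2734, 3043, 431, 2786, 1314, 1378, 2218] := rup _
  (.cons s201 (.cons s26 (.cons a344 (.cons (t3 21 30 45) (.cons (t1 5 21 45) (.cons (t1 21 45 51) (.cons s1000 (.cons s909 (.cons s126 (.cons a222 (.cons s146 (.cons (t3 24 30 51) (.cons (t3 19 21 52) (.cons s556 (.cons (t2 20 45 51) (.cons (t2 20 24 45) (.cons a22 .nil))))))))))))))))) (by decide +kernel)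
theorem s1002 : Valid A [938, 2760, 986, 2275, 398, 3164, 917, 994, 419] := rup _
  (.cons (t1 7 10 45) (.cons s993 (.cons a186 (.cons (t1 7 10 46) (.cons a188 (.cons (t2 7 8 10) (.cons a402 (.cons (t3 3 7 17) (.cons (t1 7 10 17) (.cons s558 (.cons (t2 3 17 24) (.cons a64 (.cons (t1 7 24 45) (.cons (t2 7 10 24) (.cons s158 (.cons (t1 3 17 49) (.cons (t3 3 34 49) (.cons s18 (.cons a44 (.cons (t1 10 24 48) (.cons (t1 7 24 48) (.cons s932 (.cons (t1 3 17 21) (.cons (t1 7 8 17) (.cons a181 (.cons (t3 17 21 46) (.cons (t2 7 8 24) (.cons s326 (.cons (t1 21 23 46) (.cons (t1 7 10 49) (.cons a189 (.cons (t3 34 46 49) (.cons (t3 23 34 46) (.cons (t1 23 46 49) (.cons (t1 3 17 46) (.cons (t3 3 23 46) (.cons a39 (.cons (t3 17 27 49) (.cons (t1 27 34 49) (.cons (t3 17 21 49) (.cons (t1 21 34 49) (.cons a401 (.cons (t2 7 10 23) (.cons s80 (.cons s38 (.cons (t1 7 8 21) (.cons (t1 7 10 21) (.cons (t3 7 21 24) (.cons s294 (.cons (t3 0 7 10) (.cons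 s998 (.cons (t1 7 36 49) (.cons (t3 3 36 49) (.cons (t1 10 36 49) (.cons s201 (.cons a54 (.cons s986 (.cons (t2 5 10 21) (.cons (t2 5 21 49) (.cons (t3 3 33 34) (.cons s133 (.cons s176 (.cons (t2 7 10 11) (.cons a387 (.cons (t3 7 33 48) (.cons (t3 10 33 48) (.cons (t3 24 33 48) (.cons a383 (.cons s67 (.cons (t1 0 11 28) (.cons a110 (.cons a392 (.cons a393 (.cons (t2 0 11 52) (.cons (t1 7 8 15) (.cons (t2 7 30 33) (.cons (t2 24 30 33) (.cons a162 (.cons (t1 30 34 49) (.cons (t3 3 30 34) (.cons (t1 21 30 34) (.cons (t3 23 30 34) (.cons a50 (.cons (t1 3 17 39) (.cons s999 (.cons s1001 (.cons a60 (.cons s199 (.cons (t2 3 23 45) (.cons (t2 3 45 49) (.cons (t2 3 36 45) (.cons s177 (.cons a380 (.cons (t1 23 45 51) (.cons (t1 11 23 45) (.cons (t3 11 45 49) (.cons a496 (.cons a238 (.cons (t2 0 11 49) (.cons (t3 22 23 49) (.cons (t3 7 23 52) (.cons (t2 23 49 52) (.cons s525 .nil)))))))))))))))))))))))))))))))))))))))))))))))))))))))))))))))))))))))))))))))))))))))))))))))))))))))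 (by decide +kernel)
theorem s1003 : Valid A [47, 1338, 5859, 1370, 3043, 2223, 2275] := rup _
  (.cons s9 (.cons (t1 0 23 49) (.cons (t2 17 23 29) (.cons a492 (.cons (t2 17 22 49) (.cons (t1 22 45 49) (.cons a138 (.cons a395 (.cons (t1 10 22 29) .nil))))))))) (by decide +kernel)
theorem s1004 : Valid A [2760, 986, 2275, 398, 3164, 917, 994, 419] := rup _
  (.cons (t1 3 17 49) (.cons s132 (.cons (t1 2 3 49) (.cons (t1 7 10 45) (.cons s993 (.cons a186 (.cons (t1 7 10 46) (.cons a188 (.cons (t2 7 8 10) (.cons a402 (.cons (t3 3 7 17) (.cons (t1 7 10 17) (.cons s558 (.cons (t2 3 17 24) (.cons a64 (.cons (t2 7 10 24) (.cons s158 (.cons (t3 3 34 49) (.cons s18 (.cons a44 (.cons (t1 10 24 48) (.cons (t1 7 24 48) (.cons s932 (.cons (t1 3 17 21) (.cons (t1 7 8 17) (.cons a181 (.cons (t3 17 21 46) (.cons (t2 7 8 24) (.cons s326 (.cons (t1 21 23 46) (.cons (t1 7 10 49) (.cons a189 (.cons (t1 23 46 49) (.cons (t1 3 17 46) (.cons (t3 3 23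 46) (.cons (t3 17 23 46) (.cons (t3 34 46 49) (.cons a39 (.cons (t3 17 27 49) (.cons (t1 27 34 49) (.cons s80 (.cons s38 (.cons s1002 (.cons a210 (.cons (t2 7 21 24) (.cons (t2 7 10 21) (.cons (t2 7 21 48) (.cons (t2 7 8 21) (.cons (t1 7 21 45) (.cons s153 (.cons a203 (.cons a135 (.cons (t1 21 24 36) (.cons (t2 3 23 45) (.cons (t2 3 45 46) (.cons (t2 3 45 49) (.cons (t3 2 3 45) (.cons (t2 10 24 29) (.cons a177 (.cons (t3 36 45 46) (.cons a85 (.cons (t3 17 36 46) (.cons (t3 3 36 46) (.cons a380 (.cons (t1 5 36 45) (.cons (t1 2 7 8) (.cons (t1 2 7 21) (.cons (t3 5 17 36) (.cons a54 (.cons (t1 11 23 45) (.cons a83 (.cons (t3 3 33 34) (.cons (t1 8 24 43) (.cons (t1 8 21 43) (.cons s176 (.cons (t3 7 33 48) (.cons (t3 10 33 48) (.cons (t3 21 33 48) (.cons a110 (.cons a112 (.cons a448 (.cons a393 (.cons (t2 21 33 41) (.cons (t1 7 8 15) (.cons (t3 7 15 21) (.cons a95 (.cons a162 (.cons a451 (.cons (t3 3 30 34) (.cons (t1 15 41 43) (.cons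 a50 (.cons (t1 3 17 39) (.cons s999 (.cons s130 (.cons (t1 19 45 46) (.cons (t3 5 19 45) (.cons (t1 11 19 45) (.cons a175 (.cons a213 (.cons (t2 34 38 46) (.cons (t3 4 5 17) (.cons (t3 4 5 45) (.cons a158 (.cons (t1 7 10 38) (.cons (t2 10 21 38) (.cons s1003 (.cons a505 (.cons (t1 0 17 23) (.cons (t1 0 21 24) (.cons (t3 0 7 21) (.cons (t3 0 2 21) (.cons (t2 0 15 21) (.cons (t1 0 21 38) (.cons a509 (.cons a384 (.cons (t2 0 4 24) (.cons (t2 0 4 38) (.cons (t1 0 4 15) (.cons (t2 0 2 4) (.cons (t3 7 11 21) (.cons a99 (.cons a90 (.cons s553 (.cons (t3 15 23 45) (.cons (t3 1 4 24) (.cons (t3 1 4 38) (.cons a29 (.cons (t2 19 20 45) (.cons (t2 15 23 43) (.cons a281 (.cons (t2 7 8 20) (.cons (t3 7 11 20) (.cons (t2 7 20 38) (.cons s292 (.cons (t3 1 23 43) (.cons a27 (.cons (t3 16 20 38) (.cons a238 (.cons a289 (.cons (t1 1 23 52) (.cons s87 (.cons (t3 16 23 43) (.cons s14 (.cons (t3 23 28 43) (.cons a295 (.cons a456 (.cons (t1 16 28 38)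 .nil))))))))))))))))))))))))))))))))))))))))))))))))))))))))))))))))))))))))))))))))))))))))))))))))))))))))))))))))))))))))))))))))))))))))))))))))))) (by decide +kernel)
theorem s1005 : Valid A [986, 2275, 398, 3164, 917, 994, 419] := rup _
  (.cons s993 (.cons a186 (.cons (t1 7 10 46) (.cons a188 (.cons (t2 7 8 10) (.cons a402 (.cons (t3 3 7 17) (.cons (t1 7 10 17) (.cons s558 (.cons (t2 3 17 24) (.cons a64 (.cons s158 (.cons (t1 3 17 49) (.cons (t3 3 34 49) (.cons s18 (.cons a44 (.cons (t1 7 24 48) (.cons s932 (.cons (t1 3 17 21) (.cons (t1 7 8 17) (.cons a181 (.cons (t3 17 21 46) (.cons (t2 7 8 24) (.cons s326 (.cons (t1 21 23 46) (.cons (t1 7 10 49) (.cons a189 (.cons (t1 23 46 49) (.cons (t3 17 23 46) (.cons (t3 34 46 49) (.cons s106 (.cons (t2 7 10 24) (.cons (t3 17 21 49) (.cons (t1 3 17 46) (.cons a401 (.cons (t2 7 10 23) (.cons s38 (.cons (t1 7 24 45) (.cons (t1 7 10 45) (.cons (t1 7 8 45) (.cons s1004 (.cons a204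 (.cons (t1 21 36 49) (.cons s340 (.cons (t3 5 21 24) (.cons a479 (.cons a135 (.cons (t3 7 21 24) (.cons (t3 10 21 24) (.cons (t3 8 21 24) (.cons (t2 21 24 45) (.cons (t1 5 10 24) (.cons (t3 7 36 48) (.cons (t2 10 24 29) (.cons s153 (.cons s911 (.cons (t2 3 45 46) (.cons (t2 3 45 49) (.cons a346 (.cons s1003 (.cons s130 (.cons a505 (.cons (t1 19 45 46) (.cons (t3 0 7 21) (.cons a175 (.cons a384 (.cons (t2 34 38 46) (.cons (t3 7 11 36) (.cons a158 (.cons s543 (.cons (t2 10 21 38) (.cons (t3 5 10 38) (.cons a41 (.cons (t2 3 11 49) (.cons (t3 11 12 49) (.cons a216 (.cons a499 (.cons (t1 5 45 49) (.cons (t3 8 12 21) (.cons (t1 12 21 38) (.cons a361 (.cons a362 (.cons (t1 12 38 42) (.cons a356 (.cons a198 (.cons (t1 5 42 45) .nil)))))))))))))))))))))))))))))))))))))))))))))))))))))))))))))))))))))))))))))))))))))) (by decide +kernel)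
theorem s1006 : Valid A [2760, 1498, 682, 2785, 2779, 6242] := rup _
  (.cons (t3 21 36 45) (.cons (t3 21 36 48) (.cons a203 (.cons a379 (.cons a479 (.cons (t1 11 36 49) (.cons (t3 5 11 36) (.cons a218 .nil)))))))) (by decide +kernel)
theorem s1007 : Valid A [2524, 997, 2133, 1441, 1506, 933, 2342, 3810, 2092, 2909, 4445, 3524] := rup _
  (.cons s443 (.cons (t1 19 34 46) (.cons (t1 19 22 46) (.cons (t2 7 18 38) (.cons a154 (.cons a337 (.cons s414 (.cons (t1 16 19 27) (.cons (t1 29 38 49) (.cons (t1 11 38 49) (.cons (t1 11 16 27) (.cons (t2 16 27 42) (.cons a130 (.cons (t2 11 27 29) (.cons a127 .nil))))))))))))))) (by decide +kernel)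
theorem s1008 : Valid A [1506, 3535, 3942, 3005, 1512, 1493, 5480, 933, 2342, 2082, 3810, 2092, 2863, 5478, 303, 3043, 3037, 4445, 3554, 945, 2275, 994] := rup _
  (.cons (t1 22 23 46) (.cons (t1 22 23 49) (.cons s158 (.cons (t1 27 34 49) (.cons (t1 11 17 49) (.cons (t1 11 23 49) (.cons (t1 11 22 49) (.cons (t1 11 42 49) (.cons a375 (.cons a238 (.cons (t3 11 22 42) (.cons a234 (.cons (t2 11 16 42) (.cons (t2 23 46 52) (.cons (t1 2 23 52) (.cons (t2 23 30 52) (.cons (t1 22 23 52) (.cons a72 (.cons (t1 6 49 52) (.cons a304 (.cons (t1 6 7 24) (.cons a301 (.cons (t1 24 27 39) (.cons s829 (.cons s1007 (.cons (t1 19 46 52) (.cons a232 (.cons (t2 22 32 52) (.cons (t2 30 32 52) (.cons a363 (.cons a464 (.cons (t2 32 42 51) .nil)))))))))))))))))))))))))))))))) (by decide +kernel)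
theorem s1009 : Valid A [3939, 1512, 1493, 5480, 933, 2342, 1449, 17, 15, 2082, 3810, 2863, 5478, 1127, 6374, 940, 303, 1108, 1064, 2998, 3043, 431, 3037, 4445, 3554, 483, 945, 2275, 913, 994] := rup _
  (.cons (t3 3 22 23) (.cons a58 (.cons (t3 3 16 49) (.cons a59 (.cons (t1 22 23 49) (.cons (t3 3 30 49) (.cons (t3 23 30 49) (.cons (t2 30 49 51) (.cons a50 (.cons (t1 3 23 39) (.cons a325 (.cons s1008 (.cons (t3 3 11 49) (.cons (t1 11 49 52) (.cons (t3 11 22 49) (.cons (t2 11 16 49) (.cons (t2 11 42 49) (.cons a41 (.cons (t2 22 49 52) (.cons (t2 11 22 42) (.cons (t3 11 16 20) (.cons (t3 30 42 49) (.cons (t3 11 12 42) (.cons a226 (.cons a365 (.cons a25 (.cons a360 (.cons (t2 7 8 52) (.cons (t1 0 7 52) (.cons (t2 30 32 42) (.cons (t1 0 8 16) (.cons (t2 8 16 51) (.cons a519 (.cons (t3 8 32 52) (.cons (t2 0 32 52) (.cons a464 (.cons (t1 0 16 32) (.cons (t3 16 32 51) .nil)))))))))))))))))))))))))))))))))))))) (by decide +kernel)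
theorem s1010 : Valid A [398, 917, 3170, 994, 419] := rup _
  (.cons s993 (.cons (t2 7 8 10) (.cons a401 (.cons (t2 7 10 23) (.cons (t1 7 10 49) (.cons a186 (.cons (t1 7 10 46) (.cons a189 (.cons (t1 24 46 49) (.cons s80 (.cons a402 (.cons a188 (.cons s932 (.cons (t1 3 17 21) (.cons a39 (.cons (t3 3 7 17) (.cons (t1 7 10 17) (.cons (t1 7 8 17) (.cons s558 (.cons a181 (.cons (t2 3 17 24) (.cons a403 (.cons (t1 3 17 46) (.cons (t3 17 27 46) (.cons (t3 17 21 46) (.cons a64 (.cons (t1 3 17 49) (.cons (t3 17 27 49) (.cons s158 (.cons (t2 7 8 24) (.cons (t3 3 34 49) (.cons (t1 27 34 49) (.cons s106 (.cons (t3 34 46 49) (.cons (t3 17 34 49) (.cons s326 (.cons s18 (.cons s74 (.cons (t3 17 23 46) (.cons (t3 3 23 46) (.cons (t1 23 46 49) (.cons (t3 23 34 46) (.cons (t2 23 27 46) (.cons (t1 21 23 46) (.cons a44 (.cons (t1 7 24 48) (.cons s1005 (.cons a30 (.cons a86 (.cons a88 (.cons (t2 7 10 45) (.cons (t2 7 24 45) (.cons (t1 7 45 49) (.cons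 (t2 7 8 45) (.cons (t3 7 23 45) (.cons (t3 3 7 45) (.cons (t2 7 45 48) (.cons (t2 8 20 45) (.cons s776 (.cons a396 (.cons a357 (.cons a359 (.cons a60 (.cons (t3 2 23 49) (.cons (t2 7 22 45) (.cons (t2 24 42 45) (.cons a342 (.cons a344 (.cons (t3 7 21 45) (.cons (t3 10 21 45) (.cons (t1 21 45 48) (.cons (t3 21 24 45) (.cons (t3 8 21 45) (.cons (t1 20 21 45) (.cons (t2 7 19 45) (.cons a208 (.cons a210 (.cons (t3 5 7 45) (.cons s177 (.cons (t3 23 45 51) (.cons (t3 45 49 51) (.cons (t1 8 45 51) (.cons (t3 22 45 51) (.cons (t3 42 45 51) (.cons a495 (.cons (t3 17 22 23) (.cons (t1 22 23 49) (.cons (t3 3 22 23) (.cons a139 (.cons a492 (.cons a58 (.cons (t3 22 29 49) (.cons (t1 0 23 49) (.cons (t3 3 16 17) (.cons a505 (.cons (t3 0 7 21) (.cons (t3 0 8 21) (.cons a384 (.cons (t3 7 11 21) (.cons (t1 7 10 11) (.cons (t3 7 11 45) (.cons a33 (.cons s1006 (.cons a490 (.cons (t3 3 21 36) (.cons (t3 21 23 36) (.cons (t3 19 21 36) (.cons (t1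 7 21 36) (.cons (t1 10 21 36) (.cons (t2 21 24 36) (.cons (t1 21 24 28) (.cons (t2 10 21 28) (.cons a483 (.cons (t2 18 19 36) (.cons s911 (.cons (t3 10 18 36) (.cons (t3 18 24 36) (.cons a367 (.cons a387 (.cons s97 (.cons (t1 11 28 42) (.cons s67 (.cons s1009 (.cons a468 (.cons (t1 10 18 30) (.cons a393 (.cons (t2 7 10 33) (.cons (t3 10 33 36) (.cons s436 (.cons a52 (.cons (t3 7 19 27) (.cons (t2 3 33 49) (.cons a154 (.cons a311 (.cons (t3 17 19 34) (.cons (t3 19 23 34) (.cons a304 (.cons a335 (.cons (t1 19 23 39) (.cons (t1 6 7 24) (.cons (t1 6 7 27) (.cons a325 (.cons a302 (.cons (t1 6 27 39) .nil)))))))))))))))))))))))))))))))))))))))))))))))))))))))))))))))))))))))))))))))))))))))))))))))))))))))))))))))))))))))))))))))))))))))))))))))) (by decide +kernel)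
theorem s1011 : Valid A [399, 3170, 994, 419] := rup _
  (.cons s993 (.cons a65 (.cons (t2 3 7 17) (.cons s162 (.cons (t2 7 8 17) .nil))))) (by decide +kernel)
theorem s1012 : Valid A [945, 3170, 994, 419] := rup _
  (.cons s993 (.cons a188 (.cons s1011 (.cons (t3 3 7 17) (.cons (t1 7 8 17) (.cons a181 (.cons s1010 (.cons (t1 7 8 10) (.cons a186 (.cons a67 (.cons s158 (.cons (t3 7 17 24) (.cons (t2 7 8 24) (.cons (t1 7 24 46) (.cons s106 (.cons a403 (.cons s160 (.cons (t2 17 48 49) (.cons a191 (.cons (t2 3 17 48) (.cons a44 (.cons (t1 8 24 48) (.cons a522 (.cons a399 (.cons s326 (.cons (t1 10 23 46) .nil)))))))))))))))))))))))))) (by decide +kernel)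
theorem s1013 : Valid A [407, 939, 3170, 994, 419] := rup _
  (.cons s993 (.cons s1012 (.cons a186 (.cons s1011 (.cons a64 (.cons (t2 3 17 24) (.cons s817 (.cons (t2 7 8 23) (.cons (t1 7 21 23) (.cons a188 (.cons (t3 3 7 17) (.cons (t1 7 8 17) (.cons a181 (.cons (t1 3 17 46) (.cons (t2 3 24 49) (.cons (t1 3 46 49) (.cons (t2 3 24 46) (.cons s803 (.cons a189 (.cons s1010 (.cons (t1 7 8 10) (.cons a399 (.cons (t2 10 23 49) (.cons s932 (.cons s329 (.cons (t1 7 18 49) (.cons (t3 10 18 49) (.cons a350 (.cons a345 (.cons (t2 7 19 21) (.cons a344 (.cons a60 (.cons (t1 3 45 49) (.cons (t2 3 17 45) (.cons (t3 3 21 24) (.cons (t2 7 8 21) (.cons a143 (.cons a134 (.cons (t1 17 24 29) (.cons (t2 17 29 45) (.cons a140 (.cons (t3 22 29 45) (.cons s354 (.cons a492 (.cons (t1 0 23 49) (.cons a505 (.cons (t3 0 7 21) (.cons a384 (.cons a469 (.cons (t2 10 30 49) (.cons (t2 3 10 46) (.cons (t3 3 10 45) (.cons a395 (.cons (t1 10 22 30) (.cons (t1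 3 24 29) (.cons (t2 3 22 29) (.cons a38 (.cons (t1 3 24 27) (.cons (t2 3 11 24) (.cons (t2 3 11 17) (.cons a377 (.cons (t2 3 11 16) (.cons a56 (.cons (t2 16 22 30) (.cons a371 (.cons (t2 11 24 30) (.cons (t1 3 11 30) (.cons (t3 7 11 30) (.cons a50 (.cons s808 (.cons (t1 3 17 39) .nil))))))))))))))))))))))))))))))))))))))))))))))))))))))))))))))))))))))) (by decide +kernel)
theorem s1014 : Valid A [939, 3170, 994, 419] := rup _
  (.cons s993 (.cons a188 (.cons s1011 (.cons (t3 3 7 17) (.cons (t1 7 8 17) (.cons a181 (.cons (t1 3 17 46) (.cons s1012 (.cons a64 (.cons (t2 3 24 46) (.cons s329 (.cons (t1 7 18 49) (.cons (t2 3 24 49) (.cons (t1 3 46 49) (.cons (t2 3 17 24) (.cons a186 (.cons s817 (.cons s803 (.cons a189 (.cons (t3 10 18 49) (.cons a350 (.cons a345 (.cons a469 (.cons (t2 10 30 49) (.cons s1010 (.cons (t1 7 8 10) (.cons a399 (.cons (t2 10 23 49) (.cons (t2 23 30 49) (.cons (t2 3 10 46) (.cons a195 (.cons (t2 3 23 46)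 (.cons a178 (.cons (t2 3 24 36) (.cons (t2 7 8 23) (.cons a38 (.cons (t1 3 24 27) (.cons s932 (.cons (t3 3 21 24) (.cons a210 (.cons (t1 7 21 23) (.cons (t2 7 8 21) (.cons (t2 7 19 21) (.cons a143 (.cons a343 (.cons a344 (.cons a134 (.cons (t2 7 19 45) (.cons a60 (.cons (t1 17 24 29) (.cons (t2 3 17 45) (.cons (t3 3 10 45) (.cons (t3 3 23 45) (.cons (t1 3 45 49) (.cons (t3 3 36 45) (.cons a140 (.cons (t2 17 29 45) (.cons (t3 22 29 45) (.cons a395 (.cons s354 (.cons (t3 7 10 22) (.cons (t1 10 22 30) (.cons a492 (.cons (t1 0 23 49) (.cons a505 (.cons (t3 0 7 21) (.cons a384 (.cons (t3 7 11 21) (.cons s1013 (.cons (t3 3 11 45) (.cons s553 (.cons a379 (.cons a29 (.cons (t3 11 21 36) (.cons (t3 7 11 36) (.cons (t2 7 19 20) (.cons a203 (.cons s494 (.cons a16 (.cons (t2 5 36 45) (.cons s806 (.cons (t2 7 20 52) (.cons s177 (.cons (t3 7 17 39) (.cons (t2 17 39 45) (.cons s325 (.cons s716 (.cons (t1 7 30 39) (.cons (t3 30 39 45) .nil)))))))))))))))))))))))))))))))))))))))))))))))))))))))))))))))))))))))))))))))))))))))))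 (by decide +kernel)
theorem s1015 : Valid A [2761, 3170, 994, 419] := rup _
  (.cons s993 (.cons s1014 (.cons (t1 7 8 21) (.cons a188 (.cons s1011 (.cons (t3 3 7 17) (.cons (t1 7 8 17) (.cons a181 (.cons (t1 3 17 46) (.cons s1012 (.cons a64 (.cons (t2 3 24 46) (.cons s329 (.cons a469 (.cons (t2 3 24 49) (.cons (t1 3 46 49) (.cons (t2 3 17 24) (.cons a186 (.cons s817 (.cons s803 (.cons a189 (.cons (t2 10 30 49) (.cons s1010 (.cons (t1 7 8 10) (.cons a399 (.cons (t2 10 23 49) (.cons a178 (.cons (t2 3 24 36) (.cons a406 (.cons s563 (.cons a38 (.cons (t1 3 24 27) (.cons (t3 7 21 36) (.cons (t3 8 21 36) (.cons s494 (.cons s806 (.cons (t2 17 24 39) (.cons (t1 3 17 39) (.cons a49 (.cons (t2 24 30 39) (.cons s390 (.cons s106 (.cons a479 (.cons (t2 23 48 49) (.cons (t3 8 36 48) (.cons a520 .nil)))))))))))))))))))))))))))))))))))))))))))))) (by decide +kernel)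
theorem s1016 : Valid A [15, 2234, 2779, 2747, 938, 3043, 1327, 942, 930, 994] := rup _
  (.cons s294 (.cons (t1 21 23 49) (.cons (t3 10 21 23) (.cons (t2 21 45 49) (.cons (t1 10 21 45) (.cons (t1 10 21 29) (.cons a396 (.cons a397 (.cons (t3 10 22 29) (.cons (t3 22 45 49) (.cons a138 (.cons s376 (.cons (t3 7 17 22) .nil))))))))))))) (by decide +kernel)
theorem s1017 : Valid A [1322, 919, 1454, 1302, 2760, 2779, 2747, 354, 3043, 1352, 1314, 1379, 2218] := rup _
  (.cons (t3 10 21 45) (.cons s986 (.cons s942 (.cons a387 (.cons s67 (.cons (t2 7 11 52) (.cons a238 (.cons s151 (.cons (t2 23 49 52) .nil))))))))) (by decide +kernel)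
theorem s1018 : Valid A [1323, 1454, 1442, 2779, 2747, 938, 1340, 3004, 930, 419] := rup _
  (.cons s932 (.cons (t1 3 17 21) (.cons (t3 17 21 29) (.cons (t1 10 21 45) (.cons (t1 10 21 30) (.cons (t1 10 21 29) (.cons a396 (.cons a397 (.cons (t3 10 22 29) (.cons (t2 21 22 45) (.cons a138 (.cons (t3 7 17 22) (.cons (t1 3 17 22) (.cons a58 (.cons (t3 3 16 17) (.cons a375 (.cons a373 (.cons s231 (.cons a222 (.cons (t3 7 21 52) (.cons (t3 21 22 52) (.cons a226 .nil)))))))))))))))))))))) (by decide +kernel)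
theorem s1019 : Valid A [3170, 994, 419] := rup _
  (.cons s993 (.cons a188 (.cons a186 (.cons s932 (.cons (t1 3 17 21) (.cons s1011 (.cons (t3 3 7 17) (.cons s1010 (.cons (t1 7 8 17) (.cons (t1 7 8 10) (.cons a181 (.cons (t1 3 17 46) (.cons s1012 (.cons (t1 7 8 24) (.cons a64 (.cons (t2 3 17 24) (.cons (t3 3 21 24) (.cons (t2 3 24 49) (.cons (t2 3 24 46) (.cons a406 (.cons s817 (.cons (t1 3 46 49) (.cons a178 (.cons s329 (.cons s803 (.cons s563 (.cons (t2 7 8 23) (.cons a399 (.cons (t2 17 24 36) (.cons a469 (.cons (t1 7 18 49) (.cons a189 (.cons (t1 10 17 46) (.cons (t2 10 36 49) (.cons (t2 10 23 49) (.cons (t2 23 30 49) (.cons (t3 10 18 49) (.cons (t2 10 30 49) (.cons (t1 10 23 36) (.cons a350 (.cons a345 (.cons (t3 3 7 19) (.cons s1014 (.cons s947 (.cons (t1 7 8 21) (.cons (t1 7 19 21) (.cons s132 (.cons s202 (.cons s444 (.cons s7 (.cons (t3 17 21 29) (.cons (t3 7 21 29) (.cons (t2 21 29 45) (.cons s1015 (.cons (t3 21 36 45)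 (.cons s1016 (.cons s474 (.cons (t3 11 29 45) (.cons a379 (.cons (t1 10 11 36) (.cons (t2 11 17 36) (.cons (t2 11 23 36) (.cons s1018 (.cons (t3 10 21 23) (.cons s1017 (.cons a505 (.cons a383 (.cons (t2 0 11 23) .nil)))))))))))))))))))))))))))))))))))))))))))))))))))))))))))))))))))) (by decide +kernel)
theorem s1020 : Valid A [917, 994, 419] := rup _
  (.cons s1019 (.cons (t1 7 24 49) (.cons a405 (.cons (t2 3 17 24) (.cons a64 (.cons s993 (.cons a186 (.cons (t1 7 10 46) (.cons (t2 7 8 10) (.cons s870 (.cons a402 .nil))))))))))) (by decide +kernel)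
theorem s1021 : Valid A [5987, 994, 419] := rup _
  (.cons s1019 (.cons (t1 7 24 49) (.cons a405 (.cons (t2 3 17 24) (.cons a64 (.cons (t2 3 7 17) (.cons s1020 (.cons (t3 7 10 17) (.cons a38 (.cons (t1 3 7 27) (.cons a404 (.cons (t2 3 17 49) (.cons s993 (.cons a191 (.cons s80 (.cons (t3 24 46 49) (.cons a513 (.cons (t1 3 17 18) (.cons (t1 7 17 18) (.cons (t3 10 17 18) (.cons a346 (.cons a348 (.cons (t1 7 17 19) (.cons a349 (.cons (t1 10 19 46) (.cons s978 (.cons a468 (.cons (t1 3 18 30) (.cons s129 (.cons a50 (.cons a160 (.cons (t2 10 19 34) (.cons (t1 3 7 39) (.cons (t1 3 17 39) (.cons (t2 19 34 38) (.cons a157 (.cons a333 (.cons a173 (.cons (t3 19 27 39) (.cons (t1 38 46 49) (.cons s442 (.cons a330 (.cons (t1 7 14 24) (.cons a429 (.cons s180 (.cons (t2 7 8 50) (.cons (t2 7 14 50) (.cons (t2 24 27 49) (.cons a108 (.cons (t2 14 15 50) (.cons a114 (.cons a92 (.cons (t1 15 24 49) .nil)))))))))))))))))))))))))))))))))))))))))))))))))))))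 (by decide +kernel)
theorem s1022 : Valid A [962, 1379, 456, 950, 399, 3171, 913, 994] := rup _
  (.cons a169 (.cons (t2 10 34 49) (.cons (t2 3 7 33) (.cons (t1 7 8 33) (.cons s429 (.cons a52 (.cons (t2 7 8 50) (.cons a429 (.cons (t1 24 49 50) (.cons (t1 10 49 50) (.cons a314 (.cons (t3 24 27 49) (.cons s877 (.cons a109 (.cons s712 (.cons (t3 33 49 50) (.cons (t3 10 33 50) (.cons (t2 33 36 49) (.cons s135 (.cons a480 (.cons (t2 10 48 49) .nil))))))))))))))))))))) (by decide +kernel)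
theorem s1023 : Valid A [1379, 968, 456, 2761, 916, 1066, 950, 399, 3171, 913, 994] := rup _
  (.cons a489 (.cons (t1 7 8 10) (.cons (t2 3 7 10) (.cons s16 (.cons a169 (.cons (t2 10 34 49) (.cons s844 (.cons (t1 3 7 30) (.cons s1022 (.cons s150 (.cons s183 (.cons (t1 7 48 49) (.cons (t2 7 8 48) (.cons (t3 7 36 48) (.cons (t2 10 30 49) (.cons a522 (.cons a479 (.cons (t2 7 8 23) (.cons a399 (.cons (t3 24 36 49) (.cons (t3 10 36 49) (.cons (t1 21 36 49) (.cons (t2 10 23 49) (.cons (t3 21 24 36) (.cons (t3 10 21 36) (.cons (t2 10 28 36) (.cons (t3 21 30 49) (.cons (t3 21 23 49) (.cons a137 (.cons a223 (.cons a506 (.cons a142 (.cons (t1 21 23 52) (.cons s3 (.cons s924 (.cons (t1 0 7 8) (.cons (t1 11 21 23) (.cons s784 .nil)))))))))))))))))))))))))))))))))))))) (by decide +kernel)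
theorem s1024 : Valid A [3939, 2350, 1327, 1070, 1378, 2248, 2274, 4450, 1122] := rup _
  (.cons (t1 10 23 49) (.cons a469 (.cons s534 (.cons a513 (.cons s65 (.cons (t1 17 18 36) (.cons (t1 10 23 48) (.cons a483 (.cons a520 (.cons (t1 23 36 48) (.cons (t1 23 36 49) (.cons (t1 8 48 49) (.cons a479 .nil))))))))))))) (by decide +kernel)
theorem s1025 : Valid A [4706, 680, 4698, 2778, 5858, 1327, 1500, 1373, 738, 2761, 5986, 399, 3171, 426] := rup _
  (.cons (t2 10 23 46) (.cons s63 (.cons a489 (.cons s140 (.cons s727 (.cons (t3 23 36 46) (.cons (t1 21 36 46) (.cons (t3 10 36 46) (.cons a215 (.cons (t3 21 23 36) (.cons (t3 10 21 46) (.cons (t1 11 21 46) (.cons (t2 10 28 36) (.cons (t1 5 11 20) (.cons s924 (.cons a33 (.cons (t1 21 23 52) (.cons (t1 10 23 52) (.cons (t1 20 21 52) (.cons a15 (.cons (t2 10 19 52) (.cons (t1 19 21 52) (.cons a349 (.cons s444 (.cons a347 (.cons (t2 3 7 19) .nil)))))))))))))))))))))))))) (by decide +kernel)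
theorem s1026 : Valid A [962, 993, 4424, 456, 399] := rup _
  (.cons (t2 3 7 33) (.cons (t3 7 33 48) (.cons a52 (.cons s176 (.cons (t2 33 34 36) .nil))))) (by decide +kernel)
theorem s1027 : Valid A [1340, 963, 2918, 1325, 998, 916] := rup _
  (.cons (t1 10 22 30) (.cons s183 (.cons a472 (.cons (t1 7 30 51) .nil)))) (by decide +kernel)
theorem s1028 : Valid A [1341, 2222, 942, 1070, 1373, 968, 456, 916, 931, 432, 3171, 994, 2230] := rup _
  (.cons (t1 7 24 49) (.cons a64 (.cons (t2 3 7 10) (.cons a163 (.cons (t3 3 10 30) (.cons s866 .nil)))))) (by decide +kernel)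
theorem s1029 : Valid A [987, 4706, 1327, 1500, 1373, 2761, 5986, 399, 3171, 994, 426] := rup _
  (.cons (t1 3 7 21) (.cons a204 (.cons a207 (.cons (t2 5 7 49) (.cons (t3 7 21 36) (.cons a32 (.cons (t1 7 45 49) (.cons (t3 7 21 45) (.cons (t3 7 36 45) (.cons (t2 5 7 20) (.cons s1025 .nil))))))))))) (by decide +kernel)
theorem s1030 : Valid A [4706, 1340, 1327, 942, 1070, 1500, 1373, 2761, 5986, 399, 3171, 1122, 994, 426] := rup _
  (.cons (t3 10 30 46) (.cons (t2 10 23 46) (.cons (t1 3 7 21) (.cons a204 (.cons a207 (.cons a489 (.cons s140 (.cons (t3 23 36 46) (.cons (t1 21 36 46) (.cons (t3 10 36 46) (.cons (t3 21 23 36) (.cons (t3 10 21 46) (.cons (t1 11 21 46) (.cons (t2 21 30 46) (.cons (t2 10 28 36) (.cons s924 (.cons (t1 21 23 52) (.cons (t3 7 23 52) (.cons s1029 (.cons s156 (.cons (t2 5 7 45) (.cons (t3 21 30 45) (.cons (t1 10 21 45) (.cons (t2 21 45 52) (.cons s177 (.cons a396 (.cons (t3 22 45 52) (.cons (t3 22 45 51) (.cons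 (t3 30 45 51) (.cons a226 (.cons a472 (.cons s45 (.cons (t1 22 30 34) (.cons a162 (.cons s65 (.cons (t1 10 23 48) (.cons (t1 10 36 48) (.cons a520 (.cons a479 (.cons (t1 8 48 49) .nil)))))))))))))))))))))))))))))))))))))))) (by decide +kernel)
theorem s1031 : Valid A [1070, 2761, 994, 419] := rup _
  (.cons s1021 (.cons s993 (.cons s1019 (.cons (t1 7 24 49) (.cons a405 (.cons (t2 3 17 24) (.cons a64 (.cons a38 (.cons (t1 3 7 27) (.cons s932 (.cons (t1 3 7 21) (.cons (t1 7 8 21) (.cons s1020 (.cons (t3 3 21 36) (.cons (t3 7 21 36) (.cons s1023 (.cons a189 (.cons s63 (.cons a204 (.cons a207 (.cons (t2 5 7 49) (.cons (t2 5 7 10) (.cons s133 (.cons (t3 10 11 46) (.cons s22 (.cons (t1 7 8 10) (.cons (t2 3 7 10) (.cons (t2 3 7 17) (.cons (t2 7 8 17) (.cons (t1 3 7 8) (.cons a169 (.cons (t1 7 8 49) (.cons a39 (.cons (t2 7 8 23) (.cons a399 (.cons (t1 8 17 23) (.cons (t1 10 23 49) (.cons (t3 10 18 23) (.cons s1028 (.cons s1030 (.cons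 a480 (.cons (t3 24 36 49) (.cons (t1 34 36 49) (.cons (t1 23 36 49) (.cons (t2 24 48 49) (.cons (t3 21 24 36) (.cons a483 (.cons s145 (.cons a137 (.cons (t1 7 18 36) (.cons (t3 18 21 36) (.cons s1026 (.cons a142 (.cons s193 (.cons s183 (.cons (t2 8 17 29) (.cons (t1 3 8 29) (.cons a349 (.cons (t2 7 17 30) (.cons (t1 7 30 51) (.cons a140 (.cons a141 (.cons (t2 18 19 21) (.cons (t3 17 22 30) (.cons (t2 3 22 29) (.cons a344 (.cons a472 (.cons a60 (.cons a497 (.cons (t3 3 10 45) (.cons (t3 3 22 45) (.cons (t2 10 22 23) (.cons a395 .nil))))))))))))))))))))))))))))))))))))))))))))))))))))))))))))))))))))))))) (by decide +kernel)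
theorem s1032 : Valid A [1071, 3164, 1072, 1116] := rup _
  (.cons (t1 8 23 46) (.cons (t1 8 23 24) (.cons a193 .nil))) (by decide +kernel)
theorem s1033 : Valid A [4706, 1379, 5986, 916, 950, 399, 3171, 913, 994] := rup _
  (.cons (t2 3 7 10) (.cons s16 (.cons a169 (.cons (t2 10 34 49) (.cons s844 (.cons (t1 3 7 30) (.cons (t1 7 8 10) (.cons a188 (.cons (t1 7 8 49) (.cons (t1 8 24 49) (.cons (t2 24 46 49) (.cons s1032 (.cons a399 (.cons (t2 10 23 49) (.cons a186 (.cons (t2 3 7 46) (.cons s140 (.cons (t2 23 36 49) (.cons s78 (.cons (t1 3 36 46) (.cons a483 (.cons s1022 (.cons (t1 18 23 49) (.cons (t3 10 18 23) (.cons s183 (.cons a471 (.cons (t2 10 18 30) .nil))))))))))))))))))))))))))) (by decide +kernel)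
theorem s1034 : Valid A [1379, 2760, 5986, 916, 950, 938, 399, 482, 3171, 913, 994] := rup _
  (.cons (t1 7 8 10) (.cons a188 (.cons (t1 7 8 49) (.cons (t1 8 24 49) (.cons (t2 24 46 49) (.cons s1032 (.cons a399 (.cons (t2 7 8 23) (.cons (t2 3 7 10) (.cons (t1 7 8 21) (.cons s16 (.cons a169 (.cons (t2 10 34 49) (.cons (t2 10 23 49) (.cons s844 (.cons (t1 3 7 30) (.cons s1033 (.cons (t1 7 36 49) (.cons (t3 24 36 49) (.cons (t1 3 36 49) (.cons (t3 21 36 49) (.cons s201 (.cons (t1 21 24 36) (.cons s1022 (.cons (t1 21 23 49) (.cons (t2 5 21 49) (.cons s202 (.cons s183 (.cons s294 (.cons (t3 7 21 29) (.cons (t1 5 21 29) (.cons (t2 10 30 49) (.cons s474 (.cons (t2 5 11 29) (.cons a215 (.cons (t3 10 11 49) (.cons (t3 11 23 49) (.cons (t3 11 36 49) (.cons (t3 11 30 49) (.cons a389 (.cons a241 (.cons (t1 11 30 52) (.cons (t3 11 28 30) (.cons (t3 11 28 36) (.cons s114 (.cons a487 .nil)))))))))))))))))))))))))))))))))))))))))))))) (by decide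 +kernel)
theorem s1035 : Valid A [993, 968, 4706, 994] := rup _
  (.cons (t1 7 48 49) (.cons (t3 7 36 48) (.cons a479 .nil))) (by decide +kernel)
theorem s1036 : Valid A [992, 2992, 1070, 432, 944, 913] := rup _
  (.cons s145 (.cons (t1 7 8 48) (.cons (t3 23 24 48) (.cons a520 .nil)))) (by decide +kernel)
theorem s1037 : Valid A [4706, 993, 5986, 3171, 988, 994] := rup _
  (.cons s140 (.cons s1035 (.cons (t1 7 36 46) .nil))) (by decide +kernel)
theorem s1038 : Valid A [994, 419] := rup _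
  (.cons s932 (.cons a39 (.cons a38 (.cons s993 (.cons a186 (.cons a188 (.cons (t1 7 8 49) (.cons s1019 (.cons a169 (.cons a404 (.cons a405 (.cons (t1 7 24 49) (.cons (t1 8 24 49) (.cons (t2 3 17 49) (.cons (t2 3 17 24) (.cons a64 (.cons (t1 3 7 21) (.cons (t2 3 7 17) (.cons (t1 3 7 27) (.cons (t2 7 8 17) (.cons s1020 (.cons (t1 7 8 10) (.cons s1021 (.cons (t2 24 46 49) (.cons s1032 (.cons (t2 7 8 23) (.cons a399 (.cons (t1 8 17 23) (.cons s1031 (.cons s1034 (.cons (t1 10 24 49) (.cons a189 (.cons (t1 10 23 49) (.cons (t1 10 23 24) (.cons s63 (.cons s1036 (.cons s1037 (.cons (t1 7 36 49) (.cons (t3 24 36 49) (.cons (t1 34 36 49) (.cons (t1 3 36 49) (.cons (t1 23 36 49) (.cons s1028 (.cons s1026 (.cons s142 (.cons s51 (.cons (t1 7 33 49) (.cons (t3 7 24 33) (.cons (t2 7 33 48) (.cons (t3 7 10 33) (.cons s183 (.cons (t1 7 18 36) (.cons (t3 18 24 36) (.cons s370 (.cons (t1 3 7 30) (.cons s193 (.cons a160 (.cons (t2 10 34 46) (.cons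 a50 (.cons (t3 10 19 46) (.cons a349 (.cons (t3 34 38 46) (.cons (t1 3 17 39) (.cons a347 (.cons a173 (.cons s739 (.cons (t1 18 19 38) (.cons (t2 18 24 39) (.cons a266 (.cons a301 (.cons (t3 9 18 24) (.cons (t3 6 24 49) (.cons a250 (.cons a310 (.cons (t1 9 33 48) (.cons (t3 6 9 33) (.cons a263 .nil))))))))))))))))))))))))))))))))))))))))))))))))))))))))))))))))))))))))))))) (by decide +kernel)
theorem s1039 : Valid A [2380, 2254, 3150, 1317, 1379, 1348, 2342, 2403, 3165, 2225, 3170, 6372] := rup _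
  (.cons (t2 18 49 50) (.cons (t3 18 38 49) (.cons (t2 10 18 38) (.cons a329 (.cons s164 (.cons (t2 24 38 46) (.cons (t1 17 24 38) (.cons (t1 24 38 39) (.cons a174 (.cons (t3 38 39 50) (.cons (t2 17 19 38) (.cons a433 (.cons a333 (.cons (t3 18 19 39) .nil)))))))))))))) (by decide +kernel)
theorem s1040 : Valid A [917, 398, 913, 3170, 419] := rup _
  (.cons s1038 (.cons (t3 3 7 17) (.cons (t3 7 17 49) (.cons s563 (.cons (t2 7 36 49) (.cons (t2 7 24 49) (.cons a64 (.cons a188 (.cons (t1 7 8 17) (.cons a181 (.cons (t2 3 17 24) (.cons (t2 17 24 46) (.cons a178 (.cons (t2 3 24 36) (.cons s494 (.cons a186 (.cons (t3 7 46 49) (.cons s138 (.cons (t3 7 18 49) (.cons a348 (.cons a469 (.cons (t2 7 30 49) (.cons s75 (.cons a195 (.cons s57 (.cons a168 (.cons (t1 3 24 34) (.cons a432 (.cons s38 (.cons (t2 7 10 49) (.cons (t2 7 8 10) (.cons (t2 7 10 18) (.cons (t1 7 10 30) (.cons (t1 7 10 33) (.cons a162 (.cons a401 (.cons (t1 10 18 23) (.cons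 s793 (.cons s370 (.cons (t3 3 30 34) (.cons s36 (.cons (t3 6 24 34) (.cons (t3 24 33 34) (.cons a50 (.cons a301 (.cons a251 (.cons (t1 3 17 39) (.cons (t2 6 9 24) (.cons a261 (.cons s1039 (.cons a266 (.cons (t3 9 18 48) (.cons (t2 10 18 48) (.cons s411 .nil)))))))))))))))))))))))))))))))))))))))))))))))))))))) (by decide +kernel)
theorem s1041 : Valid A [2761, 1370, 3043, 3016, 2779, 943, 1326, 956, 968, 995] := rup _
  (.cons a204 (.cons (t1 7 21 36) (.cons (t2 21 36 45) (.cons a207 (.cons (t3 5 21 45) (.cons (t3 7 21 45) (.cons a382 (.cons s22 (.cons (t1 5 7 49) (.cons s177 (.cons (t1 7 23 51) (.cons a216 (.cons (t1 36 45 51) (.cons s929 (.cons (t1 11 23 49) (.cons (t1 7 22 45) (.cons (t1 22 45 51) (.cons a473 (.cons a475 (.cons (t1 30 36 51) (.cons s991 (.cons s116 (.cons (t3 23 36 52) (.cons (t3 11 36 52) (.cons a238 .nil))))))))))))))))))))))))) (by decide +kernel)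
theorem s1042 : Valid A [939, 1370, 2779, 943, 1329, 2736, 2225, 913] := rup _
  (.cons a210 (.cons (t2 7 21 23) (.cons (t2 7 8 21) (.cons (t3 5 21 45) (.cons (t2 21 23 45) (.cons a143 (.cons s177 (.cons a134 (.cons (t1 23 45 51) (.cons (t1 17 24 29) (.cons (t1 10 24 29) (.cons a496 (.cons a140 (.cons (t3 22 23 45) (.cons (t2 10 22 29) (.cons a395 .nil)))))))))))))))) (by decide +kernel)
theorem s1043 : Valid A [398, 913, 3170, 419] := rup _
  (.cons s1038 (.cons a186 (.cons (t3 7 46 49) (.cons (t2 7 24 49) (.cons (t1 7 8 24) (.cons (t2 7 8 49) (.cons a188 (.cons a432 (.cons s932 (.cons a38 (.cons (t3 3 7 17) (.cons a64 (.cons (t3 7 17 49) (.cons (t1 7 8 17) (.cons (t2 3 17 24) (.cons (t3 3 21 24) (.cons (t1 3 24 27) (.cons s563 (.cons a181 (.cons (t2 17 24 46) (.cons (t3 21 24 46) (.cons (t2 7 36 49) (.cons (t2 8 36 49) (.cons s71 (.cons (t1 3 17 46) (.cons s138 (.cons a179 (.cons a195 (.cons (t2 3 17 18) (.cons a469 (.cons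 a471 (.cons (t3 7 18 49) (.cons (t2 18 49 50) (.cons (t2 7 30 49) (.cons (t2 8 30 49) (.cons a348 (.cons s1040 (.cons (t3 7 10 49) (.cons (t3 7 10 18) (.cons a189 (.cons a349 (.cons s803 (.cons (t3 10 24 46) (.cons (t3 10 17 46) (.cons (t3 3 10 46) (.cons (t2 10 23 46) (.cons (t2 10 21 46) (.cons (t2 10 36 46) (.cons (t2 10 17 19) (.cons (t1 3 10 19) (.cons (t2 10 19 24) (.cons (t1 7 8 23) (.cons s736 (.cons (t1 8 23 36) (.cons (t2 8 23 49) (.cons s724 (.cons (t1 8 23 30) (.cons a335 (.cons (t3 10 21 45) (.cons s139 (.cons (t1 19 24 39) (.cons (t2 3 19 39) (.cons a433 (.cons a48 (.cons (t3 24 39 50) (.cons (t1 30 39 50) (.cons a313 (.cons (t3 27 30 50) (.cons s1041 (.cons s986 (.cons s1042 (.cons (t3 7 21 49) (.cons (t1 7 8 21) (.cons s201 (.cons s569 (.cons s680 (.cons s202 (.cons (t3 8 21 45) (.cons (t2 5 10 21) (.cons (t3 7 11 23) (.cons (t2 21 29 45) (.cons s133 (.cons a387 (.cons s67 (.cons a238 (.cons (t1 8 23 52) (.cons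 (t2 23 49 52) (.cons (t3 23 30 52) (.cons a235 (.cons s336 (.cons (t2 8 42 49) (.cons (t3 27 29 30) (.cons a356 (.cons a128 (.cons (t3 29 42 45) .nil))))))))))))))))))))))))))))))))))))))))))))))))))))))))))))))))))))))))))))))))))))))))))))))) (by decide +kernel)
theorem s1044 : Valid A [956, 4711, 5863, 1370, 917, 2402, 3554, 399, 913, 3170, 995] := rup _
  (.cons (t1 3 7 8) (.cons s57 (.cons a168 (.cons s90 (.cons a66 (.cons a44 (.cons (t2 3 8 48) (.cons a522 (.cons (t2 7 8 23) (.cons (t1 7 10 23) (.cons (t2 7 10 49) (.cons s38 (.cons (t1 3 7 49) (.cons (t2 3 48 49) (.cons a480 (.cons (t2 3 36 49) (.cons (t2 7 24 49) (.cons s145 (.cons (t3 7 30 49) (.cons (t1 7 10 30) (.cons a468 (.cons s390 (.cons a162 (.cons (t1 18 30 34) (.cons (t3 18 24 30) (.cons s883 (.cons (t2 3 7 33) (.cons s1026 (.cons (t1 7 10 33) (.cons a52 (.cons (t1 18 34 36) (.cons (t1 34 36 51) (.cons (t1 30 34 36) (.cons a391 (.cons (t1 33 36 51) (.cons a485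 (.cons (t1 30 34 51) (.cons (t1 23 30 36) (.cons (t3 23 30 33) (.cons (t3 23 33 51) (.cons a473 (.cons s929 (.cons (t1 22 45 51) .nil))))))))))))))))))))))))))))))))))))))))))) (by decide +kernel)
theorem s1045 : Valid A [2779, 2761, 917, 2402, 3554, 938, 399, 913, 3170, 995] := rup _
  (.cons a204 (.cons a207 (.cons (t1 5 7 49) (.cons a216 (.cons (t2 7 11 49) (.cons (t1 7 10 21) (.cons (t1 3 7 49) (.cons s57 (.cons a168 (.cons s90 (.cons a66 (.cons a44 (.cons (t2 3 48 49) (.cons a480 (.cons (t2 3 36 49) (.cons (t2 7 24 49) (.cons s145 (.cons (t3 10 21 45) (.cons (t3 7 21 45) (.cons (t2 21 36 45) (.cons (t3 5 21 45) (.cons a380 (.cons s177 (.cons (t1 11 21 45) (.cons (t1 36 45 51) (.cons s1044 (.cons (t2 7 10 30) (.cons a393 (.cons (t2 7 10 33) (.cons s1026 (.cons (t1 24 34 36) (.cons (t3 21 24 36) (.cons (t1 24 36 45) (.cons (t1 24 36 51) (.cons a23 (.cons (t3 20 24 45) (.cons (t1 20 21 24) (.cons a29 (.cons a33 (.cons (t3 7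 11 20) .nil)))))))))))))))))))))))))))))))))))))))) (by decide +kernel)
theorem s1046 : Valid A [956, 3177, 4457, 2761, 917, 2402, 3554, 399, 913, 3170, 995] := rup _
  (.cons (t2 7 10 49) (.cons (t1 3 7 49) (.cons s57 (.cons a168 (.cons s90 (.cons a66 (.cons a44 (.cons (t2 3 48 49) (.cons a480 (.cons (t2 3 36 49) (.cons (t2 7 24 49) (.cons s145 (.cons (t3 7 30 49) (.cons (t1 7 10 30) (.cons a468 (.cons s390 (.cons (t3 18 24 30) (.cons (t2 24 30 52) (.cons s883 (.cons a224 (.cons s1026 (.cons (t1 21 34 52) (.cons (t3 21 34 36) .nil))))))))))))))))))))))) (by decide +kernel)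
theorem s1047 : Valid A [2761, 917, 913, 3170, 419] := rup _
  (.cons s1043 (.cons (t1 3 7 10) (.cons s1038 (.cons (t2 7 24 49) (.cons (t1 7 10 24) (.cons (t2 7 8 10) (.cons (t2 7 10 49) (.cons (t2 3 7 17) (.cons (t2 7 17 49) (.cons a514 (.cons a38 (.cons (t1 3 7 49) (.cons (t3 3 27 49) (.cons (t1 3 7 8) (.cons s932 (.cons (t1 3 7 21) (.cons (t1 7 8 24) (.cons a430 (.cons (t1 7 8 50) (.cons s57 (.cons a168 (.cons a204 (.cons a489 (.cons a207 (.cons s22 (.cons (t1 5 7 49) (.cons a216 (.cons (t2 3 11 49) (.cons (t2 10 11 49) (.cons s1045 (.cons a60 (.cons s156 (.cons s543 (.cons (t2 3 10 45) (.cons (t2 3 8 45) (.cons (t2 3 45 49) (.cons (t2 11 28 36) (.cons a396 (.cons a357 (.cons a387 (.cons (t2 7 22 45) (.cons (t2 10 42 45) (.cons (t3 42 45 49) (.cons s64 (.cons (t1 8 10 28) (.cons (t3 10 24 28) (.cons (t1 10 28 42) (.cons (t1 10 49 52) (.cons (t2 7 10 52) (.cons a367 (.cons a234 (.cons a226 (.cons (t2 24 34 42) (.cons (t1 34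 42 52) (.cons (t1 24 42 52) (.cons (t3 22 42 52) (.cons a366 (.cons s1046 (.cons (t1 3 7 30) (.cons (t2 7 8 30) (.cons (t1 7 30 51) (.cons (t3 7 22 30) (.cons a50 (.cons a472 (.cons (t1 3 7 39) (.cons (t3 22 32 51) (.cons s260 (.cons a464 (.cons (t2 8 30 41) (.cons (t2 8 28 41) (.cons (t2 30 32 41) (.cons a531 .nil)))))))))))))))))))))))))))))))))))))))))))))))))))))))))))))))))))))))) (by decide +kernel)
theorem s1048 : Valid A [956, 917, 2402, 3554, 950, 399, 913, 3170, 995] := rup _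
  (.cons (t2 7 10 49) (.cons s38 (.cons (t1 3 7 49) (.cons s57 (.cons a168 (.cons s90 (.cons a66 (.cons a44 (.cons (t2 3 48 49) (.cons a480 (.cons (t2 3 36 49) (.cons (t2 7 24 49) (.cons s145 (.cons a430 (.cons (t2 3 7 50) (.cons (t3 7 30 49) (.cons (t2 3 7 30) (.cons (t1 7 10 30) (.cons a468 (.cons s390 (.cons a162 (.cons (t1 18 30 34) (.cons (t3 18 24 30) (.cons s883 (.cons (t2 3 7 33) (.cons s1026 (.cons s793 (.cons a52 (.cons (t1 24 34 36) (.cons (t3 6 24 34) (.cons (t3 6 18 34) (.cons (t3 24 33 36) (.cons a301 (.cons a302 (.cons (t1 6 18 39) (.cons (t1 24 30 39) (.cons (t1 24 33 39) (.cons s137 (.cons a48 (.cons (t2 18 24 50) (.cons (t2 3 39 49) (.cons a314 (.cons a443 (.cons s794 (.cons (t2 10 41 49) .nil))))))))))))))))))))))))))))))))))))))))))))) (by decide +kernel)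
theorem s1049 : Valid A [2779, 10, 1338, 3130, 979, 3154, 1107, 2760, 1315, 4706, 1059, 931, 938, 995] := rup _
  (.cons (t3 7 21 49) (.cons s680 (.cons (t2 7 36 49) (.cons s201 (.cons s85 (.cons (t1 21 45 49) (.cons (t3 21 36 45) (.cons s569 (.cons (t2 5 21 40) (.cons s727 (.cons s226 (.cons (t3 7 11 41) (.cons a215 (.cons (t1 0 7 17) (.cons (t1 5 11 40) (.cons a511 (.cons a3 (.cons (t1 4 10 17) (.cons (t1 4 8 17) (.cons (t1 24 40 41) (.cons (t3 8 40 41) (.cons a146 (.cons (t3 4 8 40) (.cons (t2 4 24 29) (.cons a7 .nil))))))))))))))))))))))))) (by decide +kernel)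

end Pool.Agent.Helper50.Canon.CD
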