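import Mathlib
import Pool.Agent.Helper50.Canon.CD.C7

set_option autoImplicit false

namespace Pool.Agent.Helper50.Canon.CD

theorem s1050 : Valid A [917, 913, 3170, 419] := rup _
  (.cons s1038 (.cons s1043 (.cons (t1 3 7 49) (.cons s57 (.cons a168 (.cons s90 (.cons a66 (.cons a44 (.cons (t2 3 48 49) (.cons a480 (.cons (t2 7 36 49) (.cons (t2 3 36 49) (.cons (t2 3 7 17) (.cons (t2 7 17 49) (.cons a514 (.cons a38 (.cons (t3 3 27 49) (.cons (t2 7 8 17) (.cons s932 (.cons (t1 3 7 21) (.cons (t1 7 8 21) (.cons (t3 7 21 49) (.cons (t2 7 24 49) (.cons s145 (.cons (t1 3 7 27) (.cons (t1 7 8 24) (.cons a430 (.cons (t1 7 8 50) (.cons (t2 7 10 17) (.cons (t1 7 10 21) (.cons s1047 (.cons s201 (.cons s680 (.cons s1048 (.cons (t2 7 10 30) (.cons (t1 3 7 30) (.cons a393 (.cons a50 (.cons (t2 7 10 33) (.cons (t1 3 7 39) (.cons s1026 (.cons s260 (.cons (t1 24 34 36) (.cons (t3 8 24 41) (.cons (t1 7 8 41) (.cons (t1 21 24 36) (.cons s202 (.cons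 a136 (.cons s7 (.cons (t3 10 21 29) (.cons (t1 0 5 21) (.cons s1049 (.cons a60 (.cons s156 (.cons (t2 5 21 45) (.cons (t3 3 24 45) (.cons (t2 3 45 49) (.cons (t3 3 36 45) (.cons a30 (.cons s177 (.cons (t3 24 45 51) (.cons s384 (.cons (t3 20 45 49) (.cons (t3 20 45 51) (.cons (t2 5 11 21) (.cons a22 (.cons a215 (.cons (t2 20 21 24) (.cons (t2 11 20 49) (.cons a33 .nil)))))))))))))))))))))))))))))))))))))))))))))))))))))))))))))))))))))) (by decide +kernel)
theorem s1051 : Valid A [913, 3170, 419] := rup _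
  (.cons s1038 (.cons s57 (.cons a168 (.cons s90 (.cons (t2 7 24 49) (.cons a430 (.cons a307 (.cons a305 (.cons a186 (.cons (t3 7 46 49) (.cons s1043 (.cons a66 (.cons s16 (.cons (t2 3 7 17) (.cons (t1 3 7 49) (.cons (t1 3 7 8) (.cons (t2 3 6 7) (.cons (t2 3 7 50) (.cons a44 (.cons s145 (.cons (t2 7 17 49) (.cons (t3 3 6 48) (.cons (t1 3 48 50) (.cons (t2 3 48 49) (.cons (t2 3 8 48) (.cons a514 (.cons a515 (.cons a480 (.cons (t1 18 48 49) (.cons a522 (.cons (t2 7 18 49) (.cons (t2 3 36 49) (.cons (t2 7 36 49) (.cons s1050 (.cons (t3 7 10 49) (.cons (t1 7 8 10) (.cons s890 (.cons (t3 7 10 48) (.cons s193 (.cons a189 (.cons a399 (.cons (t1 3 7 30) (.cons (t3 3 30 49) (.cons s63 (.cons (t2 10 23 46) (.cons a468 (.cons a349 (.cons a194 (.cons (t3 10 18 30) (.cons (t2 18 19 30) (.cons (t3 23 24 34) (.cons s183 (.cons (t2 10 23 34) (.cons (t3 7 33 49) (.cons (t2 3 7 33) (.cons s1026 (.cons (t3 7 33 48) (.cons s135 (.cons a162 (.cons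 a310 (.cons a52 (.cons (t1 24 34 36) (.cons s176 (.cons a391 (.cons (t3 24 30 34) (.cons (t1 19 30 34) (.cons (t1 6 33 36) (.cons (t3 24 33 36) (.cons (t1 6 33 34) (.cons (t1 19 30 33) (.cons (t3 18 24 30) (.cons (t3 6 19 34) (.cons (t3 6 24 36) (.cons a252 (.cons (t1 9 19 33) (.cons (t2 6 9 19) (.cons a301 (.cons a261 (.cons (t2 18 24 39) (.cons (t2 9 10 48) (.cons (t2 9 48 50) (.cons s137 (.cons a246 (.cons (t3 10 18 50) .nil)))))))))))))))))))))))))))))))))))))))))))))))))))))))))))))))))))))))))))))))))))) (by decide +kernel)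
theorem s1052 : Valid A [917, 2225, 2274, 912, 3170, 995] := rup _
  (.cons (t3 7 8 49) (.cons (t2 7 24 49) (.cons (t2 7 10 49) (.cons (t3 7 8 10) (.cons (t1 7 10 24) (.cons a190 (.cons a192 (.cons s685 (.cons a399 (.cons (t1 10 23 24) (.cons s795 (.cons s690 (.cons (t1 10 23 46) (.cons (t3 8 24 46) (.cons a193 .nil))))))))))))))) (by decide +kernel)
theorem s1053 : Valid A [5987, 2786, 2761, 2736, 3170] := rup _
  (.cons (t1 24 46 49) (.cons (t1 21 46 49) (.cons s340 .nil))) (by decide +kernel)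
theorem s1054 : Valid A [2761, 398, 3170, 419] := rup _
  (.cons s1038 (.cons s1051 (.cons (t3 3 7 17) (.cons (t3 7 17 49) (.cons (t2 7 24 49) (.cons a64 (.cons (t2 3 17 24) (.cons s1052 (.cons (t3 7 10 49) (.cons s563 (.cons (t2 7 36 49) (.cons s932 (.cons (t3 3 21 24) (.cons (t3 7 8 49) (.cons s57 (.cons a168 (.cons a204 (.cons (t1 7 21 36) (.cons (t2 21 36 49) (.cons (t3 21 24 36) (.cons a207 (.cons (t1 3 5 7) (.cons (t1 5 7 49) (.cons a216 (.cons (t2 7 11 49) (.cons s1053 (.cons s795 (.cons s690 (.cons a189 (.cons (t3 8 24 46) (.cons (t3 8 24 34) (.cons s666 (.cons (t3 8 23 46) (.cons s912 (.cons s63 (.cons (t1 24 34 46) (.cons s340 (.cons a177 (.cons a193 (.cons (t1 8 10 34) (.cons s351 (.cons (t3 8 21 46) (.cons (t3 10 21 46) (.cons (t2 21 23 46) (.cons s78 (.cons (t1 23 36 46) (.cons (t3 17 23 24) (.cons (t1 7 23 24) (.cons s534 (.cons a143 (.cons s294 (.cons a483 (.cons (t2 7 30 49) (.cons a134 (.cons a383 (.cons (t1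 7 18 23) (.cons (t2 18 23 49) (.cons (t1 18 23 24) (.cons (t3 17 18 23) (.cons s10 (.cons (t1 17 24 29) (.cons (t1 3 24 29) (.cons (t1 23 24 29) (.cons (t1 18 24 29) (.cons s4 (.cons s193 (.cons a468 (.cons (t1 0 23 24) (.cons a140 (.cons a141 (.cons (t1 11 23 29) (.cons (t1 11 18 29) (.cons a349 (.cons (t1 17 18 30) (.cons (t2 18 23 30) (.cons a505 (.cons (t2 3 22 29) (.cons (t3 17 22 30) (.cons (t3 11 18 19) (.cons (t2 18 19 24) (.cons (t3 0 10 21) (.cons (t1 0 21 36) (.cons (t2 0 11 21) (.cons (t2 0 10 11) (.cons (t2 0 11 36) (.cons a35 (.cons a381 (.cons (t1 11 21 45) (.cons (t2 10 11 45) (.cons a60 (.cons (t2 3 24 45) (.cons (t3 3 5 45) (.cons (t3 3 22 45) (.cons s177 (.cons a395 (.cons (t1 24 45 51) (.cons (t3 7 10 22) (.cons a23 (.cons s991 (.cons (t2 19 20 24) (.cons (t2 23 30 52) (.cons s292 (.cons a238 .nil))))))))))))))))))))))))))))))))))))))))))))))))))))))))))))))))))))))))))))))))))))))))))))))))))))))) (by decide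 +kernel)
theorem s1055 : Valid A [5987, 3524, 2225, 2274, 1122, 3170, 995] := rup _
  (.cons s57 (.cons a168 (.cons (t2 7 24 49) (.cons a191 (.cons s80 (.cons (t1 24 46 49) (.cons (t3 7 46 49) (.cons (t1 8 46 49) (.cons a513 (.cons s822 (.cons s723 (.cons (t1 17 24 30) (.cons (t2 24 30 34) (.cons s558 (.cons (t1 10 17 30) (.cons a165 .nil)))))))))))))))) (by decide +kernel)
theorem s1056 : Valid A [939, 979, 548, 927, 72, 14, 2343, 1224, 1248, 2376, 4705, 2760, 995] := rup _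
  (.cons a305 (.cons a208 (.cons a210 (.cons (t2 7 21 41) (.cons (t2 7 15 21) (.cons (t3 5 7 49) (.cons a203 (.cons a452 (.cons a103 (.cons (t2 5 18 36) (.cons (t1 5 36 48) (.cons (t2 5 9 36) (.cons (t1 0 5 36) (.cons (t2 7 21 43) (.cons (t2 7 21 26) (.cons s364 (.cons s226 (.cons (t1 4 5 48) (.cons (t2 4 5 7) (.cons (t2 4 5 9) (.cons (t3 6 7 11) (.cons (t1 7 11 43) (.cons a454 (.cons a419 (.cons (t3 4 9 43) (.cons a309 (.cons a243 (.cons (t3 4 6 48) (.cons (t1 6 9 11) (.cons a261 .nil)))))))))))))))))))))))))))))) (by decide +kernel)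
theorem s1057 : Valid A [398, 3170, 419] := rup _
  (.cons s1038 (.cons s1051 (.cons (t3 7 8 49) (.cons s57 (.cons a168 (.cons s90 (.cons (t2 7 24 49) (.cons a432 (.cons a430 (.cons s932 (.cons a38 (.cons (t3 3 7 17) (.cons (t3 3 7 49) (.cons a64 (.cons (t3 7 17 49) (.cons a46 (.cons (t2 3 17 24) (.cons (t3 3 21 24) (.cons (t1 3 24 27) (.cons s563 (.cons (t3 24 27 34) (.cons (t2 7 36 49) (.cons s1052 (.cons (t3 7 10 49) (.cons s1054 (.cons s1055 (.cons (t2 7 46 49) (.cons s795 (.cons s690 (.cons a189 (.cons (t3 8 24 46) (.cons (t3 8 24 34) (.cons s60 (.cons s666 (.cons (t3 8 23 46) (.cons s912 (.cons s63 (.cons (t1 24 34 46) (.cons a193 (.cons s351 (.cons (t1 8 10 34) (.cons (t3 17 23 24) (.cons (t1 7 23 24) (.cons (t3 3 23 24) (.cons (t2 23 24 48) (.cons (t1 21 23 24) (.cons s534 (.cons s864 (.cons a520 (.cons s150 (.cons (t3 7 48 49) (.cons s144 (.cons (t3 8 18 48) (.cons (t2 8 10 48) (.cons s431 (.cons s211 (.cons a479 (.cons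 (t1 18 36 48) (.cons s820 (.cons a106 (.cons a428 (.cons (t3 8 24 50) (.cons (t2 8 46 50) (.cons (t3 8 18 50) (.cons (t2 8 10 50) (.cons (t2 8 48 50) (.cons (t1 3 23 36) (.cons (t3 36 46 48) (.cons (t3 8 36 48) (.cons (t3 10 36 48) (.cons (t2 18 24 49) (.cons (t3 17 18 24) (.cons (t1 7 18 24) (.cons (t3 3 18 24) (.cons s733 (.cons (t1 8 10 15) (.cons s188 (.cons a313 (.cons (t1 36 46 50) (.cons s482 (.cons a249 (.cons (t3 10 27 50) (.cons (t1 9 48 50) (.cons (t2 8 21 36) (.cons (t2 10 21 36) (.cons s193 (.cons (t1 3 24 30) (.cons (t3 10 15 27) (.cons (t3 7 27 49) (.cons (t1 9 36 50) (.cons s202 (.cons s321 (.cons a349 (.cons (t3 10 19 36) (.cons a50 (.cons a113 (.cons s7 (.cons (t2 0 7 23) (.cons (t3 0 17 23) (.cons (t2 0 23 36) (.cons (t1 3 18 39) (.cons (t3 7 15 49) (.cons a511 (.cons a433 (.cons (t3 4 17 18) (.cons (t2 39 41 50) (.cons a442 (.cons (t3 7 41 49) (.cons s1056 (.cons (t3 7 21 49) (.cons s201 (.cons s680 (.cons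 (t2 5 10 21) (.cons (t1 0 5 21) (.cons s133 (.cons s226 (.cons (t3 10 11 36) (.cons s319 .nil)))))))))))))))))))))))))))))))))))))))))))))))))))))))))))))))))))))))))))))))))))))))))))))))))))))))))))))))))))))) (by decide +kernel)
theorem s1058 : Valid A [1070, 917, 2402, 399, 912, 3170, 995] := rup _
  (.cons (t3 7 8 49) (.cons (t2 7 10 49) (.cons a190 (.cons s690 (.cons (t1 3 7 49) (.cons s57 (.cons a168 (.cons s90 (.cons a66 (.cons a44 (.cons (t2 3 48 49) (.cons a480 (.cons (t2 7 36 49) (.cons (t2 3 36 49) (.cons (t2 7 18 49) (.cons (t2 7 24 49) (.cons s145 (.cons s864 (.cons (t3 8 23 46) (.cons (t2 7 23 49) (.cons (t1 7 23 24) (.cons (t1 7 23 36) (.cons (t3 7 18 23) (.cons s351 (.cons a193 (.cons a483 (.cons s77 (.cons s75 (.cons (t3 18 34 36) (.cons s1026 (.cons (t2 7 33 49) (.cons (t2 7 10 33) (.cons a392 (.cons a393 (.cons (t3 30 33 49) (.cons s390 (.cons a468 (.cons (t3 18 24 30) .nil))))))))))))))))))))))))))))))))))))))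 (by decide +kernel)
theorem s1059 : Valid A [3016, 5863, 4699, 1370, 2365, 2350, 1326] := rup _
  (.cons (t1 36 45 51) (.cons a483 (.cons (t3 23 36 51) (.cons (t2 18 30 36) (.cons s929 (.cons (t1 30 36 45) (.cons (t1 30 36 51) (.cons (t3 22 30 45) (.cons a474 .nil))))))))) (by decide +kernel)
theorem s1060 : Valid A [2779, 3004, 2365, 3938, 2761, 3012, 2992, 2350, 3042, 1326, 1322, 1379, 3170] := rup _
  (.cons a204 (.cons (t3 10 21 45) (.cons (t2 21 36 45) (.cons (t3 5 21 45) (.cons s177 (.cons (t1 36 45 51) (.cons s1059 (.cons (t1 23 36 45) (.cons (t1 23 36 51) (.cons (t3 23 34 45) (.cons a498 (.cons (t3 23 30 51) (.cons s663 .nil))))))))))))) (by decide +kernel)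
theorem s1061 : Valid A [3016, 2746, 2914, 940, 1481, 3133, 2761, 3037, 1071, 938, 912, 944, 995] := rup _
  (.cons (t3 21 29 36) (.cons a204 (.cons a207 (.cons (t1 5 7 49) (.cons a216 (.cons (t2 7 11 49) (.cons a194 (.cons (t2 8 23 24) (.cons a195 (.cons (t3 7 8 23) (.cons (t3 23 36 46) (.cons (t2 21 23 36) (.cons a177 (.cons s294 (.cons (t3 11 24 36) (.cons (t2 24 29 36) (.cons (t3 0 7 49) (.cons a383 (.cons (t1 0 11 24) (.cons s628 (.cons a491 (.cons (t2 0 22 24) .nil)))))))))))))))))))))) (by decide +kernel)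
theorem s1062 : Valid A [1340, 2761, 917, 3170, 419] := rup _
  (.cons s1038 (.cons s1057 (.cons (t2 3 7 17) (.cons (t2 7 17 49) (.cons s932 (.cons (t1 3 7 21) (.cons a204 (.cons a207 (.cons (t1 5 7 49) (.cons a216 (.cons (t1 11 17 49) (.cons (t2 7 10 49) (.cons (t2 10 11 49) (.cons (t1 3 7 49) (.cons (t2 3 11 49) (.cons a489 (.cons s57 (.cons a168 (.cons a190 (.cons (t2 7 46 49) (.cons s90 (.cons (t2 7 24 49) (.cons a66 (.cons s145 (.cons s1051 (.cons a514 (.cons s1058 (.cons s191 (.cons a194 (.cons (t3 23 24 34) (.cons (t3 7 8 49) (.cons s690 (.cons s60 (.cons (t3 8 18 23) (.cons (t1 8 23 49) (.cons a400 (.cons (t1 7 10 21) (.cons (t2 7 10 17) (.cons (t1 3 7 10) (.cons (t1 3 17 21) (.cons (t3 10 30 49) (.cons (t1 10 17 30) (.cons s390 (.cons a468 (.cons (t3 23 24 30) (.cons s1060 (.cons a60 (.cons s156 (.cons s543 (.cons (t2 3 17 45) (.cons (t2 3 10 45) (.cons (t2 3 45 49) (.cons (t2 11 28 36) (.cons a396 (.cons a387 (.cons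 (t2 3 22 45) (.cons (t2 7 22 45) (.cons (t2 17 22 45) (.cons (t3 22 45 49) (.cons s64 (.cons s626 (.cons (t2 7 10 52) (.cons a226 (.cons s1061 (.cons (t3 11 23 36) (.cons a241 (.cons (t2 11 23 30) (.cons (t1 11 22 52) (.cons s401 (.cons (t3 3 11 16) (.cons (t1 11 16 22) (.cons a56 .nil)))))))))))))))))))))))))))))))))))))))))))))))))))))))))))))))))))))))) (by decide +kernel)
theorem s1063 : Valid A [2761, 917, 3170, 419] := rup _
  (.cons s1038 (.cons s57 (.cons a168 (.cons s1051 (.cons s1057 (.cons (t2 3 7 17) (.cons (t2 7 17 49) (.cons a514 (.cons s1058 (.cons (t2 7 10 49) (.cons a190 (.cons (t2 7 46 49) (.cons s90 (.cons (t2 7 24 49) (.cons a66 (.cons s145 (.cons s191 (.cons a194 (.cons (t2 8 23 24) (.cons (t3 8 24 34) (.cons (t3 23 24 34) (.cons a195 (.cons (t3 7 8 23) (.cons (t2 7 10 48) (.cons (t1 3 7 10) (.cons (t1 3 7 49) (.cons a44 (.cons (t2 3 48 49) (.cons a480 (.cons (t2 3 36 49) (.cons (t2 7 18 49) (.cons (t1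 18 48 49) (.cons (t2 3 7 8) (.cons (t3 3 8 48) (.cons a305 (.cons (t2 3 6 7) (.cons (t3 3 6 48) (.cons s932 (.cons (t1 3 7 21) (.cons a307 (.cons a204 (.cons a207 (.cons (t1 5 7 49) (.cons a216 (.cons (t2 7 11 49) (.cons s1062 (.cons a393 (.cons (t1 3 10 30) (.cons (t3 10 33 49) (.cons (t2 3 10 33) (.cons (t2 7 10 33) (.cons (t3 10 33 48) (.cons a50 (.cons a310 (.cons a52 (.cons s1026 (.cons s176 (.cons (t1 3 17 39) (.cons (t1 6 33 36) (.cons (t3 21 33 36) (.cons (t1 24 34 36) (.cons (t3 8 34 36) (.cons (t3 23 34 36) (.cons (t3 24 33 34) (.cons (t1 23 33 34) (.cons (t3 6 24 36) (.cons (t2 21 23 33) (.cons (t3 21 24 36) (.cons s142 (.cons (t1 8 21 36) (.cons a251 (.cons a301 (.cons s294 (.cons a137 (.cons (t3 18 24 36) (.cons a142 (.cons (t2 6 9 24) (.cons (t2 18 24 39) (.cons a383 (.cons s3 (.cons (t1 8 29 48) (.cons a261 (.cons s739 (.cons s4 (.cons (t3 0 8 23) (.cons a347 (.cons (t1 7 19 46) (.cons a505 (.cons s443 (.cons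 (t1 0 21 24) (.cons (t1 18 24 38) (.cons s166 (.cons (t2 0 11 24) (.cons (t2 11 24 38) (.cons (t1 29 38 48) (.cons a130 .nil)))))))))))))))))))))))))))))))))))))))))))))))))))))))))))))))))))))))))))))))))))))))))))))))) (by decide +kernel)
theorem s1064 : Valid A [2779, 2748, 2736, 956, 2760, 1072, 1071, 917, 4706, 938, 912, 944, 995] := rup _
  (.cons (t3 7 21 49) (.cons s680 (.cons (t2 7 36 49) (.cons s201 (.cons (t3 7 8 23) (.cons (t1 7 10 36) (.cons s38 (.cons (t1 21 45 49) (.cons (t3 21 36 45) (.cons (t1 5 21 45) (.cons s727 (.cons s625 (.cons a215 (.cons a143 (.cons (t3 7 21 29) (.cons (t1 5 21 29) (.cons (t2 5 11 29) (.cons (t3 8 21 23) (.cons s474 (.cons s294 .nil)))))))))))))))))))) (by decide +kernel)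
theorem s1065 : Valid A [2778, 3004, 444, 683, 430, 405, 426] := rup _
  (.cons a60 (.cons (t2 5 21 45) (.cons (t2 3 10 45) (.cons (t3 3 23 45) (.cons (t3 3 30 45) (.cons s177 (.cons a396 (.cons s716 .nil)))))))) (by decide +kernel)
theorem s1066 : Valid A [3016, 2779, 2365, 956, 2760, 3037, 1071, 917, 4706, 938, 912, 944, 995] := rup _
  (.cons a194 (.cons (t2 8 23 24) (.cons a195 (.cons (t3 7 8 49) (.cons (t2 7 10 49) (.cons a190 (.cons s690 (.cons s60 (.cons (t3 8 18 23) (.cons (t3 23 36 46) (.cons a483 (.cons a177 (.cons (t2 18 21 36) (.cons (t1 21 24 36) (.cons (t3 18 21 30) (.cons s1064 .nil)))))))))))))))) (by decide +kernel)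
theorem s1067 : Valid A [1340, 917, 3170, 419] := rup _
  (.cons s1038 (.cons s1057 (.cons (t1 3 7 49) (.cons s57 (.cons a168 (.cons s90 (.cons a66 (.cons a44 (.cons (t2 3 48 49) (.cons a480 (.cons (t2 7 36 49) (.cons s932 (.cons (t1 3 7 21) (.cons s1063 (.cons s201 (.cons a205 (.cons (t1 7 10 36) (.cons (t1 7 10 21) (.cons s986 (.cons (t3 7 21 49) (.cons s680 (.cons (t2 7 10 49) (.cons a190 (.cons (t2 7 46 49) (.cons (t2 7 24 49) (.cons s145 (.cons s1051 (.cons (t2 3 7 17) (.cons (t2 7 17 49) (.cons a514 (.cons s1058 (.cons s191 (.cons a194 (.cons (t2 3 7 8) (.cons (t3 3 8 23) (.cons (t3 7 8 23) (.cons (t2 7 10 17) (.cons (t1 3 7 10) (.cons (t2 17 36 49) (.cons (t3 10 30 49) (.cons (t2 3 10 30) (.cons (t2 7 10 30) (.cons s390 (.cons a468 (.cons (t3 23 24 30) (.cons s1065 (.cons (t3 10 21 45) (.cons (t3 7 21 45) (.cons (t1 21 45 49) (.cons (t3 21 36 45) (.cons s569 (.cons (t1 5 21 45) (.cons s727 (.cons (t1 7 10 11) (.cons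 a215 (.cons a387 (.cons (t2 5 11 21) (.cons (t2 5 11 45) (.cons (t1 5 11 36) (.cons s67 (.cons a35 (.cons (t1 11 45 52) (.cons (t3 11 20 45) (.cons a29 (.cons (t2 7 10 20) (.cons a19 (.cons (t3 10 13 49) (.cons (t3 10 13 17) (.cons a502 (.cons (t2 13 21 36) (.cons s359 (.cons (t1 4 10 17) (.cons s1066 (.cons (t1 11 23 36) (.cons (t1 21 23 36) (.cons a238 (.cons s294 (.cons (t3 7 23 52) (.cons (t3 0 7 17) (.cons s131 (.cons a509 (.cons a395 (.cons s0 (.cons (t2 10 17 22) (.cons a146 (.cons a141 (.cons (t2 10 17 29) .nil))))))))))))))))))))))))))))))))))))))))))))))))))))))))))))))))))))))))))))))))))))))) (by decide +kernel)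
theorem s1068 : Valid A [2779, 2493, 935, 3644, 2760, 917, 968, 4706, 2786, 938] := rup _
  (.cons s680 (.cons s201 (.cons (t1 7 10 36) (.cons (t3 7 21 45) (.cons (t1 21 45 49) (.cons (t3 21 36 45) (.cons s569 (.cons (t1 5 21 45) (.cons s727 (.cons (t1 7 10 11) (.cons a215 (.cons (t2 5 11 21) (.cons (t2 5 11 45) (.cons a35 (.cons s216 (.cons (t3 11 20 45) (.cons s114 (.cons a29 (.cons (t1 19 30 52) (.cons (t2 7 19 20) (.cons a17 .nil))))))))))))))))))))) (by decide +kernel)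
theorem s1069 : Valid A [917, 3170, 419] := rup _
  (.cons s1038 (.cons s1057 (.cons (t1 3 7 49) (.cons s57 (.cons a168 (.cons s90 (.cons a66 (.cons a44 (.cons (t2 3 48 49) (.cons a480 (.cons (t2 7 36 49) (.cons (t2 3 36 49) (.cons (t2 3 7 17) (.cons (t2 7 17 49) (.cons a514 (.cons (t2 7 18 49) (.cons s932 (.cons (t1 3 7 21) (.cons (t3 7 21 49) (.cons (t2 7 24 49) (.cons s145 (.cons s1051 (.cons a307 (.cons (t2 7 10 49) (.cons (t1 3 7 10) (.cons (t1 7 10 36) (.cons (t1 7 10 21) (.cons (t2 7 10 48) (.cons a190 (.cons (t2 7 46 49) (.cons s1058 (.cons s191 (.cons a194 (.cons a195 (.cons (t3 23 24 34) (.cons s1063 (.cons s201 (.cons s680 (.cons s986 (.cons s1067 (.cons a393 (.cons (t1 3 10 30) (.cons (t1 7 10 30) (.cons (t3 10 28 30) (.cons (t3 10 33 49) (.cons (t2 3 10 33) (.cons (t2 7 10 33) (.cons (t3 10 33 48) (.cons a50 (.cons a310 (.cons a52 (.cons s1026 (.cons s176 (.cons (t1 3 17 39) (.cons (t1 6 33 36) (.cons (t1 21 33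 36) (.cons (t1 24 34 36) (.cons (t3 23 34 36) (.cons (t3 24 33 34) (.cons (t3 6 24 36) (.cons (t1 21 24 33) (.cons s142 (.cons a301 (.cons (t3 18 24 36) (.cons (t2 18 24 39) (.cons s739 (.cons (t2 7 19 30) (.cons s1068 (.cons a60 (.cons s156 (.cons (t2 5 21 45) (.cons (t3 3 24 45) (.cons (t2 3 45 49) (.cons (t3 3 36 45) (.cons a30 (.cons s177 (.cons (t3 24 45 51) (.cons s384 (.cons (t3 20 45 49) (.cons (t3 20 45 51) (.cons (t2 5 11 21) (.cons a22 (.cons a215 (.cons (t2 20 21 24) (.cons (t2 11 20 49) (.cons a33 .nil)))))))))))))))))))))))))))))))))))))))))))))))))))))))))))))))))))))))))))))))))))))) (by decide +kernel)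
theorem s1070 : Valid A [1070, 3170, 419] := rup _
  (.cons s1069 (.cons s1038 (.cons s1057 (.cons (t1 3 7 49) (.cons s57 (.cons a168 (.cons s90 (.cons a66 (.cons a44 (.cons (t2 3 48 49) (.cons a480 (.cons (t2 7 36 49) (.cons (t2 3 7 17) (.cons (t2 7 17 49) (.cons a514 (.cons (t1 18 48 49) (.cons a515 (.cons a305 (.cons (t2 3 6 7) (.cons (t3 3 6 48) (.cons (t2 7 24 49) (.cons s145 (.cons a430 (.cons (t2 3 7 50) (.cons s16 (.cons s1051 (.cons s890 (.cons (t1 3 7 30) (.cons (t3 3 30 49) (.cons s892 (.cons a468 .nil))))))))))))))))))))))))))))))) (by decide +kernel)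
theorem s1071 : Valid A [3170, 419] := rup _
  (.cons s1038 (.cons s57 (.cons a38 (.cons a168 (.cons s90 (.cons s1051 (.cons (t3 7 8 49) (.cons s1057 (.cons a66 (.cons (t2 3 7 17) (.cons (t1 3 7 49) (.cons (t1 3 7 27) (.cons a44 (.cons (t2 7 17 49) (.cons (t2 3 48 49) (.cons a514 (.cons a480 (.cons (t2 7 18 49) (.cons s1069 (.cons (t3 7 10 49) (.cons s1070 (.cons a402 (.cons s936 (.cons s912 (.cons a189 (.cons (t1 8 23 46) (.cons (t1 24 46 49) (.cons (t1 36 46 49) (.cons s1032 (.cons a193 (.cons a177 (.cons (t1 8 24 34) (.cons (t1 23 24 34) (.cons (t1 23 24 36) (.cons (t3 8 10 34) (.cons a484 (.cons s534 (.cons (t2 8 18 23) (.cons (t3 18 23 34) (.cons a468 (.cons (t1 18 30 34) (.cons a162 (.cons (t3 10 18 30) (.cons a350 (.cons a345 (.cons s43 (.cons (t2 7 17 19) (.cons (t1 7 19 27) (.cons a335 (.cons a154 (.cons (t2 7 19 39) (.cons (t3 24 27 34) (.cons (t3 23 27 34) (.cons (t3 8 27 34) (.cons a314 (.cons a327 (.cons (t2 8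 24 50) (.cons s442 (.cons s219 (.cons a320 (.cons (t1 7 14 18) (.cons (t3 8 18 41) (.cons (t2 8 27 41) (.cons (t3 14 27 41) (.cons a523 .nil))))))))))))))))))))))))))))))))))))))))))))))))))))))))))))))))) (by decide +kernel)
theorem s1072 : Valid A [2761, 2269, 917, 419] := rup _
  (.cons s1038 (.cons (t2 7 10 49) (.cons a190 (.cons s138 (.cons a469 (.cons (t2 10 30 49) (.cons s932 (.cons (t1 3 17 21) (.cons (t3 17 21 46) (.cons s1071 (.cons a405 (.cons (t2 3 17 24) (.cons (t3 3 21 36) (.cons (t1 21 36 46) (.cons s140 (.cons a480 (.cons (t3 7 36 49) (.cons (t2 24 48 49) (.cons s898 (.cons a44 (.cons s18 .nil))))))))))))))))))))) (by decide +kernel)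
theorem s1073 : Valid A [1506, 2120, 672, 1621, 2602, 1064, 1108, 4698, 395, 738, 2787, 457, 426] := rup _
  (.cons (t1 11 21 49) (.cons a215 (.cons s247 (.cons a33 (.cons (t1 3 5 11) (.cons (t1 5 11 16) (.cons (t3 11 16 20) (.cons a41 (.cons a25 (.cons (t3 11 12 36) (.cons (t1 8 16 42) (.cons (t3 12 36 42) (.cons a353 .nil))))))))))))) (by decide +kernel)
theorem s1074 : Valid A [2779, 939, 4706, 913, 917, 419] := rup _
  (.cons s1038 (.cons (t2 7 8 49) (.cons (t2 7 21 49) (.cons a500 (.cons (t2 8 12 49) (.cons s1071 (.cons a404 (.cons (t2 7 17 49) (.cons (t1 7 8 17) (.cons a188 (.cons a181 (.cons (t1 3 17 46) (.cons (t2 7 10 49) (.cons a190 (.cons s140 (.cons (t3 3 36 46) (.cons s1072 (.cons a210 (.cons a203 (.cons (t3 3 5 36) (.cons (t3 7 24 49) (.cons (t2 7 8 24) (.cons (t2 7 8 10) (.cons a402 (.cons s326 (.cons (t3 23 36 46) (.cons (t3 5 23 36) (.cons (t2 7 21 24) (.cons a135 (.cons a208 (.cons (t3 5 7 49) (.cons s138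 (.cons a469 (.cons (t2 7 30 49) (.cons (t1 7 21 30) (.cons (t2 7 8 21) (.cons (t2 7 10 21) (.cons (t3 3 23 46) (.cons a54 (.cons (t1 3 23 33) (.cons a39 (.cons (t3 17 27 46) (.cons (t1 27 36 46) (.cons (t2 7 36 49) (.cons (t2 10 30 49) (.cons (t3 17 23 46) (.cons s932 (.cons (t1 3 17 21) (.cons (t3 17 21 46) (.cons (t1 21 23 46) (.cons a430 (.cons (t1 7 8 50) (.cons (t2 3 17 49) (.cons a432 (.cons (t2 24 49 50) (.cons a38 (.cons s300 (.cons (t3 21 36 45) (.cons (t1 10 21 45) (.cons (t1 7 21 45) (.cons (t3 21 30 45) (.cons (t3 21 23 45) (.cons (t1 8 21 45) (.cons s177 (.cons a396 (.cons a30 (.cons (t3 30 45 51) (.cons a359 (.cons (t2 8 20 45) (.cons (t1 7 45 51) (.cons (t1 10 45 51) (.cons (t3 22 45 51) (.cons s716 (.cons (t1 20 21 45) (.cons a360 (.cons a472 (.cons (t1 17 23 30) (.cons (t1 3 23 30) (.cons (t1 5 23 30) (.cons (t1 23 30 33) (.cons (t3 17 22 30) (.cons (t3 3 22 30) (.cons (t3 5 22 30) (.cons a391 (.cons a139 (.cons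 a58 (.cons a59 (.cons (t2 5 16 22) (.cons (t1 7 10 33) (.cons (t2 10 33 51) (.cons (t2 3 22 29) (.cons (t3 3 16 17) (.cons (t3 3 16 36) (.cons a447 (.cons a448 (.cons (t3 33 41 51) (.cons (t1 7 8 41) (.cons a426 (.cons s1073 (.cons (t2 11 17 49) (.cons (t3 7 11 49) (.cons (t3 10 11 49) (.cons (t1 3 11 49) (.cons (t3 11 21 49) (.cons (t2 11 12 49) (.cons a375 (.cons a389 (.cons a40 (.cons (t1 7 11 16) (.cons (t1 11 21 28) (.cons (t3 11 28 49) (.cons (t1 3 12 27) (.cons (t1 3 12 29) (.cons a461 (.cons a487 (.cons (t3 12 27 42) (.cons (t3 12 29 42) (.cons (t3 7 25 49) (.cons (t3 7 25 51) (.cons (t1 27 28 36) (.cons a126 (.cons a536 (.cons a527 (.cons (t1 24 27 29) (.cons (t2 25 27 28) (.cons (t1 25 41 50) (.cons a313 (.cons (t3 25 27 50) .nil)))))))))))))))))))))))))))))))))))))))))))))))))))))))))))))))))))))))))))))))))))))))))))))))))))))))))))))))))))))))))))))))) (by decide +kernel)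
theorem s1075 : Valid A [939, 4706, 913, 917, 419] := rup _
  (.cons s1038 (.cons s1071 (.cons a404 (.cons (t2 7 17 49) (.cons (t1 7 8 17) (.cons a188 (.cons a181 (.cons (t1 3 17 46) (.cons (t3 7 24 49) (.cons (t2 7 8 24) (.cons (t2 7 8 10) (.cons a402 (.cons s326 (.cons (t3 3 23 46) (.cons (t2 7 10 49) (.cons a190 (.cons s140 (.cons (t3 3 36 46) (.cons a54 (.cons (t1 3 23 33) (.cons a39 (.cons (t3 17 27 46) (.cons (t1 27 36 46) (.cons (t3 23 36 46) (.cons (t2 7 36 49) (.cons (t2 24 36 49) (.cons s1072 (.cons s138 (.cons (t3 7 18 49) (.cons a346 (.cons (t3 7 19 49) (.cons (t3 7 19 24) (.cons a469 (.cons (t2 10 30 49) (.cons (t2 7 30 49) (.cons (t2 24 30 49) (.cons s932 (.cons (t1 3 17 21) (.cons (t3 17 21 46) (.cons (t1 21 23 46) (.cons (t2 23 27 46) (.cons (t2 7 8 49) (.cons a432 (.cons (t2 24 49 50) (.cons a307 (.cons (t1 6 24 49) (.cons a208 (.cons a210 (.cons (t2 7 21 24) (.cons (t2 7 21 49) (.cons (t3 7 19 21) (.cons (t3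 5 7 49) (.cons a203 (.cons a135 (.cons a500 (.cons s32 (.cons (t3 24 29 49) (.cons (t2 8 12 49) (.cons (t2 23 36 51) (.cons (t2 3 36 51) (.cons s1074 (.cons a60 (.cons s284 (.cons a341 (.cons s444 (.cons (t2 3 17 45) (.cons (t2 3 23 45) (.cons (t1 3 45 51) (.cons (t2 3 36 45) (.cons (t3 17 19 45) (.cons (t2 19 45 51) (.cons (t2 3 19 23) (.cons a380 (.cons a335 (.cons (t2 3 11 45) (.cons (t2 5 11 45) (.cons (t1 11 19 45) (.cons (t1 11 23 45) (.cons (t1 19 23 39) (.cons a215 (.cons a325 (.cons (t3 11 24 49) (.cons (t3 7 11 49) (.cons (t3 10 11 49) (.cons (t3 11 21 49) (.cons (t2 11 12 49) (.cons a384 (.cons a389 (.cons a34 (.cons a35 (.cons a40 (.cons (t3 0 7 21) (.cons (t1 11 21 28) (.cons (t1 11 24 28) (.cons (t3 20 21 24) (.cons (t2 3 12 23) (.cons a505 (.cons a487 (.cons s304 (.cons s9 (.cons s96 (.cons (t3 23 28 36) (.cons (t1 27 28 36) (.cons (t3 24 30 51) (.cons (t1 11 24 51) (.cons (t2 23 36 52) (.cons (t1 23 28 29) (.cons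 a238 (.cons (t1 7 11 52) (.cons (t2 11 49 52) (.cons (t2 11 51 52) (.cons a228 (.cons a235 (.cons (t1 22 51 52) (.cons (t2 24 42 49) (.cons a472 (.cons a495 (.cons a367 (.cons (t2 22 23 30) (.cons (t3 28 29 42) (.cons (t3 27 28 42) (.cons (t1 23 30 33) (.cons a126 (.cons a391 (.cons (t1 24 27 29) (.cons (t2 27 29 49) (.cons (t1 7 10 33) (.cons a313 (.cons (t3 24 27 39) (.cons (t1 27 39 49) (.cons (t2 27 39 50) (.cons a300 (.cons s163 (.cons s908 .nil)))))))))))))))))))))))))))))))))))))))))))))))))))))))))))))))))))))))))))))))))))))))))))))))))))))))))))))))))))))))))))))))))))))) (by decide +kernel)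
theorem s1076 : Valid A [2779, 683, 3017, 968, 419] := rup _
  (.cons s1071 (.cons s1038 (.cons s300 (.cons (t1 5 21 45) .nil)))) (by decide +kernel)
theorem s1077 : Valid A [2650, 5865, 5993, 489, 918, 3811, 684, 941, 1325, 428, 3535, 3022, 6374, 998, 1114, 986, 475, 683, 14, 1066, 457, 934, 3938, 3037, 3042, 913, 995] := rup _
  (.cons a227 (.cons (t1 7 49 52) (.cons a29 (.cons (t3 20 45 52) (.cons (t2 7 8 20) (.cons (t3 7 19 20) (.cons (t2 7 20 22) (.cons a27 (.cons a14 (.cons (t3 16 20 22) (.cons (t3 19 46 52) (.cons a56 (.cons a175 (.cons (t2 3 16 45) (.cons (t2 3 16 36) (.cons (t2 3 16 52) (.cons (t2 23 38 46) (.cons a354 (.cons (t3 16 42 52) (.cons s293 (.cons (t3 16 42 45) (.cons a234 (.cons (t2 7 8 39) (.cons a356 (.cons (t3 29 42 49) (.cons (t3 8 27 39) (.cons (t2 8 27 42) (.cons a129 .nil)))))))))))))))))))))))))))) (by decide +kernel)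
theorem s1078 : Valid A [1506, 3811, 2476, 684, 941, 1325, 2906, 428, 3535, 1468, 3022, 6374, 998, 3931, 1114, 986, 475, 1336, 683, 14, 1066, 457, 934, 431, 3938, 3037, 3042, 913, 1379, 995] := rup _
  (.cons (t2 3 23 45) (.cons (t2 3 36 45) (.cons a380 (.cons (t1 11 23 45) (.cons (t2 7 8 49) (.cons (t2 7 11 49) (.cons (t2 10 11 49) (.cons (t2 8 11 49) (.cons a387 (.cons s67 (.cons a238 (.cons (t1 3 23 52) (.cons (t2 23 46 52) (.cons (t2 23 45 52) (.cons s1077 (.cons (t1 8 20 45) (.cons (t3 20 30 45) (.cons (t2 20 22 45) (.cons (t1 20 45 52) (.cons s328 (.cons a16 (.cons (t2 16 19 20) (.cons (t2 16 20 22) (.cons a337 .nil)))))))))))))))))))))))) (by decide +kernel)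
theorem s1079 : Valid A [4706, 913, 917, 419] := rup _
  (.cons s1038 (.cons s1071 (.cons a404 (.cons (t2 7 17 49) (.cons (t1 7 8 17) (.cons a188 (.cons a181 (.cons s1072 (.cons (t2 7 10 49) (.cons a190 (.cons s138 (.cons (t3 10 18 49) (.cons a352 (.cons (t3 7 18 49) (.cons a346 (.cons a469 (.cons (t2 7 30 49) (.cons (t1 3 17 46) (.cons (t3 7 24 49) (.cons (t2 7 8 24) (.cons (t2 7 8 10) (.cons a402 (.cons s326 (.cons (t3 3 23 46) (.cons s932 (.cons (t1 3 17 21) (.cons (t3 17 21 46) (.cons (t1 21 23 46) (.cons a39 (.cons (t3 17 27 46) (.cons (t2 23 27 46) (.cons a401 (.cons (t3 10 23 49) (.cons (t2 7 10 23) (.cons a65 (.cons (t3 3 7 8) (.cons (t2 7 8 49) (.cons (t2 7 10 24) (.cons (t3 3 7 10) (.cons (t2 3 17 49) (.cons (t2 7 36 49) (.cons s140 (.cons (t2 10 36 49) (.cons (t3 3 36 46) (.cons (t3 23 36 46) (.cons s1075 (.cons (t3 7 21 49) (.cons (t1 7 8 21) (.cons (t1 7 10 21) (.cons s294 (.cons s201 (.cons s986 (.cons (t2 5 10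 21) (.cons (t1 10 24 28) (.cons s1076 (.cons a60 (.cons (t2 5 21 45) (.cons s263 (.cons (t2 3 17 45) (.cons (t3 3 7 45) (.cons (t3 3 10 45) (.cons (t1 3 45 49) (.cons (t3 3 8 45) (.cons (t2 3 23 45) (.cons (t2 3 36 45) (.cons s177 (.cons a50 (.cons (t2 3 30 36) (.cons (t2 3 23 30) (.cons (t2 3 30 45) (.cons a380 (.cons a382 (.cons (t1 3 45 51) (.cons (t3 7 45 51) (.cons (t1 17 45 51) (.cons (t3 45 49 51) (.cons (t1 30 45 51) (.cons (t1 3 23 39) (.cons (t1 11 30 36) (.cons (t2 3 11 45) (.cons (t1 11 23 45) (.cons a473 (.cons a325 (.cons (t2 3 22 51) (.cons (t1 22 45 51) (.cons (t2 17 22 51) (.cons a395 (.cons (t1 7 10 22) (.cons (t3 10 21 22) (.cons (t3 5 10 22) (.cons (t3 10 19 22) (.cons s203 (.cons s377 (.cons s1078 (.cons a218 (.cons s248 (.cons s246 (.cons (t3 8 12 49) (.cons s87 (.cons a361 (.cons (t3 23 28 45) (.cons (t1 8 24 42) (.cons a356 (.cons a367 (.cons (t1 28 42 45) .nil)))))))))))))))))))))))))))))))))))))))))))))))))))))))))))))))))))))))))))))))))))))))))))))))))))))))))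 (by decide +kernel)
theorem s1080 : Valid A [913, 917, 419] := rup _
  (.cons s1038 (.cons (t2 7 10 49) (.cons a190 (.cons s1071 (.cons a405 (.cons (t2 3 17 24) (.cons a404 (.cons (t2 7 17 49) (.cons (t2 3 17 49) (.cons a188 (.cons (t1 7 8 17) (.cons a181 (.cons s138 (.cons a469 (.cons (t2 10 30 49) (.cons s1079 (.cons a480 (.cons (t1 3 36 49) (.cons (t3 7 36 49) (.cons (t2 24 48 49) (.cons s898 (.cons a44 (.cons s18 .nil))))))))))))))))))))))) (by decide +kernel)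
theorem s1081 : Valid A [1070, 4706, 2761, 917, 419] := rup _
  (.cons s1038 (.cons (t2 21 36 49) (.cons s1071 (.cons s1080 (.cons (t2 7 10 49) (.cons a190 (.cons s298 (.cons (t3 8 21 36) (.cons a143 (.cons s377 (.cons s13 (.cons (t1 0 7 49) (.cons a204 (.cons (t2 7 36 49) (.cons (t1 7 21 36) (.cons a207 (.cons (t1 5 7 49) (.cons a216 (.cons (t2 7 11 49) (.cons a383 (.cons (t3 10 29 49) (.cons (t2 24 36 49) (.cons (t2 21 24 36) (.cons a134 (.cons a151 (.cons (t2 10 29 32) (.cons (t1 0 10 49) (.cons (t2 10 11 49) (.cons a430 (.cons s932 (.cons (t3 3 21 36) (.cons (t3 7 24 49) (.cons a65 (.cons s494 (.cons s431 (.cons a427 (.cons (t1 8 36 41) (.cons (t2 8 21 50) (.cons (t2 7 46 49) (.cons a185 (.cons s60 (.cons (t3 8 18 50) (.cons a490 (.cons a182 (.cons (t2 3 8 17) (.cons (t3 7 8 10) (.cons a192 (.cons (t2 7 10 24) (.cons (t1 10 24 46) (.cons (t3 3 7 10) (.cons s38 (.cons a405 (.cons (t2 3 17 24) (.cons a404 (.cons (t2 3 17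 49) (.cons a432 (.cons (t2 24 49 50) (.cons a307 (.cons (t1 6 24 49) (.cons a399 (.cons (t3 8 23 46) (.cons (t3 8 23 36) (.cons (t1 8 21 23) (.cons (t2 10 23 49) (.cons (t3 10 11 23) (.cons (t3 0 10 23) (.cons s977 (.cons a505 (.cons s237 (.cons (t1 18 24 49) (.cons (t3 10 18 24) (.cons (t1 0 21 36) (.cons (t2 0 21 28) (.cons (t2 0 11 21) (.cons (t2 21 30 36) (.cons a469 (.cons a471 (.cons (t2 10 18 30) (.cons (t2 0 11 36) (.cons (t1 0 11 28) (.cons (t2 11 21 30) (.cons (t1 11 21 50) (.cons (t2 23 30 49) (.cons a162 (.cons s793 (.cons a381 (.cons a382 (.cons a387 (.cons (t3 11 30 34) (.cons (t3 11 34 50) (.cons s231 (.cons (t1 11 21 45) (.cons s64 (.cons (t2 10 28 49) (.cons (t2 10 18 28) (.cons (t2 10 24 28) (.cons (t1 10 28 32) (.cons (t2 6 34 50) (.cons s116 (.cons a60 (.cons (t1 10 49 52) (.cons (t2 7 10 52) (.cons a368 (.cons s163 (.cons (t3 36 45 52) (.cons (t3 36 41 52) (.cons (t3 3 7 45) (.cons (t3 3 10 45) (.cons (t1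 3 45 49) (.cons s131 (.cons (t3 28 42 49) (.cons a433 (.cons a395 (.cons s354 (.cons (t2 22 42 49) (.cons a234 (.cons (t2 18 39 49) (.cons (t2 18 28 39) (.cons (t1 10 22 32) (.cons a363 (.cons (t1 41 42 52) (.cons a444 (.cons (t2 28 39 41) (.cons (t2 32 41 42) (.cons a529 .nil))))))))))))))))))))))))))))))))))))))))))))))))))))))))))))))))))))))))))))))))))))))))))))))))))))))))))))))))))))))))))))) (by decide +kernel)
theorem s1082 : Valid A [1340, 941, 486, 2022, 2406, 1071, 998, 962, 917, 419] := rup _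
  (.cons (t1 7 10 33) (.cons s1038 (.cons a430 (.cons s1080 (.cons s431 (.cons (t2 7 10 49) (.cons a190 (.cons (t2 7 46 49) (.cons a185 (.cons s60 (.cons s1071 (.cons (t3 7 24 49) (.cons (t3 7 8 24) (.cons a404 (.cons (t2 3 17 49) (.cons (t3 10 30 49) (.cons (t2 7 10 30) (.cons a391 (.cons s169 (.cons (t1 18 30 51) (.cons (t1 3 30 51) (.cons (t2 30 33 51) (.cons a468 (.cons (t1 15 33 51) (.cons (t1 3 18 49) (.cons a109 (.cons s139 (.cons (t2 7 15 49) (.cons (t2 7 15 24) (.cons s579 (.cons a115 (.cons (t1 15 24 27) .nil)))))))))))))))))))))))))))))))) (by decide +kernel)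
theorem s1083 : Valid A [2779, 837, 2735, 3017, 1071, 1962, 998, 2346, 1322, 962, 968, 917, 419] := rup _
  (.cons s1038 (.cons (t2 7 10 49) (.cons a190 (.cons (t2 7 46 49) (.cons s1080 (.cons a185 (.cons a182 (.cons (t2 3 8 17) (.cons (t3 3 8 23) (.cons s60 (.cons a430 (.cons s431 (.cons (t3 8 18 50) (.cons s1071 (.cons a404 (.cons (t2 3 17 49) (.cons a307 (.cons (t1 6 24 49) (.cons a432 (.cons a38 (.cons a61 (.cons a342 (.cons s300 (.cons (t3 10 21 45) (.cons (t3 18 21 45) (.cons (t2 21 23 45) (.cons (t3 15 21 45) (.cons (t1 19 23 45) (.cons s177 (.cons (t3 18 45 51) (.cons (t3 15 45 51) (.cons (t3 3 45 51) (.cons (t1 23 45 51) (.cons a496 (.cons (t3 22 23 45) (.cons a395 (.cons (t1 7 10 22) (.cons s1082 (.cons (t2 10 30 49) (.cons a469 (.cons s482 (.cons (t2 24 39 49) (.cons s969 (.cons a300 (.cons (t2 3 17 39) (.cons (t3 3 23 39) (.cons (t3 3 27 39) (.cons (t2 6 34 39) (.cons a334 (.cons a325 (.cons (t1 19 34 39) (.cons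 (t1 27 34 39) (.cons (t3 19 23 27) (.cons a154 .nil)))))))))))))))))))))))))))))))))))))))))))))))))))))) (by decide +kernel)
theorem s1084 : Valid A [4706, 2761, 917, 419] := rup _
  (.cons s932 (.cons (t3 3 21 36) (.cons a204 (.cons s1038 (.cons (t2 7 10 49) (.cons a190 (.cons (t2 7 46 49) (.cons s1080 (.cons a185 (.cons s1071 (.cons (t3 7 24 49) (.cons (t3 7 8 24) (.cons (t3 7 8 49) (.cons a65 (.cons (t3 3 7 10) (.cons a430 (.cons a307 (.cons (t2 24 36 49) (.cons (t2 7 36 49) (.cons s140 (.cons s298 (.cons (t2 10 36 49) (.cons (t2 21 36 49) (.cons (t1 7 21 36) (.cons s494 (.cons s78 (.cons (t3 8 21 36) (.cons (t1 10 21 36) (.cons a207 (.cons (t3 7 33 49) (.cons s431 (.cons (t1 7 10 33) (.cons (t1 18 21 36) (.cons a143 (.cons s22 (.cons (t1 3 5 7) (.cons (t1 5 7 10) (.cons (t1 5 7 49) (.cons a310 (.cons a106 (.cons s377 (.cons a216 (.cons (t3 8 15 21) (.cons s13 (.cons (t3 10 29 49) (.cons (t3 5 29 49) (.cons (t2 7 11 49)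 (.cons (t1 0 7 49) (.cons a147 (.cons a383 (.cons (t1 4 5 29) (.cons s1081 (.cons (t1 8 23 24) (.cons (t2 8 23 36) (.cons (t2 8 21 23) (.cons s302 (.cons a506 (.cons (t1 33 48 49) (.cons (t3 0 23 36) (.cons s176 (.cons (t1 0 11 36) (.cons (t1 6 33 34) (.cons s1083 (.cons a60 (.cons (t1 21 36 45) (.cons s543 (.cons (t2 3 17 45) (.cons (t3 3 7 45) (.cons (t3 3 10 45) (.cons (t3 3 5 45) (.cons a379 (.cons (t2 3 11 17) (.cons s118 (.cons s177 (.cons (t1 11 45 51) (.cons a377 (.cons (t1 0 11 17) (.cons (t2 5 10 19) (.cons s583 (.cons (t3 11 16 45) (.cons a511 (.cons a211 (.cons (t3 17 22 45) (.cons (t1 22 45 51) (.cons (t1 16 22 45) (.cons (t2 3 4 17) (.cons (t3 4 17 19) (.cons (t3 4 17 45) (.cons a473 (.cons (t3 3 4 19) (.cons (t3 17 19 22) (.cons (t2 11 30 51) (.cons s444 (.cons a337 (.cons a371 (.cons (t1 15 19 21) (.cons (t1 10 16 19) (.cons (t2 16 19 30) (.cons (t3 15 19 30) (.cons (t2 4 15 19) (.cons (t3 10 16 30) (.cons a99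 (.cons a391 (.cons (t1 7 15 45) (.cons (t3 15 30 33) (.cons a109 .nil)))))))))))))))))))))))))))))))))))))))))))))))))))))))))))))))))))))))))))))))))))))))))))))))))))))))))) (by decide +kernel)
theorem s1085 : Valid A [4707, 917, 419] := rup _
  (.cons s1038 (.cons (t2 7 10 49) (.cons a190 (.cons (t2 7 46 49) (.cons s1080 (.cons a185 (.cons a183 (.cons (t2 3 17 46) (.cons (t3 7 8 49) (.cons a192 (.cons s1071 (.cons (t3 7 24 49) (.cons (t2 7 10 24) (.cons (t1 10 24 46) (.cons a65 (.cons a405 (.cons (t2 3 17 24) (.cons a480 (.cons a481 (.cons (t3 24 36 49) (.cons (t3 10 36 49) (.cons (t3 7 36 49) (.cons (t1 8 36 49) (.cons (t2 24 48 49) (.cons a44 (.cons s18 (.cons (t3 3 46 48) (.cons s906 (.cons (t2 10 30 49) (.cons (t2 10 30 36) (.cons a469 (.cons a470 (.cons (t3 18 30 36) (.cons (t2 7 18 49) (.cons s142 (.cons s911 (.cons (t1 8 23 36) (.cons (t2 23 36 48) (.cons s154 .nil))))))))))))))))))))))))))))))))))))))) (by decide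 +kernel)
theorem s1086 : Valid A [3912, 1070, 917, 419] := rup _
  (.cons s1038 (.cons a307 (.cons s1085 (.cons (t2 7 36 49) (.cons s1071 (.cons (t3 7 24 49) (.cons a65 (.cons (t2 7 10 49) (.cons a190 (.cons (t2 7 46 49) (.cons s1080 (.cons a185 (.cons a183 (.cons (t2 3 17 46) (.cons s140 (.cons (t1 3 36 46) (.cons s494 (.cons (t3 7 33 49) (.cons a310 (.cons a405 (.cons (t2 3 17 24) (.cons a182 (.cons (t2 3 8 17) (.cons (t3 7 8 10) (.cons a399 (.cons (t2 10 23 49) (.cons s904 (.cons (t1 33 48 49) (.cons s176 (.cons (t1 6 33 34) (.cons s38 (.cons a192 (.cons (t2 7 10 24) (.cons (t1 10 24 46) (.cons (t3 8 23 46) (.cons s977 (.cons (t1 18 24 49) (.cons a469 (.cons (t2 10 30 49) (.cons a162 (.cons (t3 6 30 34) (.cons (t1 7 10 33) (.cons a391 (.cons (t3 7 18 24) (.cons s78 (.cons s298 (.cons (t3 8 23 36) (.cons a483 (.cons (t1 7 10 23) (.cons a430 (.cons s431 (.cons (t2 8 36 50) (.cons s60 (.cons (t3 8 18 50) (.cons a432 (.cons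 (t2 24 49 50) (.cons (t1 6 24 49) (.cons a38 (.cons (t3 30 36 50) (.cons (t1 30 33 36) (.cons (t2 6 30 50) (.cons a52 (.cons s163 (.cons (t3 3 27 33) (.cons a433 (.cons (t2 6 27 33) (.cons (t2 18 39 49) (.cons (t2 18 23 39) (.cons (t1 7 18 39) (.cons a443 (.cons a326 (.cons a440 (.cons (t2 7 41 49) (.cons (t2 18 41 49) (.cons (t2 7 23 27) (.cons (t3 7 14 18) (.cons s186 (.cons a317 (.cons a523 (.cons (t3 6 27 41) (.cons (t2 14 27 41) .nil))))))))))))))))))))))))))))))))))))))))))))))))))))))))))))))))))))))))))))))))) (by decide +kernel)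
theorem s1087 : Valid A [939, 1070, 917, 419] := rup _
  (.cons s1038 (.cons a430 (.cons s1080 (.cons s1085 (.cons (t2 7 36 49) (.cons s1071 (.cons (t3 7 24 49) (.cons a65 (.cons (t2 7 10 49) (.cons a190 (.cons (t2 7 46 49) (.cons a185 (.cons a183 (.cons (t2 3 17 46) (.cons s140 (.cons (t1 3 36 46) (.cons s494 (.cons s431 (.cons a432 (.cons a405 (.cons (t2 3 17 24) (.cons a182 (.cons (t2 3 8 17) (.cons a192 (.cons (t2 7 10 24) (.cons (t1 10 24 46) (.cons (t3 8 23 46) (.cons s977 (.cons (t1 18 24 49) (.cons (t3 7 18 24) (.cons a348 (.cons (t2 8 46 50) (.cons (t2 24 49 50) (.cons s298 (.cons a106 (.cons (t3 8 15 36) (.cons (t1 7 10 33) (.cons a469 (.cons (t2 10 30 49) (.cons a391 (.cons s1086 (.cons (t2 30 33 36) (.cons (t1 15 33 36) (.cons a109 (.cons (t2 7 15 49) (.cons a114 (.cons (t2 24 27 49) (.cons a313 (.cons (t3 27 46 50) (.cons (t2 8 36 50) (.cons s38 (.cons a162 (.cons (t2 30 34 36) (.cons (t1 34 36 50) (.cons (t3 27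 34 50) (.cons a155 (.cons (t3 19 27 46) (.cons s443 (.cons (t3 18 38 49) (.cons a329 (.cons (t3 8 38 50) (.cons (t3 36 38 50) (.cons (t1 17 36 46) (.cons (t1 17 30 36) (.cons (t2 7 30 49) (.cons (t3 7 8 10) (.cons a399 (.cons (t2 10 23 24) (.cons (t1 7 10 23) (.cons s1084 (.cons a404 (.cons (t2 7 17 49) (.cons a210 (.cons (t2 7 21 24) (.cons (t2 7 21 49) (.cons (t2 7 21 23) (.cons a203 (.cons s253 (.cons a501 (.cons (t3 12 21 23) (.cons (t1 5 36 38) (.cons (t1 7 11 17) (.cons (t3 3 7 11) (.cons (t2 7 11 23) (.cons (t1 7 11 36) (.cons (t1 7 11 30) (.cons (t2 11 12 23) (.cons a199 (.cons s401 (.cons a40 (.cons (t2 8 38 42) (.cons (t2 36 38 42) (.cons (t1 11 16 36) (.cons (t3 11 12 16) (.cons (t3 3 8 12) (.cons a360 (.cons a353 (.cons (t3 12 16 42) .nil)))))))))))))))))))))))))))))))))))))))))))))))))))))))))))))))))))))))))))))))))))))))))))))))))) (by decide +kernel)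
theorem s1088 : Valid A [1070, 917, 419] := rup _
  (.cons s1080 (.cons s1038 (.cons (t2 7 10 49) (.cons a190 (.cons s1071 (.cons s1085 (.cons s298 (.cons a430 (.cons (t2 7 36 49) (.cons (t3 7 24 49) (.cons a65 (.cons (t2 7 46 49) (.cons a185 (.cons a183 (.cons (t2 3 17 46) (.cons s140 (.cons (t1 3 36 46) (.cons s494 (.cons s431 (.cons a106 (.cons (t3 8 15 36) (.cons s1084 (.cons (t2 8 21 36) (.cons (t3 8 21 50) (.cons (t2 8 36 50) (.cons (t2 8 46 50) (.cons (t1 7 10 33) (.cons (t2 10 36 49) (.cons a182 (.cons (t2 3 8 17) (.cons (t3 7 8 10) (.cons (t3 7 8 24) (.cons a192 (.cons (t2 7 10 24) (.cons (t1 10 24 46) (.cons s38 (.cons a405 (.cons (t2 3 17 24) (.cons a432 (.cons (t2 24 49 50) (.cons a399 (.cons (t3 8 23 46) (.cons (t1 7 10 23) (.cons (t2 10 23 49) (.cons s977 (.cons (t1 18 24 49) (.cons (t3 7 18 24) (.cons a469 (.cons a348 (.cons (t2 10 30 49) (.cons (t2 23 30 49) (.cons a162 (.cons a391 (.cons s1086 (.cons (t2 30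 34 36) (.cons (t1 21 30 36) (.cons (t2 30 33 36) (.cons (t1 30 36 50) (.cons (t1 34 36 50) (.cons (t1 15 33 36) (.cons a109 (.cons (t2 7 15 49) (.cons a114 (.cons (t2 24 27 49) (.cons a313 (.cons (t3 27 46 50) (.cons (t3 27 34 50) (.cons a155 (.cons (t3 19 27 46) (.cons s443 (.cons (t3 18 38 49) (.cons a329 (.cons (t1 21 38 50) (.cons (t3 30 38 50) (.cons s1087 (.cons (t3 7 21 49) (.cons (t3 7 21 24) (.cons (t1 7 10 21) (.cons s201 (.cons (t3 7 21 23) (.cons s680 (.cons s202 (.cons (t2 5 21 38) (.cons (t3 10 21 29) (.cons (t3 21 23 29) (.cons (t1 21 29 38) (.cons s472 (.cons (t1 11 30 38) (.cons a130 (.cons (t1 10 11 29) (.cons (t3 11 21 29) (.cons (t2 11 23 29) (.cons s216 (.cons s231 (.cons s84 (.cons a222 .nil)))))))))))))))))))))))))))))))))))))))))))))))))))))))))))))))))))))))))))))))))))))))))))))))) (by decide +kernel)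
theorem s1089 : Valid A [1340, 4431, 421, 2402, 1379, 1348] := rup _
  (.cons (t3 10 30 49) (.cons a162 (.cons a468 (.cons (t1 30 34 39) (.cons (t1 3 18 30) (.cons a51 .nil)))))) (by decide +kernel)
theorem s1090 : Valid A [2402, 917, 419] := rup _
  (.cons s1038 (.cons a307 (.cons s1085 (.cons (t2 7 36 49) (.cons s1071 (.cons (t3 7 24 49) (.cons a65 (.cons (t2 7 10 49) (.cons a190 (.cons (t2 7 46 49) (.cons s1080 (.cons a185 (.cons a183 (.cons (t2 3 17 46) (.cons s140 (.cons (t1 3 36 46) (.cons s494 (.cons (t3 7 33 49) (.cons a310 (.cons (t3 7 8 24) (.cons (t2 24 36 49) (.cons (t3 7 8 49) (.cons s1088 (.cons (t1 8 23 24) (.cons s302 (.cons (t1 33 48 49) (.cons s176 (.cons (t1 6 33 34) (.cons a182 (.cons (t2 3 8 17) (.cons (t3 3 8 23) (.cons a400 (.cons s60 (.cons a430 (.cons s431 (.cons (t3 8 18 50) (.cons s38 (.cons a404 (.cons (t2 3 17 49) (.cons (t1 6 24 49) (.cons a432 (.cons a38 (.cons a513 (.cons (t2 10 18 49) (.cons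 s482 (.cons (t1 3 17 18) (.cons (t2 24 39 49) (.cons a300 (.cons (t2 6 34 39) (.cons s1089 (.cons (t2 10 30 49) (.cons s969 (.cons (t2 3 17 39) (.cons (t3 3 27 39) (.cons (t2 3 18 39) (.cons (t3 3 23 39) (.cons a334 (.cons a325 (.cons (t1 27 34 39) (.cons (t2 18 19 39) (.cons (t3 10 23 27) (.cons s196 (.cons a349 .nil))))))))))))))))))))))))))))))))))))))))))))))))))))))))))))))) (by decide +kernel)
theorem s1091 : Valid A [939, 917, 419] := rup _
  (.cons s1038 (.cons s1090 (.cons (t3 7 18 49) (.cons a348 (.cons (t2 7 10 49) (.cons (t3 10 18 49) (.cons s1071 (.cons (t3 18 24 49) (.cons s1085 (.cons s1084 (.cons s1080 (.cons a190 (.cons s298 (.cons (t2 8 21 36) (.cons s1088 (.cons (t3 8 21 23) (.cons (t2 8 23 36) (.cons a430 (.cons (t2 7 36 49) (.cons (t3 7 24 49) (.cons a65 (.cons (t2 7 46 49) (.cons a185 (.cons a183 (.cons (t2 3 17 46) (.cons s140 (.cons (t1 3 36 46) (.cons s494 (.cons s431 (.cons (t2 8 36 50) (.cons a108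 (.cons (t1 7 24 33) (.cons (t3 7 8 10) (.cons (t3 7 8 24) (.cons (t2 7 10 24) (.cons (t1 7 10 50) (.cons a432 (.cons a210 (.cons (t2 7 21 24) (.cons a203 (.cons a137 (.cons (t3 5 8 36) (.cons (t3 5 23 36) (.cons (t1 5 36 50) (.cons a142 (.cons (t1 5 8 29) (.cons (t2 5 23 29) (.cons (t2 5 29 50) (.cons (t2 8 29 36) (.cons s9 (.cons a505 (.cons s245 (.cons (t3 11 29 36) (.cons a132 (.cons (t3 29 38 50) (.cons a329 (.cons (t3 18 38 49) (.cons a266 (.cons s443 (.cons (t3 9 18 24) (.cons (t1 9 10 18) (.cons (t3 8 19 46) (.cons (t1 3 19 46) (.cons (t3 19 36 46) (.cons a250 (.cons a246 (.cons s499 (.cons (t2 9 33 50) (.cons (t2 7 15 24) (.cons (t1 15 33 50) (.cons a109 .nil))))))))))))))))))))))))))))))))))))))))))))))))))))))))))))))))))))))) (by decide +kernel)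
theorem s1092 : Valid A [917, 419] := rup _
  (.cons s1038 (.cons s1071 (.cons (t3 7 24 49) (.cons a65 (.cons s932 (.cons (t2 7 10 49) (.cons a190 (.cons (t2 7 46 49) (.cons s1080 (.cons (t3 7 8 24) (.cons a185 (.cons a183 (.cons (t2 3 17 46) (.cons s1085 (.cons (t2 7 36 49) (.cons s140 (.cons s298 (.cons s1084 (.cons (t1 3 36 46) (.cons (t2 8 21 36) (.cons s1088 (.cons (t3 7 8 23) (.cons (t2 8 23 36) (.cons (t3 8 21 23) (.cons s1091 (.cons (t3 7 21 49) (.cons (t3 7 21 24) (.cons s201 (.cons s294 (.cons s680 (.cons s202 (.cons s1076 (.cons s7 (.cons a60 (.cons (t1 0 5 21) (.cons (t3 3 7 45) (.cons (t3 3 36 45) (.cons s226 (.cons s297 .nil))))))))))))))))))))))))))))))))))))))) (by decide +kernel)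
theorem s1093 : Valid A [913, 2268, 930] := rup _
  (.cons a188 (.cons (t1 7 8 17) (.cons a181 .nil))) (by decide +kernel)
theorem s1094 : Valid A [2402, 1070, 968, 2248, 419] := rup _
  (.cons s1038 (.cons s1071 (.cons a404 (.cons (t2 7 17 49) (.cons a39 (.cons (t2 7 18 49) (.cons a513 (.cons s71 (.cons (t1 17 18 36) (.cons s1093 (.cons s919 (.cons (t1 7 23 36) (.cons (t3 7 18 23) (.cons a483 .nil)))))))))))))) (by decide +kernel)
theorem s1095 : Valid A [1070, 4706, 2761, 419] := rup _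
  (.cons s1038 (.cons s932 (.cons (t3 3 21 36) (.cons s1071 (.cons (t3 7 24 49) (.cons a65 (.cons (t2 7 36 49) (.cons s494 (.cons (t3 7 33 49) (.cons (t1 7 24 33) (.cons (t1 3 17 21) (.cons (t3 17 21 36) (.cons s1092 (.cons (t3 7 10 24) (.cons (t3 7 10 49) (.cons a405 (.cons (t2 3 17 24) (.cons a404 (.cons (t2 7 17 49) (.cons a171 (.cons a432 (.cons a430 (.cons s1094 (.cons s80 (.cons (t3 18 24 49) (.cons (t3 7 18 49) (.cons (t1 10 18 49) (.cons (t2 18 36 49) (.cons (t2 7 46 49) (.cons a189 (.cons s140 (.cons a348 (.cons (t3 17 36 46) (.cons a349 (.cons s1093 (.cons (t2 10 19 46) (.cons s431 (.cons s298 (.cons a185 (.cons s936 (.cons a175 (.cons (t1 3 8 36) (.cons (t3 8 23 36) (.cons (t2 8 46 50) (.cons (t2 8 10 50) (.cons (t3 38 46 50) (.cons a483 (.cons a247 (.cons a329 (.cons (t2 18 23 49) (.cons (t3 24 38 49) (.cons (t3 18 38 49) (.cons s904 (.cons s988 (.cons a266 (.cons (t1 33 48 49) (.cons (t3 9 10 34) (.cons (t3 9 18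 24) (.cons s176 (.cons (t1 9 33 34) (.cons a250 .nil))))))))))))))))))))))))))))))))))))))))))))))))))))))))))))) (by decide +kernel)
theorem s1096 : Valid A [2402, 1120, 1044, 962, 419] := rup _
  (.cons s1038 (.cons s1071 (.cons (t3 7 24 49) (.cons (t1 7 24 33) (.cons s1092 (.cons (t3 7 10 49) (.cons a405 (.cons (t2 3 17 24) (.cons a404 (.cons (t2 7 17 49) (.cons a432 (.cons (t2 24 49 50) (.cons a171 (.cons a430 (.cons a39 (.cons (t2 7 18 49) (.cons a513 (.cons s71 (.cons (t1 17 18 27) (.cons s1093 (.cons (t3 7 8 49) (.cons s431 (.cons s936 (.cons s912 (.cons a106 (.cons a181 (.cons s562 (.cons (t3 3 8 17) (.cons (t2 8 17 27) (.cons (t3 8 15 17) (.cons (t1 17 18 19) (.cons (t1 18 19 27) (.cons (t2 3 8 48) (.cons (t3 8 27 50) (.cons (t3 15 17 19) (.cons a44 (.cons a313 (.cons (t3 24 33 48) (.cons (t2 24 27 49) (.cons (t1 24 27 34) (.cons s176 (.cons a114 (.cons a154 (.cons (t2 7 15 49) (.cons (t3 19 33 34) (.cons a109 (.cons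 (t3 15 19 33) .nil))))))))))))))))))))))))))))))))))))))))))))))) (by decide +kernel)
theorem s1097 : Valid A [4706, 2761, 419] := rup _
  (.cons s932 (.cons (t3 3 21 36) (.cons (t1 3 17 21) (.cons (t3 17 21 36) (.cons s1038 (.cons s1092 (.cons (t3 7 10 49) (.cons s1071 (.cons (t3 7 24 49) (.cons a65 (.cons a404 (.cons (t2 7 17 49) (.cons (t2 7 36 49) (.cons s494 (.cons s1095 (.cons a402 (.cons a522 (.cons s1096 (.cons s80 (.cons a189 (.cons s140 (.cons s936 (.cons (t3 17 36 46) (.cons s1093 .nil)))))))))))))))))))))))) (by decide +kernel)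
theorem s1098 : Valid A [2402, 4707, 419] := rup _
  (.cons s1071 (.cons a405 (.cons (t2 3 17 24) (.cons a480 (.cons (t2 24 48 49) (.cons a44 (.cons (t2 3 17 48) (.cons s1038 (.cons (t3 7 24 49) (.cons (t3 24 36 49) (.cons a178 (.cons (t2 7 24 46) (.cons (t3 24 46 49) (.cons (t2 7 48 49) (.cons (t3 7 36 49) (.cons a404 (.cons (t2 7 17 49) (.cons (t2 7 18 49) (.cons s138 (.cons s911 (.cons s1093 (.cons (t3 17 46 48) (.cons (t1 7 23 48) (.cons (t3 7 8 23) (.cons s154 .nil))))))))))))))))))))))))) (by decide +kernel)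
theorem s1099 : Valid A [4707, 419] := rup _
  (.cons s1038 (.cons s1071 (.cons (t3 7 24 49) (.cons s1092 (.cons (t3 7 10 24) (.cons (t3 7 10 49) (.cons a405 (.cons (t2 3 17 24) (.cons a404 (.cons (t2 3 17 49) (.cons a432 (.cons (t2 24 49 50) (.cons a307 (.cons a480 (.cons (t3 24 36 49) (.cons s923 (.cons (t2 24 48 49) (.cons a178 (.cons (t3 3 24 33) (.cons (t1 3 33 49) (.cons a44 (.cons (t3 24 46 49) (.cons a310 (.cons (t2 3 33 48) (.cons a189 (.cons (t1 6 33 48) (.cons s63 (.cons a262 (.cons (t1 9 33 48) (.cons a250 (.cons (t1 9 24 49) (.cons (t2 9 10 24) (.cons (t2 9 24 50) (.cons a246 (.cons (t2 10 46 50) (.cons s1098 (.cons (t3 7 18 49) (.cons (t3 9 18 49) (.cons a348 (.cons a266 (.cons a349 (.cons (t3 18 38 49) (.cons (t2 10 19 46) (.cons a329 (.cons a175 (.cons (t3 38 46 50) .nil)))))))))))))))))))))))))))))))))))))))))))))) (by decide +kernel)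
theorem s1100 : Valid A [1070, 2402, 419] := rup _
  (.cons s1038 (.cons s1071 (.cons a404 (.cons (t2 7 17 49) (.cons a513 (.cons s71 (.cons s1093 (.cons s1099 (.cons (t2 7 36 49) (.cons (t2 24 36 49) (.cons (t3 7 24 49) (.cons a39 (.cons s1094 (.cons s919 (.cons (t1 17 36 46) (.cons (t2 7 23 24) (.cons a177 (.cons a196 .nil)))))))))))))))))) (by decide +kernel)
theorem s1101 : Valid A [2402, 419] := rup _
  (.cons s1038 (.cons s1099 (.cons (t2 7 36 49) (.cons s1092 (.cons (t3 7 10 49) (.cons s1071 (.cons (t3 7 24 49) (.cons a65 (.cons a404 (.cons (t2 7 17 49) (.cons a513 (.cons s71 (.cons (t1 3 17 18) (.cons s1093 (.cons (t3 7 8 49) (.cons s1100 (.cons a402 (.cons a522 (.cons s912 (.cons s1096 (.cons a181 (.cons s494 (.cons (t1 8 17 18) (.cons (t2 3 18 36) (.cons (t2 8 18 23) (.cons a486 .nil)))))))))))))))))))))))))) (by decide +kernel)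
theorem s1102 : Valid A [416, 1621, 1490, 1064, 2602, 1108, 5218, 5350, 999, 395, 738, 2787, 4698, 3539, 457, 419] := rup _
  (.cons s1071 (.cons a404 (.cons s1038 (.cons s932 (.cons (t3 3 16 17) (.cons (t1 3 5 16) (.cons (t3 3 16 36) (.cons s1073 (.cons (t2 11 17 49) (.cons (t3 7 11 49) (.cons (t2 11 40 49) (.cons a375 (.cons a3 (.cons (t1 7 11 16) (.cons (t3 27 40 41) (.cons a461 (.cons a1 (.cons (t3 7 25 51) (.cons (t3 25 27 41) (.cons a527 .nil)))))))))))))))))))) (by decide +kernel)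
theorem s1103 : Valid A [963, 913, 1070, 419] := rup _
  (.cons a188 (.cons s1038 (.cons s1071 (.cons (t3 7 24 49) (.cons (t2 7 8 24) (.cons s326 (.cons a39 (.cons a404 (.cons (t2 7 17 49) (.cons s1093 (.cons (t3 17 27 46) (.cons (t2 23 27 46) (.cons s1092 (.cons (t3 7 10 49) (.cons s1101 (.cons s80 (.cons a189 (.cons (t1 10 18 49) (.cons (t3 7 18 49) (.cons a348 (.cons a349 (.cons (t2 10 19 46) (.cons (t3 19 23 46) (.cons (t3 17 19 46) (.cons a335 (.cons (t1 19 23 39) (.cons a325 (.cons (t2 10 27 46) (.cons (t1 3 17 46) (.cons (t3 3 23 46) (.cons s1099 (.cons s140 (.cons (t3 3 36 46) (.cons s1097 (.cons (t3 21 36 46) (.cons (t1 21 23 46) (.cons (t3 23 36 46) (.cons (t2 7 36 49) (.cons (t1 7 8 36) (.cons a430 (.cons (t1 7 8 50) (.cons a175 (.cons (t2 36 38 46) (.cons a346 (.cons (t3 7 19 49) (.cons (t3 7 19 24) (.cons a469 (.cons (t2 7 30 49) (.cons a307 (.cons (t1 6 18 49) (.cons (t3 18 24 49) (.cons (t3 7 10 24) (.cons (t1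 6 24 49) (.cons a171 (.cons s57 (.cons a432 (.cons a305 (.cons a110 (.cons a112 (.cons a447 (.cons a448 (.cons s221 (.cons s183 (.cons (t3 7 15 49) (.cons a95 (.cons (t1 7 8 41) (.cons (t1 6 9 18) (.cons a163 (.cons a426 (.cons s988 (.cons s196 (.cons (t2 7 24 38) (.cons (t3 24 38 49) (.cons (t2 18 24 38) (.cons (t2 8 24 38) (.cons (t2 27 34 49) (.cons (t1 24 27 34) (.cons a329 (.cons a265 (.cons (t1 27 39 49) (.cons a113 (.cons (t3 24 27 39) (.cons (t3 38 41 50) (.cons (t1 9 38 50) (.cons (t2 15 27 41) (.cons a300 (.cons (t1 6 9 50) (.cons s908 (.cons s85 (.cons s300 (.cons (t3 21 36 45) (.cons (t3 21 23 45) (.cons s1076 (.cons s177 (.cons s201 (.cons a203 (.cons (t3 23 45 51) (.cons (t1 21 45 51) (.cons (t2 7 21 49) (.cons (t1 7 21 41) (.cons (t2 7 8 21) (.cons (t1 7 21 38) (.cons (t1 7 21 45) (.cons (t2 5 8 36) (.cons (t2 5 36 49) (.cons (t3 3 5 36) (.cons (t2 5 36 38) (.cons (t1 7 21 51) (.cons (t2 21 49 51) (.cons (t1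 8 21 51) (.cons (t3 21 41 51) (.cons a500 (.cons a501 (.cons (t3 21 40 49) (.cons (t2 8 12 21) (.cons (t1 8 21 45) (.cons (t3 21 38 45) (.cons a30 (.cons s472 (.cons (t3 12 49 51) (.cons s178 (.cons (t1 20 21 45) (.cons (t2 8 20 45) (.cons (t3 11 38 41) (.cons a360 (.cons s1102 (.cons a58 (.cons (t2 3 16 17) (.cons (t2 3 16 36) (.cons (t2 3 5 16) (.cons (t3 3 22 23) (.cons a376 (.cons a354 (.cons a495 (.cons (t2 3 11 16) (.cons (t2 5 11 16) (.cons (t2 3 16 42) (.cons (t3 22 49 51) (.cons (t1 12 22 51) (.cons a215 (.cons (t1 3 12 42) (.cons (t3 11 22 49) (.cons (t2 11 12 22) (.cons a40 .nil)))))))))))))))))))))))))))))))))))))))))))))))))))))))))))))))))))))))))))))))))))))))))))))))))))))))))))))))))))))))))))))))))))))))))))))))) (by decide +kernel)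
theorem s1104 : Valid A [2779, 2234, 3004, 939, 3037, 419] := rup _
  (.cons s1038 (.cons s1071 (.cons (t3 7 24 49) (.cons (t2 7 21 24) (.cons a137 (.cons s1101 (.cons a469 (.cons (t2 7 30 49) (.cons (t1 7 21 30) (.cons s1099 (.cons s1097 (.cons s80 (.cons s140 (.cons (t3 21 36 46) (.cons (t1 21 23 46) (.cons (t3 23 36 46) (.cons (t2 7 36 49) (.cons s932 (.cons (t1 3 17 21) (.cons (t3 17 21 45) (.cons s300 (.cons (t3 21 23 45) (.cons (t3 21 30 45) (.cons (t3 21 29 45) (.cons s177 (.cons s716 (.cons (t1 17 22 45) (.cons (t2 22 29 45) (.cons a138 .nil))))))))))))))))))))))))))))) (by decide +kernel)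
theorem s1105 : Valid A [1340, 939, 457, 2249, 2350, 1327, 3037, 419] := rup _
  (.cons s1071 (.cons s1038 (.cons (t3 7 24 49) (.cons (t2 7 21 24) (.cons a135 (.cons (t3 24 29 49) (.cons s1099 (.cons s1097 (.cons a210 (.cons a203 (.cons (t3 3 5 36) (.cons s1101 (.cons (t3 7 18 49) (.cons (t2 7 18 21) (.cons (t2 7 21 49) (.cons s1092 (.cons (t3 7 10 49) (.cons s80 (.cons a189 (.cons s140 (.cons (t3 10 36 46) (.cons (t2 10 21 36) (.cons (t1 10 18 49) (.cons a348 (.cons a349 (.cons a469 (.cons (t2 7 30 49) (.cons (t2 18 36 49) (.cons a65 (.cons s932 (.cons (t3 10 30 36) (.cons (t1 10 23 30) (.cons s225 (.cons s11 (.cons (t2 0 36 49) (.cons (t3 0 3 36) (.cons (t2 17 29 36) (.cons s1104 (.cons a60 (.cons s118 (.cons (t2 3 17 45) (.cons (t1 0 3 45) (.cons a396 (.cons (t2 0 22 45) (.cons (t2 17 22 45) (.cons a491 (.cons a138 (.cons (t2 22 29 49) .nil)))))))))))))))))))))))))))))))))))))))))))))))) (by decide +kernel)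
theorem s1106 : Valid A [1325, 2779, 939, 913, 1070, 419] := rup _
  (.cons s1038 (.cons (t2 7 21 49) (.cons a501 (.cons (t2 7 8 21) (.cons (t2 8 12 21) (.cons (t1 8 21 45) (.cons a359 (.cons a360 (.cons (t1 7 21 45) (.cons a30 (.cons (t2 8 20 45) (.cons (t1 20 21 45) (.cons s1099 (.cons s1097 (.cons (t3 21 36 45) (.cons a188 (.cons s1071 (.cons (t3 7 24 49) (.cons (t2 7 8 24) (.cons s326 (.cons a39 (.cons a404 (.cons (t2 7 17 49) (.cons s1093 (.cons (t3 17 27 46) (.cons (t2 23 27 46) (.cons s1092 (.cons (t3 7 10 49) (.cons s1101 (.cons s80 (.cons a189 (.cons (t1 10 18 49) (.cons (t3 7 18 49) (.cons a348 (.cons a349 (.cons (t2 10 19 46) (.cons (t3 19 23 46) (.cons (t3 17 19 46) (.cons a335 (.cons (t1 19 23 39) (.cons a325 (.cons (t2 10 27 46) (.cons (t1 7 8 10) (.cons a399 (.cons (t2 7 8 23) (.cons (t1 7 18 23) (.cons s140 (.cons (t3 17 36 46) (.cons (t1 3 17 46) (.cons (t3 3 36 46) (.cons s1105 (.cons a163 (.cons s196 (.cons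 (t2 27 34 39) (.cons a307 (.cons s1103 (.cons (t3 7 33 49) (.cons a310 (.cons (t1 6 24 49) (.cons a171 (.cons (t1 24 27 34) (.cons (t3 24 27 39) (.cons a300 (.cons (t2 6 33 39) (.cons (t3 33 34 39) (.cons (t3 6 34 39) (.cons (t3 3 10 46) (.cons (t2 3 10 34) (.cons a210 (.cons a203 (.cons (t3 3 5 36) (.cons (t3 10 36 46) (.cons (t3 5 10 36) (.cons a500 (.cons a208 (.cons (t3 5 7 49) (.cons (t3 3 23 46) (.cons a54 (.cons (t1 3 23 33) (.cons (t2 6 23 33) (.cons (t1 7 24 33) (.cons (t1 27 36 46) (.cons (t3 23 36 46) (.cons (t2 7 8 49) (.cons (t3 8 23 49) (.cons (t2 3 17 49) (.cons s932 (.cons a38 (.cons (t1 3 10 22) (.cons (t2 10 22 36) (.cons (t1 5 10 22) (.cons (t2 10 19 22) (.cons a58 (.cons a59 (.cons (t3 16 22 36) (.cons (t2 5 16 22) (.cons (t3 3 16 17) (.cons s1073 (.cons (t2 11 17 49) (.cons (t3 7 11 49) (.cons (t2 11 23 49) (.cons (t3 8 11 49) (.cons (t1 3 11 49) (.cons (t3 11 21 49) (.cons (t2 11 12 49) (.cons a375 (.cons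 a40 (.cons (t1 7 11 16) (.cons (t1 8 11 16) (.cons (t2 11 16 21) (.cons (t2 3 12 23) (.cons a461 (.cons (t3 7 25 49) (.cons (t1 7 8 25) (.cons s306 .nil))))))))))))))))))))))))))))))))))))))))))))))))))))))))))))))))))))))))))))))))))))))))))))))))))))))))))))))))))) (by decide +kernel)
theorem s1107 : Valid A [2779, 939, 913, 1070, 419] := rup _
  (.cons s1038 (.cons s1071 (.cons (t3 7 24 49) (.cons (t2 7 21 24) (.cons a137 (.cons (t2 7 21 49) (.cons s1099 (.cons s1097 (.cons s1101 (.cons s80 (.cons s140 (.cons (t3 21 36 46) (.cons a188 (.cons (t2 7 8 24) (.cons s326 (.cons (t1 21 23 46) (.cons a404 (.cons (t2 7 17 49) (.cons s1093 (.cons (t3 17 23 46) (.cons s1092 (.cons (t3 7 10 49) (.cons a189 (.cons (t3 10 17 46) (.cons (t3 10 36 46) (.cons (t2 10 21 36) (.cons (t3 10 21 45) (.cons (t2 21 45 49) (.cons (t3 21 29 45) (.cons s1106 (.cons (t1 10 17 22) (.cons a395 (.cons (t1 22 45 49) (.cons (t2 22 29 45) (.cons a492 (.cons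 a138 (.cons (t1 0 21 49) (.cons s5 (.cons a505 (.cons (t3 0 17 23) .nil)))))))))))))))))))))))))))))))))))))))) (by decide +kernel)
theorem s1108 : Valid A [939, 913, 1070, 419] := rup _
  (.cons a188 (.cons s1038 (.cons s1071 (.cons (t3 7 24 49) (.cons (t2 7 8 24) (.cons s326 (.cons a404 (.cons (t2 7 17 49) (.cons s1093 (.cons (t1 3 17 46) (.cons (t3 3 23 46) (.cons s1099 (.cons s1101 (.cons s80 (.cons s140 (.cons (t3 3 36 46) (.cons s1097 (.cons (t3 21 36 46) (.cons (t1 21 23 46) (.cons s1092 (.cons (t3 7 10 49) (.cons a189 (.cons (t1 10 18 49) (.cons (t3 7 18 49) (.cons a348 (.cons a349 (.cons (t2 10 19 46) (.cons a175 (.cons (t2 17 38 46) (.cons (t3 17 36 46) (.cons (t2 7 8 23) (.cons (t1 7 18 23) (.cons (t1 7 8 10) (.cons a399 (.cons (t2 7 8 49) (.cons (t3 8 23 49) (.cons (t2 36 38 46) (.cons (t3 10 36 46) (.cons (t2 10 21 36) (.cons (t2 24 36 49) (.cons (t3 7 10 24) (.cons a171 (.cons s932 (.cons a208 (.cons a210 (.cons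 (t2 7 21 24) (.cons (t3 5 7 49) (.cons a203 (.cons a135 (.cons (t2 5 36 38) (.cons (t3 24 29 49) (.cons s1105 (.cons a163 (.cons s988 (.cons (t3 24 38 49) (.cons s472 (.cons s1107 (.cons a60 (.cons s284 (.cons s118 (.cons (t2 3 17 45) (.cons (t2 3 36 45) (.cons (t2 3 23 45) (.cons a396 (.cons a380 (.cons (t1 22 23 45) (.cons (t2 17 22 45) (.cons (t2 5 11 45) (.cons a215 (.cons (t3 7 11 49) (.cons (t2 11 29 49) (.cons a384 (.cons a130 (.cons (t3 0 7 21) (.cons (t1 17 29 38) (.cons a505 (.cons a138 (.cons s630 (.cons (t2 22 29 49) .nil))))))))))))))))))))))))))))))))))))))))))))))))))))))))))))))))))))))))))))))) (by decide +kernel)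
theorem s1109 : Valid A [2914, 2220, 2862, 98, 2786, 2734, 3042, 3171] := rup _
  (.cons a404 (.cons s630 (.cons a491 (.cons a505 (.cons s8 (.cons s7 (.cons a138 (.cons s377 (.cons (t1 17 29 49) .nil))))))))) (by decide +kernel)
theorem s1110 : Valid A [1506, 845, 823, 3514, 3126, 3533, 3788, 1083, 3131, 3811, 1000, 1360, 2736, 2786, 913, 419] := rup _
  (.cons s1038 (.cons (t3 7 29 49) (.cons a151 (.cons (t2 7 29 32) (.cons (t2 8 29 32) (.cons s1092 (.cons (t3 7 10 49) (.cons (t1 10 29 49) (.cons s1099 (.cons s1097 (.cons s680 (.cons s1071 (.cons (t3 7 24 49) (.cons (t2 7 8 24) (.cons (t2 7 8 49) (.cons (t2 7 36 49) (.cons s250 (.cons a215 (.cons (t1 11 29 49) (.cons a130 (.cons (t1 5 11 38) (.cons (t3 6 11 38) (.cons (t3 11 27 38) (.cons a199 (.cons a299 (.cons (t2 27 38 42) (.cons (t1 11 21 35) (.cons (t1 11 27 35) (.cons a126 (.cons (t2 29 42 49) (.cons (t1 8 29 42) (.cons (t1 24 29 42) (.cons a361 (.cons a369 (.cons (t3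 8 12 49) (.cons a517 (.cons (t3 28 42 49) (.cons a499 (.cons (t2 12 21 32) (.cons (t1 21 32 35) (.cons a412 (.cons (t2 7 35 49) (.cons (t2 7 8 35) (.cons (t1 7 35 52) (.cons a417 (.cons a410 (.cons (t1 4 24 49) (.cons (t1 4 29 49) (.cons (t3 8 25 49) (.cons (t1 8 24 25) (.cons a146 (.cons a536 (.cons (t2 4 10 40) (.cons s92 (.cons a7 (.cons (t3 24 27 40) (.cons (t3 24 25 40) (.cons a0 (.cons (t3 6 25 27) (.cons (t3 11 25 27) (.cons (t2 6 25 52) (.cons a78 (.cons (t1 2 6 11) (.cons (t3 2 11 27) (.cons a71 (.cons a75 (.cons (t2 2 35 52) .nil))))))))))))))))))))))))))))))))))))))))))))))))))))))))))))))))))) (by decide +kernel)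
theorem s1111 : Valid A [913, 1070, 419] := rup _
  (.cons s1038 (.cons s1092 (.cons (t3 7 10 49) (.cons s1101 (.cons s80 (.cons a189 (.cons (t1 10 18 49) (.cons (t3 7 18 49) (.cons a348 (.cons a349 (.cons (t2 10 19 46) (.cons a175 (.cons (t2 10 38 46) (.cons s1099 (.cons s1097 (.cons s1071 (.cons s140 (.cons (t3 10 36 46) (.cons (t2 10 21 36) (.cons (t3 21 36 46) (.cons a469 (.cons (t2 7 30 49) (.cons (t2 7 36 49) (.cons (t3 7 24 49) (.cons (t3 7 10 24) (.cons a65 (.cons a404 (.cons (t2 7 17 49) (.cons a307 (.cons (t1 6 24 49) (.cons a171 (.cons s57 (.cons s932 (.cons (t1 3 17 21) (.cons a39 (.cons a38 (.cons a188 (.cons (t2 7 8 49) (.cons (t2 7 8 24) (.cons (t3 3 7 8) (.cons (t2 7 8 23) (.cons s1093 (.cons (t3 8 23 49) (.cons s326 (.cons (t1 3 17 46) (.cons (t3 17 27 46) (.cons (t3 17 19 46) (.cons (t3 23 36 46) (.cons (t1 21 23 46) (.cons (t3 19 23 46) (.cons (t3 3 10 46) (.cons (t3 3 23 46) (.cons (t2 23 27 46) (.cons (t2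 10 27 46) (.cons a335 (.cons (t1 19 23 39) (.cons a325 (.cons s1108 (.cons (t3 7 21 49) (.cons (t3 7 21 24) (.cons s201 (.cons (t1 7 8 21) (.cons s294 (.cons s680 (.cons (t2 5 10 21) (.cons s1076 (.cons (t3 0 7 49) (.cons s133 (.cons a60 (.cons (t2 5 21 45) (.cons s118 (.cons (t2 3 10 11) (.cons (t2 3 17 45) (.cons (t3 3 27 45) (.cons (t3 3 7 45) (.cons (t3 3 8 45) (.cons (t2 3 23 45) (.cons s177 (.cons a396 (.cons s66 (.cons (t3 7 45 51) (.cons (t1 10 45 51) (.cons (t1 22 23 45) (.cons (t2 17 22 45) (.cons s1109 (.cons (t1 21 22 49) (.cons (t3 7 22 49) (.cons s203 (.cons a227 (.cons s169 (.cons s377 (.cons a134 (.cons a142 (.cons (t3 10 30 51) (.cons (t2 29 34 49) (.cons a163 (.cons s988 (.cons a158 (.cons s196 (.cons (t1 24 29 38) (.cons (t1 27 34 38) (.cons (t1 24 27 34) (.cons (t2 27 29 34) (.cons (t2 27 38 39) (.cons (t3 24 27 39) (.cons a300 (.cons (t3 6 27 39) (.cons (t3 6 38 39) (.cons s1110 (.cons s248 (.cons (t3 8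 12 49) (.cons a361 (.cons (t1 8 29 42) (.cons a356 (.cons a126 (.cons (t1 27 42 45) .nil)))))))))))))))))))))))))))))))))))))))))))))))))))))))))))))))))))))))))))))))))))))))))))))))))))))))))))))))))))) (by decide +kernel)
theorem s1112 : Valid A [1070, 419] := rup _
  (.cons s1099 (.cons s1071 (.cons s1101 (.cons s80 (.cons s140 (.cons s1038 (.cons s1092 (.cons (t3 7 10 49) (.cons a189 (.cons (t1 10 18 49) (.cons (t3 7 18 49) (.cons a348 (.cons a349 (.cons (t2 10 19 46) (.cons a175 (.cons (t2 36 38 46) (.cons (t2 7 46 49) (.cons (t2 18 36 49) (.cons (t3 18 24 49) (.cons (t2 7 36 49) (.cons (t3 7 24 49) (.cons (t3 7 10 24) (.cons a65 (.cons a405 (.cons (t2 3 17 24) (.cons a171 (.cons a432 (.cons a430 (.cons s1111 (.cons s298 (.cons a185 (.cons s936 (.cons (t3 8 23 36) (.cons (t2 8 36 38) (.cons a182 (.cons a483 (.cons (t2 3 8 17) (.cons (t2 18 23 49) (.cons s904 (.cons (t3 3 8 36) (.cons (t3 7 48 49) (.cons s494 (.cons (t3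 7 33 48) (.cons (t1 7 24 33) (.cons s431 (.cons s176 (.cons (t2 8 10 50) (.cons (t3 8 38 50) (.cons a247 (.cons a329 (.cons (t3 24 38 49) (.cons (t3 18 38 49) (.cons s988 (.cons a266 (.cons (t3 9 10 34) (.cons (t3 9 18 24) (.cons (t1 9 33 34) (.cons a250 .nil)))))))))))))))))))))))))))))))))))))))))))))))))))))))))) (by decide +kernel)
theorem s1113 : Valid A [939, 419] := rup _
  (.cons s1038 (.cons a307 (.cons s1092 (.cons (t3 7 10 49) (.cons s1101 (.cons s80 (.cons a189 (.cons s1112 (.cons a402 (.cons s936 (.cons a522 (.cons (t2 7 8 48) (.cons s150 (.cons (t3 7 33 49) (.cons a310 (.cons s1071 (.cons a405 (.cons (t2 3 17 24) (.cons (t3 7 24 49) (.cons (t1 7 24 48) (.cons a44 (.cons s1099 (.cons s140 (.cons a404 (.cons (t2 7 17 49) (.cons s1093 (.cons (t1 3 17 46) (.cons (t3 3 36 46) (.cons a54 (.cons (t3 3 33 48) (.cons s176 (.cons (t1 10 18 49) (.cons (t3 7 18 49) (.cons a348 (.cons a349 (.cons (t2 10 19 46) (.cons a175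 (.cons (t2 10 38 46) (.cons (t3 10 36 46) (.cons (t3 7 48 49) (.cons a479 (.cons s103 (.cons (t2 10 34 36) (.cons a158 (.cons (t1 33 34 38) (.cons (t1 6 33 38) (.cons a39 (.cons (t3 17 27 46) (.cons (t2 10 27 46) (.cons s196 (.cons (t1 27 34 38) (.cons a171 (.cons (t3 7 10 24) (.cons s988 (.cons (t3 24 38 49) (.cons (t2 24 46 49) (.cons a400 (.cons (t3 10 23 46) (.cons a193 (.cons (t2 7 46 49) (.cons s143 (.cons (t2 36 38 46) (.cons (t2 10 19 36) (.cons s1097 (.cons a208 (.cons a210 (.cons (t2 7 21 24) (.cons (t2 7 21 49) (.cons (t2 7 21 23) (.cons (t2 7 8 21) (.cons (t3 5 7 49) (.cons (t3 5 7 8) (.cons a203 (.cons a135 (.cons a501 (.cons a506 (.cons (t2 8 12 21) (.cons (t3 5 10 36) (.cons (t3 5 19 36) (.cons (t2 5 36 38) (.cons (t2 7 24 29) (.cons (t1 0 7 23) (.cons a213 (.cons s472 (.cons s474 (.cons (t3 4 5 10) (.cons a130 (.cons (t1 10 29 38) (.cons (t3 29 34 38) (.cons (t3 6 29 38) (.cons (t3 27 29 38) (.cons a146 (.cons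 (t3 4 6 29) (.cons a127 (.cons (t2 4 7 29) (.cons a309 (.cons (t1 27 34 42) (.cons (t1 27 38 42) (.cons a419 (.cons a198 (.cons (t2 7 23 26) (.cons (t3 5 8 42) (.cons a424 (.cons a360 (.cons (t1 23 24 32) (.cons (t2 8 23 32) (.cons (t2 12 34 42) (.cons a149 (.cons a517 (.cons (t1 12 32 34) (.cons (t2 29 32 34) .nil))))))))))))))))))))))))))))))))))))))))))))))))))))))))))))))))))))))))))))))))))))))))))))))))))))))))))))))) (by decide +kernel)
theorem s1114 : Valid A [2779, 419] := rup _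
  (.cons s1038 (.cons s1092 (.cons (t3 7 10 49) (.cons s1101 (.cons s80 (.cons a189 (.cons s1099 (.cons s1071 (.cons s140 (.cons (t3 10 36 46) (.cons s1097 (.cons s1113 (.cons (t3 7 21 49) (.cons s680 (.cons (t2 10 21 36) (.cons (t2 7 36 49) (.cons s201 (.cons (t2 5 10 21) (.cons s133 (.cons (t3 10 11 36) (.cons s1112 (.cons a402 (.cons s936 (.cons (t1 7 8 21) (.cons a432 (.cons a171 (.cons (t3 7 24 49) (.cons (t3 7 10 24) (.cons a522 (.cons (t2 7 8 48) (.cons (t3 7 48 49) (.cons a479 (.cons s103 (.cons (t2 10 34 36) (.cons s988 (.cons (t3 24 38 49) (.cons a329 (.cons (t1 10 18 49) (.cons (t3 7 18 49) (.cons a348 (.cons a349 (.cons (t2 10 19 46) (.cons a404 (.cons (t2 7 17 49) (.cons s1093 (.cons (t1 3 17 46) (.cons (t3 3 19 46) (.cons (t3 17 19 46) (.cons a335 (.cons (t2 3 19 39) (.cons (t3 3 36 46) (.cons a469 (.cons (t2 7 30 49) (.cons (t2 7 46 49) (.cons a400 (.cons (t3 10 23 46) (.cons s143 (.cons (t1 7 23 30) (.cons (t2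 7 23 49) (.cons (t2 7 8 49) (.cons a346 (.cons (t2 18 49 50) (.cons (t2 3 17 49) (.cons (t1 3 18 49) (.cons a471 (.cons s932 (.cons (t3 21 36 45) (.cons (t3 8 21 45) (.cons (t3 7 21 45) (.cons s569 (.cons (t1 21 45 49) (.cons (t1 5 21 45) (.cons s247 (.cons (t3 7 11 23) (.cons (t3 5 11 21) (.cons s749 (.cons (t2 5 21 52) (.cons (t2 11 21 52) (.cons a238 (.cons (t2 23 49 52) (.cons (t3 23 30 52) (.cons a235 (.cons a222 (.cons s146 (.cons (t2 8 42 49) (.cons (t1 5 21 30) (.cons s139 (.cons a48 (.cons a356 (.cons a433 (.cons (t1 5 30 39) (.cons (t3 5 42 45) (.cons (t3 38 39 50) (.cons (t3 5 38 39) (.cons a200 .nil))))))))))))))))))))))))))))))))))))))))))))))))))))))))))))))))))))))))))))))))))))))))))))))) (by decide +kernel)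
theorem s1115 : Valid A [419] := rup _
  (.cons a39 (.cons s932 (.cons (t1 3 17 21) (.cons s1038 (.cons a307 (.cons s57 (.cons s1071 (.cons a171 (.cons a404 (.cons a405 (.cons (t3 7 24 49) (.cons (t2 7 17 49) (.cons (t2 3 17 24) (.cons a65 (.cons s1092 (.cons (t3 7 10 49) (.cons (t3 7 10 24) (.cons s1099 (.cons (t2 7 36 49) (.cons s1097 (.cons s1101 (.cons a469 (.cons s80 (.cons (t3 7 18 49) (.cons (t1 10 18 49) (.cons (t2 7 30 49) (.cons (t2 7 46 49) (.cons a189 (.cons s140 (.cons a348 (.cons (t3 10 36 46) (.cons a349 (.cons (t2 10 21 36) (.cons (t2 10 19 46) (.cons a175 (.cons (t2 10 38 46) (.cons s1112 (.cons a400 (.cons a402 (.cons a522 (.cons (t3 10 23 46) (.cons s936 (.cons (t2 7 8 48) (.cons s143 (.cons (t2 7 8 49) (.cons (t3 3 7 8) (.cons s1093 (.cons s150 (.cons (t3 7 48 49) (.cons (t1 7 24 48) (.cons (t2 7 23 49) (.cons (t3 3 7 23) (.cons (t1 7 23 30) (.cons (t1 3 17 46) (.cons (t3 17 27 46) (.cons (t3 7 33 49) (.cons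 a479 (.cons a44 (.cons (t3 3 10 46) (.cons (t3 3 36 46) (.cons (t2 10 27 46) (.cons a310 (.cons s103 (.cons a54 (.cons (t2 10 34 36) (.cons (t3 3 33 48) (.cons s988 (.cons a158 (.cons s196 (.cons s176 (.cons (t3 24 38 49) (.cons (t1 27 34 38) (.cons (t1 33 34 38) (.cons (t2 27 34 49) (.cons (t1 24 27 34) (.cons (t3 27 33 34) (.cons (t1 6 33 38) (.cons (t3 6 27 33) (.cons s1113 (.cons (t3 7 21 49) (.cons (t3 7 21 24) (.cons s201 (.cons (t3 7 21 23) (.cons (t1 7 8 21) (.cons s680 (.cons (t2 5 10 21) (.cons s133 (.cons (t2 3 10 11) (.cons s1114 (.cons a60 (.cons (t2 5 21 45) (.cons s1065 (.cons s118 (.cons (t2 3 17 45) (.cons (t3 3 8 45) (.cons (t3 3 23 45) (.cons s177 (.cons (t2 3 17 30) (.cons (t2 3 30 45) (.cons a396 (.cons s66 (.cons (t3 23 45 51) (.cons (t1 17 45 51) (.cons (t2 17 30 51) (.cons (t2 17 22 45) (.cons (t3 22 45 51) (.cons a466 (.cons a495 (.cons (t3 30 32 45) (.cons (t3 8 22 23) (.cons (t3 7 22 23) (.cons (t1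 22 23 49) (.cons (t1 21 22 23) (.cons a227 (.cons s203 (.cons s377 (.cons a134 (.cons a142 (.cons (t3 22 29 49) (.cons (t2 29 38 49) (.cons (t1 27 29 49) (.cons a151 (.cons (t2 22 29 32) (.cons s1110 (.cons s248 (.cons (t3 8 12 49) (.cons a361 (.cons a356 (.cons (t1 8 22 42) (.cons (t1 32 42 45) (.cons a363 .nil))))))))))))))))))))))))))))))))))))))))))))))))))))))))))))))))))))))))))))))))))))))))))))))))))))))))))))))))))))))))))))))))))) (by decide +kernel)
theorem s1116 : Valid A [1088, 3772, 3942, 1127, 3130, 1073] := rup _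
  (.cons (t1 8 24 32) (.cons (t3 8 32 51) (.cons a149 (.cons a464 (.cons (t3 29 30 32) .nil))))) (by decide +kernel)
theorem s1117 : Valid A [2269, 2877, 3942, 2909, 2645, 1068, 1493, 1127, 1064, 1108, 400, 3130, 1073] := rup _
  (.cons s1115 (.cons (t3 3 17 46) (.cons (t3 17 22 46) (.cons (t1 3 22 46) (.cons a139 (.cons (t3 22 29 30) (.cons s1116 (.cons (t3 8 22 32) (.cons (t1 8 32 42) (.cons a363 (.cons (t1 17 22 42) (.cons (t3 11 22 42) (.cons (t3 11 17 42) (.cons (t3 17 20 42) (.cons a377 (.cons a378 (.cons (t3 16 17 20) (.cons (t3 11 16 22) (.cons a25 (.cons a56 (.cons (t3 3 8 16) .nil))))))))))))))))))))) (by decide +kernel)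
theorem s1118 : Valid A [739, 174, 611, 605, 1442, 2236, 3939, 303, 1493, 3043, 1465, 5480, 1456, 993, 3169, 933, 2992, 994] := rup _
  (.cons s67 (.cons a348 (.cons a216 (.cons (t3 4 5 49) (.cons (t1 11 23 49) (.cons (t1 11 42 49) (.cons (t1 11 30 49) (.cons a212 (.cons a238 (.cons a234 (.cons s401 (.cons (t3 4 19 46) (.cons (t1 2 23 52) (.cons (t1 11 16 23) (.cons (t1 11 16 24) (.cons (t2 11 16 28) (.cons s443 (.cons a72 (.cons a288 (.cons s272 (.cons a457 (.cons a459 (.cons (t1 6 49 52) (.cons (t1 1 16 28) (.cons (t2 1 16 43) (.cons a304 (.cons a296 (.cons a281 (.cons (t1 6 7 48) (.cons (t1 6 7 18) (.cons (t2 24 43 48) (.cons a262 (.cons a264 (.cons (t3 6 9 18) (.cons (t1 9 43 48) (.cons a265 (.cons s113 (.cons (t2 9 28 38) .nil)))))))))))))))))))))))))))))))))))))) (by decide +kernel)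
theorem s1119 : Valid A [1506, 738, 174, 3811, 1442, 2236, 3939, 303, 1493, 3043, 1465, 5480, 1456, 993, 3169, 2362, 933, 2992, 994] := rup _
  (.cons s67 (.cons a215 (.cons (t1 11 23 49) (.cons (t1 11 29 49) (.cons (t1 11 42 49) (.cons (t1 11 30 49) (.cons (t1 5 11 28) (.cons (t1 5 11 42) (.cons a238 (.cons a234 (.cons s401 (.cons a200 (.cons (t1 2 23 52) (.cons (t1 11 16 23) (.cons (t1 11 16 24) (.cons (t2 11 16 28) (.cons (t1 5 11 38) (.cons (t1 5 28 38) (.cons a72 (.cons a288 (.cons s272 (.cons a457 (.cons a459 (.cons a130 (.cons (t1 6 49 52) (.cons (t2 1 16 43) (.cons (t3 18 29 38) (.cons a304 (.cons a281 (.cons (t1 6 7 48) (.cons (t1 6 7 18) (.cons (t2 24 43 48) (.cons a262 (.cons a264 (.cons (t3 6 9 18) (.cons (t1 9 43 48) (.cons a265 (.cons s113 (.cons (t2 9 28 38) .nil))))))))))))))))))))))))))))))))))))))) (by decide +kernel)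
theorem s1120 : Valid A [1340, 15, 2885, 2909, 2863, 2645, 303, 1068, 1493, 3043, 4445, 1465, 1383, 660, 1329, 917, 5480, 1127, 1064, 1456, 918, 1108, 993, 3169, 2353, 400, 3130, 933, 2992, 1073, 954, 3170, 913, 994] := rup _
  (.cons (t1 22 23 49) (.cons (t3 2 22 23) (.cons (t1 7 10 29) (.cons s38 (.cons (t1 7 18 29) (.cons (t1 10 24 30) (.cons a162 (.cons (t3 10 30 51) (.cons s733 (.cons (t1 30 34 46) (.cons (t3 22 30 34) (.cons s1117 (.cons s1093 (.cons (t1 17 22 46) (.cons (t1 17 30 46) (.cons (t1 7 17 29) (.cons (t3 7 11 17) (.cons (t2 7 10 17) (.cons (t1 0 7 17) (.cons a138 (.cons a511 (.cons (t2 22 29 49) (.cons (t2 22 29 34) (.cons (t2 22 29 46) (.cons (t2 22 23 29) (.cons (t1 2 22 29) (.cons (t1 4 10 17) (.cons a146 (.cons (t1 4 29 46) (.cons (t1 4 29 49) (.cons (t3 4 23 29) (.cons (t3 2 4 29) (.cons a90 (.cons (t3 1 4 23) (.cons s1118 (.cons s1119 (.cons a218 (.cons (t3 11 29 49) (.cons (t3 5 11 42) (.cons a132 (.cons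 a133 (.cons (t1 29 34 38) (.cons (t3 11 38 42) (.cons a158 (.cons a198 (.cons (t3 5 10 38) .nil)))))))))))))))))))))))))))))))))))))))))))))) (by decide +kernel)
theorem s1121 : Valid A [917, 1449, 3669, 3046, 1456, 918, 5863, 987, 1115, 993, 3169, 3037, 933, 2992, 945, 952, 2734, 969, 939, 3170, 913, 994] := rup _
  (.cons s1115 (.cons s97 (.cons (t1 7 45 51) (.cons (t1 8 45 51) (.cons a86 (.cons a88 (.cons s776 (.cons a30 (.cons (t2 8 20 45) (.cons a359 (.cons (t2 7 18 24) (.cons a65 (.cons (t3 3 7 36) (.cons (t3 3 7 8) (.cons (t2 7 8 21) (.cons a143 (.cons (t2 7 21 29) (.cons (t1 7 24 29) (.cons (t2 7 8 24) (.cons s158 (.cons a208 (.cons a186 (.cons s38 (.cons (t1 7 10 49) (.cons (t2 7 10 24) (.cons (t1 7 10 46) (.cons (t2 7 10 21) (.cons (t3 5 7 10) (.cons (t2 7 10 36) (.cons (t1 7 10 28) (.cons (t1 7 10 29) (.cons (t2 7 10 48) (.cons (t2 7 10 45) (.cons (t1 7 10 11) (.cons (t2 7 10 51) (.cons a189 (.cons a387 (.cons a396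 (.cons (t3 34 46 49) (.cons (t1 23 46 49) (.cons s67 (.cons (t2 11 20 28) (.cons (t1 11 28 42) (.cons (t2 7 22 45) (.cons (t2 8 22 45) (.cons (t3 22 45 51) (.cons (t3 23 34 46) (.cons (t3 2 23 49) (.cons (t1 20 28 42) (.cons a495 (.cons (t1 22 23 49) (.cons (t1 22 23 46) (.cons (t1 22 23 34) (.cons a492 (.cons (t1 0 23 49) (.cons a505 (.cons (t3 0 7 21) (.cons s1120 (.cons a393 (.cons (t2 10 21 30) (.cons (t2 7 10 33) (.cons (t3 10 33 36) (.cons (t3 10 33 48) (.cons a223 (.cons s429 (.cons a52 (.cons s176 (.cons (t2 7 21 52) (.cons (t2 7 8 50) (.cons (t3 3 17 33) (.cons (t1 33 34 49) (.cons (t3 22 33 34) (.cons a226 (.cons a429 (.cons (t3 17 33 49) (.cons (t1 17 22 33) (.cons (t1 11 22 52) (.cons a330 (.cons a403 (.cons (t2 34 38 49) (.cons (t2 17 24 29) (.cons a158 (.cons a138 (.cons (t3 10 29 38) (.cons (t3 10 11 38) (.cons (t3 11 22 29) (.cons a130 .nil)))))))))))))))))))))))))))))))))))))))))))))))))))))))))))))))))))))))))))))))))))))))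 (by decide +kernel)
theorem s1122 : Valid A [916, 933, 945, 3170, 1070, 913, 994] := rup _
  (.cons (t2 7 18 24) (.cons a348 (.cons a188 (.cons (t2 7 8 24) (.cons s326 (.cons a186 (.cons (t1 7 24 46) (.cons s158 (.cons (t1 7 8 10) (.cons (t3 7 10 18) (.cons a399 (.cons a349 (.cons (t1 10 23 46) (.cons (t2 10 19 46) (.cons a192 (.cons s731 (.cons a175 (.cons (t1 10 34 49) (.cons (t2 7 24 30) (.cons s733 (.cons (t2 10 38 46) (.cons (t1 10 30 49) (.cons a158 (.cons s183 (.cons (t2 34 38 49) (.cons s429 (.cons a330 (.cons (t2 7 8 50) (.cons a429 .nil))))))))))))))))))))))))))))) (by decide +kernel)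
theorem s1123 : Valid A [2779, 917, 3037, 933, 2992, 945, 2734, 939, 3170, 2761, 913, 994] := rup _
  (.cons (t1 7 21 36) (.cons (t1 7 21 49) (.cons (t1 21 36 49) (.cons s158 (.cons s106 (.cons a479 (.cons (t1 7 36 48) (.cons (t2 7 24 36) (.cons (t1 24 36 48) (.cons a490 (.cons (t2 7 21 28) (.cons (t1 7 24 28) (.cons (t2 7 21 24) (.cons (t2 7 8 21) (.cons a204 (.cons (t2 21 36 45) (.cons (t1 8 21 45) (.cons (t1 7 21 45) (.cons (t3 5 21 45) (.cons (t2 21 24 45) (.cons (t3 21 23 45) (.cons a380 (.cons a357 (.cons a30 (.cons s177 (.cons (t1 11 21 45) (.cons (t2 7 11 45) (.cons (t1 11 24 45) (.cons (t2 24 42 45) (.cons (t1 20 21 45) (.cons (t3 23 45 51) (.cons a367 (.cons a33 (.cons s1121 .nil)))))))))))))))))))))))))))))))))) (by decide +kernel)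
theorem s1124 : Valid A [2221, 5864, 488, 316, 3939, 2364, 956, 2214, 354, 2266, 2523, 1370, 1317, 917, 420, 2353, 945, 939, 994] := rup _
  (.cons (t1 17 22 45) (.cons a395 (.cons (t3 10 17 22) (.cons (t1 7 10 22) (.cons (t2 10 17 18) (.cons a227 (.cons (t1 7 24 52) (.cons s147 (.cons (t2 30 49 52) (.cons (t3 2 30 52) (.cons (t1 3 30 52) (.cons (t1 45 49 52) (.cons s139 (.cons a79 (.cons (t2 17 18 39) (.cons (t1 18 24 39) (.cons a87 (.cons (t3 2 19 45) (.cons a333 (.cons s483 (.cons (t1 2 19 39) (.cons a71 (.cons (t3 2 6 39) (.cons (t2 6 24 52) (.cons a300 .nil))))))))))))))))))))))))) (by decide +kernel)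
theorem s1125 : Valid A [1325, 2220, 441, 408, 1340, 2214, 354, 2266, 1317, 917, 420, 2353, 2342, 3037, 945, 939, 3170, 913, 994] := rup _
  (.cons s1115 (.cons s17 (.cons s158 (.cons (t1 2 34 49) (.cons s38 (.cons a162 (.cons (t1 2 30 34) (.cons (t1 7 10 49) (.cons a186 (.cons (t1 7 10 46) (.cons a189 (.cons (t3 34 46 49) (.cons (t3 23 34 46) (.cons (t3 23 30 34) (.cons (t2 7 10 24) (.cons (t1 10 24 30) (.cons s733 (.cons (t1 10 18 30) (.cons (t2 7 10 30) (.cons (t1 23 46 49) (.cons (t2 7 8 21) (.cons a143 (.cons (t2 7 21 29) (.cons (t1 7 10 29) (.cons (t2 7 8 10) (.cons (t2 7 8 24) (.cons a188 (.cons (t1 8 10 22) (.cons (t2 10 17 22) (.cons (t2 10 22 24) (.cons (t1 7 10 22) (.cons (t1 10 22 29) (.cons (t2 8 17 22) (.cons (t3 10 17 24) (.cons a227 (.cons a138 (.cons a181 (.cons a403 (.cons (t1 7 24 52) (.cons s147 (.cons (t2 17 29 49) (.cons (t3 17 23 46) (.cons (t3 17 19 46) (.cons (t3 17 45 49) (.cons (t2 30 49 52) (.cons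 (t2 30 34 52) (.cons (t1 23 30 52) (.cons (t3 2 30 52) (.cons (t1 3 30 52) (.cons (t3 29 34 49) (.cons (t3 23 29 49) (.cons s443 (.cons a79 (.cons a236 (.cons (t2 34 42 52) (.cons s139 (.cons (t2 29 34 42) (.cons (t2 10 18 38) (.cons a87 (.cons (t1 18 24 39) (.cons a158 (.cons s483 (.cons (t2 34 38 49) (.cons a71 (.cons a330 (.cons (t3 6 49 52) (.cons (t2 6 24 52) (.cons (t3 6 23 52) (.cons a429 (.cons a300 (.cons (t2 7 24 50) (.cons (t2 7 8 50) (.cons (t2 6 39 49) (.cons (t2 6 23 39) (.cons a314 (.cons s429 (.cons a443 (.cons a326 (.cons (t2 8 24 27) (.cons (t2 22 24 27) (.cons a112 (.cons a448 (.cons (t2 17 23 27) (.cons (t3 23 27 49) (.cons (t3 23 27 29) (.cons a95 (.cons a36 (.cons a126 (.cons (t2 15 41 49) (.cons (t3 3 12 27) (.cons (t2 3 27 28) (.cons (t3 8 27 42) (.cons (t3 22 27 42) (.cons a113 (.cons (t3 12 27 42) (.cons (t2 15 27 41) (.cons a360 (.cons (t2 27 28 41) (.cons (t2 27 41 42) (.cons a519 (.cons a531 (.cons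 (t3 32 41 42) (.cons (t1 8 22 32) (.cons a363 .nil)))))))))))))))))))))))))))))))))))))))))))))))))))))))))))))))))))))))))))))))))))))))))))))))))))))))) (by decide +kernel)
theorem s1126 : Valid A [918, 1340, 917, 3037, 945, 939, 3170, 2761, 942, 913, 994] := rup _
  (.cons s1115 (.cons s158 (.cons (t1 7 21 23) (.cons (t3 7 23 24) (.cons (t1 7 21 36) (.cons s911 (.cons s1123 (.cons (t2 7 21 45) (.cons s132 (.cons (t1 2 34 49) (.cons s38 (.cons a162 (.cons (t1 2 30 34) (.cons (t1 7 10 49) (.cons a186 (.cons (t1 7 10 46) (.cons a189 (.cons (t3 34 46 49) (.cons (t3 23 34 46) (.cons (t3 23 30 34) (.cons (t2 7 18 24) (.cons (t2 7 10 24) (.cons (t1 10 24 30) (.cons s733 (.cons (t2 7 10 18) (.cons (t1 10 18 30) (.cons (t2 7 10 30) (.cons a65 (.cons (t3 3 7 21) (.cons a346 (.cons (t3 7 19 21) (.cons s444 (.cons (t3 3 17 19) (.cons a60 (.cons (t3 3 17 45) (.cons a341 (.cons (t1 21 36 45) (.cons (t2 7 10 21) (.cons (t2 10 21 45) (.cons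 (t1 23 46 49) (.cons a490 (.cons (t2 7 21 28) (.cons (t1 7 10 28) (.cons (t2 7 10 36) (.cons (t3 3 7 18) (.cons a348 (.cons (t2 7 24 36) (.cons (t3 7 11 36) (.cons (t1 7 10 11) (.cons s543 (.cons a379 (.cons a387 (.cons a42 (.cons (t1 3 11 17) (.cons (t1 3 11 28) (.cons s67 (.cons s17 (.cons (t1 11 45 52) (.cons s1124 (.cons s1125 (.cons (t3 10 22 36) (.cons a395 (.cons (t3 3 22 45) (.cons (t3 11 22 45) (.cons s131 (.cons a58 (.cons (t3 7 23 52) (.cons (t1 3 11 16) (.cons a238 (.cons (t3 11 16 23) (.cons (t3 11 17 23) (.cons (t1 11 23 49) (.cons (t2 11 22 23) (.cons (t3 16 23 30) (.cons (t3 17 23 49) (.cons (t2 11 22 49) (.cons a497 (.cons a403 (.cons s594 (.cons (t1 17 24 36) .nil)))))))))))))))))))))))))))))))))))))))))))))))))))))))))))))))))))))))))))))))) (by decide +kernel)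
theorem s1127 : Valid A [1325, 2220, 3810, 1338, 1329, 3170] := rup _
  (.cons (t2 10 17 22) (.cons (t1 10 22 29) (.cons (t3 10 17 24) (.cons a138 (.cons a403 (.cons (t2 17 29 49) .nil)))))) (by decide +kernel)
theorem s1128 : Valid A [1340, 917, 3037, 945, 939, 3170, 2761, 942, 913, 994] := rup _
  (.cons s1115 (.cons s158 (.cons (t1 7 21 23) (.cons (t3 7 23 24) (.cons (t1 7 21 36) (.cons s911 (.cons s1123 (.cons (t2 7 21 45) (.cons s132 (.cons (t1 2 34 49) (.cons a65 (.cons (t3 3 7 21) (.cons a346 (.cons (t3 7 19 21) (.cons s444 (.cons (t3 3 17 19) (.cons a60 (.cons (t3 3 17 45) (.cons a341 (.cons (t2 7 10 21) (.cons (t2 10 21 45) (.cons (t1 7 10 49) (.cons a186 (.cons (t1 7 10 46) (.cons a189 (.cons (t3 34 46 49) (.cons (t3 23 34 46) (.cons (t1 23 46 49) (.cons (t2 7 10 18) (.cons (t2 7 8 21) (.cons a143 (.cons (t2 7 21 29) (.cons (t1 7 10 29) (.cons (t2 7 10 24) (.cons s38 (.cons (t3 3 7 18) (.cons (t2 7 18 24) (.cons a348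 (.cons (t2 7 10 30) (.cons (t1 10 24 30) (.cons a162 (.cons (t1 10 18 30) (.cons s733 (.cons (t1 2 30 34) (.cons s1126 (.cons a384 (.cons (t2 7 11 21) (.cons (t1 7 11 29) (.cons (t2 7 11 18) (.cons (t1 7 11 45) (.cons (t3 0 7 21) (.cons a35 (.cons a505 (.cons s363 (.cons s9 (.cons (t1 0 23 49) (.cons (t3 3 20 45) (.cons (t3 19 20 45) (.cons (t3 23 29 49) (.cons (t3 23 29 34) (.cons a492 (.cons a16 (.cons (t1 22 46 49) (.cons (t1 20 45 52) (.cons (t2 3 20 52) (.cons s1124 (.cons s1127 (.cons a395 (.cons (t3 19 22 45) (.cons (t2 19 22 46) (.cons s443 (.cons (t2 10 18 38) (.cons (t2 11 18 38) (.cons a158 (.cons a130 (.cons (t3 29 34 38) .nil)))))))))))))))))))))))))))))))))))))))))))))))))))))))))))))))))))))))))))) (by decide +kernel)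
theorem s1129 : Valid A [945, 939, 3170, 2761, 1070, 913, 994] := rup _
  (.cons (t1 7 21 49) (.cons (t1 21 36 49) (.cons a490 (.cons (t2 7 21 28) (.cons (t2 7 8 23) (.cons (t1 7 21 23) (.cons (t1 7 21 36) (.cons a188 (.cons a186 (.cons a65 (.cons s158 (.cons (t2 7 8 24) (.cons (t3 7 23 24) (.cons (t2 7 21 24) (.cons s911 (.cons (t3 3 7 21) (.cons (t3 3 7 36) (.cons s106 (.cons s326 (.cons a346 (.cons (t2 7 18 24) (.cons (t2 7 8 18) (.cons a479 (.cons (t3 7 19 21) (.cons (t1 7 36 48) (.cons s1122 (.cons (t1 7 10 49) (.cons (t2 7 8 10) (.cons (t1 7 10 46) (.cons (t2 7 10 21) (.cons (t2 7 10 36) (.cons (t2 7 10 48) (.cons a189 (.cons (t3 34 46 49) (.cons (t1 23 46 49) (.cons (t3 23 34 46) (.cons s1123 (.cons a60 (.cons (t2 7 21 45) (.cons s444 (.cons s132 (.cons (t1 2 34 49) (.cons s1128 (.cons a393 (.cons (t2 10 21 30) (.cons (t2 7 10 33) (.cons (t3 10 33 36) (.cons (t3 10 33 48) (.cons a223 (.cons s429 (.cons a52 (.cons s176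 (.cons (t2 7 21 52) (.cons (t2 7 8 50) (.cons (t1 8 24 50) (.cons (t1 8 10 50) (.cons (t1 8 18 50) (.cons (t2 3 19 33) (.cons (t2 3 33 45) (.cons (t1 33 34 49) (.cons (t3 23 33 34) (.cons (t1 2 33 34) (.cons a429 (.cons (t1 19 33 34) (.cons a311 (.cons (t1 19 33 49) (.cons (t3 3 23 33) (.cons (t1 23 33 45) (.cons (t3 2 33 45) (.cons (t1 19 49 50) (.cons a156 (.cons a157 (.cons a304 (.cons a85 (.cons (t3 19 27 50) (.cons (t3 27 34 49) (.cons (t2 23 27 34) (.cons (t1 6 7 24) (.cons (t1 6 7 48) (.cons (t1 6 7 10) (.cons (t1 2 7 24) (.cons (t1 2 7 8) (.cons (t1 2 7 18) (.cons (t2 2 7 52) (.cons a313 (.cons s436 (.cons a301 (.cons a264 (.cons (t3 6 9 10) (.cons (t1 2 24 27) (.cons a83 (.cons (t1 18 24 27) (.cons (t1 21 24 27) (.cons (t1 24 27 39) (.cons a318 (.cons (t2 7 24 39) (.cons (t2 18 24 39) (.cons a246 (.cons a76 (.cons (t2 7 8 43) (.cons a277 (.cons a325 (.cons a439 (.cons (t3 7 14 21) (.cons a433 (.cons (t3 9 49 50) (.cons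 (t2 7 27 35) (.cons (t2 21 27 35) (.cons (t1 18 24 44) (.cons (t2 2 18 44) (.cons (t2 23 39 49) (.cons (t2 23 39 45) (.cons (t1 14 39 49) (.cons a407 (.cons (t3 9 39 50) (.cons a269 (.cons a68 (.cons (t3 9 14 49) (.cons (t2 14 35 49) (.cons (t2 14 35 39) (.cons (t1 9 14 35) (.cons (t2 39 44 45) (.cons (t2 39 44 49) (.cons (t1 23 39 44) (.cons (t1 9 39 44) (.cons (t1 35 39 44) (.cons (t1 14 39 44) (.cons s98 (.cons a417 (.cons a418 (.cons (t1 4 9 35) (.cons a273 (.cons (t1 4 44 49) (.cons (t1 23 44 52) (.cons (t1 9 44 52) (.cons (t1 32 35 44) (.cons (t1 4 14 44) (.cons (t2 14 28 44) (.cons a239 (.cons a240 (.cons (t2 9 11 52) (.cons a412 (.cons a538 (.cons (t2 3 11 23) (.cons (t2 7 32 36) (.cons (t1 7 32 43) (.cons (t2 4 7 28) (.cons s543 (.cons (t3 11 32 36) (.cons (t2 11 32 43) (.cons a454 (.cons a243 (.cons (t3 4 9 43) .nil)))))))))))))))))))))))))))))))))))))))))))))))))))))))))))))))))))))))))))))))))))))))))))))))))))))))))))))))))))))))))))))))))))))))))))))))))))))))))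 (by decide +kernel)
theorem s1130 : Valid A [939, 3170, 2761, 1070, 913, 994] := rup _
  (.cons s1115 (.cons a186 (.cons (t1 7 21 49) (.cons (t1 7 21 46) (.cons (t1 7 21 36) (.cons s1129 (.cons s454 (.cons (t1 7 21 24) (.cons (t3 3 17 46) (.cons s1053 (.cons s340 (.cons s138 (.cons (t2 17 46 49) (.cons a196 (.cons (t3 17 24 46) (.cons (t1 3 24 46) (.cons s803 (.cons a469 (.cons (t1 7 18 49) (.cons s1036 (.cons s792 (.cons a64 (.cons a189 (.cons (t2 10 30 49) (.cons (t3 7 10 48) (.cons (t1 3 7 36) (.cons (t3 10 18 49) (.cons a54 (.cons a350 (.cons (t1 3 7 33) (.cons a345 (.cons s429 (.cons s43 (.cons s412 (.cons (t2 7 8 50) (.cons (t1 17 34 49) (.cons s768 (.cons (t2 3 7 27) (.cons (t1 7 19 27) (.cons a36 (.cons a154 (.cons (t1 17 27 34) .nil)))))))))))))))))))))))))))))))))))))))))) (by decide +kernel)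
theorem s1131 : Valid A [917, 945, 968, 3170, 1070, 913, 994] := rup _
  (.cons s1115 (.cons a186 (.cons (t1 7 24 46) (.cons (t1 7 24 36) (.cons a177 (.cons a188 (.cons (t2 7 8 24) (.cons s326 (.cons s158 (.cons s106 (.cons a65 (.cons s38 (.cons (t1 7 10 49) (.cons (t2 7 10 24) (.cons (t2 7 8 10) (.cons (t1 7 10 46) (.cons a189 (.cons s80 (.cons (t1 36 46 49) (.cons (t1 23 46 49) (.cons s563 (.cons (t3 17 36 49) (.cons (t2 23 48 49) (.cons (t3 17 46 49) (.cons (t3 3 17 36) (.cons a520 (.cons s494 (.cons (t1 7 8 48) (.cons s429 (.cons (t3 7 33 48) (.cons (t2 7 8 50) (.cons (t1 8 10 50) (.cons s176 (.cons a429 (.cons (t1 33 34 49) (.cons a330 (.cons (t1 17 49 50) (.cons (t3 18 49 50) (.cons a311 (.cons (t2 34 38 49) (.cons a304 (.cons a158 (.cons (t1 6 7 24) (.cons (t1 6 7 48) (.cons (t1 6 7 10) (.cons (t1 6 7 8) (.cons (t1 8 10 38) (.cons (t2 10 24 38) (.cons (t1 7 10 38) (.cons a301 (.cons a264 (.cons (t3 6 9 10) (.cons (t1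 6 8 9) (.cons (t3 8 9 38) (.cons (t1 24 38 39) (.cons a246 (.cons (t2 9 18 50) (.cons a265 (.cons (t3 7 18 38) (.cons (t2 18 38 39) (.cons a348 (.cons a433 (.cons s443 (.cons (t3 17 39 50) (.cons (t3 17 19 46) (.cons a336 .nil)))))))))))))))))))))))))))))))))))))))))))))))))))))))))))))))))) (by decide +kernel)
theorem s1132 : Valid A [945, 3170, 2761, 1070, 913, 994] := rup _
  (.cons a204 (.cons s1130 (.cons a207 (.cons (t2 5 7 49) (.cons (t3 7 21 36) (.cons a490 (.cons a188 (.cons a186 (.cons s158 (.cons (t2 7 8 24) (.cons (t1 7 24 46) (.cons (t3 7 21 24) (.cons s326 (.cons s340 (.cons (t3 21 23 46) (.cons (t1 21 23 28) (.cons s1131 (.cons (t1 7 8 10) (.cons s1122 (.cons (t2 5 7 10) (.cons a399 (.cons (t1 10 23 46) (.cons (t3 10 21 23) (.cons (t2 10 23 28) (.cons a191 (.cons a192 (.cons s160 (.cons s133 (.cons s1093 (.cons (t3 10 11 21) (.cons (t1 7 17 49) (.cons (t1 7 17 18) (.cons s924 (.cons a513 (.cons (t1 21 23 52)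 (.cons a469 (.cons a223 (.cons (t1 30 34 49) (.cons (t3 21 30 46) (.cons s338 .nil)))))))))))))))))))))))))))))))))))))))) (by decide +kernel)
theorem s1133 : Valid A [1340, 744, 941, 1510, 2791, 1454, 2735, 1317, 2402, 917, 738, 998] := rup _
  (.cons (t2 7 10 30) (.cons (t1 10 18 30) (.cons s169 (.cons a468 (.cons (t2 30 49 51) (.cons (t3 21 30 51) (.cons (t1 11 49 51) (.cons a223 (.cons a215 (.cons (t1 21 23 52) (.cons (t1 5 11 52) (.cons a238 .nil)))))))))))) (by decide +kernel)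
theorem s1134 : Valid A [2779, 2735, 1317, 934, 2402, 5987, 1378, 917, 738, 938, 3170, 2761] := rup _
  (.cons a204 (.cons a207 (.cons (t1 5 7 10) (.cons (t3 7 21 36) (.cons (t1 7 10 36) (.cons (t1 7 10 21) (.cons s22 (.cons a344 (.cons (t2 21 36 45) (.cons (t3 5 21 45) (.cons (t2 21 23 45) (.cons (t3 7 21 45) (.cons (t3 10 21 45) (.cons (t3 19 21 36) (.cons a380 (.cons s177 (.cons (t1 11 23 45) (.cons (t1 36 45 51) (.cons (t1 23 45 51) (.cons (t1 21 45 51) (.cons (t3 11 45 51) (.cons a496 (.cons (t3 22 23 45) (.cons a395 (.cons (t1 10 22 49) (.cons (t1 7 10 22) (.cons (t1 5 10 22) (.cons a227 (.cons (t1 7 10 52) (.cons (t2 5 7 52) (.cons s1133 (.cons (t1 10 30 36) (.cons (t3 10 21 30) (.cons (t1 10 30 52) (.cons s116 (.cons a222 (.cons (t3 19 36 52) (.cons (t2 36 51 52) (.cons s155 (.cons (t2 21 49 52) (.cons s1053 (.cons (t2 21 24 45) (.cons (t2 21 24 51) (.cons (t2 21 24 52) (.cons a23 (.cons (t3 20 24 52) (.cons (t3 20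 24 45) (.cons a14 (.cons a29 (.cons (t3 7 19 20) .nil)))))))))))))))))))))))))))))))))))))))))))))))))) (by decide +kernel)
theorem s1135 : Valid A [987, 475, 2757, 2787, 2219, 2245, 3939, 2778, 933, 482, 944, 3170, 994] := rup _
  (.cons s1115 (.cons a346 (.cons (t3 3 7 45) (.cons (t3 7 19 45) (.cons (t1 3 7 18) (.cons a341 (.cons (t3 17 19 21) (.cons (t1 19 21 49) (.cons (t1 19 21 34) (.cons a335 (.cons a156 (.cons (t3 19 39 49) (.cons (t2 17 27 34) (.cons s969 (.cons a36 (.cons (t2 3 18 39) (.cons (t2 3 7 27) (.cons (t2 3 18 27) (.cons a434 (.cons s768 (.cons (t2 7 27 50) (.cons (t1 18 27 50) .nil)))))))))))))))))))))) (by decide +kernel)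
theorem s1136 : Valid A [3037, 4445, 2245, 3939, 4698, 2778, 2735, 933, 482, 5987, 917, 1072, 2269, 944, 1066, 655, 968, 938, 3170, 942, 994] := rup _
  (.cons s1115 (.cons (t1 21 23 45) (.cons a506 (.cons (t1 7 10 23) (.cons (t3 3 17 46) (.cons (t2 5 7 49) (.cons a194 (.cons (t1 21 23 46) (.cons (t1 23 46 49) (.cons (t2 21 23 24) (.cons (t3 17 21 46) (.cons (t1 3 21 46) (.cons (t1 21 46 49) (.cons (t3 21 34 46) (.cons s202 (.cons a60 (.cons (t1 17 21 29) (.cons (t2 21 29 49) (.cons a140 (.cons (t3 22 29 49) (.cons s1135 (.cons (t1 7 10 45) (.cons s199 (.cons s297 (.cons s177 (.cons (t2 5 7 11) (.cons (t3 23 45 51) (.cons s929 (.cons a215 (.cons (t1 7 22 45) (.cons (t3 11 23 49) (.cons s376 (.cons s784 .nil))))))))))))))))))))))))))))))))) (by decide +kernel)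
theorem s1137 : Valid A [1340, 4698, 2778, 2735, 933, 3164, 2275, 1372, 917, 1072, 2269, 944, 1066, 655, 968, 938, 3170, 942, 994] := rup _
  (.cons s1115 (.cons (t1 7 18 36) (.cons (t1 7 18 23) (.cons a483 (.cons (t2 7 10 18) (.cons (t3 3 17 49) (.cons a514 (.cons (t1 7 10 49) (.cons a189 (.cons s38 (.cons (t1 10 18 30) (.cons a162 (.cons a468 (.cons s101 (.cons (t2 30 34 49) (.cons (t3 30 46 49) (.cons (t3 17 34 49) (.cons (t3 34 46 49) (.cons (t1 30 46 48) (.cons s1136 (.cons (t3 23 46 49) (.cons a193 (.cons (t1 23 36 46) (.cons (t1 23 36 49) (.cons (t2 23 24 36) (.cons (t2 30 36 46) (.cons s1035 (.cons s609 (.cons s150 (.cons a64 (.cons (t3 3 24 36) (.cons (t1 7 10 33) (.cons (t2 3 7 33) (.cons a391 (.cons a52 (.cons (t1 30 33 36) .nil)))))))))))))))))))))))))))))))))))) (by decide +kernel)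
theorem s1138 : Valid A [987, 993, 475, 2219, 456, 950, 962, 2778, 934, 2761] := rup _
  (.cons s1115 (.cons (t3 3 7 45) (.cons (t3 7 19 45) (.cons s1026 (.cons (t2 3 7 27) (.cons a341 (.cons (t3 21 34 36) (.cons a36 (.cons (t3 17 19 21) (.cons (t1 19 21 34) (.cons (t2 17 19 27) (.cons a157 .nil)))))))))))) (by decide +kernel)
theorem s1139 : Valid A [3037, 962, 3004, 957, 2778, 3017, 934, 5987, 3170, 2761, 1070, 913, 994] := rup _
  (.cons s1115 (.cons s1132 (.cons s429 (.cons (t2 7 8 50) (.cons s768 (.cons (t3 21 23 36) (.cons (t1 21 23 45) (.cons (t1 21 36 45) (.cons a506 (.cons s454 (.cons (t3 3 17 46) (.cons (t1 7 8 24) (.cons a204 (.cons s1130 (.cons a207 (.cons (t2 5 7 49) (.cons (t1 7 8 21) (.cons (t3 7 21 36) (.cons (t2 7 8 23) (.cons a194 (.cons (t2 23 36 46) (.cons (t1 21 23 46) (.cons (t1 23 46 49) (.cons (t2 21 23 24) (.cons (t1 3 36 46) (.cons (t1 36 46 49) (.cons (t3 17 21 46) (.cons (t1 3 21 46) (.cons (t1 21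 46 49) (.cons s202 (.cons a480 (.cons a60 (.cons (t1 17 21 29) (.cons (t2 21 29 49) (.cons (t2 23 48 49) (.cons a140 (.cons a520 (.cons (t3 22 29 49) (.cons (t1 7 8 48) (.cons s1138 (.cons s199 (.cons s297 (.cons (t1 7 30 45) (.cons s177 (.cons (t2 5 7 11) (.cons s716 (.cons a215 (.cons (t1 7 22 45) (.cons (t3 11 23 49) (.cons s376 (.cons s784 .nil))))))))))))))))))))))))))))))))))))))))))))))))))) (by decide +kernel)
theorem s1140 : Valid A [933, 917, 3170, 2761, 1070, 913, 994] := rup _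
  (.cons s1132 (.cons a186 (.cons s792 (.cons a403 (.cons a514 (.cons (t1 7 10 49) (.cons (t1 7 10 46) (.cons a189 (.cons s454 (.cons (t3 17 24 46) (.cons (t2 7 8 23) (.cons (t1 7 10 23) (.cons s38 (.cons (t1 7 8 24) (.cons a204 (.cons s1130 (.cons a207 (.cons (t2 5 7 49) (.cons (t1 7 8 21) (.cons (t3 7 21 36) (.cons a346 (.cons (t1 7 18 36) (.cons (t1 7 18 23) (.cons (t2 7 10 18) (.cons a483 (.cons (t3 21 23 36) (.cons a506 (.cons s1134 (.cons (t1 21 36 45) (.cons s1137 (.cons a393 (.cons (t1 7 10 30) (.cons (t3 10 23 30) (.cons (t2 7 10 33) (.cons s429 (.cons (t2 7 8 50) (.cons a429 (.cons a330 (.cons s1139 (.cons (t3 23 46 49) (.cons a193 (.cons (t1 23 36 49) (.cons (t1 21 23 24) (.cons s498 (.cons s1035 (.cons a142 (.cons (t1 7 8 48) (.cons s3 (.cons (t1 7 8 29) (.cons a520 (.cons (t1 0 7 8) (.cons s88 (.cons (t2 23 24 48) (.cons s784 (.cons (t1 23 24 34) (.cons a45 (.cons (t3 11 23 36) (.cons a168 (.cons (t1 3 21 24) (.cons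 a64 (.cons s543 (.cons (t2 34 38 49) (.cons (t1 3 7 10) (.cons (t1 3 7 29) (.cons (t2 3 10 11) (.cons (t2 3 11 29) (.cons a158 (.cons (t2 10 11 38) (.cons a133 .nil))))))))))))))))))))))))))))))))))))))))))))))))))))))))))))))))))))) (by decide +kernel)
theorem s1141 : Valid A [2786, 2992, 426, 5987, 3170, 2761, 1070, 913, 994] := rup _
  (.cons s1132 (.cons s1130 (.cons (t3 7 21 36) (.cons (t1 21 36 49) (.cons s1053 (.cons s1035 (.cons (t3 3 21 24) (.cons s1036 .nil)))))))) (by decide +kernel)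
theorem s1142 : Valid A [3037, 2779, 917, 3170, 2761, 1070, 913, 994] := rup _
  (.cons a204 (.cons (t3 5 21 45) (.cons s177 (.cons (t1 21 45 51) (.cons (t2 21 36 45) (.cons a380 (.cons (t1 11 21 45) (.cons s1130 (.cons (t1 7 10 21) (.cons (t3 10 21 45) (.cons a63 (.cons (t1 7 10 49) (.cons a186 (.cons (t1 7 10 46) (.cons a189 (.cons a207 (.cons (t2 5 7 49) (.cons a194 (.cons (t1 23 46 49) (.cons s1141 (.cons (t3 21 23 49) (.cons (t3 11 21 49) (.cons a506 (.cons (t2 21 23 45) (.cons (t2 21 23 51) (.cons a215 (.cons (t3 0 23 49) (.cons a496 (.cons (t2 5 7 11) (.cons (t3 22 23 45) (.cons (t3 22 23 49) (.cons a384 (.cons a395 (.cons a491 (.cons (t3 0 7 10) (.cons (t3 0 10 22) .nil)))))))))))))))))))))))))))))))))))) (by decide +kernel)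
theorem s1143 : Valid A [2734, 2993, 1370, 2779, 3164, 1326, 1072, 2269, 1066, 2761] := rup _
  (.cons a204 (.cons (t3 5 21 45) (.cons s177 (.cons (t1 21 45 51) (.cons (t3 21 23 36) (.cons (t3 21 23 51) (.cons (t3 21 23 24) (.cons (t1 23 24 36) (.cons s929 (.cons s202 (.cons s340 (.cons a177 (.cons (t3 21 22 45) (.cons (t2 21 29 36) (.cons (t3 17 21 46) (.cons (t3 17 36 46) (.cons (t1 17 21 22) (.cons (t3 17 29 36) (.cons a141 .nil))))))))))))))))))) (by decide +kernel)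
theorem s1144 : Valid A [1340, 941, 6247, 917, 998] := rup _
  (.cons s38 (.cons (t2 7 10 30) (.cons a162 (.cons s101 (.cons (t3 30 48 51) (.cons s169 .nil)))))) (by decide +kernel)
theorem s1145 : Valid A [1341, 1316, 2402, 1378] := rup _
  (.cons (t1 10 30 49) (.cons (t3 10 18 30) (.cons a468 .nil))) (by decide +kernel)
theorem s1146 : Valid A [2779, 917, 3170, 2761, 1070, 913, 994] := rup _
  (.cons (t1 7 10 49) (.cons s1132 (.cons a186 (.cons s792 (.cons a403 (.cons a514 (.cons s1140 (.cons (t1 7 10 18) (.cons s1145 (.cons (t1 7 10 46) (.cons a189 (.cons s454 (.cons (t3 17 24 46) (.cons s1130 (.cons (t1 7 10 21) (.cons (t2 7 8 23) (.cons (t1 7 10 23) (.cons (t1 7 8 24) (.cons a204 (.cons a207 (.cons s22 (.cons (t1 7 8 21) (.cons (t3 7 21 36) (.cons a63 (.cons (t3 5 21 45) (.cons (t3 10 21 45) (.cons s1142 (.cons s177 (.cons (t3 23 46 49) (.cons a193 (.cons (t1 21 45 51) (.cons s1143 (.cons (t2 21 23 36) (.cons (t2 21 23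 45) (.cons (t3 3 21 23) (.cons (t2 21 23 51) (.cons (t1 23 36 49) (.cons (t3 3 23 24) (.cons a496 (.cons (t2 23 24 51) (.cons s1035 (.cons s145 (.cons (t3 22 23 45) (.cons (t2 24 48 51) (.cons a395 (.cons s1144 (.cons (t1 7 10 22) .nil))))))))))))))))))))))))))))))))))))))))))))))) (by decide +kernel)
theorem s1147 : Valid A [2786, 2992, 917, 3170, 2761, 1070, 913, 994] := rup _
  (.cons s1115 (.cons (t1 7 10 49) (.cons s1132 (.cons a186 (.cons s792 (.cons a403 (.cons a514 (.cons s1140 (.cons (t1 7 10 18) (.cons s1145 (.cons (t3 3 17 49) (.cons (t1 7 10 46) (.cons a189 (.cons s38 (.cons s1130 (.cons (t3 7 21 36) (.cons (t1 21 36 49) (.cons s1053 (.cons s1141 (.cons s1035 (.cons (t1 3 21 36) (.cons (t1 3 21 24) (.cons s150 (.cons a54 (.cons a46 (.cons (t1 7 10 33) (.cons (t1 3 24 33) (.cons s211 (.cons s370 (.cons (t3 24 33 34) (.cons s106 (.cons a168 .nil)))))))))))))))))))))))))))))))) (by decide +kernel)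
theorem s1148 : Valid A [2792, 5474, 1492, 1454, 2735, 2787] := rup _
  (.cons (t1 21 49 52) (.cons (t1 21 23 52) (.cons a234 (.cons a238 (.cons (t3 11 42 52) .nil))))) (by decide +kernel)
theorem s1149 : Valid A [1371, 90, 2732, 3017, 426, 2735, 2787, 2778, 1045, 917, 938, 2761, 942] := rup _
  (.cons a506 (.cons a500 (.cons (t1 21 36 45) (.cons a397 (.cons (t1 7 10 45) (.cons (t1 8 10 45) (.cons (t2 7 10 22) (.cons (t1 0 7 45) (.cons a357 (.cons a359 (.cons s784 (.cons (t3 11 23 36) (.cons a379 (.cons s543 (.cons (t3 8 11 45) (.cons (t2 11 42 45) (.cons a41 (.cons (t2 8 11 12) (.cons a360 (.cons (t1 12 42 49) (.cons s1148 (.cons (t3 7 21 52) (.cons (t3 21 22 52) (.cons a226 .nil)))))))))))))))))))))))) (by decide +kernel)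
theorem s1150 : Valid A [2906, 45, 2732, 3017, 426, 2735, 2787, 2778, 1045, 917, 938, 2761, 942] := rup _
  (.cons (t1 21 36 45) (.cons a204 (.cons a207 (.cons (t1 5 7 10) (.cons (t3 7 21 36) (.cons (t1 7 10 36) (.cons (t2 0 22 45) (.cons s1149 (.cons (t2 5 10 45) (.cons s583 (.cons s177 .nil))))))))))) (by decide +kernel)
theorem s1151 : Valid A [3037, 917, 3170, 2761, 1070, 913, 994] := rup _
  (.cons s1115 (.cons s1146 (.cons (t1 21 36 45) (.cons s1132 (.cons a186 (.cons s792 (.cons a403 (.cons (t3 3 17 49) (.cons (t1 7 10 49) (.cons (t1 7 10 46) (.cons a189 (.cons (t2 7 8 10) (.cons (t1 7 8 24) (.cons a204 (.cons s1130 (.cons a207 (.cons (t2 5 7 49) (.cons (t1 7 8 21) (.cons (t3 7 21 36) (.cons (t2 7 8 23) (.cons a194 (.cons (t1 23 46 49) (.cons s1147 (.cons (t2 21 24 49) (.cons (t2 21 36 49) (.cons (t3 21 23 49) (.cons (t3 17 21 49) (.cons (t1 3 21 49) (.cons s202 (.cons (t3 23 36 49) (.cons a506 (.cons (t1 17 21 29) (.cons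 (t2 21 29 49) (.cons (t3 0 23 49) (.cons a140 (.cons (t2 21 22 29) (.cons (t3 22 29 49) (.cons a491 (.cons s1150 (.cons a396 (.cons (t1 0 22 45) (.cons (t2 7 10 45) (.cons (t2 0 7 45) (.cons s297 (.cons s784 (.cons (t2 5 7 11) (.cons (t3 11 23 49) (.cons a215 .nil)))))))))))))))))))))))))))))))))))))))))))))))) (by decide +kernel)
theorem s1152 : Valid A [3939, 6375, 5474, 980, 2865, 940, 3811, 3130, 2787] := rup _
  (.cons (t3 21 30 49) (.cons (t3 29 30 49) (.cons (t1 30 49 51) (.cons a223 (.cons a466 (.cons (t1 21 49 52) (.cons (t2 29 30 32) (.cons a234 (.cons a149 (.cons (t3 7 42 52) (.cons (t1 22 24 32) (.cons a226 (.cons a366 (.cons (t3 22 42 52) .nil)))))))))))))) (by decide +kernel)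
theorem s1153 : Valid A [2734, 2993, 3042, 2778, 700, 5987, 3164, 2275, 1072, 2269, 657, 738, 1066, 938, 3170, 2761, 942, 1070] := rup _
  (.cons s1115 (.cons (t1 21 36 45) (.cons (t3 3 17 46) (.cons a204 (.cons a207 (.cons (t3 7 21 36) (.cons (t3 21 23 36) (.cons s321 (.cons s294 (.cons (t3 21 23 24) (.cons (t1 23 24 36) (.cons s9 (.cons s202 (.cons s340 (.cons s1053 (.cons a177 (.cons (t1 23 24 29) (.cons (t2 21 29 36) (.cons (t3 7 21 29) (.cons (t2 21 29 49) (.cons (t1 3 21 46) (.cons a500 (.cons (t2 21 36 49) (.cons (t3 17 36 46) (.cons (t3 17 29 36) (.cons s474 (.cons (t1 12 36 49) (.cons a140 (.cons (t1 11 21 29) (.cons (t3 11 29 49) (.cons (t1 11 17 29) (.cons (t3 11 29 36) (.cons (t3 22 29 49) (.cons a215 (.cons a379 (.cons s543 (.cons s630 (.cons (t2 5 7 11) (.cons (t2 5 8 11) (.cons (t1 5 11 30) (.cons a41 (.cons a496 (.cons (t1 7 22 23) (.cons (t1 22 23 24) (.cons s297 (.cons (t1 8 11 45) (.cons (t2 8 11 12) (.cons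 (t1 23 24 51) (.cons a30 (.cons a357 (.cons a359 (.cons a360 (.cons (t2 11 20 45) (.cons (t2 7 42 45) (.cons (t2 11 42 45) (.cons (t1 12 42 49) (.cons (t3 12 36 42) (.cons a33 (.cons (t1 20 21 49) (.cons (t2 20 21 24) (.cons a22 (.cons (t2 20 49 51) (.cons s1152 (.cons (t2 17 30 49) (.cons s401 (.cons (t1 11 16 36) (.cons (t1 11 16 42) (.cons a353 .nil)))))))))))))))))))))))))))))))))))))))))))))))))))))))))))))))))))) (by decide +kernel)
theorem s1154 : Valid A [917, 3170, 2761, 1070, 913, 994] := rup _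
  (.cons s1132 (.cons (t1 7 8 24) (.cons s454 (.cons a204 (.cons s1130 (.cons a207 (.cons (t1 5 7 8) (.cons (t2 5 7 49) (.cons (t1 7 8 21) (.cons (t3 7 21 36) (.cons (t2 7 8 23) (.cons a186 (.cons s38 (.cons (t1 7 10 49) (.cons s792 (.cons (t1 7 10 46) (.cons (t1 5 7 10) (.cons a403 (.cons (t3 17 24 46) (.cons a189 (.cons a514 (.cons s1140 (.cons (t1 7 10 18) (.cons s1145 (.cons a162 (.cons (t2 5 10 30) (.cons s101 (.cons s1146 (.cons s1151 (.cons (t3 23 46 49) (.cons a193 (.cons s1153 (.cons (t2 21 23 36) (.cons (t1 23 36 49) (.cons (t2 23 24 36) (.cons s1035 (.cons s150 (.cons (t1 7 8 48) (.cons (t1 7 10 33) (.cons a520 (.cons a391 (.cons (t2 23 24 48) (.cons (t2 23 30 48) (.cons (t3 23 30 33) (.cons a45 (.cons (t1 23 24 33) (.cons (t3 23 33 36) (.cons (t3 3 24 36) (.cons s141 (.cons a52 .nil)))))))))))))))))))))))))))))))))))))))))))))))))) (by decide +kernel)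
theorem s1155 : Valid A [3037, 1327, 2269, 3170] := rup _
  (.cons a195 (.cons (t1 10 23 46) (.cons s160 (.cons a191 .nil)))) (by decide +kernel)
theorem s1156 : Valid A [962, 935, 5987, 916, 944, 3170, 1070, 913, 994] := rup _
  (.cons s43 (.cons a190 (.cons (t1 7 8 10) (.cons a399 (.cons a186 (.cons (t1 7 8 33) (.cons s429 (.cons (t2 7 8 50) (.cons a429 (.cons s768 (.cons a330 (.cons (t3 10 49 50) (.cons (t1 7 19 27) (.cons (t1 38 46 49) (.cons a154 (.cons s128 (.cons (t3 10 27 34) (.cons s65 (.cons (t1 10 34 50) (.cons (t1 10 27 49) (.cons (t1 10 23 48) (.cons s877 (.cons a520 (.cons a109 (.cons (t3 8 33 48) (.cons s712 (.cons s176 (.cons (t2 33 34 50) .nil)))))))))))))))))))))))))))) (by decide +kernel)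
theorem s1157 : Valid A [2779, 1696, 807, 801, 865, 2472, 936, 993, 2787, 938] := rup _
  (.cons a504 (.cons (t3 7 21 45) (.cons (t2 21 45 49) (.cons (t3 13 21 45) (.cons a80 (.cons a85 (.cons (t1 2 7 48) (.cons a29 (.cons (t1 13 20 45) (.cons (t3 2 6 48) (.cons a74 (.cons (t1 6 16 52) (.cons (t1 6 19 52) (.cons a220 (.cons a14 (.cons (t3 13 20 52) .nil)))))))))))))))) (by decide +kernel)
theorem s1158 : Valid A [2734, 5987, 3170, 2761, 1070, 913, 994] := rup _
  (.cons s1154 (.cons (t1 7 8 10) (.cons a399 (.cons a204 (.cons s1130 (.cons a207 (.cons (t2 5 7 10) (.cons (t2 5 7 49) (.cons a190 (.cons s133 (.cons (t3 10 11 23) (.cons s1132 (.cons s454 (.cons s1155 (.cons (t1 24 46 49) (.cons a193 (.cons (t3 23 46 49) (.cons (t1 17 46 49) (.cons (t2 10 23 46) (.cons (t1 10 17 46) (.cons s162 (.cons (t2 7 8 17) (.cons (t1 7 8 24) (.cons (t1 5 7 8) (.cons s22 (.cons (t1 7 8 21) (.cons (t2 7 8 23) (.cons a186 (.cons (t3 21 23 36)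 (.cons s321 (.cons s294 (.cons (t3 21 23 24) (.cons (t1 23 24 36) (.cons (t2 0 11 23) (.cons s202 (.cons s1053 (.cons a177 (.cons a383 (.cons (t2 21 29 36) (.cons (t2 21 29 49) (.cons a503 (.cons (t2 21 36 49) (.cons s78 (.cons (t3 17 36 46) (.cons (t2 7 8 11) (.cons (t1 7 11 17) (.cons (t3 17 29 36) (.cons (t1 13 36 49) (.cons a480 (.cons a483 (.cons a140 (.cons (t2 46 48 49) (.cons (t1 7 18 23) (.cons (t3 10 18 23) (.cons (t3 22 29 49) (.cons a350 (.cons s630 (.cons a345 (.cons a497 (.cons (t3 10 22 23) (.cons (t1 7 19 46) (.cons (t1 5 7 19) (.cons (t2 7 11 19) (.cons s443 (.cons a214 (.cons (t1 4 11 19) (.cons s1156 (.cons s150 (.cons (t3 7 24 33) (.cons (t2 7 33 48) (.cons s1027 (.cons (t3 7 18 48) (.cons (t2 7 11 48) (.cons (t2 7 19 48) (.cons a163 (.cons (t3 5 10 30) (.cons (t3 10 17 30) (.cons (t3 10 11 30) (.cons s128 (.cons s401 (.cons (t2 38 46 48) (.cons (t1 7 11 16) (.cons (t2 11 16 48) (.cons (t1 8 11 16) (.cons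 (t2 11 16 19) (.cons (t3 4 11 16) (.cons s166 (.cons a26 (.cons (t1 9 33 48) (.cons (t1 9 16 48) (.cons (t2 7 16 20) (.cons (t1 16 19 20) (.cons a250 (.cons a253 (.cons (t2 9 24 49) (.cons (t2 9 24 36) (.cons (t2 4 9 36) (.cons s167 (.cons a476 (.cons (t3 6 16 48) (.cons (t3 6 19 48) (.cons (t1 4 13 16) (.cons s1157 (.cons s1153 .nil)))))))))))))))))))))))))))))))))))))))))))))))))))))))))))))))))))))))))))))))))))))))))))))))))))))))) (by decide +kernel)
theorem s1159 : Valid A [5987, 3170, 2761, 1070, 913, 994] := rup _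
  (.cons s1132 (.cons s454 (.cons s1154 (.cons (t1 7 8 10) (.cons a399 (.cons s1155 (.cons s1130 (.cons (t3 7 21 36) (.cons s80 (.cons (t1 24 46 49) (.cons (t3 23 46 49) (.cons a193 (.cons (t1 10 23 24) (.cons s1158 (.cons (t2 21 23 36) (.cons a484 (.cons (t1 23 36 49) (.cons (t2 23 24 36) (.cons (t2 10 18 23) (.cons s1035 (.cons s150 (.cons (t1 7 8 48) (.cons s429 (.cons a520 (.cons (t2 7 8 50) (.cons s88 (.cons (t2 23 24 48) (.cons (t1 23 48 49) (.cons a429 (.cons (t1 23 24 34) (.cons (t2 10 23 34) (.cons a45 (.cons a330 (.cons a168 (.cons a64 (.cons (t3 3 24 36) (.cons (t2 34 38 49) (.cons (t2 3 7 33) (.cons a158 (.cons a52 (.cons (t2 10 24 38) (.cons (t3 10 18 38) (.cons (t2 33 36 49) (.cons (t3 24 33 36) (.cons s148 (.cons a251 (.cons a304 (.cons (t3 9 24 48) (.cons (t3 9 24 38) (.cons (t2 6 18 49) (.cons (t2 6 48 49) (.cons a265 (.cons (t1 6 9 18) (.cons a261 .nil))))))))))))))))))))))))))))))))))))))))))))))))))))))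 (by decide +kernel)
theorem s1160 : Valid A [3170, 2761, 994, 1070, 913] := rup _
  (.cons s1115 (.cons s1130 (.cons (t3 7 21 36) (.cons s1132 (.cons s454 (.cons (t3 3 17 46) (.cons s1159 (.cons s160 (.cons (t2 17 46 49) (.cons a196 (.cons (t1 3 24 46) (.cons s563 (.cons s1036 (.cons s1035 .nil)))))))))))))) (by decide +kernel)
theorem s1161 : Valid A [939, 2785, 962, 452, 456, 2761] := rup _
  (.cons (t1 7 21 36) (.cons (t1 7 21 33) (.cons (t3 7 33 36) (.cons (t3 21 33 48) (.cons a52 (.cons s176 (.cons (t1 3 33 34) .nil))))))) (by decide +kernel)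
theorem s1162 : Valid A [917, 3171, 2761, 913, 994] := rup _
  (.cons s1115 (.cons (t1 7 8 49) (.cons (t1 8 24 49) (.cons (t1 7 24 49) (.cons a404 (.cons a171 (.cons a169 (.cons a204 (.cons a186 (.cons s38 (.cons (t1 7 10 49) (.cons (t1 7 10 24) (.cons (t1 7 10 46) (.cons a189 (.cons s988 (.cons s80 (.cons (t3 24 46 49) (.cons (t1 17 46 49) (.cons (t1 34 46 49) (.cons (t3 24 38 49) (.cons (t3 24 38 46) (.cons a513 (.cons a178 (.cons s874 (.cons s1093 (.cons (t3 24 36 49) (.cons (t2 21 24 36) (.cons s40 (.cons (t1 3 7 17) (.cons (t2 7 10 17) (.cons (t1 7 17 18) (.cons a64 (.cons (t1 10 17 30) (.cons a346 (.cons a348 (.cons a45 (.cons (t2 3 21 24) (.cons (t2 3 24 36) (.cons (t2 3 24 34) (.cons a393 (.cons (t1 7 17 19) (.cons (t3 24 48 49) (.cons (t2 7 10 33) (.cons a479 (.cons s429 (.cons s103 (.cons (t1 21 36 48) (.cons (t2 7 8 50) (.cons (t2 21 34 36) (.cons a429 (.cons (t1 24 49 50) (.cons a314 (.cons (t2 3 24 27) (.cons a36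 (.cons (t1 17 27 34) (.cons (t3 17 19 27) (.cons a154 (.cons (t2 19 34 46) (.cons (t1 3 19 34) (.cons (t2 19 21 34) (.cons s443 (.cons a173 (.cons s444 (.cons (t2 7 18 38) (.cons (t3 19 21 38) (.cons (t2 21 36 45) (.cons a380 (.cons (t1 11 21 45) (.cons s1161 (.cons a207 (.cons (t1 7 8 21) (.cons (t2 5 7 49) (.cons (t2 5 7 38) (.cons s202 (.cons s472 (.cons (t1 21 29 38) (.cons (t3 11 21 29) (.cons a130 .nil)))))))))))))))))))))))))))))))))))))))))))))))))))))))))))))))))))))))))))))) (by decide +kernel)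
theorem s1163 : Valid A [939, 2785, 422, 1340, 452, 456, 426, 934, 2786, 931, 3042, 916, 3171, 2761, 942, 913] := rup _
  (.cons a204 (.cons (t1 7 21 23) (.cons (t2 7 8 21) (.cons (t2 7 17 21) (.cons (t3 7 19 21) (.cons s1161 (.cons a143 (.cons s444 (.cons s183 (.cons s377 (.cons (t2 17 21 29) (.cons (t3 5 21 45) (.cons (t1 7 21 45) (.cons (t3 21 23 45) (.cons (t1 17 21 45) (.cons (t1 23 29 49) (.cons s177 (.cons (t1 7 45 51) (.cons (t3 23 45 51) (.cons (t1 17 45 51) (.cons (t2 7 30 51) (.cons a473 (.cons a495 (.cons (t2 17 22 51) (.cons (t2 22 23 29) (.cons a138 .nil)))))))))))))))))))))))))) (by decide +kernel)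
theorem s1164 : Valid A [5987, 916, 944, 3171, 2761, 1070, 1122, 913] := rup _
  (.cons s1115 (.cons (t1 7 8 10) (.cons a399 (.cons a404 (.cons a171 (.cons a169 (.cons (t2 7 8 23) (.cons a186 (.cons a190 (.cons a191 (.cons s80 (.cons (t3 24 46 49) (.cons (t1 17 46 49) (.cons (t1 10 24 49) (.cons (t1 10 23 49) (.cons (t1 10 23 46) (.cons a513 (.cons a178 (.cons s1093 (.cons (t3 24 36 49) (.cons (t2 21 24 36) (.cons (t1 3 7 17) (.cons (t1 7 17 23) (.cons (t3 7 10 17) (.cons (t1 7 17 18) (.cons (t2 21 36 49) (.cons a64 (.cons (t1 17 18 23) (.cons (t3 10 17 18) (.cons a346 (.cons a348 (.cons a45 (.cons (t2 3 21 24) (.cons (t2 3 24 36) (.cons (t2 3 10 24) (.cons (t2 3 24 34) (.cons s1145 (.cons a349 (.cons (t3 24 48 49) (.cons (t1 24 46 48) (.cons (t3 3 10 19) (.cons a479 (.cons (t1 21 36 48) (.cons s1163 (.cons (t3 7 21 36) (.cons (t3 7 21 48) (.cons (t1 7 17 36) (.cons s144 (.cons s1024 (.cons s88 (.cons a468 (.cons (t2 10 23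 34) (.cons s129 .nil))))))))))))))))))))))))))))))))))))))))))))))))))))) (by decide +kernel)
theorem s1165 : Valid A [939, 3164, 944, 2761, 988] := rup _
  (.cons (t1 7 21 46) (.cons (t1 7 21 24) (.cons s340 .nil))) (by decide +kernel)
theorem s1166 : Valid A [433, 3918, 3132, 3150] := rup _
  (.cons (t2 3 24 39) (.cons (t2 3 24 30) (.cons a48 .nil))) (by decide +kernel)
theorem s1167 : Valid A [2779, 2732, 2914, 1379, 2786] := rup _
  (.cons (t1 21 45 49) (.cons (t3 21 22 45) (.cons s354 .nil))) (by decide +kernel)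
theorem s1168 : Valid A [1340, 4430, 3150, 3805, 2747, 3138, 992, 2786, 938, 916, 944, 3171, 2761, 1070, 913] := rup _
  (.cons s1115 (.cons (t1 7 8 10) (.cons a399 (.cons (t1 7 8 48) (.cons a520 (.cons s88 (.cons (t2 10 23 34) (.cons s150 (.cons s141 (.cons a204 (.cons a207 (.cons s22 (.cons (t3 7 21 36) (.cons a171 (.cons (t1 10 23 30) (.cons a162 (.cons (t1 24 30 34) (.cons (t2 30 34 39) (.cons s1166 (.cons (t3 3 24 49) (.cons a64 (.cons s1036 (.cons (t2 3 7 21) (.cons (t1 3 7 17) (.cons (t2 3 7 36) (.cons (t2 3 7 51) (.cons (t2 3 7 10) (.cons (t1 23 24 49) (.cons (t1 10 23 24) (.cons s498 (.cons s1093 (.cons a52 (.cons (t1 10 23 49) (.cons (t1 0 23 49) (.cons (t2 10 24 33) (.cons (t3 17 29 46) (.cons (t3 21 33 36) (.cons a492 (.cons a391 (.cons a140 (.cons (t1 22 23 49) (.cons (t3 21 30 33) (.cons (t2 21 22 29) (.cons s1167 (.cons a60 (.cons (t1 21 30 45) (.cons (t1 3 45 49) (.cons (t3 3 10 45) (.cons (t1 3 45 51) (.cons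 s354 (.cons s264 (.cons (t2 22 45 51) (.cons a495 .nil))))))))))))))))))))))))))))))))))))))))))))))))))))) (by decide +kernel)
theorem s1169 : Valid A [4297, 3010, 3005, 4701, 3164, 3171] := rup _
  (.cons s78 (.cons (t1 33 36 46) (.cons (t3 23 33 36) (.cons (t3 23 33 46) (.cons a483 (.cons a193 (.cons (t1 18 23 24) (.cons (t1 18 23 30) (.cons (t1 18 24 49) (.cons a471 .nil)))))))))) (by decide +kernel)
theorem s1170 : Valid A [4706, 2761, 1070, 913, 994] := rup _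
  (.cons a186 (.cons s1160 (.cons (t1 7 24 49) (.cons (t1 7 8 49) (.cons s1162 (.cons s1164 (.cons (t2 24 46 49) (.cons s1165 (.cons (t1 7 8 21) (.cons (t3 7 21 36) (.cons (t1 7 8 10) (.cons a399 (.cons (t1 8 24 49) (.cons a171 (.cons (t2 24 36 49) (.cons (t2 21 36 49) (.cons s140 (.cons s1037 (.cons (t2 21 24 36) (.cons s413 (.cons (t1 21 36 46) (.cons s150 (.cons s202 (.cons (t3 24 33 49) (.cons s141 (.cons (t1 7 8 33) (.cons s429 (.cons (t2 21 29 46) (.cons s148 (.cons (t2 7 8 50) (.cons a304 (.cons a429 (.cons (t3 6 24 49) (.cons (t1 24 49 50) (.cons (t3 33 49 50) (.cons a301 (.cons a314 (.cons s712 (.cons (t3 24 27 49) (.cons a109 (.cons (t1 7 15 24) (.cons s877 (.cons (t2 7 15 27) (.cons a318 (.cons a319 (.cons (t1 14 15 27) (.cons a92 (.cons (t2 14 24 39) (.cons a439 (.cons s54 (.cons s1168 (.cons a393 (.cons (t2 10 23 30) (.cons (t1 10 23 33) (.cons s1169 (.cons a52 (.cons (t2 3 7 36) (.cons (t2 3 24 36) (.cons a64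 .nil))))))))))))))))))))))))))))))))))))))))))))))))))))))))))) (by decide +kernel)
theorem s1171 : Valid A [456, 2778, 1574, 2531, 678, 2524, 2748, 1454, 1373, 2992, 1340, 3168, 4424, 2787, 3145, 655, 916, 944, 2761, 1070, 913] := rup _
  (.cons (t1 7 8 10) (.cons a399 (.cons (t1 10 23 30) (.cons (t1 3 21 36) (.cons (t1 3 24 36) (.cons a60 (.cons a64 (.cons s1036 (.cons a44 (.cons (t2 3 45 48) (.cons (t1 3 7 8) (.cons (t2 7 8 48) (.cons (t1 5 7 48) (.cons s1026 (.cons (t3 5 45 48) (.cons (t3 8 45 48) (.cons s51 (.cons (t3 7 10 33) (.cons s183 (.cons a357 (.cons a359 (.cons s370 (.cons (t2 7 8 30) (.cons (t2 5 42 45) (.cons a160 (.cons (t2 10 34 46) (.cons (t3 34 38 46) (.cons a173 (.cons (t2 19 38 49) (.cons (t3 5 19 38) (.cons (t3 12 19 38) (.cons a198 (.cons (t3 12 38 42) (.cons (t2 38 42 49) (.cons a360 (.cons a235 (.cons (t1 3 8 12) (.cons (t2 8 12 30) (.cons (t2 21 49 52) (.cons a43 (.cons (t3 11 12 30) (.cons a222 (.cons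 s231 .nil))))))))))))))))))))))))))))))))))))))))))) (by decide +kernel)
theorem s1172 : Valid A [963, 993, 3138, 433, 1318, 3132, 2353, 2403, 1316, 1373, 1340, 916, 3171, 994] := rup _
  (.cons a349 (.cons (t2 18 19 49) (.cons (t3 10 19 46) (.cons (t1 7 24 49) (.cons a112 (.cons a447 (.cons a448 (.cons s51 (.cons (t2 7 33 48) (.cons (t3 7 10 33) (.cons s183 (.cons (t1 7 30 41) (.cons a95 (.cons s370 (.cons a160 (.cons (t2 10 34 46) (.cons (t3 34 38 46) (.cons a173 (.cons (t1 18 19 38) (.cons (t2 19 38 49) (.cons a266 (.cons a330 (.cons (t3 9 18 24) (.cons a429 (.cons a250 (.cons (t1 9 33 48) (.cons a262 (.cons (t1 6 7 48) (.cons a304 (.cons (t3 6 24 49) (.cons a301 (.cons (t3 24 39 49) (.cons s1166 (.cons (t1 30 39 41) (.cons a442 (.cons (t1 15 41 49) (.cons a114 (.cons (t2 24 27 49) (.cons (t2 18 27 49) (.cons s180 (.cons s192 (.cons s48 .nil)))))))))))))))))))))))))))))))))))))))))) (by decide +kernel)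
theorem s1173 : Valid A [962, 4322, 2531, 2500, 3171, 913, 994] := rup _
  (.cons (t1 7 8 33) (.cons s429 (.cons (t2 7 8 50) (.cons a429 (.cons (t1 24 49 50) (.cons (t3 33 49 50) (.cons (t1 19 49 50) (.cons a314 (.cons a316 (.cons s712 (.cons (t2 19 27 50) (.cons (t3 24 27 49) (.cons a109 (.cons a154 (.cons s877 (.cons s48 .nil)))))))))))))))) (by decide +kernel)
theorem s1174 : Valid A [2992, 1340, 2761, 1070, 913, 994] := rup _
  (.cons s1170 (.cons (t1 21 36 49) (.cons a500 (.cons (t1 12 36 49) (.cons s1160 (.cons a480 (.cons (t2 24 48 49) (.cons a404 (.cons (t1 17 36 49) (.cons a169 (.cons (t1 34 36 49) (.cons (t3 24 36 49) (.cons s1162 (.cons a204 (.cons a186 (.cons (t1 7 24 49) (.cons (t1 7 8 49) (.cons s1164 (.cons (t2 24 46 49) (.cons s1165 (.cons a207 (.cons (t2 5 7 10) (.cons (t2 5 7 49) (.cons (t3 7 21 36) (.cons (t1 7 8 10) (.cons a399 (.cons a206 (.cons (t3 23 24 49) (.cons a193 (.cons (t3 23 24 36) (.cons (t2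 10 23 49) (.cons s74 (.cons (t1 10 23 46) (.cons s142 (.cons s133 (.cons (t2 10 18 23) (.cons s1024 (.cons (t1 18 36 49) (.cons (t1 7 18 36) (.cons (t3 18 24 36) (.cons (t3 18 21 36) (.cons (t1 5 18 36) (.cons (t2 18 34 36) (.cons (t1 12 18 36) (.cons (t3 10 11 23) (.cons (t2 24 30 49) (.cons (t2 21 30 49) (.cons s193 (.cons (t3 10 19 46) (.cons a349 (.cons (t2 18 19 21) (.cons (t3 5 18 19) (.cons (t1 18 19 34) (.cons (t2 18 19 49) (.cons (t3 12 18 19) (.cons a344 (.cons s1171 (.cons a54 (.cons (t3 3 24 36) (.cons (t1 3 36 49) (.cons (t1 3 24 33) (.cons (t3 3 33 49) (.cons s1173 (.cons s150 (.cons s1172 .nil))))))))))))))))))))))))))))))))))))))))))))))))))))))))))))))))) (by decide +kernel)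
theorem s1175 : Valid A [1340, 2761, 1070, 913, 994] := rup _
  (.cons s1160 (.cons s1170 (.cons (t3 24 36 49) (.cons (t1 7 8 49) (.cons (t1 7 24 49) (.cons s1162 (.cons s1164 (.cons (t1 7 8 10) (.cons a399 (.cons a404 (.cons a171 (.cons (t1 10 23 30) (.cons s1174 (.cons (t1 23 24 49) (.cons (t1 10 23 24) (.cons (t1 23 24 36) (.cons (t3 23 30 49) (.cons (t2 10 24 34) (.cons a484 (.cons a162 (.cons (t3 18 23 49) (.cons s50 (.cons s138 (.cons a513 (.cons a468 (.cons s1093 (.cons (t1 7 18 30) (.cons (t1 7 17 18) .nil)))))))))))))))))))))))))))) (by decide +kernel)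
theorem s1176 : Valid A [2992, 1348, 4707, 5986, 1327, 3171, 2761, 913, 994] := rup _
  (.cons s37 (.cons a186 (.cons (t1 7 24 49) (.cons (t2 24 46 49) (.cons s1165 (.cons (t1 7 8 21) (.cons (t3 24 36 49) (.cons (t3 21 24 36) (.cons a137 (.cons a142 (.cons (t1 8 29 34) (.cons (t1 7 8 29) (.cons s1162 (.cons (t1 7 8 10) (.cons (t3 8 10 29) (.cons a169 (.cons (t1 34 36 49) (.cons a204 (.cons a207 (.cons (t2 5 7 10) (.cons (t2 5 7 49) (.cons (t3 7 21 36) (.cons a171 (.cons (t3 23 24 49) (.cons a193 (.cons (t2 10 23 24) (.cons (t3 23 24 36) (.cons (t2 10 23 49) (.cons s74 (.cons (t1 10 23 46) (.cons s988 (.cons s142 (.cons s133 (.cons (t2 10 18 23) (.cons (t3 24 38 49) (.cons (t1 18 36 49) (.cons (t1 7 18 36) (.cons (t3 18 21 36) (.cons (t2 18 34 36) (.cons (t2 18 38 49) (.cons s193 (.cons (t3 10 19 46) (.cons a349 (.cons (t2 18 19 21) (.cons (t2 18 19 36) (.cons (t1 18 19 34) (.cons (t2 18 19 49) (.cons (t1 18 19 38) (.cons a343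 (.cons (t1 19 36 45) (.cons s344 (.cons a173 (.cons a159 (.cons (t3 5 10 38) (.cons (t3 10 29 38) (.cons (t3 10 11 38) (.cons s804 (.cons a130 (.cons a429 (.cons (t3 7 11 29) (.cons (t1 24 49 50) (.cons (t1 19 49 50) (.cons s297 (.cons a316 (.cons (t2 19 27 50) (.cons (t2 7 8 45) (.cons (t1 5 7 45) (.cons (t2 7 29 45) (.cons a154 (.cons a357 (.cons (t2 27 29 34) (.cons (t2 27 34 38) (.cons (t2 29 42 45) (.cons (t2 5 42 45) (.cons a126 (.cons a198 (.cons (t3 27 38 42) .nil))))))))))))))))))))))))))))))))))))))))))))))))))))))))))))))))))))))))))))) (by decide +kernel)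
theorem s1177 : Valid A [2761, 1070, 913, 994] := rup _
  (.cons (t2 7 8 23) (.cons (t1 7 8 49) (.cons a186 (.cons a489 (.cons s1160 (.cons (t1 7 24 49) (.cons s1162 (.cons (t1 7 8 10) (.cons a399 (.cons s1164 (.cons (t2 24 46 49) (.cons s1165 (.cons (t1 7 8 21) (.cons s1170 (.cons (t3 24 36 49) (.cons (t3 21 24 36) (.cons (t2 24 28 36) (.cons a137 (.cons a142 (.cons s3 (.cons (t1 0 7 8) (.cons s1175 (.cons a163 (.cons (t2 10 23 30) (.cons s1176 (.cons (t1 10 23 24) (.cons (t2 23 24 30) (.cons (t3 21 23 24) (.cons (t3 10 21 24) (.cons (t2 10 24 28) (.cons (t1 21 24 30) (.cons a506 (.cons a223 (.cons s784 (.cons (t1 21 23 52) (.cons (t1 11 21 23) (.cons s924 .nil))))))))))))))))))))))))))))))))))))) (by decide +kernel)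
theorem s1178 : Valid A [2786, 2779, 934, 3043, 3939, 969, 938, 4706, 956, 1378, 917, 2760, 942] := rup _
  (.cons (t3 7 21 45) (.cons (t3 21 36 45) (.cons (t2 7 10 36) (.cons s994 (.cons (t1 21 23 49) (.cons s294 .nil)))))) (by decide +kernel)
theorem s1179 : Valid A [1083, 3150, 1199, 1251, 4694, 982, 329, 3048, 46, 3944, 986, 2779, 3005, 934, 3043, 1353, 969, 3145, 4706, 1045, 1070, 913, 994] := rup _
  (.cons s1177 (.cons (t3 21 36 45) (.cons (t2 7 8 23) (.cons s3 (.cons (t1 7 8 29) (.cons (t2 8 10 29) (.cons (t1 0 7 8) (.cons a147 (.cons s784 (.cons (t1 4 7 29) (.cons (t3 11 23 49) (.cons (t3 11 23 30) (.cons a238 (.cons (t2 9 11 23) (.cons a454 (.cons s753 (.cons a275 (.cons (t3 11 24 36) (.cons (t3 7 11 36) (.cons (t2 11 36 52) (.cons (t2 11 36 43) (.cons (t2 11 24 52) (.cons (t1 7 11 52) (.cons (t1 2 36 52) (.cons a243 (.cons a69 (.cons a72 (.cons (t2 9 43 44) (.cons (t2 24 44 52) (.cons (t1 6 7 52) (.cons (t1 6 24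 52) (.cons (t3 9 44 49) (.cons a269 (.cons a304 (.cons a300 (.cons (t2 6 44 49) (.cons (t1 6 39 44) .nil))))))))))))))))))))))))))))))))))))) (by decide +kernel)
theorem s1180 : Valid A [2275, 1199, 1251, 4694, 3021, 2765, 3917, 4963, 2787, 1370, 986, 2779, 3005, 420, 2353, 934, 3043, 2364, 1066, 3939, 969, 3145, 4706, 917, 1070, 913, 994] := rup _
  (.cons s1115 (.cons (t2 21 45 49) (.cons a80 (.cons a85 (.cons (t1 2 7 8) (.cons a83 (.cons (t2 7 8 43) (.cons (t1 2 7 36) (.cons (t3 21 23 49) (.cons (t3 21 30 49) (.cons a223 (.cons (t1 21 23 52) (.cons a506 (.cons a225 (.cons s1177 (.cons (t3 21 36 45) (.cons (t2 7 10 36) (.cons (t2 7 8 10) (.cons (t3 3 17 49) (.cons (t1 3 30 49) (.cons s139 (.cons (t1 18 24 39) (.cons (t3 17 21 49) (.cons s1179 (.cons a142 (.cons (t2 21 29 45) (.cons (t1 17 21 29) (.cons (t2 21 29 38) (.cons a140 (.cons a131 (.cons (t3 22 29 45) (.cons (t3 11 38 49) (.cons (t1 11 23 38) (.cons (t1 11 30 38)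 (.cons a395 (.cons a238 (.cons s753 (.cons (t1 7 10 22) (.cons (t2 10 22 36) (.cons (t2 11 36 52) (.cons a229 (.cons (t1 22 36 52) .nil)))))))))))))))))))))))))))))))))))))))))) (by decide +kernel)
theorem s1181 : Valid A [1200, 3150, 1102, 4694, 3917, 4429, 2380, 2787, 1370, 986, 2779, 3005, 420, 2353, 934, 3013, 3043, 2364, 1066, 3939, 969, 4451, 3145, 4706, 917, 1070, 913, 994] := rup _
  (.cons (t2 21 45 49) (.cons a80 (.cons a85 (.cons (t1 2 7 8) (.cons a83 (.cons (t2 7 8 43) (.cons (t1 23 34 38) (.cons (t3 21 34 49) (.cons (t1 21 34 38) (.cons (t2 34 38 49) (.cons s106 (.cons a479 (.cons (t1 7 36 48) (.cons (t1 2 7 48) (.cons (t1 2 7 36) (.cons (t3 21 23 49) (.cons (t3 21 30 49) (.cons a223 (.cons (t1 21 23 52) (.cons a506 (.cons a225 (.cons a344 (.cons (t3 19 21 34) (.cons s1177 (.cons (t3 21 36 45) (.cons (t1 7 10 19) (.cons (t1 24 36 48) (.cons (t2 7 10 36) (.cons (t1 7 10 49) (.cons a186 (.cons (t1 7 10 46) (.cons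 a189 (.cons (t2 7 8 10) (.cons (t3 9 24 48) (.cons (t1 9 18 24) (.cons a265 (.cons (t3 9 34 38) (.cons (t1 9 34 49) (.cons (t3 9 23 34) (.cons (t2 9 19 34) (.cons s1180 (.cons (t1 17 46 49) (.cons s197 (.cons s1179 (.cons (t3 9 19 39) (.cons a142 (.cons s639 (.cons (t2 21 29 38) (.cons (t3 2 6 48) (.cons a131 (.cons a73 (.cons (t3 11 38 49) (.cons (t1 11 23 38) (.cons (t1 11 30 38) (.cons (t1 2 36 52) (.cons a238 (.cons s753 (.cons (t2 11 36 52) .nil)))))))))))))))))))))))))))))))))))))))))))))))))))))))))) (by decide +kernel)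
theorem s1182 : Valid A [2779, 945, 3145, 4706, 1340, 917, 1070, 913, 994] := rup _
  (.cons a188 (.cons (t2 7 8 24) (.cons s326 (.cons s38 (.cons a162 (.cons (t1 7 10 49) (.cons a186 (.cons (t1 7 10 46) (.cons a189 (.cons s158 (.cons (t3 34 46 49) (.cons (t1 30 34 46) (.cons (t3 23 30 46) (.cons a65 (.cons (t2 7 8 23) (.cons (t1 7 24 36) (.cons s911 (.cons (t3 3 7 18) (.cons (t2 7 10 18) (.cons (t2 7 8 18) (.cons (t2 7 18 24) (.cons a348 (.cons a346 (.cons (t3 23 34 46) (.cons (t1 23 46 49) (.cons s80 (.cons (t1 18 34 49) (.cons (t1 18 30 34) (.cons s1177 (.cons (t1 21 24 36) (.cons (t2 7 21 24) (.cons (t1 7 10 21) (.cons (t2 8 21 24) (.cons (t1 8 24 36) (.cons (t1 30 34 49) (.cons (t2 7 10 30) (.cons a344 (.cons (t3 7 21 45) (.cons (t3 10 21 45) (.cons s1178 (.cons (t3 21 46 49) (.cons (t2 21 45 49) (.cons (t3 19 21 46) (.cons a80 (.cons s443 (.cons a85 (.cons (t2 10 18 38) (.cons (t1 2 7 8) (.cons a158 (.cons a83 (.cons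 (t2 34 38 49) (.cons (t1 30 34 38) (.cons (t1 8 36 43) (.cons a330 (.cons a429 (.cons (t2 7 24 50) (.cons (t2 7 18 50) (.cons a434 (.cons (t2 8 18 39) (.cons (t1 18 24 39) (.cons s1181 (.cons (t2 7 10 50) (.cons (t1 9 24 50) (.cons a249 .nil)))))))))))))))))))))))))))))))))))))))))))))))))))))))))))))))) (by decide +kernel)
theorem s1183 : Valid A [46, 2492, 1450, 986, 14, 2734, 2748, 738, 2778, 934, 3043, 956, 917, 2760, 942] := rup _
  (.cons a505 (.cons s784 (.cons (t2 0 11 21) (.cons (t3 11 23 49) (.cons a383 (.cons a215 (.cons (t2 7 10 11) (.cons (t1 7 11 45) (.cons (t2 5 11 21) (.cons (t3 5 10 11) (.cons a390 (.cons s553 (.cons (t2 5 10 28) (.cons a29 (.cons s115 (.cons (t1 7 20 30) (.cons (t3 7 19 20) (.cons s84 (.cons a222 (.cons (t3 19 30 52) (.cons (t3 20 30 52) (.cons a14 .nil)))))))))))))))))))))) (by decide +kernel)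
theorem s1184 : Valid A [1454, 1238, 3798, 1199, 3788, 3021] := rup _
  (.cons (t3 11 23 38) (.cons (t2 9 11 23) (.cons a130 (.cons a243 (.cons (t2 11 29 43) .nil))))) (by decide +kernel)
theorem s1185 : Valid A [4429, 1188, 1450, 5863, 316, 986, 570, 2234, 2490, 3780, 955, 2245, 2275, 14, 2734, 2748, 738, 2778, 3005, 934, 3013, 3043, 2372, 4445, 1340, 917, 2760, 942, 913] := rup _
  (.cons (t3 7 45 51) (.cons (t1 4 7 29) (.cons (t3 17 23 49) (.cons s38 (.cons a162 (.cons (t2 7 10 30) (.cons (t3 18 34 38) (.cons (t1 30 34 38) (.cons (t2 34 38 46) (.cons (t1 23 34 38) (.cons (t1 17 34 38) (.cons (t3 29 34 38) (.cons a265 (.cons a174 (.cons (t3 9 17 38) (.cons (t3 9 30 38) (.cons (t3 9 23 38) (.cons (t1 19 30 38) (.cons s1183 (.cons (t3 0 17 23) (.cons (t1 0 23 49) (.cons a511 (.cons a492 (.cons (t1 4 9 17) (.cons (t2 17 22 49) (.cons a138 (.cons (t3 7 22 29) (.cons (t1 4 22 29) (.cons (t1 19 22 29) (.cons s169 (.cons a466 (.cons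 (t3 30 45 51) (.cons (t2 9 30 32) (.cons (t3 19 30 45) (.cons (t3 2 30 45) (.cons a341 (.cons a85 (.cons (t1 2 7 8) (.cons (t1 2 7 29) (.cons a83 (.cons a84 (.cons (t1 2 29 43) (.cons (t2 7 8 43) (.cons a454 (.cons (t3 4 9 43) (.cons s1184 (.cons a239 (.cons (t3 11 17 23) (.cons (t3 9 11 23) (.cons (t1 23 30 52) (.cons a377 (.cons (t2 9 11 16) (.cons a222 (.cons a253 (.cons a257 (.cons (t1 19 21 52) (.cons (t1 4 16 22) (.cons a233 (.cons a337 (.cons (t2 16 19 32) .nil)))))))))))))))))))))))))))))))))))))))))))))))))))))))))))) (by decide +kernel)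
theorem s1186 : Valid A [963, 5863, 316, 348, 986, 584, 2234, 2490, 3780, 1339, 955, 2245, 2269, 2275, 14, 732, 2734, 2748, 2780, 738, 2778, 3043, 3037, 2372, 4445, 969, 945, 1340, 917, 2760, 942, 913] := rup _
  (.cons (t1 7 36 45) (.cons s384 (.cons a147 (.cons (t1 4 7 29) (.cons s38 (.cons a162 (.cons (t1 30 34 46) (.cons (t3 23 30 46) (.cons s911 (.cons (t2 7 10 18) (.cons (t2 7 18 24) (.cons a348 (.cons a346 (.cons (t3 23 34 46) (.cons (t2 7 10 36) (.cons a447 (.cons (t2 7 24 33) (.cons (t1 7 36 41) (.cons a251 (.cons (t1 9 18 24) (.cons s1185 (.cons a158 (.cons (t1 7 10 38) (.cons (t2 10 36 38) (.cons (t2 10 18 38) (.cons (t2 10 29 38) (.cons s443 (.cons a131 (.cons (t2 19 21 46) (.cons (t3 19 23 46) (.cons (t3 17 19 46) (.cons (t1 5 19 46) (.cons (t1 2 19 46) (.cons (t3 19 30 46) (.cons (t2 7 11 38) (.cons (t1 11 36 38) (.cons a341 (.cons (t3 2 19 45) (.cons a383 (.cons a379 (.cons (t2 19 23 45) (.cons (t1 17 19 45)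 (.cons (t2 19 30 45) (.cons a85 (.cons (t3 11 23 45) (.cons (t3 11 30 45) (.cons (t1 0 11 45) (.cons (t1 30 45 51) (.cons (t1 2 7 8) (.cons a239 (.cons a241 (.cons (t1 11 30 52) (.cons (t3 0 17 45) (.cons a466 (.cons a83 (.cons (t2 19 23 52) (.cons a222 (.cons a511 (.cons (t2 19 30 32) (.cons (t2 7 8 43) (.cons s84 (.cons (t3 4 17 19) (.cons a230 (.cons a454 (.cons a487 (.cons a211 (.cons s95 (.cons (t3 21 32 52) (.cons (t2 28 36 41) (.cons (t1 4 5 36) (.cons (t2 4 5 43) (.cons a529 (.cons a203 (.cons (t2 5 21 43) (.cons (t1 21 32 41) (.cons a452 .nil)))))))))))))))))))))))))))))))))))))))))))))))))))))))))))))))))))))))))))) (by decide +kernel)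
theorem s1187 : Valid A [962, 444, 456, 969, 1340, 917] := rup _
  (.cons (t1 7 10 33) (.cons (t3 7 33 36) (.cons a391 (.cons a52 (.cons (t3 3 30 33) .nil))))) (by decide +kernel)
theorem s1188 : Valid A [3789, 2764, 1100, 1066] := rup _
  (.cons (t1 21 29 38) (.cons (t1 8 29 38) (.cons a142 .nil))) (by decide +kernel)
theorem s1189 : Valid A [987, 1188, 3154, 2275, 14, 2748, 2756, 2778, 2504, 1317, 1061, 2342, 3013, 456, 969, 945, 2736, 3909, 917, 913, 994] := rup _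
  (.cons s1115 (.cons (t1 7 10 49) (.cons a186 (.cons (t1 7 10 46) (.cons a189 (.cons (t3 3 17 49) (.cons (t1 3 46 49) (.cons s158 (.cons (t3 17 34 49) (.cons (t2 7 8 24) (.cons (t2 8 21 24) (.cons (t2 7 21 24) (.cons a65 (.cons s38 (.cons a86 (.cons a88 (.cons (t2 7 24 45) (.cons (t2 7 36 45) (.cons (t2 7 10 45) (.cons (t3 3 7 45) (.cons (t3 2 7 8) (.cons s776 (.cons a380 (.cons s602 (.cons a396 (.cons a397 (.cons a60 (.cons (t3 2 34 49) (.cons (t2 7 11 45) (.cons (t1 3 19 46) (.cons (t2 7 22 45) (.cons (t1 22 24 45) (.cons a383 (.cons s443 (.cons s4 (.cons (t2 10 18 38) (.cons (t2 8 18 38) (.cons a265 (.cons a158 (.cons (t2 34 38 49) (.cons (t1 30 34 38) (.cons (t3 21 34 38) (.cons (t1 2 34 38) (.cons (t1 23 34 38) (.cons (t1 17 34 38) (.cons s1188 (.cons (t2 17 29 38) (.cons a130 (.cons (t3 11 17 38) (.cons (t1 11 38 49) (.cons (t3 11 23 38) (.cons (t3 11 30 38) (.cons (t3 2 11 38) (.cons (t1 0 11 38) (.cons (t3 9 11 38)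 (.cons a377 (.cons (t1 0 11 17) (.cons (t1 0 11 49) (.cons a241 (.cons (t1 11 30 52) (.cons (t3 0 9 38) (.cons a244 (.cons (t2 9 11 16) (.cons a512 (.cons a492 (.cons a222 (.cons (t3 0 4 9) (.cons (t2 2 11 43) (.cons (t2 17 22 49) (.cons (t3 7 21 52) (.cons (t1 3 21 52) (.cons a253 (.cons a82 (.cons a138 (.cons a226 (.cons (t1 7 8 43) (.cons (t2 8 24 43) (.cons (t3 22 24 29) (.cons (t3 10 22 29) (.cons (t3 3 22 52) (.cons a455 (.cons s271 (.cons a134 (.cons a58 (.cons (t3 4 7 10) (.cons (t1 3 21 41) (.cons (t2 21 29 41) (.cons (t1 3 4 16) (.cons a146 (.cons (t3 3 4 41) (.cons (t1 4 29 41) .nil))))))))))))))))))))))))))))))))))))))))))))))))))))))))))))))))))))))))))))))))))))))))))) (by decide +kernel)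
theorem s1190 : Valid A [955, 2234, 3780, 4429, 1450, 5863, 316, 986, 1188, 2245, 2275, 14, 2734, 2748, 738, 2778, 3005, 934, 3013, 3043, 2372, 4445, 1340, 917, 2760, 942, 913] := rup _
  (.cons (t2 7 10 29) (.cons (t3 7 19 29) (.cons a147 (.cons s1185 .nil)))) (by decide +kernel)
theorem s1191 : Valid A [4429, 5863, 316, 4698, 986, 1188, 2275, 14, 2734, 2748, 2756, 738, 2778, 3005, 934, 3013, 3043, 1066, 2372, 4445, 4451, 4706, 1340, 917, 2760, 942, 913] := rup _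
  (.cons s384 (.cons (t1 7 10 45) (.cons (t3 17 34 49) (.cons (t3 17 23 49) (.cons s38 (.cons a162 (.cons (t2 7 10 30) (.cons s37 (.cons (t2 34 38 49) (.cons (t3 8 34 38) (.cons (t1 30 34 38) (.cons (t3 21 34 38) (.cons (t2 34 38 46) (.cons (t1 17 34 38) (.cons s1188 (.cons a174 (.cons (t1 29 34 38) (.cons (t2 17 29 38) (.cons (t1 19 30 38) (.cons s1183 (.cons s1190 (.cons (t1 7 10 29) (.cons s474 (.cons s1003 (.cons a130 (.cons s727 (.cons (t1 11 38 49) .nil))))))))))))))))))))))))))) (by decide +kernel)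
theorem s1192 : Valid A [2275, 2786, 2778, 456, 969, 945, 2736, 4706, 1340, 917, 1070, 913, 994] := rup _
  (.cons s1115 (.cons (t2 7 8 23) (.cons (t2 7 21 24) (.cons (t1 7 10 49) (.cons a186 (.cons (t1 7 10 46) (.cons a189 (.cons a188 (.cons (t2 7 8 24) (.cons s326 (.cons (t1 23 46 49) (.cons (t1 21 23 49) (.cons s294 (.cons s1177 (.cons s680 (.cons (t1 5 46 49) (.cons s38 (.cons a162 (.cons s158 (.cons (t1 30 34 49) (.cons (t1 21 30 49) (.cons (t1 21 34 49) (.cons (t1 21 46 49) (.cons s911 (.cons a346 (.cons (t3 7 19 36) (.cons (t3 34 46 49) (.cons (t1 30 34 46) (.cons (t3 23 30 46) (.cons (t2 7 10 18) (.cons (t2 7 8 18) (.cons (t2 7 18 24) (.cons a348 (.cons (t3 23 34 46) (.cons (t2 7 10 36) (.cons (t1 7 10 21) (.cons (t2 8 21 24) (.cons s80 (.cons (t1 18 34 49) (.cons (t3 3 17 49) (.cons (t3 17 46 49) (.cons (t3 17 23 49) (.cons (t3 17 34 49) (.cons (t1 3 30 49) (.cons s1187 (.cons a447 (.cons (t2 7 24 33) (.cons (t1 7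 24 41) (.cons a251 (.cons (t1 9 18 24) (.cons s1189 (.cons s132 (.cons (t1 7 10 45) (.cons s199 (.cons (t1 7 36 45) (.cons (t1 2 46 49) (.cons (t1 2 30 49) (.cons s177 (.cons s1191 (.cons a158 (.cons (t2 10 18 38) (.cons s443 (.cons (t1 19 46 49) (.cons (t2 19 21 46) (.cons (t3 19 23 46) (.cons a341 (.cons (t2 19 45 49) (.cons (t2 19 23 45) (.cons (t1 23 45 51) (.cons a496 (.cons (t3 22 23 49) (.cons (t3 22 23 45) (.cons a395 (.cons (t3 10 21 22) (.cons s916 (.cons s9 (.cons s1003 (.cons (t3 23 29 34) (.cons (t2 17 23 29) (.cons (t2 19 23 29) (.cons a147 (.cons (t1 7 10 29) (.cons (t2 10 29 36) (.cons s1186 (.cons (t3 4 29 36) .nil))))))))))))))))))))))))))))))))))))))))))))))))))))))))))))))))))))))))))))))))))))) (by decide +kernel)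
theorem s1193 : Valid A [987, 2268, 14, 2748, 2756, 2780, 2778, 993, 2784, 3169, 420, 1317, 1061, 2353, 2342, 934, 3013, 1066, 456, 969, 945, 1340, 1372, 1045, 917, 994] := rup _
  (.cons (t1 7 10 19) (.cons s38 (.cons a162 (.cons (t1 7 10 49) (.cons a189 (.cons s80 (.cons s158 (.cons (t1 18 34 49) (.cons (t1 18 30 34) (.cons a65 (.cons a86 (.cons a88 (.cons (t2 7 36 45) (.cons (t3 7 19 45) (.cons (t3 3 7 45) (.cons (t3 2 7 48) (.cons s776 (.cons a380 (.cons a341 (.cons a60 (.cons (t3 2 34 49) (.cons (t2 7 11 45) (.cons (t2 19 21 46) (.cons (t2 19 21 34) (.cons (t2 3 21 30) (.cons a383 (.cons s443 (.cons s139 (.cons s1187 (.cons s4 (.cons (t2 10 18 38) (.cons (t2 8 18 38) (.cons (t2 8 18 39) (.cons (t1 18 24 39) (.cons (t2 7 24 33) (.cons a158 (.cons s197 (.cons a251 (.cons (t1 30 34 38) (.cons (t3 21 34 38) (.cons (t1 2 34 38) (.cons (t1 23 34 38) (.cons (t3 19 34 38) (.cons (t3 19 38 39) (.cons (t3 9 24 48) (.cons (t1 9 18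 24) (.cons s1188 (.cons a265 (.cons a130 (.cons (t2 9 38 39) (.cons (t3 11 23 38) (.cons (t3 11 30 38) (.cons (t3 2 11 38) (.cons s639 (.cons a241 (.cons (t1 11 30 52) (.cons (t2 2 11 52) (.cons (t2 6 21 48) (.cons (t1 2 6 48) (.cons a222 (.cons (t3 6 21 52) (.cons a71 .nil)))))))))))))))))))))))))))))))))))))))))))))))))))))))))))))) (by decide +kernel)
theorem s1194 : Valid A [2234, 2530, 3788, 2252, 332, 3021, 3917, 4963, 986, 1059, 931, 2225, 2748, 2778, 969, 938, 2736, 4706, 942, 994] := rup _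
  (.cons a125 (.cons (t1 7 36 45) (.cons s132 (.cons (t1 17 24 29) (.cons a134 (.cons s449 (.cons (t2 11 17 38) (.cons (t1 11 38 49) (.cons (t3 11 23 38) (.cons (t3 11 30 38) (.cons (t1 2 11 38) (.cons (t2 11 37 38) (.cons s777 (.cons s727 (.cons (t3 11 45 49) (.cons a241 (.cons a373 (.cons (t1 11 30 52) (.cons (t3 11 37 45) (.cons (t1 2 7 17) (.cons (t1 19 45 49) (.cons a375 (.cons a222 (.cons a341 (.cons (t3 7 16 17) (.cons (t3 8 16 17) (.cons (t2 16 17 29) (.cons (t3 2 16 17) (.cons (t1 19 21 52) (.cons (t2 21 29 52) (.cons a462 (.cons a26 (.cons (t2 2 16 25) (.cons a15 (.cons (t1 20 29 52) (.cons (t2 7 16 20) (.cons a77 (.cons a29 (.cons (t1 11 25 37) (.cons (t2 20 37 45) (.cons a117 (.cons a11 (.cons (t3 16 29 37) .nil))))))))))))))))))))))))))))))))))))))))))) (by decide +kernel)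
theorem s1195 : Valid A [4429, 986, 1059, 1315, 931, 2244, 2225, 2734, 2748, 2756, 738, 2778, 934, 3013, 3043, 1066, 4445, 969, 938, 4451, 2736, 4706, 1340, 917, 2760, 942, 1092, 994] := rup _
  (.cons (t1 7 36 45) (.cons s384 (.cons s132 (.cons (t1 2 34 49) (.cons (t1 7 10 45) (.cons s294 (.cons s38 (.cons a162 (.cons (t1 30 34 49) (.cons (t2 7 10 30) (.cons (t2 34 38 49) (.cons (t3 8 34 38) (.cons (t1 30 34 38) (.cons (t3 21 34 38) (.cons (t2 34 38 46) (.cons (t1 23 34 38) (.cons (t3 2 34 38) (.cons (t3 17 34 38) (.cons s1188 (.cons a174 (.cons (t3 19 38 49) (.cons (t1 19 30 38) (.cons s1183 (.cons (t1 0 23 49) (.cons a492 (.cons (t1 22 30 49) (.cons s1194 (.cons a141 (.cons (t2 7 17 22) (.cons (t2 10 17 22) (.cons s991 (.cons a395 (.cons a222 (.cons (t1 21 22 45) (.cons (t3 7 21 52) (.cons (t3 21 22 52) (.cons a226 .nil))))))))))))))))))))))))))))))))))))) (by decide +kernel)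
theorem s1196 : Valid A [2786, 945, 4706, 1340, 917, 3170, 1070, 913, 994] := rup _
  (.cons (t1 7 10 49) (.cons a186 (.cons (t1 7 10 46) (.cons a189 (.cons (t1 24 46 49) (.cons (t1 36 46 49) (.cons a177 (.cons s1182 (.cons (t1 7 24 36) (.cons s158 (.cons s106 (.cons a479 (.cons (t1 7 36 48) (.cons s1177 (.cons (t3 21 36 48) (.cons (t1 24 36 48) (.cons a65 (.cons (t2 7 8 23) (.cons s911 (.cons (t3 3 7 18) (.cons (t2 7 10 18) (.cons (t2 7 8 18) (.cons (t2 7 18 24) (.cons a348 (.cons a346 (.cons (t3 34 46 49) (.cons a188 (.cons (t2 7 8 24) (.cons s326 (.cons (t3 23 34 46) (.cons (t1 23 46 49) (.cons (t2 7 10 36) (.cons (t1 21 24 36) (.cons (t2 8 21 24) (.cons s38 (.cons a162 (.cons (t1 30 34 49) (.cons a67 (.cons (t3 3 24 36) (.cons (t2 7 21 24) (.cons (t2 7 8 10) (.cons s37 (.cons s680 (.cons (t1 21 46 49) (.cons (t1 21 34 49) (.cons (t1 21 30 49) (.cons (t1 21 23 49) (.cons s294 (.cons s1192 (.cons a403 (.cons (t1 17 46 49)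 (.cons (t1 17 34 49) (.cons (t3 7 17 24) (.cons s558 (.cons (t3 8 17 24) (.cons s1193 (.cons (t1 7 10 45) (.cons s199 (.cons s177 (.cons s1195 (.cons (t3 34 38 49) (.cons a158 (.cons (t2 23 34 38) (.cons (t2 30 34 38) (.cons (t1 7 10 38) (.cons (t2 10 36 38) (.cons (t2 10 18 38) (.cons (t2 10 17 38) (.cons s443 (.cons (t2 19 21 46) (.cons (t3 19 23 46) (.cons a341 (.cons (t2 19 23 45) (.cons (t1 23 45 51) (.cons a496 (.cons (t3 22 23 45) (.cons a395 (.cons (t2 10 17 22) (.cons (t1 7 10 22) (.cons (t2 10 22 38) (.cons a139 (.cons a227 (.cons (t2 7 22 29) (.cons (t3 22 29 38) (.cons (t1 7 38 52) (.cons s474 (.cons a130 (.cons (t3 11 17 38) (.cons (t3 11 36 38) (.cons (t2 11 30 38) (.cons (t2 11 23 38) (.cons s472 (.cons (t2 11 38 52) (.cons a377 (.cons a199 (.cons a238 (.cons (t3 11 16 36) (.cons a371 (.cons (t2 36 38 42) (.cons (t2 23 49 52) (.cons a353 (.cons (t1 16 30 49) (.cons a235 (.cons (t2 16 42 49) .nil))))))))))))))))))))))))))))))))))))))))))))))))))))))))))))))))))))))))))))))))))))))))))))))))))))))))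 (by decide +kernel)
theorem s1197 : Valid A [918, 1493, 32, 14, 1442, 2248, 969] := rup _
  (.cons (t3 7 11 36) (.cons a383 (.cons (t3 11 36 42) (.cons (t1 0 11 16) (.cons a375 (.cons (t3 11 16 42) (.cons (t2 16 17 36) (.cons a353 .nil)))))))) (by decide +kernel)
theorem s1198 : Valid A [5474, 32, 14, 1442, 1454, 1450, 986, 1698, 2248, 2792, 2735, 2787, 2778, 969, 917] := rup _
  (.cons (t1 21 23 52) (.cons a238 (.cons (t1 21 49 52) (.cons s1148 (.cons a234 (.cons s1197 (.cons (t2 7 11 36) (.cons (t1 7 11 45) (.cons (t1 7 11 52) (.cons (t2 11 36 42) (.cons s553 (.cons a355 (.cons a29 (.cons (t3 16 42 52) (.cons (t2 11 16 42) (.cons (t2 7 10 20) (.cons (t2 7 20 52) (.cons a375 (.cons a20 (.cons (t3 13 20 52) (.cons (t1 13 16 17) (.cons a220 .nil)))))))))))))))))))))) (by decide +kernel)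
theorem s1199 : Valid A [2275, 98, 3930, 2792, 2735, 2787, 2778, 3016, 456, 400, 969, 938, 398, 4706, 956, 1326, 917, 2760, 1122, 994] := rup _
  (.cons s1115 (.cons (t1 21 23 45) (.cons (t3 21 45 49) (.cons a503 (.cons (t3 3 7 10) (.cons (t3 3 17 49) (.cons (t2 17 36 49) (.cons (t3 17 21 49) (.cons (t1 13 17 49) (.cons (t1 3 21 49) (.cons a60 (.cons (t3 3 36 45) (.cons (t3 3 7 45) (.cons (t3 3 8 45) (.cons (t3 3 10 45) (.cons s384 (.cons s750 (.cons s199 (.cons (t1 11 17 21) (.cons s177 (.cons (t3 7 45 51) (.cons (t3 30 45 51) (.cons (t3 23 45 51) (.cons s169 (.cons s929 (.cons (t2 22 45 49) (.cons (t3 3 22 45) (.cons a491 (.cons s376 (.cons a58 (.cons (t3 0 3 22) (.cons (t2 0 3 16) (.cons s1198 (.cons (t1 8 42 49) (.cons (t2 42 45 49) (.cons a356 .nil)))))))))))))))))))))))))))))))))))) (by decide +kernel)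

end Pool.Agent.Helper50.Canon.CD
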