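import Mathlib
import Pool.Agent.Helper50.Canon.CD.C8

set_option autoImplicit false

namespace Pool.Agent.Helper50.Canon.CD

theorem s1200 : Valid A [987, 2749, 2787, 2778, 3169, 2346, 934, 3013, 3043, 2350, 945, 2736, 3164, 5987, 1045, 1348, 942, 913, 994] := rup _
  (.cons (t3 21 23 49) (.cons (t1 21 23 45) (.cons (t3 21 45 49) (.cons s158 (.cons (t3 21 34 49) (.cons (t3 21 46 49) (.cons (t2 7 21 24) (.cons a65 (.cons s80 (.cons (t3 7 19 45) (.cons (t3 3 7 45) (.cons a341 (.cons a60 (.cons (t1 19 21 34) (.cons (t1 3 21 46) (.cons (t1 3 21 23) (.cons (t1 3 21 49) (.cons (t1 3 21 30) (.cons a156 (.cons (t3 27 34 49) (.cons (t2 23 27 34) (.cons s838 .nil)))))))))))))))))))))) (by decide +kernel)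
theorem s1201 : Valid A [1467, 2235, 3802, 955, 1513, 1468, 1450, 986, 1724, 2778, 917] := rup _
  (.cons (t3 7 11 29) (.cons (t2 11 29 45) (.cons (t3 11 17 29) (.cons (t1 7 11 52) (.cons s553 (.cons a377 (.cons a29 (.cons a371 (.cons (t3 11 16 52) (.cons (t2 7 10 20) (.cons (t2 7 20 52) (.cons (t1 13 16 30) (.cons a20 (.cons (t3 13 20 52) (.cons a220 .nil))))))))))))))) (by decide +kernel)
theorem s1202 : Valid A [945, 4706, 1340, 917, 3170, 1070, 913, 994] := rup _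
  (.cons s1177 (.cons (t1 7 10 49) (.cons a186 (.cons (t1 7 10 46) (.cons a189 (.cons (t1 24 46 49) (.cons (t1 36 46 49) (.cons a177 (.cons (t1 21 24 36) (.cons s38 (.cons a162 (.cons (t2 7 8 10) (.cons (t2 8 10 30) (.cons (t2 7 10 30) (.cons (t2 7 8 23) (.cons (t1 7 10 23) (.cons (t1 7 8 49) (.cons a188 (.cons a65 (.cons a67 (.cons s158 (.cons (t2 7 8 24) (.cons (t3 7 23 24) (.cons (t2 7 21 24) (.cons (t1 7 24 36) (.cons (t3 3 7 8) (.cons (t3 3 24 36) (.cons s106 (.cons (t3 34 46 49) (.cons (t1 30 34 49) (.cons s326 (.cons (t1 8 24 36) (.cons (t2 8 21 24) (.cons (t3 23 24 36) (.cons s911 (.cons a479 (.cons s74 (.cons (t1 23 46 49) (.cons (t3 23 34 46) (.cons a346 (.cons (t1 7 18 21) (.cons (t1 24 36 48) (.cons s1182 (.cons s1196 (.cons a500 (.cons a503 (.cons (t3 21 30 49) (.cons (t3 21 23 49) (.cons (t3 21 45 49) (.cons (t1 12 23 49) (.cons (t1 13 30 49) (.cons a223 (.cons (t1 21 30 45) (.cons a506 (.cons (t1 21 23 45) (.cons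 (t1 21 23 52) (.cons (t3 0 23 49) (.cons s1199 (.cons a403 (.cons (t1 17 30 49) (.cons (t1 17 21 49) (.cons (t3 7 17 24) (.cons (t3 8 17 24) (.cons s1200 (.cons s132 (.cons (t1 7 10 45) (.cons (t1 7 8 45) (.cons s199 (.cons (t1 7 36 45) (.cons a79 (.cons s177 (.cons s384 (.cons s750 (.cons (t3 7 45 51) (.cons (t3 30 45 51) (.cons (t3 23 45 51) (.cons (t3 11 21 30) (.cons a238 (.cons s169 (.cons s929 (.cons (t1 7 17 22) (.cons (t1 21 22 45) (.cons (t2 22 45 49) (.cons (t3 2 22 45) (.cons s203 (.cons a491 (.cons s376 (.cons a142 (.cons a134 (.cons (t2 0 17 22) (.cons (t3 0 2 22) (.cons (t1 7 8 29) (.cons (t2 8 10 29) (.cons (t2 8 29 36) (.cons (t1 8 29 45) (.cons (t2 8 17 29) (.cons a147 (.cons (t1 4 17 29) (.cons a509 (.cons (t2 0 2 4) (.cons a90 (.cons (t2 0 1 4) (.cons s1201 (.cons (t2 7 11 29) (.cons (t1 11 24 29) (.cons (t3 11 29 36) (.cons (t1 11 17 29) (.cons a383 (.cons (t3 11 24 52) (.cons a379 (.cons s401 (.cons (t2 0 11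 22) (.cons (t3 0 1 11) (.cons s830 (.cons (t1 11 16 23) (.cons (t2 11 16 45) (.cons (t2 11 16 22) (.cons (t3 1 11 16) (.cons (t2 11 12 52) (.cons a57 (.cons a288 (.cons (t3 3 16 45) (.cons (t1 3 11 16) (.cons (t3 1 21 23) (.cons (t2 1 12 23) (.cons a60 (.cons a40 (.cons (t3 1 3 21) (.cons (t1 1 3 12) .nil))))))))))))))))))))))))))))))))))))))))))))))))))))))))))))))))))))))))))))))))))))))))))))))))))))))))))))))))))))))))))))))))) (by decide +kernel)
theorem s1203 : Valid A [3043, 4293, 992, 944, 3145, 4706, 3170, 1070, 913] := rup _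
  (.cons (t1 7 8 48) (.cons a520 (.cons s88 (.cons (t2 23 24 49) (.cons (t3 23 34 49) (.cons s1036 (.cons s127 (.cons (t1 3 24 36) (.cons (t1 33 34 36) (.cons a55 .nil)))))))))) (by decide +kernel)
theorem s1204 : Valid A [4706, 1340, 917, 3170, 1070, 913, 994] := rup _
  (.cons s38 (.cons a162 (.cons s101 (.cons (t1 7 10 49) (.cons a186 (.cons (t1 7 10 46) (.cons a189 (.cons (t1 24 46 49) (.cons (t1 36 46 49) (.cons a177 (.cons s1202 (.cons (t3 7 24 36) (.cons s1035 (.cons s150 (.cons (t1 7 8 48) (.cons (t1 7 10 33) (.cons a520 (.cons a391 (.cons s370 (.cons (t2 23 30 48) (.cons (t3 23 30 33) (.cons (t1 30 33 48) (.cons s1203 (.cons (t1 23 46 49) (.cons (t1 23 48 49) (.cons a193 (.cons a479 (.cons (t2 23 24 48) (.cons (t1 23 24 33) (.cons (t1 33 36 48) (.cons a45 (.cons s141 (.cons (t3 3 24 36) (.cons a52 .nil)))))))))))))))))))))))))))))))))) (by decide +kernel)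
theorem s1205 : Valid A [939, 2779, 993, 2734, 3043, 6242, 917, 2760] := rup _
  (.cons (t3 21 23 45) (.cons a208 (.cons a210 (.cons (t2 7 10 21) (.cons (t1 7 21 45) (.cons (t2 7 21 48) (.cons (t3 5 7 45) (.cons s1006 (.cons (t1 10 21 45) (.cons s177 (.cons (t3 7 11 45) (.cons a396 (.cons (t3 23 45 51) (.cons a384 (.cons (t3 22 45 51) (.cons (t3 0 7 21) (.cons a495 (.cons a505 (.cons (t1 22 23 49) (.cons (t3 0 22 23) (.cons a493 .nil))))))))))))))))))))) (by decide +kernel)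
theorem s1206 : Valid A [4429, 422, 4445, 4451, 944, 2275, 3170, 994] := rup _
  (.cons s1115 (.cons (t2 34 38 49) (.cons (t2 34 38 46) (.cons a330 (.cons a174 (.cons a429 (.cons (t1 19 34 38) (.cons s714 (.cons (t2 17 27 49) (.cons (t1 27 34 49) (.cons a36 (.cons a154 (.cons (t3 3 19 27) .nil))))))))))))) (by decide +kernel)
theorem s1207 : Valid A [933, 399, 4445, 3939, 944, 2275, 5987, 917, 3170, 994] := rup _
  (.cons s1115 (.cons (t1 7 10 49) (.cons s38 (.cons s534 (.cons (t3 17 34 49) (.cons (t3 17 46 49) (.cons (t3 3 17 49) (.cons a346 (.cons a348 (.cons (t2 7 10 18) (.cons (t1 3 7 18) (.cons (t2 3 7 19) (.cons s1206 (.cons a158 (.cons (t2 10 18 38) (.cons s443 (.cons (t1 19 46 49) (.cons (t3 19 34 46) (.cons (t3 17 19 46) (.cons a156 (.cons a335 (.cons (t2 17 27 34) (.cons (t3 19 39 49) (.cons a36 (.cons s969 (.cons (t2 3 7 27) (.cons (t2 3 7 39) (.cons (t2 3 18 39) (.cons s768 (.cons (t2 7 39 50) (.cons a436 .nil)))))))))))))))))))))))))))))))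 (by decide +kernel)
theorem s1208 : Valid A [934, 932, 399, 4445, 4451, 944, 2275, 917, 3170, 994] := rup _
  (.cons s38 (.cons (t1 7 10 19) (.cons (t2 3 7 19) (.cons a345 (.cons s1206 (.cons s72 (.cons (t3 34 38 46) (.cons a158 (.cons a173 (.cons (t3 10 19 38) .nil)))))))))) (by decide +kernel)
theorem s1209 : Valid A [4429, 132, 2491, 935, 2234, 3780, 332, 3013, 4451, 270, 1465, 23, 2275] := rup _
  (.cons (t3 17 34 49) (.cons s4 (.cons (t2 34 38 49) (.cons (t1 23 34 38) (.cons (t1 17 34 38) (.cons (t3 29 34 38) (.cons a130 (.cons (t3 11 17 38) (.cons (t1 11 38 49) (.cons (t3 11 23 38) (.cons (t1 2 11 38) (.cons (t2 11 28 38) (.cons a377 (.cons (t1 0 11 49) (.cons (t2 11 28 49) (.cons (t2 11 23 28) (.cons a296 (.cons (t3 11 16 23) (.cons a492 (.cons a537 (.cons (t1 1 23 28) (.cons (t2 17 22 49) (.cons (t2 11 25 28) (.cons a288 (.cons a138 (.cons a77 (.cons (t3 1 2 16) (.cons (t3 19 22 29) (.cons (t3 2 7 25) (.cons (t3 2 16 25)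 (.cons a339 (.cons a460 (.cons (t2 7 16 19) .nil))))))))))))))))))))))))))))))))) (by decide +kernel)
theorem s1210 : Valid A [1454, 3930, 3005, 1512, 23, 1370, 986, 14, 3043, 956, 1378, 942] := rup _
  (.cons (t3 11 23 49) (.cons a238 (.cons (t2 0 11 49) (.cons (t3 7 23 52) (.cons (t2 23 49 52) (.cons (t2 23 30 52) (.cons s525 (.cons s909 (.cons (t1 10 22 49) (.cons a395 .nil)))))))))) (by decide +kernel)
theorem s1211 : Valid A [1229, 1219, 1357, 1319, 4451, 944, 2275, 917, 3170, 988, 994] := rup _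
  (.cons (t1 7 10 38) (.cons (t1 7 10 49) (.cons (t1 7 10 46) (.cons a189 (.cons s38 (.cons (t3 9 10 38) (.cons (t3 7 9 38) (.cons a247 (.cons (t1 7 9 33) (.cons (t2 7 10 50) (.cons a110 (.cons a429 (.cons s768 (.cons s122 (.cons (t1 34 49 50) (.cons (t1 7 10 27) (.cons (t3 15 49 50) (.cons (t3 15 34 50) (.cons s196 (.cons a115 (.cons (t3 15 27 34) .nil))))))))))))))))))))) (by decide +kernel)
theorem s1212 : Valid A [2737, 307, 2220, 3138, 3148, 3013, 4445, 3939, 267, 299, 270, 1465, 23, 678, 1066, 426, 456, 944, 2376, 2275, 917, 3170, 913, 994] := rup _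
  (.cons (t3 2 7 25) (.cons (t1 7 10 49) (.cons s38 (.cons s534 (.cons (t1 7 8 49) (.cons (t1 8 17 49) (.cons a186 (.cons (t1 7 10 46) (.cons a189 (.cons (t2 7 8 10) (.cons s37 (.cons a137 (.cons (t3 3 21 24) (.cons (t1 2 21 24) (.cons a142 (.cons a64 (.cons (t2 2 24 38) (.cons (t1 7 8 29) (.cons (t2 8 10 29) (.cons (t1 8 29 34) (.cons (t3 8 17 29) (.cons (t1 3 7 10) (.cons a147 (.cons (t1 4 7 29) (.cons s1207 (.cons s1208 (.cons a347 (.cons (t2 7 10 19) (.cons (t1 7 19 46) (.cons (t2 7 19 29) (.cons (t3 4 7 19) (.cons s443 (.cons a211 (.cons (t3 2 4 5) (.cons a91 (.cons s1209 (.cons a158 (.cons (t1 3 10 38) (.cons a138 (.cons (t3 19 22 29) (.cons (t2 2 24 25) (.cons (t2 2 4 25) (.cons a339 (.cons (t2 7 16 19) (.cons a460 (.cons (t3 16 24 25) (.cons (t3 4 16 25) (.cons a254 (.cons (t3 9 16 24) (.cons a250 (.cons s1211 (.cons (t2 3 9 38) (.cons a265 (.cons (t3 3 9 33) (.cons (t2 9 18 36) (.cons a52 (.cons (t1 9 33 36) .nil)))))))))))))))))))))))))))))))))))))))))))))))))))))))))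 (by decide +kernel)
theorem s1213 : Valid A [3939, 267, 1465, 5862, 23, 1370, 678, 986, 14, 1066, 2779, 3043, 2218, 456, 944, 2376, 2786, 968, 2275, 3144, 3909, 956, 917, 3170, 942, 913, 994] := rup _
  (.cons s1115 (.cons (t1 21 45 49) (.cons s132 (.cons a79 (.cons (t3 2 21 45) (.cons a87 (.cons s67 (.cons (t1 2 23 49) (.cons a63 (.cons (t3 3 17 49) (.cons (t1 3 23 49) (.cons (t1 7 10 24) (.cons (t1 7 8 24) (.cons (t1 7 10 49) (.cons (t1 10 17 49) (.cons a186 (.cons (t1 7 10 46) (.cons a189 (.cons s38 (.cons (t1 7 8 49) (.cons (t1 24 30 49) (.cons (t3 30 46 49) (.cons s534 (.cons (t3 23 30 49) (.cons (t2 30 45 49) (.cons (t3 24 30 34) (.cons (t2 30 34 46) (.cons (t3 23 34 49) (.cons s988 (.cons s413 (.cons s1210 (.cons (t1 11 23 49) (.cons (t1 2 11 23) (.cons (t1 0 11 49) (.cons (t2 11 28 49) (.cons a492 (.cons a537 (.cons (t2 17 22 49) (.cons (t2 11 25 28) (.cons a77 (.cons s1212 (.cons (t1 3 11 23) (.cons s248 (.cons s202 (.cons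 (t1 8 12 49) (.cons (t3 12 30 49) (.cons a136 (.cons a144 (.cons s942 (.cons s126 (.cons a466 (.cons (t2 12 30 32) (.cons a517 (.cons (t3 8 24 32) (.cons (t3 8 29 32) (.cons a149 .nil)))))))))))))))))))))))))))))))))))))))))))))))))))))))) (by decide +kernel)
theorem s1214 : Valid A [1454, 5864, 1512, 23, 1370, 986, 14, 3043, 1378, 942] := rup _
  (.cons (t3 11 23 49) (.cons a238 (.cons (t2 0 11 49) (.cons (t3 7 23 52) (.cons (t2 23 49 52) (.cons s131 (.cons s525 (.cons a395 (.cons (t1 10 22 49) .nil))))))))) (by decide +kernel)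
theorem s1215 : Valid A [2737, 3133, 268, 299, 1512, 23, 1370, 986, 14, 1066, 2779, 3043, 2275, 1378, 942, 913, 994] := rup _
  (.cons (t1 7 8 49) (.cons (t1 8 17 49) (.cons a137 (.cons (t1 21 24 30) (.cons a142 (.cons a223 (.cons (t1 7 8 29) (.cons (t3 8 17 29) (.cons (t1 21 45 52) (.cons (t2 2 21 52) (.cons a71 (.cons (t2 6 11 52) (.cons s1214 (.cons (t1 11 23 49) (.cons (t1 0 11 49) (.cons (t3 6 11 49) (.cons a492 (.cons a304 (.cons (t2 17 22 49) (.cons (t2 6 7 52) (.cons a138 (.cons a227 (.cons (t3 7 22 29) .nil))))))))))))))))))))))) (by decide +kernel)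
theorem s1216 : Valid A [2779, 3043, 1340, 917, 3170, 1070, 913, 994] := rup _
  (.cons s1115 (.cons s1204 (.cons a480 (.cons (t2 23 48 49) (.cons a520 (.cons (t1 7 8 48) (.cons s1177 (.cons (t3 21 36 49) (.cons (t1 21 23 49) (.cons (t1 7 36 49) (.cons s1131 (.cons (t1 7 8 24) (.cons s563 (.cons (t3 17 36 49) (.cons (t2 17 21 36) (.cons (t3 3 17 36) (.cons (t1 7 10 49) (.cons (t1 10 17 49) (.cons a186 (.cons (t1 7 10 46) (.cons a189 (.cons s80 (.cons (t1 18 36 49) (.cons (t1 10 36 49) (.cons (t1 24 36 49) (.cons s38 (.cons a162 (.cons (t2 7 10 30) (.cons (t2 7 8 23) (.cons a344 (.cons (t1 21 45 49) (.cons (t3 21 23 45) (.cons s1205 (.cons s201 (.cons (t1 7 8 21) (.cons (t1 7 10 21) (.cons s294 (.cons s569 (.cons (t3 7 21 45) (.cons s26 (.cons (t1 5 21 45) (.cons (t2 5 19 21) (.cons s986 (.cons (t3 10 21 45) (.cons (t1 7 10 11) (.cons a383 (.cons s132 (.cons (t1 21 45 51) (.cons a387 (.cons a79 (.cons s67 (.cons a87 (.cons (t3 2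 21 45) (.cons (t3 2 5 45) (.cons s483 (.cons s1213 (.cons (t1 30 34 49) (.cons (t2 23 30 49) (.cons a168 (.cons (t3 24 30 34) (.cons s1215 (.cons (t3 21 24 45) (.cons s202 (.cons (t1 24 30 45) (.cons s942 (.cons s264 (.cons (t2 22 23 45) (.cons (t2 22 45 51) (.cons a495 .nil))))))))))))))))))))))))))))))))))))))))))))))))))))))))))))))))))))) (by decide +kernel)
theorem s1217 : Valid A [4429, 934, 4445, 4451, 456, 944, 968, 2275, 3170, 913, 994] := rup _
  (.cons (t2 34 38 49) (.cons s1206 (.cons a330 (.cons (t2 3 7 19) (.cons a429 (.cons s494 (.cons (t2 7 8 50) (.cons s429 .nil)))))))) (by decide +kernel)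
theorem s1218 : Valid A [934, 986, 939, 3939, 4451, 456, 944, 968, 2275, 917, 3170, 913, 994] := rup _
  (.cons s1115 (.cons (t1 7 10 49) (.cons a186 (.cons (t1 7 10 46) (.cons a189 (.cons (t3 34 46 49) (.cons (t3 3 17 49) (.cons (t1 3 46 49) (.cons s38 (.cons (t1 7 10 19) (.cons s130 (.cons s1217 (.cons (t3 34 38 46) (.cons a158 (.cons (t3 10 19 38) (.cons a173 (.cons s72 (.cons (t2 19 45 46) (.cons a345 (.cons (t1 3 45 46) (.cons s1207 (.cons s153 .nil)))))))))))))))))))))) (by decide +kernel)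
theorem s1219 : Valid A [4429, 2380, 2529, 2475, 1063, 2342, 932, 316, 709, 688, 354, 5856, 939, 444, 3913, 2364, 3138, 4451, 993, 3043, 944, 2275, 956, 1326, 917, 3170, 2760, 913, 994] := rup _
  (.cons s1115 (.cons (t3 7 18 48) (.cons (t3 23 34 49) (.cons (t1 7 10 49) (.cons a186 (.cons (t1 7 10 46) (.cons a189 (.cons (t3 34 46 49) (.cons s104 (.cons (t2 34 38 49) (.cons (t1 23 34 38) (.cons (t1 5 34 38) (.cons s1206 (.cons s166 (.cons a330 (.cons a124 (.cons a199 (.cons (t3 3 8 19) (.cons (t1 3 19 21) (.cons (t1 3 19 48) (.cons (t2 3 18 19) (.cons (t2 7 9 48) (.cons a429 (.cons (t3 23 37 49) (.cons (t3 38 42 49) (.cons s139 (.cons s714 (.cons (t2 7 8 50) (.cons (t3 7 18 50) (.cons s490 (.cons (t2 17 27 49) (.cons a106 (.cons s429 (.cons a433 (.cons s147 (.cons (t1 7 48 52) (.cons a36 (.cons (t2 3 8 15) (.cons (t2 7 10 33) (.cons (t3 7 9 33) (.cons (t3 7 39 50) (.cons s94 (.cons (t3 2 30 52) (.cons (t2 3 27 48) (.cons (t3 3 15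 27) (.cons (t2 3 21 27) (.cons a250 (.cons a122 (.cons a438 (.cons (t3 28 30 36) (.cons a113 (.cons (t2 9 24 49) (.cons (t1 7 21 37) (.cons (t1 7 10 47) (.cons (t1 7 21 47) (.cons a487 (.cons s167 (.cons s134 (.cons (t1 21 28 47) (.cons (t2 21 27 28) (.cons (t2 6 45 48) (.cons (t2 6 48 52) (.cons (t3 6 27 48) (.cons (t2 23 47 49) (.cons a71 (.cons (t2 2 6 45) (.cons (t1 2 6 27) (.cons a79 (.cons a76 (.cons (t3 15 45 49) (.cons (t3 45 47 49) (.cons (t2 21 27 35) (.cons (t1 27 28 35) (.cons a100 (.cons (t3 4 45 47) (.cons a119 (.cons (t3 4 45 49) (.cons a533 (.cons (t2 35 37 49) (.cons (t2 4 28 35) (.cons a416 .nil))))))))))))))))))))))))))))))))))))))))))))))))))))))))))))))))))))))))))))))))) (by decide +kernel)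
theorem s1220 : Valid A [475, 46, 394, 1370, 2778, 2734, 3017, 3043, 456, 482, 1352] := rup _
  (.cons (t3 3 36 45) (.cons (t1 3 45 49) (.cons (t3 3 5 45) (.cons s177 (.cons s583 (.cons (t1 21 22 45) (.cons (t2 22 45 49) (.cons s916 .nil)))))))) (by decide +kernel)
theorem s1221 : Valid A [2915, 399, 1450, 935, 1506, 986, 1323, 2778, 482, 2786, 1378, 917, 913] := rup _
  (.cons (t2 7 10 19) (.cons (t2 10 21 45) (.cons (t1 10 22 49) (.cons (t1 3 22 49) (.cons (t1 11 22 49) (.cons a395 (.cons (t3 11 22 45) (.cons s553 (.cons a29 (.cons (t2 7 8 20) (.cons (t2 7 10 20) (.cons (t1 3 7 20) (.cons (t2 7 19 20) (.cons a27 (.cons a19 (.cons a16 (.cons (t2 3 16 20) (.cons (t1 16 19 20) (.cons (t3 10 13 21) (.cons (t2 7 20 52) (.cons a56 (.cons s108 (.cons a502 (.cons s131 (.cons (t1 16 22 49) (.cons (t1 16 45 52) (.cons (t3 13 16 49) (.cons a221 .nil)))))))))))))))))))))))))))) (by decide +kernel)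
theorem s1222 : Valid A [15, 935, 2234, 1506, 394, 939, 2778, 3017, 3043, 456, 1352, 2786, 2275, 1378, 917, 942, 913] := rup _
  (.cons s1115 (.cons (t2 7 10 21) (.cons (t2 10 21 45) (.cons (t2 7 8 21) (.cons a143 (.cons (t2 7 21 45) (.cons (t1 21 23 49) (.cons (t3 3 17 49) (.cons a384 (.cons (t2 0 7 23) (.cons (t3 7 11 21) (.cons s1220 (.cons s153 (.cons s1221 (.cons (t2 17 22 49) (.cons s916 (.cons a138 (.cons (t1 21 22 29) .nil)))))))))))))))))) (by decide +kernel)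
theorem s1223 : Valid A [939, 4451, 3043, 1340, 917, 3170, 1070, 913, 994] := rup _
  (.cons s1115 (.cons s1204 (.cons s563 (.cons (t3 3 17 49) (.cons s38 (.cons a162 (.cons (t1 30 34 49) (.cons (t1 3 30 49) (.cons (t3 34 36 49) (.cons (t1 30 34 36) (.cons (t1 7 10 49) (.cons a186 (.cons (t1 7 10 46) (.cons a189 (.cons s80 (.cons (t1 18 34 49) (.cons (t1 18 30 34) (.cons (t1 24 36 49) (.cons (t1 7 36 49) (.cons s1131 (.cons a170 (.cons s413 (.cons (t1 7 10 24) (.cons s988 (.cons s1216 (.cons a480 (.cons (t2 23 48 49) (.cons a520 (.cons (t1 7 8 48) (.cons s1177 (.cons (t3 21 36 49) (.cons (t1 21 23 49) (.cons (t3 17 23 49) (.cons (t3 23 36 49) (.cons (t3 17 36 49) (.cons (t3 3 17 36) (.cons a406 (.cons (t1 10 36 49) (.cons (t2 7 10 30) (.cons (t2 7 8 23) (.cons (t1 7 10 23) (.cons a210 (.cons (t2 7 8 21) (.cons (t1 7 21 24) (.cons (t2 7 10 21) (.cons (t2 7 21 48) (.cons (t2 7 21 45) (.cons a203 (.cons a143 (.cons (t2 10 21 29) (.cons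 (t2 10 21 45) (.cons (t3 21 45 48) (.cons s132 (.cons (t2 5 24 36) (.cons (t1 3 5 36) (.cons (t1 5 36 49) (.cons (t3 5 34 36) (.cons (t2 7 21 29) (.cons a134 (.cons (t1 2 30 49) (.cons a216 (.cons (t3 17 24 29) (.cons (t1 24 29 38) (.cons s1218 (.cons a346 (.cons a347 (.cons (t1 7 19 46) (.cons (t2 7 8 19) (.cons (t2 7 19 21) (.cons (t2 7 19 48) (.cons s443 (.cons s1219 (.cons a158 (.cons (t1 7 10 38) (.cons s1222 (.cons (t3 0 7 21) (.cons s474 (.cons a505 (.cons a130 (.cons s1003 (.cons (t3 7 11 38) (.cons (t2 36 45 49) (.cons s297 .nil))))))))))))))))))))))))))))))))))))))))))))))))))))))))))))))))))))))))))))))))))) (by decide +kernel)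
theorem s1224 : Valid A [987, 23, 918, 5863, 2778, 2734, 968, 4707, 917, 2760, 942] := rup _
  (.cons (t3 7 36 45) (.cons (t3 7 23 45) (.cons (t2 7 10 45) (.cons (t3 7 11 45) (.cons s384 (.cons (t3 23 45 51) (.cons a396 (.cons a379 (.cons (t2 0 11 21) (.cons (t3 22 45 51) (.cons (t1 11 36 49) (.cons a505 (.cons a495 (.cons (t1 0 11 49) (.cons (t3 0 22 23) (.cons a494 .nil)))))))))))))))) (by decide +kernel)
theorem s1225 : Valid A [4451, 3043, 1340, 917, 3170, 1070, 913, 994] := rup _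
  (.cons s1115 (.cons s1216 (.cons s1177 (.cons s1204 (.cons (t3 21 36 49) (.cons (t1 21 23 49) (.cons s563 (.cons (t3 17 36 49) (.cons (t3 3 17 36) (.cons (t1 7 36 49) (.cons s1131 (.cons (t3 3 17 49) (.cons (t1 24 36 49) (.cons s38 (.cons a162 (.cons (t1 7 10 49) (.cons a186 (.cons (t1 7 10 46) (.cons a189 (.cons s80 (.cons (t2 7 8 23) (.cons a170 (.cons (t3 34 46 49) (.cons (t1 18 34 49) (.cons (t1 30 34 49) (.cons s413 (.cons (t1 18 30 34) (.cons (t1 3 30 49) (.cons s1223 (.cons s201 (.cons (t1 7 10 21) (.cons s294 (.cons (t2 5 10 21) (.cons (t2 5 21 49) (.cons (t2 5 21 45) (.cons s133 (.cons s177 (.cons (t2 7 10 11) (.cons a383 (.cons s1224 (.cons (t1 7 10 45) (.cons s156 (.cons s118 (.cons a64 (.cons s494 (.cons (t2 7 10 19) (.cons (t2 3 24 33) (.cons s429 (.cons s1217 (.cons a52 (.cons (t2 7 8 50) (.cons (t3 34 38 46) (.cons a158 (.cons (t1 33 36 49) (.cons a429 (.cons (t3 10 19 38) (.cons a311 (.cons (t3 24 49 50) (.cons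 (t3 18 49 50) (.cons (t3 6 49 50) (.cons a173 (.cons a304 (.cons s72 (.cons (t2 6 7 24) (.cons a345 (.cons s163 (.cons (t3 3 7 18) (.cons a433 (.cons s139 .nil))))))))))))))))))))))))))))))))))))))))))))))))))))))))))))))))))))) (by decide +kernel)
theorem s1226 : Valid A [15, 1506, 2234, 394, 939, 932, 2778, 3017, 3043, 456, 2376, 1352, 2786, 968, 2275, 1378, 917, 942, 913] := rup _
  (.cons (t2 7 10 21) (.cons (t2 10 21 45) (.cons (t2 7 21 45) (.cons a210 (.cons (t1 21 23 49) (.cons a186 (.cons (t1 7 10 46) (.cons a189 (.cons s80 (.cons (t2 0 7 23) (.cons s1222 (.cons s130 (.cons a345 (.cons (t1 18 19 36) (.cons (t1 18 19 49) (.cons s584 (.cons (t1 19 45 49) (.cons (t1 21 22 45) (.cons (t2 22 45 49) (.cons s916 .nil)))))))))))))))))))) (by decide +kernel)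
theorem s1227 : Valid A [939, 932, 2778, 3043, 944, 968, 2275, 4707, 1378, 917, 2760, 942, 913] := rup _
  (.cons s1115 (.cons (t3 21 36 49) (.cons (t1 21 23 49) (.cons (t3 17 23 49) (.cons (t3 23 36 49) (.cons (t3 17 36 49) (.cons (t3 3 17 36) (.cons a406 (.cons a186 (.cons (t1 7 10 46) (.cons a189 (.cons s80 (.cons (t1 18 36 49) (.cons (t1 10 36 49) (.cons a210 (.cons (t2 7 8 21) (.cons (t1 7 21 24) (.cons (t2 7 10 21) (.cons (t2 7 21 45) (.cons a203 (.cons a143 (.cons a134 (.cons (t2 10 21 29) (.cons (t2 10 21 45) (.cons (t1 3 5 36) (.cons (t1 5 36 49) (.cons (t3 17 24 29) (.cons a216 (.cons (t1 11 23 49) (.cons s1226 (.cons (t3 0 7 21) (.cons a505 (.cons (t2 0 11 23) (.cons s1003 (.cons a383 (.cons (t2 36 45 49) (.cons s297 .nil))))))))))))))))))))))))))))))))))))) (by decide +kernel)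
theorem s1228 : Valid A [3043, 1340, 917, 3170, 1070, 913, 994] := rup _
  (.cons s1115 (.cons s1204 (.cons s563 (.cons (t3 17 36 49) (.cons (t3 3 17 36) (.cons (t1 7 36 49) (.cons s1131 (.cons a515 (.cons s1177 (.cons (t3 21 36 49) (.cons s38 (.cons a162 (.cons (t2 7 10 30) (.cons (t1 7 10 49) (.cons a186 (.cons (t1 7 10 46) (.cons a189 (.cons s80 (.cons (t2 7 8 23) (.cons (t3 17 23 49) (.cons (t1 21 23 49) (.cons s1216 (.cons s1225 (.cons a168 (.cons s534 (.cons (t3 24 30 34) (.cons a468 (.cons (t3 18 24 30) (.cons (t1 7 18 30) (.cons (t1 18 30 34) (.cons (t1 10 18 30) (.cons s1227 (.cons s201 (.cons (t1 7 10 21) (.cons s294 (.cons (t2 5 10 21) (.cons (t2 5 21 49) (.cons (t2 5 21 45) (.cons s133 (.cons s177 (.cons (t2 7 10 11) (.cons a383 (.cons s1224 (.cons (t1 7 10 45) (.cons s156 (.cons s118 (.cons a64 (.cons s494 (.cons a349 (.cons (t1 3 24 34) (.cons (t1 3 24 30) (.cons (t3 3 18 24) (.cons s429 (.cons s72 (.cons (t3 17 18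 19) (.cons (t2 18 19 24) (.cons (t2 18 19 34) (.cons (t3 3 19 34) (.cons a50 (.cons (t2 7 8 50) (.cons (t1 3 19 39) (.cons (t1 3 18 39) (.cons a429 (.cons a333 (.cons s551 (.cons (t2 17 23 39) (.cons a328 .nil))))))))))))))))))))))))))))))))))))))))))))))))))))))))))))))))))) (by decide +kernel)
theorem s1229 : Valid A [939, 2779, 2993, 3042, 944, 2786, 917, 942, 913] := rup _
  (.cons a208 (.cons (t1 7 21 23) (.cons (t2 7 8 21) (.cons (t1 7 21 24) (.cons (t2 7 10 21) (.cons (t1 7 21 45) (.cons (t3 5 7 45) (.cons (t3 21 23 45) (.cons a143 (.cons a134 (.cons (t1 10 21 45) (.cons s177 (.cons (t3 23 45 51) (.cons s10 (.cons a396 (.cons (t1 0 23 24) (.cons (t2 21 22 45) (.cons (t3 22 45 51) (.cons a505 (.cons (t2 0 21 22) (.cons a495 (.cons (t2 0 21 49) (.cons a491 (.cons (t2 22 23 49) .nil)))))))))))))))))))))))) (by decide +kernel)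
theorem s1230 : Valid A [2734, 918, 1066, 938, 4698, 2779, 2993, 3016, 942, 1070] := rup _
  (.cons (t3 21 23 45) (.cons s294 (.cons s321 (.cons s750 (.cons a383 (.cons (t2 0 11 23) .nil)))))) (by decide +kernel)
theorem s1231 : Valid A [2779, 1340, 917, 3170, 1070, 913, 994] := rup _
  (.cons (t2 7 8 23) (.cons (t1 7 10 23) (.cons (t1 7 10 49) (.cons a186 (.cons (t1 7 10 46) (.cons a189 (.cons s80 (.cons s1204 (.cons (t1 18 36 49) (.cons s1228 (.cons (t1 23 36 49) (.cons a483 (.cons (t1 10 18 23) (.cons (t1 7 18 23) (.cons (t1 24 46 49) (.cons (t1 23 46 49) (.cons a193 (.cons (t1 7 36 49) (.cons s1131 (.cons (t1 7 8 49) (.cons s563 (.cons (t1 8 17 49) (.cons (t1 10 36 49) (.cons s1177 (.cons (t3 21 36 49) (.cons (t1 24 36 49) (.cons s38 (.cons a162 (.cons (t2 7 8 10) (.cons a63 (.cons a344 (.cons (t3 21 36 45) (.cons (t1 21 45 49) (.cons s1229 (.cons s201 (.cons (t1 7 8 21) (.cons (t1 7 10 21) (.cons s569 (.cons (t3 7 21 45) (.cons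 a209 (.cons s26 (.cons (t2 5 8 21) (.cons (t1 5 21 45) (.cons (t3 8 21 45) (.cons s986 (.cons (t1 7 10 11) (.cons s132 (.cons a387 (.cons a79 (.cons s67 (.cons a87 (.cons (t3 2 21 45) (.cons (t3 2 5 45) (.cons s1230 (.cons a506 (.cons (t1 21 23 24) (.cons (t3 18 21 23) (.cons (t1 21 23 51) (.cons (t1 2 21 23) (.cons (t3 0 23 24) (.cons s498 (.cons (t1 0 2 23) (.cons (t2 21 24 45) (.cons (t3 3 21 24) (.cons (t1 2 21 24) (.cons (t1 18 21 45) (.cons (t2 18 19 21) (.cons (t3 2 18 21) (.cons a142 (.cons (t1 21 23 29) (.cons a64 (.cons a345 (.cons a349 (.cons s3 (.cons (t1 7 8 29) (.cons (t2 8 10 29) (.cons (t3 8 17 29) (.cons (t1 3 7 29) (.cons (t2 3 7 11) (.cons (t1 7 19 46) (.cons (t1 0 7 8) (.cons a147 (.cons s443 (.cons a383 (.cons s784 (.cons s395 (.cons (t1 4 7 29) (.cons (t3 18 38 45) (.cons (t3 0 2 11) (.cons a238 (.cons (t1 11 36 49) (.cons s124 (.cons (t1 21 23 52) (.cons (t1 0 11 49) (.cons (t2 11 28 49) (.cons s248 (.cons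 (t3 2 4 5) (.cons a223 (.cons a492 (.cons a537 (.cons (t1 8 12 49) (.cons (t2 12 45 49) (.cons (t1 21 24 30) (.cons (t2 17 22 49) (.cons (t2 11 25 28) (.cons (t3 24 30 34) (.cons a138 (.cons a77 (.cons a168 (.cons s413 (.cons (t2 22 23 29) (.cons (t3 8 22 29) (.cons (t3 3 22 29) (.cons (t3 2 7 25) (.cons (t2 2 24 25) (.cons (t2 2 18 25) (.cons (t2 2 4 25) (.cons a495 (.cons a58 (.cons (t1 8 22 51) (.cons (t1 3 7 16) (.cons a460 (.cons (t3 16 24 25) (.cons (t3 4 16 25) (.cons (t3 16 18 25) (.cons a254 (.cons (t3 9 16 24) (.cons (t3 9 16 18) (.cons a250 (.cons a265 (.cons s1211 (.cons (t2 8 10 38) (.cons s178 (.cons a356 (.cons a360 (.cons (t1 12 42 45) .nil)))))))))))))))))))))))))))))))))))))))))))))))))))))))))))))))))))))))))))))))))))))))))))))))))))))))))))))))))))))))))))))))))))))))) (by decide +kernel)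
theorem s1232 : Valid A [2914, 98, 2234, 2275] := rup _
  (.cons (t2 17 22 49) (.cons a491 (.cons a138 (.cons s8 .nil)))) (by decide +kernel)
theorem s1233 : Valid A [939, 2778, 932, 2993, 944, 2275, 4707, 917, 1070, 913, 994] := rup _
  (.cons s1115 (.cons (t3 3 17 49) (.cons a406 (.cons s1177 (.cons (t3 21 36 49) (.cons (t1 7 10 49) (.cons a186 (.cons (t1 7 10 46) (.cons a189 (.cons s80 (.cons (t2 7 8 23) (.cons a210 (.cons (t1 7 21 23) (.cons (t2 7 8 21) (.cons (t1 7 21 24) (.cons (t2 7 10 21) (.cons (t2 7 21 45) (.cons a203 (.cons a143 (.cons a134 (.cons (t2 10 21 45) (.cons (t1 5 36 49) (.cons s10 (.cons (t3 17 24 29) (.cons a216 (.cons (t1 0 23 24) (.cons a505 (.cons (t3 0 7 21) (.cons (t2 0 21 49) (.cons a384 (.cons (t3 7 11 21) (.cons s1232 (.cons (t1 7 22 49) (.cons (t1 10 22 49) (.cons (t1 18 22 49) (.cons (t1 3 22 49) (.cons a395 (.cons s301 (.cons (t3 3 22 45) (.cons (t3 19 22 45) (.cons s153 (.cons s130 (.cons s1221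 .nil))))))))))))))))))))))))))))))))))))))))))) (by decide +kernel)
theorem s1234 : Valid A [987, 1512, 5863, 2778, 2993, 3016, 944, 968, 956, 917, 2760, 942] := rup _
  (.cons a30 (.cons (t3 7 24 45) (.cons (t3 7 36 45) (.cons (t3 7 23 45) (.cons (t2 7 10 45) (.cons (t3 7 30 45) (.cons (t3 20 45 51) (.cons (t3 24 45 51) (.cons s384 (.cons s750 (.cons a396 (.cons a22 (.cons (t3 11 23 24) (.cons a238 (.cons s716 (.cons (t3 20 23 24) (.cons (t1 11 20 24) (.cons (t2 23 30 52) (.cons (t1 20 23 30) (.cons a33 (.cons a225 (.cons (t2 20 21 30) .nil)))))))))))))))))))))) (by decide +kernel)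
theorem s1235 : Valid A [2734, 3021, 1100, 4962, 738, 1066, 683, 938, 2993, 1072, 942] := rup _
  (.cons (t3 21 23 24) (.cons (t2 5 21 23) (.cons (t3 21 23 38) (.cons s202 (.cons (t3 5 23 38) (.cons s1188 (.cons s449 (.cons s472 .nil)))))))) (by decide +kernel)
theorem s1236 : Valid A [1340, 917, 3170, 1070, 913, 994] := rup _
  (.cons s1115 (.cons (t1 7 10 49) (.cons a186 (.cons (t1 7 10 46) (.cons a189 (.cons (t1 24 46 49) (.cons s80 (.cons (t2 7 8 23) (.cons (t1 7 10 23) (.cons (t2 7 8 10) (.cons s38 (.cons s1177 (.cons (t2 7 10 30) (.cons a162 (.cons s1204 (.cons s563 (.cons (t1 7 36 49) (.cons (t3 17 36 49) (.cons (t3 21 36 49) (.cons (t1 10 36 49) (.cons (t1 18 36 49) (.cons s1131 (.cons (t3 3 17 36) (.cons (t1 7 8 24) (.cons s1228 (.cons (t1 23 46 49) (.cons (t1 23 36 49) (.cons a193 (.cons a483 (.cons (t1 7 18 23) (.cons (t1 10 18 23) (.cons s1231 (.cons s1233 (.cons s201 (.cons (t1 7 8 21) (.cons (t1 7 10 21) (.cons (t2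 5 10 21) (.cons (t2 5 21 49) (.cons (t2 5 21 45) (.cons s986 (.cons s133 (.cons s177 (.cons a387 (.cons s67 (.cons s1234 (.cons (t1 7 10 45) (.cons s156 (.cons s118 (.cons s494 (.cons (t2 8 10 19) (.cons a349 (.cons s429 (.cons s72 (.cons (t2 18 19 23) (.cons (t2 7 8 50) (.cons a429 (.cons a330 (.cons (t1 38 46 49) (.cons a173 (.cons (t3 8 19 38) (.cons (t3 10 19 38) (.cons (t2 19 23 38) (.cons a158 (.cons (t1 30 34 38) (.cons (t3 23 30 38) (.cons s1235 (.cons a506 (.cons (t1 21 23 30) (.cons s498 (.cons a223 (.cons a142 (.cons (t1 21 23 52) (.cons s3 (.cons a238 (.cons (t1 0 7 8) (.cons s784 .nil)))))))))))))))))))))))))))))))))))))))))))))))))))))))))))))))))))))))))))) (by decide +kernel)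
theorem s1237 : Valid A [2779, 473, 3928, 483, 2748, 1353, 938, 4706, 934, 2760, 994] := rup _
  (.cons a61 (.cons a63 (.cons (t3 21 36 45) (.cons (t3 7 21 45) (.cons (t3 3 45 49) (.cons (t1 3 44 45) (.cons (t3 3 21 49) (.cons s727 (.cons s132 (.cons a79 (.cons (t2 2 44 45) (.cons s680 (.cons a215 (.cons (t3 2 21 45) (.cons s749 (.cons (t2 2 21 52) (.cons a222 (.cons a68 (.cons (t3 30 44 52) .nil))))))))))))))))))) (by decide +kernel)
theorem s1238 : Valid A [987, 2778, 5731, 783, 431, 483, 2479, 2531, 973, 3043, 2353, 945, 969, 4962, 934, 917, 2760, 913, 994] := rup _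
  (.cons a86 (.cons a88 (.cons (t2 7 24 45) (.cons (t2 7 8 45) (.cons (t2 7 36 45) (.cons (t2 7 10 45) (.cons (t3 7 19 45) (.cons (t2 7 38 45) (.cons (t1 6 7 45) (.cons (t1 2 6 7) (.cons s776 (.cons a357 (.cons a359 (.cons a380 (.cons a382 (.cons a396 (.cons a341 (.cons (t2 38 42 45) (.cons (t2 6 22 45) (.cons (t3 2 23 49) (.cons (t3 2 44 49) (.cons (t2 8 11 45) (.cons (t1 22 24 45) (.cons (t2 19 21 49) (.cons (t2 19 21 23) (.cons a70 (.cons a500 (.cons (t1 2 49 52) (.cons (t1 2 23 52) (.cons a71 (.cons (t2 3 12 49) (.cons (t3 6 22 52) (.cons s832 (.cons s597 (.cons (t3 11 21 23) (.cons a34 .nil)))))))))))))))))))))))))))))))))))) (by decide +kernel)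
theorem s1239 : Valid A [2786, 344, 294, 986, 2778, 5731, 783, 2531, 2748, 957] := rup _
  (.cons (t2 19 21 49) (.cons (t1 21 44 49) (.cons a341 (.cons (t3 2 19 45) (.cons a85 (.cons (t1 2 7 30) (.cons (t3 2 6 7) (.cons a73 (.cons (t1 2 30 52) (.cons a68 (.cons a222 (.cons (t3 21 44 52) .nil)))))))))))) (by decide +kernel)
theorem s1240 : Valid A [969, 3145, 4706, 933, 1318, 2365, 962, 957, 917, 1070, 913, 994] := rup _
  (.cons (t1 7 10 49) (.cons a186 (.cons (t1 7 10 46) (.cons a189 (.cons s429 (.cons (t2 7 8 50) (.cons a429 (.cons a330 (.cons (t1 38 46 49) (.cons (t2 7 10 19) (.cons s38 (.cons s1177 (.cons a188 (.cons s52 (.cons (t2 7 21 36) (.cons (t2 7 8 36) (.cons (t3 7 24 36) (.cons (t2 7 10 36) (.cons (t3 7 33 36) (.cons s127 (.cons (t3 7 21 30) (.cons (t3 8 24 36) (.cons a65 (.cons (t2 7 18 24) (.cons s106 (.cons (t3 34 46 49) (.cons (t2 34 38 49) (.cons s326 (.cons (t3 3 7 30) (.cons (t3 3 7 36) (.cons a479 (.cons (t3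 23 34 46) (.cons a158 (.cons (t1 23 46 49) (.cons a52 (.cons (t1 7 36 48) (.cons (t3 33 36 48) (.cons (t1 7 10 38) (.cons (t3 10 19 38) (.cons s176 (.cons a173 (.cons (t1 33 34 49) (.cons (t3 23 33 34) (.cons (t1 19 46 49) (.cons (t3 19 23 46) (.cons (t3 19 34 46) (.cons a311 (.cons (t1 3 33 49) (.cons (t3 3 23 33) (.cons a156 (.cons a304 (.cons (t3 27 34 49) (.cons s436 (.cons (t1 6 7 24) (.cons (t1 6 7 30) (.cons (t2 7 18 27) (.cons a301 (.cons a302 (.cons (t1 6 30 39) (.cons a277 (.cons a48 (.cons (t1 18 24 44) (.cons (t1 18 30 44) (.cons (t2 3 39 49) (.cons a269 (.cons (t2 39 44 49) (.cons (t1 3 39 44) (.cons s1237 (.cons s1238 (.cons s132 (.cons (t1 7 30 45) (.cons (t2 6 7 45) (.cons (t1 2 19 49) (.cons (t1 2 44 49) (.cons s1239 (.cons (t3 21 45 49) (.cons (t1 2 21 49) (.cons a79 (.cons (t2 2 30 45) (.cons (t2 2 6 45) (.cons s681 (.cons (t3 2 30 52) (.cons (t3 30 44 52) (.cons a68 .nil))))))))))))))))))))))))))))))))))))))))))))))))))))))))))))))))))))))))))))))))))))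 (by decide +kernel)
theorem s1241 : Valid A [4706, 917, 3170, 1070, 913, 994] := rup _
  (.cons s1115 (.cons (t1 7 10 49) (.cons a186 (.cons (t1 7 10 46) (.cons a189 (.cons s1236 (.cons a393 (.cons (t2 7 10 33) (.cons s429 (.cons (t2 7 8 50) (.cons a429 (.cons a330 (.cons (t1 38 46 49) (.cons s80 (.cons s1145 (.cons (t1 7 10 18) (.cons a352 (.cons (t1 10 30 49) (.cons a468 (.cons (t1 7 10 30) (.cons (t1 24 46 49) (.cons s38 (.cons (t1 36 46 49) (.cons a177 (.cons s1240 (.cons s1131 (.cons s1035 (.cons (t1 7 18 36) (.cons s454 (.cons s768 (.cons (t1 7 8 48) (.cons s142 (.cons (t1 17 46 49) (.cons a520 (.cons (t3 23 24 36) (.cons s88 (.cons (t2 23 24 48) (.cons (t3 23 34 36) (.cons a45 (.cons s127 (.cons a64 (.cons (t2 34 38 49) (.cons (t3 17 34 49) (.cons (t2 3 7 27) (.cons a158 (.cons a36 (.cons (t3 10 19 38) (.cons (t2 17 27 46) (.cons (t2 17 27 34) (.cons a173 (.cons (t3 19 27 46) (.cons a155 .nil))))))))))))))))))))))))))))))))))))))))))))))))))))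 (by decide +kernel)
theorem s1242 : Valid A [4451, 4293, 2358, 3043, 3045, 944, 3172, 6373, 2404, 1318, 5987, 1348, 994] := rup _
  (.cons a330 (.cons (t1 38 46 49) (.cons (t3 34 46 49) (.cons (t2 34 38 49) (.cons (t3 23 34 49) (.cons (t1 33 34 49) (.cons a158 (.cons a311 (.cons (t3 10 19 38) (.cons a304 (.cons (t3 6 49 50) (.cons a173 (.cons (t2 6 7 24) (.cons s163 (.cons (t3 19 34 46) (.cons a433 (.cons (t2 23 39 50) (.cons a156 (.cons (t3 18 27 39) (.cons (t2 23 27 34) (.cons a325 .nil))))))))))))))))))))) (by decide +kernel)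
theorem s1243 : Valid A [917, 3170, 1070, 913, 994] := rup _
  (.cons s1115 (.cons (t2 7 8 23) (.cons a186 (.cons s38 (.cons (t1 7 10 49) (.cons (t2 7 8 10) (.cons (t1 7 10 46) (.cons (t1 7 10 23) (.cons a189 (.cons s80 (.cons s1236 (.cons a393 (.cons (t1 7 10 30) (.cons (t1 10 30 49) (.cons s1145 (.cons (t2 7 10 33) (.cons (t2 8 10 33) (.cons a468 (.cons a352 (.cons (t1 7 10 18) (.cons (t1 8 10 18) (.cons (t1 10 18 23) (.cons s429 (.cons (t1 8 18 50) (.cons (t2 7 8 50) (.cons a429 (.cons (t3 24 49 50) (.cons s1241 (.cons a481 (.cons s563 (.cons (t1 7 36 49) (.cons (t3 17 36 49) (.cons (t1 18 36 49) (.cons (t1 36 49 50) (.cons s1131 (.cons (t3 3 17 36) (.cons a483 (.cons (t1 23 36 50) (.cons (t3 3 36 50) (.cons (t1 7 18 24) (.cons s768 (.cons (t1 23 36 49) (.cons (t2 23 36 48) (.cons (t1 7 18 27) (.cons a520 (.cons (t1 7 8 48) (.cons (t3 8 33 48) (.cons s176 (.cons s1242 (.cons (t1 34 36 49) (.cons (t2 33 34 49) (.cons s1026 (.cons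 s148 (.cons (t3 3 7 30) (.cons a304 (.cons (t3 6 7 18) (.cons s137 (.cons (t2 6 24 49) (.cons (t3 18 24 39) (.cons (t3 6 18 39) (.cons a300 .nil))))))))))))))))))))))))))))))))))))))))))))))))))))))))))))) (by decide +kernel)
theorem s1244 : Valid A [945, 969, 3170, 1070, 913, 994] := rup _
  (.cons s1243 (.cons (t2 7 8 23) (.cons s1122 (.cons s911 .nil)))) (by decide +kernel)
theorem s1245 : Valid A [969, 3170, 1070, 913, 994] := rup _
  (.cons s1115 (.cons s1243 (.cons (t1 7 8 10) (.cons a399 (.cons a186 (.cons (t1 7 36 46) (.cons s1244 (.cons s454 (.cons (t3 7 24 36) (.cons (t3 3 17 46) (.cons s1155 (.cons a177 (.cons (t1 3 24 46) (.cons (t2 10 23 46) (.cons a196 (.cons (t1 24 46 49) (.cons s329 (.cons a64 (.cons s1036 (.cons (t2 17 46 49) (.cons a189 (.cons a469 (.cons (t1 7 18 49) (.cons (t3 10 18 49) (.cons (t1 3 7 36) (.cons (t3 7 10 48) (.cons (t2 10 30 49) (.cons a350 (.cons a54 (.cons a345 (.cons (t1 3 7 33) (.cons s43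 (.cons s412 (.cons s429 (.cons (t1 17 34 49) (.cons (t2 7 8 50) (.cons s768 (.cons (t1 7 19 27) (.cons (t2 3 7 27) (.cons a154 (.cons a36 (.cons (t1 17 27 34) .nil)))))))))))))))))))))))))))))))))))))))))) (by decide +kernel)
theorem s1246 : Valid A [945, 4706, 3170, 1070, 913, 994] := rup _
  (.cons s1245 (.cons s1035 (.cons s150 (.cons s429 (.cons (t2 7 8 50) (.cons a429 (.cons s1243 (.cons (t1 7 8 10) (.cons a399 (.cons a188 (.cons a67 (.cons s158 (.cons (t2 7 8 24) (.cons s1122 (.cons (t1 7 24 48) (.cons s106 (.cons s326 (.cons s193 (.cons a44 (.cons a479 (.cons s74 (.cons s1155 (.cons (t3 3 36 48) (.cons (t2 10 18 23) (.cons s1093 (.cons a54 (.cons a349 (.cons (t1 7 17 49) (.cons (t2 7 17 24) (.cons (t1 7 17 18) (.cons (t3 3 33 48) (.cons a347 (.cons a513 (.cons s176 (.cons (t1 18 49 50) (.cons (t1 33 34 49) (.cons a434 (.cons a311 (.cons s739 (.cons a304 (.cons (t2 17 24 39) (.cons (t1 6 7 24) (.cons a301 .nil)))))))))))))))))))))))))))))))))))))))))))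 (by decide +kernel)
theorem s1247 : Valid A [2992, 3036, 476, 944, 992, 1070, 913] := rup _
  (.cons a193 (.cons s1036 (.cons (t1 3 24 46) .nil))) (by decide +kernel)
theorem s1248 : Valid A [4706, 3170, 1070, 913, 994] := rup _
  (.cons s1115 (.cons s1245 (.cons s1243 (.cons (t1 7 8 10) (.cons a399 (.cons s1035 (.cons s150 (.cons (t1 7 8 48) (.cons s429 (.cons a520 (.cons (t2 7 8 50) (.cons s88 (.cons (t1 10 23 48) (.cons a429 (.cons (t2 10 23 34) (.cons a330 (.cons (t3 24 49 50) (.cons s1246 (.cons s454 (.cons s189 (.cons (t3 3 17 46) (.cons s1155 (.cons (t1 3 49 50) (.cons s1247 (.cons a196 (.cons (t2 23 24 49) (.cons (t1 10 23 24) (.cons (t2 23 24 48) (.cons (t1 23 24 34) (.cons s160 (.cons (t1 23 48 49) (.cons a45 (.cons a47 (.cons a168 (.cons s80 (.cons (t1 36 46 49) (.cons a479 (.cons a64 (.cons s211 (.cons (t2 34 38 49) (.cons a177 (.cons (t3 23 36 48) (.cons (t3 10 36 48) (.cons (t2 3 7 33) (.cons a158 (.cons a484 (.cons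 a52 (.cons (t2 10 24 38) (.cons (t2 10 36 38) (.cons (t3 18 23 24) (.cons (t2 33 36 49) (.cons (t3 24 33 36) (.cons (t1 33 36 38) (.cons (t3 18 24 38) (.cons s148 (.cons a251 (.cons a252 (.cons (t3 9 33 38) (.cons a304 (.cons (t3 9 24 48) (.cons a265 (.cons (t2 6 48 49) (.cons (t2 6 18 49) (.cons a261 (.cons (t1 6 9 18) .nil))))))))))))))))))))))))))))))))))))))))))))))))))))))))))))))))) (by decide +kernel)
theorem s1249 : Valid A [1340, 963, 2353, 1329, 916, 3170, 994] := rup _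
  (.cons (t1 10 24 30) (.cons s183 (.cons s733 (.cons (t1 7 30 49) .nil)))) (by decide +kernel)
theorem s1250 : Valid A [2779, 3170, 1070, 913, 994] := rup _
  (.cons s1115 (.cons a188 (.cons s1243 (.cons (t1 7 8 10) (.cons a399 (.cons s1248 (.cons s563 (.cons (t1 7 17 49) (.cons s1093 (.cons s1155 (.cons s326 (.cons (t2 7 8 24) (.cons (t2 17 46 49) (.cons (t2 7 8 23) (.cons a515 (.cons (t3 17 36 49) (.cons (t3 17 18 36) (.cons (t2 17 36 46) (.cons (t1 23 36 46) (.cons a483 (.cons (t1 7 18 23) (.cons (t3 10 18 23) (.cons a350 (.cons a345 (.cons s1156 (.cons s150 (.cons s1245 (.cons (t3 3 17 36) (.cons s494 (.cons (t1 3 7 48) (.cons (t3 7 18 48) (.cons a186 (.cons (t1 7 19 46) (.cons s443 (.cons a480 (.cons (t2 17 48 49) (.cons (t1 17 46 48) (.cons a406 (.cons (t3 17 24 46) (.cons a193 (.cons (t1 10 23 24) (.cons (t1 18 23 24) (.cons s1249 (.cons a163 (.cons s128 (.cons (t2 38 46 48) (.cons s166 (.cons (t3 7 24 33) (.cons (t2 7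 33 48) (.cons (t1 9 33 48) (.cons a250 (.cons (t2 9 24 49) (.cons s167 (.cons (t3 3 6 48) (.cons (t3 6 7 48) (.cons (t2 10 23 30) (.cons (t1 3 7 8) (.cons s1177 (.cons (t3 21 36 49) (.cons a61 (.cons a63 (.cons (t3 21 36 45) (.cons (t1 21 45 49) (.cons (t1 3 7 45) (.cons (t1 3 6 45) (.cons (t1 3 7 21) (.cons (t1 3 8 21) (.cons s132 (.cons s297 (.cons a79 (.cons (t2 6 7 11) (.cons s1230 (.cons (t3 2 21 45) (.cons (t2 2 6 45) (.cons a506 (.cons (t1 21 23 30) (.cons s498 (.cons a223 (.cons a142 (.cons (t1 21 23 52) (.cons (t2 2 21 52) (.cons s3 (.cons a71 (.cons (t1 0 7 8) (.cons (t3 6 11 52) (.cons s784 (.cons a238 .nil))))))))))))))))))))))))))))))))))))))))))))))))))))))))))))))))))))))))))))))))))))))) (by decide +kernel)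
theorem s1251 : Valid A [939, 4685, 4963, 3133, 956, 3148, 944, 2993, 3144, 4707, 2760, 913, 994] := rup _
  (.cons a210 (.cons (t2 7 8 21) (.cons (t1 7 21 24) (.cons a203 (.cons a143 (.cons (t2 5 24 36) (.cons (t1 5 36 49) (.cons (t1 5 36 38) (.cons a134 (.cons a216 (.cons a199 (.cons (t1 23 24 29) (.cons (t2 24 29 30) (.cons (t1 24 29 38) (.cons (t1 11 38 49) (.cons (t3 38 42 49) (.cons a130 (.cons s490 (.cons (t3 11 23 29) (.cons (t1 11 29 30) (.cons s147 (.cons a241 (.cons (t1 11 30 52) .nil))))))))))))))))))))))) (by decide +kernel)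
theorem s1252 : Valid A [3170, 1070, 913, 994] := rup _
  (.cons s1115 (.cons s1177 (.cons (t2 7 8 23) (.cons a188 (.cons a186 (.cons s1243 (.cons (t1 7 8 10) (.cons a399 (.cons s1245 (.cons s1248 (.cons (t1 24 36 49) (.cons s563 (.cons (t3 17 36 49) (.cons (t3 21 36 49) (.cons a406 (.cons a515 (.cons (t1 7 17 49) (.cons (t3 3 17 36) (.cons (t3 17 18 36) (.cons s1093 (.cons s1155 (.cons (t2 17 46 49) (.cons (t2 17 36 46) (.cons (t3 17 24 46) (.cons s326 (.cons (t1 23 36 46) (.cons a193 (.cons (t2 7 8 24) (.cons a483 (.cons (t1 10 23 24) (.cons (t1 7 18 23) (.cons (t1 18 23 24) (.cons (t3 10 18 23) (.cons a350 (.cons a345 (.cons (t1 7 19 49) (.cons (t1 7 19 46) (.cons s1156 (.cons s443 (.cons s494 (.cons (t1 18 24 38) (.cons s1249 (.cons a163 (.cons (t3 7 10 30) (.cons (t2 10 24 30) (.cons s128 (.cons (t1 38 46 49) (.cons (t3 36 38 46) (.cons s1250 (.cons s1251 (.cons s201 (.cons (t1 7 19 21) (.cons s156 (.cons (t2 5 21 49) (.cons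 (t2 5 21 45) (.cons a341 (.cons a30 (.cons (t3 7 24 45) (.cons (t3 7 36 45) (.cons (t3 7 23 45) (.cons s177 (.cons (t3 20 45 51) (.cons (t2 19 20 45) (.cons s384 (.cons s750 (.cons (t3 24 45 51) (.cons a22 (.cons (t2 5 11 21) (.cons (t3 11 23 24) (.cons (t3 20 23 24) (.cons (t1 11 20 24) (.cons (t1 20 24 30) (.cons a215 (.cons a33 (.cons (t2 11 19 49) (.cons (t2 20 21 23) (.cons (t2 20 21 30) (.cons s292 (.cons a223 (.cons a238 (.cons (t1 21 23 52) .nil))))))))))))))))))))))))))))))))))))))))))))))))))))))))))))))))))))))))))))))))) (by decide +kernel)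
theorem s1253 : Valid A [4296, 4705, 452, 456] := rup _
  (.cons (t3 33 36 48) (.cons a52 (.cons s176 (.cons (t1 3 33 34) .nil)))) (by decide +kernel)
theorem s1254 : Valid A [917, 3171, 913, 994] := rup _
  (.cons s1115 (.cons (t1 7 24 49) (.cons a404 (.cons a171 (.cons a169 (.cons a186 (.cons s38 (.cons (t1 7 10 49) (.cons (t1 7 10 46) (.cons (t1 7 10 24) (.cons a189 (.cons s988 (.cons s80 (.cons (t3 24 46 49) (.cons (t1 17 46 49) (.cons (t1 34 46 49) (.cons (t3 24 38 49) (.cons (t3 24 38 46) (.cons a513 (.cons a178 (.cons s874 (.cons s1093 (.cons (t3 24 36 49) (.cons s40 (.cons (t1 3 7 17) (.cons (t2 7 10 17) (.cons (t1 7 17 18) (.cons a64 (.cons (t1 10 17 18) (.cons (t1 10 17 30) (.cons a346 (.cons a348 (.cons a45 (.cons (t2 3 24 36) (.cons (t2 3 24 34) (.cons a393 (.cons (t1 7 17 19) (.cons (t3 24 48 49) (.cons (t2 7 10 33) (.cons (t1 10 18 33) (.cons a479 (.cons s429 (.cons (t2 7 8 50) (.cons a429 (.cons (t1 24 49 50) (.cons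 a314 (.cons (t2 3 24 27) (.cons a36 (.cons (t1 17 27 34) (.cons (t3 17 19 27) (.cons a154 (.cons s82 (.cons (t2 19 34 46) (.cons s443 (.cons a173 (.cons (t1 19 38 48) (.cons s1253 (.cons (t2 33 36 49) (.cons (t3 18 33 36) (.cons s148 (.cons (t3 18 36 48) (.cons a304 (.cons (t3 6 7 18) (.cons s166 (.cons (t2 6 48 49) (.cons (t2 6 38 49) (.cons a261 (.cons (t1 6 9 18) (.cons (t1 6 9 38) (.cons a265 .nil)))))))))))))))))))))))))))))))))))))))))))))))))))))))))))))))))))))) (by decide +kernel)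
theorem s1255 : Valid A [969, 4706, 3171, 913, 994] := rup _
  (.cons s1115 (.cons (t2 24 36 49) (.cons s1254 (.cons (t1 7 24 49) (.cons a404 (.cons a171 (.cons a186 (.cons s52 (.cons (t1 7 36 46) (.cons s140 (.cons a177 (.cons a190 (.cons a191 (.cons s80 (.cons (t1 17 46 49) (.cons (t1 10 24 46) (.cons a513 (.cons s1093 (.cons (t1 3 7 17) (.cons (t3 7 10 17) (.cons (t1 7 17 18) (.cons a64 (.cons (t3 3 7 36) (.cons (t3 10 17 18) (.cons a346 (.cons a348 (.cons (t2 7 18 36) (.cons a45 (.cons (t2 3 24 34) (.cons s1145 (.cons (t1 7 17 19) (.cons a349 (.cons (t3 24 48 49) (.cons (t1 10 19 24) (.cons (t1 10 19 46) (.cons a479 (.cons s1253 (.cons (t3 7 33 36) (.cons (t3 18 33 36) (.cons (t2 33 34 36) (.cons s183 (.cons s637 (.cons (t3 7 24 30) (.cons (t2 7 18 30) (.cons a160 (.cons (t2 10 19 34) (.cons (t2 19 34 38) (.cons a173 (.cons (t1 38 46 49) (.cons a330 (.cons a429 (.cons (t2 7 18 50) (.cons a434 (.cons (t1 18 30 39) (.cons (t2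 17 18 39) (.cons s1166 (.cons a333 (.cons (t3 19 24 39) .nil)))))))))))))))))))))))))))))))))))))))))))))))))))))))))) (by decide +kernel)
theorem s1256 : Valid A [1454, 1438, 569, 2010, 1336, 738, 713, 3043, 1327] := rup _
  (.cons (t2 10 11 23) (.cons (t3 11 23 49) (.cons a387 (.cons a215 (.cons (t3 11 15 28) (.cons (t3 4 11 28) (.cons (t2 5 11 36) (.cons (t2 4 15 28) (.cons (t1 4 11 36) (.cons a382 (.cons a99 (.cons (t2 4 36 45) .nil)))))))))))) (by decide +kernel)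
theorem s1257 : Valid A [939, 432, 4706, 1070, 913, 994] := rup _
  (.cons s1252 (.cons (t1 7 24 49) (.cons s1255 (.cons s1035 (.cons s150 (.cons s429 (.cons (t1 7 8 33) (.cons a171 (.cons (t2 24 36 49) (.cons s413 (.cons (t3 24 33 49) (.cons (t2 7 8 50) (.cons a429 (.cons (t3 33 49 50) (.cons s712 (.cons a109 (.cons (t1 7 15 24) (.cons (t1 24 49 50) (.cons a314 (.cons (t3 24 27 49) (.cons s877 (.cons a319 (.cons (t2 7 15 27) (.cons (t1 14 15 27) (.cons a92 (.cons s1254 (.cons (t1 7 8 10) (.cons a399 (.cons s1036 (.cons (t1 10 23 24) (.cons (t3 10 14 24) (.cons (t2 10 24 36) (.cons (t1 23 24 49) (.cons (t1 10 23 49) (.cons (t3 14 23 24) (.cons s148 (.cons a304 (.cons (t3 6 24 49) (.cons (t3 6 23 24) (.cons a64 (.cons (t1 14 24 49) (.cons a318 (.cons s1177 (.cons (t2 7 8 23) (.cons a210 (.cons (t1 7 21 49) (.cons (t1 7 21 23) (.cons (t2 7 8 21) (.cons (t3 7 10 21) (.cons (t1 3 7 21) (.cons (t3 7 14 21) (.cons (t2 7 15 21) (.cons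 a203 (.cons s680 (.cons a143 (.cons s986 (.cons a62 (.cons a63 (.cons (t2 15 21 45) (.cons s377 (.cons (t1 10 14 28) (.cons (t1 3 7 45) (.cons s13 (.cons (t3 10 29 49) (.cons (t3 14 29 49) (.cons s132 (.cons (t1 0 23 49) (.cons a147 (.cons (t1 4 14 29) (.cons (t1 2 10 49) (.cons (t1 2 6 49) (.cons a505 (.cons (t3 4 29 49) (.cons a538 (.cons (t3 0 7 21) (.cons s20 (.cons a384 (.cons (t3 7 11 15) (.cons s1256 (.cons a239 (.cons (t1 11 23 49) (.cons (t3 6 11 23) (.cons (t3 11 14 23) (.cons (t2 10 23 52) (.cons (t2 6 23 52) (.cons a299 (.cons a71 (.cons (t3 11 35 49) (.cons (t1 11 14 35) (.cons (t2 2 4 52) (.cons a416 (.cons a407 (.cons (t3 2 4 35) (.cons (t1 4 35 52) (.cons (t1 7 21 35) (.cons (t1 2 7 35) (.cons (t2 7 35 52) (.cons a85 (.cons s109 (.cons (t3 2 10 45) (.cons (t3 10 22 49) (.cons a395 (.cons s916 (.cons (t1 21 22 45) .nil))))))))))))))))))))))))))))))))))))))))))))))))))))))))))))))))))))))))))))))))))))))))))))))))))))))))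 (by decide +kernel)
theorem s1258 : Valid A [2779, 3788, 938, 3917, 3016, 3043, 2993, 968, 1327, 2760, 1070, 913] := rup _
  (.cons s201 (.cons s26 (.cons (t1 7 8 21) (.cons (t2 7 8 23) (.cons (t3 21 36 45) (.cons s569 (.cons (t1 7 8 11) (.cons s1230 (.cons a506 (.cons (t1 21 23 49) (.cons (t3 10 21 23) (.cons (t2 21 23 45) (.cons (t1 21 23 51) (.cons (t3 0 23 49) (.cons s498 (.cons (t2 21 45 49) (.cons (t1 10 21 45) (.cons a142 (.cons a396 (.cons s3 (.cons (t3 8 11 29) (.cons (t1 22 23 45) (.cons (t3 22 45 49) (.cons (t1 0 7 8) (.cons a130 (.cons a495 (.cons a491 (.cons a383 (.cons (t3 11 30 38) (.cons a475 (.cons (t2 0 22 30) (.cons (t1 0 11 30) .nil)))))))))))))))))))))))))))))))) (by decide +kernel)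
theorem s1259 : Valid A [1340, 4706, 1070, 913, 994] := rup _
  (.cons s1115 (.cons s1252 (.cons s1255 (.cons s1035 (.cons s150 (.cons s429 (.cons (t2 7 8 50) (.cons a429 (.cons (t1 24 49 50) (.cons a314 (.cons (t3 24 27 49) (.cons (t1 7 8 33) (.cons a171 (.cons (t2 24 36 49) (.cons (t1 7 24 49) (.cons s413 (.cons (t3 24 33 49) (.cons (t3 33 49 50) (.cons s712 (.cons a109 (.cons s877 (.cons a318 (.cons s148 (.cons a304 (.cons (t3 6 24 49) (.cons a301 (.cons (t1 7 15 24) (.cons a319 (.cons (t2 7 15 27) (.cons (t1 14 15 27) (.cons a92 (.cons (t2 14 24 39) (.cons a439 (.cons s54 (.cons s1254 (.cons (t1 7 8 10) (.cons a399 (.cons s48 (.cons (t1 7 8 48) (.cons a520 (.cons s88 (.cons (t2 10 23 34) (.cons (t3 7 10 27) (.cons s196 (.cons (t3 10 19 23) (.cons a330 (.cons (t2 24 38 49) (.cons s141 (.cons s1177 (.cons (t2 7 8 23) (.cons s37 (.cons (t1 10 23 30) (.cons a162 (.cons s50 (.cons (t1 24 30 34) (.cons (t2 30 34 39) (.cons s1166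 (.cons a64 (.cons s1036 (.cons s145 (.cons (t1 3 7 17) (.cons (t2 3 7 36) (.cons a196 (.cons (t1 23 24 49) (.cons (t1 10 23 24) (.cons (t2 23 24 36) (.cons (t3 24 33 48) (.cons s1093 (.cons a52 (.cons (t3 24 46 49) (.cons (t3 19 23 49) (.cons (t2 10 24 38) (.cons s176 (.cons (t1 21 33 36) (.cons s138 (.cons a158 (.cons (t1 33 34 38) (.cons (t1 7 18 49) (.cons (t2 18 19 49) (.cons (t3 8 34 38) (.cons (t1 30 34 38) (.cons (t3 21 33 38) (.cons a345 (.cons s1257 (.cons s201 (.cons (t1 7 8 21) (.cons (t1 7 19 21) (.cons s1188 (.cons s1258 (.cons s156 (.cons (t2 5 21 45) (.cons a341 (.cons a30 (.cons a86 (.cons a88 (.cons (t1 7 45 49) (.cons (t3 7 23 45) (.cons (t3 7 30 45) (.cons s177 (.cons (t3 20 45 51) (.cons (t2 19 20 45) (.cons s776 (.cons s716 (.cons (t3 45 49 51) (.cons s368 (.cons (t3 2 6 49) (.cons (t3 7 22 45) (.cons (t3 2 20 49) (.cons a73 (.cons a227 (.cons (t1 2 20 52) (.cons (t1 7 19 52) (.cons a14 .nil)))))))))))))))))))))))))))))))))))))))))))))))))))))))))))))))))))))))))))))))))))))))))))))))))))))))))))))))))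 (by decide +kernel)
theorem s1260 : Valid A [433, 3918, 3937, 3150] := rup _
  (.cons a45 (.cons s1166 (.cons (t1 24 30 48) .nil))) (by decide +kernel)
theorem s1261 : Valid A [4706, 1070, 913, 994] := rup _
  (.cons s1252 (.cons s1254 (.cons (t1 7 8 10) (.cons a399 (.cons (t1 7 24 49) (.cons a171 (.cons (t2 24 36 49) (.cons s1255 (.cons s1035 (.cons s413 (.cons s150 (.cons (t1 7 8 48) (.cons (t3 24 33 49) (.cons s141 (.cons (t1 7 8 33) (.cons s429 (.cons a520 (.cons s148 (.cons (t2 7 8 50) (.cons (t1 10 23 48) (.cons a304 (.cons a429 (.cons (t3 6 24 49) (.cons (t1 24 49 50) (.cons (t3 33 49 50) (.cons a301 (.cons a314 (.cons s712 (.cons (t3 24 27 49) (.cons a109 (.cons (t1 7 15 24) (.cons s877 (.cons (t2 7 15 27) (.cons a318 (.cons a319 (.cons (t1 14 15 27) (.cons a92 (.cons (t2 14 24 39) (.cons a439 (.cons (t3 7 10 39) (.cons s1259 (.cons a393 (.cons (t2 10 23 30) (.cons (t2 10 30 48) (.cons (t1 10 30 39) (.cons (t1 10 23 33)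 (.cons s1260 (.cons a64 (.cons s1036 (.cons (t2 3 7 36) (.cons a196 (.cons a52 (.cons a177 (.cons s1169 .nil)))))))))))))))))))))))))))))))))))))))))))))))))))))) (by decide +kernel)
theorem s1262 : Valid A [432, 1340, 1070, 913, 994] := rup _
  (.cons s1115 (.cons s1252 (.cons s1261 (.cons (t3 24 36 49) (.cons a178 (.cons (t3 24 46 49) (.cons a480 (.cons (t2 24 48 49) (.cons a169 (.cons (t1 34 36 49) (.cons s1254 (.cons (t1 7 24 49) (.cons a171 (.cons a64 (.cons s145 (.cons (t3 3 24 36) (.cons (t1 3 7 17) (.cons s1026 (.cons s1093 (.cons s51 (.cons (t3 7 24 33) (.cons (t2 7 33 48) (.cons (t3 7 10 33) (.cons s183 (.cons s138 (.cons s370 (.cons (t1 3 7 30) (.cons (t3 18 24 49) (.cons (t1 7 18 49) (.cons a161 (.cons (t2 10 34 49) (.cons (t2 10 24 34) (.cons a50 (.cons (t1 10 18 24) (.cons s193 (.cons a189 (.cons (t1 3 7 39) (.cons a349 (.cons (t3 10 19 46) (.cons (t3 10 38 46) (.cons (t2 18 19 49) (.cons a173 (.cons (t1 18 19 38)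 (.cons (t2 19 38 49) (.cons a266 (.cons a330 (.cons (t3 9 18 24) (.cons a429 (.cons (t2 18 49 50) (.cons a250 (.cons (t3 7 39 50) (.cons a433 (.cons (t1 9 33 48) (.cons (t2 18 24 39) (.cons a262 (.cons a301 (.cons (t1 6 7 48) (.cons (t3 6 24 49) (.cons a304 .nil))))))))))))))))))))))))))))))))))))))))))))))))))))))))))) (by decide +kernel)
theorem s1263 : Valid A [3043, 1340, 5986, 4707, 1327, 2274, 4450, 913] := rup _
  (.cons (t1 10 23 30) (.cons (t1 10 23 49) (.cons (t3 23 36 49) (.cons (t3 23 30 49) (.cons (t2 10 34 49) (.cons a484 (.cons a162 (.cons (t3 18 23 49) (.cons s50 (.cons a513 (.cons a468 (.cons s138 (.cons (t1 17 18 30) (.cons s1093 (.cons (t1 7 17 30) .nil))))))))))))))) (by decide +kernel)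
theorem s1264 : Valid A [1340, 1070, 913, 994] := rup _
  (.cons s1252 (.cons s1261 (.cons (t3 24 36 49) (.cons a178 (.cons (t3 24 46 49) (.cons a169 (.cons (t1 34 36 49) (.cons a404 (.cons (t1 17 36 49) (.cons (t1 7 36 49) (.cons s1254 (.cons (t1 7 8 10) (.cons a399 (.cons (t1 7 8 49) (.cons s1262 (.cons (t1 3 24 49) (.cons (t1 3 24 36) (.cons a54 (.cons (t1 3 24 33) (.cons (t3 3 33 49) (.cons s1263 (.cons (t1 23 24 49) (.cons (t2 10 23 49) (.cons (t1 23 36 49) (.cons a193 (.cons a189 (.cons s142 (.cons s74 (.cons s63 (.cons (t1 18 36 49) (.cons (t1 7 18 36) (.cons (t3 18 24 36) (.cons (t2 18 34 36) (.cons s1024 (.cons s193 (.cons (t2 24 30 49) (.cons a349 (.cons (t1 18 19 34) (.cons (t2 18 19 49) (.cons s1173 (.cons s150 (.cons s1172 .nil)))))))))))))))))))))))))))))))))))))))))) (by decide +kernel)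
theorem s1265 : Valid A [432, 1070, 913, 994] := rup _
  (.cons s1115 (.cons s1252 (.cons s1254 (.cons (t1 7 8 10) (.cons a399 (.cons s1264 (.cons (t2 10 23 30) (.cons (t3 7 10 30) (.cons a163 (.cons s1261 (.cons (t3 24 36 49) (.cons a178 (.cons (t3 24 46 49) (.cons (t1 7 24 49) (.cons a171 (.cons a169 (.cons a186 (.cons (t3 3 24 49) (.cons a64 (.cons s16 (.cons (t1 3 7 17) (.cons (t2 3 7 30) (.cons s1093 (.cons s71 (.cons s138 (.cons a469 (.cons a471 (.cons (t3 18 24 49) (.cons (t1 7 18 49) (.cons (t1 3 18 49) (.cons (t2 18 34 49) (.cons (t2 24 30 49) (.cons (t2 10 30 49) (.cons (t2 10 18 30) (.cons s139 (.cons s193 (.cons (t2 10 24 30) (.cons (t2 23 24 30) (.cons a189 (.cons a349 (.cons (t3 10 19 46) (.cons s988 (.cons a193 (.cons (t3 17 18 19) (.cons (t2 18 19 24) (.cons (t1 18 19 34) (.cons (t2 18 19 49) (.cons (t1 18 19 39) (.cons (t2 19 24 38) (.cons (t3 17 23 46) (.cons a333 (.cons a173 (.cons (t2 17 23 39) (.cons s804 (.cons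 a326 (.cons a429 (.cons (t2 17 23 27) (.cons (t1 24 49 50) (.cons (t1 19 49 50) (.cons a36 (.cons a316 (.cons (t2 19 27 50) (.cons (t1 3 27 34) (.cons a154 .nil)))))))))))))))))))))))))))))))))))))))))))))))))))))))))))))))) (by decide +kernel)
theorem s1266 : Valid A [933, 1070, 913, 994] := rup _
  (.cons s1115 (.cons s1252 (.cons s1265 (.cons (t1 3 24 49) (.cons s1261 (.cons (t3 24 36 49) (.cons (t1 3 24 36) (.cons a54 (.cons (t3 3 33 49) (.cons s1254 (.cons s1264 (.cons (t3 7 10 30) (.cons a163 (.cons a178 (.cons (t1 7 36 49) (.cons (t1 7 8 10) (.cons a399 (.cons a404 (.cons a348 (.cons s41 (.cons (t1 7 18 49) (.cons (t3 7 10 18) (.cons (t1 7 18 36) (.cons (t1 7 18 30) (.cons a349 (.cons a513 (.cons s1145 (.cons (t1 10 17 18) (.cons s142 (.cons a468 (.cons (t3 10 17 19) (.cons (t2 10 19 30) (.cons (t2 10 19 23) (.cons (t2 10 19 49) (.cons (t1 10 19 34) (.cons (t3 7 17 18) (.cons (t2 17 18 34) (.cons (t2 10 23 49) (.cons (t3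 3 23 36) (.cons (t3 3 30 49) (.cons (t3 3 19 30) (.cons s1173 (.cons s398 (.cons a50 (.cons a112 (.cons a447 (.cons a448 (.cons (t2 23 27 49) (.cons (t3 3 39 49) (.cons (t1 3 19 39) (.cons (t1 7 17 41) (.cons a95 (.cons a114 (.cons a333 (.cons (t1 17 39 41) (.cons (t1 15 41 49) (.cons a442 .nil))))))))))))))))))))))))))))))))))))))))))))))))))))))))) (by decide +kernel)
theorem s1267 : Valid A [2402, 932, 5986, 2274, 913] := rup _
  (.cons a513 (.cons s138 (.cons (t1 7 17 18) (.cons s1093 .nil)))) (by decide +kernel)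
theorem s1268 : Valid A [1070, 913, 994] := rup _
  (.cons s1115 (.cons a186 (.cons s1252 (.cons a169 (.cons a171 (.cons a404 (.cons s1254 (.cons s1261 (.cons (t3 24 36 49) (.cons a178 (.cons (t3 24 46 49) (.cons s1264 (.cons a163 (.cons a165 (.cons s1265 (.cons (t1 3 24 49) (.cons s1266 (.cons s193 (.cons s1267 (.cons a469 (.cons a471 (.cons a516 (.cons (t3 18 24 49) (.cons (t2 18 34 49) (.cons (t2 24 30 49) (.cons (t2 10 30 49) (.cons (t2 3 30 49) (.cons (t2 10 18 30) (.cons (t2 10 24 30) (.cons a189 (.cons a349 (.cons s988 (.cons (t3 10 19 46) (.cons (t3 17 18 19) (.cons (t2 18 19 24) (.cons (t1 18 19 34) (.cons (t2 18 19 49) (.cons (t2 19 24 38) (.cons a173 (.cons s804 (.cons a429 (.cons (t1 24 49 50) (.cons (t1 18 49 50) (.cons (t1 19 49 50) (.cons (t1 3 49 50) (.cons a314 (.cons a316 (.cons a435 (.cons (t2 19 27 50) (.cons (t2 19 39 50) (.cons (t2 3 39 50) (.cons (t2 3 24 27) (.cons a154 (.cons a333 (.cons a48 (.cons a36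 (.cons (t2 27 30 34) (.cons (t3 17 30 39) (.cons (t2 17 27 30) .nil))))))))))))))))))))))))))))))))))))))))))))))))))))))))))) (by decide +kernel)
theorem s1269 : Valid A [945, 4706, 3170, 913, 994] := rup _
  (.cons s1115 (.cons s1268 (.cons a522 (.cons (t2 7 8 48) (.cons s150 (.cons s429 (.cons (t2 7 8 50) (.cons a429 (.cons a330 (.cons (t1 7 8 23) (.cons a521 (.cons a400 (.cons a186 (.cons a67 (.cons s158 (.cons (t1 7 24 46) (.cons (t1 7 24 48) (.cons a44 (.cons s106 (.cons (t2 34 38 49) (.cons (t3 3 17 48) (.cons a479 (.cons (t1 24 36 48) (.cons (t1 17 36 48) (.cons (t1 23 36 48) (.cons a177 (.cons s78 (.cons (t1 36 46 49) (.cons (t3 17 36 46) (.cons a483 (.cons s1093 (.cons (t3 7 18 23) (.cons (t1 10 18 23) (.cons (t1 7 17 49) (.cons a348 (.cons s685 (.cons a349 (.cons a189 (.cons (t1 10 34 49) (.cons (t2 10 19 46) (.cons a158 (.cons a175 (.cons (t2 10 38 46) .nil))))))))))))))))))))))))))))))))))))))))))) (by decide +kernel)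
theorem s1270 : Valid A [944, 3170, 913, 994] := rup _
  (.cons s1268 (.cons a188 (.cons a186 (.cons s454 (.cons (t1 7 8 24) (.cons s817 (.cons (t3 17 24 46) (.cons s1032 .nil)))))))) (by decide +kernel)
theorem s1271 : Valid A [2779, 3942, 1322, 2735, 682, 1340] := rup _
  (.cons (t3 5 21 45) (.cons (t3 10 21 45) (.cons (t2 21 23 45) (.cons s177 (.cons (t1 23 45 51) (.cons a496 (.cons a498 (.cons (t3 22 23 45) (.cons a472 (.cons a395 (.cons (t1 10 22 30) .nil))))))))))) (by decide +kernel)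
theorem s1272 : Valid A [939, 3913, 444, 3004, 1319, 1340, 456, 968, 398, 916, 943] := rup _
  (.cons a210 (.cons (t1 7 21 36) (.cons (t2 7 21 23) (.cons (t3 7 10 21) (.cons (t3 3 7 21) (.cons a203 (.cons s32 (.cons (t1 3 5 36) (.cons (t2 30 36 51) (.cons s1271 (.cons a60 (.cons (t1 21 23 45) (.cons s118 (.cons (t3 3 30 45) (.cons (t3 3 5 45) (.cons a396 (.cons s177 (.cons s716 .nil)))))))))))))))))) (by decide +kernel)
theorem s1273 : Valid A [2761, 1370, 2779, 938, 3913, 943, 1326] := rup _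
  (.cons a204 (.cons (t3 21 30 36) (.cons a207 (.cons (t3 5 21 45) (.cons (t2 21 30 45) (.cons s22 (.cons s177 (.cons (t1 7 23 51) (.cons (t1 30 45 51) (.cons s929 (.cons a473 (.cons (t1 22 45 51) .nil)))))))))))) (by decide +kernel)
theorem s1274 : Valid A [2779, 938, 2509, 1100, 3913, 3004, 1319, 1378, 3016, 968, 4707, 2993, 4962, 943, 1326, 913] := rup _
  (.cons (t1 7 8 21) (.cons (t3 7 21 23) (.cons (t1 10 36 49) (.cons a342 (.cons a344 (.cons (t3 21 23 45) (.cons (t2 10 19 45) (.cons (t2 10 19 21) (.cons (t3 19 21 38) (.cons s1188 (.cons s1273 (.cons (t3 21 36 49) (.cons (t1 21 30 36) (.cons s201 (.cons (t3 21 36 45) (.cons s569 (.cons s986 (.cons (t2 5 21 49) (.cons (t2 5 10 21) (.cons (t2 5 21 38) (.cons s750 (.cons (t1 7 8 11) (.cons s133 (.cons s472 (.cons a387 (.cons a130 (.cons s67 (.cons (t3 8 11 29) (.cons a238 (.cons a142 (.cons (t2 23 24 52) (.cons (t3 23 30 52) (.cons (t1 21 29 30) (.cons s331 .nil))))))))))))))))))))))))))))))))))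 (by decide +kernel)
theorem s1275 : Valid A [2761, 2778, 938, 3913, 3004, 1319, 1352, 456, 430, 398] := rup _
  (.cons a204 (.cons (t1 3 21 36) (.cons (t1 10 21 36) (.cons (t3 21 30 36) (.cons a207 (.cons a60 (.cons s118 (.cons (t1 21 30 45) (.cons (t1 3 5 7) (.cons (t3 3 23 45) (.cons (t3 3 5 45) (.cons a396 (.cons s177 (.cons s716 .nil)))))))))))))) (by decide +kernel)
theorem s1276 : Valid A [1371, 5863, 3004, 1340, 1326] := rup _
  (.cons a396 (.cons (t3 10 23 45) (.cons (t3 10 30 45) (.cons s716 .nil)))) (by decide +kernel)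
theorem s1277 : Valid A [2906, 5863, 3004, 1340, 1326] := rup _
  (.cons s1276 (.cons a395 (.cons s929 (.cons (t3 22 45 51) (.cons (t1 10 22 30) (.cons (t3 23 30 51) (.cons a472 .nil))))))) (by decide +kernel)
theorem s1278 : Valid A [3170, 913, 994] := rup _
  (.cons s1268 (.cons a522 (.cons (t2 7 8 48) (.cons s150 (.cons s429 (.cons (t2 7 8 50) (.cons a429 (.cons a330 (.cons a402 (.cons (t2 7 8 10) (.cons (t1 7 8 49) (.cons (t1 8 23 49) (.cons s37 (.cons (t1 8 23 34) (.cons (t1 7 8 23) (.cons a400 (.cons a186 (.cons s1270 (.cons a65 (.cons a67 (.cons s47 (.cons s158 (.cons (t2 7 8 24) (.cons (t1 7 24 46) (.cons (t3 7 10 24) (.cons (t1 7 24 48) (.cons (t2 7 23 24) (.cons s1269 (.cons (t3 3 7 23) (.cons a44 (.cons (t3 34 36 49) (.cons (t2 34 38 49) (.cons (t1 24 36 49) (.cons s563 (.cons (t1 7 36 49) (.cons (t3 17 36 49) (.cons (t1 23 36 49) (.cons s18 (.cons (t3 3 34 36) (.cons a177 (.cons a514 (.cons a515 (.cons (t3 17 18 36)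 (.cons (t2 36 46 49) (.cons a483 (.cons a190 (.cons (t3 7 18 23) (.cons (t1 10 18 23) (.cons (t1 10 36 49) (.cons (t1 10 34 49) (.cons a348 (.cons s1145 (.cons a162 (.cons s988 (.cons a158 (.cons a349 (.cons (t1 23 30 34) (.cons (t1 3 30 34) (.cons (t1 30 34 49) (.cons (t1 30 34 36) (.cons (t2 8 24 38) (.cons (t2 10 19 38) (.cons s1272 (.cons (t3 7 21 23) (.cons s1274 (.cons s1275 (.cons s201 (.cons (t2 5 21 45) (.cons s177 (.cons s1277 (.cons (t1 22 45 51) (.cons a473 (.cons a475 (.cons a497 (.cons (t1 30 36 51) (.cons (t3 22 30 49) (.cons (t2 7 22 23) (.cons (t1 36 45 51) (.cons s630 (.cons (t3 7 22 45) (.cons s376 (.cons s384 (.cons a505 (.cons s297 (.cons a383 (.cons (t2 0 11 21) .nil)))))))))))))))))))))))))))))))))))))))))))))))))))))))))))))))))))))))))))))))))))))) (by decide +kernel)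
theorem s1279 : Valid A [913, 994] := rup _
  (.cons s1115 (.cons a188 (.cons (t1 7 8 49) (.cons s1268 (.cons a402 (.cons a522 (.cons (t2 7 8 10) (.cons (t2 7 8 48) (.cons s150 (.cons s429 (.cons (t2 7 8 50) (.cons a429 (.cons a330 (.cons s1278 (.cons a404 (.cons a405 (.cons (t1 7 24 49) (.cons (t1 8 24 49) (.cons (t1 24 49 50) (.cons (t2 24 38 49) (.cons s1032 (.cons a314 (.cons s75 (.cons (t2 24 46 49) (.cons (t3 17 24 46) (.cons (t3 24 38 46) (.cons (t3 18 24 49) (.cons a191 (.cons s1093 (.cons a513 (.cons s40 (.cons (t1 3 7 17) (.cons (t3 7 10 17) (.cons (t3 10 17 18) (.cons (t1 7 17 18) (.cons a64 (.cons a348 (.cons (t2 3 24 27) (.cons a349 (.cons a36 (.cons (t1 10 19 46) (.cons (t1 17 27 34) (.cons (t3 10 17 27) (.cons a173 (.cons s196 (.cons (t1 10 19 38) (.cons a161 .nil))))))))))))))))))))))))))))))))))))))))))))))) (by decide +kernel)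
theorem s1280 : Valid A [5987, 917, 3170, 1070, 994] := rup _
  (.cons (t1 7 10 49) (.cons s1279 (.cons (t3 7 8 10) (.cons a399 (.cons (t1 10 23 49) (.cons (t1 7 10 23) (.cons s80 (.cons (t1 24 46 49) (.cons (t1 7 46 49) (.cons (t1 23 46 49) (.cons a193 (.cons a185 (.cons (t1 7 23 24) (.cons a182 (.cons (t1 8 46 49) (.cons s158 (.cons (t3 8 17 49) (.cons (t3 8 34 49) (.cons s106 (.cons a403 (.cons s563 (.cons a513 (.cons s62 (.cons a479 (.cons (t1 36 46 49) (.cons (t2 17 18 24) (.cons a520 (.cons (t3 23 36 48) (.cons a177 (.cons (t1 18 24 36) (.cons a485 .nil))))))))))))))))))))))))))))))) (by decide +kernel)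
theorem s1281 : Valid A [4451, 404, 4429, 1319, 2275, 944, 1348, 3170, 994] := rup _
  (.cons s1115 (.cons (t2 34 38 49) (.cons a330 (.cons a429 (.cons s714 (.cons (t2 17 27 49) (.cons (t1 27 34 49) (.cons a36 (.cons s196 (.cons (t3 3 10 27) .nil)))))))))) (by decide +kernel)
theorem s1282 : Valid A [398, 969, 4429, 1319, 935, 2275, 2402, 4706, 3909, 944, 989, 943, 917, 3170, 994] := rup _
  (.cons (t1 7 10 49) (.cons s38 (.cons a64 (.cons (t3 3 7 10) (.cons s1281 (.cons a168 (.cons s534 (.cons s769 (.cons s770 (.cons (t3 24 30 34) (.cons (t1 24 34 38) (.cons a468 (.cons a429 (.cons (t1 7 23 50) (.cons (t1 7 10 27) (.cons (t1 7 23 27) (.cons (t1 3 24 30) (.cons (t1 3 24 38) (.cons (t3 18 49 50) (.cons s196 (.cons a50 (.cons (t3 3 18 30) (.cons (t1 3 38 39) (.cons (t1 27 34 38) (.cons (t1 3 18 39) (.cons (t2 27 38 39) (.cons a433 (.cons a325 (.cons (t1 23 39 50) .nil))))))))))))))))))))))))))))) (by decide +kernel)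
theorem s1283 : Valid A [4451, 420, 444, 432, 4429, 2275, 2402, 3909, 944, 932, 943, 3170, 994] := rup _
  (.cons s1115 (.cons (t1 30 34 49) (.cons (t2 34 38 49) (.cons a470 (.cons a330 (.cons s139 (.cons a429 (.cons s714 (.cons (t3 7 18 50) (.cons (t2 17 27 49) (.cons a433 (.cons a36 (.cons (t3 7 39 50) (.cons (t3 3 24 27) (.cons s181 .nil))))))))))))))) (by decide +kernel)
theorem s1284 : Valid A [969, 4429, 1319, 935, 2275, 2402, 4706, 1340, 944, 932, 989, 943, 917, 3170, 994] := rup _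
  (.cons s1115 (.cons (t2 7 19 23) (.cons s43 (.cons s38 (.cons a162 (.cons (t2 7 10 30) (.cons s1282 (.cons a66 (.cons (t2 3 7 30) (.cons (t1 3 7 23) (.cons (t2 3 7 18) (.cons s1283 (.cons (t2 17 34 49) (.cons s770 (.cons s398 (.cons (t1 7 23 27) .nil)))))))))))))))) (by decide +kernel)
theorem s1285 : Valid A [968, 1072, 1123, 4706, 1340, 944, 3164, 989, 917, 1070, 994] := rup _
  (.cons s1279 (.cons (t3 7 8 10) (.cons a399 (.cons (t1 7 10 23) (.cons s38 (.cons s1035 (.cons (t3 7 36 46) (.cons s150 (.cons (t1 7 23 48) (.cons a177 (.cons (t1 7 10 33) (.cons a520 (.cons s370 (.cons s62 (.cons (t3 8 24 48) (.cons (t3 8 34 49) (.cons s145 (.cons s127 (.cons (t1 3 24 36) (.cons (t1 33 34 36) (.cons a55 .nil))))))))))))))))))))) (by decide +kernel)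
theorem s1286 : Valid A [939, 3127, 950, 3154, 2019, 3554, 3162, 2779, 963, 969, 1072, 944, 917, 994] := rup _
  (.cons a447 (.cons a110 (.cons (t2 7 10 36) (.cons s1279 (.cons a210 (.cons (t2 7 21 36) (.cons (t2 7 10 21) (.cons s458 (.cons (t1 7 21 45) (.cons (t3 7 15 21) (.cons (t3 5 21 45) (.cons a489 (.cons (t2 21 36 45) (.cons (t1 10 21 45) (.cons (t1 10 21 29) (.cons a30 (.cons a86 (.cons a88 (.cons s177 (.cons (t2 10 28 36) (.cons a380 (.cons a147 (.cons (t1 20 21 45) (.cons (t3 20 45 51) (.cons s776 (.cons (t3 24 45 51) (.cons (t1 11 21 45) (.cons (t2 10 11 45) (.cons (t1 4 21 29) (.cons a33 (.cons a22 (.cons (t2 2 27 49) (.cons a387 (.cons s261 (.cons (t2 11 20 28) (.cons (t2 20 24 41) (.cons (t1 20 24 27) (.cons (t1 4 15 49) (.cons (t1 20 28 41) (.cons (t2 20 27 28) (.cons a417 (.cons (t2 2 35 49) (.cons a75 (.cons a323 (.cons a324 (.cons (t3 7 27 35) (.cons (t1 27 28 32) (.cons a412 (.cons a529 (.cons (t1 7 32 41) .nil))))))))))))))))))))))))))))))))))))))))))))))))))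 (by decide +kernel)
theorem s1287 : Valid A [2906, 3675, 5863, 1370, 3034, 2736, 2779, 2237, 1085, 3004, 1314, 1328] := rup _
  (.cons a395 (.cons s716 (.cons (t3 10 17 22) (.cons (t1 10 22 24) (.cons (t3 21 30 45) (.cons (t1 8 30 45) (.cons (t1 17 30 45) (.cons (t3 8 21 30) (.cons (t3 8 28 45) (.cons (t3 17 28 45) (.cons a143 (.cons a145 (.cons (t1 8 28 29) (.cons (t2 17 28 29) (.cons a134 (.cons a138 (.cons (t3 22 24 29) .nil))))))))))))))))) (by decide +kernel)
theorem s1288 : Valid A [2907, 5863, 994, 3939, 1353, 969, 4706, 2779, 986, 917] := rup _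
  (.cons s956 (.cons (t1 7 22 45) .nil)) (by decide +kernel)
theorem s1289 : Valid A [682, 1370, 3034, 986, 2760, 2736, 2779, 2237, 1085, 3939, 934, 3017, 969, 4706, 3004, 1314, 1328, 917, 994] := rup _
  (.cons (t3 21 36 45) (.cons (t2 7 10 36) (.cons a203 (.cons (t3 5 21 45) (.cons (t2 5 36 49) (.cons s177 (.cons s347 (.cons a487 (.cons (t2 21 28 45) (.cons s1287 (.cons s1288 .nil))))))))))) (by decide +kernel)
theorem s1290 : Valid A [938, 2736, 2779, 2237, 1085, 3939, 934, 969, 4706, 1340, 1314, 1328, 1327, 917, 994] := rup _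
  (.cons (t1 7 10 23) (.cons (t2 7 23 36) (.cons (t2 7 10 36) (.cons (t1 10 23 30) (.cons (t1 7 10 49) (.cons (t3 7 21 36) (.cons (t3 7 21 23) (.cons (t1 7 10 21) (.cons (t3 7 21 45) (.cons (t3 21 23 45) (.cons (t3 10 21 45) (.cons s1289 (.cons s26 (.cons (t1 21 45 51) (.cons s955 (.cons s952 (.cons a395 (.cons (t2 10 22 23) (.cons (t1 10 22 30) (.cons a497 (.cons a472 .nil))))))))))))))))))))) (by decide +kernel)
theorem s1291 : Valid A [997, 939, 2779, 963, 398, 969, 1072, 1123, 2275, 944, 917, 3170, 994] := rup _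
  (.cons s1115 (.cons a64 (.cons a61 (.cons (t1 3 24 45) (.cons a447 (.cons a110 (.cons s1279 (.cons s714 (.cons (t3 7 8 50) (.cons (t3 7 15 50) (.cons (t3 7 41 50) (.cons (t2 17 27 49) (.cons a105 (.cons a426 (.cons a36 (.cons (t2 8 15 49) (.cons (t3 8 24 41) (.cons (t3 3 7 27) (.cons (t2 3 24 27) (.cons s1286 .nil)))))))))))))))))))) (by decide +kernel)
theorem s1292 : Valid A [2779, 398, 3939, 934, 969, 2275, 4706, 1340, 1314, 1059, 1328, 944, 1327, 917, 3170, 994] := rup _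
  (.cons s1115 (.cons (t3 3 17 49) (.cons (t1 3 30 49) (.cons (t3 3 7 36) (.cons s1187 (.cons a112 (.cons a448 (.cons a95 (.cons (t2 7 10 33) (.cons (t3 7 24 33) (.cons a110 (.cons a64 (.cons (t3 17 30 49) (.cons (t1 8 17 49) (.cons (t3 8 30 49) (.cons (t2 7 10 36) (.cons a406 (.cons (t2 8 17 24) (.cons (t1 7 10 23) (.cons s1279 (.cons a61 (.cons a63 (.cons (t1 3 24 45) (.cons (t3 3 21 24) (.cons s1290 (.cons a210 (.cons (t2 7 21 36) (.cons (t2 7 21 23) (.cons (t2 7 10 21) (.cons s458 (.cons s568 (.cons (t1 7 21 45) (.cons (t3 7 15 21) (.cons (t3 5 21 45) (.cons a489 (.cons (t2 21 36 45) (.cons (t2 21 23 45) (.cons (t1 10 21 45) (.cons a136 (.cons (t2 21 29 45) (.cons (t1 10 21 29) (.cons s2 (.cons a30 (.cons a86 (.cons a88 (.cons s177 (.cons (t2 10 28 36) (.cons a380 (.cons a147 (.cons a148 (.cons (t1 20 21 45) (.cons (t3 20 45 51) (.cons (t3 2 7 23) (.cons s776 (.cons (t3 24 45 51) (.cons (t1 11 21 45) (.cons (t2 7 11 45) (.cons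 (t2 10 11 45) (.cons (t1 4 21 29) (.cons a33 (.cons a22 (.cons (t2 2 24 49) (.cons (t3 2 8 49) (.cons s924 (.cons a383 (.cons a387 (.cons s261 (.cons (t2 11 20 28) (.cons (t1 0 11 20) (.cons (t1 17 20 24) (.cons (t1 2 20 24) (.cons a84 (.cons (t3 2 23 52) (.cons (t2 23 45 52) (.cons (t1 0 11 28) (.cons (t1 4 15 41) (.cons (t2 20 24 28) (.cons (t3 2 20 28) (.cons (t2 0 17 20) (.cons s1291 (.cons a429 (.cons (t1 7 10 50) (.cons (t1 8 49 50) (.cons (t3 24 49 50) (.cons s760 (.cons a106 (.cons (t1 9 10 29) (.cons (t1 4 9 10) (.cons (t3 8 15 17) (.cons (t2 4 15 17) (.cons a509 (.cons (t2 0 4 28) (.cons (t2 4 28 41) (.cons a530 (.cons (t2 24 28 32) (.cons a149 (.cons (t2 29 32 45) (.cons (t1 9 29 32) (.cons a272 (.cons a259 (.cons (t3 44 45 52) (.cons a253 (.cons a68 (.cons (t2 4 16 28) (.cons (t3 2 43 44) (.cons (t3 2 28 44) (.cons a457 (.cons s111 .nil))))))))))))))))))))))))))))))))))))))))))))))))))))))))))))))))))))))))))))))))))))))))))))))))))))))))))))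 (by decide +kernel)
theorem s1293 : Valid A [939, 2778, 973, 3939, 2530, 934, 969, 1072, 2275, 4706, 1340, 930, 944, 1327, 1378, 917, 912] := rup _
  (.cons (t1 19 30 49) (.cons (t1 10 23 30) (.cons (t2 7 10 30) (.cons (t1 7 10 23) (.cons (t2 7 21 36) (.cons (t2 7 21 23) (.cons (t2 7 10 21) (.cons (t3 7 17 21) (.cons (t3 7 19 21) (.cons s458 (.cons s568 (.cons (t2 7 21 38) (.cons (t1 21 36 45) (.cons (t1 21 23 45) (.cons (t2 10 21 45) (.cons a341 (.cons (t3 17 21 29) (.cons (t2 21 29 38) (.cons s2 (.cons (t1 19 45 49) (.cons (t3 19 30 45) (.cons a131 (.cons s727 (.cons (t2 7 11 38) (.cons (t1 11 30 49) (.cons a383 (.cons s960 (.cons (t2 0 11 49) (.cons (t2 22 45 49) (.cons s1232 .nil)))))))))))))))))))))))))))))) (by decide +kernel)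
theorem s1294 : Valid A [1371, 2764, 2778, 404, 433, 1357, 1062, 1318, 1353, 2275, 1059, 917, 994] := rup _
  (.cons (t1 7 10 38) (.cons s1279 (.cons (t3 7 8 10) (.cons (t3 8 10 38) (.cons a396 (.cons (t1 7 10 45) (.cons (t2 10 36 45) (.cons (t3 10 19 45) (.cons (t2 10 38 45) (.cons (t3 3 10 45) (.cons (t2 7 22 45) (.cons a380 (.cons a341 (.cons a60 (.cons (t1 11 38 45) (.cons (t3 8 19 21) (.cons (t2 3 21 24) (.cons s1188 (.cons a137 (.cons (t2 7 29 38) (.cons a130 (.cons a142 (.cons s474 (.cons (t2 8 17 29) (.cons s376 (.cons a141 (.cons (t3 17 22 49) .nil))))))))))))))))))))))))))) (by decide +kernel)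
theorem s1295 : Valid A [2906, 316, 730, 1370, 2764, 1322, 2734, 2778, 2003, 1362, 433, 1100, 1357, 444, 2237, 1085, 3132, 3939, 3017, 3004, 1314, 2992, 3042, 1327, 917] := rup _
  (.cons s177 (.cons (t1 10 23 45) (.cons (t2 7 10 45) (.cons (t2 10 23 38) (.cons (t2 10 23 24) (.cons (t1 7 10 23) (.cons (t2 7 23 24) (.cons a395 (.cons s716 (.cons (t3 10 17 22) (.cons (t1 7 10 22) (.cons (t3 10 21 22) (.cons s102 (.cons (t1 21 30 45) (.cons (t2 30 45 49) (.cons (t3 24 30 45) (.cons (t3 3 30 45) (.cons (t3 2 30 45) (.cons (t1 30 45 51) (.cons a227 (.cons (t2 8 30 40) (.cons (t2 8 21 30) (.cons (t2 17 21 30) (.cons (t3 5 45 49) (.cons a60 (.cons a85 (.cons a466 (.cons (t1 7 23 52) (.cons s1188 (.cons s203 (.cons s789 (.cons (t2 3 21 24) (.cons (t1 2 7 10) (.cons (t2 8 30 32) (.cons (t3 30 32 45) (.cons a238 (.cons a142 (.cons (t2 10 11 23) (.cons (t3 11 23 38) (.cons a135 (.cons (t1 8 29 32) (.cons s67 (.cons (t1 8 29 40) (.cons a130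 (.cons a149 (.cons (t2 11 29 32) (.cons a387 (.cons (t2 11 29 40) (.cons (t3 23 24 32) (.cons (t3 10 24 32) (.cons (t1 21 24 32) (.cons (t2 10 23 28) (.cons (t2 10 28 38) (.cons (t1 10 28 41) (.cons (t1 2 10 28) (.cons (t1 10 28 32) (.cons a296 (.cons (t1 1 2 28) (.cons a529 (.cons (t1 1 23 28) (.cons (t1 24 32 41) (.cons (t1 21 32 41) (.cons (t1 32 41 45) (.cons (t3 11 32 41) (.cons (t3 15 24 41) (.cons (t3 15 21 41) (.cons (t2 15 41 45) (.cons a3 (.cons a103 (.cons (t3 24 40 41) (.cons (t1 21 24 26) (.cons (t3 21 26 32) (.cons a8 (.cons a423 (.cons (t1 4 15 24) (.cons (t3 1 23 26) (.cons a99 (.cons a279 (.cons (t1 2 4 45) (.cons (t2 1 4 24) (.cons a89 .nil))))))))))))))))))))))))))))))))))))))))))))))))))))))))))))))))))))))))))))))))) (by decide +kernel)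
theorem s1296 : Valid A [997, 1106, 978, 912] := rup _
  (.cons (t3 7 8 50) (.cons (t3 7 41 50) (.cons a426 .nil))) (by decide +kernel)
theorem s1297 : Valid A [3302, 2122, 4839, 278, 919, 359] := rup _
  (.cons (t2 2 25 51) (.cons (t1 25 37 51) (.cons a77 (.cons a117 (.cons (t1 7 11 25) (.cons a463 .nil)))))) (by decide +kernel)
theorem s1298 : Valid A [398, 1357, 3132, 3939, 2530, 1062, 1318, 969, 2275, 4706, 1340, 1314, 1059, 930, 2992, 1327, 917, 3170, 994] := rup _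
  (.cons s1115 (.cons (t1 7 10 23) (.cons (t2 10 23 38) (.cons a124 (.cons (t2 7 23 37) (.cons (t1 7 10 38) (.cons s1279 (.cons (t3 7 8 10) (.cons (t3 8 10 38) (.cons (t3 3 17 49) (.cons (t1 3 30 49) (.cons (t3 17 30 49) (.cons (t1 8 17 49) (.cons (t3 8 30 49) (.cons (t2 7 10 19) (.cons (t2 7 23 36) (.cons (t2 7 10 36) (.cons a406 (.cons (t2 8 17 24) (.cons (t1 10 23 30) (.cons (t2 7 10 30) (.cons (t2 10 23 24) (.cons (t2 7 23 24) (.cons (t1 7 10 49) (.cons (t1 10 23 49) (.cons a64 (.cons (t3 3 7 10) (.cons (t3 3 7 36) (.cons s1187 (.cons a112 (.cons a447 (.cons a448 (.cons (t1 7 10 41) (.cons a95 (.cons s1292 (.cons s1293 (.cons (t3 7 21 36) (.cons (t3 7 21 23) (.cons (t1 7 10 21) (.cons (t3 7 21 38) (.cons s1294 (.cons (t2 7 10 45) (.cons (t1 10 23 45) (.cons (t1 10 36 45) (.cons s132 (.cons s199 (.cons s384 (.cons (t1 2 30 49) (.cons s177 (.cons (t3 7 45 51) (.cons s1295 (.cons (t1 21 22 45) (.cons (t1 7 22 45) (.cons (t2 22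 23 45) (.cons (t1 22 45 51) (.cons a473 (.cons a475 (.cons (t1 30 49 51) (.cons (t3 22 30 49) (.cons (t2 17 22 30) (.cons s991 (.cons (t2 45 49 51) (.cons s630 (.cons s376 (.cons a79 (.cons a505 (.cons a87 (.cons (t1 2 45 51) (.cons s7 (.cons (t2 0 11 21) (.cons (t2 0 21 22) (.cons a383 (.cons a491 (.cons (t2 7 10 11) (.cons (t2 7 11 36) (.cons (t1 7 11 45) (.cons (t3 2 7 11) (.cons (t2 7 11 38) (.cons s13 (.cons (t2 0 24 49) (.cons (t2 0 21 49) (.cons a389 (.cons s553 (.cons a131 (.cons (t2 17 29 49) (.cons (t1 0 21 24) (.cons (t1 3 21 49) (.cons (t3 11 28 38) (.cons (t3 11 28 36) (.cons a29 (.cons (t2 7 29 38) (.cons a138 (.cons a134 (.cons a60 (.cons a487 (.cons (t1 7 20 29) (.cons (t1 7 20 37) (.cons (t2 22 29 51) (.cons a151 (.cons (t1 3 24 29) (.cons (t1 3 45 51) (.cons (t3 3 22 45) (.cons s114 (.cons a11 (.cons (t3 29 32 51) (.cons a58 (.cons (t1 3 29 37) (.cons (t2 29 37 51) (.cons a464 (.cons (t3 3 16 51) (.cons (t3 3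 16 37) (.cons (t1 28 30 32) (.cons a530 (.cons s1297 (.cons (t1 7 25 51) (.cons (t1 16 25 51) (.cons a460 (.cons (t2 7 16 23) (.cons (t2 7 16 38) (.cons (t1 7 16 41) (.cons a291 (.cons (t3 1 16 38) (.cons a284 (.cons a295 (.cons (t2 1 28 41) .nil))))))))))))))))))))))))))))))))))))))))))))))))))))))))))))))))))))))))))))))))))))))))))))))))))))))))))))))))))))))))))))) (by decide +kernel)
theorem s1299 : Valid A [4451, 2530, 1318, 969, 2275, 4706, 1340, 1373, 1327, 917, 3170, 994] := rup _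
  (.cons s1115 (.cons a515 (.cons s63 (.cons a349 (.cons (t3 17 18 19) (.cons s1279 (.cons (t3 7 8 10) (.cons (t3 8 10 46) (.cons (t2 10 23 46) (.cons s1155 (.cons a181 (.cons (t2 8 17 18) (.cons (t3 8 18 19) (.cons (t3 10 19 46) (.cons (t3 3 17 49) (.cons a406 (.cons s38 (.cons a162 (.cons (t2 10 17 46) (.cons (t1 7 10 46) (.cons (t2 7 17 46) (.cons (t1 7 10 23) (.cons a194 (.cons (t2 7 23 24) (.cons a195 (.cons (t2 7 10 18) (.cons (t1 30 34 49) (.cons s731 (.cons (t1 19 34 49) (.cons a470 (.cons (t1 3 30 49) (.cons s344 (.cons s1298 (.cons (t1 3 7 36) (.cons (t1 3 7 10) (.cons (t2 3 7 18) (.cons a54 (.cons (t1 3 10 33) (.cons s139 (.cons s370 (.cons (t1 18 19 39) (.cons (t1 33 34 49) (.cons a333 (.cons a311 (.cons (t2 17 39 49) (.cons (t3 17 24 39) (.cons a304 (.cons (t1 6 39 49) (.cons (t2 6 7 24) (.cons a300 .nil)))))))))))))))))))))))))))))))))))))))))))))))))) (by decide +kernel)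
theorem s1300 : Valid A [2907, 2764, 3021, 5863, 4698, 2734, 2760, 2778, 1100, 433, 3133, 3017, 482, 4706, 1059, 944, 3042, 943] := rup _
  (.cons s1115 (.cons (t1 3 24 30) (.cons (t1 3 8 17) (.cons (t1 22 45 51) (.cons a473 (.cons (t2 24 30 51) (.cons (t2 3 30 51) (.cons (t1 24 45 51) (.cons (t1 3 45 51) (.cons a60 (.cons (t3 3 8 21) (.cons (t2 3 21 24) (.cons (t1 3 21 49) (.cons s1188 (.cons a137 (.cons s680 (.cons a142 (.cons s789 (.cons (t2 8 17 29) (.cons (t3 11 23 36) (.cons (t3 11 23 38) (.cons a140 (.cons a379 (.cons a130 (.cons (t3 22 29 45) (.cons (t2 11 29 45) .nil)))))))))))))))))))))))))) (by decide +kernel)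
theorem s1301 : Valid A [1357, 4698, 1370, 2760, 938, 2778, 1100, 433, 3133, 3017, 2275, 4706, 3004, 1314, 1059, 944, 1327, 1378, 917] := rup _
  (.cons s1115 (.cons (t2 7 10 45) (.cons s199 (.cons s177 (.cons s384 (.cons (t1 10 23 45) (.cons (t1 7 10 21) (.cons (t1 7 10 23) (.cons (t3 7 21 23) (.cons (t3 3 17 49) (.cons (t1 10 23 49) (.cons (t1 7 10 38) (.cons (t2 10 23 38) (.cons (t3 10 21 38) (.cons s1300 (.cons a395 (.cons s716 (.cons (t1 10 22 49) (.cons (t3 10 17 22) (.cons (t1 7 10 22) (.cons (t1 24 30 45) (.cons (t1 24 45 51) (.cons a23 (.cons (t3 20 24 45) (.cons a29 (.cons (t1 7 20 21) (.cons (t2 7 20 38) (.cons (t2 7 20 22) (.cons a33 (.cons (t3 7 11 20) (.cons (t1 11 20 38) (.cons (t1 11 20 22) (.cons a385 (.cons a133 (.cons (t3 0 11 22) (.cons (t1 11 22 29) (.cons a491 (.cons a138 (.cons (t3 0 17 49) (.cons s5 .nil)))))))))))))))))))))))))))))))))))))))) (by decide +kernel)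
theorem s1302 : Valid A [2907, 461, 3149, 5863, 1450, 986, 2778, 445, 433, 1123, 1059, 994] := rup _
  (.cons s1115 (.cons (t1 3 8 17) (.cons s1279 (.cons (t1 7 22 45) (.cons (t1 22 45 51) (.cons a473 (.cons (t2 3 30 51) (.cons (t1 3 45 51) (.cons a60 (.cons (t3 3 8 21) (.cons (t2 3 21 24) (.cons (t2 3 11 21) (.cons a135 (.cons a137 (.cons (t3 3 11 38) (.cons (t3 24 29 38) (.cons a142 (.cons a130 (.cons (t3 7 8 29) (.cons (t2 8 29 49) (.cons (t2 8 17 29) (.cons s474 (.cons a140 (.cons s376 (.cons (t3 22 29 49) .nil))))))))))))))))))))))))) (by decide +kernel)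
theorem s1303 : Valid A [1370, 938, 2778, 1100, 433, 2493, 2373, 2353, 2236, 3938, 3141, 969, 2275, 4706, 1340, 1314, 1059, 944, 932, 1327, 917, 994] := rup _
  (.cons (t1 7 10 23) (.cons (t3 7 21 23) (.cons (t3 7 21 36) (.cons s38 (.cons a162 (.cons (t3 24 30 34) (.cons (t1 3 24 30) (.cons (t1 3 24 34) (.cons (t2 7 23 36) (.cons (t2 7 10 36) (.cons (t1 8 17 49) (.cons (t1 10 23 30) (.cons (t1 7 10 49) (.cons (t2 7 10 45) (.cons (t1 10 23 45) (.cons (t1 10 36 45) (.cons s199 (.cons s384 (.cons s177 (.cons (t3 23 45 51) (.cons s1301 (.cons a158 (.cons (t1 24 34 38) (.cons (t1 18 34 38) (.cons (t1 3 34 38) (.cons a266 (.cons (t3 9 18 24) (.cons s1302 (.cons a395 (.cons s716 (.cons (t1 10 22 49) (.cons (t1 7 10 22) (.cons (t1 30 45 49) (.cons (t1 24 30 45) (.cons (t1 19 30 45) (.cons (t1 5 30 45) (.cons s727 (.cons (t1 24 45 51) (.cons s341 (.cons (t1 11 17 49) (.cons a23 (.cons (t3 7 24 33) (.cons (t3 20 24 45) (.cons (t3 20 24 30)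 (.cons a250 (.cons a29 (.cons (t3 7 9 33) (.cons (t2 7 10 20) (.cons (t1 7 20 21) (.cons (t2 7 20 36) (.cons (t2 7 20 22) (.cons (t2 7 9 20) (.cons a33 (.cons (t1 11 20 36) (.cons (t3 7 11 20) (.cons (t3 10 11 20) (.cons (t1 11 20 22) (.cons (t2 11 20 30) (.cons (t3 9 11 20) (.cons a384 (.cons a385 (.cons a389 (.cons (t3 0 11 22) (.cons s401 (.cons a244 (.cons (t3 0 7 23) (.cons (t3 11 28 36) (.cons a491 (.cons (t1 7 11 16) (.cons (t1 11 16 28) (.cons (t1 9 11 16) (.cons (t1 11 16 43) (.cons (t2 7 11 43) (.cons a505 (.cons a487 (.cons (t3 0 17 49) (.cons a456 (.cons a254 (.cons (t2 0 21 49) (.cons (t2 21 28 49) (.cons a511 (.cons (t2 28 43 49) (.cons (t1 4 7 16) (.cons (t3 4 17 49) (.cons (t1 4 43 49) (.cons a454 .nil)))))))))))))))))))))))))))))))))))))))))))))))))))))))))))))))))))))))))))))))))))))) (by decide +kernel)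
theorem s1304 : Valid A [938, 2778, 1100, 433, 2481, 2493, 2373, 2353, 2236, 3938, 3141, 1062, 1318, 969, 2275, 4706, 1340, 1314, 1059, 944, 932, 1327, 917, 994] := rup _
  (.cons (t3 10 19 23) (.cons (t1 7 10 23) (.cons (t2 7 23 36) (.cons (t2 7 10 36) (.cons (t1 8 17 49) (.cons (t1 7 10 49) (.cons (t1 10 23 49) (.cons (t3 7 21 36) (.cons (t3 7 21 23) (.cons s1303 (.cons a396 (.cons a397 (.cons (t1 7 10 45) (.cons (t2 10 23 45) (.cons (t2 10 36 45) (.cons (t3 10 19 45) (.cons (t2 7 22 45) (.cons (t1 22 23 45) (.cons a380 (.cons a382 (.cons a341 (.cons (t2 7 11 45) (.cons (t1 11 23 45) (.cons (t3 8 19 21) (.cons (t2 19 21 30) (.cons (t2 19 21 24) (.cons a223 (.cons a137 (.cons a142 (.cons s3 (.cons (t2 8 29 49) (.cons (t2 8 17 29) (.cons (t3 0 8 49) (.cons a140 (.cons (t3 22 29 49) (.cons s630 (.cons s376 (.cons a491 (.cons a505 (.cons a383 (.cons (t2 0 21 22) (.cons (t2 0 21 52) (.cons (t2 0 11 21) (.cons (t1 19 21 22) (.cons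 (t1 0 11 52) (.cons a34 (.cons a238 (.cons (t2 19 20 21) (.cons s310 .nil))))))))))))))))))))))))))))))))))))))))))))))))) (by decide +kernel)
theorem s1305 : Valid A [2907, 2266, 2747, 2218, 2778] := rup _
  (.cons (t1 21 22 45) (.cons (t1 17 22 45) (.cons s203 .nil))) (by decide +kernel)
theorem s1306 : Valid A [2778, 1100, 433, 2481, 2493, 2373, 2353, 2236, 3938, 3141, 2530, 2214, 1062, 1318, 969, 2275, 4706, 1340, 1314, 1059, 930, 944, 932, 1327, 917, 994] := rup _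
  (.cons s38 (.cons a162 (.cons (t3 24 30 34) (.cons (t2 7 10 19) (.cons (t2 7 10 36) (.cons a406 (.cons (t2 8 17 24) (.cons (t1 7 10 23) (.cons (t1 7 10 49) (.cons s1279 (.cons s1304 (.cons (t2 7 21 36) (.cons (t2 7 21 23) (.cons (t2 7 10 21) (.cons (t3 7 17 21) (.cons (t3 7 19 21) (.cons s458 (.cons s568 (.cons (t2 7 21 45) (.cons a489 (.cons (t1 21 36 45) (.cons (t2 10 21 45) (.cons a341 (.cons (t3 17 21 29) (.cons s2 (.cons s157 (.cons (t2 10 28 36) (.cons (t2 19 30 45) (.cons (t3 17 19 45) (.cons (t1 19 45 49) (.cons s727 (.cons s1305 (.cons a395 (.cons (t1 22 30 45) (.cons (t1 10 22 49) (.cons (t2 10 22 23) (.cons (t1 7 10 22) (.cons s1232 (.cons a497 (.cons a227 (.cons (t2 0 11 49) (.cons a472 (.cons (t1 7 23 52) (.cons a383 (.cons (t1 24 30 51) (.cons s924 (.cons (t1 7 11 45) (.cons a23 (.cons a35 (.cons (t3 20 24 45) (.cons s363 .nil))))))))))))))))))))))))))))))))))))))))))))))))))) (by decide +kernel)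
theorem s1307 : Valid A [2907, 938, 2748, 2394, 3930, 3162, 2779, 3172, 6373, 2373, 3141, 2343, 969, 1060, 1123, 2275, 4706, 1340, 932, 1327, 917, 994] := rup _
  (.cons (t1 7 10 23) (.cons (t3 7 21 23) (.cons (t3 21 23 45) (.cons (t3 7 21 45) (.cons (t1 7 10 21) (.cons (t2 7 10 36) (.cons (t2 7 10 30) (.cons a398 (.cons (t3 21 22 45) (.cons (t1 7 22 45) (.cons (t2 22 23 45) (.cons (t2 22 24 45) (.cons s909 (.cons (t1 18 22 45) (.cons s964 (.cons a222 (.cons s376 (.cons (t2 21 45 52) (.cons (t2 21 22 52) (.cons (t3 8 22 49) (.cons (t3 17 22 49) (.cons (t2 22 45 49) (.cons (t1 22 49 50) (.cons (t2 45 49 52) (.cons (t1 8 22 45) (.cons a139 (.cons (t1 45 49 50) (.cons a357 (.cons a359 (.cons (t3 42 45 50) (.cons s173 .nil))))))))))))))))))))))))))))))) (by decide +kernel)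
theorem s1308 : Valid A [3131, 2864, 2220, 2224] := rup _
  (.cons (t3 17 24 29) (.cons (t3 22 24 29) (.cons a138 .nil))) (by decide +kernel)
theorem s1309 : Valid A [938, 2748, 2736, 2394, 3930, 3162, 2779, 3172, 6373, 2373, 3141, 2343, 969, 2275, 4706, 1340, 1314, 1059, 1328, 932, 1327, 917, 994] := rup _
  (.cons a515 (.cons (t2 8 17 18) (.cons (t1 8 17 49) (.cons a406 (.cons (t1 7 10 21) (.cons (t3 10 21 45) (.cons s1307 (.cons a395 (.cons (t3 10 17 22) (.cons (t1 10 22 24) (.cons s1308 (.cons a134 (.cons a143 (.cons s942 (.cons (t1 8 17 21) .nil))))))))))))))) (by decide +kernel)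
theorem s1310 : Valid A [433, 2493, 2373, 2353, 2236, 3938, 3141, 2530, 2343, 1318, 969, 2275, 4706, 1340, 1314, 1059, 930, 1328, 944, 932, 1327, 917, 3170, 994] := rup _
  (.cons s1115 (.cons (t2 18 19 34) (.cons a156 (.cons (t2 24 27 34) (.cons (t2 18 19 24) (.cons s38 (.cons a162 (.cons (t3 24 30 34) (.cons a515 (.cons (t3 17 18 19) (.cons (t2 8 17 18) (.cons (t3 8 18 19) (.cons a406 (.cons (t2 8 17 24) (.cons (t1 8 17 49) (.cons s1279 (.cons (t1 3 24 30) (.cons (t3 3 18 24) (.cons (t2 3 24 27) (.cons a36 (.cons (t3 7 17 27) (.cons s180 (.cons a429 (.cons a330 (.cons (t3 24 49 50) (.cons (t2 8 38 49) (.cons s1306 (.cons a61 (.cons a63 (.cons (t1 3 24 45) (.cons (t1 3 30 45) (.cons (t1 3 18 45) (.cons (t3 3 21 24) (.cons (t3 3 21 30) (.cons s1309 (.cons a208 (.cons (t2 7 10 21) (.cons (t3 7 17 21) (.cons s458 (.cons (t1 7 21 45) (.cons (t3 5 7 45) (.cons (t1 10 21 45) (.cons (t3 17 21 29) (.cons (t2 21 29 45) (.cons s177 (.cons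 a396 (.cons (t1 22 29 45) (.cons (t3 22 45 51) (.cons (t3 30 45 51) (.cons a138 (.cons a472 (.cons (t1 17 22 30) .nil)))))))))))))))))))))))))))))))))))))))))))))))))))) (by decide +kernel)
theorem s1311 : Valid A [938, 2778, 422, 399, 2481, 2493, 1062, 2478, 969, 1123, 1059, 3042, 943, 917, 994] := rup _
  (.cons (t2 7 23 36) (.cons (t3 7 21 36) (.cons (t3 7 21 23) (.cons (t2 3 7 21) (.cons s156 (.cons s444 (.cons (t2 7 23 45) (.cons (t2 7 36 45) (.cons (t2 7 10 45) (.cons (t3 8 19 21) (.cons (t2 19 21 30) (.cons (t2 19 21 24) (.cons a380 (.cons a382 (.cons a396 (.cons a397 (.cons a223 (.cons a137 (.cons (t2 7 11 45) (.cons (t1 11 23 45) (.cons (t2 7 22 45) (.cons (t1 22 23 45) (.cons a142 (.cons s3 (.cons (t2 8 29 49) (.cons (t2 8 17 29) (.cons (t3 0 8 49) (.cons a140 (.cons (t3 22 29 49) (.cons s630 (.cons s376 (.cons a491 (.cons a505 (.cons a383 (.cons (t2 0 21 22) (.cons (t2 0 21 52) (.cons (t2 0 11 21) (.cons (t1 19 21 22)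 (.cons (t1 0 11 52) (.cons a34 (.cons a238 (.cons (t2 19 20 21) (.cons s310 .nil))))))))))))))))))))))))))))))))))))))))))) (by decide +kernel)
theorem s1312 : Valid A [2778, 422, 399, 2481, 2493, 2530, 2214, 1062, 2478, 934, 969, 2275, 4706, 1059, 930, 944, 3042, 943, 917, 994] := rup _
  (.cons (t1 3 7 10) (.cons a406 (.cons (t2 8 17 24) (.cons (t1 8 17 49) (.cons (t1 7 10 49) (.cons s1279 (.cons s1311 (.cons (t2 7 21 36) (.cons (t2 7 10 21) (.cons (t3 7 17 21) (.cons (t3 7 19 21) (.cons s458 (.cons s568 (.cons (t1 21 36 45) (.cons (t2 10 21 45) (.cons a341 (.cons (t3 17 21 29) (.cons s2 (.cons (t3 17 19 45) (.cons (t1 19 45 49) (.cons s1305 (.cons s727 (.cons a395 (.cons (t2 19 22 45) (.cons (t1 11 17 49) (.cons (t1 10 22 49) (.cons (t1 3 10 22) (.cons s1232 (.cons a58 (.cons a59 (.cons (t2 0 11 49) (.cons (t1 3 7 16) (.cons a337 (.cons a383 (.cons (t1 7 11 16) (.cons (t2 16 17 19) (.cons a375 .nil)))))))))))))))))))))))))))))))))))))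 (by decide +kernel)
theorem s1313 : Valid A [1318, 969, 2275, 2402, 4706, 1340, 1373, 1327, 917, 3170, 994] := rup _
  (.cons (t2 7 10 36) (.cons s1279 (.cons (t3 7 8 10) (.cons (t3 8 10 46) (.cons (t2 10 23 46) (.cons s1155 (.cons a181 (.cons a515 (.cons (t2 8 17 18) (.cons s38 (.cons a162 (.cons (t1 10 23 30) (.cons (t2 10 17 46) (.cons (t1 7 10 46) (.cons (t2 7 17 46) (.cons a194 (.cons (t2 10 23 24) (.cons (t1 7 10 23) (.cons (t2 7 23 24) (.cons s63 (.cons (t3 10 18 23) (.cons (t2 7 10 18) (.cons (t1 7 10 49) (.cons (t1 10 23 49) (.cons (t2 7 10 19) (.cons (t3 10 19 23) (.cons a349 (.cons (t3 8 18 19) (.cons (t3 17 18 19) (.cons (t1 18 19 49) (.cons s1299 (.cons a168 (.cons (t2 17 34 49) (.cons s534 (.cons (t3 24 30 34) (.cons (t1 17 30 34) (.cons a468 (.cons (t3 18 24 30) (.cons (t1 18 30 34) (.cons (t2 18 19 30) (.cons (t2 18 19 24) (.cons s1310 (.cons a64 (.cons (t1 3 19 24) (.cons (t1 3 7 36) (.cons (t1 3 7 10) (.cons (t1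 3 7 23) (.cons a54 (.cons (t1 3 10 33) (.cons (t1 3 7 33) (.cons s370 (.cons (t2 33 34 49) (.cons s148 (.cons a304 (.cons (t2 6 30 49) (.cons s1312 (.cons a61 (.cons a63 (.cons a342 (.cons a344 (.cons s349 (.cons (t1 3 7 45) (.cons (t1 3 10 45) (.cons (t1 3 23 45) (.cons (t1 3 7 21) (.cons (t3 3 21 36) (.cons (t2 18 19 45) (.cons (t1 19 30 45) (.cons (t1 5 7 23) (.cons s132 (.cons s950 (.cons a207 (.cons (t3 21 22 45) (.cons (t2 22 23 45) (.cons s26 (.cons (t1 21 45 51) (.cons (t1 21 22 51) (.cons s477 (.cons a495 .nil))))))))))))))))))))))))))))))))))))))))))))))))))))))))))))))))))))))))))))))) (by decide +kernel)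
theorem s1314 : Valid A [2275, 2402, 4706, 1340, 917, 3170, 1070, 994] := rup _
  (.cons s1279 (.cons (t3 7 8 10) (.cons (t1 7 10 49) (.cons s1280 (.cons a189 (.cons (t3 8 10 46) (.cons a399 (.cons (t2 10 23 46) (.cons s1155 (.cons a181 (.cons (t1 7 10 23) (.cons a194 (.cons (t2 7 23 24) (.cons a195 (.cons s63 (.cons (t2 7 10 18) (.cons (t1 7 10 46) (.cons s38 (.cons a406 (.cons (t1 8 17 49) (.cons (t2 8 17 24) (.cons s1285 (.cons s1313 (.cons (t1 7 10 19) (.cons (t2 10 19 46) (.cons s1284 (.cons a175 (.cons a158 (.cons (t2 10 38 46) .nil))))))))))))))))))))))))))))) (by decide +kernel)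
theorem s1315 : Valid A [450, 399, 1061, 420, 2353, 1122, 2402, 1340, 944, 932, 943, 917, 3170, 994] := rup _
  (.cons (t2 7 10 30) (.cons (t2 3 7 30) (.cons (t1 3 7 10) (.cons (t2 3 7 49) (.cons s38 (.cons a162 (.cons s1279 (.cons (t1 3 7 33) (.cons (t1 3 10 33) (.cons s432 (.cons a391 (.cons a431 (.cons (t2 7 10 50) (.cons s714 (.cons (t3 7 8 50) (.cons s676 (.cons (t3 7 18 50) (.cons (t3 7 33 50) (.cons a247 (.cons s482 (.cons s711 (.cons a468 (.cons (t2 8 18 30) (.cons s139 (.cons (t2 30 33 49) (.cons s969 (.cons (t3 8 30 33) (.cons (t2 3 7 39) (.cons s712 (.cons s181 (.cons s435 (.cons (t3 7 24 27) .nil)))))))))))))))))))))))))))))))) (by decide +kernel)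
theorem s1316 : Valid A [2402, 4706, 1340, 917, 3170, 1070, 994] := rup _
  (.cons s1115 (.cons s1279 (.cons (t3 7 8 10) (.cons (t1 7 10 49) (.cons s1280 (.cons a189 (.cons (t3 8 10 46) (.cons a399 (.cons (t2 10 23 46) (.cons s1155 (.cons a181 (.cons (t1 7 10 23) (.cons a194 (.cons (t2 7 23 24) (.cons s63 (.cons (t2 7 10 18) (.cons s1314 (.cons a403 (.cons a513 (.cons (t2 8 17 49) (.cons (t3 3 17 24) (.cons (t2 17 18 24) (.cons (t3 3 17 18) (.cons (t1 8 17 18) (.cons a64 (.cons s16 (.cons (t2 3 7 49) (.cons s718 (.cons a479 (.cons s1315 (.cons a53 (.cons a54 (.cons s1253 .nil))))))))))))))))))))))))))))))))) (by decide +kernel)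
theorem s1317 : Valid A [4706, 1340, 917, 3170, 1070, 994] := rup _
  (.cons s1115 (.cons s38 (.cons a162 (.cons s1279 (.cons (t3 7 8 10) (.cons (t1 7 10 49) (.cons s1280 (.cons a189 (.cons (t3 8 10 46) (.cons a399 (.cons (t2 10 23 46) (.cons s1155 (.cons a181 (.cons (t1 7 10 46) (.cons (t2 7 17 46) (.cons (t1 7 10 23) (.cons a194 (.cons (t2 7 23 24) (.cons s63 (.cons (t3 10 18 23) (.cons (t2 7 10 18) (.cons s1316 (.cons a469 (.cons a471 (.cons a514 (.cons a516 (.cons (t2 18 36 49) (.cons (t1 30 34 49) (.cons a403 (.cons (t2 8 17 49) (.cons a483 (.cons a168 (.cons (t3 3 17 24) (.cons (t1 7 23 36) (.cons (t3 24 30 34) (.cons a64 (.cons (t1 3 7 36) (.cons (t3 3 24 30) (.cons (t2 3 7 18) (.cons a54 (.cons s139 (.cons (t1 3 7 33) (.cons s432 (.cons (t2 7 46 50) (.cons (t3 7 17 50) (.cons (t3 7 18 50) (.cons s769 (.cons a433 (.cons (t3 7 19 46) (.cons a345 (.cons (t1 17 39 50) (.cons (t3 39 46 50) (.cons (t1 19 39 46) (.cons (t3 17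 18 19) (.cons a333 .nil))))))))))))))))))))))))))))))))))))))))))))))))))))))) (by decide +kernel)
theorem s1318 : Valid A [4707, 3164, 5986, 3170] := rup _
  (.cons (t1 24 36 49) (.cons (t2 36 46 49) (.cons a177 .nil))) (by decide +kernel)
theorem s1319 : Valid A [917, 3170, 1070, 994] := rup _
  (.cons s1115 (.cons s1279 (.cons (t1 7 10 49) (.cons (t3 7 8 10) (.cons a399 (.cons (t1 7 10 23) (.cons s1280 (.cons a189 (.cons s63 (.cons (t2 10 23 46) (.cons (t3 8 10 46) (.cons (t2 7 10 18) (.cons a194 (.cons a195 (.cons s1155 (.cons (t2 7 23 24) (.cons (t2 10 23 24) (.cons a181 (.cons s1318 (.cons s1317 (.cons a393 (.cons (t1 7 10 30) (.cons (t3 10 24 30) (.cons (t1 10 30 49) (.cons s1145 (.cons (t2 7 10 33) (.cons s733 (.cons a514 (.cons a403 (.cons (t2 8 17 49) (.cons (t3 3 17 24) (.cons s432 (.cons a64 (.cons s714 (.cons (t1 3 7 50) (.cons (t3 7 18 50) (.cons (t1 3 7 23) (.cons (t1 3 7 30) (.cons (t2 18 27 49) (.cons a50 (.cons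 (t1 3 23 39) (.cons (t1 3 7 39) (.cons (t3 3 39 50) (.cons a433 (.cons (t3 18 24 39) (.cons (t3 18 27 39) (.cons a325 (.cons (t1 7 23 27) (.cons (t3 23 24 27) (.cons a318 (.cons s766 (.cons a439 (.cons (t3 7 14 15) (.cons (t1 7 15 24) (.cons (t2 14 24 39) (.cons a92 .nil)))))))))))))))))))))))))))))))))))))))))))))))))))))))) (by decide +kernel)
theorem s1320 : Valid A [1059, 1372, 1044, 2275] := rup _
  (.cons a184 (.cons (t3 8 10 17) (.cons (t3 17 46 49) (.cons (t3 10 17 49) (.cons a189 .nil))))) (by decide +kernel)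
theorem s1321 : Valid A [1987, 3172, 1122, 962, 1044, 2402, 1340, 3170, 994] := rup _
  (.cons s1279 (.cons s432 (.cons (t3 7 33 50) (.cons (t3 7 8 50) (.cons a431 (.cons a96 (.cons s712 (.cons a446 (.cons (t1 8 33 49) (.cons (t3 8 10 33) (.cons (t2 7 41 50) (.cons s148 (.cons a391 (.cons a304 (.cons (t3 6 7 50) (.cons (t2 30 33 49) (.cons (t2 30 33 50) (.cons (t2 6 24 49) (.cons s163 (.cons a468 (.cons (t2 18 30 50) (.cons s185 (.cons s482 .nil))))))))))))))))))))))) (by decide +kernel)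
theorem s1322 : Valid A [1327, 4706, 944, 2275, 1340, 3170, 1070, 994] := rup _
  (.cons s1115 (.cons (t3 3 17 49) (.cons a514 (.cons s1319 (.cons s1279 (.cons a401 (.cons (t3 7 10 23) (.cons s936 (.cons s864 (.cons (t1 10 23 46) (.cons s150 (.cons s1320 (.cons (t3 8 17 49) (.cons s432 (.cons (t3 7 24 50) (.cons s714 (.cons (t2 17 27 49) (.cons a36 (.cons s1321 (.cons a109 (.cons s877 (.cons (t3 7 24 27) (.cons (t2 3 24 27) (.cons s718 (.cons s145 (.cons a479 (.cons (t3 24 36 48) (.cons a178 (.cons a193 (.cons (t2 23 24 49) (.cons (t2 10 23 49) (.cons a189 (.cons s912 (.cons (t1 7 46 49) (.cons a185 .nil))))))))))))))))))))))))))))))))))) (by decide +kernel)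
theorem s1323 : Valid A [3939, 932, 969, 444, 420, 456, 1122, 944, 482, 1340, 916, 3170, 994] := rup _
  (.cons s1279 (.cons a470 (.cons (t1 7 30 49) (.cons s139 (.cons s183 (.cons s670 .nil)))))) (by decide +kernel)
theorem s1324 : Valid A [433, 943, 1373, 4706, 944, 2275, 1340, 3170, 1070, 994] := rup _
  (.cons s1115 (.cons (t3 10 30 46) (.cons s1322 (.cons (t3 10 23 46) (.cons (t1 7 23 24) (.cons a193 (.cons (t2 24 30 46) (.cons s75 (.cons a178 (.cons a399 (.cons a192 (.cons (t2 8 10 49) (.cons s1319 (.cons (t3 7 10 46) (.cons s63 (.cons a191 (.cons (t3 3 17 49) (.cons a514 (.cons s1279 (.cons a45 (.cons (t2 3 24 36) (.cons (t2 3 18 24) (.cons (t2 3 24 30) (.cons (t1 24 46 48) (.cons s154 (.cons (t1 7 23 48) (.cons s1035 (.cons (t2 7 23 36) (.cons a484 (.cons (t2 7 18 23) (.cons s193 (.cons a349 (.cons (t3 10 19 46) (.cons s1323 (.cons a468 (.cons (t3 7 18 30) (.cons s183 (.cons s432 (.cons s804 (.cons s676 (.cons a173 (.cons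 (t1 18 19 38) .nil)))))))))))))))))))))))))))))))))))))))))) (by decide +kernel)
theorem s1325 : Valid A [943, 1373, 4706, 944, 2275, 1340, 3170, 1070, 994] := rup _
  (.cons s1115 (.cons s1322 (.cons a399 (.cons a192 (.cons (t2 8 10 49) (.cons (t3 10 23 46) (.cons s1319 (.cons (t3 7 10 46) (.cons s63 (.cons a191 (.cons (t3 3 17 49) (.cons a514 (.cons s1279 (.cons (t1 7 23 24) (.cons a193 (.cons a178 (.cons a179 (.cons s1324 (.cons a64 (.cons s718 (.cons a479 (.cons (t3 24 36 48) (.cons (t3 36 46 48) (.cons a44 (.cons s154 (.cons (t3 3 36 48) (.cons (t3 23 36 48) (.cons a54 (.cons a484 (.cons (t1 3 7 33) (.cons (t2 7 18 23) (.cons s432 (.cons s193 (.cons s804 (.cons s676 (.cons a349 (.cons (t3 10 19 46) (.cons a173 (.cons (t1 18 19 38) .nil))))))))))))))))))))))))))))))))))))))) (by decide +kernel)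
theorem s1326 : Valid A [433, 439, 3554, 3172, 962, 1122, 2402, 3170, 994] := rup _
  (.cons s1279 (.cons s432 (.cons (t3 7 33 50) (.cons (t3 7 8 50) (.cons a431 (.cons a66 (.cons (t2 3 24 27) (.cons (t3 3 7 27) (.cons s877 (.cons a109 (.cons (t3 7 15 50) (.cons a96 (.cons s712 (.cons a105 (.cons a446 (.cons (t1 8 33 49) (.cons (t1 8 15 49) (.cons (t2 7 41 50) (.cons s148 (.cons a113 (.cons a304 (.cons (t3 6 7 50) (.cons (t3 15 24 27) (.cons (t2 6 24 49) (.cons s163 (.cons a93 (.cons s185 (.cons (t3 14 24 27) (.cons s482 (.cons a317 (.cons (t3 18 41 50) (.cons (t2 7 14 41) (.cons a525 .nil))))))))))))))))))))))))))))))))) (by decide +kernel)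
theorem s1327 : Valid A [1373, 4706, 944, 2275, 1340, 3170, 1070, 994] := rup _
  (.cons s1115 (.cons s1322 (.cons a399 (.cons (t3 3 17 49) (.cons a514 (.cons s1279 (.cons a192 (.cons (t2 8 10 49) (.cons s1325 (.cons s864 (.cons s150 (.cons s432 (.cons (t3 7 24 50) (.cons s714 (.cons (t2 17 27 49) (.cons a36 (.cons s1326 (.cons a64 (.cons s718 (.cons s145 (.cons s16 (.cons (t2 3 7 48) (.cons a479 (.cons s211 (.cons s90 (.cons s1253 (.cons s103 (.cons (t3 24 36 48) (.cons a168 (.cons (t3 24 33 36) (.cons (t2 33 34 36) (.cons a178 (.cons (t1 10 34 49) (.cons (t2 10 24 46) (.cons s370 (.cons (t3 10 24 33) .nil)))))))))))))))))))))))))))))))))))) (by decide +kernel)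
theorem s1328 : Valid A [986, 2907, 938, 2778, 461, 3149, 445, 969, 433, 1123, 1059, 994] := rup _
  (.cons (t3 7 21 36) (.cons s199 (.cons (t1 7 36 45) (.cons s177 (.cons s384 (.cons s1302 .nil)))))) (by decide +kernel)
theorem s1329 : Valid A [2907, 938, 2778, 461, 3149, 445, 867, 969, 433, 943, 934, 1123, 2530, 1059, 4706, 994] := rup _
  (.cons (t3 7 21 36) (.cons s1328 (.cons a86 (.cons a88 (.cons (t2 7 23 45) (.cons (t2 7 36 45) (.cons (t3 7 19 45) (.cons (t3 7 22 45) (.cons s776 (.cons (t3 22 23 45) (.cons a380 (.cons a341 (.cons a227 (.cons (t3 2 6 49) (.cons a496 (.cons (t1 11 23 45) (.cons (t1 19 21 49) (.cons (t1 7 23 52) (.cons a73 (.cons (t1 23 45 51) (.cons a238 (.cons s680 (.cons (t1 2 49 52) (.cons s177 (.cons (t2 11 49 52) (.cons a215 (.cons (t2 5 11 45) .nil))))))))))))))))))))))))))) (by decide +kernel)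
theorem s1330 : Valid A [938, 2778, 461, 3149, 2481, 445, 867, 969, 433, 3004, 943, 934, 1123, 2530, 1062, 1059, 1379, 1326, 4706, 2275, 1340, 994] := rup _
  (.cons s1329 (.cons s1277 (.cons s177 (.cons s199 (.cons (t1 7 45 49) (.cons (t3 7 19 45) (.cons s354 (.cons a341 (.cons (t3 8 22 49) (.cons (t3 17 22 49) (.cons (t3 8 19 21) (.cons (t2 19 21 24) (.cons a139 (.cons a137 (.cons (t2 8 22 29) (.cons a142 .nil)))))))))))))))) (by decide +kernel)
theorem s1331 : Valid A [2778, 461, 3149, 2481, 445, 782, 969, 433, 943, 934, 2493, 956, 1123, 2530, 1062, 1059, 1379, 1326, 4706, 944, 2275, 1340, 994] := rup _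
  (.cons a304 (.cons (t1 7 23 30) (.cons (t1 8 17 19) (.cons a406 (.cons (t2 8 17 24) (.cons (t1 7 17 49) (.cons s1279 (.cons s1330 (.cons (t3 7 17 21) (.cons (t3 7 19 21) (.cons s458 (.cons (t2 7 21 45) (.cons a341 (.cons s132 (.cons (t2 19 30 45) (.cons (t3 17 19 45) (.cons (t1 19 45 49) (.cons (t1 2 6 49) (.cons a79 (.cons s1305 (.cons s354 (.cons a87 (.cons (t1 22 30 45) (.cons (t1 7 22 49) (.cons s325 (.cons (t3 2 7 52) (.cons (t3 6 7 52) (.cons a71 .nil)))))))))))))))))))))))))))) (by decide +kernel)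
theorem s1332 : Valid A [2907, 3034, 2734, 2736, 3162, 3042, 1315, 1379, 2224] := rup _
  (.cons a398 (.cons (t2 22 23 45) (.cons (t2 22 24 45) (.cons (t3 10 22 49) (.cons (t1 10 17 22) (.cons s630 (.cons s1308 (.cons a505 (.cons a134 (.cons s7 .nil)))))))))) (by decide +kernel)
theorem s1333 : Valid A [2746, 716, 683, 2790, 2732, 2736, 2779, 3149, 3133, 1123, 1059, 2224] := rup _
  (.cons (t2 8 17 24) (.cons s202 (.cons a134 (.cons (t2 8 21 49) (.cons (t2 8 17 21) (.cons (t1 8 21 45) (.cons (t2 8 21 51) (.cons (t3 5 8 21) (.cons a151 (.cons (t3 17 24 29) (.cons (t2 24 29 30) (.cons (t2 24 29 38) (.cons a500 (.cons (t2 17 21 22) (.cons a359 (.cons (t2 5 8 42) (.cons (t3 29 32 38) (.cons (t1 29 30 32) (.cons a138 (.cons (t2 8 12 49) (.cons a198 (.cons (t1 22 29 30) (.cons a360 (.cons (t3 32 38 42) (.cons a474 (.cons (t2 12 32 42) (.cons a464 (.cons a517 (.cons (t1 8 32 51) .nil))))))))))))))))))))))))))))) (by decide +kernel)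
theorem s1334 : Valid A [938, 2736, 4954, 3162, 2779, 3149, 445, 3133, 943, 956, 1315, 1059, 1379, 1045, 1326, 2224, 1340, 916, 994] := rup _
  (.cons (t1 7 23 30) (.cons (t3 10 23 49) (.cons (t3 10 30 49) (.cons (t1 8 10 49) (.cons (t3 7 21 23) (.cons (t3 7 21 45) (.cons (t3 21 23 45) (.cons s1332 (.cons (t2 21 22 45) (.cons s1277 (.cons s177 (.cons (t2 21 45 51) (.cons (t3 5 21 45) (.cons (t2 5 7 45) (.cons (t2 5 38 45) (.cons s1333 (.cons a143 (.cons a144 (.cons (t1 5 21 29) (.cons (t3 8 21 49) (.cons (t1 8 10 29) (.cons (t2 5 10 29) (.cons s1167 (.cons (t3 10 22 49) (.cons (t1 7 22 49) (.cons (t2 22 30 49) (.cons s480 (.cons s991 (.cons s146 .nil))))))))))))))))))))))))))))) (by decide +kernel)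
theorem s1335 : Valid A [969, 433, 943, 1372, 1045, 1326, 4706, 944, 2275, 1340, 916, 3170, 994] := rup _
  (.cons s1115 (.cons a66 (.cons a46 (.cons s872 (.cons s42 (.cons a514 (.cons (t1 7 46 49) (.cons a189 (.cons (t3 10 30 49) (.cons a468 (.cons (t3 7 18 30) (.cons (t1 7 23 30) (.cons (t3 7 18 23) (.cons (t1 7 23 24) (.cons s46 (.cons s183 (.cons s193 (.cons (t2 10 18 49) (.cons a349 (.cons a347 (.cons (t2 18 19 30) (.cons (t3 10 23 49) (.cons (t3 3 17 49) (.cons (t1 3 10 49) (.cons (t1 8 10 49) (.cons (t3 10 17 49) (.cons (t3 10 19 49) (.cons (t2 8 10 19) (.cons (t2 8 10 46) (.cons (t1 7 17 49) (.cons (t3 7 17 46) (.cons a181 (.cons a406 (.cons (t3 3 7 36) (.cons (t3 7 33 36) (.cons a52 (.cons (t2 3 24 33) (.cons (t1 3 33 49) (.cons (t1 3 33 48) (.cons (t3 3 10 33) (.cons s148 (.cons s176 (.cons a391 (.cons (t3 10 33 34) (.cons s165 (.cons (t3 24 30 33) (.cons (t3 3 30 33) (.cons (t3 3 18 33) (.cons (t3 18 24 33) (.cons (t3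 19 24 30) (.cons s620 (.cons (t2 18 24 38) (.cons (t1 3 18 38) (.cons s1331 (.cons a61 (.cons a63 (.cons (t1 3 24 45) (.cons (t1 3 38 45) (.cons (t3 3 21 24) (.cons s1334 (.cons (t2 7 21 36) (.cons (t3 7 10 21) (.cons s1060 .nil))))))))))))))))))))))))))))))))))))))))))))))))))))))))))))))) (by decide +kernel)
theorem s1336 : Valid A [433, 943, 4706, 944, 2275, 1340, 3170, 1070, 994] := rup _
  (.cons s1322 (.cons a399 (.cons s1319 (.cons s1327 (.cons s872 (.cons s42 (.cons (t3 7 18 23) (.cons s193 (.cons a514 (.cons (t1 7 46 49) (.cons a189 (.cons (t2 10 18 49) (.cons a349 (.cons (t3 7 24 46) (.cons s1335 (.cons s1035 (.cons (t1 7 23 36) (.cons (t3 7 36 46) (.cons (t1 7 23 48) (.cons a483 (.cons a177 (.cons a520 (.cons (t3 18 24 36) (.cons (t1 3 24 36) (.cons s62 (.cons (t3 3 18 24) (.cons a54 (.cons (t1 8 10 34) (.cons (t1 3 18 33) (.cons (t1 3 24 33) (.cons s620 (.cons s165 (.cons a266 (.cons s676 (.cons (t2 10 33 49) (.cons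 (t3 9 18 24) (.cons a429 (.cons (t1 33 49 50) (.cons a250 (.cons (t1 10 49 50) (.cons (t1 9 33 50) (.cons a249 .nil)))))))))))))))))))))))))))))))))))))))))) (by decide +kernel)
theorem s1337 : Valid A [1348, 2353, 1376, 399, 943, 962, 2343, 1123, 1379, 932, 1372, 2402, 1340, 3170, 994] := rup _
  (.cons (t3 10 30 49) (.cons a468 (.cons (t3 7 18 30) (.cons (t2 3 7 30) (.cons (t3 7 18 23) (.cons s1279 (.cons s135 (.cons s620 (.cons s165 (.cons s676 (.cons a429 (.cons (t2 3 7 50) (.cons s431 (.cons (t3 18 49 50) (.cons a106 (.cons a427 (.cons s137 (.cons (t3 8 15 49) (.cons (t3 8 41 49) (.cons s168 .nil)))))))))))))))))))) (by decide +kernel)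
theorem s1338 : Valid A [938, 2778, 4323, 2481, 969, 422, 399, 943, 962, 2493, 1062, 1059, 1379, 1045, 944, 994] := rup _
  (.cons a311 (.cons a304 (.cons (t1 8 10 49) (.cons (t2 3 7 21) (.cons s156 (.cons s444 (.cons a86 (.cons a88 (.cons s59 (.cons (t3 7 24 45) (.cons (t1 7 45 49) (.cons (t2 7 23 45) (.cons (t2 7 36 45) (.cons (t1 6 7 45) (.cons (t3 8 19 21) (.cons (t2 19 21 30) (.cons (t2 19 21 24) (.cons (t1 2 6 7) (.cons s776 (.cons a380 (.cons a223 (.cons a137 (.cons (t1 11 23 45) (.cons (t1 21 24 52) (.cons a142 (.cons s3 (.cons (t2 8 10 29) (.cons (t2 8 29 49) (.cons (t2 8 17 29) (.cons (t3 0 8 49) (.cons (t3 0 8 17) (.cons a147 (.cons a140 (.cons (t1 4 17 29) (.cons (t3 22 29 49) (.cons a509 (.cons s354 (.cons a491 (.cons (t2 0 4 22) (.cons s86 (.cons (t2 22 24 45) (.cons (t3 7 22 45) (.cons (t3 6 22 45) (.cons (t3 4 7 22) (.cons (t2 4 22 24) (.cons (t1 4 22 45) (.cons (t3 4 6 22) (.cons (t2 4 22 40) (.cons a227 (.cons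 (t2 4 7 52) (.cons a100 (.cons (t1 4 6 52) (.cons a7 (.cons (t1 7 23 52) (.cons (t2 7 15 45) (.cons a71 (.cons (t1 24 40 52) (.cons a238 (.cons a109 (.cons (t2 2 49 52) (.cons (t2 11 40 52) (.cons a96 (.cons (t3 11 49 52) (.cons a446 (.cons (t3 33 41 49) (.cons (t2 11 41 49) (.cons (t3 7 40 41) (.cons a3 .nil)))))))))))))))))))))))))))))))))))))))))))))))))))))))))))))))))))) (by decide +kernel)
theorem s1339 : Valid A [2778, 2243, 3138, 4323, 1100, 2481, 969, 399, 3004, 943, 962, 2343, 2530, 1062, 1059, 1379, 1045, 1326, 4706, 944, 2275, 1340, 994] := rup _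
  (.cons a347 (.cons (t2 3 7 19) (.cons a514 (.cons (t3 10 30 49) (.cons a468 (.cons (t2 18 19 30) (.cons (t1 8 17 19) (.cons a406 (.cons (t2 8 17 24) (.cons (t1 8 10 49) (.cons (t2 17 36 49) (.cons (t1 7 17 49) (.cons s1279 (.cons s1338 (.cons a208 (.cons (t2 7 21 36) (.cons (t3 7 17 21) (.cons (t3 7 19 21) (.cons s458 (.cons s568 (.cons (t1 21 36 45) (.cons a341 (.cons s2 (.cons (t3 8 19 45) (.cons (t2 19 24 45) (.cons (t2 19 30 45) (.cons (t1 18 19 45) (.cons (t3 17 19 45) (.cons (t1 19 45 49) (.cons s1305 (.cons s727 (.cons s1277 (.cons (t1 22 30 45) (.cons s354 (.cons (t1 11 17 49) (.cons s177 (.cons (t2 30 45 51) (.cons a492 (.cons (t3 8 22 49) (.cons (t3 5 19 45) (.cons (t3 5 30 45) (.cons (t2 5 8 45) (.cons (t2 5 45 49) (.cons a472 (.cons (t1 0 17 49) (.cons a213 (.cons a215 (.cons (t1 8 22 51) (.cons (t3 4 5 11) (.cons (t2 5 11 30) (.cons (t3 5 7 11) (.cons (t2 5 11 45) (.cons a373 (.cons a383 (.cons a375 (.cons (t2 0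 11 16) (.cons (t2 0 4 11) (.cons (t1 16 17 33) (.cons s1197 (.cons a509 (.cons (t3 11 42 45) (.cons (t3 4 16 17) (.cons a356 (.cons a254 (.cons s178 (.cons (t3 9 16 33) (.cons (t3 24 38 45) (.cons (t3 18 38 45) (.cons a250 (.cons (t1 9 24 38) (.cons a268 .nil))))))))))))))))))))))))))))))))))))))))))))))))))))))))))))))))))))))) (by decide +kernel)
theorem s1340 : Valid A [2747, 654, 683, 2732, 2736, 2748, 956, 2236, 1072, 1315, 1059, 1045, 930, 916] := rup _
  (.cons a143 (.cons a144 (.cons (t1 21 29 30) (.cons (t1 5 21 29) (.cons (t3 21 22 29) (.cons (t2 5 8 21) (.cons (t1 8 10 29) (.cons (t1 8 17 29) (.cons (t2 5 10 29) (.cons a138 (.cons (t1 10 17 22) (.cons (t3 7 17 22) (.cons (t1 17 22 30) (.cons s480 (.cons s991 (.cons s335 .nil)))))))))))))))) (by decide +kernel)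
theorem s1341 : Valid A [2353, 4293, 969, 1376, 399, 943, 1372, 1045, 1326, 4706, 944, 2275, 1340, 916, 3170, 994] := rup _
  (.cons s872 (.cons (t1 3 7 46) (.cons (t1 3 7 23) (.cons s42 (.cons a514 (.cons (t1 7 46 49) (.cons a189 (.cons (t3 10 30 49) (.cons a468 (.cons (t3 7 18 30) (.cons (t1 7 23 30) (.cons s183 (.cons s193 (.cons (t2 10 18 49) (.cons a349 (.cons s72 (.cons (t2 18 19 30) (.cons (t2 8 10 30) (.cons (t2 8 10 46) (.cons (t1 7 17 49) (.cons (t3 7 17 46) (.cons a181 (.cons (t1 8 17 30) (.cons a406 (.cons (t2 8 17 24) (.cons (t3 10 23 49) (.cons (t1 8 10 49) (.cons (t3 10 17 49) (.cons (t2 10 24 49) (.cons (t3 10 19 49) (.cons (t2 8 10 19) (.cons s733 (.cons (t2 18 19 24) (.cons s1337 (.cons a160 (.cons (t2 10 34 49) (.cons (t3 10 24 34) (.cons (t1 8 10 34) (.cons (t3 10 33 34) (.cons (t2 8 34 38) (.cons (t1 33 34 49) (.cons (t1 24 33 34) (.cons (t2 10 17 33) (.cons s1339 (.cons a61 (.cons a63 (.cons a342 (.cons a344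 (.cons (t1 3 7 45) (.cons (t1 3 23 45) (.cons (t3 3 21 23) (.cons (t1 19 24 45) (.cons (t3 19 21 30) (.cons (t3 19 21 24) (.cons s1332 (.cons (t2 21 22 45) (.cons s1277 (.cons s177 (.cons (t2 21 45 51) (.cons (t3 5 21 45) (.cons (t2 5 7 45) (.cons s1340 (.cons s202 (.cons a134 (.cons (t2 8 21 49) (.cons (t1 8 21 38) (.cons (t1 8 21 45) (.cons (t3 5 8 21) (.cons (t3 17 24 29) (.cons a500 (.cons (t3 21 22 49) (.cons (t1 5 21 49) (.cons (t2 5 21 38) (.cons a359 (.cons (t2 5 8 42) (.cons (t2 8 12 49) (.cons s1232 (.cons a216 (.cons s1333 (.cons a198 (.cons a360 (.cons (t2 0 7 49) (.cons (t2 0 11 49) (.cons (t2 19 24 38) (.cons (t3 12 38 42) (.cons a383 (.cons a173 (.cons (t1 12 38 46) (.cons (t1 3 7 11) (.cons (t3 3 12 46) (.cons a42 .nil))))))))))))))))))))))))))))))))))))))))))))))))))))))))))))))))))))))))))))))))))))))))))) (by decide +kernel)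
theorem s1342 : Valid A [2746, 2778, 2480, 422, 399, 1072, 1062, 944, 912] := rup _
  (.cons s458 (.cons (t2 3 7 21) (.cons s444 (.cons (t3 8 19 21) (.cons (t1 19 21 24) (.cons s202 .nil)))))) (by decide +kernel)
theorem s1343 : Valid A [2907, 2218, 2747, 2778, 1315] := rup _
  (.cons a396 (.cons s1305 (.cons (t1 10 17 45) .nil))) (by decide +kernel)
theorem s1344 : Valid A [938, 682, 2906, 2786, 2778, 969, 3017, 444, 399, 943, 3042, 3938, 1379, 4706, 944, 2275, 994] := rup _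
  (.cons (t3 7 21 36) (.cons (t3 7 21 23) (.cons (t2 3 7 21) (.cons s156 (.cons a207 (.cons s680 (.cons a60 (.cons (t3 7 24 45) (.cons (t1 7 45 49) (.cons (t1 5 7 23) (.cons s789 (.cons (t2 3 22 45) (.cons s354 (.cons (t2 5 11 23) (.cons a215 (.cons (t3 11 17 49) (.cons (t2 11 30 49) (.cons (t3 11 22 49) (.cons a377 (.cons a371 (.cons (t3 11 16 22) (.cons (t1 3 16 30) (.cons a56 .nil))))))))))))))))))))))) (by decide +kernel)
theorem s1345 : Valid A [2778, 2480, 969, 3017, 444, 399, 3004, 943, 1123, 1328, 1062, 1059, 1379, 1318, 1326, 4706, 944, 2275, 1340, 994] := rup _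
  (.cons a514 (.cons (t2 10 18 49) (.cons a349 (.cons a347 (.cons (t2 3 7 19) (.cons (t3 10 30 49) (.cons a468 (.cons (t2 18 19 30) (.cons a406 (.cons (t2 8 17 24) (.cons (t3 10 23 49) (.cons (t3 10 17 49) (.cons (t3 10 19 49) (.cons s1279 (.cons s1342 (.cons a143 (.cons (t3 8 21 49) (.cons (t1 8 17 21) (.cons s1343 (.cons s1277 (.cons s177 (.cons (t2 5 21 45) (.cons s1344 (.cons (t2 7 21 36) (.cons (t3 7 19 21) (.cons (t2 7 21 45) (.cons (t1 21 36 45) (.cons a341 (.cons (t3 10 19 45) (.cons (t2 19 30 45) (.cons (t1 19 45 49) (.cons (t3 19 24 45) (.cons a395 (.cons (t1 22 30 45) (.cons (t2 30 45 51) (.cons (t3 5 30 45) (.cons (t2 5 45 49) (.cons s727 (.cons (t1 10 22 24) (.cons (t2 10 17 22) (.cons a472 (.cons (t1 11 17 49) (.cons a215 (.cons (t3 22 24 51) (.cons (t1 17 22 51) (.cons (t2 5 11 30) (.cons a373 (.cons a375 (.cons (t3 8 16 17) (.cons (t1 16 17 51) (.cons a26 (.cons (t3 16 20 51) (.cons a22 (.cons (t1 7 20 24) (.cons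 (t2 20 24 45) (.cons a29 .nil)))))))))))))))))))))))))))))))))))))))))))))))))))))))) (by decide +kernel)
theorem s1346 : Valid A [2907, 2394, 2734, 2760, 4698, 986, 2779, 969, 2493, 956, 2365, 2236, 1379, 4706, 2275, 916] := rup _
  (.cons a344 (.cons (t3 19 21 30) (.cons a342 (.cons (t1 19 30 45) (.cons (t2 10 36 49) (.cons a396 (.cons a398 (.cons s909 (.cons (t1 18 22 45) (.cons (t3 10 45 49) (.cons (t1 10 21 45) (.cons a222 (.cons s727 (.cons s986 (.cons s84 (.cons (t3 21 23 52) (.cons (t1 11 17 49) (.cons (t2 10 11 49) (.cons a387 (.cons a487 (.cons (t3 21 28 45) (.cons s121 (.cons (t3 7 28 36) (.cons (t2 11 28 45) (.cons (t1 11 19 30) (.cons s401 (.cons (t3 7 11 28) (.cons (t1 7 11 16) (.cons (t1 11 16 19) (.cons (t1 11 16 45) (.cons s110 .nil))))))))))))))))))))))))))))))) (by decide +kernel)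
theorem s1347 : Valid A [1067, 2746, 2732, 272, 2748, 986, 2779, 783, 3132, 956, 1072, 1059, 944] := rup _
  (.cons a145 (.cons (t1 8 21 24) (.cons (t2 8 17 21) (.cons (t1 8 21 45) (.cons (t1 8 17 29) (.cons a134 (.cons (t2 17 21 22) (.cons (t3 2 8 45) (.cons a138 (.cons (t3 7 24 29) (.cons (t1 24 29 30) (.cons a85 (.cons (t2 22 29 30) (.cons (t1 7 22 29) (.cons (t3 2 6 7) (.cons s991 (.cons a73 (.cons a222 (.cons (t1 2 7 52) (.cons (t3 21 22 52) (.cons a226 .nil))))))))))))))))))))) (by decide +kernel)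
theorem s1348 : Valid A [2746, 2732, 272, 2748, 986, 2779, 783, 3132, 956, 1123, 1059, 1379, 944, 2275] := rup _
  (.cons a406 (.cons (t2 8 17 24) (.cons s1347 (.cons (t3 8 21 49) (.cons a142 (.cons s1167 (.cons (t2 8 17 29) (.cons (t3 17 22 49) (.cons a141 .nil))))))))) (by decide +kernel)
theorem s1349 : Valid A [943, 4706, 944, 2275, 1340, 3170, 1070, 994] := rup _
  (.cons s1115 (.cons s1319 (.cons s1322 (.cons a399 (.cons s1327 (.cons s872 (.cons s42 (.cons a514 (.cons (t1 7 46 49) (.cons a189 (.cons (t3 10 30 49) (.cons a468 (.cons (t3 7 18 30) (.cons s183 (.cons s193 (.cons (t2 10 18 49) (.cons a349 (.cons (t2 18 19 30) (.cons (t2 8 10 30) (.cons (t2 8 10 46) (.cons (t1 7 17 49) (.cons (t3 7 17 46) (.cons a181 (.cons (t1 8 17 30) (.cons a406 (.cons (t2 8 17 24) (.cons (t1 8 10 49) (.cons (t3 10 17 49) (.cons (t2 10 24 49) (.cons (t2 8 10 19) (.cons (t3 3 17 49) (.cons (t1 7 23 30) (.cons (t1 7 23 33) (.cons s1336 (.cons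 a64 (.cons s718 (.cons (t1 3 7 23) (.cons (t2 3 7 30) (.cons a479 (.cons (t2 10 48 49) (.cons (t2 8 48 49) (.cons s103 (.cons a520 (.cons (t1 7 23 48) (.cons (t3 23 33 48) (.cons (t3 23 36 48) (.cons s1035 (.cons s1026 (.cons s176 (.cons s1341 (.cons (t3 18 24 30) (.cons (t1 18 19 24) (.cons s390 (.cons (t1 33 34 49) (.cons a311 (.cons a304 (.cons s1345 (.cons a61 (.cons a63 (.cons a342 (.cons a344 (.cons (t1 3 7 45) (.cons (t1 3 36 45) (.cons (t3 3 21 36) (.cons (t3 3 21 23) (.cons (t2 18 19 45) (.cons (t3 19 21 30) (.cons s132 (.cons (t1 2 8 49) (.cons s1346 (.cons (t2 21 22 45) (.cons s1277 (.cons s177 (.cons (t3 5 21 45) (.cons (t2 5 7 45) (.cons s1348 (.cons a137 (.cons s1340 .nil)))))))))))))))))))))))))))))))))))))))))))))))))))))))))))))))))))))))))))))) (by decide +kernel)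

end Pool.Agent.Helper50.Canon.CD
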