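import Mathlib
import Pool.Agent.Helper50.Canon.CD.C9

set_option autoImplicit false

namespace Pool.Agent.Helper50.Canon.CD

theorem s1350 : Valid A [2746, 1114, 2907, 2778, 1079, 3555, 867, 461, 3149, 445, 433, 969, 934, 1072, 1123, 1062, 1059, 944, 994] := rup _
  (.cons s1279 (.cons s458 (.cons s1328 (.cons a86 (.cons a88 (.cons (t3 7 19 45) (.cons (t3 7 22 45) (.cons s776 (.cons a341 (.cons a227 (.cons (t3 2 6 49) (.cons (t3 8 19 21) (.cons (t1 7 45 52) (.cons a73 (.cons a142 (.cons (t1 2 49 52) (.cons (t2 8 27 29) (.cons a127 (.cons (t2 8 27 42) (.cons (t3 27 42 49) (.cons a356 (.cons a234 (.cons (t2 42 45 52) .nil))))))))))))))))))))))) (by decide +kernel)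
theorem s1351 : Valid A [2907, 2778, 1079, 3555, 867, 461, 3149, 445, 433, 969, 934, 1072, 1123, 1315, 1062, 1059, 1045, 944, 994] := rup _
  (.cons a396 (.cons (t2 8 10 45) (.cons s1350 (.cons a143 (.cons s1343 (.cons (t1 8 17 21) .nil)))))) (by decide +kernel)
theorem s1352 : Valid A [1067, 2746, 2906, 2778, 2993, 1072, 1123, 1379, 1070] := rup _
  (.cons (t2 8 21 49) (.cons (t1 8 21 23) (.cons (t1 8 21 24) (.cons (t3 21 45 49) (.cons a134 (.cons s354 (.cons s10 (.cons a492 (.cons (t1 0 23 24) (.cons (t1 0 21 49) (.cons a505 .nil))))))))))) (by decide +kernel)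
theorem s1353 : Valid A [986, 2914, 3788, 954, 2765, 2749, 938, 2778, 969, 956, 994] := rup _
  (.cons (t3 7 21 36) (.cons (t1 7 36 45) (.cons s199 (.cons s384 (.cons s177 (.cons (t3 21 45 51) (.cons (t3 7 45 51) (.cons (t1 21 30 51) (.cons (t3 11 21 38) (.cons s169 (.cons a130 (.cons s376 (.cons s474 .nil))))))))))))) (by decide +kernel)
theorem s1354 : Valid A [2746, 2906, 2778, 1100, 3149, 3133, 969, 2993, 956, 1072, 1123, 1059, 1379, 944, 1070, 994] := rup _
  (.cons s1279 (.cons s458 (.cons s1352 (.cons s202 (.cons a142 (.cons (t1 21 24 30) (.cons (t1 21 24 38) (.cons (t3 7 8 29) (.cons (t2 8 29 49) (.cons (t2 8 17 29) (.cons (t1 8 29 38) (.cons a140 (.cons (t3 22 29 49) (.cons s1353 (.cons s354 (.cons (t1 7 45 49) .nil)))))))))))))))) (by decide +kernel)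
theorem s1355 : Valid A [2778, 1079, 3555, 867, 461, 1100, 3149, 3133, 433, 969, 2993, 934, 956, 3042, 3938, 1062, 1059, 1379, 1045, 944, 2275, 1070, 994] := rup _
  (.cons s1115 (.cons (t1 8 10 49) (.cons (t3 6 8 49) (.cons (t1 3 24 30) (.cons a66 (.cons a406 (.cons (t2 8 17 24) (.cons (t3 10 17 49) (.cons (t3 3 17 49) (.cons s1351 (.cons s1354 (.cons a137 (.cons a143 (.cons a144 (.cons s498 (.cons (t2 3 21 24) (.cons (t3 21 24 30) (.cons (t2 6 8 21) (.cons (t1 8 17 29) (.cons (t2 0 23 49) (.cons a60 (.cons s1232 (.cons (t1 3 45 49) (.cons (t3 3 7 45) (.cons (t2 3 30 45) (.cons (t1 7 22 49) (.cons (t2 22 30 49) (.cons s132 (.cons s991 (.cons (t1 2 6 49) (.cons a79 (.cons (t1 30 45 52) (.cons a222 (.cons (t2 2 45 52) (.cons (t3 6 21 52) (.cons a71 .nil)))))))))))))))))))))))))))))))))))) (by decide +kernel)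
theorem s1356 : Valid A [2746, 2732, 2736, 2779, 1079, 3126, 1072, 1123, 1315, 1328, 944, 2275, 912] := rup _
  (.cons a406 (.cons s202 (.cons a134 (.cons (t2 8 21 49) (.cons (t1 8 21 45) (.cons a151 (.cons (t3 17 24 29) (.cons (t3 7 24 29) (.cons (t3 10 24 29) (.cons (t3 24 27 29) (.cons a500 (.cons (t3 21 22 49) (.cons a359 (.cons (t2 8 12 49) (.cons s1232 (.cons (t1 8 27 42) (.cons a360 (.cons (t3 0 17 49) (.cons a126 (.cons a511 (.cons (t3 29 32 42) (.cons (t1 4 10 17) (.cons (t3 4 17 49) (.cons (t2 12 32 42) (.cons a146 (.cons a517 (.cons (t2 4 7 29) (.cons (t3 7 8 32) (.cons (t2 8 32 49) (.cons (t2 8 27 32) (.cons a322 (.cons a412 (.cons (t3 32 35 49) (.cons (t3 4 7 35) (.cons a416 .nil))))))))))))))))))))))))))))))))))) (by decide +kernel)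
theorem s1357 : Valid A [969, 4706, 944, 2275, 1340, 3170, 1070, 994] := rup _
  (.cons s1115 (.cons s1322 (.cons a399 (.cons s1319 (.cons s1327 (.cons s872 (.cons (t3 7 24 46) (.cons s1349 (.cons (t3 7 23 46) (.cons a193 (.cons s1279 (.cons s864 (.cons s42 (.cons a514 (.cons (t1 7 46 49) (.cons a189 (.cons (t3 10 30 49) (.cons a468 (.cons (t3 7 18 30) (.cons s183 (.cons s193 (.cons (t2 10 18 49) (.cons a349 (.cons a347 (.cons (t2 8 10 46) (.cons (t1 7 17 49) (.cons (t3 7 17 46) (.cons a181 (.cons (t2 8 10 19) (.cons (t1 8 17 19) (.cons (t2 8 10 30) (.cons (t1 8 17 30) (.cons a515 (.cons (t2 8 17 18) (.cons a406 (.cons (t2 8 17 24) (.cons (t3 10 23 49) (.cons (t1 8 10 49) (.cons (t3 10 17 49) (.cons (t2 10 24 49) (.cons (t3 3 17 49) (.cons (t3 7 23 36) (.cons (t3 7 24 36) (.cons (t3 7 33 36) (.cons (t3 7 18 36) (.cons (t1 7 36 48) (.cons a483 (.cons a479 (.cons (t1 18 23 24) (.cons s106 (.cons s718 (.cons s733 (.cons (t3 3 18 24)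 (.cons (t2 18 19 24) (.cons a168 (.cons (t2 10 34 49) (.cons (t3 3 23 24) (.cons (t2 3 24 36) (.cons (t1 3 24 30) (.cons s1089 (.cons (t1 19 24 34) (.cons (t1 23 24 34) (.cons s620 (.cons a52 (.cons (t2 23 34 39) (.cons (t2 19 34 39) (.cons a156 (.cons (t2 18 24 38) (.cons (t3 8 18 38) (.cons (t1 3 18 38) (.cons (t1 3 33 49) (.cons a333 (.cons s197 (.cons (t2 24 27 34) (.cons (t2 23 27 34) (.cons s148 (.cons (t2 17 39 49) (.cons a325 (.cons a304 (.cons (t1 27 39 49) (.cons (t3 8 27 39) (.cons s1355 (.cons a61 (.cons a63 (.cons (t1 3 24 45) (.cons (t1 3 23 45) (.cons (t3 3 21 24) (.cons (t3 3 21 23) (.cons (t3 3 21 30) (.cons s1332 (.cons (t2 21 22 45) (.cons s1356 (.cons a143 (.cons a144 (.cons (t3 21 22 29) (.cons (t1 8 10 21) (.cons (t1 8 17 29) (.cons a138 (.cons (t3 10 21 45) (.cons (t1 10 17 22) (.cons (t3 7 17 22) (.cons (t1 17 22 30) (.cons s991 (.cons a222 (.cons (t3 10 21 52) (.cons (t2 21 45 52) (.cons s109 (.cons (t3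 7 21 52) (.cons (t3 7 45 52) (.cons a208 (.cons (t3 5 7 45) (.cons s177 (.cons (t3 23 45 51) (.cons s929 .nil)))))))))))))))))))))))))))))))))))))))))))))))))))))))))))))))))))))))))))))))))))))))))))))))))))))))))))))))))) (by decide +kernel)
theorem s1358 : Valid A [4706, 944, 2275, 1340, 3170, 1070, 994] := rup _
  (.cons s1115 (.cons (t3 3 17 49) (.cons a514 (.cons s1319 (.cons s1322 (.cons a399 (.cons s1327 (.cons s872 (.cons (t1 7 46 49) (.cons (t3 7 24 46) (.cons a189 (.cons (t2 10 36 49) (.cons (t3 10 30 49) (.cons a468 (.cons s1349 (.cons (t3 7 23 46) (.cons a193 (.cons s1357 (.cons (t3 7 36 46) (.cons a177 (.cons (t1 23 24 36) (.cons a484 (.cons a485 (.cons (t3 18 23 24) (.cons (t1 18 30 36) (.cons (t3 18 24 30) (.cons s390 (.cons s106 (.cons (t1 3 34 49) (.cons a479 (.cons (t1 24 36 48) (.cons a45 (.cons (t3 3 24 36) (.cons s1253 (.cons (t1 10 33 36) (.cons (t1 30 33 36) (.cons a391 .nil)))))))))))))))))))))))))))))))))))))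 (by decide +kernel)
theorem s1359 : Valid A [433, 1122, 456, 968, 944, 2275, 3170, 994] := rup _
  (.cons s1115 (.cons a514 (.cons s1279 (.cons a66 (.cons s494 (.cons s432 (.cons (t3 7 24 50) (.cons s714 (.cons (t2 17 27 49) (.cons s1326 (.cons a36 .nil))))))))))) (by decide +kernel)
theorem s1360 : Valid A [2907, 1319, 943, 2778, 399, 1352, 968, 916] := rup _
  (.cons a396 (.cons s118 (.cons (t3 7 10 21) (.cons (t1 10 21 36) (.cons s156 (.cons s201 (.cons (t2 7 23 45) (.cons (t2 5 21 45) (.cons (t3 22 23 45) (.cons s177 (.cons a497 (.cons (t1 22 45 51) .nil)))))))))))) (by decide +kernel)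
theorem s1361 : Valid A [1067, 2906, 4698, 2778, 399, 1329, 1096, 1314, 1045, 1378, 968, 3170, 994] := rup _
  (.cons (t2 8 10 49) (.cons s1279 (.cons a145 (.cons (t1 8 21 49) (.cons (t3 7 8 21) (.cons (t1 8 21 36) (.cons (t2 8 10 21) (.cons (t1 8 10 29) (.cons s156 (.cons s201 (.cons s384 (.cons (t2 10 21 45) (.cons (t2 7 22 45) (.cons (t2 5 11 21) (.cons (t2 5 21 49) (.cons a395 (.cons a215 (.cons (t1 10 22 49) (.cons (t3 10 17 22) (.cons s1127 (.cons (t1 7 11 49) (.cons (t3 11 29 49) (.cons s376 (.cons a383 (.cons s4 .nil))))))))))))))))))))))))) (by decide +kernel)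
theorem s1362 : Valid A [2746, 23, 14, 986, 3163, 1324, 2736, 1066, 1058, 1045, 968, 3144, 4707, 2275] := rup _
  (.cons a142 (.cons a134 (.cons (t2 8 10 29) (.cons (t3 8 17 29) (.cons s10 (.cons (t3 10 22 29) (.cons a138 (.cons (t2 17 22 49) (.cons s395 (.cons (t1 0 11 36) (.cons a492 (.cons (t1 0 36 49) .nil)))))))))))) (by decide +kernel)
theorem s1363 : Valid A [943, 2778, 399, 1073, 1329, 1096, 1045, 1316, 1378, 4707, 2275, 916, 3170, 994] := rup _
  (.cons s1115 (.cons (t1 10 17 49) (.cons (t2 8 10 17) (.cons (t1 10 36 49) (.cons (t3 3 17 49) (.cons (t1 3 36 49) (.cons a514 (.cons (t1 18 36 49) (.cons (t1 7 36 49) (.cons (t1 24 36 49) (.cons (t1 7 23 49) (.cons (t1 7 23 36) (.cons (t1 3 7 23) (.cons a483 (.cons (t3 7 18 23) (.cons a346 (.cons a348 (.cons (t2 3 7 19) (.cons a349 (.cons (t1 8 10 19) (.cons (t1 10 19 36) (.cons s602 (.cons s1360 (.cons s1361 (.cons (t1 8 10 21) (.cons (t3 8 21 24) (.cons (t1 8 19 21) (.cons s118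 (.cons s444 (.cons a397 (.cons (t2 10 24 45) (.cons (t3 7 10 45) (.cons (t3 3 17 21) (.cons (t1 3 21 36) (.cons (t2 3 21 23) (.cons (t2 3 7 21) (.cons s297 (.cons a507 (.cons a210 (.cons (t1 0 7 21) (.cons a383 (.cons a203 (.cons (t1 5 36 49) (.cons (t2 5 19 36) (.cons (t2 5 36 45) (.cons s1362 (.cons (t3 17 21 29) (.cons a216 (.cons s360 (.cons s177 (.cons (t2 0 11 49) (.cons (t1 21 23 51) (.cons (t3 22 45 51) (.cons s1232 (.cons a495 (.cons (t2 22 23 49) .nil)))))))))))))))))))))))))))))))))))))))))))))))))))))))) (by decide +kernel)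
theorem s1364 : Valid A [992, 1373, 4707, 944, 2275, 916, 3170, 994] := rup _
  (.cons s1115 (.cons a191 (.cons s1318 (.cons (t3 10 24 46) (.cons (t1 7 36 49) (.cons (t3 3 17 49) (.cons (t1 3 36 49) (.cons s1279 (.cons s936 (.cons a192 (.cons (t2 8 10 49) (.cons s1359 (.cons (t1 3 10 24) (.cons a64 (.cons (t3 7 10 46) (.cons a185 (.cons (t2 36 46 49) (.cons (t2 8 36 46) (.cons s63 (.cons a514 (.cons s150 (.cons s145 (.cons s432 (.cons (t2 3 7 33) (.cons s90 (.cons s714 (.cons (t3 7 8 50) (.cons (t3 7 33 50) (.cons s804 (.cons a52 (.cons a168 (.cons (t2 10 24 34) (.cons (t2 17 27 49) (.cons (t2 10 38 46) (.cons (t1 33 36 49) (.cons (t1 8 33 36) (.cons (t1 18 34 49) (.cons s128 (.cons a158 (.cons a36 (.cons s712 (.cons (t2 3 7 19) (.cons s1281 (.cons (t2 3 7 27) (.cons (t3 3 19 27) (.cons s715 (.cons a349 (.cons (t2 7 18 27) (.cons (t2 18 19 27) .nil))))))))))))))))))))))))))))))))))))))))))))))))) (by decide +kernel)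
theorem s1365 : Valid A [2221, 2733, 2907, 2734, 938, 943, 2249, 2275] := rup _
  (.cons (t2 17 22 49) (.cons (t2 17 22 36) (.cons a492 (.cons (t2 22 45 49) (.cons (t1 21 22 49) (.cons (t1 21 22 36) (.cons (t2 22 36 45) (.cons (t1 0 21 49) (.cons a204 (.cons a380 (.cons a505 (.cons a207 (.cons (t3 5 21 49) (.cons (t3 11 45 49) (.cons (t3 0 7 23) (.cons (t3 0 5 7) (.cons a215 (.cons a386 (.cons (t1 0 5 11) .nil))))))))))))))))))) (by decide +kernel)
theorem s1366 : Valid A [2907, 2736, 3162, 2734, 938, 3034, 2779, 3042, 943, 2249, 2275] := rup _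
  (.cons a406 (.cons (t3 21 22 45) (.cons (t2 22 23 45) (.cons (t2 22 24 45) (.cons s1365 (.cons (t3 17 22 49) (.cons s1308 (.cons s630 (.cons a134 (.cons a505 (.cons s7 .nil))))))))))) (by decide +kernel)
theorem s1367 : Valid A [1373, 4707, 944, 2275, 3170, 1070, 994] := rup _
  (.cons s1115 (.cons (t3 3 17 49) (.cons (t1 3 36 49) (.cons a514 (.cons (t1 18 36 49) (.cons (t3 17 36 49) (.cons (t1 7 36 49) (.cons s1319 (.cons s1279 (.cons a191 (.cons a192 (.cons s63 (.cons (t3 7 10 46) (.cons s936 (.cons (t2 36 46 49) (.cons s1318 (.cons (t2 8 10 49) (.cons a185 (.cons a401 (.cons (t2 8 36 46) (.cons (t3 10 24 46) (.cons (t3 8 24 46) (.cons s1359 (.cons a64 (.cons s1364 (.cons s864 (.cons (t1 7 23 49) (.cons (t1 7 23 36) (.cons (t1 3 7 23) (.cons s1363 (.cons a483 (.cons a61 (.cons a63 (.cons a342 (.cons a344 (.cons (t3 7 18 23) (.cons (t1 3 23 45) (.cons (t1 3 7 21) (.cons (t3 3 21 23) (.cons a348 (.cons a349 (.cons (t2 10 19 24)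 (.cons (t2 10 19 45) (.cons (t1 19 24 45) (.cons (t3 19 21 24) (.cons s1366 (.cons (t2 21 22 45) (.cons a395 (.cons (t1 10 22 49) (.cons (t1 10 22 23) (.cons s630 (.cons a505 (.cons (t2 0 21 22) (.cons a491 (.cons (t3 0 36 49) (.cons (t2 0 21 36) (.cons a204 (.cons (t3 5 21 45) (.cons s177 (.cons (t3 23 45 51) (.cons s929 .nil))))))))))))))))))))))))))))))))))))))))))))))))))))))))))))) (by decide +kernel)
theorem s1368 : Valid A [5987, 2275, 994] := rup _
  (.cons s1279 (.cons (t1 7 46 49) (.cons (t3 17 46 49) (.cons a185 (.cons a183 .nil))))) (by decide +kernel)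
theorem s1369 : Valid A [944, 2275, 1340, 3170, 1070, 994] := rup _
  (.cons s1115 (.cons s1368 (.cons (t3 3 17 49) (.cons a514 (.cons s1319 (.cons s1279 (.cons s1358 (.cons a480 (.cons (t1 24 36 49) (.cons (t1 7 36 49) (.cons (t1 3 36 49) (.cons s1367 (.cons a189 (.cons s1318 (.cons (t2 10 24 49) (.cons (t3 10 30 49) (.cons (t2 10 48 49) (.cons s75 (.cons (t3 7 24 46) (.cons a468 (.cons (t3 18 24 30) (.cons a185 (.cons s872 (.cons s390 (.cons (t2 8 46 49) (.cons (t3 8 24 46) (.cons a399 (.cons a170 (.cons (t3 10 34 49) (.cons s1359 (.cons (t3 7 10 23) (.cons (t1 10 23 48) (.cons s413 (.cons s864 (.cons a520 (.cons (t2 8 24 33) (.cons s150 (.cons s145 (.cons (t3 8 33 48) (.cons s432 (.cons s176 (.cons (t3 7 24 50) (.cons (t3 7 10 50) (.cons (t1 33 34 49) (.cons (t3 10 33 34) (.cons a311 (.cons a312 (.cons s760 (.cons a304 (.cons (t2 9 10 24) (.cons (t2 6 7 48) (.cons s396 .nil))))))))))))))))))))))))))))))))))))))))))))))))))))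 (by decide +kernel)
theorem s1370 : Valid A [969, 4705, 962, 452, 398] := rup _
  (.cons (t3 7 33 36) (.cons (t3 3 7 36) (.cons s1253 .nil))) (by decide +kernel)
theorem s1371 : Valid A [2907, 2778, 1319, 1353, 2993, 1045, 1378, 945, 2275, 916, 994] := rup _
  (.cons a401 (.cons (t3 7 10 24) (.cons a406 (.cons a396 (.cons (t1 10 36 45) (.cons s118 (.cons (t1 10 21 49) (.cons (t1 10 21 24) (.cons (t3 7 10 21) (.cons (t2 10 21 36) (.cons (t1 10 21 23) (.cons (t1 8 10 21) (.cons a204 (.cons a143 (.cons a207 (.cons (t1 5 10 21) (.cons a134 (.cons (t2 5 7 49) (.cons s10 (.cons (t3 17 24 29) (.cons s133 (.cons (t1 0 7 24) (.cons (t1 0 23 24) (.cons (t3 10 11 36) (.cons (t3 10 11 21) (.cons a505 (.cons a379 (.cons (t2 0 11 21) (.cons (t2 0 21 49) (.cons (t3 11 22 45) (.cons a383 (.cons s1232 (.cons (t1 11 22 49) (.cons (t1 7 11 49) .nil)))))))))))))))))))))))))))))))))) (by decide +kernel)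
theorem s1372 : Valid A [938, 2746, 731, 2906, 2778, 1314, 945, 2224, 916] := rup _
  (.cons (t3 7 21 24) (.cons s199 (.cons a134 (.cons (t2 7 24 45) (.cons (t3 7 10 45) (.cons (t1 22 24 45) (.cons a395 (.cons s1308 (.cons (t3 10 17 22) .nil))))))))) (by decide +kernel)
theorem s1373 : Valid A [2746, 731, 2906, 2778, 1319, 4429, 1100, 943, 972, 1314, 1045, 2245, 945, 2275, 916, 912] := rup _
  (.cons (t2 8 10 17) (.cons a406 (.cons s1372 (.cons (t3 7 8 21) (.cons (t2 7 21 23) (.cons (t3 7 10 21) (.cons (t2 7 21 29) (.cons (t1 7 21 38) (.cons a142 (.cons a506 (.cons s118 (.cons s1188 (.cons (t2 8 10 29) (.cons (t3 8 17 29) (.cons (t1 0 7 23) (.cons a397 (.cons (t3 10 22 29) (.cons s474 (.cons a138 (.cons a130 (.cons (t2 17 22 49) (.cons (t2 17 22 34) (.cons (t1 7 11 38) (.cons (t3 11 34 38) (.cons a493 (.cons (t3 0 22 34) (.cons a383 (.cons (t1 0 11 34) .nil)))))))))))))))))))))))))))) (by decide +kernel)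
theorem s1374 : Valid A [2778, 1319, 1353, 1097, 968, 4429, 1100, 3004, 2993, 972, 1314, 1045, 1378, 945, 2275, 1340, 916, 994] := rup _
  (.cons (t3 7 23 24) (.cons a401 (.cons s158 (.cons (t3 17 34 49) (.cons s1279 (.cons s1371 (.cons s1277 (.cons s177 (.cons (t2 5 21 45) (.cons s1373 (.cons a137 (.cons a143 (.cons (t2 7 21 24) (.cons (t3 8 21 36) (.cons s201 .nil))))))))))))))) (by decide +kernel)
theorem s1375 : Valid A [2746, 2733, 1066, 1058, 1072, 2224] := rup _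
  (.cons s202 (.cons a142 (.cons (t1 21 22 29) (.cons (t1 17 21 24) (.cons (t3 8 17 29) (.cons a138 (.cons (t3 17 21 22) .nil))))))) (by decide +kernel)
theorem s1376 : Valid A [2733, 1066, 2993, 1058, 945, 2275, 1070, 994] := rup _
  (.cons (t3 7 23 24) (.cons s1279 (.cons (t3 7 8 24) (.cons a406 (.cons s1375 (.cons a136 (.cons s498 (.cons (t2 21 22 29) (.cons (t2 7 24 29) (.cons (t3 0 7 23) (.cons a139 (.cons (t1 7 22 29) (.cons s376 (.cons (t3 17 22 49) .nil)))))))))))))) (by decide +kernel)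
theorem s1377 : Valid A [1373, 2275, 1340, 3170, 1070, 994] := rup _
  (.cons s1115 (.cons s1368 (.cons s1369 (.cons s158 (.cons (t2 34 46 49) (.cons (t3 3 17 49) (.cons (t1 3 34 49) (.cons a67 (.cons s718 (.cons s1279 (.cons (t3 7 8 24) (.cons s1319 (.cons (t3 7 10 24) (.cons s47 (.cons a65 (.cons (t2 17 46 49) (.cons a192 (.cons s63 (.cons (t3 7 10 46) (.cons s936 (.cons (t3 10 30 46) (.cons (t2 10 17 46) (.cons s338 (.cons (t3 10 24 46) (.cons (t2 10 34 46) (.cons a185 (.cons a401 (.cons (t2 8 10 49) (.cons (t2 8 10 17) (.cons s50 (.cons (t1 24 30 34) (.cons s1318 (.cons s988 (.cons (t3 8 23 46) (.cons s183 (.cons a479 (.cons (t2 7 24 38) (.cons a193 (.cons s432 (.cons (t2 23 24 49) (.cons (t3 7 23 24) (.cons (t2 23 24 30) (.cons s804 (.cons s414 (.cons (t2 8 38 46) (.cons s128 (.cons (t3 34 38 49) (.cons (t3 7 19 23) (.cons s1370 (.cons s1035 (.cons (t1 7 24 36) (.cons (t1 7 23 36) (.cons (t1 7 23 48) (.cons (t1 7 24 48) (.cons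 a177 (.cons a520 (.cons a44 (.cons s78 (.cons (t3 8 36 46) (.cons (t3 10 36 46) (.cons (t2 8 10 48) (.cons (t3 3 8 48) (.cons a483 (.cons (t3 3 10 48) (.cons (t2 18 19 23) (.cons a349 (.cons s1374 (.cons a61 (.cons a63 (.cons (t1 3 10 45) (.cons (t1 3 8 21) (.cons s1376 (.cons (t3 21 22 45) (.cons s1277 (.cons a395 (.cons s177 (.cons (t1 10 22 49) (.cons (t1 10 22 23) (.cons (t3 5 21 45) (.cons s630 (.cons a210 (.cons s238 (.cons (t3 7 21 23) .nil))))))))))))))))))))))))))))))))))))))))))))))))))))))))))))))))))))))))))))))))))) (by decide +kernel)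
theorem s1378 : Valid A [1044, 1372, 1072, 1328, 2268, 2275, 1070] := rup _
  (.cons a399 (.cons s1320 (.cons (t1 10 23 46) (.cons (t1 10 23 24) (.cons a181 (.cons a193 (.cons (t3 8 24 46) .nil))))))) (by decide +kernel)
theorem s1379 : Valid A [1067, 422, 2778, 1062, 400] := rup _
  (.cons (t3 8 19 21) (.cons (t3 3 8 21) (.cons s444 .nil))) (by decide +kernel)
theorem s1380 : Valid A [2737, 422, 2778, 2480, 432] := rup _
  (.cons (t1 3 21 24) (.cons (t1 19 21 24) (.cons s444 .nil))) (by decide +kernel)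
theorem s1381 : Valid A [422, 2907, 2778, 2480, 1062, 400, 1059, 1315, 1072, 432] := rup _
  (.cons s1379 (.cons (t1 8 17 21) (.cons s1380 (.cons s1343 (.cons s202 .nil))))) (by decide +kernel)
theorem s1382 : Valid A [1067, 2746, 2220, 2907, 2778, 2480, 1062, 1059, 1072] := rup _
  (.cons a145 (.cons (t1 8 21 24) (.cons (t3 8 19 21) (.cons (t1 8 17 29) (.cons a134 (.cons a341 (.cons a138 (.cons (t3 19 24 29) (.cons (t3 19 22 45) (.cons (t1 19 22 29) .nil)))))))))) (by decide +kernel)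
theorem s1383 : Valid A [2746, 4698, 1097, 445, 2220, 4442, 2907, 2778, 431, 2480, 1062, 2992, 3042, 1059, 3938, 1379, 1072, 945, 3170] := rup _
  (.cons a67 (.cons s1382 (.cons (t3 8 21 36) (.cons s202 (.cons (t3 7 21 24) (.cons (t1 3 21 24) (.cons a210 (.cons a60 (.cons a203 (.cons (t2 3 23 45) (.cons (t3 3 22 45) (.cons (t2 5 36 45) (.cons (t3 22 23 45) (.cons (t2 3 22 30) (.cons s177 (.cons a497 (.cons s383 .nil))))))))))))))))) (by decide +kernel)
theorem s1384 : Valid A [2907, 2778, 2493, 2480, 2343, 1062, 2992, 3041, 3042, 400, 1059, 1123, 1349, 3938, 1315, 1379, 6242, 1072, 945, 3170] := rup _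
  (.cons a67 (.cons (t3 23 24 48) (.cons a44 (.cons (t3 3 23 48) (.cons a396 (.cons a398 (.cons (t3 10 45 49) (.cons (t1 10 34 45) (.cons (t1 10 17 22) (.cons s1381 (.cons (t2 3 19 23) (.cons (t1 3 19 30) (.cons (t1 18 19 23) (.cons a484 (.cons (t3 23 36 48) (.cons a479 (.cons (t3 8 36 49) (.cons (t2 36 45 49) (.cons s1383 (.cons a143 (.cons s1343 (.cons (t1 8 17 21) .nil)))))))))))))))))))))) (by decide +kernel)
theorem s1385 : Valid A [1067, 2906, 2778, 431, 942, 968, 2343, 1062, 3041, 400, 1123, 1379, 6242, 1070, 912] := rup _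
  (.cons a347 (.cons (t2 8 21 49) (.cons (t3 7 8 21) (.cons (t1 8 21 23) (.cons (t3 8 19 21) (.cons s1379 (.cons (t3 21 45 49) (.cons s294 (.cons a341 (.cons (t2 3 19 23) (.cons s354 (.cons (t3 7 19 45) (.cons (t2 19 23 45) (.cons (t1 18 19 23) (.cons a492 (.cons s199 (.cons a484 (.cons (t1 0 21 49) (.cons (t1 5 23 45) (.cons (t3 23 36 48) (.cons (t3 23 36 45) (.cons a505 (.cons (t2 0 5 23) (.cons a479 (.cons s297 (.cons (t3 21 36 49) (.cons a383 (.cons a204 (.cons (t1 0 11 49) (.cons (t3 0 5 11) (.cons (t3 5 21 49) (.cons a215 .nil)))))))))))))))))))))))))))))))) (by decide +kernel)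
theorem s1386 : Valid A [2746, 1066, 2906, 2778, 1059, 1123, 1379, 1072, 432, 482] := rup _
  (.cons s202 (.cons a142 (.cons (t1 3 21 24) (.cons (t2 8 29 49) (.cons (t2 8 17 29) (.cons a60 (.cons a140 (.cons (t1 3 45 49) (.cons (t3 22 29 49) (.cons s354 .nil)))))))))) (by decide +kernel)
theorem s1387 : Valid A [3017, 938, 2906, 2778, 968, 2343, 1326, 2365, 1340] := rup _
  (.cons a347 (.cons a484 (.cons a485 (.cons (t3 18 23 30) (.cons (t1 18 19 36) (.cons s1277 (.cons s177 (.cons (t2 5 21 45) (.cons s199 (.cons s585 (.cons (t3 7 19 45) (.cons a341 .nil)))))))))))) (by decide +kernel)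
theorem s1388 : Valid A [426, 445, 683, 2747, 1322, 2906, 2778, 956, 1045, 2236, 404, 1315, 1072, 930, 916] := rup _
  (.cons a209 (.cons a137 (.cons (t1 8 10 17) (.cons a60 (.cons (t3 3 21 30) (.cons (t3 3 10 45) (.cons s1340 (.cons a395 (.cons (t3 10 21 22) .nil))))))))) (by decide +kernel)
theorem s1389 : Valid A [2778, 2480, 942, 968, 2343, 2530, 1062, 2992, 956, 1045, 1349, 1379, 945, 930, 2275, 1340, 916, 3170, 1070, 912] := rup _
  (.cons s1115 (.cons (t3 3 17 49) (.cons a67 (.cons s718 (.cons (t2 10 48 49) (.cons (t2 8 10 48) (.cons a520 (.cons (t3 23 24 48) (.cons a44 (.cons (t3 3 23 48) (.cons a514 (.cons (t3 10 30 49) (.cons a468 (.cons (t2 18 19 30) (.cons a401 (.cons (t3 10 23 49) (.cons (t1 3 10 49) (.cons (t1 3 8 10) (.cons (t3 10 17 49) (.cons (t1 8 10 17) (.cons (t1 8 10 49) (.cons (t1 10 17 30) (.cons (t3 7 8 24) (.cons s1384 (.cons s1385 (.cons (t3 8 21 49) (.cons (t1 8 10 21) (.cons s1386 (.cons (t3 10 21 29)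 (.cons a137 (.cons (t2 7 21 24) (.cons s1387 (.cons (t3 23 36 48) (.cons a479 (.cons (t1 18 36 49) (.cons (t3 10 36 49) (.cons (t1 19 36 49) (.cons (t1 21 36 49) (.cons a483 (.cons s201 (.cons (t2 18 23 30) (.cons (t2 18 19 23) (.cons a205 (.cons s26 (.cons (t2 5 21 45) (.cons (t1 5 21 29) (.cons (t1 3 23 30) (.cons (t3 3 19 23) (.cons s177 (.cons s1388 (.cons (t2 3 21 23) (.cons (t2 3 19 21) (.cons (t1 21 23 51) (.cons (t3 5 19 21) (.cons s929 (.cons a213 (.cons (t2 10 36 45) (.cons (t3 4 5 29) (.cons s316 (.cons a146 (.cons (t3 0 10 49) (.cons (t3 0 17 49) (.cons (t3 0 4 10) (.cons a512 .nil)))))))))))))))))))))))))))))))))))))))))))))))))))))))))))))))) (by decide +kernel)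
theorem s1390 : Valid A [2907, 2734, 3034, 2779, 2493, 3144, 956, 1045, 1379, 1072, 945, 2275] := rup _
  (.cons a344 (.cons a401 (.cons (t3 10 23 49) (.cons (t3 10 17 49) (.cons a396 (.cons a398 (.cons (t3 21 22 45) (.cons (t2 22 23 45) (.cons (t3 10 45 49) (.cons (t2 8 10 45) (.cons (t1 10 21 45) (.cons (t3 10 22 49) (.cons s630 (.cons (t2 21 45 49) (.cons (t1 8 21 45) (.cons (t1 10 17 21) (.cons a505 (.cons s7 (.cons (t2 0 19 21) (.cons (t2 0 21 49) (.cons (t2 0 17 21) (.cons s202 (.cons a142 (.cons s1232 (.cons (t3 7 21 24) (.cons (t2 21 24 36) (.cons (t2 8 10 29) (.cons a210 (.cons (t1 7 21 45) (.cons (t1 7 21 22) (.cons (t3 0 7 21) (.cons (t3 21 36 45) (.cons a147 (.cons a203 (.cons (t2 0 5 21) (.cons a30 (.cons a227 (.cons a384 (.cons (t1 4 17 29) (.cons (t1 20 21 45) (.cons s147 (.cons (t3 7 11 21) (.cons (t3 7 11 45) (.cons a509 (.cons a33 (.cons (t1 19 30 52) (.cons a379 (.cons (t1 0 4 19) (.cons (t1 0 4 5) (.cons (t2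 11 20 36) (.cons a17 (.cons a211 (.cons (t3 5 20 36) (.cons (t2 5 19 20) .nil)))))))))))))))))))))))))))))))))))))))))))))))))))))) (by decide +kernel)
theorem s1391 : Valid A [4706, 1504, 938, 2787, 2779, 968, 6242] := rup _
  (.cons (t2 21 45 49) (.cons a479 (.cons (t2 21 36 49) (.cons (t1 36 45 49) (.cons (t1 11 36 48) (.cons s201 (.cons a379 (.cons (t1 5 21 45) (.cons (t1 5 21 49) (.cons (t3 5 11 45) (.cons a217 .nil))))))))))) (by decide +kernel)
theorem s1392 : Valid A [1067, 2746, 2732, 3930, 2734, 2779, 942, 968, 3041, 956, 3042, 1059, 1123, 6242, 945, 2275, 912] := rup _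
  (.cons (t3 7 8 24) (.cons a145 (.cons (t2 8 21 49) (.cons (t3 7 8 21) (.cons (t1 8 21 24) (.cons (t2 8 17 21) (.cons (t1 8 17 29) (.cons (t3 21 22 49) (.cons s294 (.cons a134 (.cons (t2 17 21 22) (.cons s1232 (.cons a138 (.cons (t1 7 24 29) (.cons (t2 0 23 49) (.cons (t3 7 22 29) (.cons s784 (.cons (t3 11 23 48) (.cons s1391 (.cons (t3 21 36 49) (.cons a204 (.cons (t3 5 21 45) (.cons a207 (.cons s177 (.cons s22 (.cons (t3 30 45 51) (.cons s169 .nil))))))))))))))))))))))))))) (by decide +kernel)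
theorem s1393 : Valid A [2746, 2732, 3930, 2734, 2779, 942, 968, 3041, 956, 3042, 1059, 1123, 1379, 6242, 945, 2275, 912] := rup _
  (.cons s1392 (.cons (t3 8 21 49) (.cons a142 (.cons s1167 (.cons (t2 8 17 29) (.cons (t3 17 22 49) (.cons a141 .nil))))))) (by decide +kernel)
theorem s1394 : Valid A [2275, 1340, 3170, 1070, 994] := rup _
  (.cons s1115 (.cons s1319 (.cons s1279 (.cons a514 (.cons (t1 7 17 49) (.cons (t3 3 17 49) (.cons s1368 (.cons (t2 17 46 49) (.cons s1369 (.cons a67 (.cons s158 (.cons (t3 7 10 24) (.cons (t3 7 8 24) (.cons s718 (.cons s1377 (.cons a189 (.cons (t3 10 17 49) (.cons (t3 10 30 49) (.cons (t2 10 18 49) (.cons (t2 10 48 49) (.cons (t3 10 34 49) (.cons a468 (.cons s76 (.cons s1378 (.cons a401 (.cons s872 (.cons (t1 8 10 49) (.cons (t1 8 10 17) (.cons (t2 8 10 48) (.cons (t3 10 23 49) (.cons s42 (.cons (t2 7 24 46) (.cons (t2 7 30 46) (.cons a520 (.cons s193 (.cons (t3 7 18 24) (.cons a178 (.cons a195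 (.cons a196 (.cons (t3 23 24 48) (.cons (t2 8 10 19) (.cons (t3 10 19 49) (.cons a349 (.cons (t2 7 24 36) (.cons (t2 7 23 46) (.cons a44 (.cons (t1 18 19 24) (.cons (t2 18 19 30) (.cons (t3 3 23 48) (.cons s1389 (.cons a61 (.cons a63 (.cons a342 (.cons a344 (.cons (t1 3 23 45) (.cons (t3 3 21 23) (.cons (t1 19 30 45) (.cons (t3 19 21 30) (.cons s1390 (.cons (t2 21 22 45) (.cons s1393 (.cons a137 (.cons a143 (.cons (t1 21 29 30) (.cons (t3 8 21 49) (.cons s1167 (.cons (t3 10 22 49) (.cons (t1 7 22 49) (.cons (t2 22 30 49) (.cons s991 (.cons s331 (.cons s336 (.cons (t2 7 24 52) (.cons (t1 8 10 52) (.cons s109 .nil))))))))))))))))))))))))))))))))))))))))))))))))))))))))))))))))))))))))))) (by decide +kernel)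
theorem s1395 : Valid A [944, 1340, 3170, 1070, 994] := rup _
  (.cons s1115 (.cons s1394 (.cons a403 (.cons (t3 3 17 24) (.cons s563 (.cons s1319 (.cons s1279 (.cons s801 (.cons a64 (.cons a185 (.cons (t2 3 7 49) (.cons a183 (.cons s60 (.cons (t3 8 23 46) (.cons s718 (.cons (t1 17 24 46) (.cons a479 (.cons a193 (.cons (t1 7 23 24) (.cons (t3 17 23 24) (.cons s864 (.cons s145 (.cons s90 (.cons (t3 24 36 48) (.cons a168 (.cons (t2 23 24 34) (.cons (t1 23 24 36) (.cons a484 (.cons (t2 17 18 23) (.cons a513 (.cons a469 (.cons (t3 8 18 49) (.cons (t1 30 34 49) (.cons (t1 8 34 49) (.cons a162 (.cons (t1 8 10 34) (.cons (t2 10 23 34) (.cons a399 .nil)))))))))))))))))))))))))))))))))))))) (by decide +kernel)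
theorem s1396 : Valid A [1044, 1340, 3170, 1070, 994] := rup _
  (.cons s1319 (.cons s1395 (.cons (t3 7 10 24) (.cons s158 (.cons s1394 (.cons a403 (.cons s1279 (.cons a399 (.cons s936 (.cons (t3 7 10 23) (.cons (t1 10 23 46) (.cons (t1 10 23 24) (.cons s864 (.cons a193 (.cons s150 (.cons s75 (.cons (t1 24 46 49) (.cons (t1 17 24 46) (.cons (t1 7 24 46) (.cons (t2 7 18 24) (.cons a189 (.cons s329 (.cons (t3 10 18 49) (.cons (t3 10 34 49) (.cons (t3 8 10 49) (.cons a350 (.cons a160 (.cons s432 (.cons a345 (.cons (t3 34 38 49) (.cons a431 (.cons (t2 7 19 46) (.cons (t2 7 19 50) (.cons a329 (.cons a176 (.cons (t3 19 38 50) .nil)))))))))))))))))))))))))))))))))))) (by decide +kernel)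
theorem s1397 : Valid A [1378, 1045, 945, 2225, 2274, 1340, 916, 1070, 994] := rup _
  (.cons s1279 (.cons (t3 7 8 24) (.cons (t1 8 17 24) (.cons (t3 7 10 24) (.cons (t1 10 17 24) (.cons (t3 7 17 24) (.cons s158 (.cons (t1 10 34 49) (.cons (t2 8 10 49) (.cons a162 (.cons s50 (.cons (t1 30 34 49) (.cons s183 (.cons a469 (.cons s432 (.cons a513 (.cons a431 (.cons (t2 7 24 50) (.cons (t2 7 17 50) (.cons s71 (.cons (t2 17 18 24) (.cons (t3 10 17 18) (.cons (t1 7 17 18) (.cons a314 (.cons (t2 17 18 50) (.cons (t1 17 24 46) (.cons a181 (.cons a346 (.cons a348 (.cons (t2 7 24 27) (.cons a434 (.cons a435 (.cons (t3 8 23 46) (.cons (t1 7 17 19) (.cons a349 (.cons (t2 17 18 39) (.cons (t1 18 24 39) (.cons a193 (.cons (t1 10 19 49) (.cons a333 (.cons (t2 23 24 39) (.cons (t2 23 24 27) (.cons (t1 19 39 49) (.cons a325 (.cons s185 (.cons (t2 27 39 49) (.cons (t2 7 41 50) (.cons s877 (.cons a446 (.cons a109 (.cons a96 .nil)))))))))))))))))))))))))))))))))))))))))))))))))))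 (by decide +kernel)
theorem s1398 : Valid A [1340, 3170, 1070, 994] := rup _
  (.cons s1319 (.cons s1394 (.cons a403 (.cons s1395 (.cons s158 (.cons (t3 7 17 24) (.cons s106 (.cons s1396 (.cons s1397 (.cons a192 (.cons (t2 10 48 49) (.cons (t3 10 34 49) (.cons s872 (.cons (t2 8 10 48) (.cons a160 (.cons s42 (.cons (t2 7 24 46) (.cons (t2 7 17 46) (.cons a520 (.cons (t3 34 38 49) (.cons s193 (.cons a195 (.cons s329 (.cons (t3 23 46 48) (.cons (t2 18 38 49) (.cons (t3 10 19 34) (.cons (t3 18 34 49) (.cons (t3 10 18 49) (.cons (t2 7 46 48) (.cons (t2 18 19 34) (.cons s150 (.cons a345 (.cons (t2 7 19 46) (.cons s419 (.cons a175 (.cons (t3 7 30 46) (.cons (t2 7 38 46) (.cons (t2 24 38 46) (.cons s414 (.cons a429 (.cons (t1 10 49 50) (.cons a247 (.cons s417 (.cons (t3 9 10 18) (.cons (t2 9 24 38) (.cons a265 .nil)))))))))))))))))))))))))))))))))))))))))))))) (by decide +kernel)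
theorem s1399 : Valid A [2275, 992, 1372, 1044, 944, 1348, 3170, 994] := rup _
  (.cons s1115 (.cons s150 (.cons s1279 (.cons a514 (.cons s1368 (.cons s1320 (.cons a189 (.cons (t3 8 17 49) (.cons (t3 10 34 49) (.cons s432 (.cons a168 (.cons (t3 7 24 50) (.cons s714 (.cons s90 (.cons (t2 17 27 49) (.cons s145 (.cons a36 (.cons s1326 .nil)))))))))))))))))) (by decide +kernel)
theorem s1400 : Valid A [1044, 944, 3170, 1070, 994] := rup _
  (.cons s1115 (.cons s1398 (.cons a393 (.cons a163 (.cons s1319 (.cons s1279 (.cons a399 (.cons s936 (.cons (t3 7 10 23) (.cons (t1 10 23 33) (.cons s864 (.cons s150 (.cons s1399 (.cons a403 (.cons s563 (.cons (t3 3 17 24) (.cons s801 (.cons a64 (.cons s145 (.cons a185 (.cons (t2 3 7 49) (.cons (t2 3 7 48) (.cons (t2 3 7 33) (.cons (t1 24 48 49) (.cons (t1 17 24 48) (.cons a182 (.cons s211 (.cons a52 (.cons a479 (.cons (t3 8 17 48) (.cons (t1 33 36 48) (.cons a520 (.cons (t3 23 33 48) .nil)))))))))))))))))))))))))))))))))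 (by decide +kernel)
theorem s1401 : Valid A [1378, 5986, 2402, 1341] := rup _
  (.cons a189 (.cons s1145 (.cons s63 .nil))) (by decide +kernel)
theorem s1402 : Valid A [1067, 2220, 3930, 5858, 2907, 3517, 3555, 2778, 934, 1062, 1059, 1072, 956, 994] := rup _
  (.cons s1279 (.cons a143 (.cons a145 (.cons (t3 7 8 21) (.cons (t1 8 21 24) (.cons (t3 8 19 21) (.cons (t1 8 17 29) (.cons a134 (.cons a341 (.cons a138 (.cons a151 (.cons (t3 7 19 45) (.cons (t2 22 29 45) (.cons (t3 29 32 45) (.cons s132 (.cons s199 (.cons a79 (.cons (t1 2 27 49) (.cons s177 (.cons a87 (.cons (t3 30 45 51) (.cons (t3 32 45 51) (.cons a464 (.cons (t3 7 30 32) (.cons (t1 27 30 32) (.cons a322 (.cons a323 (.cons a412 (.cons a75 (.cons (t3 2 7 35) .nil)))))))))))))))))))))))))))))) (by decide +kernel)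
theorem s1403 : Valid A [2907, 3517, 3555, 1079, 2778, 943, 934, 1062, 1072, 1315, 1379, 1045, 944, 956, 1341, 994] := rup _
  (.cons (t1 8 10 17) (.cons a401 (.cons (t3 10 23 49) (.cons (t1 8 10 49) (.cons s1279 (.cons a396 (.cons a398 (.cons (t1 21 22 45) (.cons (t3 10 45 49) (.cons (t2 8 10 45) (.cons (t1 10 30 45) (.cons (t3 10 22 49) (.cons (t1 10 17 22) (.cons (t3 10 22 30) (.cons s1402 (.cons (t1 8 17 21) (.cons s1343 (.cons s458 (.cons a142 (.cons (t3 7 21 23) (.cons s3 (.cons (t2 8 10 29) (.cons (t2 8 29 49) (.cons (t2 8 17 29) (.cons (t2 8 27 29) (.cons (t3 0 8 49) (.cons (t3 0 8 17) (.cons a147 (.cons a127 (.cons a491 (.cons (t3 4 29 49) (.cons (t1 4 17 29) (.cons (t2 8 27 42) (.cons (t1 0 22 45) (.cons (t2 0 21 22) (.cons a509 (.cons a356 (.cons a505 (.cons (t2 0 4 45) (.cons (t3 22 42 45) (.cons (t3 4 42 45) (.cons (t3 0 7 23) (.cons s630 (.cons a365 (.cons (t2 4 32 42) (.cons (t2 0 7 45) (.cons a497 (.cons a86 (.cons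 a88 (.cons a472 (.cons s776 (.cons a466 (.cons (t3 2 27 49) (.cons (t2 27 30 32) (.cons a76 (.cons a321 (.cons (t3 27 35 49) (.cons (t3 4 32 35) (.cons a416 .nil))))))))))))))))))))))))))))))))))))))))))))))))))))))))))) (by decide +kernel)
theorem s1404 : Valid A [1067, 2906, 2778, 2478, 934, 1062, 3004, 1085, 912] := rup _
  (.cons (t3 7 8 21) (.cons (t3 8 19 21) (.cons (t2 8 21 30) (.cons a341 (.cons (t1 21 30 45) (.cons (t3 7 19 45) (.cons (t3 19 23 45) (.cons s199 (.cons s716 (.cons s177 .nil)))))))))) (by decide +kernel)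
theorem s1405 : Valid A [2746, 1066, 2906, 2018, 2778, 943, 1059, 1072, 4322, 1379, 1045, 944, 994] := rup _
  (.cons (t1 8 10 49) (.cons (t3 8 21 49) (.cons a401 (.cons (t3 10 23 49) (.cons s1279 (.cons s458 (.cons a142 (.cons (t3 7 21 23) (.cons s3 (.cons (t2 8 10 29) (.cons (t2 8 29 49) (.cons (t2 8 17 29) (.cons (t3 0 8 49) (.cons (t3 0 8 17) (.cons a147 (.cons a140 (.cons (t3 4 29 49) (.cons (t1 4 17 29) (.cons (t3 22 29 49) (.cons a509 (.cons s354 (.cons a491 (.cons (t2 0 4 22) (.cons a80 (.cons (t1 7 45 49) (.cons (t1 23 45 49) (.cons (t1 15 45 49) (.cons (t1 4 45 49) (.cons a85 (.cons s199 (.cons a99 (.cons (t1 2 7 23) (.cons s177 (.cons (t2 4 15 22) (.cons (t3 22 45 51) (.cons (t3 23 45 51) (.cons a495 (.cons (t3 7 22 23) (.cons (t1 21 22 23) (.cons (t1 4 22 23) (.cons (t3 2 22 23) (.cons (t3 7 15 22) (.cons (t3 4 7 22) (.cons (t2 15 21 22) (.cons (t3 2 4 23) (.cons (t3 2 15 22) (.cons a110 (.cons a422 (.cons (t2 2 4 26)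 (.cons (t1 2 15 26) (.cons s148 (.cons a102 (.cons a304 (.cons (t2 4 6 7) (.cons (t1 21 26 49) (.cons (t2 6 26 49) (.cons a308 .nil))))))))))))))))))))))))))))))))))))))))))))))))))))))))) (by decide +kernel)
theorem s1406 : Valid A [2353, 433, 2778, 943, 2275, 1045, 944, 1341, 916, 3170, 994] := rup _
  (.cons s1115 (.cons (t1 7 23 24) (.cons (t2 3 23 24) (.cons a66 (.cons a514 (.cons s1368 (.cons s1401 (.cons (t2 10 18 49) (.cons a192 (.cons s872 (.cons s42 (.cons s193 (.cons a349 (.cons a347 (.cons (t3 7 19 23) (.cons (t3 7 18 23) (.cons (t2 8 10 19) (.cons (t3 3 17 49) (.cons (t1 8 10 49) (.cons (t1 3 8 49) (.cons a163 (.cons (t3 10 34 49) (.cons a168 (.cons (t2 10 30 49) (.cons (t1 3 30 49) (.cons (t3 10 17 49) (.cons (t1 8 10 17) (.cons (t2 10 24 49) (.cons (t2 8 10 24) (.cons (t1 3 10 49) (.cons a393 (.cons (t3 10 33 49) (.cons a401 (.cons (t3 10 23 30) (.cons (t1 8 10 30) (.cons (t3 7 10 30) (.cons s1279 (.cons (t3 3 18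 24) (.cons s620 (.cons (t1 18 24 34) (.cons s676 (.cons (t1 3 18 38) (.cons (t2 18 19 34) (.cons a429 (.cons s768 (.cons a156 (.cons (t1 8 49 50) (.cons (t3 24 49 50) (.cons (t3 18 49 50) (.cons (t1 30 49 50) (.cons (t1 7 23 27) (.cons (t2 24 27 34) (.cons a106 (.cons a313 (.cons (t3 8 15 49) (.cons (t3 8 27 50) (.cons (t3 27 49 50) (.cons (t3 27 30 50) (.cons s1403 (.cons s1404 (.cons s1405 (.cons a137 (.cons (t2 3 21 24) (.cons a60 (.cons (t1 3 45 49) (.cons (t3 3 7 45) (.cons (t3 3 8 45) (.cons (t3 3 23 45) (.cons (t2 3 24 45) (.cons (t3 3 10 45) (.cons (t3 3 30 45) (.cons (t2 3 38 45) (.cons s132 (.cons s716 (.cons a395 (.cons a79 (.cons s177 (.cons a87 (.cons (t3 2 24 45) (.cons (t2 5 10 45) (.cons (t2 5 7 45) (.cons (t3 2 5 45) (.cons (t3 5 38 45) (.cons s483 (.cons s480 (.cons a199 (.cons (t3 2 6 24) (.cons (t2 2 5 52) (.cons (t3 38 42 45) (.cons a71 (.cons a356 (.cons (t2 8 42 49) (.cons (t2 8 42 50) (.cons a237 (.cons (t1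 42 50 52) (.cons (t2 6 50 52) (.cons s163 (.cons (t2 27 39 50) (.cons a433 (.cons a325 (.cons (t3 18 23 39) .nil))))))))))))))))))))))))))))))))))))))))))))))))))))))))))))))))))))))))))))))))))))))))))))))))))))) (by decide +kernel)
theorem s1407 : Valid A [2907, 2218, 1066, 2480, 2778, 2478, 943, 1072, 3042, 1123, 1315, 1379, 944, 912] := rup _
  (.cons a398 (.cons (t1 21 22 45) (.cons s1343 (.cons (t3 10 22 49) (.cons s458 (.cons s202 (.cons a142 (.cons (t3 7 21 23) (.cons (t1 19 21 24) (.cons s3 (.cons a341 (.cons (t3 0 8 49) (.cons (t3 19 23 45) (.cons a491 (.cons (t2 22 23 45) (.cons (t2 0 21 22) (.cons s630 (.cons a505 .nil)))))))))))))))))) (by decide +kernel)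
theorem s1408 : Valid A [2019, 5346, 4322, 994] := rup _
  (.cons (t1 7 15 49) (.cons (t2 15 33 49) (.cons (t2 15 41 49) (.cons a109 (.cons a95 (.cons a448 .nil)))))) (by decide +kernel)
theorem s1409 : Valid A [433, 2778, 943, 2275, 1045, 944, 1341, 916, 3170, 994] := rup _
  (.cons s1115 (.cons a514 (.cons s1368 (.cons s1401 (.cons (t2 10 18 49) (.cons a192 (.cons s872 (.cons s42 (.cons s193 (.cons a349 (.cons a347 (.cons (t3 7 19 23) (.cons (t1 7 23 24) (.cons (t3 10 17 49) (.cons (t1 10 17 19) (.cons (t2 8 10 19) (.cons (t3 3 17 49) (.cons (t1 8 10 49) (.cons (t1 3 8 49) (.cons (t2 10 30 49) (.cons (t1 3 30 49) (.cons a470 (.cons (t1 8 10 17) (.cons (t2 10 24 49) (.cons (t2 8 10 24) (.cons a393 (.cons (t3 10 33 49) (.cons a401 (.cons (t3 10 23 49) (.cons (t3 10 23 30) (.cons s1279 (.cons a66 (.cons (t2 3 23 24) (.cons s1406 (.cons (t1 18 19 24) (.cons (t2 3 18 24) (.cons (t2 3 19 24) (.cons s139 (.cons s1379 (.cons (t1 18 19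 39) (.cons (t1 8 17 21) (.cons a333 (.cons (t2 17 39 49) (.cons a443 (.cons s1407 (.cons s1408 (.cons s1405 (.cons a137 (.cons (t2 3 21 24) (.cons a60 (.cons s444 (.cons (t3 3 7 45) (.cons (t3 3 23 45) (.cons (t3 3 30 45) (.cons (t3 7 19 21) (.cons s199 (.cons s716 (.cons s177 .nil)))))))))))))))))))))))))))))))))))))))))))))))))))))))))) (by decide +kernel)
theorem s1410 : Valid A [2907, 867, 2218, 1322, 2786, 3017, 1066, 969, 399, 2778, 943, 4706, 1072, 3042, 1315, 1379, 944, 994] := rup _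
  (.cons (t2 10 36 49) (.cons s1279 (.cons s1343 (.cons s458 (.cons s202 (.cons (t3 7 21 23) (.cons s156 (.cons (t3 7 21 36) (.cons (t1 21 24 45) (.cons a86 (.cons a88 (.cons (t3 7 22 45) (.cons s680 (.cons s986 (.cons s776 (.cons a227 (.cons s789 (.cons (t3 2 10 49) (.cons (t3 2 6 49) (.cons (t1 7 23 52) (.cons a238 (.cons a73 (.cons s67 (.cons (t1 2 11 52) (.cons a387 (.cons (t1 2 10 11) .nil)))))))))))))))))))))))))) (by decide +kernel)
theorem s1411 : Valid A [938, 2906, 867, 2748, 399, 2778, 3939, 1379, 916, 994] := rup _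
  (.cons s156 (.cons a86 (.cons a88 (.cons (t3 7 10 45) (.cons s776 (.cons a395 (.cons (t3 2 10 49) (.cons (t3 2 30 49) (.cons (t3 2 6 49) (.cons a73 (.cons (t1 2 10 52) (.cons (t1 2 30 52) (.cons s109 (.cons a222 (.cons (t3 7 21 52) .nil))))))))))))))) (by decide +kernel)
theorem s1412 : Valid A [2778, 943, 2275, 1045, 944, 1341, 916, 3170, 994] := rup _
  (.cons s1115 (.cons a514 (.cons s1368 (.cons s1401 (.cons (t2 10 18 49) (.cons a192 (.cons s872 (.cons s42 (.cons s193 (.cons a349 (.cons a347 (.cons (t2 10 30 49) (.cons (t3 7 24 46) (.cons s1318 (.cons (t2 30 36 49) (.cons (t3 10 19 49) (.cons (t2 8 10 19) (.cons a163 (.cons (t3 10 34 49) (.cons a168 (.cons s90 (.cons (t3 3 17 49) (.cons (t1 8 10 49) (.cons (t1 3 8 49) (.cons (t3 10 17 49) (.cons (t1 8 10 17) (.cons (t2 10 24 49) (.cons (t2 8 10 24) (.cons a393 (.cons (t3 10 33 49) (.cons a401 (.cons (t3 10 23 49) (.cons (t3 10 23 30) (.cons (t1 8 10 30) (.cons s1409 (.cons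 a64 (.cons s145 (.cons a44 (.cons (t2 3 7 19) (.cons (t1 3 7 23) (.cons s1035 (.cons (t2 7 36 48) (.cons (t3 3 36 48) (.cons s1379 (.cons (t2 3 23 36) (.cons a54 (.cons (t3 8 21 49) (.cons (t1 8 10 21) (.cons (t1 8 17 21) (.cons (t3 8 21 30) (.cons (t1 3 7 33) (.cons s148 (.cons a304 (.cons (t3 6 30 49) (.cons s1410 (.cons s1411 (.cons (t3 7 19 21) (.cons (t2 7 21 45) (.cons (t2 7 21 36) (.cons a341 (.cons s132 (.cons (t1 7 36 45) (.cons a489 (.cons (t1 19 45 49) (.cons a79 (.cons (t1 2 6 49) (.cons s727 (.cons (t2 23 28 36) (.cons (t2 2 21 45) (.cons s681 (.cons s682 (.cons (t2 10 11 49) (.cons s94 (.cons (t2 11 23 28) (.cons (t2 10 28 30) (.cons a387 .nil)))))))))))))))))))))))))))))))))))))))))))))))))))))))))))))))))))))))))))) (by decide +kernel)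
theorem s1413 : Valid A [2735, 2733, 2779, 943] := rup _
  (.cons (t3 7 21 23) (.cons (t2 21 23 45) (.cons (t2 21 22 23) (.cons a208 (.cons (t1 7 21 45) (.cons a496 (.cons (t3 5 7 45) (.cons (t1 23 45 51) (.cons s177 .nil))))))))) (by decide +kernel)
theorem s1414 : Valid A [2907, 2779, 943, 2343, 4706, 932, 2275, 1045, 944, 956, 1341, 3170, 994] := rup _
  (.cons a344 (.cons (t2 18 19 21) (.cons a63 (.cons a514 (.cons s1368 (.cons s1401 (.cons (t2 10 36 49) (.cons a163 (.cons (t3 10 34 49) (.cons a168 (.cons s90 (.cons (t2 10 24 49) (.cons (t2 8 10 24) (.cons a401 (.cons (t3 10 23 49) (.cons (t3 10 17 49) (.cons s1279 (.cons a396 (.cons a398 (.cons (t3 21 22 45) (.cons (t3 10 45 49) (.cons (t2 8 10 45) (.cons (t1 10 21 45) (.cons (t1 10 30 45) (.cons (t3 10 22 49) (.cons (t2 21 45 49) (.cons (t1 8 21 45) (.cons (t3 10 21 30) (.cons (t1 10 17 21) (.cons s1413 (.cons (t2 7 21 23) (.cons (t1 21 22 23) (.cons (t3 7 21 45) (.cons (t3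 7 21 22) (.cons s630 (.cons s909 (.cons s376 (.cons a505 (.cons a222 (.cons s7 (.cons (t2 0 18 21) (.cons (t2 0 21 49) (.cons (t2 0 17 21) (.cons s84 (.cons s202 (.cons a142 (.cons s1232 (.cons (t3 3 21 24) (.cons (t2 21 24 45) (.cons (t3 7 8 29) (.cons (t2 8 10 29) (.cons s145 (.cons s610 (.cons (t3 24 36 45) (.cons s474 (.cons a147 (.cons s1035 (.cons (t2 21 24 36) (.cons s727 (.cons (t2 10 11 29) (.cons (t1 4 17 29) (.cons (t3 7 18 36) (.cons s680 (.cons s986 (.cons a487 (.cons s216 (.cons a509 (.cons a215 (.cons a387 (.cons (t1 18 28 36) (.cons (t2 0 11 21) (.cons (t1 0 4 18) (.cons (t1 0 4 11) (.cons (t1 5 11 28) (.cons (t1 4 5 11) (.cons (t2 5 18 28) (.cons s364 .nil))))))))))))))))))))))))))))))))))))))))))))))))))))))))))))))))))))))))))))) (by decide +kernel)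
theorem s1415 : Valid A [3514, 443, 1067, 2732, 2779, 1059, 1072, 1123, 1315, 1328, 2275, 944, 912] := rup _
  (.cons s1115 (.cons a143 (.cons (t1 8 21 24) (.cons a134 (.cons (t2 24 27 29) (.cons (t2 3 27 29) (.cons s1356 (.cons a36 (.cons (t1 8 17 27) .nil))))))))) (by decide +kernel)
theorem s1416 : Valid A [433, 3668, 1456, 1304, 1067, 2732, 2779, 1059, 1072, 1123, 1315, 1328, 2275, 944, 912] := rup _
  (.cons (t1 8 21 45) (.cons a359 (.cons (t2 8 21 49) (.cons a500 (.cons (t2 8 12 49) (.cons a360 (.cons a143 (.cons (t1 8 21 24) (.cons a134 (.cons (t1 3 24 29) (.cons (t2 3 11 24) (.cons s1415 (.cons a127 (.cons a128 (.cons (t3 3 27 29) (.cons (t2 12 27 42) (.cons (t2 24 29 42) (.cons (t2 3 12 27) (.cons a367 (.cons a40 (.cons (t3 10 24 28) (.cons (t3 11 24 28) (.cons (t1 10 11 12) (.cons a387 .nil)))))))))))))))))))))))) (by decide +kernel)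
theorem s1417 : Valid A [1067, 2732, 2779, 4706, 4322, 4450, 1379, 2275, 1085, 1045, 944, 3170, 994] := rup _
  (.cons (t1 8 10 49) (.cons (t2 8 36 49) (.cons a168 (.cons s90 (.cons (t3 10 17 49) (.cons (t1 8 10 17) (.cons (t2 10 24 49) (.cons (t2 8 10 24) (.cons s1279 (.cons a143 (.cons a145 (.cons (t2 8 21 49) (.cons (t3 7 8 21) (.cons (t1 8 21 24) (.cons (t2 8 17 21) (.cons (t2 8 21 30) (.cons (t1 8 21 45) (.cons (t1 8 21 36) (.cons (t1 8 10 29) (.cons (t1 8 17 29) (.cons a500 (.cons (t2 21 45 49) (.cons (t3 21 22 49) (.cons (t3 7 21 45) (.cons a134 (.cons a223 (.cons a357 (.cons s1232 (.cons (t2 10 12 49) (.cons a80 (.cons (t3 7 24 29) (.cons (t1 21 49 52) (.cons (t3 42 45 49) (.cons (t2 0 7 49) (.cons (t3 0 17 49) (.cons a85 (.cons s474 (.cons a234 (.cons a511 (.cons (t2 2 7 24) (.cons (t1 11 24 29) (.cons s97 (.cons (t3 4 17 21) (.cons (t1 4 10 17) (.cons a146 (.cons (t3 4 24 29) (.cons s1416 (.cons a64 (.cons s145 (.cons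 s610 (.cons a44 (.cons s1035 (.cons (t2 7 36 48) (.cons (t2 4 24 36) (.cons (t3 3 36 48) (.cons s823 (.cons a54 (.cons (t1 4 24 28) (.cons (t1 3 7 33) (.cons a367 (.cons s148 (.cons (t3 2 24 42) (.cons a304 (.cons (t2 2 6 7) (.cons (t3 2 42 52) (.cons (t2 6 49 52) (.cons a71 .nil))))))))))))))))))))))))))))))))))))))))))))))))))))))))))))))))))) (by decide +kernel)
theorem s1418 : Valid A [938, 654, 42, 2736, 3772, 1325, 1322, 1066, 2779, 943, 4706, 3164, 1072, 989, 3939, 3004, 916] := rup _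
  (.cons (t3 7 21 23) (.cons (t3 7 21 46) (.cons a207 (.cons a505 (.cons s340 (.cons (t2 5 8 21) (.cons (t2 5 10 21) (.cons (t3 0 7 23) (.cons (t3 21 36 45) (.cons s480 (.cons a384 (.cons s335 (.cons (t3 7 11 23) (.cons s751 .nil)))))))))))))) (by decide +kernel)
theorem s1419 : Valid A [570, 1962, 1310, 2747, 1338, 2779] := rup _
  (.cons (t1 4 21 29) (.cons a146 (.cons s261 (.cons (t2 4 10 15) .nil)))) (by decide +kernel)
theorem s1420 : Valid A [571, 2234, 34] := rup _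
  (.cons s0 (.cons (t2 4 17 29) (.cons a509 .nil))) (by decide +kernel)
theorem s1421 : Valid A [963, 453, 570, 939, 2747, 1338, 2779, 2214, 3939, 1379, 2275] := rup _
  (.cons s1115 (.cons (t3 3 17 49) (.cons a110 (.cons a112 (.cons a448 (.cons (t3 7 15 21) (.cons a95 (.cons s1419 (.cons (t2 10 15 49) (.cons a114 (.cons (t2 15 41 49) (.cons (t2 17 27 49) (.cons a443 (.cons a36 (.cons (t2 17 39 49) (.cons s969 (.cons (t2 3 27 34) (.cons a333 (.cons (t2 3 34 39) (.cons a156 (.cons (t3 19 34 39) .nil))))))))))))))))))))) (by decide +kernel)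
theorem s1422 : Valid A [962, 978, 611, 526, 939, 4322, 994] := rup _
  (.cons s148 (.cons a446 (.cons a304 (.cons a96 (.cons (t3 4 6 49) (.cons a109 (.cons a309 (.cons (t2 7 15 21) (.cons a419 (.cons a103 (.cons (t2 7 21 26) .nil))))))))))) (by decide +kernel)
theorem s1423 : Valid A [943, 2275, 1045, 944, 1341, 916, 3170, 994] := rup _
  (.cons a514 (.cons s1368 (.cons s1401 (.cons (t2 10 18 49) (.cons a192 (.cons s872 (.cons s42 (.cons s193 (.cons a349 (.cons (t3 10 17 49) (.cons (t1 10 17 19) (.cons (t3 7 24 46) (.cons s1318 (.cons a163 (.cons (t3 10 34 49) (.cons a168 (.cons (t2 10 24 49) (.cons (t2 8 10 24) (.cons a393 (.cons (t3 10 33 49) (.cons a401 (.cons (t3 10 23 49) (.cons (t1 8 10 49) (.cons (t2 10 30 49) (.cons (t3 10 23 30) (.cons (t1 8 10 30) (.cons (t3 7 10 30) (.cons s1279 (.cons s1412 (.cons a63 (.cons s1414 (.cons (t2 21 22 45) (.cons s1417 (.cons (t3 8 21 49) (.cons (t1 8 10 21) (.cons s1167 (.cons a492 (.cons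 (t2 22 23 49) (.cons (t3 10 22 49) (.cons (t3 8 22 49) (.cons (t3 17 22 49) (.cons (t3 22 30 49) (.cons (t1 0 17 49) (.cons a139 (.cons a141 (.cons a475 (.cons (t2 10 22 29) (.cons (t2 8 22 29) (.cons (t3 22 29 30) (.cons a495 (.cons a142 (.cons s28 (.cons a137 (.cons s7 (.cons (t1 5 7 23) (.cons s1418 (.cons s568 (.cons (t1 7 21 45) (.cons a86 (.cons a88 (.cons s776 (.cons (t3 2 8 49) (.cons a83 (.cons (t1 8 10 43) (.cons s1420 (.cons a146 (.cons (t1 4 7 29) (.cons (t1 4 10 49) (.cons (t2 4 10 43) (.cons a454 (.cons (t2 7 21 43) (.cons a452 (.cons (t2 7 21 41) (.cons s1422 (.cons (t1 3 7 21) (.cons s1421 (.cons a64 (.cons (t1 3 24 34) .nil)))))))))))))))))))))))))))))))))))))))))))))))))))))))))))))))))))))))))))))) (by decide +kernel)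
theorem s1424 : Valid A [1067, 2778, 3517, 3555, 2993, 934, 1062, 1059, 1072, 1123, 1379, 1085, 956, 1070, 994] := rup _
  (.cons a143 (.cons (t2 8 21 49) (.cons (t2 8 17 21) (.cons (t2 8 21 30) (.cons s1352 (.cons (t3 21 45 49) (.cons (t2 17 21 45) (.cons (t1 21 30 45) (.cons (t1 17 22 45) (.cons s1402 .nil)))))))))) (by decide +kernel)
theorem s1425 : Valid A [2746, 2748, 1066, 2778, 1079, 3555, 969, 867, 2993, 942, 4706, 1059, 1072, 1123, 3939, 1379, 3004, 944, 956, 994] := rup _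
  (.cons (t2 8 36 49) (.cons (t2 30 36 49) (.cons s1279 (.cons s458 (.cons s202 (.cons a142 (.cons (t3 7 21 36) (.cons (t3 21 23 24) (.cons (t2 8 29 49) (.cons (t2 8 17 29) (.cons (t2 8 27 29) (.cons (t1 21 23 45) (.cons a140 (.cons a127 (.cons s683 (.cons (t3 22 29 49) (.cons (t2 8 27 42) (.cons (t3 27 42 49) (.cons (t1 36 45 49) (.cons (t1 7 36 45) (.cons (t3 8 36 45) (.cons a356 (.cons s354 (.cons a86 (.cons a88 (.cons (t3 7 22 45) (.cons (t3 22 42 45) (.cons s776 (.cons a229 (.cons (t1 22 42 52) (.cons (t3 2 6 49) (.cons a234 (.cons a73 (.cons (t1 2 49 52) .nil)))))))))))))))))))))))))))))))))) (by decide +kernel)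
theorem s1426 : Valid A [2778, 3517, 1079, 3555, 1362, 1310, 451, 969, 456, 867, 2993, 433, 942, 934, 1062, 4706, 2222, 1059, 3939, 1328, 1379, 482, 3004, 1085, 1045, 944, 956, 1070, 994] := rup _
  (.cons (t3 3 23 24) (.cons (t2 3 23 33) (.cons (t3 6 30 49) (.cons a66 (.cons (t2 30 36 49) (.cons (t2 8 10 24) (.cons (t1 3 10 49) (.cons (t1 8 10 49) (.cons s1424 (.cons (t1 8 10 21) (.cons (t1 8 17 21) (.cons (t3 8 21 30) (.cons s1425 (.cons a137 (.cons s498 (.cons (t3 10 21 29) (.cons (t3 17 21 29) (.cons (t2 3 21 24) (.cons (t2 0 17 23) (.cons a60 (.cons s1420 (.cons s19 (.cons (t1 3 45 49) (.cons (t3 3 7 45) (.cons (t3 3 10 45) (.cons (t3 3 36 45) (.cons (t2 3 33 45) (.cons a146 (.cons (t1 3 24 40) (.cons s132 (.cons s727 (.cons (t1 4 10 49) (.cons (t2 4 10 24) (.cons (t2 4 10 45) (.cons (t2 4 10 15) (.cons (t2 4 10 41) (.cons a7 (.cons (t1 2 6 49) (.cons (t2 4 11 49) (.cons a99 (.cons (t3 4 11 40) (.cons (t1 4 40 41) (.cons s682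 (.cons (t3 15 33 45) (.cons a3 (.cons (t1 11 23 33) (.cons a96 (.cons (t2 11 33 41) .nil)))))))))))))))))))))))))))))))))))))))))))))))) (by decide +kernel)
theorem s1427 : Valid A [2275, 944, 3170, 1070, 994] := rup _
  (.cons s1115 (.cons s1398 (.cons s1400 (.cons a401 (.cons (t3 10 23 30) (.cons (t1 8 10 30) (.cons s1319 (.cons (t3 7 10 30) (.cons a393 (.cons a163 (.cons s1279 (.cons a406 (.cons a514 (.cons (t3 3 17 49) (.cons s1368 (.cons s1401 (.cons a192 (.cons (t2 10 24 49) (.cons (t3 10 17 49) (.cons (t2 10 30 49) (.cons (t3 10 34 49) (.cons (t1 8 10 49) (.cons (t3 10 23 49) (.cons (t3 10 33 49) (.cons (t2 10 18 49) (.cons s872 (.cons (t2 8 10 24) (.cons (t2 10 17 30) (.cons (t1 8 10 17) (.cons (t1 10 17 23) (.cons a168 (.cons (t2 8 18 49) (.cons s42 (.cons (t3 7 24 46) (.cons s90 (.cons s193 (.cons s1318 (.cons (t2 8 10 19) (.cons a349 (.cons a347 (.cons s1423 (.cons s864 (.cons (t3 7 23 46) (.cons s150 (.cons (t1 7 46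 48) (.cons s145 (.cons a193 (.cons s148 (.cons (t3 7 33 46) (.cons s609 (.cons (t3 3 23 24) (.cons (t1 3 24 34) (.cons (t1 23 24 34) (.cons a304 (.cons a177 (.cons (t2 23 24 36) (.cons (t2 3 24 36) (.cons s78 (.cons (t3 7 36 46) (.cons (t1 33 36 46) (.cons a483 (.cons a52 (.cons (t1 18 23 24) (.cons (t1 18 23 34) (.cons s620 (.cons (t2 18 19 34) (.cons (t1 18 38 49) (.cons (t3 8 18 38) (.cons (t2 18 23 38) (.cons s676 (.cons a156 (.cons s431 (.cons (t2 3 27 34) (.cons a106 (.cons a427 (.cons a36 (.cons (t1 8 10 15) (.cons (t1 8 10 41) (.cons (t2 17 27 49) (.cons (t1 8 17 27) (.cons (t2 17 27 30) (.cons s1426 (.cons a61 (.cons a63 (.cons (t1 3 24 45) (.cons (t1 3 23 45) (.cons (t3 3 21 24) (.cons (t3 3 21 23) (.cons s1332 (.cons (t2 21 22 45) (.cons s1417 (.cons (t3 8 21 49) (.cons (t3 8 21 30) (.cons (t1 21 45 49) (.cons (t3 21 30 45) (.cons s716 (.cons s177 (.cons (t3 5 21 45) (.cons (t2 5 45 49) (.cons a210 (.cons s1235 .nil)))))))))))))))))))))))))))))))))))))))))))))))))))))))))))))))))))))))))))))))))))))))))))))))))))))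 (by decide +kernel)
theorem s1428 : Valid A [944, 3170, 1070, 994] := rup _
  (.cons s1115 (.cons s1319 (.cons s1398 (.cons (t3 7 10 30) (.cons s1279 (.cons s1400 (.cons (t1 8 10 30) (.cons s1427 (.cons a403 (.cons (t3 3 17 24) (.cons s801 (.cons (t1 7 17 24) (.cons a64 (.cons a185 (.cons s872 (.cons (t2 3 7 49) (.cons (t2 3 7 30) (.cons s60 (.cons (t3 8 23 46) (.cons a191 (.cons a192 (.cons s63 (.cons s803 (.cons (t3 8 18 30) (.cons a193 (.cons (t2 8 46 49) (.cons s1401 (.cons (t1 7 23 24) (.cons a516 (.cons (t1 7 18 49) (.cons (t1 3 18 49) (.cons s864 (.cons s193 (.cons s139 (.cons s150 (.cons a349 (.cons (t1 18 19 39) (.cons s432 (.cons (t3 17 18 19) (.cons a333 (.cons (t3 7 17 50) (.cons (t3 7 18 50) (.cons (t1 17 39 50) (.cons a433 .nil)))))))))))))))))))))))))))))))))))))))))))) (by decide +kernel)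
theorem s1429 : Valid A [2275, 1378, 1341, 994] := rup _
  (.cons a514 (.cons s1368 (.cons s1401 .nil))) (by decide +kernel)
theorem s1430 : Valid A [2231, 2223, 934, 2403, 2225, 932, 945, 994] := rup _
  (.cons (t3 7 17 24) (.cons (t2 17 24 27) (.cons (t2 17 23 27) (.cons a314 (.cons a326 (.cons (t2 7 24 50) (.cons (t2 17 23 39) (.cons a429 (.cons s739 (.cons (t1 18 49 50) (.cons a434 .nil))))))))))) (by decide +kernel)
theorem s1431 : Valid A [3170, 1070, 994] := rup _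
  (.cons s1115 (.cons s1279 (.cons s1319 (.cons s1398 (.cons a163 (.cons a165 (.cons (t3 7 10 30) (.cons s1428 (.cons a65 (.cons s47 (.cons s158 (.cons (t3 7 10 24) (.cons (t1 7 24 30) (.cons s988 (.cons s106 (.cons (t3 10 34 49) (.cons (t3 30 34 49) (.cons s733 (.cons (t2 7 24 38) (.cons (t2 7 18 24) (.cons s193 (.cons s1429 (.cons a403 (.cons s563 (.cons (t3 7 17 24) (.cons (t2 17 18 24) (.cons a479 (.cons a513 (.cons s80 (.cons (t2 18 36 49) (.cons (t2 18 48 49) (.cons (t1 10 18 49) (.cons (t3 18 34 49) (.cons a189 (.cons a349 (.cons (t2 18 19 34) (.cons s936 (.cons s803 (.cons (t1 8 10 46) (.cons a347 (.cons a156 (.cons (t1 8 10 30) (.cons (t2 8 10 49) (.cons (t3 8 23 46) (.cons (t3 27 34 49) (.cons a193 (.cons (t3 7 23 24) (.cons (t3 17 23 24) (.cons (t1 18 23 24) (.cons s820 (.cons a483 (.cons (t2 23 24 48) (.cons (t1 7 23 48) (.cons (t1 7 23 36) (.cons s1430 (.cons a36 (.cons (t2 7 17 27) (.cons (t1 17 24 27) (.cons (t1 17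 23 27) (.cons (t2 3 27 34) (.cons s877 (.cons s829 (.cons s1370 (.cons (t3 7 15 50) (.cons (t3 7 8 50) (.cons s414 (.cons (t2 7 24 33) (.cons a105 (.cons (t3 18 38 49) (.cons a251 (.cons (t1 8 15 49) (.cons (t2 8 15 30) (.cons a266 (.cons (t3 9 24 48) (.cons a113 (.cons (t3 9 18 49) (.cons s167 (.cons (t3 3 15 27) (.cons (t3 6 24 48) (.cons (t1 3 15 30) (.cons a301 (.cons a50 (.cons (t2 23 24 39) (.cons a325 (.cons (t1 3 27 39) .nil))))))))))))))))))))))))))))))))))))))))))))))))))))))))))))))))))))))))))))))))))))) (by decide +kernel)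
theorem s1432 : Valid A [2343, 475, 2245, 2373, 2365, 2213, 932, 938, 2778, 943, 3171, 994] := rup _
  (.cons s1115 (.cons (t3 3 17 18) (.cons (t3 3 18 30) (.cons (t1 7 24 49) (.cons (t1 17 18 19) (.cons (t2 18 19 30) (.cons (t2 18 19 34) (.cons a335 (.cons a156 (.cons (t2 18 19 39) (.cons (t1 19 30 39) (.cons (t2 17 27 34) (.cons a48 (.cons a36 (.cons (t2 3 39 45) (.cons (t2 3 27 39) (.cons (t2 3 27 45) (.cons a327 (.cons (t3 23 27 45) (.cons (t2 7 23 27) (.cons (t2 7 23 45) (.cons (t2 3 7 27) (.cons s199 (.cons a64 (.cons s177 (.cons (t2 3 24 45) (.cons (t2 3 24 27) (.cons (t1 24 45 51) (.cons (t1 39 45 51) (.cons a314 (.cons (t3 24 50 51) (.cons (t2 39 50 51) (.cons (t1 24 49 50) (.cons a433 (.cons a429 (.cons (t3 7 18 50) .nil)))))))))))))))))))))))))))))))))))) (by decide +kernel)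
theorem s1433 : Valid A [2402, 1096, 1116, 1122, 1067, 2778, 3938, 3909, 917, 943, 3171, 994] := rup _
  (.cons s1115 (.cons s1279 (.cons a185 (.cons s42 (.cons (t3 7 18 23) (.cons (t1 7 46 49) (.cons (t3 7 8 21) (.cons a404 (.cons a169 (.cons a513 (.cons s138 (.cons a468 (.cons a181 (.cons (t1 17 18 30) (.cons (t1 18 30 34) (.cons (t1 3 8 17) (.cons (t2 8 17 21) (.cons (t1 8 17 36) (.cons (t1 8 17 18) (.cons (t1 17 30 34) (.cons (t3 3 8 21) (.cons (t2 17 18 21) (.cons (t1 17 18 36) (.cons a60 (.cons a483 (.cons (t1 7 23 36) (.cons s1432 (.cons a345 (.cons (t2 8 18 19) (.cons s123 (.cons (t2 7 19 36) (.cons s769 (.cons s1379 (.cons (t3 3 7 45) (.cons (t1 3 19 36) (.cons s432 (.cons a54 (.cons (t1 3 7 33) .nil)))))))))))))))))))))))))))))))))))))) (by decide +kernel)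
theorem s1434 : Valid A [2343, 2403, 2350, 2760, 1373, 3131, 2786, 1067, 2778, 3132, 3936, 943, 3004, 1327, 1070, 994] := rup _
  (.cons a143 (.cons s1431 (.cons s377 (.cons a151 (.cons (t3 29 32 49) (.cons (t2 18 32 49) (.cons (t2 18 21 49) (.cons a169 (.cons (t2 18 34 49) (.cons (t3 18 24 49) (.cons a471 (.cons (t2 8 21 45) (.cons (t1 8 21 23) (.cons s1279 (.cons (t3 7 8 21) (.cons s46 (.cons (t2 10 23 34) (.cons (t2 7 23 30) (.cons (t1 7 24 49) (.cons a171 (.cons a347 (.cons s72 (.cons (t2 18 19 49) (.cons (t1 18 19 30) (.cons (t1 18 19 23) (.cons (t2 18 19 24) (.cons (t1 18 19 34) (.cons (t1 18 19 21) (.cons (t1 18 19 32) (.cons s344 (.cons a341 (.cons (t3 19 32 45) (.cons (t2 10 23 38) (.cons (t3 7 19 45) (.cons (t2 19 45 49) (.cons (t3 19 23 45) (.cons (t3 19 30 45) (.cons (t2 19 24 45) (.cons a124 (.cons s156 (.cons s199 (.cons (t3 5 45 49) (.cons (t2 7 23 37) (.cons a64 (.cons s177 (.cons (t1 3 24 49) (.cons (t2 3 24 30)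 (.cons (t2 3 24 34) (.cons (t3 3 18 24) (.cons (t1 24 45 51) (.cons s716 (.cons (t3 30 45 51) (.cons (t3 32 45 51) (.cons a23 (.cons s909 (.cons (t1 22 45 49) (.cons (t2 22 32 45) (.cons a464 (.cons (t3 20 24 45) (.cons (t3 20 24 29) (.cons (t1 30 32 52) (.cons a29 (.cons a230 (.cons (t1 7 20 37) (.cons s81 (.cons (t3 19 21 52) (.cons (t2 19 49 52) (.cons (t3 19 23 52) (.cons a11 (.cons (t1 19 24 28) (.cons a222 (.cons a235 (.cons (t2 29 37 49) (.cons (t1 8 21 30) (.cons (t1 21 30 32) (.cons (t2 24 42 49) (.cons (t1 42 45 49) (.cons (t2 22 42 49) (.cons (t2 8 30 48) (.cons (t1 8 30 32) (.cons a367 (.cons a356 (.cons a363 (.cons a520 (.cons a518 (.cons (t3 8 28 42) (.cons (t3 28 32 42) (.cons (t1 12 21 32) (.cons a530 (.cons a499 (.cons (t2 8 28 41) (.cons (t3 3 12 49) (.cons (t1 12 49 52) (.cons a42 (.cons a43 (.cons (t3 11 12 52) (.cons (t3 3 11 49) (.cons a238 (.cons a215 (.cons (t2 11 21 23) (.cons (t1 11 23 48) (.cons (t2 5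 11 21) (.cons (t1 5 11 48) (.cons a203 (.cons s201 (.cons (t2 5 36 48) (.cons s1370 (.cons a447 (.cons s1296 (.cons a429 (.cons (t1 18 49 50) (.cons (t1 37 49 50) (.cons a434 (.cons a435 (.cons (t2 37 39 50) (.cons (t2 3 18 39) (.cons a121 (.cons a48 (.cons (t3 7 30 39) .nil))))))))))))))))))))))))))))))))))))))))))))))))))))))))))))))))))))))))))))))))))))))))))))))))))))))))))))))))))))))) (by decide +kernel)
theorem s1435 : Valid A [433, 1062, 2480, 1072, 1067, 2778] := rup _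
  (.cons (t2 3 8 24) (.cons (t2 3 19 24) (.cons s1379 .nil))) (by decide +kernel)
theorem s1436 : Valid A [1072, 1067, 2778, 943, 1044, 1378, 1340, 1070, 994] := rup _
  (.cons (t3 8 10 21) (.cons s1279 (.cons (t3 7 8 21) (.cons a143 (.cons s1431 (.cons a171 (.cons a399 (.cons s46 (.cons (t2 10 23 34) (.cons a162 (.cons (t1 24 30 34) (.cons s101 (.cons a169 (.cons s534 (.cons (t3 7 10 23) (.cons (t1 10 23 30) (.cons (t1 7 24 49) (.cons (t3 8 24 49) (.cons (t1 8 21 24) (.cons s912 (.cons (t1 8 21 49) (.cons a134 (.cons a185 (.cons (t1 8 21 46) (.cons s377 (.cons (t3 7 24 29) (.cons s42 (.cons (t2 7 10 46) (.cons (t3 7 24 46) (.cons s340 (.cons (t1 7 10 18) (.cons (t3 7 18 23) (.cons (t2 8 21 36) (.cons s1433 (.cons (t3 18 24 49) (.cons s1434 (.cons a345 (.cons a349 (.cons (t3 18 19 24) (.cons (t3 7 8 19) (.cons s769 (.cons s118 (.cons s432 (.cons a396 (.cons (t1 7 10 45) (.cons (t3 10 30 45) (.cons (t2 7 33 45) (.cons (t2 7 22 45)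 (.cons s1435 (.cons a64 (.cons (t1 3 7 33) (.cons a53 (.cons (t2 7 33 36) (.cons (t3 33 36 45) (.cons s201 (.cons s384 (.cons (t2 5 21 45) (.cons (t2 5 21 49) (.cons (t2 5 11 21) (.cons s177 (.cons a215 (.cons (t3 30 45 51) (.cons (t3 22 45 51) (.cons (t3 11 29 49) (.cons a472 (.cons s474 (.cons (t2 22 30 49) (.cons s376 .nil)))))))))))))))))))))))))))))))))))))))))))))))))))))))))))))))))))) (by decide +kernel)
theorem s1437 : Valid A [2343, 4956, 2245, 932, 2373, 2365, 2402, 2737, 2778, 3132, 3171, 994] := rup _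
  (.cons s1115 (.cons a404 (.cons a513 (.cons (t3 3 17 18) (.cons (t3 3 18 30) (.cons (t1 18 24 49) (.cons s72 (.cons (t1 17 18 19) (.cons (t2 18 19 30) (.cons (t1 18 19 24) (.cons (t2 18 19 34) (.cons (t3 3 18 19) (.cons a173 (.cons a335 (.cons a156 (.cons s1380 (.cons (t1 18 19 38) (.cons (t1 19 30 39) (.cons (t2 17 27 34) (.cons s676 (.cons a48 (.cons s1166 (.cons a36 (.cons a429 (.cons (t2 3 27 39) (.cons (t3 24 27 39) (.cons (t1 24 49 50) (.cons a314 .nil)))))))))))))))))))))))))))) (by decide +kernel)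
theorem s1438 : Valid A [6373, 2003, 926, 433, 2213, 1073, 944, 3171] := rup _
  (.cons s1115 (.cons (t1 8 24 49) (.cons (t1 8 49 50) (.cons (t1 24 49 50) (.cons a106 (.cons a314 (.cons (t3 8 15 49) (.cons (t3 8 15 24) (.cons (t3 24 27 49) (.cons (t2 3 24 27) (.cons a113 (.cons a36 (.cons (t3 7 15 27) (.cons (t3 15 17 27) (.cons (t2 15 27 41) (.cons (t2 17 18 27) (.cons (t1 15 17 18) (.cons (t1 18 27 41) (.cons a524 (.cons (t3 14 18 27) (.cons (t1 14 15 18) (.cons a317 (.cons a92 (.cons (t1 7 14 24) .nil)))))))))))))))))))))))) (by decide +kernel)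
theorem s1439 : Valid A [433, 1357, 2380, 452, 1060, 2213, 1073, 943, 1327, 1070, 994] := rup _
  (.cons s1431 (.cons a405 (.cons (t2 8 17 24) (.cons s71 (.cons a181 (.cons (t2 8 24 46) (.cons a178 (.cons (t3 24 36 49) (.cons a187 (.cons (t1 8 24 49) (.cons (t3 7 10 23) (.cons (t1 7 24 49) (.cons a45 (.cons (t2 3 24 36) (.cons (t3 24 48 49) (.cons (t1 24 46 48) (.cons a479 (.cons s154 (.cons (t3 23 36 48) (.cons s1253 (.cons (t1 7 23 36) (.cons (t1 10 23 36) (.cons (t3 7 33 36) (.cons (t3 10 33 36) (.cons (t1 24 33 36) (.cons a110 (.cons a112 (.cons a448 (.cons a95 (.cons s1438 (.cons a429 (.cons (t2 8 49 50) (.cons (t2 7 10 50) (.cons (t3 7 15 50) (.cons a247 (.cons a105 (.cons (t3 9 10 33) (.cons (t3 9 10 38) (.cons (t1 8 15 18) (.cons (t2 8 15 24) (.cons a250 (.cons a265 (.cons (t2 9 15 18) (.cons (t3 9 15 24) .nil)))))))))))))))))))))))))))))))))))))))))))) (by decide +kernel)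
theorem s1440 : Valid A [963, 399, 4706, 994] := rup _
  (.cons s150 (.cons (t1 3 7 33) (.cons s1035 (.cons a53 (.cons (t2 7 33 36) .nil))))) (by decide +kernel)
theorem s1441 : Valid A [2402, 2748, 2787, 2737, 1100, 1073, 1322, 938, 2778, 3938, 943, 2992, 1327, 1340, 1070, 994] := rup _
  (.cons s1115 (.cons s1431 (.cons a405 (.cons (t2 8 17 24) (.cons (t1 8 24 49) (.cons a171 (.cons s46 (.cons (t2 10 23 34) (.cons a162 (.cons (t1 24 30 34) (.cons (t1 10 23 30) (.cons (t2 7 23 30) (.cons (t3 7 10 23) (.cons (t1 7 24 49) (.cons a404 (.cons a513 (.cons a468 (.cons (t2 8 18 49) (.cons s71 (.cons (t3 3 17 18) (.cons (t1 17 18 30) (.cons (t1 10 18 30) (.cons (t1 18 30 34) (.cons (t1 7 18 30) (.cons a181 (.cons (t3 3 18 34) (.cons (t1 17 30 34) (.cons a187 (.cons (t2 8 24 46) (.cons (t3 8 38 46) (.cons a178 (.cons (t3 24 36 49) (.cons s1437 (.cons a345 (.cons a349 (.cons (t3 18 19 30) (.cons (t1 7 19 46) (.cons (t1 7 19 21) (.cons s118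 (.cons s443 (.cons a173 (.cons a341 (.cons a396 (.cons a397 (.cons (t1 7 10 45) (.cons (t1 10 19 38) (.cons (t2 7 22 45) (.cons (t3 10 22 23) (.cons a30 (.cons a86 (.cons a88 (.cons (t2 19 20 45) (.cons s776 (.cons (t3 2 24 49) (.cons (t3 2 21 49) (.cons s1439 (.cons a64 (.cons s1440 (.cons (t1 7 10 33) (.cons a391 (.cons (t1 30 33 49) (.cons s148 (.cons a304 (.cons (t3 2 6 49) (.cons a73 (.cons (t1 2 24 52) (.cons (t1 2 21 52) (.cons a222 (.cons (t3 19 30 52) (.cons s991 (.cons (t1 22 30 52) (.cons a14 (.cons a475 (.cons (t3 22 51 52) (.cons (t2 20 24 52) (.cons (t2 20 51 52) (.cons a495 (.cons a22 (.cons (t3 23 24 51) .nil))))))))))))))))))))))))))))))))))))))))))))))))))))))))))))))))))))))))))))))) (by decide +kernel)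
theorem s1442 : Valid A [5090, 934, 433, 2236, 931, 932, 2403, 3132, 3171] := rup _
  (.cons (t2 24 39 49) (.cons (t2 18 39 49) (.cons s1166 (.cons s739 (.cons (t3 17 30 39) .nil))))) (by decide +kernel)
theorem s1443 : Valid A [5091, 2403, 1123, 1348, 917, 1340, 3171, 994] := rup _
  (.cons a169 (.cons s1279 (.cons a443 (.cons (t3 24 39 49) (.cons (t3 18 39 49) (.cons (t2 8 41 49) (.cons a301 (.cons a434 (.cons (t3 6 24 49) (.cons (t1 18 49 50) (.cons a304 (.cons a429 (.cons s1296 (.cons a447 (.cons (t1 7 10 33) (.cons s148 (.cons s370 (.cons (t2 33 34 49) .nil)))))))))))))))))) (by decide +kernel)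
theorem s1444 : Valid A [1067, 2778, 943, 1044, 1378, 1340, 1070, 994] := rup _
  (.cons s1115 (.cons s1431 (.cons a171 (.cons a399 (.cons s46 (.cons (t2 10 23 34) (.cons a162 (.cons (t1 24 30 34) (.cons (t1 10 24 49) (.cons s988 (.cons a169 (.cons s534 (.cons (t1 10 23 30) (.cons (t2 7 23 30) (.cons (t3 7 10 23) (.cons (t1 10 23 24) (.cons (t1 7 24 49) (.cons a405 (.cons s1279 (.cons (t3 7 8 21) (.cons (t3 8 10 21) (.cons s1436 (.cons (t1 8 24 49) (.cons (t2 8 17 24) (.cons (t2 8 24 30) (.cons (t2 8 24 38) (.cons (t2 8 21 24) (.cons (t2 8 21 49) (.cons (t1 8 21 30) (.cons s1441 (.cons s80 (.cons (t1 7 18 49) (.cons a189 (.cons (t2 8 46 49) (.cons (t1 7 10 46) (.cons (t3 10 30 46) (.cons a181 (.cons (t3 7 17 46) (.cons (t2 17 30 46) (.cons (t1 3 7 17) (.cons a64 (.cons s1443 (.cons (t2 24 39 49) (.cons s1442 (.cons s1166 (.cons s769 (.cons (t3 7 30 39) (.cons a429 (.cons (t1 8 49 50) (.cons (t1 24 49 50) (.cons a106 (.cons a314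 (.cons (t3 8 15 49) (.cons (t3 8 15 24) (.cons (t3 24 27 49) (.cons (t2 3 24 27) (.cons a113 (.cons a36 (.cons (t1 7 17 27) (.cons a318 (.cons a319 (.cons a439 (.cons (t1 14 15 27) (.cons (t2 14 24 39) (.cons a92 .nil))))))))))))))))))))))))))))))))))))))))))))))))))))))))))))))))) (by decide +kernel)
theorem s1445 : Valid A [2343, 433, 2245, 2373, 2365, 2213, 932, 3171, 994] := rup _
  (.cons s1115 (.cons (t3 3 17 18) (.cons (t3 3 18 30) (.cons (t1 17 18 19) (.cons (t2 18 19 30) (.cons (t2 18 19 34) (.cons a335 (.cons a156 (.cons (t2 18 19 39) (.cons (t1 19 30 39) (.cons (t2 17 27 34) (.cons a48 (.cons a36 (.cons (t2 3 24 27) (.cons (t2 3 27 39) (.cons a314 (.cons a315 (.cons (t1 27 39 50) (.cons (t1 24 49 50) (.cons a433 (.cons a429 (.cons (t3 7 18 50) .nil)))))))))))))))))))))) (by decide +kernel)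
theorem s1446 : Valid A [938, 1319, 935, 483, 433, 1085, 1059, 1066, 2778, 943, 1327, 1340] := rup _
  (.cons a66 (.cons (t3 3 7 19) (.cons (t3 8 21 30) (.cons (t1 10 23 30) (.cons (t2 7 23 30) (.cons (t3 7 10 23) (.cons (t1 7 10 21) (.cons (t1 7 19 21) (.cons s118 (.cons a341 (.cons s444 (.cons a396 (.cons a397 (.cons (t1 7 10 45) (.cons (t2 3 21 49) (.cons (t2 3 21 24) (.cons (t2 7 22 45) (.cons (t3 10 22 23) (.cons a30 (.cons a504 (.cons a137 (.cons (t2 10 20 45) (.cons (t2 19 20 45) (.cons a142 (.cons (t2 8 17 29) (.cons (t2 8 29 30) (.cons a140 (.cons (t3 22 29 30) (.cons s991 (.cons a222 (.cons (t3 19 21 52) (.cons (t3 7 21 52) (.cons (t2 21 24 52) (.cons (t3 13 21 52) (.cons a14 (.cons a226 (.cons (t1 13 20 52) (.cons (t3 20 24 52) (.cons (t3 22 24 52) (.cons a18 (.cons a23 (.cons (t2 22 24 51) (.cons (t1 10 13 30) (.cons (t2 10 13 23) (.cons a472 (.cons a495 (.cons (t3 13 30 51) (.cons (t1 13 23 51) .nil))))))))))))))))))))))))))))))))))))))))))))))))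 (by decide +kernel)
theorem s1447 : Valid A [433, 1059, 2365, 2213, 932, 1072, 1066, 2778, 943, 1327, 1340, 3171, 994] := rup _
  (.cons s1115 (.cons (t1 8 17 21) (.cons s46 (.cons (t2 10 23 34) (.cons a162 (.cons (t1 17 18 30) (.cons (t1 17 30 34) (.cons (t1 8 17 30) (.cons (t3 3 17 18) (.cons (t3 3 18 30) (.cons (t1 18 30 34) (.cons (t3 7 10 23) (.cons (t1 7 10 18) (.cons (t1 10 23 30) (.cons (t2 7 23 30) (.cons (t1 7 24 49) (.cons s1279 (.cons a66 (.cons (t1 3 24 49) (.cons s1445 (.cons a345 (.cons a349 (.cons s1446 (.cons (t2 7 21 23) (.cons (t2 7 10 21) (.cons (t3 3 7 21) (.cons s458 (.cons s568 (.cons a506 (.cons (t1 21 23 45) (.cons (t2 10 21 45) (.cons a60 (.cons s2 (.cons (t1 0 10 23) (.cons (t3 3 17 45) (.cons (t3 3 30 45) (.cons (t2 3 45 49) (.cons s1305 (.cons s716 (.cons (t3 22 45 49) (.cons a395 (.cons (t2 3 22 45) (.cons s177 (.cons (t2 10 19 22) (.cons (t3 0 10 22) (.cons (t1 5 45 49) (.cons a340 (.cons a491 (.cons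 a216 (.cons a56 (.cons (t2 0 11 49) (.cons (t2 3 11 49) (.cons (t1 3 16 30) (.cons (t3 3 11 16) (.cons a383 (.cons a371 (.cons (t1 7 11 30) .nil))))))))))))))))))))))))))))))))))))))))))))))))))))))))) (by decide +kernel)
theorem s1448 : Valid A [2343, 432, 2245, 2373, 2365, 2213, 2402, 943, 944, 994] := rup _
  (.cons s1115 (.cons a64 (.cons (t3 3 17 18) (.cons (t3 3 18 30) (.cons (t1 17 18 19) (.cons (t2 18 19 30) (.cons (t2 18 19 34) (.cons a335 (.cons a156 (.cons (t2 18 19 39) (.cons (t1 19 30 39) (.cons (t2 17 27 34) (.cons a48 (.cons a36 (.cons (t2 3 7 39) (.cons (t3 3 24 27) (.cons s181 .nil))))))))))))))))) (by decide +kernel)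
theorem s1449 : Valid A [2402, 1116, 1072, 1066, 2778, 3938, 943, 3042, 1327, 1340, 3171, 994] := rup _
  (.cons (t1 7 24 49) (.cons s1279 (.cons a185 (.cons (t3 7 24 46) (.cons (t1 7 46 49) (.cons s42 (.cons (t3 8 24 49) (.cons s46 (.cons (t2 10 23 34) (.cons a162 (.cons (t3 7 10 23) (.cons a404 (.cons a169 (.cons a513 (.cons a468 (.cons s138 (.cons (t1 17 18 30) (.cons (t1 18 30 34) (.cons a181 (.cons (t1 17 30 34) (.cons s1447 (.cons a64 (.cons s1448 (.cons a345 (.cons s769 (.cons s432 (.cons s1440 (.cons (t3 24 36 49) (.cons (t1 18 36 49) (.cons (t1 23 36 49) (.cons s142 .nil))))))))))))))))))))))))))))))) (by decide +kernel)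
theorem s1450 : Valid A [2736, 2218, 938, 444, 430, 433, 1072, 1066, 2778, 3004] := rup _
  (.cons s1115 (.cons a66 (.cons s202 (.cons (t2 3 21 24) (.cons a60 (.cons (t3 3 17 45) (.cons (t3 3 30 45) (.cons (t3 3 7 45) (.cons (t3 3 23 45) (.cons s1305 (.cons s716 (.cons s199 (.cons s177 .nil))))))))))))) (by decide +kernel)
theorem s1451 : Valid A [2907, 2876, 2748, 938, 2778, 956, 917] := rup _
  (.cons a396 (.cons (t3 22 30 45) (.cons (t2 7 10 45) (.cons s909 (.cons a222 (.cons (t3 21 45 52) (.cons (t3 7 21 52) (.cons s131 .nil)))))))) (by decide +kernel)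
theorem s1452 : Valid A [986, 2620, 2906, 5858, 938, 2778, 943, 3004, 3171, 994] := rup _
  (.cons (t1 7 23 45) (.cons s199 (.cons s177 (.cons s716 (.cons (t3 45 49 51) (.cons (t1 30 45 51) (.cons (t3 20 30 45) (.cons (t3 20 30 51) (.cons a29 (.cons s368 (.cons (t1 7 20 49) .nil))))))))))) (by decide +kernel)
theorem s1453 : Valid A [6373, 2906, 3781, 2876, 3773, 1093, 2737, 938, 970, 973, 2500, 2481, 433, 2403, 2778, 3132, 943, 3004, 3171, 994] := rup _
  (.cons (t1 21 24 49) (.cons (t3 21 45 49) (.cons (t3 19 21 24) (.cons (t1 21 24 45) (.cons (t2 21 24 30) (.cons (t3 18 24 49) (.cons (t2 7 23 30) (.cons s1279 (.cons (t1 18 49 50) (.cons (t1 24 49 50) (.cons a434 (.cons a314 (.cons (t1 18 24 39) (.cons (t2 19 24 27) (.cons s1166 (.cons a154 (.cons (t3 7 30 39) (.cons (t1 29 30 39) (.cons (t3 8 27 34) (.cons (t3 27 29 34) (.cons a121 (.cons a127 (.cons (t3 30 37 39) (.cons (t3 29 37 39) (.cons (t2 8 27 42) (.cons a12 (.cons (t1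 20 30 37) (.cons s1452 (.cons a30 (.cons (t3 7 8 45) (.cons (t2 7 38 45) (.cons (t2 7 22 45) (.cons a356 (.cons s991 (.cons (t3 38 42 45) (.cons a222 (.cons a199 (.cons (t1 19 21 52) (.cons (t2 21 24 52) (.cons (t3 5 38 45) (.cons a15 (.cons s177 (.cons (t1 20 24 52) (.cons (t3 24 45 51) (.cons (t3 20 45 51) (.cons a22 .nil)))))))))))))))))))))))))))))))))))))))))))))) (by decide +kernel)
theorem s1454 : Valid A [986, 403, 1195, 1981, 2770, 3923, 2906, 3773, 2237, 1085, 34, 408, 1584, 5858, 3130, 1338, 938, 2481, 2492, 2778, 917, 943, 3004, 1328, 3171, 994] := rup _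
  (.cons s132 (.cons (t1 7 23 45) (.cons s199 (.cons s1452 (.cons a79 (.cons s177 (.cons (t3 8 20 30) (.cons (t1 19 20 30) (.cons (t1 20 30 41) (.cons s716 (.cons (t1 30 45 51) (.cons (t1 8 30 45) (.cons (t1 17 30 45) (.cons (t1 29 30 45) (.cons (t3 2 30 45) (.cons (t1 15 30 45) (.cons a466 (.cons (t3 2 8 45) (.cons (t1 2 30 41) (.cons a100 (.cons (t2 8 30 32) (.cons (t2 29 30 32) (.cons (t3 30 32 41) (.cons a84 (.cons (t1 2 41 43) (.cons (t1 4 17 45) (.cons (t1 4 29 45) (.cons a149 (.cons a451 (.cons a509 (.cons a146 (.cons (t3 10 24 32) (.cons (t1 19 24 32) (.cons (t3 12 24 32) (.cons (t1 9 21 43) (.cons (t3 4 7 10) (.cons a233 (.cons a517 (.cons a245 (.cons (t1 0 4 7) (.cons a14 (.cons (t2 8 12 20) (.cons (t2 3 9 11) (.cons a384 (.cons s83 (.cons (t2 12 20 28) (.cons a40 (.cons (t1 7 10 11) (.cons (t3 20 28 41) (.cons (t2 11 12 28) (.cons a529 (.cons a387 (.cons (t1 10 28 32) .nil)))))))))))))))))))))))))))))))))))))))))))))))))))))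 (by decide +kernel)
theorem s1455 : Valid A [963, 997, 2876, 2237, 1085, 34, 2748, 2737, 1338, 938, 2481, 2492, 433, 1066, 2778, 917, 943, 3004, 1328, 3171, 994] := rup _
  (.cons (t2 7 10 50) (.cons a249 (.cons (t2 7 23 30) (.cons s1451 (.cons a137 (.cons a142 (.cons (t2 8 29 30) (.cons (t1 3 24 49) (.cons (t1 21 24 49) (.cons a500 (.cons (t2 3 12 49) (.cons (t1 12 24 49) (.cons (t3 21 45 49) (.cons (t3 19 21 24) (.cons a135 (.cons (t1 7 24 49) (.cons s1279 (.cons a112 (.cons a447 (.cons a448 (.cons (t3 7 24 33) (.cons a95 (.cons s1296 (.cons (t2 7 33 50) (.cons (t2 8 30 41) (.cons (t3 8 21 41) (.cons (t2 8 29 41) (.cons (t1 9 33 50) (.cons (t3 15 30 41) (.cons a250 (.cons (t3 9 21 24) (.cons (t3 3 9 24) (.cons s1454 (.cons (t2 7 22 45) (.cons s991 (.cons a222 (.cons s84 (.cons (t1 19 21 52) (.cons (t2 21 49 52) (.cons (t3 7 21 52) (.cons (t2 21 24 52) (.cons (t1 21 24 28) (.cons a232 (.cons a235 (.cons a236 (.cons a226 (.cons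 (t2 24 32 52) (.cons (t2 22 32 52) (.cons (t2 24 42 49) (.cons (t2 22 42 52) (.cons a149 (.cons a367 (.cons a363 (.cons (t2 29 32 41) (.cons (t3 28 32 42) (.cons a532 .nil)))))))))))))))))))))))))))))))))))))))))))))))))))))))) (by decide +kernel)
theorem s1456 : Valid A [1085, 2737, 1059, 1338, 938, 970, 1357, 2500, 2481, 2492, 433, 2380, 2403, 1066, 2778, 3909, 917, 943, 3004, 1328, 3171, 994] := rup _
  (.cons a137 (.cons a142 (.cons (t2 8 17 29) (.cons a140 (.cons (t2 8 22 29) (.cons s3 (.cons (t3 0 8 17) (.cons a171 (.cons (t1 24 30 34) (.cons (t2 21 24 30) (.cons (t1 7 10 38) (.cons (t3 18 24 49) (.cons (t2 7 23 30) (.cons (t1 8 30 34) (.cons (t2 8 17 30) (.cons (t2 8 29 30) (.cons (t3 8 22 30) (.cons (t2 8 29 34) (.cons s1451 (.cons s1453 (.cons a429 (.cons (t2 18 49 50) (.cons (t2 7 10 50) (.cons (t3 7 30 50) (.cons a247 (.cons (t3 9 10 38) (.cons a265 (.cons s1455 (.cons (t1 9 18 24) (.cons a251 (.cons (t3 24 33 49) (.cons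 s148 (.cons a304 (.cons (t3 6 24 49) (.cons a301 (.cons (t2 18 24 39) (.cons s1166 (.cons a433 (.cons (t1 30 39 50) .nil))))))))))))))))))))))))))))))))))))))) (by decide +kernel)
theorem s1457 : Valid A [2907, 2748, 938, 2778, 956, 917] := rup _
  (.cons a396 (.cons s1451 (.cons (t2 7 10 45) (.cons a474 (.cons (t2 22 30 45) (.cons s199 (.cons (t1 30 45 51) (.cons s177 .nil)))))))) (by decide +kernel)
theorem s1458 : Valid A [2382, 2236, 2214, 2343, 433, 2353, 3132] := rup _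
  (.cons (t1 18 24 39) (.cons (t1 18 19 39) (.cons s1166 (.cons a333 (.cons (t3 17 30 39) .nil))))) (by decide +kernel)
theorem s1459 : Valid A [2621, 3786, 4815, 2383, 3772, 2364] := rup _
  (.cons (t1 18 20 30) (.cons (t2 20 29 30) (.cons (t3 18 20 39) (.cons (t1 20 37 39) (.cons a11 .nil))))) (by decide +kernel)
theorem s1460 : Valid A [2793, 3795, 940, 2475, 2737, 938, 3171] := rup _
  (.cons (t1 21 24 49) (.cons a135 (.cons s84 (.cons (t1 19 21 52) (.cons (t2 21 49 52) (.cons (t3 7 21 52) (.cons (t2 21 24 52) (.cons (t1 21 24 28) (.cons a232 (.cons a235 (.cons a236 (.cons a226 (.cons (t2 24 32 52) (.cons (t2 22 32 52) (.cons (t2 24 42 49) (.cons (t2 22 42 52) (.cons a149 (.cons a367 (.cons a363 (.cons (t2 29 32 41) (.cons (t3 28 32 42) (.cons a532 .nil)))))))))))))))))))))) (by decide +kernel)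
theorem s1461 : Valid A [1059, 1338, 938, 970, 1357, 2343, 430, 433, 2380, 2403, 932, 1072, 1066, 2778, 3909, 917, 943, 3004, 1328, 3171, 994] := rup _
  (.cons a169 (.cons (t2 18 34 49) (.cons (t1 18 19 34) (.cons (t3 18 24 49) (.cons (t2 18 19 24) (.cons a471 (.cons (t1 18 19 30) (.cons a516 (.cons (t3 17 18 19) (.cons a171 (.cons (t1 24 30 34) (.cons (t2 3 24 30) (.cons (t2 7 23 30) (.cons s1279 (.cons (t1 8 17 21) (.cons s1450 (.cons a135 (.cons a137 (.cons (t1 21 24 49) (.cons (t2 21 24 30) (.cons (t3 19 21 24) (.cons (t2 18 24 29) (.cons a142 (.cons (t3 21 45 49) (.cons s1456 (.cons (t1 8 17 30) (.cons (t1 8 29 30) (.cons s1457 (.cons s1458 (.cons a434 (.cons (t2 18 24 39) (.cons (t3 7 18 39) (.cons (t3 18 29 39) (.cons (t1 18 49 50) (.cons a301 (.cons a121 (.cons a429 (.cons (t3 6 24 49) (.cons (t1 29 37 39) (.cons s1459 (.cons (t2 7 10 50) (.cons a304 (.cons s1452 (.cons a247 (.cons (t2 6 7 30) (.cons (t1 6 7 45) (.cons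 a86 (.cons a88 (.cons (t2 7 22 45) (.cons (t3 9 10 38) (.cons (t1 2 6 45) (.cons s776 (.cons a265 (.cons (t3 2 21 49) (.cons (t1 9 18 24) (.cons a251 (.cons (t3 24 33 49) (.cons s148 (.cons a447 (.cons s1296 (.cons (t2 8 29 41) (.cons s1460 (.cons a222 (.cons (t2 2 21 52) (.cons (t3 6 30 52) (.cons a71 .nil)))))))))))))))))))))))))))))))))))))))))))))))))))))))))))))))))) (by decide +kernel)
theorem s1462 : Valid A [986, 3773, 783, 2906, 5858, 3160, 3130, 938, 2778, 917, 943, 3004, 994] := rup _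
  (.cons (t1 6 7 10) (.cons s132 (.cons (t1 7 10 45) (.cons (t1 7 23 45) (.cons s199 (.cons (t2 6 7 45) (.cons a79 (.cons a395 (.cons s177 (.cons (t2 2 6 45) (.cons (t1 7 10 22) (.cons (t1 6 10 22) (.cons s716 (.cons (t1 30 45 51) (.cons a229 (.cons (t2 6 22 52) (.cons a466 (.cons a71 (.cons (t3 30 32 45) (.cons (t2 29 30 32) (.cons a69 (.cons (t2 2 45 52) (.cons a149 (.cons (t1 44 45 52) (.cons (t1 24 32 44) (.cons a271 .nil)))))))))))))))))))))))))) (by decide +kernel)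
theorem s1463 : Valid A [987, 3795, 828, 783, 2906, 2475, 2748, 2737, 938, 3171, 994] := rup _
  (.cons (t1 21 24 49) (.cons a86 (.cons a88 (.cons (t2 7 22 45) (.cons (t1 2 6 7) (.cons s776 (.cons s1460 (.cons (t3 2 21 49) (.cons a222 (.cons (t2 2 21 52) (.cons (t3 6 30 52) (.cons a71 .nil)))))))))))) (by decide +kernel)
theorem s1464 : Valid A [938, 970, 1100, 1357, 2343, 430, 433, 2380, 2403, 1116, 1072, 1066, 2778, 3909, 917, 943, 3004, 1328, 3171, 994] := rup _
  (.cons (t1 7 10 38) (.cons (t3 18 24 49) (.cons (t2 18 19 24) (.cons a516 (.cons (t3 17 18 19) (.cons a347 (.cons a171 (.cons (t1 24 30 34) (.cons (t2 3 24 30) (.cons a471 (.cons (t2 7 23 30) (.cons s1279 (.cons a185 (.cons (t3 7 30 46) (.cons s42 (.cons (t3 7 21 46) (.cons (t3 7 21 38) (.cons s1188 (.cons (t2 10 29 38) (.cons s1461 (.cons a181 (.cons (t3 7 17 46) (.cons (t2 17 30 46) (.cons (t2 17 21 46) (.cons s1442 (.cons s1458 (.cons s1450 (.cons (t1 7 39 49) (.cons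 (t3 24 39 49) (.cons a434 (.cons a135 (.cons a137 (.cons (t1 21 24 49) (.cons (t2 21 24 30) (.cons (t3 19 21 24) (.cons a121 (.cons a270 (.cons a301 (.cons (t3 24 29 39) (.cons (t1 18 49 50) (.cons a142 (.cons (t3 21 45 49) (.cons s1457 (.cons (t1 29 37 39) (.cons (t3 6 24 49) (.cons a429 (.cons a304 (.cons (t2 7 10 50) (.cons (t1 6 7 10) (.cons (t2 6 7 30) (.cons (t1 6 7 38) (.cons a247 (.cons (t2 6 9 10) (.cons (t3 6 9 38) (.cons a265 (.cons (t1 9 18 24) (.cons a251 (.cons (t3 24 33 49) (.cons s148 (.cons a447 (.cons s1296 (.cons (t2 8 29 41) (.cons s1463 (.cons s1452 (.cons s1462 (.cons s1459 .nil)))))))))))))))))))))))))))))))))))))))))))))))))))))))))))))))))) (by decide +kernel)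
theorem s1465 : Valid A [2907, 271, 2266, 3930, 2747, 939, 934, 433, 2403, 932, 2778, 3132, 956, 3171, 994] := rup _
  (.cons (t1 7 21 30) (.cons (t2 7 21 45) (.cons s1305 (.cons (t1 7 22 45) (.cons (t2 22 30 45) (.cons (t3 7 17 21) (.cons (t2 17 21 30) (.cons s325 (.cons s1442 (.cons (t1 2 7 52) (.cons (t3 24 39 49) (.cons a72 (.cons a301 (.cons (t1 6 7 52) (.cons (t3 6 24 49) (.cons a304 .nil)))))))))))))))) (by decide +kernel)
theorem s1466 : Valid A [2343, 433, 2403, 1116, 1072, 1066, 2778, 3909, 943, 3004, 1327, 1044, 1328, 3171, 994] := rup _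
  (.cons (t1 10 23 24) (.cons (t2 3 23 24) (.cons a171 (.cons s46 (.cons (t2 10 23 34) (.cons s988 (.cons (t3 24 38 49) (.cons (t2 18 38 49) (.cons a169 (.cons (t2 18 34 49) (.cons a516 (.cons a471 (.cons (t3 7 10 23) (.cons s1279 (.cons a185 (.cons (t2 7 10 46) (.cons s42 (.cons (t1 24 30 34) (.cons (t2 7 23 30) (.cons (t1 7 24 49) (.cons a347 (.cons s72 (.cons (t3 17 18 19) (.cons (t2 18 19 49) (.cons (t1 18 19 30) (.cons (t1 18 19 34) (.cons s344 (.cons (t3 8 10 38) (.cons (t1 7 10 38) (.cons (t2 10 23 38) (.cons a124 (.cons (t2 7 23 37) (.cons s1464 (.cons (t2 7 21 23) (.cons (t2 7 10 21) (.cons (t3 7 19 21) (.cons s458 (.cons s568 (.cons (t2 7 21 45) (.cons a506 (.cons (t1 21 23 45) (.cons (t2 10 21 45) (.cons a341 (.cons s2 (.cons (t2 7 29 38) (.cons (t1 0 10 23) (.cons (t2 19 45 49) (.cons (t3 19 30 45) (.cons (t3 17 19 45) (.cons a131 (.cons a80 (.cons (t2 7 11 38) (.cons a85 (.cons a383 (.cons s1465 (.cons (t3 22 45 49)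 (.cons a395 (.cons s716 (.cons (t3 0 10 22) (.cons s177 (.cons a491 (.cons (t1 5 45 49) (.cons (t2 0 11 49) (.cons a216 .nil)))))))))))))))))))))))))))))))))))))))))))))))))))))))))))))))) (by decide +kernel)
theorem s1467 : Valid A [1059, 938, 3919, 1062, 1319, 935, 483, 433, 1066, 2778, 943, 1327, 1340] := rup _
  (.cons (t1 10 23 30) (.cons (t2 7 23 30) (.cons (t1 7 19 30) (.cons (t3 19 30 39) (.cons (t1 8 17 19) (.cons s1446 (.cons a333 (.cons (t3 8 30 39) (.cons (t1 8 17 39) .nil))))))))) (by decide +kernel)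
theorem s1468 : Valid A [938, 1251, 1201, 3919, 422, 1319, 935, 433, 1116, 1072, 1066, 2778, 943, 1327, 1044, 1328, 1340, 3171, 994] := rup _
  (.cons s1115 (.cons (t3 7 10 23) (.cons a169 (.cons s1279 (.cons a185 (.cons s769 (.cons a429 (.cons (t1 24 49 50) (.cons a314 (.cons (t2 3 24 27) (.cons a36 (.cons (t3 24 27 49) (.cons (t3 8 24 49) (.cons s432 (.cons a112 (.cons a448 (.cons a95 (.cons a110 (.cons (t3 7 15 46) (.cons (t3 7 8 19) (.cons (t1 3 24 49) (.cons a405 (.cons (t1 7 10 21) (.cons (t1 7 19 21) (.cons s118 (.cons s444 (.cons a397 (.cons s66 (.cons (t1 7 10 45) (.cons (t2 3 21 49) (.cons (t2 3 21 24) (.cons (t2 7 10 22) (.cons a86 (.cons a88 (.cons a137 (.cons s776 (.cons a142 (.cons (t2 2 8 49) (.cons (t3 2 21 49) (.cons (t3 7 8 29) (.cons (t3 8 10 29) (.cons s1467 (.cons a181 (.cons s1375 (.cons (t3 8 17 29) (.cons (t3 7 17 46) (.cons (t1 15 17 46) (.cons (t3 21 22 49) (.cons (t3 15 17 27) (.cons s376 (.cons a113 (.cons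 s474 (.cons (t3 0 7 17) (.cons (t3 15 24 49) (.cons (t2 15 41 49) (.cons (t2 8 11 29) (.cons s1420 (.cons (t2 15 24 41) (.cons (t3 21 41 49) (.cons (t3 9 41 49) (.cons a146 (.cons a452 (.cons a453 (.cons (t2 9 41 43) (.cons (t2 4 10 24) (.cons (t2 4 10 40) (.cons (t2 2 21 43) (.cons a7 (.cons a82 (.cons (t1 9 24 40) (.cons (t2 24 40 41) (.cons (t3 8 11 43) (.cons a5 (.cons a243 (.cons (t2 9 11 40) .nil))))))))))))))))))))))))))))))))))))))))))))))))))))))))))))))))))))))))))) (by decide +kernel)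
theorem s1469 : Valid A [2907, 550, 554, 1243, 5859, 2522, 475, 42, 2747, 2778] := rup _
  (.cons s1115 (.cons (t3 3 17 45) (.cons (t1 19 22 45) (.cons s1305 (.cons (t3 3 22 45) (.cons (t1 22 45 49) (.cons (t3 9 22 45) (.cons (t1 0 17 21) (.cons (t1 4 17 21) (.cons a59 (.cons a493 (.cons (t2 9 16 22) (.cons (t1 0 9 22) (.cons a509 (.cons a337 (.cons (t1 0 4 9) (.cons (t1 4 16 19) (.cons a253 .nil)))))))))))))))))) (by decide +kernel)
theorem s1470 : Valid A [433, 2403, 1116, 1072, 1066, 2778, 943, 1327, 1044, 1328, 1340, 3171, 994] := rup _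
  (.cons a171 (.cons s46 (.cons (t2 10 23 34) (.cons s988 (.cons (t3 24 38 49) (.cons (t2 18 38 49) (.cons (t3 18 24 49) (.cons (t3 7 10 23) (.cons s1279 (.cons a185 (.cons s42 (.cons (t1 7 10 18) (.cons (t3 8 24 49) (.cons a162 (.cons (t1 24 30 34) (.cons (t1 10 23 30) (.cons (t1 7 24 49) (.cons a169 (.cons a45 (.cons a66 (.cons (t1 3 24 49) (.cons (t2 3 24 30) (.cons (t3 3 18 24) (.cons (t2 18 24 48) (.cons s1466 (.cons a345 (.cons a349 (.cons (t2 3 18 19) (.cons (t2 7 19 46) (.cons s769 (.cons a175 (.cons a429 (.cons (t1 7 10 50) (.cons s432 (.cons (t2 7 38 46) (.cons (t1 18 49 50) (.cons (t1 3 49 50) (.cons s150 (.cons (t3 7 24 33) (.cons (t2 7 33 48) (.cons (t3 7 38 48) (.cons a434 (.cons (t2 7 10 48) (.cons s166 (.cons (t1 18 24 39) (.cons (t1 9 10 48) (.cons (t1 9 33 48) (.cons s1166 (.cons a246 (.cons a250 (.cons (t3 9 49 50) (.cons (t3 3 9 50) (.cons s1468 (.cons a208 (.cons (t2 7 21 23) (.cons (t2 7 10 21) (.cons (t3 3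 7 21) (.cons s458 (.cons s568 (.cons (t2 7 19 21) (.cons (t3 5 7 19) (.cons a507 (.cons (t1 21 23 45) (.cons (t2 10 21 45) (.cons (t1 10 21 29) (.cons a60 (.cons (t2 7 19 29) (.cons a343 (.cons a147 (.cons (t3 3 30 45) (.cons (t2 3 45 49) (.cons (t2 3 9 45) (.cons (t1 4 21 29) (.cons (t1 4 19 29) (.cons a211 (.cons s1469 (.cons (t2 3 22 45) (.cons a395 (.cons s716 (.cons (t2 10 19 22) (.cons s177 (.cons a340 (.cons (t3 3 5 45) (.cons (t3 5 9 45) (.cons a56 (.cons (t3 3 4 5) (.cons (t1 4 5 9) (.cons (t2 3 4 16) (.cons a256 .nil))))))))))))))))))))))))))))))))))))))))))))))))))))))))))))))))))))))))))))))))))))))))) (by decide +kernel)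
theorem s1471 : Valid A [2343, 940, 293, 426, 1059, 444, 930, 420, 2353, 2403, 1066, 2778, 956, 994] := rup _
  (.cons s1115 (.cons a471 (.cons s139 (.cons (t1 18 24 39) (.cons a516 (.cons (t3 17 18 19) (.cons (t2 18 19 49) (.cons (t1 18 19 30) (.cons (t2 18 19 24) (.cons (t3 3 18 19) (.cons (t1 18 19 39) (.cons (t1 2 18 19) (.cons a333 (.cons s444 (.cons (t1 2 19 21) (.cons (t3 3 17 39) (.cons (t3 7 17 39) (.cons (t1 8 17 39) (.cons (t2 19 21 49) (.cons (t1 19 21 30) (.cons (t2 19 21 24) (.cons a48 (.cons (t3 8 30 39) (.cons a137 (.cons a142 (.cons (t2 8 17 29) (.cons (t2 8 29 30) (.cons a140 (.cons (t3 22 29 30) (.cons s991 (.cons a222 (.cons (t2 21 49 52) (.cons (t2 21 24 52) (.cons (t1 2 21 52) (.cons a72 (.cons (t1 6 49 52) (.cons (t1 6 24 52) (.cons a304 (.cons a300 (.cons (t2 6 7 39) .nil)))))))))))))))))))))))))))))))))))))))) (by decide +kernel)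
theorem s1472 : Valid A [2736, 2862, 2734, 2218, 1072, 1066, 3042, 3171] := rup _
  (.cons a404 (.cons (t3 21 24 49) (.cons s202 (.cons s7 (.cons a505 (.cons s630 (.cons (t1 17 22 49) (.cons (t1 21 22 49) (.cons s203 .nil))))))))) (by decide +kernel)
theorem s1473 : Valid A [938, 1059, 420, 399, 2403, 989, 1072, 1066, 2778, 3132, 956, 917, 943, 3042, 1044, 1340, 3171, 994] := rup _
  (.cons s1115 (.cons (t1 8 17 21) (.cons (t2 3 7 30) (.cons (t1 3 7 17) (.cons (t3 18 24 49) (.cons s42 (.cons (t1 7 10 18) (.cons (t3 8 24 49) (.cons a169 (.cons s1279 (.cons (t3 7 21 23) (.cons (t1 7 10 21) (.cons s156 (.cons (t2 3 7 21) (.cons a86 (.cons a88 (.cons (t2 7 23 45) (.cons (t2 7 10 45) (.cons s776 (.cons a396 (.cons (t3 2 18 49) (.cons (t2 7 22 45) (.cons (t1 22 23 45) (.cons s1471 (.cons a345 (.cons s769 (.cons (t2 7 19 45) (.cons s432 (.cons s1440 (.cons (t3 24 36 49) (.cons s1472 (.cons a135 (.cons a137 (.cons (t1 21 24 49) (.cons (t2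 21 24 30) (.cons (t1 21 24 36) (.cons (t3 24 29 36) (.cons a142 (.cons a504 (.cons a204 (.cons (t3 13 21 36) (.cons (t3 8 10 29) (.cons (t2 8 17 29) (.cons a207 (.cons a140 (.cons s468 (.cons (t3 10 30 52) (.cons (t3 10 21 52) (.cons a222 .nil))))))))))))))))))))))))))))))))))))))))))))))))) (by decide +kernel)
theorem s1474 : Valid A [2343, 20, 14, 3034, 2747, 939, 2218, 2372, 2403, 1373, 2778, 1348, 917, 3004] := rup _
  (.cons (t2 7 10 21) (.cons (t1 10 21 29) (.cons (t2 10 21 45) (.cons (t2 7 21 45) (.cons a516 (.cons a471 (.cons a347 (.cons s72 (.cons (t3 17 18 19) (.cons (t2 18 19 49) (.cons (t1 18 19 30) (.cons (t1 18 19 34) (.cons s130 (.cons (t3 17 19 45) (.cons s344 (.cons (t2 19 45 49) (.cons (t3 19 30 45) (.cons s1305 (.cons (t1 7 10 38) (.cons (t2 10 29 38) (.cons (t3 22 45 49) (.cons a395 (.cons s716 (.cons a131 (.cons (t3 0 10 22) (.cons s177 (.cons (t2 7 11 38) (.cons a491 (.cons (t1 5 45 49) (.cons a383 (.cons a216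 (.cons (t2 0 11 49) .nil)))))))))))))))))))))))))))))))) (by decide +kernel)
theorem s1475 : Valid A [1072, 1066, 2778, 943, 1327, 1044, 1378, 1340, 3171, 994] := rup _
  (.cons s1115 (.cons a171 (.cons s46 (.cons (t2 10 23 34) (.cons a162 (.cons (t1 24 30 34) (.cons a169 (.cons s534 (.cons (t1 10 23 30) (.cons (t2 7 23 30) (.cons (t3 7 10 23) (.cons (t1 10 23 49) (.cons (t1 10 24 49) (.cons (t1 7 24 49) (.cons s1279 (.cons (t3 8 24 49) (.cons s912 (.cons a185 (.cons s42 (.cons (t2 7 10 46) (.cons (t1 7 10 18) (.cons s1449 (.cons (t3 18 24 49) (.cons (t2 18 34 49) (.cons s1470 (.cons a64 (.cons (t1 3 18 24) (.cons (t1 3 7 17) (.cons (t3 7 17 46) (.cons a181 (.cons (t1 8 17 21) (.cons s1473 (.cons a208 (.cons a210 (.cons (t1 7 21 49) (.cons (t2 7 21 23) (.cons (t2 7 10 21) (.cons s458 (.cons s568 (.cons (t2 7 21 45) (.cons (t1 7 21 30) (.cons a506 (.cons (t1 21 23 45) (.cons (t1 10 21 29) (.cons s2 (.cons (t1 0 10 23) (.cons a147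 (.cons (t1 4 7 29) (.cons s1474 (.cons a345 (.cons a349 (.cons s769 (.cons (t2 7 19 21) (.cons (t3 5 7 19) (.cons (t3 4 7 19) (.cons s432 (.cons a211 (.cons s1440 (.cons (t1 7 36 49) (.cons (t1 30 36 49) (.cons (t1 21 36 49) (.cons a203 (.cons s32 (.cons (t1 5 36 49) (.cons (t1 4 5 36) (.cons (t1 36 49 51) (.cons a216 (.cons (t1 4 5 49) (.cons a477 (.cons (t1 11 36 49) (.cons (t3 4 13 49) (.cons s857 (.cons a502 (.cons a222 (.cons (t2 19 21 52) (.cons (t3 10 13 21) (.cons (t3 30 49 52) (.cons (t3 30 36 52) (.cons a19 (.cons (t3 10 20 23) (.cons (t2 7 10 20) (.cons (t1 10 19 20) (.cons a29 (.cons a14 (.cons (t3 20 30 52) (.cons (t2 20 49 52) (.cons (t2 20 45 52) (.cons s368 (.cons (t1 36 45 52) (.cons (t3 20 23 51) (.cons (t2 20 30 51) (.cons s297 (.cons a473 (.cons a383 (.cons a495 (.cons (t2 0 11 49) (.cons (t2 22 23 49) (.cons (t1 0 22 23) (.cons a491 .nil)))))))))))))))))))))))))))))))))))))))))))))))))))))))))))))))))))))))))))))))))))))))))))))))))))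 (by decide +kernel)
theorem s1476 : Valid A [2343, 2214, 2531, 1063, 2481, 433, 1073, 1348, 917, 1378, 1340, 3171, 994] := rup _
  (.cons a405 (.cons (t2 8 17 24) (.cons (t1 8 24 49) (.cons a171 (.cons a162 (.cons (t1 24 30 34) (.cons s72 (.cons (t1 18 19 49) (.cons (t1 18 19 24) (.cons (t3 19 46 49) (.cons (t2 8 19 46) (.cons s1443 (.cons a189 (.cons a181 (.cons (t2 18 39 49) (.cons (t3 10 30 46) (.cons (t2 17 30 46) (.cons s1458 .nil)))))))))))))))))) (by decide +kernel)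
theorem s1477 : Valid A [433, 938, 2736, 1073, 2778, 943, 1327, 1378, 1340, 3171, 994] := rup _
  (.cons s1115 (.cons (t3 7 10 23) (.cons (t1 7 10 21) (.cons a171 (.cons s46 (.cons (t2 10 23 34) (.cons a162 (.cons (t1 24 30 34) (.cons a169 (.cons s534 (.cons (t1 10 23 30) (.cons (t2 7 23 30) (.cons (t1 10 24 49) (.cons (t1 10 23 24) (.cons a66 (.cons (t1 3 24 49) (.cons (t2 3 23 24) (.cons (t2 3 24 30) (.cons (t3 3 8 24) (.cons (t2 3 10 24) (.cons (t2 3 21 24) (.cons a60 (.cons (t3 3 17 45) (.cons (t2 3 8 45) (.cons (t3 3 30 45) (.cons (t3 3 10 45) (.cons (t3 3 7 45) (.cons (t2 3 24 45) (.cons (t2 3 45 49) (.cons (t3 3 23 45) (.cons s118 (.cons s199 (.cons (t2 7 10 19) (.cons s177 (.cons (t1 24 45 51) (.cons s716 (.cons a23 (.cons (t3 3 22 45) (.cons (t1 22 45 49) (.cons (t3 22 24 45) (.cons (t3 8 22 45) (.cons (t1 17 22 45) (.cons (t2 8 20 24) (.cons (t3 20 24 45) (.cons a58 (.cons a59 (.cons a29 (.cons (t1 3 8 16) (.cons (t3 7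 19 20) (.cons a25 (.cons (t2 16 19 20) (.cons a337 (.cons (t1 19 22 24) (.cons (t3 8 19 22) (.cons (t1 19 22 49) (.cons (t1 17 19 22) (.cons s1476 (.cons a345 (.cons (t3 18 19 49) (.cons (t1 7 18 30) (.cons a468 .nil))))))))))))))))))))))))))))))))))))))))))))))))))))))))))))) (by decide +kernel)
theorem s1478 : Valid A [2343, 399, 938, 2786, 2778, 3938, 3909, 943, 3171, 994] := rup _
  (.cons s156 (.cons (t1 3 7 45) (.cons (t2 3 7 21) (.cons a404 (.cons a347 (.cons a348 (.cons (t2 3 7 19) (.cons s444 (.cons (t1 18 19 21) (.cons (t2 18 21 49) (.cons a513 (.cons a468 (.cons (t1 17 18 30) (.cons (t1 18 30 34) (.cons (t1 17 30 34) (.cons s1432 .nil)))))))))))))))) (by decide +kernel)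
theorem s1479 : Valid A [996, 2371, 962, 2350, 932, 2365, 2402, 444, 399, 1123, 943, 994] := rup _
  (.cons s1279 (.cons a429 (.cons (t2 3 7 50) (.cons s431 (.cons (t3 18 49 50) (.cons a106 (.cons a427 (.cons s137 (.cons (t3 8 15 49) (.cons (t3 8 41 49) (.cons s168 .nil))))))))))) (by decide +kernel)
theorem s1480 : Valid A [2234, 571, 526, 954, 3788, 2636, 2764, 3021, 2472, 2479, 2237, 2222, 930, 2734] := rup _
  (.cons (t2 4 17 29) (.cons s1420 (.cons s365 (.cons (t2 0 17 23) (.cons (t1 0 17 30) (.cons s474 (.cons a505 (.cons a130 (.cons (t2 0 21 30) (.cons (t2 11 21 38) (.cons (t3 11 23 38) (.cons (t2 11 20 38) (.cons a223 (.cons a239 (.cons a33 (.cons (t2 19 23 52) (.cons (t2 20 21 52) (.cons a14 .nil)))))))))))))))))) (by decide +kernel)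
theorem s1481 : Valid A [2402, 2342, 987, 444, 399, 938, 1100, 1073, 1066, 3938, 3909, 917, 943, 3042, 1340, 3171, 994] := rup _
  (.cons s1115 (.cons (t1 8 24 49) (.cons a86 (.cons a88 (.cons s776 (.cons (t3 2 8 49) (.cons a83 (.cons (t1 8 24 43) (.cons (t2 7 23 45) (.cons (t2 7 10 45) (.cons a396 (.cons (t1 22 23 45) (.cons (t2 7 22 45) (.cons a32 (.cons (t1 3 7 17) (.cons (t3 7 17 23) (.cons (t1 7 10 17) (.cons (t3 7 21 23) (.cons (t3 8 21 49) (.cons a171 (.cons (t1 24 30 34) (.cons (t2 8 24 30) (.cons a405 (.cons (t2 8 17 24) (.cons a404 (.cons s1279 (.cons a513 (.cons a468 (.cons s71 (.cons (t3 7 17 18) (.cons (t3 10 17 18) (.cons (t1 17 18 23) (.cons (t1 17 18 30) (.cons (t1 18 30 34) (.cons a181 (.cons a345 (.cons a349 (.cons (t1 17 30 34) (.cons a187 (.cons (t2 8 24 46) (.cons (t3 8 38 46) (.cons (t1 7 19 46) (.cons (t2 7 19 23) (.cons (t1 7 19 21) (.cons (t1 7 19 20) (.cons a178 (.cons a173 (.cons s443 (.cons (t3 24 36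 49) (.cons (t1 10 19 38) (.cons (t1 7 19 38) (.cons (t2 19 23 38) (.cons (t3 19 21 38) (.cons (t3 19 20 38) (.cons s1440 (.cons s1188 (.cons (t1 7 10 33) (.cons (t2 7 29 38) (.cons (t2 10 29 38) (.cons a391 (.cons (t1 30 33 49) (.cons (t3 8 30 33) (.cons (t1 18 30 33) (.cons s148 (.cons a304 (.cons (t3 2 6 49) (.cons a73 (.cons (t1 2 49 52) (.cons s1479 (.cons (t2 7 10 50) (.cons (t3 7 8 50) (.cons (t3 7 33 50) (.cons a247 (.cons s712 (.cons (t3 9 10 38) (.cons a109 (.cons a265 (.cons (t2 7 15 45) (.cons (t3 9 17 18) (.cons (t1 9 18 34) (.cons a100 (.cons (t1 4 7 45) (.cons (t1 4 10 45) (.cons a146 (.cons s0 (.cons s1480 (.cons (t1 9 17 29) (.cons (t3 4 9 29) (.cons (t3 0 4 9) (.cons (t1 17 29 49) (.cons (t3 17 24 29) (.cons (t2 17 29 34) (.cons a255 (.cons (t3 0 9 34) (.cons s377 (.cons (t1 21 29 34) (.cons (t3 9 16 29) (.cons (t1 0 21 34) (.cons a505 (.cons (t3 0 7 23) (.cons s630 (.cons a384 (.cons (t2 22 49 52) (.cons (t1 7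 10 11) (.cons (t3 7 11 38) (.cons a226 (.cons a130 (.cons s49 (.cons (t2 11 24 29) (.cons (t3 9 11 29) (.cons (t2 11 16 29) (.cons (t3 4 11 29) (.cons (t1 7 10 28) (.cons (t3 7 28 38) (.cons a244 (.cons a387 (.cons (t2 4 11 43) (.cons (t3 11 24 28) (.cons (t1 11 28 43) (.cons (t3 11 16 28) (.cons a454 (.cons a456 (.cons (t2 7 23 43) (.cons (t2 7 38 43) (.cons (t3 16 23 43) (.cons (t3 16 38 43) (.cons a289 (.cons a291 (.cons (t3 1 16 38) (.cons (t3 1 23 43) (.cons a295 (.cons a281 (.cons (t2 1 24 28) .nil))))))))))))))))))))))))))))))))))))))))))))))))))))))))))))))))))))))))))))))))))))))))))))))))))))))))))))))))))))))))))))))))))))) (by decide +kernel)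
theorem s1482 : Valid A [938, 1073, 1066, 2778, 943, 1327, 1378, 1340, 3171, 994] := rup _
  (.cons s1115 (.cons (t1 8 24 49) (.cons (t3 8 21 49) (.cons (t3 8 21 24) (.cons (t1 10 24 49) (.cons a171 (.cons s46 (.cons (t2 10 23 34) (.cons s988 (.cons (t2 8 24 38) (.cons a405 (.cons (t2 8 17 24) (.cons a169 (.cons s534 (.cons a162 (.cons (t1 10 23 30) (.cons (t2 7 23 30) (.cons (t3 7 10 23) (.cons (t1 10 23 49) (.cons (t1 7 24 49) (.cons s1477 (.cons a64 (.cons (t1 3 7 17) (.cons (t2 3 7 30) (.cons s156 (.cons (t1 7 10 17) (.cons s1478 (.cons s1481 (.cons s80 (.cons a189 (.cons (t2 8 46 49) (.cons (t3 10 17 46) (.cons a181 .nil))))))))))))))))))))))))))))))))) (by decide +kernel)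
theorem s1483 : Valid A [2402, 433, 1100, 1073, 3938, 943, 1044, 1340, 1070, 994] := rup _
  (.cons s1431 (.cons a171 (.cons (t2 3 24 34) (.cons a405 (.cons (t2 8 17 24) (.cons (t1 8 24 49) (.cons a399 (.cons s46 (.cons (t2 10 23 34) (.cons a162 (.cons (t1 10 23 30) (.cons (t2 7 23 30) (.cons a404 (.cons a513 (.cons a468 (.cons (t2 8 18 49) (.cons s71 (.cons (t1 17 18 30) (.cons (t1 10 18 30) (.cons (t1 18 30 34) (.cons (t1 7 18 30) (.cons a181 (.cons (t1 17 30 34) (.cons (t3 8 10 46) (.cons (t3 8 38 46) (.cons s1445 (.cons a349 (.cons (t1 10 19 46) (.cons s443 (.cons a173 (.cons s1439 (.cons (t1 10 19 38) .nil)))))))))))))))))))))))))))))))) (by decide +kernel)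
theorem s1484 : Valid A [433, 1073, 943, 1044, 1378, 1340, 1070, 994] := rup _
  (.cons s1115 (.cons s1431 (.cons (t1 10 24 49) (.cons a171 (.cons a399 (.cons s46 (.cons (t2 10 23 34) (.cons s988 (.cons (t2 8 24 38) (.cons a405 (.cons (t2 8 17 24) (.cons (t1 8 24 49) (.cons a162 (.cons (t1 24 30 34) (.cons a169 (.cons s534 (.cons (t1 10 23 30) (.cons (t2 7 23 30) (.cons (t3 7 10 23) (.cons s1483 (.cons s80 (.cons (t1 7 18 49) (.cons s1443 (.cons a189 (.cons (t2 8 46 49) (.cons (t2 24 39 49) (.cons (t1 7 10 46) (.cons (t3 10 30 46) (.cons a181 (.cons s1166 (.cons (t3 7 17 46) (.cons (t2 17 30 46) (.cons (t3 7 30 39) (.cons s1442 (.cons s769 (.cons a429 (.cons (t1 8 49 50) (.cons (t1 24 49 50) (.cons a106 (.cons a314 (.cons (t3 8 15 49) (.cons (t3 8 15 24) (.cons (t3 24 27 49) (.cons (t2 3 24 27) (.cons a113 (.cons a36 (.cons (t3 15 17 27) (.cons (t1 7 17 27) (.cons (t3 7 15 17) (.cons a318 (.cons a439 (.cons (t3 7 14 15) (.cons (t2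 14 24 39) (.cons a92 .nil)))))))))))))))))))))))))))))))))))))))))))))))))))))) (by decide +kernel)
theorem s1485 : Valid A [2746, 940, 2907, 997, 4954, 2765, 3021, 973, 2475, 2479, 4706, 939, 2786, 4962, 3938, 956, 943, 3171] := rup _
  (.cons (t2 7 21 23) (.cons a506 (.cons (t1 0 7 23) (.cons (t1 7 21 30) (.cons a208 (.cons (t2 7 21 29) (.cons (t3 21 29 38) (.cons s474 (.cons s473 (.cons a130 (.cons s33 (.cons s680 (.cons (t2 11 38 45) (.cons (t3 7 11 38) (.cons (t3 11 21 38) (.cons (t3 11 23 38) (.cons (t2 21 23 36) (.cons (t3 21 30 36) (.cons a34 (.cons a35 (.cons a239 (.cons (t1 23 36 52) (.cons (t2 19 20 21) (.cons s363 (.cons (t2 7 23 52) (.cons (t2 19 23 52) (.cons s116 (.cons (t3 20 22 45) (.cons s325 (.cons a14 (.cons (t3 30 49 52) (.cons a474 (.cons (t1 20 22 30) (.cons (t2 20 49 52) (.cons (t2 20 30 51) (.cons s368 .nil)))))))))))))))))))))))))))))))))))) (by decide +kernel)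
theorem s1486 : Valid A [2907, 2010, 1963, 268, 997, 782, 4954, 2765, 3021, 973, 2475, 2479, 4706, 2218, 354, 1323, 939, 2786, 2778, 4962, 3938, 956, 943, 3171] := rup _
  (.cons (t2 7 21 23) (.cons a506 (.cons (t1 0 7 23) (.cons (t1 21 23 45) (.cons (t2 7 21 45) (.cons a404 (.cons (t1 7 22 45) (.cons s1485 (.cons s1305 (.cons (t1 10 21 29) (.cons (t1 15 21 29) (.cons (t2 21 29 38) (.cons (t1 17 45 49) (.cons a147 (.cons (t1 4 15 29) (.cons a131 (.cons a79 (.cons a99 (.cons (t1 11 23 38) (.cons (t2 7 11 38) (.cons (t2 2 23 45) (.cons (t3 2 22 45) (.cons s343 (.cons (t3 4 17 45) (.cons (t3 4 22 45) (.cons a383 (.cons (t2 2 22 52) (.cons (t3 2 23 52) (.cons a510 (.cons (t3 0 4 22) (.cons (t1 0 11 22) (.cons (t3 11 22 52) (.cons a238 .nil))))))))))))))))))))))))))))))))) (by decide +kernel)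
theorem s1487 : Valid A [2402, 432, 939, 2786, 2736, 1073, 2778, 943, 1327, 1044, 1378, 1340, 3171, 994] := rup _
  (.cons s1115 (.cons (t1 7 24 49) (.cons a64 (.cons (t1 3 7 17) (.cons (t3 7 17 21) (.cons (t3 7 17 23) (.cons (t3 7 10 23) (.cons (t1 7 10 17) (.cons (t1 10 23 30) (.cons (t2 7 23 30) (.cons (t2 3 7 30) (.cons (t2 7 21 23) (.cons a506 (.cons (t1 0 10 23) (.cons (t2 7 21 45) (.cons s132 (.cons (t2 7 10 21) (.cons (t2 10 21 45) (.cons a208 (.cons (t3 5 7 10) (.cons (t1 10 24 49) (.cons a171 (.cons s46 (.cons (t2 10 23 34) (.cons s988 (.cons (t2 8 24 38) (.cons a162 (.cons (t1 24 30 34) (.cons (t2 8 24 30) (.cons a405 (.cons (t2 8 17 24) (.cons (t1 8 24 49) (.cons (t3 24 38 49) (.cons a169 (.cons s534 (.cons a404 (.cons s1279 (.cons a513 (.cons a468 (.cons s71 (.cons (t3 7 17 18) (.cons (t3 10 17 18) (.cons (t1 17 18 23) (.cons (t1 17 18 30) (.cons (t1 18 30 34) (.cons a181 (.cons (t1 17 30 34) (.cons (t3 8 10 46) (.cons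 (t2 8 24 46) (.cons (t3 8 38 46) (.cons s1448 (.cons a178 (.cons a349 (.cons a345 (.cons (t3 24 36 49) (.cons (t2 10 19 23) (.cons (t1 10 19 46) (.cons (t2 10 19 21) (.cons (t1 10 19 45) (.cons (t3 5 10 19) (.cons s1440 (.cons a173 (.cons (t1 7 10 33) (.cons (t1 7 19 38) (.cons (t2 19 23 38) (.cons (t2 19 21 38) (.cons (t1 19 38 45) (.cons a391 (.cons (t1 30 33 49) (.cons (t3 8 30 33) (.cons (t1 18 30 33) (.cons s148 (.cons s1479 (.cons a304 (.cons (t3 7 8 50) (.cons (t3 7 33 50) (.cons (t2 6 30 49) (.cons (t1 2 6 49) (.cons s712 (.cons a109 (.cons (t2 7 15 21) (.cons (t1 7 15 45) (.cons s1486 (.cons a395 (.cons (t1 10 22 49) (.cons (t1 10 22 24) (.cons (t2 10 22 23) (.cons (t1 7 10 22) (.cons (t1 10 22 30) (.cons (t3 0 10 22) (.cons (t3 10 17 22) (.cons a497 (.cons a227 (.cons a491 (.cons s1308 (.cons a472 (.cons s147 (.cons (t2 0 17 49) (.cons a134 (.cons s31 (.cons (t3 5 30 52) (.cons (t3 6 30 52) (.cons (t3 17 21 29) (.cons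 (t1 19 21 29) (.cons (t1 15 21 29) (.cons a71 (.cons s1420 (.cons (t1 4 15 29) (.cons (t2 2 7 52) (.cons (t2 2 5 52) (.cons (t1 4 19 29) (.cons a99 (.cons a85 (.cons (t3 2 5 45) (.cons a211 (.cons (t2 4 5 45) .nil)))))))))))))))))))))))))))))))))))))))))))))))))))))))))))))))))))))))))))))))))))))))))))))))))))))))))))))))))))) (by decide +kernel)
theorem s1488 : Valid A [2778, 943, 1044, 1378, 1340, 1070, 994] := rup _
  (.cons s1115 (.cons a399 (.cons (t3 7 10 23) (.cons s1431 (.cons (t1 7 24 49) (.cons a405 (.cons s1444 (.cons s1475 (.cons (t1 8 24 49) (.cons (t2 8 17 24) (.cons (t3 8 21 24) (.cons (t3 8 21 49) (.cons s1482 (.cons s1484 (.cons a64 (.cons (t1 3 7 17) (.cons (t1 7 10 17) (.cons s1487 (.cons s80 (.cons a189 (.cons (t2 8 46 49) (.cons (t3 10 17 46) (.cons a181 .nil))))))))))))))))))))))) (by decide +kernel)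
theorem s1489 : Valid A [2402, 270, 1096, 3788, 3811, 1067, 1116, 2779, 3938, 3909, 943, 3042, 1327, 2274, 994] := rup _
  (.cons s1279 (.cons (t3 7 8 21) (.cons (t3 7 21 45) (.cons s132 (.cons a344 (.cons (t2 8 19 21) (.cons a185 (.cons s42 (.cons (t3 7 18 23) (.cons (t3 7 10 23) (.cons (t1 7 10 18) (.cons (t2 7 23 46) (.cons (t2 7 10 46) (.cons (t1 7 46 49) (.cons s46 (.cons (t2 10 23 34) (.cons a513 (.cons a468 (.cons s138 (.cons (t1 17 18 30) (.cons a181 (.cons (t1 8 17 30) (.cons (t1 17 30 34) (.cons (t2 8 17 21) (.cons (t1 8 17 18) (.cons (t2 8 21 30) (.cons (t2 17 21 34) (.cons (t1 8 18 19) (.cons (t1 8 18 36) (.cons a223 (.cons a349 (.cons a483 (.cons (t1 21 34 52) (.cons (t2 10 19 23) (.cons (t2 10 19 46) (.cons (t1 7 23 36) (.cons (t1 23 36 49) (.cons a175 (.cons s777 (.cons (t2 23 38 46) (.cons (t2 10 38 46) (.cons (t1 11 29 49) (.cons a158 (.cons a130 (.cons (t1 21 34 38) (.cons (t1 34 38 52) (.cons (t2 11 23 38) (.cons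 (t3 11 21 38) (.cons (t2 11 38 52) (.cons a34 (.cons a238 (.cons (t3 20 21 45) (.cons (t1 7 23 52) (.cons (t1 19 23 52) (.cons a29 (.cons (t2 7 20 52) (.cons a15 .nil))))))))))))))))))))))))))))))))))))))))))))))))))))))))) (by decide +kernel)
theorem s1490 : Valid A [2907, 4954, 3021, 1357, 3788, 954, 2760, 5858, 986, 2779, 943, 994] := rup _
  (.cons (t3 21 36 45) (.cons (t1 7 22 45) (.cons (t2 22 45 49) (.cons s376 (.cons s474 (.cons a130 (.cons (t3 10 11 38) (.cons (t2 11 38 45) (.cons (t3 11 23 38) (.cons a389 (.cons a379 (.cons a239 (.cons (t3 11 28 36) (.cons (t2 7 23 52) (.cons a487 (.cons s131 (.cons (t2 21 28 45) (.cons s99 .nil)))))))))))))))))) (by decide +kernel)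
theorem s1491 : Valid A [1357, 3788, 954, 2760, 5858, 986, 3811, 1322, 2779, 943, 1327, 1378, 994] := rup _
  (.cons (t3 21 36 45) (.cons s13 (.cons (t3 10 21 45) (.cons (t3 7 10 23) (.cons (t1 7 10 38) (.cons (t2 10 23 38) (.cons (t1 10 38 45) (.cons s1490 (.cons a395 (.cons (t1 10 22 49) (.cons (t1 7 10 22) (.cons a491 (.cons a227 (.cons (t3 0 7 22) (.cons (t1 7 23 52) (.cons a384 (.cons (t3 7 11 23) (.cons (t1 7 10 11) (.cons (t3 7 11 38) (.cons a238 (.cons a130 (.cons s67 (.cons (t1 11 29 49) (.cons (t3 11 28 49) (.cons a387 (.cons s727 (.cons (t1 28 36 49) (.cons s986 (.cons (t2 10 28 36) .nil))))))))))))))))))))))))))))) (by decide +kernel)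
theorem s1492 : Valid A [2343, 1356, 2372, 1373, 1348] := rup _
  (.cons s72 (.cons (t1 18 19 34) (.cons s344 .nil))) (by decide +kernel)
theorem s1493 : Valid A [1059, 2510, 4943, 2231, 3919, 3514, 3150, 268, 273, 1108, 3811, 1062, 1067, 3171] := rup _
  (.cons (t3 2 6 8) (.cons (t2 8 17 21) (.cons (t1 8 17 19) (.cons (t1 8 17 42) (.cons (t1 2 8 17) (.cons (t3 6 8 17) (.cons a333 (.cons (t1 17 27 42) (.cons (t2 17 21 39) (.cons (t3 17 38 39) (.cons (t3 6 17 39) (.cons a126 (.cons (t3 21 30 39) (.cons (t3 21 38 39) (.cons (t1 2 17 38) (.cons a300 (.cons (t2 29 42 49) (.cons a223 (.cons (t1 21 38 52) (.cons (t2 2 38 52) (.cons (t1 6 24 49) (.cons a235 (.cons a71 (.cons (t2 6 49 52) .nil)))))))))))))))))))))))) (by decide +kernel)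
theorem s1494 : Valid A [433, 1319, 3150, 2003, 5340, 2012, 3126, 4321, 3138, 3917, 4960, 4956, 2380, 2353, 268, 273, 3788, 1108, 3131, 2786, 1062, 1067, 3037, 1116, 3132, 1340, 3171] := rup _
  (.cons s1115 (.cons (t3 24 27 29) (.cons (t3 24 27 49) (.cons a83 (.cons (t1 8 21 43) (.cons a143 (.cons s377 (.cons a45 (.cons (t2 18 24 48) (.cons s166 (.cons (t1 9 33 48) (.cons a250 (.cons (t2 3 24 27) (.cons (t1 9 24 49) (.cons (t1 9 24 29) (.cons s1166 (.cons a36 (.cons (t3 10 30 39) (.cons (t2 30 38 39) (.cons (t1 10 19 39) (.cons s1493 (.cons a181 (.cons (t3 17 23 46) (.cons (t2 17 38 46) (.cons (t1 15 17 46) (.cons (t2 17 41 46) (.cons (t3 15 17 27) (.cons a113 (.cons (t3 15 24 49) (.cons (t2 15 41 49) (.cons (t2 15 24 41) (.cons (t1 21 41 49) (.cons (t3 9 41 49) (.cons a451 (.cons (t1 24 41 43) (.cons (t1 9 41 43) (.cons a282 (.cons a245 (.cons (t3 1 24 41) (.cons (t3 9 11 29) (.cons a130 (.cons (t3 11 30 38) (.cons (t2 11 17 38)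 (.cons a373 (.cons a375 (.cons (t1 16 17 23) (.cons (t2 16 17 41) (.cons a291 (.cons a284 .nil))))))))))))))))))))))))))))))))))))))))))))))))) (by decide +kernel)
theorem s1495 : Valid A [1067, 1072, 943, 1044, 1378, 1340, 1070, 994] := rup _
  (.cons a399 (.cons (t3 7 10 23) (.cons s1279 (.cons s1431 (.cons (t3 8 24 49) (.cons s912 (.cons a185 (.cons s42 (.cons (t1 7 10 18) (.cons (t2 7 23 46) (.cons (t1 7 24 49) (.cons (t3 7 24 46) (.cons (t2 7 10 46) (.cons s1488 (.cons a344 (.cons (t1 10 24 49) (.cons a171 (.cons s46 (.cons (t2 10 23 34) (.cons s988 (.cons (t3 24 38 49) (.cons a162 (.cons (t1 24 30 34) (.cons a169 (.cons s534 (.cons (t1 10 23 49) (.cons (t1 10 23 24) (.cons a404 (.cons a143 (.cons (t3 7 8 21) (.cons (t1 8 21 23) (.cons (t3 8 10 21) (.cons (t1 8 21 45) (.cons (t2 8 19 21) (.cons (t1 8 21 24) (.cons (t1 8 21 49) (.cons (t1 8 21 46) (.cons a134 (.cons s377 (.cons (t3 7 21 45) (.cons (t3 21 23 45) (.cons (t3 10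 21 45) (.cons a359 (.cons (t3 8 24 45) (.cons (t1 8 45 49) (.cons s340 (.cons (t3 7 24 29) (.cons (t1 24 29 38) (.cons s132 (.cons a79 (.cons (t3 21 36 45) (.cons (t2 8 21 36) (.cons a87 (.cons (t3 2 8 45) (.cons s483 (.cons s1489 (.cons (t3 18 24 49) (.cons (t2 18 34 49) (.cons (t2 18 38 49) (.cons s1491 (.cons (t2 7 10 38) (.cons a158 (.cons (t3 10 38 46) (.cons s414 (.cons s104 (.cons (t1 30 34 38) (.cons a429 (.cons s432 (.cons (t1 18 49 50) (.cons (t1 24 49 50) (.cons a110 (.cons a112 (.cons a447 (.cons a448 (.cons s150 (.cons (t3 7 24 33) (.cons (t2 7 33 48) (.cons a434 (.cons a314 (.cons (t3 7 15 46) (.cons (t3 7 41 46) (.cons a95 (.cons (t1 18 24 39) (.cons s1492 (.cons a349 (.cons (t2 10 19 23) (.cons s1494 (.cons a64 (.cons s1440 (.cons (t1 7 36 49) (.cons (t1 10 36 49) (.cons (t1 23 36 49) (.cons s569 (.cons s201 (.cons s986 (.cons s750 (.cons (t1 7 10 11) (.cons s26 (.cons a387 (.cons (t1 21 45 51) (.cons s67 (.cons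 a238 (.cons (t1 7 23 52) (.cons (t1 19 23 52) (.cons a227 (.cons a15 (.cons (t1 7 10 22) (.cons (t3 7 22 23) (.cons (t2 7 20 52) (.cons a395 (.cons a29 (.cons (t2 22 45 51) (.cons (t2 20 24 45) (.cons (t2 20 45 51) (.cons a495 (.cons a22 (.cons (t3 23 24 51) .nil))))))))))))))))))))))))))))))))))))))))))))))))))))))))))))))))))))))))))))))))))))))))))))))))))))))))))))))))))))) (by decide +kernel)
theorem s1496 : Valid A [2343, 2245, 2373, 2365, 2402, 932, 943, 3171, 994] := rup _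
  (.cons a404 (.cons a513 (.cons (t1 7 24 49) (.cons s1445 (.cons s1448 .nil))))) (by decide +kernel)
theorem s1497 : Valid A [2736, 2734, 3034, 1370, 2218, 1314, 1066, 1072, 2779, 3042, 3171] := rup _
  (.cons s202 (.cons s1472 (.cons s942 (.cons (t2 22 23 45) .nil)))) (by decide +kernel)
theorem s1498 : Valid A [2402, 1066, 1116, 1072, 2779, 3938, 3909, 943, 3042, 1327, 3171, 994] := rup _
  (.cons (t3 7 10 23) (.cons s1279 (.cons a185 (.cons s42 (.cons (t1 7 10 18) (.cons (t1 7 24 49) (.cons (t3 7 24 46) (.cons (t1 7 46 49) (.cons (t3 8 24 49) (.cons a344 (.cons a342 (.cons a63 (.cons a404 (.cons a169 (.cons a513 (.cons a468 (.cons s138 (.cons (t1 10 17 18) (.cons (t1 17 18 30) (.cons (t1 18 30 34) (.cons a181 (.cons (t1 17 30 34) (.cons (t1 8 17 21) (.cons s1496 (.cons a349 (.cons a345 (.cons (t2 10 19 23) (.cons (t2 10 19 45) (.cons s769 (.cons (t1 19 23 45) (.cons (t3 19 21 23) (.cons s432 (.cons s1497 (.cons (t3 3 21 24)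 (.cons a64 (.cons s1440 (.cons (t3 24 36 49) (.cons (t1 18 36 49) (.cons (t1 23 36 49) (.cons s142 .nil)))))))))))))))))))))))))))))))))))))))) (by decide +kernel)
theorem s1499 : Valid A [938, 2747, 3021, 1100, 2736, 5858, 1357, 934, 1066, 3164, 989, 2779, 917, 943, 994] := rup _
  (.cons a344 (.cons (t3 19 21 29) (.cons s7 (.cons (t1 7 10 38) (.cons (t3 7 21 23) (.cons (t1 7 10 21) (.cons (t3 7 21 45) (.cons (t3 7 21 46) (.cons (t3 7 21 38) (.cons (t3 7 21 29) (.cons a505 (.cons (t3 10 21 45) (.cons (t1 7 38 45) (.cons s340 (.cons s1188 (.cons (t3 0 7 23) (.cons s1490 (.cons a384 (.cons a395 (.cons (t3 7 11 23) (.cons (t3 7 11 38) (.cons (t1 7 10 22) (.cons a130 (.cons a227 (.cons (t2 11 19 29) (.cons (t3 11 21 29) (.cons (t1 7 23 52) (.cons a34 (.cons a35 (.cons a238 (.cons (t3 20 21 45) (.cons s292 (.cons a29 (.cons (t3 7 19 20) .nil)))))))))))))))))))))))))))))))))) (by decide +kernel)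

end Pool.Agent.Helper50.Canon.CD
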