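import Mathlib
import Pool.Agent.Helper50.Canon.CD.C10

set_option autoImplicit false

namespace Pool.Agent.Helper50.Canon.CD

theorem s1500 : Valid A [6373, 930, 4835, 970, 2214, 2531, 2403] := rup _
  (.cons (t1 18 49 50) (.cons (t1 19 49 50) (.cons (t1 37 49 50) (.cons a435 (.cons (t2 19 39 50) (.cons (t2 37 39 50) (.cons a333 (.cons a121 (.cons (t3 7 17 39) .nil))))))))) (by decide +kernel)
theorem s1501 : Valid A [997, 595, 978, 950, 3147, 305, 554, 2762, 1122, 944, 3171, 912] := rup _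
  (.cons s1296 (.cons s180 (.cons (t1 8 41 49) (.cons (t2 24 27 49) (.cons (t1 2 24 27) (.cons (t2 24 27 37) (.cons (t2 4 41 49) (.cons a76 (.cons (t3 27 35 37) (.cons (t3 27 35 49) (.cons a119 (.cons a416 (.cons (t3 4 21 35) .nil))))))))))))) (by decide +kernel)
theorem s1502 : Valid A [433, 950, 456, 969, 3147, 4835, 602, 554, 2762, 987, 970, 2343, 2403, 1122, 3132, 956, 917, 1340, 3171, 994] := rup _
  (.cons a86 (.cons a88 (.cons s776 (.cons (t3 2 24 49) (.cons a516 (.cons (t3 17 18 19) (.cons (t2 18 19 49) (.cons (t3 18 24 49) (.cons (t1 7 24 49) (.cons s1279 (.cons (t2 3 24 30) (.cons s1187 (.cons a110 (.cons a112 (.cons a447 (.cons a448 (.cons (t3 7 15 45) (.cons a95 (.cons a99 (.cons (t1 4 15 41) (.cons s1501 (.cons a429 (.cons (t1 18 49 50) (.cons s1500 (.cons a434 (.cons (t1 7 17 30) (.cons s1458 .nil))))))))))))))))))))))))))) (by decide +kernel)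
theorem s1503 : Valid A [2343, 2403, 1066, 989, 1072, 2779, 3938, 943, 1327, 1044, 1340, 3171, 994] := rup _
  (.cons a169 (.cons (t2 18 34 49) (.cons (t3 18 24 49) (.cons (t1 7 24 49) (.cons (t3 7 24 46) (.cons (t3 7 10 23) (.cons (t2 7 10 46) (.cons (t3 8 24 49) (.cons a344 (.cons a342 (.cons a63 (.cons a171 (.cons s46 (.cons (t2 10 23 34) (.cons a162 (.cons (t1 24 30 34) (.cons (t1 10 23 30) (.cons (t2 7 23 30) (.cons s1279 (.cons a347 (.cons (t2 18 19 49) (.cons (t2 18 19 24) (.cons s1492 (.cons (t3 19 45 49) (.cons (t1 19 24 45) (.cons (t3 19 21 24) (.cons (t3 8 10 38) (.cons (t1 7 10 38) (.cons (t2 10 23 38) (.cons s202 (.cons a124 (.cons (t2 21 29 45) (.cons (t2 7 23 37) (.cons s1499 (.cons a208 (.cons a210 (.cons (t2 7 10 21) (.cons s568 (.cons (t1 7 21 45) (.cons (t1 7 21 30) (.cons (t2 7 21 38) (.cons (t1 7 21 37) (.cons (t3 5 7 45) (.cons (t1 10 21 29) (.cons (t2 7 29 38) (.cons (t1 7 29 37) (.cons a30 (.cons s177 (.cons a147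 (.cons a131 (.cons (t1 20 21 45) (.cons (t1 20 29 45) (.cons (t3 24 45 51) (.cons (t3 45 49 51) (.cons (t3 20 45 51) (.cons (t1 4 21 29) (.cons (t3 4 29 45) (.cons (t1 11 23 38) (.cons (t2 10 11 38) (.cons (t1 11 21 38) (.cons a33 (.cons a11 (.cons s368 (.cons a22 (.cons (t1 11 20 49) (.cons (t3 19 20 49) (.cons (t2 20 37 49) (.cons (t1 11 20 24) (.cons (t2 20 24 37) (.cons a218 (.cons (t2 11 30 49) (.cons a16 (.cons s231 (.cons (t1 20 49 52) (.cons s147 (.cons a222 (.cons s49 (.cons (t2 7 29 52) (.cons s84 (.cons (t1 7 10 28) (.cons a387 (.cons (t2 11 28 49) (.cons (t2 11 24 28) (.cons (t3 5 11 28) (.cons a368 (.cons s115 (.cons (t3 28 42 49) (.cons (t1 7 21 36) (.cons (t3 3 21 36) (.cons a234 (.cons (t3 29 42 52) (.cons a128 (.cons (t2 7 27 29) (.cons s1502 (.cons (t1 3 7 21) (.cons a64 .nil)))))))))))))))))))))))))))))))))))))))))))))))))))))))))))))))))))))))))))))))))))))))))))))))) (by decide +kernel)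
theorem s1504 : Valid A [1059, 2736, 2734, 3034, 1370, 1066, 1072, 2779, 3042, 1044, 3171] := rup _
  (.cons (t3 8 10 17) (.cons (t1 8 17 21) (.cons s1497 .nil))) (by decide +kernel)
theorem s1505 : Valid A [433, 2003, 2012, 3126, 1322, 1370, 2525, 2479, 1066, 1373, 989, 1116, 1072, 2779, 943, 3042, 2992, 1044, 3171] := rup _
  (.cons s1115 (.cons (t3 24 27 49) (.cons a344 (.cons (t3 19 21 46) (.cons (t3 19 21 23) (.cons a342 (.cons (t1 19 23 45) (.cons (t2 7 23 46) (.cons s85 (.cons a63 (.cons (t1 3 24 49) (.cons (t2 3 23 24) (.cons (t3 3 21 24) (.cons (t2 3 24 27) (.cons s202 (.cons a36 (.cons a136 (.cons s7 (.cons (t1 21 29 40) (.cons (t3 10 21 29) (.cons a505 (.cons (t3 0 7 23) (.cons (t1 0 23 46) (.cons a384 (.cons (t3 7 11 46) (.cons s1504 (.cons a181 (.cons (t3 10 17 46) (.cons (t2 17 21 46) (.cons (t1 15 17 46) (.cons (t3 17 19 46) (.cons (t3 0 17 46) (.cons (t1 11 17 46) (.cons s1472 (.cons (t3 15 17 27) (.cons a511 (.cons (t3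 19 22 23) (.cons (t1 3 22 23) (.cons a113 (.cons (t1 4 10 17) (.cons a339 (.cons a340 (.cons (t3 15 24 49) (.cons (t3 3 15 49) (.cons a146 (.cons (t1 16 17 19) (.cons a56 (.cons (t2 15 24 41) (.cons (t1 3 15 41) (.cons (t2 4 24 29) (.cons (t2 4 29 40) (.cons a375 (.cons (t2 3 16 41) (.cons a7 (.cons (t1 11 16 41) (.cons (t2 24 40 41) (.cons a6 .nil))))))))))))))))))))))))))))))))))))))))))))))))))))))))) (by decide +kernel)
theorem s1506 : Valid A [1072, 943, 1044, 1378, 1340, 1070, 994] := rup _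
  (.cons s1115 (.cons s1488 (.cons a344 (.cons a342 (.cons s1431 (.cons a171 (.cons a399 (.cons s46 (.cons (t2 10 23 34) (.cons a162 (.cons (t1 24 30 34) (.cons a169 (.cons s534 (.cons (t3 7 10 23) (.cons (t1 10 23 49) (.cons (t1 10 24 49) (.cons (t1 10 23 24) (.cons (t1 10 23 30) (.cons (t1 7 24 49) (.cons s1279 (.cons (t3 8 24 49) (.cons s912 (.cons a185 (.cons s42 (.cons (t2 7 10 46) (.cons (t1 7 10 18) (.cons s1495 (.cons s1498 (.cons s1503 (.cons a349 (.cons a345 (.cons (t2 10 19 23) (.cons (t2 10 19 46) (.cons (t2 10 19 45) (.cons (t2 10 19 21) (.cons s769 (.cons (t2 7 19 21) (.cons (t1 19 23 45) (.cons (t3 19 21 23) (.cons a429 (.cons s432 (.cons (t1 24 49 50) (.cons a110 (.cons a112 (.cons a448 (.cons a314 (.cons (t3 7 15 46) (.cons a95 (.cons s1505 (.cons a64 (.cons (t1 3 7 17) (.cons s1440 (.cons (t3 7 17 46) (.cons (t3 24 36 49) (.cons a181 (.cons s1504 (.cons (t1 21 24 49) (.cons (t2 21 24 30) (.cons (t2 21 24 45) (.cons (t1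 21 24 36) (.cons (t2 21 45 49) (.cons (t3 21 30 45) (.cons (t2 24 36 45) (.cons a204 (.cons a380 (.cons (t3 5 21 45) (.cons (t3 5 21 49) (.cons a207 (.cons (t3 11 45 49) (.cons s177 (.cons a215 (.cons s716 (.cons (t2 5 7 11) (.cons (t1 22 45 49) (.cons a384 (.cons a492 (.cons (t3 0 7 23) (.cons (t1 0 21 49) (.cons a505 .nil))))))))))))))))))))))))))))))))))))))))))))))))))))))))))))))))))))))))))))))) (by decide +kernel)
theorem s1507 : Valid A [2907, 973, 2252, 4698, 2237, 2365, 3930, 2266, 5859, 3802, 2748, 2787, 2734, 986, 956, 943] := rup _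
  (.cons (t2 22 29 45) (.cons (t1 17 22 45) (.cons s909 (.cons (t1 22 45 49) (.cons a138 (.cons a222 (.cons a492 (.cons (t2 17 29 30) (.cons (t1 17 29 38) (.cons (t3 21 23 52) (.cons (t1 0 21 49) (.cons s121 (.cons a505 (.cons (t1 11 29 30) (.cons (t3 0 7 23) (.cons a130 (.cons a384 (.cons (t3 7 11 38) .nil)))))))))))))))))) (by decide +kernel)
theorem s1508 : Valid A [2402, 1621, 271, 4954, 3930, 2266, 5859, 3163, 5466, 3802, 2748, 2787, 1062, 3034, 2734, 1370, 986, 399, 1100, 1073, 3938, 943, 1327, 1340, 3171, 994] := rup _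
  (.cons s1115 (.cons (t3 7 10 23) (.cons (t1 3 7 17) (.cons (t1 7 10 17) (.cons (t1 3 7 10) (.cons a405 (.cons (t2 8 17 24) (.cons s46 (.cons (t2 10 23 34) (.cons a162 (.cons (t1 10 23 30) (.cons (t2 7 23 30) (.cons a404 (.cons a513 (.cons a468 (.cons s71 (.cons (t3 7 17 18) (.cons (t3 10 17 18) (.cons (t1 17 18 30) (.cons (t1 18 30 34) (.cons a181 (.cons (t1 17 30 34) (.cons (t2 8 24 46) (.cons (t3 8 38 46) (.cons (t3 8 19 46) (.cons s1496 (.cons a178 (.cons a173 (.cons (t2 17 18 19) (.cons a349 (.cons a345 (.cons (t3 24 36 49) (.cons (t3 24 36 45) (.cons (t1 10 19 38) (.cons (t3 17 19 38) (.cons (t1 7 19 38) (.cons s1440 (.cons (t2 10 23 38) (.cons (t1 3 10 38) (.cons (t1 7 10 33) (.cons a391 (.cons (t1 30 33 49) (.cons s148 (.cons a304 (.cons (t2 2 6 7) (.cons (t3 6 45 49) (.cons s1507 (.cons a395 (.cons s716 (.cons (t1 7 10 22) (.cons s177 (.cons a227 (.cons (t1 5 45 49) (.cons (t2 5 42 45) (.cons (t2 5 38 45) (.cons (t3 5 6 45) (.cons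 (t1 7 23 52) (.cons (t2 2 7 52) (.cons a217 (.cons a198 (.cons (t1 5 6 11) (.cons a71 (.cons (t1 23 38 42) (.cons (t1 3 38 42) (.cons (t3 6 11 52) (.cons (t3 12 23 42) (.cons (t3 3 12 42) (.cons a238 (.cons (t3 11 12 23) (.cons a43 .nil)))))))))))))))))))))))))))))))))))))))))))))))))))))))))))))))))))))) (by decide +kernel)
theorem s1509 : Valid A [5986, 1314, 1058, 1123, 1378] := rup _
  (.cons a189 (.cons (t2 8 46 49) (.cons (t3 10 17 46) (.cons a181 .nil)))) (by decide +kernel)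
theorem s1510 : Valid A [1067, 4954, 1062, 2402, 399, 1100, 1073, 2779, 3938, 943, 1327, 1340, 3171, 994] := rup _
  (.cons (t1 8 24 49) (.cons a61 (.cons (t1 3 7 45) (.cons s132 (.cons (t1 2 8 49) (.cons (t1 3 7 23) (.cons (t1 3 23 45) (.cons a63 (.cons (t3 3 21 23) (.cons (t3 7 10 23) (.cons (t1 3 7 10) (.cons (t1 3 10 45) (.cons a171 (.cons s46 (.cons (t2 10 23 34) (.cons a162 (.cons (t1 24 30 34) (.cons (t2 8 24 30) (.cons a405 (.cons (t2 8 17 24) (.cons a143 (.cons (t1 8 21 45) (.cons (t2 8 21 49) (.cons (t1 8 21 30) (.cons (t3 21 29 45) (.cons a357 (.cons a359 (.cons (t2 8 24 45) (.cons (t2 8 45 49) (.cons (t3 8 17 45) (.cons (t3 8 30 45) (.cons (t3 2 8 45) (.cons a500 (.cons a85 (.cons (t2 8 12 49) (.cons s1508 (.cons a360 .nil))))))))))))))))))))))))))))))))))))) (by decide +kernel)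
theorem s1511 : Valid A [2746, 954, 5858, 3788, 2786, 927, 1357, 935, 1322, 986, 938, 2779, 943, 1327, 1378, 3171, 994] := rup _
  (.cons (t2 10 29 38) (.cons (t1 7 15 45) (.cons (t3 7 10 23) (.cons (t3 21 29 45) (.cons s377 (.cons s1491 (.cons a204 (.cons a207 (.cons (t1 5 7 10) (.cons (t1 5 7 19) (.cons (t1 5 7 15) (.cons a213 (.cons (t3 4 5 10) (.cons (t3 4 5 15) (.cons a146 (.cons a99 (.cons (t2 4 29 45) .nil))))))))))))))))) (by decide +kernel)
theorem s1512 : Valid A [943, 1044, 1378, 1340, 1070, 994] := rup _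
  (.cons s1115 (.cons a399 (.cons (t1 10 23 30) (.cons s1431 (.cons (t1 10 24 49) (.cons (t1 7 24 49) (.cons a405 (.cons a404 (.cons a171 (.cons a169 (.cons s1279 (.cons s46 (.cons (t3 7 10 23) (.cons (t2 7 23 30) (.cons (t2 10 23 34) (.cons a162 (.cons s534 (.cons s988 (.cons (t1 24 30 34) (.cons (t3 24 38 49) (.cons s1488 (.cons a61 (.cons a63 (.cons a342 (.cons a344 (.cons s1506 (.cons (t1 8 24 49) (.cons (t2 8 17 24) (.cons (t2 8 24 30) (.cons (t2 8 24 38) (.cons s1484 (.cons a64 (.cons (t1 3 7 17) (.cons (t1 3 7 10) (.cons (t2 3 7 30) (.cons (t1 3 7 23) (.cons (t1 3 7 21) (.cons (t1 3 7 45) (.cons (t1 7 10 17) (.cons (t3 7 17 23) (.cons (t1 3 10 21) (.cons (t1 3 10 45) (.cons (t3 3 21 23) (.cons s1509 (.cons a191 (.cons s80 (.cons (t3 24 46 49) (.cons (t1 38 46 49) (.cons a513 (.cons a468 (.cons a178 (.cons s874 (.cons (t3 7 17 18) (.cons (t3 10 17 18) (.cons (t1 17 18 23) (.cons (t1 18 30 34) (.cons (t3 24 36 49) (.cons (t1 17 30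 34) (.cons s1440 (.cons s1496 (.cons (t1 7 10 33) (.cons a349 (.cons a345 (.cons a391 (.cons (t3 8 10 19) (.cons (t2 10 19 23) (.cons (t1 10 19 46) (.cons (t3 8 30 33) (.cons (t1 18 30 33) (.cons a173 (.cons s1479 (.cons (t1 10 19 38) (.cons (t1 7 19 38) (.cons (t1 19 38 45) (.cons (t3 19 21 38) (.cons (t2 19 23 38) (.cons (t3 7 8 50) (.cons (t3 7 33 50) (.cons s712 (.cons a109 (.cons s1510 (.cons (t3 8 21 45) (.cons (t3 8 21 49) (.cons s1188 (.cons (t3 8 45 49) (.cons (t2 7 29 38) (.cons s1511 (.cons s7 (.cons (t2 21 29 45) (.cons a505 (.cons (t3 0 7 23) (.cons a384 (.cons (t3 7 11 38) (.cons a130 (.cons (t1 11 29 45) (.cons a380 (.cons a381 (.cons (t2 21 36 45) (.cons s588 (.cons s1490 (.cons s26 (.cons a395 (.cons s942 (.cons (t2 17 21 51) (.cons (t2 10 22 23) (.cons (t1 10 22 30) (.cons (t1 17 30 51) (.cons a497 (.cons a472 .nil)))))))))))))))))))))))))))))))))))))))))))))))))))))))))))))))))))))))))))))))))))))))))))))))))))))))))))))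 (by decide +kernel)
theorem s1513 : Valid A [2343, 2778, 2737, 1044, 1378, 1340, 1070, 994] := rup _
  (.cons s1115 (.cons s1431 (.cons s1279 (.cons a399 (.cons s1512 (.cons (t1 7 10 23) (.cons s936 (.cons a189 (.cons (t3 24 46 49) (.cons (t1 7 46 49) (.cons a185 (.cons (t3 8 24 46) (.cons a404 (.cons s80 (.cons a513 (.cons (t3 3 17 18) (.cons (t1 18 24 49) (.cons (t1 10 24 49) (.cons a171 (.cons a169 (.cons a348 (.cons (t1 18 19 24) (.cons (t3 3 18 19) (.cons s1380 (.cons a45 (.cons (t2 8 24 48) (.cons a520 (.cons s88 (.cons (t2 10 23 34) (.cons a162 (.cons s534 (.cons s988 (.cons s874 (.cons (t1 24 30 34) (.cons a468 (.cons (t3 24 38 46) (.cons (t1 17 30 34) (.cons (t1 18 30 34) (.cons s1437 .nil))))))))))))))))))))))))))))))))))))))) (by decide +kernel)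
theorem s1514 : Valid A [3168, 2342, 1073, 4706, 2402, 916, 1327, 1378, 3171, 1070] := rup _
  (.cons a169 (.cons (t3 24 48 49) (.cons (t2 8 24 48) (.cons a479 (.cons a520 (.cons (t3 23 36 48) (.cons s88 (.cons a484 (.cons (t2 10 23 34) (.cons (t2 10 18 23) (.cons s534 (.cons a349 (.cons a468 (.cons (t3 7 10 19) (.cons s129 .nil))))))))))))))) (by decide +kernel)
theorem s1515 : Valid A [2907, 2792, 1336, 935, 987, 5858, 1114, 14, 2787, 2737, 1067, 942, 3042, 1327] := rup _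
  (.cons (t1 21 49 52) (.cons a32 (.cons (t1 7 19 20) (.cons (t3 7 23 45) (.cons (t2 22 23 45) (.cons (t3 7 22 45) (.cons (t2 22 45 49) (.cons a227 (.cons s630 (.cons (t1 7 45 52) (.cons (t1 7 19 52) (.cons s784 (.cons a14 (.cons (t2 10 11 23) (.cons s83 (.cons (t2 20 21 52) (.cons a387 (.cons (t2 11 20 28) (.cons a33 (.cons (t1 11 21 49) (.cons (t1 11 21 24) (.cons (t3 8 11 21) (.cons (t2 11 28 49) (.cons (t2 11 24 28) (.cons (t1 8 11 28) (.cons a368 (.cons (t3 28 42 49) (.cons (t2 8 28 42) (.cons a234 (.cons a356 (.cons (t2 42 45 52) .nil))))))))))))))))))))))))))))))) (by decide +kernel)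
theorem s1516 : Valid A [2778, 1067, 1044, 1378, 1340, 1070, 994] := rup _
  (.cons s1115 (.cons s1512 (.cons (t1 8 21 23) (.cons s1279 (.cons (t3 7 8 21) (.cons s294 (.cons a399 (.cons (t1 7 10 23) (.cons s936 (.cons a189 (.cons (t1 7 46 49) (.cons a185 (.cons s1431 (.cons (t3 24 46 49) (.cons a179 (.cons (t2 8 36 46) (.cons (t1 8 21 36) (.cons s912 (.cons (t2 8 21 49) (.cons (t3 8 24 46) (.cons (t2 8 21 24) (.cons (t3 8 10 21) (.cons a178 (.cons (t3 24 36 49) (.cons a404 (.cons s80 (.cons a513 (.cons (t3 3 17 18) (.cons (t1 10 23 49) (.cons (t1 10 23 30) (.cons (t1 7 24 49) (.cons (t2 8 21 45) (.cons (t3 21 45 49) (.cons s1513 (.cons s1514 (.cons a45 (.cons a64 (.cons s156 (.cons (t1 3 7 18) (.cons (t3 7 23 45) (.cons (t3 7 10 45) (.cons s193 (.cons a345 (.cons a349 (.cons (t2 10 18 23) (.cons (t1 10 18 30) (.cons a484 (.cons a468 (.cons (t2 10 23 36) (.cons (t3 21 30 49) (.cons (t2 30 45 49) (.cons s986 (.cons a223 (.cons (t1 21 49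 52) (.cons s1515 (.cons s716 (.cons s177 (.cons (t2 5 21 45) (.cons (t2 5 10 45) (.cons (t2 5 45 49) (.cons s201 (.cons s133 (.cons (t2 7 36 45) (.cons (t3 10 11 23) (.cons a387 (.cons a380 (.cons a382 (.cons s67 (.cons (t2 5 11 45) (.cons (t1 11 28 36) (.cons a238 (.cons a215 (.cons a487 (.cons (t3 23 45 52) (.cons (t2 11 28 49) (.cons (t2 21 24 28) (.cons (t1 8 21 28) (.cons a368 (.cons (t3 28 42 49) (.cons (t2 8 28 42) (.cons a234 (.cons a356 (.cons (t2 42 45 52) .nil))))))))))))))))))))))))))))))))))))))))))))))))))))))))))))))))))))))))))))))))))) (by decide +kernel)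
theorem s1517 : Valid A [969, 2350, 932, 942] := rup _
  (.cons (t3 7 23 36) (.cons (t3 7 18 36) (.cons a483 .nil))) (by decide +kernel)
theorem s1518 : Valid A [2343, 3169, 399, 2779, 2760, 2787, 2734, 938, 3144, 2402, 962, 942, 1327, 3171, 994] := rup _
  (.cons s1115 (.cons (t1 7 10 23) (.cons a404 (.cons a513 (.cons (t3 3 17 18) (.cons (t1 3 7 18) (.cons s193 (.cons (t3 10 19 23) (.cons (t2 24 48 49) (.cons (t2 3 7 33) (.cons (t3 21 36 45) (.cons (t2 21 45 49) (.cons s294 (.cons (t1 7 24 49) (.cons a171 (.cons (t1 17 18 19) (.cons (t2 18 19 23) (.cons a335 (.cons (t2 18 19 39) (.cons s1517 (.cons (t2 3 7 36) (.cons s413 (.cons s569 (.cons s201 (.cons a52 (.cons (t3 24 33 49) (.cons (t3 24 33 48) (.cons a383 (.cons (t1 5 21 49) (.cons s148 (.cons s176 (.cons a216 (.cons a304 (.cons (t2 33 34 36) (.cons (t1 11 21 49) (.cons (t1 11 45 49) (.cons (t3 6 24 49) (.cons (t3 6 48 49) (.cons (t2 0 11 21) (.cons a379 (.cons a301 (.cons a262 (.cons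 a505 (.cons (t1 0 11 36) (.cons (t3 24 39 49) (.cons (t1 9 24 48) (.cons (t3 0 10 23) (.cons (t2 0 18 23) (.cons (t3 0 18 36) (.cons (t2 0 10 36) (.cons a250 (.cons (t1 18 33 36) (.cons (t3 10 34 36) (.cons (t2 9 18 33) (.cons (t1 9 33 34) (.cons a160 (.cons (t2 9 34 38) (.cons a265 (.cons s676 (.cons a429 (.cons (t3 18 49 50) (.cons (t3 39 49 50) (.cons a433 .nil))))))))))))))))))))))))))))))))))))))))))))))))))))))))))))))) (by decide +kernel)
theorem s1519 : Valid A [1067, 1044, 1378, 1340, 1070, 994] := rup _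
  (.cons s1115 (.cons s1279 (.cons a399 (.cons s1512 (.cons (t1 7 10 23) (.cons s936 (.cons a189 (.cons (t1 7 46 49) (.cons a185 (.cons s912 (.cons s1431 (.cons (t3 24 46 49) (.cons (t3 8 24 46) (.cons a179 (.cons (t2 8 36 46) (.cons a178 (.cons (t3 24 36 49) (.cons a404 (.cons s80 (.cons a513 (.cons (t3 3 17 18) (.cons s864 (.cons s150 (.cons (t1 10 23 30) (.cons (t1 7 24 49) (.cons (t3 7 8 21) (.cons (t1 8 21 23) (.cons (t3 8 10 21) (.cons (t2 8 21 24) (.cons (t2 8 21 49) (.cons (t1 8 21 36) (.cons a500 (.cons (t2 8 12 49) (.cons s1516 (.cons a63 (.cons (t1 8 21 45) (.cons (t3 21 23 45) (.cons (t2 21 24 45) (.cons (t2 21 45 49) (.cons (t3 21 36 45) (.cons (t3 3 21 24) (.cons a357 (.cons a359 (.cons a64 (.cons s145 (.cons (t2 24 42 45) (.cons (t3 42 45 49) (.cons a360 (.cons (t2 3 7 23) (.cons (t1 3 7 18) (.cons s193 (.cons s1518 (.cons a349 (.cons (t2 10 18 23) (.cons (t1 10 18 30) (.cons a484 (.cons a468 (.cons (t2 10 23 36) (.cons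 s750 (.cons s986 (.cons (t2 10 11 23) (.cons s751 (.cons a387 (.cons (t1 30 49 52) (.cons s67 (.cons a234 (.cons a238 (.cons s97 (.cons (t1 12 42 52) (.cons (t3 3 23 52) (.cons a367 (.cons (t1 11 12 52) (.cons (t1 3 12 52) (.cons (t3 3 24 28) (.cons a40 (.cons (t1 3 11 28) .nil)))))))))))))))))))))))))))))))))))))))))))))))))))))))))))))))))))))))))))) (by decide +kernel)
theorem s1520 : Valid A [433, 3150, 2254, 1073, 3165, 1327, 1328, 3171, 1070] := rup _
  (.cons a171 (.cons a45 (.cons (t2 3 24 34) (.cons (t2 3 10 24) (.cons (t2 3 24 39) (.cons (t2 8 24 48) (.cons a520 (.cons s88 (.cons (t2 10 23 34) (.cons s874 (.cons s844 (.cons (t1 17 30 39) (.cons a48 .nil))))))))))))) (by decide +kernel)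
theorem s1521 : Valid A [3939, 1221, 399, 482, 5090, 2382, 1316, 932, 2402, 1378, 4450, 994] := rup _
  (.cons s534 (.cons s969 (.cons a160 (.cons (t3 10 18 34) (.cons (t2 3 7 39) (.cons (t2 9 34 38) (.cons (t2 9 18 34) (.cons a265 (.cons s676 (.cons a429 (.cons (t1 7 39 50) (.cons (t3 18 49 50) (.cons a433 .nil))))))))))))) (by decide +kernel)
theorem s1522 : Valid A [1348, 2493, 2365, 1221, 2524, 3165, 1328, 1340, 3140] := rup _
  (.cons a162 (.cons s988 (.cons (t3 9 30 34) (.cons (t3 24 38 46) (.cons (t3 9 18 30) (.cons (t3 9 19 30) (.cons a173 (.cons a267 (.cons (t1 9 19 38) .nil))))))))) (by decide +kernel)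
theorem s1523 : Valid A [2343, 1044, 1378, 1340, 1070, 994] := rup _
  (.cons s1115 (.cons s1431 (.cons s1279 (.cons a399 (.cons s1512 (.cons (t1 7 10 23) (.cons s936 (.cons a189 (.cons (t3 24 46 49) (.cons (t1 7 46 49) (.cons a185 (.cons (t3 8 24 46) (.cons a404 (.cons s80 (.cons a513 (.cons (t3 3 17 18) (.cons a178 (.cons s864 (.cons s150 (.cons (t1 10 24 49) (.cons (t1 7 24 49) (.cons a171 (.cons a169 (.cons a348 (.cons a350 (.cons s72 (.cons (t1 17 18 19) (.cons (t3 10 18 23) (.cons a335 (.cons a336 (.cons s1517 (.cons (t2 18 19 39) (.cons s413 (.cons (t3 24 33 49) (.cons s148 (.cons a304 (.cons (t3 6 24 49) (.cons a301 (.cons (t3 24 39 49) (.cons s1520 (.cons (t3 3 24 49) (.cons a64 (.cons s145 (.cons (t3 24 33 48) (.cons (t1 6 24 48) (.cons s176 (.cons a262 (.cons (t1 9 24 48) (.cons a250 (.cons (t1 9 33 34) (.cons s1521 (.cons a468 (.cons (t3 3 18 30) (.cons (t2 18 19 30) (.cons s1522 (.cons a160 (.cons (t3 10 18 34) (.cons (t2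 9 34 38) (.cons (t2 9 18 34) (.cons a265 (.cons s676 (.cons a429 (.cons (t2 3 7 50) (.cons (t3 18 49 50) (.cons s137 .nil))))))))))))))))))))))))))))))))))))))))))))))))))))))))))))))))) (by decide +kernel)
theorem s1524 : Valid A [2907, 98, 2734, 2266, 3034, 5858, 2786, 3042, 3171] := rup _
  (.cons (t2 22 23 45) (.cons (t2 22 45 49) (.cons (t1 17 22 45) (.cons s1109 .nil)))) (by decide +kernel)
theorem s1525 : Valid A [2906, 1322, 987, 938, 2748, 956, 916, 1340] := rup _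
  (.cons (t3 7 10 45) (.cons a395 (.cons (t2 7 22 45) (.cons (t1 10 22 30) (.cons s991 (.cons a222 (.cons (t3 10 21 52) (.cons (t3 7 21 52) (.cons s109 .nil))))))))) (by decide +kernel)
theorem s1526 : Valid A [2734, 2266, 3162, 987, 938, 2778, 2748, 956, 2223, 1315, 2736, 916, 1327, 1340, 2224] := rup _
  (.cons (t2 10 21 23) (.cons (t2 17 21 23) (.cons s1525 (.cons (t2 22 24 45) (.cons s1343 (.cons (t1 17 22 45) (.cons a134 (.cons s1308 .nil)))))))) (by decide +kernel)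
theorem s1527 : Valid A [433, 2225] := rup _
  (.cons s1115 (.cons (t3 3 17 24) .nil)) (by decide +kernel)
theorem s1528 : Valid A [438, 2230] := rup _
  (.cons s1115 (.cons a36 .nil)) (by decide +kernel)
theorem s1529 : Valid A [421, 2213] := rup _
  (.cons s1115 (.cons (t3 3 17 18) .nil)) (by decide +kernel)
theorem s1530 : Valid A [401, 1059] := rup _
  (.cons s1115 (.cons (t1 3 8 17) .nil)) (by decide +kernel)
theorem s1531 : Valid A [405, 1315] := rup _
  (.cons s1115 (.cons (t1 3 10 17) .nil)) (by decide +kernel)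
theorem s1532 : Valid A [427, 2219] := rup _
  (.cons s1115 (.cons (t3 3 17 21) .nil)) (by decide +kernel)
theorem s1533 : Valid A [483, 2275] := rup _
  (.cons s1115 (.cons (t3 3 17 49) .nil)) (by decide +kernel)
theorem s1534 : Valid A [931, 399] := rup _
  (.cons s1115 (.cons (t1 3 7 17) .nil)) (by decide +kernel)
theorem s1535 : Valid A [477, 2269] := rup _
  (.cons s1115 (.cons (t3 3 17 46) .nil)) (by decide +kernel)
theorem s1536 : Valid A [2237, 445] := rup _
  (.cons s1115 (.cons (t3 3 17 30) .nil)) (by decide +kernel)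
theorem s1537 : Valid A [2255, 463] := rup _
  (.cons s1115 (.cons (t3 3 17 39) .nil)) (by decide +kernel)
theorem s1538 : Valid A [2907, 3131, 2266, 3162, 2224] := rup _
  (.cons (t2 22 24 45) (.cons (t1 17 22 45) (.cons s1308 .nil))) (by decide +kernel)
theorem s1539 : Valid A [2746, 20, 2266, 1370, 3162, 2786, 2736, 1378, 3171] := rup _
  (.cons a405 (.cons a134 (.cons s377 (.cons s13 (.cons s1538 (.cons a395 (.cons (t1 10 22 49) (.cons (t3 0 10 22) (.cons a491 .nil))))))))) (by decide +kernel)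
theorem s1540 : Valid A [2534, 2477, 2862, 2523, 3930, 1370, 3004, 1340] := rup _
  (.cons (t1 19 45 51) (.cons (t1 19 22 51) (.cons s264 (.cons a495 .nil)))) (by decide +kernel)
theorem s1541 : Valid A [938, 2778, 956, 3939, 2223, 3016, 1315, 2530, 935, 399, 2786, 2736, 1123, 4706, 916, 1327, 1378, 1340, 944, 3171, 912] := rup _
  (.cons (t1 21 30 49) (.cons (t1 7 19 24) (.cons s1534 (.cons (t1 10 23 49) (.cons (t1 10 23 30) (.cons a405 (.cons s156 (.cons a32 (.cons (t3 7 24 45) (.cons (t3 7 8 45) (.cons (t3 7 10 45) (.cons (t3 7 17 45) (.cons (t3 7 30 45) (.cons (t2 7 19 45) (.cons (t1 7 19 20) (.cons s1526 (.cons a506 (.cons (t3 10 21 23) (.cons (t2 21 23 36) (.cons (t3 17 21 23) (.cons (t1 0 10 23) (.cons s680 (.cons s1539 (.cons (t1 17 21 29) (.cons (t2 21 23 29) (.cons (t1 10 21 29) (.cons a140 (.cons (t1 22 23 29) (.cons (t2 10 22 29) (.cons a395 (.cons (t3 7 22 45) (.cons (t3 19 22 45) (.cons a227 (.cons (t1 7 19 52) (.cons a14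 (.cons s83 (.cons s1540 (.cons s25 (.cons (t3 19 49 51) (.cons (t3 19 24 51) (.cons (t3 19 20 51) (.cons (t1 5 7 19) (.cons s368 (.cons a22 (.cons a207 (.cons (t3 8 20 49) (.cons (t2 20 23 49) (.cons (t3 20 30 49) (.cons (t2 20 49 52) (.cons (t1 20 24 28) (.cons (t3 5 17 21) (.cons a27 (.cons (t3 20 23 52) (.cons a235 (.cons (t3 16 20 30) (.cons (t2 24 42 49) (.cons (t2 8 42 49) (.cons s596 (.cons a367 (.cons a356 (.cons (t2 11 21 49) (.cons (t1 10 42 45) (.cons s924 (.cons (t1 10 28 42) .nil)))))))))))))))))))))))))))))))))))))))))))))))))))))))))))))))) (by decide +kernel)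
theorem s1542 : Valid A [2907, 3904, 4194, 98, 3131, 474, 939, 5090, 2254, 956, 1315, 2364, 2351, 2786, 1123, 1073, 3144, 2402, 942, 3042, 3004, 1327, 3171] := rup _
  (.cons (t1 7 21 23) (.cons a468 (.cons a404 (.cons a513 (.cons (t1 17 18 23) (.cons a484 (.cons a405 (.cons a396 (.cons a398 (.cons (t1 3 22 45) (.cons (t1 10 23 45) (.cons (t1 10 17 45) (.cons (t3 10 22 23) (.cons (t1 10 17 22) (.cons s1538 (.cons s1524 (.cons s1109 (.cons (t1 8 24 45) (.cons (t3 24 36 45) (.cons (t3 8 22 49) (.cons (t3 22 30 49) (.cons (t2 22 32 49) (.cons a357 (.cons a359 (.cons s750 (.cons (t1 8 22 42) (.cons a474 (.cons a475 (.cons a363 (.cons (t3 42 45 49) (.cons (t1 11 18 23) (.cons (t1 11 17 23) (.cons a464 (.cons a495 (.cons s476 (.cons (t2 32 42 51) (.cons (t3 7 23 51) (.cons (t1 11 30 49) (.cons (t1 7 42 51) (.cons s231 (.cons (t1 30 49 52) (.cons s147 (.cons a234 (.cons (t3 7 42 52) .nil)))))))))))))))))))))))))))))))))))))))))))) (by decide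 +kernel)
theorem s1543 : Valid A [2266, 3930, 5858, 2906, 2746, 939, 956, 2223, 1315, 2786, 2736, 942, 1327, 1378, 1340, 3171] := rup _
  (.cons (t2 24 45 49) (.cons (t2 7 21 29) (.cons s377 (.cons a208 (.cons (t1 7 10 23) (.cons (t1 10 23 30) (.cons (t1 17 23 45) (.cons (t2 10 17 45) (.cons s1539 (.cons s716 (.cons a395 (.cons (t2 0 7 10) (.cons s177 (.cons (t3 7 10 22) (.cons (t1 10 22 30) (.cons s474 (.cons (t2 5 10 45) (.cons (t2 5 45 49) (.cons s325 (.cons (t3 11 29 49) (.cons s133 (.cons s480 (.cons a215 (.cons (t3 7 23 52) (.cons (t3 10 11 23) (.cons (t1 5 11 52) (.cons a238 .nil))))))))))))))))))))))))))) (by decide +kernel)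
theorem s1544 : Valid A [2760, 939, 4424, 450, 3169, 3144, 944, 3140] := rup _
  (.cons a45 (.cons a64 (.cons (t1 3 7 21) (.cons (t2 7 21 36) (.cons (t2 3 21 36) (.cons s413 (.cons a52 (.cons (t3 24 33 48) (.cons (t2 33 34 36) (.cons s176 .nil)))))))))) (by decide +kernel)
theorem s1545 : Valid A [1000, 2496, 3904, 939, 956, 935] := rup _
  (.cons s147 (.cons (t1 7 19 52) (.cons (t3 30 32 52) (.cons a230 .nil)))) (by decide +kernel)
theorem s1546 : Valid A [5858, 2906, 3904, 2746, 4698, 939, 2778, 2236, 3939, 2223, 2380, 1315, 935, 3169, 2786, 2736, 1123, 4706, 2213, 962, 942, 1327, 1378, 1340, 3171, 994] := rup _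
  (.cons s377 (.cons a134 (.cons (t2 7 21 45) (.cons s132 (.cons (t1 21 30 49) (.cons (t2 24 48 49) (.cons (t3 30 48 49) (.cons (t1 7 30 49) (.cons (t3 24 30 49) (.cons (t2 17 18 38) (.cons (t1 7 10 23) (.cons s1529 (.cons (t1 7 24 49) (.cons a45 (.cons a64 (.cons (t1 3 7 18) (.cons s193 (.cons (t3 10 19 23) (.cons a405 (.cons (t2 8 45 49) (.cons (t2 30 45 49) (.cons a79 (.cons s727 (.cons s1543 (.cons a87 (.cons (t2 2 21 45) (.cons (t2 8 11 49) (.cons (t1 11 30 49) (.cons (t1 11 29 49) (.cons (t2 17 23 45) (.cons (t2 17 18 45) (.cons (t3 17 38 45) (.cons (t2 17 22 45) (.cons s483 (.cons (t1 22 23 45) (.cons (t3 2 18 45) (.cons s1308 (.cons (t3 2 6 18) (.cons (t1 22 24 30) (.cons a474 (.cons a475 (.cons a464 (.cons a495 (.cons (t3 23 32 51) (.cons (t3 19 23 32) (.cons s1545 (.cons (t3 7 30 52) (.cons (t2 7 19 52) (.cons (t3 2 7 52) (.cons (t3 7 33 52) (.cons s681 (.cons a15 (.cons a71 (.cons (t3 6 30 49) (.cons (t3 6 30 48) (.cons (t2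 7 20 52) (.cons (t2 6 33 52) (.cons a29 (.cons a310 (.cons (t2 20 38 45) (.cons (t1 8 20 45) (.cons (t3 24 33 49) (.cons (t3 29 33 49) (.cons a251 (.cons a252 (.cons (t1 9 29 33) (.cons (t3 9 24 48) (.cons a261 (.cons (t1 6 9 18) (.cons a265 (.cons (t3 9 29 38) (.cons a130 (.cons (t2 11 17 38) (.cons (t2 11 20 38) (.cons s401 (.cons (t1 11 16 20) (.cons (t3 8 11 16) (.cons a25 .nil)))))))))))))))))))))))))))))))))))))))))))))))))))))))))))))))))))))))))))))) (by decide +kernel)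
theorem s1547 : Valid A [2746, 2778, 5090, 2380, 1315, 2364, 2351, 935, 3169, 1066, 1123, 1073, 3144, 2402, 962, 942, 1327, 1378, 1340, 3171, 994] := rup _
  (.cons a171 (.cons (t1 7 24 49) (.cons a45 (.cons a64 (.cons (t2 3 7 33) (.cons a484 (.cons (t2 10 23 36) (.cons a169 (.cons a468 (.cons s534 (.cons (t1 10 34 36) (.cons s1279 (.cons (t1 7 10 23) (.cons (t3 24 36 49) (.cons (t3 8 21 24) (.cons (t3 8 21 49) (.cons (t1 7 19 49) (.cons a404 (.cons a513 (.cons (t1 17 18 23) (.cons (t1 7 30 49) (.cons s1541 (.cons s1544 (.cons (t1 21 36 45) (.cons (t2 7 21 45) (.cons (t2 3 7 45) (.cons a208 (.cons s1529 (.cons (t3 3 24 49) (.cons (t1 3 30 49) (.cons s139 (.cons (t2 17 18 39) (.cons (t3 8 30 49) (.cons (t2 17 18 30) (.cons (t1 10 23 49) (.cons (t1 10 23 30) (.cons a142 (.cons a134 (.cons s377 (.cons (t2 7 21 29) (.cons (t2 8 29 30) (.cons a151 (.cons s13 (.cons (t3 29 32 49) (.cons (t1 29 30 32) (.cons s1542 (.cons s1546 (.cons (t1 10 45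 49) (.cons (t1 23 45 49) (.cons (t3 30 45 49) (.cons (t3 22 45 49) (.cons a395 (.cons s750 (.cons (t1 22 30 45) (.cons a491 (.cons (t2 10 22 23) (.cons (t3 7 10 22) (.cons (t2 10 11 23) (.cons (t3 0 10 22) (.cons (t2 0 7 22) (.cons a497 (.cons (t2 0 10 11) (.cons s474 (.cons a472 (.cons a383 (.cons (t3 11 29 49) (.cons s31 (.cons (t3 5 7 11) (.cons (t3 5 30 49) (.cons a215 .nil)))))))))))))))))))))))))))))))))))))))))))))))))))))))))))))))))))))) (by decide +kernel)
theorem s1548 : Valid A [3034, 1506, 3930, 5858, 14, 47, 2906, 4698, 654, 3016, 3004] := rup _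
  (.cons s716 (.cons s750 (.cons s177 (.cons (t2 0 11 23) (.cons (t2 5 45 49) (.cons a383 (.cons a215 (.cons (t3 5 7 11) .nil)))))))) (by decide +kernel)
theorem s1549 : Valid A [3035, 47, 2906, 2747, 2218, 2223, 2786, 3042] := rup _
  (.cons (t1 17 23 45) (.cons (t1 22 23 45) (.cons (t2 17 22 45) (.cons s630 (.cons s203 (.cons (t1 21 22 49) .nil)))))) (by decide +kernel)
theorem s1550 : Valid A [2778, 5090, 2380, 1315, 2364, 2351, 935, 3169, 1066, 1123, 1073, 3144, 2402, 962, 942, 1327, 1378, 1340, 3171, 994] := rup _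
  (.cons a484 (.cons (t2 10 23 36) (.cons a169 (.cons a468 (.cons s534 (.cons (t1 10 34 36) (.cons (t1 7 30 49) (.cons a404 (.cons a513 (.cons (t1 17 18 23) (.cons (t1 7 19 49) (.cons (t1 7 24 49) (.cons a45 (.cons a64 (.cons (t2 3 7 33) (.cons s1534 (.cons (t3 8 21 49) (.cons (t3 8 21 24) (.cons (t3 24 36 49) (.cons (t1 7 10 23) (.cons (t1 10 23 49) (.cons a171 (.cons s1279 (.cons s1541 (.cons a208 (.cons (t1 7 21 23) (.cons (t3 7 17 21) (.cons s1544 (.cons (t1 21 36 45) (.cons s1547 (.cons s7 (.cons s1343 (.cons a505 (.cons (t1 0 7 21) (.cons s1549 (.cons (t2 10 23 45) (.cons s750 (.cons a395 (.cons (t2 0 11 23) (.cons (t2 10 22 23) (.cons (t1 10 22 30) (.cons a383 (.cons a497 (.cons (t1 7 11 49) (.cons (t3 5 7 11) (.cons a472 (.cons a215 (.cons (t2 30 49 51) (.cons s33 .nil))))))))))))))))))))))))))))))))))))))))))))))))) (by decide +kernel)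
theorem s1551 : Valid A [2907, 3131, 3162, 1315, 2224] := rup _
  (.cons a396 (.cons s1538 (.cons (t1 10 17 45) .nil))) (by decide +kernel)
theorem s1552 : Valid A [2734, 2906, 954, 2746, 938, 986, 3930, 2779, 2223, 3016, 2786, 2736, 942, 3004, 1327, 1378, 3171] := rup _
  (.cons s377 (.cons (t1 21 45 49) (.cons (t3 21 24 45) (.cons (t2 10 21 23) (.cons s294 (.cons (t2 17 21 23) (.cons (t3 21 23 45) (.cons (t3 10 21 45) (.cons s474 (.cons (t3 17 21 45) (.cons s716 (.cons (t3 11 29 49) (.cons s1539 (.cons s177 (.cons (t1 0 10 23) (.cons (t3 5 21 45) (.cons (t2 5 7 45) (.cons s1548 (.cons a204 (.cons (t3 21 36 45) .nil)))))))))))))))))))) (by decide +kernel)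
theorem s1553 : Valid A [2746, 938, 986, 2779, 3939, 2223, 3016, 1315, 2786, 2736, 1066, 4706, 942, 3004, 1327, 1378, 944, 3171, 912] := rup _
  (.cons (t1 21 45 49) (.cons (t3 21 24 45) (.cons (t1 21 30 49) (.cons (t3 21 30 45) (.cons (t3 24 30 49) (.cons a405 (.cons a142 (.cons a134 (.cons (t3 7 8 29) (.cons s1551 (.cons (t2 21 22 45) (.cons s1552 (.cons (t2 21 23 45) (.cons (t2 21 23 36) (.cons (t3 17 21 23) (.cons (t3 21 22 23) (.cons (t3 23 36 45) (.cons s680 (.cons (t2 17 21 22) (.cons s727 (.cons a215 (.cons s1308 (.cons s23 (.cons (t1 7 22 24) (.cons (t1 22 24 30) (.cons a475 (.cons a495 (.cons (t1 11 23 51) (.cons s751 (.cons a222 (.cons (t2 22 30 52) (.cons (t3 7 21 52) (.cons a226 .nil))))))))))))))))))))))))))))))))) (by decide +kernel)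
theorem s1554 : Valid A [2907, 42, 5858, 2779, 3042, 1327] := rup _
  (.cons a396 (.cons a398 (.cons (t2 22 45 49) (.cons (t1 10 21 45) (.cons (t3 10 22 23) (.cons (t3 10 21 23) (.cons s630 (.cons a505 .nil)))))))) (by decide +kernel)
theorem s1555 : Valid A [2734, 2906, 2747, 986, 2779, 2748, 956, 2236, 2223, 930, 916, 3004, 1327] := rup _
  (.cons (t2 21 22 45) (.cons (t3 21 30 45) (.cons (t2 10 21 23) (.cons (t2 17 21 23) (.cons (t3 21 23 45) (.cons (t3 10 21 45) (.cons s203 (.cons s716 (.cons a395 (.cons (t3 7 17 22) (.cons (t1 17 22 30) (.cons s177 (.cons s991 (.cons (t3 5 21 45) (.cons (t2 5 10 45) (.cons (t2 5 7 45) (.cons a222 (.cons (t1 5 21 52) (.cons s480 .nil))))))))))))))))))) (by decide +kernel)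
theorem s1556 : Valid A [14, 663, 4698, 46, 2732, 2747, 938, 2779, 2748, 956, 3939, 4706, 942, 3004] := rup _
  (.cons (t3 7 21 29) (.cons (t2 21 29 45) (.cons (t3 21 30 45) (.cons s474 (.cons s784 (.cons (t1 11 21 29) (.cons (t3 11 29 45) (.cons s751 (.cons (t2 5 11 21) (.cons (t2 5 11 45) (.cons a222 (.cons a207 (.cons s177 (.cons (t3 7 21 52) (.cons (t3 21 22 52) (.cons s22 (.cons (t3 30 45 51) (.cons a226 (.cons s169 .nil))))))))))))))))))) (by decide +kernel)
theorem s1557 : Valid A [1044, 1378, 1340, 1070, 994] := rup _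
  (.cons s1431 (.cons (t1 7 24 49) (.cons a404 (.cons s1279 (.cons a399 (.cons (t1 10 23 30) (.cons (t1 10 23 49) (.cons s1512 (.cons s864 (.cons (t1 7 10 23) (.cons s150 (.cons s936 (.cons a189 (.cons s80 (.cons (t3 24 46 49) (.cons (t1 7 46 49) (.cons a513 (.cons a178 (.cons a185 (.cons s1529 (.cons (t3 24 36 49) (.cons (t3 8 24 46) (.cons s912 (.cons s1519 (.cons (t3 8 21 24) (.cons (t3 8 21 49) (.cons s1523 (.cons (t2 17 18 19) (.cons s1514 (.cons a45 (.cons (t3 3 24 49) (.cons a64 (.cons s1534 (.cons (t1 3 7 18) (.cons s193 (.cons a345 (.cons a349 (.cons (t1 7 19 49) (.cons (t1 7 19 46) (.cons (t2 10 18 23) (.cons (t1 10 18 30) (.cons (t3 10 17 18) (.cons s443 (.cons a484 (.cons (t1 17 18 23) (.cons a468 (.cons (t2 17 18 30) (.cons (t1 7 30 49) (.cons (t1 3 30 49) (.cons (t2 30 36 49) (.cons (t1 21 30 49) (.cons s139 (.cons (t2 17 18 39) (.cons a333 (.cons (t1 19 39 49) (.cons s1550 (.cons a61 (.cons a63 (.cons (t3 8 21 45) (.cons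 (t1 21 45 49) (.cons (t1 3 7 45) (.cons (t1 3 7 21) (.cons s1553 (.cons s7 (.cons s1554 (.cons (t2 21 22 45) (.cons s1555 (.cons a506 (.cons (t3 10 21 23) (.cons (t2 21 23 45) (.cons (t2 21 23 36) (.cons (t3 17 21 23) (.cons (t3 23 36 45) (.cons s680 (.cons s727 (.cons a215 (.cons s1556 (.cons a384 (.cons (t2 5 7 11) (.cons a207 (.cons a205 (.cons (t3 5 17 21) (.cons (t1 5 11 36) (.cons s596 (.cons s857 (.cons (t2 16 30 36) (.cons a222 (.cons (t2 30 49 52) (.cons (t1 16 30 52) (.cons a235 (.cons a236 (.cons (t2 16 42 52) (.cons (t2 8 42 49) (.cons a353 (.cons a356 (.cons (t1 36 42 45) .nil)))))))))))))))))))))))))))))))))))))))))))))))))))))))))))))))))))))))))))))))))))))))))))))))) (by decide +kernel)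
theorem s1558 : Valid A [1117, 2992, 1072, 1070] := rup _
  (.cons (t3 8 23 46) (.cons (t3 8 24 46) (.cons a193 .nil))) (by decide +kernel)
theorem s1559 : Valid A [1116, 1045, 1378, 994] := rup _
  (.cons s1279 (.cons a185 (.cons (t1 8 10 46) (.cons (t1 7 46 49) (.cons a189 .nil))))) (by decide +kernel)
theorem s1560 : Valid A [1348, 1356, 997, 1328, 3171] := rup _
  (.cons a171 (.cons s988 (.cons a158 (.cons (t3 24 38 49) (.cons s53 (.cons s414 .nil)))))) (by decide +kernel)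
theorem s1561 : Valid A [1378, 1340, 1070, 994] := rup _
  (.cons s1431 (.cons (t1 7 24 49) (.cons a405 (.cons a171 (.cons s1279 (.cons (t1 10 24 49) (.cons s1557 (.cons (t3 7 8 10) (.cons (t2 8 10 49) (.cons (t2 8 10 24) (.cons s1559 (.cons a187 (.cons s60 (.cons (t3 8 23 46) (.cons (t2 8 10 46) (.cons (t3 8 24 46) (.cons (t1 8 46 49) (.cons s1558 (.cons (t1 8 10 18) (.cons (t1 23 24 49) (.cons (t1 7 23 24) (.cons s864 (.cons s150 (.cons s432 (.cons (t3 7 24 50) (.cons s804 (.cons (t2 10 38 46) (.cons s1560 (.cons s65 (.cons (t1 10 46 48) (.cons s144 (.cons (t2 23 24 48) (.cons (t2 23 48 49) (.cons a45 (.cons a480 (.cons a64 (.cons (t2 24 36 49) (.cons s140 (.cons s1534 (.cons (t2 3 7 8) (.cons (t1 7 36 46) (.cons (t3 7 17 50) (.cons s977 (.cons s413 (.cons (t1 7 18 24) (.cons (t1 17 18 24) (.cons (t2 18 24 50) (.cons (t3 24 33 49) (.cons s193 (.cons s148 (.cons a349 (.cons a304 (.cons (t3 17 18 19) (.cons (t2 18 19 24) (.cons (t3 6 24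 49) (.cons a301 (.cons (t2 18 24 39) (.cons (t2 19 24 39) (.cons a433 (.cons a333 (.cons (t1 17 39 50) .nil))))))))))))))))))))))))))))))))))))))))))))))))))))))))))))) (by decide +kernel)
theorem s1562 : Valid A [433, 2404, 932, 3940, 962, 3909, 3132, 1379, 3171, 994] := rup _
  (.cons (t1 7 10 49) (.cons s193 (.cons a169 (.cons (t2 10 34 49) (.cons (t3 10 24 49) (.cons a404 (.cons a45 (.cons (t2 10 24 48) (.cons s135 (.cons (t3 10 33 49) (.cons s148 (.cons a304 (.cons (t3 6 24 49) (.cons a301 (.cons (t3 24 39 49) (.cons (t2 10 24 39) (.cons s1166 (.cons (t2 30 34 39) (.cons (t1 30 39 50) (.cons a433 (.cons (t2 18 39 49) (.cons (t3 18 30 39) (.cons (t1 10 18 39) (.cons (t3 18 34 39) (.cons a513 (.cons a349 (.cons (t1 17 18 34) (.cons s1445 .nil)))))))))))))))))))))))))))) (by decide +kernel)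
theorem s1563 : Valid A [1067, 1096, 969, 1059, 4706, 399, 2778, 942, 3004, 1072, 1122, 956, 944, 3171, 1070, 912] := rup _
  (.cons a405 (.cons a143 (.cons (t3 7 8 21) (.cons (t1 8 21 23) (.cons (t1 8 21 24) (.cons (t1 8 21 49) (.cons (t2 8 21 45) (.cons (t1 8 21 36) (.cons a134 (.cons s377 (.cons s156 (.cons s294 (.cons s680 (.cons (t1 8 17 45) (.cons (t3 7 24 29) (.cons (t3 7 24 45) (.cons (t3 7 23 45) (.cons (t3 7 30 45) (.cons (t2 7 36 45) (.cons s474 (.cons s1538 (.cons a380 (.cons (t3 11 29 49) (.cons s716 (.cons a215 (.cons s177 (.cons (t2 5 11 45) .nil))))))))))))))))))))))))))) (by decide +kernel)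
theorem s1564 : Valid A [2787, 1480, 355, 268, 2760, 828, 1327, 3938, 1379] := rup _
  (.cons (t3 10 21 49) (.cons (t2 21 30 49) (.cons (t3 2 21 49) (.cons s857 (.cons (t2 2 21 52) (.cons a222 (.cons a71 (.cons (t3 6 30 52) .nil)))))))) (by decide +kernel)
theorem s1565 : Valid A [938, 1116, 2778, 1044, 1340, 1070, 994] := rup _
  (.cons s1279 (.cons a185 (.cons s1431 (.cons (t1 7 24 49) (.cons s1561 (.cons (t3 10 24 49) (.cons (t1 10 24 30) (.cons a169 (.cons (t2 10 34 49) (.cons a162 (.cons (t1 7 10 49) (.cons s50 (.cons s183 (.cons (t3 8 10 49) (.cons s432 (.cons (t3 7 30 50) (.cons s42 (.cons (t3 7 18 50) (.cons s1562 (.cons a64 (.cons s1534 (.cons (t3 7 17 46) (.cons a181 (.cons (t3 8 10 24) (.cons a399 (.cons (t1 10 23 30) (.cons (t3 7 10 23) (.cons s864 (.cons s145 (.cons (t2 24 48 49) (.cons a480 (.cons a190 (.cons s140 (.cons (t3 7 36 46) (.cons (t1 8 36 46) (.cons s1563 (.cons (t1 8 17 21) (.cons (t2 24 46 49) (.cons a192 (.cons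 (t1 10 23 46) (.cons (t2 3 7 8) (.cons s977 (.cons (t1 18 24 49) (.cons a431 (.cons s193 (.cons (t3 10 19 24) (.cons (t2 18 19 24) (.cons a345 (.cons (t2 7 19 46) (.cons a176 (.cons (t2 7 19 50) (.cons (t3 19 38 50) (.cons a329 (.cons (t3 18 38 49) (.cons a266 (.cons (t3 9 18 24) (.cons (t3 7 33 50) (.cons (t3 7 10 50) (.cons (t3 10 18 24) (.cons (t1 9 10 18) (.cons a246 (.cons (t2 9 33 50) (.cons a250 (.cons (t2 24 33 49) (.cons a311 (.cons a304 (.cons (t2 6 7 30) (.cons (t2 10 23 24) (.cons (t2 10 23 49) (.cons (t3 10 30 49) (.cons s156 (.cons (t3 7 21 36) (.cons a86 (.cons a88 (.cons (t1 7 45 49) (.cons (t3 7 17 45) (.cons (t2 7 36 45) (.cons (t1 2 6 7) (.cons s776 (.cons a382 (.cons s1564 (.cons (t1 21 24 49) (.cons (t1 21 23 49) (.cons s202 (.cons s321 (.cons s1305 (.cons (t1 0 23 49) (.cons s354 (.cons a492 .nil))))))))))))))))))))))))))))))))))))))))))))))))))))))))))))))))))))))))))))))))))))))))) (by decide +kernel)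
theorem s1566 : Valid A [1116, 2778, 1044, 1340, 1070, 994] := rup _
  (.cons s1431 (.cons a169 (.cons s1561 (.cons (t2 10 34 49) (.cons a162 (.cons s50 (.cons (t1 7 10 49) (.cons s183 (.cons s1279 (.cons (t3 8 10 49) (.cons s432 (.cons (t3 7 30 50) (.cons (t3 7 33 50) (.cons (t3 7 8 50) (.cons (t3 7 10 50) (.cons a431 (.cons a399 (.cons (t3 7 10 23) (.cons s864 (.cons (t3 10 24 49) (.cons (t2 10 23 24) (.cons a404 (.cons (t2 10 17 49) (.cons (t3 10 17 23) (.cons a192 (.cons (t1 10 23 46) (.cons (t1 10 23 30) (.cons (t3 8 10 24) (.cons (t1 10 24 30) (.cons a190 (.cons (t2 24 46 49) (.cons (t1 7 24 49) (.cons a185 (.cons s42 (.cons s193 (.cons (t3 7 18 50) (.cons (t3 10 19 24) (.cons s1562 (.cons a64 (.cons s145 (.cons s1534 (.cons (t2 3 7 8) (.cons (t2 3 7 30) (.cons (t2 3 7 18) (.cons (t2 24 48 49) (.cons (t3 7 17 46) (.cons s977 (.cons a480 (.cons a181 (.cons (t1 18 24 49) (.cons (t3 10 18 24) (.cons (t2 18 24 30) (.cons (t2 18 19 24)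 (.cons s140 (.cons s139 (.cons a345 (.cons (t3 7 36 46) (.cons (t1 8 36 46) (.cons a433 (.cons (t2 7 19 46) (.cons (t2 7 19 50) (.cons (t3 7 39 50) (.cons a176 (.cons (t3 19 38 50) (.cons a440 (.cons a329 (.cons (t3 18 38 49) (.cons a266 (.cons (t3 9 18 24) (.cons (t1 9 10 18) (.cons a246 (.cons (t2 9 33 50) (.cons a250 (.cons (t3 8 24 33) (.cons (t1 18 24 33) (.cons s712 (.cons a109 (.cons (t1 15 24 33) (.cons (t3 7 14 15) (.cons a92 (.cons (t3 14 18 24) (.cons a524 (.cons (t1 18 33 41) (.cons a446 (.cons s1563 (.cons (t1 8 17 21) (.cons s1565 (.cons (t1 7 21 23) (.cons (t3 7 10 21) (.cons s458 (.cons s568 (.cons (t2 7 21 45) (.cons (t2 7 21 41) (.cons s321 (.cons (t3 10 21 29) (.cons (t3 17 21 29) (.cons (t2 7 15 29) (.cons s132 (.cons (t1 7 15 45) (.cons a452 (.cons (t2 0 17 23) (.cons (t1 2 10 49) (.cons (t2 7 21 43) (.cons s1420 (.cons a146 (.cons (t1 4 7 29) (.cons (t1 4 15 29) (.cons (t2 4 8 10) (.cons (t1 2 4 10) (.cons a454 (.cons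 a99 (.cons (t3 2 4 43) (.cons (t3 4 8 43) (.cons (t3 2 4 45) (.cons a82 (.cons a85 (.cons (t2 2 7 8) .nil))))))))))))))))))))))))))))))))))))))))))))))))))))))))))))))))))))))))))))))))))))))))))))))))))))))))))))))))))))) (by decide +kernel)
theorem s1567 : Valid A [988, 1044, 1340, 1070, 994] := rup _
  (.cons s1431 (.cons a169 (.cons s1561 (.cons (t2 10 34 49) (.cons a162 (.cons s50 (.cons (t1 7 10 49) (.cons s183 (.cons s1279 (.cons (t3 8 10 49) (.cons s432 (.cons (t3 7 30 50) (.cons (t3 10 24 49) (.cons a399 (.cons (t2 10 23 24) (.cons a192 (.cons (t1 10 23 46) (.cons (t2 10 23 49) (.cons (t1 10 24 30) (.cons a190 (.cons (t2 24 46 49) (.cons (t3 10 30 49) (.cons s873 (.cons s875 (.cons (t1 23 24 36) (.cons a484 (.cons (t3 18 23 49) (.cons a468 (.cons (t1 7 18 30) (.cons (t2 18 30 50) (.cons s1562 .nil))))))))))))))))))))))))))))))) (by decide +kernel)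
theorem s1568 : Valid A [1067, 858, 814, 2760, 4698, 1352, 3016, 302, 354, 938, 2779, 942, 1122, 1044, 1329, 944, 1070] := rup _
  (.cons (t3 8 10 24) (.cons a143 (.cons (t1 8 21 23) (.cons (t3 8 10 21) (.cons (t1 8 21 24) (.cons (t1 8 21 49) (.cons a134 (.cons s294 (.cons (t3 21 23 45) (.cons s986 (.cons (t1 21 45 49) (.cons (t3 7 24 29) (.cons (t1 10 24 29) (.cons s474 (.cons s750 (.cons a79 (.cons (t2 10 11 29) (.cons (t2 2 6 45) (.cons a387 (.cons s67 (.cons a238 (.cons (t3 2 23 52) (.cons (t3 6 23 52) (.cons a71 .nil)))))))))))))))))))))))) (by decide +kernel)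
theorem s1569 : Valid A [14, 954, 3788, 46, 3021, 942] := rup _
  (.cons s474 (.cons s784 (.cons a130 (.cons (t3 11 23 38) .nil)))) (by decide +kernel)
theorem s1570 : Valid A [2787, 1066, 1891, 842, 783, 4963, 4698, 457, 969, 426, 942, 3043, 3171, 912] := rup _
  (.cons (t3 23 38 49) (.cons a124 (.cons (t3 23 37 49) (.cons (t3 21 24 49) (.cons (t3 21 23 49) (.cons (t3 21 38 49) (.cons (t2 21 37 49) (.cons (t3 14 21 49) (.cons a137 (.cons a506 (.cons (t3 21 29 38) (.cons a408 (.cons a142 (.cons a119 (.cons (t3 7 8 29) (.cons (t1 6 35 37) (.cons s1569 (.cons a384 (.cons (t3 7 11 36) (.cons (t2 6 7 11) (.cons s247 (.cons a298 (.cons (t2 11 21 35) .nil))))))))))))))))))))))) (by decide +kernel)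
theorem s1571 : Valid A [1044, 1340, 1070, 994] := rup _
  (.cons s1561 (.cons (t1 7 10 49) (.cons s1431 (.cons a169 (.cons (t2 10 34 49) (.cons a162 (.cons s50 (.cons s183 (.cons (t3 10 24 49) (.cons (t1 10 24 30) (.cons a190 (.cons (t2 24 46 49) (.cons a192 (.cons (t1 7 24 49) (.cons s1279 (.cons a399 (.cons (t3 8 10 49) (.cons (t3 8 10 24) (.cons (t2 10 23 49) (.cons (t1 10 23 46) (.cons (t3 7 10 23) (.cons s432 (.cons s864 (.cons a431 (.cons (t3 7 10 50) (.cons (t3 7 8 50) (.cons (t3 7 33 50) (.cons (t3 7 30 50) (.cons s1567 (.cons a187 (.cons s42 (.cons s1566 (.cons s193 (.cons (t3 7 18 50) (.cons a61 (.cons a63 (.cons (t3 10 19 24) (.cons s1562 (.cons a64 (.cons s145 (.cons (t2 3 7 8) (.cons (t1 3 7 46) (.cons (t2 3 7 30) (.cons (t2 3 7 18) (.cons (t1 3 7 45) (.cons (t1 3 7 21) (.cons (t2 24 48 49) (.cons s977 (.cons (t3 3 45 46) (.cons (t3 3 21 46) (.cons s132 (.cons a480 (.cons (t1 18 24 49) (.cons (t3 10 18 24) (.cons (t2 18 24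 30) (.cons (t2 18 19 24) (.cons (t1 2 23 49) (.cons s140 (.cons (t2 23 36 49) (.cons (t2 10 36 49) (.cons s139 (.cons a345 (.cons (t3 7 36 46) (.cons (t3 3 36 46) (.cons (t2 36 45 46) (.cons (t1 21 36 46) (.cons a433 (.cons (t2 7 19 46) (.cons (t2 7 19 50) (.cons (t3 7 39 50) (.cons a175 (.cons a176 (.cons (t3 19 38 50) (.cons a122 (.cons a440 (.cons (t2 36 38 46) (.cons a329 (.cons (t3 18 38 49) (.cons (t3 23 38 49) (.cons a266 (.cons (t3 9 18 24) (.cons (t1 9 10 18) (.cons a246 (.cons (t2 9 33 50) (.cons a250 (.cons (t2 24 33 49) (.cons (t3 8 24 33) (.cons a311 (.cons s712 (.cons a304 (.cons (t1 6 23 49) (.cons a109 (.cons (t1 15 24 33) (.cons (t2 6 7 37) (.cons (t2 6 7 45) (.cons (t3 7 14 15) (.cons a92 (.cons (t1 14 24 49) (.cons s1568 (.cons s1570 (.cons (t1 21 24 49) (.cons (t1 21 23 49) (.cons (t1 21 38 49) (.cons s202 (.cons s294 (.cons s671 .nil))))))))))))))))))))))))))))))))))))))))))))))))))))))))))))))))))))))))))))))))))))))))))))))))))))))))))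 (by decide +kernel)
theorem s1572 : Valid A [4706, 450, 483, 4316, 5986, 3171] := rup _
  (.cons s140 (.cons (t2 3 36 49) (.cons (t1 33 36 46) (.cons a52 .nil)))) (by decide +kernel)
theorem s1573 : Valid A [2380, 864, 993, 972, 2400, 2403, 1379, 994] := rup _
  (.cons (t3 7 38 48) (.cons (t3 18 38 49) (.cons s166 (.cons s414 (.cons s167 (.cons a429 (.cons (t3 9 10 49) (.cons (t1 9 49 50) (.cons a248 .nil))))))))) (by decide +kernel)
theorem s1574 : Valid A [1340, 1070, 994] := rup _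
  (.cons s1431 (.cons (t1 7 24 49) (.cons a404 (.cons a169 (.cons s1561 (.cons a190 (.cons a192 (.cons (t2 10 17 49) (.cons (t1 7 10 49) (.cons (t3 10 24 49) (.cons (t2 10 34 49) (.cons a162 (.cons s50 (.cons s183 (.cons s1571 (.cons s872 (.cons (t2 8 10 46) (.cons (t2 8 10 17) (.cons (t1 8 10 24) (.cons s42 (.cons (t3 7 33 46) (.cons a181 (.cons s326 (.cons s193 (.cons (t2 23 33 46) (.cons s1535 (.cons s138 (.cons (t3 7 23 46) (.cons (t3 10 19 49) (.cons (t1 3 7 46) (.cons (t3 18 24 49) (.cons (t2 18 19 49) (.cons a64 (.cons (t3 3 18 24) (.cons a345 (.cons a45 (.cons a46 (.cons (t1 3 18 48) (.cons (t2 7 19 46) (.cons (t2 10 24 48) (.cons (t2 8 24 48) (.cons a175 (.cons s135 (.cons a520 (.cons (t2 7 38 46) (.cons (t3 10 33 49) (.cons (t1 10 24 33) (.cons (t1 7 23 48) (.cons (t3 23 33 48) (.cons s148 (.cons (t3 6 7 48) (.cons s1573 (.cons a266 (.cons (t3 9 18 49) (.cons (t3 9 18 24) (.cons s167 (.cons a250 (.cons (t2 9 33 48) .nil))))))))))))))))))))))))))))))))))))))))))))))))))))))))))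 (by decide +kernel)
theorem s1575 : Valid A [1067, 2778, 457, 1096, 968, 421, 400, 1100, 1122, 1072, 2353, 4962, 3148, 912] := rup _
  (.cons a143 (.cons (t3 7 8 21) (.cons (t1 8 21 24) (.cons (t1 8 21 49) (.cons (t3 3 8 21) (.cons (t1 8 21 38) (.cons (t1 8 21 36) (.cons a134 (.cons a60 (.cons s201 (.cons (t1 18 24 29) (.cons (t1 24 29 38) (.cons (t2 3 18 45) (.cons (t2 3 36 45) (.cons (t2 5 21 49) (.cons (t2 5 21 38) (.cons (t2 18 29 45) (.cons a380 (.cons s472 (.cons (t1 11 29 45) (.cons a130 .nil))))))))))))))))))))) (by decide +kernel)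
theorem s1576 : Valid A [918, 655, 738, 3810, 3788, 973] := rup _
  (.cons (t2 5 7 11) (.cons (t3 7 11 38) (.cons a215 (.cons a130 (.cons (t2 11 29 49) .nil))))) (by decide +kernel)
theorem s1577 : Valid A [2787, 1066, 2778, 985, 4707, 867, 1100, 973, 943, 4962, 3171, 994] := rup _
  (.cons (t1 7 36 49) (.cons (t3 21 24 49) (.cons (t1 7 21 49) (.cons (t3 21 45 49) (.cons (t2 21 38 49) (.cons (t3 21 36 49) (.cons a135 (.cons (t2 36 45 49) (.cons s1188 (.cons a204 (.cons (t3 24 29 49) (.cons (t3 5 21 49) (.cons a207 (.cons s1576 (.cons (t2 7 11 23) (.cons s297 (.cons (t2 7 11 44) (.cons a241 (.cons a86 (.cons a88 (.cons (t1 11 44 52) (.cons (t3 2 7 44) (.cons s776 (.cons a68 (.cons (t3 2 6 49) (.cons a73 .nil)))))))))))))))))))))))))) (by decide +kernel)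
theorem s1578 : Valid A [2778, 985, 457, 4707, 421, 400, 867, 2531, 3021, 1100, 934, 997, 1072, 2353, 957, 943, 3148, 3171, 994] := rup _
  (.cons (t3 19 36 49) (.cons (t3 8 24 49) (.cons (t1 8 36 49) (.cons (t1 7 36 49) (.cons (t3 6 19 49) (.cons (t3 6 24 49) (.cons (t3 24 38 49) (.cons s414 (.cons s1279 (.cons s1575 (.cons s1577 (.cons (t1 21 24 49) (.cons (t2 19 21 49) (.cons s202 (.cons a341 (.cons (t3 7 19 45) (.cons (t2 19 45 49) (.cons (t1 6 19 45) (.cons (t2 19 36 45) (.cons a80 (.cons (t1 2 6 45) (.cons a380 (.cons a85 (.cons (t3 11 45 49) (.cons (t2 6 11 45) (.cons (t1 2 7 23) (.cons (t1 2 7 30) (.cons (t1 2 7 44) (.cons a70 (.cons (t1 2 23 52) (.cons (t1 2 30 52) (.cons a71 (.cons (t2 6 24 52) (.cons (t3 6 11 52) (.cons s331 (.cons a238 (.cons (t3 7 29 30) (.cons (t1 11 23 38) (.cons s488 .nil))))))))))))))))))))))))))))))))))))))) (by decide +kernel)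
theorem s1579 : Valid A [1067, 2760, 2786, 2736, 5858, 2779, 1357, 943, 1327, 1044, 3148, 1378, 3171, 994] := rup _
  (.cons (t1 7 24 49) (.cons s1279 (.cons a143 (.cons (t3 7 8 21) (.cons (t3 8 10 21) (.cons a134 (.cons s377 (.cons (t3 7 21 45) (.cons (t3 7 24 29) (.cons (t1 24 29 38) (.cons s1491 .nil))))))))))) (by decide +kernel)
theorem s1580 : Valid A [1072, 989, 943, 1044, 1378, 1070, 994] := rup _
  (.cons s1431 (.cons s1574 (.cons a163 (.cons a171 (.cons (t1 10 24 49) (.cons s988 (.cons (t3 24 38 49) (.cons (t1 7 46 49) (.cons s1401 (.cons (t2 18 38 49) (.cons (t3 18 24 49) (.cons a516 (.cons a393 (.cons a399 (.cons (t1 10 23 33) (.cons (t2 7 23 33) (.cons (t3 7 33 46) (.cons (t1 7 24 49) (.cons (t3 7 24 46) (.cons s42 (.cons (t2 10 23 30) (.cons (t1 7 23 30) (.cons (t3 7 10 23) (.cons a169 (.cons s1279 (.cons (t3 8 24 49) (.cons s432 (.cons (t2 7 10 50) (.cons (t2 7 23 50) (.cons s1560 (.cons (t3 7 18 50) (.cons s769 (.cons a247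 (.cons (t3 8 10 38) (.cons (t2 10 23 38) (.cons a345 (.cons (t3 9 10 38) (.cons (t2 18 19 49) (.cons (t3 17 18 19) (.cons (t2 18 19 24) (.cons a265 (.cons (t1 9 18 24) (.cons a251 (.cons (t3 24 33 49) (.cons s141 (.cons s148 (.cons a304 (.cons (t3 6 24 49) (.cons (t3 6 18 49) (.cons a301 (.cons a302 (.cons (t1 6 18 39) (.cons (t2 19 24 39) (.cons a433 (.cons a333 (.cons (t3 7 39 50) (.cons (t3 23 39 50) (.cons s1537 (.cons a326 (.cons (t1 3 7 39) (.cons (t2 7 23 27) (.cons a64 (.cons s180 (.cons (t1 3 24 49) (.cons (t2 3 8 24) (.cons (t3 3 18 24) (.cons (t1 18 24 27) (.cons s1572 (.cons a277 (.cons (t3 3 36 49) (.cons (t1 18 24 44) (.cons a269 (.cons (t1 7 39 44) (.cons s1578 (.cons a61 (.cons a63 (.cons (t3 3 45 49) (.cons (t3 3 21 24) (.cons (t3 3 21 49) (.cons (t3 3 21 36) (.cons s1579 (.cons s202 (.cons s1499 (.cons (t1 7 21 45) (.cons (t2 7 21 30) (.cons (t2 7 21 44) (.cons a86 (.cons a88 (.cons a223 (.cons (t1 21 44 52) (.cons (t3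 2 7 44) (.cons s776 (.cons a68 (.cons (t3 2 6 49) (.cons a73 .nil))))))))))))))))))))))))))))))))))))))))))))))))))))))))))))))))))))))))))))))))))))))))))))))) (by decide +kernel)
theorem s1581 : Valid A [986, 655, 676, 738, 4698, 2394, 3810, 927, 973, 1357, 2343, 968] := rup _
  (.cons (t1 5 7 38) (.cons (t2 7 15 38) (.cons s297 (.cons (t1 7 15 45) (.cons s1576 (.cons (t3 10 29 38) (.cons (t3 5 29 38) (.cons (t3 15 29 38) (.cons a147 (.cons (t1 4 5 29) (.cons (t1 4 15 29) (.cons s364 (.cons a99 (.cons (t2 4 18 45) .nil)))))))))))))) (by decide +kernel)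
theorem s1582 : Valid A [1067, 2778, 985, 927, 2531, 973, 1357, 2343, 867, 1097, 968, 1061, 1123, 957, 917, 994] := rup _
  (.cons (t1 8 18 19) (.cons s1279 (.cons a143 (.cons (t3 7 8 21) (.cons (t2 8 21 49) (.cons (t2 8 21 45) (.cons (t2 8 18 21) (.cons (t2 8 21 36) (.cons (t3 21 29 49) (.cons (t1 8 18 45) (.cons (t1 8 36 45) (.cons a204 (.cons (t3 5 21 49) (.cons (t1 5 18 21) (.cons a207 (.cons s22 (.cons (t1 5 7 38) (.cons (t1 7 30 51) (.cons a199 (.cons (t2 7 38 42) (.cons s1581 (.cons a86 (.cons a88 (.cons (t2 7 10 45) (.cons (t2 7 30 45) (.cons (t2 7 44 45) (.cons (t3 7 42 45) (.cons (t3 2 7 44) (.cons s776 (.cons a396 (.cons (t1 22 30 45) (.cons a272 (.cons a273 (.cons a356 (.cons (t3 2 19 49) (.cons (t3 2 6 49) (.cons a472 (.cons (t2 30 32 45) (.cons (t2 8 19 42) (.cons a73 (.cons a464 (.cons (t1 2 19 52) (.cons a68 (.cons (t3 22 32 51) (.cons (t3 32 44 52) (.cons a364 (.cons a230 (.cons (t2 19 32 42) .nil))))))))))))))))))))))))))))))))))))))))))))))))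 (by decide +kernel)
theorem s1583 : Valid A [2778, 985, 927, 2531, 973, 1357, 2343, 841, 867, 457, 1097, 968, 401, 483, 398, 1061, 1123, 943, 1327, 1341, 994] := rup _
  (.cons (t3 3 6 49) (.cons (t3 6 8 49) (.cons (t2 10 23 30) (.cons (t1 7 23 30) (.cons (t3 7 10 23) (.cons s1582 (.cons (t2 3 8 21) (.cons (t2 6 8 21) (.cons (t3 8 21 36) (.cons a60 (.cons (t3 3 7 45) (.cons (t2 3 45 49) (.cons (t2 3 6 45) (.cons (t2 3 36 45) (.cons a80 (.cons (t1 2 6 45) (.cons a380 (.cons a85 (.cons (t2 6 11 45) (.cons (t1 2 7 23) (.cons (t1 2 7 30) (.cons (t1 2 7 44) (.cons a70 (.cons (t1 2 23 52) (.cons (t1 2 30 52) (.cons a71 (.cons s35 (.cons (t3 6 21 52) (.cons (t3 6 11 52) (.cons (t3 6 28 36) (.cons a222 (.cons a238 (.cons a487 (.cons (t3 10 21 30) (.cons (t3 10 11 23) (.cons (t1 10 21 28) (.cons a390 .nil))))))))))))))))))))))))))))))))))))) (by decide +kernel)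
theorem s1584 : Valid A [986, 2760, 1066, 2786, 2736, 5858, 2779, 973, 1357, 934, 1100, 989, 943, 1327, 1378, 3171, 994] := rup _
  (.cons (t2 10 23 38) (.cons (t1 7 24 49) (.cons (t3 7 24 46) (.cons (t3 7 10 23) (.cons (t1 7 10 45) (.cons (t1 7 21 45) (.cons (t1 10 21 45) (.cons (t3 7 21 38) (.cons s1499 (.cons s1188 (.cons s377 (.cons (t2 7 29 38) (.cons s1491 .nil))))))))))))) (by decide +kernel)
theorem s1585 : Valid A [989, 943, 1044, 1378, 1070, 994] := rup _
  (.cons s1574 (.cons a393 (.cons a399 (.cons (t1 10 23 33) (.cons (t2 7 23 33) (.cons (t2 10 23 30) (.cons (t1 7 23 30) (.cons (t3 7 10 23) (.cons s1431 (.cons a163 (.cons a171 (.cons (t1 10 24 49) (.cons s988 (.cons (t3 24 38 49) (.cons (t3 10 24 30) (.cons (t1 7 24 49) (.cons a405 (.cons a169 (.cons s1279 (.cons s42 (.cons (t1 7 46 49) (.cons (t3 7 33 46) (.cons s1401 (.cons (t3 18 24 49) (.cons s1580 (.cons (t1 8 24 49) (.cons (t2 8 17 24) (.cons (t2 8 24 34) (.cons (t2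 8 24 38) (.cons (t3 8 18 24) (.cons s1509 (.cons s1531 (.cons (t2 10 17 30) (.cons (t1 3 7 10) (.cons a64 (.cons a45 (.cons (t1 3 24 49) (.cons (t3 3 8 24) (.cons (t2 3 24 34) (.cons (t2 8 24 48) (.cons a520 (.cons (t3 23 33 48) (.cons s176 (.cons (t1 3 33 34) (.cons (t2 33 34 49) (.cons (t1 8 33 34) (.cons s1572 (.cons s148 (.cons (t1 7 36 49) (.cons (t3 8 36 49) (.cons (t3 3 36 49) (.cons a304 (.cons (t3 6 24 49) (.cons (t3 6 36 49) (.cons a301 (.cons (t3 24 39 49) (.cons s1166 (.cons (t1 23 30 39) (.cons (t1 7 30 39) (.cons (t1 17 30 39) (.cons a326 (.cons a334 (.cons (t2 7 23 27) (.cons (t2 7 19 39) (.cons s852 (.cons s180 (.cons a345 (.cons (t3 7 8 50) (.cons (t3 7 33 50) (.cons s1560 (.cons s414 (.cons (t1 18 24 27) (.cons (t2 18 19 49) (.cons s712 (.cons a277 (.cons a109 (.cons (t1 18 24 44) (.cons a269 (.cons (t1 7 39 44) (.cons s1583 (.cons a61 (.cons a63 (.cons (t3 3 45 49) (.cons (t3 3 21 24) (.cons (t3 3 21 49) (.cons (t1 3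 8 21) (.cons (t3 3 21 36) (.cons s1584 (.cons a86 (.cons a88 (.cons (t3 7 21 45) (.cons (t3 2 7 44) (.cons s776 (.cons (t2 7 21 30) (.cons (t2 7 21 44) (.cons (t3 2 6 49) (.cons a223 (.cons (t1 21 44 52) (.cons a73 (.cons a68 .nil)))))))))))))))))))))))))))))))))))))))))))))))))))))))))))))))))))))))))))))))))))))))))))))))))))) (by decide +kernel)
theorem s1586 : Valid A [943, 1044, 1378, 1070, 994] := rup _
  (.cons s1431 (.cons (t1 10 24 49) (.cons a399 (.cons (t1 10 23 24) (.cons s1574 (.cons (t2 10 23 30) (.cons a163 (.cons (t1 7 24 49) (.cons s1279 (.cons (t1 7 23 30) (.cons s1585 (.cons a185 (.cons (t1 7 23 46) (.cons s60 (.cons s912 (.cons s1558 (.cons a193 (.cons (t3 8 18 49) (.cons a178 (.cons s874 (.cons s1145 (.cons (t3 24 36 49) (.cons s1536 (.cons (t2 10 18 23) (.cons (t1 3 7 30) (.cons a484 (.cons a64 (.cons (t2 7 23 36) (.cons a45 (.cons s1035 (.cons (t2 8 24 48) (.cons (t1 7 23 48) (.cons a520 .nil)))))))))))))))))))))))))))))))))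 (by decide +kernel)
theorem s1587 : Valid A [1044, 1378, 1070, 994] := rup _
  (.cons s1431 (.cons s1574 (.cons a163 (.cons a171 (.cons (t1 10 24 49) (.cons s988 (.cons (t3 24 38 49) (.cons s1279 (.cons a399 (.cons s1586 (.cons (t1 7 10 23) (.cons s936 (.cons a189 (.cons s80 (.cons (t1 7 46 49) (.cons (t1 38 46 49) (.cons s1145 (.cons s128 (.cons a350 (.cons (t3 7 10 18) (.cons a345 .nil))))))))))))))))))))) (by decide +kernel)
theorem s1588 : Valid A [1378, 1070, 994] := rup _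
  (.cons s1574 (.cons a163 (.cons s1431 (.cons (t1 7 24 49) (.cons a169 (.cons s1279 (.cons (t1 10 24 49) (.cons s1587 (.cons (t3 7 8 10) (.cons (t2 8 10 49) (.cons (t2 8 10 24) (.cons s1559 (.cons a187 (.cons s60 (.cons (t2 8 10 46) (.cons (t1 8 46 49) (.cons s1558 (.cons (t1 8 10 18) (.cons s1401 (.cons (t1 7 23 24) (.cons (t1 7 18 49) (.cons (t2 18 34 49) (.cons s864 (.cons s193 (.cons s150 (.cons a349 (.cons s432 (.cons s1492 (.cons s804 (.cons (t2 10 38 46) .nil)))))))))))))))))))))))))))))) (by decide +kernel)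
theorem s1589 : Valid A [989, 997, 1044, 2268, 2213, 2402, 1372, 1348] := rup _
  (.cons a187 (.cons s42 (.cons s56 (.cons (t2 7 17 46) (.cons s562 (.cons s676 (.cons s72 (.cons (t1 18 19 38) (.cons a173 (.cons (t1 10 38 46) (.cons (t1 34 38 46) (.cons a158 .nil)))))))))))) (by decide +kernel)
theorem s1590 : Valid A [2343, 4956, 997, 2402] := rup _
  (.cons a348 (.cons s72 (.cons s676 (.cons a173 (.cons (t1 18 19 38) .nil))))) (by decide +kernel)
theorem s1591 : Valid A [1044, 1070, 994] := rup _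
  (.cons s1588 (.cons a190 (.cons s1574 (.cons (t2 10 30 49) (.cons a469 (.cons s138 (.cons (t2 10 18 49) (.cons s1431 (.cons a404 (.cons a513 (.cons a393 (.cons (t3 10 33 49) (.cons (t3 10 24 49) (.cons (t1 7 10 49) (.cons a192 (.cons a163 (.cons s1279 (.cons a399 (.cons (t3 8 10 49) (.cons (t3 7 10 23) (.cons s864 (.cons s150 (.cons s432 (.cons s148 (.cons a304 (.cons (t3 6 24 49) (.cons a301 (.cons (t2 10 24 39) (.cons s1589 (.cons s804 (.cons s128 (.cons s1590 (.cons (t2 17 18 19) (.cons a349 (.cons a345 (.cons (t1 10 19 39) (.cons (t2 7 18 50) (.cons a333 (.cons a434 (.cons (t2 17 18 39) .nil)))))))))))))))))))))))))))))))))))))))) (by decide +kernel)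
theorem s1592 : Valid A [1070, 994] := rup _
  (.cons s1431 (.cons a404 (.cons s1574 (.cons s1588 (.cons a190 (.cons a192 (.cons (t2 10 17 49) (.cons (t2 10 30 49) (.cons a469 (.cons s138 (.cons s1591 (.cons (t2 8 10 46) (.cons (t2 8 10 17) (.cons a181 .nil)))))))))))))) (by decide +kernel)
theorem s1593 : Valid A [963, 482, 398, 968, 994] := rup _
  (.cons s150 (.cons s494 (.cons s1035 (.cons (t1 3 36 49) .nil)))) (by decide +kernel)
theorem s1594 : Valid A [996, 2343, 974, 4323, 962, 4451, 1123, 2402, 3170, 994] := rup _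
  (.cons (t1 18 34 49) (.cons (t1 18 19 34) (.cons a347 (.cons (t2 8 18 49) (.cons (t2 8 24 49) (.cons s1592 (.cons s1279 (.cons a429 (.cons s431 (.cons (t1 33 49 50) (.cons a108 (.cons a427 (.cons a428 (.cons (t2 33 41 50) (.cons (t1 15 33 50) (.cons (t3 8 41 49) (.cons a446 (.cons s713 (.cons (t3 7 39 41) (.cons (t1 24 27 49) (.cons a442 (.cons s579 (.cons (t1 18 39 49) .nil))))))))))))))))))))))) (by decide +kernel)
theorem s1595 : Valid A [2343, 4323, 962, 1348, 1329, 917, 945, 4451, 1373, 932, 1123, 2402, 3170, 994] := rup _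
  (.cons a311 (.cons a304 (.cons (t1 6 7 24) (.cons a301 (.cons (t2 7 24 39) (.cons (t1 18 34 49) (.cons s63 (.cons (t2 8 18 49) (.cons s1279 (.cons s1492 (.cons (t3 10 18 38) (.cons s1594 (.cons a431 (.cons (t2 7 10 50) (.cons (t3 7 8 50) (.cons (t3 7 18 50) (.cons (t3 7 39 50) (.cons a247 (.cons s482 (.cons s185 (.cons (t3 9 10 24) (.cons (t3 9 10 38) (.cons (t2 7 41 50) (.cons a426 (.cons s220 (.cons a265 (.cons (t3 8 18 41) (.cons (t2 9 18 41) .nil)))))))))))))))))))))))))))) (by decide +kernel)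
theorem s1596 : Valid A [989, 1123, 2402, 1340, 3170, 1378, 994] := rup _
  (.cons s1592 (.cons (t2 8 23 49) (.cons (t1 18 23 49) (.cons (t2 8 24 49) (.cons s1279 (.cons (t3 7 8 23) (.cons a402 (.cons a187 (.cons s42 (.cons s56 (.cons (t1 7 46 49) (.cons (t3 7 23 46) (.cons s1032 (.cons s1517 (.cons a189 (.cons s138 (.cons s351 (.cons (t3 7 24 46) (.cons s63 (.cons (t3 7 10 46) (.cons (t3 10 30 46) (.cons s334 (.cons s338 (.cons (t3 10 24 46) (.cons (t2 10 34 46) (.cons (t1 17 24 46) (.cons a181 (.cons (t3 23 34 49) (.cons a65 (.cons a468 (.cons a403 (.cons (t2 8 17 23) (.cons (t3 23 30 34) (.cons s1533 (.cons s1593 (.cons (t1 7 10 33) (.cons a391 (.cons (t2 30 33 49) (.cons (t1 23 30 33) (.cons a311 (.cons a450 (.cons a304 (.cons (t2 17 23 47) (.cons (t1 6 7 24) (.cons a301 (.cons (t2 7 24 39) (.cons (t2 10 24 39) (.cons s1595 (.cons s213 (.cons a349 (.cons (t1 8 17 19) (.cons (t1 10 19 39) (.cons a333 (.cons (t2 17 23 39) (.cons (t1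 17 39 47) (.cons a326 (.cons a437 (.cons (t3 23 27 34) (.cons (t2 17 23 27) (.cons (t3 3 7 47) (.cons (t2 7 10 47) (.cons s196 (.cons s1528 (.cons (t1 3 27 47) (.cons (t2 10 27 47) .nil))))))))))))))))))))))))))))))))))))))))))))))))))))))))))))))))) (by decide +kernel)
theorem s1597 : Valid A [1123, 2402, 1340, 3170, 1378, 994] := rup _
  (.cons s1592 (.cons s1279 (.cons s1596 (.cons a185 (.cons a182 (.cons s666 (.cons (t3 8 17 49) .nil))))))) (by decide +kernel)
theorem s1598 : Valid A [5858, 1499, 1465, 3776, 3666, 851, 4963, 3788, 858, 807, 354] := rup _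
  (.cons s67 (.cons (t1 11 45 52) (.cons (t2 38 45 49) (.cons a79 (.cons (t2 11 38 45) (.cons (t2 2 6 45) (.cons (t2 2 45 52) (.cons a130 (.cons a71 (.cons (t2 11 29 32) (.cons (t2 6 19 52) (.cons (t2 6 41 52) (.cons (t1 11 28 32) (.cons a232 (.cons (t1 32 41 52) (.cons a529 .nil)))))))))))))))) (by decide +kernel)
theorem s1599 : Valid A [2746, 3666, 851, 4963, 3788, 807, 783, 3939, 354, 3912, 939, 986, 969, 2736, 2734, 1066, 917, 1071] := rup _
  (.cons (t2 6 7 45) (.cons (t2 7 10 36) (.cons (t2 7 21 36) (.cons a489 (.cons (t2 10 28 36) (.cons (t1 7 36 45) (.cons a142 (.cons a134 (.cons s3 (.cons a151 (.cons (t3 0 8 23) (.cons a505 (.cons (t3 0 7 21) (.cons a384 (.cons (t1 7 10 11) (.cons (t3 7 11 36) (.cons a387 (.cons a379 (.cons s67 (.cons (t1 11 45 52) (.cons s1598 (.cons a80 (.cons (t3 30 45 49) (.cons a85 (.cons (t2 30 45 52) (.cons (t3 2 6 7) (.cons (t1 2 7 36) (.cons s116 (.cons a73 (.cons (t1 2 36 52) .nil))))))))))))))))))))))))))))))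 (by decide +kernel)
theorem s1600 : Valid A [2402, 1340, 3170, 1378, 994] := rup _
  (.cons s1592 (.cons a522 (.cons a402 (.cons a400 (.cons s1279 (.cons s1597 (.cons s912 (.cons (t1 8 23 49) (.cons a185 (.cons s42 (.cons s56 (.cons (t1 7 46 49) (.cons a189 (.cons s138 (.cons (t3 7 10 46) (.cons (t2 10 34 46) (.cons (t2 7 17 46) (.cons a181 (.cons (t2 7 10 30) (.cons a162 (.cons s1530 (.cons (t2 8 17 23) (.cons (t1 8 17 49) (.cons (t1 8 17 48) (.cons (t3 3 8 23) (.cons a403 (.cons s767 (.cons s563 (.cons a513 (.cons (t1 17 24 48) (.cons s1527 (.cons (t3 7 17 24) (.cons a62 (.cons a63 (.cons s1532 (.cons (t3 3 8 21) (.cons (t1 3 21 23) (.cons (t1 3 21 24) (.cons (t2 17 18 24) (.cons (t1 8 17 18) (.cons s145 (.cons a44 (.cons a64 (.cons (t3 3 45 48) (.cons (t2 7 10 48) (.cons s1035 (.cons (t2 3 21 48) (.cons (t1 3 7 45) (.cons (t2 3 7 21) (.cons s1440 (.cons (t2 10 45 48) (.cons (t3 7 30 36) (.cons (t2 7 21 36) (.cons (t3 10 21 48) (.cons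 s132 (.cons (t1 7 10 33) (.cons s432 (.cons a489 (.cons a391 (.cons a431 (.cons (t3 7 24 50) (.cons (t2 7 10 50) (.cons s714 (.cons s676 (.cons (t2 7 28 36) (.cons s1321 (.cons a247 (.cons (t2 8 18 38) (.cons a109 (.cons s711 (.cons (t1 7 15 24) (.cons s877 (.cons (t1 7 15 45) (.cons (t2 7 15 21) (.cons a468 (.cons (t3 18 30 34) (.cons a318 (.cons s534 (.cons (t2 30 33 49) (.cons (t3 7 14 15) (.cons a311 (.cons s715 (.cons a92 (.cons a304 (.cons (t2 7 19 46) (.cons (t1 6 7 19) (.cons (t2 7 19 21) (.cons (t2 7 19 50) (.cons (t3 14 18 24) (.cons a176 (.cons (t1 19 21 38) (.cons (t3 19 38 50) (.cons a524 (.cons s1188 (.cons a329 (.cons (t2 8 18 41) (.cons s1296 (.cons (t1 6 7 41) (.cons (t3 7 28 41) (.cons s1599 (.cons s7 (.cons (t1 10 21 29) (.cons (t1 15 21 29) (.cons a505 (.cons a147 (.cons (t1 4 15 29) (.cons (t3 0 17 23) (.cons a99 (.cons a511 (.cons (t3 4 17 45) (.cons s1305 (.cons a395 (.cons (t1 10 22 49) (.cons (t1 10 22 23) (.cons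 s630 .nil))))))))))))))))))))))))))))))))))))))))))))))))))))))))))))))))))))))))))))))))))))))))))))))))))))))))))))))))))) (by decide +kernel)
theorem s1601 : Valid A [2403, 3170, 1378, 994] := rup _
  (.cons s1592 (.cons a514 (.cons a403 (.cons s563 (.cons s741 (.cons s666 (.cons s742 .nil))))))) (by decide +kernel)
theorem s1602 : Valid A [3170, 1378, 994] := rup _
  (.cons s1592 (.cons s1279 (.cons s1601 (.cons s1600 (.cons s1429 (.cons s1401 (.cons s666 (.cons (t1 7 46 49) (.cons a185 .nil))))))))) (by decide +kernel)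
theorem s1603 : Valid A [989, 2268, 944, 2224, 1071] := rup _
  (.cons a187 (.cons (t3 7 24 46) (.cons a181 (.cons s1032 (.cons (t2 8 17 24) .nil))))) (by decide +kernel)
theorem s1604 : Valid A [988, 1378, 994] := rup _
  (.cons s1602 (.cons s1279 (.cons s1592 (.cons (t3 7 8 23) (.cons a402 (.cons a185 (.cons s143 (.cons s912 (.cons (t2 8 46 49) (.cons a195 (.cons (t3 24 46 49) .nil))))))))))) (by decide +kernel)
theorem s1605 : Valid A [6373, 1954, 433, 1123, 3171] := rup _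
  (.cons (t1 8 49 50) (.cons (t1 24 49 50) (.cons a106 (.cons a314 (.cons (t3 8 15 49) (.cons (t3 24 27 49) (.cons (t2 3 24 27) (.cons a113 (.cons s1528 (.cons (t3 15 17 27) .nil)))))))))) (by decide +kernel)
theorem s1606 : Valid A [1378, 994] := rup _
  (.cons s1279 (.cons s1592 (.cons (t3 7 8 23) (.cons a522 (.cons s1602 (.cons a169 (.cons a171 (.cons a405 (.cons (t1 7 24 49) (.cons s1604 (.cons a187 (.cons s42 (.cons s56 (.cons (t1 7 46 49) (.cons (t3 7 23 46) (.cons (t3 7 24 46) (.cons s1603 (.cons a189 (.cons s1032 (.cons a193 (.cons s1535 (.cons (t3 7 17 46) (.cons s138 (.cons (t3 7 10 46) (.cons (t2 10 34 46) (.cons (t1 8 24 49) (.cons (t1 23 24 49) (.cons (t1 3 7 46) (.cons a469 (.cons (t3 8 48 49) (.cons (t3 18 23 49) (.cons a64 (.cons (t2 24 30 49) (.cons a484 (.cons (t1 3 24 49) (.cons (t2 3 24 34) (.cons (t3 23 36 49) (.cons (t2 3 36 49) (.cons s140 (.cons a479 (.cons s1253 (.cons (t3 7 36 46) (.cons (t3 10 36 46) (.cons (t3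 17 36 46) (.cons s1370 (.cons (t3 10 33 36) (.cons (t3 17 33 36) (.cons a112 (.cons (t1 15 17 33) (.cons s1605 (.cons a392 (.cons a393 (.cons (t2 17 30 33) (.cons a429 (.cons s1443 (.cons s1442 (.cons s769 .nil))))))))))))))))))))))))))))))))))))))))))))))))))))))))) (by decide +kernel)
theorem s1607 : Valid A [963, 1340, 3170, 994] := rup _
  (.cons s1592 (.cons s1606 (.cons s685 (.cons a514 (.cons (t3 10 30 49) (.cons a468 (.cons a190 (.cons (t2 17 46 49) (.cons a402 (.cons a192 (.cons s1320 (.cons a181 (.cons (t2 8 23 46) (.cons a195 (.cons s1318 (.cons a194 (.cons (t2 8 23 24) (.cons (t2 10 18 49) (.cons s1533 (.cons (t3 8 10 49) (.cons (t1 7 10 49) (.cons s1279 (.cons s150 (.cons s183 (.cons (t1 7 48 49) (.cons s1035 (.cons (t3 7 18 30) (.cons s302 (.cons (t2 7 18 36) (.cons (t3 7 24 36) (.cons s619 (.cons (t3 18 24 36) .nil)))))))))))))))))))))))))))))))) (by decide +kernel)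
theorem s1608 : Valid A [1340, 3170, 994] := rup _
  (.cons s1606 (.cons a190 (.cons s1592 (.cons s685 (.cons (t2 17 46 49) (.cons a402 (.cons a192 (.cons s1320 (.cons a181 (.cons a187 (.cons a514 (.cons (t2 10 18 49) (.cons (t3 8 10 49) (.cons (t1 7 10 49) (.cons s1279 (.cons (t3 10 30 49) (.cons a468 (.cons s1607 (.cons s432 (.cons s804 (.cons s1590 (.cons a349 (.cons (t3 7 10 19) (.cons (t1 10 19 46) (.cons s129 (.cons a173 (.cons a161 (.cons (t1 10 19 38) .nil)))))))))))))))))))))))))))) (by decide +kernel)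
theorem s1609 : Valid A [3170, 994] := rup _
  (.cons s1592 (.cons a402 (.cons s1606 (.cons (t3 8 10 49) (.cons a192 (.cons a190 (.cons s685 (.cons s1320 (.cons (t2 17 46 49) (.cons a181 (.cons (t2 8 23 46) (.cons a194 (.cons a195 (.cons (t2 8 23 24) (.cons s1318 (.cons s1608 (.cons a163 (.cons (t3 10 34 49) (.cons s158 (.cons s1399 (.cons (t1 7 48 49) (.cons s1035 (.cons s302 (.cons (t3 7 24 36) .nil)))))))))))))))))))))))) (by decide +kernel)
theorem s1610 : Valid A [2402, 1340, 994] := rup _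
  (.cons s1606 (.cons s1609 (.cons a169 (.cons (t2 10 34 49) (.cons s1279 (.cons s1592 (.cons (t3 7 8 23) (.cons a190 (.cons (t2 24 46 49) (.cons a400 (.cons (t3 10 23 49) (.cons (t1 23 24 49) (.cons a193 (.cons (t3 7 23 46) (.cons (t1 7 10 49) (.cons a402 (.cons (t3 8 10 49) (.cons a162 (.cons s50 (.cons s183 (.cons s432 (.cons s804 (.cons s128 (.cons (t3 10 30 49) (.cons (t2 10 18 49) (.cons a468 (.cons s1590 (.cons s129 (.cons a349 .nil))))))))))))))))))))))))))))) (by decide +kernel)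
theorem s1611 : Valid A [1340, 994] := rup _
  (.cons s1279 (.cons s1592 (.cons (t3 7 8 23) (.cons s1606 (.cons a190 (.cons s1609 (.cons (t2 24 46 49) (.cons a400 (.cons (t3 10 23 49) (.cons (t1 23 24 49) (.cons a193 (.cons (t3 7 23 46) (.cons a169 (.cons (t2 10 34 49) (.cons a402 (.cons (t3 8 10 49) (.cons (t1 7 10 49) (.cons a162 (.cons s50 (.cons s183 (.cons s432 (.cons s804 (.cons s128 (.cons s1610 (.cons (t1 7 18 49) (.cons (t3 10 18 49) (.cons a345 (.cons a350 .nil)))))))))))))))))))))))))))) (by decide +kernel)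
theorem s1612 : Valid A [993, 994] := rup _
  (.cons s1606 (.cons s1611 (.cons (t2 10 30 49) (.cons a469 (.cons s1279 (.cons s1592 (.cons (t3 7 8 23) (.cons a190 (.cons s1609 (.cons (t2 24 46 49) (.cons a400 (.cons (t3 10 23 49) (.cons (t1 23 24 49) (.cons a193 (.cons (t3 7 23 46) (.cons a402 (.cons (t3 8 10 49) (.cons (t1 8 24 49) (.cons s1032 (.cons (t1 7 48 49) (.cons s1037 (.cons s302 (.cons (t1 23 36 49) (.cons (t1 18 36 49) (.cons s142 .nil))))))))))))))))))))))))) (by decide +kernel)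
theorem s1613 : Valid A [994] := rup _
  (.cons s1279 (.cons s1592 (.cons a400 (.cons a402 (.cons (t3 7 8 23) (.cons s1606 (.cons a190 (.cons (t1 7 10 49) (.cons (t3 10 23 49) (.cons (t3 8 10 49) (.cons s1609 (.cons a169 (.cons a404 (.cons (t2 24 46 49) (.cons (t1 23 24 49) (.cons (t2 10 34 49) (.cons a193 (.cons (t3 7 23 46) (.cons s1611 (.cons a393 (.cons (t2 10 30 49) (.cons (t3 10 33 49) (.cons a469 (.cons (t2 10 18 49) (.cons a513 (.cons s1612 (.cons s150 (.cons s432 (.cons s148 (.cons s804 (.cons a304 (.cons s128 (.cons s1590 (.cons (t3 6 24 49) (.cons (t3 6 10 49) (.cons (t2 17 18 19) (.cons a349 (.cons a345 (.cons a302 (.cons (t1 6 10 19) (.cons (t3 7 17 18) (.cons (t2 7 18 50) (.cons (t1 6 19 39) (.cons (t2 7 17 50) (.cons a435 (.cons a333 (.cons (t2 17 39 50) .nil))))))))))))))))))))))))))))))))))))))))))))))) (by decide +kernel)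
theorem s1614 : Valid A [783] := rup _
  (.cons s1613 (.cons a305 .nil)) (by decide +kernel)
theorem s1615 : Valid A [867] := rup _
  (.cons s1613 (.cons a307 .nil)) (by decide +kernel)
theorem s1616 : Valid A [997] := rup _
  (.cons s1613 (.cons a430 .nil)) (by decide +kernel)
theorem s1617 : Valid A [6373] := rup _
  (.cons s1613 (.cons a432 .nil)) (by decide +kernel)
theorem s1618 : Valid A [4451] := rup _
  (.cons s1613 (.cons s57 .nil)) (by decide +kernel)
theorem s1619 : Valid A [963, 1070, 989, 2402, 1340, 3170, 916] := rup _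
  (.cons s1618 (.cons s1614 (.cons s1613 (.cons s1617 (.cons s1616 (.cons (t2 7 24 49) (.cons (t3 7 24 46) (.cons (t2 7 46 49) (.cons a186 (.cons (t2 7 18 49) (.cons s193 (.cons a168 (.cons s51 (.cons s150 (.cons (t3 7 10 33) (.cons (t2 7 48 49) (.cons s864 (.cons (t3 6 7 48) (.cons (t3 7 18 48) (.cons s370 (.cons a480 (.cons (t2 7 23 49) (.cons (t3 7 10 23) (.cons (t3 7 18 23) (.cons a160 (.cons (t3 10 24 34) (.cons (t3 10 19 34) (.cons (t1 36 46 49) (.cons (t2 23 36 49) (.cons a399 (.cons (t2 24 34 38) (.cons (t3 10 19 24) (.cons a177 (.cons a483 (.cons (t1 8 10 34) (.cons (t3 19 24 36) (.cons (t1 24 36 38) (.cons (t2 18 19 36) (.cons (t2 18 36 38) (.cons a345 (.cons (t2 7 19 46) (.cons a175 (.cons (t3 38 46 49) (.cons a329 (.cons (t3 24 38 50) (.cons (t3 18 38 50) (.cons s188 (.cons s482 (.cons (t1 7 23 27) (.cons s888 (.cons (t2 23 39 49) (.cons a325 .nil)))))))))))))))))))))))))))))))))))))))))))))))))))) (by decide +kernel)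
theorem s1620 : Valid A [1072, 3126, 1125, 989, 3170] := rup _
  (.cons s1613 (.cons s1616 (.cons s1617 (.cons (t2 7 24 49) (.cons (t3 7 24 46) (.cons a187 (.cons s182 (.cons (t3 8 24 50) (.cons a403 (.cons s189 (.cons a313 (.cons (t2 17 49 50) (.cons (t1 17 27 50) (.cons (t1 3 27 50) (.cons s1528 .nil))))))))))))))) (by decide +kernel)
theorem s1621 : Valid A [1348, 1070, 989, 2402, 1340, 3170, 1378] := rup _
  (.cons s1613 (.cons s1616 (.cons s1618 (.cons a186 (.cons (t2 7 10 49) (.cons s1619 (.cons s431 (.cons (t3 7 10 46) (.cons a187 (.cons (t2 7 18 49) (.cons s193 (.cons a168 (.cons s534 (.cons (t1 10 24 34) (.cons a162 (.cons a468 (.cons (t1 10 18 30) (.cons (t1 18 30 34) (.cons a349 (.cons (t2 18 19 34) (.cons a156 (.cons (t2 24 27 34) (.cons s1620 (.cons (t2 8 10 24) (.cons s326 (.cons a399 (.cons (t1 10 23 46) .nil))))))))))))))))))))))))))) (by decide +kernel)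
theorem s1622 : Valid A [1072, 1349, 1125, 1070, 989, 2402, 3170, 916] := rup _
  (.cons s1618 (.cons s1613 (.cons s1617 (.cons a168 (.cons a164 (.cons (t2 24 30 34) (.cons (t3 10 24 34) (.cons (t3 8 23 50) (.cons (t2 7 24 49) (.cons (t3 7 24 46) (.cons a187 (.cons a186 (.cons s90 (.cons (t1 8 10 24) (.cons s182 (.cons s1620 (.cons a399 (.cons a403 (.cons (t3 17 24 27) (.cons (t1 24 27 48) (.cons (t2 24 27 34) (.cons (t2 10 23 24) (.cons (t3 7 10 23) (.cons (t2 10 23 34) (.cons s1533 (.cons s1528 (.cons (t3 23 27 34) (.cons s864 (.cons s710 (.cons (t2 3 27 48) (.cons a326 (.cons (t3 3 23 27) (.cons (t3 7 48 49) (.cons s211 (.cons (t2 3 23 39) (.cons (t1 3 24 36) (.cons (t1 3 23 36) (.cons a177 (.cons s78 (.cons a483 (.cons (t1 18 23 24) (.cons (t2 18 23 50) (.cons s733 (.cons s482 (.cons s969 .nil))))))))))))))))))))))))))))))))))))))))))))) (by decide +kernel)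
theorem s1623 : Valid A [1070, 989, 2402, 1340, 3170, 1378] := rup _
  (.cons s1618 (.cons s1616 (.cons s1617 (.cons s1613 (.cons (t2 7 24 49) (.cons (t3 7 24 46) (.cons (t2 7 46 49) (.cons a187 (.cons a186 (.cons (t2 7 10 49) (.cons (t2 7 18 49) (.cons s193 (.cons a168 (.cons s90 (.cons s1619 (.cons s431 (.cons s1621 (.cons a160 (.cons (t3 10 24 34) (.cons (t2 24 34 38) (.cons (t3 10 19 24) (.cons s1622 (.cons s326 (.cons (t2 8 24 48) (.cons (t2 8 24 50) (.cons s74 (.cons (t1 23 46 49) (.cons a520 (.cons (t3 24 38 50) (.cons (t2 23 48 49) (.cons a329 (.cons a480 (.cons (t3 7 38 49) (.cons (t3 38 46 49) (.cons (t1 36 46 49) (.cons (t2 23 36 49) (.cons a174 (.cons a177 (.cons a483 (.cons (t2 7 19 38) (.cons (t3 19 24 36) (.cons a345 (.cons (t2 18 19 36) .nil))))))))))))))))))))))))))))))))))))))))))) (by decide +kernel)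
theorem s1624 : Valid A [989, 2402, 1340, 3170, 1378] := rup _
  (.cons s1618 (.cons s1616 (.cons s1613 (.cons (t2 7 10 49) (.cons (t2 7 18 49) (.cons s193 (.cons a168 (.cons s90 (.cons (t2 7 24 49) (.cons a186 (.cons a187 (.cons (t2 7 46 49) (.cons (t3 7 24 46) (.cons s1623 (.cons a402 (.cons (t1 8 23 46) (.cons s1032 (.cons a193 (.cons (t3 8 10 24) (.cons (t1 8 24 34) (.cons (t1 23 24 34) (.cons (t3 10 24 34) (.cons s534 (.cons a162 (.cons (t2 7 30 49) (.cons a468 (.cons (t3 8 30 34) (.cons (t3 23 30 34) (.cons s183 (.cons (t1 10 18 30) (.cons (t3 8 18 30) (.cons (t3 18 23 30) (.cons s431 (.cons a349 (.cons (t2 8 18 50) (.cons a484 (.cons a427 (.cons a347 (.cons a434 (.cons (t1 23 24 36) (.cons (t1 8 24 41) (.cons a177 (.cons (t1 36 46 49) (.cons a480 (.cons s563 (.cons (t2 7 48 49) (.cons s1533 (.cons (t3 7 17 49) (.cons s145 (.cons s923 (.cons s739 (.cons (t2 3 24 41) (.cons (t2 17 39 49) (.cons (t1 3 33 41) (.cons a443 (.cons a446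 (.cons (t2 7 41 49) .nil))))))))))))))))))))))))))))))))))))))))))))))))))))))))) (by decide +kernel)
theorem s1625 : Valid A [963, 1314, 1373, 1340, 3170, 916] := rup _
  (.cons s1618 (.cons s1613 (.cons a168 (.cons s51 (.cons s150 (.cons (t3 7 10 33) (.cons (t2 7 48 49) (.cons s370 (.cons a480 (.cons (t3 10 24 34) (.cons (t2 7 36 49) (.cons (t2 10 24 46) (.cons (t3 10 17 24) (.cons a178 (.cons a403 (.cons s1533 (.cons (t1 3 7 49) (.cons s710 (.cons s494 (.cons (t2 3 24 36) .nil)))))))))))))))))))) (by decide +kernel)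
theorem s1626 : Valid A [1116, 1070, 2402, 1340, 3170, 1378] := rup _
  (.cons s1618 (.cons s1613 (.cons (t2 7 10 49) (.cons s1624 (.cons (t3 7 46 49) (.cons a189 (.cons s138 (.cons (t2 10 17 46) (.cons s1625 (.cons (t2 7 18 49) (.cons s193 (.cons s63 (.cons a349 (.cons a168 (.cons a185 (.cons (t1 8 10 46) (.cons s690 (.cons s1267 (.cons a399 (.cons s1533 (.cons (t2 10 23 46) (.cons s710 (.cons a194 (.cons (t1 3 24 34) (.cons (t2 10 23 24) (.cons (t3 10 24 34) (.cons s534 (.cons a162 (.cons a468 (.cons (t3 3 30 34) (.cons (t1 18 30 34) (.cons a51 (.cons (t2 18 19 34) (.cons (t2 18 30 39) (.cons a156 (.cons s212 (.cons (t2 3 27 34) (.cons (t2 8 39 49) (.cons s1528 (.cons a443 (.cons (t2 17 27 49) (.cons (t2 7 41 49) (.cons a114 (.cons a446 (.cons (t2 7 15 49) (.cons a96 (.cons a109 .nil))))))))))))))))))))))))))))))))))))))))))))))) (by decide +kernel)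
theorem s1627 : Valid A [1348, 1070, 2402, 1340, 3170, 1378] := rup _
  (.cons s1616 (.cons s1618 (.cons s1613 (.cons s1626 (.cons a182 (.cons (t2 7 10 49) (.cons s1624 (.cons (t3 7 46 49) (.cons a189 (.cons s138 (.cons (t2 10 17 46) (.cons s1625 (.cons a188 (.cons s431 (.cons (t3 8 17 50) (.cons (t3 8 10 46) (.cons (t2 8 10 50) (.cons (t3 8 23 46) (.cons (t2 7 18 49) (.cons s193 (.cons s63 (.cons a349 (.cons a168 (.cons s90 (.cons (t2 7 24 49) (.cons s534 (.cons (t1 10 24 34) (.cons a162 (.cons (t3 10 34 46) (.cons a468 (.cons (t3 10 24 50) (.cons s351 (.cons (t1 18 30 34) (.cons (t2 7 23 49) (.cons (t2 18 19 34) (.cons s864 (.cons a156 (.cons s145 (.cons (t2 24 27 34) (.cons (t2 3 24 27) (.cons a313 (.cons s1528 (.cons (t1 17 27 50) .nil))))))))))))))))))))))))))))))))))))))))))) (by decide +kernel)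
theorem s1628 : Valid A [1070, 2402, 1340, 3170, 1378] := rup _
  (.cons s1613 (.cons s1616 (.cons s1617 (.cons (t2 7 10 49) (.cons s1624 (.cons (t3 7 46 49) (.cons a189 (.cons s138 (.cons (t2 10 17 46) (.cons s1625 (.cons (t2 7 18 49) (.cons s193 (.cons s63 (.cons a349 (.cons (t1 18 19 49) (.cons (t3 10 19 46) (.cons s1626 (.cons a188 (.cons (t3 8 10 46) (.cons s431 (.cons (t2 8 10 50) (.cons s1627 (.cons a160 (.cons a161 (.cons (t2 10 34 50) (.cons (t3 34 38 50) (.cons (t3 10 38 46) (.cons a329 (.cons a173 (.cons (t1 19 38 49) .nil)))))))))))))))))))))))))))))) (by decide +kernel)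
theorem s1629 : Valid A [2402, 1340, 3170, 1378] := rup _
  (.cons s1615 (.cons s1614 (.cons s1618 (.cons s1617 (.cons s1613 (.cons (t2 7 24 49) (.cons (t2 7 10 49) (.cons (t2 7 18 49) (.cons s193 (.cons s1624 (.cons (t3 7 46 49) (.cons a189 (.cons s138 (.cons s63 (.cons (t2 10 17 46) (.cons (t3 10 19 46) (.cons a349 (.cons (t1 18 19 49) (.cons s1625 (.cons (t3 7 33 49) (.cons a310 (.cons s1628 (.cons a400 (.cons a402 (.cons (t3 10 23 46) (.cons s936 (.cons (t3 8 10 46) (.cons s143 (.cons (t3 6 7 8) (.cons (t1 7 8 24) (.cons (t2 7 23 49) (.cons s1032 (.cons s351 (.cons (t3 10 24 46) (.cons (t3 10 34 46) (.cons a160 (.cons a161 (.cons (t3 34 38 46) (.cons a173 (.cons (t1 18 19 38) (.cons (t1 19 38 49) (.cons a268 (.cons a329 (.cons (t3 9 38 50) (.cons (t3 10 38 50) (.cons (t1 18 38 50) (.cons a246 (.cons a434 (.cons (t1 9 10 24) (.cons s212 (.cons a251 (.cons (t3 8 24 39) (.cons (t3 6 8 39) (.cons (t2 6 24 33) (.cons a300 .nil)))))))))))))))))))))))))))))))))))))))))))))))))))))))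 (by decide +kernel)
theorem s1630 : Valid A [1340, 3170, 1378] := rup _
  (.cons s1618 (.cons s1613 (.cons a168 (.cons s90 (.cons (t2 7 24 49) (.cons (t2 7 10 49) (.cons s1629 (.cons a469 (.cons a514 (.cons s80 (.cons (t2 7 30 49) (.cons a403 (.cons (t2 7 17 49) (.cons s563 (.cons s183 (.cons s1527 (.cons s795 (.cons (t1 17 24 34) (.cons (t2 7 36 49) (.cons (t2 18 36 49) (.cons s710 (.cons a64 (.cons s145 (.cons (t3 8 24 34) (.cons (t2 3 36 49) (.cons s1026 (.cons (t1 24 34 36) (.cons (t3 8 34 36) (.cons (t1 17 34 36) (.cons a178 (.cons a180 (.cons s142 (.cons (t2 17 36 46) (.cons (t1 7 23 36) (.cons (t1 8 23 36) (.cons s1093 (.cons s864 .nil))))))))))))))))))))))))))))))))))))) (by decide +kernel)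
theorem s1631 : Valid A [993, 1070, 3164, 5987, 932, 2352] := rup _
  (.cons s1613 (.cons (t3 7 46 49) (.cons a186 (.cons (t2 7 48 49) (.cons (t3 7 8 48) (.cons s864 (.cons a480 (.cons a482 (.cons a520 (.cons (t3 7 18 23) (.cons (t1 36 46 49) (.cons (t2 23 36 48) (.cons a177 (.cons a483 (.cons (t3 18 24 36) .nil))))))))))))))) (by decide +kernel)
theorem s1632 : Valid A [1327, 3164, 1372, 1328] := rup _
  (.cons (t1 10 23 46) (.cons (t1 10 23 24) (.cons a193 .nil))) (by decide +kernel)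
theorem s1633 : Valid A [1070, 1326, 2365, 1317, 5987, 932, 2352, 3132, 3170] := rup _
  (.cons s1618 (.cons s1616 (.cons s1615 (.cons s1613 (.cons (t3 7 46 49) (.cons a186 (.cons (t1 24 46 49) (.cons a168 (.cons s90 (.cons (t2 7 24 49) (.cons s1631 (.cons a399 (.cons s150 (.cons (t3 7 48 49) (.cons s145 (.cons (t1 8 10 18) (.cons (t3 7 33 49) (.cons s431 (.cons a46 (.cons (t2 3 24 49) (.cons (t2 8 18 50) (.cons a310 (.cons s211 (.cons a434 (.cons (t1 3 24 36) (.cons (t1 18 30 39) (.cons a177 (.cons s1166 (.cons (t1 36 46 49) (.cons a301 (.cons s923 (.cons (t3 6 24 33) (.cons (t2 3 24 33) .nil))))))))))))))))))))))))))))))))) (by decide +kernel)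
theorem s1634 : Valid A [1125, 1999, 2510, 1073, 1071, 2500, 3141] := rup _
  (.cons (t2 8 23 24) (.cons a106 (.cons (t2 8 24 50) (.cons (t3 8 15 23) (.cons a314 (.cons (t3 15 23 39) (.cons (t3 24 27 34) (.cons (t2 23 24 27) (.cons a325 (.cons a154 (.cons (t1 19 27 39) .nil))))))))))) (by decide +kernel)
theorem s1635 : Valid A [2402, 3170, 1378] := rup _
  (.cons s1618 (.cons s1616 (.cons s1613 (.cons s1630 (.cons (t1 10 30 49) (.cons a168 (.cons a165 (.cons (t2 24 30 34) (.cons s733 (.cons a163 (.cons (t1 10 24 34) (.cons s90 (.cons (t2 7 24 49) (.cons (t2 7 18 49) (.cons s1401 (.cons s1145 (.cons a468 (.cons a191 (.cons (t1 24 46 49) (.cons (t3 7 46 49) (.cons a350 (.cons a186 (.cons a187 (.cons a345 (.cons s43 (.cons (t2 7 19 49) (.cons s1632 (.cons (t1 10 18 23) (.cons s1633 (.cons a521 (.cons s1032 (.cons (t3 7 8 23) (.cons (t2 8 23 24) (.cons s1517 (.cons (t3 7 36 49) (.cons (t3 7 36 46) (.cons a177 (.cons (t1 24 36 48) (.cons a479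 (.cons (t3 7 48 49) (.cons (t1 18 48 49) (.cons s820 (.cons a403 (.cons s1533 (.cons (t3 17 19 49) (.cons s710 (.cons a335 (.cons (t1 3 24 34) (.cons (t1 3 24 36) (.cons (t3 19 39 49) (.cons (t2 7 19 39) (.cons a54 (.cons (t3 3 33 34) (.cons s176 (.cons (t3 7 33 48) (.cons (t1 33 48 49) (.cons a112 (.cons a447 (.cons a448 (.cons (t3 15 33 49) (.cons (t3 7 41 49) (.cons a95 (.cons a442 (.cons (t3 15 39 41) (.cons s1634 (.cons (t1 8 24 50) (.cons s219 (.cons s188 (.cons (t2 8 23 41) (.cons (t3 7 27 49) (.cons (t3 23 39 41) (.cons (t3 15 23 41) (.cons a113 (.cons a326 (.cons (t2 15 23 27) .nil))))))))))))))))))))))))))))))))))))))))))))))))))))))))))))))))))))))))))) (by decide +kernel)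
theorem s1636 : Valid A [3170, 1378] := rup _
  (.cons s1618 (.cons s1613 (.cons (t2 7 24 49) (.cons a168 (.cons s90 (.cons s1630 (.cons a163 (.cons (t1 10 24 34) (.cons s1635 (.cons a514 (.cons s80 (.cons a403 (.cons a189 (.cons s1527 (.cons s795 (.cons (t3 10 24 46) (.cons s145 (.cons s182 (.cons a188 (.cons s666 (.cons s1558 (.cons s864 (.cons (t1 7 23 24) .nil))))))))))))))))))))))) (by decide +kernel)
theorem s1637 : Valid A [963, 2350, 943, 5986, 3171] := rup _
  (.cons s1613 (.cons (t3 7 24 49) (.cons a65 (.cons (t3 3 7 49) (.cons s150 (.cons (t3 3 7 33) (.cons (t2 7 48 49) (.cons (t2 7 23 48) (.cons s923 (.cons a482 (.cons (t2 23 36 48) (.cons s140 (.cons a483 (.cons s78 .nil)))))))))))))) (by decide +kernel)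
theorem s1638 : Valid A [5986, 1070, 2402, 1378] := rup _
  (.cons s1616 (.cons s1615 (.cons s1617 (.cons s1613 (.cons s1636 (.cons (t3 7 24 49) (.cons a404 (.cons (t2 7 17 49) (.cons a513 (.cons s71 (.cons s1093 (.cons (t3 7 8 24) (.cons (t3 7 8 49) (.cons (t2 7 10 49) (.cons (t2 7 18 49) (.cons s193 (.cons (t1 18 24 49) (.cons (t1 6 24 49) (.cons a189 (.cons s690 (.cons s63 (.cons s60 (.cons s1558 (.cons a349 (.cons (t3 7 23 24) (.cons (t1 18 23 24) (.cons (t1 17 18 19) (.cons a335 (.cons (t2 18 19 39) (.cons s1637 (.cons (t3 7 33 49) (.cons s431 (.cons a310 (.cons a108 (.cons a428 (.cons (t3 8 18 50) (.cons s482 (.cons a433 (.cons (t2 24 39 49) (.cons (t2 7 39 49) (.cons (t1 15 39 50) (.cons (t2 39 41 50) (.cons a300 (.cons (t2 6 15 39) (.cons a442 (.cons (t3 6 15 33) (.cons (t3 7 41 49) (.cons (t3 24 41 49) (.cons (t1 18 41 49) (.cons a109 (.cons (t2 7 15 41) (.cons (t3 15 24 41) (.cons (t2 7 15 49) (.cons a93 (.cons a114 (.cons (t2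 7 14 24) (.cons (t3 14 24 41) (.cons (t2 7 27 49) (.cons s442 (.cons a317 (.cons a523 (.cons (t1 18 27 39) (.cons (t2 14 18 27) .nil))))))))))))))))))))))))))))))))))))))))))))))))))))))))))))))) (by decide +kernel)
theorem s1639 : Valid A [1070, 2402, 1378] := rup _
  (.cons s1617 (.cons s1613 (.cons s1616 (.cons s1636 (.cons a404 (.cons (t2 7 17 49) (.cons a513 (.cons s71 (.cons s1093 (.cons (t3 7 8 49) (.cons (t2 24 49 50) (.cons (t3 7 24 49) (.cons a405 (.cons s1638 (.cons (t3 24 46 49) (.cons (t3 7 46 49) (.cons (t1 8 46 49) (.cons a195 (.cons a181 (.cons (t2 7 23 46) (.cons (t1 8 17 23) (.cons (t1 8 17 18) (.cons s864 (.cons s919 (.cons s150 (.cons (t2 17 18 27) (.cons (t1 17 27 49) (.cons (t3 17 24 27) (.cons (t3 7 17 27) (.cons (t3 17 23 27) (.cons s431 (.cons a313 (.cons a108 (.cons (t2 8 18 50) (.cons (t1 15 27 50) (.cons a434 (.cons a113 (.cons (t1 18 27 39) (.cons (t3 15 24 49) (.cons a325 (.cons a93 (.cons (t3 7 23 39) (.cons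 (t2 7 14 24) (.cons s442 .nil)))))))))))))))))))))))))))))))))))))))))))) (by decide +kernel)
theorem s1640 : Valid A [3554, 2020, 2018, 3171] := rup _
  (.cons s1617 (.cons (t2 24 49 50) (.cons (t2 24 27 49) (.cons a113 (.cons a313 (.cons (t1 15 27 50) .nil)))))) (by decide +kernel)
theorem s1641 : Valid A [3555, 3171] := rup _
  (.cons s1613 (.cons (t3 7 24 49) (.cons a65 (.cons (t3 3 7 49) (.cons a404 (.cons (t1 3 27 49) (.cons (t1 17 27 49) (.cons s1528 .nil)))))))) (by decide +kernel)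
theorem s1642 : Valid A [963, 1061, 3165, 968, 1120, 1072, 3171] := rup _
  (.cons s1613 (.cons (t3 7 24 49) (.cons (t1 7 24 36) (.cons s1641 (.cons a65 (.cons a110 (.cons s150 (.cons s494 (.cons (t3 7 15 49) (.cons (t2 7 24 48) (.cons s1640 (.cons a107 (.cons a108 (.cons (t3 8 15 18) (.cons (t1 8 18 50) (.cons s259 .nil)))))))))))))))) (by decide +kernel)
theorem s1643 : Valid A [1348, 2244, 3165, 1340, 3171] := rup _
  (.cons a162 (.cons s874 (.cons (t1 17 30 34) .nil))) (by decide +kernel)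
theorem s1644 : Valid A [2778, 2474, 2218, 2734, 1066, 2479, 422, 2480, 934, 3042, 1072, 3171] := rup _
  (.cons s1613 (.cons (t3 7 24 49) (.cons a67 (.cons s1380 (.cons a341 (.cons (t2 7 21 24) (.cons s1472 (.cons (t3 7 19 45) (.cons (t2 19 23 45) (.cons s199 (.cons a496 (.cons s177 (.cons (t1 23 45 51) .nil))))))))))))) (by decide +kernel)
theorem s1645 : Valid A [2736, 2779, 2764, 2734, 1066, 3004, 4684, 3021, 1347, 1059, 3042, 942, 1044, 1326, 1072, 1340, 3171] := rup _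
  (.cons s1613 (.cons (t3 21 23 45) (.cons (t3 7 24 49) (.cons (t2 7 21 24) (.cons s202 (.cons s1504 (.cons s294 (.cons s671 (.cons (t3 10 21 45) (.cons s1276 (.cons (t2 10 33 45) (.cons (t3 21 36 45) (.cons (t2 10 21 33) (.cons s177 (.cons (t3 5 33 45) (.cons a204 (.cons (t3 5 21 33) .nil))))))))))))))))) (by decide +kernel)
theorem s1646 : Valid A [1066, 3939, 4684, 1101, 3021, 1347, 2479, 1063, 422, 2480, 934, 1059, 3042, 942, 1071, 1072, 1340, 3171] := rup _
  (.cons s1613 (.cons (t1 23 30 49) (.cons (t3 24 30 49) (.cons a402 (.cons a400 (.cons (t3 7 24 49) (.cons (t3 8 21 23) (.cons (t1 8 17 21) (.cons (t1 8 19 21) (.cons (t3 8 21 38) (.cons s1644 (.cons s1645 (.cons (t3 7 21 24) (.cons (t2 21 24 45) (.cons a208 (.cons (t1 7 21 45) (.cons (t2 24 30 45) (.cons (t3 5 7 45) (.cons s177 (.cons s1277 (.cons (t1 30 45 51) (.cons (t3 22 30 45) (.cons a474 .nil))))))))))))))))))))))) (by decide +kernel)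
theorem s1647 : Valid A [3939, 4293, 2402, 1340, 1378] := rup _
  (.cons s1615 (.cons s1617 (.cons s1616 (.cons s1613 (.cons s1636 (.cons a404 (.cons a513 (.cons s1639 (.cons s71 (.cons (t2 7 17 49) (.cons s1093 (.cons (t3 7 8 49) (.cons a402 (.cons s912 (.cons a181 (.cons (t2 8 17 23) (.cons (t2 17 18 23) (.cons a486 (.cons (t2 7 18 49) (.cons (t2 7 10 49) (.cons s936 (.cons s562 (.cons a350 (.cons (t3 7 24 49) (.cons (t3 7 8 24) (.cons a522 (.cons (t3 7 8 23) (.cons s911 (.cons s1032 (.cons (t1 8 17 18) (.cons s1642 (.cons (t1 7 24 33) (.cons s431 (.cons (t3 8 10 50) (.cons (t2 24 49 50) (.cons s1641 (.cons (t2 24 27 49) (.cons a313 (.cons (t2 8 17 50) (.cons (t3 17 27 50) (.cons (t1 17 18 19) (.cons (t1 8 17 19) (.cons (t2 8 19 50) (.cons (t3 19 27 50) (.cons a155 (.cons (t2 17 27 34) (.cons s1643 (.cons (t3 10 33 34) (.cons s760 (.cons (t2 9 10 18) (.cons (t3 7 33 49) (.cons a310 (.cons (t1 6 33 34) (.cons (t3 6 10 34) (.cons (t3 6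 9 10) (.cons a160 (.cons (t2 6 34 38) (.cons (t1 6 9 38) (.cons a265 (.cons (t3 18 36 38) (.cons (t1 8 18 38) (.cons (t2 18 23 38) (.cons a65 (.cons (t3 3 7 49) (.cons a108 (.cons s1640 (.cons (t1 3 15 49) (.cons (t3 15 24 49) (.cons (t2 17 19 23) (.cons a484 (.cons (t2 19 23 36) (.cons s1530 (.cons (t3 3 8 23) (.cons s1529 (.cons (t3 3 18 19) (.cons (t1 18 24 49) (.cons (t1 18 19 24) (.cons a347 (.cons (t1 8 23 49) (.cons (t1 10 24 49) (.cons (t1 3 30 49) (.cons (t1 23 30 49) (.cons s1646 (.cons a143 (.cons (t2 8 21 23) (.cons (t1 8 21 24) (.cons (t3 3 8 21) (.cons (t2 8 17 21) (.cons (t2 8 19 21) (.cons a134 (.cons (t2 17 21 29) (.cons a507 (.cons (t1 0 17 21) (.cons a344 (.cons s585 (.cons (t3 10 24 29) (.cons (t1 15 24 29) (.cons s1420 (.cons a60 (.cons s1065 (.cons (t1 4 15 29) (.cons a146 (.cons (t3 3 10 45) (.cons (t3 3 15 45) (.cons a99 (.cons (t2 4 10 45) .nil))))))))))))))))))))))))))))))))))))))))))))))))))))))))))))))))))))))))))))))))))))))))))))))))))))))))))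 (by decide +kernel)
theorem s1648 : Valid A [3938, 462, 5091, 420, 2402] := rup _
  (.cons a468 (.cons (t1 30 39 49) (.cons (t3 3 18 30) (.cons a48 .nil)))) (by decide +kernel)
theorem s1649 : Valid A [2402, 1340, 1378] := rup _
  (.cons s1617 (.cons s1616 (.cons s1613 (.cons s1636 (.cons (t2 24 49 50) (.cons s1641 (.cons (t2 24 27 49) (.cons a313 (.cons (t2 7 27 49) (.cons (t3 7 24 49) (.cons a65 (.cons a404 (.cons (t2 7 17 49) (.cons (t2 7 10 49) (.cons (t2 7 18 49) (.cons a513 (.cons s71 (.cons s1529 (.cons s1093 (.cons (t3 7 8 49) (.cons (t3 7 8 24) (.cons s1639 (.cons a402 (.cons a522 (.cons (t3 7 8 23) (.cons s936 (.cons s912 (.cons s562 (.cons s911 (.cons a181 (.cons s1032 (.cons (t1 17 18 19) (.cons (t1 8 17 18) (.cons a335 (.cons (t1 8 17 19) (.cons (t2 8 19 39) (.cons s1642 (.cons (t3 7 33 49) (.cons s431 (.cons a108 (.cons (t2 8 17 50) (.cons (t2 8 19 50) (.cons (t3 8 39 50) (.cons s1640 (.cons (t3 17 27 50) (.cons (t3 19 27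 50) (.cons (t2 27 39 50) (.cons (t3 15 24 49) (.cons a155 (.cons a93 (.cons (t2 17 27 34) (.cons (t2 7 14 24) (.cons s442 (.cons (t2 7 39 49) (.cons (t3 3 7 39) (.cons s1643 (.cons s1648 (.cons (t2 30 33 49) (.cons s1647 (.cons a391 (.cons (t2 10 33 34) .nil))))))))))))))))))))))))))))))))))))))))))))))))))))))))))))) (by decide +kernel)

end Pool.Agent.Helper50.Canon.CD
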