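import Mathlib
import Pool.Agent.Helper50.Canon.CD.C11

set_option autoImplicit false

namespace Pool.Agent.Helper50.Canon.CD

theorem s1650 : Valid A [912, 1340, 1378] := rup _
  (.cons s1613 (.cons s1616 (.cons s1617 (.cons s1649 (.cons s80 (.cons a189 (.cons (t1 10 18 49) (.cons (t3 7 18 49) (.cons a348 (.cons a349 (.cons (t2 10 19 46) (.cons a175 (.cons (t2 7 10 49) (.cons a469 (.cons (t2 7 30 49) (.cons s183 (.cons (t2 7 46 49) (.cons s1636 (.cons (t2 24 49 50) (.cons s1641 (.cons (t2 24 27 49) (.cons a313 (.cons (t1 10 24 49) (.cons a171 (.cons a185 (.cons s936 (.cons s431 (.cons (t3 8 19 46) (.cons (t2 8 38 46) (.cons (t2 8 10 50) (.cons (t2 8 19 50) (.cons (t3 8 38 50) (.cons (t3 10 27 50) (.cons (t3 19 27 50) (.cons a329 (.cons a155 (.cons (t3 24 38 49) (.cons (t2 10 27 34) (.cons s988 .nil))))))))))))))))))))))))))))))))))))))) (by decide +kernel)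
theorem s1651 : Valid A [1348, 1327, 1340, 1378] := rup _
  (.cons s1613 (.cons s1617 (.cons s1649 (.cons s80 (.cons a189 (.cons (t1 10 18 49) (.cons (t3 7 18 49) (.cons a348 (.cons a349 (.cons (t2 10 19 46) (.cons s1636 (.cons a404 (.cons (t2 7 17 49) (.cons s1650 (.cons s1093 (.cons (t3 17 19 46) (.cons a336 (.cons (t1 7 8 17) (.cons (t2 7 8 49) (.cons s1509 (.cons (t2 10 17 23) (.cons (t1 17 23 39) (.cons a175 (.cons (t2 10 38 46) (.cons (t1 10 23 38) (.cons (t2 17 38 46) (.cons (t2 24 49 50) (.cons s1641 (.cons (t2 24 27 49) (.cons a313 (.cons (t1 10 24 49) (.cons a171 (.cons a162 (.cons s988 (.cons a158 (.cons (t3 24 38 49) (.cons (t1 30 34 38) (.cons a329 (.cons (t3 17 38 50) (.cons (t3 23 38 50) (.cons (t3 27 38 50) (.cons (t1 17 27 50) (.cons (t1 23 27 50) (.cons (t3 27 30 38) (.cons s1528 (.cons a325 (.cons (t1 3 27 30) (.cons (t2 27 30 39) (.cons a51 .nil))))))))))))))))))))))))))))))))))))))))))))))))) (by decide +kernel)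
theorem s1652 : Valid A [1070, 1340, 1378] := rup _
  (.cons s1617 (.cons s1615 (.cons s1613 (.cons s1649 (.cons s80 (.cons a189 (.cons (t1 10 18 49) (.cons (t3 7 18 49) (.cons a348 (.cons a349 (.cons (t2 10 19 46) (.cons s1636 (.cons a404 (.cons (t2 7 17 49) (.cons s1650 (.cons s1093 (.cons (t3 17 19 46) (.cons a336 (.cons (t1 7 8 17) (.cons (t2 7 8 49) (.cons s1509 (.cons (t2 7 10 49) (.cons a469 (.cons (t2 7 30 49) (.cons s183 (.cons (t1 7 8 33) (.cons (t1 7 8 10) (.cons (t3 7 33 49) (.cons a310 (.cons (t2 24 49 50) (.cons s1641 (.cons (t2 24 27 49) (.cons a313 (.cons (t1 6 24 49) (.cons a399 (.cons (t2 10 17 23) (.cons (t1 17 23 39) (.cons s1651 (.cons s65 (.cons (t2 10 19 34) (.cons (t2 10 23 34) (.cons (t1 10 23 48) (.cons a156 (.cons a520 (.cons (t2 23 27 34) (.cons (t3 27 34 50) (.cons (t3 8 33 48) (.cons a325 (.cons s176 (.cons (t2 27 39 50) (.cons (t1 6 33 34) (.cons s163 (.cons (t2 6 34 50) .nil)))))))))))))))))))))))))))))))))))))))))))))))))))))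 (by decide +kernel)
theorem s1653 : Valid A [1340, 1378] := rup _
  (.cons s1613 (.cons s1636 (.cons (t3 7 24 49) (.cons a67 (.cons a404 (.cons (t2 7 17 49) (.cons s1649 (.cons s80 (.cons (t3 7 18 49) (.cons s1650 (.cons (t2 7 8 49) (.cons s1093 (.cons (t2 7 8 18) (.cons (t2 7 8 24) (.cons s1535 (.cons s1652 (.cons (t2 8 23 49) (.cons (t2 8 18 23) (.cons (t2 8 23 24) (.cons a521 (.cons a484 (.cons (t3 23 48 49) (.cons (t1 23 24 48) (.cons (t3 23 36 49) (.cons a479 (.cons a44 (.cons s140 (.cons (t3 3 36 48) (.cons (t1 3 36 46) .nil))))))))))))))))))))))))))))) (by decide +kernel)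
theorem s1654 : Valid A [912, 3548, 5988, 2525, 3933, 2353, 5986, 1070, 3171] := rup _
  (.cons s1616 (.cons s1613 (.cons (t2 7 46 49) (.cons s1641 (.cons (t3 7 24 49) (.cons a65 (.cons a404 (.cons (t2 7 17 49) (.cons (t3 7 8 24) (.cons a185 (.cons a183 (.cons s1558 (.cons (t2 8 46 50) (.cons (t2 8 27 46) (.cons (t1 17 19 46) (.cons (t1 23 24 49) (.cons (t3 7 23 24) (.cons (t3 18 23 24) (.cons s431 (.cons a484 (.cons a110 (.cons a112 (.cons a448 (.cons (t3 23 36 49) (.cons (t2 7 23 36) (.cons (t3 7 15 49) (.cons a95 (.cons s140 (.cons s494 (.cons a113 (.cons (t3 19 36 46) (.cons (t3 30 36 46) (.cons (t2 15 27 41) (.cons (t3 3 19 36) (.cons (t3 3 30 36) (.cons (t3 8 27 41) (.cons a50 (.cons s260 (.cons (t1 3 19 39) (.cons (t3 7 17 39) (.cons a333 .nil))))))))))))))))))))))))))))))))))))))))) (by decide +kernel)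
theorem s1655 : Valid A [43, 584, 546, 2602, 4698, 1706, 987, 2218, 939, 1353] := rup _
  (.cons (t3 0 7 21) (.cons (t2 0 17 21) (.cons (t2 0 13 21) (.cons a384 (.cons a509 (.cons (t1 0 4 13) (.cons (t3 7 11 21) (.cons (t3 7 11 45) (.cons a476 (.cons a33 (.cons a379 (.cons (t3 10 13 36) (.cons (t3 11 13 36) (.cons a21 (.cons (t2 11 13 20) .nil))))))))))))))) (by decide +kernel)
theorem s1656 : Valid A [1067, 1107, 1070, 1378] := rup _
  (.cons s1617 (.cons s1613 (.cons s1636 (.cons a404 (.cons (t2 7 17 49) (.cons s1639 (.cons s80 (.cons (t3 18 24 49) (.cons s1653 (.cons a189 (.cons (t2 10 30 46) (.cons (t1 10 18 49) (.cons (t3 7 18 49) (.cons a348 (.cons a349 (.cons (t2 10 19 46) (.cons a171 (.cons (t1 10 24 49) (.cons a163 (.cons s988 (.cons (t3 24 38 49) (.cons a329 (.cons a175 (.cons (t3 38 46 50) (.cons (t2 24 49 50) (.cons s1641 (.cons (t2 24 27 49) (.cons a313 (.cons (t3 27 38 50) (.cons (t2 27 38 46) (.cons s1654 (.cons s1093 (.cons (t3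 7 24 49) (.cons a67 (.cons (t1 10 19 34) (.cons a176 (.cons (t1 19 27 38) (.cons a154 (.cons s93 (.cons (t2 17 27 46) (.cons s1528 (.cons (t2 3 27 48) (.cons a44 (.cons (t2 24 48 49) (.cons a480 (.cons s140 (.cons (t3 17 36 46) (.cons (t3 19 36 46) (.cons (t2 36 38 46) (.cons (t3 10 36 46) (.cons (t2 7 8 23) (.cons (t1 7 18 23) (.cons a482 (.cons (t1 18 24 48) (.cons (t2 18 36 48) (.cons a483 (.cons (t2 7 8 49) (.cons (t2 8 36 49) (.cons (t2 7 36 49) (.cons s1535 (.cons (t1 3 19 46) (.cons (t2 7 10 49) (.cons (t1 7 8 10) (.cons a399 (.cons (t2 10 23 30) (.cons (t2 7 27 49) (.cons (t1 7 8 27) (.cons a65 (.cons (t3 3 7 8) (.cons (t1 7 8 17) (.cons (t2 7 8 24) (.cons (t3 7 10 30) (.cons (t1 7 8 30) (.cons a346 (.cons (t1 7 8 19) (.cons a143 (.cons a145 (.cons (t1 7 8 21) (.cons (t1 8 21 23) (.cons (t2 8 21 49) (.cons (t3 8 17 21) (.cons s1379 (.cons (t1 8 21 30) (.cons (t1 8 21 36) (.cons (t2 8 21 41) (.cons (t2 7 21 29) (.cons (t1 8 24 29) (.cons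 a208 (.cons a210 (.cons (t1 7 21 45) (.cons a504 (.cons s300 (.cons (t1 8 21 45) (.cons (t3 21 30 45) (.cons (t3 21 36 45) (.cons a452 (.cons (t3 5 7 49) (.cons a203 (.cons a30 (.cons a86 (.cons s177 (.cons (t2 7 21 43) (.cons (t2 8 21 43) (.cons (t3 5 10 36) (.cons (t3 5 19 36) (.cons (t3 5 17 36) (.cons (t2 5 36 38) (.cons (t1 20 21 45) (.cons (t3 2 7 8) (.cons (t3 30 45 51) (.cons (t1 8 45 51) (.cons a213 (.cons s472 (.cons a82 (.cons (t3 4 5 17) (.cons (t3 4 5 10) (.cons (t3 4 5 36) (.cons s1655 (.cons a505 (.cons (t1 0 7 21) (.cons s9 (.cons s474 (.cons (t2 10 23 29) (.cons (t3 23 29 30) (.cons a130 (.cons a146 (.cons s1116 (.cons (t3 27 29 38) (.cons (t2 4 7 29) (.cons (t3 4 27 29) (.cons (t1 7 8 32) (.cons (t3 8 27 32) (.cons a454 (.cons a415 (.cons (t2 4 27 43) (.cons a321 (.cons (t3 2 27 43) (.cons a76 .nil))))))))))))))))))))))))))))))))))))))))))))))))))))))))))))))))))))))))))))))))))))))))))))))))))))))))))))))))))))))))))))))))))))))))))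 (by decide +kernel)
theorem s1657 : Valid A [2219, 2778, 1066, 1070, 1378] := rup _
  (.cons s1617 (.cons s1613 (.cons s1636 (.cons s1639 (.cons s80 (.cons (t3 18 24 49) (.cons s1653 (.cons a189 (.cons (t2 10 30 46) (.cons (t1 10 18 49) (.cons (t3 7 18 49) (.cons a348 (.cons a349 (.cons (t2 10 19 46) (.cons a171 (.cons (t1 10 24 49) (.cons a163 (.cons s988 (.cons (t3 24 38 49) (.cons a329 (.cons a175 (.cons (t3 38 46 50) (.cons (t2 24 49 50) (.cons s1641 (.cons (t2 24 27 49) (.cons a313 (.cons (t3 27 38 50) (.cons (t2 27 38 46) (.cons s1654 (.cons (t2 7 8 49) (.cons (t3 8 21 49) (.cons (t3 7 24 49) (.cons (t2 7 8 24) (.cons (t3 8 21 24) (.cons (t2 7 8 21) (.cons a404 (.cons (t2 7 17 49) (.cons s1093 (.cons a67 (.cons (t1 10 19 34) (.cons a176 (.cons (t1 19 27 38) (.cons a154 (.cons s93 (.cons (t2 17 27 46) (.cons s1528 (.cons (t2 3 27 48) (.cons a44 (.cons (t2 24 48 49) (.cons a480 (.cons s140 (.cons (t3 17 36 46) (.cons (t3 10 36 46) (.cons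 (t2 7 8 23) (.cons (t1 7 18 23) (.cons a482 (.cons (t1 18 24 48) (.cons (t2 18 36 48) (.cons a483 (.cons (t1 7 8 17) (.cons s1509 (.cons (t2 7 10 49) (.cons (t1 7 8 10) (.cons a399 (.cons (t2 10 17 23) (.cons (t3 17 30 46) (.cons (t3 17 19 46) (.cons a65 (.cons s1532 (.cons (t2 17 21 23) (.cons (t1 10 17 21) (.cons (t2 17 19 21) (.cons (t2 17 21 30) (.cons (t2 17 21 36) (.cons (t2 17 21 45) (.cons a60 (.cons a506 (.cons (t2 10 21 45) (.cons a223 (.cons a489 (.cons (t3 3 24 45) (.cons (t3 3 7 45) (.cons (t1 0 10 23) (.cons (t1 21 23 52) (.cons (t2 10 28 36) (.cons s199 (.cons s1539 (.cons s924 (.cons s177 (.cons (t1 19 21 29) (.cons (t1 17 21 29) (.cons (t3 11 19 21) (.cons (t1 11 21 30) (.cons (t3 21 45 51) (.cons (t1 3 45 51) (.cons a140 (.cons a373 (.cons s285 (.cons (t3 3 22 51) (.cons (t2 19 22 29) (.cons (t3 11 16 19) (.cons a59 (.cons a337 .nil)))))))))))))))))))))))))))))))))))))))))))))))))))))))))))))))))))))))))))))))))))))))))))))))))))))))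 (by decide +kernel)
theorem s1658 : Valid A [2778, 1107, 1070, 1378] := rup _
  (.cons s1617 (.cons s1613 (.cons s1636 (.cons s1639 (.cons s80 (.cons (t3 18 24 49) (.cons s1653 (.cons a189 (.cons (t2 10 30 46) (.cons (t1 10 18 49) (.cons (t3 7 18 49) (.cons a348 (.cons a349 (.cons (t2 10 19 46) (.cons a171 (.cons (t1 10 24 49) (.cons a163 (.cons s988 (.cons (t3 24 38 49) (.cons a329 (.cons a175 (.cons (t3 38 46 50) (.cons (t2 24 49 50) (.cons s1641 (.cons (t2 24 27 49) (.cons a313 (.cons (t3 27 38 50) (.cons (t2 27 38 46) (.cons s1654 (.cons (t2 7 8 49) (.cons s1656 (.cons (t3 8 21 49) (.cons (t3 7 24 49) (.cons (t2 7 8 24) (.cons (t3 8 21 24) (.cons (t2 7 8 21) (.cons a404 (.cons (t2 7 17 49) (.cons s1093 (.cons a67 (.cons (t1 10 19 34) (.cons a176 (.cons (t1 19 27 38) (.cons a154 (.cons s93 (.cons (t2 17 27 46) (.cons s1528 (.cons (t2 3 27 48) (.cons a44 (.cons (t2 24 48 49) (.cons a480 (.cons s140 (.cons (t3 17 36 46) (.cons (t2 7 36 49) (.cons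 (t1 3 27 38) (.cons s1535 (.cons (t1 3 19 46) (.cons (t1 7 8 17) (.cons s1509 (.cons (t2 7 10 49) (.cons (t1 7 8 10) (.cons a399 (.cons (t2 10 17 23) (.cons (t3 17 19 46) (.cons (t3 8 23 49) (.cons (t2 7 8 23) (.cons s1657 (.cons (t2 10 17 21) (.cons (t3 17 21 23) (.cons (t1 17 19 21) (.cons (t3 17 21 36) (.cons s118 (.cons s294 (.cons s444 (.cons s680 (.cons s201 (.cons a396 (.cons a397 (.cons (t2 10 23 45) (.cons (t2 10 30 45) (.cons (t3 0 7 49) (.cons (t2 3 21 27) (.cons (t2 3 21 38) (.cons (t2 5 21 45) (.cons (t2 5 10 21) (.cons (t1 5 21 38) (.cons (t1 22 23 45) (.cons (t1 10 17 22) (.cons s1109 (.cons s177 (.cons s133 (.cons a199 (.cons (t1 21 22 49) (.cons (t1 30 45 51) (.cons (t2 27 38 42) (.cons s203 (.cons a466 (.cons a142 (.cons a134 (.cons (t1 21 27 29) (.cons (t2 10 30 32) (.cons (t2 8 29 41) (.cons a151 (.cons a126 (.cons (t2 8 29 32) (.cons (t3 29 32 41) (.cons (t1 8 29 42) (.cons (t1 24 29 42) (.cons (t2 29 41 42) (.cons a361 (.cons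 a369 (.cons (t1 28 41 42) (.cons (t3 8 12 49) (.cons a517 (.cons a529 (.cons a499 (.cons (t1 10 28 32) (.cons (t3 12 28 32) (.cons (t3 3 12 21) (.cons a387 (.cons (t3 11 12 28) (.cons a43 .nil)))))))))))))))))))))))))))))))))))))))))))))))))))))))))))))))))))))))))))))))))))))))))))))))))))))))))))))))))))))))))) (by decide +kernel)
theorem s1659 : Valid A [1107, 1070, 1378] := rup _
  (.cons s1617 (.cons s1613 (.cons s1639 (.cons s80 (.cons a189 (.cons (t1 10 18 49) (.cons (t3 7 18 49) (.cons a348 (.cons a349 (.cons (t2 10 19 46) (.cons s1636 (.cons (t3 7 24 49) (.cons a67 (.cons s1653 (.cons a163 (.cons (t1 10 19 34) (.cons (t2 24 49 50) (.cons s1641 (.cons (t2 24 27 49) (.cons a313 (.cons a171 (.cons (t1 10 24 49) (.cons s988 (.cons (t3 24 38 49) (.cons a329 (.cons (t3 27 38 50) (.cons a176 (.cons (t1 19 27 38) (.cons a154 (.cons s93 (.cons a175 (.cons (t2 27 38 46) (.cons a404 (.cons (t2 7 17 49) (.cons (t3 18 24 49) (.cons (t2 10 30 46)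 (.cons (t3 38 46 50) (.cons s1654 (.cons s1093 (.cons (t2 17 27 46) (.cons s1528 (.cons (t2 3 27 48) (.cons a44 (.cons (t2 24 48 49) (.cons a480 (.cons s140 (.cons (t3 19 36 46) (.cons (t2 7 8 23) (.cons (t1 7 18 23) (.cons a482 (.cons (t1 18 24 48) (.cons (t2 18 36 48) (.cons a483 (.cons (t2 7 36 49) (.cons s1656 (.cons (t2 7 8 21) (.cons s1658 (.cons a344 (.cons s300 (.cons (t3 19 21 36) (.cons (t1 5 21 45) (.cons s201 .nil)))))))))))))))))))))))))))))))))))))))))))))))))))))))))))))) (by decide +kernel)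
theorem s1660 : Valid A [1067, 797, 1864, 1052, 1055, 2505, 1096, 422, 400, 1062, 913] := rup _
  (.cons (t1 7 8 21) (.cons s1379 (.cons (t1 8 21 36) (.cons (t2 8 15 21) (.cons (t3 8 14 21) (.cons a210 (.cons (t1 7 21 45) (.cons a103 (.cons (t1 15 21 45) (.cons a203 (.cons (t2 7 21 26) (.cons a100 (.cons (t3 5 19 36) (.cons (t1 4 21 45) (.cons (t1 4 7 45) (.cons a213 (.cons a419 (.cons (t3 4 5 36) (.cons a309 (.cons s823 (.cons (t3 4 6 14) (.cons a538 (.cons (t3 14 21 28) (.cons (t1 14 28 36) (.cons a487 .nil))))))))))))))))))))))))) (by decide +kernel)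
theorem s1661 : Valid A [2778, 1070, 1378] := rup _
  (.cons s1615 (.cons s1617 (.cons s1613 (.cons s1636 (.cons s1639 (.cons s80 (.cons (t3 18 24 49) (.cons s1653 (.cons a189 (.cons (t2 10 30 46) (.cons (t1 10 18 49) (.cons (t3 7 18 49) (.cons a348 (.cons a349 (.cons (t2 10 19 46) (.cons a171 (.cons (t1 10 24 49) (.cons a163 (.cons s988 (.cons (t3 24 38 49) (.cons a329 (.cons a175 (.cons (t3 38 46 50) (.cons (t2 24 49 50) (.cons s1641 (.cons (t2 24 27 49) (.cons a313 (.cons (t3 27 38 50) (.cons (t2 27 38 46) (.cons s1654 (.cons (t2 7 8 49) (.cons a346 (.cons (t1 7 8 19) (.cons (t3 7 24 49) (.cons a65 (.cons (t3 3 7 8) (.cons a404 (.cons (t2 7 17 49) (.cons s1093 (.cons s1535 (.cons (t1 3 19 46) (.cons a67 (.cons (t1 10 19 34) (.cons a176 (.cons (t1 19 27 38) (.cons a154 (.cons s93 (.cons (t2 17 27 46) (.cons s1528 (.cons (t2 3 27 48) (.cons a44 (.cons (t2 24 48 49) (.cons a480 (.cons (t2 8 36 49) (.cons s140 (.cons (t3 19 36 46) (.cons (t2 7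 36 49) (.cons (t1 3 36 46) (.cons s494 (.cons s1659 (.cons (t2 7 8 41) (.cons a446 (.cons a96 (.cons a109 (.cons (t2 7 8 15) (.cons (t2 7 8 24) (.cons (t2 7 15 24) (.cons a93 (.cons (t2 8 14 24) (.cons (t1 27 36 46) (.cons (t2 7 27 49) (.cons (t2 7 14 24) (.cons a317 (.cons (t2 14 27 36) (.cons (t2 10 38 46) (.cons (t1 10 27 38) (.cons (t2 7 10 49) (.cons (t1 7 8 10) (.cons a399 (.cons (t1 10 23 27) (.cons (t3 17 19 46) (.cons a336 (.cons (t1 7 8 17) (.cons s1509 (.cons (t2 10 17 23) (.cons (t1 17 23 39) (.cons a325 (.cons (t1 6 24 49) (.cons (t3 3 7 49) (.cons (t1 3 18 49) (.cons a471 (.cons (t1 3 30 46) (.cons s139 (.cons (t1 18 24 39) (.cons a300 (.cons (t3 6 27 39) (.cons (t3 6 14 27) (.cons s1660 (.cons (t3 8 21 49) (.cons (t3 8 21 24) (.cons (t2 7 8 21) (.cons (t3 30 36 46) (.cons (t3 17 36 46) (.cons (t3 10 36 46) (.cons (t1 3 27 38) (.cons (t2 10 23 30) (.cons (t3 8 23 49) (.cons (t2 7 8 23) (.cons s1657 (.cons (t2 10 17 21) (.cons (t3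 17 21 23) (.cons (t1 17 19 21) (.cons (t3 17 21 36) (.cons s118 (.cons s294 (.cons s444 (.cons s680 (.cons s201 (.cons a396 (.cons a397 (.cons (t2 10 23 45) (.cons (t2 10 36 45) (.cons (t3 0 7 49) (.cons (t2 3 21 27) (.cons (t2 3 21 38) (.cons (t2 5 10 21) (.cons (t3 3 5 21) (.cons (t1 5 21 38) (.cons (t1 22 23 45) (.cons (t1 10 17 22) (.cons a380 (.cons s133 (.cons a199 (.cons s1109 (.cons (t1 11 23 45) (.cons (t2 27 38 42) (.cons (t1 21 22 49) (.cons s203 (.cons a142 (.cons a134 (.cons s377 (.cons (t1 21 27 29) (.cons a126 (.cons (t2 29 42 49) (.cons (t1 8 29 42) (.cons (t1 24 29 42) (.cons a361 (.cons a369 (.cons (t3 8 12 49) (.cons (t3 28 42 49) (.cons a499 (.cons (t3 3 12 21) (.cons a42 (.cons (t3 3 11 21) (.cons (t1 3 5 11) (.cons s250 (.cons s246 (.cons (t2 11 28 49) (.cons s87 (.cons a387 (.cons (t2 10 23 28) .nil)))))))))))))))))))))))))))))))))))))))))))))))))))))))))))))))))))))))))))))))))))))))))))))))))))))))))))))))))))))))))))))))))))))))))))))))))))))))))))))))))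 (by decide +kernel)
theorem s1662 : Valid A [1070, 1378] := rup _
  (.cons s1615 (.cons s1617 (.cons s1613 (.cons s1636 (.cons (t2 24 49 50) (.cons s1641 (.cons (t2 24 27 49) (.cons a313 (.cons a171 (.cons (t1 10 24 49) (.cons s1653 (.cons a163 (.cons s988 (.cons (t3 24 38 49) (.cons a329 (.cons (t3 27 38 50) (.cons (t2 7 27 49) (.cons (t3 7 24 49) (.cons a65 (.cons (t3 3 7 49) (.cons a67 (.cons a404 (.cons (t2 7 17 49) (.cons (t1 6 24 49) (.cons (t2 7 10 49) (.cons s1639 (.cons a471 (.cons s80 (.cons (t3 18 24 49) (.cons (t3 7 18 49) (.cons (t1 10 18 49) (.cons (t1 3 18 49) (.cons a189 (.cons a346 (.cons a348 (.cons (t2 10 30 46) (.cons a349 (.cons (t2 10 19 46) (.cons (t1 10 19 34) (.cons a175 (.cons a176 (.cons (t2 10 38 46) (.cons (t3 38 46 50) (.cons (t2 27 38 46) (.cons (t1 19 27 38) (.cons (t1 10 27 38) (.cons a154 (.cons s93 (.cons s1654 (.cons (t2 7 8 49) (.cons (t1 7 8 10) (.cons s1093 (.cons (t1 7 8 19) (.cons (t2 7 8 23) (.cons (t2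 7 8 24) (.cons (t1 7 8 17) (.cons (t3 3 7 8) (.cons s1509 (.cons a399 (.cons s1535 (.cons (t3 17 19 46) (.cons (t2 17 27 46) (.cons (t1 7 18 23) (.cons (t2 10 17 23) (.cons (t1 10 23 27) (.cons (t1 3 19 46) (.cons (t1 3 30 46) (.cons a336 (.cons s1528 (.cons (t1 17 23 39) (.cons s139 (.cons (t2 3 27 48) (.cons a325 (.cons (t1 18 24 39) (.cons a44 (.cons a300 (.cons (t2 24 48 49) (.cons (t1 18 24 48) (.cons (t3 6 27 39) (.cons a480 (.cons a482 (.cons (t2 18 36 48) (.cons (t2 7 36 49) (.cons s140 (.cons (t2 8 36 49) (.cons a483 (.cons (t3 19 36 46) (.cons (t1 27 36 46) (.cons (t1 3 36 46) (.cons s494 (.cons s1659 (.cons (t2 7 8 41) (.cons a446 (.cons a96 (.cons a109 (.cons (t2 7 15 24) (.cons (t2 7 8 15) (.cons a93 (.cons (t2 7 14 24) (.cons (t2 8 14 24) (.cons a317 (.cons (t2 14 27 36) (.cons (t3 6 14 27) (.cons s1660 (.cons (t2 7 8 21) (.cons s1661 (.cons a344 (.cons s300 (.cons (t3 19 21 36) (.cons (t1 5 21 45) (.cons s201 .nil)))))))))))))))))))))))))))))))))))))))))))))))))))))))))))))))))))))))))))))))))))))))))))))))))))))))))))))))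 (by decide +kernel)
theorem s1663 : Valid A [912, 1378] := rup _
  (.cons s1613 (.cons s1653 (.cons s1662 (.cons a402 (.cons (t3 8 10 30) (.cons a163 (.cons s1636 (.cons (t3 7 24 49) (.cons a404 (.cons (t2 7 10 49) (.cons (t3 7 8 49) (.cons (t3 7 8 24) (.cons s936 (.cons s912 (.cons a189 (.cons s1032 (.cons (t1 17 46 49) (.cons s874 (.cons a181 (.cons (t1 8 17 30) .nil)))))))))))))))))))) (by decide +kernel)
theorem s1664 : Valid A [1378] := rup _
  (.cons s1613 (.cons s1636 (.cons a404 (.cons (t3 7 24 49) (.cons (t2 7 17 49) (.cons a67 (.cons s1662 (.cons a522 (.cons s1663 (.cons a186 (.cons (t2 7 8 49) (.cons s1093 (.cons (t2 7 8 24) (.cons (t3 7 46 49) (.cons (t2 8 23 49) (.cons (t3 8 48 49) (.cons s1535 (.cons (t1 8 24 48) (.cons s138 (.cons (t3 18 23 49) (.cons a44 (.cons a484 (.cons (t3 3 46 48) (.cons (t3 23 36 49) (.cons s140 (.cons a479 (.cons (t2 36 46 48) .nil))))))))))))))))))))))))))) (by decide +kernel)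
theorem s1665 : Valid A [5987] := rup _
  (.cons s1664 (.cons a190 .nil)) (by decide +kernel)
theorem s1666 : Valid A [1373] := rup _
  (.cons s1664 (.cons a192 .nil)) (by decide +kernel)
theorem s1667 : Valid A [916] := rup _
  (.cons s1664 (.cons s1613 (.cons (t3 7 10 49) .nil))) (by decide +kernel)
theorem s1668 : Valid A [1381] := rup _
  (.cons s1664 (.cons s1617 (.cons (t2 10 49 50) .nil))) (by decide +kernel)
theorem s1669 : Valid A [1349] := rup _
  (.cons s1664 (.cons s1618 (.cons (t2 10 34 49) .nil))) (by decide +kernel)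
theorem s1670 : Valid A [989] := rup _
  (.cons s1665 (.cons s1613 (.cons (t2 7 46 49) .nil))) (by decide +kernel)
theorem s1671 : Valid A [912, 1070, 3170] := rup _
  (.cons s1666 (.cons s1618 (.cons s1670 (.cons s1613 (.cons s1667 (.cons s1616 (.cons s1615 (.cons s1617 (.cons s1664 (.cons a168 (.cons s90 (.cons (t2 10 24 49) (.cons (t3 7 8 10) (.cons a185 (.cons a399 (.cons a183 (.cons s60 (.cons (t3 8 23 46) (.cons (t2 10 23 49) (.cons s1632 (.cons (t1 7 10 23) (.cons s351 (.cons a178 (.cons (t1 17 24 46) (.cons (t1 24 46 48) (.cons s77 (.cons a403 (.cons s154 (.cons a514 (.cons s1533 (.cons (t2 23 48 49) (.cons (t1 7 23 48) (.cons s1058 (.cons s710 (.cons a480 (.cons (t2 3 24 36) (.cons (t2 7 36 49) (.cons s494 (.cons (t3 7 33 49) (.cons (t1 7 10 33) (.cons s431 (.cons (t3 7 33 48) (.cons a310 (.cons (t3 8 18 50) (.cons s176 (.cons s482 (.cons (t3 24 33 34) (.cons (t1 18 33 34) (.cons (t2 10 39 49) (.cons (t3 6 24 33) (.cons s165 (.cons (t1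 10 30 39) (.cons a301 (.cons (t3 10 24 30) (.cons s1166 .nil))))))))))))))))))))))))))))))))))))))))))))))))))))))) (by decide +kernel)
theorem s1672 : Valid A [1067, 3917, 4685, 3149, 3004, 3145, 3555, 1096, 956, 3042, 1072, 913] := rup _
  (.cons s1613 (.cons (t2 7 8 49) (.cons (t3 8 27 49) (.cons (t3 7 27 49) (.cons a143 (.cons (t1 7 8 21) (.cons (t1 8 21 24) (.cons (t1 8 21 36) (.cons (t2 8 21 27) (.cons a134 (.cons (t1 21 27 29) (.cons a208 (.cons a210 (.cons (t2 24 29 36) (.cons (t2 24 29 38) (.cons (t3 5 7 49) (.cons a203 (.cons (t3 5 29 36) (.cons a131 (.cons a132 (.cons (t1 5 36 38) (.cons (t2 5 11 29) (.cons (t1 11 30 38) (.cons a199 (.cons a215 (.cons (t2 29 38 42) (.cons (t2 11 23 49) (.cons a126 (.cons s231 (.cons (t1 7 27 42) (.cons (t2 27 42 49) (.cons s147 (.cons (t2 7 42 52) (.cons a237 .nil)))))))))))))))))))))))))))))))))) (by decide +kernel)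
theorem s1673 : Valid A [2760, 2778, 938, 3004, 3913, 968, 1340, 1326] := rup _
  (.cons s1667 (.cons (t2 7 10 30) (.cons (t1 21 30 36) (.cons s201 (.cons s1457 (.cons (t2 5 21 45) (.cons s1277 (.cons s177 .nil)))))))) (by decide +kernel)
theorem s1674 : Valid A [2761, 1066, 1868, 4685, 3149, 2343, 1308, 2377, 3145, 2268, 942, 913] := rup _
  (.cons s1667 (.cons s1613 (.cons s1664 (.cons (t2 7 8 21) (.cons a485 (.cons a188 (.cons a181 (.cons s1093 (.cons (t2 7 8 10) (.cons (t2 7 8 49) (.cons a204 (.cons a489 (.cons (t2 21 23 36) (.cons (t3 21 24 36) (.cons (t3 18 21 36) (.cons (t1 5 18 21) (.cons a207 (.cons (t2 18 28 36) (.cons (t3 28 36 38) (.cons s294 (.cons a135 (.cons a137 (.cons (t1 5 7 49) (.cons (t1 5 7 8) (.cons (t3 0 7 17) (.cons (t3 24 29 38) (.cons a142 (.cons a216 (.cons (t1 5 8 29) (.cons (t2 8 10 29) (.cons (t2 8 29 49) (.cons (t2 8 17 29) (.cons (t2 7 11 49) (.cons (t2 10 11 49) (.cons (t1 11 29 49) (.cons a147 (.cons a383 (.cons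 a130 (.cons (t1 4 17 29) (.cons (t1 4 5 29) (.cons (t1 0 11 38) (.cons (t2 11 28 38) (.cons a509 (.cons s364 (.cons (t2 0 14 38) (.cons a387 (.cons (t1 0 4 14) (.cons (t2 4 18 28) (.cons (t3 10 14 28) (.cons a538 .nil)))))))))))))))))))))))))))))))))))))))))))))))))) (by decide +kernel)
theorem s1675 : Valid A [963, 2402, 1340, 1070, 3170] := rup _
  (.cons s1618 (.cons s1665 (.cons s1616 (.cons s1666 (.cons s1664 (.cons s1669 (.cons s1667 (.cons s1613 (.cons s1671 (.cons (t2 7 8 49) (.cons s390 (.cons (t3 10 30 49) (.cons a468 (.cons s76 (.cons (t2 24 30 46) (.cons s1318 (.cons (t2 8 36 49) (.cons (t2 10 36 49) (.cons (t2 7 36 49) (.cons (t3 18 24 30) (.cons (t2 7 18 49) (.cons s1267 (.cons s1533 (.cons s710 (.cons (t3 3 18 24) (.cons (t1 3 24 30) (.cons s138 (.cons s1093 (.cons s1534 (.cons (t2 8 18 49) (.cons (t2 7 10 30) (.cons (t2 7 8 23) (.cons (t1 7 10 23) (.cons (t3 8 23 49) (.cons (t2 7 8 10) (.cons (t2 7 24 49) (.cons (t1 7 8 24) (.cons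 (t1 7 8 50) (.cons a110 (.cons a447 (.cons (t2 7 10 33) (.cons s883 (.cons s494 (.cons (t1 7 10 15) (.cons (t1 7 8 15) (.cons (t1 7 8 41) (.cons (t3 7 27 49) (.cons (t2 3 24 36) (.cons (t2 3 18 36) (.cons (t2 3 30 36) (.cons a105 (.cons s219 (.cons a318 (.cons s188 (.cons a485 (.cons (t1 23 30 36) (.cons (t3 15 24 50) (.cons a438 (.cons (t2 7 17 39) (.cons (t1 7 10 14) (.cons a93 (.cons (t1 15 24 36) (.cons (t1 7 10 47) (.cons a334 (.cons (t1 14 18 24) (.cons s134 (.cons (t2 7 19 39) (.cons a345 (.cons s620 (.cons (t1 18 38 49) (.cons (t2 18 24 38) (.cons (t3 8 18 38) (.cons (t2 18 36 38) (.cons (t2 18 30 38) (.cons (t3 14 18 38) (.cons s1672 (.cons (t2 7 8 21) (.cons (t1 8 10 21) (.cons (t3 8 21 49) (.cons s1674 (.cons (t1 21 24 36) (.cons s680 (.cons s201 (.cons (t2 15 21 36) (.cons (t3 21 36 38) (.cons s986 (.cons s1673 (.cons s202 (.cons (t2 5 21 38) (.cons s1188 (.cons s569 (.cons s7 (.cons (t3 10 21 29) (.cons s472 (.cons (t1 7 10 11) (.cons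 (t1 0 5 21) (.cons s1419 (.cons a130 (.cons a387 (.cons s226 (.cons (t3 4 21 29) (.cons (t3 4 11 29) (.cons s294 (.cons (t1 4 21 23) (.cons (t1 4 11 28) (.cons (t1 4 23 47) (.cons a535 .nil))))))))))))))))))))))))))))))))))))))))))))))))))))))))))))))))))))))))))))))))))))))))))))))))))))))))))) (by decide +kernel)
theorem s1676 : Valid A [2778, 700, 394, 738, 443, 2234, 2760, 2219, 426, 2787, 456, 445, 4706, 2236] := rup _
  (.cons (t3 21 45 49) (.cons a60 (.cons (t2 3 30 45) (.cons (t3 3 36 45) (.cons (t2 3 29 45) (.cons (t3 3 5 45) (.cons s384 (.cons s727 (.cons s177 (.cons (t1 11 17 21) (.cons a215 (.cons (t1 3 45 51) (.cons (t1 30 45 51) (.cons (t1 29 45 51) (.cons (t1 5 11 30) (.cons (t3 3 5 11) (.cons a473 (.cons (t1 22 29 51) (.cons s401 (.cons (t2 3 22 51) (.cons a138 (.cons a376 (.cons (t3 3 11 16) (.cons (t3 16 17 22) (.cons a56 .nil))))))))))))))))))))))))) (by decide +kernel)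
theorem s1677 : Valid A [1067, 3912, 456, 4706, 433, 1059, 2275, 3133, 1340, 1072, 913, 1070] := rup _
  (.cons s1667 (.cons s1664 (.cons s1613 (.cons (t2 7 8 49) (.cons (t2 8 36 49) (.cons (t1 3 24 30) (.cons s1530 (.cons (t3 10 30 49) (.cons (t2 17 30 49) (.cons (t3 10 17 49) (.cons a406 (.cons (t2 7 8 23) (.cons (t1 7 10 23) (.cons a143 (.cons (t1 7 8 21) (.cons (t1 8 21 23) (.cons (t1 8 21 24) (.cons (t2 8 21 49) (.cons (t3 3 8 21) (.cons (t2 8 17 21) (.cons (t1 8 21 36) (.cons a134 (.cons (t2 17 21 29) (.cons a208 (.cons a210 (.cons (t1 3 24 29) (.cons (t3 5 7 49) (.cons a203 (.cons (t1 3 5 36) (.cons (t2 5 30 36) (.cons s1676 (.cons (t3 21 24 45) (.cons (t3 5 21 45) (.cons (t1 7 21 45) (.cons (t2 21 45 49) (.cons (t3 21 36 45) (.cons (t3 21 23 45) (.cons s1551 (.cons s177 (.cons a30 (.cons s1277 (.cons (t3 22 45 49) (.cons (t3 24 45 51) (.cons (t1 20 21 45) (.cons (t3 20 45 51) (.cons (t3 23 24 30) (.cons (t2 23 30 36) (.cons s1232 (.cons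 a22 (.cons s750 (.cons (t3 0 7 49) (.cons (t3 20 23 24) (.cons a384 (.cons (t1 11 20 23) (.cons (t3 7 11 21) (.cons a33 .nil)))))))))))))))))))))))))))))))))))))))))))))))))))))))) (by decide +kernel)
theorem s1678 : Valid A [3017, 5863, 2760, 2778, 938, 3912, 1340, 3042, 942] := rup _
  (.cons s1667 (.cons s1613 (.cons s1664 (.cons (t1 7 10 23) (.cons (t2 23 30 36) (.cons (t1 21 23 36) (.cons s1277 (.cons s294 (.cons a398 (.cons (t1 21 22 45) (.cons (t1 22 45 51) (.cons (t3 0 7 49) (.cons (t3 10 22 49) (.cons a497 (.cons a491 (.cons s630 (.cons (t2 0 21 22) (.cons a505 .nil)))))))))))))))))) (by decide +kernel)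
theorem s1679 : Valid A [2736, 2993, 683, 738, 2778, 938, 1066, 456, 968, 433, 398, 942, 1070] := rup _
  (.cons s1613 (.cons (t1 21 23 24) (.cons (t2 3 21 24) (.cons s294 (.cons (t2 5 21 23) (.cons s321 (.cons a60 (.cons (t2 0 5 23) (.cons (t3 3 7 45) (.cons (t3 3 36 45) (.cons s226 (.cons s297 .nil)))))))))))) (by decide +kernel)
theorem s1680 : Valid A [2760, 2778, 1066, 3912, 3144, 456, 4706, 433, 3164, 398, 1059, 1340, 913, 1070, 944] := rup _
  (.cons s1613 (.cons (t2 7 8 49) (.cons (t3 8 21 49) (.cons (t2 7 8 21) (.cons a177 (.cons (t2 7 36 49) (.cons (t3 8 23 49) (.cons (t2 7 8 23) (.cons s680 (.cons s201 (.cons s26 (.cons (t2 5 21 45) (.cons s177 (.cons s1678 (.cons (t3 23 36 46) (.cons a193 (.cons s1679 (.cons a137 (.cons (t3 21 23 24) (.cons a142 (.cons a506 (.cons (t1 5 21 23) (.cons (t1 21 23 51) (.cons s3 (.cons (t1 7 8 29) (.cons (t2 8 29 49) (.cons (t2 8 17 29) (.cons (t1 0 5 23) (.cons (t1 0 7 8) (.cons (t3 0 8 49) (.cons a140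 (.cons s226 (.cons (t3 22 29 49) (.cons (t2 7 22 29) (.cons (t1 7 11 21) (.cons (t1 7 11 36) (.cons (t1 7 11 22) (.cons a491 (.cons s573 (.cons a379 (.cons (t1 0 22 23) (.cons (t1 11 45 51) (.cons a495 (.cons (t3 11 22 51) .nil)))))))))))))))))))))))))))))))))))))))))))) (by decide +kernel)
theorem s1681 : Valid A [2778, 1066, 3912, 3144, 456, 4706, 433, 3164, 398, 482, 1059, 3133, 1340, 913, 1070, 944] := rup _
  (.cons s1667 (.cons s1664 (.cons s1613 (.cons (t2 7 8 21) (.cons (t2 7 36 49) (.cons (t1 3 24 30) (.cons (t2 7 10 30) (.cons (t2 7 8 23) (.cons (t1 7 10 23) (.cons (t1 7 8 24) (.cons s1680 (.cons a204 (.cons (t2 21 24 36) (.cons (t1 3 21 36) (.cons (t2 21 30 36) (.cons (t1 21 36 45) (.cons a207 (.cons s202 (.cons a60 (.cons s1457 (.cons (t1 3 5 7) (.cons (t3 7 21 29) (.cons (t1 3 45 49) (.cons (t3 3 7 45) (.cons (t2 3 24 45) (.cons (t2 3 30 45) (.cons (t3 3 5 45) (.cons s354 (.cons s297 (.cons s177 (.cons a492 (.cons s1277 (.cons (t1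 24 45 51) (.cons (t1 0 7 49) (.cons (t3 23 24 30) (.cons (t1 23 30 45) (.cons a23 (.cons s474 (.cons a383 (.cons s498 (.cons (t1 0 23 45) (.cons (t3 20 24 45) (.cons (t1 11 21 29) (.cons (t2 0 11 45) (.cons a29 (.cons (t2 11 20 45) (.cons (t1 7 20 21) (.cons a33 .nil)))))))))))))))))))))))))))))))))))))))))))))))) (by decide +kernel)
theorem s1682 : Valid A [2760, 42, 2736, 2779, 2786, 938, 4701, 4706, 3164, 942] := rup _
  (.cons s1613 (.cons (t2 7 36 49) (.cons (t3 21 36 46) (.cons s680 (.cons s201 (.cons s569 (.cons s228 (.cons (t1 0 5 21) (.cons s294 (.cons s226 .nil)))))))))) (by decide +kernel)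
theorem s1683 : Valid A [2402, 1340, 1070, 3170] := rup _
  (.cons s1618 (.cons s1613 (.cons s1665 (.cons s1667 (.cons s1664 (.cons s390 (.cons (t3 10 30 49) (.cons s1671 (.cons (t2 7 8 23) (.cons (t1 7 10 23) (.cons (t2 7 8 49) (.cons (t3 8 23 49) (.cons (t2 7 8 10) (.cons (t2 7 24 49) (.cons (t1 7 8 24) (.cons a188 (.cons (t2 7 18 49) (.cons s138 (.cons a468 (.cons s1267 (.cons s1093 (.cons a181 (.cons s76 (.cons a406 (.cons s1533 (.cons (t3 10 17 49) (.cons s1534 (.cons (t2 24 30 46) (.cons s710 (.cons s1318 (.cons (t1 3 24 30) (.cons s1675 (.cons (t1 7 10 33) (.cons a391 (.cons (t1 24 30 33) (.cons (t1 3 30 33) (.cons a53 (.cons a54 (.cons (t2 24 33 36) (.cons (t2 30 33 36) (.cons a177 (.cons s1677 (.cons (t2 7 8 21) (.cons (t1 8 10 21) (.cons (t3 8 21 49) (.cons s1681 (.cons a61 (.cons a63 (.cons (t3 10 21 45) (.cons (t1 3 24 45) (.cons (t1 3 30 45) (.cons (t3 3 21 24) (.cons s202 (.cons s7 (.cons s1682 (.cons a204 (.cons (t3 5 21 45) (.cons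 s177 (.cons (t1 21 45 51) (.cons (t3 30 45 51) (.cons s1271 (.cons (t3 21 23 45) (.cons (t3 21 23 51) (.cons s1332 (.cons s929 .nil))))))))))))))))))))))))))))))))))))))))))))))))))))))))))))))))) (by decide +kernel)
theorem s1684 : Valid A [2403, 913, 3170] := rup _
  (.cons s1618 (.cons s1616 (.cons s1667 (.cons s1613 (.cons s1664 (.cons s1617 (.cons s1669 (.cons s1668 (.cons (t2 7 24 49) (.cons (t1 7 8 24) (.cons (t1 7 8 50) (.cons a188 (.cons a168 (.cons s90 (.cons a514 (.cons (t3 7 18 49) (.cons (t3 10 18 49) (.cons a403 (.cons (t2 7 17 49) (.cons s563 (.cons a348 (.cons s1527 (.cons s182 (.cons s710 (.cons a64 (.cons s145 (.cons a178 (.cons (t2 3 36 49) (.cons (t1 24 34 36) (.cons s1026 (.cons a110 (.cons a112 (.cons a447 (.cons a448 (.cons (t2 7 10 33) (.cons (t3 7 24 33) (.cons (t1 7 8 15) (.cons (t1 7 18 41) (.cons (t1 7 8 41) (.cons a95 (.cons a105 (.cons s219 (.cons a440 (.cons (t3 7 24 39) (.cons (t3 7 17 39) (.cons (t3 7 14 18) (.cons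 s1039 (.cons a523 (.cons a266 (.cons (t3 14 15 41) (.cons (t1 9 10 18) (.cons a94 (.cons s760 (.cons (t3 15 24 50) .nil)))))))))))))))))))))))))))))))))))))))))))))))))))))) (by decide +kernel)
theorem s1685 : Valid A [457, 1070, 3170] := rup _
  (.cons s1664 (.cons s1613 (.cons s1666 (.cons s1665 (.cons s1671 (.cons s1684 (.cons (t2 7 18 49) (.cons s1267 (.cons s1533 (.cons s710 (.cons a46 (.cons s1683 (.cons (t2 10 30 49) (.cons (t2 3 24 36) (.cons s211 (.cons s609 (.cons (t1 46 48 49) .nil))))))))))))))))) (by decide +kernel)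
theorem s1686 : Valid A [4297, 4424, 3144, 835, 433, 1090, 962, 2275, 1124, 1328] := rup _
  (.cons s1668 (.cons s1613 (.cons (t1 24 33 36) (.cons (t2 33 34 36) (.cons s176 (.cons (t1 6 33 48) (.cons a262 (.cons (t1 9 33 48) (.cons a250 (.cons (t2 9 10 24) (.cons a246 (.cons (t2 9 24 50) (.cons (t3 9 33 50) (.cons a314 (.cons s712 (.cons (t2 3 24 27) (.cons a109 (.cons s1528 (.cons (t2 7 15 49) (.cons (t2 17 27 49) (.cons a114 .nil))))))))))))))))))))) (by decide +kernel)
theorem s1687 : Valid A [1070, 3170] := rup _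
  (.cons s1618 (.cons s1616 (.cons s1665 (.cons s1667 (.cons s1664 (.cons s1615 (.cons s1617 (.cons s1613 (.cons a168 (.cons (t2 10 24 49) (.cons s1671 (.cons (t2 7 8 49) (.cons (t1 7 8 50) (.cons (t2 7 8 10) (.cons s1684 (.cons (t2 7 18 49) (.cons s1683 (.cons s1267 (.cons a393 (.cons (t1 7 10 30) (.cons (t2 10 30 49) (.cons (t3 10 24 30) (.cons s1533 (.cons (t2 7 10 33) (.cons (t3 10 33 49) (.cons (t2 8 10 33) (.cons s710 (.cons a310 (.cons (t1 3 24 34) (.cons s1685 (.cons (t1 3 24 36) (.cons (t1 3 34 36) (.cons s1686 (.cons a52 (.cons (t2 3 24 33) (.cons (t3 6 24 33) (.cons a301 (.cons (t2 3 24 39) (.cons s1166 (.cons s969 (.cons (t1 7 30 39) (.cons a443 (.cons s482 (.cons a440 (.cons (t2 7 41 49) (.cons (t2 8 41 49) (.cons a446 (.cons a426 (.cons a96 (.cons (t1 24 33 41) (.cons (t3 18 41 50) (.cons a109 (.cons (t1 15 24 33) (.cons a524 (.cons (t3 18 24 41) (.cons (t3 7 14 15) (.cons (t3 14 18 24) (.cons a92 .nil))))))))))))))))))))))))))))))))))))))))))))))))))))))))))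 (by decide +kernel)
theorem s1688 : Valid A [456, 1340, 3170] := rup _
  (.cons s1618 (.cons s1665 (.cons s1616 (.cons s1615 (.cons s1617 (.cons s1670 (.cons s1613 (.cons s1667 (.cons s1664 (.cons s1687 (.cons s685 (.cons a514 (.cons (t3 10 30 49) (.cons a468 (.cons s1533 (.cons s710 (.cons s390 (.cons (t1 3 24 30) (.cons a51 (.cons (t2 18 30 39) (.cons (t3 3 18 30) (.cons (t3 18 24 30) (.cons a400 (.cons (t2 7 10 23) (.cons s143 (.cons a195 (.cons s1318 (.cons (t2 10 36 49) (.cons (t2 7 18 49) (.cons s74 (.cons s1517 (.cons a194 (.cons (t2 8 23 24) (.cons a402 (.cons (t2 7 8 10) (.cons a185 (.cons s60 (.cons (t1 3 7 49) (.cons (t3 7 17 49) (.cons (t3 8 10 49) (.cons a522 (.cons a168 (.cons (t2 7 24 49) (.cons (t1 3 24 36) (.cons s494 (.cons (t1 3 18 36) (.cons s796 (.cons a177 (.cons (t1 7 10 33) (.cons s431 (.cons s793 (.cons a483 (.cons (t3 7 48 49) (.cons (t1 6 48 49) (.cons (t3 17 48 49) (.cons (t3 8 36 46) (.cons a391 (.cons (t3 8 18 50)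 (.cons s579 (.cons (t3 6 24 34) (.cons (t1 24 30 33) (.cons s482 (.cons (t2 24 27 34) (.cons (t1 18 24 27) (.cons a251 (.cons (t2 17 39 49) (.cons a155 (.cons (t2 6 9 24) (.cons (t1 9 18 24) (.cons s739 (.cons (t2 18 19 27) (.cons a261 (.cons (t2 7 10 19) (.cons (t1 7 19 46) (.cons (t2 7 19 49) (.cons (t1 8 9 48) (.cons (t3 7 9 48) (.cons (t3 9 17 48) (.cons s443 (.cons (t1 18 24 38) (.cons a265 (.cons (t3 8 9 38) (.cons (t1 7 9 38) (.cons (t2 9 17 38) (.cons s567 (.cons a384 (.cons (t2 7 11 49) (.cons (t2 7 11 38) (.cons (t3 0 7 49) (.cons a216 (.cons a131 (.cons (t1 5 7 49) (.cons (t2 7 29 38) (.cons (t2 17 29 38) (.cons s568 (.cons s1232 (.cons (t1 7 10 21) (.cons a207 (.cons (t3 10 22 49) (.cons a204 (.cons a397 (.cons s569 (.cons s118 .nil))))))))))))))))))))))))))))))))))))))))))))))))))))))))))))))))))))))))))))))))))))))))))))))))))))))) (by decide +kernel)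
theorem s1689 : Valid A [2778, 938, 1340, 3170] := rup _
  (.cons s1618 (.cons s1670 (.cons s1667 (.cons s1664 (.cons s1613 (.cons (t1 7 10 21) (.cons s1687 (.cons s685 (.cons s1533 (.cons s710 (.cons a400 (.cons (t2 7 10 23) (.cons s143 (.cons a194 (.cons (t2 3 23 24) (.cons s1688 (.cons (t3 3 23 36) (.cons s390 (.cons (t1 3 24 30) (.cons (t2 3 30 36) (.cons (t2 8 23 24) (.cons (t2 3 8 24) (.cons (t3 3 8 36) (.cons (t2 3 24 36) (.cons (t3 23 24 30) (.cons (t2 7 10 30) (.cons a514 (.cons (t2 7 18 49) (.cons s74 (.cons s1517 (.cons a402 (.cons (t3 8 10 49) (.cons (t1 8 17 49) (.cons s200 (.cons s1673 (.cons a397 (.cons (t1 8 21 36) (.cons (t3 21 24 36) (.cons (t2 21 23 36) (.cons (t3 10 22 49) (.cons a137 (.cons s294 (.cons a142 (.cons (t3 0 7 49) (.cons (t3 8 17 29) (.cons s1232 .nil)))))))))))))))))))))))))))))))))))))))))))))) (by decide +kernel)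
theorem s1690 : Valid A [938, 1340, 3170] := rup _
  (.cons s1665 (.cons s1618 (.cons s1670 (.cons s1664 (.cons s1613 (.cons s1667 (.cons s1687 (.cons s685 (.cons s1533 (.cons s710 (.cons a400 (.cons (t2 7 10 23) (.cons s143 (.cons a194 (.cons (t2 3 23 24) (.cons s1688 (.cons (t3 3 23 36) (.cons s390 (.cons (t3 23 24 30) (.cons a514 (.cons (t3 10 30 49) (.cons a468 (.cons (t2 7 10 30) (.cons a195 (.cons s1318 (.cons a168 (.cons (t3 23 24 34) (.cons s74 (.cons a402 (.cons (t2 7 8 10) (.cons (t3 10 23 49) (.cons (t2 7 24 49) (.cons (t1 7 10 21) (.cons s1689 (.cons s1060 (.cons s1066 .nil)))))))))))))))))))))))))))))))))))) (by decide +kernel)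
theorem s1691 : Valid A [1340, 3170] := rup _
  (.cons s1667 (.cons s1618 (.cons s1664 (.cons s1613 (.cons s1670 (.cons s1687 (.cons a400 (.cons (t2 7 10 23) (.cons s143 (.cons a194 (.cons (t2 8 23 24) (.cons a195 (.cons s685 (.cons s1533 (.cons s710 (.cons (t3 7 17 49) (.cons a402 (.cons (t2 7 8 10) (.cons (t3 10 23 49) (.cons (t2 7 24 49) (.cons s390 (.cons (t1 3 24 30) (.cons (t3 23 24 30) (.cons s1688 (.cons (t2 3 30 36) (.cons s1690 (.cons a210 (.cons (t2 7 21 49) (.cons (t1 7 21 23) (.cons s458 (.cons s568 (.cons s1165 (.cons a203 (.cons s7 (.cons (t2 21 29 49) (.cons (t2 7 17 29) (.cons s32 (.cons (t3 0 21 49) (.cons a505 (.cons a140 (.cons (t2 30 36 51) (.cons (t2 0 23 30) (.cons (t3 22 29 49) (.cons a491 (.cons s630 (.cons (t1 0 22 30) (.cons a497 (.cons a472 .nil)))))))))))))))))))))))))))))))))))))))))))))))) (by decide +kernel)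
theorem s1692 : Valid A [3170] := rup _
  (.cons s1618 (.cons s1670 (.cons s1667 (.cons s1664 (.cons s1666 (.cons s1616 (.cons s1615 (.cons s1613 (.cons s1665 (.cons s1617 (.cons (t2 10 24 49) (.cons a168 (.cons s1687 (.cons a400 (.cons a402 (.cons a521 (.cons s685 (.cons (t2 7 10 23) (.cons (t2 7 8 10) (.cons (t3 8 10 49) (.cons a514 (.cons s1533 (.cons s143 (.cons a185 (.cons s710 (.cons a194 (.cons (t1 23 46 48) (.cons s60 (.cons (t2 8 23 24) (.cons s1691 (.cons a393 (.cons (t2 10 30 49) (.cons (t3 10 24 30) (.cons (t2 7 10 33) (.cons (t3 10 33 49) (.cons s609 (.cons s431 (.cons a310 (.cons s796 (.cons (t3 8 18 50) (.cons (t1 33 48 49) (.cons s482 (.cons s176 (.cons (t2 30 39 49) (.cons (t3 24 33 34) (.cons s1166 (.cons (t3 6 24 33) (.cons a301 .nil)))))))))))))))))))))))))))))))))))))))))))))))) (by decide +kernel)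
theorem s1693 : Valid A [2275] := rup _
  (.cons s1692 (.cons a404 .nil)) (by decide +kernel)
theorem s1694 : Valid A [944] := rup _
  (.cons s1692 (.cons s1613 (.cons (t3 7 24 49) .nil))) (by decide +kernel)
theorem s1695 : Valid A [1328] := rup _
  (.cons s1692 (.cons s1664 (.cons (t3 10 24 49) .nil))) (by decide +kernel)
theorem s1696 : Valid A [817] := rup _
  (.cons s1692 (.cons s1615 (.cons (t1 6 24 49) .nil))) (by decide +kernel)
theorem s1697 : Valid A [3173] := rup _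
  (.cons s1692 (.cons s1617 (.cons (t2 24 49 50) .nil))) (by decide +kernel)
theorem s1698 : Valid A [3555] := rup _
  (.cons s1692 (.cons s1641 .nil)) (by decide +kernel)
theorem s1699 : Valid A [3165] := rup _
  (.cons s1692 (.cons s1665 (.cons (t2 24 46 49) .nil))) (by decide +kernel)
theorem s1700 : Valid A [931] := rup _
  (.cons s1693 (.cons s1613 (.cons (t2 7 17 49) .nil))) (by decide +kernel)
theorem s1701 : Valid A [399] := rup _
  (.cons s1694 (.cons a65 .nil)) (by decide +kernel)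
theorem s1702 : Valid A [433] := rup _
  (.cons s1694 (.cons a67 .nil)) (by decide +kernel)
theorem s1703 : Valid A [405] := rup _
  (.cons s1695 (.cons s1702 (.cons (t1 3 10 24) .nil))) (by decide +kernel)
theorem s1704 : Valid A [3127] := rup _
  (.cons s1698 (.cons s1692 (.cons (t2 24 27 49) .nil))) (by decide +kernel)
theorem s1705 : Valid A [951] := rup _
  (.cons s1698 (.cons s1613 (.cons (t2 7 27 49) .nil))) (by decide +kernel)
theorem s1706 : Valid A [483] := rup _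
  (.cons s1701 (.cons s1613 (.cons (t3 3 7 49) .nil))) (by decide +kernel)
theorem s1707 : Valid A [3556] := rup _
  (.cons s1704 (.cons s1697 (.cons a313 .nil))) (by decide +kernel)
theorem s1708 : Valid A [2402, 456, 1340, 1070, 912] := rup _
  (.cons s1670 (.cons s1694 (.cons s1664 (.cons s1702 (.cons s1699 (.cons s1667 (.cons s1665 (.cons s1692 (.cons s1613 (.cons (t3 10 30 49) (.cons (t3 7 8 24) (.cons a185 (.cons s1558 (.cons (t3 7 23 24) (.cons (t1 23 24 49) (.cons (t3 8 23 46) (.cons s60 (.cons (t1 18 24 49) (.cons (t1 18 23 49) (.cons a468 (.cons s977 (.cons s1637 (.cons (t3 8 18 30) (.cons (t2 3 8 30) (.cons (t1 3 8 36) (.cons s1187 (.cons s298 (.cons (t3 7 36 49) .nil)))))))))))))))))))))))))))) (by decide +kernel)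
theorem s1709 : Valid A [456, 1340, 1070, 912] := rup _
  (.cons s1670 (.cons s1694 (.cons s1665 (.cons s1692 (.cons s1613 (.cons s1701 (.cons s1616 (.cons s1707 (.cons (t3 7 8 24) (.cons a185 (.cons s1558 (.cons (t3 7 23 24) (.cons (t1 23 24 49) (.cons a182 (.cons s1708 (.cons (t3 18 23 49) (.cons a484 (.cons (t3 23 36 49) (.cons (t2 7 23 36) (.cons s298 (.cons s494 (.cons (t1 3 8 36) (.cons s431 (.cons (t3 8 17 50) (.cons (t3 3 8 50) (.cons (t1 17 27 50) (.cons (t1 3 27 50) (.cons s1528 .nil)))))))))))))))))))))))))))) (by decide +kernel)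
theorem s1710 : Valid A [2760, 938, 444, 1097, 457, 3004, 3909, 3938, 1327, 2993, 1070, 1072] := rup _
  (.cons s1701 (.cons s1703 (.cons s1699 (.cons s1702 (.cons s1697 (.cons s1707 (.cons s1695 (.cons s1667 (.cons s1694 (.cons s1664 (.cons s1613 (.cons s1706 (.cons s1692 (.cons s1669 (.cons (t3 7 21 24) (.cons (t1 7 10 21) (.cons (t3 7 23 24) (.cons (t3 7 21 23) (.cons (t3 7 21 49) (.cons (t2 23 24 50) (.cons (t1 3 23 24) (.cons (t3 3 23 36) (.cons (t3 3 24 36) (.cons a177 (.cons s78 (.cons a483 (.cons (t2 18 23 50) (.cons (t2 3 18 36) (.cons (t2 18 23 30) (.cons s139 (.cons a433 (.cons (t3 27 39 50) (.cons (t3 7 18 23) (.cons (t2 7 18 39) (.cons (t3 3 10 36) (.cons (t1 3 36 49) (.cons (t3 3 7 36) (.cons (t1 23 24 49) (.cons s201 (.cons s680 (.cons s986 (.cons (t2 8 21 36) (.cons (t1 10 24 28) (.cons (t2 5 8 21) (.cons s321 (.cons s202 (.cons (t3 0 7 23) (.cons a384 (.cons (t3 7 11 49) (.cons (t3 7 11 23) (.cons (t1 7 10 11) (.cons s250 (.cons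 a215 (.cons a387 (.cons a34 (.cons s337 (.cons (t2 11 21 36) (.cons (t1 11 21 29) (.cons s67 (.cons (t1 11 28 36) (.cons (t3 20 21 29) (.cons (t2 21 28 29) (.cons a132 (.cons a238 (.cons (t2 5 11 52) (.cons (t2 23 49 52) (.cons (t3 23 30 52) (.cons s335 (.cons a235 (.cons (t1 29 30 34) (.cons (t1 11 29 30) (.cons (t2 24 42 49) (.cons (t1 29 34 38) (.cons a373 (.cons a367 (.cons a158 (.cons (t3 11 16 28) (.cons (t3 28 36 42) (.cons (t2 28 29 42) (.cons (t2 10 23 38) (.cons (t3 16 28 42) (.cons a128 (.cons a124 (.cons a353 (.cons (t3 27 29 30) (.cons (t3 27 29 39) (.cons (t2 7 23 37) (.cons (t3 8 16 36) (.cons (t3 3 16 36) (.cons (t3 27 30 39) (.cons a121 (.cons a26 (.cons a48 (.cons (t3 3 37 39) (.cons (t1 29 37 39) (.cons (t2 3 16 20) (.cons (t3 3 20 37) (.cons a11 .nil)))))))))))))))))))))))))))))))))))))))))))))))))))))))))))))))))))))))))))))))))))))))))))))))))) (by decide +kernel)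
theorem s1711 : Valid A [938, 3912, 1097, 457, 1340, 1327, 2993, 1070, 1072] := rup _
  (.cons s1669 (.cons s1706 (.cons s1696 (.cons s1699 (.cons s1702 (.cons s1697 (.cons s1705 (.cons s1694 (.cons s1664 (.cons s1695 (.cons s1707 (.cons s1667 (.cons s1613 (.cons s1615 (.cons s1692 (.cons s1698 (.cons (t2 23 24 50) (.cons (t1 3 23 24) (.cons (t3 3 23 36) (.cons (t3 3 24 36) (.cons a177 (.cons s78 (.cons a483 (.cons (t2 18 23 50) (.cons (t2 3 18 36) (.cons (t1 10 23 30) (.cons (t2 18 23 30) (.cons (t2 3 30 36) (.cons s139 (.cons a433 (.cons (t3 27 39 50) (.cons (t1 18 23 24) (.cons (t1 18 24 39) (.cons a300 (.cons (t3 6 27 39) (.cons (t1 3 36 49) (.cons a55 (.cons a162 (.cons (t3 10 30 49) (.cons (t3 7 23 24) (.cons (t1 23 24 49) (.cons (t3 7 21 49) (.cons (t3 7 21 23) (.cons (t3 7 21 24) (.cons s1710 (.cons a204 (.cons a490 (.cons (t3 3 21 36) (.cons (t3 8 21 36) (.cons (t2 21 30 36) (.cons a207 (.cons a143 (.cons (t1 5 7 49) (.cons (t1 5 7 24)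 (.cons (t2 5 7 27) (.cons a134 (.cons a216 (.cons (t1 5 24 29) (.cons (t3 5 27 29) (.cons s10 (.cons (t1 10 24 29) (.cons (t2 7 11 49) (.cons (t2 10 11 49) (.cons (t1 11 23 49) (.cons (t1 0 7 24) (.cons (t1 0 23 24) (.cons a383 (.cons a505 (.cons (t3 0 8 21) (.cons (t3 0 3 21) (.cons (t2 0 21 30) (.cons (t2 0 11 21) (.cons (t2 0 8 11) (.cons (t2 0 3 11) (.cons (t1 0 11 30) (.cons (t2 11 21 28) (.cons a41 (.cons s231 (.cons a387 (.cons (t3 11 12 21) (.cons (t2 8 11 12) (.cons (t1 30 34 52) (.cons s116 (.cons (t2 10 28 49) (.cons (t2 10 24 28) (.cons (t1 7 10 28) (.cons (t2 10 28 29) (.cons a499 (.cons (t3 36 49 52) (.cons (t3 33 36 52) (.cons a368 (.cons (t2 7 28 42) (.cons (t3 7 12 49) (.cons (t3 28 42 49) (.cons (t1 28 29 42) (.cons (t1 7 12 42) (.cons a234 (.cons a126 (.cons a360 (.cons (t1 34 42 52) (.cons (t1 33 42 52) (.cons (t2 27 42 50) (.cons (t1 6 27 42) (.cons (t1 8 42 50) (.cons (t2 6 34 42) (.cons (t2 6 33 42) (.cons a108 (.cons s793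 (.cons a310 (.cons s1640 (.cons a112 (.cons (t3 15 33 49) .nil)))))))))))))))))))))))))))))))))))))))))))))))))))))))))))))))))))))))))))))))))))))))))))))))))))))))))))))))) (by decide +kernel)
theorem s1712 : Valid A [1340, 1070, 912] := rup _
  (.cons s1670 (.cons s1697 (.cons s1669 (.cons s1702 (.cons s1706 (.cons s1703 (.cons s1665 (.cons s1699 (.cons s1664 (.cons s1696 (.cons s1694 (.cons s1701 (.cons s1704 (.cons s1707 (.cons s1667 (.cons s1613 (.cons s1615 (.cons s1692 (.cons s1698 (.cons (t3 7 8 24) (.cons a185 (.cons s1558 (.cons (t2 23 24 50) (.cons (t1 3 23 24) (.cons (t3 7 23 24) (.cons (t3 8 23 46) (.cons (t3 7 8 10) (.cons a399 (.cons (t2 7 10 30) (.cons a162 (.cons (t1 10 23 30) (.cons s1709 (.cons a55 (.cons (t3 3 24 36) (.cons (t3 3 7 36) (.cons (t1 3 36 49) (.cons (t3 3 10 36) (.cons (t3 3 23 36) (.cons a177 (.cons s298 (.cons s78 (.cons s243 (.cons (t3 3 8 36) (.cons (t2 3 18 36) (.cons a483 (.cons (t1 30 34 36) (.cons (t2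 3 30 36) (.cons (t1 18 23 24) (.cons (t2 18 23 30) (.cons (t2 18 23 50) (.cons (t2 8 34 36) (.cons s139 (.cons (t1 18 24 39) (.cons a433 (.cons a300 (.cons (t3 27 39 50) (.cons (t3 6 27 39) (.cons s1711 (.cons a210 (.cons (t2 7 21 49) (.cons (t3 7 8 21) (.cons (t2 7 21 24) (.cons (t1 7 21 36) (.cons a203 (.cons a500 (.cons a137 (.cons s253 (.cons (t3 5 8 36) (.cons (t2 5 33 36) (.cons (t2 7 12 49) (.cons a142 (.cons (t2 7 11 24) (.cons (t2 7 10 11) (.cons (t3 3 7 11) (.cons (t2 7 11 21) (.cons (t1 7 11 12) (.cons (t1 5 8 29) (.cons (t1 5 29 33) (.cons (t1 8 29 34) (.cons a389 (.cons (t1 11 21 28) (.cons a40 (.cons (t1 11 24 28) (.cons a487 (.cons (t2 3 8 12) (.cons (t3 8 28 36) (.cons a361 (.cons (t1 8 28 42) (.cons (t1 8 29 42) (.cons a367 (.cons (t3 24 27 42) (.cons a126 (.cons (t3 8 27 29) (.cons (t2 27 29 34) (.cons (t2 27 29 33) (.cons (t1 8 27 50) (.cons (t2 6 27 34) (.cons (t2 6 27 33) (.cons a108 (.cons s793 (.cons a310 (.cons s1640 (.cons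 a112 (.cons (t3 15 33 49) .nil)))))))))))))))))))))))))))))))))))))))))))))))))))))))))))))))))))))))))))))))))))))))))))))))))))))))) (by decide +kernel)
theorem s1713 : Valid A [1070, 912] := rup _
  (.cons s1670 (.cons s1664 (.cons s1703 (.cons s1667 (.cons s1616 (.cons s1693 (.cons s1702 (.cons s1699 (.cons s1698 (.cons s1617 (.cons s1613 (.cons s1706 (.cons s1692 (.cons s1694 (.cons a185 (.cons s60 (.cons (t3 8 23 46) (.cons s1712 (.cons a393 (.cons (t2 10 30 49) (.cons (t3 3 10 30) (.cons (t2 7 10 33) (.cons a469 (.cons a470 (.cons s431 (.cons (t1 18 24 49) (.cons a513 (.cons a108 (.cons a427 (.cons (t3 8 18 50) (.cons s977 (.cons s1529 (.cons s1640 (.cons (t2 3 8 41) (.cons s482 (.cons s139 (.cons (t3 15 24 49) (.cons (t2 7 39 49) (.cons s969 (.cons a93 (.cons (t1 3 39 41) (.cons (t3 14 24 49) (.cons (t2 7 14 24) (.cons a442 (.cons (t1 14 41 49) (.cons a439 (.cons (t1 18 41 49) (.cons a523 (.cons (t2 14 18 39) .nil)))))))))))))))))))))))))))))))))))))))))))))))))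 (by decide +kernel)
theorem s1714 : Valid A [4706, 456, 912] := rup _
  (.cons s1670 (.cons s1665 (.cons s1692 (.cons s1613 (.cons s1701 (.cons s1616 (.cons s1707 (.cons a185 (.cons a182 (.cons (t2 7 36 49) (.cons s298 (.cons s494 (.cons (t1 3 8 36) (.cons s431 (.cons (t3 3 8 50) (.cons (t3 8 17 50) (.cons (t1 3 27 50) (.cons (t1 17 27 50) (.cons s1528 .nil))))))))))))))))))) (by decide +kernel)
theorem s1715 : Valid A [4707, 1340] := rup _
  (.cons s1692 (.cons s1613 (.cons s1701 (.cons s1667 (.cons s1702 (.cons a480 (.cons (t3 7 36 49) (.cons (t2 24 48 49) (.cons s906 (.cons a44 (.cons s18 .nil))))))))))) (by decide +kernel)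
theorem s1716 : Valid A [2760, 938, 1340, 912] := rup _
  (.cons s1665 (.cons s1670 (.cons s1694 (.cons s1699 (.cons s1667 (.cons s1701 (.cons s1703 (.cons s1613 (.cons s1692 (.cons (t3 7 21 24) (.cons (t3 7 21 49) (.cons a185 (.cons s1713 (.cons (t2 8 23 46) (.cons s1715 (.cons s1714 (.cons s140 (.cons (t1 3 36 46) (.cons (t3 3 23 46) (.cons (t3 23 36 46) (.cons s298 (.cons (t2 7 36 49) (.cons (t2 7 10 30) (.cons (t3 7 8 49) (.cons (t1 8 23 49) (.cons (t3 7 8 23) (.cons (t3 7 8 24) (.cons (t2 3 21 36) (.cons (t1 21 23 36) (.cons s201 (.cons s680 (.cons (t2 8 21 36) (.cons s294 (.cons s202 (.cons s7 (.cons s1682 (.cons (t1 0 5 21) (.cons s263 (.cons s226 (.cons (t2 3 30 36) (.cons (t2 3 23 30) (.cons (t1 7 11 23) (.cons s249 .nil))))))))))))))))))))))))))))))))))))))))))) (by decide +kernel)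
theorem s1717 : Valid A [938, 1340, 912] := rup _
  (.cons s1670 (.cons s1665 (.cons s1700 (.cons s1667 (.cons s1692 (.cons s1698 (.cons s1613 (.cons s1694 (.cons s1664 (.cons s1695 (.cons s1715 (.cons s1714 (.cons a54 (.cons s298 (.cons (t3 3 8 36) (.cons a185 (.cons s1713 (.cons (t2 8 23 46) (.cons s140 (.cons (t3 23 36 46) (.cons (t2 10 36 49) (.cons (t2 7 36 49) (.cons (t2 24 36 49) (.cons (t3 7 21 49) (.cons (t3 7 21 24) (.cons s1716 (.cons a204 (.cons (t3 3 21 36) (.cons (t1 21 36 46) (.cons (t3 8 21 36) (.cons a207 (.cons a62 (.cons a143 (.cons (t1 5 7 49) (.cons (t1 5 7 24) (.cons (t2 5 7 17) (.cons (t1 3 36 45) (.cons a134 (.cons s377 (.cons a216 (.cons a217 (.cons (t1 5 24 29) (.cons (t3 5 17 29) (.cons s10 (.cons (t2 7 11 49) (.cons (t2 10 11 49) (.cons (t1 11 29 49) (.cons (t1 0 7 24) (.cons a383 (.cons s235 (.cons (t2 3 8 30) (.cons (t1 3 30 33) (.cons (t2 3 30 36) (.cons a391 (.cons (t1 7 10 33) (.cons a110 (.cons a112 (.cons a447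 (.cons a448 (.cons (t3 7 15 49) (.cons (t1 7 10 41) (.cons a95 (.cons s1640 (.cons s244 (.cons a107 (.cons (t1 8 30 41) (.cons (t3 8 15 41) .nil))))))))))))))))))))))))))))))))))))))))))))))))))))))))))))))))))) (by decide +kernel)
theorem s1718 : Valid A [1340, 912] := rup _
  (.cons s1670 (.cons s1665 (.cons s1692 (.cons s1667 (.cons s1664 (.cons s1695 (.cons s1613 (.cons s1694 (.cons s1700 (.cons a185 (.cons s1713 (.cons (t2 8 23 46) (.cons (t3 7 8 23) (.cons a400 (.cons a183 (.cons (t3 7 8 24) (.cons (t2 7 10 30) (.cons s1715 (.cons (t2 24 36 49) (.cons (t2 7 36 49) (.cons s140 (.cons s298 (.cons s1714 (.cons (t1 17 36 46) (.cons (t3 23 36 46) (.cons s1717 (.cons a210 (.cons (t2 7 21 49) (.cons (t3 7 8 21) (.cons (t1 7 21 23) (.cons (t2 7 10 21) (.cons (t2 7 21 24) (.cons (t3 7 17 21) (.cons (t1 7 21 36) (.cons a203 (.cons a503 (.cons a135 (.cons a137 (.cons (t3 5 8 36) (.cons (t2 5 17 36) (.cons (t2 10 13 49) (.cons (t2 10 24 29) (.cons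 a142 (.cons (t1 5 8 29) (.cons (t3 5 17 29) (.cons s3 (.cons (t2 8 29 36) (.cons (t3 0 8 23) (.cons a505 (.cons s245 (.cons (t2 0 17 21) (.cons a381 (.cons (t3 5 11 36) (.cons (t2 11 17 36) (.cons (t3 11 23 36) (.cons s1420 (.cons (t2 5 11 45) (.cons a239 (.cons a146 (.cons (t3 4 29 36) (.cons s177 (.cons s284 (.cons (t1 23 36 52) (.cons (t2 4 10 13) (.cons (t1 10 21 45) (.cons a476 (.cons s1276 (.cons (t1 13 36 46) (.cons (t2 13 36 52) (.cons (t2 23 30 46) (.cons (t1 11 23 30) (.cons (t1 23 30 52) (.cons (t3 13 30 46) (.cons a373 (.cons a374 (.cons s147 (.cons (t2 13 16 30) (.cons a375 (.cons (t3 7 17 52) (.cons a220 (.cons (t2 16 17 52) .nil))))))))))))))))))))))))))))))))))))))))))))))))))))))))))))))))))))))))))))))))) (by decide +kernel)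
theorem s1719 : Valid A [912] := rup _
  (.cons s1694 (.cons s1670 (.cons s1664 (.cons s1703 (.cons s1667 (.cons s1616 (.cons s1693 (.cons s1704 (.cons (t3 7 8 24) (.cons a185 (.cons s60 (.cons s1713 (.cons s1718 (.cons a393 (.cons (t2 10 30 49) (.cons (t3 3 10 30) (.cons (t2 7 10 33) (.cons a469 (.cons a470 (.cons s431 (.cons a513 (.cons s579 (.cons s1529 (.cons s139 .nil)))))))))))))))))))))))) (by decide +kernel)
theorem s1720 : Valid A [1117] := rup _
  (.cons s1719 (.cons a188 .nil)) (by decide +kernel)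
theorem s1721 : Valid A [1122] := rup _
  (.cons s1719 (.cons s1613 (.cons (t2 7 8 49) .nil))) (by decide +kernel)
theorem s1722 : Valid A [1125] := rup _
  (.cons s1719 (.cons s1616 (.cons (t1 7 8 50) .nil))) (by decide +kernel)
theorem s1723 : Valid A [1072] := rup _
  (.cons s1719 (.cons s1694 (.cons (t2 7 8 24) .nil))) (by decide +kernel)
theorem s1724 : Valid A [1044] := rup _
  (.cons s1719 (.cons s1667 (.cons (t2 7 8 10) .nil))) (by decide +kernel)
theorem s1725 : Valid A [2268] := rup _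
  (.cons s1719 (.cons s1700 (.cons s1093 .nil))) (by decide +kernel)
theorem s1726 : Valid A [1327] := rup _
  (.cons s1724 (.cons a401 .nil)) (by decide +kernel)
theorem s1727 : Valid A [1071] := rup _
  (.cons s1724 (.cons a402 .nil)) (by decide +kernel)
theorem s1728 : Valid A [477] := rup _
  (.cons s1725 (.cons s1535 .nil)) (by decide +kernel)
theorem s1729 : Valid A [2402] := rup _
  (.cons s1725 (.cons s1665 (.cons s138 .nil))) (by decide +kernel)
theorem s1730 : Valid A [2993] := rup _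
  (.cons s1726 (.cons s1695 (.cons (t3 10 23 24) .nil))) (by decide +kernel)
theorem s1731 : Valid A [3036] := rup _
  (.cons s1727 (.cons s1720 (.cons s1723 (.cons s326 .nil)))) (by decide +kernel)
theorem s1732 : Valid A [3939] := rup _
  (.cons s1729 (.cons a469 .nil)) (by decide +kernel)
theorem s1733 : Valid A [2365] := rup _
  (.cons s1729 (.cons a471 .nil)) (by decide +kernel)
theorem s1734 : Valid A [2352] := rup _
  (.cons s1729 (.cons s1692 (.cons (t3 18 24 49) .nil))) (by decide +kernel)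
theorem s1735 : Valid A [2405] := rup _
  (.cons s1729 (.cons s1617 (.cons (t2 18 49 50) .nil))) (by decide +kernel)
theorem s1736 : Valid A [2359] := rup _
  (.cons s1729 (.cons s1698 (.cons (t2 18 27 49) .nil))) (by decide +kernel)
theorem s1737 : Valid A [421] := rup _
  (.cons s1729 (.cons s1706 (.cons (t1 3 18 49) .nil))) (by decide +kernel)
theorem s1738 : Valid A [1341] := rup _
  (.cons s1732 (.cons s1664 (.cons (t2 10 30 49) .nil))) (by decide +kernel)
theorem s1739 : Valid A [3908] := rup _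
  (.cons s1738 (.cons s1669 (.cons a162 .nil))) (by decide +kernel)
theorem s1740 : Valid A [4707] := rup _
  (.cons s1738 (.cons s1715 .nil)) (by decide +kernel)
theorem s1741 : Valid A [969] := rup _
  (.cons s1740 (.cons s1613 (.cons (t2 7 36 49) .nil))) (by decide +kernel)
theorem s1742 : Valid A [4700] := rup _
  (.cons s1740 (.cons s1692 (.cons s1665 (.cons s140 .nil)))) (by decide +kernel)
theorem s1743 : Valid A [457] := rup _
  (.cons s1742 (.cons s1728 (.cons (t1 3 36 46) .nil))) (by decide +kernel)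
theorem s1744 : Valid A [3016] := rup _
  (.cons s1742 (.cons s1731 (.cons (t3 23 36 46) .nil))) (by decide +kernel)
theorem s1745 : Valid A [963] := rup _
  (.cons s1743 (.cons s1741 (.cons s1701 (.cons s494 .nil)))) (by decide +kernel)
theorem s1746 : Valid A [4323] := rup _
  (.cons s1745 (.cons s1613 (.cons (t3 7 33 49) .nil))) (by decide +kernel)
theorem s1747 : Valid A [1347] := rup _
  (.cons s1745 (.cons s1667 (.cons (t1 7 10 33) .nil))) (by decide +kernel)
theorem s1748 : Valid A [836] := rup _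
  (.cons s1745 (.cons s1613 (.cons s1738 (.cons s1667 (.cons s793 .nil))))) (by decide +kernel)
theorem s1749 : Valid A [834] := rup _
  (.cons s1746 (.cons s1615 (.cons a310 .nil))) (by decide +kernel)
theorem s1750 : Valid A [3906] := rup _
  (.cons s1747 (.cons s1738 (.cons a391 .nil))) (by decide +kernel)
theorem s1751 : Valid A [828] := rup _
  (.cons s1748 (.cons s1739 (.cons (t3 6 30 34) .nil))) (by decide +kernel)
theorem s1752 : Valid A [3913] := rup _
  (.cons s1743 (.cons s1744 (.cons s1737 (.cons s1733 (.cons s1751 (.cons s1734 (.cons s1735 (.cons s1696 (.cons s1707 (.cons (t1 3 30 36) (.cons (t3 23 30 36) (.cons s139 (.cons (t3 6 23 30) (.cons (t1 18 24 39) (.cons a433 (.cons a300 (.cons (t3 27 39 50) (.cons (t2 6 23 39) (.cons a328 .nil))))))))))))))))))) (by decide +kernel)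
theorem s1753 : Valid A [4297] := rup _
  (.cons s1752 (.cons s1750 (.cons (t1 30 33 36) .nil))) (by decide +kernel)
theorem s1754 : Valid A [450] := rup _
  (.cons s1753 (.cons s1743 (.cons a52 .nil))) (by decide +kernel)
theorem s1755 : Valid A [3011] := rup _
  (.cons s1753 (.cons s1744 (.cons (t2 23 33 36) .nil))) (by decide +kernel)
theorem s1756 : Valid A [396] := rup _
  (.cons s1754 (.cons s1749 (.cons (t3 3 6 33) .nil))) (by decide +kernel)
theorem s1757 : Valid A [444] := rup _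
  (.cons s1754 (.cons s1750 (.cons (t3 3 30 33) .nil))) (by decide +kernel)
theorem s1758 : Valid A [463] := rup _
  (.cons s1757 (.cons a50 .nil)) (by decide +kernel)
theorem s1759 : Valid A [847] := rup _
  (.cons s1758 (.cons s1756 (.cons (t1 3 6 39) .nil))) (by decide +kernel)
theorem s1760 : Valid A [3150] := rup _
  (.cons s1759 (.cons s1696 (.cons a300 .nil))) (by decide +kernel)
theorem s1761 : Valid A [3161] := rup _
  (.cons s1760 (.cons a270 .nil)) (by decide +kernel)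
theorem s1762 : Valid A [5090] := rup _
  (.cons s1760 (.cons s1692 (.cons (t2 24 39 49) .nil))) (by decide +kernel)
theorem s1763 : Valid A [3535] := rup _
  (.cons s1760 (.cons s1704 (.cons (t3 24 27 39) .nil))) (by decide +kernel)
theorem s1764 : Valid A [3023] := rup _
  (.cons s1760 (.cons s1730 (.cons (t3 23 24 39) .nil))) (by decide +kernel)
theorem s1765 : Valid A [2393] := rup _
  (.cons s1761 (.cons s1734 (.cons (t2 18 24 44) .nil))) (by decide +kernel)
theorem s1766 : Valid A [5347] := rup _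
  (.cons s1762 (.cons a443 .nil)) (by decide +kernel)
theorem s1767 : Valid A [2998] := rup _
  (.cons s1763 (.cons s1764 (.cons a325 .nil))) (by decide +kernel)
theorem s1768 : Valid A [3544] := rup _
  (.cons s1765 (.cons s1736 (.cons a276 .nil))) (by decide +kernel)
theorem s1769 : Valid A [979] := rup _
  (.cons s1766 (.cons s1613 (.cons (t2 7 41 49) .nil))) (by decide +kernel)
theorem s1770 : Valid A [1107] := rup _
  (.cons s1766 (.cons s1721 (.cons (t2 8 41 49) .nil))) (by decide +kernel)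
theorem s1771 : Valid A [3044] := rup _
  (.cons s1767 (.cons s1707 (.cons (t1 23 27 50) .nil))) (by decide +kernel)
theorem s1772 : Valid A [3523] := rup _
  (.cons s1767 (.cons s1755 (.cons (t1 23 27 33) .nil))) (by decide +kernel)
theorem s1773 : Valid A [3032] := rup _
  (.cons s1768 (.cons s1767 (.cons (t1 23 27 44) .nil))) (by decide +kernel)
theorem s1774 : Valid A [4313] := rup _
  (.cons s1768 (.cons s1772 (.cons (t3 27 33 44) .nil))) (by decide +kernel)
theorem s1775 : Valid A [4306] := rup _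
  (.cons s1769 (.cons s1745 (.cons a446 .nil))) (by decide +kernel)
theorem s1776 : Valid A [5348] := rup _
  (.cons s1770 (.cons s1722 (.cons a426 .nil))) (by decide +kernel)
theorem s1777 : Valid A [3026] := rup _
  (.cons s1771 (.cons s1776 (.cons (t3 23 41 50) .nil))) (by decide +kernel)
theorem s1778 : Valid A [5336] := rup _
  (.cons s1773 (.cons s1777 (.cons (t2 23 41 44) .nil))) (by decide +kernel)
theorem s1779 : Valid A [] := rup _
  (.cons s1778 (.cons s1774 (.cons s1775 (.cons (t1 33 41 44) .nil)))) (by decide +kernel)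

end Pool.Agent.Helper50.Canon.CD
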